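import Pool.Agent.Work.MP_8d13b5_lc.Fm.StmtsFz

set_option autoImplicit false

namespace Pool.Agent.Work.MP_8d13b5_lc.Fm

open Polynomial NumberField Finset Module

namespace SQZ

open scoped Kronecker

/-- the companion matrix -/
def comp (f : ℤ[X]) (e : ℕ) : Matrix (Fin e) (Fin e) ℤ := fun i j =>
  if i.1 + 1 < e then (if j.1 = i.1 + 1 then 1 else 0) else -f.coeff j.1

theorem comp_mulVec_lt (f : ℤ[X]) (e : ℕ) (v : Fin e → ℤ) (i : Fin e) (hi : i.1 + 1 < e) :
    ((comp f e).mulVec v) i = v ⟨i.1 + 1, hi⟩ := by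
  unfold Matrix.mulVec dotProduct
  rw [sum_eq_single (⟨i.1 + 1, hi⟩ : Fin e)]
  · simp [comp, hi]
  · intro j _ hj
    have : j.1 ≠ i.1 + 1 := fun h => hj (Fin.ext h)
    simp [comp, hi, this]
  · intro h
    exact absurd (mem_univ _) h

theorem comp_mulVec_last (f : ℤ[X]) (e : ℕ) (v : Fin e → ℤ) (i : Fin e) (hi : ¬ i.1 + 1 < e) :
    ((comp f e).mulVec v) i = -∑ j : Fin e, f.coeff j.1 * v j := by
  unfold Matrix.mulVec dotProduct
  rw [← sum_neg_distrib]
  refine sum_congr rfl fun j _ => ?_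
  simp [comp, hi]

theorem comp_det_ne (f : ℤ[X]) (e : ℕ) (he : 1 ≤ e) (h0 : f.coeff 0 ≠ 0) : (comp f e).det ≠ 0 := by
  intro h
  obtain ⟨v, hv, hv0⟩ := Matrix.exists_mulVec_eq_zero_iff.2 h
  have h1 : ∀ i : Fin e, i.1 ≠ 0 → v i = 0 := by
    intro i hi
    have hlt : i.1 - 1 + 1 < e := by have := i.2; omega
    have h2 := comp_mulVec_lt f e v ⟨i.1 - 1, by omega⟩ hlt
    rw [hv0] at h2
    have h3 : (⟨i.1 - 1 + 1, hlt⟩ : Fin e) = i := Fin.ext (by show i.1 - 1 + 1 = i.1; omega)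
    have h4 : v ⟨i.1 - 1 + 1, hlt⟩ = 0 := h2.symm
    rw [h3] at h4
    exact h4
  have h2 := comp_mulVec_last f e v ⟨e - 1, by omega⟩ (by show ¬ (e - 1 + 1 < e); omega)
  rw [hv0] at h2
  have h3 : ∑ j : Fin e, f.coeff j.1 * v j = f.coeff 0 * v ⟨0, by omega⟩ := by
    rw [sum_eq_single (⟨0, by omega⟩ : Fin e)]
    · intro j _ hj
      rw [h1 j (fun h => hj (Fin.ext h)), mul_zero]
    · intro h
      exact absurd (mem_univ _) h
  rw [h3] at h2
  have h4 : f.coeff 0 * v ⟨0, by omega⟩ = 0 := neg_eq_zero.1 h2.symm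
  have h5 := (mul_eq_zero.1 h4).resolve_left h0
  apply hv
  funext i
  by_cases hi : i.1 = 0
  · have : i = ⟨0, by omega⟩ := Fin.ext hi
    rw [this, h5]
    rfl
  · exact h1 i hi

theorem comp_sol (f : ℤ[X]) (hf : f.Monic) (y : ℕ → ℤ) (hy : Pd.Sol f y) (n : ℕ) :
    (comp f f.natDegree).mulVec (fun a => y (n + a.1)) = fun a => y (n + 1 + a.1) := by
  funext i
  by_cases hi : i.1 + 1 < f.natDegree
  · rw [comp_mulVec_lt f _ _ i hi]
    show y (n + (i.1 + 1)) = _
    congr 1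
    ring
  · rw [comp_mulVec_last f _ _ i hi]
    have h1 := hy.next hf n
    have h2 : n + 1 + i.1 = n + f.natDegree := by have := i.2; omega
    rw [h2, h1]
    congr 1
    rw [Finset.sum_range]

theorem kron_sol (f : ℤ[X]) (hf : f.Monic) (y : ℕ → ℤ) (hy : Pd.Sol f y) (n : ℕ) :
    ((comp f f.natDegree) ⊗ₖ (comp f f.natDegree)).mulVec
      (fun a => y (n + a.1.1) * y (n + a.2.1)) = fun a => y (n + 1 + a.1.1) * y (n + 1 + a.2.1) := by
  funext i
  have h1 := congrFun (comp_sol f hf y hy n) i.1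
  have h2 := congrFun (comp_sol f hf y hy n) i.2
  show _ = y (n + 1 + i.1.1) * y (n + 1 + i.2.1)
  have h1' : y (n + 1 + i.1.1) = ∑ j, comp f f.natDegree i.1 j * y (n + j.1) := h1.symm
  have h2' : y (n + 1 + i.2.1) = ∑ j, comp f f.natDegree i.2 j * y (n + j.1) := h2.symm
  rw [h1', h2', Finset.sum_mul_sum]
  unfold Matrix.mulVec dotProduct
  rw [Fintype.sum_prod_type]
  refine sum_congr rfl fun a _ => sum_congr rfl fun b _ => ?_
  show comp f f.natDegree i.1 a * comp f f.natDegree i.2 b * (y (n + a.1) * y (n + b.1)) = _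
  ring

theorem kron_pow (f : ℤ[X]) (hf : f.Monic) (y : ℕ → ℤ) (hy : Pd.Sol f y) (n i : ℕ) :
    (((comp f f.natDegree) ⊗ₖ (comp f f.natDegree)) ^ i).mulVec
      (fun a => y (n + a.1.1) * y (n + a.2.1)) = fun a => y (n + i + a.1.1) * y (n + i + a.2.1) := by
  induction i with
  | zero => simp
  | succ i ih =>
    rw [pow_succ', ← Matrix.mulVec_mulVec, ih, kron_sol f hf y hy]
    rfl

/-- squares of the solutions -/
theorem sq_sol (f : ℤ[X]) (hf : f.Monic) (hd : 1 ≤ f.natDegree) (h0 : f.coeff 0 ≠ 0) :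
    ∃ g : ℤ[X], g.Monic ∧ g.coeff 0 ≠ 0 ∧
      ∀ y : ℕ → ℤ, Pd.Sol f y → Pd.Sol g (fun n => y n * y n) := by
  set M := (comp f f.natDegree) ⊗ₖ (comp f f.natDegree) with hM
  refine ⟨M.charpoly, Matrix.charpoly_monic M, ?_, ?_⟩
  · intro h
    have h1 := Matrix.det_eq_sign_charpoly_coeff M
    rw [h, mul_zero, hM, Matrix.det_kronecker] at h1
    have h2 := comp_det_ne f f.natDegree hd h0
    exact mul_ne_zero (pow_ne_zero _ h2) (pow_ne_zero _ h2) h1
  · intro y hy n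
    have h1 := Matrix.aeval_self_charpoly M
    rw [aeval_eq_sum_range] at h1
    have h2 : (∑ i ∈ range (M.charpoly.natDegree + 1), M.charpoly.coeff i • M ^ i).mulVec
        (fun a => y (n + a.1.1) * y (n + a.2.1)) ((⟨0, hd⟩ : Fin f.natDegree), ⟨0, hd⟩) = 0 := by
      rw [h1, Matrix.zero_mulVec]
      rfl
    rw [Matrix.sum_mulVec, Finset.sum_apply] at h2
    rw [← h2]
    refine sum_congr rfl fun i _ => ?_
    rw [Matrix.smul_mulVec, hM, kron_pow f hf y hy n i]
    simp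

theorem min_zero {B : Type*} [CommRing B] [IsDomain B] (x : B) (hx : IsIntegral ℤ x)
    (h0 : x ≠ 0) : (minpoly ℤ x).coeff 0 ≠ 0 := by
  intro h
  obtain ⟨Q, hQ⟩ := X_dvd_iff.2 h
  have hm := minpoly.monic hx
  have hQm : Q.Monic := by
    have h1 := hm
    rw [hQ] at h1
    exact (monic_X (R := ℤ)).of_mul_monic_left h1
  have h2 : aeval x Q = 0 := by
    have h3 := minpoly.aeval ℤ x
    rw [hQ, map_mul, aeval_X] at h3
    exact (mul_eq_zero.1 h3).resolve_left h0
  have h4 := minpoly.min ℤ x hQm h2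
  have h5 : (minpoly ℤ x).natDegree = 1 + Q.natDegree := by
    conv_lhs => rw [hQ]
    rw [(monic_X (R := ℤ)).natDegree_mul hQm, natDegree_X]
  rw [degree_eq_natDegree hm.ne_zero, degree_eq_natDegree hQm.ne_zero, h5] at h4
  have h6 : 1 + Q.natDegree ≤ Q.natDegree := by exact_mod_cast h4
  omega

end SQZ

theorem prSQZ : StSQZ := by
  intro K _ _ r θ hθ
  classical
  set f₁ : ℤ[X] := (X - C 1) * ∏ j, minpoly ℤ (θ j) with hf₁
  have hint : ∀ j, IsIntegral ℤ (θ j) := fun j => RingOfIntegers.isIntegral (θ j)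
  have hPm : (∏ j, minpoly ℤ (θ j)).Monic := monic_prod_of_monic _ _ fun j _ => minpoly.monic (hint j)
  have hm : f₁.Monic := (monic_X_sub_C 1).mul hPm
  have hd : 1 ≤ f₁.natDegree := by
    rw [hf₁, (monic_X_sub_C (1 : ℤ)).natDegree_mul hPm, natDegree_X_sub_C]
    omega
  have h0 : f₁.coeff 0 ≠ 0 := by
    rw [hf₁, mul_coeff_zero]
    refine mul_ne_zero (by simp) ?_
    rw [← constantCoeff_apply, map_prod]
    refine prod_ne_zero_iff.2 fun j _ => ?_
    rw [constantCoeff_apply]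
    exact SQZ.min_zero (θ j) (hint j) (hθ j)
  obtain ⟨g, hg, hg0, hgs⟩ := SQZ.sq_sol f₁ hm hd h0
  refine ⟨g, hg, hg0, ?_⟩
  intro k v hv
  have hdvd : (∏ j, (X - C (θ j))) ∣ f₁.map (algebraMap ℤ (𝓞 K)) := by
    rw [hf₁, Polynomial.map_mul, Polynomial.map_prod]
    refine Dvd.dvd.mul_left ?_ _
    refine prod_dvd_prod_of_dvd _ _ fun j _ => ?_
    rw [dvd_iff_isRoot, IsRoot.def, eval_map_algebraMap]
    exact minpoly.aeval ℤ (θ j)
  have hv1 : ∀ i, Pd.Sol (f₁.map (algebraMap ℤ (𝓞 K))) (v i) := by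
    intro i
    obtain ⟨q, hq⟩ := hdvd
    rw [hq]
    exact (hv i).mul_right q
  have hinj : Function.Injective (algebraMap ℤ (𝓞 K)) := (algebraMap ℤ (𝓞 K)).injective_int
  set b := RingOfIntegers.basis K with hb
  have hc : ∀ i l, Pd.Sol f₁ (fun n => b.repr (v i n) l) := by
    intro i l n
    have h1 := hv1 i n
    rw [natDegree_map_eq_of_injective hinj] at h1
    have h2 := congrArg (fun z => b.repr z l) h1
    simp only [map_sum, map_zero, Finsupp.coe_zero, Pi.zero_apply] at h2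
    rw [Finsupp.finsetSum_apply] at h2
    rw [← h2]
    refine sum_congr rfl fun a _ => ?_
    rw [coeff_map, ← Algebra.smul_def, map_smul, Finsupp.smul_apply, smul_eq_mul]
  refine ⟨fun n => ∑ i, ∑ l, b.repr (v i n) l * b.repr (v i n) l, ?_, ?_⟩
  · refine Pd.Sol.sum _ fun i _ => ?_
    refine Pd.Sol.sum _ fun l _ => ?_
    exact hgs _ (hc i l)
  · intro n
    rw [sum_eq_zero_iff_of_nonneg fun i _ => sum_nonneg fun l _ => mul_self_nonneg _]
    constructor
    · intro h i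
      have h1 := (sum_eq_zero_iff_of_nonneg fun l _ => mul_self_nonneg _).1 (h i (mem_univ i))
      have h2 : b.repr (v i n) = 0 := by
        ext l
        exact mul_self_eq_zero.1 (h1 l (mem_univ l))
      exact (LinearEquiv.map_eq_zero_iff _).1 h2
    · intro h i _
      rw [h i]
      simp

end Pool.Agent.Work.MP_8d13b5_lc.Fm
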