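import Pool.Agent.Work.MP_8d13b5_lc.Fm.StmtsRed
import Pool.Agent.Work.MP_8d13b5_lc.Fm.I_SQZ

set_option autoImplicit false

namespace Pool.Agent.Work.MP_8d13b5_lc.Fm

open Polynomial NumberField Finset Module

namespace RRPS

/-- the integer coordinates of a polynomial function are polynomial functions -/
theorem pl_coord {K σ ι : Type} [Field K] [NumberField K] (b : Basis ι ℤ (𝓞 K)) (l : ι)
    {h : (σ → ℤ) → 𝓞 K} (H : Pl h) : Pl (fun a => b.repr (h a) l) :=
  (Pl.lin (b.coord l).toAddMonoidHom H).congr fun _ => rfl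

end RRPS

theorem prRPS : StRPS := by
  intro K _ _ r θ hθ
  classical
  set f₁ : ℤ[X] := (X - C 1) * ∏ j, minpoly ℤ (θ j) with hf₁
  have hint : ∀ j, IsIntegral ℤ (θ j) := fun j => RingOfIntegers.isIntegral (θ j)
  have hPm : (∏ j, minpoly ℤ (θ j)).Monic := monic_prod_of_monic _ _ fun j _ => minpoly.monic (hint j)
  have hm : f₁.Monic := (monic_X_sub_C 1).mul hPm
  have hd : 1 ≤ f₁.natDegree := by
    rw [hf₁, (monic_X_sub_C (1 : ℤ)).natDegree_mul hPm, natDegree_X_sub_C]
    omega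
  have h0 : f₁.coeff 0 ≠ 0 := by
    rw [hf₁, mul_coeff_zero]
    refine mul_ne_zero (by simp) ?_
    rw [← constantCoeff_apply, map_prod]
    refine prod_ne_zero_iff.2 fun j _ => ?_
    rw [constantCoeff_apply]
    exact SQZ.min_zero (θ j) (hint j) (hθ j)
  obtain ⟨g, hg, hg0, hgs⟩ := SQZ.sq_sol f₁ hm hd h0
  refine ⟨g, hg, hg0, ?_⟩
  intro σ k v hP
  have hdvd : (∏ j, (X - C (θ j))) ∣ f₁.map (algebraMap ℤ (𝓞 K)) := by
    rw [hf₁, Polynomial.map_mul, Polynomial.map_prod]
    refine Dvd.dvd.mul_left ?_ _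
    refine prod_dvd_prod_of_dvd _ _ fun j _ => ?_
    rw [dvd_iff_isRoot, IsRoot.def, eval_map_algebraMap]
    exact minpoly.aeval ℤ (θ j)
  have hinj : Function.Injective (algebraMap ℤ (𝓞 K)) := (algebraMap ℤ (𝓞 K)).injective_int
  set b := RingOfIntegers.basis K with hb
  refine ⟨fun a n => ∑ i, ∑ l, b.repr (v a i n) l * b.repr (v a i n) l, ?_, ?_⟩
  · intro n
    refine Pl.sum _ fun i _ => Pl.sum _ fun l _ => ?_
    exact (RRPS.pl_coord b l (hP i n)).mul (RRPS.pl_coord b l (hP i n))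
  intro a hv
  have hv1 : ∀ i, Pd.Sol (f₁.map (algebraMap ℤ (𝓞 K))) (v a i) := by
    intro i
    obtain ⟨q, hq⟩ := hdvd
    rw [hq]
    exact (hv i).mul_right q
  have hc : ∀ i l, Pd.Sol f₁ (fun n => b.repr (v a i n) l) := by
    intro i l n
    have h1 := hv1 i n
    rw [natDegree_map_eq_of_injective hinj] at h1
    have h2 := congrArg (fun z => b.repr z l) h1
    simp only [map_sum, map_zero, Finsupp.coe_zero, Pi.zero_apply] at h2
    rw [Finsupp.finsetSum_apply] at h2
    rw [← h2]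
    refine sum_congr rfl fun a' _ => ?_
    rw [coeff_map, ← Algebra.smul_def, map_smul, Finsupp.smul_apply, smul_eq_mul]
  refine ⟨?_, ?_⟩
  · refine Pd.Sol.sum _ fun i _ => ?_
    refine Pd.Sol.sum _ fun l _ => ?_
    exact hgs _ (hc i l)
  · intro n
    rw [sum_eq_zero_iff_of_nonneg fun i _ => sum_nonneg fun l _ => mul_self_nonneg _]
    constructor
    · intro h i
      have h1 := (sum_eq_zero_iff_of_nonneg fun l _ => mul_self_nonneg _).1 (h i (mem_univ i))
      have h2 : b.repr (v a i n) = 0 := by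
        ext l
        exact mul_self_eq_zero.1 (h1 l (mem_univ l))
      exact (LinearEquiv.map_eq_zero_iff _).1 h2
    · intro h i _
      rw [h i]
      simp

end Pool.Agent.Work.MP_8d13b5_lc.Fm
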