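import Pool.Agent.Work.MP_8d13b5_lc.Fm.StmtsSimple
import Pool.Agent.Work.MP_8d13b5_lc.Fm.R_RPS

set_option autoImplicit false

namespace Pool.Agent.Work.MP_8d13b5_lc.Fm

open Polynomial NumberField Finset Module

namespace SSPS

/-- a product of different monic integer polynomials which are irreducible over `ℚ` is separable over `ℚ` -/
theorem sep_prod (S : Finset ℤ[X]) (hm : ∀ p ∈ S, p.Monic)
    (hi : ∀ p ∈ S, Irreducible (p.map (Int.castRingHom ℚ))) :
    ((∏ p ∈ S, p).map (Int.castRingHom ℚ)).Separable := by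
  rw [Polynomial.map_prod]
  refine separable_prod' ?_ ?_
  · intro p hp q hq hpq
    rcases (hi p hp).isCoprime_or_dvd (q.map (Int.castRingHom ℚ)) with h | h
    · exact h
    · exfalso
      apply hpq
      have h1 : Associated (p.map (Int.castRingHom ℚ)) (q.map (Int.castRingHom ℚ)) :=
        (hi p hp).associated_of_dvd (hi q hq) h
      have h2 := eq_of_monic_of_associated ((hm p hp).map _) ((hm q hq).map _) h1
      exact map_injective (Int.castRingHom ℚ) Int.cast_injective h2
  · intro p hp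
    exact (hi p hp).separable

theorem min_irr {K : Type} [Field K] [NumberField K] (x : 𝓞 K) :
    Irreducible ((minpoly ℤ x).map (Int.castRingHom ℚ)) := by
  have hx : IsIntegral ℤ x := RingOfIntegers.isIntegral x
  have h1 := minpoly.isIntegrallyClosed_eq_field_fractions ℚ K hx
  have h2 : (minpoly ℤ x).map (Int.castRingHom ℚ) = minpoly ℚ (algebraMap (𝓞 K) K x) := by
    rw [h1]
    rfl
  rw [h2]
  exact minpoly.irreducible (Algebra.IsIntegral.isIntegral _)

end SSPS

theorem prSPS (hSQS : StSQS) : StSPS := by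
  intro K _ _ r θ hθ hθi
  classical
  set S : Finset ℤ[X] := (univ.image θ).image (fun x => minpoly ℤ x) with hS
  set f₁ : ℤ[X] := ∏ p ∈ S, p with hf₁
  have hmem : ∀ p ∈ S, ∃ j, p = minpoly ℤ (θ j) := by
    intro p hp
    rw [hS, mem_image] at hp
    obtain ⟨x, hx, rfl⟩ := hp
    rw [mem_image] at hx
    obtain ⟨j, _, rfl⟩ := hx
    exact ⟨j, rfl⟩
  have hint : ∀ j, IsIntegral ℤ (θ j) := fun j => RingOfIntegers.isIntegral (θ j)
  have hSm : ∀ p ∈ S, p.Monic := by
    intro p hp
    obtain ⟨j, rfl⟩ := hmem p hp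
    exact minpoly.monic (hint j)
  have hm : f₁.Monic := monic_prod_of_monic _ _ hSm
  have h0 : f₁.coeff 0 ≠ 0 := by
    rw [hf₁, ← constantCoeff_apply, map_prod]
    refine prod_ne_zero_iff.2 fun p hp => ?_
    obtain ⟨j, rfl⟩ := hmem p hp
    rw [constantCoeff_apply]
    exact SQZ.min_zero (θ j) (hint j) (hθ j)
  have hsep : (f₁.map (Int.castRingHom ℚ)).Separable := by
    refine SSPS.sep_prod S hSm ?_
    intro p hp
    obtain ⟨j, rfl⟩ := hmem p hp
    exact SSPS.min_irr (θ j)
  obtain ⟨g, hg, hg0, hgsep, hgs⟩ := hSQS f₁ hm h0 hsep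
  refine ⟨g, hg, hg0, hgsep, ?_⟩
  intro σ k v hP
  have hinj : Function.Injective (algebraMap ℤ (𝓞 K)) := (algebraMap ℤ (𝓞 K)).injective_int
  have hdvd : (∏ j, (X - C (θ j))) ∣ f₁.map (algebraMap ℤ (𝓞 K)) := by
    have hne : f₁.map (algebraMap ℤ (𝓞 K)) ≠ 0 := (hm.map _).ne_zero
    have h1 : (∏ j, (X - C (θ j))) =
        (((univ : Finset (Fin r)).val.map θ).map (fun a => X - C a)).prod := by
      rw [Multiset.map_map]
      rfl
    rw [h1, Multiset.prod_X_sub_C_dvd_iff_le_roots hne]
    rw [Multiset.le_iff_subset ((Multiset.nodup_map_iff_of_injective hθi).2 univ.nodup)]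
    intro x hx
    rw [Multiset.mem_map] at hx
    obtain ⟨j, _, rfl⟩ := hx
    rw [mem_roots hne, IsRoot.def, eval_map_algebraMap]
    have h2 : minpoly ℤ (θ j) ∣ f₁ := by
      rw [hf₁]
      exact dvd_prod_of_mem (fun p => p)
        (mem_image_of_mem _ (mem_image_of_mem _ (mem_univ j)))
    obtain ⟨q, hq⟩ := h2
    rw [hq, map_mul, minpoly.aeval, zero_mul]
  set b := RingOfIntegers.basis K with hb
  refine ⟨fun a n => ∑ i, ∑ l, b.repr (v a i n) l * b.repr (v a i n) l, ?_, ?_⟩
  · intro n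
    refine Pl.sum _ fun i _ => Pl.sum _ fun l _ => ?_
    exact (RRPS.pl_coord b l (hP i n)).mul (RRPS.pl_coord b l (hP i n))
  intro a hv
  have hv1 : ∀ i, Pd.Sol (f₁.map (algebraMap ℤ (𝓞 K))) (v a i) := by
    intro i
    obtain ⟨q, hq⟩ := hdvd
    rw [hq]
    exact (hv i).mul_right q
  have hc : ∀ i l, Pd.Sol f₁ (fun n => b.repr (v a i n) l) := by
    intro i l n
    have h1 := hv1 i n
    rw [natDegree_map_eq_of_injective hinj] at h1
    have h2 := congrArg (fun z => b.repr z l) h1
    simp only [map_sum, map_zero, Finsupp.coe_zero, Pi.zero_apply] at h2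
    rw [Finsupp.finsetSum_apply] at h2
    rw [← h2]
    refine sum_congr rfl fun a' _ => ?_
    rw [coeff_map, ← Algebra.smul_def, map_smul, Finsupp.smul_apply, smul_eq_mul]
  refine ⟨?_, ?_⟩
  · refine Pd.Sol.sum _ fun i _ => ?_
    refine Pd.Sol.sum _ fun l _ => ?_
    exact hgs _ (hc i l)
  · intro n
    rw [sum_eq_zero_iff_of_nonneg fun i _ => sum_nonneg fun l _ => mul_self_nonneg _]
    constructor
    · intro h i
      have h1 := (sum_eq_zero_iff_of_nonneg fun l _ => mul_self_nonneg _).1 (h i (mem_univ i))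
      have h2 : b.repr (v a i n) = 0 := by
        ext l
        exact mul_self_eq_zero.1 (h1 l (mem_univ l))
      exact (LinearEquiv.map_eq_zero_iff _).1 h2
    · intro h i _
      rw [h i]
      simp

end Pool.Agent.Work.MP_8d13b5_lc.Fm
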