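import Pool.Agent.Work.MP_8d13b5_lc.Fm.StmtsSimple
import Pool.Agent.Work.MP_8d13b5_lc.Fm.I_SQZ

set_option autoImplicit false

/-! Item SQS of block [8d13b5 SIM]: squares of the solutions of a simple recurrence satisfy a simple
recurrence. -/

namespace Pool.Agent.Work.MP_8d13b5_lc.Fm

open Polynomial NumberField Finset Module

namespace SSQS

/-- a solution of a monic recurrence with different roots is a sum of powers of the roots -/
theorem powers {h : ℂ[X]} (hm : h.Monic) (hs : h.Separable) {u : ℕ → ℂ} (hu : Pd.Sol h u) :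
    ∃ c : ℂ → ℂ, ∀ n, u n = ∑ x ∈ h.roots.toFinset, c x * x ^ n := by
  classical
  have hcard : h.roots.toFinset.card = h.natDegree := by
    rw [Multiset.toFinset_card_of_nodup (nodup_roots hs)]
    exact (IsAlgClosed.splits h).natDegree_eq_card_roots.symm
  have hroot : ∀ x ∈ h.roots.toFinset, h.eval x = 0 := by
    intro x hx
    rw [Multiset.mem_toFinset, mem_roots hm.ne_zero] at hx
    exact hx
  have hint : ∀ n : ℕ, (X ^ n : ℂ[X]) %ₘ h =
      ∑ x ∈ h.roots.toFinset, C (x ^ n) * Lagrange.basis h.roots.toFinset id x := by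
    intro n
    have h1 := Lagrange.eq_interpolate (s := h.roots.toFinset) (v := (id : ℂ → ℂ))
      (f := (X ^ n : ℂ[X]) %ₘ h) (Function.injective_id.injOn) (by
        rw [hcard, ← degree_eq_natDegree hm.ne_zero]
        exact degree_modByMonic_lt _ hm)
    rw [h1, Lagrange.interpolate_apply]
    refine sum_congr rfl fun x hx => ?_
    congr 2
    have h2 := congrArg (eval x) (modByMonic_add_div (X ^ n : ℂ[X]) h)
    rw [eval_add, eval_mul, hroot x hx, zero_mul, add_zero, eval_pow, eval_X] at h2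
    exact h2
  refine ⟨fun x => ∑ c ∈ range h.natDegree,
    (Lagrange.basis h.roots.toFinset id x).coeff c * u c, fun n => ?_⟩
  rw [hu.expand hm n]
  have h3 : ∀ c : ℕ, Pd.cf h n c = ∑ x ∈ h.roots.toFinset,
      x ^ n * (Lagrange.basis h.roots.toFinset id x).coeff c := by
    intro c
    unfold Pd.cf
    rw [hint n, finsetSum_coeff]
    refine sum_congr rfl fun x _ => ?_
    rw [coeff_C_mul]
  simp only [h3, sum_mul]
  rw [sum_comm]
  refine sum_congr rfl fun x _ => sum_congr rfl fun c _ => ?_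
  ring

/-- powers of a root are a solution -/
theorem sol_pow {A : Type} [CommRing A] {h : A[X]} {x : A} (hx : h.eval x = 0) :
    Pd.Sol h (fun n => x ^ n) := by
  intro n
  have h1 : ∑ i ∈ range (h.natDegree + 1), h.coeff i * x ^ (n + i) = x ^ n * h.eval x := by
    rw [eval_eq_sum_range, mul_sum]
    refine sum_congr rfl fun i _ => ?_
    rw [pow_add]
    ring
  rw [h1, hx, mul_zero]

/-- casting a recurrence with integer coefficients -/
theorem sol_cast (f : ℤ[X]) (y : ℕ → ℤ) :
    Pd.Sol (f.map (Int.castRingHom ℂ)) (fun n => (y n : ℂ)) ↔ Pd.Sol f y := by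
  have hinj : Function.Injective (Int.castRingHom ℂ) := (Int.castRingHom ℂ).injective_int
  have h1 : ∀ n, ∑ i ∈ range ((f.map (Int.castRingHom ℂ)).natDegree + 1),
      (f.map (Int.castRingHom ℂ)).coeff i * (y (n + i) : ℂ) =
      ((∑ i ∈ range (f.natDegree + 1), f.coeff i * y (n + i) : ℤ) : ℂ) := by
    intro n
    rw [natDegree_map_eq_of_injective hinj]
    push_cast
    refine sum_congr rfl fun i _ => ?_
    rw [coeff_map]
    rfl
  constructor
  · intro h n
    have h2 := h n
    rw [h1 n] at h2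
    exact_mod_cast h2
  · intro h n
    rw [h1 n, h n]
    exact Int.cast_zero

/-- a product of different minimal polynomials is separable -/
theorem sep_prod (P : Finset ℤ[X]) (hP : ∀ p ∈ P, ∃ x : ℂ, IsIntegral ℤ x ∧ p = minpoly ℤ x) :
    ((∏ p ∈ P, p).map (Int.castRingHom ℚ)).Separable := by
  have hirr : ∀ p ∈ P, p.Monic ∧ Irreducible (p.map (Int.castRingHom ℚ)) := by
    intro p hp
    obtain ⟨x, hx, rfl⟩ := hP p hp
    refine ⟨minpoly.monic hx, ?_⟩
    have h1 := minpoly.isIntegrallyClosed_eq_field_fractions' ℚ hx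
    rw [algebraMap_int_eq] at h1
    rw [← h1]
    exact minpoly.irreducible hx.tower_top
  rw [Polynomial.map_prod]
  refine separable_prod' ?_ ?_
  · intro p hp q hq hpq
    rcases (hirr p hp).2.isCoprime_or_dvd (q.map (Int.castRingHom ℚ)) with h | h
    · exact h
    · exfalso
      apply hpq
      have h2 : Associated (p.map (Int.castRingHom ℚ)) (q.map (Int.castRingHom ℚ)) :=
        (hirr p hp).2.associated_of_dvd (hirr q hq).2 h
      have h3 := eq_of_monic_of_associated ((hirr p hp).1.map _) ((hirr q hq).1.map _) h2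
      exact map_injective _ (Int.castRingHom ℚ).injective_int h3
  · intro p hp
    exact (hirr p hp).2.separable

end SSQS

theorem prSQS : StSQS := by
  intro f hf h0 hsep
  classical
  set h : ℂ[X] := f.map (Int.castRingHom ℂ) with hh
  have hm : h.Monic := hf.map _
  have hs : h.Separable := by
    have h1 := hsep.map (f := algebraMap ℚ ℂ)
    rw [Polynomial.map_map] at h1
    have h2 : (algebraMap ℚ ℂ).comp (Int.castRingHom ℚ) = Int.castRingHom ℂ := RingHom.ext_int _ _
    rw [h2] at h1
    exact h1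
  have hint : ∀ x ∈ h.roots.toFinset, IsIntegral ℤ x ∧ x ≠ 0 := by
    intro x hx
    rw [Multiset.mem_toFinset, mem_roots hm.ne_zero] at hx
    have hx' : eval x (f.map (Int.castRingHom ℂ)) = 0 := hx
    constructor
    · refine ⟨f, hf, ?_⟩
      rw [← eval_map, algebraMap_int_eq]
      exact hx'
    · rintro rfl
      rw [← coeff_zero_eq_eval_zero, coeff_map] at hx'
      exact h0 ((map_eq_zero_iff _ (Int.castRingHom ℂ).injective_int).1 hx')
  have hint2 : ∀ z ∈ h.roots.toFinset ×ˢ h.roots.toFinset,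
      IsIntegral ℤ (z.1 * z.2) ∧ z.1 * z.2 ≠ 0 := by
    intro z hz
    rw [mem_product] at hz
    exact ⟨(hint _ hz.1).1.mul (hint _ hz.2).1, mul_ne_zero (hint _ hz.1).2 (hint _ hz.2).2⟩
  set P : Finset ℤ[X] := (h.roots.toFinset ×ˢ h.roots.toFinset).image
    (fun z => minpoly ℤ (z.1 * z.2)) with hP
  refine ⟨∏ p ∈ P, p, ?_, ?_, ?_, ?_⟩
  · refine monic_prod_of_monic _ _ fun p hp => ?_
    obtain ⟨z, hz, rfl⟩ := mem_image.1 hp
    exact minpoly.monic (hint2 z hz).1
  · rw [coeff_zero_prod]
    refine Finset.prod_ne_zero_iff.2 fun p hp => ?_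
    obtain ⟨z, hz, rfl⟩ := mem_image.1 hp
    exact SQZ.min_zero _ (hint2 z hz).1 (hint2 z hz).2
  · refine SSQS.sep_prod P fun p hp => ?_
    obtain ⟨z, hz, rfl⟩ := mem_image.1 hp
    exact ⟨_, (hint2 z hz).1, rfl⟩
  · intro y hy
    rw [← SSQS.sol_cast] at hy ⊢
    obtain ⟨c, hc⟩ := SSQS.powers hm hs hy
    have h1 : (fun n => ((y n * y n : ℤ) : ℂ)) = fun n =>
        ∑ z ∈ h.roots.toFinset ×ˢ h.roots.toFinset, (c z.1 * c z.2) * (z.1 * z.2) ^ n := by
      funext n
      rw [Int.cast_mul, hc n, sum_mul_sum, ← sum_product']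
      refine sum_congr rfl fun z _ => ?_
      rw [mul_pow]
      ring
    rw [h1]
    refine Pd.Sol.sum _ fun z hz => ?_
    refine Pd.Sol.smul ?_ _
    apply SSQS.sol_pow
    rw [← algebraMap_int_eq, eval_map_algebraMap, map_prod]
    refine prod_eq_zero (mem_image_of_mem _ hz) ?_
    exact minpoly.aeval ℤ _

end Pool.Agent.Work.MP_8d13b5_lc.Fm
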