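import Pool.Agent.Work.MP_8d13b5_lc.Fm.StmtsSimple

set_option autoImplicit false

/-! Block [8d13b5 SIM], item SZH. -/

namespace Pool.Agent.Work.MP_8d13b5_lc.Fm

open Polynomial NumberField Finset Module

namespace SSZH

/-- scaling the roots of a radical element by a unit -/
theorem scale_radical {L : Type*} [Field L] (p : L[X]) (u : L) (hu : u ≠ 0) (hp : IsRadical p)
    (n : ℕ) (y : L[X]) (h : p.scaleRoots u ∣ y ^ n) : p.scaleRoots u ∣ y := by
  have h1 : (p.scaleRoots u).scaleRoots u⁻¹ = p := by
    rw [← scaleRoots_mul, mul_inv_cancel₀ hu, scaleRoots_one]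
  have h2 : p ∣ (y.scaleRoots u⁻¹) ^ n := by
    have := scaleRoots_dvd (r := u⁻¹) _ _ h
    rwa [h1, pow_scaleRoots_of_isReduced] at this
  have h3 := scaleRoots_dvd (r := u) _ _ (hp n _ h2)
  rwa [← scaleRoots_mul, inv_mul_cancel₀ hu, scaleRoots_one] at h3

/-- a monic polynomial over a domain whose image over a field is a scaled separable polynomial
divides everything of which it divides a power -/
theorem dvd_of_dvd_pow {A B : Type*} [CommRing A] [IsDomain A] [CommRing B] [IsDomain B]
    (φ : A →+* B) (hφ : Function.Injective φ) (F : A[X]) (hF : F.Monic)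
    (hs : (F.map (algebraMap A (FractionRing A))).Separable) (u : B) (hu : u ≠ 0) (r : ℕ)
    (Q : B[X]) (h : (F.map φ).scaleRoots u ∣ Q ^ r) : (F.map φ).scaleRoots u ∣ Q := by
  have hι : Function.Injective (algebraMap B (FractionRing B)) :=
    IsFractionRing.injective B (FractionRing B)
  have hc : Function.Injective ((algebraMap B (FractionRing B)).comp φ) := hι.comp hφ
  have hmon : ((F.map φ).scaleRoots u).Monic := (monic_scaleRoots_iff u).mpr (hF.map φ)
  rw [← map_dvd_map (algebraMap B (FractionRing B)) hι hmon]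
  have h1 : ((F.map φ).scaleRoots u).map (algebraMap B (FractionRing B)) =
      (F.map ((algebraMap B (FractionRing B)).comp φ)).scaleRoots
        (algebraMap B (FractionRing B) u) := by
    rw [map_scaleRoots, Polynomial.map_map]
    rw [(hF.map φ).leadingCoeff, map_one]
    exact one_ne_zero
  have h2 : F.map ((algebraMap B (FractionRing B)).comp φ) =
      (F.map (algebraMap A (FractionRing A))).map (IsFractionRing.lift hc) := by
    rw [Polynomial.map_map]
    congr 1
    ext x
    rw [RingHom.comp_apply, RingHom.comp_apply, IsFractionRing.lift_algebraMap,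
      RingHom.comp_apply]
  have h3 : (F.map ((algebraMap B (FractionRing B)).comp φ)).Separable := by
    rw [h2]
    exact hs.map
  have h4 : algebraMap B (FractionRing B) u ≠ 0 := by
    rw [Ne, map_eq_zero_iff _ hι]
    exact hu
  rw [h1]
  apply scale_radical _ _ h4 h3.squarefree.isRadical r
  rw [← Polynomial.map_pow, ← h1]
  exact Polynomial.map_dvd _ h

/-- the product over a family divides a power of the product over a family with the same range -/
theorem prod_dvd {B : Type*} [CommRing B] (G : B[X]) {r r' : ℕ} (u : Fin r → B) (u' : Fin r' → B)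
    (h : ∀ i, ∃ j, u' j = u i) :
    (∏ j, G.scaleRoots (u j)) ∣ (∏ j, G.scaleRoots (u' j)) ^ r := by
  have h2 : (∏ j, G.scaleRoots (u j)) ∣ ∏ _j : Fin r, (∏ j, G.scaleRoots (u' j)) := by
    apply Finset.prod_dvd_prod_of_dvd
    intro i _
    obtain ⟨j, hj⟩ := h i
    rw [← hj]
    exact Finset.dvd_prod_of_mem (fun j => G.scaleRoots (u' j)) (Finset.mem_univ j)
  rwa [Finset.prod_const, Finset.card_univ, Fintype.card_fin] at h2

theorem expand_dvd {B : Type*} [CommRing B] (N r : ℕ) (P Q : B[X]) (h : P ∣ Q ^ r) :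
    expand B N P ∣ (expand B N Q) ^ r := by
  rw [← map_pow]
  exact map_dvd _ h

/-- the statement over a domain `B` -/
theorem main {A B : Type*} [CommRing A] [IsDomain A] [CommRing B] [IsDomain B]
    (φ : A →+* B) (hφ : Function.Injective φ) (F : A[X]) (hF : F.Monic)
    (hs : (F.map (algebraMap A (FractionRing A))).Separable) (c : B) (hc : c ≠ 0) (N : ℕ)
    (G : B[X]) {r r' : ℕ} (u : Fin r → B) (u' : Fin r' → B) (h : ∀ i, ∃ j, u' j = u i)
    (hd : (F.map φ).scaleRoots c ∣ expand B N (∏ j, G.scaleRoots (u j))) :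
    (F.map φ).scaleRoots c ∣ expand B N (∏ j, G.scaleRoots (u' j)) :=
  dvd_of_dvd_pow φ hφ F hF hs c hc r _ (hd.trans (expand_dvd N r _ _ (prod_dvd G u u' h)))

/-- the statement over a domain `R` in the place of the ring of integers -/
theorem main2 {R : Type*} [CommRing R] [IsDomain R] (f : ℤ →+* R) (hf : Function.Injective f)
    (F : ℤ[X][X]) (hF : F.Monic)
    (hsep : (F.map (algebraMap ℤ[X] (FractionRing ℤ[X]))).Separable)
    (N : ℕ) (c : R) (hc : c ≠ 0) (r : ℕ) (θ : Fin r → R) (G : R[X][X])
    (hdvd : (F.map (mapRingHom f)).scaleRoots (C c) ∣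
      expand R[X] N (∏ j, G.scaleRoots (C (θ j)))) :
    ∃ (r' : ℕ) (θ' : Fin r' → R), Function.Injective θ' ∧ Set.range θ' = Set.range θ ∧
      (F.map (mapRingHom f)).scaleRoots (C c) ∣
        expand R[X] N (∏ j, G.scaleRoots (C (θ' j))) := by
  classical
  let S : Finset R := Finset.univ.image θ
  let e : Fin S.card ≃ S := S.equivFin.symm
  let θ' : Fin S.card → R := fun j => (e j : R)
  have hinj : Function.Injective θ' := Subtype.val_injective.comp e.injective
  have hrange : Set.range θ' = Set.range θ := by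
    ext x
    constructor
    · rintro ⟨j, rfl⟩
      obtain ⟨i, -, hi⟩ := Finset.mem_image.mp (e j).2
      exact ⟨i, hi⟩
    · rintro ⟨i, rfl⟩
      have hi : θ i ∈ S := Finset.mem_image_of_mem θ (Finset.mem_univ i)
      obtain ⟨j, hj⟩ := e.surjective ⟨θ i, hi⟩
      exact ⟨j, congrArg Subtype.val hj⟩
  have hφ : Function.Injective (mapRingHom f) := by
    rw [coe_mapRingHom]
    exact map_injective _ hf
  have hu : (C c : R[X]) ≠ 0 := by
    rw [Ne, C_eq_zero]
    exact hc
  have hr : ∀ i, ∃ j, (fun j => (C (θ' j) : R[X])) j = (fun j => C (θ j)) i := by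
    intro i
    have hi : θ i ∈ Set.range θ' := by
      rw [hrange]
      exact ⟨i, rfl⟩
    obtain ⟨j, hj⟩ := hi
    exact ⟨j, congrArg C hj⟩
  exact ⟨S.card, θ', hinj, hrange, main (mapRingHom f) hφ F hF hsep
    (C c) hu N G (fun j => C (θ j)) (fun j => C (θ' j)) hr hdvd⟩

end SSZH

theorem prSZH : StSZH := by
  intro F hF hsep K _ _ N D r θ G hD hN hG hdvd
  have hc : (D : 𝓞 K) ≠ 0 := by
    rw [Ne, Nat.cast_eq_zero]
    omega
  exact SSZH.main2 (algebraMap ℤ (𝓞 K)) (FaithfulSMul.algebraMap_injective ℤ (𝓞 K)) F hF hsep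
    N (D : 𝓞 K) hc r θ G hdvd

end Pool.Agent.Work.MP_8d13b5_lc.Fm
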