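import Pool.Agent.Work.MP_8d13b5_lc.Fm.S_SHN
import Pool.Agent.Work.MP_8d13b5_lc.Fm.S_SPS
import Pool.Agent.Work.MP_8d13b5_lc.Fm.S_SQS
import Pool.Agent.Work.MP_8d13b5_lc.Fm.S_SZH

set_option autoImplicit false

namespace Pool.Agent.Work.MP_8d13b5_lc.Fm

/-- SHN without hypotheses -/
theorem rSHN : StSHN := prSHN (prSPS prSQS) prSZH

end Pool.Agent.Work.MP_8d13b5_lc.Fm
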