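import Mathlib
import Pool.Agent.Work.MP_8d13b5_lc.Pd.Sol

set_option autoImplicit false

/-! The modulus of the vanishing classes of a linear recurrence over `ℚ` can be taken to be
`(2 d ^ 2)!`, where `d` is the order. -/

namespace Pool.Agent.Work.MP_8d13b5_lc.Fm.ModD

open Polynomial Finset Pool.Agent.Work.MP_8d13b5_lc
open Pool.Agent.Work.MP_8d13b5_lc.Pd (Sol shf shf_pow sol_iff aeval_shf)

theorem dvd_fact (n D : ℕ) (hn : n ≠ 0) (h : n.totient ≤ D) : n ∣ (2 * D).factorial := by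
  rw [Nat.dvd_iff_prime_pow_dvd_dvd]
  intro p k hp hk
  rcases k with _ | k
  · simp
  have h1 : (p ^ (k + 1)).totient ∣ n.totient := Nat.totient_dvd_of_dvd hk
  have h2 : (p ^ (k + 1)).totient ≤ n.totient :=
    Nat.le_of_dvd (Nat.totient_pos.2 (Nat.pos_of_ne_zero hn)) h1
  rw [Nat.totient_prime_pow_succ hp] at h2
  have h3 : p ^ (k + 1) ≤ 2 * D := by
    have h4 : p ≤ 2 * (p - 1) := by
      have := hp.two_le
      omega
    calc p ^ (k + 1) = p ^ k * p := pow_succ _ _
      _ ≤ p ^ k * (2 * (p - 1)) := Nat.mul_le_mul_left _ h4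
      _ = 2 * (p ^ k * (p - 1)) := by ring
      _ ≤ 2 * D := by omega
  exact Nat.dvd_factorial (pow_pos hp.pos _) h3

/-- quotients of roots which are roots of unity -/
theorem ratio (f : ℚ[X]) (hf : f.Monic) (x y : ℂ) (hx : aeval x f = 0) (hy : aeval y f = 0)
    (h0 : y ≠ 0) (j : ℕ) (hj : 0 < j) (h : x ^ j = y ^ j) :
    x ^ (2 * f.natDegree ^ 2).factorial = y ^ (2 * f.natDegree ^ 2).factorial := by
  have h1 : (x / y) ^ j = 1 := by
    rw [div_pow, h, div_self (pow_ne_zero _ h0)]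
  have hfin : IsOfFinOrder (x / y) := isOfFinOrder_iff_pow_eq_one.2 ⟨j, hj, h1⟩
  have hpos : 0 < orderOf (x / y) := hfin.orderOf_pos
  have hprim : IsPrimitiveRoot (x / y) (orderOf (x / y)) := IsPrimitiveRoot.orderOf _
  have hix : IsIntegral ℚ x := ⟨f, hf, hx⟩
  have hiy : IsIntegral ℚ y := ⟨f, hf, hy⟩
  have hdx : (minpoly ℚ x).natDegree ≤ f.natDegree :=
    natDegree_le_of_dvd (minpoly.dvd ℚ x hx) hf.ne_zero
  have hdy : (minpoly ℚ y).natDegree ≤ f.natDegree :=
    natDegree_le_of_dvd (minpoly.dvd ℚ y hy) hf.ne_zero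
  have htot : (orderOf (x / y)).totient ≤ f.natDegree ^ 2 := by
    rw [← natDegree_cyclotomic (orderOf (x / y)) ℚ, cyclotomic_eq_minpoly_rat hprim hpos]
    have hiz : IsIntegral ℚ (x / y) := by
      rw [div_eq_mul_inv]
      exact hix.mul hiy.inv
    have hfx : FiniteDimensional ℚ (IntermediateField.adjoin ℚ {x}) :=
      IntermediateField.adjoin.finiteDimensional hix
    have hfy : FiniteDimensional ℚ (IntermediateField.adjoin ℚ {y}) :=
      IntermediateField.adjoin.finiteDimensional hiy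
    rw [← IntermediateField.adjoin.finrank hiz]
    have hle : IntermediateField.adjoin ℚ {x / y} ≤
        IntermediateField.adjoin ℚ {x} ⊔ IntermediateField.adjoin ℚ {y} := by
      rw [IntermediateField.adjoin_le_iff, Set.singleton_subset_iff]
      have m1 : x ∈ IntermediateField.adjoin ℚ {x} ⊔ IntermediateField.adjoin ℚ {y} :=
        (le_sup_left : IntermediateField.adjoin ℚ {x} ≤ _)
          (IntermediateField.mem_adjoin_simple_self ℚ x)
      have m2 : y ∈ IntermediateField.adjoin ℚ {x} ⊔ IntermediateField.adjoin ℚ {y} :=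
        (le_sup_right : IntermediateField.adjoin ℚ {y} ≤ _)
          (IntermediateField.mem_adjoin_simple_self ℚ y)
      exact div_mem m1 m2
    refine (IntermediateField.finrank_le_of_le_right hle).trans ?_
    refine (IntermediateField.finrank_sup_le _ _).trans ?_
    rw [IntermediateField.adjoin.finrank hix, IntermediateField.adjoin.finrank hiy, pow_two]
    exact Nat.mul_le_mul hdx hdy
  obtain ⟨c, hc⟩ := dvd_fact _ _ hpos.ne' htot
  have h2 : (x / y) ^ (2 * f.natDegree ^ 2).factorial = 1 := by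
    rw [hc, pow_mul, pow_orderOf_eq_one, one_pow]
  rw [div_pow, div_eq_one_iff_eq (pow_ne_zero _ h0)] at h2
  exact h2

theorem sol_coprime {p q : ℂ[X]} (h : IsCoprime p q) {w : ℕ → ℂ} (hp : Sol p w) (hq : Sol q w) :
    w = 0 := by
  have h1 := disjoint_ker_aeval_of_isCoprime (shf ℂ) h
  rw [Submodule.disjoint_def] at h1
  exact h1 w (LinearMap.mem_ker.2 ((sol_iff _ _).1 hp)) (LinearMap.mem_ker.2 ((sol_iff _ _).1 hq))

theorem eval_scaleRoots (g : ℂ[X]) (c z : ℂ) (hc : c ≠ 0) :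
    (g.scaleRoots c).eval z = c ^ g.natDegree * g.eval (z / c) := by
  rw [← scaleRoots_eval_mul]
  congr 1
  field_simp

/-- non degenerate recurrences: a solution which vanishes on a class is zero -/
theorem nondeg (g : ℂ[X]) (m : ℕ) (hm : 0 < m) (h0 : g.eval 0 ≠ 0)
    (hg : ∀ x y : ℂ, g.eval x = 0 → g.eval y = 0 → x ^ m = y ^ m → x = y) (a : ℕ → ℂ)
    (ha : Sol g a) (r : ℕ) (hr : r < m) (h : ∀ k, k % m = r → a k = 0) : a = 0 := by
  obtain ⟨ζ, hζ⟩ : ∃ ζ : ℂ, IsPrimitiveRoot ζ m := ⟨_, Complex.isPrimitiveRoot_exp m hm.ne'⟩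
  have hz0 : ζ ≠ 0 := hζ.ne_zero hm.ne'
  obtain ⟨e, he⟩ : ∃ e, e = m - r := ⟨_, rfl⟩
  have hsum : ∀ k, ∑ j ∈ range m, ζ ^ (j * e) * ((ζ ^ j) ^ k * a k) = 0 := by
    intro k
    by_cases hk : k % m = r
    · refine Finset.sum_eq_zero fun j _ => ?_
      rw [h k hk]
      ring
    · have h1 : ζ ^ (k + e) ≠ 1 := by
        intro h2
        rw [hζ.pow_eq_one_iff_dvd] at h2
        apply hk
        have h3 := Nat.mod_add_div k m
        obtain ⟨c, hc⟩ := h2
        have h4 : k % m < m := Nat.mod_lt _ hm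
        have h5 : k + m = m * c + r := by omega
        have h6 : (k + m) % m = (m * c + r) % m := by rw [h5]
        rw [Nat.add_mod_right, Nat.mul_add_mod, Nat.mod_eq_of_lt hr] at h6
        exact h6
      have h2 : (∑ j ∈ range m, (ζ ^ (k + e)) ^ j) * (ζ ^ (k + e) - 1) = 0 := by
        rw [geom_sum_mul, ← pow_mul, mul_comm, pow_mul, hζ.pow_eq_one, one_pow, sub_self]
      have h3 : ∑ j ∈ range m, (ζ ^ (k + e)) ^ j = 0 :=
        (mul_eq_zero.1 h2).resolve_right (sub_ne_zero.2 h1)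
      have h4 : ∑ j ∈ range m, ζ ^ (j * e) * ((ζ ^ j) ^ k * a k) =
          (∑ j ∈ range m, (ζ ^ (k + e)) ^ j) * a k := by
        rw [Finset.sum_mul]
        refine Finset.sum_congr rfl fun j _ => ?_
        rw [← pow_mul, ← pow_mul, ← mul_assoc, ← pow_add]
        congr 2
        ring
      rw [h4, h3, zero_mul]
  have hb : ∀ j, Sol (g.scaleRoots (ζ ^ j)) (fun k => ζ ^ (j * e) * ((ζ ^ j) ^ k * a k)) :=
    fun j => (ha.scale (ζ ^ j)).smul (ζ ^ (j * e))
  obtain ⟨Q, hQ⟩ : ∃ Q : ℂ[X], Q = ∏ j ∈ (range m).erase 0, g.scaleRoots (ζ ^ j) := ⟨_, rfl⟩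
  have hcop : IsCoprime g Q := by
    rw [hQ]
    refine IsCoprime.prod_right fun j hj => ?_
    rw [Polynomial.isCoprime_iff_aeval_ne_zero_of_isAlgClosed ℂ ℂ]
    intro z
    by_contra hcon
    rw [not_or, not_not, not_not, coe_aeval_eq_eval] at hcon
    obtain ⟨hz, hz'⟩ := hcon
    rw [eval_scaleRoots g (ζ ^ j) z (pow_ne_zero _ hz0)] at hz'
    have hz2 := (mul_eq_zero.1 hz').resolve_left (pow_ne_zero _ (pow_ne_zero _ hz0))
    have hzn : z ≠ 0 := by
      rintro rfl
      exact h0 hz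
    have h1 : z = z / ζ ^ j := by
      refine hg _ _ hz hz2 ?_
      rw [div_pow, ← pow_mul, mul_comm j m, pow_mul, hζ.pow_eq_one, one_pow, div_one]
    have h2 : ζ ^ j = 1 := by
      have h3 : z * ζ ^ j = z := by
        conv_lhs => rw [h1]
        exact div_mul_cancel₀ _ (pow_ne_zero _ hz0)
      exact mul_left_cancel₀ hzn (h3.trans (mul_one z).symm)
    rw [hζ.pow_eq_one_iff_dvd] at h2
    rw [Finset.mem_erase, Finset.mem_range] at hj
    exact hj.1 (Nat.eq_zero_of_dvd_of_lt h2 hj.2)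
  have hQa : Sol Q a := by
    have h1 : ∀ j ∈ (range m).erase 0,
        Sol Q (fun k => ζ ^ (j * e) * ((ζ ^ j) ^ k * a k)) := by
      intro j hj
      obtain ⟨R, hR⟩ : g.scaleRoots (ζ ^ j) ∣ Q := by
        rw [hQ]
        exact Finset.dvd_prod_of_mem _ hj
      rw [hR]
      exact (hb j).mul_right R
    have h2 := (Sol.sum ((range m).erase 0) h1).smul (-1)
    have h3 : (fun k => -1 * ∑ j ∈ (range m).erase 0, ζ ^ (j * e) * ((ζ ^ j) ^ k * a k)) = a := by
      funext k
      have h4 := hsum k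
      rw [← Finset.add_sum_erase _ _ (Finset.mem_range.2 hm)] at h4
      simp only [zero_mul, pow_zero, one_mul, one_pow] at h4
      linear_combination -h4
    rwa [h3] at h2
  exact sol_coprime hcop ha hQa

/-- subsequences -/
theorem sol_sub (g : ℂ[X]) (M : ℕ) (v : ℕ → ℂ) (hv : Sol (expand ℂ M g) v) (r : ℕ) :
    Sol g (fun k => v (r + M * k)) := by
  rw [sol_iff, expand_aeval] at hv
  intro k
  have h := congrFun hv (r + M * k)
  rw [aeval_eq_sum_range, LinearMap.sum_apply, Finset.sum_apply] at h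
  rw [Pi.zero_apply] at h
  rw [← h]
  refine Finset.sum_congr rfl fun i _ => ?_
  have e : r + M * k + M * i = r + M * (k + i) := by ring
  rw [LinearMap.smul_apply, Pi.smul_apply, ← pow_mul, shf_pow, smul_eq_mul, e]

/-- **The modulus depends only on the order.** -/
theorem class_mod (f : ℚ[X]) (hf : f.Monic) (hf0 : f.coeff 0 ≠ 0) (v : ℕ → ℚ) (hv : Sol f v)
    (m : ℕ) (hm : 0 < m) (n : ℕ) (h : ∀ k, v (n % m + k * m) = 0) (k : ℕ) :
    v (n % (2 * f.natDegree ^ 2).factorial + k * (2 * f.natDegree ^ 2).factorial) = 0 := by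
  obtain ⟨M, hM⟩ : ∃ M, M = (2 * f.natDegree ^ 2).factorial := ⟨_, rfl⟩
  have hM0 : 0 < M := by
    rw [hM]
    exact Nat.factorial_pos _
  rw [← hM]
  obtain ⟨F, hF⟩ : ∃ F : ℂ[X], F = f.map (algebraMap ℚ ℂ) := ⟨_, rfl⟩
  have hFm : F.Monic := by
    rw [hF]
    exact hf.map _
  have hroot : ∀ x, x ∈ F.roots → aeval x f = 0 ∧ x ≠ 0 := by
    intro x hx
    have h1 : F.eval x = 0 := (mem_roots hFm.ne_zero).1 hx
    have h2 : aeval x f = 0 := by
      rw [hF, eval_map_algebraMap] at h1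
      exact h1
    refine ⟨h2, ?_⟩
    rintro rfl
    rw [← coeff_zero_eq_aeval_zero'] at h2
    apply hf0
    have h3 : (algebraMap ℚ ℂ) (f.coeff 0) = (algebraMap ℚ ℂ) 0 := by rw [h2, map_zero]
    exact (algebraMap ℚ ℂ).injective h3
  obtain ⟨g, hg⟩ : ∃ g : ℂ[X], g = (F.roots.map fun x => X - C (x ^ M)).prod := ⟨_, rfl⟩
  have hgroot : ∀ z : ℂ, g.eval z = 0 → ∃ x ∈ F.roots, z = x ^ M := by
    intro z hz
    rw [hg, eval_multiset_prod, Multiset.prod_eq_zero_iff, Multiset.map_map, Multiset.mem_map] at hz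
    obtain ⟨x, hx, hx2⟩ := hz
    refine ⟨x, hx, ?_⟩
    rw [Function.comp_apply, eval_sub, eval_X, eval_C, sub_eq_zero] at hx2
    exact hx2
  have hdvd : F ∣ expand ℂ M g := by
    have hsp : F.Splits := IsAlgClosed.splits F
    have h1 : F = (F.roots.map fun x => X - C x).prod := by
      have := hsp.eq_prod_roots_of_monic hFm
      exact this
    have h2 : expand ℂ M g = (F.roots.map fun x => X ^ M - C (x ^ M)).prod := by
      rw [hg, map_multiset_prod, Multiset.map_map]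
      congr 1
      refine Multiset.map_congr rfl fun x _ => ?_
      rw [Function.comp_apply, map_sub, expand_X, expand_C]
    rw [h2]
    conv_lhs => rw [h1]
    refine Multiset.prod_dvd_prod_of_dvd _ _ fun x _ => ?_
    rw [C_pow]
    exact sub_dvd_pow_sub_pow _ _ _
  have hvC : Sol F (fun n => ((v n : ℚ) : ℂ)) := by
    rw [hF]
    exact hv.map (algebraMap ℚ ℂ)
  have hvE : Sol (expand ℂ M g) (fun n => ((v n : ℚ) : ℂ)) := by
    obtain ⟨R, hR⟩ := hdvd
    rw [hR]
    exact hvC.mul_right R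
  have ha := sol_sub g M _ hvE (n % M)
  have hz := nondeg g m hm ?_ ?_ _ ha (n / M % m) (Nat.mod_lt _ hm) ?_
  · have h1 := congrFun hz k
    rw [Pi.zero_apply] at h1
    rw [mul_comm k M]
    exact_mod_cast h1
  · intro h0
    obtain ⟨x, hx, hx2⟩ := hgroot 0 h0
    exact pow_ne_zero _ (hroot x hx).2 hx2.symm
  · intro z w hz hw hzw
    obtain ⟨x, hx, rfl⟩ := hgroot z hz
    obtain ⟨y, hy, rfl⟩ := hgroot w hw
    rw [← pow_mul, ← pow_mul] at hzw
    rw [hM]
    exact ratio f hf x y (hroot x hx).1 (hroot y hy).1 (hroot y hy).2 (M * m)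
      (Nat.mul_pos hM0 hm) hzw
  · intro j hj
    have h1 : (n % M + M * j) % m = n % m := by
      have h2 : (n % M + M * (n / M)) % m = n % m := by rw [Nat.mod_add_div]
      rw [← h2]
      refine Nat.ModEq.add_left _ (Nat.ModEq.mul_left _ ?_)
      rw [Nat.ModEq, hj]
    have h3 := Nat.mod_add_div (n % M + M * j) m
    rw [h1] at h3
    have h4 := h ((n % M + M * j) / m)
    rw [mul_comm _ m, h3] at h4
    rw [h4, Rat.cast_zero]

end Pool.Agent.Work.MP_8d13b5_lc.Fm.ModD
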