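import Mathlib

set_option autoImplicit false

/-! Definitions for the theorem `FamilyReduction`. -/

namespace Pool.Agent.Work.MP_8d13b5_lc.Fm.FamilyReduction

open Polynomial Finset

/-- The families: `F = X ^ d + F_(d-1)(t) X ^ (d-1) + ... + F_0(t)`, `d ≥ 1`, is a polynomial in `X` whose
coefficients `F_i = F.coeff i` are arbitrary integer polynomials in the parameter `t`, `F_0 ≠ 0`. -/
structure Fam (d : ℕ) (F : ℤ[X][X]) : Prop where
  monic : F.Monic
  deg : F.natDegree = d
  pos : 1 ≤ d
  ne : F.coeff 0 ≠ 0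

/-- the height of a rational number: the larger of the numerator and the denominator -/
def height (t : ℚ) : ℕ := max t.num.natAbs t.den

/-- `v` satisfies the recurrence with the characteristic polynomial `F(t, X)`:
`v_(n+d) + F_(d-1)(t) v_(n+d-1) + ... + F_0(t) v_n = 0` -/
def Rec (F : ℤ[X][X]) (t : ℚ) (v : ℕ → ℚ) : Prop :=
  ∀ n, ∑ i ∈ range (F.natDegree + 1), aeval t (F.coeff i) * v (n + i) = 0

/-- `w` satisfies the recurrence with the characteristic polynomial `f` over the integers -/
def RecZ (f : ℤ[X]) (w : ℕ → ℤ) : Prop :=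
  ∀ n, ∑ i ∈ range (f.natDegree + 1), f.coeff i * w (n + i) = 0

/-- `z_0, ..., z_(d-1)` are at most `B` in absolute value -/
def Bound (d B : ℕ) (z : ℕ → ℤ) : Prop := ∀ i < d, (z i).natAbs ≤ B

/-- the point with the coordinates `num t, den t, z_0, ..., z_(d-1)` -/
def pt (d : ℕ) (t : ℚ) (z : ℕ → ℤ) : Fin (d + 2) → ℤ :=
  Fin.cons t.num (Fin.cons (t.den : ℤ) fun i : Fin d => z i)

/-- the solution of the recurrence of `f` with the initial values `l` has a zero -/
def ZeroZ (f : ℤ[X]) (l : List ℤ) : Prop :=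
  ∃ w : ℕ → ℤ, RecZ f w ∧ (∀ i < f.natDegree, w i = l.getD i 0) ∧ ∃ n, w n = 0

/-- the solution of the recurrence of `F(t, X)` with the initial values `x` has a zero -/
def ZeroQ (F : ℤ[X][X]) (t : ℚ) (x : List ℤ) : Prop :=
  ∃ v : ℕ → ℚ, Rec F t v ∧ (∀ i < F.natDegree, v i = x.getD i 0) ∧ ∃ n, v n = 0

/-- the Skolem Problem is decidable for the one recurrence of `f` (all integer initial values) -/
def Skolem (f : ℤ[X]) : Prop :=
  ∃ D : List ℤ → Bool, Computable D ∧ ∀ l, l.length = f.natDegree → (D l = true ↔ ZeroZ f l)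

/-- the Skolem Problem is decidable for the one recurrence of `F(t, X)` (all integer initial values) -/
def SkolemAt (F : ℤ[X][X]) (t : ℚ) : Prop :=
  ∃ D : List ℤ → Bool, Computable D ∧ ∀ x, x.length = F.natDegree → (D x = true ↔ ZeroQ F t x)

/-- the Skolem Problem is decidable for the whole family: all rational `t` with `F_0(t) ≠ 0`, all integer
initial values -/
def SkolemAll (F : ℤ[X][X]) : Prop :=
  ∃ A : List ℤ × (ℤ × ℤ) → Bool, Computable A ∧
    ∀ t : ℚ, aeval t (F.coeff 0) ≠ 0 → ∀ x : List ℤ, x.length = F.natDegree →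
      (A (x, (t.num, (t.den : ℤ))) = true ↔ ZeroQ F t x)

end Pool.Agent.Work.MP_8d13b5_lc.Fm.FamilyReduction
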