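import Pool.Agent.Work.MP_8d13b5_lc.Fm.R_RHC

set_option autoImplicit false

/-! Block RED, item RHP: the primitive recursive form of the reduction. -/

namespace Pool.Agent.Work.MP_8d13b5_lc.Fm

open Polynomial NumberField Finset Module

/-- RHP (primitive recursive form): `b` is a primitive recursive test; `u` has a zero iff the test is positive
or one of the `N` solutions `w` of the recurrence of `f` of IsRed has a zero. -/
def StRHP : Prop :=
  ∀ (F : ℤ[X][X]) (e d : ℕ), F.Monic → F.natDegree = d → 1 ≤ d → F.coeff 0 ≠ 0 → Wt e F →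
    ∀ (N T₀ c : ℕ) (f : ℤ[X]) (W : ℕ → ℕ → MvPolynomial (Fin (d + 2)) ℤ), IsRed F e d N T₀ c f W →
    ∃ (T₁ : ℕ) (b : List ℤ × (ℤ × ℤ) → Bool), Primrec b ∧
        ∀ x y : ℤ, IsCoprime x y → T₀ ≤ mx x y → T₁ ≤ mx x y → ∀ (v : List ℤ) (u : ℕ → ℤ),
          v.length = d → (∀ i < d, u i = v.getD i 0) → Rec (RingHom.id ℤ) (hsp e F x y) u →
          ((∃ n, u n = 0) ↔ b (v, (x, y)) = true ∨ ∃ q < N, ∃ w : ℕ → ℤ,
            Rec (RingHom.id ℤ) f w ∧
            (∀ i, w i = MvPolynomial.eval (Fin.cons x (Fin.cons y fun i : Fin d => u i)) (W q i)) ∧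
            ∃ n, w n = 0)

theorem prRHP (hDEC : StDEC) (hHB1 : StHB1) : StRHP := by
  intro F e d hF hd hd1 hF0 hWt N T₀ c f W hR
  obtain ⟨L, hLlen, hL⟩ := RRHC.exists_lst F d
  obtain ⟨M, hM, hM'⟩ := hDEC (RRHC.bd N c) (RRHC.primrec_bd N c)
    (fun B p u => (∃ n, u n = 0) → ∃ n < RRHC.bd N c (p, B), u n = 0)
    (fun B p u _ h hz => h hz)
  obtain ⟨H, hH⟩ : ∃ H : ℕ, ∀ j, ((F.coeff 0).coeff j).natAbs ≤ H := by
    refine ⟨∑ j ∈ range ((F.coeff 0).natDegree + 1), ((F.coeff 0).coeff j).natAbs, fun j => ?_⟩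
    by_cases hj : j < (F.coeff 0).natDegree + 1
    · exact Finset.single_le_sum (f := fun j => ((F.coeff 0).coeff j).natAbs)
        (fun _ _ => Nat.zero_le _) (mem_range.2 hj)
    · rw [coeff_eq_zero_of_natDegree_lt (by omega)]
      exact Nat.zero_le _
  refine ⟨H + 2, fun a => M ((HDU.cl (L, (e, a.2)), a.1), max a.2.1.natAbs a.2.2.natAbs), ?_, ?_⟩
  · exact hM.comp (Primrec.pair (Primrec.pair (HDU.primrec_cl.comp (Primrec.pair
        (Primrec.const L) (Primrec.pair (Primrec.const e) Primrec.snd))) Primrec.fst)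
        (Primrec.nat_max.comp
          (primrec_natAbs.comp (Primrec.fst.comp Primrec.snd))
          (primrec_natAbs.comp (Primrec.snd.comp Primrec.snd))))
  · intro x y hxy hT0 hT1 v u hv hvu hu
    have hT2 : 2 ≤ mx x y := by omega
    obtain ⟨hm, hdg, hco⟩ := hHB1.1 ℤ e F x y hF
    rw [hd] at hdg hco
    have h0 : (hsp e F x y).coeff 0 ≠ 0 := by
      rw [hco 0 (Nat.zero_le _)]
      refine HDU.hev_ne H x y hxy (by omega) _ _ hF0 ?_ hH
      have := hWt 0
      rwa [hd] at this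
    have hseq : Pd.IsSeq (HDU.cl (L, (e, (x, y))), v) u := by
      refine HDU.isSeq _ hm d hdg hd1 h0 _ v u hu (by simp [HDU.cl, hLlen]) ?_ hv hvu
      intro j hj
      rw [HDU.cl_getD L e x y j (by omega), hco _ (by omega), hLlen, hL _ (by omega)]
      have e1 : d - (d - 1 - j) = j + 1 := by omega
      rw [e1]
    have hMP := hM' (mx x y) _ u hseq
    obtain ⟨p, hp⟩ : ∃ p : List ℤ × List ℤ, p = (HDU.cl (L, (e, (x, y))), v) := ⟨_, rfl⟩
    rw [← hp] at hMP
    have hA : M ((HDU.cl (L, (e, (x, y))), v), max x.natAbs y.natAbs) = true ↔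
        M (p, mx x y) = true := by
      rw [hp]
      rfl
    show _ ↔ M ((HDU.cl (L, (e, (x, y))), v), max x.natAbs y.natAbs) = true ∨ _
    rw [hA]
    constructor
    · rintro ⟨n, hn⟩
      by_cases hz : ∃ n < RRHC.bd N c (p, mx x y), u n = 0
      · exact Or.inl ((hMP fun _ => hz).2 ⟨n, hn⟩)
      · refine Or.inr ?_
        have hN := hR.pos
        have hqN : n % N < N := Nat.mod_lt _ (by omega)
        have hnq : n = n % N + N * (n / N) := (Nat.mod_add_div n N).symm
        obtain ⟨w, hw1, hwW, _, hw3⟩ := hR.red x y hxy hT0 u hu (n % N) hqN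
        refine ⟨n % N, hqN, w, hw1, hwW, n / N, ?_⟩
        refine hw3 (Pd.size p) ?_ (n / N) ?_ (by rw [← hnq]; exact hn)
        · intro i hi
          rw [hvu i hi]
          refine (Pd.natAbs_getD_le v i).trans ?_
          rw [hp]
          unfold Pd.size
          exact Nat.le_add_left _ _
        · by_contra h4
          rw [not_lt] at h4
          apply hz
          refine ⟨n, ?_, hn⟩
          have h5 : n / N < 2 ^ (n / N) := Nat.lt_two_pow_self
          have h6 : 2 ^ (n / N) ≤ mx x y ^ (n / N) := Nat.pow_le_pow_left hT2 _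
          have h7 : n / N ≤ (Pd.size p * mx x y) ^ c := by omega
          have h8 : N * (n / N) ≤ N * (Pd.size p * mx x y) ^ c := Nat.mul_le_mul_left _ h7
          show n < N * (Pd.size p * mx x y) ^ c + N + 1
          omega
    · rintro (h1 | ⟨q, hq, w, hw1, hwW, n, hn⟩)
      · by_contra h2
        exact h2 ((hMP fun h3 => absurd h3 h2).1 h1)
      · obtain ⟨w', hw1', hwW', hw2, _⟩ := hR.red x y hxy hT0 u hu q hq
        refine ⟨q + N * n, hw2 n ?_⟩
        rw [hwW' n, ← hwW n, hn]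

end Pool.Agent.Work.MP_8d13b5_lc.Fm
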