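import Pool.Agent.Work.MP_8d13b5_lc.Fm.StmtsRed
import Mathlib.FieldTheory.Separable

set_option autoImplicit false

/-! Block [8d13b5 SIM]: if the family `F` has no multiple roots (as a polynomial in `X` over `ℚ(t)`), then the single
recurrence of the reduction (`IsRed`, `Fm/StmtsRed.lean`) can be chosen without multiple roots. With FixedGroup this gives a
LOGARITHMIC bound for the zeros in the theorem AllFamilies. The docstrings are the complete proofs. -/

namespace Pool.Agent.Work.MP_8d13b5_lc.Fm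

open Polynomial NumberField Finset Module

/-- SQS (squares of the solutions of a simple recurrence satisfy a simple recurrence). Proof. Let `Λ` be the set of the roots of `f` in
`ℂ` (`((f.map (algebraMap ℤ ℂ)).roots.toFinset`); as `f` is separable and monic, `f.map _ = ∏_(λ ∈ Λ) (X - λ)`. (a) A solution `y` of `f` is
`y_n = ∑_λ c_λ λ ^ n`: let `Φ : ℂ[X] → ℂ` be the linear map with `Φ(X ^ n) = y_n`; `Sol` says `Φ(X ^ n f) = 0`, hence `Φ(p f) = 0` for all
`p`. With the Lagrange basis `L_λ` (`Lagrange.basis Λ id`) the polynomial `X ^ n - ∑_λ λ ^ n L_λ` vanishes on `Λ`, so it is divisible by `f`, and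
`y_n = ∑_λ λ ^ n Φ(L_λ)`. (Or induction on the number of factors.) (b) Let `P` be the finite set of the minimal polynomials
`minpoly ℤ (λ μ)`, `λ, μ ∈ Λ` (a `Finset.image`), and `g = ∏_(p ∈ P) p`. All `λ μ` are integral and nonzero (`f.coeff 0 ≠ 0`), so each `p` is monic,
irreducible over `ℚ` (`minpoly.isIntegrallyClosed_eq_field_fractions`), and `p.coeff 0 ≠ 0` (`SQZ.min_zero` of `Fm/I_SQZ.lean`). Different
`p` are coprime over `ℚ` (irreducible and monic), so `g` is separable over `ℚ` (`Polynomial.separable_prod` or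
`Polynomial.separable_prod'`; each irreducible polynomial over `ℚ` is separable). (c) `y_n ^ 2 = ∑ c_λ c_μ (λ μ) ^ n` and every `(λ μ) ^ n` is a
solution of `minpoly ℤ (λ μ)`, so of `g` (over `ℂ`; `∑_i g_i z ^ (n + i) = z ^ n g(z) = 0`). Cast back to `ℤ`. -/
def StSQS : Prop :=
  ∀ f : ℤ[X], f.Monic → f.coeff 0 ≠ 0 → (f.map (Int.castRingHom ℚ)).Separable →
    ∃ g : ℤ[X], g.Monic ∧ g.coeff 0 ≠ 0 ∧ (g.map (Int.castRingHom ℚ)).Separable ∧
      ∀ y : ℕ → ℤ, Pd.Sol f y → Pd.Sol g (fun n => y n * y n)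

/-- SPS (RPS with a simple `f` for different `θ_j`). Proof: the proof of `prRPS` (`Fm/R_RPS.lean`, import it), with `f₁` the product of the
DIFFERENT minimal polynomials of `1` and the `θ_j` (over the `Finset.image` of `minpoly ℤ` on these elements; it is separable over
`ℚ` as in SQS (b)), and SQS in the place of `SQZ.sq_sol`. The only new point: `∏_j (X - θ_j)` divides `f₁` in `(𝓞 K)[X]`: the `θ_j` are
different, every `θ_j` is a root of `f₁`, and `𝓞 K` is a domain (`Finset.prod_dvd_of_coprime` over the field `K` and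
`Polynomial.map_dvd_map` for the monic divisor, or `Multiset.prod_X_sub_C_dvd_iff_le_roots`). -/
def StSPS : Prop :=
  ∀ (K : Type) [Field K] [NumberField K] (r : ℕ) (θ : Fin r → 𝓞 K), (∀ j, θ j ≠ 0) →
    Function.Injective θ →
    ∃ f : ℤ[X], f.Monic ∧ f.coeff 0 ≠ 0 ∧ (f.map (Int.castRingHom ℚ)).Separable ∧
      ∀ (σ : Type) (k : ℕ) (v : (σ → ℤ) → Fin k → ℕ → 𝓞 K),
      (∀ i n, Pl (fun a => v a i n)) →
      ∃ w : (σ → ℤ) → ℕ → ℤ, (∀ n, Pl (fun a => w a n)) ∧
        ∀ a, (∀ i, Pd.Sol (∏ j, (X - C (θ j))) (v a i)) →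
          Pd.Sol f (w a) ∧ ∀ n, w a n = 0 ↔ ∀ i, v a i n = 0

/-- SZH (different `θ_j` if `F` is separable). Proof. Let `S = Finset.univ.image θ`, `r' = S.card`, `θ' j = (S.equivFin.symm j : 𝓞 K)`: it is injective
with the same range. Put `P = ∏_j G.scaleRoots (θ_j)`, `P' = ∏_j G.scaleRoots (θ'_j)` (the product over `S`). Every factor of `P` divides `P'`,
so `P ∣ P' ^ r`, `expand N P ∣ (expand N P') ^ r` (`expand` is a ring homomorphism), so `F' = (F.map _).scaleRoots D` divides
`(expand N P') ^ r`; `r = 0` is only possible if `F' ∣ 1`, then nothing is to prove. Let `L` be the fraction field of `(𝓞 K)[X]`. The image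
of `F'` in `L[X]` is separable: `ℤ[X] → (𝓞 K)[X]` is injective and extends to the fraction fields (`IsFractionRing.lift` or
`IsLocalization.map`), `Separable.map`, and for a nonzero constant `D`: `scaleRoots` of a separable polynomial is separable (the
derivative of `p.scaleRoots D` is, up to the factor `D`, `p'.scaleRoots D`; or over an algebraic closure the roots `D x` are different,
`nodup_roots_iff_of_splits`). A separable polynomial is squarefree, so over `L`: `F' ∣ (expand N P') ^ r` gives `F' ∣ expand N P'`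
(`UniqueFactorizationMonoid.dvd_pow_iff_dvd_of_squarefree`). `F'` is monic, so it divides over `(𝓞 K)[X]` too
(`Polynomial.map_dvd_map`). -/
def StSZH : Prop :=
  ∀ (F : ℤ[X][X]), F.Monic → (F.map (algebraMap ℤ[X] (FractionRing ℤ[X]))).Separable →
    ∀ (K : Type) [Field K] [NumberField K] (N D r : ℕ) (θ : Fin r → 𝓞 K) (G : (𝓞 K)[X][X]),
      1 ≤ D → 1 ≤ N → G.Monic →
      (F.map (mapRingHom (algebraMap ℤ (𝓞 K)))).scaleRoots (C (D : 𝓞 K)) ∣
        expand (𝓞 K)[X] N (∏ j, G.scaleRoots (C (θ j))) →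
      ∃ (r' : ℕ) (θ' : Fin r' → 𝓞 K), Function.Injective θ' ∧ Set.range θ' = Set.range θ ∧
        (F.map (mapRingHom (algebraMap ℤ (𝓞 K)))).scaleRoots (C (D : 𝓞 K)) ∣
          expand (𝓞 K)[X] N (∏ j, G.scaleRoots (C (θ' j)))

/-- SHN (RHN with a simple `f`). Proof: if `F` is not separable this is RHN (`rRHN` of `Fm/All7.lean`). If `F` is separable, this is the
proof of `prRHN` (`Fm/R_RHN.lean`, copy it) with two changes: after RZH replace `r, θ` by the `r', θ'` of SZH (the `θ'_j` are nonzero as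
they are in the range of `θ`), and take `f` from SPS in the place of RPS. All hypotheses are landed: `hRZH hHDV hHB1 prSBY hHZR prINT
rRPC rRPA` (`Fm/All7.lean`). -/
def StSHN : Prop :=
  ∀ (F : ℤ[X][X]) (e d : ℕ), F.Monic → F.natDegree = d → 1 ≤ d → F.coeff 0 ≠ 0 → Wt e F →
    ∃ (N T₀ c : ℕ) (f : ℤ[X]) (W : ℕ → ℕ → MvPolynomial (Fin (d + 2)) ℤ), IsRed F e d N T₀ c f W ∧
      ((F.map (algebraMap ℤ[X] (FractionRing ℤ[X]))).Separable →
        (f.map (Int.castRingHom ℚ)).Separable)

end Pool.Agent.Work.MP_8d13b5_lc.Fm
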