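import Pool.Agent.Work.MP_8d13b5_lc.Fm.Stmts

set_option autoImplicit false

/-!
# [8d13b5 FM BEZ]: the two Bezout identities for a family of forms
-/

namespace Pool.Agent.Work.MP_8d13b5_lc.Fm

open Polynomial NumberField Finset Module

namespace BEZ

/-- pseudo division by a polynomial of degree `e` -/
theorem pdiv {R : Type} [CommRing R] (g : R[X]) (e : ℕ) (hg : g.natDegree ≤ e) :
    ∀ (n : ℕ) (p : R[X]), p.degree < n → ∃ q r : R[X],
      C (g.coeff e ^ n) * p = q * g + r ∧ r.degree < e := by
  intro n
  induction n with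
  | zero =>
    intro p hp
    have hp0 : p = 0 := by
      ext m
      rw [coeff_zero]
      exact (degree_lt_iff_coeff_zero p 0).1 hp m (Nat.zero_le m)
    refine ⟨0, 0, by rw [hp0]; simp, ?_⟩
    rw [degree_zero]
    exact WithBot.bot_lt_coe e
  | succ n ih =>
    intro p hp
    rcases lt_or_ge n e with hne | hen
    · refine ⟨0, C (g.coeff e ^ (n + 1)) * p, by ring, ?_⟩
      rw [degree_lt_iff_coeff_zero] at hp ⊢
      intro m hm
      rw [coeff_C_mul, hp m (by omega), mul_zero]
    · have hlt : (C (g.coeff e) * p - C (p.coeff n) * (X ^ (n - e) * g)).degree <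
        (n : WithBot ℕ) := by
        rw [degree_lt_iff_coeff_zero]
        intro m hm
        rw [coeff_sub, coeff_C_mul, coeff_C_mul]
        rcases hm.eq_or_lt with h1 | h1
        · subst h1
          have h2 : (X ^ (n - e) * g).coeff n = g.coeff e := by
            have h3 := coeff_X_pow_mul g (n - e) e
            rwa [show e + (n - e) = n by omega] at h3
          rw [h2, mul_comm, sub_self]
        · have h2 : p.coeff m = 0 := by
            rw [degree_lt_iff_coeff_zero] at hp
            exact hp m h1
          have h3 : (X ^ (n - e) * g).coeff m = 0 := by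
            have h4 := coeff_X_pow_mul g (n - e) (m - (n - e))
            rw [show m - (n - e) + (n - e) = m by omega] at h4
            rw [h4]
            exact coeff_eq_zero_of_natDegree_lt (by omega)
          rw [h2, h3, mul_zero, mul_zero, sub_zero]
      obtain ⟨q, r, h1, h2⟩ := ih _ hlt
      refine ⟨q + C (g.coeff e ^ n) * (C (p.coeff n) * X ^ (n - e)), r, ?_, h2⟩
      have h3 : C (g.coeff e ^ (n + 1)) * p =
          C (g.coeff e ^ n) * (C (g.coeff e) * p - C (p.coeff n) * (X ^ (n - e) * g)) +
            C (g.coeff e ^ n) * (C (p.coeff n) * (X ^ (n - e) * g)) := by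
        rw [pow_succ, C_mul]
        ring
      rw [h3, h1]
      ring

end BEZ

theorem prBEZ : StBEZ := by
  intro R _ _ m e lam hfam
  obtain ⟨j₀, hj₀⟩ := hfam.top
  obtain ⟨c₀, hc₀, A₀, hA₀⟩ := hfam.cop
  set a : R := (lam j₀).coeff e with ha
  set D : ℕ := ∑ j, (A₀ j).natDegree with hD
  have hDj : ∀ j, (A₀ j).natDegree ≤ D := fun j =>
    Finset.single_le_sum (f := fun j => (A₀ j).natDegree) (fun _ _ => Nat.zero_le _)
      (Finset.mem_univ j)
  set N : ℕ := 2 * e + D with hN
  set n : ℕ := N + D + 1 with hn
  have hdeg : ∀ j, (X ^ N * A₀ j).degree < (n : WithBot ℕ) := by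
    intro j
    refine lt_of_le_of_lt degree_le_natDegree ?_
    have h1 : (X ^ N * A₀ j).natDegree ≤ N + D :=
      natDegree_mul_le.trans (add_le_add (natDegree_X_pow_le N) (hDj j))
    have h2 : (X ^ N * A₀ j).natDegree < n := by omega
    exact_mod_cast h2
  choose q r hqr hr using fun j => BEZ.pdiv (lam j₀) e (hfam.deg j₀) n _ (hdeg j)
  have hrn : ∀ j, (r j).natDegree ≤ e := fun j => by
    rw [natDegree_le_iff_degree_le]
    exact (hr j).le
  set B : Fin (m + 1) → R[X] := fun j => r j + if j = j₀ then ∑ i, q i * lam i else 0 with hB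
  have hBsum : ∑ j, B j * lam j = C (c₀ * a ^ n) * X ^ N := by
    have h1 : ∑ j, B j * lam j = ∑ j, r j * lam j + (∑ i, q i * lam i) * lam j₀ := by
      simp only [hB, add_mul, Finset.sum_add_distrib, ite_mul, zero_mul, Finset.sum_ite_eq',
        Finset.mem_univ, if_true]
    have h2 : ∑ j, r j * lam j + (∑ i, q i * lam i) * lam j₀ =
        ∑ j, (C (a ^ n) * (X ^ N * A₀ j)) * lam j := by
      rw [Finset.sum_mul, ← Finset.sum_add_distrib]
      refine Finset.sum_congr rfl fun j _ => ?_
      rw [hqr j]
      ring
    rw [h1, h2]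
    have h3 : ∑ j, (C (a ^ n) * (X ^ N * A₀ j)) * lam j =
        C (a ^ n) * X ^ N * ∑ j, A₀ j * lam j := by
      rw [Finset.mul_sum]
      refine Finset.sum_congr rfl fun j _ => ?_
      ring
    rw [h3, hA₀, C_mul]
    ring
  refine ⟨N, c₀ * a ^ n, fun j => C (a ^ n) * A₀ j, B, mul_ne_zero hc₀ (pow_ne_zero _ hj₀),
    fun j => ⟨?_, ?_⟩, ?_, hBsum⟩
  · have h1 : (C (a ^ n) * A₀ j).natDegree ≤ (A₀ j).natDegree := natDegree_C_mul_le _ _
    have h2 := hDj j
    show (C (a ^ n) * A₀ j).natDegree + e ≤ N
    omega
  · by_cases hj : j = j₀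
    · subst hj
      by_cases hB0 : B j = 0
      · rw [hB0, natDegree_zero]
        omega
      · have h1 : (B j * lam j).natDegree = (B j).natDegree + (lam j).natDegree :=
          natDegree_mul hB0 (hfam.ne j)
        have h2 : (lam j).natDegree = e :=
          le_antisymm (hfam.deg j) (le_natDegree_of_ne_zero hj₀)
        have h3 : B j * lam j = C (c₀ * a ^ n) * X ^ N - ∑ i ∈ Finset.univ.erase j, B i * lam i := by
          rw [← hBsum, ← Finset.add_sum_erase Finset.univ _ (Finset.mem_univ j)]
          ring
        have h4 : (B j * lam j).natDegree ≤ N := by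
          rw [h3]
          refine (natDegree_sub_le _ _).trans (max_le ?_ ?_)
          · exact (natDegree_C_mul_le _ _).trans (natDegree_X_pow_le N)
          · refine natDegree_sum_le_of_forall_le _ _ fun i hi => ?_
            have h5 : i ≠ j := Finset.ne_of_mem_erase hi
            have h6 : B i = r i := by simp [hB, h5]
            rw [h6]
            refine natDegree_mul_le.trans ?_
            have h7 := hrn i
            have h8 := hfam.deg i
            omega
        omega
    · have h6 : B j = r j := by simp [hB, hj]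
      rw [h6]
      have h7 := hrn j
      omega
  · have h1 : ∑ j, (C (a ^ n) * A₀ j) * lam j = C (a ^ n) * ∑ j, A₀ j * lam j := by
      rw [Finset.mul_sum]
      refine Finset.sum_congr rfl fun j _ => ?_
      ring
    rw [h1, hA₀, ← C_mul, mul_comm]

end Pool.Agent.Work.MP_8d13b5_lc.Fm
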