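import Pool.Agent.Work.MP_8d13b5_lc.Fm.Stmts

set_option autoImplicit false

/-! Item BOX of the block `Fm`: counting the integers of `K`. -/

namespace Pool.Agent.Work.MP_8d13b5_lc.Fm

open Polynomial NumberField Finset Module

namespace BOX

variable (K : Type) [Field K] [NumberField K]

theorem card_idx : Fintype.card (Free.ChooseBasisIndex ℤ (𝓞 K)) = finrank ℚ K := by
  rw [← RingOfIntegers.rank K, finrank_eq_card_chooseBasisIndex]

/-- The element with the coordinates `c`. -/
noncomputable def el (c : Free.ChooseBasisIndex ℤ (𝓞 K) → ℕ) : 𝓞 K :=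
  ∑ i, ((c i : ℕ) : ℤ) • RingOfIntegers.basis K i

theorem el_inj : Function.Injective (el K) := by
  intro c c' h
  funext i
  have h1 : ∀ c : Free.ChooseBasisIndex ℤ (𝓞 K) → ℕ,
      (RingOfIntegers.basis K).repr (el K c) i = (c i : ℤ) := by
    intro c
    unfold el
    rw [Basis.repr_sum_self]
  have h2 := h1 c
  rw [h, h1 c'] at h2
  exact_mod_cast h2.symm

/-- The bound of the basis. -/
noncomputable def Om : ℝ := ∑ φ : K →+* ℂ, ∑ i, ‖res φ (RingOfIntegers.basis K i)‖

theorem el_le (c : Free.ChooseBasisIndex ℤ (𝓞 K) → ℕ) (H : ℕ) (hc : ∀ i, c i ≤ H)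
    (φ : K →+* ℂ) : ‖res φ (el K c)‖ ≤ Om K * H := by
  unfold el
  rw [map_sum]
  have h1 : ∀ i ∈ (univ : Finset (Free.ChooseBasisIndex ℤ (𝓞 K))),
      ‖res φ (((c i : ℕ) : ℤ) • RingOfIntegers.basis K i)‖ ≤
        ‖res φ (RingOfIntegers.basis K i)‖ * H := by
    intro i _
    rw [zsmul_eq_mul, map_mul, map_intCast, norm_mul, mul_comm]
    refine mul_le_mul_of_nonneg_left ?_ (norm_nonneg _)
    have h2 : ((((c i : ℕ) : ℤ) : ℂ)) = ((c i : ℕ) : ℂ) := by push_cast; rfl
    rw [h2, Complex.norm_natCast]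
    exact_mod_cast hc i
  refine (norm_sum_le _ _).trans ((sum_le_sum h1).trans ?_)
  rw [← sum_mul]
  refine mul_le_mul_of_nonneg_right ?_ (Nat.cast_nonneg _)
  unfold Om
  exact single_le_sum (f := fun φ : K →+* ℂ => ∑ i, ‖res φ (RingOfIntegers.basis K i)‖)
    (fun _ _ => sum_nonneg fun _ _ => norm_nonneg _) (mem_univ φ)

/-- The bound of the coordinates. -/
noncomputable def Cc : ℝ :=
  ∑ i, ‖LinearMap.toContinuousLinearMap ((canonicalEmbedding.latticeBasis K).coord i)‖

theorem repr_le (z : 𝓞 K) (M : ℝ) (hM : 0 ≤ M) (hz : ∀ φ : K →+* ℂ, ‖res φ z‖ ≤ M)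
    (i : Free.ChooseBasisIndex ℤ (𝓞 K)) :
    |(((RingOfIntegers.basis K).repr z i : ℤ) : ℝ)| ≤ Cc K * M := by
  have h1 : ‖canonicalEmbedding K (algebraMap (𝓞 K) K z)‖ ≤ M := by
    rw [pi_norm_le_iff_of_nonneg hM]
    intro φ
    exact hz φ
  have h2 := (LinearMap.toContinuousLinearMap
    ((canonicalEmbedding.latticeBasis K).coord i)).le_opNorm
    (canonicalEmbedding K (algebraMap (𝓞 K) K z))
  have h3 : (LinearMap.toContinuousLinearMap ((canonicalEmbedding.latticeBasis K).coord i))
      (canonicalEmbedding K (algebraMap (𝓞 K) K z)) =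
        (((RingOfIntegers.basis K).repr z i : ℤ) : ℂ) := by
    rw [LinearMap.coe_toContinuousLinearMap', Basis.coord_apply,
      canonicalEmbedding.integralBasis_repr_apply, integralBasis_repr_apply]
    simp
  rw [h3] at h2
  have h4 : ‖(((RingOfIntegers.basis K).repr z i : ℤ) : ℂ)‖ =
      |(((RingOfIntegers.basis K).repr z i : ℤ) : ℝ)| := by
    rw [Complex.norm_intCast]
  rw [h4] at h2
  have h5 : ‖LinearMap.toContinuousLinearMap ((canonicalEmbedding.latticeBasis K).coord i)‖ ≤
      Cc K := by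
    unfold Cc
    exact single_le_sum (f := fun i => ‖LinearMap.toContinuousLinearMap
      ((canonicalEmbedding.latticeBasis K).coord i)‖)
      (fun _ _ => ContinuousLinearMap.opNorm_nonneg _) (mem_univ i)
  exact h2.trans (mul_le_mul h5 h1 (norm_nonneg _)
    ((ContinuousLinearMap.opNorm_nonneg _).trans h5))

theorem Om_nonneg : 0 ≤ Om K := sum_nonneg fun _ _ => sum_nonneg fun _ _ => norm_nonneg _

theorem Cc_nonneg : 0 ≤ Cc K := sum_nonneg fun _ _ => ContinuousLinearMap.opNorm_nonneg _

end BOX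

theorem prBOX : StBOX := by
  intro K _ _
  refine ⟨1 + BOX.Om K + 2 * BOX.Cc K, by linarith [BOX.Om_nonneg K, BOX.Cc_nonneg K], ?_, ?_⟩
  · intro H
    classical
    refine ⟨(Fintype.piFinset fun _ : Free.ChooseBasisIndex ℤ (𝓞 K) => range (H + 1)).image
      (BOX.el K), ?_, ?_⟩
    · rw [card_image_of_injective _ (BOX.el_inj K), Fintype.card_piFinset]
      simp only [card_range, prod_const, card_univ]
      rw [BOX.card_idx]
    · intro z hz φ
      obtain ⟨c, hc, rfl⟩ := mem_image.1 hz
      rw [Fintype.mem_piFinset] at hc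
      refine (BOX.el_le K c H (fun i => by have := mem_range.1 (hc i); omega) φ).trans ?_
      refine mul_le_mul_of_nonneg_right ?_ (Nat.cast_nonneg _)
      linarith [BOX.Cc_nonneg K]
  · intro M hM S hS
    classical
    set N : ℕ := ⌊BOX.Cc K * M⌋₊ with hN
    have hCM : 0 ≤ BOX.Cc K * M := mul_nonneg (BOX.Cc_nonneg K) (by linarith)
    have h1 : S.card ≤ (Fintype.piFinset fun _ : Free.ChooseBasisIndex ℤ (𝓞 K) =>
        Icc (-(N : ℤ)) N).card := by
      refine card_le_card_of_injOn (fun z i => (RingOfIntegers.basis K).repr z i) ?_ ?_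
      · intro z hz
        rw [mem_coe, Fintype.mem_piFinset]
        intro i
        have h2 := BOX.repr_le K z M (by linarith) (hS z hz) i
        rw [mem_Icc, ← abs_le]
        have h3 : ((|(RingOfIntegers.basis K).repr z i| : ℤ) : ℝ) ≤ BOX.Cc K * M := by
          rw [Int.cast_abs]
          exact h2
        have h4 : (((|(RingOfIntegers.basis K).repr z i|).toNat : ℕ) : ℝ) ≤ BOX.Cc K * M := by
          have h5 : (((|(RingOfIntegers.basis K).repr z i|).toNat : ℕ) : ℤ) =
              |(RingOfIntegers.basis K).repr z i| := Int.toNat_of_nonneg (abs_nonneg _)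
          rw [← h5] at h3
          exact_mod_cast h3
        have h6 := Nat.le_floor h4
        have h7 := Int.toNat_of_nonneg (abs_nonneg ((RingOfIntegers.basis K).repr z i))
        rw [← h7]
        exact_mod_cast h6
      · intro z _ z' _ h
        apply (RingOfIntegers.basis K).repr.injective
        ext i
        exact congrFun h i
    have h2 : (Fintype.piFinset fun _ : Free.ChooseBasisIndex ℤ (𝓞 K) =>
        Icc (-(N : ℤ)) N).card = (2 * N + 1) ^ finrank ℚ K := by
      rw [Fintype.card_piFinset]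
      simp only [Int.card_Icc, prod_const, card_univ]
      rw [BOX.card_idx]
      congr 1
      omega
    rw [h2] at h1
    have h3 : (S.card : ℝ) ≤ (2 * (N : ℝ) + 1) ^ finrank ℚ K := by
      exact_mod_cast h1
    refine h3.trans (pow_le_pow_left₀ (by positivity) ?_ _)
    have h4 : (N : ℝ) ≤ BOX.Cc K * M := Nat.floor_le hCM
    nlinarith [BOX.Om_nonneg K, mul_nonneg (BOX.Om_nonneg K) (by linarith : (0 : ℝ) ≤ M)]

end Pool.Agent.Work.MP_8d13b5_lc.Fm
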