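import Pool.Agent.Work.MP_8d13b5_lc.Fm.Stmts

set_option autoImplicit false

/-! Block `Fm`, item CRA: Cramer's rule for vectors orthogonal to `E`. -/

namespace Pool.Agent.Work.MP_8d13b5_lc.Fm

open Polynomial NumberField Finset Module

namespace CRA

variable {R : Type} [CommRing R] {m : ℕ}

/-- the matrix with the first row `w` and the rows `U i` -/
def mat (U : Fin m → Fin (m + 1) → R) (w : Fin (m + 1) → R) :
    Matrix (Fin (m + 1)) (Fin (m + 1)) R :=
  Matrix.of (Fin.cons w U : Fin (m + 1) → Fin (m + 1) → R)

theorem det_mat (U : Fin m → Fin (m + 1) → R) (w : Fin (m + 1) → R) :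
    (mat U w).det = ∑ l, w l * mnr U l := by
  rw [Matrix.det_succ_row_zero]
  refine Finset.sum_congr rfl fun l _ => ?_
  have h1 : (mat U w).submatrix Fin.succ l.succAbove =
      Matrix.of fun i k => U i (l.succAbove k) := by
    ext i k
    simp [mat]
  have h2 : mat U w 0 l = w l := by simp [mat]
  rw [h1, h2]
  unfold mnr
  ring

theorem mulVec_eq (U : Fin m → Fin (m + 1) → R) (w E : Fin (m + 1) → R)
    (hw : ∑ l, w l * E l = 0) (hU : ∀ i, ∑ j, U i j * E j = 0) : (mat U w).mulVec E = 0 := by
  funext i
  refine Fin.cases ?_ (fun i => ?_) i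
  · simpa [mat, Matrix.mulVec, dotProduct] using hw
  · simpa [mat, Matrix.mulVec, dotProduct] using hU i

end CRA

theorem prCRA : StCRA := by
  intro R _ _ m E U hE hU hort
  refine ⟨?_, fun i j => ?_⟩
  · obtain ⟨j, hj⟩ : ∃ j, E j ≠ 0 := by
      by_contra h
      push Not at h
      exact hE (funext h)
    refine ⟨j, fun hm => ?_⟩
    have h1 : (CRA.mat U (Pi.single j 1)).det = 0 := by
      rw [CRA.det_mat, Finset.sum_eq_single j]
      · simp [hm]
      · intro l _ hl
        simp [Pi.single_eq_of_ne hl]
      · intro h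
        exact absurd (Finset.mem_univ j) h
    obtain ⟨v, hv, hv0⟩ := Matrix.exists_vecMul_eq_zero_iff.2 h1
    have h2 : ∀ l, v 0 * (Pi.single j 1 : Fin (m + 1) → R) l + ∑ i, v (Fin.succ i) * U i l = 0 := by
      intro l
      have h3 := congrFun hv0 l
      simp only [Matrix.vecMul, dotProduct, Fin.sum_univ_succ, Pi.zero_apply] at h3
      simpa [CRA.mat] using h3
    have h4 : v 0 * E j = 0 := by
      have h5 : ∑ l, (v 0 * (Pi.single j 1 : Fin (m + 1) → R) l +
          ∑ i, v (Fin.succ i) * U i l) * E l = 0 :=
        Finset.sum_eq_zero fun l _ => by rw [h2 l, zero_mul]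
      have h6 : ∑ l, (∑ i, v (Fin.succ i) * U i l) * E l = 0 := by
        simp only [Finset.sum_mul]
        rw [Finset.sum_comm]
        refine Finset.sum_eq_zero fun i _ => ?_
        have h7 : ∑ l, v (Fin.succ i) * U i l * E l = v (Fin.succ i) * ∑ l, U i l * E l := by
          rw [Finset.mul_sum]
          exact Finset.sum_congr rfl fun l _ => mul_assoc _ _ _
        rw [h7, hort i, mul_zero]
      simp only [add_mul, Finset.sum_add_distrib, h6, add_zero] at h5
      rw [Finset.sum_eq_single j] at h5
      · simpa using h5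
      · intro l _ hl
        simp [Pi.single_eq_of_ne hl]
      · intro h
        exact absurd (Finset.mem_univ j) h
    have h8 : v 0 = 0 := by
      rcases mul_eq_zero.1 h4 with h | h
      · exact h
      · exact absurd h hj
    have h9 : ∑ i, v (Fin.succ i) • U i = 0 := by
      funext l
      have h10 := h2 l
      rw [h8, zero_mul, zero_add] at h10
      rw [Finset.sum_apply]
      simpa [smul_eq_mul] using h10
    have h11 := Fintype.linearIndependent_iff.1 hU (fun i => v (Fin.succ i)) h9
    refine hv (funext fun l => ?_)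
    refine Fin.cases ?_ (fun i => ?_) l
    · simpa using h8
    · simpa using h11 i
  · set w : Fin (m + 1) → R := fun l => E i * (Pi.single j 1 : Fin (m + 1) → R) l -
      E j * (Pi.single i 1 : Fin (m + 1) → R) l with hw
    have hs : ∀ g : Fin (m + 1) → R, ∑ l, w l * g l = E i * g j - E j * g i := by
      intro g
      have h1 : ∀ (k : Fin (m + 1)) (c : R),
          ∑ l, c * (Pi.single k 1 : Fin (m + 1) → R) l * g l = c * g k := by
        intro k c
        rw [Finset.sum_eq_single k]
        · simp
        · intro l _ hl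
          simp [Pi.single_eq_of_ne hl]
        · intro h
          exact absurd (Finset.mem_univ k) h
      simp only [hw, sub_mul, Finset.sum_sub_distrib, h1]
    have h2 : (CRA.mat U w).det = 0 :=
      Matrix.exists_mulVec_eq_zero_iff.1 ⟨E, hE, CRA.mulVec_eq U w E (by rw [hs]; ring) hort⟩
    rw [CRA.det_mat, hs] at h2
    exact sub_eq_zero.1 h2

end Pool.Agent.Work.MP_8d13b5_lc.Fm
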