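import Pool.Agent.Work.MP_8d13b5_lc.Fm.Fin

set_option autoImplicit false

/-! Block `Fm`, item DEC: decision from a primitive recursive bound. -/

namespace Pool.Agent.Work.MP_8d13b5_lc.Fm

open Polynomial NumberField Finset Module

theorem prDEC : StDEC := by
  classical
  intro bd hbd P h
  refine ⟨fun x => decide (∃ n < bd x, val x.1 n = 0), ?_, ?_⟩
  · have hR : PrimrecRel (fun (m : ℕ) (x : US.Code × ℕ) => val x.1 m = 0) :=
      Primrec.eq.comp (primrec_val.comp (Primrec.fst.comp Primrec.snd) Primrec.fst)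
        (Primrec.const 0)
    exact ((US.rel_exists_lt hR).comp hbd Primrec.id).decide.of_eq fun p => by simp
  · intro B p u hpu hP
    have hpu' := hpu
    obtain ⟨h1, h2, h3, hu1, hu2⟩ := hpu
    have huv : u = val p := funext (US.eq_val p ⟨h1, h2, h3⟩ u hu1 hu2)
    rw [decide_eq_true_eq]
    constructor
    · rintro ⟨n, _, hn⟩
      exact ⟨n, by rw [huv]; exact hn⟩
    · intro hex
      obtain ⟨n, hlt, hn⟩ := h B p u hpu' hP hex
      exact ⟨n, hlt, by rw [← huv]; exact hn⟩

end Pool.Agent.Work.MP_8d13b5_lc.Fm
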