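import Pool.Agent.Work.MP_8d13b5_lc.Fm.Stmts

set_option autoImplicit false

/-! Item END of the block Fm. -/

namespace Pool.Agent.Work.MP_8d13b5_lc.Fm

open Polynomial NumberField Finset Module

namespace END

theorem one_le_prod {K : Type} [Field K] [NumberField K] (x : 𝓞 K) (hx : x ≠ 0) :
    1 ≤ ∏ φ : K →+* ℂ, ‖res φ x‖ := by
  have h1 : (1 : ℝ) ≤ |(Algebra.norm ℤ x : ℝ)| := by
    have h2 : Algebra.norm ℤ x ≠ 0 := Algebra.norm_ne_zero_iff.2 hx
    have h3 : (1 : ℤ) ≤ |Algebra.norm ℤ x| := Int.one_le_abs h2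
    exact_mod_cast h3
  have h4 : ((Algebra.norm ℤ x : ℤ) : ℂ) = ∏ φ : K →+* ℂ, res φ x := by
    have h5 : ((Algebra.norm ℤ x : ℤ) : ℚ) = Algebra.norm ℚ (x : K) :=
      Algebra.coe_norm_int x
    have h6 := Algebra.norm_eq_prod_embeddings ℚ ℂ (x : K)
    have h7 : ((Algebra.norm ℤ x : ℤ) : ℂ) = ((Algebra.norm ℚ (x : K) : ℚ) : ℂ) := by
      rw [← h5]
      push_cast
      rfl
    rw [h7]
    have h8 : ((Algebra.norm ℚ (x : K) : ℚ) : ℂ) = algebraMap ℚ ℂ (Algebra.norm ℚ (x : K)) := rfl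
    rw [h8, h6]
    exact Fintype.prod_equiv (RingHom.equivRatAlgHom K ℂ).symm _ _ (fun φ => rfl)
  rw [← norm_prod, ← h4]
  rw [Complex.norm_intCast]
  exact h1

theorem det_le {m : ℕ} (M : Matrix (Fin m) (Fin m) ℂ) (R : Fin m → ℝ) (h : ∀ i j, ‖M i j‖ ≤ R i) :
    ‖M.det‖ ≤ m.factorial * ∏ i, R i := by
  rw [Matrix.det_apply]
  refine (norm_sum_le _ _).trans ?_
  have h1 : ∀ σ ∈ (univ : Finset (Equiv.Perm (Fin m))),
      ‖Equiv.Perm.sign σ • ∏ i, M (σ i) i‖ ≤ ∏ i, R i := by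
    intro σ _
    have h2 : ‖Equiv.Perm.sign σ • ∏ i, M (σ i) i‖ = ‖∏ i, M (σ i) i‖ := by
      rcases Int.units_eq_one_or (Equiv.Perm.sign σ) with h3 | h3
      · rw [h3, one_smul]
      · rw [h3, Units.neg_smul, one_smul, norm_neg]
    rw [h2, norm_prod, ← Equiv.prod_comp σ R]
    exact prod_le_prod (fun i _ => norm_nonneg _) fun i _ => h _ _
  refine (sum_le_card_nsmul _ _ _ h1).trans ?_
  rw [nsmul_eq_mul, card_univ, Fintype.card_perm, Fintype.card_fin]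

theorem main (hEXC : StEXC) (hCRA : StCRA) (K : Type) [Field K] [NumberField K] (m : ℕ)
    (E a b : Fin (m + 1) → 𝓞 K) (g : 𝓞 K)
    (V : Fin m → Fin (m + 1) → 𝓞 K) (f : (K →+* ℂ) → ℝ) (A : Fin m → (K →+* ℂ) → ℝ)
    (ha : a ≠ 0) (hg : g ≠ 0) (hb : ∑ j, b j * E j = g) (haE : ∑ j, a j * E j = 0)
    (hV : ∀ i, ∑ j, V i j * E j = 0) (hVi : LinearIndependent (𝓞 K) V)
    (hf : ∀ φ, 0 ≤ f φ ∧ ∃ j, f φ ≤ ‖res φ (E j)‖) (hA : ∀ i φ j, ‖res φ (V i j)‖ ≤ A i φ) :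
    ∃ i₀, ∏ φ, f φ ≤ (m.factorial : ℝ) ^ finrank ℚ K * (∏ φ : K →+* ℂ, ‖res φ g‖) * HH a *
      ∏ i ∈ univ.erase i₀, ∏ φ, A i φ := by
  classical
  have hE : E ≠ 0 := by
    rintro rfl
    apply hg
    rw [← hb]
    simp
  obtain ⟨i₀, hU⟩ := hEXC (𝓞 K) m E a V hE ha hVi hV haE
  refine ⟨i₀, ?_⟩
  set U := Function.update V i₀ a with hUdef
  have hUE : ∀ i, ∑ j, U i j * E j = 0 := by
    intro i
    by_cases hi : i = i₀
    · subst hi
      rw [hUdef, Function.update_self]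
      exact haE
    · rw [hUdef, Function.update_of_ne hi]
      exact hV i
  obtain ⟨⟨j₀, hj₀⟩, hM⟩ := hCRA (𝓞 K) m E U hE hU hUE
  set N₀ : 𝓞 K := ∑ j, b j * mnr U j with hN₀
  have hN : ∀ i, N₀ * E i = g * mnr U i := by
    intro i
    rw [hN₀, ← hb, sum_mul, sum_mul]
    refine sum_congr rfl fun j _ => ?_
    have := hM i j
    linear_combination b j * this
  have hN0 : N₀ ≠ 0 := by
    intro h0
    have h1 := hN j₀
    rw [h0, zero_mul] at h1
    exact mul_ne_zero hg hj₀ h1.symm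
  have hone := one_le_prod N₀ hN0
  have hR : ∀ φ : K →+* ℂ, ∀ i j, ‖res φ (U i j)‖ ≤
      (if i = i₀ then ∑ l, ‖res φ (a l)‖ else A i φ) := by
    intro φ i j
    by_cases hi : i = i₀
    · subst hi
      rw [if_pos rfl, hUdef, Function.update_self]
      exact single_le_sum (f := fun l => ‖res φ (a l)‖) (fun l _ => norm_nonneg _) (mem_univ j)
    · rw [if_neg hi, hUdef, Function.update_of_ne hi]
      exact hA i φ j
  have hmn : ∀ (φ : K →+* ℂ) (j : Fin (m + 1)), ‖res φ (mnr U j)‖ ≤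
      m.factorial * ((∑ l, ‖res φ (a l)‖) * ∏ i ∈ univ.erase i₀, A i φ) := by
    intro φ j
    have e1 : ‖res φ (mnr U j)‖ =
        ‖(Matrix.of fun i l => res φ (U i (j.succAbove l))).det‖ := by
      unfold mnr
      rw [map_mul, map_pow, map_neg, map_one, norm_mul, norm_pow, norm_neg, norm_one, one_pow,
        one_mul, RingHom.map_det]
      rfl
    rw [e1]
    refine (det_le _ (fun i => if i = i₀ then ∑ l, ‖res φ (a l)‖ else A i φ) ?_).trans ?_
    · intro i l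
      exact hR φ i _
    · refine mul_le_mul_of_nonneg_left ?_ (by positivity)
      rw [← mul_prod_erase univ _ (mem_univ i₀), if_pos rfl]
      refine le_of_eq ?_
      congr 1
      refine prod_congr rfl fun i hi => ?_
      rw [if_neg (ne_of_mem_erase hi)]
  have hφ : ∀ φ : K →+* ℂ, ‖res φ N₀‖ * f φ ≤ ‖res φ g‖ *
      (m.factorial * ((∑ l, ‖res φ (a l)‖) * ∏ i ∈ univ.erase i₀, A i φ)) := by
    intro φ
    obtain ⟨h1, j, h2⟩ := hf φ
    calc ‖res φ N₀‖ * f φ ≤ ‖res φ N₀‖ * ‖res φ (E j)‖ :=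
          mul_le_mul_of_nonneg_left h2 (norm_nonneg _)
      _ = ‖res φ g‖ * ‖res φ (mnr U j)‖ := by rw [← norm_mul, ← map_mul, hN, map_mul, norm_mul]
      _ ≤ _ := mul_le_mul_of_nonneg_left (hmn φ j) (norm_nonneg _)
  have hprod : ∏ φ : K →+* ℂ, f φ ≤ (∏ φ : K →+* ℂ, ‖res φ N₀‖) * ∏ φ : K →+* ℂ, f φ := by
    have h0 : 0 ≤ ∏ φ : K →+* ℂ, f φ := prod_nonneg fun φ _ => (hf φ).1
    nlinarith
  refine hprod.trans ?_
  rw [← prod_mul_distrib]
  refine (prod_le_prod (fun φ _ => mul_nonneg (norm_nonneg _) (hf φ).1) fun φ _ => hφ φ).trans ?_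
  rw [prod_mul_distrib, prod_mul_distrib, prod_mul_distrib, prod_const, card_univ,
    NumberField.Embeddings.card K ℂ, prod_comm]
  unfold HH
  refine le_of_eq ?_
  ring

end END

theorem prEND (hEXC : StEXC) (hCRA : StCRA) : StEND := by
  intro K _ _ m E a b g V f A _ ha hg hb haE hV hVi hf hA
  exact END.main hEXC hCRA K m E a b g V f A ha hg hb haE hV hVi hf hA

end Pool.Agent.Work.MP_8d13b5_lc.Fm
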