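import Pool.Agent.Work.MP_8d13b5_lc.Fm.Stmts

set_option autoImplicit false

/-! Item EXA of the block Fm: the family of order five. -/

namespace Pool.Agent.Work.MP_8d13b5_lc.Fm

open Polynomial NumberField Finset Module

namespace EXA

section

variable {R : Type} [CommRing R]

noncomputable def q (a b c : R) : R[X] := C a * X ^ 2 + C b * X + C c

theorem q0 (a b c : R) : (q a b c).coeff 0 = c := by simp [q]
theorem q1 (a b c : R) : (q a b c).coeff 1 = b := by simp [q, coeff_X, coeff_C]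
theorem q2 (a b c : R) : (q a b c).coeff 2 = a := by simp [q, coeff_X, coeff_C]
theorem qdeg (a b c : R) : (q a b c).natDegree ≤ 2 := natDegree_quadratic_le

def mm : Fin 5 → ℤ := ![3, -3, -1, 1, 0]

theorem mm0 : ∀ i : Fin 5, i ≠ 4 → mm i ≠ 0 := by decide

theorem mmi : ∀ i j : Fin 5, i ≠ 4 → j ≠ 4 → i ≠ j → mm i ≠ mm j := by decide

theorem qc {a b c a' b' c' s t : R} (h : C s * q a b c = C t * q a' b' c') :
    s * a = t * a' ∧ s * b = t * b' ∧ s * c = t * c' := by
  refine ⟨?_, ?_, ?_⟩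
  · have := congrArg (fun p => p.coeff 2) h
    simpa [coeff_C_mul, q2] using this
  · have := congrArg (fun p => p.coeff 1) h
    simpa [coeff_C_mul, q1] using this
  · have := congrArg (fun p => p.coeff 0) h
    simpa [coeff_C_mul, q0] using this

theorem qne {a b c : R} (h : ¬(a = 0 ∧ b = 0 ∧ c = 0)) : q a b c ≠ 0 := by
  intro h0
  apply h
  refine ⟨?_, ?_, ?_⟩
  · rw [← q2 a b c, h0]; simp
  · rw [← q1 a b c, h0]; simp
  · rw [← q0 a b c, h0]; simp

variable [IsDomain R] [CharZero R]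

theorem I0 {I : R} (hI : I ^ 2 = -1) : I ≠ 0 := by
  rintro rfl
  have : (1 : R) = 0 := by linear_combination hI
  exact one_ne_zero this

theorem cA {I : R} (hI : I ^ 2 = -1) {m n : ℤ} (hmn : m ≠ n) {c c' s t : R}
    (h : C s * q 1 ((m : R) * I) c = C t * q 1 ((n : R) * I) c') : s = 0 := by
  obtain ⟨h1, h2, -⟩ := qc h
  have h3 : s * ((((m - n : ℤ)) : R) * I) = 0 := by
    push_cast
    linear_combination h2 - (n : R) * I * h1
  rcases mul_eq_zero.1 h3 with h4 | h4
  · exact h4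
  · rcases mul_eq_zero.1 h4 with h5 | h5
    · exact absurd (sub_eq_zero.1 (Int.cast_eq_zero.1 h5)) hmn
    · exact absurd h5 (I0 hI)

theorem key {I : R} (hI : I ^ 2 = -1) {m a b : ℤ} (hm : m ≠ 0)
    (h : (a : R) * ((m : R) * I) = b) : a = 0 ∧ b = 0 := by
  have h1 : (((a * m) ^ 2 + b ^ 2 : ℤ) : R) = 0 := by
    push_cast
    rw [← h]
    linear_combination (a * m : R) ^ 2 * hI
  have h2 : (a * m) ^ 2 + b ^ 2 = 0 := Int.cast_eq_zero.1 h1
  have h3 : (a * m) ^ 2 = 0 := by nlinarith [sq_nonneg (a * m), sq_nonneg b]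
  have h4 : b ^ 2 = 0 := by nlinarith [sq_nonneg (a * m), sq_nonneg b]
  have h5 : a * m = 0 := by
    exact pow_eq_zero_iff (two_ne_zero) |>.1 h3
  exact ⟨(mul_eq_zero.1 h5).resolve_right hm, pow_eq_zero_iff (two_ne_zero) |>.1 h4⟩

theorem cB {I : R} (hI : I ^ 2 = -1) {m a b c : ℤ} (hm : m ≠ 0) {c' s t : R}
    (h : C s * q 1 ((m : R) * I) c' = C t * q (a : R) (b : R) (c : R)) : s = 0 := by
  obtain ⟨h1, h2, -⟩ := qc h
  by_contra hs
  have ht : t ≠ 0 := by
    rintro rfl
    apply hs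
    linear_combination h1
  have h3 : (a : R) * ((m : R) * I) = b := by
    apply mul_left_cancel₀ ht
    linear_combination h2 - (m : R) * I * h1
  have h4 := (key hI hm h3).1
  apply hs
  rw [h4] at h1
  push_cast at h1
  linear_combination h1

theorem cC {I : R} (hI : I ^ 2 = -1) {m a b c : ℤ} (hm : m ≠ 0)
    (habc : ¬(a = 0 ∧ b = 0 ∧ c = 0)) {c' s t : R}
    (h : C s * q (a : R) (b : R) (c : R) = C t * q 1 ((m : R) * I) c') : s = 0 := by
  obtain ⟨h1, h2, h0⟩ := qc h
  by_contra hs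
  have h3 : (a : R) * ((m : R) * I) = b := by
    apply mul_left_cancel₀ hs
    linear_combination (m : R) * I * h1 - h2
  have h4 := key hI hm h3
  have ht : t = 0 := by
    rw [h4.1] at h1
    push_cast at h1
    linear_combination (-1 : R) * h1
  rw [ht, zero_mul] at h0
  have h5 : (c : R) = 0 := (mul_eq_zero.1 h0).resolve_left hs
  exact habc ⟨h4.1, h4.2, Int.cast_eq_zero.1 h5⟩

end

end EXA

open EXA in
theorem prEXA : StEXA := by
  intro R _ _ _ I a b c hI habc
  have hC : (C I : R[X]) ^ 2 = -1 := by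
    rw [← C_pow, hI]; simp
  have e0 : (X + C I) * (X + C (2 * I)) = q 1 (((3 : ℤ) : R) * I) (-2) := by
    unfold q
    simp only [map_mul, map_ofNat, map_neg, map_one, Int.cast_ofNat]
    linear_combination 2 * hC
  have e1 : (X - C I) * (X - C (2 * I)) = q 1 (((-3 : ℤ) : R) * I) (-2) := by
    unfold q
    simp only [map_mul, map_ofNat, map_neg, map_one, Int.cast_ofNat, Int.cast_neg]
    linear_combination 2 * hC
  have e2 : (X + C I) * (X - C (2 * I)) = q 1 (((-1 : ℤ) : R) * I) 2 := by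
    unfold q
    simp only [map_mul, map_ofNat, map_neg, map_one, Int.cast_ofNat, Int.cast_neg, Int.cast_one]
    linear_combination (-2) * hC
  have e3 : (X - C I) * (X + C (2 * I)) = q 1 (((1 : ℤ) : R) * I) 2 := by
    unfold q
    simp only [map_mul, map_ofNat, map_neg, map_one, Int.cast_ofNat, Int.cast_neg, Int.cast_one]
    linear_combination (-2) * hC
  have e4 : C (a : R) * X ^ 2 + C (b : R) * X + C (c : R) = q (a : R) (b : R) (c : R) := rfl
  rw [e0, e1, e2, e3, e4]
  refine ⟨?_, ⟨0, ?_⟩, ?_, ?_, ⟨8, ?_, ![-1, -1, 1, 1, 0], ?_⟩⟩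
  · intro j
    fin_cases j
    all_goals exact qdeg _ _ _
  · show (q 1 (((3 : ℤ) : R) * I) (-2)).coeff 2 ≠ 0
    rw [q2]
    exact one_ne_zero
  · intro j
    fin_cases j
    · exact qne fun h => one_ne_zero h.1
    · exact qne fun h => one_ne_zero h.1
    · exact qne fun h => one_ne_zero h.1
    · exact qne fun h => one_ne_zero h.1
    · refine qne fun h => habc ⟨?_, ?_, ?_⟩
      · exact Int.cast_eq_zero.1 h.1
      · exact Int.cast_eq_zero.1 h.2.1
      · exact Int.cast_eq_zero.1 h.2.2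
  · intro i j hij s t h
    have hm : ∀ i : Fin 5, i ≠ 4 → (![q 1 (((3 : ℤ) : R) * I) (-2), q 1 (((-3 : ℤ) : R) * I) (-2),
        q 1 (((-1 : ℤ) : R) * I) 2, q 1 (((1 : ℤ) : R) * I) 2,
        q (a : R) (b : R) (c : R)] : Fin 5 → R[X]) i =
        q 1 (((mm i : ℤ) : R) * I) ((![-2, -2, 2, 2, 0] : Fin 5 → R) i) := by
      intro i hi
      fin_cases i
      · rfl
      · rfl
      · rfl
      · rfl
      · exact absurd rfl hi
    by_cases hi : i = 4
    · have hj : j ≠ 4 := fun hj => hij (hi.trans hj.symm)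
      rw [hi, hm j hj] at h
      exact cC hI (mm0 j hj) habc h
    · by_cases hj : j = 4
      · rw [hj, hm i hi] at h
        exact cB hI (mm0 i hi) h
      · rw [hm i hi, hm j hj] at h
        exact cA hI (mmi i j hi hj hij) h
  · norm_num
  · refine (Fin.sum_univ_five _).trans ?_
    show (-1) * q 1 (((3 : ℤ) : R) * I) (-2) + (-1) * q 1 (((-3 : ℤ) : R) * I) (-2) +
      1 * q 1 (((-1 : ℤ) : R) * I) 2 + 1 * q 1 (((1 : ℤ) : R) * I) 2 +
      0 * q (a : R) (b : R) (c : R) = C 8
    unfold q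
    simp only [map_mul, map_ofNat, map_neg, map_one, Int.cast_ofNat, Int.cast_neg, Int.cast_one]
    ring

end Pool.Agent.Work.MP_8d13b5_lc.Fm
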