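import Pool.Agent.Work.MP_8d13b5_lc.Fm.Stmts

set_option autoImplicit false

/-! Block Fm, item EXC: the exchange. -/

namespace Pool.Agent.Work.MP_8d13b5_lc.Fm

open Polynomial NumberField Finset Module

namespace EXC

/-- The exchange over a field. -/
theorem fld (K : Type) [Field K] (m : ℕ) (E a : Fin (m + 1) → K)
    (V : Fin m → Fin (m + 1) → K) (hE : E ≠ 0) (ha : a ≠ 0) (hV : LinearIndependent K V)
    (hVE : ∀ i, ∑ j, V i j * E j = 0) (haE : ∑ j, a j * E j = 0) :
    ∃ i₀, LinearIndependent K (Function.update V i₀ a) := by
  classical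
  let W : Submodule K (Fin (m + 1) → K) :=
    { carrier := {v | ∑ j, v j * E j = 0}
      zero_mem' := by simp
      add_mem' := by
        intro v w hv hw
        simp only [Set.mem_setOf_eq, Pi.add_apply, add_mul, sum_add_distrib] at hv hw ⊢
        rw [hv, hw, add_zero]
      smul_mem' := by
        intro c v hv
        simp only [Set.mem_setOf_eq, Pi.smul_apply, smul_eq_mul, mul_assoc, ← mul_sum] at hv ⊢
        rw [hv, mul_zero] }
  have hW : W ≠ ⊤ := by
    intro h
    apply hE
    funext j
    have h1 : (Pi.single j (1 : K) : Fin (m + 1) → K) ∈ W := by rw [h]; trivial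
    have h2 : ∑ i, (Pi.single j (1 : K) : Fin (m + 1) → K) i * E i = 0 := h1
    rw [Finset.sum_eq_single j] at h2
    · simpa using h2
    · intro i _ hi
      rw [Pi.single_eq_of_ne hi, zero_mul]
    · intro h3
      exact absurd (mem_univ j) h3
  have hWm : finrank K W ≤ m := by
    have h1 := Submodule.finrank_lt hW
    rw [Module.finrank_fin_fun] at h1
    omega
  have hle : Submodule.span K (Set.range V) ≤ W := by
    rw [Submodule.span_le]
    rintro _ ⟨i, rfl⟩
    exact hVE i
  have hs : finrank K (Submodule.span K (Set.range V)) = m := by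
    rw [finrank_span_eq_card hV, Fintype.card_fin]
  have heq : Submodule.span K (Set.range V) = W :=
    Submodule.eq_of_le_of_finrank_le hle (by rw [hs]; exact hWm)
  have haW : a ∈ Submodule.span K (Set.range V) := by
    rw [heq]
    exact haE
  obtain ⟨c, hc⟩ := (Submodule.mem_span_range_iff_exists_fun K).mp haW
  obtain ⟨i₀, hi⟩ : ∃ i, c i ≠ 0 := by
    by_contra h
    push Not at h
    apply ha
    rw [← hc]
    exact sum_eq_zero fun i _ => by rw [h i, zero_smul]
  refine ⟨i₀, ?_⟩
  rw [linearIndependent_iff_card_le_finrank_span, Fintype.card_fin]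
  have hmem : ∀ i, V i ∈ Submodule.span K (Set.range (Function.update V i₀ a)) := by
    have hoth : ∀ i, i ≠ i₀ → V i ∈ Submodule.span K (Set.range (Function.update V i₀ a)) := by
      intro i hne
      refine Submodule.subset_span ⟨i, ?_⟩
      rw [Function.update_of_ne hne]
    intro i
    by_cases hne : i = i₀
    · subst hne
      have haS : a ∈ Submodule.span K (Set.range (Function.update V i a)) :=
        Submodule.subset_span ⟨i, by rw [Function.update_self]⟩
      have h1 : c i • V i = a - ∑ l ∈ univ.erase i, c l • V l := by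
        rw [← hc, ← Finset.add_sum_erase univ (fun l => c l • V l) (mem_univ i)]
        simp
      have h2 : c i • V i ∈ Submodule.span K (Set.range (Function.update V i a)) := by
        rw [h1]
        refine Submodule.sub_mem _ haS (Submodule.sum_mem _ fun l hl => ?_)
        exact Submodule.smul_mem _ _ (hoth l (ne_of_mem_erase hl))
      exact (Submodule.smul_mem_iff _ hi).mp h2
    · exact hoth i hne
  have h3 : Submodule.span K (Set.range V) ≤
      Submodule.span K (Set.range (Function.update V i₀ a)) := by
    rw [Submodule.span_le]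
    rintro _ ⟨i, rfl⟩
    exact hmem i
  calc m = finrank K (Submodule.span K (Set.range V)) := hs.symm
    _ ≤ finrank K (Submodule.span K (Set.range (Function.update V i₀ a))) :=
        Submodule.finrank_mono h3

/-- The componentwise inclusion into the fraction field. -/
noncomputable def inc (R : Type) [CommRing R] [IsDomain R] (k : ℕ) :
    (Fin k → R) →ₗ[R] (Fin k → FractionRing R) where
  toFun v := fun j => algebraMap R (FractionRing R) (v j)
  map_add' v w := by
    funext j
    simp
  map_smul' c v := by
    funext j
    simp [Algebra.smul_def]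

theorem inc_inj (R : Type) [CommRing R] [IsDomain R] (k : ℕ) : LinearMap.ker (inc R k) = ⊥ := by
  rw [LinearMap.ker_eq_bot]
  intro v w h
  funext j
  exact IsFractionRing.injective R (FractionRing R) (congrFun h j)

theorem li_iff (R : Type) [CommRing R] [IsDomain R] (m k : ℕ) (V : Fin m → Fin k → R) :
    LinearIndependent R V ↔ LinearIndependent (FractionRing R) (fun i => inc R k (V i)) := by
  rw [← LinearIndependent.iff_fractionRing R (FractionRing R)]
  exact (LinearMap.linearIndependent_iff (inc R k) (inc_inj R k)).symm

end EXC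

theorem prEXC : StEXC := by
  classical
  intro R _ _ m E a V hE ha hV hVE haE
  have hinj := IsFractionRing.injective R (FractionRing R)
  have hne : ∀ v : Fin (m + 1) → R, v ≠ 0 → EXC.inc R (m + 1) v ≠ 0 := by
    intro v hv h
    apply hv
    have h1 := LinearMap.ker_eq_bot.mp (EXC.inc_inj R (m + 1))
    exact h1 (by rw [h, map_zero])
  have hsum : ∀ v : Fin (m + 1) → R, ∑ j, v j * E j = 0 →
      ∑ j, EXC.inc R (m + 1) v j * EXC.inc R (m + 1) E j = 0 := by
    intro v hv
    have h1 := congrArg (algebraMap R (FractionRing R)) hv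
    rw [map_sum, map_zero] at h1
    rw [← h1]
    refine sum_congr rfl fun j _ => ?_
    rw [map_mul]
    rfl
  obtain ⟨i₀, hi⟩ := EXC.fld (FractionRing R) m (EXC.inc R (m + 1) E) (EXC.inc R (m + 1) a)
    (fun i => EXC.inc R (m + 1) (V i)) (hne E hE) (hne a ha) ((EXC.li_iff R m (m + 1) V).mp hV)
    (fun i => hsum (V i) (hVE i)) (hsum a haE)
  refine ⟨i₀, (EXC.li_iff R m (m + 1) _).mpr ?_⟩
  have h1 : (fun i => EXC.inc R (m + 1) (Function.update V i₀ a i)) =
      Function.update (fun i => EXC.inc R (m + 1) (V i)) i₀ (EXC.inc R (m + 1) a) := by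
    funext i
    by_cases h : i = i₀
    · subst h
      rw [Function.update_self, Function.update_self]
    · rw [Function.update_of_ne h, Function.update_of_ne h]
  rw [h1]
  exact hi

end Pool.Agent.Work.MP_8d13b5_lc.Fm
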