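import Pool.Agent.Work.MP_8d13b5_lc.Fm.Stmts

/-! Item GAP of the block Fm. -/

set_option autoImplicit false

namespace Pool.Agent.Work.MP_8d13b5_lc.Fm

open Polynomial NumberField Finset Module

namespace GAP

variable {F : Type} [Field F]

lemma finite_Syz {k : ℕ} (E : Fin k → F[X]) (L : ℕ) : FiniteDimensional F (Syz E L) := by
  have h1 : FiniteDimensional F (degreeLT F (L + 1)) :=
    (degreeLTEquiv F (L + 1)).symm.finiteDimensional
  let g : Syz E L →ₗ[F] (Fin k → degreeLT F (L + 1)) :=
    { toFun := fun P j => ⟨P.1 j, by
        rw [mem_degreeLT, degree_lt_iff_coeff_zero]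
        intro n hn
        exact coeff_eq_zero_of_natDegree_lt (lt_of_le_of_lt (P.2.1 j) (by omega))⟩
      map_add' := fun _ _ => rfl
      map_smul' := fun _ _ => rfl }
  refine FiniteDimensional.of_injective g ?_
  intro P Q h
  apply Subtype.ext
  funext j
  exact congrArg Subtype.val (congrFun h j)

/-- `DepM Q` has rank at most `r`. -/
lemma card_le_of_depM {k r s : ℕ} (Q : Fin r → Fin k → F[X]) (P : Fin s → Fin k → F[X])
    (hP : LinearIndependent F[X] P) (h : ∀ i, P i ∈ DepM Q) : s ≤ r := by
  choose c hc hcP using h
  have h1 : LinearIndependent F[X] (fun i => c i • P i) := by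
    rw [Fintype.linearIndependent_iff] at hP ⊢
    intro g hg i
    have h2 := hP (fun i => g i * c i) (by simpa [mul_smul] using hg) i
    exact (mul_eq_zero.1 h2).resolve_right (hc i)
  have h2 : LinearIndependent F[X]
      (fun i => (⟨c i • P i, hcP i⟩ : Submodule.span F[X] (Set.range Q))) :=
    LinearIndependent.of_comp (Submodule.span F[X] (Set.range Q)).subtype h1
  have h3 := h2.fintype_card_le_finrank
  have h4 : finrank F[X] (Submodule.span F[X] (Set.range Q)) ≤ r := by
    have := finrank_range_le_card (R := F[X]) Q
    simpa [Set.finrank] using this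
  simpa using h3.trans h4

lemma smul_notMem {k r : ℕ} {Q : Fin r → Fin k → F[X]} {P : Fin k → F[X]} (hP : P ∉ DepM Q)
    {g : F[X]} (hg : g ≠ 0) : g • P ∉ DepM Q := by
  rintro ⟨c, hc, h⟩
  exact hP ⟨c * g, mul_ne_zero hc hg, by rwa [mul_smul]⟩

end GAP

open GAP in
theorem prGAP (hMIN : StMIN) : StGAP := by
  intro F _ m N E hE0 hE
  obtain ⟨ℓ, -, h2, h3⟩ := hMIN F m N E hE0 hE
  refine ⟨ℓ, h2, fun i => ?_, fun i r Q hr h => ?_⟩
  · obtain ⟨P, hP, hP2, hP3⟩ := h3 i
    exact ⟨P 0, ⟨hP2 0, hP3 0⟩, hP.ne_zero 0⟩
  · obtain ⟨P, hP, hP2, hP3⟩ := h3 i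
    obtain ⟨s, hs⟩ : ∃ s, P s ∉ DepM Q := by
      by_contra hc
      push Not at hc
      have := card_le_of_depM Q P hP hc
      omega
    have : FiniteDimensional F (Syz E (ℓ i + h)) := finite_Syz E _
    -- the multiples of `P s`
    let T : degreeLT F (h + 1) →ₗ[F] Syz E (ℓ i + h) :=
      { toFun := fun g => ⟨fun j => (g : F[X]) * P s j, by
          refine ⟨fun j => ?_, ?_⟩
          · have h5 : (g : F[X]).natDegree ≤ h := by
              have h6 := g.2
              rw [mem_degreeLT, degree_lt_iff_coeff_zero] at h6
              rw [natDegree_le_iff_coeff_eq_zero]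
              exact fun n hn => h6 n hn
            refine natDegree_mul_le.trans ?_
            have := hP2 s j
            omega
          · have h5 := hP3 s
            simp only [mul_assoc, ← mul_sum, h5, mul_zero]⟩
        map_add' := fun g g' => by
          apply Subtype.ext
          funext j
          simp [add_mul]
        map_smul' := fun c g => by
          apply Subtype.ext
          funext j
          simp }
    have hTinj : Function.Injective T := by
      intro g g' hgg
      apply Subtype.ext
      obtain ⟨j, hj⟩ : ∃ j, P s j ≠ 0 := by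
        by_contra hc
        push Not at hc
        exact hP.ne_zero s (funext hc)
      have h5 : (g : F[X]) * P s j = g' * P s j := congrFun (congrArg Subtype.val hgg) j
      exact mul_right_cancel₀ hj h5
    have h5 : Disjoint ((DepM Q).comap (Syz E (ℓ i + h)).subtype) (LinearMap.range T) := by
      rw [Submodule.disjoint_def]
      rintro _ hx ⟨g, rfl⟩
      by_contra hne
      have hg : (g : F[X]) ≠ 0 := by
        intro h0
        apply hne
        have : g = 0 := Subtype.ext h0
        rw [this, map_zero]
      exact smul_notMem hs hg hx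
    have h6 := Submodule.finrank_add_finrank_le_of_disjoint h5
    have h7 : finrank F (LinearMap.range T) = h + 1 := by
      rw [LinearMap.finrank_range_of_inj hTinj, (degreeLTEquiv F (h + 1)).finrank_eq]
      simp
    have h8 : finrank F ((DepM Q).comap (Syz E (ℓ i + h)).subtype) =
        finrank F ↥(DepM Q ⊓ Syz E (ℓ i + h)) := by
      rw [← Submodule.finrank_map_subtype_eq, Submodule.map_comap_subtype, inf_comm]
    rw [h7, h8] at h6
    omega

end Pool.Agent.Work.MP_8d13b5_lc.Fm
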