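import Pool.Agent.Work.MP_8d13b5_lc.Fm.Stmts

set_option autoImplicit false

/-! Item GRE of the block `Fm`: the greedy construction of independent relations. -/

namespace Pool.Agent.Work.MP_8d13b5_lc.Fm

open Polynomial NumberField Finset Module

namespace GRE

theorem map_inj {K : Type} [Field K] [NumberField K] {P Q : (𝓞 K)[X]}
    (h : P.map (algebraMap (𝓞 K) K) = Q.map (algebraMap (𝓞 K) K)) : P = Q :=
  Polynomial.map_injective _ (FaithfulSMul.algebraMap_injective (𝓞 K) K) h

theorem map_ne {K : Type} [Field K] [NumberField K] {P : (𝓞 K)[X]} (h : P ≠ 0) :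
    P.map (algebraMap (𝓞 K) K) ≠ 0 := fun h' => h (map_inj (by rw [h', Polynomial.map_zero]))

theorem np_field {K : Type} [Field K] [NumberField K] {m : ℕ} (lam : Fin (m + 1) → (𝓞 K)[X])
    (np : ∀ i j, i ≠ j → ∀ a b : 𝓞 K, C a * lam i = C b * lam j → a = 0) (i j : Fin (m + 1))
    (hij : i ≠ j) (a b : K)
    (h : C a * (lam i).map (algebraMap (𝓞 K) K) = C b * (lam j).map (algebraMap (𝓞 K) K)) :
    a = 0 := by
  obtain ⟨a1, a2, ha2, rfl⟩ := IsFractionRing.div_surjective (A := 𝓞 K) a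
  obtain ⟨b1, b2, hb2, rfl⟩ := IsFractionRing.div_surjective (A := 𝓞 K) b
  have ha2' : a2 ≠ 0 := nonZeroDivisors.ne_zero ha2
  have hb2' : b2 ≠ 0 := nonZeroDivisors.ne_zero hb2
  have hinj := FaithfulSMul.algebraMap_injective (𝓞 K) K
  have ha3 : algebraMap (𝓞 K) K a2 ≠ 0 := by
    rw [Ne, map_eq_zero_iff _ hinj]; exact ha2'
  have hb3 : algebraMap (𝓞 K) K b2 ≠ 0 := by
    rw [Ne, map_eq_zero_iff _ hinj]; exact hb2'
  have h1 : C (a1 * b2) * lam i = C (b1 * a2) * lam j := by
    apply map_inj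
    rw [Polynomial.map_mul, Polynomial.map_mul, Polynomial.map_C, Polynomial.map_C,
      RingHom.map_mul (algebraMap (𝓞 K) K) a1 b2, RingHom.map_mul (algebraMap (𝓞 K) K) b1 a2]
    have e1 : C (algebraMap (𝓞 K) K a1 * algebraMap (𝓞 K) K b2) =
        C (algebraMap (𝓞 K) K a2 * algebraMap (𝓞 K) K b2) *
          C (algebraMap (𝓞 K) K a1 / algebraMap (𝓞 K) K a2) := by
      rw [← C_mul]
      congr 1
      field_simp
    have e2 : C (algebraMap (𝓞 K) K b1 * algebraMap (𝓞 K) K a2) =
        C (algebraMap (𝓞 K) K a2 * algebraMap (𝓞 K) K b2) *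
          C (algebraMap (𝓞 K) K b1 / algebraMap (𝓞 K) K b2) := by
      rw [← C_mul]
      congr 1
      field_simp
    rw [e1, e2, mul_assoc, mul_assoc, h]
  have h2 := np i j hij _ _ h1
  rcases mul_eq_zero.1 h2 with h3 | h3
  · rw [h3, map_zero, zero_div]
  · exact absurd h3 hb2'

theorem indep_snoc {R M : Type} [CommRing R] [AddCommGroup M] [Module R M] {k : ℕ}
    (v : Fin k → M) (x : M) (hv : LinearIndependent R v)
    (hx : ∀ c : R, c ≠ 0 → c • x ∉ Submodule.span R (Set.range v)) :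
    LinearIndependent R (Fin.snoc v x : Fin (k + 1) → M) := by
  rw [Fintype.linearIndependent_iff]
  intro g hg
  rw [Fin.sum_univ_castSucc] at hg
  simp only [Fin.snoc_castSucc, Fin.snoc_last] at hg
  have hlast : g (Fin.last k) = 0 := by
    by_contra hne
    apply hx _ hne
    have h1 : g (Fin.last k) • x = -∑ i : Fin k, g (Fin.castSucc i) • v i := by
      rw [eq_neg_iff_add_eq_zero, add_comm]
      exact hg
    rw [h1]
    refine Submodule.neg_mem _ (Submodule.sum_mem _ fun i _ => Submodule.smul_mem _ _ ?_)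
    exact Submodule.subset_span ⟨i, rfl⟩
  rw [hlast, zero_smul, add_zero] at hg
  have h2 := Fintype.linearIndependent_iff.1 hv (fun i => g (Fin.castSucc i)) hg
  intro i
  refine Fin.lastCases hlast (fun i => h2 i) i

end GRE

open GRE in
theorem prGRE (hGAP : StGAP) (hWRO : StWRO) (hGR1 : StGR1) : StGRE := by
  intro K _ _ m e lam hm hF N₁ hN₁
  obtain ⟨C₁, hC₁, G1⟩ := hGR1 K m e lam hF.deg N₁ hN₁
  refine ⟨C₁, hC₁, fun n hn => ?_⟩
  set ψ := algebraMap (𝓞 K) K with hψ
  set E : Fin (m + 1) → K[X] := fun j => (lam j).map ψ ^ n with hE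
  have hlam0 : ∀ j, (lam j).map ψ ≠ 0 := fun j => map_ne (hF.ne j)
  have hE0 : E ≠ 0 := by
    intro h
    have := congr_fun h 0
    exact pow_ne_zero n (hlam0 0) this
  have hldeg : ∀ j, ((lam j).map ψ).natDegree ≤ e := fun j =>
    (natDegree_map_le).trans (hF.deg j)
  have hEdeg : ∀ j, (E j).natDegree ≤ e * n := by
    intro j
    refine natDegree_pow_le.trans ?_
    rw [mul_comm e n]
    exact Nat.mul_le_mul_left n (hldeg j)
  obtain ⟨ℓ, hsum, hP, hgap⟩ := hGAP K m (e * n) E hE0 hEdeg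
  have hℓ : ∀ i, ℓ i ≤ e * n := fun i =>
    (Finset.single_le_sum (f := ℓ) (fun _ _ => Nat.zero_le _) (mem_univ i)).trans hsum
  have hlow : ∀ i, n ≤ m * ℓ i + m ^ 2 * e := by
    intro i
    obtain ⟨P, ⟨hP1, hP2⟩, hP0⟩ := hP i
    exact hWRO K m e n (ℓ i) (fun j => (lam j).map ψ) P hlam0 hldeg
      (fun i j hij a b h => np_field lam hF.np i j hij a b h) hP1 hP0 hP2
  have key : ∀ (k : ℕ) (hk : k ≤ m), ∃ Q : Fin k → Fin (m + 1) → (𝓞 K)[X],
      LinearIndependent K[X] (fun s j => (Q s j).map ψ : Fin k → Fin (m + 1) → K[X]) ∧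
      (∀ s, ∑ j, Q s j * lam j ^ n = 0) ∧
      (∀ s j, (Q s j).natDegree ≤ ℓ (Fin.castLE hk s) + n / N₁) ∧
      ∀ (φ : K →+* ℂ) s j, pn (res φ) (Q s j) ≤ C₁ ^ n := by
    intro k
    induction k with
    | zero =>
      intro _
      exact ⟨fun s => Fin.elim0 s, linearIndependent_empty_type, fun s => Fin.elim0 s,
        fun s => Fin.elim0 s, fun _ s => Fin.elim0 s⟩
    | succ k ih =>
      intro hk
      obtain ⟨Q, hQ1, hQ2, hQ3, hQ4⟩ := ih (by omega)
      obtain ⟨P, hP1, hP2, hP3, hP4⟩ := G1 n hn (ℓ ⟨k, hk⟩) k (fun s j => (Q s j).map ψ)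
        (hℓ _) (hgap ⟨k, hk⟩ k (fun s j => (Q s j).map ψ) le_rfl (n / N₁))
      refine ⟨(Fin.snoc Q P : Fin (k + 1) → Fin (m + 1) → (𝓞 K)[X]), ?_, ?_, ?_, ?_⟩
      · have h1 : (fun s j => ((Fin.snoc Q P : Fin (k + 1) → Fin (m + 1) → (𝓞 K)[X]) s j).map ψ :
            Fin (k + 1) → Fin (m + 1) → K[X]) =
            (Fin.snoc (fun s j => (Q s j).map ψ : Fin k → Fin (m + 1) → K[X])
              (fun j => (P j).map ψ) : Fin (k + 1) → Fin (m + 1) → K[X]) := by
          funext s
          refine Fin.lastCases ?_ (fun s => ?_) s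
          · simp only [Fin.snoc_last]
          · simp only [Fin.snoc_castSucc]
        rw [h1]
        apply indep_snoc _ _ hQ1
        intro c hc hmem
        exact hP4 ⟨c, hc, hmem⟩
      · intro s
        refine Fin.lastCases ?_ (fun s => ?_) s
        · simp only [Fin.snoc_last]
          exact hP1
        · simp only [Fin.snoc_castSucc]
          exact hQ2 s
      · intro s
        refine Fin.lastCases ?_ (fun s => ?_) s
        · intro j
          simp only [Fin.snoc_last]
          exact hP2 j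
        · intro j
          simp only [Fin.snoc_castSucc]
          exact hQ3 s j
      · intro φ s
        refine Fin.lastCases ?_ (fun s => ?_) s
        · intro j
          simp only [Fin.snoc_last]
          exact hP3 φ j
        · intro j
          simp only [Fin.snoc_castSucc]
          exact hQ4 φ s j
  obtain ⟨Q, hQ1, hQ2, hQ3, hQ4⟩ := key m le_rfl
  refine ⟨ℓ, Q, hsum, hlow, ?_, hQ2, fun i j => hQ3 i j, hQ4⟩
  rw [Fintype.linearIndependent_iff] at hQ1 ⊢
  intro g hg i
  have h1 := hQ1 (fun s => (g s).map ψ) (by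
    funext j
    have h2 := congr_fun hg j
    rw [Finset.sum_apply] at h2 ⊢
    simp only [Pi.smul_apply, smul_eq_mul, Pi.zero_apply] at h2 ⊢
    have h3 := congr_arg (Polynomial.map ψ) h2
    rw [Polynomial.map_sum, Polynomial.map_zero] at h3
    simpa only [Polynomial.map_mul] using h3) i
  exact map_inj (by rw [h1, Polynomial.map_zero])

end Pool.Agent.Work.MP_8d13b5_lc.Fm
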