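import Pool.Agent.Work.MP_8d13b5_lc.Fm.Stmts

set_option autoImplicit false

/-! Block `Fm`, item HDM: Hasse derivatives of a determinant. -/

namespace Pool.Agent.Work.MP_8d13b5_lc.Fm

open Polynomial NumberField Finset Module

namespace HDM

theorem coeff_prod {F : Type} [CommRing F] {m : ℕ} (f : Fin m → F[X]) (R : ℕ) :
    (∏ i, f i).coeff R = ∑ l ∈ finsuppAntidiag (univ : Finset (Fin m)) R,
      ∏ i, (f i).coeff (l i) := by
  classical
  have h1 : (∏ i, f i).coeff R = PowerSeries.coeff R (∏ i, ((f i : F[X]) : PowerSeries F)) := by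
    have h2 : (∏ i, ((f i : F[X]) : PowerSeries F)) = ((∏ i, f i : F[X]) : PowerSeries F) :=
      (map_prod (Polynomial.coeToPowerSeries.ringHom (R := F)) f univ).symm
    rw [h2, Polynomial.coeff_coe]
  rw [h1, PowerSeries.coeff_prod]
  exact Finset.sum_congr rfl fun l _ => Finset.prod_congr rfl fun i _ => Polynomial.coeff_coe _ _

theorem coeff_det {F : Type} [CommRing F] {m : ℕ} (N : Fin m → Fin m → F[X]) (R : ℕ) :
    (Matrix.of N).det.coeff R = ∑ l ∈ finsuppAntidiag (univ : Finset (Fin m)) R,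
      (Matrix.of fun i j => (N i j).coeff (l i)).det := by
  classical
  have h1 : ∀ l : Fin m →₀ ℕ, (Matrix.of fun i j => (N i j).coeff (l i)).det =
      ∑ σ : Equiv.Perm (Fin m), Equiv.Perm.sign σ • ∏ i, (N i (σ i)).coeff (l i) := by
    intro l
    rw [← Matrix.det_transpose, Matrix.det_apply]
    rfl
  have h2 : (Matrix.of N).det =
      ∑ σ : Equiv.Perm (Fin m), Equiv.Perm.sign σ • ∏ i, N i (σ i) := by
    rw [← Matrix.det_transpose, Matrix.det_apply]
    rfl
  rw [h2, Polynomial.finsetSum_coeff, Finset.sum_congr rfl fun l _ => h1 l, Finset.sum_comm]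
  refine Finset.sum_congr rfl fun σ _ => ?_
  rw [← Finset.smul_sum, ← coeff_prod (fun i => N i (σ i)) R, Units.smul_def, Units.smul_def]
  exact map_zsmul (Polynomial.lcoeff F R) _ _

end HDM

theorem prHDM : StHDM := by
  intro F _ m R M t₀ h
  have h1 : (taylor t₀ (Matrix.of M).det).coeff R ≠ 0 := by
    rw [taylor_coeff]
    exact h
  have h2 : taylor t₀ (Matrix.of M).det = (Matrix.of fun i j => taylor t₀ (M i j)).det :=
    (taylorAlgHom t₀).map_det (Matrix.of M)
  rw [h2, HDM.coeff_det] at h1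
  obtain ⟨l, hl, hl0⟩ := Finset.exists_ne_zero_of_sum_ne_zero h1
  rw [mem_finsuppAntidiag] at hl
  refine ⟨l, hl.1, ?_⟩
  have h3 : (Matrix.of fun i j => (hasseDeriv (l i) (M i j)).eval t₀) =
      Matrix.of fun i j => (taylor t₀ (M i j)).coeff (l i) := by
    ext i j
    simp only [Matrix.of_apply]
    rw [taylor_coeff]
  rw [h3]
  exact hl0

end Pool.Agent.Work.MP_8d13b5_lc.Fm
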