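import Pool.Agent.Work.MP_8d13b5_lc.Fm.Stmts

set_option autoImplicit false

/-! Block `Fm`, item HDP: divided derivatives of `P * lam ^ n`. -/

namespace Pool.Agent.Work.MP_8d13b5_lc.Fm

open Polynomial NumberField Finset Module

namespace HDP

variable {R : Type} [CommRing R]

/-- the recursion -/
theorem step (lam P : R[X]) (n r : ℕ) (S : ℕ → R[X])
    (hS : ∀ r, hasseDeriv r (P * lam ^ n) * lam ^ r = lam ^ n * S r) :
    hasseDeriv r (P * lam ^ (n + 1)) * lam ^ r = lam ^ (n + 1) *
      (S r + ∑ k ∈ range r, lam ^ k * hasseDeriv (k + 1) lam * S (r - (k + 1))) := by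
  have h1 : P * lam ^ (n + 1) = lam * (P * lam ^ n) := by ring
  rw [h1, hasseDeriv_mul,
    Finset.Nat.sum_antidiagonal_eq_sum_range_succ
      (fun i j => hasseDeriv i lam * hasseDeriv j (P * lam ^ n)),
    Nat.succ_eq_add_one, Finset.sum_range_succ', add_mul, mul_add, Finset.sum_mul,
    Finset.mul_sum, add_comm]
  congr 1
  · rw [hasseDeriv_zero', Nat.sub_zero, mul_assoc, hS r]
    ring
  · apply Finset.sum_congr rfl
    intro k hk
    rw [Finset.mem_range] at hk
    have h2 : lam ^ r = lam ^ (r - (k + 1)) * lam ^ (k + 1) := by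
      rw [← pow_add]
      congr 1
      omega
    calc hasseDeriv (k + 1) lam * hasseDeriv (r - (k + 1)) (P * lam ^ n) * lam ^ r
        = hasseDeriv (k + 1) lam * lam ^ (k + 1) *
            (hasseDeriv (r - (k + 1)) (P * lam ^ n) * lam ^ (r - (k + 1))) := by
          rw [h2]
          ring
      _ = hasseDeriv (k + 1) lam * lam ^ (k + 1) * (lam ^ n * S (r - (k + 1))) := by rw [hS]
      _ = _ := by ring

end HDP

theorem prHDP (hPN : StPN) : StHDP := by
  intro R _ lam P e p n r hlam hP
  induction n generalizing r with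
  | zero =>
    refine ⟨hasseDeriv r P * lam ^ r, by rw [pow_zero, mul_one, one_mul], ?_, ?_⟩
    · refine natDegree_mul_le.trans ?_
      have h1 := natDegree_hasseDeriv_le P r
      have h2 : (lam ^ r).natDegree ≤ r * lam.natDegree := natDegree_pow_le
      have h3 : r * lam.natDegree ≤ e * r := by
        rw [mul_comm e r]
        exact Nat.mul_le_mul_left _ hlam
      omega
    · intro φ Λ hΛ hl
      obtain ⟨a1, a2, a3, a4, a5, a6, a7, a8, a9⟩ := hPN R φ
      rw [pow_zero, mul_one]
      calc pn φ (hasseDeriv r P * lam ^ r) ≤ pn φ (hasseDeriv r P) * pn φ (lam ^ r) := a4 _ _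
        _ ≤ (2 ^ p * pn φ P) * Λ ^ r := by
            apply mul_le_mul (a9 P p r hP) _ (a1 _) (mul_nonneg (by positivity) (a1 _))
            exact (a5 lam r).trans (pow_le_pow_left₀ (a1 _) hl r)
  | succ n ih =>
    choose S h1 h2 h3 using ih
    refine ⟨_, HDP.step lam P n r S h1, ?_, ?_⟩
    · refine (natDegree_add_le _ _).trans (max_le (h2 r) ?_)
      apply natDegree_sum_le_of_forall_le
      intro k hk
      rw [Finset.mem_range] at hk
      by_cases hke : e < k + 1
      · rw [hasseDeriv_eq_zero_of_lt_natDegree lam (k + 1) (lt_of_le_of_lt hlam hke), mul_zero,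
          zero_mul, natDegree_zero]
        exact Nat.zero_le _
      · refine natDegree_mul_le.trans ?_
        have b1 : (lam ^ k * hasseDeriv (k + 1) lam).natDegree ≤
            k * e + (e - (k + 1)) := by
          refine natDegree_mul_le.trans (add_le_add ?_ ?_)
          · exact natDegree_pow_le.trans (Nat.mul_le_mul_left _ hlam)
          · exact (natDegree_hasseDeriv_le lam (k + 1)).trans (Nat.sub_le_sub_right hlam _)
        have b2 := h2 (r - (k + 1))
        have b3 : e * (r - (k + 1)) + (k * e + e) = e * r := by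
          obtain ⟨j, rfl⟩ : ∃ j, r = j + (k + 1) := ⟨r - (k + 1), by omega⟩
          rw [Nat.add_sub_cancel]
          ring
        omega
    · intro φ Λ hΛ hl
      obtain ⟨a1, a2, a3, a4, a5, a6, a7, a8, a9⟩ := hPN R φ
      set B : ℝ := 2 ^ p * pn φ P * (1 + e * 2 ^ e) ^ n with hB
      have hB0 : 0 ≤ B := by
        rw [hB]
        have := a1 P
        positivity
      have hΛ0 : 0 ≤ Λ := by linarith
      have hS : ∀ r, pn φ (S r) ≤ B * Λ ^ r := fun r => h3 r φ Λ hΛ hl
      have hterm : ∀ k ∈ range r, pn φ (lam ^ k * hasseDeriv (k + 1) lam * S (r - (k + 1))) ≤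
          if k < e then 2 ^ e * (B * Λ ^ r) else 0 := by
        intro k hk
        rw [Finset.mem_range] at hk
        by_cases hke : k < e
        · rw [if_pos hke]
          calc pn φ (lam ^ k * hasseDeriv (k + 1) lam * S (r - (k + 1)))
              ≤ pn φ (lam ^ k * hasseDeriv (k + 1) lam) * pn φ (S (r - (k + 1))) := a4 _ _
            _ ≤ (pn φ (lam ^ k) * pn φ (hasseDeriv (k + 1) lam)) * pn φ (S (r - (k + 1))) :=
                mul_le_mul_of_nonneg_right (a4 _ _) (a1 _)
            _ ≤ (Λ ^ k * (2 ^ e * Λ)) * (B * Λ ^ (r - (k + 1))) := by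
                apply mul_le_mul _ (hS _) (a1 _) (by positivity)
                apply mul_le_mul _ _ (a1 _) (by positivity)
                · exact (a5 lam k).trans (pow_le_pow_left₀ (a1 _) hl k)
                · exact (a9 lam e (k + 1) hlam).trans
                    (mul_le_mul_of_nonneg_left hl (by positivity))
            _ = 2 ^ e * (B * (Λ ^ (r - (k + 1)) * Λ ^ (k + 1))) := by ring
            _ = 2 ^ e * (B * Λ ^ r) := by
                rw [← pow_add]
                congr 3
                omega
        · rw [if_neg hke, hasseDeriv_eq_zero_of_lt_natDegree lam (k + 1) (by omega), mul_zero,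
            zero_mul]
          have : pn φ (C (0 : R)) = ‖φ 0‖ := a2 0
          rw [C_0, map_zero, norm_zero] at this
          rw [this]
      have hsum : ∑ k ∈ range r, (if k < e then 2 ^ e * (B * Λ ^ r) else 0) ≤
          e * (2 ^ e * (B * Λ ^ r)) := by
        rw [← Finset.sum_filter, Finset.sum_const, nsmul_eq_mul]
        apply mul_le_mul_of_nonneg_right _ (by positivity)
        have hsub : (range r).filter (fun k => k < e) ⊆ range e := by
          intro k hk
          rw [Finset.mem_filter] at hk
          exact Finset.mem_range.mpr hk.2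
        have := Finset.card_le_card hsub
        rw [Finset.card_range] at this
        exact_mod_cast this
      calc pn φ (S r + ∑ k ∈ range r, lam ^ k * hasseDeriv (k + 1) lam * S (r - (k + 1)))
          ≤ pn φ (S r) + pn φ (∑ k ∈ range r, lam ^ k * hasseDeriv (k + 1) lam *
              S (r - (k + 1))) := a3 _ _
        _ ≤ B * Λ ^ r + ∑ k ∈ range r, pn φ (lam ^ k * hasseDeriv (k + 1) lam *
              S (r - (k + 1))) := add_le_add (hS r) (a6 _ _ _)
        _ ≤ B * Λ ^ r + ∑ k ∈ range r, (if k < e then 2 ^ e * (B * Λ ^ r) else 0) :=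
            add_le_add (le_refl _) (Finset.sum_le_sum hterm)
        _ ≤ B * Λ ^ r + e * (2 ^ e * (B * Λ ^ r)) := add_le_add (le_refl _) hsum
        _ = 2 ^ p * pn φ P * (1 + e * 2 ^ e) ^ (n + 1) * Λ ^ r := by
            rw [hB]
            ring

end Pool.Agent.Work.MP_8d13b5_lc.Fm
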