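import Pool.Agent.Work.MP_8d13b5_lc.Fm.Stmts

set_option autoImplicit false

/-! Item HEV of the block `Fm`: basic facts on forms. -/

namespace Pool.Agent.Work.MP_8d13b5_lc.Fm

open Polynomial NumberField Finset Module

namespace HEV

theorem natDegree_sub {R : Type} [CommRing R] (P : R[X]) (x : R) {d : ℕ}
    (h : P.natDegree ≤ d) : (P.comp (C x * X)).natDegree ≤ d := by
  refine natDegree_comp_le.trans ?_
  have h1 : (C x * X : R[X]).natDegree ≤ 1 :=
    (natDegree_C_mul_le _ _).trans natDegree_X_le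
  calc P.natDegree * (C x * X : R[X]).natDegree ≤ d * 1 := Nat.mul_le_mul h h1
    _ = d := mul_one d

theorem hev_eq {R : Type} [CommRing R] (d : ℕ) (P : R[X]) (x y : R) (h : P.natDegree ≤ d) :
    hev d P x y = (reflect d (P.comp (C x * X))).eval y := by
  have h1 : (reflect d (P.comp (C x * X))).natDegree < d + 1 := by
    refine Nat.lt_succ_of_le ?_
    rw [natDegree_le_iff_coeff_eq_zero]
    intro N hN
    rw [coeff_reflect, revAt_eq_self_of_lt hN]
    exact coeff_eq_zero_of_natDegree_lt (lt_of_le_of_lt (natDegree_sub P x h) hN)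
  rw [eval_eq_sum_range' h1]
  unfold hev
  rw [← Finset.sum_range_reflect]
  refine Finset.sum_congr rfl fun i hi => ?_
  have hi' : i ≤ d := Nat.lt_succ_iff.1 (Finset.mem_range.1 hi)
  have e : d + 1 - 1 - i = d - i := by omega
  rw [e, coeff_reflect, revAt_le hi', comp_C_mul_X_coeff]
  congr 2
  omega

theorem mulH {R : Type} [CommRing R] (x y : R) (d d' : ℕ) (P Q : R[X]) (hP : P.natDegree ≤ d)
    (hQ : Q.natDegree ≤ d') : hev (d + d') (P * Q) x y = hev d P x y * hev d' Q x y := by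
  have h : (P * Q).natDegree ≤ d + d' := natDegree_mul_le.trans (Nat.add_le_add hP hQ)
  rw [hev_eq _ _ _ _ h, hev_eq _ _ _ _ hP, hev_eq _ _ _ _ hQ, mul_comp,
    reflect_mul _ _ (natDegree_sub P x hP) (natDegree_sub Q x hQ), eval_mul]

theorem powH {R : Type} [CommRing R] (x y : R) (d n : ℕ) (P : R[X]) (hP : P.natDegree ≤ d) :
    hev (d * n) (P ^ n) x y = hev d P x y ^ n := by
  induction n with
  | zero => simp [hev]
  | succ n ih =>
    have h : (P ^ n).natDegree ≤ d * n := by
      refine natDegree_pow_le.trans ?_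
      rw [mul_comm d n]
      exact Nat.mul_le_mul le_rfl hP
    rw [Nat.mul_succ, pow_succ, mulH x y _ _ _ _ h hP, ih, pow_succ]

theorem pn_eq {R : Type} [CommRing R] (φ : R →+* ℂ) (P : R[X]) {d : ℕ} (h : P.natDegree ≤ d) :
    pn φ P = ∑ i ∈ range (d + 1), ‖φ (P.coeff i)‖ := by
  unfold pn
  refine Finset.sum_subset (Finset.range_subset_range.2 (by omega)) ?_
  intro i _ hi
  rw [Finset.mem_range, not_lt] at hi
  rw [coeff_eq_zero_of_natDegree_lt (by omega), map_zero, norm_zero]

end HEV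

theorem prHEV : StHEV := by
  refine ⟨fun R _ x y => ⟨?_, ?_, ?_, ?_, ?_⟩, ?_, ?_, ?_⟩
  · intro d ι s P
    unfold hev
    rw [Finset.sum_comm]
    refine Finset.sum_congr rfl fun i _ => ?_
    rw [finsetSum_coeff, Finset.sum_mul, Finset.sum_mul]
  · exact fun d d' P Q hP hQ => HEV.mulH x y d d' P Q hP hQ
  · exact fun d n P hP => HEV.powH x y d n P hP
  · intro d c
    unfold hev
    rw [Finset.sum_eq_single 0]
    · simp
    · intro i _ hi
      rw [coeff_C, if_neg hi, zero_mul, zero_mul]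
    · intro h
      exact (h (Finset.mem_range.2 (Nat.succ_pos d))).elim
  · intro d c
    unfold hev
    rw [Finset.sum_eq_single d]
    · rw [coeff_C_mul_X_pow, if_pos rfl, Nat.sub_self, pow_zero, mul_one]
    · intro i _ hi
      rw [coeff_C_mul_X_pow, if_neg hi, zero_mul, zero_mul]
    · intro h
      exact (h (Finset.mem_range.2 (Nat.lt_succ_self d))).elim
  · intro F _ d P x y hy hP
    unfold hev
    rw [eval_eq_sum_range' (Nat.lt_succ_of_le hP), Finset.mul_sum]
    refine Finset.sum_congr rfl fun i hi => ?_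
    have hi' : i ≤ d := Nat.lt_succ_iff.1 (Finset.mem_range.1 hi)
    obtain ⟨k, rfl⟩ := Nat.exists_eq_add_of_le hi'
    rw [Nat.add_sub_cancel_left, div_pow, pow_add]
    field_simp
  · intro R S _ _ ψ d P x y
    unfold hev
    rw [map_sum]
    refine Finset.sum_congr rfl fun i _ => ?_
    rw [map_mul, map_mul, map_pow, map_pow, coeff_map]
  · intro R _ φ d P x y hP
    rw [HEV.pn_eq φ P hP]
    unfold hev
    rw [map_sum, Finset.sum_mul]
    refine (norm_sum_le _ _).trans (Finset.sum_le_sum fun i hi => ?_)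
    have hi' : i ≤ d := Nat.lt_succ_iff.1 (Finset.mem_range.1 hi)
    rw [map_mul, map_mul, map_pow, map_pow, norm_mul, norm_mul, norm_pow, norm_pow, mul_assoc]
    refine mul_le_mul_of_nonneg_left ?_ (norm_nonneg _)
    have h1 : ‖φ x‖ ^ i ≤ max ‖φ x‖ ‖φ y‖ ^ i :=
      pow_le_pow_left₀ (norm_nonneg _) (le_max_left _ _) i
    have h2 : ‖φ y‖ ^ (d - i) ≤ max ‖φ x‖ ‖φ y‖ ^ (d - i) :=
      pow_le_pow_left₀ (norm_nonneg _) (le_max_right _ _) _
    calc ‖φ x‖ ^ i * ‖φ y‖ ^ (d - i) ≤ max ‖φ x‖ ‖φ y‖ ^ i * max ‖φ x‖ ‖φ y‖ ^ (d - i) :=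
          mul_le_mul h1 h2 (by positivity) (by positivity)
      _ = max ‖φ x‖ ‖φ y‖ ^ d := by
          rw [← pow_add]
          congr 1
          omega

end Pool.Agent.Work.MP_8d13b5_lc.Fm
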