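import Pool.Agent.Work.MP_8d13b5_lc.Fm.Stmts

set_option autoImplicit false

/-! MP_8d13b5_lc, block Fm, item IDL. -/

namespace Pool.Agent.Work.MP_8d13b5_lc.Fm

open Polynomial NumberField Finset Module

namespace IDL

/-- powers of an element of an ideal -/
theorem pw {R : Type} [CommRing R] (m : ℕ) (v : Fin (m + 1) → R) (c : R)
    (hc : ∃ a : Fin (m + 1) → R, ∑ j, a j * v j = c) (n : ℕ) :
    ∃ b : Fin (m + 1) → R, ∑ j, b j * v j ^ n = c ^ ((m + 1) * n) := by
  rcases n with _ | n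
  · refine ⟨Pi.single 0 1, ?_⟩
    simp [Pi.single_apply]
  · obtain ⟨a, rfl⟩ := hc
    have h1 := Ideal.sum_pow_mem_span_pow (univ : Finset (Fin (m + 1))) (fun j => a j * v j) n
    rw [card_univ, Fintype.card_fin] at h1
    have h2 : Ideal.span ((fun i => (a i * v i) ^ (n + 1)) '' ((univ : Finset (Fin (m + 1))) :
        Set (Fin (m + 1)))) ≤ Ideal.span (Set.range fun j => v j ^ (n + 1)) := by
      rw [Ideal.span_le]
      rintro _ ⟨j, -, rfl⟩
      show (a j * v j) ^ (n + 1) ∈ Ideal.span (Set.range fun j => v j ^ (n + 1))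
      rw [mul_pow]
      exact Ideal.mul_mem_left _ _ (Ideal.subset_span ⟨j, rfl⟩)
    have h3 := h2 h1
    have h4 : (∑ j, a j * v j) ^ ((m + 1) * (n + 1)) ∈
        Ideal.span (Set.range fun j => v j ^ (n + 1)) := by
      have e : (m + 1) * (n + 1) = ((m + 1) * n + 1) + m := by ring
      rw [e, pow_add]
      exact Ideal.mul_mem_right _ _ h3
    exact (Ideal.mem_span_range_iff_exists_fun).1 h4

end IDL

open IDL in
theorem prIDL (hBEZ : StBEZ) (hHEV : StHEV) : StIDL := by
  intro R _ _ m e lam hfam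
  obtain ⟨N, c, A, B, hc, hdeg, hA, hB⟩ := hBEZ R m e lam hfam
  refine ⟨c, hc, fun x y hxy n => ?_⟩
  obtain ⟨hsum, hmul, -, hC, hCX⟩ := hHEV.1 R x y
  have hN : ∀ D : Fin (m + 1) → R[X], (∀ j, (D j).natDegree + e ≤ N) →
      hev N (∑ j, D j * lam j) x y =
        ∑ j, hev (N - e) (D j) x y * hev e (lam j) x y := by
    intro D hD
    rw [hsum]
    refine sum_congr rfl fun j _ => ?_
    have h1 := hD j
    have h2 : N = (N - e) + e := by omega
    conv_lhs => rw [h2]
    exact hmul (N - e) e (D j) (lam j) (by omega) (hfam.deg j)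
  have h1 := hN A fun j => (hdeg j).1
  have h2 := hN B fun j => (hdeg j).2
  rw [hA, hC] at h1
  rw [hB, hCX] at h2
  refine pw m _ c ?_ n
  obtain ⟨u, w, huw⟩ := (hxy.pow (m := N) (n := N))
  refine ⟨fun j => u * hev (N - e) (B j) x y + w * hev (N - e) (A j) x y, ?_⟩
  have h3 : ∑ j, (u * hev (N - e) (B j) x y + w * hev (N - e) (A j) x y) * hev e (lam j) x y =
      u * ∑ j, hev (N - e) (B j) x y * hev e (lam j) x y +
      w * ∑ j, hev (N - e) (A j) x y * hev e (lam j) x y := by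
    rw [mul_sum, mul_sum, ← sum_add_distrib]
    refine sum_congr rfl fun j _ => ?_
    ring
  rw [h3, ← h1, ← h2]
  linear_combination c * huw

end Pool.Agent.Work.MP_8d13b5_lc.Fm
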