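import Pool.Agent.Work.MP_8d13b5_lc.Fm.Fin

set_option autoImplicit false

/-! Block `Fm`, item INT: rational integers in the number field. -/

namespace Pool.Agent.Work.MP_8d13b5_lc.Fm

open Polynomial NumberField Finset Module

namespace INT

theorem res_int {K : Type} [Field K] [NumberField K] (φ : K →+* ℂ) (x : ℤ) :
    ‖res φ (x : 𝓞 K)‖ = (x.natAbs : ℝ) := by
  rw [map_intCast, Complex.norm_intCast, Nat.cast_natAbs, Int.cast_abs]

theorem tt_int {K : Type} [Field K] [NumberField K] (φ : K →+* ℂ) (x y : ℤ) :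
    tt φ (x : 𝓞 K) (y : 𝓞 K) = mx x y := by
  unfold tt mx
  rw [res_int, res_int, Nat.cast_max]

end INT

/-- INT. -/
theorem prINT : StINT := by
  intro K _ _ x y
  refine ⟨fun φ => INT.tt_int φ x y, ?_, fun h => ?_, fun h => ?_⟩
  · unfold TT
    rw [Finset.prod_congr rfl fun φ _ => INT.tt_int φ x y, Finset.prod_const, Finset.card_univ,
      NumberField.Embeddings.card]
  · exact h.map (Int.castRingHom (𝓞 K))
  · by_contra hcon
    have h0 : mx x y = 0 := by omega
    unfold mx at h0
    have hx : x = 0 := by omega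
    have hy : y = 0 := by omega
    subst hx
    subst hy
    obtain ⟨a, b, hab⟩ := h
    simp at hab

end Pool.Agent.Work.MP_8d13b5_lc.Fm
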