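import Pool.Agent.Work.MP_8d13b5_lc.Fm.Stmts

set_option autoImplicit false

/-! Item KER of the block `Fm`: uniqueness of the parts. -/

namespace Pool.Agent.Work.MP_8d13b5_lc.Fm

open Polynomial NumberField Finset Module

namespace KER

lemma rootBound {K : Type} [Field K] [NumberField K] {m : ℕ} (f : Fin (m + 1) → (𝓞 K)[X]) :
    ∃ A₀ : ℝ, 1 ≤ A₀ ∧ ∀ (j : Fin (m + 1)) (φ : K →+* ℂ),
      ∀ z ∈ ((f j).map (res φ)).roots, ‖z‖ ≤ A₀ := by
  have hnn : ∀ (j : Fin (m + 1)) (φ : K →+* ℂ),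
      0 ≤ (((f j).map (res φ)).roots.map (fun z => ‖z‖)).sum := by
    intro j φ
    apply Multiset.sum_nonneg
    intro x hx
    obtain ⟨z, _, rfl⟩ := Multiset.mem_map.mp hx
    exact norm_nonneg z
  have hnn2 : ∀ (j : Fin (m + 1)),
      0 ≤ ∑ φ : K →+* ℂ, (((f j).map (res φ)).roots.map (fun z => ‖z‖)).sum :=
    fun j => sum_nonneg fun φ _ => hnn j φ
  refine ⟨1 + ∑ j, ∑ φ : K →+* ℂ, (((f j).map (res φ)).roots.map (fun z => ‖z‖)).sum, ?_, ?_⟩
  · have : 0 ≤ ∑ j, ∑ φ : K →+* ℂ, (((f j).map (res φ)).roots.map (fun z => ‖z‖)).sum :=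
      sum_nonneg fun j _ => hnn2 j
    linarith
  · intro j φ z hz
    have h1 : ‖z‖ ≤ (((f j).map (res φ)).roots.map (fun z => ‖z‖)).sum := by
      apply Multiset.single_le_sum _ _ (Multiset.mem_map_of_mem _ hz)
      intro x hx
      obtain ⟨w, _, rfl⟩ := Multiset.mem_map.mp hx
      exact norm_nonneg w
    have h2 : (((f j).map (res φ)).roots.map (fun z => ‖z‖)).sum ≤
        ∑ φ : K →+* ℂ, (((f j).map (res φ)).roots.map (fun z => ‖z‖)).sum :=
      single_le_sum (f := fun φ : K →+* ℂ => (((f j).map (res φ)).roots.map (fun z => ‖z‖)).sum)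
        (fun φ _ => hnn j φ) (mem_univ φ)
    have h3 : ∑ φ : K →+* ℂ, (((f j).map (res φ)).roots.map (fun z => ‖z‖)).sum ≤
        ∑ j, ∑ φ : K →+* ℂ, (((f j).map (res φ)).roots.map (fun z => ‖z‖)).sum :=
      single_le_sum (f := fun j => ∑ φ : K →+* ℂ,
        (((f j).map (res φ)).roots.map (fun z => ‖z‖)).sum)
        (fun j _ => hnn2 j) (mem_univ j)
    linarith

lemma clear {K : Type} [Field K] [NumberField K] {m : ℕ} (f : Fin (m + 1) → (𝓞 K)[X])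
    (hf : ∀ j, (f j).Monic) (s : Fin (m + 1) → ℕ → K)
    (hs : ∀ j, Pd.Sol ((f j).map (algebraMap (𝓞 K) K)) (s j)) :
    ∃ (δ : 𝓞 K) (t : Fin (m + 1) → ℕ → 𝓞 K), δ ≠ 0 ∧ (∀ j, Pd.Sol (f j) (t j)) ∧
      ∀ j n, algebraMap (𝓞 K) K (t j n) = algebraMap (𝓞 K) K δ * s j n := by
  classical
  obtain ⟨b, hb⟩ := IsLocalization.exist_integer_multiples (nonZeroDivisors (𝓞 K))
    ((univ : Finset (Fin (m + 1))) ×ˢ range (∑ j, (f j).natDegree))
    (fun p : Fin (m + 1) × ℕ => s p.1 p.2)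
  have hb' : ∀ p : Fin (m + 1) × ℕ, ∃ v : 𝓞 K, p.2 < ∑ j, (f j).natDegree →
      algebraMap (𝓞 K) K v = algebraMap (𝓞 K) K b * s p.1 p.2 := by
    intro p
    by_cases hp : p.2 < ∑ j, (f j).natDegree
    · obtain ⟨v, hv⟩ := hb p (by simp [hp])
      refine ⟨v, fun _ => ?_⟩
      rw [hv, Algebra.smul_def]
    · exact ⟨0, fun h => absurd h hp⟩
  choose v hv using hb'
  refine ⟨b, fun j n => ∑ c ∈ range (f j).natDegree, Pd.cf (f j) n c * v (j, c),
    nonZeroDivisors.ne_zero b.2, fun j => Pd.sol_of_init (hf j) _, ?_⟩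
  intro j n
  have h1 : Pd.Sol ((f j).map (algebraMap (𝓞 K) K)) (fun n => algebraMap (𝓞 K) K
      (∑ c ∈ range (f j).natDegree, Pd.cf (f j) n c * v (j, c))) :=
    (Pd.sol_of_init (hf j) (fun c => v (j, c))).map (algebraMap (𝓞 K) K)
  have h2 : Pd.Sol ((f j).map (algebraMap (𝓞 K) K)) (fun n => algebraMap (𝓞 K) K b * s j n) :=
    (hs j).smul _
  refine Pd.Sol.ext ((hf j).map _) h1 h2 ?_ n
  intro i hi
  have hi' : i < (f j).natDegree := by rwa [(hf j).natDegree_map] at hi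
  have hlt : i < ∑ j, (f j).natDegree :=
    lt_of_lt_of_le hi' (single_le_sum (f := fun j => (f j).natDegree)
      (fun _ _ => Nat.zero_le _) (mem_univ j))
  show algebraMap (𝓞 K) K (∑ c ∈ range (f j).natDegree, Pd.cf (f j) i c * v (j, c)) = _
  rw [Pd.init_of_init (hf j) (fun c => v (j, c)) hi']
  exact hv (j, i) hlt

lemma growthBound {K : Type} [Field K] [NumberField K] {m : ℕ} (f : Fin (m + 1) → (𝓞 K)[X])
    (hf : ∀ j, (f j).Monic) {A₀ : ℝ} (hA : 1 ≤ A₀)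
    (hr : ∀ (j : Fin (m + 1)) (φ : K →+* ℂ), ∀ z ∈ ((f j).map (res φ)).roots, ‖z‖ ≤ A₀)
    (t : Fin (m + 1) → ℕ → 𝓞 K) (ht : ∀ j, Pd.Sol (f j) (t j)) :
    ∃ V : ℝ, 0 ≤ V ∧ ∀ (φ : K →+* ℂ) (j : Fin (m + 1)) (n : ℕ),
      ‖res φ (t j n)‖ ≤ V * (2 * A₀) ^ n := by
  set U : ℝ := ∑ φ : K →+* ℂ, ∑ j, ∑ i ∈ range (f j).natDegree, ‖res φ (t j i)‖ with hU
  have hU0 : 0 ≤ U := sum_nonneg fun φ _ => sum_nonneg fun j _ => sum_nonneg fun i _ =>
    norm_nonneg _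
  refine ⟨U * 2 ^ (∑ j, (f j).natDegree), by positivity, ?_⟩
  intro φ j n
  have hi : ∀ i < (f j).natDegree, ‖res φ (t j i)‖ ≤ U := by
    intro i hi
    have h1 : ‖res φ (t j i)‖ ≤ ∑ i ∈ range (f j).natDegree, ‖res φ (t j i)‖ :=
      single_le_sum (f := fun i => ‖res φ (t j i)‖) (fun _ _ => norm_nonneg _) (mem_range.2 hi)
    have h2 : ∑ i ∈ range (f j).natDegree, ‖res φ (t j i)‖ ≤
        ∑ j, ∑ i ∈ range (f j).natDegree, ‖res φ (t j i)‖ :=
      single_le_sum (f := fun j => ∑ i ∈ range (f j).natDegree, ‖res φ (t j i)‖)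
        (fun _ _ => sum_nonneg fun _ _ => norm_nonneg _) (mem_univ j)
    have h3 : ∑ j, ∑ i ∈ range (f j).natDegree, ‖res φ (t j i)‖ ≤ U :=
      single_le_sum (f := fun φ : K →+* ℂ =>
        ∑ j, ∑ i ∈ range (f j).natDegree, ‖res φ (t j i)‖)
        (fun _ _ => sum_nonneg fun _ _ => sum_nonneg fun _ _ => norm_nonneg _) (mem_univ φ)
    linarith
  have hg := Pd.growth_ring hA (res φ) (hf j) (hr j φ) (ht j) hU0 hi n
  refine hg.trans ?_
  have hd : (2 : ℝ) ^ (f j).natDegree ≤ 2 ^ (∑ j, (f j).natDegree) :=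
    pow_le_pow_right₀ (by norm_num) (single_le_sum (f := fun j => (f j).natDegree)
      (fun _ _ => Nat.zero_le _) (mem_univ j))
  have hp : (0 : ℝ) ≤ (2 * A₀) ^ n := by positivity
  exact mul_le_mul_of_nonneg_right (mul_le_mul_of_nonneg_left hd hU0) hp

end KER

theorem prKER (hTHM : StTHM) : StKER := by
  intro K _ _ m e lam f hm hfam hf
  obtain ⟨C₁, hC₁, hT⟩ := hTHM K m e lam hm hfam 1
  obtain ⟨A₀, hA₀, hroots⟩ := KER.rootBound f
  obtain ⟨D, hD⟩ : ∃ D : ℕ, D = Fintype.card (K →+* ℂ) := ⟨_, rfl⟩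
  obtain ⟨B, hB⟩ : ∃ B : ℝ, B = (2 * A₀) ^ D := ⟨_, rfl⟩
  have hBpos : 0 < B := by rw [hB]; positivity
  obtain ⟨Q, hQ⟩ : ∃ Q : ℝ, Q = (C₁ * B) ^ (2 * m) := ⟨_, rfl⟩
  have hQpos : 0 < Q := by rw [hQ]; positivity
  refine ⟨1 + Q, by linarith, ?_⟩
  intro x y hco hne hTT s hs hsum
  by_contra hcon
  push Not at hcon
  obtain ⟨j₁, n₁, hj₁⟩ := hcon
  obtain ⟨δ, t, hδ, ht, hts⟩ := KER.clear f (fun j => (hf j).1) s hs
  obtain ⟨V, hV0, hV⟩ := KER.growthBound f (fun j => (hf j).1) hA₀ hroots t ht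
  have hinj : Function.Injective (algebraMap (𝓞 K) K) := RingOfIntegers.coe_injective
  have hδK : algebraMap (𝓞 K) K δ ≠ 0 := by
    intro h
    apply hδ
    apply hinj
    rw [h, map_zero]
  -- nonzero vectors for arbitrarily large `n`
  have hbig : ∀ n₀ : ℕ, ∃ n, n₀ ≤ n ∧ (fun j => t j n) ≠ 0 := by
    intro n₀
    by_contra hno
    push Not at hno
    apply hj₁
    have hc0 : ((f j₁).map (algebraMap (𝓞 K) K)).coeff 0 ≠ 0 := by
      rw [coeff_map]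
      intro h
      apply (hf j₁).2
      apply hinj
      rw [h, map_zero]
    refine (hs j₁).zero_of_eventually hc0 (n₀ := n₀) ?_ n₁
    intro n hn
    have h1 := congrFun (hno n hn) j₁
    simp only [Pi.zero_apply] at h1
    have h2 := hts j₁ n
    rw [h1, map_zero] at h2
    exact (mul_eq_zero.1 h2.symm).resolve_left hδK
  -- the relation over the ring of integers
  have hrel : ∀ n, ∑ j, t j n * hev e (lam j) x y ^ n = 0 := by
    intro n
    apply hinj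
    rw [map_zero, map_sum]
    have h1 : ∀ j ∈ (univ : Finset (Fin (m + 1))),
        algebraMap (𝓞 K) K (t j n * hev e (lam j) x y ^ n) =
        algebraMap (𝓞 K) K δ * (((hev e (lam j) x y : 𝓞 K) : K) ^ n * s j n) := by
      intro j _
      rw [map_mul, map_pow, hts]
      ring
    rw [sum_congr rfl h1, ← mul_sum, hsum n, mul_zero]
  -- size
  have hHH : ∀ n, HH (fun j => t j n) ≤ (((m : ℝ) + 1) * V) ^ D * B ^ n := by
    intro n
    unfold HH
    have h1 : ∀ φ ∈ (univ : Finset (K →+* ℂ)), ∑ j, ‖res φ (t j n)‖ ≤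
        ((m : ℝ) + 1) * V * (2 * A₀) ^ n := by
      intro φ _
      calc ∑ j, ‖res φ (t j n)‖ ≤ ∑ _j : Fin (m + 1), V * (2 * A₀) ^ n :=
            sum_le_sum fun j _ => hV φ j n
        _ = ((m : ℝ) + 1) * V * (2 * A₀) ^ n := by
            rw [sum_const, card_univ, Fintype.card_fin, nsmul_eq_mul]
            push_cast
            ring
    calc ∏ φ : K →+* ℂ, ∑ j, ‖res φ (t j n)‖
        ≤ ∏ _φ : K →+* ℂ, (((m : ℝ) + 1) * V * (2 * A₀) ^ n) :=
          prod_le_prod (fun φ _ => sum_nonneg fun j _ => norm_nonneg _) h1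
      _ = (((m : ℝ) + 1) * V) ^ D * B ^ n := by
          rw [prod_const, card_univ, ← hD, mul_pow, hB, ← pow_mul, ← pow_mul, mul_comm n D]
  have hTpos : 0 < TT x y := by linarith
  obtain ⟨W, hW⟩ : ∃ W : ℝ, W =
    (C₁ * TT x y ^ (m * e) * (((m : ℝ) + 1) * V) ^ D) ^ (2 * m) := ⟨_, rfl⟩
  have hmain : ∀ n₀ : ℕ, ∃ n, n₀ ≤ n ∧ TT x y ^ n ≤ W * Q ^ n := by
    intro n₀
    obtain ⟨n, hn, hnz⟩ := hbig n₀
    refine ⟨n, hn, ?_⟩
    have h1 := hT x y hco hne n (fun j => t j n) hnz (hrel n)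
    rw [mul_one] at h1
    refine h1.trans ?_
    have hHH0 : 0 ≤ HH (fun j => t j n) := by
      unfold HH
      exact prod_nonneg fun φ _ => sum_nonneg fun j _ => norm_nonneg _
    have h2 : C₁ ^ (n + 1) * TT x y ^ (m * e) * HH (fun j => t j n) ≤
        C₁ ^ (n + 1) * TT x y ^ (m * e) * ((((m : ℝ) + 1) * V) ^ D * B ^ n) :=
      mul_le_mul_of_nonneg_left (hHH n) (by positivity)
    have h3 : (C₁ ^ (n + 1) * TT x y ^ (m * e) * HH (fun j => t j n)) ^ ((1 + 1) * m) ≤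
        (C₁ ^ (n + 1) * TT x y ^ (m * e) * ((((m : ℝ) + 1) * V) ^ D * B ^ n)) ^ ((1 + 1) * m) :=
      pow_le_pow_left₀ (by positivity) h2 _
    refine h3.trans (le_of_eq ?_)
    have e1 : C₁ ^ (n + 1) * TT x y ^ (m * e) * ((((m : ℝ) + 1) * V) ^ D * B ^ n) =
        (C₁ * TT x y ^ (m * e) * (((m : ℝ) + 1) * V) ^ D) * (C₁ * B) ^ n := by
      rw [mul_pow C₁ B n, pow_succ]
      ring
    have e2 : (1 + 1) * m = 2 * m := by ring
    rw [hW, hQ, e1, e2, mul_pow (C₁ * TT x y ^ (m * e) * (((m : ℝ) + 1) * V) ^ D), ← pow_mul,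
      ← pow_mul, mul_comm n (2 * m)]
  have hratio : 1 < TT x y / Q := by
    rw [one_lt_div hQpos]
    linarith
  obtain ⟨n₀, hn₀⟩ := pow_unbounded_of_one_lt W hratio
  obtain ⟨n, hn, hle⟩ := hmain n₀
  have h4 : W < (TT x y / Q) ^ n := lt_of_lt_of_le hn₀ (pow_le_pow_right₀ hratio.le hn)
  rw [div_pow, lt_div_iff₀ (by positivity)] at h4
  linarith

end Pool.Agent.Work.MP_8d13b5_lc.Fm
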