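import Pool.Agent.Work.MP_8d13b5_lc.Fm.Stmts

set_option autoImplicit false

/-!
# Block Fm, item LOW: lower bound for the values of a family of forms
-/

namespace Pool.Agent.Work.MP_8d13b5_lc.Fm

open Polynomial NumberField Finset Module

namespace LOW

theorem pn_nonneg {R : Type} [CommRing R] (φ : R →+* ℂ) (P : R[X]) : 0 ≤ pn φ P :=
  Finset.sum_nonneg fun _ _ => norm_nonneg _

/-- Evaluation of a Bezout identity. -/
theorem ev_id (hHEV : StHEV) {R : Type} [CommRing R] {m e N : ℕ} {lam A : Fin (m + 1) → R[X]}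
    {P : R[X]} (hl : ∀ j, (lam j).natDegree ≤ e) (hA : ∀ j, (A j).natDegree + e ≤ N)
    (h : ∑ j, A j * lam j = P) (x y : R) :
    ∑ j, hev (N - e) (A j) x y * hev e (lam j) x y = hev N P x y := by
  obtain ⟨h1, h2, -, -, -⟩ := hHEV.1 R x y
  rw [← h, h1]
  refine Finset.sum_congr rfl fun j _ => ?_
  have hj := hA j
  have e1 : N = (N - e) + e := by omega
  conv_rhs => rw [e1]
  rw [h2 (N - e) e (A j) (lam j) (by omega) (hl j)]

/-- The basic inequality. -/
theorem ineq (hHEV : StHEV) {R : Type} [CommRing R] {m e N : ℕ} {lam A : Fin (m + 1) → R[X]}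
    {P : R[X]} (hl : ∀ j, (lam j).natDegree ≤ e) (hA : ∀ j, (A j).natDegree + e ≤ N)
    (h : ∑ j, A j * lam j = P) (φ : R →+* ℂ) (x y : R) (M : ℝ)
    (hM : ∀ j, ‖φ (hev e (lam j) x y)‖ ≤ M) :
    ‖φ (hev N P x y)‖ ≤ (∑ j, pn φ (A j)) * max ‖φ x‖ ‖φ y‖ ^ (N - e) * M := by
  rw [← ev_id hHEV hl hA h x y, map_sum]
  refine (norm_sum_le _ _).trans ?_
  rw [Finset.sum_mul, Finset.sum_mul]
  refine Finset.sum_le_sum fun j _ => ?_
  rw [map_mul, norm_mul]
  have hj := hA j
  have h1 := hHEV.2.2.2 R φ (N - e) (A j) x y (by omega)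
  exact mul_le_mul h1 (hM j) (norm_nonneg _) ((norm_nonneg _).trans h1)

end LOW

open LOW in
theorem prLOW (hBEZ : StBEZ) (hHEV : StHEV) : StLOW := by
  intro K _ _ m e lam hfam
  obtain ⟨N, c, A, B, hc, hdeg, hA, hB⟩ := hBEZ (𝓞 K) m e lam hfam
  have hcφ : ∀ φ : K →+* ℂ, 0 < ‖res φ c‖ := by
    intro φ
    rw [norm_pos_iff]
    intro h0
    apply hc
    have hinj : Function.Injective (res φ) := by
      unfold res
      exact φ.injective.comp (FaithfulSMul.algebraMap_injective (𝓞 K) K)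
    exact (map_eq_zero_iff _ hinj).1 h0
  obtain ⟨S, hS⟩ : ∃ S : (K →+* ℂ) → ℝ, S = fun φ =>
      (∑ j, pn (res φ) (A j)) + ∑ j, pn (res φ) (B j) := ⟨_, rfl⟩
  have hSA : ∀ φ : K →+* ℂ, 0 ≤ ∑ j, pn (res φ) (A j) := fun φ =>
    Finset.sum_nonneg fun _ _ => pn_nonneg _ _
  have hSB : ∀ φ : K →+* ℂ, 0 ≤ ∑ j, pn (res φ) (B j) := fun φ =>
    Finset.sum_nonneg fun _ _ => pn_nonneg _ _
  have hS0 : ∀ φ : K →+* ℂ, 0 ≤ S φ := by
    intro φ
    rw [hS]
    exact add_nonneg (hSA φ) (hSB φ)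
  obtain ⟨T, hT⟩ : ∃ T : Finset ℝ, T = insert 1
      (Finset.univ.image fun φ : K →+* ℂ => ‖res φ c‖ / (S φ + 1)) := ⟨_, rfl⟩
  have hTn : T.Nonempty := by
    rw [hT]
    exact Finset.insert_nonempty _ _
  have hc0 : 0 < T.min' hTn := by
    rw [Finset.lt_min'_iff]
    intro z hz
    rw [hT, Finset.mem_insert, Finset.mem_image] at hz
    rcases hz with rfl | ⟨φ, -, rfl⟩
    · exact one_pos
    · have := hS0 φ
      have := hcφ φ
      positivity
  have hc1 : T.min' hTn ≤ 1 := Finset.min'_le _ _ (by rw [hT]; exact Finset.mem_insert_self _ _)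
  have hcle : ∀ φ : K →+* ℂ, T.min' hTn * (S φ + 1) ≤ ‖res φ c‖ := by
    intro φ
    have h1 : T.min' hTn ≤ ‖res φ c‖ / (S φ + 1) := by
      refine Finset.min'_le _ _ ?_
      rw [hT]
      exact Finset.mem_insert_of_mem (Finset.mem_image_of_mem _ (Finset.mem_univ φ))
    rwa [le_div_iff₀ (by linarith [hS0 φ])] at h1
  refine ⟨T.min' hTn, hc0, hc1, ?_⟩
  have key : ∀ (φ : K →+* ℂ) (x y : 𝓞 K), 0 < tt φ x y →
      ∃ j, T.min' hTn * tt φ x y ^ e ≤ ‖res φ (hev e (lam j) x y)‖ := by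
    intro φ x y ht
    obtain ⟨j, hj⟩ := Finite.exists_max fun j => ‖res φ (hev e (lam j) x y)‖
    refine ⟨j, ?_⟩
    obtain ⟨M, hM⟩ : ∃ M, M = ‖res φ (hev e (lam j) x y)‖ := ⟨_, rfl⟩
    have hM0 : 0 ≤ M := hM ▸ norm_nonneg _
    have hj' : ∀ i, ‖res φ (hev e (lam i) x y)‖ ≤ M := fun i => hM ▸ hj i
    rw [← hM]
    have htp : 0 ≤ tt φ x y ^ (N - e) := pow_nonneg ht.le _
    have hNe : e ≤ N := by
      have := (hdeg 0).1
      omega
    have big : ‖res φ c‖ * tt φ x y ^ N ≤ S φ * tt φ x y ^ (N - e) * M := by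
      obtain ⟨-, -, -, h4, h5⟩ := hHEV.1 (𝓞 K) x y
      rcases le_total ‖res φ x‖ ‖res φ y‖ with hxy | hxy
      · have h := ineq hHEV hfam.deg (fun i => (hdeg i).1) hA (res φ) x y M hj'
        rw [h4, map_mul, norm_mul, map_pow, norm_pow] at h
        have e1 : tt φ x y = ‖res φ y‖ := max_eq_right hxy
        have h' : ‖res φ c‖ * tt φ x y ^ N ≤
            (∑ j, pn (res φ) (A j)) * tt φ x y ^ (N - e) * M := by
          rw [e1]
          have h2 := h
          rw [max_eq_right hxy] at h2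
          exact h2
        refine h'.trans (mul_le_mul_of_nonneg_right (mul_le_mul_of_nonneg_right ?_ htp) hM0)
        rw [hS]
        exact le_add_of_nonneg_right (hSB φ)
      · have h := ineq hHEV hfam.deg (fun i => (hdeg i).2) hB (res φ) x y M hj'
        rw [h5, map_mul, norm_mul, map_pow, norm_pow] at h
        have e1 : tt φ x y = ‖res φ x‖ := max_eq_left hxy
        have h' : ‖res φ c‖ * tt φ x y ^ N ≤
            (∑ j, pn (res φ) (B j)) * tt φ x y ^ (N - e) * M := by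
          rw [e1]
          have h2 := h
          rw [max_eq_left hxy] at h2
          exact h2
        refine h'.trans (mul_le_mul_of_nonneg_right (mul_le_mul_of_nonneg_right ?_ htp) hM0)
        rw [hS]
        exact le_add_of_nonneg_left (hSA φ)
    have e2 : tt φ x y ^ N = tt φ x y ^ (N - e) * tt φ x y ^ e := by
      rw [← pow_add]
      congr 1
      omega
    have htp' : 0 < tt φ x y ^ (N - e) := pow_pos ht _
    have big2 : ‖res φ c‖ * tt φ x y ^ e ≤ S φ * M := by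
      have h1 : tt φ x y ^ (N - e) * (‖res φ c‖ * tt φ x y ^ e) ≤
          tt φ x y ^ (N - e) * (S φ * M) := by
        rw [e2] at big
        linarith
      exact le_of_mul_le_mul_left h1 htp'
    have hte : 0 ≤ tt φ x y ^ e := pow_nonneg ht.le _
    have h3 : T.min' hTn * (S φ + 1) * tt φ x y ^ e ≤ (S φ + 1) * M := by
      refine (mul_le_mul_of_nonneg_right (hcle φ) hte).trans (big2.trans ?_)
      linarith
    have h4 : (S φ + 1) * (T.min' hTn * tt φ x y ^ e) ≤ (S φ + 1) * M := by linarith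
    exact le_of_mul_le_mul_left h4 (by linarith [hS0 φ])
  intro φ x y
  rcases (show 0 ≤ tt φ x y from le_max_of_le_left (norm_nonneg _)).lt_or_eq with ht | ht
  · exact key φ x y ht
  · rcases Nat.eq_zero_or_pos e with rfl | he
    · have h11 : tt φ (1 : 𝓞 K) 1 = 1 := by
        unfold tt
        rw [map_one]
        simp
      obtain ⟨j, hj⟩ := key φ 1 1 (by rw [h11]; exact one_pos)
      refine ⟨j, ?_⟩
      rw [pow_zero] at hj ⊢
      have e1 : hev 0 (lam j) x y = hev 0 (lam j) 1 1 := by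
        unfold hev
        simp
      rw [e1]
      exact hj
    · refine ⟨0, ?_⟩
      rw [← ht, zero_pow he.ne', mul_zero]
      exact norm_nonneg _

end Pool.Agent.Work.MP_8d13b5_lc.Fm
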