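import Mathlib

/-!
# Successive minima of the syzygies of polynomials

For `E : Fin k → K[X]`, not zero, of degrees at most `N`, the syzygy module
`{P | ∑ j, P j * E j = 0}` contains for every `i < k - 1` a linearly independent family of `i + 1`
vectors of degree at most `L i`, where `∑ i, L i ≤ N`.
-/

set_option autoImplicit false

open Polynomial

noncomputable section

namespace Pool.Agent.SkolemFm

namespace Minima

variable {K : Type*} [Field K] {k : ℕ}

/-- Syzygies of `E` with entries of degree less than `m`. -/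
def S (E : Fin k → K[X]) (m : ℕ) : Submodule K (Fin k → K[X]) where
  carrier := {P | (∀ j, P j ∈ degreeLT K m) ∧ ∑ j, P j * E j = 0}
  add_mem' := by
    rintro P Q ⟨h1, h2⟩ ⟨h3, h4⟩
    refine ⟨fun j => Submodule.add_mem _ (h1 j) (h3 j), ?_⟩
    simp only [Pi.add_apply, add_mul, Finset.sum_add_distrib, h2, h4, add_zero]
  zero_mem' := ⟨fun j => Submodule.zero_mem _, by simp⟩
  smul_mem' := by
    rintro c P ⟨h1, h2⟩
    refine ⟨fun j => Submodule.smul_mem _ c (h1 j), ?_⟩
    simp only [Pi.smul_apply, smul_mul_assoc, ← Finset.smul_sum, h2, smul_zero]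

lemma mem_S {E : Fin k → K[X]} {m : ℕ} {P : Fin k → K[X]} :
    P ∈ S E m ↔ (∀ j, P j ∈ degreeLT K m) ∧ ∑ j, P j * E j = 0 := Iff.rfl

lemma natDegree_le {m : ℕ} {p : K[X]} (h : p ∈ degreeLT K (m + 1)) : p.natDegree ≤ m := by
  rw [mem_degreeLT, degree_lt_iff_coeff_zero] at h
  rw [natDegree_le_iff_coeff_eq_zero]
  exact fun n hn => h n hn

lemma S_mono (E : Fin k → K[X]) {m n : ℕ} (h : m ≤ n) : S E m ≤ S E n := by
  rintro P ⟨h1, h2⟩
  exact ⟨fun j => degreeLT_mono h (h1 j), h2⟩

/-- The inclusion into the tuples of polynomials of degree less than `m`. -/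
def emb (E : Fin k → K[X]) (m : ℕ) : S E m →ₗ[K] (Fin k → degreeLT K m) where
  toFun P := fun j => ⟨P.1 j, P.2.1 j⟩
  map_add' _ _ := rfl
  map_smul' _ _ := rfl

lemma emb_injective (E : Fin k → K[X]) (m : ℕ) : Function.Injective (emb E m) := by
  intro P Q h
  apply Subtype.ext
  funext j
  exact congrArg Subtype.val (congrFun h j)

instance (m : ℕ) : FiniteDimensional K (degreeLT K m) :=
  (degreeLTEquiv K m).symm.finiteDimensional

lemma finrank_degreeLT (m : ℕ) : Module.finrank K (degreeLT K m) = m := by
  rw [(degreeLTEquiv K m).finrank_eq]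
  simp

instance (E : Fin k → K[X]) (m : ℕ) : FiniteDimensional K (S E m) :=
  FiniteDimensional.of_injective (emb E m) (emb_injective E m)

/-- The map `P ↦ ∑ j, P j * E j`. -/
def ev (E : Fin k → K[X]) (m N : ℕ) (hE : ∀ j, (E j).natDegree ≤ N) :
    (Fin k → degreeLT K m) →ₗ[K] degreeLT K (m + N) where
  toFun P := ⟨∑ j, (P j : K[X]) * E j, Submodule.sum_mem _ fun j _ => by
    rw [mem_degreeLT]
    rcases eq_or_ne (P j : K[X]) 0 with h | h
    · rw [h, zero_mul, degree_zero]
      exact WithBot.bot_lt_coe _
    · have h1 := mem_degreeLT.1 (P j).2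
      have h2 : (E j).degree ≤ N := natDegree_le_iff_degree_le.1 (hE j)
      rw [degree_mul, degree_eq_natDegree h] at *
      have h3 : ((P j : K[X]).natDegree : WithBot ℕ) < m := h1
      rcases eq_or_ne (E j) 0 with h0 | h0
      · rw [h0, degree_zero]
        simp
      · rw [degree_eq_natDegree h0] at h2 ⊢
        have h4 : (P j : K[X]).natDegree < m := by exact_mod_cast h3
        have h5 : (E j).natDegree ≤ N := hE j
        have : (P j : K[X]).natDegree + (E j).natDegree < m + N := by omega
        exact_mod_cast this⟩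
  map_add' P Q := by
    apply Subtype.ext
    simp [add_mul, Finset.sum_add_distrib]
  map_smul' c P := by
    apply Subtype.ext
    simp [Finset.smul_sum]

lemma le_finrank (E : Fin k → K[X]) (m N : ℕ) (hE : ∀ j, (E j).natDegree ≤ N) :
    k * m ≤ Module.finrank K (S E m) + (m + N) := by
  have h1 := LinearMap.finrank_range_add_finrank_ker (ev E m N hE)
  have h2 : Module.finrank K (Fin k → degreeLT K m) = k * m := by
    rw [Module.finrank_pi_fintype]
    simp [finrank_degreeLT]
  have h3 : Module.finrank K (LinearMap.range (ev E m N hE)) ≤ m + N := by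
    refine (Submodule.finrank_le _).trans ?_
    rw [finrank_degreeLT]
  have h4 : Module.finrank K (LinearMap.ker (ev E m N hE)) ≤ Module.finrank K (S E m) := by
    let g : LinearMap.ker (ev E m N hE) →ₗ[K] S E m :=
      { toFun := fun P => ⟨fun j => (P.1 j : K[X]), fun j => (P.1 j).2, by
          have := congrArg Subtype.val (LinearMap.mem_ker.1 P.2)
          exact this⟩
        map_add' := fun _ _ => rfl
        map_smul' := fun _ _ => rfl }
    refine LinearMap.finrank_le_finrank_of_injective (f := g) ?_
    intro P Q h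
    apply Subtype.ext
    funext j
    apply Subtype.ext
    exact congrFun (congrArg Subtype.val h) j
  omega

/-- Vectors with independent top coefficients are independent. -/
lemma indep_of_coeff {r m : ℕ} (P : Fin r → (Fin k → K[X]))
    (hP : ∀ s j, (P s j).natDegree ≤ m)
    (h : LinearIndependent K (fun s => fun j => (P s j).coeff m)) :
    LinearIndependent K[X] P := by
  rw [Fintype.linearIndependent_iff]
  intro g hg
  have hg' : ∀ j, ∑ s, g s * P s j = 0 := by
    intro j
    have := congrFun hg j
    simpa using this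
  have key : ∀ d : ℕ, (∀ s, (g s).natDegree ≤ d) → ∀ s, (g s).coeff d = 0 := by
    intro d hd
    refine Fintype.linearIndependent_iff.1 h (fun s => (g s).coeff d) ?_
    funext j
    have h1 := congrArg (fun q => q.coeff (d + m)) (hg' j)
    simp only [finsetSum_coeff, coeff_zero] at h1
    rw [Finset.sum_congr rfl (fun s _ => coeff_mul_add_eq_of_natDegree_le (hd s) (hP s j))] at h1
    simpa using h1
  have main : ∀ d : ℕ, (∀ s, (g s).natDegree ≤ d) → ∀ s, g s = 0 := by
    intro d
    induction d with
    | zero =>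
      intro hd s
      rw [eq_C_of_natDegree_le_zero (hd s), key 0 hd s, C_0]
    | succ d ih =>
      intro hd
      refine ih fun s => ?_
      have h1 := key (d + 1) hd s
      rw [natDegree_le_iff_coeff_eq_zero]
      intro n hn
      rcases Nat.lt_or_ge (d + 1) n with h2 | h2
      · exact coeff_eq_zero_of_natDegree_lt ((hd s).trans_lt h2)
      · obtain rfl : n = d + 1 := by omega
        exact h1
  exact main (Finset.univ.sup fun s => (g s).natDegree)
    fun s => Finset.le_sup (f := fun s => (g s).natDegree) (Finset.mem_univ s)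

/-- There are `r` independent syzygies of degree at most `m`. -/
def Ind (E : Fin k → K[X]) (m r : ℕ) : Prop :=
  ∃ v : Fin r → (Fin k → K[X]), LinearIndependent K[X] v ∧ ∀ s, v s ∈ S E (m + 1)

lemma Ind.mono_m {E : Fin k → K[X]} {m n r : ℕ} (h : Ind E m r) (hmn : m ≤ n) : Ind E n r := by
  obtain ⟨v, h1, h2⟩ := h
  exact ⟨v, h1, fun s => S_mono E (by omega) (h2 s)⟩

lemma Ind.mono_r {E : Fin k → K[X]} {m r r' : ℕ} (h : Ind E m r) (hr : r' ≤ r) :
    Ind E m r' := by
  obtain ⟨v, h1, h2⟩ := h
  exact ⟨v ∘ Fin.castLE hr, h1.comp _ (Fin.castLE_injective hr), fun s => h2 _⟩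

lemma ind_zero (E : Fin k → K[X]) (m : ℕ) : Ind E m 0 :=
  ⟨fun s => s.elim0, linearIndependent_empty_type, fun s => s.elim0⟩

lemma Ind.lt {E : Fin k → K[X]} (hE : E ≠ 0) {m r : ℕ} (h : Ind E m r) : r < k := by
  by_contra hc
  push Not at hc
  obtain ⟨v, h1, h2⟩ := h.mono_r hc
  let M : Matrix (Fin k) (Fin k) K[X] := Matrix.of v
  have h3 : M.mulVec E = 0 := by
    funext s
    exact (h2 s).2
  have h4 : M.det = 0 := Matrix.exists_mulVec_eq_zero_iff.1 ⟨E, hE, h3⟩
  obtain ⟨w, hw, hw2⟩ := Matrix.exists_vecMul_eq_zero_iff.2 h4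
  apply hw
  funext s
  refine Fintype.linearIndependent_iff.1 h1 w ?_ s
  funext j
  have := congrFun hw2 j
  simpa [Matrix.vecMul, dotProduct, M] using this

/-- The top coefficient map. -/
def lc (E : Fin k → K[X]) (m : ℕ) : S E (m + 1) →ₗ[K] (Fin k → K) where
  toFun P := fun j => (P.1 j).coeff m
  map_add' P Q := by
    funext j
    simp
  map_smul' c P := by
    funext j
    simp

lemma mem_of_lc {E : Fin k → K[X]} {m : ℕ} (P : S E (m + 1)) (h : lc E m P = 0) :
    (P : Fin k → K[X]) ∈ S E m := by
  refine ⟨fun j => ?_, P.2.2⟩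
  have h3 : ((P : Fin k → K[X]) j).coeff m = 0 := congrFun h j
  have h4 := P.2.1 j
  rw [mem_degreeLT, degree_lt_iff_coeff_zero] at h4 ⊢
  intro n hn
  rcases Nat.lt_or_ge m n with h5 | h5
  · exact h4 n h5
  · obtain rfl : n = m := by omega
    exact h3

lemma finrank_ker_le (E : Fin k → K[X]) (m : ℕ) :
    Module.finrank K (LinearMap.ker (lc E m)) ≤ Module.finrank K (S E m) := by
  have h1 : (LinearMap.ker (lc E m)).map (S E (m + 1)).subtype ≤ S E m := by
    rintro _ ⟨P, hP, rfl⟩
    exact mem_of_lc P (LinearMap.mem_ker.1 hP)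
  have h2 := Submodule.finrank_mono h1
  rwa [Submodule.finrank_map_subtype_eq] at h2

lemma ind_range (E : Fin k → K[X]) (m : ℕ) :
    Ind E m (Module.finrank K (LinearMap.range (lc E m))) := by
  have h1 : ∀ s, ∃ P : S E (m + 1),
      lc E m P = (Module.finBasis K (LinearMap.range (lc E m)) s : Fin k → K) :=
    fun s => (Module.finBasis K (LinearMap.range (lc E m)) s).2
  choose P hP using h1
  refine ⟨fun s => (P s).1, indep_of_coeff (m := m) _ (fun s j => natDegree_le ((P s).2.1 j)) ?_,
    fun s => (P s).2⟩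
  have h2 : (fun s => fun j => ((P s).1 j).coeff m) =
      fun s => (Module.finBasis K (LinearMap.range (lc E m)) s : Fin k → K) := by
    funext s
    exact hP s
  rw [h2]
  exact (Module.finBasis K (LinearMap.range (lc E m))).linearIndependent.map'
    (LinearMap.range (lc E m)).subtype (Submodule.ker_subtype _)

lemma finrank_succ_le (E : Fin k → K[X]) (m : ℕ) :
    ∃ r, Ind E m r ∧ Module.finrank K (S E (m + 1)) ≤ Module.finrank K (S E m) + r := by
  refine ⟨Module.finrank K (LinearMap.range (lc E m)), ind_range E m, ?_⟩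
  have h1 := LinearMap.finrank_range_add_finrank_ker (lc E m)
  have h2 := finrank_ker_le E m
  omega

end Minima

open Minima Classical in
/-- Successive minima of the syzygies of polynomials of degree at most `N`. -/
theorem exists_minima {K : Type*} [Field K] {k : ℕ} (E : Fin k → K[X]) (hE0 : E ≠ 0) (N : ℕ)
    (hE : ∀ j, (E j).natDegree ≤ N) :
    ∃ L : Fin (k - 1) → ℕ, Monotone L ∧ ∑ i, L i ≤ N ∧
      ∀ i : Fin (k - 1), ∃ P : Fin (i + 1) → (Fin k → K[X]), LinearIndependent K[X] P ∧
        ∀ s, (∀ j, (P s j).natDegree ≤ L i) ∧ ∑ j, P s j * E j = 0 := by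
  choose ρ hρ hρ2 using finrank_succ_le E
  have hlt : ∀ m, ρ m < k := fun m => (hρ m).lt hE0
  have h1 : ∀ M, Module.finrank K (S E M) ≤ ∑ i ∈ Finset.range M, ρ i := by
    intro M
    induction M with
    | zero =>
      have h2 := LinearMap.finrank_le_finrank_of_injective (emb_injective E 0)
      have h3 : Module.finrank K (Fin k → degreeLT K 0) = 0 := by
        rw [Module.finrank_pi_fintype]
        simp [finrank_degreeLT]
      simp only [Finset.range_zero, Finset.sum_empty]
      omega
    | succ M ih =>
      rw [Finset.sum_range_succ]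
      have := hρ2 M
      omega
  have h2 := le_finrank E (N + 1) N hE
  have h3 := h1 (N + 1)
  have h4 : ∑ i ∈ Finset.range (N + 1), (k - 1 - ρ i) ≤ N := by
    have h5 : ∑ i ∈ Finset.range (N + 1), (k - 1 - ρ i) + ∑ i ∈ Finset.range (N + 1), ρ i =
        (N + 1) * (k - 1) := by
      rw [← Finset.sum_add_distrib, Finset.sum_congr rfl (g := fun _ => k - 1)
        (fun i _ => by have := hlt i; omega)]
      simp
    have h6 : k * (N + 1) = (N + 1) * (k - 1) + (N + 1) := by
      have : k = (k - 1) + 1 := by have := hlt 0; omega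
      conv_lhs => rw [this]
      ring
    omega
  have h5 : Ind E N (k - 1) := by
    by_contra hc
    have h6 : ∀ i ∈ Finset.range (N + 1), 1 ≤ k - 1 - ρ i := by
      intro i hi
      have h7 : ρ i ≠ k - 1 := by
        intro h8
        exact hc ((h8 ▸ hρ i).mono_m (by have := Finset.mem_range.1 hi; omega))
      have := hlt i
      omega
    have h7 := Finset.sum_le_sum h6
    simp at h7
    omega
  have hex : ∀ i : Fin (k - 1), ∃ m, Ind E m (i + 1) := fun i =>
    ⟨N, h5.mono_r (by have := i.isLt; omega)⟩
  refine ⟨fun i => Nat.find (hex i), ?_, ?_, ?_⟩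
  · intro i i' hii
    refine Nat.find_min' _ ?_
    exact (Nat.find_spec (hex i')).mono_r (by have : (i : ℕ) ≤ i' := hii; omega)
  · have h6 : ∀ i : Fin (k - 1), Nat.find (hex i) =
        ∑ m ∈ Finset.range (N + 1), if m < Nat.find (hex i) then 1 else 0 := by
      intro i
      have h7 : Nat.find (hex i) ≤ N :=
        Nat.find_min' _ (h5.mono_r (by have := i.isLt; omega))
      rw [Finset.sum_ite, Finset.sum_const_zero, add_zero, Finset.sum_const, smul_eq_mul, mul_one]
      have h8 : (Finset.range (N + 1)).filter (fun m => m < Nat.find (hex i)) =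
          Finset.range (Nat.find (hex i)) := by
        ext m
        simp only [Finset.mem_filter, Finset.mem_range]
        constructor
        · exact fun h => h.2
        · intro h
          exact ⟨by omega, h⟩
      rw [h8, Finset.card_range]
    rw [Finset.sum_congr rfl (fun i _ => h6 i), Finset.sum_comm]
    refine (Finset.sum_le_sum fun m _ => ?_).trans h4
    rw [Finset.sum_ite, Finset.sum_const_zero, add_zero, Finset.sum_const, smul_eq_mul, mul_one]
    have h7 : (Finset.univ.filter fun i : Fin (k - 1) => m < Nat.find (hex i)).card ≤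
        (Finset.Ico (ρ m) (k - 1)).card := by
      refine Finset.card_le_card_of_injOn (fun i => (i : ℕ)) ?_ ?_
      · intro i hi
        have hi' : m < Nat.find (hex i) := by simpa using hi
        have h8 : ¬ Ind E m (i + 1) := Nat.find_min (hex i) hi'
        simp only [Finset.coe_Ico, Set.mem_Ico]
        refine ⟨?_, i.isLt⟩
        by_contra h9
        exact h8 ((hρ m).mono_r (by omega))
      · intro i _ i' _ h
        exact Fin.ext h
    rwa [Nat.card_Ico] at h7
  · intro i
    obtain ⟨v, hv, hv2⟩ := Nat.find_spec (hex i)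
    exact ⟨v, hv, fun s => ⟨fun j => natDegree_le ((hv2 s).1 j), (hv2 s).2⟩⟩

end Pool.Agent.SkolemFm
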