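import Pool.Agent.Work.MP_8d13b5_lc.Fm.Stmts
import Pool.Agent.Work.MP_8d13b5_lc.Fm.Minima

/-! Item MIN of the block Fm: successive minima of the syzygies. -/

set_option autoImplicit false

namespace Pool.Agent.Work.MP_8d13b5_lc.Fm

open Polynomial NumberField Finset Module

theorem prMIN : StMIN := by
  intro F _ m N E hE0 hE
  obtain ⟨ℓ, h1, h2, h3⟩ := Pool.Agent.SkolemFm.exists_minima E hE0 N hE
  refine ⟨ℓ, h1, h2, fun i => ?_⟩
  obtain ⟨P, hP, hP2⟩ := h3 i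
  exact ⟨P, hP, fun s j => (hP2 s).1 j, fun s => (hP2 s).2⟩

end Pool.Agent.Work.MP_8d13b5_lc.Fm
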