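import Pool.Agent.Work.MP_8d13b5_lc.Fm.Stmts

set_option autoImplicit false

namespace Pool.Agent.Work.MP_8d13b5_lc.Fm

open Polynomial NumberField Finset Module

namespace ORD

/-- the degree of a determinant with row bounds -/
theorem natDegree_det_le {F : Type} [Field F] {m : ℕ} (M : Fin m → Fin m → F[X]) (d : Fin m → ℕ)
    (h : ∀ i j, (M i j).natDegree ≤ d i) : (Matrix.of M).det.natDegree ≤ ∑ i, d i := by
  rw [Matrix.det_apply]
  refine natDegree_sum_le_of_forall_le _ _ fun σ _ => ?_
  have h1 : (∏ i, (Matrix.of M) (σ i) i).natDegree ≤ ∑ i, d i := by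
    refine (natDegree_prod_le _ _).trans ?_
    refine (sum_le_sum fun i _ => h (σ i) i).trans ?_
    exact (Equiv.sum_comp σ d).le
  rcases Int.units_eq_one_or (Equiv.Perm.sign σ) with hs | hs
  · rw [hs, one_smul]
    exact h1
  · rw [hs]
    rw [Units.neg_smul, one_smul, natDegree_neg]
    exact h1

/-- the divided derivative of the order of vanishing is not zero -/
theorem hasse_ne {F : Type} [Field F] (c G : F[X]) (t₀ : F) (hc : c ≠ 0) (hG : G.eval t₀ ≠ 0) :
    (hasseDeriv (rootMultiplicity t₀ c) (c * G)).eval t₀ ≠ 0 := by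
  obtain ⟨c', hc', h2⟩ := exists_eq_pow_rootMultiplicity_mul_and_not_dvd c hc t₀
  set R := rootMultiplicity t₀ c with hR
  have h3 : c'.eval t₀ ≠ 0 := fun h => h2 (dvd_iff_isRoot.2 h)
  rw [← taylor_coeff]
  have h4 : taylor t₀ (c * G) = X ^ R * taylor t₀ (c' * G) := by
    rw [hc', mul_assoc, taylor_mul, taylor_pow, map_sub, taylor_X, taylor_C]
    congr 1
    ring
  rw [h4, coeff_X_pow_mul', if_pos le_rfl, Nat.sub_self, taylor_coeff_zero, eval_mul]
  exact mul_ne_zero h3 hG

end ORD

theorem prORD (hCRA : StCRA) (hHDM : StHDM) : StORD := by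
  intro F _ m N E A Q d t₀ hN hAE hQ hQE hd hE
  have hE0 : E ≠ 0 := by
    intro h
    apply hE 0
    rw [h]
    simp
  obtain ⟨⟨j0, hj0⟩, hcr⟩ := hCRA F[X] m E Q hE0 hQ hQE
  set c : F[X] := ∑ j, A j * mnr Q j with hcdef
  have hc1 : ∀ i, mnr Q i = c * E i := by
    intro i
    calc mnr Q i = (∑ j, A j * E j) * mnr Q i := by rw [hAE, one_mul]
      _ = ∑ j, A j * (E j * mnr Q i) := by
        rw [sum_mul]
        exact sum_congr rfl fun j _ => mul_assoc _ _ _
      _ = ∑ j, A j * (E i * mnr Q j) := sum_congr rfl fun j _ => by rw [hcr i j]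
      _ = c * E i := by
        rw [hcdef, sum_mul]
        exact sum_congr rfl fun j _ => by ring
  have hc0 : c ≠ 0 := by
    intro h
    apply hj0
    rw [hc1 j0, h, zero_mul]
  have hdet : (Matrix.of fun i l => Q i (Fin.succ l) * E (Fin.succ l)).det = c * ∏ j, E j := by
    have h1 : (Matrix.of fun i l => Q i (Fin.succ l) * E (Fin.succ l)).det =
        (∏ l : Fin m, E (Fin.succ l)) * (Matrix.of fun i l => Q i (Fin.succ l)).det := by
      rw [← Matrix.det_mul_row]
      congr 1
      ext1 i l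
      simp only [Matrix.of_apply]
      exact mul_comm _ _
    have h2 : mnr Q 0 = (Matrix.of fun i l => Q i (Fin.succ l)).det := by
      unfold mnr
      simp only [Fin.val_zero, pow_zero, one_mul, Fin.zero_succAbove]
    rw [h1, ← h2, hc1 0, Fin.prod_univ_succ]
    ring
  have hG : (∏ j, E j).eval t₀ ≠ 0 := by
    rw [eval_prod]
    exact prod_ne_zero_iff.2 fun j _ => hE j
  have hR := ORD.hasse_ne c (∏ j, E j) t₀ hc0 hG
  rw [← hdet] at hR
  obtain ⟨r, hr1, hr2⟩ := hHDM F m (rootMultiplicity t₀ c)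
    (fun i l => Q i (Fin.succ l) * E (Fin.succ l)) t₀ hR
  refine ⟨r, ?_, ?_⟩
  · obtain ⟨j, hj⟩ := hN
    have hEj : E j ≠ 0 := fun h => hE j (by rw [h, eval_zero])
    have h1 : (mnr Q j).natDegree ≤ ∑ i, d i := by
      unfold mnr
      have h2 := ORD.natDegree_det_le (fun i l => Q i (j.succAbove l)) d fun i l => hd i _
      rcases Nat.even_or_odd (j : ℕ) with he | ho
      · rw [he.neg_one_pow, one_mul]
        exact h2
      · rw [ho.neg_one_pow, neg_one_mul, natDegree_neg]
        exact h2
    have h2 : (mnr Q j).natDegree = c.natDegree + (E j).natDegree := by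
      rw [hc1 j, natDegree_mul hc0 hEj]
    have h3 : rootMultiplicity t₀ c ≤ c.natDegree := by
      classical
      rw [← count_roots]
      exact (Multiset.count_le_card t₀ c.roots).trans (card_roots' c)
    omega
  · have h1 := Matrix.linearIndependent_rows_of_det_ne_zero hr2
    refine LinearIndependent.of_comp (LinearMap.funLeft F F (Fin.succ : Fin m → Fin (m + 1))) ?_
    exact h1

end Pool.Agent.Work.MP_8d13b5_lc.Fm
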