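import Pool.Agent.Work.MP_8d13b5_lc.Fm.Stmts

set_option autoImplicit false

/-! Block `Fm`, item PAR: existence of the parts. -/

namespace Pool.Agent.Work.MP_8d13b5_lc.Fm

open Polynomial NumberField Finset Module

namespace PAR

variable {K : Type} [Field K] {m : ℕ}

/-- the sequences with given initial values -/
noncomputable def sq (f : Fin (m + 1) → K[X]) (v : (Σ j : Fin (m + 1), Fin (f j).natDegree) → K)
    (j : Fin (m + 1)) (n : ℕ) : K := ∑ c : Fin (f j).natDegree, Pd.cf (f j) n c * v ⟨j, c⟩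

/-- extension of the initial values by zero -/
noncomputable def ex (f : Fin (m + 1) → K[X]) (v : (Σ j : Fin (m + 1), Fin (f j).natDegree) → K)
    (j : Fin (m + 1)) (c : ℕ) : K := if h : c < (f j).natDegree then v ⟨j, ⟨c, h⟩⟩ else 0

theorem sq_eq (f : Fin (m + 1) → K[X]) (v : (Σ j : Fin (m + 1), Fin (f j).natDegree) → K)
    (j : Fin (m + 1)) (n : ℕ) :
    sq f v j n = ∑ c ∈ range (f j).natDegree, Pd.cf (f j) n c * ex f v j c := by
  rw [Finset.sum_range]
  refine sum_congr rfl fun c _ => ?_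
  rw [ex, dif_pos c.2]

theorem sol (f : Fin (m + 1) → K[X]) (hf : ∀ j, (f j).Monic)
    (v : (Σ j : Fin (m + 1), Fin (f j).natDegree) → K) (j : Fin (m + 1)) :
    Pd.Sol (f j) (sq f v j) := by
  have h := Pd.sol_of_init (hf j) (ex f v j)
  have e : sq f v j = fun n => ∑ c ∈ range (f j).natDegree, Pd.cf (f j) n c * ex f v j c :=
    funext (sq_eq f v j)
  rwa [e]

theorem init (f : Fin (m + 1) → K[X]) (hf : ∀ j, (f j).Monic)
    (v : (Σ j : Fin (m + 1), Fin (f j).natDegree) → K) (j : Fin (m + 1))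
    (c : Fin (f j).natDegree) : sq f v j c = v ⟨j, c⟩ := by
  rw [sq_eq, Pd.init_of_init (hf j) _ c.2, ex, dif_pos c.2]

/-- the linear map from the initial values of the parts to those of the sum -/
noncomputable def T (f : Fin (m + 1) → K[X]) (β : Fin (m + 1) → K) (d : ℕ) :
    ((Σ j : Fin (m + 1), Fin (f j).natDegree) → K) →ₗ[K] (Fin d → K) where
  toFun v i := ∑ j, β j ^ (i : ℕ) * sq f v j i
  map_add' v w := by
    funext i
    simp only [sq, Pi.add_apply, mul_add, sum_add_distrib]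
  map_smul' a v := by
    funext i
    simp only [sq, Pi.smul_apply, smul_eq_mul, RingHom.id_apply, mul_sum]
    refine sum_congr rfl fun j _ => sum_congr rfl fun c _ => by ring

theorem monic (f : Fin (m + 1) → K[X]) (hf : ∀ j, (f j).Monic) (β : Fin (m + 1) → K) :
    (∏ j, (f j).scaleRoots (β j)).Monic :=
  monic_prod_of_monic _ _ fun j _ => Pd.monic_scaleRoots (hf j) (β j)

theorem natDegree (f : Fin (m + 1) → K[X]) (hf : ∀ j, (f j).Monic) (β : Fin (m + 1) → K) :
    (∏ j, (f j).scaleRoots (β j)).natDegree = ∑ j, (f j).natDegree := by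
  rw [natDegree_prod_of_monic _ _ fun j _ => Pd.monic_scaleRoots (hf j) (β j)]
  exact sum_congr rfl fun j _ => natDegree_scaleRoots _ _

theorem sumSol (f : Fin (m + 1) → K[X]) (β : Fin (m + 1) → K) (s : Fin (m + 1) → ℕ → K)
    (hs : ∀ j, Pd.Sol (f j) (s j)) :
    Pd.Sol (∏ j, (f j).scaleRoots (β j)) (fun n => ∑ j, β j ^ n * s j n) := by
  refine Pd.Sol.sum univ fun j _ => ?_
  obtain ⟨Q, hQ⟩ := Finset.dvd_prod_of_mem (fun j => (f j).scaleRoots (β j)) (mem_univ j)
  rw [hQ]
  exact ((hs j).scale (β j)).mul_right Q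

end PAR

theorem prPAR : StPAR := by
  intro K _ m f β hf hinj y hy
  have hP := PAR.monic f hf β
  have hd := PAR.natDegree f hf β
  have hT : Function.Injective (PAR.T f β (∑ j, (f j).natDegree)) := by
    rw [← LinearMap.ker_eq_bot, LinearMap.ker_eq_bot']
    intro v hv
    have h1 := PAR.sol f hf v
    have h2 : ∀ n, ∑ j, β j ^ n * PAR.sq f v j n = 0 := by
      intro n
      refine (PAR.sumSol f β _ h1).eq_zero hP (fun i hi => ?_) n
      rw [hd] at hi
      exact congrFun hv ⟨i, hi⟩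
    have h3 := hinj _ h1 h2
    funext ⟨j, c⟩
    rw [← PAR.init f hf v j c]
    exact h3 j c
  have hs : Function.Surjective (PAR.T f β (∑ j, (f j).natDegree)) := by
    refine (LinearMap.injective_iff_surjective_of_finrank_eq_finrank ?_).1 hT
    simp [Fintype.card_sigma]
  obtain ⟨v, hv⟩ := hs fun i => y i
  refine ⟨PAR.sq f v, PAR.sol f hf v, fun n => ?_⟩
  refine Pd.Sol.ext hP hy (PAR.sumSol f β _ (PAR.sol f hf v)) (fun i hi => ?_) n
  rw [hd] at hi
  exact (congrFun hv ⟨i, hi⟩).symm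

end Pool.Agent.Work.MP_8d13b5_lc.Fm
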