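import Pool.Agent.Work.MP_8d13b5_lc.Fm.Fin

/-! Item PB of the block Fm: parts and zeros. -/

set_option autoImplicit false

namespace Pool.Agent.Work.MP_8d13b5_lc.Fm

open Polynomial NumberField Finset Module

namespace PB

lemma rec_iff {A B : Type} [CommRing A] [CommRing B] [Nontrivial B] (ψ : A →+* B) {f : A[X]}
    (hf : f.Monic) (s : ℕ → B) : Rec ψ f s ↔ Pd.Sol (f.map ψ) s := by
  unfold Rec Pd.Sol
  simp only [hf.natDegree_map, coeff_map]

lemma monic_poly {A : Type} [CommRing A] {m : ℕ} (e : ℕ) (lam f : Fin (m + 1) → A[X]) (x y : A)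
    (hf : ∀ j, (f j).Monic) : (poly e lam f x y).Monic :=
  monic_prod_of_monic _ _ fun j _ => Pd.monic_scaleRoots (hf j) _

lemma map_poly {A B : Type} [CommRing A] [CommRing B] [Nontrivial B] (ψ : A →+* B) {m : ℕ} (e : ℕ)
    (lam f : Fin (m + 1) → A[X]) (x y : A) (hf : ∀ j, (f j).Monic) :
    (poly e lam f x y).map ψ = ∏ j, ((f j).map ψ).scaleRoots (ψ (hev e (lam j) x y)) := by
  unfold poly
  rw [Polynomial.map_prod]
  refine prod_congr rfl fun j _ => ?_
  rw [map_scaleRoots]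
  rw [(hf j).leadingCoeff, map_one]
  exact one_ne_zero

end PB

open PB in
theorem prPB (hNVF : StNVF) (hKER : StKER) (hPAR : StPAR) (hSEQ : StSEQ) : StPB := by
  intro K _ _ m e ν lam f hm hfam hf
  obtain ⟨Ts, c, hTs, hS⟩ := hSEQ K m e ν lam f hm hfam hf
  obtain ⟨Tk, -, hK⟩ := hKER K m e lam f hm hfam hf
  choose T₁ hT₁ using fun j => hNVF K e (lam j) (hfam.ne j) (hfam.deg j)
  have hfm : ∀ j, ((f j).map (algebraMap (𝓞 K) K)).Monic := fun j => (hf j).1.map _
  refine ⟨max Ts (max Tk (1 + ∑ j, |T₁ j|)), c, hTs.trans (le_max_left _ _), ?_⟩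
  intro x y hxy hT hν
  have hT1 : Ts ≤ TT x y := (le_max_left _ _).trans hT
  have hT2 : Tk ≤ TT x y := (le_max_left _ _).trans ((le_max_right _ _).trans hT)
  have hT3 : 1 + ∑ j, |T₁ j| ≤ TT x y := (le_max_right _ _).trans ((le_max_right _ _).trans hT)
  have hne : ∀ j, hev e (lam j) x y ≠ 0 := by
    intro j
    refine hT₁ j x y hxy ?_
    have h1 : |T₁ j| ≤ ∑ j, |T₁ j| :=
      single_le_sum (f := fun j => |T₁ j|) (fun _ _ => abs_nonneg _) (mem_univ j)
    have h2 := le_abs_self (T₁ j)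
    linarith
  have hker := hK x y hxy hne hT2
  refine ⟨fun z hz => ?_, ?_⟩
  · have hz' : Pd.Sol (∏ j, ((f j).map (algebraMap (𝓞 K) K)).scaleRoots
        ((hev e (lam j) x y : 𝓞 K) : K)) z := by
      rw [rec_iff _ (monic_poly e lam f x y fun j => (hf j).1),
        map_poly _ e lam f x y fun j => (hf j).1] at hz
      exact hz
    obtain ⟨s, hs, hzs⟩ := hPAR K m (fun j => (f j).map (algebraMap (𝓞 K) K))
      (fun j => ((hev e (lam j) x y : 𝓞 K) : K)) hfm hker z hz'
    refine ⟨s, ⟨fun j => (rec_iff _ (hf j).1 _).2 (hs j), hzs⟩, ?_⟩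
    rintro s' ⟨hs', hzs'⟩
    have h1 := hker (fun j n => s' j n - s j n)
      (fun j => ((rec_iff _ (hf j).1 _).1 (hs' j)).sub (hs j)) (fun n => by
        have h2 := hzs n
        have h3 := hzs' n
        simp only [mul_sub, sum_sub_distrib]
        rw [← h3]
        exact sub_eq_zero.2 h2)
    funext j n
    exact sub_eq_zero.1 (h1 j n)
  · rintro z s B ⟨hs, hzs⟩ hB hBz n hn hz
    exact hS x y hxy hne hT1 hν s z B hB (fun j => (rec_iff _ (hf j).1 _).1 (hs j)) hzs hBz n hn hz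

end Pool.Agent.Work.MP_8d13b5_lc.Fm
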