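import Pool.Agent.Work.MP_8d13b5_lc.Fm.Fin

set_option autoImplicit false

/-! The decision procedure for the classes given by a family of forms. -/

namespace Pool.Agent.Work.MP_8d13b5_lc.Fm

open Polynomial NumberField Finset Module

namespace PC

/-- a bound for the least zero -/
def bd (N c d : ℕ) (x : (List ℤ × List ℤ) × ℕ) : ℕ :=
  N * (c * (N * (d + 1) * (Pd.size x.1 + 3) + 1) + x.2 + 2) + N

theorem primrec_bd (N c d : ℕ) : Primrec (bd N c d) := by
  have hs : Primrec (fun x : (List ℤ × List ℤ) × ℕ => Pd.size x.1) :=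
    Pd.primrec_size.comp Primrec.fst
  have h1 : Primrec (fun x : (List ℤ × List ℤ) × ℕ => N * (d + 1) * (Pd.size x.1 + 3)) :=
    Primrec.nat_mul.comp (Primrec.const _) (Primrec.nat_add.comp hs (Primrec.const 3))
  have h2 : Primrec (fun x : (List ℤ × List ℤ) × ℕ =>
      c * (N * (d + 1) * (Pd.size x.1 + 3) + 1)) :=
    Primrec.nat_mul.comp (Primrec.const _) (Primrec.nat_add.comp h1 (Primrec.const 1))
  have h3 : Primrec (fun x : (List ℤ × List ℤ) × ℕ =>
      c * (N * (d + 1) * (Pd.size x.1 + 3) + 1) + x.2 + 2) :=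
    Primrec.nat_add.comp (Primrec.nat_add.comp h2 Primrec.snd) (Primrec.const 2)
  exact Primrec.nat_add.comp (Primrec.nat_mul.comp (Primrec.const N) h3) (Primrec.const N)

/-- the bound for the initial values of a subsequence -/
theorem val_le {p : List ℤ × List ℤ} {u : ℕ → ℤ} (hu : Pd.IsSeq p u) {N q i d : ℕ} (hq : q < N)
    (hi : i < d) : ((u (q + N * i)).natAbs : ℝ) ≤ 2 ^ (N * (d + 1) * Pd.lsize p) := by
  have h1 := Pd.val_bound hu (q + N * i)
  have h2 : 1 ≤ Pd.size p := Pd.size_pos hu.2.1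
  have h3 : q + N * i + 1 ≤ N * (d + 1) := by
    have : N * (i + 1) ≤ N * (d + 1) := Nat.mul_le_mul_left _ (by omega)
    have e : N * (i + 1) = N * i + N := by ring
    omega
  have h4 : (u (q + N * i)).natAbs ≤ 2 ^ (N * (d + 1) * Pd.lsize p) := by
    calc (u (q + N * i)).natAbs ≤ Pd.size p ^ (q + N * i + 1) := h1
      _ ≤ Pd.size p ^ (N * (d + 1)) := Nat.pow_le_pow_right h2 h3
      _ ≤ (2 ^ Pd.lsize p) ^ (N * (d + 1)) := Nat.pow_le_pow_left (Pd.size_le p) _
      _ = 2 ^ (N * (d + 1) * Pd.lsize p) := by rw [← pow_mul, mul_comm]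
  exact_mod_cast h4

end PC

theorem prPC (hPB : StPB) (hINT : StINT) (hDEC : StDEC) : StPC := by
  intro K _ _ m e N lam f hm hN hfam hf
  obtain ⟨T₀', c, hT₀', hPB'⟩ := hPB K m e 1 lam f hm hfam hf
  set d := ∑ j, (f j).natDegree with hd
  set D := finrank ℚ K with hD
  have hD1 : 1 ≤ D := finrank_pos
  refine ⟨max 2 ⌈T₀'⌉₊, ?_⟩
  set T₀ := max 2 ⌈T₀'⌉₊ with hT₀
  refine hDEC (PC.bd N c d) (PC.primrec_bd N c d) (fun B _ u => InClass e lam f N T₀ B u) ?_
  rintro B p u hu ⟨x, y, hxy, hT, hcl⟩ ⟨n, hn⟩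
  obtain ⟨i1, i2, i3, -⟩ := hINT K x y
  set T := mx x y with hTdef
  have hT2 : 2 ≤ T := (le_max_left _ _).trans hT
  have hT2r : (2 : ℝ) ≤ T := by exact_mod_cast hT2
  have hTT' : T₀' ≤ (T : ℝ) := by
    have h1 : ⌈T₀'⌉₊ ≤ T := (le_max_right _ _).trans hT
    exact (Nat.le_ceil _).trans (by exact_mod_cast h1)
  have hTD : (T : ℝ) ≤ (T : ℝ) ^ D := le_self_pow₀ (by linarith) (by omega)
  have hTD2 : (2 : ℝ) ≤ (T : ℝ) ^ D := hT2r.trans hTD
  obtain ⟨-, hz⟩ := hPB' (x : 𝓞 K) (y : 𝓞 K) (i3 hxy) (by rw [i2]; exact hTT'.trans hTD)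
    (fun φ => by rw [i1, i2, pow_one]; exact hTD)
  rw [i2] at hz
  set q := n % N with hq
  have hqN : q < N := Nat.mod_lt _ (by omega)
  have hnq : n = q + N * (n / N) := (Nat.mod_add_div n N).symm
  set n' := n / N with hn'
  set L := N * (d + 1) * Pd.lsize p with hL
  have hLs : L ≤ N * (d + 1) * (Pd.size p + 3) := Nat.mul_le_mul_left _ (Pd.lsize_le p)
  obtain ⟨s, hs, hs'⟩ := hcl q hqN
  by_cases hbig : c * (L + 1) < n' ∧ B ≤ n'
  · -- then the class says that `u q = 0`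
    rcases hs' with h0 | ⟨j, hj⟩
    · refine ⟨q, ?_, ?_⟩
      · show q < PC.bd N c d (p, B)
        unfold PC.bd
        omega
      · have h2 : (u (q + N * 0) : K) = 0 :=
          (hs.2 0).trans (sum_eq_zero fun j _ => by rw [h0 j 0, mul_zero])
        rw [mul_zero, add_zero] at h2
        exact_mod_cast h2
    · exfalso
      have hparts : Parts e lam f (x : 𝓞 K) (y : 𝓞 K)
          (fun n => (((u (q + N * n) : ℤ) : 𝓞 K) : K)) s := by
        refine ⟨hs.1, fun n => ?_⟩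
        rw [← hs.2 n]
        exact map_intCast (algebraMap (𝓞 K) K) _
      refine hj n' hbig.2 (hz (fun n => ((u (q + N * n) : ℤ) : 𝓞 K)) s (2 ^ L) hparts
        (one_le_pow₀ (by norm_num)) ?_ n' ?_ ?_ j)
      · intro φ i hi
        have e1 : res φ ((u (q + N * i) : ℤ) : 𝓞 K) = ((u (q + N * i) : ℤ) : ℂ) :=
          map_intCast (res φ) _
        show ‖res φ ((u (q + N * i) : ℤ) : 𝓞 K)‖ ≤ 2 ^ L
        rw [e1, Complex.norm_intCast]
        have e2 : |((u (q + N * i) : ℤ) : ℝ)| = ((u (q + N * i)).natAbs : ℝ) := by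
          rw [Nat.cast_natAbs, Int.cast_abs]
        rw [e2]
        exact PC.val_le hu hqN hi
      · have h3 : (2 : ℝ) ^ L * (T : ℝ) ^ D ≤ ((T : ℝ) ^ D) ^ (L + 1) := by
          rw [pow_succ ((T : ℝ) ^ D) L]
          exact mul_le_mul_of_nonneg_right (pow_le_pow_left₀ zero_le_two hTD2 L)
            (by positivity)
        have h2 : ((2 : ℝ) ^ L * (T : ℝ) ^ D) ^ c ≤ ((T : ℝ) ^ D) ^ (c * (L + 1)) := by
          rw [mul_comm c (L + 1), pow_mul ((T : ℝ) ^ D) (L + 1) c]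
          exact pow_le_pow_left₀ (by positivity) h3 c
        exact h2.trans_lt (pow_lt_pow_right₀ (by linarith) hbig.1)
      · show ((u (q + N * n') : ℤ) : 𝓞 K) = 0
        rw [← hnq, hn, Int.cast_zero]
  · refine ⟨n, ?_, hn⟩
    show n < PC.bd N c d (p, B)
    unfold PC.bd
    have h1 : n' ≤ c * (N * (d + 1) * (Pd.size p + 3) + 1) + B := by
      have h2 : c * (L + 1) ≤ c * (N * (d + 1) * (Pd.size p + 3) + 1) :=
        Nat.mul_le_mul_left _ (by omega)
      rw [not_and_or, not_lt, not_le] at hbig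
      omega
    have h2 : N * n' ≤ N * (c * (N * (d + 1) * (Pd.size p + 3) + 1) + B + 2) :=
      Nat.mul_le_mul_left _ (by omega)
    show n < N * (c * (N * (d + 1) * (Pd.size p + 3) + 1) + B + 2) + N
    omega

end Pool.Agent.Work.MP_8d13b5_lc.Fm
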