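import Pool.Agent.Work.MP_8d13b5_lc.Fm.Fin

set_option autoImplicit false

/-! Block `Fm`, item PD (helper24): simple roots `lam_j(x, y)`, integer sequences. -/

namespace Pool.Agent.Work.MP_8d13b5_lc.Fm

open Polynomial NumberField Finset Module

namespace PD

theorem scale {R : Type} [CommRing R] [Nontrivial R] (a : R) :
    (X - C (1 : R)).scaleRoots a = X - C a := by
  ext i
  rw [coeff_scaleRoots, natDegree_X_sub_C]
  rcases i with _ | _ | i
  · simp
  · simp [coeff_X, coeff_one]
  · simp [coeff_X, coeff_one]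

/-- a solution of the recurrence of `X - 1` is constant -/
theorem const {A B : Type} [CommRing A] [Nontrivial A] [CommRing B] (ψ : A →+* B) (s : ℕ → B)
    (h : Rec ψ (X - C (1 : A)) s) (n : ℕ) : s n = s 0 := by
  induction n with
  | zero => rfl
  | succ n ih =>
    have h1 := h n
    have c0 : (X - C (1 : A)).coeff 0 = -1 := by
      rw [coeff_sub, coeff_X_zero, coeff_C_zero, zero_sub]
    have c1 : (X - C (1 : A)).coeff 1 = 1 := by
      rw [coeff_sub, coeff_X_one, coeff_C, if_neg one_ne_zero, sub_zero]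
    rw [natDegree_X_sub_C, sum_range_succ, sum_range_one, c0, c1, map_neg, map_one,
      add_zero] at h1
    rw [← ih]
    linear_combination h1

/-- a solution of a monic recurrence with zero initial values is zero -/
theorem zero_of_init {A B : Type} [CommRing A] [CommRing B] (ψ : A →+* B) (f : A[X])
    (hf : f.Monic) (s : ℕ → B) (h : Rec ψ f s) (h0 : ∀ i < f.natDegree, s i = 0) (n : ℕ) :
    s n = 0 := by
  induction n using Nat.strong_induction_on with
  | _ n ih =>
    rcases lt_or_ge n f.natDegree with hn | hn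
    · exact h0 n hn
    · obtain ⟨k, rfl⟩ := Nat.exists_eq_add_of_le' hn
      have h1 := h k
      rw [sum_range_succ, sum_eq_zero] at h1
      · rw [coeff_natDegree, hf.leadingCoeff, map_one, one_mul, zero_add] at h1
        exact h1
      · intro i hi
        rw [mem_range] at hi
        rw [ih (k + i) (by omega), mul_zero]

end PD

open PD in
theorem prPD (hPB : StPB) (hINT : StINT) : StPD := by
  intro K _ _ m e lam hm hfam
  have hmon : ∀ j : Fin (m + 1), ((fun _ : Fin (m + 1) => (X - C (1 : 𝓞 K) : (𝓞 K)[X])) j).Monic ∧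
      ((fun _ : Fin (m + 1) => (X - C (1 : 𝓞 K) : (𝓞 K)[X])) j).coeff 0 ≠ 0 := fun j =>
    ⟨monic_X_sub_C 1, by simp⟩
  obtain ⟨T₀, c, hT₀, hmain⟩ := hPB K m e 1 lam (fun _ => X - C (1 : 𝓞 K)) hm hfam hmon
  refine ⟨⌈T₀⌉₊, finrank ℚ K * c, fun x y hxy hT u hrec => ?_⟩
  obtain ⟨htt, hTT, hcop, hmx⟩ := hINT K x y
  have hD : 1 ≤ finrank ℚ K := finrank_pos
  have hmx1 : 1 ≤ mx x y := hmx hxy
  have hmxR : (1 : ℝ) ≤ mx x y := by exact_mod_cast hmx1
  have hTR : T₀ ≤ mx x y := (Nat.le_ceil T₀).trans (by exact_mod_cast hT)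
  have hTD : (mx x y : ℝ) ≤ TT (x : 𝓞 K) (y : 𝓞 K) := by
    rw [hTT]
    exact le_self_pow₀ hmxR (by omega)
  obtain ⟨hex, hzero⟩ := hmain (x : 𝓞 K) (y : 𝓞 K) (hcop hxy) (hTR.trans hTD)
    (fun φ => by rw [htt φ, pow_one]; exact hTD)
  have hpoly : poly e lam (fun _ => X - C (1 : 𝓞 K)) (x : 𝓞 K) (y : 𝓞 K) =
      ∏ j, (X - C (hev e (lam j) (x : 𝓞 K) (y : 𝓞 K))) := by
    unfold poly
    exact prod_congr rfl fun j _ => scale _
  obtain ⟨s, hs, -⟩ := hex (fun n => (u n : K)) (by rw [hpoly]; exact hrec)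
  by_cases hu : ∀ n, u n = 0
  · exact Or.inl hu
  · refine Or.inr fun B n hB hlt hn => hu ?_
    rcases Nat.eq_zero_or_pos B with hB0 | hB1
    · -- zero initial values
      intro k
      have hmonic : (∏ j, (X - C (hev e (lam j) (x : 𝓞 K) (y : 𝓞 K)))).Monic :=
        monic_prod_of_monic _ _ fun j _ => monic_X_sub_C _
      have hdeg : (∏ j, (X - C (hev e (lam j) (x : 𝓞 K) (y : 𝓞 K)))).natDegree = m + 1 := by
        rw [natDegree_prod_of_monic _ _ fun j _ => monic_X_sub_C _]
        simp
      have h1 : ((u k : ℤ) : K) = 0 := zero_of_init _ _ hmonic _ hrec (fun i hi => by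
        rw [hdeg] at hi
        have h2 := hB i (by omega)
        rw [hB0, Nat.le_zero, Int.natAbs_eq_zero] at h2
        simp [h2]) k
      exact Int.cast_eq_zero.1 (show ((u k : ℤ) : K) = 0 from h1)
    · have hBR : (1 : ℝ) ≤ B := by exact_mod_cast hB1
      have hltR : ((B : ℝ) * TT (x : 𝓞 K) (y : 𝓞 K)) ^ c < TT (x : 𝓞 K) (y : 𝓞 K) ^ n := by
        rw [hTT]
        have h1 : (B : ℝ) * (mx x y : ℝ) ^ finrank ℚ K ≤ ((B : ℝ) * mx x y) ^ finrank ℚ K := by
          rw [mul_pow]
          exact mul_le_mul_of_nonneg_right (le_self_pow₀ hBR (by omega)) (by positivity)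
        have h2 : (((B : ℝ) * mx x y) ^ finrank ℚ K) ^ c < (mx x y : ℝ) ^ n := by
          rw [← pow_mul]
          exact_mod_cast hlt
        have h3 : (mx x y : ℝ) ^ n ≤ ((mx x y : ℝ) ^ finrank ℚ K) ^ n := by
          rw [← pow_mul]
          exact pow_le_pow_right₀ hmxR (Nat.le_mul_of_pos_left n (by omega))
        exact ((pow_le_pow_left₀ (by positivity) h1 c).trans_lt h2).trans_le h3
      have hz := hzero (fun n => ((u n : ℤ) : 𝓞 K)) s B (by
          have h1 : (fun n => (((u n : ℤ) : 𝓞 K) : K)) = fun n => (u n : K) := by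
            funext k
            exact map_intCast (algebraMap (𝓞 K) K) (u k)
          show Parts e lam _ _ _ (fun n => (((u n : ℤ) : 𝓞 K) : K)) s
          rw [h1]
          exact hs) hBR (by
          intro φ i hi
          have hi' : i ≤ m := by
            simp only [natDegree_X_sub_C, sum_const, card_univ, Fintype.card_fin, smul_eq_mul,
              mul_one] at hi
            omega
          rw [map_intCast, Complex.norm_intCast]
          have h2 := hB i hi'
          have h3 : |(u i : ℝ)| = ((u i).natAbs : ℝ) := by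
            rw [Nat.cast_natAbs, Int.cast_abs]
          rw [h3]
          exact_mod_cast h2) n hltR (by
          show ((u n : ℤ) : 𝓞 K) = 0
          rw [hn, Int.cast_zero])
      intro k
      have h1 := hs.2 k
      have h2 : ∑ j, ((hev e (lam j) (x : 𝓞 K) (y : 𝓞 K) : 𝓞 K) : K) ^ k * s j k = 0 := by
        refine sum_eq_zero fun j _ => ?_
        rw [const _ (s j) (hs.1 j) k, ← const _ (s j) (hs.1 j) n, hz j, mul_zero]
      exact Int.cast_eq_zero.1 (show ((u k : ℤ) : K) = 0 from h1.trans h2)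

end Pool.Agent.Work.MP_8d13b5_lc.Fm
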