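import Pool.Agent.Work.MP_8d13b5_lc.Fm.Fin

set_option autoImplicit false

/-! Item PE: order five, four dominant roots of equal modulus. -/

namespace Pool.Agent.Work.MP_8d13b5_lc.Fm

open Polynomial NumberField Finset Module

namespace PE

/-- The field of the fourth roots of unity. -/
abbrev KI : Type := CyclotomicField 4 ℚ

theorem exists_I : ∃ I : 𝓞 KI, I ^ 2 = -1 := by
  have : NeZero ((4 : ℕ) : ℚ) := ⟨by norm_num⟩
  have : IsCyclotomicExtension {4} ℚ KI := CyclotomicField.isCyclotomicExtension 4 ℚ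
  have h : IsPrimitiveRoot (IsCyclotomicExtension.zeta 4 ℚ KI) 4 :=
    IsCyclotomicExtension.zeta_spec 4 ℚ KI
  have h2 : IsPrimitiveRoot (IsCyclotomicExtension.zeta 4 ℚ KI ^ 2) 2 :=
    h.pow (by norm_num) (by norm_num)
  have h3 : IsCyclotomicExtension.zeta 4 ℚ KI ^ 2 = -1 := h2.eq_neg_one_of_two_right
  refine ⟨h.toInteger, ?_⟩
  apply RingOfIntegers.ext
  push_cast
  exact h3

theorem hev_lin {R : Type} [CommRing R] (a x y : R) : hev 1 (X + C a) x y = x + a * y := by
  unfold hev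
  rw [sum_range_succ, sum_range_one]
  simp
  ring

theorem hev_lin' {R : Type} [CommRing R] (a x y : R) : hev 1 (X - C a) x y = x - a * y := by
  have h := hev_lin (-a) x y
  rw [C_neg, ← sub_eq_add_neg] at h
  rw [h]
  ring

theorem hev_quad {R : Type} [CommRing R] (a b c x y : R) :
    hev 2 (C a * X ^ 2 + C b * X + C c) x y = a * x ^ 2 + b * x * y + c * y ^ 2 := by
  unfold hev
  rw [sum_range_succ, sum_range_succ, sum_range_one]
  simp [coeff_X, coeff_C, coeff_X_pow]
  ring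

/-- the five forms -/
noncomputable def lam {R : Type} [CommRing R] (I : R) (a b c : ℤ) : Fin 5 → R[X] :=
  ![(X + C I) * (X + C (2 * I)), (X - C I) * (X - C (2 * I)),
      (X + C I) * (X - C (2 * I)), (X - C I) * (X + C (2 * I)),
      C (a : R) * X ^ 2 + C (b : R) * X + C (c : R)]

theorem prod_eq (hHEV : StHEV) {R : Type} [CommRing R] [Nontrivial R] (I : R) (a b c : ℤ)
    (hI : I ^ 2 = -1) (x y : ℤ) :
    ∏ j, (X - C (hev 2 (lam I a b c j) (x : R) (y : R))) =
      (five a b c x y).map (Int.castRingHom R) := by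
  have hm := ((hHEV.1 R (x : R) (y : R)).2.1)
  have e0 : hev 2 ((X + C I) * (X + C (2 * I))) (x : R) (y : R) =
      (x + I * y) * (x + 2 * I * y) := by
    rw [hm 1 1 _ _ (natDegree_X_add_C _).le (natDegree_X_add_C _).le, hev_lin, hev_lin]
  have e1 : hev 2 ((X - C I) * (X - C (2 * I))) (x : R) (y : R) =
      (x - I * y) * (x - 2 * I * y) := by
    rw [hm 1 1 _ _ (natDegree_X_sub_C _).le (natDegree_X_sub_C _).le, hev_lin', hev_lin']
  have e2 : hev 2 ((X + C I) * (X - C (2 * I))) (x : R) (y : R) =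
      (x + I * y) * (x - 2 * I * y) := by
    rw [hm 1 1 _ _ (natDegree_X_add_C _).le (natDegree_X_sub_C _).le, hev_lin, hev_lin']
  have e3 : hev 2 ((X - C I) * (X + C (2 * I))) (x : R) (y : R) =
      (x - I * y) * (x + 2 * I * y) := by
    rw [hm 1 1 _ _ (natDegree_X_sub_C _).le (natDegree_X_add_C _).le, hev_lin', hev_lin]
  have e4 := hev_quad (a : R) (b : R) (c : R) (x : R) (y : R)
  have hJ : (C I : R[X]) ^ 2 = -1 := by rw [← C_pow, hI, C_neg, C_1]
  rw [Fin.prod_univ_five]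
  simp only [lam, Matrix.cons_val]
  rw [e0, e1, e2, e3, e4]
  unfold five
  simp only [Polynomial.map_mul, Polynomial.map_add, Polynomial.map_sub, Polynomial.map_pow,
    map_X, map_C]
  simp only [map_mul, map_add, map_sub, map_pow, map_ofNat, eq_intCast]
  have p1 : (X - (C (x : R) + C I * C (y : R)) * (C (x : R) + 2 * C I * C (y : R))) *
      (X - (C (x : R) - C I * C (y : R)) * (C (x : R) - 2 * C I * C (y : R))) =
      (X : R[X]) ^ 2 - 2 * (C (x : R) ^ 2 - 2 * C (y : R) ^ 2) * X +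
        (C (x : R) ^ 2 + C (y : R) ^ 2) * (C (x : R) ^ 2 + 4 * C (y : R) ^ 2) := by
    linear_combination (-4 * C (y : R) ^ 2 * X - 5 * C (x : R) ^ 2 * C (y : R) ^ 2 +
      4 * C (y : R) ^ 4 * (C I ^ 2 - 1)) * hJ
  have p2 : (X - (C (x : R) + C I * C (y : R)) * (C (x : R) - 2 * C I * C (y : R))) *
      (X - (C (x : R) - C I * C (y : R)) * (C (x : R) + 2 * C I * C (y : R))) =
      (X : R[X]) ^ 2 - 2 * (C (x : R) ^ 2 + 2 * C (y : R) ^ 2) * X +
        (C (x : R) ^ 2 + C (y : R) ^ 2) * (C (x : R) ^ 2 + 4 * C (y : R) ^ 2) := by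
    linear_combination (4 * C (y : R) ^ 2 * X - 5 * C (x : R) ^ 2 * C (y : R) ^ 2 +
      4 * C (y : R) ^ 4 * (C I ^ 2 - 1)) * hJ
  rw [p1, mul_assoc (_ + _) (X - _) (X - _), p2]

end PE

open PE in
theorem prPE (hPD : StPD) (hEXA : StEXA) (hHEV : StHEV) : StPE := by
  intro a b c hne
  obtain ⟨I, hI⟩ := exists_I
  obtain ⟨T₀, k, h⟩ := hPD KI 4 2 (lam I a b c) (by norm_num) (hEXA (𝓞 KI) I a b c hI hne)
  refine ⟨T₀, k, fun x y hxy hT u hu => h x y hxy hT u ?_⟩
  have he := prod_eq hHEV I a b c hI x y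
  have hinj : Function.Injective (Int.castRingHom (𝓞 KI)) := RingHom.injective_int _
  intro n
  rw [he, natDegree_map_eq_of_injective hinj]
  have h1 := hu n
  have h2 : ((∑ i ∈ range ((five a b c x y).natDegree + 1),
      (RingHom.id ℤ) ((five a b c x y).coeff i) * u (n + i) : ℤ) : KI) = 0 := by
    rw [h1, Int.cast_zero]
  rw [Int.cast_sum] at h2
  rw [← h2]
  refine sum_congr rfl fun i _ => ?_
  rw [coeff_map, Int.cast_mul, RingHom.id_apply, eq_intCast, map_intCast]

end Pool.Agent.Work.MP_8d13b5_lc.Fm
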