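import Pool.Agent.Work.MP_8d13b5_lc.Fm.Fin

set_option autoImplicit false

/-! Item PF of the block `Fm`: one variable. -/

namespace Pool.Agent.Work.MP_8d13b5_lc.Fm

open Polynomial NumberField Finset Module

namespace PF

/-- The form at `(x, 1)`. -/
lemma hev_one {R : Type} [CommRing R] {e : ℕ} {P : R[X]} (h : P.natDegree ≤ e) (x : R) :
    hev e P x 1 = P.eval x := by
  unfold hev
  rw [Polynomial.eval_eq_sum_range' (Nat.lt_succ_of_le h) x]
  exact Finset.sum_congr rfl fun i _ => by rw [one_pow, mul_one]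

end PF

theorem prPF (hPD : StPD) : StPF := by
  intro K _ _ m lam hm hne hnp hcop
  set e : ℕ := (Finset.univ : Finset (Fin (m + 1))).sup fun j => (lam j).natDegree with he
  have hle : ∀ j, (lam j).natDegree ≤ e := fun j =>
    Finset.le_sup (f := fun j => (lam j).natDegree) (Finset.mem_univ j)
  have hfam : IsFam e lam := by
    refine ⟨hle, ?_, hne, hnp, hcop⟩
    obtain ⟨j, -, hj⟩ := Finset.exists_mem_eq_sup (Finset.univ : Finset (Fin (m + 1)))
      Finset.univ_nonempty fun j => (lam j).natDegree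
    refine ⟨j, ?_⟩
    have h1 : e = (lam j).natDegree := hj
    rw [h1]
    exact leadingCoeff_ne_zero.2 (hne j)
  obtain ⟨T₀, c, h⟩ := hPD K m e lam hm hfam
  refine ⟨max T₀ 1, c, fun t ht u hu => ?_⟩
  have ht0 : T₀ ≤ t.natAbs := (le_max_left _ _).trans ht
  have ht1 : 1 ≤ t.natAbs := (le_max_right _ _).trans ht
  have hmx : mx t 1 = t.natAbs := by
    unfold mx
    rw [Int.natAbs_one]
    exact max_eq_left ht1
  have hpoly : (∏ j, (X - C (hev e (lam j) (t : 𝓞 K) ((1 : ℤ) : 𝓞 K)))) =
      ∏ j, (X - C ((lam j).eval (t : 𝓞 K))) := by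
    refine Finset.prod_congr rfl fun j _ => ?_
    rw [Int.cast_one, PF.hev_one (hle j)]
  have h1 := h t 1 isCoprime_one_right (by rw [hmx]; exact ht0) u (by rw [hpoly]; exact hu)
  rw [hmx] at h1
  exact h1

end Pool.Agent.Work.MP_8d13b5_lc.Fm
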