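import Pool.Agent.Work.MP_8d13b5_lc.Fm.Stmts

set_option autoImplicit false

/-! Item PN: basic facts on the norm `pn`. -/

namespace Pool.Agent.Work.MP_8d13b5_lc.Fm

open Polynomial NumberField Finset Module

namespace PN

variable {R : Type} [CommRing R] (φ : R →+* ℂ)

theorem pn_nonneg (P : R[X]) : 0 ≤ pn φ P := Finset.sum_nonneg fun _ _ => norm_nonneg _

theorem pn_eq (P : R[X]) (L : ℕ) (h : P.natDegree ≤ L) :
    pn φ P = ∑ i ∈ range (L + 1), ‖φ (P.coeff i)‖ := by
  unfold pn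
  apply Finset.sum_subset
  · intro i hi
    rw [Finset.mem_range] at hi ⊢
    omega
  · intro i _ hi
    rw [Finset.mem_range, not_lt] at hi
    rw [coeff_eq_zero_of_natDegree_lt (by omega), map_zero, norm_zero]

theorem pn_C (a : R) : pn φ (C a) = ‖φ a‖ := by
  rw [pn_eq φ (C a) 0 (by simp)]
  simp

theorem pn_zero : pn φ (0 : R[X]) = 0 := by
  rw [← C_0, pn_C, map_zero, norm_zero]

theorem pn_add (P Q : R[X]) : pn φ (P + Q) ≤ pn φ P + pn φ Q := by
  rw [pn_eq φ (P + Q) (max P.natDegree Q.natDegree) (natDegree_add_le _ _),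
    pn_eq φ P _ (le_max_left P.natDegree Q.natDegree),
    pn_eq φ Q _ (le_max_right P.natDegree Q.natDegree), ← Finset.sum_add_distrib]
  refine Finset.sum_le_sum fun i _ => ?_
  rw [coeff_add, map_add]
  exact norm_add_le _ _

theorem pn_sum (ι : Type) (s : Finset ι) (P : ι → R[X]) :
    pn φ (∑ i ∈ s, P i) ≤ ∑ i ∈ s, pn φ (P i) := by
  classical
  induction s using Finset.induction_on with
  | empty => rw [Finset.sum_empty, Finset.sum_empty, pn_zero]
  | insert a s ha ih =>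
    rw [Finset.sum_insert ha, Finset.sum_insert ha]
    exact (pn_add φ _ _).trans (by linarith)

theorem pn_C_mul (a : R) (Q : R[X]) : pn φ (C a * Q) = ‖φ a‖ * pn φ Q := by
  rw [pn_eq φ (C a * Q) Q.natDegree (natDegree_C_mul_le a Q), pn_eq φ Q Q.natDegree le_rfl,
    Finset.mul_sum]
  refine Finset.sum_congr rfl fun i _ => ?_
  rw [coeff_C_mul, map_mul, norm_mul]

theorem pn_mul_X_pow (Q : R[X]) (k : ℕ) : pn φ (Q * X ^ k) = pn φ Q := by
  have h : (Q * X ^ k).natDegree ≤ k + Q.natDegree := by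
    refine natDegree_mul_le.trans ?_
    have := natDegree_X_pow_le (R := R) k
    omega
  rw [pn_eq φ _ _ h, pn_eq φ Q Q.natDegree le_rfl, add_assoc, Finset.sum_range_add]
  have h0 : ∑ x ∈ range k, ‖φ ((Q * X ^ k).coeff x)‖ = 0 := by
    refine Finset.sum_eq_zero fun i hi => ?_
    rw [Finset.mem_range] at hi
    rw [coeff_mul_X_pow', if_neg (by omega), map_zero, norm_zero]
  rw [h0, zero_add]
  refine Finset.sum_congr rfl fun i _ => ?_
  rw [coeff_mul_X_pow', if_pos (by omega), Nat.add_sub_cancel_left]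

theorem pn_mul (P Q : R[X]) : pn φ (P * Q) ≤ pn φ P * pn φ Q := by
  have h1 : P * Q = ∑ i ∈ range (P.natDegree + 1), C (P.coeff i) * (Q * X ^ i) := by
    conv_lhs => rw [P.as_sum_range_C_mul_X_pow, Finset.sum_mul]
    refine Finset.sum_congr rfl fun i _ => ?_
    ring
  rw [h1]
  refine (pn_sum φ ℕ _ _).trans (le_of_eq ?_)
  rw [pn_eq φ P P.natDegree le_rfl, Finset.sum_mul]
  refine Finset.sum_congr rfl fun i _ => ?_
  rw [pn_C_mul, pn_mul_X_pow]

theorem pn_pow (P : R[X]) (n : ℕ) : pn φ (P ^ n) ≤ pn φ P ^ n := by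
  induction n with
  | zero =>
    rw [pow_zero, pow_zero, ← C_1, pn_C, map_one, norm_one]
  | succ n ih =>
    rw [pow_succ, pow_succ]
    exact (pn_mul φ _ _).trans (mul_le_mul_of_nonneg_right ih (pn_nonneg φ P))

theorem pn_coeff (P : R[X]) (i : ℕ) : ‖φ (P.coeff i)‖ ≤ pn φ P := by
  rw [pn_eq φ P (P.natDegree + i) (Nat.le_add_right _ _)]
  exact Finset.single_le_sum (f := fun i => ‖φ (P.coeff i)‖) (fun _ _ => norm_nonneg _)
    (Finset.mem_range.2 (by omega))

theorem pn_hasse (P : R[X]) (p r : ℕ) (h : P.natDegree ≤ p) :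
    pn φ (hasseDeriv r P) ≤ 2 ^ p * pn φ P := by
  have hd : (hasseDeriv r P).natDegree ≤ p := (natDegree_hasseDeriv_le P r).trans (by omega)
  rw [pn_eq φ _ p hd, pn_eq φ P (r + p) (by omega), add_assoc r p 1,
    Finset.sum_range_add _ r (p + 1), mul_add]
  have h0 : 0 ≤ 2 ^ p * ∑ x ∈ range r, ‖φ (P.coeff x)‖ :=
    mul_nonneg (by positivity) (Finset.sum_nonneg fun _ _ => norm_nonneg _)
  refine le_trans ?_ (le_add_of_nonneg_left h0)
  rw [Finset.mul_sum]
  refine Finset.sum_le_sum fun i _ => ?_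
  rw [hasseDeriv_coeff, map_mul, norm_mul, add_comm r i, map_natCast, Complex.norm_natCast]
  by_cases hi : i + r ≤ p
  · have h1 : (((i + r).choose r : ℕ) : ℝ) ≤ 2 ^ p := by
      have h2 : (i + r).choose r ≤ 2 ^ (i + r) := Nat.choose_le_two_pow _ _
      have h3 : 2 ^ (i + r) ≤ 2 ^ p := Nat.pow_le_pow_right (by norm_num) hi
      exact_mod_cast h2.trans h3
    exact mul_le_mul_of_nonneg_right h1 (norm_nonneg _)
  · rw [coeff_eq_zero_of_natDegree_lt (by omega), map_zero, norm_zero, mul_zero, mul_zero]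

end PN

theorem prPN : StPN := by
  intro R _ φ
  exact ⟨PN.pn_nonneg φ, PN.pn_C φ, PN.pn_add φ, PN.pn_mul φ, PN.pn_pow φ, PN.pn_sum φ,
    PN.pn_coeff φ, PN.pn_eq φ, PN.pn_hasse φ⟩

end Pool.Agent.Work.MP_8d13b5_lc.Fm
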