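import Pool.Agent.Work.MP_8d13b5_lc.Fm.Stmts

set_option autoImplicit false

/-! Block `Fm`, item REL: the minimal relation. -/

namespace Pool.Agent.Work.MP_8d13b5_lc.Fm

open Polynomial NumberField Finset Module

namespace REL

/-- there is a dependent injective family of nonzero vectors with `n` members -/
def Bad (F : Type) {V : Type} [Field F] [AddCommGroup V] [Module F V] {k : ℕ} (z : Fin k → V)
    (n : ℕ) : Prop :=
  ∃ σ : Fin n → Fin k, Function.Injective σ ∧ (∀ i, z (σ i) ≠ 0) ∧
    ¬ LinearIndependent F (fun i => z (σ i))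

theorem ex_bad (F V : Type) [Field F] [AddCommGroup V] [Module F V] (k : ℕ) (z : Fin k → V)
    (hz : z ≠ 0) (hs : ∑ j, z j = 0) : ∃ n, Bad F z n := by
  classical
  set S : Finset (Fin k) := Finset.univ.filter (fun j => z j ≠ 0) with hS
  refine ⟨S.card, S.orderEmbOfFin rfl, (S.orderEmbOfFin rfl).injective, ?_, ?_⟩
  · intro i
    exact (Finset.mem_filter.1 (S.orderEmbOfFin_mem rfl i)).2
  · rw [Fintype.not_linearIndependent_iff]
    refine ⟨fun _ => 1, ?_, ?_⟩
    · simp only [one_smul]
      have h1 : ∑ i : Fin S.card, z (S.orderEmbOfFin rfl i) = ∑ j ∈ S, z j := by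
        have h2 : S = Finset.univ.map (S.orderEmbOfFin rfl).toEmbedding := by
          rw [← Finset.coe_inj]
          simp
        conv_rhs => rw [h2, Finset.sum_map]
        rfl
      rw [h1, hS, Finset.sum_filter_ne_zero, hs]
    · obtain ⟨j, hj⟩ : ∃ j, z j ≠ 0 := by
        by_contra hcon
        push Not at hcon
        exact hz (funext hcon)
      have hjS : j ∈ S := Finset.mem_filter.2 ⟨Finset.mem_univ j, hj⟩
      have hc : 0 < S.card := Finset.card_pos.2 ⟨j, hjS⟩
      exact ⟨⟨0, hc⟩, one_ne_zero⟩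

end REL

theorem prREL : StREL := by
  classical
  intro F V _ _ _ k z hz hs
  have hex := REL.ex_bad F V k z hz hs
  obtain ⟨σ, hσ, hne, hdep⟩ := Nat.find_spec hex
  have hmin : ∀ m, m < Nat.find hex → ¬ REL.Bad F z m := fun m hm => Nat.find_min hex hm
  generalize hN : Nat.find hex = n at σ hσ hne hdep hmin
  clear hN
  rcases n with _ | r
  · exact absurd (linearIndependent_empty_type) hdep
  obtain ⟨c, hc, i₁, hi₁⟩ := Fintype.not_linearIndependent_iff.1 hdep
  have hind : ∀ i₀ : Fin (r + 1), LinearIndependent F (fun i : Fin r => z (σ (i₀.succAbove i))) := by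
    intro i₀
    by_contra hcon
    exact hmin r (Nat.lt_succ_self r) ⟨fun i => σ (i₀.succAbove i),
      hσ.comp Fin.succAbove_right_injective, fun i => hne _, hcon⟩
  have hcne : ∀ i, c i ≠ 0 := by
    intro i₀ h0
    have h1 : ∑ i : Fin r, c (i₀.succAbove i) • z (σ (i₀.succAbove i)) = 0 := by
      rw [Fin.sum_univ_succAbove _ i₀, h0, zero_smul, zero_add] at hc
      exact hc
    have h2 := Fintype.linearIndependent_iff.1 (hind i₀) (fun i => c (i₀.succAbove i)) h1
    rcases Fin.eq_self_or_eq_succAbove i₀ i₁ with h | ⟨j, h⟩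
    · exact hi₁ (h ▸ h0)
    · exact hi₁ (h ▸ h2 j)
  refine ⟨r, σ, c, ?_, ?_, hσ, hcne, hne, hc, hind⟩
  · rcases Nat.eq_zero_or_pos r with h | h
    · exfalso
      subst h
      rw [Fin.sum_univ_one] at hc
      rcases smul_eq_zero.1 hc with h1 | h1
      · exact hcne 0 h1
      · exact hne 0 h1
    · exact h
  · have h := Fintype.card_le_of_injective σ hσ
    simpa using h

end Pool.Agent.Work.MP_8d13b5_lc.Fm
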