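import Pool.Agent.Work.MP_8d13b5_lc.Fm.Stmts

set_option autoImplicit false

/-! Item SIE of the block `Fm`: the pigeonhole principle outside a subspace. -/

namespace Pool.Agent.Work.MP_8d13b5_lc.Fm

open Polynomial NumberField Finset Module

/-- coordinates that are injective on a subspace -/
theorem SIE.coords {K α : Type} [Field K] [Fintype α] (n : ℕ) :
    ∀ V : Submodule K (α → K), finrank K V = n →
      ∃ J : Finset α, J.card ≤ n ∧ ∀ v ∈ V, (∀ j ∈ J, v j = 0) → v = 0 := by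
  classical
  induction n using Nat.strong_induction_on with
  | _ n ih =>
    intro V h
    by_cases hV : V = ⊥
    · refine ⟨∅, by simp, fun v hv _ => ?_⟩
      rw [hV] at hv
      exact (Submodule.mem_bot K).1 hv
    · obtain ⟨v, hv, hv0⟩ := (Submodule.ne_bot_iff V).1 hV
      obtain ⟨j, hj⟩ := Function.ne_iff.1 hv0
      have hlt : V ⊓ LinearMap.ker (LinearMap.proj j : (α → K) →ₗ[K] K) < V := by
        refine lt_of_le_of_ne inf_le_left fun he => ?_
        have h1 : v ∈ V ⊓ LinearMap.ker (LinearMap.proj j : (α → K) →ₗ[K] K) := by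
          rw [he]; exact hv
        exact hj (by simpa using h1.2)
      have hf := Submodule.finrank_lt_finrank_of_lt hlt
      rw [h] at hf
      obtain ⟨J', hJ', hJ'v⟩ := ih _ hf _ rfl
      refine ⟨insert j J', (Finset.card_insert_le _ _).trans (by omega), fun u hu hu0 => ?_⟩
      refine hJ'v u ⟨hu, ?_⟩ fun i hi => hu0 i (Finset.mem_insert_of_mem hi)
      simpa using hu0 j (Finset.mem_insert_self _ _)

/-- the choice of the size of the box -/
theorem SIE.arith {D N s w ρ a b q H : ℕ} {Z : ℝ} (hD : 0 < D) (hZ : 1 ≤ Z) (hρ : ρ + s = N)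
    (ha : a ≤ ρ) (hb : b ≤ w) (hN : 0 < N) (hq : N ≤ q * (s - w)) (hH : Z ^ q < H + 1) :
    (Z * (H + 1)) ^ (D * a) * ((H : ℝ) + 1) ^ (D * b) < ((H : ℝ) + 1) ^ (D * N) := by
  have hH1 : (1 : ℝ) ≤ H + 1 := by linarith [Nat.cast_nonneg (α := ℝ) H]
  have hsw : w < s := by
    by_contra hcon
    have h0 : s - w = 0 := by omega
    rw [h0, mul_zero] at hq
    omega
  have hq0 : q ≠ 0 := by
    rintro rfl
    simp at hq
    omega
  have h1 : (Z * ((H : ℝ) + 1)) ^ a ≤ Z ^ N * ((H : ℝ) + 1) ^ ρ := by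
    rw [mul_pow]
    exact mul_le_mul (pow_le_pow_right₀ hZ (by omega)) (pow_le_pow_right₀ hH1 ha)
      (by positivity) (by positivity)
  have h2 : ((H : ℝ) + 1) ^ b ≤ ((H : ℝ) + 1) ^ w := pow_le_pow_right₀ hH1 hb
  have h3 : Z ^ N < ((H : ℝ) + 1) ^ (s - w) := by
    calc Z ^ N ≤ Z ^ (q * (s - w)) := pow_le_pow_right₀ hZ hq
      _ = (Z ^ q) ^ (s - w) := pow_mul _ _ _
      _ < ((H : ℝ) + 1) ^ (s - w) := pow_lt_pow_left₀ hH (by positivity) (by omega)
  have h4 : (Z * ((H : ℝ) + 1)) ^ a * ((H : ℝ) + 1) ^ b < ((H : ℝ) + 1) ^ N := by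
    have hNe : N = (s - w) + ρ + w := by omega
    calc (Z * ((H : ℝ) + 1)) ^ a * ((H : ℝ) + 1) ^ b
        ≤ (Z ^ N * ((H : ℝ) + 1) ^ ρ) * ((H : ℝ) + 1) ^ w :=
          mul_le_mul h1 h2 (by positivity) (by positivity)
      _ < (((H : ℝ) + 1) ^ (s - w) * ((H : ℝ) + 1) ^ ρ) * ((H : ℝ) + 1) ^ w := by
          gcongr
      _ = ((H : ℝ) + 1) ^ N := by rw [← pow_add, ← pow_add, ← hNe]
  have h5 : (Z * ((H : ℝ) + 1)) ^ (D * a) * ((H : ℝ) + 1) ^ (D * b)
      = ((Z * ((H : ℝ) + 1)) ^ a * ((H : ℝ) + 1) ^ b) ^ D := by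
    rw [mul_pow _ _ D, ← pow_mul _ a D, ← pow_mul _ b D, mul_comm a D, mul_comm b D]
  rw [h5, mul_comm D N, pow_mul]
  exact pow_lt_pow_left₀ h4 (by positivity) (by omega)

theorem prSIE (hBOX : StBOX) : StSIE := by
  intro K _ _
  classical
  obtain ⟨Ω, hΩ, hbox1, hbox2⟩ := hBOX K
  refine ⟨2 * Ω ^ 2, by nlinarith, ?_⟩
  intro ι κ _ _ A B₀ q W hB₀ hA hW hι hcard
  -- the linear map
  let T : (ι → K) →ₗ[K] (κ → K) :=
    { toFun := fun v i => ∑ j, (A i j : K) * v j
      map_add' := by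
        intro v v'
        funext i
        simp [mul_add, sum_add_distrib]
      map_smul' := by
        intro c v
        funext i
        simp only [Pi.smul_apply, smul_eq_mul, RingHom.id_apply, mul_sum]
        exact sum_congr rfl fun j _ => by ring }
  have hT : ∀ v i, T v i = ∑ j, (A i j : K) * v j := fun v i => rfl
  have hker : LinearMap.ker T = kerA A := by
    ext v
    rw [LinearMap.mem_ker]
    exact ⟨fun h i => congrFun h i, fun h => funext h⟩
  have hrank : finrank K (LinearMap.range T) + finrank K (kerA A) = Fintype.card ι := by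
    have h1 := LinearMap.finrank_range_add_finrank_ker T
    rw [hker] at h1
    rw [h1, finrank_fintype_fun_eq_card]
  obtain ⟨J₁, hJ₁, hJ₁'⟩ := SIE.coords _ (LinearMap.range T) rfl
  obtain ⟨J₂, hJ₂, hJ₂'⟩ := SIE.coords _ W rfl
  have hN1 : (1 : ℝ) ≤ (Fintype.card ι : ℝ) := by exact_mod_cast hι
  set Z : ℝ := Ω ^ 2 * Fintype.card ι * B₀ with hZdef
  have hΩ2 : 1 ≤ Ω ^ 2 := one_le_pow₀ hΩ
  have hZ : 1 ≤ Z := one_le_mul_of_one_le_of_one_le (one_le_mul_of_one_le_of_one_le hΩ2 hN1) hB₀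
  set H : ℕ := ⌊Z ^ q⌋₊ with hH
  have hH1 : Z ^ q < (H : ℝ) + 1 := Nat.lt_floor_add_one _
  have hH2 : (H : ℝ) ≤ Z ^ q := Nat.floor_le (by positivity)
  obtain ⟨S, hS, hSle⟩ := hbox1 H
  set M : ℝ := Fintype.card ι * B₀ * Ω * (H + 1) with hM
  have hH0 : (0 : ℝ) ≤ H := Nat.cast_nonneg H
  have hM1 : 1 ≤ M := one_le_mul_of_one_le_of_one_le
    (one_le_mul_of_one_le_of_one_le (one_le_mul_of_one_le_of_one_le hN1 hB₀) hΩ) (by linarith)
  have hΩM : Ω * M = Z * (H + 1) := by rw [hM, hZdef]; ring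
  have hD : 0 < finrank ℚ K := finrank_pos
  by_contra hcon
  push Not at hcon
  set P : Finset (ι → 𝓞 K) := Fintype.piFinset (fun _ : ι => S) with hP
  have hPcard : P.card = ((H + 1) ^ finrank ℚ K) ^ Fintype.card ι := by
    rw [hP, Fintype.card_piFinset, prod_const, hS, card_univ]
  have hPle : ∀ v ∈ P, ∀ (φ : K →+* ℂ) j, ‖res φ (v j)‖ ≤ Ω * H := fun v hv φ j =>
    hSle _ (Fintype.mem_piFinset.1 hv j) φ
  -- the values of the linear forms
  set S' : κ → Finset (𝓞 K) := fun i => P.image (fun v => ∑ j, A i j * v j) with hS'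
  have hS'card : ∀ i, ((S' i).card : ℝ) ≤ (Z * (H + 1)) ^ finrank ℚ K := by
    intro i
    rw [← hΩM]
    refine hbox2 M hM1 (S' i) ?_
    intro z hz φ
    obtain ⟨v, hv, rfl⟩ := Finset.mem_image.1 hz
    rw [map_sum]
    calc ‖∑ j, res φ (A i j * v j)‖ ≤ ∑ j, ‖res φ (A i j * v j)‖ := norm_sum_le _ _
      _ ≤ ∑ _j : ι, B₀ * (Ω * H) := by
          refine sum_le_sum fun j _ => ?_
          rw [map_mul, norm_mul]
          exact mul_le_mul (hA φ i j) (hPle v hv φ j) (norm_nonneg _) (by linarith)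
      _ = Fintype.card ι * B₀ * Ω * H := by
          rw [sum_const, card_univ, nsmul_eq_mul]; ring
      _ ≤ M := by
          rw [hM]
          exact mul_le_mul_of_nonneg_left (by linarith) (by positivity)
  -- differences lie in `W`
  have key : ∀ v ∈ P, ∀ v' ∈ P, (∀ i ∈ J₁, ∑ j, A i j * v j = ∑ j, A i j * v' j) →
      (fun j => (((v j - v' j : 𝓞 K)) : K)) ∈ W := by
    intro v hv v' hv' hvv
    by_contra hnot
    have hz : T (fun j => ((v j - v' j : 𝓞 K) : K)) = 0 := by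
      refine hJ₁' _ (LinearMap.mem_range_self _ _) fun i hi => ?_
      rw [hT]
      have h1 := hvv i hi
      have h2 : ∑ j, A i j * (v j - v' j) = 0 := by
        simp only [mul_sub, sum_sub_distrib, h1, sub_self]
      have h3 := congrArg (algebraMap (𝓞 K) K) h2
      simpa [map_sum] using h3
    have hz' : ∀ i, ∑ j, A i j * (v j - v' j) = 0 := by
      intro i
      have h1 : ∑ j, (A i j : K) * ((v j - v' j : 𝓞 K) : K) = 0 := by
        rw [← hT]; exact congrFun hz i
      apply FaithfulSMul.algebraMap_injective (𝓞 K) K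
      rw [map_sum, map_zero]
      simpa [map_mul] using h1
    obtain ⟨φ, j, hφ⟩ := hcon (fun j => v j - v' j) hz' hnot
    refine absurd hφ (not_lt.2 ?_)
    have h1 : ‖res φ (v j - v' j)‖ ≤ 2 * (Ω * H) := by
      rw [map_sub]
      calc ‖res φ (v j) - res φ (v' j)‖ ≤ ‖res φ (v j)‖ + ‖res φ (v' j)‖ := norm_sub_le _ _
        _ ≤ 2 * (Ω * H) := by linarith [hPle v hv φ j, hPle v' hv' φ j]
    refine h1.trans ?_
    have h2 : Z ≤ 2 * Ω ^ 2 * (Fintype.card ι + 1) * B₀ := by
      rw [hZdef]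
      refine mul_le_mul_of_nonneg_right ?_ (by linarith)
      nlinarith
    have h3 : 2 * Ω ≤ 2 * Ω ^ 2 * (Fintype.card ι + 1) * B₀ := by
      have h4 : 2 * Ω ≤ 2 * Ω ^ 2 := by nlinarith
      have h5 : 1 ≤ ((Fintype.card ι : ℝ) + 1) * B₀ :=
        one_le_mul_of_one_le_of_one_le (by linarith) hB₀
      calc 2 * Ω ≤ 2 * Ω ^ 2 * 1 := by linarith
        _ ≤ 2 * Ω ^ 2 * (((Fintype.card ι : ℝ) + 1) * B₀) :=
            mul_le_mul_of_nonneg_left h5 (by positivity)
        _ = _ := by ring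
    calc 2 * (Ω * H) = H * (2 * Ω) := by ring
      _ ≤ Z ^ q * (2 * Ω ^ 2 * (Fintype.card ι + 1) * B₀) :=
          mul_le_mul hH2 h3 (by positivity) (by positivity)
      _ ≤ (2 * Ω ^ 2 * (Fintype.card ι + 1) * B₀) ^ q *
            (2 * Ω ^ 2 * (Fintype.card ι + 1) * B₀) :=
          mul_le_mul_of_nonneg_right (pow_le_pow_left₀ (by positivity) h2 _) (by positivity)
      _ = _ := (pow_succ _ _).symm
  -- counting
  have hcount : P.card ≤ ((Fintype.piFinset (fun i : J₁ => S' i)) ×ˢ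
      (Fintype.piFinset (fun _ : J₂ => S))).card := by
    refine Finset.card_le_card_of_injOn
      (fun v => ((fun i : J₁ => ∑ j, A i j * v j), (fun j : J₂ => v j))) ?_ ?_
    · intro v hv
      have hv' : v ∈ P := hv
      refine Finset.mem_coe.2 (Finset.mem_product.2 ⟨?_, ?_⟩)
      · exact Fintype.mem_piFinset.2 fun i => Finset.mem_image_of_mem _ hv'
      · exact Fintype.mem_piFinset.2 fun j => Fintype.mem_piFinset.1 hv' j
    · intro v hv v' hv' he
      have he1 := (Prod.mk.inj he).1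
      have he2 := (Prod.mk.inj he).2
      have h1 := key v hv v' hv' fun i hi => congrFun he1 ⟨i, hi⟩
      have h2 := hJ₂' _ h1 fun j hj => by
        have h3 : v j = v' j := congrFun he2 ⟨j, hj⟩
        simp [h3]
      funext j
      have h3 : ((v j - v' j : 𝓞 K) : K) = 0 := congrFun h2 j
      have h4 : v j - v' j = 0 := by
        apply FaithfulSMul.algebraMap_injective (𝓞 K) K
        rw [map_zero]
        exact h3
      exact sub_eq_zero.1 h4
  have hcard' : ((P.card : ℕ) : ℝ) ≤ (Z * (H + 1)) ^ (finrank ℚ K * J₁.card) *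
      ((H : ℝ) + 1) ^ (finrank ℚ K * J₂.card) := by
    refine (Nat.cast_le.2 hcount).trans ?_
    rw [Finset.card_product, Nat.cast_mul]
    refine mul_le_mul ?_ ?_ (Nat.cast_nonneg _) (by positivity)
    · rw [Fintype.card_piFinset, Nat.cast_prod]
      calc ∏ i : J₁, ((S' i).card : ℝ) ≤ ∏ _i : J₁, (Z * (H + 1)) ^ finrank ℚ K :=
            prod_le_prod (fun _ _ => Nat.cast_nonneg _) fun i _ => hS'card i
        _ = _ := by
            rw [prod_const, card_univ, Fintype.card_coe, ← pow_mul]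
    · rw [Fintype.card_piFinset, prod_const, hS, card_univ, Fintype.card_coe, ← pow_mul]
      push_cast
      exact le_rfl
  have har := SIE.arith (D := finrank ℚ K) (N := Fintype.card ι) (s := finrank K (kerA A))
    (w := finrank K W) (ρ := finrank K (LinearMap.range T)) (a := J₁.card) (b := J₂.card)
    (q := q) (H := H) (Z := Z) hD hZ hrank hJ₁ hJ₂ hι hcard hH1
  refine absurd hcard' (not_le.2 ?_)
  rw [hPcard, ← pow_mul]
  push_cast
  exact har

end Pool.Agent.Work.MP_8d13b5_lc.Fm
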