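import Pool.Agent.Work.MP_8d13b5_lc.Fm.Stmts

set_option autoImplicit false

/-! Block `Fm`, item THM. -/

namespace Pool.Agent.Work.MP_8d13b5_lc.Fm

open Polynomial NumberField Finset Module

namespace THM

section
variable {K : Type} [Field K] [NumberField K]

lemma one_le_norm {z : 𝓞 K} (hz : z ≠ 0) : 1 ≤ ∏ φ : K →+* ℂ, ‖res φ z‖ := by
  have h1 : algebraMap ℚ ℂ (Algebra.norm ℚ (z : K)) = ∏ φ : K →ₐ[ℚ] ℂ, φ z :=
    Algebra.norm_eq_prod_embeddings ℚ ℂ (z : K)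
  have h2 : ‖algebraMap ℚ ℂ (Algebra.norm ℚ (z : K))‖ = ∏ φ : K →+* ℂ, ‖res φ z‖ := by
    rw [h1, norm_prod]
    exact (Fintype.prod_equiv (RingHom.equivRatAlgHom K ℂ) (fun φ : K →+* ℂ => ‖res φ z‖)
      (fun φ : K →ₐ[ℚ] ℂ => ‖φ (z : K)‖) fun φ => rfl).symm
  rw [← h2]
  have h3 : Algebra.norm ℚ (z : K) = ((Algebra.norm ℤ z : ℤ) : ℚ) := (Algebra.coe_norm_int z).symm
  rw [h3]
  have h4 : Algebra.norm ℤ z ≠ 0 := Algebra.norm_ne_zero_iff.2 hz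
  have h5 : (1 : ℤ) ≤ |Algebra.norm ℤ z| := Int.one_le_abs h4
  simp only [map_intCast]
  rw [Complex.norm_intCast]
  exact_mod_cast h5

omit [NumberField K] in
lemma tt_nonneg (φ : K →+* ℂ) (x y : 𝓞 K) : 0 ≤ tt φ x y :=
  le_max_of_le_left (norm_nonneg _)

lemma one_le_TT {x y : 𝓞 K} (hy : y ≠ 0) : 1 ≤ TT x y :=
  (one_le_norm hy).trans
    (prod_le_prod (fun φ _ => norm_nonneg _) fun φ _ => le_max_right _ _)

lemma one_le_TT' {x y : 𝓞 K} (h : IsCoprime x y) : 1 ≤ TT x y := by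
  by_cases hy : y = 0
  · have hx : x ≠ 0 := by
      rintro rfl
      subst hy
      obtain ⟨a, b, h1⟩ := h
      simp at h1
    exact (one_le_norm hx).trans
      (prod_le_prod (fun φ _ => norm_nonneg _) fun φ _ => le_max_left _ _)
  · exact one_le_TT hy

lemma one_le_HH {k : ℕ} {a : Fin k → 𝓞 K} (ha : a ≠ 0) : 1 ≤ HH a := by
  obtain ⟨j, hj⟩ := Function.ne_iff.1 ha
  refine (one_le_norm hj).trans (prod_le_prod (fun φ _ => norm_nonneg _) fun φ _ => ?_)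
  exact single_le_sum (f := fun j => ‖res φ (a j)‖) (fun i _ => norm_nonneg _) (mem_univ j)

lemma TT_zero {x : 𝓞 K} (h : IsCoprime x 0) : TT x (0 : 𝓞 K) = 1 := by
  rw [isCoprime_zero_right] at h
  obtain ⟨u, rfl⟩ := h
  have h1 : ∏ φ : K →+* ℂ, ‖res φ (u : 𝓞 K)‖ * ‖res φ ((u⁻¹ : (𝓞 K)ˣ) : 𝓞 K)‖ = 1 := by
    refine prod_eq_one fun φ _ => ?_
    rw [← norm_mul, ← map_mul, Units.mul_inv, map_one, norm_one]
  rw [prod_mul_distrib] at h1
  have h2 := one_le_norm (K := K) (z := (u : 𝓞 K)) u.ne_zero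
  have h3 := one_le_norm (K := K) (z := ((u⁻¹ : (𝓞 K)ˣ) : 𝓞 K)) (u⁻¹).ne_zero
  have h4 : TT (u : 𝓞 K) 0 = ∏ φ : K →+* ℂ, ‖res φ (u : 𝓞 K)‖ := by
    unfold TT tt
    refine prod_congr rfl fun φ _ => ?_
    rw [map_zero, norm_zero]
    exact max_eq_left (norm_nonneg _)
  rw [h4]
  refine le_antisymm ?_ h2
  rw [← h1]
  exact le_mul_of_one_le_right (by linarith) h3

end

/-- The computation with the exponents. -/
lemma calc1 {T C H c₀ R M : ℝ} {m e q n h N₁ D s l : ℕ} (hT : 1 ≤ T) (hC : 1 ≤ C) (hH : 1 ≤ H)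
    (hc : 0 < c₀) (hR : 1 ≤ R) (hM : 1 ≤ M) (hn : 1 ≤ n)
    (hN : N₁ = (q + 1) * m ^ 2 * (1 + e * (m + 1))) (hh : h * N₁ ≤ n)
    (hs : s + l ≤ e * n + m * h * (1 + e * (m + 1))) (hl : n ≤ m * l + m ^ 2 * e)
    (hmain : (c₀ ^ D * T ^ e) ^ n ≤ M ^ D * R ^ ((m + 1) * n) * H *
      (C ^ (n * D * (m - 1)) * T ^ s)) :
    T ^ (n * q) ≤ ((M ^ D * R ^ (m + 1) * C ^ (D * m) * (c₀ ^ D)⁻¹) ^ n * T ^ (m * e) * H) ^
      ((q + 1) * m) := by
  have hT0 : 0 < T := by linarith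
  have hC0 : 0 < C := by linarith
  have hR0 : 0 < R := by linarith
  have hM0 : 0 < M := by linarith
  have hH0 : 0 < H := by linarith
  have hcD : 0 < c₀ ^ D := pow_pos hc D
  set Q : ℝ := M ^ D * R ^ (m + 1) * C ^ (D * m) * (c₀ ^ D)⁻¹ with hQ
  have hQ0 : 0 < Q := by positivity
  have h1 : T ^ (e * n) ≤ Q ^ n * H * T ^ s := by
    have h2 : M ^ D * R ^ ((m + 1) * n) * H * (C ^ (n * D * (m - 1)) * T ^ s) ≤
        (M ^ D * R ^ (m + 1) * C ^ (D * m)) ^ n * H * T ^ s := by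
      rw [mul_pow, mul_pow, ← pow_mul, ← pow_mul, ← pow_mul]
      have h3 : M ^ D ≤ M ^ (D * n) := pow_le_pow_right₀ hM (Nat.le_mul_of_pos_right _ hn)
      have h4 : C ^ (n * D * (m - 1)) ≤ C ^ (D * m * n) := by
        refine pow_le_pow_right₀ hC ?_
        calc n * D * (m - 1) ≤ n * D * m := Nat.mul_le_mul_left _ (Nat.sub_le _ _)
          _ = D * m * n := by ring
      calc M ^ D * R ^ ((m + 1) * n) * H * (C ^ (n * D * (m - 1)) * T ^ s)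
          ≤ M ^ (D * n) * R ^ ((m + 1) * n) * H * (C ^ (D * m * n) * T ^ s) := by gcongr
        _ = M ^ (D * n) * R ^ ((m + 1) * n) * C ^ (D * m * n) * H * T ^ s := by ring
    have h5 := hmain.trans h2
    have h6 : (c₀ ^ D * T ^ e) ^ n = (c₀ ^ D) ^ n * T ^ (e * n) := by
      rw [mul_pow, ← pow_mul T]
    rw [h6] at h5
    have h7 : Q ^ n = (M ^ D * R ^ (m + 1) * C ^ (D * m)) ^ n * ((c₀ ^ D) ^ n)⁻¹ := by
      rw [hQ, mul_pow _ (c₀ ^ D)⁻¹, inv_pow]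
    rw [h7]
    have h8 : 0 < (c₀ ^ D) ^ n := by positivity
    calc T ^ (e * n) = (c₀ ^ D) ^ n * T ^ (e * n) * ((c₀ ^ D) ^ n)⁻¹ := by
          field_simp
      _ ≤ (M ^ D * R ^ (m + 1) * C ^ (D * m)) ^ n * H * T ^ s * ((c₀ ^ D) ^ n)⁻¹ := by gcongr
      _ = _ := by ring
  set k := m * h * (1 + e * (m + 1)) with hk
  have h2 : T ^ l ≤ Q ^ n * H * T ^ k := by
    have h3 : T ^ (e * n) * T ^ l ≤ T ^ (e * n) * (Q ^ n * H * T ^ k) := by
      calc T ^ (e * n) * T ^ l ≤ Q ^ n * H * T ^ s * T ^ l := by gcongr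
        _ = Q ^ n * H * T ^ (s + l) := by rw [pow_add]; ring
        _ ≤ Q ^ n * H * T ^ (e * n + k) := by
            have := pow_le_pow_right₀ hT hs
            gcongr
        _ = T ^ (e * n) * (Q ^ n * H * T ^ k) := by rw [pow_add]; ring
    exact le_of_mul_le_mul_left h3 (by positivity)
  have h3 : k * ((q + 1) * m) ≤ n := by
    refine le_trans (le_of_eq ?_) hh
    rw [hN, hk]
    ring
  have h4 : (q + 1) * n ≤ l * ((q + 1) * m) + (m * e) * ((q + 1) * m) := by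
    calc (q + 1) * n ≤ (q + 1) * (m * l + m ^ 2 * e) := Nat.mul_le_mul_left _ hl
      _ = _ := by ring
  have h5 : T ^ n * T ^ (n * q) ≤ T ^ n * (Q ^ n * T ^ (m * e) * H) ^ ((q + 1) * m) := by
    calc T ^ n * T ^ (n * q) = T ^ ((q + 1) * n) := by rw [← pow_add]; ring_nf
      _ ≤ T ^ (l * ((q + 1) * m) + (m * e) * ((q + 1) * m)) := pow_le_pow_right₀ hT h4
      _ = (T ^ l) ^ ((q + 1) * m) * (T ^ (m * e)) ^ ((q + 1) * m) := by
          rw [pow_add, pow_mul, pow_mul T (m * e)]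
      _ ≤ (Q ^ n * H * T ^ k) ^ ((q + 1) * m) * (T ^ (m * e)) ^ ((q + 1) * m) := by gcongr
      _ = T ^ (k * ((q + 1) * m)) * (Q ^ n * T ^ (m * e) * H) ^ ((q + 1) * m) := by
          have e1 : T ^ (k * ((q + 1) * m)) = (T ^ k) ^ ((q + 1) * m) := pow_mul _ _ _
          rw [e1, ← mul_pow, ← mul_pow]
          congr 1
          ring
      _ ≤ T ^ n * (Q ^ n * T ^ (m * e) * H) ^ ((q + 1) * m) := by
          have := pow_le_pow_right₀ hT h3
          gcongr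
  exact le_of_mul_le_mul_left h5 (by positivity)

end THM

open THM in
theorem prTHM (hVEC : StVEC) (hEND : StEND) (hIDL : StIDL) (hLOW : StLOW) : StTHM := by
  intro K _ _ m e lam hm hfam q
  set N₁ : ℕ := (q + 1) * m ^ 2 * (1 + e * (m + 1)) with hN₁
  have hN₁pos : 1 ≤ N₁ := by
    rw [hN₁]
    exact Nat.succ_le_of_lt (by positivity)
  obtain ⟨C, hC, hV⟩ := hVEC K m e lam hm hfam N₁ hN₁pos
  obtain ⟨R₀, hR₀, hI⟩ := hIDL (𝓞 K) m e lam hfam
  obtain ⟨c₀, hc₀, hc₁, hL⟩ := hLOW K m e lam hfam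
  set D := finrank ℚ K with hD
  set M : ℝ := (m.factorial : ℝ) with hM
  set R : ℝ := ∏ φ : K →+* ℂ, ‖res φ R₀‖ with hR
  have hM1 : 1 ≤ M := by
    rw [hM]
    exact_mod_cast Nat.one_le_iff_ne_zero.2 (Nat.factorial_ne_zero m)
  have hR1 : 1 ≤ R := one_le_norm hR₀
  have hcD : 0 < c₀ ^ D := pow_pos hc₀ D
  set Q : ℝ := M ^ D * R ^ (m + 1) * C ^ (D * m) * (c₀ ^ D)⁻¹ with hQ
  have hQ1 : 1 ≤ Q := by
    have h1 : 1 ≤ M ^ D := one_le_pow₀ hM1
    have h2 : 1 ≤ R ^ (m + 1) := one_le_pow₀ hR1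
    have h3 : 1 ≤ C ^ (D * m) := one_le_pow₀ hC
    have h4 : 1 ≤ (c₀ ^ D)⁻¹ := (one_le_inv₀ hcD).2 (pow_le_one₀ hc₀.le hc₁)
    rw [hQ]
    exact one_le_mul_of_one_le_of_one_le (one_le_mul_of_one_le_of_one_le
      (one_le_mul_of_one_le_of_one_le h1 h2) h3) h4
  refine ⟨Q, hQ1, ?_⟩
  intro x y hxy hne n a ha hrel
  have hT : 1 ≤ TT x y := one_le_TT' hxy
  have hH : 1 ≤ HH a := one_le_HH ha
  have hRHS : ∀ k : ℕ, 1 ≤ (Q ^ (k + 1) * TT x y ^ (m * e) * HH a) ^ ((q + 1) * m) := by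
    intro k
    exact one_le_pow₀ (one_le_mul_of_one_le_of_one_le
      (one_le_mul_of_one_le_of_one_le (one_le_pow₀ hQ1) (one_le_pow₀ hT)) hH)
  rcases Nat.eq_zero_or_pos n with rfl | hn
  · rw [zero_mul, pow_zero]
    exact hRHS 0
  by_cases hy : y = 0
  · subst hy
    have h1 := hRHS n
    rw [TT_zero hxy] at h1 ⊢
    rw [one_pow (n * q)]
    exact h1
  obtain ⟨ℓ, r, V, hℓ, hℓ', hr, hVi, hVr, hVs⟩ := hV n hn x y hy hne
  obtain ⟨b, hb⟩ := hI x y hxy n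
  have hg : R₀ ^ ((m + 1) * n) ≠ 0 := pow_ne_zero _ hR₀
  set h := n / N₁ with hh
  obtain ⟨i₀, hi₀⟩ := hEND K m (fun j => hev e (lam j) x y ^ n) a b (R₀ ^ ((m + 1) * n)) V
    (fun φ => (c₀ * tt φ x y ^ e) ^ n)
    (fun i φ => C ^ n * tt φ x y ^ (ℓ i + h + e * (m + 1) * r i)) hm ha hg hb hrel hVr hVi
    (by
      intro φ
      have h0 := tt_nonneg φ x y
      refine ⟨by positivity, ?_⟩
      obtain ⟨j, hj⟩ := hL φ x y
      refine ⟨j, ?_⟩
      rw [map_pow, norm_pow]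
      exact pow_le_pow_left₀ (by positivity) hj n)
    (fun i φ j => hVs φ i j)
  have hcard : (univ : Finset (K →+* ℂ)).card = D := by
    rw [card_univ, NumberField.Embeddings.card]
  have e1 : ∏ φ : K →+* ℂ, (c₀ * tt φ x y ^ e) ^ n = (c₀ ^ D * TT x y ^ e) ^ n := by
    rw [prod_pow, prod_mul_distrib, prod_const, hcard, prod_pow]
    rfl
  have e2 : ∏ φ : K →+* ℂ, ‖res φ (R₀ ^ ((m + 1) * n))‖ = R ^ ((m + 1) * n) := by
    rw [hR, ← prod_pow]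
    exact prod_congr rfl fun φ _ => by rw [map_pow, norm_pow]
  have e3 : ∀ i, ∏ φ : K →+* ℂ, C ^ n * tt φ x y ^ (ℓ i + h + e * (m + 1) * r i) =
      C ^ (n * D) * TT x y ^ (ℓ i + h + e * (m + 1) * r i) := by
    intro i
    rw [prod_mul_distrib, prod_const, hcard, prod_pow, ← pow_mul]
    rfl
  have e4 : ∏ i ∈ univ.erase i₀, ∏ φ : K →+* ℂ,
      C ^ n * tt φ x y ^ (ℓ i + h + e * (m + 1) * r i) =
      C ^ (n * D * (m - 1)) * TT x y ^ ∑ i ∈ univ.erase i₀, (ℓ i + h + e * (m + 1) * r i) := by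
    rw [prod_congr rfl fun i _ => e3 i, prod_mul_distrib, prod_const, prod_pow_eq_pow_sum,
      card_erase_of_mem (mem_univ i₀), card_univ, Fintype.card_fin, ← pow_mul]
  beta_reduce at hi₀
  rw [e1, e2, e4] at hi₀
  have hs : (∑ i ∈ univ.erase i₀, (ℓ i + h + e * (m + 1) * r i)) + ℓ i₀ ≤
      e * n + m * h * (1 + e * (m + 1)) := by
    have h1 : (∑ i ∈ univ.erase i₀, (ℓ i + h + e * (m + 1) * r i)) + ℓ i₀ ≤
        ∑ i, (ℓ i + h + e * (m + 1) * r i) := by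
      rw [← sum_erase_add _ _ (mem_univ i₀)]
      refine Nat.add_le_add_left ?_ _
      rw [add_assoc]
      exact Nat.le_add_right _ _
    refine h1.trans ?_
    rw [sum_add_distrib, sum_add_distrib, sum_const, card_univ, Fintype.card_fin, smul_eq_mul,
      ← mul_sum]
    have h2 : e * (m + 1) * ∑ i, r i ≤ e * (m + 1) * (m * h) := Nat.mul_le_mul_left _ hr
    calc ∑ i, ℓ i + m * h + e * (m + 1) * ∑ i, r i ≤ e * n + m * h + e * (m + 1) * (m * h) :=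
          Nat.add_le_add (Nat.add_le_add_right hℓ _) h2
      _ = _ := by ring
  have hfin := calc1 (T := TT x y) (C := C) (H := HH a) (c₀ := c₀) (R := R) (M := M) (q := q)
    hT hC hH hc₀ hR1 hM1 hn hN₁ (Nat.div_mul_le_self n N₁) hs (hℓ' i₀) hi₀
  refine hfin.trans ?_
  have h1 : Q ^ n ≤ Q ^ (n + 1) := pow_le_pow_right₀ hQ1 (Nat.le_succ n)
  have hT0 : 0 ≤ TT x y := by linarith
  have hH0 : 0 ≤ HH a := by linarith
  have hQ0 : 0 ≤ Q := by linarith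
  gcongr

end Pool.Agent.Work.MP_8d13b5_lc.Fm
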