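import Pool.Agent.Work.MP_8d13b5_lc.Fm.Stmts

set_option autoImplicit false

/-! Block `Fm`, item VEC: the auxiliary vectors. -/

namespace Pool.Agent.Work.MP_8d13b5_lc.Fm

open Polynomial NumberField Finset Module

namespace VEC

section field
variable {K : Type} [Field K] [NumberField K]

/-- clearing denominators -/
lemma clear (p : K[X]) : ∃ b : 𝓞 K, b ≠ 0 ∧ ∃ G : (𝓞 K)[X],
    G.map (algebraMap (𝓞 K) K) = C (algebraMap (𝓞 K) K b) * p := by
  obtain ⟨b, hb0, hb⟩ := IsLocalization.integerNormalization_spec (nonZeroDivisors (𝓞 K)) p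
  refine ⟨b, nonZeroDivisors.ne_zero hb0, _, hb.trans ?_⟩
  rw [← smul_eq_C_mul, algebraMap_smul]

/-- independence over polynomial rings -/
lemma indep_map {m k : ℕ} (Q : Fin m → Fin k → (𝓞 K)[X]) (h : LinearIndependent (𝓞 K)[X] Q) :
    LinearIndependent K[X] (fun i j => (Q i j).map (algebraMap (𝓞 K) K)) := by
  classical
  rw [Fintype.linearIndependent_iff] at h ⊢
  intro g hg
  choose b hb G hG using fun i => clear (g i)
  have hB : ∀ i, (G i * C (∏ l ∈ univ.erase i, b l)).map (algebraMap (𝓞 K) K) =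
      C (algebraMap (𝓞 K) K (∏ l, b l)) * g i := by
    intro i
    rw [Polynomial.map_mul, hG, map_C, ← mul_prod_erase univ b (mem_univ i), map_mul, C_mul]
    ring
  have h1 := h (fun i => G i * C (∏ l ∈ univ.erase i, b l)) (by
    funext j
    have h2 := congrFun hg j
    rw [Finset.sum_apply] at h2 ⊢
    simp only [Pi.smul_apply, smul_eq_mul, Pi.zero_apply] at h2 ⊢
    apply Polynomial.map_injective _ (FaithfulSMul.algebraMap_injective (𝓞 K) K)
    rw [Polynomial.map_sum, Polynomial.map_zero]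
    have h3 : ∀ i ∈ (univ : Finset (Fin m)), (G i * C (∏ l ∈ univ.erase i, b l) * Q i j).map
        (algebraMap (𝓞 K) K) = C (algebraMap (𝓞 K) K (∏ l, b l)) *
        (g i * (Q i j).map (algebraMap (𝓞 K) K)) := by
      intro i _
      rw [Polynomial.map_mul, hB, mul_assoc]
    rw [sum_congr rfl h3, ← mul_sum, h2, mul_zero])
  intro i
  have h4 := hB i
  rw [h1 i, Polynomial.map_zero] at h4
  have h5 : C (algebraMap (𝓞 K) K (∏ l, b l)) ≠ (0 : K[X]) := by
    rw [Ne, C_eq_zero]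
    intro h6
    have h7 := (FaithfulSMul.algebraMap_eq_zero_iff (𝓞 K) K).1 h6
    exact prod_ne_zero_iff.2 (fun l _ => hb l) h7
  exact (mul_eq_zero.1 h4.symm).resolve_left h5

/-- derivatives and ring homomorphisms -/
lemma hasse_map {R S : Type} [CommRing R] [CommRing S] (ψ : R →+* S) (k : ℕ) (f : R[X]) :
    (hasseDeriv k f).map ψ = hasseDeriv k (f.map ψ) := by
  ext n
  rw [coeff_map, hasseDeriv_coeff, hasseDeriv_coeff, coeff_map, map_mul, map_natCast]

omit [NumberField K] in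
/-- powers of forms without a common zero -/
lemma exists_comb {m e : ℕ} {lam : Fin (m + 1) → (𝓞 K)[X]} (hF : IsFam e lam) (n : ℕ) :
    ∃ A : Fin (m + 1) → K[X], ∑ j, A j * ((lam j).map (algebraMap (𝓞 K) K)) ^ n = 1 := by
  obtain ⟨c, hc, A, hA⟩ := hF.cop
  have h1 : Ideal.span (Set.range fun j => (lam j).map (algebraMap (𝓞 K) K)) = ⊤ := by
    rw [Ideal.eq_top_iff_one, Ideal.mem_span_range_iff_exists_fun]
    have hc' : (algebraMap (𝓞 K) K) c ≠ 0 := fun h =>
      hc ((FaithfulSMul.algebraMap_eq_zero_iff (𝓞 K) K).1 h)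
    refine ⟨fun j => C ((algebraMap (𝓞 K) K c)⁻¹) * (A j).map (algebraMap (𝓞 K) K), ?_⟩
    have h2 := congrArg (Polynomial.map (algebraMap (𝓞 K) K)) hA
    rw [Polynomial.map_sum, map_C] at h2
    have h3 : ∀ j ∈ (univ : Finset (Fin (m + 1))), C ((algebraMap (𝓞 K) K c)⁻¹) *
        (A j).map (algebraMap (𝓞 K) K) * (lam j).map (algebraMap (𝓞 K) K) =
        C ((algebraMap (𝓞 K) K c)⁻¹) * (A j * lam j).map (algebraMap (𝓞 K) K) := by
      intro j _
      rw [Polynomial.map_mul, mul_assoc]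
    rw [sum_congr rfl h3, ← mul_sum, h2, ← C_mul, inv_mul_cancel₀ hc', C_1]
  have h4 := Ideal.span_pow_eq_top _ h1 n
  rw [Ideal.eq_top_iff_one, ← Set.range_comp, Ideal.mem_span_range_iff_exists_fun] at h4
  exact h4

end field

end VEC

open VEC

theorem prVEC (hGRE : StGRE) (hORD : StORD) (hHDP : StHDP) (hHEV : StHEV) (hPN : StPN) :
    StVEC := by
  classical
  intro K _ _ m e lam hm hF N₁ hN₁
  obtain ⟨C₁, hC₁, hG⟩ := hGRE K m e lam hm hF N₁ hN₁
  obtain ⟨hHR, hHF, hHM, hHN⟩ := hHEV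
  set ι : 𝓞 K →+* K := algebraMap (𝓞 K) K with hι
  have hinj : Function.Injective ι := FaithfulSMul.algebraMap_injective (𝓞 K) K
  -- the bound of the coefficients of the forms
  set Λ : ℝ := 1 + ∑ φ : K →+* ℂ, ∑ j, pn (res φ) (lam j) with hΛ
  have hpn0 : ∀ (φ : K →+* ℂ) (P : (𝓞 K)[X]), 0 ≤ pn (res φ) P := fun φ P =>
    (hPN (𝓞 K) (res φ)).1 P
  have hΛ1 : 1 ≤ Λ := by
    rw [hΛ]
    have : 0 ≤ ∑ φ : K →+* ℂ, ∑ j, pn (res φ) (lam j) :=
      sum_nonneg fun φ _ => sum_nonneg fun j _ => hpn0 φ _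
    linarith
  have hΛj : ∀ (φ : K →+* ℂ) j, pn (res φ) (lam j) ≤ Λ := by
    intro φ j
    have h1 : pn (res φ) (lam j) ≤ ∑ j, pn (res φ) (lam j) :=
      single_le_sum (f := fun j => pn (res φ) (lam j)) (fun j _ => hpn0 φ _) (mem_univ j)
    have h2 : ∑ j, pn (res φ) (lam j) ≤ ∑ φ : K →+* ℂ, ∑ j, pn (res φ) (lam j) :=
      single_le_sum (f := fun φ : K →+* ℂ => ∑ j, pn (res φ) (lam j))
        (fun φ _ => sum_nonneg fun j _ => hpn0 φ _) (mem_univ φ)
    rw [hΛ]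
    linarith
  set CC : ℝ := 2 ^ (e + 1) * C₁ * (1 + e * 2 ^ e) * Λ ^ ((m + 1) * m) with hCC
  have hCC1 : 1 ≤ CC := by
    have h1 : (1 : ℝ) ≤ 2 ^ (e + 1) := one_le_pow₀ (by norm_num)
    have h2 : (1 : ℝ) ≤ 1 + e * 2 ^ e := by
      have : (0 : ℝ) ≤ e * 2 ^ e := by positivity
      linarith
    have h3 : 1 ≤ Λ ^ ((m + 1) * m) := one_le_pow₀ hΛ1
    exact one_le_mul_of_one_le_of_one_le (one_le_mul_of_one_le_of_one_le
      (one_le_mul_of_one_le_of_one_le h1 hC₁) h2) h3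
  refine ⟨CC, hCC1, fun n hn x y hy hβ => ?_⟩
  obtain ⟨ℓ, Q, hℓ1, hℓ2, hQi, hQ0, hQd, hQn⟩ := hG n hn
  set h := n / N₁ with hh
  have hhn : h ≤ n := Nat.div_le_self _ _
  have hyK : ι y ≠ 0 := fun h0 => hy (hinj (by rw [h0, map_zero]))
  set t₀ : K := ι x / ι y with ht₀
  -- values of the forms
  have hval : ∀ (d : ℕ) (P : (𝓞 K)[X]), P.natDegree ≤ d →
      ι (hev d P x y) = ι y ^ d * (P.map ι).eval t₀ := by
    intro d P hP
    rw [hHM (𝓞 K) K ι d P x y]
    exact hHF K d (P.map ι) (ι x) (ι y) hyK ((natDegree_map_le).trans hP)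
  set u : Fin (m + 1) → K := fun j => ((lam j).map ι).eval t₀ with hu
  set β : Fin (m + 1) → 𝓞 K := fun j => hev e (lam j) x y with hβd
  have hβu : ∀ j, ι (β j) = ι y ^ e * u j := fun j => hval e (lam j) (hF.deg j)
  have hβK : ∀ j, ι (β j) ≠ 0 := fun j h0 => hβ j (hinj (by rw [h0, map_zero]))
  have hu0 : ∀ j, u j ≠ 0 := by
    intro j h0
    apply hβK j
    rw [hβu, h0, mul_zero]
  -- ORD
  obtain ⟨A, hA⟩ := exists_comb hF n
  have htop : ∃ j, e * n ≤ (((lam j).map ι) ^ n).natDegree := by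
    obtain ⟨j, hj⟩ := hF.top
    refine ⟨j, ?_⟩
    rw [natDegree_pow, mul_comm]
    refine Nat.mul_le_mul_left n ?_
    rw [natDegree_map_eq_of_injective hinj]
    exact le_natDegree_of_ne_zero hj
  have hsyz : ∀ i, ∑ j, (Q i j).map ι * ((lam j).map ι) ^ n = 0 := by
    intro i
    have h1 := congrArg (Polynomial.map ι) (hQ0 i)
    rw [Polynomial.map_sum, Polynomial.map_zero] at h1
    rw [← h1]
    refine sum_congr rfl fun j _ => ?_
    rw [Polynomial.map_mul, Polynomial.map_pow]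
  obtain ⟨r, hr1, hr2⟩ := hORD K m (e * n) (fun j => ((lam j).map ι) ^ n) A
    (fun i j => (Q i j).map ι) (fun i => ℓ i + h) t₀ htop hA (indep_map Q hQi) hsyz
    (fun i j => (natDegree_map_le).trans (hQd i j))
    (fun j => by
      rw [eval_pow]
      exact pow_ne_zero _ (hu0 j))
  have hrs : ∑ i, r i ≤ m * h := by
    rw [sum_add_distrib, sum_const, card_univ, Fintype.card_fin, smul_eq_mul] at hr1
    omega
  have hri : ∀ i, r i ≤ m * n := fun i =>
    (single_le_sum (f := r) (fun _ _ => Nat.zero_le _) (mem_univ i)).trans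
      (hrs.trans (Nat.mul_le_mul_left m hhn))
  have hℓi : ∀ i, ℓ i ≤ e * n := fun i =>
    (single_le_sum (f := ℓ) (fun _ _ => Nat.zero_le _) (mem_univ i)).trans hℓ1
  -- HDP
  choose S hS1 hS2 hS3 using fun (i : Fin m) (j : Fin (m + 1)) =>
    hHDP (𝓞 K) (lam j) (Q i j) e (ℓ i + h) n (r i) (hF.deg j) (hQd i j)
  set V : Fin m → Fin (m + 1) → 𝓞 K := fun i j =>
    hev (ℓ i + h + e * r i) (S i j) x y * ∏ l ∈ univ.erase j, β l ^ r i with hV
  set v : Fin m → Fin (m + 1) → K := fun i j =>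
    (hasseDeriv (r i) ((Q i j).map ι * ((lam j).map ι) ^ n)).eval t₀ with hv
  set μ : Fin m → K := fun i => ι y ^ (ℓ i + h + e * n) * (∏ l, ι (β l)) ^ r i with hμ
  have hμ0 : ∀ i, μ i ≠ 0 := fun i =>
    mul_ne_zero (pow_ne_zero _ hyK) (pow_ne_zero _ (prod_ne_zero_iff.2 fun l _ => hβK l))
  have hvS : ∀ i j, v i j * u j ^ r i = u j ^ n * ((S i j).map ι).eval t₀ := by
    intro i j
    have h1 := congrArg (fun P : (𝓞 K)[X] => (P.map ι).eval t₀) (hS1 i j)
    simp only [Polynomial.map_mul, Polynomial.map_pow, eval_mul, eval_pow] at h1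
    rw [hv, hu]
    beta_reduce
    rw [← h1, ← Polynomial.map_pow, ← Polynomial.map_mul, hasse_map]
  have key : ∀ i j, ι (V i j * β j ^ n) = μ i * v i j := by
    intro i j
    rw [hV, hμ]
    beta_reduce
    rw [map_mul, map_mul, map_pow, map_prod, hval _ _ (hS2 i j),
      ← mul_prod_erase univ (fun l => ι (β l)) (mem_univ j), mul_pow, ← prod_pow]
    simp only [map_pow]
    have h2 := hvS i j
    rw [hβu j]
    have h3 : ι y ^ (ℓ i + h + e * r i) = ι y ^ (ℓ i + h) * (ι y ^ e) ^ r i := by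
      rw [← pow_mul, ← pow_add]
    have h4 : ι y ^ (ℓ i + h + e * n) = ι y ^ (ℓ i + h) * (ι y ^ e) ^ n := by
      rw [← pow_mul, ← pow_add]
    rw [h3, h4, mul_pow, mul_pow]
    linear_combination (-(ι y ^ (ℓ i + h) * (ι y ^ e) ^ n * (ι y ^ e) ^ r i *
      ∏ l ∈ univ.erase j, ι (β l) ^ r i)) * h2
  refine ⟨ℓ, r, V, hℓ1, hℓ2, hrs, ?_, ?_, ?_⟩
  · rw [Fintype.linearIndependent_iff]
    intro g hg i
    have h1 := Fintype.linearIndependent_iff.1 hr2 (fun i => ι (g i) * μ i) (by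
      funext j
      have h2 := congrFun hg j
      rw [Finset.sum_apply] at h2 ⊢
      simp only [Pi.smul_apply, smul_eq_mul, Pi.zero_apply] at h2 ⊢
      have h3 : ∑ i, ι (g i) * (μ i * v i j) = ι ((∑ i, g i * V i j) * β j ^ n) := by
        rw [sum_mul, map_sum]
        refine sum_congr rfl fun i _ => ?_
        rw [← key, ← map_mul, mul_assoc (g i) (V i j) (β j ^ n)]
      rw [h2, zero_mul, map_zero] at h3
      rw [← h3]
      refine sum_congr rfl fun i _ => ?_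
      rw [hv]
      ring) i
    have h2 := (mul_eq_zero.1 h1).resolve_right (hμ0 i)
    exact hinj (by rw [h2, map_zero])
  · intro i
    apply hinj
    rw [map_sum, map_zero]
    have h1 : ∀ j ∈ (univ : Finset (Fin (m + 1))), ι (V i j * hev e (lam j) x y ^ n) =
        μ i * v i j := fun j _ => key i j
    rw [sum_congr rfl h1, ← mul_sum]
    have h2 : ∑ j, v i j = (hasseDeriv (r i)
        (∑ j, (Q i j).map ι * ((lam j).map ι) ^ n)).eval t₀ := by
      rw [map_sum, eval_finsetSum]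
    rw [h2, hsyz, map_zero, eval_zero, mul_zero]
  · intro φ i j
    set t := tt φ x y with ht
    have ht0 : 0 ≤ t := le_max_of_le_left (norm_nonneg _)
    have h1 : ‖res φ (hev (ℓ i + h + e * r i) (S i j) x y)‖ ≤
        pn (res φ) (S i j) * t ^ (ℓ i + h + e * r i) :=
      hHN (𝓞 K) (res φ) (ℓ i + h + e * r i) (S i j) x y (hS2 i j)
    have h2 : ∀ l, ‖res φ (β l)‖ ≤ Λ * t ^ e := fun l =>
      (hHN (𝓞 K) (res φ) e (lam l) x y (hF.deg l)).trans
        (mul_le_mul_of_nonneg_right (hΛj φ l) (pow_nonneg ht0 e))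
    have h3 : ‖res φ (∏ l ∈ univ.erase j, β l ^ r i)‖ ≤ ((Λ * t ^ e) ^ r i) ^ m := by
      rw [map_prod, norm_prod]
      have hc : (univ.erase j).card = m := by
        rw [card_erase_of_mem (mem_univ j), card_univ, Fintype.card_fin, Nat.add_sub_cancel]
      calc ∏ l ∈ univ.erase j, ‖res φ (β l ^ r i)‖
          ≤ ∏ l ∈ univ.erase j, (Λ * t ^ e) ^ r i := by
            refine prod_le_prod (fun l _ => norm_nonneg _) fun l _ => ?_
            rw [map_pow, norm_pow]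
            exact pow_le_pow_left₀ (norm_nonneg _) (h2 l) _
        _ = ((Λ * t ^ e) ^ r i) ^ m := by rw [prod_const, hc]
    have h4 : pn (res φ) (S i j) ≤ 2 ^ (ℓ i + h) * C₁ ^ n * (1 + e * 2 ^ e) ^ n * Λ ^ r i := by
      refine (hS3 i j (res φ) Λ hΛ1 (hΛj φ j)).trans ?_
      have := hQn φ i j
      gcongr
    have hb0 : 0 ≤ 2 ^ (ℓ i + h) * C₁ ^ n * (1 + e * 2 ^ e) ^ n * Λ ^ r i := by positivity
    have h5 : ‖res φ (V i j)‖ ≤ (2 ^ (ℓ i + h) * C₁ ^ n * (1 + e * 2 ^ e) ^ n * Λ ^ r i *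
        t ^ (ℓ i + h + e * r i)) * ((Λ * t ^ e) ^ r i) ^ m := by
      rw [hV]
      beta_reduce
      rw [map_mul, norm_mul]
      refine mul_le_mul (h1.trans (mul_le_mul_of_nonneg_right h4 (pow_nonneg ht0 _))) h3
        (norm_nonneg _) (mul_nonneg hb0 (pow_nonneg ht0 _))
    refine h5.trans ?_
    have h6 : (2 ^ (ℓ i + h) * C₁ ^ n * (1 + e * 2 ^ e) ^ n * Λ ^ r i *
        t ^ (ℓ i + h + e * r i)) * ((Λ * t ^ e) ^ r i) ^ m =
        (2 ^ (ℓ i + h) * C₁ ^ n * (1 + e * 2 ^ e) ^ n * Λ ^ ((m + 1) * r i)) *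
        t ^ (ℓ i + h + e * (m + 1) * r i) := by
      rw [mul_pow, mul_pow]
      ring
    rw [h6]
    refine mul_le_mul_of_nonneg_right ?_ (pow_nonneg ht0 _)
    have h7 : CC ^ n = 2 ^ ((e + 1) * n) * C₁ ^ n * (1 + e * 2 ^ e) ^ n *
        Λ ^ ((m + 1) * (m * n)) := by
      rw [hCC, mul_pow, mul_pow, mul_pow, ← pow_mul, ← pow_mul]
      ring
    rw [h7]
    have h8 : (2 : ℝ) ^ (ℓ i + h) ≤ 2 ^ ((e + 1) * n) :=
      pow_le_pow_right₀ (by norm_num) (by
        have := hℓi i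
        nlinarith)
    have h9 : Λ ^ ((m + 1) * r i) ≤ Λ ^ ((m + 1) * (m * n)) :=
      pow_le_pow_right₀ hΛ1 (Nat.mul_le_mul_left _ (hri i))
    gcongr

end Pool.Agent.Work.MP_8d13b5_lc.Fm
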