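import Pool.Agent.Work.MP_8d13b5_lc.Fm.Stmts

set_option autoImplicit false

/-! Item WDV of the block `Fm`: divisibility and degree of the Wronskian. -/

namespace Pool.Agent.Work.MP_8d13b5_lc.Fm

open Polynomial NumberField Finset Module

theorem prWDV : StWDV := by
  intro F _ r n N lam P hN
  constructor
  · have h : ∀ i j : Fin r, ∃ Q : F[X],
        derivative^[(i : ℕ)] (P j * lam j ^ n) = lam j ^ N * Q := by
      intro i j
      have h1 : lam j ^ (n - (i : ℕ)) ∣ derivative^[(i : ℕ)] (P j * lam j ^ n) :=
        pow_sub_dvd_iterate_derivative_of_pow_dvd _ (Dvd.intro_left _ rfl)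
      have h2 : N ≤ n - (i : ℕ) := by
        have := i.2
        omega
      exact (pow_dvd_pow _ h2).trans h1
    choose Q hQ using h
    have he : (Matrix.of fun i j : Fin r => derivative^[(i : ℕ)] (P j * lam j ^ n)) =
        Matrix.of fun i j : Fin r => (fun j => lam j ^ N) j * (Matrix.of Q) i j := by
      ext1 i j
      simp only [Matrix.of_apply]
      exact hQ i j
    rw [he, Matrix.det_mul_row, Finset.prod_pow]
    exact Dvd.intro _ rfl
  · rw [Matrix.det_apply]
    refine natDegree_sum_le_of_forall_le _ _ fun σ _ => ?_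
    have h1 : (Equiv.Perm.sign σ • ∏ i, (Matrix.of fun i j : Fin r =>
        derivative^[(i : ℕ)] (P j * lam j ^ n)) (σ i) i).natDegree ≤
        (∏ i, (Matrix.of fun i j : Fin r =>
        derivative^[(i : ℕ)] (P j * lam j ^ n)) (σ i) i).natDegree := by
      rcases Int.units_eq_one_or (Equiv.Perm.sign σ) with h | h
      · rw [h, one_smul]
      · rw [h, Units.neg_smul, one_smul, natDegree_neg]
    refine h1.trans ((natDegree_prod_le _ _).trans ?_)
    refine Finset.sum_le_sum fun j _ => ?_
    simp only [Matrix.of_apply]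
    exact (natDegree_iterate_derivative _ _).trans (Nat.sub_le _ _)

end Pool.Agent.Work.MP_8d13b5_lc.Fm
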