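import Pool.Agent.Work.MP_8d13b5_lc.Fm.Stmts

set_option autoImplicit false

/-!
# Block Fm, item WRN (helper35): the Wronskian of independent polynomials
-/

namespace Pool.Agent.Work.MP_8d13b5_lc.Fm

open Polynomial NumberField Finset Module

namespace WRN

variable {F : Type} [Field F]

lemma coeff_prod {ι : Type} (s : Finset ι) (p : ι → F[X]) (n : ι → ℕ)
    (h : ∀ j ∈ s, (p j).natDegree ≤ n j) :
    (∏ j ∈ s, p j).natDegree ≤ ∑ j ∈ s, n j ∧
      (∏ j ∈ s, p j).coeff (∑ j ∈ s, n j) = ∏ j ∈ s, (p j).coeff (n j) := by
  classical
  induction s using Finset.induction_on with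
  | empty => simp
  | insert a s ha ih =>
    obtain ⟨h1, h2⟩ := ih (fun j hj => h j (Finset.mem_insert_of_mem hj))
    have h3 := h a (Finset.mem_insert_self a s)
    rw [Finset.prod_insert ha, Finset.sum_insert ha, Finset.prod_insert ha]
    refine ⟨(natDegree_mul_le).trans (add_le_add h3 h1), ?_⟩
    rw [coeff_mul_add_eq_of_natDegree_le h3 h1, h2]

lemma coeff_det {l : ℕ} (M : Matrix (Fin l) (Fin l) F[X]) (n : Fin l → ℕ)
    (h : ∀ i j, (M i j).natDegree ≤ n j) :
    M.det.coeff (∑ j, n j) = (Matrix.of fun i j => (M i j).coeff (n j)).det := by
  rw [Matrix.det_apply, Matrix.det_apply, finsetSum_coeff]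
  apply Finset.sum_congr rfl
  intro σ _
  have h1 := (coeff_prod Finset.univ (fun j => M (σ j) j) n (fun j _ => h _ _)).2
  simp only [Matrix.of_apply]
  rw [← h1]
  rcases Int.units_eq_one_or (Equiv.Perm.sign σ) with hs | hs
  · rw [hs]; simp
  · rw [hs]; simp

lemma det_desc [CharZero F] {l : ℕ} (d : Fin l → ℕ) (hd : Function.Injective d) :
    (Matrix.of fun i j : Fin l => ((d j).descFactorial (i : ℕ) : F)).det ≠ 0 := by
  have h1 := Matrix.det_eval_matrixOfPolynomials_eq_det_vandermonde (fun j => (d j : F))
    (fun i : Fin l => descPochhammer F (i : ℕ)) (fun i => descPochhammer_natDegree F _)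
    (fun i => monic_descPochhammer F _)
  have h2 : (Matrix.of fun (i j : Fin l) => ((fun i : Fin l => descPochhammer F (i : ℕ)) j).eval
      ((fun j => (d j : F)) i)) =
      (Matrix.of fun i j : Fin l => ((d j).descFactorial (i : ℕ) : F)).transpose := by
    ext i j
    simp only [Matrix.of_apply, Matrix.transpose_apply]
    rw [descPochhammer_eval_eq_descFactorial]
  rw [h2, Matrix.det_transpose] at h1
  have h3 : (Matrix.vandermonde fun j => (d j : F)).det ≠ 0 := by
    rw [Matrix.det_vandermonde_ne_zero_iff]
    intro i j hij
    have hij' : (d i : F) = (d j : F) := hij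
    exact hd (by exact_mod_cast hij')
  rw [← h1]
  exact h3

/-- the case of distinct degrees -/
lemma distinct [CharZero F] {l : ℕ} (f : Fin l → F[X]) (hf : ∀ j, f j ≠ 0)
    (hd : Function.Injective fun j => (f j).natDegree) :
    (Matrix.of fun i j : Fin l => derivative^[(i : ℕ)] (f j)).det ≠ 0 := by
  intro h0
  have h1 : (Matrix.of fun i j : Fin l => (X : F[X]) ^ (i : ℕ) *
      (Matrix.of fun i j : Fin l => derivative^[(i : ℕ)] (f j)) i j).det = 0 := by
    rw [Matrix.det_mul_column (fun i : Fin l => (X : F[X]) ^ (i : ℕ))
      (Matrix.of fun i j : Fin l => derivative^[(i : ℕ)] (f j)), h0, mul_zero]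
  have hco : ∀ i j : Fin l, ((X : F[X]) ^ (i : ℕ) * derivative^[(i : ℕ)] (f j)).coeff
      (f j).natDegree = (f j).leadingCoeff * ((f j).natDegree.descFactorial (i : ℕ) : F) := by
    intro i j
    rw [coeff_X_pow_mul']
    split_ifs with hij
    · rw [coeff_iterate_derivative, Nat.sub_add_cancel hij, nsmul_eq_mul, mul_comm]
      rfl
    · rw [Nat.descFactorial_eq_zero_iff_lt.2 (not_le.mp hij)]
      simp
  have hdeg : ∀ i j : Fin l, ((X : F[X]) ^ (i : ℕ) * derivative^[(i : ℕ)] (f j)).natDegree ≤
      (f j).natDegree := by
    intro i j
    by_cases hij : (i : ℕ) ≤ (f j).natDegree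
    · refine natDegree_mul_le.trans ?_
      have h2 := natDegree_iterate_derivative (f j) (i : ℕ)
      rw [natDegree_X_pow]
      omega
    · have h2 : derivative^[(i : ℕ)] (f j) = 0 := iterate_derivative_eq_zero (not_le.mp hij)
      rw [h2, mul_zero, natDegree_zero]
      exact Nat.zero_le _
  have h2 := coeff_det (Matrix.of fun i j : Fin l => (X : F[X]) ^ (i : ℕ) *
      (Matrix.of fun i j : Fin l => derivative^[(i : ℕ)] (f j)) i j) (fun j => (f j).natDegree)
      (fun i j => hdeg i j)
  rw [h1, coeff_zero] at h2
  have h3 : (Matrix.of fun i j : Fin l => ((Matrix.of fun i j : Fin l => (X : F[X]) ^ (i : ℕ) *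
      (Matrix.of fun i j : Fin l => derivative^[(i : ℕ)] (f j)) i j) i j).coeff (f j).natDegree) =
      Matrix.of fun i j : Fin l => (f j).leadingCoeff *
        (Matrix.of fun i j : Fin l => (((f j).natDegree).descFactorial (i : ℕ) : F)) i j := by
    ext i j
    simp only [Matrix.of_apply]
    exact hco i j
  rw [h3, Matrix.det_mul_row] at h2
  have h4 : ∏ j, (f j).leadingCoeff ≠ 0 := Finset.prod_ne_zero_iff.mpr
    (fun j _ => leadingCoeff_ne_zero.mpr (hf j))
  exact mul_ne_zero h4 (det_desc (fun j => (f j).natDegree) hd) h2.symm

end WRN

open WRN in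
theorem prWRN : StWRN := by
  intro F _ _ l f hf
  classical
  -- strong induction on the sum of the degrees
  induction hn : ∑ j, (f j).natDegree using Nat.strong_induction_on generalizing f with
  | _ n ih =>
    by_cases hinj : Function.Injective fun j => (f j).natDegree
    · exact distinct f (fun j => hf.ne_zero j) hinj
    · obtain ⟨a, b, hab, hne⟩ : ∃ a b, (f a).natDegree = (f b).natDegree ∧ a ≠ b := by
        by_contra hcon
        push Not at hcon
        exact hinj (fun a b hab => hcon a b hab)
      -- replace `f a` by `f a - c * f b`
      let c : F := -((f a).leadingCoeff / (f b).leadingCoeff)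
      let g : Fin l → F[X] := Function.update f a (f a + c • f b)
      have hlb : (f b).leadingCoeff ≠ 0 := leadingCoeff_ne_zero.mpr (hf.ne_zero b)
      have hg : LinearIndependent F g := by
        rw [Fintype.linearIndependent_iff]
        intro β hβ
        have h1 : ∑ j, (Function.update β b (β b + c * β a)) j • f j = 0 := by
          have e1 : ∑ j, β j • g j = ∑ j, β j • f j + (β a * c) • f b := by
            rw [← Finset.add_sum_erase _ _ (Finset.mem_univ a),
              ← Finset.add_sum_erase _ (fun j => β j • f j) (Finset.mem_univ a)]
            have e2 : ∑ j ∈ Finset.univ.erase a, β j • g j =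
                ∑ j ∈ Finset.univ.erase a, β j • f j := by
              apply Finset.sum_congr rfl
              intro j hj
              simp only [g]
              rw [Function.update_of_ne (Finset.ne_of_mem_erase hj)]
            rw [e2]
            simp only [g, Function.update_self, smul_add, smul_smul]
            abel
          have e3 : ∑ j, (Function.update β b (β b + c * β a)) j • f j =
              ∑ j, β j • f j + (β a * c) • f b := by
            rw [← Finset.add_sum_erase _ _ (Finset.mem_univ b),
              ← Finset.add_sum_erase _ (fun j => β j • f j) (Finset.mem_univ b)]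
            have e2 : ∑ j ∈ Finset.univ.erase b,
                (Function.update β b (β b + c * β a)) j • f j =
                ∑ j ∈ Finset.univ.erase b, β j • f j := by
              apply Finset.sum_congr rfl
              intro j hj
              rw [Function.update_of_ne (Finset.ne_of_mem_erase hj)]
            rw [e2, Function.update_self, add_smul, mul_comm c]
            abel
          rw [e3, ← e1]
          exact hβ
        have h2 := Fintype.linearIndependent_iff.mp hf _ h1
        have h3 : β a = 0 := by
          have := h2 a
          rwa [Function.update_of_ne hne] at this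
        intro j
        by_cases hj : j = b
        · subst hj
          have := h2 j
          rw [Function.update_self, h3, mul_zero, add_zero] at this
          exact this
        · have := h2 j
          rwa [Function.update_of_ne hj] at this
      have hga : g a ≠ 0 := hg.ne_zero a
      have hlt : (g a).natDegree < (f a).natDegree := by
        have hga' : g a = f a - C ((f a).leadingCoeff / (f b).leadingCoeff) * f b := by
          simp only [g, c, Function.update_self]
          rw [neg_smul, ← sub_eq_add_neg, smul_eq_C_mul]
        have hcn : (f a).leadingCoeff / (f b).leadingCoeff ≠ 0 :=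
          div_ne_zero (leadingCoeff_ne_zero.mpr (hf.ne_zero a)) hlb
        have h5 : (g a).degree < (f a).degree := by
          rw [hga']
          apply degree_sub_lt_left
          · rw [degree_C_mul hcn, degree_eq_natDegree (hf.ne_zero a),
              degree_eq_natDegree (hf.ne_zero b), hab]
          · exact hf.ne_zero a
          · rw [leadingCoeff_mul, leadingCoeff_C, div_mul_cancel₀ _ hlb]
        rw [degree_eq_natDegree hga, degree_eq_natDegree (hf.ne_zero a)] at h5
        exact_mod_cast h5
      have hsum : ∑ j, (g j).natDegree < n := by
        rw [← hn]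
        apply Finset.sum_lt_sum
        · intro j _
          by_cases hj : j = a
          · subst hj; exact hlt.le
          · simp only [g]; rw [Function.update_of_ne hj]
        · exact ⟨a, Finset.mem_univ a, hlt⟩
      have h6 := ih _ hsum g hg rfl
      have h7 : (Matrix.of fun i j : Fin l => derivative^[(i : ℕ)] (g j)) =
          ((Matrix.of fun i j : Fin l => derivative^[(i : ℕ)] (f j)).updateCol a
            (fun k => (Matrix.of fun i j : Fin l => derivative^[(i : ℕ)] (f j)) k a +
              (C c : F[X]) • (Matrix.of fun i j : Fin l => derivative^[(i : ℕ)] (f j)) k b)) := by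
        ext1 i j
        rw [Matrix.updateCol_apply]
        simp only [Matrix.of_apply, g]
        split_ifs with hj
        · subst hj
          rw [Function.update_self, iterate_map_add, iterate_derivative_smul,
            smul_eq_C_mul, smul_eq_mul]
        · rw [Function.update_of_ne hj]
      rw [h7, Matrix.det_updateCol_add_smul_self _ hne] at h6
      exact h6

end Pool.Agent.Work.MP_8d13b5_lc.Fm
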