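import Pool.Agent.Work.MP_8d13b5_lc.Fm.Stmts

set_option autoImplicit false

/-! Item WRO: the degree of a syzygy of powers of pairwise not proportional polynomials. -/

namespace Pool.Agent.Work.MP_8d13b5_lc.Fm

open Polynomial NumberField Finset Module

namespace WRO

variable {F : Type} [Field F]

/-- the greatest common divisor -/
theorem gcd_exists {r : ℕ} (l : Fin (r + 1) → F[X]) (h0 : ∀ i, l i ≠ 0) :
    ∃ (G : F[X]) (g : Fin (r + 1) → F[X]), G ≠ 0 ∧ (∀ i, l i = G * g i) ∧
      Ideal.span (Set.range g) = ⊤ := by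
  set I : Ideal F[X] := Ideal.span (Set.range l) with hI
  set G : F[X] := Submodule.IsPrincipal.generator I with hG
  have hGI : Ideal.span {G} = I := Ideal.span_singleton_generator I
  have h1 : ∀ i, ∃ g, l i = G * g := by
    intro i
    have h2 : l i ∈ Ideal.span {G} := by
      rw [hGI]
      exact Ideal.subset_span ⟨i, rfl⟩
    exact Ideal.mem_span_singleton'.1 h2 |>.elim fun a ha => ⟨a, by rw [← ha, mul_comm]⟩
  choose g hg using h1
  have hG0 : G ≠ 0 := by
    intro h
    exact h0 0 (by rw [hg 0, h, zero_mul])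
  refine ⟨G, g, hG0, hg, ?_⟩
  have h2 : G ∈ I := by
    rw [← hGI]
    exact Ideal.mem_span_singleton_self G
  obtain ⟨c, hc⟩ := Ideal.mem_span_range_iff_exists_fun.1 h2
  rw [Ideal.eq_top_iff_one, Ideal.mem_span_range_iff_exists_fun]
  refine ⟨c, ?_⟩
  apply mul_left_cancel₀ hG0
  rw [Finset.mul_sum, mul_one]
  rw [← hc]
  refine Finset.sum_congr rfl fun i _ => ?_
  rw [hc, hg i]
  ring

theorem dvd_of_all {r N : ℕ} (g : Fin (r + 1) → F[X]) (hg : Ideal.span (Set.range g) = ⊤)
    (p G W : F[X]) (h : ∀ i, p ∣ (G * g i) ^ N * W) : p ∣ G ^ N * W := by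
  have h1 := Ideal.span_pow_eq_top _ hg N
  have h2 : (1 : F[X]) ∈ Ideal.span ((fun x : F[X] => x ^ N) '' Set.range g) := by
    rw [h1]
    exact Submodule.mem_top
  have h3 : p ∣ (1 : F[X]) * (G ^ N * W) := by
    refine Submodule.span_induction (p := fun x _ => p ∣ x * (G ^ N * W)) ?_ ?_ ?_ ?_ h2
    · rintro x ⟨y, ⟨i, rfl⟩, rfl⟩
      have h4 : (g i ^ N) * (G ^ N * W) = (G * g i) ^ N * W := by rw [mul_pow]; ring
      show p ∣ (g i ^ N) * (G ^ N * W)
      rw [h4]
      exact h i
    · rw [zero_mul]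
      exact dvd_zero _
    · intro x y _ _ hx hy
      rw [add_mul]
      exact dvd_add hx hy
    · intro a x _ hx
      rw [smul_eq_mul, mul_assoc]
      exact dvd_mul_of_dvd_right hx _
  rwa [one_mul] at h3

/-- the minors of the Wronskian matrix of a relation -/
theorem minors (hCRA : StCRA) {r : ℕ} (z : Fin (r + 1) → F[X]) (c : Fin (r + 1) → F)
    (hc : ∀ i, c i ≠ 0) (hsum : ∑ i, c i • z i = 0)
    (hW : (Matrix.of fun i j : Fin r => derivative^[(i : ℕ)] (z ((0 : Fin (r + 1)).succAbove j))).det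
      ≠ 0) (j : Fin (r + 1)) :
    C (c j) *
        (Matrix.of fun i l : Fin r => derivative^[(i : ℕ)] (z ((0 : Fin (r + 1)).succAbove l))).det =
      C (c 0) * ((-1) ^ (j : ℕ) *
        (Matrix.of fun i l : Fin r => derivative^[(i : ℕ)] (z (j.succAbove l))).det) := by
  set U : Fin r → Fin (r + 1) → F[X] := fun i l => derivative^[(i : ℕ)] (z l) with hU
  have hind : LinearIndependent F[X] U := by
    rw [Fintype.linearIndependent_iff]
    intro g hg
    by_contra hcon
    have hg0 : g ≠ 0 := by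
      rintro rfl
      exact hcon fun i => rfl
    apply hW
    rw [← Matrix.exists_vecMul_eq_zero_iff]
    refine ⟨g, hg0, ?_⟩
    funext l
    have h1 := congrFun hg ((0 : Fin (r + 1)).succAbove l)
    simp only [Finset.sum_apply, Pi.smul_apply, smul_eq_mul, Pi.zero_apply] at h1
    simp only [Matrix.vecMul, dotProduct, Matrix.of_apply, Pi.zero_apply]
    exact h1
  have hE : (fun j => C (c j) : Fin (r + 1) → F[X]) ≠ 0 := by
    intro h
    have := congrFun h 0
    simp only [Pi.zero_apply, C_eq_zero] at this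
    exact hc 0 this
  have hrel : ∀ i, ∑ j, U i j * C (c j) = 0 := by
    intro i
    have h1 : ∀ j, U i j * C (c j) = derivative^[(i : ℕ)] (c j • z j) := by
      intro j
      rw [smul_eq_C_mul, iterate_derivative_C_mul, mul_comm]
    simp only [h1]
    rw [← iterate_derivative_sum, hsum, iterate_derivative_zero]
  have h2 := (hCRA F[X] r (fun j => C (c j)) U hE hind hrel).2 0 j
  simp only [mnr, hU] at h2
  rw [h2]
  simp

end WRO

theorem prWRO (hREL : StREL) (hWRN : StWRN) (hWDV : StWDV) (hCRA : StCRA) : StWRO := by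
  intro F _ _ m e n L lam P hne hdeg hnp hPL hP hsum
  have hz : (fun j => P j * lam j ^ n) ≠ 0 := by
    obtain ⟨a, ha⟩ := Function.ne_iff.1 hP
    intro h
    have := congrFun h a
    simp only [Pi.zero_apply] at this ha
    exact mul_ne_zero ha (pow_ne_zero _ (hne a)) this
  obtain ⟨r, σ, c, hr1, hrm, hσ, hc, hzσ, hrel, hind⟩ :=
    hREL F F[X] (m + 1) (fun j => P j * lam j ^ n) hz hsum
  have hrm' : r ≤ m := by omega
  -- e ≥ 1
  have hne01 : σ 0 ≠ σ (Fin.last r) := by
    intro h
    have h1 := hσ h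
    have h2 := congrArg Fin.val h1
    simp only [Fin.val_zero, Fin.val_last] at h2
    omega
  have he : 1 ≤ e := by
    by_contra h
    have he0 : e = 0 := by omega
    have h1 : ∀ j, ∃ a : F, lam j = C a := by
      intro j
      have h2 := hdeg j
      rw [he0, Nat.le_zero] at h2
      obtain ⟨a, ha⟩ := natDegree_eq_zero.1 h2
      exact ⟨a, ha.symm⟩
    obtain ⟨a, ha⟩ := h1 (σ 0)
    obtain ⟨b, hb⟩ := h1 (σ (Fin.last r))
    have h3 := hnp _ _ hne01 b a (by rw [ha, hb, ← C_mul, ← C_mul, mul_comm])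
    exact hne (σ (Fin.last r)) (by rw [hb, h3, C_0])
  rcases Nat.lt_or_ge (n + 1) r with hnr | hnr
  · have : 1 ≤ m := by omega
    have h1 : m * m * 1 ≤ m ^ 2 * e := by
      rw [sq]
      exact Nat.mul_le_mul_left _ he
    have h2 : m * 1 ≤ m * m := Nat.mul_le_mul_left _ this
    omega
  obtain ⟨N, hN⟩ : ∃ N, N + r = n + 1 := ⟨n + 1 - r, by omega⟩
  set z : Fin (r + 1) → F[X] := fun i => P (σ i) * lam (σ i) ^ n with hzdef
  set W : Fin (r + 1) → F[X] := fun j =>
    (Matrix.of fun i l : Fin r => derivative^[(i : ℕ)] (z (j.succAbove l))).det with hWdef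
  have hW0 : ∀ j, W j ≠ 0 := fun j => hWRN F r (fun l => z (j.succAbove l)) (hind j)
  have hmin : ∀ j, C (c j) * W 0 = C (c 0) * ((-1) ^ (j : ℕ) * W j) :=
    fun j => WRO.minors hCRA z c hc hrel (hW0 0) j
  obtain ⟨G, g, hG0, hlg, hgtop⟩ := WRO.gcd_exists (fun i => lam (σ i)) (fun i => hne _)
  set pr : F[X] := ∏ i, lam (σ i) with hpr
  have hdvd : ∀ j, pr ^ N ∣ (G * g j) ^ N * W 0 := by
    intro j
    have h1 := (hWDV F r n N (fun l => lam (σ (j.succAbove l)))
      (fun l => P (σ (j.succAbove l))) hN).1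
    have h2 : pr ^ N ∣ lam (σ j) ^ N * W j := by
      rw [hpr, Fin.prod_univ_succAbove _ j, mul_pow]
      exact mul_dvd_mul_left _ h1
    have h3 : pr ^ N ∣ lam (σ j) ^ N * (C (c j) * W 0) := by
      rw [hmin j]
      have : lam (σ j) ^ N * (C (c 0) * ((-1) ^ (j : ℕ) * W j)) =
          (C (c 0) * (-1) ^ (j : ℕ)) * (lam (σ j) ^ N * W j) := by ring
      rw [this]
      exact dvd_mul_of_dvd_right h2 _
    have h4 : (G * g j) ^ N * W 0 = C (c j)⁻¹ * (lam (σ j) ^ N * (C (c j) * W 0)) := by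
      have h5 : C (c j)⁻¹ * C (c j) = (1 : F[X]) := by
        rw [← C_mul, inv_mul_cancel₀ (hc j), C_1]
      have h6 : lam (σ j) = G * g j := hlg j
      calc (G * g j) ^ N * W 0 = (C (c j)⁻¹ * C (c j)) * ((G * g j) ^ N * W 0) := by
            rw [h5, one_mul]
        _ = _ := by rw [h6]; ring
    rw [h4]
    exact dvd_mul_of_dvd_right h3 _
  have hdvd2 : pr ^ N ∣ G ^ N * W 0 := WRO.dvd_of_all g hgtop _ G (W 0) hdvd
  -- degrees
  have hpr0 : pr ≠ 0 := Finset.prod_ne_zero_iff.2 fun i _ => hne _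
  have hdeg1 : N * pr.natDegree ≤ N * G.natDegree + (W 0).natDegree := by
    have h1 := natDegree_le_of_dvd hdvd2 (mul_ne_zero (pow_ne_zero _ hG0) (hW0 0))
    rw [natDegree_pow, natDegree_mul (pow_ne_zero _ hG0) (hW0 0), natDegree_pow] at h1
    exact h1
  obtain ⟨j₀, -, hj₀⟩ := Finset.exists_max_image (Finset.univ : Finset (Fin (r + 1)))
    (fun i => (lam (σ i)).natDegree) ⟨0, Finset.mem_univ _⟩
  have hj₀' : ∀ i, (lam (σ i)).natDegree ≤ (lam (σ j₀)).natDegree := fun i =>
    hj₀ i (Finset.mem_univ i)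
  set M : ℕ := (lam (σ j₀)).natDegree with hM
  set S' : ℕ := ∑ l : Fin r, (lam (σ (j₀.succAbove l))).natDegree with hS'
  have hdeg2 : pr.natDegree = M + S' := by
    rw [hpr, natDegree_prod _ _ fun i _ => hne _, Fin.sum_univ_succAbove _ j₀]
  have hdeg3 : (W 0).natDegree ≤ r * L + n * S' := by
    have h1 : (W 0).natDegree = (C (c j₀) * W 0).natDegree := (natDegree_C_mul (hc j₀)).symm
    have h2 : (W 0).natDegree ≤ (W j₀).natDegree := by
      rw [h1, hmin j₀]
      refine (natDegree_C_mul_le _ _).trans ?_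
      rcases neg_one_pow_eq_or F[X] (j₀ : ℕ) with h | h
      · rw [h, one_mul]
      · rw [h, neg_one_mul, natDegree_neg]
    refine h2.trans (((hWDV F r n N (fun l => lam (σ (j₀.succAbove l)))
      (fun l => P (σ (j₀.succAbove l))) hN).2).trans ?_)
    have h3 : ∀ l : Fin r, (P (σ (j₀.succAbove l)) * lam (σ (j₀.succAbove l)) ^ n).natDegree ≤
        L + n * (lam (σ (j₀.succAbove l))).natDegree := by
      intro l
      refine natDegree_mul_le.trans (Nat.add_le_add (hPL _) ?_)
      exact (natDegree_pow_le).trans le_rfl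
    refine (Finset.sum_le_sum fun l _ => h3 l).trans (le_of_eq ?_)
    rw [Finset.sum_add_distrib, Finset.sum_const, Finset.card_univ, Fintype.card_fin,
      smul_eq_mul, ← Finset.mul_sum]
  have hG1 : ∀ i, G.natDegree ≤ (lam (σ i)).natDegree := fun i =>
    natDegree_le_of_dvd ⟨g i, hlg i⟩ (hne _)
  have hGM : G.natDegree < M := by
    rcases Nat.lt_or_ge G.natDegree M with h | h
    · exact h
    · exfalso
      have h1 : ∀ i, ∃ a : F, g i = C a := by
        intro i
        have hgi : g i ≠ 0 := by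
          intro h0
          have h6 : lam (σ i) = G * g i := hlg i
          exact hne (σ i) (by rw [h6, h0, mul_zero])
        have h2 : (lam (σ i)).natDegree = G.natDegree + (g i).natDegree := by
          have h6 : lam (σ i) = G * g i := hlg i
          rw [h6, natDegree_mul hG0 hgi]
        have h3 := hj₀' i
        have h4 : (g i).natDegree = 0 := by omega
        obtain ⟨a, ha⟩ := natDegree_eq_zero.1 h4
        exact ⟨a, ha.symm⟩
      obtain ⟨a, ha⟩ := h1 0
      obtain ⟨b, hb⟩ := h1 (Fin.last r)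
      have h6 : lam (σ 0) = G * g 0 := hlg 0
      have h7 : lam (σ (Fin.last r)) = G * g (Fin.last r) := hlg (Fin.last r)
      have h3 := hnp _ _ hne01 b a (by rw [h6, h7, ha, hb]; ring)
      exact hne (σ (Fin.last r)) (by rw [h7, hb, h3, C_0, mul_zero])
  have hS1 : S' ≤ r * e := by
    refine (Finset.sum_le_card_nsmul _ _ e fun l _ => hdeg _).trans ?_
    rw [Finset.card_univ, Fintype.card_fin, smul_eq_mul]
  have hM1 : M ≤ e := hdeg _
  rw [hdeg2] at hdeg1
  -- arithmetic
  set γ := G.natDegree with hγ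
  obtain ⟨δ, hδ⟩ : ∃ δ, M = γ + δ + 1 := ⟨M - γ - 1, by omega⟩
  obtain ⟨r', hr'⟩ : ∃ r', r = r' + 1 := ⟨r - 1, by omega⟩
  obtain ⟨s, hs⟩ : ∃ s, m = r + s := ⟨m - r, by omega⟩
  have h9 : N * (M + S') ≤ N * γ + (r * L + n * S') := hdeg1.trans (by omega)
  have hn : n = N + r' := by omega
  have h10 : N * (δ + 1) ≤ r * L + r' * S' := by
    have e1 : N * (M + S') = N * γ + N * (δ + 1) + N * S' := by rw [hδ]; ring
    have e2 : n * S' = N * S' + r' * S' := by rw [hn]; ring
    rw [e1, e2] at h9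
    omega
  have h11 : N ≤ N * (δ + 1) := Nat.le_mul_of_pos_right _ (Nat.succ_pos _)
  have h12 : r' * S' ≤ r' * (r * e) := Nat.mul_le_mul_left _ hS1
  have h13 : r' ≤ r' * e := Nat.le_mul_of_pos_right _ he
  have h14 : r * L ≤ m * L := Nat.mul_le_mul_right _ hrm'
  have h15 : r' * (r * e) + r' * e ≤ m ^ 2 * e := by
    have h16 : r' * (r * e) + r' * e = (r' * (r + 1)) * e := by ring
    rw [h16]
    apply Nat.mul_le_mul_right
    have h17 : r' * (r + 1) ≤ r * r := by
      rw [hr']
      ring_nf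
      omega
    rw [sq]
    exact h17.trans (Nat.mul_le_mul hrm' hrm')
  omega

end Pool.Agent.Work.MP_8d13b5_lc.Fm
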