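import Pool.Agent.Work.MP_8d13b5_lc.Fm.I_ADJ
import Pool.Agent.Work.MP_8d13b5_lc.Fm.I_BEZ
import Pool.Agent.Work.MP_8d13b5_lc.Fm.I_BOX
import Pool.Agent.Work.MP_8d13b5_lc.Fm.I_CRA
import Pool.Agent.Work.MP_8d13b5_lc.Fm.I_DEC
import Pool.Agent.Work.MP_8d13b5_lc.Fm.I_END
import Pool.Agent.Work.MP_8d13b5_lc.Fm.I_EXA
import Pool.Agent.Work.MP_8d13b5_lc.Fm.I_EXC
import Pool.Agent.Work.MP_8d13b5_lc.Fm.I_GAP
import Pool.Agent.Work.MP_8d13b5_lc.Fm.I_GR1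
import Pool.Agent.Work.MP_8d13b5_lc.Fm.I_GRE
import Pool.Agent.Work.MP_8d13b5_lc.Fm.I_HDM
import Pool.Agent.Work.MP_8d13b5_lc.Fm.I_HDP
import Pool.Agent.Work.MP_8d13b5_lc.Fm.I_HEV
import Pool.Agent.Work.MP_8d13b5_lc.Fm.I_IDL
import Pool.Agent.Work.MP_8d13b5_lc.Fm.I_INT
import Pool.Agent.Work.MP_8d13b5_lc.Fm.I_KER
import Pool.Agent.Work.MP_8d13b5_lc.Fm.I_LOW
import Pool.Agent.Work.MP_8d13b5_lc.Fm.I_MIN
import Pool.Agent.Work.MP_8d13b5_lc.Fm.I_NVF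
import Pool.Agent.Work.MP_8d13b5_lc.Fm.I_ORD
import Pool.Agent.Work.MP_8d13b5_lc.Fm.I_PAR
import Pool.Agent.Work.MP_8d13b5_lc.Fm.I_PB
import Pool.Agent.Work.MP_8d13b5_lc.Fm.I_PC
import Pool.Agent.Work.MP_8d13b5_lc.Fm.I_PD
import Pool.Agent.Work.MP_8d13b5_lc.Fm.I_PE
import Pool.Agent.Work.MP_8d13b5_lc.Fm.I_PF
import Pool.Agent.Work.MP_8d13b5_lc.Fm.I_PN
import Pool.Agent.Work.MP_8d13b5_lc.Fm.I_REL
import Pool.Agent.Work.MP_8d13b5_lc.Fm.I_SEQ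
import Pool.Agent.Work.MP_8d13b5_lc.Fm.I_SIE
import Pool.Agent.Work.MP_8d13b5_lc.Fm.I_THM
import Pool.Agent.Work.MP_8d13b5_lc.Fm.I_VEC
import Pool.Agent.Work.MP_8d13b5_lc.Fm.I_WDV
import Pool.Agent.Work.MP_8d13b5_lc.Fm.I_WRN
import Pool.Agent.Work.MP_8d13b5_lc.Fm.I_WRO

set_option autoImplicit false

/-! All statements of the first part of the block `Fm`, proved. -/

namespace Pool.Agent.Work.MP_8d13b5_lc.Fm

theorem tGAP : StGAP := prGAP prMIN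
theorem tWRO : StWRO := prWRO prREL prWRN prWDV prCRA
theorem tSIE : StSIE := prSIE prBOX
theorem tGR1 : StGR1 := prGR1 prPN tSIE
theorem tGRE : StGRE := prGRE tGAP tWRO tGR1
theorem tORD : StORD := prORD prCRA prHDM
theorem tHDP : StHDP := prHDP prPN
theorem tIDL : StIDL := prIDL prBEZ prHEV
theorem tLOW : StLOW := prLOW prBEZ prHEV
theorem tVEC : StVEC := prVEC tGRE tORD tHDP prHEV prPN
theorem tEND : StEND := prEND prEXC prCRA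
theorem tTHM : StTHM := prTHM tVEC tEND tIDL tLOW
theorem tKER : StKER := prKER tTHM
theorem tSEQ : StSEQ := prSEQ tTHM tKER prADJ prHEV
theorem tNVF : StNVF := prNVF prHEV
theorem tPB : StPB := prPB tNVF tKER prPAR tSEQ
theorem tPC : StPC := prPC tPB prINT prDEC
theorem tPD : StPD := prPD tPB prINT
theorem tPE : StPE := prPE tPD prEXA prHEV
theorem tPF : StPF := prPF tPD

end Pool.Agent.Work.MP_8d13b5_lc.Fm
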