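import Pool.Agent.Work.MP_8d13b5_lc.Fm.Stmts2
import Pool.Agent.Work.MP_8d13b5_lc.Fm.I_PN

set_option autoImplicit false

/-! Item CFD: the recursion, the degrees and the sizes of the coefficients of `X ^ n mod F`. -/

namespace Pool.Agent.Work.MP_8d13b5_lc.Fm

open Polynomial NumberField Finset Module

namespace CFD

section gen

variable {R : Type} [CommRing R] [Nontrivial R] {m : ℕ} {F : R[X]}

theorem coeff_gt (hF : F.Monic) (hd : F.natDegree = m + 1) (n i : ℕ) (hi : m < i) :
    (((X : R[X]) ^ n) %ₘ F).coeff i = 0 := by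
  have h := degree_modByMonic_lt ((X : R[X]) ^ n) hF
  rw [degree_eq_natDegree hF.ne_zero, hd] at h
  exact (degree_lt_iff_coeff_zero _ (m + 1)).1 h i (by omega)

theorem step (hF : F.Monic) (hd : F.natDegree = m + 1) (n : ℕ) :
    ((X : R[X]) ^ (n + 1)) %ₘ F
      = X * ((X ^ n) %ₘ F) - C (((X ^ n) %ₘ F).coeff m) * F := by
  have h1 : F.coeff (m + 1) = 1 := by
    rw [← hd]; exact hF.coeff_natDegree
  refine (div_modByMonic_unique (X * ((X ^ n) /ₘ F) + C (((X ^ n) %ₘ F).coeff m)) _ hF
    ⟨?_, ?_⟩).2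
  · have h2 := modByMonic_add_div ((X : R[X]) ^ n) F
    calc _ = X * ((X ^ n) %ₘ F + F * ((X ^ n) /ₘ F)) := by ring
      _ = _ := by rw [h2, pow_succ']
  · rw [degree_eq_natDegree hF.ne_zero, hd]
    refine (degree_lt_iff_coeff_zero _ (m + 1)).2 fun i hi => ?_
    obtain ⟨k, rfl⟩ : ∃ k, i = k + 1 := ⟨i - 1, by omega⟩
    rw [coeff_sub, coeff_X_mul, coeff_C_mul]
    rcases (show m = k ∨ m < k by omega) with hk | hk
    · rw [← hk, h1, mul_one, sub_self]
    · rw [coeff_gt hF hd n k hk, coeff_eq_zero_of_natDegree_lt (p := F) (n := k + 1) (by omega),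
        mul_zero, sub_self]

theorem rec0 (hF : F.Monic) (hd : F.natDegree = m + 1) (n : ℕ) :
    Pd.cf F (n + 1) 0 = -(Pd.cf F n m * F.coeff 0) := by
  unfold Pd.cf
  rw [step hF hd n, coeff_sub, coeff_C_mul, mul_coeff_zero, coeff_X_zero, zero_mul, zero_sub]

theorem recS (hF : F.Monic) (hd : F.natDegree = m + 1) (n j : ℕ) :
    Pd.cf F (n + 1) (j + 1) = Pd.cf F n j - Pd.cf F n m * F.coeff (j + 1) := by
  unfold Pd.cf
  rw [step hF hd n, coeff_sub, coeff_C_mul, coeff_X_mul]

theorem init (hF : F.Monic) (hd : F.natDegree = m + 1) (j : ℕ) :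
    Pd.cf F 0 j = if j = 0 then 1 else 0 :=
  Pd.cf_init hF (by omega) j

end gen

theorem deg {R : Type} [CommRing R] [Nontrivial R] (m p q : ℕ) (F : R[X][X]) (hF : F.Monic)
    (hd : F.natDegree = m + 1) (h : ∀ i ≤ m, q * (F.coeff i).natDegree ≤ p * (m + 1 - i)) :
    ∀ n, ∀ j ≤ m, Pd.cf F n j ≠ 0 → q * (Pd.cf F n j).natDegree + p * j ≤ p * n := by
  intro n
  induction n with
  | zero =>
    intro j _ hj0
    rw [init hF hd] at hj0 ⊢
    by_cases hj : j = 0
    · subst hj
      simp
    · exact absurd (if_neg hj) hj0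
  | succ n ih =>
    have hmul : ∀ i ≤ m, Pd.cf F n m * F.coeff i ≠ 0 →
        q * (Pd.cf F n m * F.coeff i).natDegree + p * i ≤ p * (n + 1) := by
      intro i hi h0
      have h1 : Pd.cf F n m ≠ 0 := left_ne_zero_of_mul h0
      have h2 := ih m le_rfl h1
      have h3 := h i hi
      have h4 := Nat.mul_le_mul_left q (natDegree_mul_le (p := Pd.cf F n m) (q := F.coeff i))
      obtain ⟨k, rfl⟩ : ∃ k, m = i + k := ⟨m - i, by omega⟩
      have h5 : i + k + 1 - i = k + 1 := by omega
      rw [h5] at h3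
      nlinarith
    intro j hj hj0
    rcases j with _ | j
    · rw [rec0 hF hd] at hj0 ⊢
      rw [natDegree_neg]
      exact hmul 0 (Nat.zero_le _) (fun h0 => hj0 (by rw [h0, neg_zero]))
    · rw [recS hF hd] at hj0 ⊢
      by_cases hA : Pd.cf F n j = 0
      · rw [hA, zero_sub] at hj0 ⊢
        rw [natDegree_neg]
        exact hmul (j + 1) hj (fun h0 => hj0 (by rw [h0, neg_zero]))
      · have hA1 := ih j (by omega) hA
        by_cases hB : Pd.cf F n m * F.coeff (j + 1) = 0
        · rw [hB, sub_zero]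
          nlinarith
        · have hB1 := hmul (j + 1) hj hB
          rcases le_total (Pd.cf F n j).natDegree (Pd.cf F n m * F.coeff (j + 1)).natDegree with
            hle | hle
          · have h6 := natDegree_sub_le (Pd.cf F n j) (Pd.cf F n m * F.coeff (j + 1))
            rw [max_eq_right hle] at h6
            have h7 := Nat.mul_le_mul_left q h6
            omega
          · have h6 := natDegree_sub_le (Pd.cf F n j) (Pd.cf F n m * F.coeff (j + 1))
            rw [max_eq_left hle] at h6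
            have h7 := Nat.mul_le_mul_left q h6
            nlinarith

theorem size {R : Type} [CommRing R] (m : ℕ) (F : R[X][X]) (φ : R →+* ℂ) (hF : F.Monic)
    (hd : F.natDegree = m + 1) :
    ∀ n, ∀ j ≤ m,
      pn φ (Pd.cf F n j) ≤ (1 + ∑ i ∈ range (m + 1), pn φ (F.coeff i)) ^ n := by
  have hnt : Nontrivial R := φ.domain_nontrivial
  have hneg : ∀ P : R[X], pn φ (-P) = pn φ P := by
    intro P
    have h := PN.pn_C_mul φ (-1) P
    rw [map_neg, map_neg, map_one, map_one, norm_neg, norm_one, one_mul, neg_mul, one_mul] at h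
    exact h
  have hone : pn φ (1 : R[X]) = 1 := by
    rw [← C_1, PN.pn_C, map_one, norm_one]
  have hM : ∀ i ≤ m, 1 + pn φ (F.coeff i) ≤ 1 + ∑ i ∈ range (m + 1), pn φ (F.coeff i) := by
    intro i hi
    have := Finset.single_le_sum (f := fun i => pn φ (F.coeff i))
      (fun _ _ => PN.pn_nonneg φ _) (Finset.mem_range.2 (show i < m + 1 by omega))
    simpa using this
  have hM0 : 0 ≤ 1 + ∑ i ∈ range (m + 1), pn φ (F.coeff i) := by
    have := Finset.sum_nonneg (s := range (m + 1)) (f := fun i => pn φ (F.coeff i))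
      (fun _ _ => PN.pn_nonneg φ _)
    linarith
  intro n
  induction n with
  | zero =>
    intro j _
    rw [init hF hd, pow_zero]
    split_ifs
    · exact hone.le
    · rw [PN.pn_zero]; exact zero_le_one
  | succ n ih =>
    intro j hj
    have hE : 0 ≤ (1 + ∑ i ∈ range (m + 1), pn φ (F.coeff i)) ^ n := pow_nonneg hM0 n
    have hmul : ∀ i ≤ m, pn φ (Pd.cf F n m * F.coeff i) ≤
        (1 + ∑ i ∈ range (m + 1), pn φ (F.coeff i)) ^ n * pn φ (F.coeff i) := by
      intro i _
      exact (PN.pn_mul φ _ _).trans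
        (mul_le_mul_of_nonneg_right (ih m le_rfl) (PN.pn_nonneg φ _))
    rw [pow_succ]
    rcases j with _ | j
    · rw [rec0 hF hd, hneg]
      refine (hmul 0 (Nat.zero_le _)).trans (mul_le_mul_of_nonneg_left ?_ hE)
      have := hM 0 (Nat.zero_le _)
      linarith
    · rw [recS hF hd, sub_eq_add_neg]
      refine (PN.pn_add φ _ _).trans ?_
      rw [hneg]
      have h1 := hmul (j + 1) hj
      have h2 := ih j (by omega)
      have h3 := mul_le_mul_of_nonneg_left (hM (j + 1) hj) hE
      linarith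

end CFD

theorem prCFD : StCFD := by
  refine ⟨?_, ?_, ?_, ?_⟩
  · intro R _ _ m F hF hd n
    exact ⟨CFD.rec0 hF hd n, fun j _ => CFD.recS hF hd n j⟩
  · intro R S _ _ ψ F n j hF
    unfold Pd.cf
    have h := Polynomial.map_modByMonic ψ (p := (X : R[X]) ^ n) hF
    rw [Polynomial.map_pow, Polynomial.map_X] at h
    rw [← h, coeff_map]
  · intro R _ _ m p q F hF hd h n j hj
    by_cases h0 : Pd.cf F n j = 0
    · rw [h0, natDegree_zero, mul_zero]
      exact Nat.zero_le _
    · have := CFD.deg m p q F hF hd h n j hj h0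
      omega
  · intro R _ m F φ hF hd
    exact CFD.size m F φ hF hd

end Pool.Agent.Work.MP_8d13b5_lc.Fm
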