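import Pool.Agent.Work.MP_8d13b5_lc.Fm.StmtsY
import Pool.Agent.Work.MP_8d13b5_lc.Fm.I_CFD

set_option autoImplicit false

/-! Item ADY: solutions of the recurrence of `g ^ M` as combinations of the solutions of `g` with
polynomial coefficients, with sizes. -/

namespace Pool.Agent.Work.MP_8d13b5_lc.Fm

open Polynomial NumberField Finset Module

namespace ADY

/-! ### sizes of the basic solutions -/

theorem cf_size (m : ℕ) (g : ℤ[X]) (hg : g.Monic) (hd : g.natDegree = m + 1) (Y : ℤ)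
    (hY : 0 ≤ Y) (hc : ∀ i, |g.coeff i| ≤ Y) : ∀ n, ∀ j ≤ m, |Pd.cf g n j| ≤ (1 + Y) ^ n := by
  intro n
  induction n with
  | zero =>
    intro j _
    rw [CFD.init hg hd, pow_zero]
    split_ifs <;> simp
  | succ n ih =>
    intro j hj
    have hE : 0 ≤ (1 + Y) ^ n := by positivity
    have hmul : ∀ i, |Pd.cf g n m * g.coeff i| ≤ (1 + Y) ^ n * Y := by
      intro i
      rw [abs_mul]
      exact mul_le_mul (ih m le_rfl) (hc i) (abs_nonneg _) hE
    rw [pow_succ]
    rcases j with _ | j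
    · rw [CFD.rec0 hg hd, abs_neg]
      have := hmul 0
      nlinarith
    · rw [CFD.recS hg hd]
      have h1 := abs_sub (Pd.cf g n j) (Pd.cf g n m * g.coeff (j + 1))
      have h2 := hmul (j + 1)
      have h3 := ih j (by omega)
      nlinarith

section mat

variable (m M : ℕ) (g : ℤ[X])

/-- the number of the row -/
def en (r : Fin (m + 1) × Fin M) : ℕ := (finProdFinEquiv r : Fin ((m + 1) * M))

theorem en_lt (r : Fin (m + 1) × Fin M) : en m M r < (m + 1) * M := (finProdFinEquiv r).2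

theorem en_surj (n : ℕ) (hn : n < (m + 1) * M) : ∃ r, en m M r = n := by
  refine ⟨finProdFinEquiv.symm ⟨n, hn⟩, ?_⟩
  unfold en
  rw [Equiv.apply_symm_apply]

/-- the matrix -/
noncomputable def Am : Matrix (Fin (m + 1) × Fin M) (Fin (m + 1) × Fin M) ℤ :=
  fun r c => Pd.cf g (en m M r) (c.1 : ℕ) * ((en m M r : ℕ) : ℤ) ^ (c.2 : ℕ)

variable {m M}

/-- the polynomials given by a vector -/
noncomputable def vp (w : Fin (m + 1) × Fin M → ℤ) (i : Fin (m + 1)) : ℤ[X] :=
  ∑ l : Fin M, C (w (i, l)) * X ^ (l : ℕ)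

theorem vp_coeff (w : Fin (m + 1) × Fin M → ℤ) (i : Fin (m + 1)) (j : ℕ) :
    (vp w i).coeff j = if h : j < M then w (i, ⟨j, h⟩) else 0 := by
  unfold vp
  rw [finsetSum_coeff]
  simp only [coeff_C_mul, coeff_X_pow]
  split_ifs with h
  · rw [Finset.sum_eq_single (⟨j, h⟩ : Fin M)]
    · simp
    · intro l _ hl
      rw [if_neg, mul_zero]
      intro h'
      exact hl (Fin.ext h'.symm)
    · intro h'
      exact absurd (Finset.mem_univ _) h'
  · refine Finset.sum_eq_zero fun l _ => ?_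
    rw [if_neg, mul_zero]
    intro h'
    exact h (h' ▸ l.2)

theorem vp_deg (hM : 1 ≤ M) (w : Fin (m + 1) × Fin M → ℤ) (i : Fin (m + 1)) :
    (vp w i).natDegree < M := by
  have h : (vp w i).natDegree ≤ M - 1 := by
    rw [natDegree_le_iff_coeff_eq_zero]
    intro j hj
    rw [vp_coeff, dif_neg (by omega)]
  omega

theorem vp_eval (w : Fin (m + 1) × Fin M → ℤ) (i : Fin (m + 1)) (x : ℤ) :
    (vp w i).eval x = ∑ l : Fin M, w (i, l) * x ^ (l : ℕ) := by
  unfold vp
  rw [eval_finsetSum]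
  refine Finset.sum_congr rfl fun l _ => ?_
  rw [eval_mul, eval_C, eval_pow, eval_X]

/-- the sequence given by a vector -/
noncomputable def sq (w : Fin (m + 1) × Fin M → ℤ) (n : ℕ) : ℤ :=
  ∑ i : Fin (m + 1), Pd.cf g n i * (vp w i).eval (n : ℤ)

theorem mulVec_eq (w : Fin (m + 1) × Fin M → ℤ) (r : Fin (m + 1) × Fin M) :
    (Am m M g).mulVec w r = sq g w (en m M r) := by
  unfold sq
  simp only [Matrix.mulVec, dotProduct, Am, Fintype.sum_prod_type, vp_eval, Finset.mul_sum]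
  refine Finset.sum_congr rfl fun i _ => Finset.sum_congr rfl fun l _ => ?_
  ring

theorem sq_sol (h1 : StNPY) (hg : g.Monic) (hM : 1 ≤ M) (w : Fin (m + 1) × Fin M → ℤ) :
    Pd.Sol (g ^ M) (sq g w) := by
  have h : Pd.Sol (g ^ M) (fun n => ∑ i : Fin (m + 1), (vp w i).eval (n : ℤ) * Pd.cf g n i) :=
    Pd.Sol.sum _ fun i _ => h1 ℤ g (vp w i) M (fun n => Pd.cf g n i) (vp_deg hM w i)
      (Pd.cf_sol hg i)
  have e : (fun n : ℕ => ∑ i : Fin (m + 1), (vp w i).eval (n : ℤ) * Pd.cf g n i) = sq g w := by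
    funext n
    exact Finset.sum_congr rfl fun i _ => mul_comm _ _
  rwa [e] at h

theorem det_ne (h1 : StNPY) (hg : g.Monic) (hd : g.natDegree = m + 1) (hM : 1 ≤ M)
    (hv : ∀ v : Fin (m + 1) → ℤ[X], (∀ i, (v i).natDegree < M) →
      (∀ n : ℕ, ∑ i : Fin (m + 1), Pd.cf g n i * (v i).eval (n : ℤ) = 0) → v = 0) :
    (Am m M g).det ≠ 0 := by
  intro hdet
  obtain ⟨w, hw, hw0⟩ := Matrix.exists_mulVec_eq_zero_iff.2 hdet
  apply hw
  have hsol := sq_sol g h1 hg hM w
  have hinit : ∀ n < (g ^ M).natDegree, sq g w n = 0 := by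
    intro n hn
    rw [hg.natDegree_pow, hd, mul_comm] at hn
    obtain ⟨r, rfl⟩ := en_surj m M n hn
    rw [← mulVec_eq, hw0]
    rfl
  have hz := hsol.eq_zero (hg.pow M) hinit
  have hvp := hv (vp w) (vp_deg hM w) hz
  funext c
  obtain ⟨i, l⟩ := c
  have h2 := vp_coeff w i l
  rw [hvp, dif_pos l.2] at h2
  rw [Pi.zero_apply, coeff_zero] at h2
  exact h2.symm

end mat

/-- the numerical estimate -/
theorem num (N M Y B c : ℕ) (hY : 1 ≤ Y)
    (hc : c = N * N.factorial * (2 ^ (N * N) * N ^ (M * N)) + N * N + 1) :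
    N * (N.factorial * ((2 * Y) ^ N * N ^ M) ^ N) * B ≤ (c * Y) ^ c * B := by
  refine Nat.mul_le_mul_right B ?_
  have e : N * (N.factorial * ((2 * Y) ^ N * N ^ M) ^ N) =
      N * N.factorial * (2 ^ (N * N) * N ^ (M * N)) * Y ^ (N * N) := by
    rw [mul_pow, mul_pow, mul_pow, ← pow_mul, ← pow_mul, ← pow_mul]
    ring
  rw [e, mul_pow]
  refine Nat.mul_le_mul ?_ ?_
  · calc N * N.factorial * (2 ^ (N * N) * N ^ (M * N)) ≤ c := by omega
      _ = c ^ 1 := (pow_one c).symm
      _ ≤ c ^ c := Nat.pow_le_pow_right (by omega) (by omega)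
  · exact Nat.pow_le_pow_right (by omega) (by omega)

end ADY

theorem prADY (h1 : StNPY) : StADY := by
  intro m M hM
  set N : ℕ := (m + 1) * M with hN
  refine ⟨N * N.factorial * (2 ^ (N * N) * N ^ (M * N)) + N * N + 1, ?_⟩
  intro g Y hg hd hY hc hv z B hz hzB
  have hN1 : 1 ≤ N := by
    rw [hN]
    exact Nat.one_le_iff_ne_zero.2 (Nat.mul_ne_zero (by omega) (by omega))
  have hY0 : (1 : ℤ) ≤ Y := by exact_mod_cast hY
  have hcard : Fintype.card (Fin (m + 1) × Fin M) = N := by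
    rw [Fintype.card_prod, Fintype.card_fin, Fintype.card_fin]
  have hc' : ∀ i, |g.coeff i| ≤ (Y : ℤ) := by
    intro i
    rw [Int.abs_eq_natAbs]
    exact_mod_cast hc i
  set A := ADY.Am m M g with hA
  set b : Fin (m + 1) × Fin M → ℤ := fun r => z (ADY.en m M r) with hb
  set w : Fin (m + 1) × Fin M → ℤ := A.adjugate.mulVec b with hw
  refine ⟨A.det, ADY.vp w, ADY.det_ne g h1 hg hd hM hv, ADY.vp_deg hM w, ?_, ?_⟩
  · -- the identity
    have hAw : A.mulVec w = A.det • b := by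
      rw [hw, Matrix.mulVec_mulVec, Matrix.mul_adjugate, Matrix.smul_mulVec, Matrix.one_mulVec]
    have hs1 : Pd.Sol (g ^ M) (fun n => A.det * z n) := hz.smul A.det
    have hs2 := ADY.sq_sol g h1 hg hM w
    intro n
    refine Pd.Sol.ext (hg.pow M) hs1 hs2 ?_ n
    intro n hn
    rw [hg.natDegree_pow, hd, mul_comm] at hn
    obtain ⟨r, rfl⟩ := ADY.en_surj m M n hn
    rw [← ADY.mulVec_eq, hAw]
    rfl
  · -- sizes
    have hE1 : (1 : ℤ) ≤ (2 * (Y : ℤ)) ^ N * (N : ℤ) ^ M := by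
      have ha : (1 : ℤ) ≤ (2 * (Y : ℤ)) ^ N := one_le_pow₀ (by linarith)
      have hb : (1 : ℤ) ≤ (N : ℤ) ^ M := one_le_pow₀ (by exact_mod_cast hN1)
      nlinarith
    have hent : ∀ r c, |A r c| ≤ (2 * (Y : ℤ)) ^ N * (N : ℤ) ^ M := by
      intro r c
      have hr := ADY.en_lt m M r
      rw [hA]
      unfold ADY.Am
      rw [abs_mul]
      refine mul_le_mul ?_ ?_ (abs_nonneg _) (by positivity)
      · refine (ADY.cf_size m g hg hd Y (by linarith) hc' _ _ (by omega)).trans ?_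
        calc (1 + (Y : ℤ)) ^ ADY.en m M r ≤ (2 * (Y : ℤ)) ^ ADY.en m M r :=
              pow_le_pow_left₀ (by linarith) (by linarith) _
          _ ≤ (2 * (Y : ℤ)) ^ N := pow_le_pow_right₀ (by linarith) (by omega)
      · rw [abs_pow, Nat.abs_cast]
        calc ((ADY.en m M r : ℕ) : ℤ) ^ (c.2 : ℕ) ≤ (N : ℤ) ^ (c.2 : ℕ) :=
              pow_le_pow_left₀ (by positivity) (by exact_mod_cast hr.le) _
          _ ≤ (N : ℤ) ^ M := pow_le_pow_right₀ (by exact_mod_cast hN1) c.2.2.le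
    have hadj : ∀ r c, |A.adjugate r c| ≤
        (N.factorial : ℤ) * ((2 * (Y : ℤ)) ^ N * (N : ℤ) ^ M) ^ N := by
      intro r c
      rw [Matrix.adjugate_apply]
      have h := Matrix.det_le (A := A.updateRow c (Pi.single r 1)) (abv := AbsoluteValue.abs)
        (x := (2 * (Y : ℤ)) ^ N * (N : ℤ) ^ M) (by
          intro i j
          rw [AbsoluteValue.abs_apply, Matrix.updateRow_apply]
          split_ifs with hi
          · rw [Pi.single_apply]
            split_ifs
            · rw [abs_one]; exact hE1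
            · rw [abs_zero]; linarith
          · exact hent i j)
      rw [hcard, AbsoluteValue.abs_apply, nsmul_eq_mul] at h
      exact h
    have hbB : ∀ r, |b r| ≤ (B : ℤ) := by
      intro r
      rw [Int.abs_eq_natAbs]
      exact_mod_cast hzB _ (ADY.en_lt m M r)
    have hwB : ∀ r, |w r| ≤
        (N : ℤ) * ((N.factorial : ℤ) * ((2 * (Y : ℤ)) ^ N * (N : ℤ) ^ M) ^ N) * B := by
      intro r
      rw [hw]
      simp only [Matrix.mulVec, dotProduct]
      refine (Finset.abs_sum_le_sum_abs _ _).trans ?_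
      have h2 : ∀ c ∈ (Finset.univ : Finset (Fin (m + 1) × Fin M)),
          |A.adjugate r c * b c| ≤
          ((N.factorial : ℤ) * ((2 * (Y : ℤ)) ^ N * (N : ℤ) ^ M) ^ N) * B := by
        intro c _
        rw [abs_mul]
        exact mul_le_mul (hadj r c) (hbB c) (abs_nonneg _) (by positivity)
      refine (Finset.sum_le_card_nsmul _ _ _ h2).trans (le_of_eq ?_)
      rw [Finset.card_univ, hcard, nsmul_eq_mul]
      ring
    intro i l
    have hnum := ADY.num N M Y B _ hY rfl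
    rw [ADY.vp_coeff]
    split_ifs with hl
    · refine le_trans ?_ hnum
      have h3 := hwB (i, ⟨l, hl⟩)
      rw [Int.abs_eq_natAbs] at h3
      exact_mod_cast h3
    · simp

end Pool.Agent.Work.MP_8d13b5_lc.Fm
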