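import Pool.Agent.Work.MP_8d13b5_lc.Fm.StmtsW

set_option autoImplicit false

/-! Block FM2, part W, item CNT: counting. -/

namespace Pool.Agent.Work.MP_8d13b5_lc.Fm

open Polynomial NumberField Finset Module

namespace CNT

theorem transc {E : Type} [Field E] [Algebra ℂ E] (h : E)
    (hc : ∀ c : ℂ, h ≠ algebraMap ℂ E c) : Transcendental ℂ h := by
  intro ha
  have h1 : IsIntegral ℂ h := ha.isIntegral
  have h2 : (minpoly ℂ h).degree = 1 :=
    IsAlgClosed.degree_eq_one_of_irreducible ℂ (minpoly.irreducible h1)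
  obtain ⟨c, hc'⟩ := minpoly.mem_range_of_degree_eq_one ℂ h h2
  exact hc c hc'.symm

theorem indep {E : Type} [Field E] [Algebra ℂ E] (h : E) (ht : Transcendental ℂ h) (a : E)
    (ha : a ≠ 0) : LinearIndependent ℂ (fun u : ℕ => a * h ^ u) := by
  have h1 : LinearIndependent ℂ (fun u : ℕ => (X : ℂ[X]) ^ u) := by
    have h2 := (Polynomial.basisMonomials ℂ).linearIndependent
    convert h2 using 1
    funext u
    rw [Polynomial.coe_basisMonomials]
    exact Polynomial.X_pow_eq_monomial u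
  have hinj : Function.Injective (aeval h : ℂ[X] →ₐ[ℂ] E) := transcendental_iff_injective.1 ht
  have h3 := h1.map' (((LinearMap.mulLeft ℂ a).comp (aeval h : ℂ[X] →ₐ[ℂ] E).toLinearMap)) (by
    rw [LinearMap.ker_eq_bot]
    intro p p' hp
    apply hinj
    have hp' : a * aeval h p = a * aeval h p' := hp
    exact mul_left_cancel₀ ha hp')
  have e : (fun u : ℕ => a * h ^ u) =
      (⇑((LinearMap.mulLeft ℂ a).comp (aeval h : ℂ[X] →ₐ[ℂ] E).toLinearMap) ∘
        fun u : ℕ => (X : ℂ[X]) ^ u) := by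
    funext u
    simp
  rw [e]
  exact h3

end CNT

theorem prCNT (h1 : StFLA) : StCNT := by
  intro E _ _ k τ lam w q hdim i j hj hq n d x y hx hxd hyd hxy
  obtain ⟨hmono, -, hmul, -, hlam, hpow⟩ := h1 E k τ lam w
  by_contra hcon
  have hn : q * d + 1 ≤ n := by omega
  have hn0 : 0 < n := by omega
  obtain ⟨h, hh⟩ : ∃ h : E, h = lam i / lam j := ⟨_, rfl⟩
  have hht : Transcendental ℂ h := by
    refine CNT.transc h (fun c hc => hq c ?_)
    rw [← hc, hh, div_mul_cancel₀ _ hj]
  obtain ⟨N, hN⟩ : ∃ N : ℕ, N = q * (w * n + 1) := ⟨_, rfl⟩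
  have ha : lam j ^ n * x ^ N ≠ 0 := mul_ne_zero (pow_ne_zero _ hj) (pow_ne_zero _ hx)
  have hind := CNT.indep h hht _ ha
  have hxh : x * h ^ n = y := by
    rw [hh, div_pow, mul_div_assoc', hxy, mul_div_assoc, div_self (pow_ne_zero _ hj), mul_one]
  have hmem : ∀ u : Fin (n * (N + 1)), lam j ^ n * x ^ N * h ^ (u : ℕ) ∈
      Fil τ lam w (n * w + N * d) := by
    intro u
    have hu := u.2
    obtain ⟨v, hv⟩ : ∃ v, v = (u : ℕ) / n := ⟨_, rfl⟩
    obtain ⟨r, hr⟩ : ∃ r, r = (u : ℕ) % n := ⟨_, rfl⟩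
    have huv : (u : ℕ) = n * v + r := by rw [hv, hr]; exact (Nat.div_add_mod _ _).symm
    have hrn : r < n := by rw [hr]; exact Nat.mod_lt _ hn0
    have hvN : v ≤ N := by
      have : v < N + 1 := by
        rw [hv]
        exact Nat.div_lt_of_lt_mul hu
      omega
    have e1 : lam j ^ n * x ^ N * h ^ (u : ℕ) =
        (lam j ^ (n - r) * lam i ^ r) * (x ^ (N - v) * y ^ v) := by
      have a1 : lam j ^ n = lam j ^ (n - r) * lam j ^ r := by
        rw [← pow_add]; congr 1; omega
      have a2 : x ^ N = x ^ (N - v) * x ^ v := by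
        rw [← pow_add]; congr 1; omega
      have a3 : lam j ^ r * h ^ r = lam i ^ r := by
        rw [← mul_pow, hh, mul_div_cancel₀ _ hj]
      have a4 : x ^ v * h ^ (n * v) = y ^ v := by
        rw [pow_mul, ← mul_pow, hxh]
      rw [huv, pow_add, a1, a2, ← a3, ← a4]
      ring
    rw [e1]
    refine hmul _ _ _ _ ?_ ?_
    · have h2 := hmul _ _ _ _ (hpow _ _ (n - r) (hlam j)) (hpow _ _ r (hlam i))
      have e2 : (n - r) * w + r * w = n * w := by rw [← add_mul]; congr 1; omega
      rw [e2] at h2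
      exact h2
    · have h2 := hmul _ _ _ _ (hpow _ _ (N - v) hxd) (hpow _ _ v hyd)
      have e2 : (N - v) * d + v * d = N * d := by rw [← add_mul]; congr 1; omega
      rw [e2] at h2
      exact h2
  obtain ⟨hfd, hfr⟩ := hdim (n * w + N * d)
  have hind2 : LinearIndependent ℂ (fun u : Fin (n * (N + 1)) =>
      (⟨lam j ^ n * x ^ N * h ^ (u : ℕ), hmem u⟩ : ↥(Fil τ lam w (n * w + N * d)))) := by
    refine LinearIndependent.of_comp (Submodule.subtype _) ?_
    exact hind.comp (fun u : Fin (n * (N + 1)) => (u : ℕ)) Fin.val_injective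
  have hcard := hind2.fintype_card_le_finrank
  rw [Fintype.card_fin] at hcard
  have h5 := hcard.trans hfr
  have h6 : (q * d + 1) * (N + 1) ≤ n * (N + 1) := Nat.mul_le_mul_right _ hn
  have h7 : (q * d + 1) * (N + 1) ≤ q * (n * w + N * d + 1) := h6.trans h5
  have e3 : q * (n * w + N * d + 1) = N + q * d * N := by
    rw [hN]; ring
  rw [e3] at h7
  nlinarith

end Pool.Agent.Work.MP_8d13b5_lc.Fm
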