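import Pool.Agent.Work.MP_8d13b5_lc.Fm.StmtsX

set_option autoImplicit false

/-! Item CO3 of the block FMX: denominators. -/

namespace Pool.Agent.Work.MP_8d13b5_lc.Fm

open Polynomial NumberField Finset Module

namespace CO3

/-- the coefficients of a product of `X - r` with integral `r` are integral -/
theorem coeff_prod {Lb : Type} [Field Lb] (s : Multiset Lb) (h : ∀ r ∈ s, IsIntegral ℤ r) :
    ∀ i, IsIntegral ℤ ((s.map fun r => X - C r).prod.coeff i) := by
  induction s using Multiset.induction_on with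
  | empty =>
    intro i
    rw [Multiset.map_zero, Multiset.prod_zero, coeff_one]
    split_ifs
    · exact isIntegral_one
    · exact isIntegral_zero
  | cons a s ih =>
    intro i
    rw [Multiset.map_cons, Multiset.prod_cons, coeff_mul]
    refine IsIntegral.sum _ fun p _ => ?_
    refine IsIntegral.mul ?_ (ih (fun r hr => h r (Multiset.mem_cons_of_mem hr)) _)
    rw [coeff_sub, coeff_X, coeff_C]
    refine IsIntegral.sub ?_ ?_
    · split_ifs
      · exact isIntegral_one
      · exact isIntegral_zero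
    · split_ifs
      · exact h a (Multiset.mem_cons_self a s)
      · exact isIntegral_zero

theorem coeff_of_roots {Lb : Type} [Field Lb] [IsAlgClosed Lb] (P : Lb[X]) (hP : P.Monic)
    (h : ∀ r, P.eval r = 0 → IsIntegral ℤ r) (i : ℕ) : IsIntegral ℤ (P.coeff i) := by
  have h1 : (P.roots.map fun r => X - C r).prod = P := by
    have h2 : P.Splits := IsAlgClosed.splits _
    have h3 := h2.eq_prod_roots
    rw [hP.leadingCoeff, C_1, one_mul] at h3
    exact h3.symm
  rw [← h1]
  refine coeff_prod _ (fun r hr => h r ?_) i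
  exact (mem_roots'.1 hr).2

end CO3

open CO3 in
theorem prCO3 : StCO3 := by
  intro K _ _ m b n f ρ w hf hdeg hb hcf hw
  by_cases hρ : ρ = 0
  · refine ⟨0 ^ b * w ^ n, ?_⟩
    rw [hρ]
    push_cast
    rfl
  rcases Nat.eq_zero_or_pos n with hn | hn
  · subst hn
    obtain ⟨z, hz⟩ := hcf 0 (Nat.zero_le m)
    have h1 : Pd.cf f 0 0 = 1 := by
      rw [Pd.cf_init hf (by omega)]
      simp
    rw [h1] at hz
    have hz1 : (z : K) = ρ := by rw [hz]; simp
    refine ⟨z ^ b, ?_⟩
    have h2 : ((z ^ b : 𝓞 K) : K) = (z : K) ^ b := map_pow _ _ _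
    rw [h2, hz1, pow_zero, mul_one]
  let Lb := AlgebraicClosure K
  let ι : K →+* Lb := algebraMap K Lb
  have hι : Function.Injective ι := (algebraMap K Lb).injective
  have hint : ∀ x : 𝓞 K, IsIntegral ℤ (ι (x : K)) := fun x =>
    (RingOfIntegers.isIntegral_coe x).map (algebraMap K Lb).toIntAlgHom
  obtain ⟨ρ', hρ'⟩ : ∃ ρ' : Lb, ρ' ^ n = ι ρ := IsAlgClosed.exists_pow_nat_eq _ hn
  have hρ'0 : ρ' ≠ 0 := by
    intro h0
    rw [h0, zero_pow hn.ne'] at hρ'
    exact hρ ((map_eq_zero ι).1 hρ'.symm)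
  let κ : 𝓞 K →+* Lb := ι.comp (algebraMap (𝓞 K) K)
  have hκ : ∀ x : 𝓞 K, κ x = ι (x : K) := fun _ => rfl
  let P : Lb[X] := f.map κ
  have hP : P.Monic := hf.map κ
  have hPdeg : P.natDegree = m + 1 := by
    rw [hf.natDegree_map, hdeg]
  -- roots
  have hroot : ∀ x : Lb, P.eval x = 0 → IsIntegral ℤ (ρ' * x) := by
    intro x hx
    have hxint : IsIntegral ℤ x := by
      have h1 : IsIntegral (integralClosure ℤ Lb) x := by
        let g : (integralClosure ℤ Lb)[X] := f.map (κ.codRestrict (integralClosure ℤ Lb)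
          (fun y => hint y))
        refine ⟨g, hf.map _, ?_⟩
        have h2 : eval₂ (algebraMap (integralClosure ℤ Lb) Lb) x g = P.eval x := by
          show eval₂ _ x (f.map _) = (f.map κ).eval x
          rw [eval₂_map, eval_map]
          rfl
        rw [h2, hx]
      exact isIntegral_trans (A := integralClosure ℤ Lb) x h1
    have hpow : IsIntegral ℤ ((ρ' * x) ^ n) := by
      have h3 : x ^ n = ∑ j ∈ range (m + 1), κ (Pd.cf f n j) * x ^ j := by
        have h4 : (X ^ n : (𝓞 K)[X]) = f * (X ^ n /ₘ f) + X ^ n %ₘ f := by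
          rw [add_comm]
          exact (modByMonic_add_div (X ^ n) f).symm
        have h5 := congrArg (fun p : (𝓞 K)[X] => (p.map κ).eval x) h4
        simp only [Polynomial.map_add, Polynomial.map_mul, Polynomial.map_pow, map_X, eval_add,
          eval_mul, eval_pow, eval_X] at h5
        have h6 : (f.map κ).eval x = 0 := hx
        rw [h6, zero_mul, zero_add] at h5
        rw [h5, eval_map, eval₂_eq_sum_range' κ (n := m + 1)]
        · rfl
        · have h7 : (X ^ n %ₘ f).degree < f.degree := degree_modByMonic_lt _ hf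
          by_cases h8 : X ^ n %ₘ f = 0
          · rw [h8]; simp
          · rw [← hdeg]
            exact natDegree_lt_natDegree h8 h7
      rw [mul_pow, hρ', h3, mul_sum]
      refine IsIntegral.sum _ fun j hj => ?_
      rw [mem_range] at hj
      obtain ⟨z, hz⟩ := hcf j (by omega)
      have h9 : ι ρ * (κ (Pd.cf f n j) * x ^ j) = ι (z : K) * x ^ j := by
        rw [hz, map_mul, hκ]
        ring
      rw [h9]
      exact (hint z).mul (hxint.pow j)
    exact IsIntegral.of_pow hn hpow
  -- coefficients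
  have hcoef : ∀ i, IsIntegral ℤ ((P.scaleRoots ρ').coeff i) := by
    refine fun i => coeff_of_roots _ ((monic_scaleRoots_iff ρ').2 hP) (fun r hr => ?_) i
    have h1 : P.eval (r / ρ') = 0 := by
      have h2 : (P.scaleRoots ρ').eval (ρ' * (r / ρ')) = ρ' ^ P.natDegree * P.eval (r / ρ') := by
        have := scaleRoots_eval₂_mul (p := P) (f := RingHom.id Lb) (r / ρ') ρ'
        simpa only [eval₂_id, RingHom.id_apply] using this
      rw [mul_div_cancel₀ _ hρ'0, hr] at h2
      exact (mul_eq_zero.1 h2.symm).resolve_left (pow_ne_zero _ hρ'0)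
    have h3 := hroot _ h1
    rwa [mul_div_cancel₀ _ hρ'0] at h3
  have hgen : ∀ i ≤ m, IsIntegral ℤ (κ (f.coeff i ^ (b / (m + 1 - i))) * ρ' ^ b) := by
    intro i hi
    have h1 := hcoef i
    rw [coeff_scaleRoots, hPdeg] at h1
    have h2 := h1.pow (b / (m + 1 - i))
    rw [mul_pow, ← pow_mul, Nat.mul_div_cancel' (hb i hi)] at h2
    rw [map_pow]
    have h3 : P.coeff i = κ (f.coeff i) := coeff_map _ _
    rw [h3] at h2
    exact h2
  have hwint : IsIntegral ℤ (κ w * ρ' ^ b) := by
    refine Submodule.span_induction (p := fun x _ => IsIntegral ℤ (κ x * ρ' ^ b)) ?_ ?_ ?_ ?_ hw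
    · rintro x ⟨i, hi, rfl⟩
      exact hgen i hi
    · rw [map_zero, zero_mul]
      exact isIntegral_zero
    · intro x y _ _ hx hy
      rw [map_add, add_mul]
      exact hx.add hy
    · intro a x _ hx
      rw [smul_eq_mul, map_mul, mul_assoc]
      exact (hint a).mul hx
  have hfin : IsIntegral ℤ (ι (ρ ^ b * (w : K) ^ n)) := by
    have h1 := hwint.pow n
    have h2 : (κ w * ρ' ^ b) ^ n = ι (ρ ^ b * (w : K) ^ n) := by
      rw [mul_pow, ← pow_mul, mul_comm b n, pow_mul, hρ', hκ, map_mul, map_pow, map_pow]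
      ring
    rwa [h2] at h1
  have hfin' : IsIntegral ℤ (ρ ^ b * (w : K) ^ n) :=
    (isIntegral_algHom_iff (algebraMap K Lb).toIntAlgHom hι).1 hfin
  exact ⟨⟨_, hfin'⟩, rfl⟩

end Pool.Agent.Work.MP_8d13b5_lc.Fm
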