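import Pool.Agent.Work.MP_8d13b5_lc.Fm.StmtsU

set_option autoImplicit false

/-! Item VCO of the block FMU: Bezout identity with sizes. -/

namespace Pool.Agent.Work.MP_8d13b5_lc.Fm

open Polynomial NumberField Finset Module

namespace VCO

/-- small solutions with a given coordinate different from zero -/
theorem small (hSIE : StSIE) (K : Type) [Field K] [NumberField K] : ∃ C₀ : ℝ, 1 ≤ C₀ ∧
    ∀ (ι κ : Type) [Fintype ι] [Fintype κ] (A : κ → ι → 𝓞 K) (B₀ : ℝ) (i₀ : ι), 1 ≤ B₀ →
      (∀ (φ : K →+* ℂ) i j, ‖res φ (A i j)‖ ≤ B₀) → (∃ x ∈ kerA A, x i₀ ≠ 0) →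
      ∃ v : ι → 𝓞 K, (∀ i, ∑ j, A i j * v j = 0) ∧ v i₀ ≠ 0 ∧
        ∀ (φ : K →+* ℂ) j, ‖res φ (v j)‖ ≤
          (C₀ * (Fintype.card ι + 1) * B₀) ^ (Fintype.card ι + 1) := by
  obtain ⟨C₀, hC₀, h⟩ := hSIE K
  refine ⟨C₀, hC₀, ?_⟩
  intro ι κ _ _ A B₀ i₀ hB₀ hA ⟨x, hx, hx0⟩
  classical
  let W : Submodule K (ι → K) := kerA A ⊓ LinearMap.ker (LinearMap.proj i₀ : (ι → K) →ₗ[K] K)
  have hW : W ≤ kerA A := inf_le_left
  have hxW : x ∉ W := by
    intro hx'
    exact hx0 (LinearMap.mem_ker.1 (Submodule.mem_inf.1 hx').2)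
  have hlt : W < kerA A := lt_of_le_of_ne hW (fun he => hxW (he ▸ hx))
  have hfin : finrank K W < finrank K (kerA A) := Submodule.finrank_lt_finrank_of_lt hlt
  have hpos : 0 < Fintype.card ι := Fintype.card_pos_iff.2 ⟨i₀⟩
  obtain ⟨v, hv1, hv2, hv3⟩ := h ι κ A B₀ (Fintype.card ι) W hB₀ hA hW hpos (by
    calc Fintype.card ι = Fintype.card ι * 1 := (mul_one _).symm
      _ ≤ _ := Nat.mul_le_mul_left _ (by omega))
  refine ⟨v, hv1, ?_, hv3⟩
  intro h0
  apply hv2
  refine Submodule.mem_inf.2 ⟨?_, ?_⟩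
  · intro i
    have := hv1 i
    have h1 := congrArg (algebraMap (𝓞 K) K) this
    rw [map_sum, map_zero] at h1
    simpa only [map_mul] using h1
  · rw [LinearMap.mem_ker]
    show ((v i₀ : 𝓞 K) : K) = 0
    rw [h0]
    simp

/-- Bezout identity of bounded degree over a field -/
theorem bezout {k : Type} [Field k] {n σ : ℕ} (f : Fin n → k[X]) (hf : ∃ i, f i ≠ 0)
    (hdeg : ∀ i, (f i).natDegree ≤ σ) {c : k[X]} (hc : c.natDegree = 0)
    (h : ∃ A : Fin n → k[X], ∑ i, A i * f i = c) :
    ∃ A : Fin n → k[X], ∑ i, A i * f i = c ∧ ∀ i, (A i).natDegree ≤ σ := by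
  classical
  obtain ⟨A, hA⟩ := h
  obtain ⟨i₁, hi₁⟩ := hf
  obtain ⟨a, ha, hmax⟩ := (univ.filter fun i => f i ≠ 0).exists_max_image
    (fun i => (f i).natDegree) ⟨i₁, by simp [hi₁]⟩
  have ha0 : f a ≠ 0 := by simpa using ha
  have hmax' : ∀ i, (f i).natDegree ≤ (f a).natDegree := by
    intro i
    by_cases hi : f i = 0
    · rw [hi]; simp
    · exact hmax i (by simp [hi])
  let A' : Fin n → k[X] := fun i =>
    if i = a then A a + ∑ l ∈ univ.erase a, (A l / f a) * f l else A i % f a
  have hmod : ∀ i, (A i % f a).natDegree ≤ (f a).natDegree := by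
    intro i
    by_cases h0 : A i % f a = 0
    · rw [h0]; simp
    · exact natDegree_le_natDegree (le_of_lt (EuclideanDomain.mod_lt (A i) ha0))
  have hsum : ∑ i, A' i * f i = c := by
    rw [← hA, ← Finset.add_sum_erase univ _ (mem_univ a),
      ← Finset.add_sum_erase univ (fun i => A i * f i) (mem_univ a)]
    have h1 : ∀ i ∈ univ.erase a, A' i * f i = A i * f i - ((A i / f a) * f i) * f a := by
      intro i hi
      have hia : i ≠ a := (Finset.mem_erase.1 hi).1
      simp only [A', if_neg hia]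
      have h2 : A i % f a = A i - f a * (A i / f a) := EuclideanDomain.mod_eq_sub_mul_div _ _
      rw [h2]
      ring
    rw [Finset.sum_congr rfl h1, Finset.sum_sub_distrib]
    simp only [A', if_pos rfl, if_true]
    rw [add_mul, Finset.sum_mul]
    ring
  refine ⟨A', hsum, ?_⟩
  intro i
  by_cases hia : i = a
  · subst hia
    have h3 : A' i * f i = c - ∑ l ∈ univ.erase i, A' l * f l := by
      rw [← hsum, ← Finset.add_sum_erase univ _ (mem_univ i)]
      ring
    have h4 : (A' i * f i).natDegree ≤ (f i).natDegree + (f i).natDegree := by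
      rw [h3]
      refine (natDegree_sub_le _ _).trans (max_le (by omega) ?_)
      refine natDegree_sum_le_of_forall_le _ _ fun l hl => ?_
      have hla : l ≠ i := (Finset.mem_erase.1 hl).1
      refine natDegree_mul_le.trans (Nat.add_le_add ?_ (hmax' l))
      simp only [A', if_neg hla]
      exact hmod l
    by_cases h5 : A' i = 0
    · rw [h5]; simp
    · rw [natDegree_mul h5 ha0] at h4
      have := hdeg i
      omega
  · have : A' i = A i % f a := if_neg hia
    rw [this]
    exact (hmod i).trans (hdeg a)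

end VCO

open VCO in
theorem prVCO (hPN : StPN) (hSIE : StSIE) : StVCO := by
  intro K _ _ m σ
  obtain ⟨C₀, hC₀, hS⟩ := small hSIE K
  obtain ⟨N, hN⟩ : ∃ N : ℕ, N = Fintype.card (Option (Fin (m + 1) × Fin (σ + 1))) := ⟨_, rfl⟩
  have hN0 : (0 : ℝ) ≤ N := Nat.cast_nonneg N
  have hσ0 : (0 : ℝ) ≤ σ := Nat.cast_nonneg σ
  refine ⟨C₀ * (N + 1) * (σ + 1), N + 2, ?_, ?_⟩
  · have h1 : (1 : ℝ) ≤ (N : ℝ) + 1 := by linarith
    have h2 : (1 : ℝ) ≤ (σ : ℝ) + 1 := by linarith
    exact one_le_mul_of_one_le_of_one_le (one_le_mul_of_one_le_of_one_le hC₀ h1) h2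
  intro H F hF
  have hH := hF.one
  let A : Fin (σ + σ + 1) → Option (Fin (m + 1) × Fin (σ + 1)) → 𝓞 K := fun t p =>
    match p with
    | none => if (t : ℕ) = 0 then -1 else 0
    | some p => if (p.2 : ℕ) ≤ (t : ℕ) then (F.coeff (p.1 : ℕ)).coeff ((t : ℕ) - (p.2 : ℕ)) else 0
  -- the polynomial of a vector
  have hcoef : ∀ (R : Type) [CommRing R] (g : Fin (m + 1) → R[X])
      (v : Fin (m + 1) × Fin (σ + 1) → R) (t : ℕ),
      (∑ i, (∑ a : Fin (σ + 1), C (v (i, a)) * X ^ (a : ℕ)) * g i).coeff t =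
        ∑ p : Fin (m + 1) × Fin (σ + 1),
          (if (p.2 : ℕ) ≤ t then (g p.1).coeff (t - (p.2 : ℕ)) else 0) * v p := by
    intro R _ g v t
    rw [finset_sum_coeff, Fintype.sum_prod_type]
    refine Finset.sum_congr rfl fun i _ => ?_
    rw [Finset.sum_mul, finset_sum_coeff]
    refine Finset.sum_congr rfl fun a _ => ?_
    rw [mul_assoc, coeff_C_mul, coeff_X_pow_mul', mul_comm]
  have hB : ∀ (φ : K →+* ℂ) i j, ‖res φ (A i j)‖ ≤ H := by
    intro φ t p
    rcases p with _ | p
    · simp only [A]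
      split_ifs
      · simpa using hH
      · simp only [map_zero, norm_zero]; linarith
    · simp only [A]
      split_ifs
      · obtain ⟨_, _, _, _, _, _, h7, _⟩ := hPN (𝓞 K) (res φ)
        exact (h7 _ _).trans (hF.ht φ _ (by omega))
      · simp only [map_zero, norm_zero]; linarith
  -- a solution over `K`
  have hx : ∃ x ∈ kerA A, x none ≠ 0 := by
    obtain ⟨c, hc, A₀, hA₀⟩ := hF.crv.cop
    have hinj : Function.Injective (algebraMap (𝓞 K) K) := RingOfIntegers.coe_injective
    obtain ⟨A₁, hA₁, hd⟩ := bezout (k := K) (σ := σ)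
      (fun i : Fin (m + 1) => (F.coeff (i : ℕ)).map (algebraMap (𝓞 K) K))
      ⟨0, by
        intro h0
        exact hF.crv.ne ((Polynomial.map_eq_zero_iff hinj).1 h0)⟩
      (fun i => natDegree_map_le.trans (hF.dg _ (by omega)))
      (c := C (algebraMap (𝓞 K) K c)) (natDegree_C _)
      ⟨fun i => (A₀ i).map (algebraMap (𝓞 K) K), by
        rw [← map_C, ← hA₀, Polynomial.map_sum]
        simp only [Polynomial.map_mul]⟩
    refine ⟨fun p => match p with
      | none => algebraMap (𝓞 K) K c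
      | some p => (A₁ p.1).coeff (p.2 : ℕ), ?_, ?_⟩
    · intro t
      rw [Fintype.sum_option]
      have h1 : ∀ i, (∑ a : Fin (σ + 1), C ((A₁ i).coeff (a : ℕ)) * X ^ (a : ℕ)) = A₁ i := by
        intro i
        rw [Fin.sum_univ_eq_sum_range (fun a => C ((A₁ i).coeff a) * X ^ a) (σ + 1)]
        exact (as_sum_range_C_mul_X_pow' (A₁ i) (by have := hd i; omega)).symm
      have h2 := hcoef K (fun i => (F.coeff (i : ℕ)).map (algebraMap (𝓞 K) K))
        (fun p => (A₁ p.1).coeff (p.2 : ℕ)) (t : ℕ)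
      simp only [h1, hA₁, coeff_C] at h2
      have h3 : ∀ p : Fin (m + 1) × Fin (σ + 1), ((A t (some p) : 𝓞 K) : K) =
          if (p.2 : ℕ) ≤ (t : ℕ) then
            ((F.coeff (p.1 : ℕ)).map (algebraMap (𝓞 K) K)).coeff ((t : ℕ) - (p.2 : ℕ)) else 0 := by
        intro p
        simp only [A]
        split_ifs with h
        · rw [coeff_map]
        · simp
      simp only [h3]
      rw [← h2]
      simp only [A]
      split_ifs <;> simp
    · simp only
      intro h0
      apply hc
      apply hinj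
      rw [h0, map_zero]
  obtain ⟨v, hv1, hv2, hv3⟩ := hS _ _ A H none hH hB hx
  rw [← hN] at hv3
  refine ⟨v none, fun i => ∑ a : Fin (σ + 1), C (v (some (i, a))) * X ^ (a : ℕ), hv2, ?_, ?_, ?_⟩
  · -- the relation
    have hdegA : ∀ i, (∑ a : Fin (σ + 1), C (v (some (i, a))) * X ^ (a : ℕ)).natDegree ≤ σ := by
      intro i
      refine natDegree_sum_le_of_forall_le _ _ fun a _ => ?_
      refine (natDegree_C_mul_X_pow_le _ _).trans ?_
      omega
    refine Polynomial.ext fun t => ?_
    rw [coeff_C]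
    by_cases ht : t < σ + σ + 1
    · have h1 := hv1 ⟨t, ht⟩
      rw [Fintype.sum_option] at h1
      have h2 := hcoef (𝓞 K) (fun i => F.coeff (i : ℕ)) (fun p => v (some p)) t
      rw [h2]
      simp only [A] at h1
      by_cases h0 : t = 0
      · simp only [h0, if_true] at h1 ⊢
        have := eq_neg_of_add_eq_zero_right h1
        rw [this]
        ring
      · simp only [h0, if_false, zero_mul, zero_add] at h1 ⊢
        exact h1
    · rw [if_neg (by omega)]
      apply coeff_eq_zero_of_natDegree_lt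
      refine lt_of_le_of_lt (natDegree_sum_le_of_forall_le (n := σ + σ) _ _ fun i _ => ?_)
        (by omega)
      exact natDegree_mul_le.trans (Nat.add_le_add (hdegA i) (hF.dg _ (by omega)))
  · intro i
    refine natDegree_sum_le_of_forall_le _ _ fun a _ => ?_
    refine (natDegree_C_mul_X_pow_le _ _).trans ?_
    omega
  · intro φ
    have hX : (1 : ℝ) ≤ C₀ * (N + 1) * H := by
      have h1 : (1 : ℝ) ≤ (N : ℝ) + 1 := by linarith
      exact one_le_mul_of_one_le_of_one_le (one_le_mul_of_one_le_of_one_le hC₀ h1) hH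
    have hXY : C₀ * (N + 1) * H ≤ C₀ * (N + 1) * (σ + 1) * H := by
      have h2 : (1 : ℝ) ≤ (σ : ℝ) + 1 := by linarith
      have h3 : C₀ * (N + 1) * (σ + 1) * H = (C₀ * (N + 1) * H) * (σ + 1) := by ring
      rw [h3]
      exact le_mul_of_one_le_right (by linarith) h2
    have hbig : ((σ : ℝ) + 1) * (C₀ * (N + 1) * H) ^ (N + 1) ≤
        (C₀ * (N + 1) * (σ + 1) * H) ^ (N + 2) := by
      rw [pow_succ (C₀ * (N + 1) * (σ + 1) * H) (N + 1), mul_comm]
      apply mul_le_mul (pow_le_pow_left₀ (by linarith) hXY _) ?_ (by positivity) (by positivity)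
      have h3 : C₀ * (N + 1) * (σ + 1) * H = (C₀ * (N + 1) * H) * (σ + 1) := by ring
      rw [h3]
      exact le_mul_of_one_le_left (by positivity) hX
    constructor
    · refine (hv3 φ none).trans (le_trans ?_ hbig)
      exact le_mul_of_one_le_left (by positivity) (by linarith)
    · intro i
      obtain ⟨_, _, _, _, _, _, _, h8, _⟩ := hPN (𝓞 K) (res φ)
      rw [h8 _ σ (by
        refine natDegree_sum_le_of_forall_le _ _ fun a _ => ?_
        refine (natDegree_C_mul_X_pow_le _ _).trans ?_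
        omega)]
      refine le_trans ?_ hbig
      have h9 : ∀ a ∈ range (σ + 1), ‖(res φ) ((∑ a : Fin (σ + 1),
          C (v (some (i, a))) * X ^ (a : ℕ)).coeff a)‖ ≤ (C₀ * (N + 1) * H) ^ (N + 1) := by
        intro a ha
        rw [mem_range] at ha
        have h10 : (∑ a : Fin (σ + 1), C (v (some (i, a))) * X ^ (a : ℕ)).coeff a =
            v (some (i, ⟨a, ha⟩)) := by
          rw [finset_sum_coeff, Finset.sum_eq_single ⟨a, ha⟩]
          · simp
          · intro b _ hb
            rw [coeff_C_mul_X_pow, if_neg]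
            intro h
            exact hb (Fin.ext h.symm)
          · simp
        rw [h10]
        exact hv3 φ _
      refine (Finset.sum_le_sum h9).trans ?_
      rw [sum_const, card_range, nsmul_eq_mul]
      push_cast
      exact le_refl _

end Pool.Agent.Work.MP_8d13b5_lc.Fm
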