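import Pool.Agent.Work.MP_8d13b5_lc.Fm.StmtsX
import Pool.Agent.Work.MP_8d13b5_lc.Fm.I_VCO

set_option autoImplicit false

/-! Item CRS of the block FMX: small solutions of solvable systems. -/

namespace Pool.Agent.Work.MP_8d13b5_lc.Fm

open Polynomial NumberField Finset Module

theorem prCRS (hSIE : StSIE) : StCRS := by
  intro K _ _ a b
  obtain ⟨C₀, hC₀, hS⟩ := VCO.small hSIE K
  have hb0 : (0 : ℝ) ≤ b := Nat.cast_nonneg b
  refine ⟨C₀ * (b + 2), b + 2, one_le_mul_of_one_le_of_one_le hC₀ (by linarith), ?_⟩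
  intro Y M v hY hM hv ⟨x, hx⟩
  let A : Fin a → Option (Fin b) → 𝓞 K := fun i p =>
    match p with
    | none => -v i
    | some j => M i j
  have hA : ∀ (φ : K →+* ℂ) i j, ‖res φ (A i j)‖ ≤ Y := by
    intro φ i p
    rcases p with _ | j
    · simp only [A, map_neg, norm_neg]
      exact hv φ i
    · exact hM φ i j
  have hsol : ∃ y ∈ kerA A, y none ≠ 0 := by
    refine ⟨fun p => match p with
      | none => 1
      | some j => x j, ?_, one_ne_zero⟩
    intro i
    rw [Fintype.sum_option]
    simp only [A]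
    rw [hx i]
    simp
  obtain ⟨y, hy1, hy2, hy3⟩ := hS _ _ A Y none hY hA hsol
  have hcard : ((Fintype.card (Option (Fin b)) : ℕ) : ℝ) + 1 = b + 2 := by
    rw [Fintype.card_option, Fintype.card_fin]
    push_cast
    ring
  have hcard' : Fintype.card (Option (Fin b)) + 1 = b + 2 := by
    rw [Fintype.card_option, Fintype.card_fin]
  rw [hcard, hcard'] at hy3
  refine ⟨y none, fun j => y (some j), hy2, ?_, fun φ => hy3 φ none, fun φ j => hy3 φ (some j)⟩
  intro i
  have h1 := hy1 i
  rw [Fintype.sum_option] at h1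
  simp only [A] at h1
  linear_combination h1

end Pool.Agent.Work.MP_8d13b5_lc.Fm
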