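import Pool.Agent.Work.MP_8d13b5_lc.Fm.StmtsW

set_option autoImplicit false

/-!
# MP_8d13b5_lc, block FM2, part W, item DAT: the data exist
-/

open Polynomial NumberField Finset Module

namespace Pool.Agent.Work.MP_8d13b5_lc.Fm

namespace DAT

/-- the statement DRF with the standard structure of an algebra over the integers -/
theorem drf (h : StDRF) : ∃ D : @Derivation ℤ (RatFunc ℂ) (RatFunc ℂ) _ _ _
    (Ring.toIntAlgebra (RatFunc ℂ)) _ _, D RatFunc.X = 1 ∧
    (∀ c : ℂ, D (algebraMap ℂ (RatFunc ℂ) c) = 0) ∧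
    ∀ f, D f = 0 → ∃ c : ℂ, f = algebraMap ℂ (RatFunc ℂ) c := by
  have e : (RatFunc.instAlgebraOfPolynomial ℂ ℤ : Algebra ℤ (RatFunc ℂ)) =
      Ring.toIntAlgebra (RatFunc ℂ) := Subsingleton.elim _ _
  unfold StDRF at h
  rw [← e]
  exact h

theorem hom_eq (E : Type) [Field E] [Algebra ℂ E] [Algebra (RatFunc ℂ) E]
    [IsScalarTower ℂ (RatFunc ℂ) E] :
    ((aeval (algebraMap (RatFunc ℂ) E RatFunc.X) : ℂ[X] →ₐ[ℂ] E) : ℂ[X] →+* E) =
      (algebraMap (RatFunc ℂ) E).comp (algebraMap ℂ[X] (RatFunc ℂ)) := by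
  apply Polynomial.ringHom_ext
  · intro c
    rw [RingHom.coe_coe, aeval_C, RingHom.comp_apply, RatFunc.algebraMap_C,
      IsScalarTower.algebraMap_apply ℂ (RatFunc ℂ) E]
    rfl
  · rw [RingHom.coe_coe, aeval_X, RingHom.comp_apply, RatFunc.algebraMap_X]

theorem main (m : ℕ) (G : ℂ[X][X]) (hG : G.Monic) (hd : G.natDegree = m + 1)
    (h0 : G.coeff 0 ≠ 0) (hN : NonConst G) (E : Type) [Field E] [Algebra ℂ E]
    [Algebra (RatFunc ℂ) E] [IsScalarTower ℂ (RatFunc ℂ) E] [FiniteDimensional (RatFunc ℂ) E]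
    (hs : ((G.map (algebraMap ℂ[X] (RatFunc ℂ))).map (algebraMap (RatFunc ℂ) E)).Splits)
    (h1 : StDRF) (h2 : StDEX) (h3 : StDCO) :
    ∃ (D : Derivation ℤ E E) (τ : E) (lam : Fin (m + 1) → E), IsDat m G D τ lam := by
  classical
  obtain ⟨D0, d1, d2, d3⟩ := drf h1
  obtain ⟨D, hD⟩ := h2 (RatFunc ℂ) E D0
  set τ : E := algebraMap (RatFunc ℂ) E RatFunc.X with hτ
  set φ : ℂ[X] →+* E := ((aeval τ : ℂ[X] →ₐ[ℂ] E) : ℂ[X] →+* E) with hφ
  have hφ2 : φ = (algebraMap (RatFunc ℂ) E).comp (algebraMap ℂ[X] (RatFunc ℂ)) := hom_eq E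
  have hφC : ∀ c : ℂ, φ (C c) = algebraMap ℂ E c := by
    intro c
    rw [hφ, RingHom.coe_coe, aeval_C]
  have hinj : Function.Injective φ := by
    rw [hφ2]
    exact (algebraMap (RatFunc ℂ) E).injective.comp (IsFractionRing.injective ℂ[X] (RatFunc ℂ))
  set P : E[X] := G.map φ with hP
  have hP2 : P = (G.map (algebraMap ℂ[X] (RatFunc ℂ))).map (algebraMap (RatFunc ℂ) E) := by
    rw [hP, hφ2, Polynomial.map_map]
  have hPm : P.Monic := hG.map φ
  have hPd : P.natDegree = m + 1 := by rw [hP, hG.natDegree_map, hd]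
  have hPs : P.Splits := by rw [hP2]; exact hs
  have hPsep : P.Separable := by
    rw [hP2]
    exact hN.1.map
  have hnd : P.roots.Nodup := nodup_roots hPsep
  have hcard : P.roots.toFinset.card = m + 1 := by
    rw [Multiset.toFinset_card_of_nodup hnd, ← hPs.natDegree_eq_card_roots, hPd]
  set e := Finset.equivFinOfCardEq hcard with he
  set lam : Fin (m + 1) → E := fun j => (e.symm j : E) with hlam
  have hlin : Function.Injective lam := by
    intro i j hij
    exact e.symm.injective (Subtype.ext hij)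
  have hroot : ∀ j, P.eval (lam j) = 0 := by
    intro j
    have h4 : (e.symm j : E) ∈ P.roots.toFinset := (e.symm j).2
    rw [Multiset.mem_toFinset, mem_roots hPm.ne_zero] at h4
    exact h4
  have hne : ∀ j, lam j ≠ 0 := by
    intro j hj
    have h5 := hroot j
    rw [hj, ← coeff_zero_eq_eval_zero, hP, coeff_map] at h5
    exact h0 (hinj (h5.trans (map_zero φ).symm))
  refine ⟨D, τ, lam, ?_, ?_, ?_, hlin, ?_, hne, ?_⟩
  · rw [hτ, hD, d1, map_one]
  · intro c
    rw [IsScalarTower.algebraMap_apply ℂ (RatFunc ℂ) E, hD, d2, map_zero]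
  · exact h3 (RatFunc ℂ) E D0 D hD d3
  · show P = _
    conv_lhs => rw [hPs.eq_prod_roots_of_monic hPm]
    have h6 : ∏ j, (X - C (lam j)) = ∏ a : P.roots.toFinset, (X - C (a : E)) :=
      Equiv.prod_comp e.symm (fun a : P.roots.toFinset => (X - C (a : E)))
    rw [h6, Finset.prod_coe_sort P.roots.toFinset (fun a : E => X - C a), Finset.prod,
      Multiset.toFinset_val, Multiset.dedup_eq_self.2 hnd]
  · intro i j hij c hc
    have hc0 : c ≠ 0 := by
      rintro rfl
      rw [map_zero, zero_mul] at hc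
      exact hne i hc
    have hc1 : c ≠ 1 := by
      rintro rfl
      rw [map_one, one_mul] at hc
      exact hij (hlin hc)
    obtain ⟨u, v, huv⟩ := hN.2 c hc0 hc1
    have h7 : eval₂ (algebraMap (RatFunc ℂ) E) (lam i) (G.map (algebraMap ℂ[X] (RatFunc ℂ))) = 0 := by
      rw [eval₂_map, ← hφ2, ← eval_map]
      exact hroot i
    have h8 : eval₂ (algebraMap (RatFunc ℂ) E) (lam i)
        ((G.scaleRoots (C c)).map (algebraMap ℂ[X] (RatFunc ℂ))) = 0 := by
      rw [eval₂_map, ← hφ2, hc, ← hφC]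
      apply scaleRoots_eval₂_eq_zero
      rw [← eval_map]
      exact hroot j
    have h9 := congrArg (eval₂ (algebraMap (RatFunc ℂ) E) (lam i)) huv
    rw [eval₂_add, eval₂_mul, eval₂_mul, h7, h8, mul_zero, mul_zero, add_zero, eval₂_one] at h9
    exact zero_ne_one h9

end DAT

theorem prDAT (h1 : StDRF) (h2 : StDEX) (h3 : StDCO) : StDAT := by
  intro m G hG hd h0 hN
  obtain ⟨D, τ, lam, h⟩ := DAT.main m G hG hd h0 hN
    (G.map (algebraMap ℂ[X] (RatFunc ℂ))).SplittingField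
    (SplittingField.splits (G.map (algebraMap ℂ[X] (RatFunc ℂ)))) h1 h2 h3
  exact ⟨_, _, _, D, τ, lam, h⟩

end Pool.Agent.Work.MP_8d13b5_lc.Fm
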