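import Pool.Agent.Work.MP_8d13b5_lc.Fm.StmtsW

set_option autoImplicit false

/-! Item DCO: the constants of an algebraic extension. -/

namespace Pool.Agent.Work.MP_8d13b5_lc.Fm

open Polynomial NumberField Finset Module

namespace DCO

theorem der_pow {E : Type} [Field E] (D' : Derivation ℤ E E) {x : E} (hx : D' x = 0) (n : ℕ) :
    D' (x ^ n) = 0 := by
  rw [Derivation.leibniz_pow, hx, smul_zero, smul_zero]

theorem der_sum {F E : Type} [Field F] [Field E] [Algebra F E] (D : Derivation ℤ F F)
    (D' : Derivation ℤ E E) (h : ∀ x, D' (algebraMap F E x) = algebraMap F E (D x)) {x : E}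
    (hx : D' x = 0) (M : F[X]) :
    D' (aeval x M) = ∑ i ∈ range (M.natDegree + 1), algebraMap F E (D (M.coeff i)) * x ^ i := by
  rw [aeval_eq_sum_range, map_sum]
  apply sum_congr rfl
  intro i _
  rw [Algebra.smul_def, Derivation.leibniz, der_pow D' hx, smul_zero, zero_add, h, smul_eq_mul,
    mul_comm]

theorem coeff_zero {F E : Type} [Field F] [Field E] [Algebra F E] (D : Derivation ℤ F F)
    (D' : Derivation ℤ E E) (h : ∀ x, D' (algebraMap F E x) = algebraMap F E (D x)) {x : E}
    (hx : D' x = 0) (hi : IsIntegral F x) (i : ℕ) : D ((minpoly F x).coeff i) = 0 := by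
  set M := minpoly F x with hM
  have hmon : M.Monic := minpoly.monic hi
  set Q : F[X] := ∑ i ∈ range M.natDegree, monomial i (D (M.coeff i)) with hQ
  have hc : ∀ j, Q.coeff j = if j < M.natDegree then D (M.coeff j) else 0 := by
    intro j
    rw [hQ, finsetSum_coeff]
    simp only [coeff_monomial]
    rw [Finset.sum_ite_eq' (range M.natDegree) j]
    simp only [mem_range]
  have h1 : aeval x Q = 0 := by
    have h2 := der_sum D D' h hx M
    rw [hM, minpoly.aeval, map_zero, ← hM, sum_range_succ, hmon.coeff_natDegree, Derivation.map_one_eq_zero,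
      map_zero, zero_mul, add_zero] at h2
    rw [hQ, map_sum, h2]
    apply sum_congr rfl
    intro j _
    rw [aeval_monomial]
  have hQ0 : Q = 0 := by
    by_contra hne
    have h3 := minpoly.degree_le_of_ne_zero F x hne h1
    rw [← hM, degree_eq_natDegree hmon.ne_zero] at h3
    have h4 : Q.degree < (M.natDegree : WithBot ℕ) := by
      rw [degree_lt_iff_coeff_zero]
      intro m hm
      rw [hc, if_neg (not_lt.2 hm)]
    exact absurd h3 (not_le.2 h4)
  rcases lt_trichotomy i M.natDegree with hlt | heq | hgt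
  · have := hc i
    rw [hQ0, if_pos hlt, Polynomial.coeff_zero] at this
    exact this.symm
  · rw [heq, hmon.coeff_natDegree, Derivation.map_one_eq_zero]
  · rw [coeff_eq_zero_of_natDegree_lt hgt, map_zero]

end DCO

theorem prDCO : StDCO := by
  intro F E _ _ _ _ _ _ _ D D' h hconst x hx
  have hi : IsIntegral F x := Algebra.IsIntegral.isIntegral x
  have hco := DCO.coeff_zero D D' h hx hi
  have hl : minpoly F x ∈ lifts (algebraMap ℂ F) := by
    rw [lifts_iff_coeff_lifts]
    intro i
    obtain ⟨c, hc⟩ := hconst _ (hco i)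
    exact ⟨c, hc.symm⟩
  obtain ⟨P, hP1, _, hP3⟩ := lifts_and_natDegree_eq_and_monic hl (minpoly.monic hi)
  have hic : IsIntegral ℂ x := by
    refine ⟨P, hP3, ?_⟩
    rw [← aeval_def, ← aeval_map_algebraMap F x P, hP1, minpoly.aeval]
  have h1 := IsAlgClosed.degree_eq_one_of_irreducible ℂ (minpoly.irreducible hic)
  obtain ⟨c, hc⟩ := minpoly.mem_range_of_degree_eq_one ℂ x h1
  exact ⟨c, hc.symm⟩

end Pool.Agent.Work.MP_8d13b5_lc.Fm
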