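import Pool.Agent.Work.MP_8d13b5_lc.Fm.StmtsW

set_option autoImplicit false

/-! Item DEX: extension of a derivation to a finite extension. -/

namespace Pool.Agent.Work.MP_8d13b5_lc.Fm

open Polynomial NumberField Finset Module

theorem prDEX : StDEX := by
  intro F E _ _ _ _ _ D
  let i : Differential F := ⟨D⟩
  let j : Differential E := Differential.differentialFiniteDimensional F E
  have h : DifferentialAlgebra F E := Differential.differentialAlgebraFiniteDimensional
  exact ⟨j.deriv, fun x => h.deriv_algebraMap x⟩

end Pool.Agent.Work.MP_8d13b5_lc.Fm
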