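import Pool.Agent.Work.MP_8d13b5_lc.Fm.StmtsW

set_option autoImplicit false

/-!
MP_8d13b5_lc, block FM2, item DRF: the derivation `d/dt` of `ℂ(t)` and its constants.
-/

namespace Pool.Agent.Work.MP_8d13b5_lc.Fm

open Polynomial NumberField Finset Module

namespace DRF

/-- the homomorphism `f ↦ f + f' ε` of `ℂ[X]` -/
noncomputable def psi : ℂ[X] →+* TrivSqZeroExt (RatFunc ℂ) (RatFunc ℂ) :=
  eval₂RingHom ((TrivSqZeroExt.inlHom (RatFunc ℂ) (RatFunc ℂ)).comp (RatFunc.C : ℂ →+* RatFunc ℂ))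
    (TrivSqZeroExt.inl RatFunc.X + TrivSqZeroExt.inr 1)

theorem fst_psi (f : ℂ[X]) : (psi f).fst = algebraMap ℂ[X] (RatFunc ℂ) f := by
  have h : (TrivSqZeroExt.fstHom (RatFunc ℂ) (RatFunc ℂ) (RatFunc ℂ)).toRingHom.comp psi =
      algebraMap ℂ[X] (RatFunc ℂ) := by
    refine Polynomial.ringHom_ext (fun c => ?_) ?_
    · simp [psi]
    · simp [psi]
  exact RingHom.congr_fun h f

theorem unit_psi (f : nonZeroDivisors ℂ[X]) : IsUnit (psi f) := by
  rw [TrivSqZeroExt.isUnit_iff_isUnit_fst, fst_psi]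
  exact IsLocalization.map_units (RatFunc ℂ) f

/-- the homomorphism of `ℂ(X)` -/
noncomputable def Psi : RatFunc ℂ →+* TrivSqZeroExt (RatFunc ℂ) (RatFunc ℂ) :=
  IsLocalization.lift (M := nonZeroDivisors ℂ[X]) unit_psi

theorem Psi_alg (f : ℂ[X]) : Psi (algebraMap ℂ[X] (RatFunc ℂ) f) = psi f :=
  IsLocalization.lift_eq unit_psi f

theorem fst_Psi (r : RatFunc ℂ) : (Psi r).fst = r := by
  have h : (TrivSqZeroExt.fstHom (RatFunc ℂ) (RatFunc ℂ) (RatFunc ℂ)).toRingHom.comp Psi =
      RingHom.id _ := by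
    refine IsLocalization.ringHom_ext (nonZeroDivisors ℂ[X]) ?_
    refine RingHom.ext (fun f => ?_)
    show (Psi (algebraMap ℂ[X] (RatFunc ℂ) f)).fst = algebraMap ℂ[X] (RatFunc ℂ) f
    rw [Psi_alg, fst_psi]
  exact RingHom.congr_fun h r

/-- a derivation over `ℤ` from an additive function with the Leibniz rule, for any `ℤ`-algebra
structure -/
theorem mkDer {K : Type} [Field K] (i : Algebra ℤ K) (f : K → K)
    (hadd : ∀ a b, f (a + b) = f a + f b) (hmul : ∀ a b, f (a * b) = a * f b + b * f a) :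
    ∃ D' : @Derivation ℤ K K _ _ _ i _ (AddCommGroup.toIntModule K), ∀ r, D' r = f r := by
  obtain rfl : i = Ring.toIntAlgebra K := Subsingleton.elim _ _
  exact ⟨Derivation.mk' (AddMonoidHom.toIntLinearMap
    { toFun := f
      map_zero' := by simpa using hadd 0 0
      map_add' := hadd }) hmul, fun r => rfl⟩

theorem snd_psi (f : ℂ[X]) : (psi f).snd = algebraMap ℂ[X] (RatFunc ℂ) (derivative f) := by
  induction f using Polynomial.induction_on' with
  | add p q hp hq => rw [map_add, TrivSqZeroExt.snd_add, hp, hq, derivative_add, map_add]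
  | monomial n a =>
    have hC : (psi (C a)).snd = 0 := by simp [psi]
    have hX : (psi X).snd = 1 := by simp [psi]
    have hpow : ∀ n : ℕ, (psi (X ^ n)).snd = algebraMap ℂ[X] (RatFunc ℂ) (derivative (X ^ n)) := by
      intro n
      induction n with
      | zero => simp
      | succ n ih =>
        rw [pow_succ, map_mul, TrivSqZeroExt.snd_mul, ih, hX, fst_psi, fst_psi, derivative_mul,
          derivative_X, map_add, map_mul]
        simp [mul_comm, add_comm]
    rw [← C_mul_X_pow_eq_monomial, map_mul, TrivSqZeroExt.snd_mul, hC, hpow, fst_psi, fst_psi,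
      derivative_C_mul, map_mul]
    simp

theorem coprime_const (a b : ℂ[X]) (hb : b.Monic) (hab : IsCoprime a b)
    (h : a * derivative b = derivative a * b) : b = 1 ∧ derivative a = 0 := by
  have h1 : b ∣ a * derivative b := ⟨derivative a, by rw [h]; ring⟩
  have h2 : b ∣ derivative b := hab.symm.dvd_of_dvd_mul_left h1
  have h3 : derivative b = 0 := by
    by_contra h0
    have h4 := Polynomial.degree_le_of_dvd h2 h0
    have h5 := Polynomial.degree_derivative_lt hb.ne_zero
    exact absurd h4 (not_le.mpr h5)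
  have h6 : b.natDegree = 0 := Polynomial.natDegree_eq_zero_of_derivative_eq_zero h3
  have h7 : b = 1 := hb.natDegree_eq_zero.mp h6
  refine ⟨h7, ?_⟩
  rw [h3, h7] at h
  simpa using h.symm

end DRF

theorem prDRF : StDRF := by
  obtain ⟨D', hD'⟩ := DRF.mkDer _ (fun r => (DRF.Psi r).snd)
    (fun a b => by rw [map_add, TrivSqZeroExt.snd_add])
    (fun a b => by
      rw [map_mul, TrivSqZeroExt.snd_mul, DRF.fst_Psi, DRF.fst_Psi]
      simp [mul_comm])
  have hpoly : ∀ f : ℂ[X], D' (algebraMap ℂ[X] (RatFunc ℂ) f) =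
      algebraMap ℂ[X] (RatFunc ℂ) (derivative f) := by
    intro f
    rw [hD', DRF.Psi_alg, DRF.snd_psi]
  refine ⟨D', ?_, ?_, ?_⟩
  · rw [← RatFunc.algebraMap_X, hpoly]
    simp
  · intro c
    have h1 : algebraMap ℂ (RatFunc ℂ) c = algebraMap ℂ[X] (RatFunc ℂ) (C c) := by
      rw [RatFunc.algebraMap_C, RatFunc.algebraMap_eq_C]
    rw [h1, hpoly]
    simp
  · intro f hf
    have hden : algebraMap ℂ[X] (RatFunc ℂ) f.denom ≠ 0 := RatFunc.algebraMap_ne_zero f.denom_ne_zero
    have h1 : f * algebraMap ℂ[X] (RatFunc ℂ) f.denom = algebraMap ℂ[X] (RatFunc ℂ) f.num := by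
      rw [← eq_div_iff hden, RatFunc.num_div_denom]
    have h2 : f * algebraMap ℂ[X] (RatFunc ℂ) (derivative f.denom) =
        algebraMap ℂ[X] (RatFunc ℂ) (derivative f.num) := by
      rw [← hpoly f.num, ← h1, Derivation.leibniz, hf, hpoly]
      simp
    have h3 : f.num * derivative f.denom = derivative f.num * f.denom := by
      apply RatFunc.algebraMap_injective ℂ
      rw [map_mul, map_mul, ← h1, ← h2]
      ring
    obtain ⟨h4, h5⟩ := DRF.coprime_const f.num f.denom f.monic_denom f.isCoprime_num_denom h3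
    refine ⟨f.num.coeff 0, ?_⟩
    have h6 : f.num = C (f.num.coeff 0) :=
      Polynomial.eq_C_of_natDegree_eq_zero (Polynomial.natDegree_eq_zero_of_derivative_eq_zero h5)
    rw [h4, map_one, mul_one] at h1
    rw [RatFunc.algebraMap_eq_C, ← RatFunc.algebraMap_C, ← h6]
    exact h1

end Pool.Agent.Work.MP_8d13b5_lc.Fm
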