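import Pool.Agent.Work.MP_8d13b5_lc.Fm.StmtsW

set_option autoImplicit false

/-! `StELI` of `Fm/StmtsW.lean` from `StFLA`: elimination with a derivation, by induction on the number
of the nonzero coefficients. -/

namespace Pool.Agent.Work.MP_8d13b5_lc.Fm

open Polynomial NumberField Finset Module

namespace ELI

variable {E : Type} [Field E]

/-- the derivative of `a * l ^ n` is `(D a + n * (D l / l) * a) * l ^ n` -/
theorem der_mul_pow (D : Derivation ℤ E E) (a l : E) (hl : l ≠ 0) (n : ℕ) :
    D (a * l ^ n) = (D a + n * (D l / l) * a) * l ^ n := by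
  rw [Derivation.leibniz, Derivation.leibniz_pow]
  simp only [smul_eq_mul, nsmul_eq_mul]
  rcases n with _ | n
  · simp
  · rw [Nat.add_sub_cancel, pow_succ]
    field_simp
    ring

/-- if the cross difference vanishes then the quotient has the derivative zero -/
theorem der_quot (D : Derivation ℤ E E) (a b l k : E) (hl : l ≠ 0) (hk : k ≠ 0) (n : ℕ)
    (h : b * (D a + n * (D l / l) * a) - a * (D b + n * (D k / k) * b) = 0) :
    D ((a * l ^ n) / (b * k ^ n)) = 0 := by
  rw [Derivation.leibniz_div, der_mul_pow D a l hl n, der_mul_pow D b k hk n]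
  simp only [smul_eq_mul]
  have h2 : b * k ^ n * ((D a + n * (D l / l) * a) * l ^ n) -
      a * l ^ n * ((D b + n * (D k / k) * b) * k ^ n) =
      (b * (D a + n * (D l / l) * a) - a * (D b + n * (D k / k) * b)) * (l ^ n * k ^ n) := by ring
  rw [h2, h]
  simp

variable [Algebra ℂ E]

open Classical in
theorem main (h1 : StFLA) (m : ℕ) (G : ℂ[X][X]) (D : Derivation ℤ E E) (τ : E)
    (lam : Fin (m + 1) → E) (w c : ℕ) (δ : E) (hD : IsDat m G D τ lam) (hδ : δ ≠ 0)
    (h2 : ∀ d x, x ∈ Fil τ lam w d → δ * D x ∈ Fil τ lam w (d + c))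
    (h3 : ∀ j, δ * (D (lam j) / lam j) ∈ Fil τ lam w c) (n : ℕ) :
    ∀ (s d : ℕ) (a : Fin (m + 1) → E), (univ.filter (fun j => a j ≠ 0)).card = s + 1 →
      (∀ j, a j ∈ Fil τ lam w d) → ∑ j, a j * lam j ^ n = 0 →
      ∃ i j, i ≠ j ∧ ∃ x y : E, x ≠ 0 ∧ y ≠ 0 ∧ x ∈ Fil τ lam w (2 ^ s * (d + c)) ∧
        y ∈ Fil τ lam w (2 ^ s * (d + c)) ∧ x * lam i ^ n = y * lam j ^ n := by
  obtain ⟨hmono, -, hmul, -, -, -⟩ := h1 E (m + 1) τ lam w
  have hne : ∀ j, lam j ^ n ≠ 0 := fun j => pow_ne_zero _ (hD.ne j)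
  intro s
  induction s with
  | zero =>
    intro d a hcard _ hsum
    exfalso
    obtain ⟨p, hp⟩ := Finset.card_eq_one.mp hcard
    have hpa : a p ≠ 0 := by
      have : p ∈ univ.filter (fun j => a j ≠ 0) := by rw [hp]; exact mem_singleton_self _
      exact (mem_filter.mp this).2
    have h0 : ∀ j, j ≠ p → a j = 0 := by
      intro j hj
      by_contra hc
      have : j ∈ univ.filter (fun j => a j ≠ 0) := mem_filter.mpr ⟨mem_univ _, hc⟩
      rw [hp, mem_singleton] at this
      exact hj this
    rw [Finset.sum_eq_single p (fun j _ hj => by rw [h0 j hj, zero_mul])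
      (fun h => absurd (mem_univ _) h)] at hsum
    exact mul_ne_zero hpa (hne p) hsum
  | succ s ih =>
    intro d a hcard ha hsum
    have hpos : 0 < (univ.filter (fun j => a j ≠ 0)).card := by omega
    obtain ⟨p, hp⟩ := Finset.card_pos.mp hpos
    have hpa : a p ≠ 0 := (mem_filter.mp hp).2
    by_cases hcase : ∃ j, j ≠ p ∧ a j ≠ 0 ∧ D ((a j * lam j ^ n) / (a p * lam p ^ n)) = 0
    · obtain ⟨j, hjp, haj, hder⟩ := hcase
      obtain ⟨κ, hκ⟩ := hD.const _ hder
      have hden : a p * lam p ^ n ≠ 0 := mul_ne_zero hpa (hne p)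
      have hnum : a j * lam j ^ n ≠ 0 := mul_ne_zero haj (hne j)
      have hle : d ≤ 2 ^ (s + 1) * (d + c) :=
        calc d ≤ d + c := Nat.le_add_right _ _
          _ ≤ 2 ^ (s + 1) * (d + c) := Nat.le_mul_of_pos_left _ (by positivity)
      have hκ0 : algebraMap ℂ E κ ≠ 0 := by
        rw [← hκ]; exact div_ne_zero hnum hden
      refine ⟨j, p, hjp, a j, algebraMap ℂ E κ * a p, haj, mul_ne_zero hκ0 hpa,
        hmono _ _ hle (ha j), ?_, ?_⟩
      · rw [← Algebra.smul_def]
        exact Submodule.smul_mem _ _ (hmono _ _ hle (ha p))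
      · rw [mul_assoc, ← hκ, div_mul_cancel₀ _ hden]
    · push Not at hcase
      set v : Fin (m + 1) → E := fun j => D (a j) + n * (D (lam j) / lam j) * a j with hv
      set b : Fin (m + 1) → E := fun j => δ * (a p * v j - a j * v p) with hb
      have hbp : b p = 0 := by simp only [hb]; ring
      have hb0 : ∀ j, a j = 0 → b j = 0 := by
        intro j hj
        simp only [hb, hv, hj, map_zero]
        ring
      have hbn : ∀ j, j ≠ p → a j ≠ 0 → b j ≠ 0 := by
        intro j hjp haj hbj
        have h4 : a p * v j - a j * v p = 0 := by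
          rcases mul_eq_zero.mp hbj with h | h
          · exact absurd h hδ
          · exact h
        exact hcase j hjp haj (der_quot D (a j) (a p) (lam j) (lam p) (hD.ne j) (hD.ne p) n h4)
      have hfil : univ.filter (fun j => b j ≠ 0) = (univ.filter (fun j => a j ≠ 0)).erase p := by
        ext j
        simp only [mem_filter, mem_univ, true_and, mem_erase]
        constructor
        · intro hj
          refine ⟨fun hjp => hj (by rw [hjp]; exact hbp), fun haj => hj (hb0 j haj)⟩
        · rintro ⟨hjp, haj⟩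
          exact hbn j hjp haj
      have hcard' : (univ.filter (fun j => b j ≠ 0)).card = s + 1 := by
        rw [hfil, Finset.card_erase_of_mem hp, hcard]
        rfl
      have hD0 : ∑ j, v j * lam j ^ n = 0 := by
        have h5 : D (∑ j, a j * lam j ^ n) = 0 := by rw [hsum, map_zero]
        rw [map_sum] at h5
        rw [← h5]
        refine Finset.sum_congr rfl fun j _ => ?_
        rw [der_mul_pow D (a j) (lam j) (hD.ne j) n]
      have hsum' : ∑ j, b j * lam j ^ n = 0 := by
        have h6 : ∑ j, b j * lam j ^ n =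
            δ * a p * (∑ j, v j * lam j ^ n) - δ * v p * (∑ j, a j * lam j ^ n) := by
          rw [Finset.mul_sum, Finset.mul_sum, ← Finset.sum_sub_distrib]
          refine Finset.sum_congr rfl fun j _ => ?_
          simp only [hb]
          ring
        rw [h6, hD0, hsum]
        ring
      have hbmem : ∀ j, b j ∈ Fil τ lam w (2 * d + c) := by
        intro j
        have e : b j = a p * (δ * D (a j)) + (n : ℂ) • (a p * a j * (δ * (D (lam j) / lam j))) -
            (a j * (δ * D (a p)) + (n : ℂ) • (a j * a p * (δ * (D (lam p) / lam p)))) := by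
          simp only [hb, hv, Algebra.smul_def, map_natCast]
          ring
        rw [e]
        have q1 : d + (d + c) = 2 * d + c := by ring
        have q2 : d + d + c = 2 * d + c := by ring
        have m1 : ∀ i k, a i * (δ * D (a k)) ∈ Fil τ lam w (2 * d + c) := by
          intro i k
          rw [← q1]
          exact hmul _ _ _ _ (ha i) (h2 _ _ (ha k))
        have m2 : ∀ i k l, a i * a k * (δ * (D (lam l) / lam l)) ∈ Fil τ lam w (2 * d + c) := by
          intro i k l
          rw [← q2]
          exact hmul _ _ _ _ (hmul _ _ _ _ (ha i) (ha k)) (h3 l)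
        exact Submodule.sub_mem _
          (Submodule.add_mem _ (m1 _ _) (Submodule.smul_mem _ _ (m2 _ _ _)))
          (Submodule.add_mem _ (m1 _ _) (Submodule.smul_mem _ _ (m2 _ _ _)))
      obtain ⟨i, j, hij, x, y, hx, hy, hxm, hym, hxy⟩ := ih (2 * d + c) b hcard' hbmem hsum'
      have hexp : 2 ^ s * (2 * d + c + c) = 2 ^ (s + 1) * (d + c) := by ring
      rw [hexp] at hxm hym
      exact ⟨i, j, hij, x, y, hx, hy, hxm, hym, hxy⟩

end ELI

theorem prELI (h1 : StFLA) : StELI := by
  classical
  intro m G E _ _ D τ lam w c δ hD hδ h2 h3 n d a hane ha hsum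
  have hmono := (h1 E (m + 1) τ lam w).1
  have hpos : 0 < (univ.filter (fun j => a j ≠ 0)).card := by
    rw [Finset.card_pos]
    obtain ⟨j, hj⟩ := Function.ne_iff.mp hane
    exact ⟨j, mem_filter.mpr ⟨mem_univ _, hj⟩⟩
  have hle : (univ.filter (fun j => a j ≠ 0)).card ≤ m + 1 := by
    calc (univ.filter (fun j => a j ≠ 0)).card ≤ (univ : Finset (Fin (m + 1))).card :=
          Finset.card_filter_le _ _
      _ = m + 1 := by simp
  obtain ⟨s, hs⟩ : ∃ s, (univ.filter (fun j => a j ≠ 0)).card = s + 1 :=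
    ⟨_, (Nat.succ_pred_eq_of_pos hpos).symm⟩
  obtain ⟨i, j, hij, x, y, hx, hy, hxm, hym, hxy⟩ :=
    ELI.main h1 m G D τ lam w c δ hD hδ h2 h3 n s d a hs ha hsum
  have hsm : 2 ^ s * (d + c) ≤ 2 ^ m * (d + c) :=
    Nat.mul_le_mul_right _ (Nat.pow_le_pow_right (by norm_num) (by omega))
  exact ⟨i, j, hij, x, y, hx, hy, hmono _ _ hsm hxm, hmono _ _ hsm hym, hxy⟩

end Pool.Agent.Work.MP_8d13b5_lc.Fm
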