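import Pool.Agent.Work.MP_8d13b5_lc.Fm.StmtsX
import Pool.Agent.Work.MP_8d13b5_lc.Fm.I_END

set_option autoImplicit false

/-! Item EN3 of the block Fm (uniform version without the condition `cop`). -/

namespace Pool.Agent.Work.MP_8d13b5_lc.Fm

open Polynomial NumberField Finset Module

namespace EN3

theorem main (hEXC : StEXC) (hCRA : StCRA) (K : Type) [Field K] [NumberField K] (m b : ℕ)
    (E a : Fin (m + 1) → 𝓞 K) (w' : 𝓞 K)
    (V : Fin m → Fin (m + 1) → 𝓞 K) (f : (K →+* ℂ) → ℝ) (A : Fin m → (K →+* ℂ) → ℝ)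
    (ha : a ≠ 0) (hE : E ≠ 0) (hw : w' ≠ 0) (haE : ∑ j, a j * E j = 0)
    (hV : ∀ i, ∑ j, V i j * E j = 0) (hVi : LinearIndependent (𝓞 K) V)
    (hρ : ∀ ρ : K, (∀ j, ∃ z : 𝓞 K, (z : K) = ρ * (E j : K)) →
      ∃ z : 𝓞 K, (z : K) = ρ ^ b * (w' : K))
    (hf : ∀ φ, 0 ≤ f φ ∧ ∃ j, f φ ≤ ‖res φ (E j)‖) (hA : ∀ i φ j, ‖res φ (V i j)‖ ≤ A i φ) :
    ∃ i₀, (∏ φ, f φ) ^ b ≤ (∏ φ : K →+* ℂ, ‖res φ w'‖) *
      ((m.factorial : ℝ) ^ finrank ℚ K * HH a * ∏ i ∈ univ.erase i₀, ∏ φ, A i φ) ^ b := by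
  classical
  obtain ⟨i₀, hU⟩ := hEXC (𝓞 K) m E a V hE ha hVi hV haE
  refine ⟨i₀, ?_⟩
  set U := Function.update V i₀ a with hUdef
  have hUE : ∀ i, ∑ j, U i j * E j = 0 := by
    intro i
    by_cases hi : i = i₀
    · subst hi
      rw [hUdef, Function.update_self]
      exact haE
    · rw [hUdef, Function.update_of_ne hi]
      exact hV i
  obtain ⟨⟨j₀, hj₀⟩, hM⟩ := hCRA (𝓞 K) m E U hE hU hUE
  obtain ⟨j₁, hj₁⟩ : ∃ j, E j ≠ 0 := by
    by_contra h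
    push Not at h
    exact hE (funext h)
  have hj₁K : ((E j₁ : 𝓞 K) : K) ≠ 0 := by
    intro h
    exact hj₁ (RingOfIntegers.coe_eq_zero_iff.1 h)
  set ρ : K := ((mnr U j₁ : 𝓞 K) : K) / ((E j₁ : 𝓞 K) : K) with hρdef
  have hρE : ∀ j, ((mnr U j : 𝓞 K) : K) = ρ * ((E j : 𝓞 K) : K) := by
    intro j
    have h1 := congrArg (algebraMap (𝓞 K) K) (hM j j₁)
    rw [map_mul, map_mul] at h1
    rw [hρdef, div_mul_eq_mul_div, eq_div_iff hj₁K]
    linear_combination -h1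
  have hρ0 : ρ ≠ 0 := by
    intro h0
    have h1 := hρE j₀
    rw [h0, zero_mul] at h1
    exact hj₀ (RingOfIntegers.coe_eq_zero_iff.1 h1)
  obtain ⟨z, hz⟩ := hρ ρ fun j => ⟨mnr U j, hρE j⟩
  have hz0 : z ≠ 0 := by
    intro h0
    have h2 : ρ ^ b * ((w' : 𝓞 K) : K) = 0 := by
      rw [← hz]
      exact RingOfIntegers.coe_eq_zero_iff.2 h0
    exact mul_ne_zero (pow_ne_zero b hρ0)
      (fun h1 => hw (RingOfIntegers.coe_eq_zero_iff.1 h1)) h2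
  have hone := END.one_le_prod z hz0
  have hzφ : ∀ φ : K →+* ℂ, ‖res φ z‖ = ‖φ ρ‖ ^ b * ‖res φ w'‖ := by
    intro φ
    have h1 : res φ z = φ ρ ^ b * res φ w' := by
      show φ ((z : 𝓞 K) : K) = φ ρ ^ b * φ ((w' : 𝓞 K) : K)
      rw [hz, map_mul, map_pow]
    rw [h1, norm_mul, norm_pow]
  have hR : ∀ φ : K →+* ℂ, ∀ i j, ‖res φ (U i j)‖ ≤
      (if i = i₀ then ∑ l, ‖res φ (a l)‖ else A i φ) := by
    intro φ i j
    by_cases hi : i = i₀
    · subst hi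
      rw [if_pos rfl, hUdef, Function.update_self]
      exact single_le_sum (f := fun l => ‖res φ (a l)‖) (fun l _ => norm_nonneg _) (mem_univ j)
    · rw [if_neg hi, hUdef, Function.update_of_ne hi]
      exact hA i φ j
  have hmn : ∀ (φ : K →+* ℂ) (j : Fin (m + 1)), ‖res φ (mnr U j)‖ ≤
      m.factorial * ((∑ l, ‖res φ (a l)‖) * ∏ i ∈ univ.erase i₀, A i φ) := by
    intro φ j
    have e1 : ‖res φ (mnr U j)‖ =
        ‖(Matrix.of fun i l => res φ (U i (j.succAbove l))).det‖ := by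
      unfold mnr
      rw [map_mul, map_pow, map_neg, map_one, norm_mul, norm_pow, norm_neg, norm_one, one_pow,
        one_mul, RingHom.map_det]
      rfl
    rw [e1]
    refine (END.det_le _ (fun i => if i = i₀ then ∑ l, ‖res φ (a l)‖ else A i φ) ?_).trans ?_
    · intro i l
      exact hR φ i _
    · refine mul_le_mul_of_nonneg_left ?_ (by positivity)
      rw [← mul_prod_erase univ _ (mem_univ i₀), if_pos rfl]
      refine le_of_eq ?_
      congr 1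
      refine prod_congr rfl fun i hi => ?_
      rw [if_neg (ne_of_mem_erase hi)]
  have hφ : ∀ φ : K →+* ℂ, ‖φ ρ‖ * f φ ≤
      m.factorial * ((∑ l, ‖res φ (a l)‖) * ∏ i ∈ univ.erase i₀, A i φ) := by
    intro φ
    obtain ⟨h1, j, h2⟩ := hf φ
    have h3 : ‖φ ρ‖ * ‖res φ (E j)‖ = ‖res φ (mnr U j)‖ := by
      rw [← norm_mul]
      congr 1
      show φ ρ * φ ((E j : 𝓞 K) : K) = φ ((mnr U j : 𝓞 K) : K)
      rw [hρE, map_mul]
    calc ‖φ ρ‖ * f φ ≤ ‖φ ρ‖ * ‖res φ (E j)‖ :=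
          mul_le_mul_of_nonneg_left h2 (norm_nonneg _)
      _ = ‖res φ (mnr U j)‖ := h3
      _ ≤ _ := hmn φ j
  have hf0 : 0 ≤ ∏ φ : K →+* ℂ, f φ := prod_nonneg fun φ _ => (hf φ).1
  have hprod : (∏ φ : K →+* ℂ, f φ) ^ b ≤
      (∏ φ : K →+* ℂ, ‖res φ z‖) * (∏ φ : K →+* ℂ, f φ) ^ b :=
    le_mul_of_one_le_left (pow_nonneg hf0 _) hone
  have hsplit : (∏ φ : K →+* ℂ, ‖res φ z‖) * (∏ φ : K →+* ℂ, f φ) ^ b =
      (∏ φ : K →+* ℂ, ‖res φ w'‖) * (∏ φ : K →+* ℂ, ‖φ ρ‖ * f φ) ^ b := by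
    rw [prod_congr rfl fun φ _ => hzφ φ, prod_mul_distrib, prod_mul_distrib, prod_pow, mul_pow]
    ring
  rw [hsplit] at hprod
  refine hprod.trans ?_
  refine mul_le_mul_of_nonneg_left ?_ (prod_nonneg fun φ _ => norm_nonneg _)
  refine pow_le_pow_left₀ (prod_nonneg fun φ _ => mul_nonneg (norm_nonneg _) (hf φ).1) ?_ _
  refine (prod_le_prod (fun φ _ => mul_nonneg (norm_nonneg _) (hf φ).1) fun φ _ => hφ φ).trans ?_
  rw [prod_mul_distrib, prod_mul_distrib, prod_const, card_univ,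
    NumberField.Embeddings.card K ℂ, prod_comm]
  unfold HH
  refine le_of_eq ?_
  ring

end EN3

theorem prEN3 (hEXC : StEXC) (hCRA : StCRA) : StEN3 := by
  intro K _ _ m b E a w' V f A _ ha hE hw haE hV hVi hρ hf hA
  exact EN3.main hEXC hCRA K m b E a w' V f A ha hE hw haE hV hVi hρ hf hA

end Pool.Agent.Work.MP_8d13b5_lc.Fm
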