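import Pool.Agent.Work.MP_8d13b5_lc.Fm.StmtsW

set_option autoImplicit false

/-! FLA: the filtration. -/

namespace Pool.Agent.Work.MP_8d13b5_lc.Fm

open Polynomial NumberField Finset Module

namespace FLA

variable {E : Type} [Field E] [Algebra ℂ E] {k : ℕ} (τ : E) (lam : Fin k → E) (w : ℕ)

theorem mem_mono {D : ℕ} (i : ℕ) (ν : Fin k → ℕ) (h : i + w * ∑ j, ν j ≤ D) :
    τ ^ i * ∏ j, lam j ^ ν j ∈ Fil τ lam w D :=
  Submodule.subset_span ⟨i, ν, h, rfl⟩

theorem mono {d d' : ℕ} (h : d ≤ d') : Fil τ lam w d ≤ Fil τ lam w d' := by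
  refine Submodule.span_mono ?_
  rintro x ⟨i, ν, h1, h2⟩
  exact ⟨i, ν, h1.trans h, h2⟩

theorem one_mem : (1 : E) ∈ Fil τ lam w 0 := by
  have h := mem_mono τ lam w (D := 0) 0 (fun _ => 0) (by simp)
  simpa using h

theorem mul_mem {d d' : ℕ} {x y : E} (hx : x ∈ Fil τ lam w d) (hy : y ∈ Fil τ lam w d') :
    x * y ∈ Fil τ lam w (d + d') := by
  have h := Submodule.mul_mem_mul hx hy
  unfold Fil at h
  rw [Submodule.span_mul_span] at h
  refine Submodule.span_mono ?_ h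
  rintro z ⟨a, ⟨i, ν, h1, rfl⟩, b, ⟨i', ν', h1', rfl⟩, rfl⟩
  refine ⟨i + i', fun j => ν j + ν' j, ?_, ?_⟩
  · rw [Finset.sum_add_distrib, mul_add]
    omega
  · simp only [pow_add, Finset.prod_mul_distrib]
    ring

theorem tau_mem (i : ℕ) : τ ^ i ∈ Fil τ lam w i := by
  have h := mem_mono τ lam w (D := i) i (fun _ => 0) (by simp)
  simpa using h

theorem aeval_mem (P : ℂ[X]) : aeval τ P ∈ Fil τ lam w P.natDegree := by
  rw [aeval_eq_sum_range]
  refine Submodule.sum_mem _ fun i hi => ?_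
  refine Submodule.smul_mem _ _ ?_
  exact mono τ lam w (Nat.lt_succ_iff.1 (Finset.mem_range.1 hi)) (tau_mem τ lam w i)

theorem lam_mem (j : Fin k) : lam j ∈ Fil τ lam w w := by
  classical
  have h := mem_mono τ lam w (D := w) 0 (fun l => if l = j then 1 else 0) (by simp)
  simpa [pow_ite, Finset.prod_ite_eq'] using h

theorem pow_mem {d : ℕ} {x : E} (hx : x ∈ Fil τ lam w d) (n : ℕ) :
    x ^ n ∈ Fil τ lam w (n * d) := by
  induction n with
  | zero =>
    rw [pow_zero, zero_mul]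
    exact one_mem τ lam w
  | succ n ih =>
    rw [pow_succ, Nat.succ_mul]
    exact mul_mem τ lam w ih hx

end FLA

theorem prFLA : StFLA := by
  intro E _ _ k τ lam w
  exact ⟨fun d d' h => FLA.mono τ lam w h, FLA.one_mem τ lam w,
    fun d d' x y hx hy => FLA.mul_mem τ lam w hx hy, FLA.aeval_mem τ lam w,
    FLA.lam_mem τ lam w, fun d x n hx => FLA.pow_mem τ lam w hx n⟩

end Pool.Agent.Work.MP_8d13b5_lc.Fm
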