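import Pool.Agent.Work.MP_8d13b5_lc.Fm.StmtsW

set_option autoImplicit false

/-! Item FLD: the dimension of the filtration. -/

namespace Pool.Agent.Work.MP_8d13b5_lc.Fm

open Polynomial NumberField Finset Module

namespace FLD

/-- the monomials -/
def Mo {E : Type} [Field E] {k : ℕ} (τ : E) (lam : Fin k → E) (i : ℕ) (ν : Fin k → ℕ) : E :=
  τ ^ i * ∏ j, lam j ^ ν j

lemma prod_upd {E : Type} [Field E] {k : ℕ} (lam : Fin k → E) (ν : Fin k → ℕ) (j : Fin k) (e : ℕ) :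
    ∏ l, lam l ^ (Function.update ν j e l) = lam j ^ e * ∏ l ∈ univ.erase j, lam l ^ ν l := by
  rw [← Finset.mul_prod_erase univ _ (mem_univ j), Function.update_self]
  congr 1
  refine prod_congr rfl fun l hl => ?_
  rw [Function.update_of_ne (mem_erase.1 hl).1]

lemma prod_spl {E : Type} [Field E] {k : ℕ} (lam : Fin k → E) (ν : Fin k → ℕ) (j : Fin k) :
    ∏ l, lam l ^ ν l = lam j ^ ν j * ∏ l ∈ univ.erase j, lam l ^ ν l :=
  (Finset.mul_prod_erase univ _ (mem_univ j)).symm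

lemma sum_upd {k : ℕ} (ν : Fin k → ℕ) (j : Fin k) (e : ℕ) :
    ∑ l, Function.update ν j e l = e + ∑ l ∈ univ.erase j, ν l := by
  rw [← Finset.add_sum_erase univ _ (mem_univ j), Function.update_self]
  congr 1
  refine sum_congr rfl fun l hl => ?_
  rw [Function.update_of_ne (mem_erase.1 hl).1]

lemma sum_spl {k : ℕ} (ν : Fin k → ℕ) (j : Fin k) :
    ∑ l, ν l = ν j + ∑ l ∈ univ.erase j, ν l :=
  (Finset.add_sum_erase univ _ (mem_univ j)).symm

section
variable {E : Type} [Field E] [Algebra ℂ E] {m : ℕ} {τ : E} {lam : Fin (m + 1) → E} {w : ℕ}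
  {G : ℂ[X][X]}

lemma pow_eq (hM : G.Monic) (hdeg : G.natDegree = m + 1) (hw : ∀ i, (G.coeff i).natDegree ≤ w)
    (h0 : ∀ j, (G.map ((aeval τ : ℂ[X] →ₐ[ℂ] E) : ℂ[X] →+* E)).eval (lam j) = 0)
    (j : Fin (m + 1)) : lam j ^ (m + 1) = -∑ l ∈ range (m + 1), ∑ a ∈ range (w + 1),
      (G.coeff l).coeff a • (τ ^ a * lam j ^ l) := by
  have h1 := h0 j
  rw [eval_eq_sum_range, hM.natDegree_map, hdeg, sum_range_succ, coeff_map] at h1
  have h2 : G.coeff (m + 1) = 1 := by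
    rw [← hdeg]
    exact hM
  rw [h2, map_one, one_mul] at h1
  have h3 : lam j ^ (m + 1) = -∑ x ∈ range (m + 1),
      (G.map ((aeval τ : ℂ[X] →ₐ[ℂ] E) : ℂ[X] →+* E)).coeff x * lam j ^ x := by
    rw [add_comm] at h1
    exact eq_neg_of_add_eq_zero_left h1
  rw [h3]
  congr 1
  refine sum_congr rfl fun l _ => ?_
  rw [coeff_map]
  have h4 : ((aeval τ : ℂ[X] →ₐ[ℂ] E) : ℂ[X] →+* E) (G.coeff l) =
      ∑ a ∈ range (w + 1), (G.coeff l).coeff a • τ ^ a :=
    aeval_eq_sum_range' (Nat.lt_succ_of_le (hw l)) τ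
  rw [h4, sum_mul]
  refine sum_congr rfl fun a _ => ?_
  rw [smul_mul_assoc]

lemma step (hM : G.Monic) (hdeg : G.natDegree = m + 1) (hw : ∀ i, (G.coeff i).natDegree ≤ w)
    (h0 : ∀ j, (G.map ((aeval τ : ℂ[X] →ₐ[ℂ] E) : ℂ[X] →+* E)).eval (lam j) = 0)
    (i : ℕ) (ν : Fin (m + 1) → ℕ) (j : Fin (m + 1)) (hj : m + 1 ≤ ν j) :
    Mo τ lam i ν = -∑ l ∈ range (m + 1), ∑ a ∈ range (w + 1),
      (G.coeff l).coeff a • Mo τ lam (i + a) (Function.update ν j (ν j - (m + 1) + l)) := by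
  have h1 : lam j ^ ν j = lam j ^ (ν j - (m + 1)) * lam j ^ (m + 1) := by
    rw [← pow_add]
    congr 1
    omega
  unfold Mo
  rw [prod_spl lam ν j, h1, pow_eq hM hdeg hw h0 j]
  rw [mul_neg, neg_mul, mul_neg]
  congr 1
  rw [mul_sum, sum_mul, mul_sum]
  refine sum_congr rfl fun l _ => ?_
  rw [mul_sum, sum_mul, mul_sum]
  refine sum_congr rfl fun a _ => ?_
  rw [prod_upd, mul_smul_comm, smul_mul_assoc, mul_smul_comm]
  congr 1
  rw [pow_add, pow_add]
  ring

/-- the finite generating set -/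
noncomputable def Ge (τ : E) (lam : Fin (m + 1) → E) (d : ℕ) : Finset E := by
  classical
  exact (range (d + 1) ×ˢ (univ : Finset (Fin (m + 1) → Fin (m + 1)))).image
    fun p => Mo τ lam p.1 fun j => (p.2 j : ℕ)

omit [Algebra ℂ E] in
lemma mem_Ge {d i : ℕ} {ν : Fin (m + 1) → ℕ} (hi : i ≤ d) (hν : ∀ j, ν j < m + 1) :
    Mo τ lam i ν ∈ Ge τ lam d := by
  classical
  unfold Ge
  rw [Finset.mem_image]
  exact ⟨(i, fun j => ⟨ν j, hν j⟩), mem_product.2 ⟨mem_range.2 (by omega), mem_univ _⟩, rfl⟩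

omit [Algebra ℂ E] in
lemma card_Ge (d : ℕ) : (Ge τ lam d).card ≤ (m + 1) ^ (m + 1) * (d + 1) := by
  classical
  unfold Ge
  refine card_image_le.trans (le_of_eq ?_)
  rw [card_product, card_range, card_univ, Fintype.card_fun, Fintype.card_fin, mul_comm]

lemma mem_span (hM : G.Monic) (hdeg : G.natDegree = m + 1) (hw : ∀ i, (G.coeff i).natDegree ≤ w)
    (h0 : ∀ j, (G.map ((aeval τ : ℂ[X] →ₐ[ℂ] E) : ℂ[X] →+* E)).eval (lam j) = 0) (d : ℕ) :
    ∀ (n : ℕ) (i : ℕ) (ν : Fin (m + 1) → ℕ), ∑ j, ν j = n → i + w * n ≤ d →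
      Mo τ lam i ν ∈ Submodule.span ℂ (Ge τ lam d : Set E) := by
  intro n
  induction n using Nat.strong_induction_on with
  | _ n ih =>
    intro i ν hn hd
    by_cases hν : ∀ j, ν j < m + 1
    · exact Submodule.subset_span (mem_Ge (by omega) hν)
    · push Not at hν
      obtain ⟨j, hj⟩ := hν
      rw [step hM hdeg hw h0 i ν j hj]
      refine Submodule.neg_mem _ (Submodule.sum_mem _ fun l hl => Submodule.sum_mem _ fun a ha =>
        Submodule.smul_mem _ _ ?_)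
      rw [mem_range] at hl ha
      have h1 := sum_upd ν j (ν j - (m + 1) + l)
      have h2 := sum_spl ν j
      have h3 : ∑ x, Function.update ν j (ν j - (m + 1) + l) x + 1 ≤ n := by omega
      refine ih _ (by omega) _ _ rfl ?_
      have h4 : w * (∑ x, Function.update ν j (ν j - (m + 1) + l) x + 1) ≤ w * n :=
        Nat.mul_le_mul_left _ h3
      rw [mul_add, mul_one] at h4
      omega

end

end FLD

open FLD in
theorem prFLD : StFLD := by
  intro E _ _ m τ lam w G hM hdeg hw h0 d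
  have hle : Fil τ lam w d ≤ Submodule.span ℂ (Ge τ lam d : Set E) := by
    unfold Fil
    rw [Submodule.span_le]
    rintro x ⟨i, ν, h1, rfl⟩
    exact mem_span hM hdeg hw h0 d _ i ν rfl h1
  have hfin : FiniteDimensional ℂ ↥(Submodule.span ℂ (Ge τ lam d : Set E)) :=
    FiniteDimensional.span_finset ℂ _
  exact ⟨Submodule.finiteDimensional_of_le hle, (Submodule.finrank_mono hle).trans
    ((finrank_span_finset_le_card _).trans (card_Ge d))⟩

end Pool.Agent.Work.MP_8d13b5_lc.Fm
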