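import Pool.Agent.Work.MP_8d13b5_lc.Fm.StmtsY

set_option autoImplicit false

/-! Item FNA: every family, zeros. -/

namespace Pool.Agent.Work.MP_8d13b5_lc.Fm

open Polynomial NumberField Finset Module

namespace FNA

/-- size of a value -/
theorem eval_le (P : ℤ[X]) (t : ℤ) (s : ℕ) (hs : P.natDegree ≤ s) (ht : 1 ≤ |t|) :
    |P.eval t| ≤ (∑ j ∈ range (P.natDegree + 1), |P.coeff j|) * |t| ^ s := by
  rw [eval_eq_sum_range, sum_mul]
  refine (abs_sum_le_sum_abs _ _).trans (sum_le_sum fun j hj => ?_)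
  rw [abs_mul, abs_pow]
  have : |t| ^ j ≤ |t| ^ s := pow_le_pow_right₀ ht (by rw [mem_range] at hj; omega)
  exact mul_le_mul_of_nonneg_left this (abs_nonneg _)

/-- growth of a solution -/
theorem grow (f : ℤ[X]) (hf : f.Monic) (u : ℕ → ℤ) (hu : Rec (RingHom.id ℤ) f u) (Y B : ℤ)
    (hY : 0 ≤ Y) (hB : 0 ≤ B) (hc : ∀ i < f.natDegree, |f.coeff i| ≤ Y)
    (hi : ∀ i < f.natDegree, |u i| ≤ B) (j : ℕ) :
    |u j| ≤ (1 + f.natDegree * Y) ^ j * B := by
  have hq : (1 : ℤ) ≤ 1 + f.natDegree * Y := by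
    have : (0 : ℤ) ≤ f.natDegree * Y := by positivity
    linarith
  induction j using Nat.strong_induction_on with
  | _ j ih =>
    by_cases hj : j < f.natDegree
    · refine (hi j hj).trans ?_
      have : (1 : ℤ) ≤ (1 + f.natDegree * Y) ^ j := one_le_pow₀ hq
      nlinarith
    · obtain ⟨n, rfl⟩ : ∃ n, j = n + f.natDegree := ⟨j - f.natDegree, by omega⟩
      have h := hu n
      rw [sum_range_succ] at h
      have hl : f.coeff f.natDegree = 1 := hf
      rw [hl] at h
      simp only [RingHom.id_apply, one_mul] at h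
      have e : u (n + f.natDegree) = -∑ i ∈ range f.natDegree, f.coeff i * u (n + i) := by
        linarith
      rcases Nat.eq_zero_or_pos f.natDegree with hd | hd
      · rw [e, hd]
        simp only [range_zero, sum_empty, neg_zero, abs_zero]
        positivity
      · rw [e, abs_neg]
        have hs : |∑ i ∈ range f.natDegree, f.coeff i * u (n + i)| ≤
            ∑ i ∈ range f.natDegree, Y * ((1 + f.natDegree * Y) ^ (n + f.natDegree - 1) * B) := by
          refine (abs_sum_le_sum_abs _ _).trans (sum_le_sum fun i hi' => ?_)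
          rw [mem_range] at hi'
          rw [abs_mul]
          have h1 := hc i hi'
          have h2 := ih (n + i) (by omega)
          have h3 : (1 + f.natDegree * Y) ^ (n + i) ≤ (1 + f.natDegree * Y) ^ (n + f.natDegree - 1) :=
            pow_le_pow_right₀ hq (by omega)
          have h4 : |u (n + i)| ≤ (1 + f.natDegree * Y) ^ (n + f.natDegree - 1) * B :=
            h2.trans (mul_le_mul_of_nonneg_right h3 hB)
          exact mul_le_mul h1 h4 (abs_nonneg _) hY
        refine hs.trans ?_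
        rw [sum_const, card_range, nsmul_eq_mul]
        have e2 : (1 + (f.natDegree : ℤ) * Y) ^ (n + f.natDegree) =
            (1 + f.natDegree * Y) ^ (n + f.natDegree - 1) * (1 + f.natDegree * Y) := by
          rw [← pow_succ]
          congr 1
          omega
        rw [e2]
        have h5 : (0 : ℤ) ≤ (1 + f.natDegree * Y) ^ (n + f.natDegree - 1) * B := by positivity
        nlinarith

/-- the bound in terms of the parameter -/
theorem grow_t (F : ℤ[X][X]) (hF : F.Monic) (L : ℕ) : ∃ T₀ s : ℕ, 1 ≤ T₀ ∧ ∀ t : ℤ,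
    T₀ ≤ t.natAbs → ∀ u : ℕ → ℤ, Rec (RingHom.id ℤ) (spc F t) u → ∀ B : ℕ,
      (∀ i < F.natDegree, (u i).natAbs ≤ B) →
      (∀ j, B = 0 → u j = 0) ∧ ∀ j ≤ L, (u j).natAbs ≤ t.natAbs ^ s * B := by
  classical
  set d := F.natDegree with hd
  set s := ∑ i ∈ range d, (F.coeff i).natDegree with hs
  set C₀ : ℕ := ∑ i ∈ range d, ∑ j ∈ range ((F.coeff i).natDegree + 1), ((F.coeff i).coeff j).natAbs
    with hC
  refine ⟨1 + d * C₀, (s + 1) * L, by omega, fun t ht u hu B hB => ?_⟩
  have hT1 : 1 ≤ t.natAbs := by omega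
  have hT : (1 : ℤ) ≤ |t| := by
    rw [Int.abs_eq_natAbs]
    exact_mod_cast hT1
  have hm : (spc F t).Monic := hF.map _
  have hdeg : (spc F t).natDegree = d := hF.natDegree_map _
  have hcoef : ∀ i < d, |(spc F t).coeff i| ≤ (C₀ : ℤ) * |t| ^ s := by
    intro i hi
    unfold spc
    rw [coeff_map]
    show |(F.coeff i).eval t| ≤ _
    have h1 : (F.coeff i).natDegree ≤ s := by
      rw [hs]
      exact single_le_sum (f := fun i => (F.coeff i).natDegree) (fun _ _ => Nat.zero_le _)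
        (mem_range.2 hi)
    refine (eval_le (F.coeff i) t s h1 hT).trans ?_
    have h2 : (∑ j ∈ range ((F.coeff i).natDegree + 1), |(F.coeff i).coeff j|) ≤ (C₀ : ℤ) := by
      have h3 : ∑ j ∈ range ((F.coeff i).natDegree + 1), ((F.coeff i).coeff j).natAbs ≤ C₀ := by
        rw [hC]
        exact single_le_sum
          (f := fun i => ∑ j ∈ range ((F.coeff i).natDegree + 1), ((F.coeff i).coeff j).natAbs)
          (fun _ _ => Nat.zero_le _) (mem_range.2 hi)
      have h4 : (∑ j ∈ range ((F.coeff i).natDegree + 1), |(F.coeff i).coeff j|) =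
          ((∑ j ∈ range ((F.coeff i).natDegree + 1), ((F.coeff i).coeff j).natAbs : ℕ) : ℤ) := by
        push_cast
        rfl
      rw [h4]
      exact_mod_cast h3
    exact mul_le_mul_of_nonneg_right h2 (by positivity)
  have hmain := grow (spc F t) hm u hu ((C₀ : ℤ) * |t| ^ s) (B : ℤ) (by positivity) (by positivity)
    (by rw [hdeg]; exact hcoef)
    (by
      rw [hdeg]
      intro i hi
      rw [Int.abs_eq_natAbs]
      exact_mod_cast hB i hi)
  rw [hdeg] at hmain
  refine ⟨fun j hj => ?_, fun j hj => ?_⟩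
  · have := hmain j
    rw [hj] at this
    simp only [Nat.cast_zero, mul_zero] at this
    exact abs_eq_zero.1 (le_antisymm this (abs_nonneg _))
  · have h1 : (1 : ℤ) + d * ((C₀ : ℤ) * |t| ^ s) ≤ |t| ^ (s + 1) := by
      have h2 : ((1 + d * C₀ : ℕ) : ℤ) ≤ |t| := by
        rw [Int.abs_eq_natAbs]
        exact_mod_cast ht
      have h3 : (1 : ℤ) ≤ |t| ^ s := one_le_pow₀ hT
      rw [pow_succ]
      push_cast at h2
      nlinarith
    have h4 : (1 + (d : ℤ) * ((C₀ : ℤ) * |t| ^ s)) ^ j ≤ |t| ^ ((s + 1) * L) := by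
      calc (1 + (d : ℤ) * ((C₀ : ℤ) * |t| ^ s)) ^ j ≤ (|t| ^ (s + 1)) ^ j :=
            pow_le_pow_left₀ (by positivity) h1 j
        _ = |t| ^ ((s + 1) * j) := by rw [pow_mul]
        _ ≤ |t| ^ ((s + 1) * L) := pow_le_pow_right₀ hT (Nat.mul_le_mul_left _ hj)
    have h5 := (hmain j).trans (mul_le_mul_of_nonneg_right h4 (by positivity : (0 : ℤ) ≤ B))
    rw [Int.abs_eq_natAbs, Int.abs_eq_natAbs] at h5
    exact_mod_cast h5

/-- the result for `G`, of any degree -/
theorem zerG (h3 : StZRY) (h4 : StZR0) (M : ℕ) (hM : 1 ≤ M) (G : ℤ[X][X]) (hG : G.Monic)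
    (hd : 1 ≤ G.natDegree) (h0 : G.coeff 0 ≠ 0)
    (hr : NonConst (G.map (mapRingHom (Int.castRingHom ℂ)))) :
    ∃ c T : ℕ, ∀ t : ℤ, T ≤ t.natAbs → ∀ z : ℕ → ℤ, Rec (RingHom.id ℤ) (spc G t ^ M) z →
      Zer (G.natDegree * M) M c t z := by
  classical
  obtain ⟨m, hm⟩ : ∃ m, G.natDegree = m + 1 := ⟨G.natDegree - 1, by omega⟩
  set σ := ∑ i ∈ range (m + 1), (G.coeff i).natDegree with hσ
  have hσ1 : ∀ i ≤ m, (G.coeff i).natDegree ≤ σ := fun i hi =>
    single_le_sum (f := fun i => (G.coeff i).natDegree) (fun _ _ => Nat.zero_le _)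
      (mem_range.2 (by omega))
  set H : ℕ := 1 + ∑ i ∈ range (m + 1), ∑ j ∈ range ((G.coeff i).natDegree + 1),
    ((G.coeff i).coeff j).natAbs with hH
  have hH1 : ∀ i ≤ m, ∀ j, ((G.coeff i).coeff j).natAbs ≤ H := by
    intro i hi j
    by_cases hj : j ∈ range ((G.coeff i).natDegree + 1)
    · have h5 : ((G.coeff i).coeff j).natAbs ≤
          ∑ j ∈ range ((G.coeff i).natDegree + 1), ((G.coeff i).coeff j).natAbs :=
        single_le_sum (f := fun j => ((G.coeff i).coeff j).natAbs) (fun _ _ => Nat.zero_le _) hj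
      have h6 : ∑ j ∈ range ((G.coeff i).natDegree + 1), ((G.coeff i).coeff j).natAbs ≤
          ∑ i ∈ range (m + 1), ∑ j ∈ range ((G.coeff i).natDegree + 1),
            ((G.coeff i).coeff j).natAbs :=
        single_le_sum
          (f := fun i => ∑ j ∈ range ((G.coeff i).natDegree + 1), ((G.coeff i).coeff j).natAbs)
          (fun _ _ => Nat.zero_le _) (mem_range.2 (by omega))
      omega
    · rw [mem_range] at hj
      rw [coeff_eq_zero_of_natDegree_lt (by omega)]
      simp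
  rcases Nat.eq_zero_or_pos m with rfl | hm1
  · obtain ⟨c, -, hc⟩ := h4 σ M hM
    refine ⟨c, (c * H) ^ c, fun t ht z hz => ?_⟩
    have := hc H G hG (by omega) h0 (by omega) (hσ1 0 le_rfl) (hH1 0 le_rfl) t ht z hz
    rw [hm]
    simpa using this
  · obtain ⟨c, -, hc⟩ := h3 m σ M hm1 hM
    refine ⟨c, (c * H) ^ c, fun t ht z hz => ?_⟩
    rw [hm]
    exact hc H G ⟨hG, hm, h0, by omega, hσ1, hH1, hr⟩ t ht z hz

end FNA

open FNA in
theorem prFNA (h1 : StRDC) (h2 : StSBY) (h3 : StZRY) (h4 : StZR0) : StFNA := by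
  intro F hF hd h0 hiso
  obtain ⟨N, M, G, hN, hM, hG, hGd, hG0, hGn, hdvd, hsep⟩ := h1 F hF hd h0 hiso
  obtain ⟨c, T₁, hc⟩ := zerG h3 h4 M hM G hG hGd hG0 hGn
  obtain ⟨T₂, s, hT₂, hs⟩ := grow_t F hF (N + N * (G.natDegree * M))
  refine ⟨N, M, T₁ + T₂, (s + 1) * c, hN, hM, hsep, fun t ht u hu q hq => ?_⟩
  have hsub : Pd.Sol (spc G t ^ M) (fun n => u (q + N * n)) := by
    refine h2 ℤ (spc F t) (spc G t ^ M) N q u hN ?_ hu
    have h5 := Polynomial.map_dvd (evalRingHom t) hdvd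
    rw [Polynomial.map_pow, map_expand] at h5
    rw [map_pow]
    exact h5
  have hz := hc t (by omega) (fun n => u (q + N * n)) hsub
  by_cases hall : ∀ n, u (q + N * n) = 0
  · exact Or.inl hall
  right
  intro B hB
  rcases hz with hz | hz
  · exact absurd hz hall
  obtain ⟨hb0, hbL⟩ := hs t (by omega) u hu B hB
  have hBpos : 1 ≤ B := by
    rcases Nat.eq_zero_or_pos B with h | h
    · exact absurd (fun n => hb0 _ h) hall
    · exact h
  obtain ⟨hz1, S, hS, hz2⟩ := hz (t.natAbs ^ s * B) (by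
    intro i hi
    apply hbL
    have : N * i ≤ N * (G.natDegree * M) := Nat.mul_le_mul_left _ hi.le
    omega)
  have hT : 1 ≤ t.natAbs := by omega
  have hle : (t.natAbs ^ s * B * t.natAbs) ^ c ≤ (B * t.natAbs) ^ ((s + 1) * c) := by
    rw [pow_mul]
    refine Nat.pow_le_pow_left ?_ c
    rw [pow_succ, mul_assoc]
    refine Nat.mul_le_mul_right _ (Nat.pow_le_pow_left ?_ s)
    exact Nat.le_mul_of_pos_left _ hBpos
  exact ⟨fun n hn => hz1 n (hle.trans_lt hn), S, hS, fun n hn h => hz2 n (hle.trans_lt hn) h⟩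

end Pool.Agent.Work.MP_8d13b5_lc.Fm
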