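import Pool.Agent.Work.MP_8d13b5_lc.Fm.StmtsY
import Pool.Agent.Work.MP_8d13b5_lc.Pd.Decide

set_option autoImplicit false

/-! Block `Fm`, item FND: the decision procedure for every family. -/

namespace Pool.Agent.Work.MP_8d13b5_lc.Fm

open Polynomial NumberField Finset Module

namespace FND

/-- a bound for the least zero -/
def bd (N c : ℕ) (x : (List ℤ × List ℤ) × ℕ) : ℕ := N * ((Pd.size x.1 * x.2) ^ c + 2)

theorem primrec_bd (N c : ℕ) : Primrec (bd N c) := by
  have hs : Primrec (fun x : (List ℤ × List ℤ) × ℕ => Pd.size x.1) :=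
    Pd.primrec_size.comp Primrec.fst
  have hB : Primrec (fun x : (List ℤ × List ℤ) × ℕ => x.2) := Primrec.snd
  have h1 : Primrec (fun x : (List ℤ × List ℤ) × ℕ => (Pd.size x.1 * x.2) ^ c) :=
    (show Primrec₂ (fun a b : ℕ => a ^ b) from Primrec₂.unpaired'.1 Nat.Primrec.pow).comp
      (Primrec.nat_mul.comp hs hB) (Primrec.const c)
  exact Primrec.nat_mul.comp (Primrec.const N) (Primrec.nat_add.comp h1 (Primrec.const 2))

theorem primrec_ipow (n : ℕ) : Primrec (fun t : ℤ => t ^ n) := by
  induction n with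
  | zero => exact (Primrec.const (1 : ℤ)).of_eq fun t => (pow_zero t).symm
  | succ n ih => exact (primrec_int_mul.comp ih Primrec.id).of_eq fun t => (pow_succ t n).symm

theorem primrec_eval (P : ℤ[X]) : Primrec (fun t : ℤ => P.eval t) := by
  induction P using Polynomial.induction_on' with
  | add P Q hP hQ => exact (primrec_int_add.comp hP hQ).of_eq fun t => eval_add.symm
  | monomial n a =>
    exact (primrec_int_mul.comp (Primrec.const a) (primrec_ipow n)).of_eq
      fun t => eval_monomial.symm

/-- the coefficients of the recurrence -/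
noncomputable def cl (F : ℤ[X][X]) (l : List ℕ) (t : ℤ) : List ℤ :=
  l.map fun j => -1 * (F.coeff j).eval t

theorem primrec_cl (F : ℤ[X][X]) (l : List ℕ) : Primrec (cl F l) := by
  induction l with
  | nil => exact Primrec.const []
  | cons a l ih =>
    exact Primrec.list_cons.comp
      (primrec_int_mul.comp (Primrec.const (-1)) (primrec_eval (F.coeff a))) ih

/-- the list of the indices -/
def ix (d : ℕ) : List ℕ := (List.range d).map fun j => d - 1 - j

theorem cl_getD (F : ℤ[X][X]) (d : ℕ) (t : ℤ) (j : ℕ) (hj : j < d) :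
    (cl F (ix d) t).getD j 0 = -(F.coeff (d - 1 - j)).eval t := by
  have h : j < (cl F (ix d) t).length := by simpa [cl, ix] using hj
  rw [List.getD_eq_getElem _ _ h]
  simp [cl, ix]

theorem exists_T (P : ℤ[X]) (hP : P ≠ 0) : ∃ T : ℕ, ∀ t : ℤ, T ≤ t.natAbs → P.eval t ≠ 0 := by
  classical
  refine ⟨(P.roots.toFinset.sup Int.natAbs) + 1, fun t ht h => ?_⟩
  have h1 : t ∈ P.roots.toFinset := by
    rw [Multiset.mem_toFinset, mem_roots hP]
    exact h
  have h2 : t.natAbs ≤ P.roots.toFinset.sup Int.natAbs := Finset.le_sup h1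
  omega

theorem isSeq (F : ℤ[X][X]) (hF : F.Monic) (hd : 1 ≤ F.natDegree) (t : ℤ)
    (h0 : (F.coeff 0).eval t ≠ 0) (u : ℕ → ℤ) (x : List ℤ)
    (hu : Rec (RingHom.id ℤ) (spc F t) u) (hx : x.length = F.natDegree)
    (hxu : ∀ i < F.natDegree, u i = x.getD i 0) :
    Pd.IsSeq (cl F (ix F.natDegree) t, x) u := by
  have hlen : (cl F (ix F.natDegree) t).length = F.natDegree := by simp [cl, ix]
  have hdeg : (spc F t).natDegree = F.natDegree := by
    unfold spc
    exact hF.natDegree_map _
  refine ⟨?_, ?_, ?_, ?_, ?_⟩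
  · show (cl F (ix F.natDegree) t).length = x.length
    rw [hlen, hx]
  · show 1 ≤ (cl F (ix F.natDegree) t).length
    rw [hlen]
    exact hd
  · show (cl F (ix F.natDegree) t).getD ((cl F (ix F.natDegree) t).length - 1) 0 ≠ 0
    rw [hlen, cl_getD F _ t _ (by omega), Nat.sub_self]
    exact neg_ne_zero.2 h0
  · intro i hi
    have hi' : i < (cl F (ix F.natDegree) t).length := hi
    rw [hlen] at hi'
    exact hxu i hi'
  · intro n
    show u (n + (cl F (ix F.natDegree) t).length) =
      ∑ j ∈ Finset.range (cl F (ix F.natDegree) t).length,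
        (cl F (ix F.natDegree) t).getD j 0 * u (n + (cl F (ix F.natDegree) t).length - 1 - j)
    rw [hlen]
    have h1 := hu n
    rw [hdeg, Finset.sum_range_succ] at h1
    have h2 : (spc F t).coeff F.natDegree = 1 := by
      rw [← hdeg]
      exact (hF.map _).coeff_natDegree
    rw [h2, map_one, one_mul] at h1
    have h3 : u (n + F.natDegree) =
        ∑ i ∈ Finset.range F.natDegree, -((F.coeff i).eval t) * u (n + i) := by
      have h4 : ∀ i, (RingHom.id ℤ) ((spc F t).coeff i) = (F.coeff i).eval t := by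
        intro i
        unfold spc
        rw [coeff_map]
        rfl
      simp only [h4] at h1
      simp only [neg_mul, Finset.sum_neg_distrib]
      linarith
    rw [h3, ← Finset.sum_range_reflect]
    refine Finset.sum_congr rfl fun j hj => ?_
    rw [Finset.mem_range] at hj
    rw [cl_getD F _ t j hj]
    congr 2
    omega

end FND

theorem prFND (h1 : StFNA) (h2 : StDEC) : StFND := by
  intro F hF hd h0 hN
  obtain ⟨N, M, T₀, c, hN1, hM1, _, hz⟩ := h1 F hF hd h0 hN
  obtain ⟨T₁, hT₁⟩ := FND.exists_T (F.coeff 0) h0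
  obtain ⟨A, hA, hA'⟩ := h2 (FND.bd N c) (FND.primrec_bd N c)
    (fun B p u => (∃ n, u n = 0) → ∃ n < FND.bd N c (p, B), u n = 0)
    (fun B p u _ h hz => h hz)
  refine ⟨max T₀ T₁, fun y => A ((FND.cl F (FND.ix F.natDegree) y.1, y.2), y.1.natAbs), ?_, ?_⟩
  · exact hA.comp (Primrec.pair (Primrec.pair ((FND.primrec_cl F _).comp Primrec.fst) Primrec.snd)
      (primrec_natAbs.comp Primrec.fst))
  · intro t ht u x hu hx hxu
    have ht0 : T₀ ≤ t.natAbs := le_trans (le_max_left _ _) ht
    have ht1 : T₁ ≤ t.natAbs := le_trans (le_max_right _ _) ht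
    have hseq := FND.isSeq F hF hd t (hT₁ t ht1) u x hu hx hxu
    refine hA' t.natAbs _ u hseq ?_
    rintro ⟨n, hn⟩
    set p : List ℤ × List ℤ := (FND.cl F (FND.ix F.natDegree) t, x) with hp
    have hqN : n % N < N := Nat.mod_lt _ (by omega)
    have hnq : n = n % N + N * (n / N) := (Nat.mod_add_div n N).symm
    rcases hz t ht0 u hu (n % N) hqN with h3 | h3
    · refine ⟨n % N, ?_, ?_⟩
      · show n % N < N * ((Pd.size p * t.natAbs) ^ c + 2)
        calc n % N < N := hqN
          _ = N * 1 := (mul_one N).symm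
          _ ≤ N * ((Pd.size p * t.natAbs) ^ c + 2) := Nat.mul_le_mul_left _ (by omega)
      · have := h3 0
        rwa [Nat.mul_zero, Nat.add_zero] at this
    · have h4 : ∀ i < F.natDegree, (u i).natAbs ≤ Pd.size p := by
        intro i hi
        rw [hxu i hi]
        refine (Pd.natAbs_getD_le x i).trans ?_
        unfold Pd.size
        exact Nat.le_add_left _ _
      have h5 := (h3 (Pd.size p) h4).1 (n / N)
      have h6 : n / N ≤ (Pd.size p * t.natAbs) ^ c := by
        by_contra h7
        exact h5 (not_le.1 h7) (by rw [← hnq]; exact hn)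
      refine ⟨n, ?_, hn⟩
      show n < N * ((Pd.size p * t.natAbs) ^ c + 2)
      have h8 : N * (n / N) ≤ N * (Pd.size p * t.natAbs) ^ c := Nat.mul_le_mul_left _ h6
      have h9 : N * ((Pd.size p * t.natAbs) ^ c + 2) =
          N * (Pd.size p * t.natAbs) ^ c + N * 2 := Nat.mul_add _ _ _
      omega

end Pool.Agent.Work.MP_8d13b5_lc.Fm
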