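import Pool.Agent.Work.MP_8d13b5_lc.Fm.Stmts2

set_option autoImplicit false

/-! Item HEN: the fixed point equation for power series, with a majorant. Instead of the weights
`1 / r ^ 2` we use the partial sums `∑ N(coeff r w) ρ ^ r`. -/

namespace Pool.Agent.Work.MP_8d13b5_lc.Fm

open Polynomial NumberField Finset Module

namespace HEN

section wts

variable {A : Type} [CommRing A]

/-- the partial sums of the weighted size -/
noncomputable def wt (N : A → ℝ) (ρ : ℝ) (R : ℕ) (w : PowerSeries A) : ℝ :=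
  ∑ r ∈ range (R + 1), N (PowerSeries.coeff r w) * ρ ^ r

theorem wt_nonneg {N : A → ℝ} (hN : IsSn N) {ρ : ℝ} (hρ : 0 ≤ ρ) (R : ℕ) (w : PowerSeries A) :
    0 ≤ wt N ρ R w :=
  sum_nonneg fun r _ => mul_nonneg (hN.nonneg _) (pow_nonneg hρ r)

theorem wt_zero {N : A → ℝ} (hN : IsSn N) (ρ : ℝ) (R : ℕ) : wt N ρ R (0 : PowerSeries A) = 0 := by
  unfold wt
  refine sum_eq_zero fun r _ => ?_
  rw [map_zero, hN.zero, zero_mul]

theorem wt_add {N : A → ℝ} (hN : IsSn N) {ρ : ℝ} (hρ : 0 ≤ ρ) (R : ℕ) (v w : PowerSeries A) :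
    wt N ρ R (v + w) ≤ wt N ρ R v + wt N ρ R w := by
  unfold wt
  rw [← sum_add_distrib]
  refine sum_le_sum fun r _ => ?_
  rw [map_add, ← add_mul]
  exact mul_le_mul_of_nonneg_right (hN.add _ _) (pow_nonneg hρ r)

theorem wt_sum {N : A → ℝ} (hN : IsSn N) {ρ : ℝ} (hρ : 0 ≤ ρ) (R : ℕ) {ι : Type}
    (s : Finset ι) (f : ι → PowerSeries A) :
    wt N ρ R (∑ i ∈ s, f i) ≤ ∑ i ∈ s, wt N ρ R (f i) :=
  Finset.le_sum_of_subadditive (wt N ρ R) (wt_zero hN ρ R).le (wt_add hN hρ R) s f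

theorem wt_mul {N : A → ℝ} (hN : IsSn N) {ρ : ℝ} (hρ : 0 ≤ ρ) (v w : PowerSeries A)
    (R P Q : ℕ) (h : ∀ a b, a + b ≤ R → (a ≤ P ∧ b ≤ Q) ∨ PowerSeries.coeff a v = 0 ∨
      PowerSeries.coeff b w = 0) :
    wt N ρ R (v * w) ≤ wt N ρ P v * wt N ρ Q w := by
  set F : ℕ × ℕ → ℝ := fun p => N (PowerSeries.coeff p.1 v) * ρ ^ p.1 *
    (N (PowerSeries.coeff p.2 w) * ρ ^ p.2) with hF
  have hF0 : ∀ p, 0 ≤ F p := fun p => mul_nonneg
    (mul_nonneg (hN.nonneg _) (pow_nonneg hρ _)) (mul_nonneg (hN.nonneg _) (pow_nonneg hρ _))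
  have h1 : wt N ρ R (v * w) ≤ ∑ r ∈ range (R + 1), ∑ p ∈ antidiagonal r, F p := by
    unfold wt
    refine sum_le_sum fun r _ => ?_
    rw [PowerSeries.coeff_mul]
    refine (mul_le_mul_of_nonneg_right
      (Finset.le_sum_of_subadditive N hN.zero.le hN.add _ _) (pow_nonneg hρ r)).trans ?_
    rw [sum_mul]
    refine sum_le_sum fun p hp => ?_
    have h2 : r = p.1 + p.2 := (mem_antidiagonal.1 hp).symm
    refine (mul_le_mul_of_nonneg_right (hN.mul _ _) (pow_nonneg hρ r)).trans (le_of_eq ?_)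
    rw [hF, h2, pow_add]
    ring
  set S : Finset (ℕ × ℕ) := ((range (R + 1)) ×ˢ (range (R + 1))).filter
    (fun p => p.1 + p.2 ≤ R) with hS
  have h2 : ∑ r ∈ range (R + 1), ∑ p ∈ antidiagonal r, F p = ∑ p ∈ S, F p := by
    rw [← Finset.sum_fiberwise_of_maps_to (s := S) (t := range (R + 1))
      (g := fun p : ℕ × ℕ => p.1 + p.2)]
    · refine sum_congr rfl fun r hr => sum_congr ?_ fun _ _ => rfl
      ext p
      have hr' := mem_range.1 hr
      rw [HasAntidiagonal.mem_antidiagonal, mem_filter, hS, mem_filter, mem_product, mem_range, mem_range]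
      omega
    · intro p hp
      rw [hS, mem_filter] at hp
      have := hp.2
      rw [mem_range]
      omega
  have h3 : ∑ p ∈ S, F p ≤ ∑ p ∈ (range (P + 1)) ×ˢ (range (Q + 1)), F p := by
    rw [← sum_filter_ne_zero]
    refine sum_le_sum_of_subset_of_nonneg ?_ fun p _ _ => hF0 p
    intro p hp
    rw [mem_filter, hS, mem_filter] at hp
    obtain ⟨⟨_, hp1⟩, hp2⟩ := hp
    rw [mem_product, mem_range, mem_range]
    rcases h p.1 p.2 hp1 with h4 | h4 | h4
    · omega
    · exact absurd (by rw [hF]; simp only [h4, hN.zero, zero_mul]) hp2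
    · exact absurd (by rw [hF]; simp only [h4, hN.zero, zero_mul, mul_zero]) hp2
  rw [h2] at h1
  refine (h1.trans h3).trans (le_of_eq ?_)
  unfold wt
  rw [sum_mul_sum, sum_product]

theorem wt_pow {N : A → ℝ} (hN : IsSn N) {ρ : ℝ} (hρ : 0 ≤ ρ) (R : ℕ) (z : PowerSeries A)
    (j : ℕ) : wt N ρ R (z ^ (j + 1)) ≤ (wt N ρ R z) ^ (j + 1) := by
  induction j with
  | zero => rw [zero_add, pow_one, pow_one]
  | succ j ih =>
    rw [pow_succ, pow_succ (wt N ρ R z)]
    refine (wt_mul hN hρ _ _ R R R fun a b hab => Or.inl ⟨by omega, by omega⟩).trans ?_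
    exact mul_le_mul_of_nonneg_right ih (wt_nonneg hN hρ R z)

theorem wt_pow2 {N : A → ℝ} (hN : IsSn N) {ρ : ℝ} (hρ : 0 ≤ ρ) (R : ℕ) (z : PowerSeries A)
    (hz : PowerSeries.constantCoeff z = 0) (j : ℕ) :
    wt N ρ (R + 1) (z ^ (j + 2)) ≤ (wt N ρ R z) ^ (j + 2) := by
  rw [pow_succ', pow_succ' (wt N ρ R z)]
  refine (wt_mul hN hρ _ _ (R + 1) R R fun a b hab => ?_).trans ?_
  · rcases Nat.eq_zero_or_pos a with ha | ha
    · right; left
      rw [ha, PowerSeries.coeff_zero_eq_constantCoeff_apply, hz]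
    · rcases Nat.eq_zero_or_pos b with hb | hb
      · right; right
        rw [hb, PowerSeries.coeff_zero_eq_constantCoeff_apply, map_pow, hz,
          zero_pow (Nat.succ_ne_zero j)]
      · left
        omega
  · exact mul_le_mul_of_nonneg_left (wt_pow hN hρ R z j) (wt_nonneg hN hρ R z)

theorem wt_mono {N : A → ℝ} (hN : IsSn N) {ρ : ℝ} (hρ : 0 ≤ ρ) (P i : ℕ) (g : A) :
    wt N ρ P (PowerSeries.C g * PowerSeries.X ^ i) ≤ N g * ρ ^ i := by
  unfold wt
  have h1 : ∀ r ∈ range (P + 1), N (PowerSeries.coeff r (PowerSeries.C g * PowerSeries.X ^ i)) *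
      ρ ^ r = if r = i then N g * ρ ^ i else 0 := by
    intro r _
    rw [PowerSeries.coeff_C_mul_X_pow]
    by_cases h : r = i
    · rw [if_pos h, if_pos h, h]
    · rw [if_neg h, if_neg h, hN.zero, zero_mul]
  rw [sum_congr rfl h1, sum_ite_eq']
  split_ifs
  · exact le_rfl
  · exact mul_nonneg (hN.nonneg _) (pow_nonneg hρ i)

theorem wt_X {N : A → ℝ} (hN : IsSn N) {ρ : ℝ} (hρ : 0 ≤ ρ) (R i : ℕ) (g : A)
    (w : PowerSeries A) :
    wt N ρ (R + 1) (PowerSeries.C g * PowerSeries.X ^ (i + 1) * w) ≤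
      N g * ρ ^ (i + 1) * wt N ρ R w := by
  refine (wt_mul hN hρ _ _ (R + 1) (i + 1) R fun a b hab => ?_).trans ?_
  · by_cases h : a = i + 1
    · left
      omega
    · right; left
      rw [PowerSeries.coeff_C_mul_X_pow, if_neg h]
  · exact mul_le_mul_of_nonneg_right (wt_mono hN hρ _ _ g) (wt_nonneg hN hρ R w)

theorem wt_C {N : A → ℝ} (hN : IsSn N) {ρ : ℝ} (hρ : 0 ≤ ρ) (R : ℕ) (g : A)
    (w : PowerSeries A) : wt N ρ R (PowerSeries.C g * w) ≤ N g * wt N ρ R w := by
  refine (wt_mul hN hρ _ _ R 0 R fun a b hab => ?_).trans ?_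
  · by_cases h : a = 0
    · left
      omega
    · right; left
      rw [PowerSeries.coeff_C, if_neg h]
  · refine mul_le_mul_of_nonneg_right (le_of_eq ?_) (wt_nonneg hN hρ R w)
    unfold wt
    rw [zero_add, sum_range_one, pow_zero, mul_one, PowerSeries.coeff_C, if_pos rfl]

end wts

theorem geo {κ : ℝ} (h0 : 0 ≤ κ) (h1 : κ ≤ 1 / 2) (n : ℕ) : ∑ j ∈ range n, κ ^ j ≤ 2 := by
  have h : ∑ j ∈ range n, κ ^ j + 2 * κ ^ n ≤ 2 := by
    induction n with
    | zero => simp
    | succ n ih =>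
      rw [sum_range_succ, pow_succ]
      have h2 : 0 ≤ κ ^ n := pow_nonneg h0 n
      nlinarith
  have h2 : 0 ≤ κ ^ n := pow_nonneg h0 n
  linarith

section fix

variable {A : Type} [CommRing A]

/-- the right side -/
noncomputable def Phi (I J : ℕ) (g : ℕ → ℕ → A) (z : PowerSeries A) : PowerSeries A :=
  ∑ i ∈ range (I + 1), ∑ j ∈ range (J + 1), PowerSeries.C (g i j) * PowerSeries.X ^ i * z ^ j

theorem Phi_dvd (I J : ℕ) (g : ℕ → ℕ → A) (h00 : g 0 0 = 0) (z : PowerSeries A)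
    (hz : PowerSeries.X ∣ z) : PowerSeries.X ∣ Phi I J g z := by
  unfold Phi
  refine dvd_sum fun i _ => dvd_sum fun j _ => ?_
  rcases i with _ | i
  · rcases j with _ | j
    · rw [h00, map_zero, zero_mul, zero_mul]
      exact dvd_zero _
    · exact Dvd.dvd.mul_left (dvd_pow hz (Nat.succ_ne_zero j)) _
  · exact Dvd.dvd.mul_right (Dvd.dvd.mul_left (dvd_pow_self _ (Nat.succ_ne_zero i)) _) _

theorem Phi_sub (I J : ℕ) (g : ℕ → ℕ → A) (h00 : g 0 0 = 0) (h01 : g 0 1 = 0)
    (z w : PowerSeries A) (hz : PowerSeries.X ∣ z) (hw : PowerSeries.X ∣ w) (n : ℕ)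
    (h : PowerSeries.X ^ n ∣ z - w) :
    PowerSeries.X ^ (n + 1) ∣ Phi I J g z - Phi I J g w := by
  have hp : ∀ j : ℕ, PowerSeries.X ^ n ∣ z ^ j - w ^ j :=
    fun j => h.trans (sub_dvd_pow_sub_pow z w j)
  unfold Phi
  rw [← sum_sub_distrib]
  refine dvd_sum fun i _ => ?_
  rw [← sum_sub_distrib]
  refine dvd_sum fun j _ => ?_
  rw [← mul_sub]
  rcases i with _ | i
  · rcases j with _ | _ | j
    · rw [h00, map_zero, zero_mul, zero_mul]
      exact dvd_zero _
    · rw [h01, map_zero, zero_mul, zero_mul]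
      exact dvd_zero _
    · have h1 : z ^ (j + 1 + 1) - w ^ (j + 1 + 1) =
          z * (z ^ (j + 1) - w ^ (j + 1)) + (z - w) * w ^ (j + 1) := by ring
      rw [h1]
      refine Dvd.dvd.mul_left (dvd_add ?_ ?_) _
      · rw [pow_succ']
        exact mul_dvd_mul hz (hp (j + 1))
      · rw [pow_succ]
        exact mul_dvd_mul h (dvd_pow hw (Nat.succ_ne_zero j))
  · have h1 : PowerSeries.C (g (i + 1) j) * PowerSeries.X ^ (i + 1) * (z ^ j - w ^ j) =
        (PowerSeries.C (g (i + 1) j) * PowerSeries.X ^ i) *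
          ((z ^ j - w ^ j) * PowerSeries.X) := by ring
    rw [h1]
    refine Dvd.dvd.mul_left ?_ _
    rw [pow_succ]
    exact mul_dvd_mul (hp j) dvd_rfl

/-- the approximations -/
noncomputable def zs (I J : ℕ) (g : ℕ → ℕ → A) : ℕ → PowerSeries A
  | 0 => 0
  | n + 1 => Phi I J g (zs I J g n)

theorem exists_fix (I J : ℕ) (g : ℕ → ℕ → A) (h00 : g 0 0 = 0) (h01 : g 0 1 = 0) :
    ∃ z : PowerSeries A, PowerSeries.constantCoeff z = 0 ∧ z = Phi I J g z := by
  have h1 : ∀ n, PowerSeries.X ∣ zs I J g n := by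
    intro n
    induction n with
    | zero => exact dvd_zero _
    | succ n ih => exact Phi_dvd I J g h00 _ ih
  have h2 : ∀ n, PowerSeries.X ^ n ∣ zs I J g (n + 1) - zs I J g n := by
    intro n
    induction n with
    | zero => exact ⟨_, (one_mul _).symm⟩
    | succ n ih => exact Phi_sub I J g h00 h01 _ _ (h1 (n + 1)) (h1 n) n ih
  have h3 : ∀ n k, PowerSeries.X ^ n ∣ zs I J g (n + k) - zs I J g n := by
    intro n k
    induction k with
    | zero =>
      rw [add_zero, sub_self]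
      exact dvd_zero _
    | succ k ih =>
      have h4 : zs I J g (n + (k + 1)) - zs I J g n =
          (zs I J g (n + k + 1) - zs I J g (n + k)) + (zs I J g (n + k) - zs I J g n) := by
        rw [sub_add_sub_cancel]
        rfl
      rw [h4]
      exact dvd_add ((pow_dvd_pow _ (Nat.le_add_right n k)).trans (h2 (n + k))) ih
  set z : PowerSeries A := PowerSeries.mk fun r => PowerSeries.coeff r (zs I J g (r + 1)) with hz
  have h4 : ∀ n, PowerSeries.X ^ n ∣ z - zs I J g n := by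
    intro n
    rw [PowerSeries.X_pow_dvd_iff]
    intro m hm
    obtain ⟨k, rfl⟩ := Nat.exists_eq_add_of_lt hm
    have h5 := PowerSeries.X_pow_dvd_iff.1 (h3 (m + 1) k) m (Nat.lt_succ_self m)
    rw [map_sub, sub_eq_zero] at h5
    rw [map_sub, sub_eq_zero, hz, PowerSeries.coeff_mk, ← h5]
    congr 2
    omega
  have h5 : PowerSeries.X ∣ z := by
    have h6 := h4 1
    rw [pow_one] at h6
    have h7 := dvd_add h6 (h1 1)
    rwa [sub_add_cancel] at h7
  refine ⟨z, PowerSeries.X_dvd_iff.1 h5, ?_⟩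
  ext n
  have h6 : PowerSeries.X ^ (n + 1) ∣ z - Phi I J g z := by
    have h7 := Phi_sub I J g h00 h01 _ _ h5 (h1 n) n (h4 n)
    have h8 := dvd_sub (h4 (n + 1)) h7
    have h9 : z - zs I J g (n + 1) - (Phi I J g z - Phi I J g (zs I J g n)) =
        z - Phi I J g z := by
      change z - Phi I J g (zs I J g n) - (Phi I J g z - Phi I J g (zs I J g n)) = _
      ring
    rwa [h9] at h8
  have h7 := PowerSeries.X_pow_dvd_iff.1 h6 n (Nat.lt_succ_self n)
  rwa [map_sub, sub_eq_zero] at h7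

theorem bound (I J : ℕ) (g : ℕ → ℕ → A) (h00 : g 0 0 = 0) (h01 : g 0 1 = 0)
    (z : PowerSeries A) (hz : PowerSeries.constantCoeff z = 0) (hfix : z = Phi I J g z)
    (N : A → ℝ) (M : ℝ) (hN : IsSn N) (hM : 1 ≤ M)
    (hg : ∀ i ≤ I, ∀ j ≤ J, N (g i j) ≤ M) (R : ℕ) :
    wt N (1 / (16 * ((I : ℝ) + 1) * M ^ 2)) R z ≤ 1 / (4 * M) := by
  set ρ : ℝ := 1 / (16 * ((I : ℝ) + 1) * M ^ 2) with hρd
  set κ : ℝ := 1 / (4 * M) with hκd
  have hM0 : 0 < M := by linarith
  have hI0 : (0 : ℝ) ≤ (I : ℝ) := Nat.cast_nonneg I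
  have hρ0 : 0 ≤ ρ := by rw [hρd]; positivity
  have hκ0 : 0 ≤ κ := by rw [hκd]; positivity
  have hρ1 : ρ ≤ 1 := by
    rw [hρd, div_le_one (by positivity)]
    nlinarith [mul_nonneg hI0 (sq_nonneg M), one_le_pow₀ hM (n := 2)]
  have hκ1 : κ ≤ 1 / 2 := by
    rw [hκd, div_le_div_iff₀ (by positivity) (by norm_num)]
    linarith
  have hk1 : 2 * M * κ ^ 2 = κ / 2 := by
    rw [hκd]
    field_simp
    norm_num
  have hk2 : (I : ℝ) * (M * ρ * 2) ≤ κ / 2 := by
    rw [hρd, hκd]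
    have h1 : (I : ℝ) * (M * (1 / (16 * ((I : ℝ) + 1) * M ^ 2)) * 2) =
        (I : ℝ) / (8 * ((I : ℝ) + 1) * M) := by
      field_simp
      ring
    have h2 : 1 / (4 * M) / 2 = ((I : ℝ) + 1) / (8 * ((I : ℝ) + 1) * M) := by
      field_simp
      norm_num
    rw [h1, h2]
    exact div_le_div_of_nonneg_right (by linarith) (by positivity)
  induction R with
  | zero =>
    unfold wt
    rw [zero_add, sum_range_one, PowerSeries.coeff_zero_eq_constantCoeff_apply, hz, hN.zero,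
      zero_mul]
    exact hκ0
  | succ R ih =>
    have hw0 : 0 ≤ wt N ρ R z := wt_nonneg hN hρ0 R z
    set B : ℕ → ℕ → ℝ := fun i j =>
      if i = 0 then (if j ≤ 1 then 0 else M * κ ^ j) else M * ρ * κ ^ j with hB
    have hT : ∀ i ≤ I, ∀ j ≤ J,
        wt N ρ (R + 1) (PowerSeries.C (g i j) * PowerSeries.X ^ i * z ^ j) ≤ B i j := by
      intro i hi j hj
      rcases i with _ | i
      · rcases j with _ | _ | j
        · rw [h00, map_zero, zero_mul, zero_mul, wt_zero hN]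
          simp [hB]
        · rw [h01, map_zero, zero_mul, zero_mul, wt_zero hN]
          simp [hB]
        · have h1 : B 0 (j + 1 + 1) = M * κ ^ (j + 2) := by
            rw [hB]
            simp only [if_true]
            rw [if_neg (by omega)]
          rw [h1, pow_zero, mul_one]
          refine (wt_C hN hρ0 (R + 1) _ _).trans ?_
          refine mul_le_mul (hg 0 hi _ hj) ?_ (wt_nonneg hN hρ0 _ _) hM0.le
          exact (wt_pow2 hN hρ0 R z hz j).trans (pow_le_pow_left₀ hw0 ih _)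
      · have h1 : B (i + 1) j = M * ρ * κ ^ j := by
          rw [hB]
          simp only
          rw [if_neg (Nat.succ_ne_zero i)]
        have h2 : ρ ^ (i + 1) ≤ ρ := by
          rw [pow_succ]
          exact mul_le_of_le_one_left hρ0 (pow_le_one₀ hρ0 hρ1)
        have h3 : N (g (i + 1) j) * ρ ^ (i + 1) ≤ M * ρ :=
          mul_le_mul (hg _ hi _ hj) h2 (pow_nonneg hρ0 _) hM0.le
        rw [h1]
        rcases j with _ | j
        · rw [pow_zero, mul_one, pow_zero, mul_one]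
          exact (wt_mono hN hρ0 _ _ _).trans h3
        · refine (wt_X hN hρ0 R i _ _).trans ?_
          refine mul_le_mul h3 ?_ (wt_nonneg hN hρ0 _ _) (mul_nonneg hM0.le hρ0)
          exact (wt_pow hN hρ0 R z j).trans (pow_le_pow_left₀ hw0 ih _)
    have h1 : wt N ρ (R + 1) z ≤ ∑ i ∈ range (I + 1), ∑ j ∈ range (J + 1), B i j := by
      rw [hfix]
      unfold Phi
      refine (wt_sum hN hρ0 (R + 1) _ _).trans (sum_le_sum fun i hi => ?_)
      refine (wt_sum hN hρ0 (R + 1) _ _).trans (sum_le_sum fun j hj => ?_)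
      have hi' := mem_range.1 hi
      have hj' := mem_range.1 hj
      exact hT i (by omega) j (by omega)
    have h2 : ∑ j ∈ range (J + 1), B 0 j ≤ κ / 2 := by
      have h3 : ∑ j ∈ range (J + 1), B 0 j ≤ ∑ j ∈ range (J + 1 + 1 + 1), B 0 j := by
        refine sum_le_sum_of_subset_of_nonneg (range_subset_range.2 (by omega)) fun j _ _ => ?_
        rw [hB]
        simp only [if_true]
        split_ifs
        · exact le_rfl
        · positivity
      refine h3.trans ?_
      rw [sum_range_succ', sum_range_succ']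
      have h4 : B 0 0 = 0 := by simp [hB]
      have h5 : B 0 (0 + 1) = 0 := by simp [hB]
      have h6 : ∀ j ∈ range (J + 1), B 0 (j + 1 + 1) = M * κ ^ 2 * κ ^ j := by
        intro j _
        rw [hB]
        simp only [if_true]
        rw [if_neg (by omega)]
        ring
      rw [h4, h5, add_zero, add_zero, sum_congr rfl h6, ← mul_sum, ← hk1]
      have h7 := geo hκ0 hκ1 (J + 1)
      have h8 : 0 ≤ M * κ ^ 2 := by positivity
      nlinarith
    have h3 : ∀ i ∈ range I, ∑ j ∈ range (J + 1), B (i + 1) j ≤ M * ρ * 2 := by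
      intro i _
      have h4 : ∀ j ∈ range (J + 1), B (i + 1) j = M * ρ * κ ^ j := by
        intro j _
        rw [hB]
        simp only
        rw [if_neg (Nat.succ_ne_zero i)]
      rw [sum_congr rfl h4, ← mul_sum]
      exact mul_le_mul_of_nonneg_left (geo hκ0 hκ1 (J + 1)) (mul_nonneg hM0.le hρ0)
    refine h1.trans ?_
    rw [sum_range_succ']
    have h4 : ∑ i ∈ range I, ∑ j ∈ range (J + 1), B (i + 1) j ≤ (I : ℝ) * (M * ρ * 2) := by
      refine (sum_le_sum h3).trans (le_of_eq ?_)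
      rw [sum_const, card_range, nsmul_eq_mul]
    linarith

end fix

end HEN

open HEN in
/-- HEN: the fixed point equation for power series, with a majorant. -/
theorem prHEN : StHEN := by
  intro I J
  have hI0 : (0 : ℝ) ≤ (I : ℝ) := Nat.cast_nonneg I
  refine ⟨16 * ((I : ℝ) + 1), by linarith, ?_⟩
  intro A _ g h00 h01
  obtain ⟨z, hz, hfix⟩ := exists_fix I J g h00 h01
  refine ⟨z, hz, hfix, ?_⟩
  intro N M hN hM hg r _
  have hM0 : 0 < M := by linarith
  have h1 := bound I J g h00 h01 z hz hfix N M hN hM hg r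
  set ρ : ℝ := 1 / (16 * ((I : ℝ) + 1) * M ^ 2) with hρd
  have hρ0 : 0 < ρ := by rw [hρd]; positivity
  have h2 : N (PowerSeries.coeff r z) * ρ ^ r ≤ wt N ρ r z := by
    unfold wt
    exact single_le_sum (f := fun r => N (PowerSeries.coeff r z) * ρ ^ r)
      (fun s _ => mul_nonneg (hN.nonneg _) (pow_nonneg hρ0.le s)) (mem_range.2 (Nat.lt_succ_self r))
  have h3 : N (PowerSeries.coeff r z) * ρ ^ r ≤ 1 := by
    refine (h2.trans h1).trans ?_
    rw [div_le_one (by positivity)]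
    linarith
  have h4 : (16 * ((I : ℝ) + 1) * M ^ 2) ^ r * ρ ^ r = 1 := by
    rw [← mul_pow, hρd, mul_one_div_cancel (by positivity), one_pow]
  have h5 : 0 < ρ ^ r := pow_pos hρ0 r
  rw [← h4] at h3
  exact le_of_mul_le_mul_right h3 h5

end Pool.Agent.Work.MP_8d13b5_lc.Fm
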