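import Pool.Agent.Work.MP_8d13b5_lc.Fm.Stmts2

set_option autoImplicit false

/-! Item HNX of the block `Fm`: Hensel's lemma with a majorant. -/

namespace Pool.Agent.Work.MP_8d13b5_lc.Fm

open Polynomial NumberField Finset Module

namespace HNX

section Sn

variable {A : Type} [CommRing A] {N : A → ℝ}

theorem sn_natmul (h : IsSn N) (m : ℕ) (a : A) : N ((m : A) * a) ≤ m * N a := by
  induction m with
  | zero => simp [h.zero]
  | succ m ih =>
    have e : ((m + 1 : ℕ) : A) * a = (m : A) * a + a := by push_cast; ring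
    rw [e]
    refine (h.add _ _).trans ?_
    push_cast
    linarith

theorem sn_pow (h : IsSn N) {M B : ℝ} (hN1 : N 1 ≤ M) (hM : 0 ≤ M) {a : A} (ha : N a ≤ B) (hB : 0 ≤ B)
    (n : ℕ) : N (a ^ n) ≤ M * B ^ n := by
  induction n with
  | zero => simpa using hN1
  | succ n ih =>
    rw [pow_succ, pow_succ, ← mul_assoc]
    exact (h.mul _ _).trans (mul_le_mul ih ha (h.nonneg _) (by positivity))

theorem sn_sum (h : IsSn N) {ι : Type} (s : Finset ι) (f : ι → A) {B : ℝ}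
    (hf : ∀ i ∈ s, N (f i) ≤ B) : N (∑ i ∈ s, f i) ≤ s.card * B := by
  classical
  induction s using Finset.induction_on with
  | empty => simp [h.zero]
  | insert a s ha ih =>
    rw [sum_insert ha, card_insert_of_notMem ha]
    refine (h.add _ _).trans ?_
    have h1 := hf a (mem_insert_self a s)
    have h2 := ih fun i hi => hf i (mem_insert_of_mem hi)
    push_cast
    linarith

theorem sn_mul (h : IsSn N) {a b : A} {x y : ℝ} (ha : N a ≤ x) (hb : N b ≤ y) : N (a * b) ≤ x * y :=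
  (h.mul _ _).trans (mul_le_mul ha hb (h.nonneg _) ((h.nonneg _).trans ha))

end Sn

section Alg

variable {R A : Type} [CommRing R] [CommRing A] [Algebra R A]

/-- The Taylor coefficient of the coefficient `l` of `F`. -/
noncomputable def fc (F : R[X][X]) (t₀ : R) (i l : ℕ) : R := (taylor t₀ (F.coeff l)).coeff i

/-- The divided derivatives at `(t₀, x)`. -/
noncomputable def Fc (k : ℕ) (F : R[X][X]) (t₀ : R) (x : A) (i j : ℕ) : A :=
  ∑ l ∈ range (k + 1), (l.choose j : A) * (algebraMap R A (fc F t₀ i l) * x ^ (l - j))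

theorem fc_eq (F : R[X][X]) (t₀ : R) (τ l i : ℕ) (hF : (F.coeff l).natDegree ≤ τ) :
    fc F t₀ i l = ∑ n ∈ range (τ + 1), (F.coeff l).coeff n * (t₀ ^ (n - i) * (n.choose i : R)) := by
  rw [fc, taylor_apply, comp, eval₂_eq_sum_range' C (Nat.lt_succ_of_le hF), finsetSum_coeff]
  refine sum_congr rfl fun n _ => ?_
  rw [coeff_C_mul, coeff_X_add_C_pow]

theorem aeval_taylor {S : Type} [CommRing S] [Algebra R S] (p : R[X]) (t₀ : R) (τ : ℕ)
    (hp : p.natDegree ≤ τ) (u : S) :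
    aeval (algebraMap R S t₀ + u) p =
      ∑ i ∈ range (τ + 1), algebraMap R S ((taylor t₀ p).coeff i) * u ^ i := by
  have h1 : aeval (algebraMap R S t₀ + u) p = aeval u (taylor t₀ p) := by
    rw [taylor_apply, aeval_comp]
    congr 1
    congr 1
    rw [map_add, aeval_X, aeval_C, add_comm]
  rw [h1, aeval_eq_sum_range' (n := τ + 1) (by rw [natDegree_taylor]; omega)]
  refine sum_congr rfl fun i _ => ?_
  rw [Algebra.smul_def]

theorem ev2_sum {S : Type} [CommRing S] [Algebra R S] (F : R[X][X]) (k : ℕ) (hk : F.natDegree ≤ k)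
    (T Y : S) : ev2 F T Y = ∑ l ∈ range (k + 1), aeval T (F.coeff l) * Y ^ l := by
  rw [ev2, eval₂_eq_sum_range' _ (Nat.lt_succ_of_le hk)]
  rfl

theorem add_pow_ext {S : Type} [CommRing S] (a v : S) (k l : ℕ) (hl : l ≤ k) :
    (a + v) ^ l = ∑ j ∈ range (k + 1), (l.choose j : S) * a ^ (l - j) * v ^ j := by
  rw [add_comm a v, add_pow]
  have h1 : range (l + 1) ⊆ range (k + 1) := range_subset_range.2 (by omega)
  rw [← sum_subset h1]
  · refine sum_congr rfl fun j _ => ?_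
    ring
  · intro j _ hj
    have : l < j := by
      by_contra h
      exact hj (mem_range.2 (by omega))
    rw [Nat.choose_eq_zero_of_lt this]
    simp

theorem expand (F : R[X][X]) (k τ : ℕ) (hk : F.natDegree ≤ k) (hτ : ∀ j, (F.coeff j).natDegree ≤ τ)
    (t₀ : R) (x : A) (u v : PowerSeries A) :
    ev2 F (PowerSeries.C (algebraMap R A t₀) + u) (PowerSeries.C x + v) =
      ∑ i ∈ range (τ + 1), ∑ j ∈ range (k + 1), PowerSeries.C (Fc k F t₀ x i j) * u ^ i * v ^ j := by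
  have hal : ∀ r : R, algebraMap R (PowerSeries A) r = PowerSeries.C (algebraMap R A r) := fun r => by
    rw [PowerSeries.algebraMap_apply]
  rw [ev2_sum F k hk]
  have h1 : ∀ l ∈ range (k + 1), aeval (PowerSeries.C (algebraMap R A t₀) + u) (F.coeff l) *
      (PowerSeries.C x + v) ^ l = ∑ i ∈ range (τ + 1), ∑ j ∈ range (k + 1),
        PowerSeries.C ((l.choose j : A) * (algebraMap R A (fc F t₀ i l) * x ^ (l - j))) * u ^ i *
          v ^ j := by
    intro l hl
    have hl' : l ≤ k := Nat.lt_succ_iff.1 (mem_range.1 hl)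
    rw [← hal, aeval_taylor (F.coeff l) t₀ τ (hτ l) u, add_pow_ext (PowerSeries.C x) v k l hl',
      sum_mul_sum]
    refine sum_congr rfl fun i _ => sum_congr rfl fun j _ => ?_
    rw [hal, map_mul, map_mul, map_pow, map_natCast, fc]
    ring
  rw [sum_congr rfl h1, sum_comm]
  refine sum_congr rfl fun i _ => ?_
  rw [sum_comm]
  refine sum_congr rfl fun j _ => ?_
  rw [Fc, map_sum, sum_mul, sum_mul]

theorem fc_zero (F : R[X][X]) (t₀ : R) (l : ℕ) : fc F t₀ 0 l = (F.coeff l).eval t₀ := by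
  rw [fc, taylor_coeff_zero]

theorem Fc00 (F : R[X][X]) (k : ℕ) (hk : F.natDegree ≤ k) (t₀ : R) (x : A) :
    Fc k F t₀ x 0 0 = ev2 F (algebraMap R A t₀) x := by
  rw [Fc, ev2_sum F k hk]
  refine sum_congr rfl fun l _ => ?_
  rw [fc_zero, aeval_algebraMap_apply_eq_algebraMap_eval]
  simp

theorem Fc01 (F : R[X][X]) (k : ℕ) (hk : F.natDegree ≤ k) (t₀ : R) (x : A) :
    Fc k F t₀ x 0 1 = ev2 (derivative F) (algebraMap R A t₀) x := by
  have hk' : (derivative F).natDegree ≤ k := (natDegree_derivative_le F).trans (by omega)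
  rw [Fc, ev2_sum (derivative F) k hk', sum_range_succ' (n := k), sum_range_succ (n := k)]
  have h0 : (derivative F).coeff k = 0 := by
    rw [coeff_derivative, coeff_eq_zero_of_natDegree_lt (by omega), zero_mul]
  rw [h0, map_zero, zero_mul, add_zero, Nat.choose_zero_succ, Nat.cast_zero, zero_mul, add_zero]
  refine sum_congr rfl fun l _ => ?_
  rw [coeff_derivative, fc_zero, Nat.choose_one_right, map_mul,
    aeval_algebraMap_apply_eq_algebraMap_eval, Nat.add_sub_cancel]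
  have : aeval (algebraMap R A t₀) ((l : R[X]) + 1) = ((l + 1 : ℕ) : A) := by
    rw [map_add, map_natCast, map_one]
    push_cast
    rfl
  rw [this]
  ring

/-- The coefficients of the fixed point equation. -/
noncomputable def gg (k : ℕ) (F : R[X][X]) (t₀ Δ c : R) (x ds : A) (i j : ℕ) : A :=
  if i = 0 then (if j < 2 then 0 else
    -(ds * Fc k F t₀ x 0 j * (algebraMap R A Δ ^ (j - 2) * algebraMap R A c ^ (j - 1))))
  else -(ds * Fc k F t₀ x i j * (algebraMap R A (Δ ^ 2 * c) ^ (i - 1) *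
    algebraMap R A (Δ * c) ^ j))

theorem term (k : ℕ) (F : R[X][X]) (t₀ Δ c : R) (x ds : A) (h00 : Fc k F t₀ x 0 0 = 0)
    (h01 : Fc k F t₀ x 0 1 * ds = algebraMap R A Δ) (z : PowerSeries A) (i j : ℕ) :
    PowerSeries.C (Fc k F t₀ x i j) *
        (PowerSeries.C (algebraMap R A (Δ ^ 2 * c)) * PowerSeries.X) ^ i *
        (PowerSeries.C (algebraMap R A (Δ * c)) * z) ^ j -
      (if i = 0 ∧ j = 1 then PowerSeries.C (Fc k F t₀ x 0 1) *
        (PowerSeries.C (algebraMap R A (Δ * c)) * z) else 0) =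
    -(PowerSeries.C (Fc k F t₀ x 0 1 * algebraMap R A (Δ * c))) *
      (PowerSeries.C (gg k F t₀ Δ c x ds i j) * PowerSeries.X ^ i * z ^ j) := by
  rcases Nat.eq_zero_or_pos i with hi | hi
  · subst hi
    rcases Nat.lt_or_ge j 2 with hj | hj
    · interval_cases j
      · rw [if_neg (by omega), h00, gg, if_pos rfl, if_pos (by omega)]
        simp
      · rw [if_pos ⟨rfl, rfl⟩, gg, if_pos rfl, if_pos (by omega)]
        simp
    · rw [if_neg (by omega), gg, if_pos rfl, if_neg (by omega)]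
      obtain ⟨j', rfl⟩ : ∃ j', j = j' + 2 := ⟨j - 2, by omega⟩
      have e1 : j' + 2 - 2 = j' := by omega
      have e2 : j' + 2 - 1 = j' + 1 := by omega
      rw [e1, e2, pow_zero, pow_zero, mul_one, mul_one, sub_zero, map_neg, neg_mul, neg_mul, mul_neg,
        neg_neg, mul_pow, ← map_pow, ← mul_assoc, ← mul_assoc, ← map_mul, ← map_mul]
      congr 2
      have e3 : Fc k F t₀ x 0 1 * algebraMap R A (Δ * c) *
          (ds * Fc k F t₀ x 0 (j' + 2) * (algebraMap R A Δ ^ j' * algebraMap R A c ^ (j' + 1))) =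
          (Fc k F t₀ x 0 1 * ds) * (algebraMap R A (Δ * c) * Fc k F t₀ x 0 (j' + 2) *
          (algebraMap R A Δ ^ j' * algebraMap R A c ^ (j' + 1))) := by ring
      rw [e3, h01, map_mul]
      ring
  · rw [if_neg (by omega), gg, if_neg (by omega)]
    obtain ⟨i', rfl⟩ : ∃ i', i = i' + 1 := ⟨i - 1, by omega⟩
    rw [Nat.add_sub_cancel, sub_zero, map_neg, neg_mul, neg_mul, neg_mul, mul_neg, neg_neg, mul_pow,
      mul_pow]
    have e3 : Fc k F t₀ x 0 1 * algebraMap R A (Δ * c) *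
        (ds * Fc k F t₀ x (i' + 1) j * (algebraMap R A (Δ ^ 2 * c) ^ i' *
          algebraMap R A (Δ * c) ^ j)) =
        Fc k F t₀ x (i' + 1) j * algebraMap R A (Δ ^ 2 * c) ^ (i' + 1) *
          algebraMap R A (Δ * c) ^ j := by
      have : Fc k F t₀ x 0 1 * algebraMap R A (Δ * c) *
        (ds * Fc k F t₀ x (i' + 1) j * (algebraMap R A (Δ ^ 2 * c) ^ i' *
          algebraMap R A (Δ * c) ^ j)) = (Fc k F t₀ x 0 1 * ds) * (algebraMap R A (Δ * c) *
        Fc k F t₀ x (i' + 1) j * (algebraMap R A (Δ ^ 2 * c) ^ i' *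
          algebraMap R A (Δ * c) ^ j)) := by ring
      rw [this, h01, pow_succ (algebraMap R A (Δ ^ 2 * c)) i']
      simp only [map_mul, map_pow]
      ring
    have e4 : PowerSeries.C (Fc k F t₀ x 0 1 * algebraMap R A (Δ * c)) *
        (PowerSeries.C (ds * Fc k F t₀ x (i' + 1) j * (algebraMap R A (Δ ^ 2 * c) ^ i' *
          algebraMap R A (Δ * c) ^ j)) * PowerSeries.X ^ (i' + 1) * z ^ j) =
        PowerSeries.C (Fc k F t₀ x 0 1 * algebraMap R A (Δ * c) *
        (ds * Fc k F t₀ x (i' + 1) j * (algebraMap R A (Δ ^ 2 * c) ^ i' *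
          algebraMap R A (Δ * c) ^ j))) * PowerSeries.X ^ (i' + 1) * z ^ j := by
      rw [map_mul PowerSeries.C (Fc k F t₀ x 0 1 * algebraMap R A (Δ * c))]
      ring
    rw [e4, e3]
    simp only [map_mul, map_pow]
    ring

theorem zero_of (F : R[X][X]) (k τ : ℕ) (hk : F.natDegree ≤ k)
    (hτ : ∀ j, (F.coeff j).natDegree ≤ τ) (t₀ Δ c : R) (x ds : A)
    (h0 : ev2 F (algebraMap R A t₀) x = 0)
    (h1 : ev2 (derivative F) (algebraMap R A t₀) x * ds = algebraMap R A Δ)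
    (z : PowerSeries A)
    (hz : z = ∑ i ∈ range (τ + 1), ∑ j ∈ range (k + 1),
        PowerSeries.C (gg k F t₀ Δ c x ds i j) * PowerSeries.X ^ i * z ^ j) :
    ev2 F (PowerSeries.C (algebraMap R A t₀) +
        PowerSeries.C (algebraMap R A (Δ ^ 2 * c)) * PowerSeries.X)
      (PowerSeries.C x + PowerSeries.C (algebraMap R A (Δ * c)) * z) = 0 := by
  have h00 : Fc k F t₀ x 0 0 = 0 := by rw [Fc00 F k hk, h0]
  have h01 : Fc k F t₀ x 0 1 * ds = algebraMap R A Δ := by rw [Fc01 F k hk, h1]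
  rw [expand F k τ hk hτ]
  have hk0 : ∑ i ∈ range (τ + 1), ∑ j ∈ range (k + 1),
      (if i = 0 ∧ j = 1 then PowerSeries.C (Fc k F t₀ x 0 1) *
        (PowerSeries.C (algebraMap R A (Δ * c)) * z) else 0) =
      PowerSeries.C (Fc k F t₀ x 0 1) * (PowerSeries.C (algebraMap R A (Δ * c)) * z) := by
    rw [sum_eq_single 0]
    · rcases Nat.eq_zero_or_pos k with hk1 | hk1
      · subst hk1
        have : Fc 0 F t₀ x 0 1 = 0 := by
          rw [Fc]
          simp
        rw [this]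
        simp
      · rw [sum_eq_single 1]
        · rw [if_pos ⟨rfl, rfl⟩]
        · intro j _ hj
          rw [if_neg (fun h => hj h.2)]
        · intro h
          exact absurd (mem_range.2 (by omega)) h
    · intro i _ hi
      refine sum_eq_zero fun j _ => ?_
      rw [if_neg (fun h => hi h.1)]
    · intro h
      exact absurd (mem_range.2 (by omega)) h
  have h2 : (∑ i ∈ range (τ + 1), ∑ j ∈ range (k + 1), PowerSeries.C (Fc k F t₀ x i j) *
        (PowerSeries.C (algebraMap R A (Δ ^ 2 * c)) * PowerSeries.X) ^ i *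
        (PowerSeries.C (algebraMap R A (Δ * c)) * z) ^ j) -
      PowerSeries.C (Fc k F t₀ x 0 1) * (PowerSeries.C (algebraMap R A (Δ * c)) * z) =
      -(PowerSeries.C (Fc k F t₀ x 0 1 * algebraMap R A (Δ * c))) * z := by
    conv_rhs => rw [hz]
    rw [← hk0, ← sum_sub_distrib, mul_sum]
    refine sum_congr rfl fun i _ => ?_
    rw [← sum_sub_distrib, mul_sum]
    refine sum_congr rfl fun j _ => ?_
    exact term k F t₀ Δ c x ds h00 h01 z i j
  have h3 := sub_eq_iff_eq_add.1 h2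
  rw [h3, map_mul]
  ring

/-! ### Sizes -/

/-- The numerical constant. -/
noncomputable def Cc (k τ : ℕ) : ℝ := (k + 1) * 2 ^ k * ((τ + 1) * 2 ^ τ)

theorem Cc_one (k τ : ℕ) : 1 ≤ Cc k τ := by
  have h1 : (1 : ℝ) ≤ 2 ^ k := one_le_pow₀ (by norm_num)
  have h2 : (1 : ℝ) ≤ 2 ^ τ := one_le_pow₀ (by norm_num)
  have h3 : (1 : ℝ) ≤ (k : ℝ) + 1 := by
    have : (0 : ℝ) ≤ k := Nat.cast_nonneg k
    linarith
  have h4 : (1 : ℝ) ≤ (τ : ℝ) + 1 := by
    have : (0 : ℝ) ≤ τ := Nat.cast_nonneg τ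
    linarith
  rw [Cc]
  exact one_le_mul_of_one_le_of_one_le (one_le_mul_of_one_le_of_one_le h3 h1)
    (one_le_mul_of_one_le_of_one_le h4 h2)

variable {N : A → ℝ} {M : ℝ}

theorem choose_le {l j k : ℕ} (h : l ≤ k) : ((l.choose j : ℕ) : ℝ) ≤ 2 ^ k := by
  have h1 : l.choose j ≤ 2 ^ l := Nat.choose_le_two_pow l j
  have h2 : 2 ^ l ≤ 2 ^ k := Nat.pow_le_pow_right (by norm_num) h
  exact_mod_cast h1.trans h2

theorem bd_fc (hN : IsSn N) (hM : 1 ≤ M) (hN1 : N 1 ≤ M) (F : R[X][X]) (τ : ℕ) (t₀ : R)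
    (ht : N (algebraMap R A t₀) ≤ M) (hF : ∀ i j, N (algebraMap R A ((F.coeff j).coeff i)) ≤ M)
    (hτ : ∀ j, (F.coeff j).natDegree ≤ τ) (i l : ℕ) :
    N (algebraMap R A (fc F t₀ i l)) ≤ (τ + 1) * 2 ^ τ * M ^ (τ + 2) := by
  have hM0 : 0 ≤ M := by linarith
  rw [fc_eq F t₀ τ l i (hτ l), map_sum]
  have h1 := sn_sum hN (range (τ + 1)) (fun n => algebraMap R A ((F.coeff l).coeff n *
    (t₀ ^ (n - i) * (n.choose i : R)))) (B := 2 ^ τ * M ^ (τ + 2)) ?_
  · rw [card_range, Nat.cast_add, Nat.cast_one] at h1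
    refine h1.trans (le_of_eq ?_)
    ring
  · intro n hn
    have hn' : n ≤ τ := Nat.lt_succ_iff.1 (mem_range.1 hn)
    have e1 : algebraMap R A ((F.coeff l).coeff n * (t₀ ^ (n - i) * (n.choose i : R))) =
        ((n.choose i : ℕ) : A) * (algebraMap R A ((F.coeff l).coeff n) *
          (algebraMap R A t₀) ^ (n - i)) := by
      rw [map_mul, map_mul, map_pow, map_natCast]
      ring
    rw [e1]
    refine (sn_natmul hN _ _).trans ?_
    refine mul_le_mul (choose_le hn') ?_ (hN.nonneg _) (by positivity)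
    refine (sn_mul hN (hF n l) (sn_pow hN hN1 hM0 ht hM0 (n - i))).trans ?_
    have e2 : M * (M * M ^ (n - i)) = M ^ (n - i + 2) := by ring
    rw [e2]
    exact pow_le_pow_right₀ hM (by omega)

theorem bd_Fc (hN : IsSn N) (hM : 1 ≤ M) (hN1 : N 1 ≤ M) (F : R[X][X]) (k τ : ℕ) (t₀ : R) (x : A)
    (ht : N (algebraMap R A t₀) ≤ M) (hx : N x ≤ M)
    (hF : ∀ i j, N (algebraMap R A ((F.coeff j).coeff i)) ≤ M)
    (hτ : ∀ j, (F.coeff j).natDegree ≤ τ) (i j : ℕ) :
    N (Fc k F t₀ x i j) ≤ Cc k τ * M ^ (τ + k + 3) := by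
  have hM0 : 0 ≤ M := by linarith
  rw [Fc]
  have h1 := sn_sum hN (range (k + 1)) (fun l => ((l.choose j : ℕ) : A) *
    (algebraMap R A (fc F t₀ i l) * x ^ (l - j)))
    (B := 2 ^ k * ((τ + 1) * 2 ^ τ) * M ^ (τ + k + 3)) ?_
  · rw [card_range] at h1
    push_cast at h1
    rw [Cc]
    linarith
  · intro l hl
    have hl' : l ≤ k := Nat.lt_succ_iff.1 (mem_range.1 hl)
    refine (sn_natmul hN _ _).trans ?_
    rw [mul_assoc]
    refine mul_le_mul (choose_le hl') ?_ (hN.nonneg _) (by positivity)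
    refine (sn_mul hN (bd_fc hN hM hN1 F τ t₀ ht hF hτ i l)
      (sn_pow hN hN1 hM0 hx hM0 (l - j))).trans ?_
    have e2 : ((τ : ℝ) + 1) * 2 ^ τ * M ^ (τ + 2) * (M * M ^ (l - j)) =
      ((τ + 1) * 2 ^ τ) * M ^ (τ + 2 + (1 + (l - j))) := by ring
    rw [e2]
    refine mul_le_mul_of_nonneg_left (pow_le_pow_right₀ hM (by omega)) (by positivity)

theorem bd_gg (hN : IsSn N) (hM : 1 ≤ M) (hN1 : N 1 ≤ M) (F : R[X][X]) (k τ : ℕ) (t₀ Δ c : R)
    (x ds : A) (ht : N (algebraMap R A t₀) ≤ M) (hx : N x ≤ M) (hds : N ds ≤ M)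
    (hΔ : N (algebraMap R A Δ) ≤ M) (hc : N (algebraMap R A c) ≤ M)
    (hF : ∀ i j, N (algebraMap R A ((F.coeff j).coeff i)) ≤ M)
    (hτ : ∀ j, (F.coeff j).natDegree ≤ τ) (i j : ℕ) (hi : i ≤ τ) (hj : j ≤ k) :
    N (gg k F t₀ Δ c x ds i j) ≤ Cc k τ * M ^ (4 * τ + 3 * k + 6) := by
  have hM0 : 0 ≤ M := by linarith
  have hC : 0 ≤ Cc k τ := (zero_le_one).trans (Cc_one k τ)
  have hFc := bd_Fc hN hM hN1 F k τ t₀ x ht hx hF hτ
  have h2 : N (algebraMap R A (Δ ^ 2 * c)) ≤ M ^ 3 := by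
    rw [map_mul, map_pow, pow_two]
    refine (sn_mul hN (sn_mul hN hΔ hΔ) hc).trans ?_
    rw [pow_succ, pow_two]
  have h3 : N (algebraMap R A (Δ * c)) ≤ M ^ 2 := by
    rw [map_mul]
    refine (sn_mul hN hΔ hc).trans ?_
    rw [pow_two]
  rw [gg]
  split_ifs with a1 a2
  · rw [hN.zero]
    positivity
  · rw [hN.neg]
    refine (sn_mul hN (sn_mul hN hds (hFc 0 j)) (sn_mul hN (sn_pow hN hN1 hM0 hΔ hM0 (j - 2))
      (sn_pow hN hN1 hM0 hc hM0 (j - 1)))).trans ?_
    have e : M * (Cc k τ * M ^ (τ + k + 3)) * (M * M ^ (j - 2) * (M * M ^ (j - 1))) =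
      Cc k τ * M ^ (1 + (τ + k + 3) + (1 + (j - 2) + (1 + (j - 1)))) := by ring
    rw [e]
    exact mul_le_mul_of_nonneg_left (pow_le_pow_right₀ hM (by omega)) hC
  · rw [hN.neg]
    refine (sn_mul hN (sn_mul hN hds (hFc i j)) (sn_mul hN
      (sn_pow hN hN1 hM0 h2 (by positivity) (i - 1))
      (sn_pow hN hN1 hM0 h3 (by positivity) j))).trans ?_
    have e : M * (Cc k τ * M ^ (τ + k + 3)) * (M * (M ^ 3) ^ (i - 1) * (M * (M ^ 2) ^ j)) =
      Cc k τ * M ^ (1 + (τ + k + 3) + (1 + 3 * (i - 1) + (1 + 2 * j))) := by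
      rw [← pow_mul, ← pow_mul]
      ring
    rw [e]
    exact mul_le_mul_of_nonneg_left (pow_le_pow_right₀ hM (by omega)) hC

end Alg

end HNX

/-- Item HNX. -/
theorem prHNX (hHEN : StHEN) : StHNX := by
  intro k τ
  obtain ⟨C₀, hC₀, hH⟩ := hHEN τ k
  refine ⟨C₀ * HNX.Cc k τ ^ 2, 2 * (4 * τ + 3 * k + 6) + 2, ?_, ?_⟩
  · exact one_le_mul_of_one_le_of_one_le hC₀ (one_le_pow₀ (HNX.Cc_one k τ))
  intro R A _ _ _ F t₀ Δ c x xs ds hk hτ h0 h1 hxs
  have hg00 : HNX.gg k F t₀ Δ c x ds 0 0 = 0 := by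
    rw [HNX.gg, if_pos rfl, if_pos (by omega)]
  have hg01 : HNX.gg k F t₀ Δ c x ds 0 1 = 0 := by
    rw [HNX.gg, if_pos rfl, if_pos (by omega)]
  obtain ⟨z, hz0, hz, hb⟩ := hH A (HNX.gg k F t₀ Δ c x ds) hg00 hg01
  refine ⟨1 + PowerSeries.C (algebraMap R A Δ * xs) * z, ?_, ?_, ?_⟩
  · rw [map_add, map_mul, hz0, mul_zero, add_zero, map_one]
  · have e : PowerSeries.C x * (1 + PowerSeries.C (algebraMap R A Δ * xs) * z) =
        PowerSeries.C x + PowerSeries.C (algebraMap R A (Δ * c)) * z := by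
      have e1 : algebraMap R A (Δ * c) = x * (algebraMap R A Δ * xs) := by
        rw [map_mul, ← hxs]
        ring
      rw [e1, map_mul PowerSeries.C x, mul_add, mul_one, mul_assoc]
    rw [e]
    exact HNX.zero_of F k τ hk hτ t₀ Δ c x ds h0 h1 z hz
  · intro N M hN hM hN1 ht hx hxs' hds hΔ hc hF r hr
    have hM0 : 0 ≤ M := by linarith
    have hCc := HNX.Cc_one k τ
    have hM' : 1 ≤ HNX.Cc k τ * M ^ (4 * τ + 3 * k + 6) :=
      one_le_mul_of_one_le_of_one_le hCc (one_le_pow₀ hM)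
    have hzr := hb N _ hN hM' (fun i hi j hj => HNX.bd_gg hN hM hN1 F k τ t₀ Δ c x ds ht hx hds hΔ hc
      hF hτ i j hi hj) r hr
    have e : PowerSeries.coeff r (1 + PowerSeries.C (algebraMap R A Δ * xs) * z) =
        algebraMap R A Δ * xs * PowerSeries.coeff r z := by
      rw [map_add, PowerSeries.coeff_one, if_neg (by omega), zero_add, PowerSeries.coeff_C_mul]
    rw [e]
    refine (HNX.sn_mul hN (HNX.sn_mul hN hΔ hxs') hzr).trans ?_
    have h4 : M * M ≤ (M ^ 2) ^ r := by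
      rw [← pow_two]
      exact le_self_pow₀ (one_le_pow₀ hM) (by omega)
    refine (mul_le_mul_of_nonneg_right h4 (by positivity)).trans (le_of_eq ?_)
    rw [← mul_pow]
    congr 1
    ring

end Pool.Agent.Work.MP_8d13b5_lc.Fm
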