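import Pool.Agent.Work.MP_8d13b5_lc.Fm.Stmts2

set_option autoImplicit false

/-! # INV: coefficient bounds for the inverse of a matrix of power series -/

namespace Pool.Agent.Work.MP_8d13b5_lc.Fm

open Polynomial NumberField Finset Module

namespace INV

/-- The geometric sum over an antidiagonal. -/
theorem geo (G C : ℝ) (n : ℕ) :
    C * ∑ p ∈ antidiagonal n, G ^ (p.1 + 1) * (G * (1 + C)) ^ p.2 =
      (G * (1 + C)) ^ (n + 1) - G ^ (n + 1) := by
  induction n with
  | zero => simp; ring
  | succ n ih =>
    rw [Finset.Nat.sum_antidiagonal_succ']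
    have h : ∑ p ∈ antidiagonal n, G ^ (p.1 + 1) * (G * (1 + C)) ^ (p.2 + 1) =
        (∑ p ∈ antidiagonal n, G ^ (p.1 + 1) * (G * (1 + C)) ^ p.2) * (G * (1 + C)) := by
      rw [Finset.sum_mul]
      refine Finset.sum_congr rfl (fun p _ => ?_)
      ring
    have h2 : C * ((∑ p ∈ antidiagonal n, G ^ (p.1 + 1) * (G * (1 + C)) ^ p.2) *
        (G * (1 + C))) = ((G * (1 + C)) ^ (n + 1) - G ^ (n + 1)) * (G * (1 + C)) := by
      rw [← mul_assoc, ih]
    rw [h, mul_add, h2]
    ring

/-- The recursion for the coefficients of the inverse. -/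
theorem rec {R : Type} [CommRing R] (k : ℕ) (S T : Matrix (Fin k) (Fin k) (PowerSeries R))
    (hST : S * T = 1)
    (h0 : ∀ i j, PowerSeries.constantCoeff (S i j) = if i = j then 1 else 0)
    (i j : Fin k) (n : ℕ) :
    PowerSeries.coeff (n + 1) (T i j) =
      -∑ l, ∑ p ∈ antidiagonal n, PowerSeries.coeff (p.1 + 1) (S i l) *
        PowerSeries.coeff p.2 (T l j) := by
  have h1 : PowerSeries.coeff (n + 1) ((S * T) i j) = 0 := by
    rw [hST, Matrix.one_apply]
    split_ifs
    · rw [PowerSeries.coeff_one]; simp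
    · simp
  rw [Matrix.mul_apply, map_sum] at h1
  have h2 : ∀ l, PowerSeries.coeff (n + 1) (S i l * T l j) =
      (if i = l then PowerSeries.coeff (n + 1) (T l j) else 0) +
      ∑ p ∈ antidiagonal n, PowerSeries.coeff (p.1 + 1) (S i l) *
        PowerSeries.coeff p.2 (T l j) := by
    intro l
    rw [PowerSeries.coeff_mul, Finset.Nat.sum_antidiagonal_succ]
    congr 1
    have := h0 i l
    rw [PowerSeries.coeff_zero_eq_constantCoeff_apply, this]
    split_ifs <;> simp
  rw [Finset.sum_congr rfl (fun l _ => h2 l), Finset.sum_add_distrib,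
    Finset.sum_ite_eq Finset.univ i, if_pos (Finset.mem_univ i)] at h1
  exact eq_neg_of_add_eq_zero_left h1

/-- The constant coefficients of the inverse. -/
theorem zero {R : Type} [CommRing R] (k : ℕ) (S T : Matrix (Fin k) (Fin k) (PowerSeries R))
    (hST : S * T = 1)
    (h0 : ∀ i j, PowerSeries.constantCoeff (S i j) = if i = j then 1 else 0)
    (i j : Fin k) :
    PowerSeries.constantCoeff (T i j) = if i = j then 1 else 0 := by
  have h1 : PowerSeries.constantCoeff ((S * T) i j) = if i = j then 1 else 0 := by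
    rw [hST, Matrix.one_apply]
    split_ifs <;> simp
  rw [Matrix.mul_apply, map_sum] at h1
  have h2 : ∀ l, PowerSeries.constantCoeff (S i l * T l j) =
      (if i = l then PowerSeries.constantCoeff (T l j) else 0) := by
    intro l
    rw [map_mul, h0 i l]
    split_ifs <;> simp
  rw [Finset.sum_congr rfl (fun l _ => h2 l),
    Finset.sum_ite_eq Finset.univ i, if_pos (Finset.mem_univ i)] at h1
  exact h1

end INV

theorem prINV : StINV := by
  intro R _ φ k S T B G hB hG hST h0 hS i j r
  have hM : 0 ≤ G * (1 + k * B) := by positivity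
  induction r using Nat.strong_induction_on generalizing i j with
  | _ r ih =>
    rcases r with _ | n
    · rw [PowerSeries.coeff_zero_eq_constantCoeff_apply, INV.zero k S T hST h0 i j, pow_zero]
      split_ifs <;> simp
    · rw [INV.rec k S T hST h0 i j n, map_neg, norm_neg, map_sum]
      refine (norm_sum_le _ _).trans ?_
      have h1 : ∀ l : Fin k, ‖φ (∑ p ∈ antidiagonal n, PowerSeries.coeff (p.1 + 1) (S i l) *
          PowerSeries.coeff p.2 (T l j))‖ ≤
          ∑ p ∈ antidiagonal n, B * (G ^ (p.1 + 1) * (G * (1 + k * B)) ^ p.2) := by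
        intro l
        rw [map_sum]
        refine (norm_sum_le _ _).trans (Finset.sum_le_sum (fun p hp => ?_))
        rw [map_mul, norm_mul, ← mul_assoc]
        have hp2 : p.2 < n + 1 := by
          have := mem_antidiagonal.mp hp
          omega
        exact mul_le_mul (hS i l (p.1 + 1) (Nat.le_add_left 1 _)) (ih p.2 hp2 l j)
          (norm_nonneg _) (by positivity)
      refine (Finset.sum_le_sum (fun l _ => h1 l)).trans ?_
      rw [Finset.sum_const, Finset.card_univ, Fintype.card_fin, nsmul_eq_mul, ← Finset.mul_sum,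
        ← mul_assoc, INV.geo G (k * B) n]
      have : 0 ≤ G ^ (n + 1) := by positivity
      linarith

end Pool.Agent.Work.MP_8d13b5_lc.Fm
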