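import Pool.Agent.Work.MP_8d13b5_lc.Fm.Stmts2

set_option autoImplicit false

/-!
# MP_8d13b5_lc, block FM2, item MUN: sizes of the coefficients of a power
-/

open Polynomial NumberField Finset Module

namespace Pool.Agent.Work.MP_8d13b5_lc.Fm

namespace MUN

theorem coeff_zero_pow {A : Type} [CommRing A] (μ : PowerSeries A)
    (h : PowerSeries.constantCoeff μ = 1) (n : ℕ) : PowerSeries.coeff 0 (μ ^ n) = 1 := by
  rw [PowerSeries.coeff_zero_eq_constantCoeff_apply, map_pow, h, one_pow]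

theorem step {A : Type} [CommRing A] (N : A → ℝ) (G : ℝ) (μ : PowerSeries A) (hN : IsSn N)
    (hG : 0 ≤ G) (h0 : PowerSeries.constantCoeff μ = 1)
    (h : ∀ r, 1 ≤ r → N (PowerSeries.coeff r μ) ≤ G ^ r) (n : ℕ) :
    ∀ s : ℕ, N (PowerSeries.coeff (s + 1) (μ ^ n)) ≤ (2 ^ n - 1) * (2 * G) ^ (s + 1) := by
  induction n with
  | zero =>
    intro s
    rw [pow_zero, PowerSeries.coeff_one, if_neg (by omega), hN.zero]
    simp
  | succ n ih =>
    intro s
    have hb : (0 : ℝ) ≤ 2 ^ n - 1 := by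
      have : (1 : ℝ) ≤ 2 ^ n := one_le_pow₀ (by norm_num)
      linarith
    have hG1 : 0 ≤ G ^ (s + 1) := by positivity
    rw [pow_succ, PowerSeries.coeff_mul,
      Finset.Nat.sum_antidiagonal_eq_sum_range_succ
        (fun i j => PowerSeries.coeff i (μ ^ n) * PowerSeries.coeff j μ),
      Finset.sum_range_succ, Finset.sum_range_succ', Nat.sub_self, Nat.sub_zero,
      coeff_zero_pow μ h0 n, one_mul, PowerSeries.coeff_zero_eq_constantCoeff_apply, h0, mul_one]
    refine (hN.add _ _).trans ?_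
    refine (add_le_add (hN.add _ _) le_rfl).trans ?_
    have h1 : N (∑ k ∈ range s, PowerSeries.coeff (k + 1) (μ ^ n) *
        PowerSeries.coeff (s + 1 - (k + 1)) μ) ≤ (2 ^ n - 1) * (2 * G) ^ (s + 1) := by
      refine (Finset.le_sum_of_subadditive N hN.zero.le hN.add _ _).trans ?_
      have h2 : ∀ k ∈ range s, N (PowerSeries.coeff (k + 1) (μ ^ n) *
          PowerSeries.coeff (s + 1 - (k + 1)) μ) ≤ (2 ^ n - 1) * G ^ (s + 1) * 2 ^ (k + 1) := by
        intro k hk
        rw [mem_range] at hk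
        refine (hN.mul _ _).trans ?_
        refine (mul_le_mul (ih k) (h _ (by omega)) (hN.nonneg _) (by positivity)).trans ?_
        have h3 : G ^ (s + 1) = G ^ (k + 1) * G ^ (s + 1 - (k + 1)) := by
          rw [← pow_add]
          congr 1
          omega
        rw [h3, mul_pow]
        apply le_of_eq
        ring
      refine (Finset.sum_le_sum h2).trans ?_
      rw [← Finset.mul_sum, mul_pow]
      have h4 : ∀ s : ℕ, ∑ k ∈ range s, (2 : ℝ) ^ (k + 1) ≤ 2 ^ (s + 1) := by
        intro s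
        induction s with
        | zero => simp
        | succ s ihs =>
          rw [Finset.sum_range_succ, pow_succ (2 : ℝ) (s + 1)]
          linarith
      have h5 : (0 : ℝ) ≤ (2 ^ n - 1) * G ^ (s + 1) := mul_nonneg hb hG1
      calc (2 ^ n - 1) * G ^ (s + 1) * ∑ k ∈ range s, (2 : ℝ) ^ (k + 1)
          ≤ (2 ^ n - 1) * G ^ (s + 1) * 2 ^ (s + 1) := mul_le_mul_of_nonneg_left (h4 s) h5
        _ = _ := by ring
    have h6 : N (PowerSeries.coeff (s + 1) μ) ≤ (2 * G) ^ (s + 1) := by
      refine (h _ (by omega)).trans ?_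
      exact pow_le_pow_left₀ hG (by linarith) _
    have h7 := ih s
    have h8 : ((2 : ℝ) ^ (n + 1) - 1) * (2 * G) ^ (s + 1) = (2 ^ n - 1) * (2 * G) ^ (s + 1) +
        (2 * G) ^ (s + 1) + (2 ^ n - 1) * (2 * G) ^ (s + 1) := by
      rw [pow_succ]
      ring
    rw [h8]
    exact add_le_add (add_le_add h1 h6) h7

end MUN

theorem prMUN : StMUN := by
  intro A _ N M G μ hN hM h1 hG h0 h n r
  rcases r with _ | s
  · rw [MUN.coeff_zero_pow μ h0 n, pow_zero, mul_one]
    have : (1 : ℝ) ≤ 2 ^ n := one_le_pow₀ (by norm_num)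
    nlinarith
  · refine (MUN.step N G μ hN hG h0 h n s).trans ?_
    have h2 : (1 : ℝ) ≤ 2 ^ n := one_le_pow₀ (by norm_num)
    apply mul_le_mul_of_nonneg_right _ (by positivity)
    nlinarith

end Pool.Agent.Work.MP_8d13b5_lc.Fm
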