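import Pool.Agent.Work.MP_8d13b5_lc.Fm.StmtsY

set_option autoImplicit false

/-! Item NPY: polynomial times solution. -/

namespace Pool.Agent.Work.MP_8d13b5_lc.Fm

open Polynomial NumberField Finset Module

namespace NPY

variable {R : Type} [CommRing R]

/-- multiplication by the index -/
def tm (u : ℕ → R) : ℕ → R := fun n => (n : R) * u n

lemma comm (P : R[X]) (u : ℕ → R) (n : ℕ) :
    aeval (Pd.shf R) P (tm u) n =
      (n : R) * aeval (Pd.shf R) P u n + aeval (Pd.shf R) (derivative P) u (n + 1) := by
  induction P using Polynomial.induction_on' with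
  | add p q hp hq =>
    rw [map_add, LinearMap.add_apply, Pi.add_apply, hp, hq, map_add, LinearMap.add_apply,
      Pi.add_apply, map_add, LinearMap.add_apply, Pi.add_apply]
    ring
  | monomial k a =>
    rw [derivative_monomial, aeval_monomial, aeval_monomial]
    simp only [Module.End.mul_apply, Module.algebraMap_end_apply, Pi.smul_apply, smul_eq_mul,
      Pd.shf_pow]
    rcases Nat.eq_zero_or_pos k with h | h
    · subst h
      simp [tm]
      ring
    · have e : n + 1 + (k - 1) = n + k := by omega
      rw [e]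
      unfold tm
      push_cast
      ring

lemma step (g : R[X]) (j : ℕ) (u : ℕ → R) (h : Pd.Sol (g ^ j) u) :
    Pd.Sol (g ^ (j + 1)) (fun n : ℕ => (n : R) * u n) := by
  rw [Pd.sol_iff] at h ⊢
  funext n
  have h1 := comm (g ^ (j + 1)) u n
  have h2 : aeval (Pd.shf R) (g ^ (j + 1)) u = 0 := by
    rw [pow_succ', map_mul, Module.End.mul_apply, h, map_zero]
  have h3 : aeval (Pd.shf R) (derivative (g ^ (j + 1))) u = 0 := by
    have e : derivative (g ^ (j + 1)) = (C ((j : R) + 1) * derivative g) * g ^ j := by
      rw [derivative_pow_succ]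
      push_cast
      rw [C_add, C_1]
      ring
    rw [e, map_mul, Module.End.mul_apply, h, map_zero]
  rw [h2, h3] at h1
  simp only [Pi.zero_apply, mul_zero, add_zero] at h1
  exact h1

lemma powr (g : R[X]) (s : ℕ → R) (h : Pd.Sol g s) (l : ℕ) :
    Pd.Sol (g ^ (l + 1)) (fun n : ℕ => (n : R) ^ l * s n) := by
  induction l with
  | zero => simpa using h
  | succ l ih =>
    have h1 := step g (l + 1) _ ih
    have e : (fun n : ℕ => (n : R) * ((n : R) ^ l * s n)) = fun n : ℕ => (n : R) ^ (l + 1) * s n := by
      funext n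
      ring
    rwa [e] at h1

end NPY

theorem prNPY : StNPY := by
  intro R _ g v M s hv hs
  have e : (fun n : ℕ => v.eval (n : R) * s n) =
      fun n : ℕ => ∑ l ∈ range M, v.coeff l * ((n : R) ^ l * s n) := by
    funext n
    rw [eval_eq_sum_range' hv, Finset.sum_mul]
    refine Finset.sum_congr rfl fun l _ => ?_
    ring
  rw [e]
  refine Pd.Sol.sum (range M) (u := fun l (n : ℕ) => v.coeff l * ((n : R) ^ l * s n)) fun l hl => ?_
  refine Pd.Sol.smul ?_ (v.coeff l)
  have hl' : l < M := mem_range.1 hl
  have e2 : g ^ M = g ^ (M - (l + 1)) * g ^ (l + 1) := by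
    rw [← pow_add]
    congr 1
    omega
  rw [e2]
  exact (NPY.powr g s hs l).mul_left _

end Pool.Agent.Work.MP_8d13b5_lc.Fm
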