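import Pool.Agent.Work.MP_8d13b5_lc.Fm.StmtsY

set_option autoImplicit false

/-! Block `Fm`, item RDC (helper54): the choice of `N`, and `NonConst` for the polynomial of the
`N`-th powers of the roots. -/

namespace Pool.Agent.Work.MP_8d13b5_lc.Fm

open Polynomial NumberField Finset Module

namespace RDC

/-- the embedding of `ℤ[t]` in `ℂ(t)` -/
noncomputable def io : ℤ[X] →+* RatFunc ℂ :=
  (algebraMap ℂ[X] (RatFunc ℂ)).comp (mapRingHom (Int.castRingHom ℂ))

theorem io_inj : Function.Injective io := by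
  unfold io
  rw [RingHom.coe_comp]
  exact (IsFractionRing.injective ℂ[X] (RatFunc ℂ)).comp
    (map_injective _ (Int.castRingHom ℂ).injective_int)

theorem hat_eq (F : ℤ[X][X]) : hat F = F.map io := rfl

/-- the constants in the algebraic closure of `ℂ(t)` -/
noncomputable def ka : ℂ →+* AlgebraicClosure (RatFunc ℂ) :=
  ((algebraMap (RatFunc ℂ) (AlgebraicClosure (RatFunc ℂ))).comp
    (algebraMap ℂ[X] (RatFunc ℂ))).comp C

theorem ka_apply (c : ℂ) : ka c = algebraMap (RatFunc ℂ) (AlgebraicClosure (RatFunc ℂ))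
    (algebraMap ℂ[X] (RatFunc ℂ) (C c)) := rfl

theorem algebraMap_C (c : ℂ) : algebraMap ℂ (RatFunc ℂ) c = algebraMap ℂ[X] (RatFunc ℂ) (C c) := by
  rw [IsScalarTower.algebraMap_apply ℂ ℂ[X] (RatFunc ℂ), Polynomial.algebraMap_eq]

/-- the separability passes to `ℂ(t)` -/
theorem sep {G : ℤ[X][X]} (h : (G.map (algebraMap ℤ[X] (FractionRing ℤ[X]))).Separable) :
    (hat G).Separable := by
  have h1 := h.map (f := IsFractionRing.lift (K := FractionRing ℤ[X]) io_inj)
  rw [Polynomial.map_map] at h1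
  have h2 : (IsFractionRing.lift (K := FractionRing ℤ[X]) io_inj).comp
      (algebraMap ℤ[X] (FractionRing ℤ[X])) = io :=
    RingHom.ext fun x => IsFractionRing.lift_algebraMap io_inj x
  rw [h2] at h1
  exact h1

/-- an embedding of the algebraic closure of `ℚ(t)` in the one of `ℂ(t)`, over `ℤ[t]` -/
theorem exists_emb : ∃ j : AlgebraicClosure (FractionRing ℤ[X]) →+* AlgebraicClosure (RatFunc ℂ),
    j.comp (algebraMap ℤ[X] (AlgebraicClosure (FractionRing ℤ[X]))) =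
      (algebraMap (RatFunc ℂ) (AlgebraicClosure (RatFunc ℂ))).comp io := by
  have hinj : Function.Injective
      ((algebraMap (RatFunc ℂ) (AlgebraicClosure (RatFunc ℂ))).comp io) := by
    rw [RingHom.coe_comp]
    exact (algebraMap (RatFunc ℂ) (AlgebraicClosure (RatFunc ℂ))).injective.comp io_inj
  let _ : Algebra (FractionRing ℤ[X]) (AlgebraicClosure (RatFunc ℂ)) :=
    (IsFractionRing.lift (K := FractionRing ℤ[X]) hinj).toAlgebra
  let j : AlgebraicClosure (FractionRing ℤ[X]) →ₐ[FractionRing ℤ[X]]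
    AlgebraicClosure (RatFunc ℂ) := IsAlgClosed.lift
  refine ⟨j.toRingHom, RingHom.ext fun x => ?_⟩
  have h1 : algebraMap ℤ[X] (AlgebraicClosure (FractionRing ℤ[X])) x =
      algebraMap (FractionRing ℤ[X]) (AlgebraicClosure (FractionRing ℤ[X]))
        (algebraMap ℤ[X] (FractionRing ℤ[X]) x) := IsScalarTower.algebraMap_apply _ _ _ x
  have h2 : j (algebraMap (FractionRing ℤ[X]) (AlgebraicClosure (FractionRing ℤ[X]))
      (algebraMap ℤ[X] (FractionRing ℤ[X]) x)) =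
      IsFractionRing.lift (K := FractionRing ℤ[X]) hinj (algebraMap ℤ[X] (FractionRing ℤ[X]) x) :=
    j.commutes _
  rw [IsFractionRing.lift_algebraMap] at h2
  rw [← h2, RingHom.comp_apply, h1]
  rfl

/-- the roots of `G` in the algebraic closure of `ℂ(t)` -/
theorem roots_G {F G : ℤ[X][X]} {N : ℕ} (hG : G.Monic)
    (hr : ∀ y : AlgebraicClosure (FractionRing ℤ[X]),
      (G.map (algebraMap ℤ[X] (AlgebraicClosure (FractionRing ℤ[X])))).eval y = 0 →
      ∃ a : AlgebraicClosure (FractionRing ℤ[X]), y = a ^ N ∧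
        (F.map (algebraMap ℤ[X] (AlgebraicClosure (FractionRing ℤ[X])))).eval a = 0)
    {y : AlgebraicClosure (RatFunc ℂ)} (hy : aeval y (hat G) = 0) :
    ∃ a : AlgebraicClosure (RatFunc ℂ), y = a ^ N ∧ aeval a (hat F) = 0 := by
  obtain ⟨j, hj⟩ := exists_emb
  have key : ∀ (P : ℤ[X][X]) (x : AlgebraicClosure (FractionRing ℤ[X])),
      aeval (j x) (hat P) =
        j ((P.map (algebraMap ℤ[X] (AlgebraicClosure (FractionRing ℤ[X])))).eval x) := by
    intro P x
    rw [hat_eq, aeval_def, eval₂_map, ← hj, eval_map, hom_eval₂]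
  have hroot : ((G.map (algebraMap ℤ[X] (AlgebraicClosure (FractionRing ℤ[X])))).map j).IsRoot y := by
    rw [IsRoot.def, Polynomial.map_map, hj, eval_map, ← eval₂_map, ← hat_eq, ← aeval_def]
    exact hy
  obtain ⟨x, hx⟩ := (IsAlgClosed.splits (G.map
    (algebraMap ℤ[X] (AlgebraicClosure (FractionRing ℤ[X]))))).mem_range_of_isRoot
      (hG.map _).ne_zero hroot
  have h1 : (G.map (algebraMap ℤ[X] (AlgebraicClosure (FractionRing ℤ[X])))).eval x = 0 := by
    have h2 := key G x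
    rw [hx, hy] at h2
    exact (map_eq_zero j).1 h2.symm
  obtain ⟨a, ha, ha'⟩ := hr x h1
  refine ⟨j a, ?_, ?_⟩
  · rw [← hx, ha, map_pow]
  · rw [key F a, ha', map_zero]

/-- the exponent `N` -/
theorem exists_N {P : (RatFunc ℂ)[X]} (hP : P ≠ 0) : ∃ N : ℕ, 1 ≤ N ∧
    ∀ a b : AlgebraicClosure (RatFunc ℂ), aeval a P = 0 → aeval b P = 0 →
      (∃ n : ℕ, 1 ≤ n ∧ (a / b) ^ n = 1) → (a / b) ^ N = 1 := by
  classical
  set S := (P.map (algebraMap (RatFunc ℂ) (AlgebraicClosure (RatFunc ℂ)))).roots.toFinset with hS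
  have hmem : ∀ a : AlgebraicClosure (RatFunc ℂ), aeval a P = 0 → a ∈ S := by
    intro a ha
    rw [hS, Multiset.mem_toFinset, mem_roots (map_ne_zero hP), IsRoot.def, eval_map, ← aeval_def]
    exact ha
  let o : AlgebraicClosure (RatFunc ℂ) × AlgebraicClosure (RatFunc ℂ) → ℕ := fun p =>
    if orderOf (p.1 / p.2) = 0 then 1 else orderOf (p.1 / p.2)
  refine ⟨∏ p ∈ S ×ˢ S, o p, ?_, ?_⟩
  · refine Nat.one_le_iff_ne_zero.2 (Finset.prod_ne_zero_iff.2 fun p _ => ?_)
    show (if orderOf (p.1 / p.2) = 0 then 1 else orderOf (p.1 / p.2)) ≠ 0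
    split_ifs with h
    · exact one_ne_zero
    · exact h
  · rintro a b ha hb ⟨n, hn, hn'⟩
    have h1 : orderOf (a / b) ≠ 0 := by
      have h2 : orderOf (a / b) ∣ n := orderOf_dvd_of_pow_eq_one hn'
      intro h3
      rw [h3, Nat.zero_dvd] at h2
      omega
    have h2 : o (a, b) = orderOf (a / b) := if_neg h1
    have h3 : o (a, b) ∣ ∏ p ∈ S ×ˢ S, o p :=
      Finset.dvd_prod_of_mem o (Finset.mem_product.2 ⟨hmem a ha, hmem b hb⟩)
    rw [h2] at h3
    exact orderOf_dvd_iff_pow_eq_one.1 h3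

/-- the `N`-th roots of constants are constants -/
theorem const_of_pow {x : AlgebraicClosure (RatFunc ℂ)} {c : ℂ} {N : ℕ} (hN : 1 ≤ N)
    (h : x ^ N = ka c) : ∃ c₂ : ℂ, ka c₂ = x ∧ c₂ ^ N = c := by
  have h0 : (X ^ N - C c : ℂ[X]) ≠ 0 := X_pow_sub_C_ne_zero (by omega) c
  have hr : ((X ^ N - C c : ℂ[X]).map ka).IsRoot x := by
    rw [IsRoot.def, Polynomial.map_sub, Polynomial.map_pow, map_X, map_C, eval_sub, eval_pow,
      eval_X, eval_C, h, sub_self]
  obtain ⟨c₂, hc₂⟩ := (IsAlgClosed.splits (X ^ N - C c : ℂ[X])).mem_range_of_isRoot h0 hr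
  refine ⟨c₂, hc₂, ka.injective ?_⟩
  rw [map_pow, hc₂, h]

/-- the roots are not zero -/
theorem root_ne_zero {F : ℤ[X][X]} (h0 : F.coeff 0 ≠ 0) {a : AlgebraicClosure (RatFunc ℂ)}
    (ha : aeval a (hat F) = 0) : a ≠ 0 := by
  rintro rfl
  rw [aeval_def, eval₂_at_zero, hat_eq, coeff_map] at ha
  refine h0 (io_inj ?_)
  rw [map_zero]
  exact (map_eq_zero _).1 ha

theorem nonconst {F G : ℤ[X][X]} {N : ℕ} (hN : 1 ≤ N) (h0 : F.coeff 0 ≠ 0) (hiso : NonIso F)
    (hNr : ∀ a b : AlgebraicClosure (RatFunc ℂ), aeval a (hat F) = 0 → aeval b (hat F) = 0 →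
      (∃ n : ℕ, 1 ≤ n ∧ (a / b) ^ n = 1) → (a / b) ^ N = 1) (hG : G.Monic)
    (hGs : (G.map (algebraMap ℤ[X] (FractionRing ℤ[X]))).Separable)
    (hr : ∀ y : AlgebraicClosure (FractionRing ℤ[X]),
      (G.map (algebraMap ℤ[X] (AlgebraicClosure (FractionRing ℤ[X])))).eval y = 0 →
      ∃ a : AlgebraicClosure (FractionRing ℤ[X]), y = a ^ N ∧
        (F.map (algebraMap ℤ[X] (AlgebraicClosure (FractionRing ℤ[X])))).eval a = 0) :
    NonConst (G.map (mapRingHom (Int.castRingHom ℂ))) := by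
  have hmap : (G.map (mapRingHom (Int.castRingHom ℂ))).map (algebraMap ℂ[X] (RatFunc ℂ)) =
      hat G := Polynomial.map_map _ _ _
  refine ⟨?_, fun c hc0 hc1 => ?_⟩
  · rw [hmap]
    exact sep hGs
  · rw [map_scaleRoots _ _ _ (by rw [(hG.map _).leadingCoeff, map_one]; exact one_ne_zero), hmap]
    refine (isCoprime_iff_aeval_ne_zero_of_isAlgClosed (RatFunc ℂ) (AlgebraicClosure (RatFunc ℂ))
      _ _).2 fun y => ?_
    by_contra hcon
    rw [not_or, not_not, not_not] at hcon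
    obtain ⟨hy1, hy2⟩ := hcon
    have hk0 : ka c ≠ 0 := (map_ne_zero ka).2 hc0
    have hy3 : aeval (y / ka c) (hat G) = 0 := by
      have h1 := scaleRoots_eval₂_mul (p := hat G)
        (algebraMap (RatFunc ℂ) (AlgebraicClosure (RatFunc ℂ))) (y / ka c)
        (algebraMap ℂ[X] (RatFunc ℂ) (C c))
      rw [← ka_apply, mul_div_cancel₀ y hk0, ← aeval_def, hy2] at h1
      rcases mul_eq_zero.1 h1.symm with h2 | h2
      · exact absurd h2 (pow_ne_zero _ hk0)
      · rw [aeval_def]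
        exact h2
    obtain ⟨a, ha, haF⟩ := roots_G hG hr hy1
    obtain ⟨b, hb, hbF⟩ := roots_G hG hr hy3
    have hb0 : b ≠ 0 := root_ne_zero h0 hbF
    have hab : (a / b) ^ N = ka c := by
      rw [div_pow, ← ha, ← hb]
      have hy0 : y ≠ 0 := by
        rw [ha]
        exact pow_ne_zero _ (root_ne_zero h0 haF)
      field_simp
    obtain ⟨c₂, hc₂, hc₂N⟩ := const_of_pow hN hab
    have hc₂0 : c₂ ≠ 0 := by
      rintro rfl
      rw [zero_pow (by omega)] at hc₂N
      exact hc0 hc₂N.symm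
    have haeq : a = ka c₂ * b := by
      rw [hc₂, div_mul_cancel₀ a hb0]
    by_cases hfin : ∃ n : ℕ, 1 ≤ n ∧ c₂ ^ n = 1
    · obtain ⟨n, hn, hn'⟩ := hfin
      have h1 := hNr a b haF hbF ⟨n, hn, by rw [← hc₂, ← map_pow, hn', map_one]⟩
      rw [hab] at h1
      exact hc1 (ka.injective (by rw [h1, map_one]))
    · have h1 := (isCoprime_iff_aeval_ne_zero_of_isAlgClosed (RatFunc ℂ)
        (AlgebraicClosure (RatFunc ℂ)) _ _).1 (hiso c₂ hc₂0 fun n hn h => hfin ⟨n, hn, h⟩)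
      rcases h1 a with h2 | h2
      · exact h2 haF
      · refine h2 ?_
        rw [haeq, aeval_def, algebraMap_C, ka_apply, scaleRoots_eval₂_mul, ← aeval_def, hbF,
          mul_zero]

end RDC

open RDC in
theorem prRDC (hRDA : StRDA) : StRDC := by
  intro F hF hd h0 hiso
  obtain ⟨N, hN, hNr⟩ := exists_N (P := hat F) (hF.map _).ne_zero
  obtain ⟨G, hG, hGd, hG0, hGs, hGr, hdiv, hdiv1⟩ := hRDA F N hF hd h0 hN
  have hnc := nonconst hN h0 hiso hNr hG hGs hGr
  by_cases hsep : (F.map (algebraMap ℤ[X] (FractionRing ℤ[X]))).Separable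
  · exact ⟨N, 1, G, hN, le_rfl, hG, hGd, hG0, hnc, by rw [pow_one]; exact hdiv1 hsep, fun _ => rfl⟩
  · exact ⟨N, F.natDegree, G, hN, hd, hG, hGd, hG0, hnc, hdiv, fun h => absurd h hsep⟩

end Pool.Agent.Work.MP_8d13b5_lc.Fm
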