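import Pool.Agent.Work.MP_8d13b5_lc.Fm.Stmts2

/-!
Block Fm (MP_8d13b5_lc), item RTB: the root of largest absolute value.
-/

set_option autoImplicit false

namespace Pool.Agent.Work.MP_8d13b5_lc.Fm

open Polynomial NumberField Finset Module

namespace RTB

theorem cauchy (k : ℕ) (f : ℂ[X]) (hf : f.Monic) (hd : f.natDegree = k) (hk : 1 ≤ k) (z : ℂ)
    (hz : f.eval z = 0) : ‖z‖ ≤ 1 + ∑ i ∈ range k, ‖f.coeff i‖ := by
  have hS : 0 ≤ ∑ i ∈ range k, ‖f.coeff i‖ := Finset.sum_nonneg fun i _ => norm_nonneg _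
  rcases le_or_gt ‖z‖ 1 with h1 | h1
  · linarith
  · have h2 : f.eval z = ∑ i ∈ range k, f.coeff i * z ^ i + z ^ k := by
      rw [Polynomial.eval_eq_sum_range, hd, Finset.sum_range_succ]
      have h3 : f.coeff k = 1 := by
        rw [← hd]
        exact hf
      rw [h3, one_mul]
    rw [hz] at h2
    have h3 : ‖z‖ ^ k ≤ (∑ i ∈ range k, ‖f.coeff i‖) * ‖z‖ ^ (k - 1) := by
      have h4 : z ^ k = -∑ i ∈ range k, f.coeff i * z ^ i := by linear_combination -h2
      rw [← norm_pow, h4, norm_neg, Finset.sum_mul]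
      refine (norm_sum_le _ _).trans (Finset.sum_le_sum fun i hi => ?_)
      rw [norm_mul, norm_pow]
      refine mul_le_mul_of_nonneg_left ?_ (norm_nonneg _)
      exact pow_le_pow_right₀ h1.le (by have := Finset.mem_range.1 hi; omega)
    have h5 : ‖z‖ ^ k = ‖z‖ * ‖z‖ ^ (k - 1) := by
      rw [← pow_succ']
      congr 1
      omega
    rw [h5] at h3
    have h6 : 0 < ‖z‖ ^ (k - 1) := pow_pos (by linarith) _
    have h7 := le_of_mul_le_mul_right h3 h6
    linarith

theorem maxroot (f : ℂ[X]) (h : f.roots ≠ 0) : ∃ z ∈ f.roots, ∀ y ∈ f.roots, ‖y‖ ≤ ‖z‖ := by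
  have h1 : f.roots.toFinset.Nonempty := by
    obtain ⟨a, ha⟩ := Multiset.exists_mem_of_ne_zero h
    exact ⟨a, Multiset.mem_toFinset.2 ha⟩
  obtain ⟨z, hz, hm⟩ := f.roots.toFinset.exists_max_image (fun y => ‖y‖) h1
  exact ⟨z, Multiset.mem_toFinset.1 hz, fun y hy => hm y (Multiset.mem_toFinset.2 hy)⟩

end RTB

theorem prRTB : StRTB := by
  intro k f hf hd hk
  have hsp : f.Splits := IsAlgClosed.splits f
  have hcard : f.roots.card = k := by
    rw [← hd]
    exact (splits_iff_card_roots.1 hsp)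
  have hne : f.roots ≠ 0 := by
    intro h
    rw [h, Multiset.card_zero] at hcard
    omega
  obtain ⟨z, hz, hm⟩ := RTB.maxroot f hne
  have hz0 : f.eval z = 0 := (mem_roots'.1 hz).2
  refine ⟨z, hz0, RTB.cauchy k f hf hd hk z hz0, fun i hi => ?_⟩
  have h1 := Polynomial.coeff_le_of_roots_le (p := f) (f := RingHom.id ℂ) (B := ‖z‖) i hf
    (by simpa using hsp) (by simpa using hm)
  rw [Polynomial.map_id, hd] at h1
  refine h1.trans ?_
  rw [mul_comm]
  refine mul_le_mul_of_nonneg_right ?_ (by positivity)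
  exact_mod_cast Nat.choose_le_two_pow k i

end Pool.Agent.Work.MP_8d13b5_lc.Fm
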