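import Pool.Agent.Work.MP_8d13b5_lc.Fm.StmtsY

set_option autoImplicit false

/-!
# MP_8d13b5_lc, block FMY, item SBY: subsequences
-/

namespace Pool.Agent.Work.MP_8d13b5_lc.Fm

open Polynomial NumberField Finset Module

theorem prSBY : StSBY := by
  intro R _ f h N q u _ hdvd hu
  obtain ⟨g, hg⟩ := hdvd
  have h1 : aeval (Pd.shf R) (expand R N h) u = 0 := by
    rw [hg, mul_comm, map_mul, Module.End.mul_apply, (Pd.sol_iff f u).1 hu, map_zero]
  rw [expand_aeval, aeval_eq_sum_range] at h1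
  intro n
  have h2 := congrFun h1 (q + N * n)
  rw [LinearMap.sum_apply, Finset.sum_apply] at h2
  refine Eq.trans (sum_congr rfl fun i _ => ?_) h2
  rw [LinearMap.smul_apply, Pi.smul_apply, ← pow_mul, Pd.shf_pow, smul_eq_mul, add_assoc, ← mul_add]

end Pool.Agent.Work.MP_8d13b5_lc.Fm
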