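import Pool.Agent.Work.MP_8d13b5_lc.Fm.Stmts2

set_option autoImplicit false

/-! Item SNM: the seminorm on `AdjoinRoot f`. -/

namespace Pool.Agent.Work.MP_8d13b5_lc.Fm

open Polynomial NumberField Finset Module

namespace SNM

variable {R : Type} [CommRing R] [Nontrivial R] {f : R[X]} (hf : f.Monic)

/-- the representative has degree less than `deg f` -/
theorem deg_lt (c : AdjoinRoot f) : (AdjoinRoot.modByMonicHom hf c).degree < f.degree := by
  obtain ⟨g, rfl⟩ := AdjoinRoot.mk_surjective c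
  rw [AdjoinRoot.modByMonicHom_mk]
  exact degree_modByMonic_lt _ hf

theorem coeff_ge (c : AdjoinRoot f) {j : ℕ} (hj : f.natDegree ≤ j) :
    (AdjoinRoot.modByMonicHom hf c).coeff j = 0 := by
  refine coeff_eq_zero_of_degree_lt ((deg_lt hf c).trans_le ?_)
  rw [degree_eq_natDegree hf.ne_zero]
  exact_mod_cast hj

/-- the representative of a polynomial of small degree -/
theorem rep_of_lt {g : R[X]} (hg : g.degree < f.degree) :
    AdjoinRoot.modByMonicHom hf (AdjoinRoot.mk f g) = g := by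
  rw [AdjoinRoot.modByMonicHom_mk]
  exact (modByMonic_eq_self_iff hf).2 hg

/-- the expansion in powers of the root -/
theorem expand (c : AdjoinRoot f) : c = ∑ l ∈ range f.natDegree,
    (AdjoinRoot.modByMonicHom hf c).coeff l • AdjoinRoot.root f ^ l := by
  obtain ⟨p, hp⟩ : ∃ p, p = AdjoinRoot.modByMonicHom hf c := ⟨_, rfl⟩
  have h1 : c = AdjoinRoot.mk f p := by
    rw [hp]
    exact (AdjoinRoot.mk_leftInverse hf c).symm
  rw [← hp]
  have h2 : p = ∑ l ∈ range f.natDegree, C (p.coeff l) * X ^ l := by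
    ext j
    rw [finsetSum_coeff]
    simp only [coeff_C_mul, coeff_X_pow]
    by_cases hj : j < f.natDegree
    · rw [Finset.sum_eq_single j]
      · rw [if_pos rfl, mul_one]
      · intro b _ hb
        rw [if_neg (Ne.symm hb), mul_zero]
      · intro h
        exact absurd (mem_range.2 hj) h
    · rw [hp, coeff_ge hf c (not_lt.1 hj)]
      symm
      refine Finset.sum_eq_zero fun b hb => ?_
      have := mem_range.1 hb
      rw [if_neg (by omega), mul_zero]
  calc c = AdjoinRoot.mk f p := h1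
    _ = AdjoinRoot.mk f (∑ l ∈ range f.natDegree, C (p.coeff l) * X ^ l) := by rw [← h2]
    _ = _ := by
      rw [map_sum]
      refine Finset.sum_congr rfl fun l _ => ?_
      rw [map_mul, map_pow, AdjoinRoot.mk_X, AdjoinRoot.mk_C, Algebra.smul_def]
      rfl

/-- the entries of the matrix of the multiplication by `a` -/
noncomputable def ent (φ : R →+* ℂ) (a : AdjoinRoot f) (i j : ℕ) : ℂ :=
  φ ((AdjoinRoot.modByMonicHom hf (a * AdjoinRoot.root f ^ i)).coeff j)

omit [Nontrivial R] in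
theorem sN_eq (φ : R →+* ℂ) (a : AdjoinRoot f) : sN φ f hf a =
    ∑ i ∈ range f.natDegree, ∑ j ∈ range f.natDegree, ‖ent hf φ a i j‖ := rfl

theorem ent_mul (φ : R →+* ℂ) (a b : AdjoinRoot f) (i j : ℕ) :
    ent hf φ (a * b) i j = ∑ l ∈ range f.natDegree, ent hf φ b i l * ent hf φ a l j := by
  unfold ent
  have h1 : a * b * AdjoinRoot.root f ^ i = ∑ l ∈ range f.natDegree,
      (AdjoinRoot.modByMonicHom hf (b * AdjoinRoot.root f ^ i)).coeff l •
        (a * AdjoinRoot.root f ^ l) := by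
    conv_lhs => rw [mul_assoc, expand hf (b * AdjoinRoot.root f ^ i)]
    rw [Finset.mul_sum]
    refine Finset.sum_congr rfl fun l _ => ?_
    rw [mul_smul_comm]
  rw [h1, map_sum, finsetSum_coeff, map_sum]
  refine Finset.sum_congr rfl fun l _ => ?_
  rw [map_smul, coeff_smul, smul_eq_mul, map_mul]

omit [Nontrivial R] in
theorem nonneg (φ : R →+* ℂ) (a : AdjoinRoot f) : 0 ≤ sN φ f hf a :=
  Finset.sum_nonneg fun _ _ => Finset.sum_nonneg fun _ _ => norm_nonneg _

theorem mul (φ : R →+* ℂ) (a b : AdjoinRoot f) :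
    sN φ f hf (a * b) ≤ sN φ f hf a * sN φ f hf b := by
  rw [sN_eq, sN_eq, sN_eq]
  have h1 : ∀ i ∈ range f.natDegree, ∀ j ∈ range f.natDegree, ‖ent hf φ (a * b) i j‖ ≤
      ∑ l ∈ range f.natDegree, ‖ent hf φ b i l‖ * ‖ent hf φ a l j‖ := by
    intro i _ j _
    rw [ent_mul]
    refine (norm_sum_le _ _).trans (Finset.sum_le_sum fun l _ => ?_)
    rw [norm_mul]
  calc ∑ i ∈ range f.natDegree, ∑ j ∈ range f.natDegree, ‖ent hf φ (a * b) i j‖
      ≤ ∑ i ∈ range f.natDegree, ∑ j ∈ range f.natDegree,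
          ∑ l ∈ range f.natDegree, ‖ent hf φ b i l‖ * ‖ent hf φ a l j‖ :=
        Finset.sum_le_sum fun i hi => Finset.sum_le_sum fun j hj => h1 i hi j hj
    _ = ∑ i ∈ range f.natDegree, ∑ l ∈ range f.natDegree,
          ‖ent hf φ b i l‖ * ∑ j ∈ range f.natDegree, ‖ent hf φ a l j‖ := by
        refine Finset.sum_congr rfl fun i _ => ?_
        rw [Finset.sum_comm]
        refine Finset.sum_congr rfl fun l _ => ?_
        rw [Finset.mul_sum]
    _ ≤ ∑ i ∈ range f.natDegree, ∑ l ∈ range f.natDegree,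
          ‖ent hf φ b i l‖ * ∑ l' ∈ range f.natDegree, ∑ j ∈ range f.natDegree,
            ‖ent hf φ a l' j‖ := by
        refine Finset.sum_le_sum fun i _ => Finset.sum_le_sum fun l hl => ?_
        refine mul_le_mul_of_nonneg_left ?_ (norm_nonneg _)
        exact Finset.single_le_sum (f := fun l' => ∑ j ∈ range f.natDegree, ‖ent hf φ a l' j‖)
          (fun _ _ => Finset.sum_nonneg fun _ _ => norm_nonneg _) hl
    _ = _ := by
        simp only [← Finset.sum_mul]
        rw [mul_comm]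

theorem isSn (φ : R →+* ℂ) : IsSn (sN φ f hf) where
  zero := by
    unfold sN
    simp
  nonneg := nonneg hf φ
  neg a := by
    unfold sN
    simp only [neg_mul, map_neg, coeff_neg, norm_neg]
  add a b := by
    unfold sN
    rw [← Finset.sum_add_distrib]
    refine Finset.sum_le_sum fun i _ => ?_
    rw [← Finset.sum_add_distrib]
    refine Finset.sum_le_sum fun j _ => ?_
    rw [add_mul, map_add, coeff_add, map_add]
    exact norm_add_le _ _
  mul := mul hf φ

theorem coord (φ : R →+* ℂ) (hk : 1 ≤ f.natDegree) (a : AdjoinRoot f) (j : ℕ) :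
    ‖φ ((AdjoinRoot.modByMonicHom hf a).coeff j)‖ ≤ sN φ f hf a := by
  by_cases hj : j < f.natDegree
  · have h0 : (0 : ℕ) ∈ range f.natDegree := mem_range.2 hk
    have e : ‖φ ((AdjoinRoot.modByMonicHom hf a).coeff j)‖ = ‖ent hf φ a 0 j‖ := by
      unfold ent
      rw [pow_zero, mul_one]
    rw [e, sN_eq]
    refine (Finset.single_le_sum (f := fun j => ‖ent hf φ a 0 j‖)
      (fun _ _ => norm_nonneg _) (mem_range.2 hj)).trans ?_
    exact Finset.single_le_sum (f := fun i => ∑ j ∈ range f.natDegree, ‖ent hf φ a i j‖)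
      (fun _ _ => Finset.sum_nonneg fun _ _ => norm_nonneg _) h0
  · rw [coeff_ge hf a (not_lt.1 hj), map_zero, norm_zero]
    exact nonneg hf φ a

/-- the row of a monomial `b x ^ i`, `i < deg f` -/
theorem row (φ : R →+* ℂ) (b : R) {i : ℕ} (hi : i < f.natDegree) :
    ∑ j ∈ range f.natDegree, ‖φ ((AdjoinRoot.modByMonicHom hf
      (algebraMap R (AdjoinRoot f) b * AdjoinRoot.root f ^ i)).coeff j)‖ = ‖φ b‖ := by
  have h1 : algebraMap R (AdjoinRoot f) b * AdjoinRoot.root f ^ i =
      AdjoinRoot.mk f (C b * X ^ i) := by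
    rw [map_mul, map_pow, AdjoinRoot.mk_X, AdjoinRoot.mk_C]
    rfl
  have h2 : (C b * X ^ i : R[X]).degree < f.degree := by
    refine (degree_C_mul_X_pow_le i b).trans_lt ?_
    rw [degree_eq_natDegree hf.ne_zero]
    exact_mod_cast hi
  rw [h1, rep_of_lt hf h2, Finset.sum_eq_single i]
  · rw [coeff_C_mul, coeff_X_pow, if_pos rfl, mul_one]
  · intro j _ hj
    rw [coeff_C_mul, coeff_X_pow, if_neg hj, mul_zero, map_zero, norm_zero]
  · intro h
    exact absurd (mem_range.2 hi) h

theorem const (φ : R →+* ℂ) (b : R) :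
    sN φ f hf (algebraMap R (AdjoinRoot f) b) = f.natDegree * ‖φ b‖ := by
  unfold sN
  rw [Finset.sum_congr rfl fun i hi => row hf φ b (mem_range.1 hi), Finset.sum_const,
    card_range, nsmul_eq_mul]

/-- the last row of the matrix of the root -/
theorem last (φ : R →+* ℂ) {i : ℕ} (hi : i + 1 = f.natDegree) :
    ∑ j ∈ range f.natDegree, ‖φ ((AdjoinRoot.modByMonicHom hf
      (AdjoinRoot.root f * AdjoinRoot.root f ^ i)).coeff j)‖ =
      ∑ j ∈ range f.natDegree, ‖φ (f.coeff j)‖ := by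
  have h1 : AdjoinRoot.root f * AdjoinRoot.root f ^ i =
      AdjoinRoot.mk f (X ^ f.natDegree - f) := by
    rw [map_sub, AdjoinRoot.mk_self, sub_zero, map_pow, AdjoinRoot.mk_X, ← pow_succ', hi]
  have h2 : (X ^ f.natDegree - f : R[X]).degree < f.degree := by
    rw [← neg_sub, degree_neg]
    refine degree_sub_lt_left ?_ hf.ne_zero ?_
    · rw [degree_X_pow, degree_eq_natDegree hf.ne_zero]
    · rw [hf.leadingCoeff, (monic_X_pow _).leadingCoeff]
  rw [h1, rep_of_lt hf h2]
  refine Finset.sum_congr rfl fun j hj => ?_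
  have := mem_range.1 hj
  rw [coeff_sub, coeff_X_pow, if_neg (by omega), zero_sub, map_neg, norm_neg]

theorem root (φ : R →+* ℂ) (hk : 1 ≤ f.natDegree) : sN φ f hf (AdjoinRoot.root f) ≤
    f.natDegree + ∑ j ∈ range f.natDegree, ‖φ (f.coeff j)‖ := by
  obtain ⟨k, hk'⟩ : ∃ k, f.natDegree = k + 1 := ⟨f.natDegree - 1, by omega⟩
  have h1 : sN φ f hf (AdjoinRoot.root f) = ∑ i ∈ range (k + 1),
      ∑ j ∈ range f.natDegree, ‖φ ((AdjoinRoot.modByMonicHom hf
        (AdjoinRoot.root f * AdjoinRoot.root f ^ i)).coeff j)‖ := by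
    rw [← hk']
    rfl
  rw [h1, Finset.sum_range_succ, last hf φ hk'.symm]
  refine add_le_add_left ?_ _
  have h2 : ∀ i ∈ range k, ∑ j ∈ range f.natDegree, ‖φ ((AdjoinRoot.modByMonicHom hf
        (AdjoinRoot.root f * AdjoinRoot.root f ^ i)).coeff j)‖ = 1 := by
    intro i hi
    have hi' := mem_range.1 hi
    have h3 := row hf φ 1 (i := i + 1) (by omega)
    rw [map_one, one_mul, map_one, norm_one, pow_succ'] at h3
    exact h3
  rw [Finset.sum_congr rfl h2, Finset.sum_const, card_range, nsmul_eq_mul, mul_one, hk']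
  push_cast
  linarith

end SNM

theorem prSNM : StSNM := by
  intro R _ _ φ f hf hk
  exact ⟨SNM.isSn hf φ, SNM.coord hf φ hk, SNM.const hf φ, SNM.root hf φ hk⟩

end Pool.Agent.Work.MP_8d13b5_lc.Fm
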