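import Pool.Agent.Work.MP_8d13b5_lc.Fm.Stmts2

set_option autoImplicit false

/-! UUA: the matrix relation. -/

namespace Pool.Agent.Work.MP_8d13b5_lc.Fm

open Polynomial NumberField Finset Module

namespace UUA

/-- the power series `P(t₀ + d s)`, mapped to an algebra, is the value of `P` -/
theorem map_tay {R A : Type} [CommRing R] [CommRing A] [Algebra R A] (P : R[X]) (t₀ d : R) :
    PowerSeries.map (algebraMap R A) (tay P t₀ d) =
      aeval (PowerSeries.C (algebraMap R A t₀) +
        PowerSeries.C (algebraMap R A d) * PowerSeries.X : PowerSeries A) P := by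
  have h1 : tay P t₀ d = ((P.comp (C d * X + C t₀) : R[X]) : PowerSeries R) := by
    ext r
    have h2 : P.comp (C d * X + C t₀) = (taylor t₀ P).comp (C d * X) := by
      rw [taylor_apply, comp_assoc]
      congr 1
      simp
    rw [Polynomial.coeff_coe, h2, comp_C_mul_X_coeff, taylor_coeff]
    simp [tay]
  have h3 : ∀ Q : R[X], PowerSeries.map (algebraMap R A) ((Q.comp (C d * X + C t₀) : R[X]) :
      PowerSeries R) = aeval (PowerSeries.C (algebraMap R A t₀) +
        PowerSeries.C (algebraMap R A d) * PowerSeries.X : PowerSeries A) Q := by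
    intro Q
    have h4 : (PowerSeries.map (algebraMap R A)).comp
        ((Polynomial.coeToPowerSeries.ringHom (R := R)).comp
          (Polynomial.compRingHom (C d * X + C t₀))) =
        ((aeval (PowerSeries.C (algebraMap R A t₀) +
        PowerSeries.C (algebraMap R A d) * PowerSeries.X : PowerSeries A) : R[X] →ₐ[R]
          PowerSeries A) : R[X] →+* PowerSeries A) := by
      apply Polynomial.ringHom_ext
      · intro a
        simp [Polynomial.coeToPowerSeries.ringHom_apply, PowerSeries.algebraMap_apply]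
      · simp [Polynomial.coeToPowerSeries.ringHom_apply]
        ring
    exact congrArg (fun g => g Q) h4
  rw [h1, h3]

section

variable {R : Type} [CommRing R] (f : R[X]) (hf : f.Monic)

theorem crd_sum {ι : Type} (s : Finset ι) (j : ℕ) (b : ι → PowerSeries (AdjoinRoot f)) :
    crd f hf j (∑ i ∈ s, b i) = ∑ i ∈ s, crd f hf j (b i) := by
  ext r
  simp [crd, map_sum]

theorem crd_mul (j : ℕ) (e : PowerSeries R) (b : PowerSeries (AdjoinRoot f)) :
    crd f hf j (PowerSeries.map (algebraMap R (AdjoinRoot f)) e * b) = e * crd f hf j b := by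
  ext r
  simp only [crd, PowerSeries.coeff_mk, PowerSeries.coeff_mul, PowerSeries.coeff_map, map_sum,
    ← Algebra.smul_def, map_smul, Polynomial.finsetSum_coeff, Polynomial.coeff_smul,
    smul_eq_mul]

theorem crd_C_mul (j : ℕ) (e : R) (b : PowerSeries (AdjoinRoot f)) :
    crd f hf j (PowerSeries.C (algebraMap R (AdjoinRoot f) e) * b) =
      PowerSeries.C e * crd f hf j b := by
  rw [← crd_mul, PowerSeries.map_C]

theorem cc_crd (j : ℕ) (b : PowerSeries (AdjoinRoot f)) :
    PowerSeries.constantCoeff (crd f hf j b) =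
      (AdjoinRoot.modByMonicHom hf (PowerSeries.constantCoeff b)).coeff j := by
  rw [← PowerSeries.coeff_zero_eq_constantCoeff_apply,
    ← PowerSeries.coeff_zero_eq_constantCoeff_apply, crd, PowerSeries.coeff_mk]

theorem coord_pow [Nontrivial R] {i : ℕ} (hi : i < f.natDegree) (j : ℕ) :
    (AdjoinRoot.modByMonicHom hf (AdjoinRoot.root f ^ i)).coeff j = if i = j then 1 else 0 := by
  rw [← AdjoinRoot.mk_X, ← map_pow, AdjoinRoot.modByMonicHom_mk]
  have := Pd.cf_init hf hi j
  unfold Pd.cf at this
  rw [this]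
  simp [eq_comm]

/-- a polynomial as the sum of its coefficients below the degree of `f` -/
theorem mod_sum {R : Type*} [CommRing R] [Nontrivial R] (f : R[X]) (hf : f.Monic) (n : ℕ) :
    (X ^ n : R[X]) %ₘ f = ∑ i : Fin f.natDegree, C (Pd.cf f n i) * X ^ (i : ℕ) := by
  by_cases h0 : f.natDegree = 0
  · have h1 : f = 1 := hf.natDegree_eq_zero.1 h0
    rw [h1, modByMonic_one]
    have : IsEmpty (Fin (1 : R[X]).natDegree) := by
      rw [natDegree_one]
      exact Fin.isEmpty
    simp
  · have h1 : ((X ^ n : R[X]) %ₘ f).natDegree < f.natDegree :=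
      natDegree_modByMonic_lt _ hf (fun h => h0 (by rw [h, natDegree_one]))
    rw [Finset.sum_fin_eq_sum_range]
    conv_lhs => rw [Polynomial.as_sum_range' _ _ h1]
    refine Finset.sum_congr rfl fun i hi => ?_
    rw [dif_pos (Finset.mem_range.1 hi), ← C_mul_X_pow_eq_monomial]
    rfl

end

theorem core {R : Type} [CommRing R] [Nontrivial R] (F : R[X][X]) (t₀ d : R) (f : R[X])
    (hfd : f = spc F t₀) (hf : f.Monic) (μ : PowerSeries (AdjoinRoot f)) (hF : F.Monic)
    (hμ : PowerSeries.constantCoeff μ = 1) (Tt y : PowerSeries (AdjoinRoot f))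
    (hTt : Tt = PowerSeries.C (algebraMap R (AdjoinRoot f) t₀) +
        PowerSeries.C (algebraMap R (AdjoinRoot f) d) * PowerSeries.X)
    (hyd : y = PowerSeries.C (AdjoinRoot.root f) * μ) (hy : ev2 F Tt y = 0) :
    ∃ T : Matrix (Fin F.natDegree) (Fin F.natDegree) (PowerSeries R),
      (Matrix.of fun j i : Fin F.natDegree => crd f hf i (y ^ (j : ℕ))) * T = 1 ∧
      ∀ n : ℕ,
        (∀ i j : Fin F.natDegree, PowerSeries.constantCoeff (∑ l : Fin F.natDegree,
          crd f hf l
          (PowerSeries.C (AdjoinRoot.root f ^ (i : ℕ)) * μ ^ n) * T l j) =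
            if i = j then 1 else 0) ∧
        ∀ j : Fin F.natDegree, ∑ i : Fin F.natDegree,
          PowerSeries.C ((Pd.cf F n i).eval t₀) * (∑ l : Fin F.natDegree, crd f hf l
            (PowerSeries.C (AdjoinRoot.root f ^ (i : ℕ)) * μ ^ n) * T l j) =
          tay (Pd.cf F n j) t₀ d := by
  have hdeg : f.natDegree = F.natDegree := by
    rw [hfd, spc]
    exact hF.natDegree_map _
  obtain ⟨S, hS⟩ : ∃ S : Matrix (Fin F.natDegree) (Fin F.natDegree) (PowerSeries R),
    S = Matrix.of fun j i : Fin F.natDegree => crd f hf i (y ^ (j : ℕ)) := ⟨_, rfl⟩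
  have hS' : ∀ j i : Fin F.natDegree, S j i = crd f hf i (y ^ (j : ℕ)) := by
    intro j i
    rw [hS]
    rfl
  -- the constant coefficients
  have hS0 : S.map PowerSeries.constantCoeff = 1 := by
    ext j i
    rw [Matrix.map_apply, hS', cc_crd, map_pow, hyd, map_mul, hμ, mul_one,
      PowerSeries.constantCoeff_C, coord_pow f hf (by rw [hdeg]; exact j.2), Matrix.one_apply]
    simp only [Fin.ext_iff]
  have hdet : IsUnit S.det := by
    rw [PowerSeries.isUnit_iff_constantCoeff]
    have : PowerSeries.constantCoeff S.det = 1 := by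
      have h := RingHom.map_det (PowerSeries.constantCoeff (R := R)) S
      rw [RingHom.mapMatrix_apply, hS0, Matrix.det_one] at h
      exact h
    rw [this]
    exact isUnit_one
  have hST : S * S⁻¹ = 1 := Matrix.mul_nonsing_inv S hdet
  obtain ⟨T, hT⟩ : ∃ T : Matrix (Fin F.natDegree) (Fin F.natDegree) (PowerSeries R),
    T = S⁻¹ := ⟨_, rfl⟩
  rw [← hT] at hST
  have hT0 : T.map PowerSeries.constantCoeff = 1 := by
    have h := congrArg (fun M : Matrix _ _ (PowerSeries R) => M.map PowerSeries.constantCoeff) hST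
    simp only [Matrix.map_mul, hS0, one_mul] at h
    rw [h]
    ext i j
    simp [Matrix.one_apply, apply_ite]
  have hT0' : ∀ l j, PowerSeries.constantCoeff (T l j) = if l = j then 1 else 0 := by
    intro l j
    have h := congrFun (congrFun hT0 l) j
    rw [Matrix.map_apply, Matrix.one_apply] at h
    exact h
  rw [← hS]
  refine ⟨T, hST, fun n => ⟨?_, ?_⟩⟩
  · intro i j
    rw [map_sum]
    simp only [map_mul, hT0', mul_ite, mul_one, mul_zero, Finset.sum_ite_eq', Finset.mem_univ,
      if_true]
    rw [cc_crd, map_mul, PowerSeries.constantCoeff_C, map_pow, hμ, one_pow, mul_one,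
      coord_pow f hf (by rw [hdeg]; exact i.2)]
    simp only [Fin.ext_iff]
  · -- the two expressions of the power of y
    have hy1 : y ^ n = ∑ j : Fin F.natDegree,
        PowerSeries.map (algebraMap R (AdjoinRoot f)) (tay (Pd.cf F n j) t₀ d) *
          y ^ (j : ℕ) := by
      have h1 : (X ^ n : R[X][X]) = F * ((X ^ n : R[X][X]) /ₘ F) +
          ∑ i : Fin F.natDegree, C (Pd.cf F n i) * X ^ (i : ℕ) := by
        rw [← mod_sum F hF n, add_comm]
        exact (modByMonic_add_div _ F).symm
      have h2 := congrArg (fun P : R[X][X] => ev2 P Tt y) h1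
      simp only [ev2, eval₂_pow, eval₂_X, eval₂_add, eval₂_mul, eval₂_finsetSum, eval₂_C] at h2
      have hy' : eval₂ ((aeval Tt : R[X] →ₐ[R] PowerSeries (AdjoinRoot f)) :
        R[X] →+* PowerSeries (AdjoinRoot f)) y F = 0 := hy
      rw [hy', zero_mul, zero_add] at h2
      rw [h2]
      refine Finset.sum_congr rfl fun j _ => ?_
      rw [map_tay, hTt]
      rfl
    have hy2 : y ^ n = ∑ i : Fin F.natDegree,
        PowerSeries.C (algebraMap R (AdjoinRoot f) ((Pd.cf F n i).eval t₀)) *
          (PowerSeries.C (AdjoinRoot.root f ^ (i : ℕ)) * μ ^ n) := by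
      have h1 : (AdjoinRoot.root f) ^ n = ∑ i : Fin F.natDegree,
          algebraMap R (AdjoinRoot f) ((Pd.cf F n i).eval t₀) *
            AdjoinRoot.root f ^ (i : ℕ) := by
        have h2 : ((X ^ n : R[X][X]) %ₘ F).map (evalRingHom t₀) = (X ^ n : R[X]) %ₘ f := by
          rw [map_modByMonic (evalRingHom t₀) hF, Polynomial.map_pow, map_X, hfd, spc]
        have h3 := congrArg (fun P : R[X] => AdjoinRoot.mk f P) h2
        rw [mod_sum F hF n, Polynomial.map_sum, map_sum] at h3
        have h4 : AdjoinRoot.mk f ((X ^ n : R[X]) %ₘ f) = AdjoinRoot.root f ^ n := by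
          rw [← AdjoinRoot.mk_X, ← map_pow, AdjoinRoot.mk_eq_mk]
          rw [modByMonic_eq_sub_mul_div (X ^ n) f]
          exact ⟨-((X ^ n : R[X]) /ₘ f), by ring⟩
        rw [← h4, ← h3]
        refine Finset.sum_congr rfl fun i _ => ?_
        rw [Polynomial.map_mul, Polynomial.map_pow, map_C, map_X, map_mul, map_pow,
          AdjoinRoot.mk_X, AdjoinRoot.mk_C, coe_evalRingHom]
        rfl
      rw [hyd, mul_pow, ← map_pow, h1, map_sum, Finset.sum_mul]
      refine Finset.sum_congr rfl fun i _ => ?_
      rw [map_mul, mul_assoc]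
    intro j
    have h3 : ∀ l : Fin F.natDegree, crd f hf l (y ^ n) = ∑ i : Fin F.natDegree,
        PowerSeries.C ((Pd.cf F n i).eval t₀) *
          crd f hf l (PowerSeries.C (AdjoinRoot.root f ^ (i : ℕ)) * μ ^ n) := by
      intro l
      rw [hy2, crd_sum]
      exact Finset.sum_congr rfl fun i _ => crd_C_mul f hf l _ _
    have h4 : ∀ l : Fin F.natDegree, crd f hf l (y ^ n) = ∑ i : Fin F.natDegree,
        tay (Pd.cf F n i) t₀ d * S i l := by
      intro l
      rw [hy1, crd_sum]
      refine Finset.sum_congr rfl fun i _ => ?_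
      rw [crd_mul, hS']
    have h5 : ∑ i : Fin F.natDegree, PowerSeries.C ((Pd.cf F n i).eval t₀) *
        (∑ l : Fin F.natDegree, crd f hf l
          (PowerSeries.C (AdjoinRoot.root f ^ (i : ℕ)) * μ ^ n) * T l j) =
        ∑ l : Fin F.natDegree, crd f hf l (y ^ n) * T l j := by
      simp only [h3, Finset.sum_mul, Finset.mul_sum]
      rw [Finset.sum_comm]
      exact Finset.sum_congr rfl fun l _ => Finset.sum_congr rfl fun i _ => by ring
    rw [h5]
    have h6 : ∑ l : Fin F.natDegree, crd f hf l (y ^ n) * T l j =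
        ∑ i : Fin F.natDegree, tay (Pd.cf F n i) t₀ d * (S * T) i j := by
      simp only [h4, Finset.sum_mul, Matrix.mul_apply, Finset.mul_sum]
      rw [Finset.sum_comm]
      exact Finset.sum_congr rfl fun l _ => Finset.sum_congr rfl fun i _ => by ring
    rw [h6, hST]
    simp [Matrix.one_apply]

end UUA

theorem prUUA : StUUA := by
  intro R _ _ F t₀ d hf μ hF _ hμ hy
  exact UUA.core F t₀ d (spc F t₀) rfl hf μ hF hμ _ _ rfl rfl hy

end Pool.Agent.Work.MP_8d13b5_lc.Fm
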