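import Pool.Agent.Work.MP_8d13b5_lc.Fm.StmtsW

set_option autoImplicit false

/-! Item VAN: from a syzygy of the coefficients to a relation between powers of the roots. -/

namespace Pool.Agent.Work.MP_8d13b5_lc.Fm

open Polynomial NumberField Finset Module

namespace VAN

theorem tr {E : Type} [Field E] [Algebra ℂ E] {m : ℕ} {G : ℂ[X][X]} {D : Derivation ℤ E E} {τ : E}
    {lam : Fin (m + 1) → E} (h : IsDat m G D τ lam) (P : ℂ[X]) (hP : aeval τ P = 0) : P = 0 := by
  by_contra hne
  have hi : IsIntegral ℂ τ := isAlgebraic_iff_isIntegral.1 ⟨P, hne, hP⟩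
  have h1 := IsAlgClosed.degree_eq_one_of_irreducible ℂ (minpoly.irreducible hi)
  obtain ⟨c, hc⟩ := minpoly.mem_range_of_degree_eq_one ℂ τ h1
  have h2 := h.tau
  rw [← hc, h.dc] at h2
  exact zero_ne_one h2

/-- products in the filtration -/
theorem prod_mem {E : Type} [Field E] [Algebra ℂ E] {k : ℕ} {τ : E} {lam : Fin k → E} {w : ℕ}
    (h1 : StFLA) {ι : Type} (s : Finset ι) (f : ι → E) (d : ℕ) (hf : ∀ i ∈ s, f i ∈ Fil τ lam w d) :
    ∏ i ∈ s, f i ∈ Fil τ lam w (s.card * d) := by
  classical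
  obtain ⟨hmono, hone, hmul, _⟩ := h1 E k τ lam w
  induction s using Finset.induction_on with
  | empty =>
    rw [prod_empty, card_empty, zero_mul]
    exact hone
  | insert a s ha ih =>
    rw [prod_insert ha, card_insert_of_notMem ha]
    have h2 := hmul d (s.card * d) _ _ (hf a (mem_insert_self a s))
      (ih fun i hi => hf i (mem_insert_of_mem hi))
    refine hmono _ _ (le_of_eq ?_) h2
    ring

theorem det_mem {E : Type} [Field E] [Algebra ℂ E] {k : ℕ} {τ : E} {lam : Fin k → E} {w : ℕ}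
    (h1 : StFLA) {m : ℕ} (M : Matrix (Fin m) (Fin m) E) (d : ℕ)
    (hM : ∀ i j, M i j ∈ Fil τ lam w d) : M.det ∈ Fil τ lam w (m * d) := by
  rw [Matrix.det_apply]
  refine Submodule.sum_mem _ fun σ _ => ?_
  have h2 := prod_mem h1 (Finset.univ : Finset (Fin m)) (fun i => M (σ i) i) d fun i _ => hM _ _
  rw [Finset.card_fin] at h2
  rcases Int.units_eq_one_or (Equiv.Perm.sign σ) with hs | hs
  · rw [hs, one_smul]
    exact h2
  · rw [hs, Units.neg_smul, one_smul]
    exact Submodule.neg_mem _ h2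

theorem pow_eq {E : Type} [Field E] [Algebra ℂ E] {m : ℕ} {G : ℂ[X][X]} {D : Derivation ℤ E E}
    {τ : E} {lam : Fin (m + 1) → E} (h : IsDat m G D τ lam) (hG : G.Monic)
    (hd : G.natDegree = m + 1) (n : ℕ) (s : Fin (m + 1)) :
    ∑ j : Fin (m + 1), lam s ^ (j : ℕ) * aeval τ (Pd.cf G n j) = lam s ^ n := by
  set φ : ℂ[X] →+* E := ((aeval τ : ℂ[X] →ₐ[ℂ] E) : ℂ[X] →+* E) with hφ
  set R : ℂ[X][X] := (X ^ n : ℂ[X][X]) %ₘ G with hR
  have h1 : (X ^ n : ℂ[X][X]) = R + G * ((X ^ n : ℂ[X][X]) /ₘ G) :=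
    (modByMonic_add_div (X ^ n : ℂ[X][X]) G).symm
  have hroot : eval₂ φ (lam s) G = 0 := by
    rw [← eval_map, h.split, eval_prod]
    apply prod_eq_zero (mem_univ s)
    simp
  have h2 : lam s ^ n = eval₂ φ (lam s) R := by
    have h3 := congrArg (eval₂ φ (lam s)) h1
    rw [eval₂_X_pow, eval₂_add, eval₂_mul, hroot, zero_mul, add_zero] at h3
    exact h3
  have hdeg : R.natDegree < m + 1 := by
    have h4 : R.degree < G.degree := degree_modByMonic_lt _ hG
    by_cases hR0 : R = 0
    · rw [hR0, natDegree_zero]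
      omega
    · rw [← hd]
      exact natDegree_lt_natDegree hR0 h4
  rw [h2, eval₂_eq_sum_range' φ hdeg, Finset.sum_range]
  apply sum_congr rfl
  intro j _
  rw [mul_comm]
  rfl

end VAN

theorem prVAN (h1 : StFLA) : StVAN := by
  intro m G E _ _ D τ lam w h hG hd n L P hP hL hPs
  obtain ⟨hmono, hone, hmul, haev, hlam, hpow⟩ := h1 E (m + 1) τ lam w
  set V : Matrix (Fin (m + 1)) (Fin (m + 1)) E := Matrix.vandermonde lam with hV
  have hdet : V.det ≠ 0 := Matrix.det_vandermonde_ne_zero_iff.2 h.inj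
  set e : Fin (m + 1) → E := fun j => aeval τ (Pd.cf G n j) with he
  set p : Fin (m + 1) → E := fun j => aeval τ (P j) with hp
  have hVe : V.mulVec e = fun s => lam s ^ n := by
    funext s
    rw [Matrix.mulVec, dotProduct]
    exact VAN.pow_eq h hG hd n s
  have hpe : dotProduct p e = 0 := by
    rw [dotProduct]
    have h2 := congrArg (aeval τ) hPs
    rw [map_sum, map_zero] at h2
    rw [← h2]
    apply sum_congr rfl
    intro j _
    rw [map_mul]
  refine ⟨Matrix.vecMul p V.adjugate, ?_, ?_, ?_⟩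
  · intro h0
    have h2 : Matrix.vecMul (Matrix.vecMul p V.adjugate) V = V.det • p := by
      rw [Matrix.vecMul_vecMul, Matrix.adjugate_mul, Matrix.vecMul_smul, Matrix.vecMul_one]
    rw [h0, Matrix.zero_vecMul] at h2
    apply hP
    funext j
    have h3 := congrFun h2.symm j
    rw [Pi.smul_apply, smul_eq_mul, Pi.zero_apply, mul_eq_zero] at h3
    exact VAN.tr h (P j) (h3.resolve_left hdet)
  · intro s
    rw [Matrix.vecMul, dotProduct]
    refine Submodule.sum_mem _ fun j _ => ?_
    refine hmul _ _ _ _ ?_ ?_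
    · exact hmono _ _ (hL j) (haev (P j))
    · rw [Matrix.adjugate_apply]
      refine VAN.det_mem h1 _ (w * m) fun i l => ?_
      rw [Matrix.updateRow_apply]
      split_ifs with hi
      · rw [Pi.single_apply]
        split_ifs
        · exact hmono _ _ (Nat.zero_le _) hone
        · exact Submodule.zero_mem _
      · rw [hV, Matrix.vandermonde_apply]
        have h2 := hpow w (lam i) (l : ℕ) (hlam i)
        refine hmono _ _ ?_ h2
        rw [mul_comm]
        exact Nat.mul_le_mul_left w (Nat.lt_succ_iff.1 l.2)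
  · have h2 : ∑ j, Matrix.vecMul p V.adjugate j * lam j ^ n =
        dotProduct (Matrix.vecMul p V.adjugate) (V.mulVec e) := by
      rw [hVe]
      rfl
    rw [h2, Matrix.dotProduct_mulVec, Matrix.vecMul_vecMul, Matrix.adjugate_mul, Matrix.vecMul_smul,
      Matrix.vecMul_one, smul_dotProduct, hpe, smul_zero]

end Pool.Agent.Work.MP_8d13b5_lc.Fm
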