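import Pool.Agent.Work.MP_8d13b5_lc.Fm.Stmts

set_option autoImplicit false

/-! Item GR1 of the block Fm: one greedy step. -/

namespace Pool.Agent.Work.MP_8d13b5_lc.Fm

open Polynomial NumberField Finset Module

namespace GR1

/-- the polynomials with the coefficients `v` -/
noncomputable def PP {R : Type} [CommRing R] {m L : ℕ} (v : Fin (m + 1) × Fin (L + 1) → R)
    (j : Fin (m + 1)) : R[X] := ∑ i : Fin (L + 1), C (v (j, i)) * X ^ (i : ℕ)

lemma PP_deg {R : Type} [CommRing R] {m L : ℕ} (v : Fin (m + 1) × Fin (L + 1) → R)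
    (j : Fin (m + 1)) : (PP v j).natDegree ≤ L := by
  unfold PP
  refine natDegree_sum_le_of_forall_le _ _ fun i _ => ?_
  refine (natDegree_C_mul_X_pow_le _ _).trans ?_
  have := i.2
  omega

lemma PP_coeff {R : Type} [CommRing R] {m L : ℕ} (v : Fin (m + 1) × Fin (L + 1) → R)
    (j : Fin (m + 1)) (i : Fin (L + 1)) : (PP v j).coeff i = v (j, i) := by
  unfold PP
  rw [finset_sum_coeff]
  rw [Finset.sum_eq_single i]
  · simp
  · intro b _ hb
    rw [coeff_C_mul_X_pow, if_neg]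
    intro h
    exact hb (Fin.ext h).symm
  · simp

lemma PP_mul_coeff {R : Type} [CommRing R] {m L : ℕ} (v : Fin (m + 1) × Fin (L + 1) → R)
    (j : Fin (m + 1)) (E : R[X]) (t : ℕ) : (PP v j * E).coeff t =
      ∑ i : Fin (L + 1), (if (i : ℕ) ≤ t then E.coeff (t - i) else 0) * v (j, i) := by
  unfold PP
  rw [Finset.sum_mul, finset_sum_coeff]
  refine Finset.sum_congr rfl fun i _ => ?_
  rw [mul_assoc, coeff_C_mul, coeff_X_pow_mul', mul_comm]

lemma rel_iff {R : Type} [CommRing R] {m L D : ℕ} (v : Fin (m + 1) × Fin (L + 1) → R)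
    (E : Fin (m + 1) → R[X]) (hE : ∀ j, (E j).natDegree ≤ D) :
    ∑ j, PP v j * E j = 0 ↔ ∀ t : Fin (L + D + 1), ∑ p : Fin (m + 1) × Fin (L + 1),
      (if (p.2 : ℕ) ≤ (t : ℕ) then (E p.1).coeff ((t : ℕ) - (p.2 : ℕ)) else 0) * v p = 0 := by
  have key : ∀ t : ℕ, (∑ j, PP v j * E j).coeff t = ∑ p : Fin (m + 1) × Fin (L + 1),
      (if (p.2 : ℕ) ≤ t then (E p.1).coeff (t - (p.2 : ℕ)) else 0) * v p := by
    intro t
    rw [finset_sum_coeff, Fintype.sum_prod_type]
    exact Finset.sum_congr rfl fun j _ => PP_mul_coeff v j (E j) t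
  constructor
  · intro h t
    rw [← key, h, coeff_zero]
  · intro h
    ext t
    rw [coeff_zero]
    by_cases ht : t < L + D + 1
    · rw [key]
      exact h ⟨t, ht⟩
    · apply coeff_eq_zero_of_natDegree_lt
      refine lt_of_le_of_lt (natDegree_sum_le_of_forall_le (n := L + D) _ _ fun j _ => ?_)
        (by omega)
      exact natDegree_mul_le.trans (Nat.add_le_add (PP_deg v j) (hE j))

/-- the linear map -/
noncomputable def PL (K : Type) [Field K] (m L : ℕ) :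
    (Fin (m + 1) × Fin (L + 1) → K) →ₗ[K] (Fin (m + 1) → K[X]) where
  toFun v := fun j => PP v j
  map_add' := by
    intro v w
    funext j
    simp only [PP, Pi.add_apply, C_add, add_mul, Finset.sum_add_distrib]
  map_smul' := by
    intro c v
    funext j
    simp only [PP, Pi.smul_apply, smul_eq_mul, C_mul, RingHom.id_apply, smul_eq_C_mul,
      Finset.mul_sum, mul_assoc]

lemma PL_apply (K : Type) [Field K] (m L : ℕ) (v : Fin (m + 1) × Fin (L + 1) → K)
    (j : Fin (m + 1)) : PL K m L v j = PP v j := rfl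

lemma PL_inj (K : Type) [Field K] (m L : ℕ) : Function.Injective (PL K m L) := by
  intro v w h
  funext p
  obtain ⟨j, i⟩ := p
  have h1 : PP v j = PP w j := by
    rw [← PL_apply, ← PL_apply, h]
  rw [← PP_coeff v j i, ← PP_coeff w j i, h1]

lemma PL_range (K : Type) [Field K] (m L : ℕ) (P : Fin (m + 1) → K[X])
    (hP : ∀ j, (P j).natDegree ≤ L) : ∃ v, PL K m L v = P := by
  refine ⟨fun p => (P p.1).coeff (p.2 : ℕ), ?_⟩
  funext j
  rw [PL_apply]
  have h1 : PP (fun p : Fin (m + 1) × Fin (L + 1) => (P p.1).coeff (p.2 : ℕ)) j =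
      ∑ i : Fin (L + 1), C ((P j).coeff (i : ℕ)) * X ^ (i : ℕ) := rfl
  rw [h1, Fin.sum_univ_eq_sum_range (fun i => C ((P j).coeff i) * X ^ i) (L + 1)]
  exact (as_sum_range_C_mul_X_pow' (P j) (by have := hP j; omega)).symm

lemma finrank_comap (K : Type) [Field K] (m L : ℕ) (S : Submodule K (Fin (m + 1) → K[X]))
    (hS : ∀ P ∈ S, ∀ j, (P j).natDegree ≤ L) :
    finrank K ↥(S.comap (PL K m L)) = finrank K ↥S := by
  have h1 : (S.comap (PL K m L)).map (PL K m L) = S := by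
    apply Submodule.map_comap_eq_self
    intro P hP
    obtain ⟨v, hv⟩ := PL_range K m L P (hS P hP)
    exact ⟨v, hv⟩
  rw [(Submodule.equivMapOfInjective (PL K m L) (PL_inj K m L)
    (S.comap (PL K m L))).finrank_eq, h1]

end GR1

open GR1 in
theorem prGR1 (hPN : StPN) (hSIE : StSIE) : StGR1 := by
  intro K _ _ m e lam hdeg N₁ hN₁
  obtain ⟨C₀, hC₀, hS⟩ := hSIE K
  obtain ⟨Λ, hΛdef⟩ : ∃ Λ : ℝ, Λ = 1 + ∑ φ : K →+* ℂ, ∑ j, pn (res φ) (lam j) := ⟨_, rfl⟩
  have hpn0 : ∀ (φ : K →+* ℂ) (P : (𝓞 K)[X]), 0 ≤ pn (res φ) P := fun φ P =>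
    (hPN (𝓞 K) (res φ)).1 P
  have hΛ1 : 1 ≤ Λ := by
    have : 0 ≤ ∑ φ : K →+* ℂ, ∑ j, pn (res φ) (lam j) :=
      Finset.sum_nonneg fun φ _ => Finset.sum_nonneg fun j _ => hpn0 φ _
    linarith
  have hΛj : ∀ (φ : K →+* ℂ) j, pn (res φ) (lam j) ≤ Λ := by
    intro φ j
    have h1 : pn (res φ) (lam j) ≤ ∑ j, pn (res φ) (lam j) :=
      Finset.single_le_sum (f := fun j => pn (res φ) (lam j)) (fun j _ => hpn0 φ _)
        (Finset.mem_univ j)
    have h2 : ∑ j, pn (res φ) (lam j) ≤ ∑ φ : K →+* ℂ, ∑ j, pn (res φ) (lam j) :=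
      Finset.single_le_sum (f := fun φ : K →+* ℂ => ∑ j, pn (res φ) (lam j))
        (fun φ _ => Finset.sum_nonneg fun j _ => hpn0 φ _) (Finset.mem_univ φ)
    linarith
  obtain ⟨M, hM⟩ : ∃ M : ℝ, M = 2 * (((m : ℝ) + 2) * ((e : ℝ) + 2)) := ⟨_, rfl⟩
  have hm0 : (0 : ℝ) ≤ m := Nat.cast_nonneg m
  have he0 : (0 : ℝ) ≤ e := Nat.cast_nonneg e
  have hM1 : 1 ≤ M := by
    rw [hM]; nlinarith [mul_nonneg hm0 he0]
  obtain ⟨q, hq⟩ : ∃ q : ℕ, q = (m + 1) * (e + 2) * N₁ := ⟨_, rfl⟩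
  obtain ⟨T, hT⟩ : ∃ T : ℝ, T = C₀ * M * Λ := ⟨_, rfl⟩
  have hT1 : 1 ≤ T := by
    rw [hT]
    have h1 : 1 ≤ C₀ * M := one_le_mul_of_one_le_of_one_le hC₀ hM1
    exact one_le_mul_of_one_le_of_one_le h1 hΛ1
  have hMT : M ≤ T := by
    rw [hT]
    have h1 : M ≤ C₀ * M := le_mul_of_one_le_left (by linarith) hC₀
    have h2 : C₀ * M ≤ C₀ * M * Λ := le_mul_of_one_le_right (by nlinarith) hΛ1
    linarith
  refine ⟨T ^ (q + 2), one_le_pow₀ hT1, ?_⟩
  intro n hn ℓ r Q hℓ hfin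
  obtain ⟨L, hL⟩ : ∃ L : ℕ, L = ℓ + n / N₁ := ⟨_, rfl⟩
  obtain ⟨E, hE⟩ : ∃ E : Fin (m + 1) → K[X],
    E = fun j => (lam j).map (algebraMap (𝓞 K) K) ^ n := ⟨_, rfl⟩
  rw [← hL, ← hE] at hfin
  rw [← hL]
  have hdegn : ∀ j, (lam j ^ n).natDegree ≤ e * n := by
    intro j
    refine natDegree_pow_le.trans ?_
    rw [mul_comm]
    exact Nat.mul_le_mul_right n (hdeg j)
  have hdegE : ∀ j, (E j).natDegree ≤ e * n := by
    intro j
    have : E j = (lam j ^ n).map (algebraMap (𝓞 K) K) := by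
      simp [hE, Polynomial.map_pow]
    rw [this]
    exact natDegree_map_le.trans (hdegn j)
  have hLn : L + 1 ≤ (e + 2) * n := by
    have h1 : n / N₁ ≤ n := Nat.div_le_self _ _
    nlinarith
  let A : Fin (L + e * n + 1) → Fin (m + 1) × Fin (L + 1) → 𝓞 K := fun t p =>
    if (p.2 : ℕ) ≤ (t : ℕ) then (lam p.1 ^ n).coeff ((t : ℕ) - (p.2 : ℕ)) else 0
  have hAK : ∀ t p, ((A t p : 𝓞 K) : K) =
      if (p.2 : ℕ) ≤ (t : ℕ) then (E p.1).coeff ((t : ℕ) - (p.2 : ℕ)) else 0 := by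
    intro t p
    have h2 : E p.1 = (lam p.1 ^ n).map (algebraMap (𝓞 K) K) := by
      simp [hE, Polynomial.map_pow]
    simp only [A]
    split_ifs with h
    · rw [h2, coeff_map]
    · simp
  have hker : kerA A = (Syz E L).comap (PL K m L) := by
    ext v
    constructor
    · intro hv
      refine ⟨fun j => PP_deg v j, ?_⟩
      refine (rel_iff v E hdegE).2 fun t => ?_
      have := hv t
      simpa only [hAK] using this
    · intro hv t
      have := (rel_iff v E hdegE).1 hv.2 t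
      simpa only [hAK] using this
  obtain ⟨W, hW⟩ : ∃ W : Submodule K (Fin (m + 1) × Fin (L + 1) → K),
    W = (DepM Q ⊓ Syz E L).comap (PL K m L) := ⟨_, rfl⟩
  have hWker : W ≤ kerA A := by
    rw [hker, hW]
    exact Submodule.comap_mono inf_le_right
  have hf1 : finrank K ↥(kerA A) = finrank K ↥(Syz E L) := by
    rw [hker]
    exact finrank_comap K m L _ fun P hP => hP.1
  have hf2 : finrank K ↥W = finrank K ↥(DepM Q ⊓ Syz E L) := by
    rw [hW]
    exact finrank_comap K m L _ fun P hP => hP.2.1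
  have hcard : Fintype.card (Fin (m + 1) × Fin (L + 1)) = (m + 1) * (L + 1) := by simp
  have hB : ∀ (φ : K →+* ℂ) i j, ‖res φ (A i j)‖ ≤ Λ ^ n := by
    intro φ t p
    simp only [A]
    split_ifs with h
    · obtain ⟨_, _, _, _, h5, _, h7, _⟩ := hPN (𝓞 K) (res φ)
      refine (h7 _ _).trans ((h5 _ n).trans ?_)
      exact pow_le_pow_left₀ (hpn0 φ _) (hΛj φ _) n
    · rw [map_zero, norm_zero]
      positivity
  have hnN : n ≤ N₁ * (n / N₁ + 1) := by
    have h1 := Nat.div_add_mod n N₁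
    have h2 := Nat.mod_lt n hN₁
    rw [mul_add, mul_one]
    omega
  have hcq : Fintype.card (Fin (m + 1) × Fin (L + 1)) ≤
      q * (finrank K ↥(kerA A) - finrank K ↥W) := by
    rw [hcard, hf1, hf2]
    have h1 : n / N₁ + 1 ≤ finrank K ↥(Syz E L) - finrank K ↥(DepM Q ⊓ Syz E L) := by
      omega
    calc (m + 1) * (L + 1) ≤ (m + 1) * ((e + 2) * n) := Nat.mul_le_mul_left _ hLn
      _ ≤ (m + 1) * ((e + 2) * (N₁ * (n / N₁ + 1))) := by
          exact Nat.mul_le_mul_left _ (Nat.mul_le_mul_left _ hnN)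
      _ = q * (n / N₁ + 1) := by rw [hq]; ring
      _ ≤ _ := Nat.mul_le_mul_left _ h1
  obtain ⟨v, hv1, hv2, hv3⟩ := hS _ _ A (Λ ^ n) q W (one_le_pow₀ hΛ1) hB hWker
    (by rw [hcard]; positivity) hcq
  have hmemK : (fun p => (v p : K)) ∈ kerA A := by
    intro t
    have h1 := congrArg (algebraMap (𝓞 K) K) (hv1 t)
    rw [map_zero, map_sum] at h1
    simpa only [map_mul] using h1
  have hMn : ((L : ℝ) + 1) ≤ M ^ n ∧
      ((Fintype.card (Fin (m + 1) × Fin (L + 1)) : ℕ) : ℝ) + 1 ≤ M ^ n := by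
    have h2n : (n : ℝ) ≤ 2 ^ n := by
      exact_mod_cast (Nat.lt_two_pow_self (n := n)).le
    have hn1 : (1 : ℝ) ≤ n := by exact_mod_cast hn
    have h3 : ((L : ℝ) + 1) ≤ (e + 2) * n := by exact_mod_cast hLn
    have h4 : ((m + 2) * (e + 2) : ℝ) * n ≤ M ^ n := by
      have h5 : (1 : ℝ) ≤ (m + 2) * (e + 2) := by nlinarith [mul_nonneg hm0 he0]
      have h6 : ((m + 2) * (e + 2) : ℝ) ≤ ((m + 2) * (e + 2) : ℝ) ^ n :=
        le_self_pow₀ h5 (by omega)
      calc ((m + 2) * (e + 2) : ℝ) * n ≤ ((m + 2) * (e + 2) : ℝ) ^ n * 2 ^ n := by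
            apply mul_le_mul h6 h2n (by positivity) (by positivity)
        _ = M ^ n := by
            rw [hM, mul_pow 2 (((m : ℝ) + 2) * ((e : ℝ) + 2)) n, mul_comm]
    constructor
    · refine h3.trans (le_trans ?_ h4)
      have : ((e : ℝ) + 2) ≤ (m + 2) * (e + 2) := by nlinarith [mul_nonneg hm0 he0]
      exact mul_le_mul_of_nonneg_right this (by positivity)
    · rw [hcard]
      push_cast
      refine le_trans ?_ h4
      have h7 : ((m : ℝ) + 1) * (L + 1) ≤ (m + 1) * ((e + 2) * n) :=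
        mul_le_mul_of_nonneg_left h3 (by positivity)
      nlinarith [mul_nonneg he0 (by linarith : (0 : ℝ) ≤ (n : ℝ))]
  have hbd : ∀ (φ : K →+* ℂ) p, ‖res φ (v p)‖ ≤ (T ^ (q + 1)) ^ n := by
    intro φ p
    refine (hv3 φ p).trans ?_
    rw [← pow_mul, mul_comm (q + 1) n, pow_mul]
    apply pow_le_pow_left₀ (by positivity)
    have h1 : C₀ ≤ C₀ ^ n := le_self_pow₀ hC₀ (by omega)
    calc C₀ * (((Fintype.card (Fin (m + 1) × Fin (L + 1)) : ℕ) : ℝ) + 1) * Λ ^ n
        ≤ C₀ ^ n * M ^ n * Λ ^ n := by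
          apply mul_le_mul_of_nonneg_right _ (by positivity)
          exact mul_le_mul h1 hMn.2 (by positivity) (by positivity)
      _ = T ^ n := by rw [hT, mul_pow (C₀ * M) Λ n, mul_pow C₀ M n]
  refine ⟨fun j => PP v j, ?_, fun j => PP_deg v j, ?_, ?_⟩
  · exact (rel_iff v (fun j => lam j ^ n) hdegn).2 fun t => hv1 t
  · intro φ j
    obtain ⟨_, _, _, _, _, _, _, h8, _⟩ := hPN (𝓞 K) (res φ)
    rw [h8 _ L (PP_deg v j)]
    have h9 : ∀ i ∈ range (L + 1), ‖(res φ) ((PP v j).coeff i)‖ ≤ (T ^ (q + 1)) ^ n := by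
      intro i hi
      rw [mem_range] at hi
      have := PP_coeff v j ⟨i, hi⟩
      simp only at this
      rw [this]
      exact hbd φ _
    refine (Finset.sum_le_sum h9).trans ?_
    rw [sum_const, card_range, nsmul_eq_mul]
    push_cast
    calc ((L : ℝ) + 1) * (T ^ (q + 1)) ^ n ≤ T ^ n * (T ^ (q + 1)) ^ n := by
          apply mul_le_mul_of_nonneg_right _ (by positivity)
          exact hMn.1.trans (pow_le_pow_left₀ (by linarith) hMT n)
      _ = (T ^ (q + 2)) ^ n := by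
          rw [← mul_pow]; congr 1; ring
  · intro hmem
    apply hv2
    have h1 : (fun j => (PP v j).map (algebraMap (𝓞 K) K)) =
        PL K m L (fun p => (v p : K)) := by
      funext j
      rw [PL_apply]
      simp only [PP, Polynomial.map_sum, Polynomial.map_mul, map_C, Polynomial.map_pow, map_X]
    rw [hker] at hmemK
    have h2 : PL K m L (fun p => (v p : K)) ∈ DepM Q := by
      rw [← h1]
      exact hmem
    rw [hW]
    exact Submodule.mem_comap.2 (Submodule.mem_inf.2 ⟨h2, Submodule.mem_comap.1 hmemK⟩)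

end Pool.Agent.Work.MP_8d13b5_lc.Fm
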