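import Pool.Agent.Work.MP_8d13b5_lc.Fm.StmtsU
import Pool.Agent.Work.MP_8d13b5_lc.Pd.NF

set_option autoImplicit false

/-! Item VNZ of the block FMU: the roots of a polynomial are small. -/

namespace Pool.Agent.Work.MP_8d13b5_lc.Fm

open Polynomial NumberField Finset Module

namespace VNZ

variable {K : Type} [Field K] [NumberField K]

theorem coeff_le (φ : K →+* ℂ) (P : (𝓞 K)[X]) (i : ℕ) : ‖res φ (P.coeff i)‖ ≤ pn (res φ) P := by
  unfold pn
  by_cases hi : i ≤ P.natDegree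
  · exact single_le_sum (f := fun i => ‖res φ (P.coeff i)‖) (fun _ _ => norm_nonneg _)
      (mem_range.2 (Nat.lt_succ_of_le hi))
  · rw [coeff_eq_zero_of_natDegree_lt (not_le.1 hi), map_zero, norm_zero]
    exact sum_nonneg fun _ _ => norm_nonneg _

theorem inv_le (b : 𝓞 K) (hb : b ≠ 0) (Y : ℝ) (hY : 1 ≤ Y)
    (h : ∀ φ : K →+* ℂ, ‖res φ b‖ ≤ Y) (φ : K →+* ℂ) :
    1 ≤ ‖res φ b‖ * Y ^ (Fintype.card (K →+* ℂ)) := by
  classical
  have h1 : 1 ≤ ∏ ψ : K →+* ℂ, ‖res ψ b‖ := Pd.one_le_prod b hb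
  rw [← mul_prod_erase univ _ (mem_univ φ)] at h1
  refine h1.trans (mul_le_mul_of_nonneg_left ?_ (norm_nonneg _))
  calc ∏ ψ ∈ univ.erase φ, ‖res ψ b‖ ≤ ∏ _ψ ∈ univ.erase φ, Y :=
        prod_le_prod (fun _ _ => norm_nonneg _) (fun ψ _ => h ψ)
    _ = Y ^ (univ.erase φ).card := by rw [prod_const]
    _ ≤ Y ^ (Fintype.card (K →+* ℂ)) := by
        apply pow_le_pow_right₀ hY
        exact card_le_univ _

theorem root_le (φ : K →+* ℂ) (P : (𝓞 K)[X]) (t₀ : 𝓞 K) (h0 : P.eval t₀ = 0)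
    (hlc : P.leadingCoeff ≠ 0) (Y : ℝ) (hY : 1 ≤ Y) (hP : pn (res φ) P ≤ Y) :
    tt φ t₀ 1 * ‖res φ P.leadingCoeff‖ ≤ Y := by
  have hlcY : ‖res φ P.leadingCoeff‖ ≤ Y := (coeff_le φ P _).trans hP
  by_cases hx : ‖res φ t₀‖ ≤ 1
  · have h1 : tt φ t₀ 1 = 1 := by
      unfold tt
      rw [map_one, norm_one]
      exact max_eq_right hx
    rw [h1, one_mul]
    exact hlcY
  · have hx1 : 1 < ‖res φ t₀‖ := not_le.1 hx
    have h1 : tt φ t₀ 1 = ‖res φ t₀‖ := by
      unfold tt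
      rw [map_one, norm_one]
      exact max_eq_left hx1.le
    rw [h1]
    set x := ‖res φ t₀‖ with hxdef
    set n := P.natDegree with hn
    have hn1 : 1 ≤ n := by
      by_contra hn0
      have hn0' : P.natDegree = 0 := by omega
      have h2 : P = C (P.coeff 0) := eq_C_of_natDegree_eq_zero hn0'
      rw [h2, eval_C] at h0
      apply hlc
      rw [h2, leadingCoeff_C, h0]
    have h2 : res φ (P.eval t₀) = 0 := by rw [h0, map_zero]
    rw [eval_eq_sum_range, map_sum, sum_range_succ] at h2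
    have h3 : ‖res φ P.leadingCoeff‖ * x ^ n ≤ Y * x ^ (n - 1) := by
      have h4 : res φ (P.coeff P.natDegree * t₀ ^ P.natDegree) =
          -∑ i ∈ range P.natDegree, res φ (P.coeff i * t₀ ^ i) :=
        eq_neg_of_add_eq_zero_right h2
      have h5 : ‖res φ P.leadingCoeff‖ * x ^ n = ‖res φ (P.coeff P.natDegree * t₀ ^ P.natDegree)‖ := by
        rw [map_mul, map_pow, norm_mul, norm_pow]
        rfl
      rw [h5, h4, norm_neg]
      refine (norm_sum_le _ _).trans ?_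
      have h6 : ∀ i ∈ range P.natDegree, ‖res φ (P.coeff i * t₀ ^ i)‖ ≤
          ‖res φ (P.coeff i)‖ * x ^ (n - 1) := by
        intro i hi
        rw [mem_range] at hi
        rw [map_mul, map_pow, norm_mul, norm_pow]
        exact mul_le_mul_of_nonneg_left (pow_le_pow_right₀ hx1.le (by omega)) (norm_nonneg _)
      refine (sum_le_sum h6).trans ?_
      rw [← sum_mul]
      refine mul_le_mul_of_nonneg_right (le_trans ?_ hP) (by positivity)
      unfold pn
      exact sum_le_sum_of_subset_of_nonneg (range_mono (Nat.le_succ _))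
        (fun _ _ _ => norm_nonneg _)
    have h7 : x ^ n = x ^ (n - 1) * x := by
      rw [← pow_succ]
      congr 1
      omega
    rw [h7] at h3
    have hpos : 0 < x ^ (n - 1) := by positivity
    nlinarith

end VNZ

open VNZ in
theorem prVNZ : StVNZ := by
  intro K _ _
  refine ⟨(Fintype.card (K →+* ℂ) + 1) * Fintype.card (K →+* ℂ), ?_⟩
  intro Δ Y hΔ hY hpn t₀ hT h0
  have hlc : Δ.leadingCoeff ≠ 0 := leadingCoeff_ne_zero.2 hΔ
  have h1 : ∀ φ : K →+* ℂ, tt φ t₀ 1 ≤ Y ^ (Fintype.card (K →+* ℂ) + 1) := by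
    intro φ
    have h2 := root_le φ Δ t₀ h0 hlc Y hY (hpn φ)
    have h3 := inv_le Δ.leadingCoeff hlc Y hY (fun ψ => (coeff_le ψ Δ _).trans (hpn ψ)) φ
    have htt : 0 ≤ tt φ t₀ 1 := (norm_nonneg _).trans (le_max_left _ _)
    calc tt φ t₀ 1 = tt φ t₀ 1 * 1 := (mul_one _).symm
      _ ≤ tt φ t₀ 1 * (‖res φ Δ.leadingCoeff‖ * Y ^ (Fintype.card (K →+* ℂ))) :=
          mul_le_mul_of_nonneg_left h3 htt
      _ = (tt φ t₀ 1 * ‖res φ Δ.leadingCoeff‖) * Y ^ (Fintype.card (K →+* ℂ)) := by ring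
      _ ≤ Y * Y ^ (Fintype.card (K →+* ℂ)) := mul_le_mul_of_nonneg_right h2 (by positivity)
      _ = _ := by rw [← pow_succ']
  have h4 : TT t₀ 1 ≤ (Y ^ (Fintype.card (K →+* ℂ) + 1)) ^ (Fintype.card (K →+* ℂ)) := by
    unfold TT
    refine (prod_le_prod (fun φ _ => (norm_nonneg _).trans (le_max_left _ _))
      (fun φ _ => h1 φ)).trans (le_of_eq ?_)
    rw [prod_const, card_univ]
  rw [← pow_mul] at h4
  have h5 : Y ^ ((Fintype.card (K →+* ℂ) + 1) * Fintype.card (K →+* ℂ)) ≤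
      (2 * Y) ^ ((Fintype.card (K →+* ℂ) + 1) * Fintype.card (K →+* ℂ)) :=
    pow_le_pow_left₀ (by linarith) (by linarith) _
  linarith

end Pool.Agent.Work.MP_8d13b5_lc.Fm
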