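import Pool.Agent.Work.MP_8d13b5_lc.Fm.StmtsU

set_option autoImplicit false

/-! Item VWR of the block Fm: uniform assembly of the function field part. -/

namespace Pool.Agent.Work.MP_8d13b5_lc.Fm

open Polynomial NumberField Finset Module

namespace VWR

theorem root_of_split {m : ℕ} {G : ℂ[X][X]} {E : Type} [Field E] [Algebra ℂ E]
    {D : Derivation ℤ E E} {τ : E} {lam : Fin (m + 1) → E} (h : IsDat m G D τ lam)
    (j : Fin (m + 1)) :
    (G.map ((aeval τ : ℂ[X] →ₐ[ℂ] E) : ℂ[X] →+* E)).eval (lam j) = 0 := by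
  rw [h.split, eval_prod]
  exact Finset.prod_eq_zero (Finset.mem_univ j) (by simp)

end VWR

theorem prVWR (hVFD : StVFD) (hFLD : StFLD) (hDAT : StDAT) (hELI : StELI)
    (hCNT : StCNT) (hVAN : StVAN) : StVWR := by
  intro m w
  obtain ⟨c, hc⟩ := hVFD m w
  refine ⟨(m + 1) ^ (m + 1) * (2 ^ m * (1 + (m + 1) * (w * m) + c)), ?_⟩
  intro G hm hd h0 hnc hw n L P hP hL hsum
  obtain ⟨E, hE, hA, D, τ, lam, hdat⟩ := hDAT m G hm hd h0 hnc
  obtain ⟨δ, hδ, h1, h2⟩ := hc G E D τ lam hm hd hw hdat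
  obtain ⟨a, ha, haF, hasum⟩ := hVAN m G E D τ lam w hdat hm hd n L P hP hL hsum
  obtain ⟨i, j, hij, x, y, hx, hy, hxF, hyF, hxy⟩ :=
    hELI m G E D τ lam w c δ hdat hδ h1 h2 n (L + (m + 1) * (w * m)) a ha haF hasum
  have h3 := hCNT E (m + 1) τ lam w ((m + 1) ^ (m + 1))
    (hFLD E m τ lam w G hm hd hw (VWR.root_of_split hdat)) i j (hdat.ne j) (hdat.quo i j hij) n _
    x y hx hxF hyF hxy
  refine h3.trans ?_
  rw [Nat.mul_assoc]
  refine Nat.mul_le_mul_left _ ?_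
  rw [Nat.mul_assoc]
  refine Nat.mul_le_mul_left _ ?_
  have h4 : (m + 1) * (w * m) + c ≤ ((m + 1) * (w * m) + c) * (L + 1) :=
    Nat.le_mul_of_pos_right _ (Nat.succ_pos L)
  nlinarith

end Pool.Agent.Work.MP_8d13b5_lc.Fm
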