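import Pool.Agent.Work.MP_8d13b5_lc.Fm.StmtsX

set_option autoImplicit false

/-! Item WT3 of the block `Fm`: weights. -/

namespace Pool.Agent.Work.MP_8d13b5_lc.Fm

open Polynomial NumberField Finset Module

namespace WT3

variable {k : Type} [Field k] {P : k[X]} {b : ℕ}

theorem pdp (hb : 1 ≤ b) {x y : k[X]} (h : x ^ b ∣ y ^ b) : x ∣ y :=
  (IsIntegrallyClosed.pow_dvd_pow_iff (by omega)).1 h

theorem dadd (hb : 1 ≤ b) {v : ℕ} {x y : k[X]} (hx : P ^ v ∣ x ^ b) (hy : P ^ v ∣ y ^ b) :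
    P ^ v ∣ (x + y) ^ b := by
  rw [add_pow]
  refine Finset.dvd_sum fun i hi => ?_
  refine Dvd.dvd.mul_right (pdp hb ?_) _
  have hi' : i ≤ b := by
    have := Finset.mem_range.1 hi
    omega
  have e : (P ^ v) ^ b = (P ^ v) ^ i * (P ^ v) ^ (b - i) := by
    rw [← pow_add]
    congr 1
    omega
  have e2 : (x ^ i * y ^ (b - i)) ^ b = (x ^ b) ^ i * (y ^ b) ^ (b - i) := by
    rw [mul_pow, ← pow_mul, ← pow_mul, ← pow_mul, ← pow_mul, mul_comm i b, mul_comm (b - i) b]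
  rw [e, e2]
  exact mul_dvd_mul (pow_dvd_pow_of_dvd hx _) (pow_dvd_pow_of_dvd hy _)

theorem dneg {v : ℕ} {x : k[X]} (hx : P ^ v ∣ x ^ b) : P ^ v ∣ (-x) ^ b := by
  rw [neg_pow]
  exact Dvd.dvd.mul_left hx _

theorem dmul {v w : ℕ} {x y : k[X]} (hx : P ^ v ∣ x ^ b) (hy : P ^ w ∣ y ^ b) :
    P ^ (v + w) ∣ (x * y) ^ b := by
  rw [mul_pow, pow_add]
  exact mul_dvd_mul hx hy

theorem dmono {v w : ℕ} (h : v ≤ w) {x : k[X]} (hx : P ^ w ∣ x ^ b) : P ^ v ∣ x ^ b :=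
  (pow_dvd_pow P h).trans hx

end WT3

open WT3

theorem prWT3 (h1 : StCFD) : StWT3 := by
  intro k _ m b F P hF hd hb hP
  have hFi : ∀ i ≤ m, P ^ (m + 1 - i) ∣ F.coeff i ^ b := by
    intro i hi
    obtain ⟨h2, h3⟩ := hP i hi
    have h4 := pow_dvd_pow_of_dvd h3 (m + 1 - i)
    rw [← pow_mul, Nat.div_mul_cancel h2] at h4
    exact h4
  have key : ∀ n, ∀ j ≤ m, P ^ (n - j) ∣ Pd.cf F n j ^ b := by
    intro n
    induction n with
    | zero =>
      intro j _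
      rw [Nat.zero_sub, pow_zero]
      exact one_dvd _
    | succ n ih =>
      intro j hj
      obtain ⟨r0, r1⟩ := h1.1 k[X] m F hF hd n
      rcases j with _ | j
      · rw [r0]
        refine dneg (dmono ?_ (dmul (ih m le_rfl) (hFi 0 (Nat.zero_le _))))
        omega
      · rw [r1 j (by omega), sub_eq_add_neg]
        refine dadd hb (dmono ?_ (ih j (by omega)))
          (dneg (dmono ?_ (dmul (ih m le_rfl) (hFi (j + 1) hj))))
        · omega
        · omega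
  intro n j hj
  refine pdp hb ?_
  rw [← pow_mul]
  exact (pow_dvd_pow P (Nat.div_mul_le_self _ _)).trans (key n j hj)

end Pool.Agent.Work.MP_8d13b5_lc.Fm
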