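import Pool.Agent.Work.MP_8d13b5_lc.Fm.Stmts2
import Pool.Agent.Work.MP_8d13b5_lc.Fm.I_PC

set_option autoImplicit false

/-! Block `Fm`, item DE2: the decision procedure for a general family and its subsequences. -/

namespace Pool.Agent.Work.MP_8d13b5_lc.Fm

open Polynomial NumberField Finset Module

namespace DE2

/-- the bound for the initial values of a subsequence -/
theorem val_le {p : List ℤ × List ℤ} {u : ℕ → ℤ} (hu : Pd.IsSeq p u) {N q i d : ℕ} (hq : q < N)
    (hi : i < d) : (u (q + N * i)).natAbs ≤ 2 ^ (N * (d + 1) * Pd.lsize p) := by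
  have h := PC.val_le hu hq hi
  exact_mod_cast h

/-- the inequality for the exponents -/
theorem lt_aux {T L c n : ℕ} (hT : 2 ≤ T) (hn : c * (L + 1) < n) : (2 ^ L * T) ^ c < T ^ n := by
  have h1 : 2 ^ L * T ≤ T ^ (L + 1) := by
    rw [pow_succ T L]
    exact Nat.mul_le_mul_right _ (Nat.pow_le_pow_left hT L)
  calc (2 ^ L * T) ^ c ≤ (T ^ (L + 1)) ^ c := Nat.pow_le_pow_left h1 c
    _ = T ^ (c * (L + 1)) := by rw [← pow_mul, mul_comm]
    _ < T ^ n := Nat.pow_lt_pow_right (by omega) hn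

end DE2

theorem prDE2 (hFI2 : StFI2) (hDEC : StDEC) : StDE2 := by
  intro m N F hm hN hF hdeg h0 hcop hnc
  obtain ⟨T₀', c, hT₀'⟩ := hFI2 m F hm hF hdeg h0 hcop hnc
  obtain ⟨M, hM, hM'⟩ := hDEC (PC.bd N c (m + 1)) (PC.primrec_bd N c (m + 1))
    (fun _ _ u => ∃ t : ℤ, max 2 T₀' ≤ t.natAbs ∧
      ∀ q < N, Rec (RingHom.id ℤ) (spc F t) (fun n => u (q + N * n))) (by
    rintro B p u hu ⟨t, hT, hrec⟩ ⟨n, hn⟩
    have hT2 : 2 ≤ t.natAbs := (le_max_left _ _).trans hT
    have hTT : T₀' ≤ t.natAbs := (le_max_right _ _).trans hT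
    set q := n % N with hq
    have hqN : q < N := Nat.mod_lt _ (by omega)
    have hnq : n = q + N * (n / N) := (Nat.mod_add_div n N).symm
    set n' := n / N with hn'
    set L := N * (m + 1 + 1) * Pd.lsize p with hL
    have hLs : L ≤ N * (m + 1 + 1) * (Pd.size p + 3) := Nat.mul_le_mul_left _ (Pd.lsize_le p)
    by_cases hbig : c * (L + 1) < n'
    · rcases hT₀' t hTT _ (hrec q hqN) with hz | hz
      · refine ⟨q, ?_, ?_⟩
        · show q < PC.bd N c (m + 1) (p, B)
          unfold PC.bd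
          omega
        · have h2 := hz 0
          simpa only [mul_zero, add_zero] using h2
      · exfalso
        refine hz (2 ^ L) n' (fun i hi => DE2.val_le hu hqN (by omega))
          (DE2.lt_aux hT2 hbig) ?_
        show u (q + N * n') = 0
        rw [← hnq, hn]
    · refine ⟨n, ?_, hn⟩
      show n < PC.bd N c (m + 1) (p, B)
      unfold PC.bd
      have h1 : n' ≤ c * (N * (m + 1 + 1) * (Pd.size p + 3) + 1) + B := by
        have h2 : c * (L + 1) ≤ c * (N * (m + 1 + 1) * (Pd.size p + 3) + 1) :=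
          Nat.mul_le_mul_left _ (by omega)
        omega
      have h2 : N * n' ≤ N * (c * (N * (m + 1 + 1) * (Pd.size p + 3) + 1) + B + 2) :=
        Nat.mul_le_mul_left _ (by omega)
      show n < N * (c * (N * (m + 1 + 1) * (Pd.size p + 3) + 1) + B + 2) + N
      omega)
  refine ⟨max 2 T₀', fun p => M (p, 0), hM.comp (Primrec.pair Primrec.id (Primrec.const 0)), ?_⟩
  intro p u hu h
  exact hM' 0 p u hu h

end Pool.Agent.Work.MP_8d13b5_lc.Fm
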