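import Pool.Agent.Work.MP_8d13b5_lc.Fm.StmtsX

set_option autoImplicit false

/-! Item XEE: the primitive part of the vector of the `cf_j`. -/

namespace Pool.Agent.Work.MP_8d13b5_lc.Fm

open Polynomial NumberField Finset Module

namespace XEE

/-- A monic polynomial with nonzero constant coefficient, of positive degree, does not divide a
power of `X`. -/
lemma not_dvd {R : Type*} [CommRing R] [IsDomain R] {m : ℕ} {F : R[X]} (hF : F.Monic)
    (hd : F.natDegree = m + 1) (h0 : F.coeff 0 ≠ 0) (n : ℕ) : ¬ F ∣ X ^ n := by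
  intro h
  obtain ⟨i, _, hi⟩ := (dvd_prime_pow prime_X n).1 h
  rcases Nat.eq_zero_or_pos i with h1 | h1
  · subst h1
    rw [pow_zero] at hi
    have h2 : IsUnit F := associated_one_iff_isUnit.1 hi
    have h3 := hF.eq_one_of_isUnit h2
    rw [h3, natDegree_one] at hd
    omega
  · apply h0
    rw [← X_dvd_iff]
    exact (dvd_pow_self X (by omega)).trans hi.symm.dvd

/-- The coefficients of the remainder are not all zero. -/
lemma exists_cf_ne {R : Type*} [CommRing R] [IsDomain R] {m : ℕ} {F : R[X]} (hF : F.Monic)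
    (hd : F.natDegree = m + 1) (h0 : F.coeff 0 ≠ 0) (n : ℕ) :
    ∃ j : Fin (m + 1), Pd.cf F n j ≠ 0 := by
  by_contra hcon
  push Not at hcon
  apply not_dvd hF hd h0 n
  rw [← modByMonic_eq_zero_iff_dvd hF]
  ext j
  rw [coeff_zero]
  by_cases hj : j < m + 1
  · exact hcon ⟨j, hj⟩
  · apply coeff_eq_zero_of_natDegree_lt
    have h1 : ((X ^ n : R[X]) %ₘ F).natDegree < F.natDegree := by
      apply natDegree_modByMonic_lt _ hF
      intro h2
      rw [h2, natDegree_one] at hd
      omega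
    omega

/-- The primitive part of a nonzero vector of polynomials over a field. -/
lemma primitive {K : Type*} [Field K] {m : ℕ} (c : Fin (m + 1) → K[X]) (hc : ∃ j, c j ≠ 0) :
    ∃ (G : K[X]) (E A : Fin (m + 1) → K[X]), G ≠ 0 ∧ (∀ j, c j = G * E j) ∧
      ∑ j, A j * E j = 1 ∧ G = ∑ j, A j * c j := by
  set I : Ideal K[X] := Ideal.span (Set.range c) with hI
  set G : K[X] := Submodule.IsPrincipal.generator I with hG
  have h1 : ∀ j, c j ∈ I := fun j => Ideal.subset_span ⟨j, rfl⟩
  have h2 : ∀ j, ∃ e, c j = G * e := by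
    intro j
    obtain ⟨e, he⟩ := (Submodule.IsPrincipal.mem_iff_generator_dvd I).1 (h1 j)
    exact ⟨e, he⟩
  choose E hE using h2
  have h3 : G ∈ Ideal.span (Set.range c) := Submodule.IsPrincipal.generator_mem I
  obtain ⟨A, hA⟩ := (Ideal.mem_span_range_iff_exists_fun).1 h3
  have hG0 : G ≠ 0 := by
    intro h4
    obtain ⟨j, hj⟩ := hc
    apply hj
    rw [hE j, h4, zero_mul]
  refine ⟨G, E, A, hG0, hE, ?_, hA.symm⟩
  have h4 : G * ∑ j, A j * E j = G * 1 := by
    rw [mul_one, Finset.mul_sum]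
    conv_rhs => rw [← hA]
    refine Finset.sum_congr rfl fun j _ => ?_
    rw [hE j]
    ring
  exact mul_left_cancel₀ hG0 h4

end XEE

theorem prXEE (h1 : StWT3) (h2 : StCFD) : StXEE := by
  intro K _ _ m F b θ P w r₁ r₂ hF hd h0 hP n
  obtain ⟨hb, hdvd, hP0, hr1, -, hfac, hdeg, -, -⟩ := hP
  obtain ⟨-, h22, h23, -⟩ := h2
  set φ : (𝓞 K)[X] →+* K[X] := mapRingHom (algebraMap (𝓞 K) K) with hφ
  have hinj : Function.Injective (algebraMap (𝓞 K) K) := RingOfIntegers.coe_injective
  have hφa : ∀ Q : (𝓞 K)[X], φ Q = Q.map (algebraMap (𝓞 K) K) := fun Q => rfl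
  have hnd : ∀ Q : (𝓞 K)[X], (φ Q).natDegree = Q.natDegree := fun Q =>
    natDegree_map_eq_of_injective hinj Q
  have hφ0 : ∀ Q : (𝓞 K)[X], φ Q = 0 → Q = 0 := fun Q hQ =>
    (Polynomial.map_eq_zero_iff hinj).1 hQ
  obtain ⟨j₁, hj₁⟩ := XEE.exists_cf_ne hF hd h0 n
  obtain ⟨G, E, A, hG, hE, hA, hGA⟩ := XEE.primitive
    (fun j : Fin (m + 1) => φ (Pd.cf F n j)) ⟨j₁, fun h => hj₁ (hφ0 _ h)⟩
  -- the powers of `P` which divide `G`
  have hPG : φ P ^ ((n - m) / b) ∣ G := by
    have h3 := h1 K m b (F.map φ) (φ P) (hF.map φ) (by rw [hF.natDegree_map, hd]) hb ?_ n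
    · rw [hGA]
      refine Finset.dvd_sum fun j _ => ?_
      apply Dvd.dvd.mul_left
      have hj : (j : ℕ) ≤ m := Nat.lt_succ_iff.1 j.2
      have h4 := h3 j hj
      rw [h22 (𝓞 K)[X] K[X] φ F n j hF] at h4
      refine (pow_dvd_pow _ ?_).trans h4
      exact Nat.div_le_div_right (by omega)
    · intro i hi
      refine ⟨hdvd i hi, ?_⟩
      have h4 := congrArg φ (hfac i hi)
      rw [map_mul, map_mul, map_pow, hφa (C r₁), map_C] at h4
      have hu : IsUnit (C (algebraMap (𝓞 K) K r₁)) := by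
        rw [isUnit_C, isUnit_iff_ne_zero]
        intro h5
        apply hr1
        apply hinj
        rw [h5, map_zero]
      rw [coeff_map]
      have h5 : φ P ∣ C (algebraMap (𝓞 K) K r₁) * φ (F.coeff i) ^ (b / (m + 1 - i)) :=
        ⟨φ (w i), h4⟩
      exact (hu.dvd_mul_left).1 h5
  -- degrees
  have hcoef : ∀ i ≤ m, b * (F.coeff i).natDegree ≤ (θ + P.natDegree) * (m + 1 - i) := by
    intro i hi
    by_cases hFi : F.coeff i = 0
    · rw [hFi, natDegree_zero, mul_zero]
      exact Nat.zero_le _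
    · have h4 := congrArg natDegree (hfac i hi)
      rw [natDegree_C_mul hr1, natDegree_pow] at h4
      have h5 : (P * w i).natDegree ≤ P.natDegree + (w i).natDegree := natDegree_mul_le
      have h6 := hdeg i hi
      have h7 : b / (m + 1 - i) * (F.coeff i).natDegree ≤ θ + P.natDegree := by omega
      have h8 : b = b / (m + 1 - i) * (m + 1 - i) := (Nat.div_mul_cancel (hdvd i hi)).symm
      calc b * (F.coeff i).natDegree = b / (m + 1 - i) * (m + 1 - i) * (F.coeff i).natDegree := by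
            rw [← h8]
        _ = (b / (m + 1 - i) * (F.coeff i).natDegree) * (m + 1 - i) := by ring
        _ ≤ (θ + P.natDegree) * (m + 1 - i) := Nat.mul_le_mul_right _ h7
  have hcf : ∀ j : Fin (m + 1), b * (Pd.cf F n j).natDegree ≤ (θ + P.natDegree) * n := by
    intro j
    exact h23 (𝓞 K) m (θ + P.natDegree) b F hF hd hcoef n j (Nat.lt_succ_iff.1 j.2)
  obtain ⟨j₀, -, hj₀⟩ := Finset.exists_max_image (Finset.univ : Finset (Fin (m + 1)))
    (fun j => (E j).natDegree) Finset.univ_nonempty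
  refine ⟨(E j₀).natDegree, G, E, A, hG, fun j => hE j, hA, fun j => hj₀ j (Finset.mem_univ j),
    ⟨j₀, le_rfl⟩, ?_⟩
  by_cases hE0 : E j₀ = 0
  · rw [hE0, natDegree_zero, mul_zero]
    exact Nat.zero_le _
  · have h4 : (Pd.cf F n j₀).natDegree = G.natDegree + (E j₀).natDegree := by
      rw [← hnd, hE j₀, natDegree_mul hG hE0]
    have h5 := hcf j₀
    rw [h4] at h5
    have h6 : (n - m) / b * P.natDegree ≤ G.natDegree := by
      have h7 := natDegree_le_of_dvd hPG hG
      rw [natDegree_pow, hnd] at h7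
      exact h7
    have h7 : n ≤ b * ((n - m) / b) + b + m := by
      have h8 := Nat.lt_mul_div_succ (n - m) (show 0 < b by omega)
      rw [Nat.mul_add] at h8
      omega
    set v := (n - m) / b with hv
    set d := P.natDegree with hdd
    have h9 : b * (v * d) ≤ b * G.natDegree := Nat.mul_le_mul_left _ h6
    have h10 : d * n ≤ d * (b * v + b + m) := Nat.mul_le_mul_left _ h7
    nlinarith

end Pool.Agent.Work.MP_8d13b5_lc.Fm
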