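import Pool.Agent.Work.MP_8d13b5_lc.Fm.Stmts2
import Pool.Agent.Work.MP_8d13b5_lc.Fm.I_PD

set_option autoImplicit false

/-! Block `Fm`, item FI2 (helper57): general families over the rational integers. -/

namespace Pool.Agent.Work.MP_8d13b5_lc.Fm

open Polynomial NumberField Finset Module

namespace FI2

/-- the embedding of the integers in the ring of integers of `ℚ` -/
noncomputable def io : ℤ →+* 𝓞 ℚ := Int.castRingHom (𝓞 ℚ)

theorem io_apply (x : ℤ) : io x = ((x : ℤ) : 𝓞 ℚ) := rfl

theorem io_inj : Function.Injective io := Int.cast_injective (α := 𝓞 ℚ)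

theorem mio_inj : Function.Injective (mapRingHom io) := map_injective io io_inj

/-- the hypotheses over `ℤ` give the structure over `ℚ` -/
theorem crv {m : ℕ} {F : ℤ[X][X]} (hmon : F.Monic) (hdeg : F.natDegree = m + 1)
    (h0 : F.coeff 0 ≠ 0)
    (hcop : ∃ c : ℤ, c ≠ 0 ∧ ∃ A : Fin (m + 1) → ℤ[X], ∑ i, A i * F.coeff (i : ℕ) = C c)
    (hnc : NonConst (F.map (mapRingHom (Int.castRingHom ℂ)))) :
    IsCrv m (F.map (mapRingHom io)) := by
  refine ⟨hmon.map _, by rw [hmon.natDegree_map, hdeg], ?_, ?_, ?_⟩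
  · rw [coeff_map]
    exact fun h => h0 (mio_inj (by rw [h, map_zero]))
  · obtain ⟨c, hc, A, hA⟩ := hcop
    refine ⟨io c, fun h => hc (io_inj (by rw [h, map_zero])), fun i => (A i).map io, ?_⟩
    have h1 := congrArg (mapRingHom io) hA
    rw [map_sum, coe_mapRingHom, map_C] at h1
    rw [← h1]
    refine sum_congr rfl fun i _ => ?_
    rw [coeff_map, Polynomial.map_mul]
    rfl
  · refine ⟨algebraMap ℚ ℂ, ?_⟩
    have h1 : (F.map (mapRingHom io)).map (mapRingHom (res (algebraMap ℚ ℂ))) =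
        F.map (mapRingHom (Int.castRingHom ℂ)) := by
      rw [Polynomial.map_map]
      congr 1
      rw [mapRingHom_comp]
      congr 1
    rw [h1]
    exact hnc

/-- the specialisations over `ℚ` are those over `ℤ` -/
theorem spc_io (F : ℤ[X][X]) (t : ℤ) :
    spc (F.map (mapRingHom io)) (io t) = (spc F t).map io := by
  unfold spc
  rw [Polynomial.map_map, Polynomial.map_map]
  congr 1
  ext <;> simp

theorem spc_monic {F : ℤ[X][X]} (hmon : F.Monic) (t : ℤ) : (spc F t).Monic := hmon.map _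

theorem spc_deg {F : ℤ[X][X]} (hmon : F.Monic) (t : ℤ) : (spc F t).natDegree = F.natDegree :=
  hmon.natDegree_map _

end FI2

open FI2 in
theorem prFI2 (hSQ2 : StSQ2) (hINT : StINT) : StFI2 := by
  intro m F hm hmon hdeg h0 hcop hnc
  obtain ⟨T₀, c, hT₀, hmain⟩ := hSQ2 ℚ m (F.map (mapRingHom io)) hm (crv hmon hdeg h0 hcop hnc)
  refine ⟨max ⌈T₀⌉₊ 1, c, fun t ht u hrec => ?_⟩
  have ht0 : ⌈T₀⌉₊ ≤ t.natAbs := (le_max_left _ _).trans ht
  have ht1 : 1 ≤ t.natAbs := (le_max_right _ _).trans ht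
  have hmx : mx t 1 = t.natAbs := by
    unfold mx
    rw [Int.natAbs_one]
    exact max_eq_left ht1
  have hTT : TT (io t) 1 = (t.natAbs : ℝ) := by
    have h1 := (hINT ℚ t 1).2.1
    rw [hmx, Module.finrank_self, pow_one, Int.cast_one] at h1
    exact h1
  have hT : T₀ ≤ TT (io t) 1 := by
    rw [hTT]
    exact (Nat.le_ceil T₀).trans (by exact_mod_cast ht0)
  by_cases hu : ∀ n, u n = 0
  · exact Or.inl hu
  refine Or.inr fun B n hB hlt hn => hu ?_
  rcases Nat.eq_zero_or_pos B with hB0 | hB1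
  · -- zero initial values
    intro k
    refine PD.zero_of_init _ _ (spc_monic hmon t) _ hrec (fun i hi => ?_) k
    rw [spc_deg hmon, hdeg] at hi
    have h2 := hB i (by omega)
    rw [hB0, Nat.le_zero, Int.natAbs_eq_zero] at h2
    exact h2
  · have hBR : (1 : ℝ) ≤ B := by exact_mod_cast hB1
    have hrec' : Rec (RingHom.id (𝓞 ℚ)) (spc (F.map (mapRingHom io)) (io t)) fun k => io (u k) := by
      intro k
      have h1 := congrArg io (hrec k)
      rw [map_sum, map_zero] at h1
      rw [spc_io, (spc_monic hmon t).natDegree_map]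
      rw [← h1]
      refine sum_congr rfl fun i _ => ?_
      rw [coeff_map, map_mul]
      rfl
    have hz := hmain (io t) hT (fun k => io (u k)) B hrec' hBR (fun φ i hi => by
      rw [io_apply, map_intCast, Complex.norm_intCast]
      have h3 : |(u i : ℝ)| = ((u i).natAbs : ℝ) := by
        rw [Nat.cast_natAbs, Int.cast_abs]
      rw [h3]
      exact_mod_cast hB i hi) n (by
      rw [hTT]
      exact_mod_cast hlt) (by
      show io (u n) = 0
      rw [hn, map_zero])
    intro k
    exact io_inj (by rw [hz k, map_zero])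

end Pool.Agent.Work.MP_8d13b5_lc.Fm
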