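import Pool.Agent.Work.MP_8d13b5_lc.Fm.StmtsX
import Pool.Agent.Work.MP_8d13b5_lc.Fm.I_FI2
import Pool.Agent.Work.MP_8d13b5_lc.Fm.I_INT

set_option autoImplicit false

/-! Block `Fm`, item XFI (helper57): general families over the rational integers, uniform version
without the condition `cop`. -/

namespace Pool.Agent.Work.MP_8d13b5_lc.Fm

open Polynomial NumberField Finset Module

namespace XFI

open FI2

/-- the hypotheses over `ℤ` give the structure over `ℚ`, with the size -/
theorem crv0 {m σ H : ℕ} {F : ℤ[X][X]} (h : IsI0 m σ H F) :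
    IsCr0H m σ (((σ + 1) * H : ℕ) : ℝ) (F.map (mapRingHom io)) := by
  have hdg : ∀ i ≤ m, ((F.map (mapRingHom io)).coeff i).natDegree ≤ σ := fun i hi => by
    rw [coeff_map, coe_mapRingHom]
    exact natDegree_map_le.trans (h.dg i hi)
  refine ⟨⟨h.monic.map _, by rw [h.monic.natDegree_map, h.deg], ?_, ?_⟩, ?_, hdg,
    fun φ i hi => ?_⟩
  · rw [coeff_map]
    exact fun h' => h.ne (mio_inj (by rw [h', map_zero]))
  · refine ⟨algebraMap ℚ ℂ, ?_⟩
    have h1 : (F.map (mapRingHom io)).map (mapRingHom (res (algebraMap ℚ ℂ))) =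
        F.map (mapRingHom (Int.castRingHom ℂ)) := by
      rw [Polynomial.map_map]
      congr 1
      rw [mapRingHom_comp]
      congr 1
    rw [h1]
    exact h.rat
  · have : 1 ≤ (σ + 1) * H := Nat.one_le_iff_ne_zero.2 (Nat.mul_ne_zero (by omega) (by
      have := h.one
      omega))
    exact_mod_cast this
  · unfold pn
    have h1 : ∀ j, ‖res φ (((F.map (mapRingHom io)).coeff i).coeff j)‖ ≤ (H : ℝ) := fun j => by
      rw [coeff_map, coe_mapRingHom, coeff_map, io_apply, map_intCast, Complex.norm_intCast]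
      have h3 : |(((F.coeff i).coeff j : ℤ) : ℝ)| = (((F.coeff i).coeff j).natAbs : ℝ) := by
        rw [Nat.cast_natAbs, Int.cast_abs]
      rw [h3]
      exact_mod_cast h.ht i hi j
    calc ∑ j ∈ range (((F.map (mapRingHom io)).coeff i).natDegree + 1),
          ‖res φ (((F.map (mapRingHom io)).coeff i).coeff j)‖
        ≤ ∑ j ∈ range (((F.map (mapRingHom io)).coeff i).natDegree + 1), (H : ℝ) :=
          sum_le_sum fun j _ => h1 j
      _ = ((((F.map (mapRingHom io)).coeff i).natDegree + 1 : ℕ) : ℝ) * H := by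
          rw [sum_const, card_range, nsmul_eq_mul]
      _ ≤ (((σ + 1) * H : ℕ) : ℝ) := by
          have := Nat.mul_le_mul_right H (Nat.add_le_add_right (hdg i hi) 1)
          exact_mod_cast this

end XFI

open FI2 XFI in
theorem prXFI (h1 : StXSQ) : StXFI := by
  intro m σ hm
  obtain ⟨c, hc1, hmain⟩ := h1 ℚ m σ hm
  have hcc : c ≤ c * (σ + 1) := Nat.le_mul_of_pos_right c (by omega)
  refine ⟨c * (σ + 1), hc1.trans hcc, fun H F hF t ht u hrec => ?_⟩
  have hH1 : 1 ≤ H := hF.one
  have hcH : 1 ≤ c * (σ + 1) * H := Nat.one_le_iff_ne_zero.2 (Nat.mul_ne_zero (by omega) (by omega))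
  have ht' : (c * (σ + 1) * H) ^ c ≤ t.natAbs :=
    (Nat.pow_le_pow_right hcH hcc).trans ht
  have ht1 : 1 ≤ t.natAbs := (Nat.one_le_pow _ _ hcH).trans ht'
  have hmx : mx t 1 = t.natAbs := by
    unfold mx
    rw [Int.natAbs_one]
    exact max_eq_left ht1
  have hTT : TT (io t) 1 = (t.natAbs : ℝ) := by
    have h1 := (prINT ℚ t 1).2.1
    rw [hmx, Module.finrank_self, pow_one, Int.cast_one] at h1
    exact h1
  have hT : ((c : ℝ) * (((σ + 1) * H : ℕ) : ℝ)) ^ c ≤ TT (io t) 1 := by
    rw [hTT]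
    have e : c * ((σ + 1) * H) = c * (σ + 1) * H := by ring
    rw [← e] at ht'
    exact_mod_cast ht'
  by_cases hu : ∀ n, u n = 0
  · exact Or.inl hu
  refine Or.inr fun B n hB hlt hn => hu ?_
  rcases Nat.eq_zero_or_pos B with hB0 | hB1
  · -- zero initial values
    intro k
    refine PD.zero_of_init _ _ (spc_monic hF.monic t) _ hrec (fun i hi => ?_) k
    rw [spc_deg hF.monic, hF.deg] at hi
    have h2 := hB i (by omega)
    rw [hB0, Nat.le_zero, Int.natAbs_eq_zero] at h2
    exact h2
  · have hBR : (1 : ℝ) ≤ B := by exact_mod_cast hB1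
    have hlt' : (B * t.natAbs) ^ c < t.natAbs ^ n :=
      (Nat.pow_le_pow_right (Nat.mul_pos hB1 ht1) hcc).trans_lt hlt
    have hrec' : Rec (RingHom.id (𝓞 ℚ)) (spc (F.map (mapRingHom io)) (io t)) fun k => io (u k) := by
      intro k
      have h1 := congrArg io (hrec k)
      rw [map_sum, map_zero] at h1
      rw [spc_io, (spc_monic hF.monic t).natDegree_map]
      rw [← h1]
      refine sum_congr rfl fun i _ => ?_
      rw [coeff_map, map_mul]
      rfl
    have hz := hmain _ _ (crv0 hF) (io t) hT (fun k => io (u k)) B hrec' hBR (fun φ i hi => by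
      rw [io_apply, map_intCast, Complex.norm_intCast]
      have h3 : |(u i : ℝ)| = ((u i).natAbs : ℝ) := by
        rw [Nat.cast_natAbs, Int.cast_abs]
      rw [h3]
      exact_mod_cast hB i hi) n (by
      rw [hTT]
      exact_mod_cast hlt') (by
      show io (u n) = 0
      rw [hn, map_zero])
    intro k
    exact io_inj (by rw [hz k, map_zero])

end Pool.Agent.Work.MP_8d13b5_lc.Fm
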