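import Pool.Agent.Work.MP_8d13b5_lc.Fm.StmtsX
import Pool.Agent.Work.MP_8d13b5_lc.Fm.I_GRE

set_option autoImplicit false

/-! Item XG2 of the block `Fm` (uniform version without the condition `cop`, helper57; after
`I_GG2.lean` of helper16): the greedy construction of independent relations. -/

namespace Pool.Agent.Work.MP_8d13b5_lc.Fm

open Polynomial NumberField Finset Module

namespace XG2

theorem pn_nonneg {R : Type} [CommRing R] (φ : R →+* ℂ) (P : R[X]) : 0 ≤ pn φ P :=
  Finset.sum_nonneg fun _ _ => norm_nonneg _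

/-- The syzygies do not change when the vector is multiplied by a polynomial. -/
theorem syz_mul {k : Type} [Field k] {l : ℕ} (E : Fin l → k[X]) (G : k[X]) (hG : G ≠ 0) (L : ℕ) :
    Syz (fun j => G * E j) L = Syz E L := by
  ext P
  have e : ∑ j, P j * (G * E j) = G * ∑ j, P j * E j := by
    rw [mul_sum]
    exact sum_congr rfl fun j _ => by ring
  constructor
  · rintro ⟨h1, h2⟩
    refine ⟨h1, ?_⟩
    have h3 : ∑ j, P j * (G * E j) = 0 := h2
    rw [e] at h3
    exact (mul_eq_zero.1 h3).resolve_left hG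
  · rintro ⟨h1, h2⟩
    refine ⟨h1, ?_⟩
    show ∑ j, P j * (G * E j) = 0
    rw [e, h2, mul_zero]

end XG2

open GRE XG2 in
theorem prXG2 (hGAP : StGAP) (hVWR : StVWR) (hVG1 : StVG1) (hCFD : StCFD) : StXG2 := by
  intro K _ _ m σ hm
  obtain ⟨cW, hcW⟩ := hVWR m σ
  refine ⟨cW, fun N₁ hN₁ => ?_⟩
  obtain ⟨C₁, s, hC₁, G1⟩ := hVG1 K m σ N₁ hN₁
  refine ⟨C₁ * (m + 2), s, ?_, ?_⟩
  · have h2 : (1 : ℝ) ≤ (m : ℝ) + 2 := by
      have : (0 : ℝ) ≤ m := Nat.cast_nonneg m
      linarith
    nlinarith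
  intro H F hF n hn D G₀ E hG₀ hE0 hcf hED
  set Λ : ℝ := (m + 2) * H with hΛd
  have hH1 : 1 ≤ H := hF.one
  have hΛ : 1 ≤ Λ := by
    have : (0 : ℝ) ≤ m := Nat.cast_nonneg m
    rw [hΛd]
    nlinarith
  obtain ⟨φ₀, hφ₀⟩ := hF.crv.rat
  have hres : Function.Injective (res φ₀) := by
    unfold res
    exact (φ₀.injective).comp (FaithfulSMul.algebraMap_injective (𝓞 K) K)
  set G : ℂ[X][X] := F.map (mapRingHom (res φ₀)) with hG
  have hG0 : G.coeff 0 ≠ 0 := by
    rw [hG, coeff_map, coe_mapRingHom]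
    intro h
    exact hF.crv.ne (Polynomial.map_injective _ hres (by rw [h, Polynomial.map_zero]))
  have hGdeg : ∀ i, (G.coeff i).natDegree ≤ σ := by
    intro i
    rcases le_or_gt i m with hi | hi
    · rw [hG, coeff_map, coe_mapRingHom]
      exact natDegree_map_le.trans (hF.dg i hi)
    · rcases eq_or_lt_of_le (Nat.succ_le_of_lt hi) with h | h
      · have h1 : G.coeff i = 1 := by
          have h2 : i = G.natDegree := by
            rw [hG, hF.crv.monic.natDegree_map, hF.crv.deg]
            exact h.symm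
          rw [h2, coeff_natDegree]
          exact hF.crv.monic.map _
        rw [h1, natDegree_one]
        exact Nat.zero_le _
      · rw [coeff_eq_zero_of_natDegree_lt, natDegree_zero]
        · exact Nat.zero_le _
        · rw [hG, hF.crv.monic.natDegree_map, hF.crv.deg]
          exact h
  have hW := hcW G (hF.crv.monic.map _) (by rw [hG, hF.crv.monic.natDegree_map, hF.crv.deg])
    hG0 hφ₀ hGdeg
  have hdeg : ∀ j : Fin (m + 1), (Pd.cf F n j).natDegree ≤ σ * n := by
    intro j
    have h1 := hCFD.2.2.1 (𝓞 K) m σ 1 F hF.crv.monic hF.crv.deg (fun i hi => by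
      rw [one_mul]
      exact (hF.dg i hi).trans (Nat.le_mul_of_pos_right _ (by omega))) n j
        (by have := j.2; omega)
    rwa [one_mul] at h1
  set ψ := algebraMap (𝓞 K) K with hψ
  obtain ⟨j₀, -, hj₀⟩ := Finset.exists_max_image (univ : Finset (Fin (m + 1)))
    (fun j => (E j).natDegree) ⟨0, mem_univ _⟩
  have hEdeg : ∀ j, (E j).natDegree ≤ (E j₀).natDegree := fun j => hj₀ j (mem_univ j)
  have hj₀σ : (E j₀).natDegree ≤ σ * n := by
    by_cases hz : E j₀ = 0
    · rw [hz, natDegree_zero]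
      exact Nat.zero_le _
    · have h1 : ((Pd.cf F n j₀).map ψ).natDegree = G₀.natDegree + (E j₀).natDegree := by
        rw [hcf j₀, natDegree_mul hG₀ hz]
      have h2 : ((Pd.cf F n j₀).map ψ).natDegree ≤ σ * n := natDegree_map_le.trans (hdeg j₀)
      omega
  obtain ⟨ℓ, hsum, hP, hgap⟩ := hGAP K m (E j₀).natDegree E hE0 hEdeg
  have hcf' : (fun j : Fin (m + 1) => (Pd.cf F n j).map ψ) = fun j => G₀ * E j :=
    funext fun j => hcf j
  have hSyz : ∀ L, Syz (fun j : Fin (m + 1) => (Pd.cf F n j).map ψ) L = Syz E L := fun L => by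
    rw [hcf']
    exact syz_mul E G₀ hG₀ L
  have hℓ : ∀ i, ℓ i ≤ σ * n := fun i =>
    ((Finset.single_le_sum (f := ℓ) (fun _ _ => Nat.zero_le _) (mem_univ i)).trans hsum).trans
      hj₀σ
  have hlow : ∀ i, n ≤ cW * (ℓ i + 1) := by
    intro i
    obtain ⟨P, hPS, hP0⟩ := hP i
    rw [← hSyz] at hPS
    obtain ⟨hP1, hP2⟩ := hPS
    refine hW n (ℓ i) (fun j => (P j).map φ₀) ?_ (fun j => natDegree_map_le.trans (hP1 j)) ?_
    · intro h
      apply hP0
      funext j
      have h1 := congr_fun h j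
      exact Polynomial.map_injective _ φ₀.injective (by
        rw [Pi.zero_apply, Polynomial.map_zero]; exact h1)
    · have h1 := congr_arg (Polynomial.map φ₀) hP2
      rw [Polynomial.map_sum, Polynomial.map_zero] at h1
      refine Eq.trans (Finset.sum_congr rfl fun j _ => ?_) h1
      rw [Polynomial.map_mul, hG, hCFD.2.1 (𝓞 K)[X] ℂ[X] (mapRingHom (res φ₀)) F n j
        hF.crv.monic]
      simp only [coe_mapRingHom, Polynomial.map_map]
      rfl
  have hpn : ∀ (φ : K →+* ℂ) (j : Fin (m + 1)), pn (res φ) (Pd.cf F n j) ≤ Λ ^ n := by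
    intro φ j
    refine (hCFD.2.2.2 (𝓞 K) m F (res φ) hF.crv.monic hF.crv.deg n j
      (by have := j.2; omega)).trans ?_
    refine pow_le_pow_left₀ (add_nonneg zero_le_one
      (Finset.sum_nonneg fun _ _ => XG2.pn_nonneg _ _)) ?_ n
    have h1 : ∑ i ∈ range (m + 1), pn (res φ) (F.coeff i) ≤ ∑ i ∈ range (m + 1), H :=
      sum_le_sum fun i hi => hF.ht φ i (by
        have := mem_range.1 hi
        omega)
    rw [sum_const, card_range, nsmul_eq_mul] at h1
    push_cast at h1
    rw [hΛd]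
    linarith
  have key : ∀ (k : ℕ) (hk : k ≤ m), ∃ Q : Fin k → Fin (m + 1) → (𝓞 K)[X],
      LinearIndependent K[X] (fun s j => (Q s j).map ψ : Fin k → Fin (m + 1) → K[X]) ∧
      (∀ s, ∑ j, Q s j * Pd.cf F n j = 0) ∧
      (∀ s j, (Q s j).natDegree ≤ ℓ (Fin.castLE hk s) + n / N₁) ∧
      ∀ (φ : K →+* ℂ) t j, pn (res φ) (Q t j) ≤ ((C₁ * Λ) ^ s) ^ n := by
    intro k
    induction k with
    | zero =>
      intro _
      exact ⟨fun s => Fin.elim0 s, linearIndependent_empty_type, fun s => Fin.elim0 s,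
        fun s => Fin.elim0 s, fun _ s => Fin.elim0 s⟩
    | succ k ih =>
      intro hk
      obtain ⟨Q, hQ1, hQ2, hQ3, hQ4⟩ := ih (by omega)
      have hg := hgap ⟨k, hk⟩ k (fun s j => (Q s j).map ψ) le_rfl (n / N₁)
      rw [← hSyz] at hg
      obtain ⟨P, hP1, hP2, hP3, hP4⟩ := G1 Λ hΛ n hn (fun j => Pd.cf F n j) hdeg hpn
        (ℓ ⟨k, hk⟩) k (fun s j => (Q s j).map ψ) (hℓ _) hg
      refine ⟨(Fin.snoc Q P : Fin (k + 1) → Fin (m + 1) → (𝓞 K)[X]), ?_, ?_, ?_, ?_⟩
      · have h1 : (fun s j => ((Fin.snoc Q P : Fin (k + 1) → Fin (m + 1) → (𝓞 K)[X]) s j).map ψ :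
            Fin (k + 1) → Fin (m + 1) → K[X]) =
            (Fin.snoc (fun s j => (Q s j).map ψ : Fin k → Fin (m + 1) → K[X])
              (fun j => (P j).map ψ) : Fin (k + 1) → Fin (m + 1) → K[X]) := by
          funext s
          refine Fin.lastCases ?_ (fun s => ?_) s
          · simp only [Fin.snoc_last]
          · simp only [Fin.snoc_castSucc]
        rw [h1]
        apply indep_snoc _ _ hQ1
        intro c hc hmem
        exact hP4 ⟨c, hc, hmem⟩
      · intro s
        refine Fin.lastCases ?_ (fun s => ?_) s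
        · simp only [Fin.snoc_last]
          exact hP1
        · simp only [Fin.snoc_castSucc]
          exact hQ2 s
      · intro s
        refine Fin.lastCases ?_ (fun s => ?_) s
        · intro j
          simp only [Fin.snoc_last]
          exact hP2 j
        · intro j
          simp only [Fin.snoc_castSucc]
          exact hQ3 s j
      · intro φ t
        refine Fin.lastCases ?_ (fun t => ?_) t
        · intro j
          simp only [Fin.snoc_last]
          exact hP3 φ j
        · intro j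
          simp only [Fin.snoc_castSucc]
          exact hQ4 φ t j
  obtain ⟨Q, hQ1, hQ2, hQ3, hQ4⟩ := key m le_rfl
  refine ⟨ℓ, Q, hsum.trans (hED j₀), hlow, hℓ, ?_, hQ2, fun i j => hQ3 i j, fun φ i j => ?_⟩
  · rw [Fintype.linearIndependent_iff] at hQ1 ⊢
    intro g hg i
    have h1 := hQ1 (fun s => (g s).map ψ) (by
      funext j
      have h2 := congr_fun hg j
      rw [Finset.sum_apply] at h2 ⊢
      simp only [Pi.smul_apply, smul_eq_mul, Pi.zero_apply] at h2 ⊢
      have h3 := congr_arg (Polynomial.map ψ) h2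
      rw [Polynomial.map_sum, Polynomial.map_zero] at h3
      simpa only [Polynomial.map_mul] using h3) i
    exact map_inj (by rw [h1, Polynomial.map_zero])
  · refine (hQ4 φ i j).trans (le_of_eq ?_)
    rw [hΛd, mul_assoc]

end Pool.Agent.Work.MP_8d13b5_lc.Fm
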