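import Pool.Agent.Work.MP_8d13b5_lc.Fm.StmtsX
import Pool.Agent.Work.MP_8d13b5_lc.Fm.I_FI2
import Pool.Agent.Work.MP_8d13b5_lc.Fm.I_INT

set_option autoImplicit false

/-! Block `Fm`, item XIZ (helper54): families over the rational integers, the inequality of XTH. -/

namespace Pool.Agent.Work.MP_8d13b5_lc.Fm

open Polynomial NumberField Finset Module

namespace XIZ

open FI2

/-- the size of an integer at an embedding -/
theorem norm_io (φ : ℚ →+* ℂ) (x : ℤ) : ‖res φ (io x)‖ = (x.natAbs : ℝ) :=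
  INT.res_int φ x

/-- the hypotheses over `ℤ` give the structure over `ℚ`, with the size -/
theorem crv0H {m σ H : ℕ} {F : ℤ[X][X]} (h : IsI0 m σ H F) :
    IsCr0H m σ (((σ + 1) * H : ℕ) : ℝ) (F.map (mapRingHom io)) := by
  have hdg : ∀ i ≤ m, ((F.map (mapRingHom io)).coeff i).natDegree ≤ σ := fun i hi => by
    rw [coeff_map, coe_mapRingHom]
    exact natDegree_map_le.trans (h.dg i hi)
  refine ⟨⟨h.monic.map _, by rw [h.monic.natDegree_map, h.deg], ?_, ?_⟩, ?_, hdg,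
    fun φ i hi => ?_⟩
  · rw [coeff_map]
    exact fun h1 => h.ne (mio_inj (by rw [h1, map_zero]))
  · refine ⟨algebraMap ℚ ℂ, ?_⟩
    have h1 : (F.map (mapRingHom io)).map (mapRingHom (res (algebraMap ℚ ℂ))) =
        F.map (mapRingHom (Int.castRingHom ℂ)) := by
      rw [Polynomial.map_map]
      congr 1
      rw [mapRingHom_comp]
      congr 1
    rw [h1]
    exact h.rat
  · have : 1 ≤ (σ + 1) * H := Nat.one_le_iff_ne_zero.2 (Nat.mul_ne_zero (by omega) (by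
      have := h.one
      omega))
    exact_mod_cast this
  · unfold pn
    have h1 : ∀ j, ‖res φ (((F.map (mapRingHom io)).coeff i).coeff j)‖ ≤ (H : ℝ) := fun j => by
      rw [coeff_map, coe_mapRingHom, coeff_map, norm_io]
      exact_mod_cast h.ht i hi j
    calc ∑ j ∈ range (((F.map (mapRingHom io)).coeff i).natDegree + 1),
          ‖res φ (((F.map (mapRingHom io)).coeff i).coeff j)‖
        ≤ ∑ j ∈ range (((F.map (mapRingHom io)).coeff i).natDegree + 1), (H : ℝ) :=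
          sum_le_sum fun j _ => h1 j
      _ = ((((F.map (mapRingHom io)).coeff i).natDegree + 1 : ℕ) : ℝ) * H := by
          rw [sum_const, card_range, nsmul_eq_mul]
      _ ≤ (((σ + 1) * H : ℕ) : ℝ) := by
          have := Nat.mul_le_mul_right H (Nat.add_le_add_right (hdg i hi) 1)
          exact_mod_cast this

/-- the coordinates of the powers commute with ring homomorphisms -/
theorem cf_map {R S : Type} [CommRing R] [CommRing S] (ψ : R →+* S) (F : R[X]) (hF : F.Monic)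
    (n j : ℕ) : Pd.cf (F.map ψ) n j = ψ (Pd.cf F n j) := by
  unfold Pd.cf
  rw [← coeff_map, map_modByMonic ψ hF, Polynomial.map_pow, map_X]

/-- there is one embedding of `ℚ` -/
theorem card_one : (univ : Finset (ℚ →+* ℂ)).card = 1 := by
  rw [card_univ, NumberField.Embeddings.card, Module.finrank_self]

end XIZ

open FI2 XIZ in
theorem prXIZ (hXTH : StXTH) : StXIZ := by
  intro m σ hm
  obtain ⟨C₁, s, c₀, κ, hC₁, hmain⟩ := hXTH ℚ m σ hm
  set c : ℕ := ⌈C₁⌉₊ * (σ + 1) + s + c₀ + κ + 1 with hc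
  refine ⟨c, by omega, fun H F hF t ht n a ha hrel => ?_⟩
  have hH1 : 1 ≤ H := hF.one
  have hcH : 1 ≤ c * H := Nat.one_le_iff_ne_zero.2 (Nat.mul_ne_zero (by omega) (by omega))
  have ht1 : 1 ≤ t.natAbs := (Nat.one_le_pow _ _ hcH).trans ht
  have htR : (1 : ℝ) ≤ t.natAbs := by exact_mod_cast ht1
  have hcHR : (1 : ℝ) ≤ (c : ℝ) * H := by exact_mod_cast hcH
  have hTT : TT (io t) 1 = (t.natAbs : ℝ) := by
    unfold TT tt
    have h1 : ∀ φ : ℚ →+* ℂ, max ‖res φ (io t)‖ ‖res φ 1‖ = (t.natAbs : ℝ) := fun φ => by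
      rw [norm_io, map_one, norm_one]
      exact max_eq_left htR
    rw [prod_congr rfl fun φ _ => h1 φ, prod_const, card_one, pow_one]
  have hHH : HH (fun j => io (a j)) = ((∑ j, (a j).natAbs : ℕ) : ℝ) := by
    unfold HH
    have h1 : ∀ φ : ℚ →+* ℂ, ∑ j, ‖res φ (io (a j))‖ = ((∑ j, (a j).natAbs : ℕ) : ℝ) := fun φ => by
      rw [Nat.cast_sum]
      exact sum_congr rfl fun j _ => norm_io φ (a j)
    rw [prod_congr rfl fun φ _ => h1 φ, prod_const, card_one, pow_one]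
  have hbase : C₁ * (((σ + 1) * H : ℕ) : ℝ) ≤ (c : ℝ) * H := by
    have h1 : C₁ ≤ (⌈C₁⌉₊ : ℝ) := Nat.le_ceil C₁
    have h2 : ⌈C₁⌉₊ * (σ + 1) ≤ c := by omega
    have h3 : ((⌈C₁⌉₊ * (σ + 1) : ℕ) : ℝ) ≤ (c : ℝ) := by exact_mod_cast h2
    push_cast at h3 ⊢
    have h4 : (0 : ℝ) ≤ H := Nat.cast_nonneg H
    have h5 : (0 : ℝ) ≤ (σ : ℝ) + 1 := by positivity
    calc C₁ * (((σ : ℝ) + 1) * H) = (C₁ * ((σ : ℝ) + 1)) * H := by ring
      _ ≤ ((⌈C₁⌉₊ : ℝ) * ((σ : ℝ) + 1)) * H := by gcongr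
      _ ≤ (c : ℝ) * H := by gcongr
  have hb0 : 0 ≤ C₁ * (((σ + 1) * H : ℕ) : ℝ) := by positivity
  have hpow : (C₁ * (((σ + 1) * H : ℕ) : ℝ)) ^ s ≤ ((c : ℝ) * H) ^ c :=
    (pow_le_pow_left₀ hb0 hbase s).trans (pow_le_pow_right₀ hcHR (by omega))
  have hT : (C₁ * (((σ + 1) * H : ℕ) : ℝ)) ^ s ≤ TT (io t) 1 := by
    rw [hTT]
    refine hpow.trans ?_
    exact_mod_cast ht
  have hcf : ∀ j, (Pd.cf (F.map (mapRingHom io)) n j).eval (io t) = io (Pd.cf (spc F t) n j) := by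
    intro j
    have h1 := cf_map (evalRingHom (io t)) (F.map (mapRingHom io)) (hF.monic.map _) n j
    rw [coe_evalRingHom] at h1
    rw [← h1]
    have h2 := spc_io F t
    unfold spc at h2
    rw [h2]
    exact cf_map io _ (spc_monic hF.monic t) n j
  have ha' : (fun j => io (a j)) ≠ 0 := by
    intro h
    refine ha (funext fun j => io_inj ?_)
    have := congrFun h j
    simpa using this
  have hrel' : ∑ j : Fin (m + 1), io (a j) * (Pd.cf (F.map (mapRingHom io)) n j).eval (io t) = 0 := by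
    have h1 := congrArg io hrel
    rw [map_sum, map_zero] at h1
    rw [← h1]
    refine sum_congr rfl fun j _ => ?_
    rw [hcf, map_mul]
  have hfin := hmain _ _ (crv0H hF) (io t) hT n (fun j => io (a j)) ha' hrel'
  rw [hTT, hHH] at hfin
  have hsum1 : 1 ≤ ∑ j, (a j).natAbs := by
    obtain ⟨j, hj⟩ := Function.ne_iff.1 ha
    have h1 : 1 ≤ (a j).natAbs := Int.natAbs_pos.2 hj
    exact h1.trans (single_le_sum (f := fun j => (a j).natAbs) (fun i _ => Nat.zero_le _)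
      (mem_univ j))
  have hkey : (t.natAbs : ℝ) ^ n ≤
      ((((c : ℝ) * H) ^ c) ^ (n + 1) * (t.natAbs : ℝ) ^ c * ((∑ j, (a j).natAbs : ℕ) : ℝ)) ^ c := by
    have hs0 : (0 : ℝ) ≤ ((∑ j, (a j).natAbs : ℕ) : ℝ) := Nat.cast_nonneg _
    have hs1 : (1 : ℝ) ≤ ((∑ j, (a j).natAbs : ℕ) : ℝ) := by exact_mod_cast hsum1
    have h1 : ((C₁ * (((σ + 1) * H : ℕ) : ℝ)) ^ s) ^ (n + 1) ≤ (((c : ℝ) * H) ^ c) ^ (n + 1) :=
      pow_le_pow_left₀ (pow_nonneg hb0 s) hpow (n + 1)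
    have h2 : (t.natAbs : ℝ) ^ c₀ ≤ (t.natAbs : ℝ) ^ c := pow_le_pow_right₀ htR (by omega)
    have h3 : 1 ≤ (((c : ℝ) * H) ^ c) ^ (n + 1) * (t.natAbs : ℝ) ^ c *
        ((∑ j, (a j).natAbs : ℕ) : ℝ) :=
      one_le_mul_of_one_le_of_one_le (one_le_mul_of_one_le_of_one_le
        (one_le_pow₀ (one_le_pow₀ hcHR)) (one_le_pow₀ htR)) hs1
    calc (t.natAbs : ℝ) ^ n ≤ (((C₁ * (((σ + 1) * H : ℕ) : ℝ)) ^ s) ^ (n + 1) *
          (t.natAbs : ℝ) ^ c₀ * ((∑ j, (a j).natAbs : ℕ) : ℝ)) ^ κ := hfin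
      _ ≤ ((((c : ℝ) * H) ^ c) ^ (n + 1) * (t.natAbs : ℝ) ^ c *
          ((∑ j, (a j).natAbs : ℕ) : ℝ)) ^ κ := by
          refine pow_le_pow_left₀ (by positivity) ?_ κ
          gcongr
      _ ≤ _ := pow_le_pow_right₀ h3 (by omega)
  exact_mod_cast hkey

end Pool.Agent.Work.MP_8d13b5_lc.Fm
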