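import Pool.Agent.Work.MP_8d13b5_lc.Fm.Stmts2

set_option autoImplicit false

/-! Item LO2: the lower bound for the largest `E_j`. -/

namespace Pool.Agent.Work.MP_8d13b5_lc.Fm

open Polynomial NumberField Finset Module

namespace LO2

theorem upper (P : ℂ[X]) : ∃ C : ℝ, 0 ≤ C ∧ ∀ t : ℂ,
    ‖P.eval t‖ ≤ C * (max ‖t‖ 1) ^ P.natDegree := by
  refine ⟨∑ i ∈ range (P.natDegree + 1), ‖P.coeff i‖, sum_nonneg fun i _ => norm_nonneg _,
    fun t => ?_⟩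
  rw [eval_eq_sum_range, sum_mul]
  refine (norm_sum_le _ _).trans (sum_le_sum fun i hi => ?_)
  rw [norm_mul, norm_pow]
  refine mul_le_mul_of_nonneg_left ?_ (norm_nonneg _)
  calc ‖t‖ ^ i ≤ (max ‖t‖ 1) ^ i := pow_le_pow_left₀ (norm_nonneg _) (le_max_left _ _) _
    _ ≤ _ := pow_le_pow_right₀ (le_max_right _ _) (Nat.lt_succ_iff.1 (mem_range.1 hi))

theorem lower (P : ℂ[X]) (hP : P ≠ 0) : ∃ ρ c : ℝ, 1 ≤ ρ ∧ 0 < c ∧ ∀ t : ℂ, ρ ≤ ‖t‖ →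
    c * ‖t‖ ^ P.natDegree ≤ ‖P.eval t‖ := by
  obtain ⟨d, hd⟩ : ∃ d, d = P.natDegree := ⟨_, rfl⟩
  obtain ⟨S, hS⟩ : ∃ S, S = ∑ i ∈ range d, ‖P.coeff i‖ := ⟨_, rfl⟩
  have hlc : 0 < ‖P.leadingCoeff‖ := norm_pos_iff.2 (leadingCoeff_ne_zero.2 hP)
  refine ⟨max 1 (2 * S / ‖P.leadingCoeff‖), ‖P.leadingCoeff‖ / 2, le_max_left _ _,
    by positivity, fun t ht => ?_⟩
  have ht1 : 1 ≤ ‖t‖ := (le_max_left _ _).trans ht
  have ht2 : 2 * S ≤ ‖t‖ * ‖P.leadingCoeff‖ := by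
    have := (le_max_right _ _).trans ht
    rwa [div_le_iff₀ hlc] at this
  have e : P.eval t = (∑ i ∈ range d, P.coeff i * t ^ i) + P.leadingCoeff * t ^ d := by
    rw [eval_eq_sum_range, sum_range_succ, hd]
    rfl
  have h1 : ‖t‖ * ‖∑ i ∈ range d, P.coeff i * t ^ i‖ ≤ S * ‖t‖ ^ d := by
    calc ‖t‖ * ‖∑ i ∈ range d, P.coeff i * t ^ i‖
        ≤ ‖t‖ * ∑ i ∈ range d, ‖P.coeff i‖ * ‖t‖ ^ i := by
          refine mul_le_mul_of_nonneg_left ((norm_sum_le _ _).trans (le_of_eq ?_)) (norm_nonneg _)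
          exact sum_congr rfl fun i _ => by rw [norm_mul, norm_pow]
      _ = ∑ i ∈ range d, ‖P.coeff i‖ * ‖t‖ ^ (i + 1) := by
          rw [mul_sum]
          exact sum_congr rfl fun i _ => by ring
      _ ≤ ∑ i ∈ range d, ‖P.coeff i‖ * ‖t‖ ^ d :=
          sum_le_sum fun i hi => mul_le_mul_of_nonneg_left
            (pow_le_pow_right₀ ht1 (mem_range.1 hi)) (norm_nonneg _)
      _ = S * ‖t‖ ^ d := by rw [hS, sum_mul]
  have h2 : ‖∑ i ∈ range d, P.coeff i * t ^ i‖ ≤ ‖P.leadingCoeff‖ / 2 * ‖t‖ ^ d := by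
    have h3 : ‖t‖ * ‖∑ i ∈ range d, P.coeff i * t ^ i‖ ≤
        ‖t‖ * (‖P.leadingCoeff‖ / 2 * ‖t‖ ^ d) := by
      refine h1.trans ?_
      have := mul_le_mul_of_nonneg_right ht2 (pow_nonneg (norm_nonneg t) d)
      have e2 : ‖t‖ * (‖P.leadingCoeff‖ / 2 * ‖t‖ ^ d) =
          (‖t‖ * ‖P.leadingCoeff‖ * ‖t‖ ^ d) / 2 := by ring
      rw [e2]
      linarith
    exact le_of_mul_le_mul_left h3 (by linarith)
  rw [← hd]
  have h4 : ‖P.leadingCoeff * t ^ d‖ ≤ ‖P.eval t‖ + ‖∑ i ∈ range d, P.coeff i * t ^ i‖ := by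
    have := norm_sub_le (P.eval t) (∑ i ∈ range d, P.coeff i * t ^ i)
    rw [e, add_sub_cancel_left] at this
    rw [e]
    exact this
  rw [norm_mul, norm_pow] at h4
  linarith

theorem claimA (m p q : ℕ) (G : ℕ → ℂ[X]) (i₀ : ℕ) (hi₀ : i₀ ≤ m) (hG : G i₀ ≠ 0)
    (hd : q * (G i₀).natDegree = p * (m + 1 - i₀)) (A : Fin (m + 1) → ℂ[X]) (c' : ℂ)
    (hc : c' ≠ 0) (hA : ∑ i, A i * G (i : ℕ) = C c') :
    ∃ c : ℝ, 0 < c ∧ ∀ t : ℂ, ∃ i ≤ m,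
      c * (max ‖t‖ 1) ^ (p * (m + 1 - i)) ≤ ‖(G i).eval t‖ ^ q := by
  obtain ⟨ρ, c₁, hρ, hc₁, hlow⟩ := lower (G i₀) hG
  choose B hB0 hB using fun i : Fin (m + 1) => upper (A i)
  obtain ⟨M, hM⟩ : ∃ M, M = 1 + ∑ i, B i * ρ ^ (A i).natDegree := ⟨_, rfl⟩
  have hρ0 : 0 < ρ := by linarith
  have hM0 : ∀ i, B i * ρ ^ (A i).natDegree ≤ M := by
    intro i
    have h := single_le_sum (f := fun i => B i * ρ ^ (A i).natDegree)
      (fun j _ => mul_nonneg (hB0 j) (pow_nonneg hρ0.le _)) (mem_univ i)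
    linarith
  have hM1 : 1 ≤ M := by
    have : 0 ≤ ∑ i, B i * ρ ^ (A i).natDegree :=
      sum_nonneg fun j _ => mul_nonneg (hB0 j) (pow_nonneg hρ0.le _)
    linarith
  have hc' : 0 < ‖c'‖ := norm_pos_iff.2 hc
  obtain ⟨δ, hδ⟩ : ∃ δ, δ = ‖c'‖ / ((m + 1) * M) := ⟨_, rfl⟩
  have hmM : 0 < ((m : ℝ) + 1) * M := by positivity
  have hδ0 : 0 < δ := by rw [hδ]; positivity
  refine ⟨min (c₁ ^ q) (δ ^ q / ρ ^ (p * (m + 1))), by positivity, fun t => ?_⟩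
  rcases le_total ρ ‖t‖ with ht | ht
  · refine ⟨i₀, hi₀, ?_⟩
    have e : max ‖t‖ 1 = ‖t‖ := max_eq_left (hρ.trans ht)
    rw [e, ← hd]
    calc min (c₁ ^ q) (δ ^ q / ρ ^ (p * (m + 1))) * ‖t‖ ^ (q * (G i₀).natDegree)
        ≤ c₁ ^ q * ‖t‖ ^ (q * (G i₀).natDegree) :=
          mul_le_mul_of_nonneg_right (min_le_left _ _) (by positivity)
      _ = (c₁ * ‖t‖ ^ (G i₀).natDegree) ^ q := by
          rw [mul_pow, ← pow_mul, mul_comm q]
      _ ≤ _ := pow_le_pow_left₀ (by positivity) (hlow t ht) q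
  · have hmax : max ‖t‖ 1 ≤ ρ := max_le ht hρ
    obtain ⟨i, hi⟩ : ∃ i : Fin (m + 1), δ ≤ ‖(G (i : ℕ)).eval t‖ := by
      by_contra hcon
      push Not at hcon
      have h1 : c' = ∑ i, (A i).eval t * (G (i : ℕ)).eval t := by
        have := congrArg (fun P : ℂ[X] => P.eval t) hA
        simp only [eval_finset_sum, eval_mul, eval_C] at this
        exact this.symm
      have h2 : ‖c'‖ < ∑ _i : Fin (m + 1), M * δ := by
        rw [h1]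
        refine (norm_sum_le _ _).trans_lt (sum_lt_sum_of_nonempty univ_nonempty fun i _ => ?_)
        rw [norm_mul]
        have h3 : ‖(A i).eval t‖ ≤ M := by
          refine (hB i t).trans (le_trans ?_ (hM0 i))
          exact mul_le_mul_of_nonneg_left (pow_le_pow_left₀ (by positivity) hmax _) (hB0 i)
        calc ‖(A i).eval t‖ * ‖(G (i : ℕ)).eval t‖ ≤ M * ‖(G (i : ℕ)).eval t‖ :=
              mul_le_mul_of_nonneg_right h3 (norm_nonneg _)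
          _ < M * δ := mul_lt_mul_of_pos_left (hcon i) (by linarith)
      rw [sum_const, card_univ, Fintype.card_fin, nsmul_eq_mul] at h2
      have h4 : ((m + 1 : ℕ) : ℝ) * (M * δ) = ‖c'‖ := by
        rw [hδ]
        push_cast
        field_simp
      rw [h4] at h2
      exact lt_irrefl _ h2
    refine ⟨i, Nat.lt_succ_iff.1 i.2, ?_⟩
    calc min (c₁ ^ q) (δ ^ q / ρ ^ (p * (m + 1))) * (max ‖t‖ 1) ^ (p * (m + 1 - (i : ℕ)))
        ≤ (δ ^ q / ρ ^ (p * (m + 1))) * ρ ^ (p * (m + 1)) := by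
          refine mul_le_mul (min_le_right _ _) ?_ (by positivity) (by positivity)
          calc (max ‖t‖ 1) ^ (p * (m + 1 - (i : ℕ))) ≤ ρ ^ (p * (m + 1 - (i : ℕ))) :=
                pow_le_pow_left₀ (by positivity) hmax _
            _ ≤ _ := pow_le_pow_right₀ hρ (Nat.mul_le_mul_left _ (Nat.sub_le _ _))
      _ = δ ^ q := by field_simp
      _ ≤ _ := pow_le_pow_left₀ hδ0.le hi q

/-- the powers of a root in terms of `cf` -/
theorem pow_root {m : ℕ} (f : ℂ[X]) (hf : f.Monic) (hd : f.natDegree = m + 1) (z : ℂ)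
    (hz : f.eval z = 0) (n : ℕ) : z ^ n = ∑ j ∈ range (m + 1), Pd.cf f n j * z ^ j := by
  have h1 := congrArg (fun P : ℂ[X] => P.eval z) (modByMonic_add_div (X ^ n : ℂ[X]) f)
  simp only [eval_add, eval_mul, hz, zero_mul, add_zero, eval_pow, eval_X] at h1
  rw [← h1]
  have h2 : ((X ^ n : ℂ[X]) %ₘ f).natDegree < m + 1 := by
    rw [← hd]
    exact natDegree_modByMonic_lt _ hf (fun h => by rw [h, natDegree_one] at hd; omega)
  rw [eval_eq_sum_range' h2]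
  rfl

theorem core (hRTB : StRTB) (m p q : ℕ) (G : ℕ → ℂ[X]) (i₀ : ℕ) (hi₀ : i₀ ≤ m)
    (hG : G i₀ ≠ 0) (hd : q * (G i₀).natDegree = p * (m + 1 - i₀)) (A : Fin (m + 1) → ℂ[X])
    (c' : ℂ) (hc : c' ≠ 0) (hA : ∑ i, A i * G (i : ℕ) = C c') :
    ∃ (c₀ : ℝ) (s : ℕ), 0 < c₀ ∧ c₀ ≤ 1 ∧ ∀ (t : ℂ) (f : ℂ[X]), f.Monic →
      f.natDegree = m + 1 → (∀ i ≤ m, f.coeff i = (G i).eval t) → ∀ n : ℕ,
      ∃ j : Fin (m + 1), c₀ ^ (n + 1) * (max ‖t‖ 1) ^ (p * n) ≤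
        ‖Pd.cf f n j‖ ^ q * (max ‖t‖ 1) ^ s := by
  obtain ⟨c, hc0, hcA⟩ := claimA m p q G i₀ hi₀ hG hd A c' hc hA
  choose B hB0 hB using fun i : ℕ => upper (G i)
  obtain ⟨s₀, hs₀⟩ : ∃ s₀, s₀ = ∑ i ∈ range (m + 1), (G i).natDegree := ⟨_, rfl⟩
  obtain ⟨D₀, hD₀⟩ : ∃ D₀, D₀ = 2 + ∑ i ∈ range (m + 1), B i := ⟨_, rfl⟩
  have hD₀1 : 1 ≤ D₀ := by
    have : 0 ≤ ∑ i ∈ range (m + 1), B i := sum_nonneg fun j _ => hB0 j
    linarith
  obtain ⟨c₁, hc₁⟩ : ∃ c₁, c₁ = min 1 (c / (2 ^ (m + 1)) ^ q) := ⟨_, rfl⟩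
  have hc₁0 : 0 < c₁ := by rw [hc₁]; positivity
  have hc₁1 : c₁ ≤ 1 := by rw [hc₁]; exact min_le_left _ _
  obtain ⟨D, hD⟩ : ∃ D : ℝ, D = ((m : ℝ) + 1) ^ q * (D₀ ^ m) ^ q := ⟨_, rfl⟩
  have hD1 : 1 ≤ D := by
    rw [hD]
    have h1 : 1 ≤ ((m : ℝ) + 1) ^ q := one_le_pow₀ (by
      have : (0 : ℝ) ≤ m := Nat.cast_nonneg m
      linarith)
    have h2 : 1 ≤ (D₀ ^ m) ^ q := one_le_pow₀ (one_le_pow₀ hD₀1)
    calc (1 : ℝ) = 1 * 1 := (mul_one 1).symm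
      _ ≤ _ := mul_le_mul h1 h2 zero_le_one (by positivity)
  have hD0 : 0 < D := by linarith
  refine ⟨c₁ / D, (s₀ * m) * q, by positivity, (div_le_one hD0).2 (hc₁1.trans hD1),
    fun t f hf hfd hfc n => ?_⟩
  obtain ⟨τ, hτ⟩ : ∃ τ, τ = max ‖t‖ 1 := ⟨_, rfl⟩
  have hτ1 : 1 ≤ τ := by rw [hτ]; exact le_max_right _ _
  rw [← hτ]
  obtain ⟨z, hz, hz1, hz2⟩ := hRTB (m + 1) f hf hfd (by omega)
  -- the size of the root
  have hzu : 1 + ‖z‖ ≤ D₀ * τ ^ s₀ := by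
    have h1 : ∑ i ∈ range (m + 1), ‖f.coeff i‖ ≤ (∑ i ∈ range (m + 1), B i) * τ ^ s₀ := by
      rw [sum_mul]
      refine sum_le_sum fun i hi => ?_
      rw [hfc i (Nat.lt_succ_iff.1 (mem_range.1 hi))]
      refine (hB i t).trans (mul_le_mul_of_nonneg_left ?_ (hB0 i))
      rw [← hτ]
      refine pow_le_pow_right₀ hτ1 ?_
      rw [hs₀]
      exact single_le_sum (f := fun i => (G i).natDegree) (fun j _ => Nat.zero_le _) hi
    have h2 : 1 ≤ τ ^ s₀ := one_le_pow₀ hτ1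
    calc 1 + ‖z‖ ≤ 2 * 1 + ∑ i ∈ range (m + 1), ‖f.coeff i‖ := by linarith
      _ ≤ 2 * τ ^ s₀ + (∑ i ∈ range (m + 1), B i) * τ ^ s₀ := by linarith
      _ = D₀ * τ ^ s₀ := by rw [hD₀]; ring
  have hzl : c₁ * τ ^ p ≤ ‖z‖ ^ q := by
    obtain ⟨i, hi, hi2⟩ := hcA t
    rw [← hτ, ← hfc i hi] at hi2
    have h1 := pow_le_pow_left₀ (norm_nonneg _) (hz2 i (Nat.lt_succ_iff.2 hi)) q
    have h2 : c * τ ^ (p * (m + 1 - i)) ≤ (2 ^ (m + 1)) ^ q * (‖z‖ ^ q) ^ (m + 1 - i) := by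
      refine hi2.trans (h1.trans (le_of_eq ?_))
      rw [mul_pow, ← pow_mul ‖z‖, ← pow_mul ‖z‖, mul_comm q]
    have h3 : m + 1 - i ≠ 0 := by omega
    have h4 : (c₁ * τ ^ p) ^ (m + 1 - i) ≤ (‖z‖ ^ q) ^ (m + 1 - i) := by
      rw [mul_pow, ← pow_mul]
      have h5 : c₁ ^ (m + 1 - i) ≤ c / (2 ^ (m + 1)) ^ q :=
        (pow_le_of_le_one hc₁0.le hc₁1 h3).trans (by rw [hc₁]; exact min_le_right _ _)
      calc c₁ ^ (m + 1 - i) * τ ^ (p * (m + 1 - i))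
          ≤ c / (2 ^ (m + 1)) ^ q * τ ^ (p * (m + 1 - i)) :=
            mul_le_mul_of_nonneg_right h5 (by positivity)
        _ = (c * τ ^ (p * (m + 1 - i))) / (2 ^ (m + 1)) ^ q := by ring
        _ ≤ _ := by
            rw [div_le_iff₀ (by positivity)]
            linarith
    exact (pow_le_pow_iff_left₀ (by positivity) (by positivity) h3).1 h4
  -- the powers of the root
  obtain ⟨j, hj⟩ : ∃ j : Fin (m + 1), ‖z‖ ^ n ≤
      ((m : ℝ) + 1) * (‖Pd.cf f n j‖ * (1 + ‖z‖) ^ m) := by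
    by_contra hcon
    push Not at hcon
    have h1 := pow_root f hf hfd z hz n
    have h2 : ‖z‖ ^ n ≤ ∑ j : Fin (m + 1), ‖Pd.cf f n j‖ * (1 + ‖z‖) ^ m := by
      rw [← norm_pow, h1, Finset.sum_range]
      refine (norm_sum_le _ _).trans (sum_le_sum fun j _ => ?_)
      rw [norm_mul, norm_pow]
      refine mul_le_mul_of_nonneg_left ?_ (norm_nonneg _)
      calc ‖z‖ ^ (j : ℕ) ≤ (1 + ‖z‖) ^ (j : ℕ) :=
            pow_le_pow_left₀ (norm_nonneg _) (by linarith) _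
        _ ≤ _ := pow_le_pow_right₀ (by linarith [norm_nonneg z]) (Nat.lt_succ_iff.1 j.2)
    have hm0 : (0 : ℝ) < (m : ℝ) + 1 := by positivity
    have h3 : ∑ j : Fin (m + 1), ‖Pd.cf f n j‖ * (1 + ‖z‖) ^ m <
        ∑ _j : Fin (m + 1), ‖z‖ ^ n / ((m : ℝ) + 1) := by
      refine sum_lt_sum_of_nonempty univ_nonempty fun j _ => ?_
      rw [lt_div_iff₀ hm0, mul_comm]
      exact hcon j
    rw [sum_const, card_univ, Fintype.card_fin, nsmul_eq_mul] at h3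
    have h4 : ((m + 1 : ℕ) : ℝ) * (‖z‖ ^ n / ((m : ℝ) + 1)) = ‖z‖ ^ n := by
      push_cast
      field_simp
    rw [h4] at h3
    exact lt_irrefl _ (h2.trans_lt h3)
  refine ⟨j, ?_⟩
  have h1 : (c₁ / D) ^ (n + 1) ≤ c₁ ^ n / D := by
    have h2 : c₁ / D ≤ c₁ := div_le_self hc₁0.le hD1
    have h3 : c₁ / D ≤ 1 / D := div_le_div_of_nonneg_right hc₁1 hD0.le
    calc (c₁ / D) ^ (n + 1) = (c₁ / D) ^ n * (c₁ / D) := pow_succ _ _
      _ ≤ c₁ ^ n * (1 / D) := mul_le_mul (pow_le_pow_left₀ (by positivity) h2 n) h3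
          (by positivity) (by positivity)
      _ = _ := by ring
  have h5 : c₁ ^ n * τ ^ (p * n) ≤ D * (‖Pd.cf f n j‖ ^ q * τ ^ (s₀ * m * q)) := by
    calc c₁ ^ n * τ ^ (p * n) = (c₁ * τ ^ p) ^ n := by rw [mul_pow, ← pow_mul]
      _ ≤ (‖z‖ ^ q) ^ n := pow_le_pow_left₀ (by positivity) hzl n
      _ = (‖z‖ ^ n) ^ q := by rw [← pow_mul, ← pow_mul, mul_comm]
      _ ≤ (((m : ℝ) + 1) * (‖Pd.cf f n j‖ * (1 + ‖z‖) ^ m)) ^ q :=
          pow_le_pow_left₀ (by positivity) hj q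
      _ ≤ (((m : ℝ) + 1) * (‖Pd.cf f n j‖ * (D₀ * τ ^ s₀) ^ m)) ^ q := by
          refine pow_le_pow_left₀ (by positivity) ?_ q
          refine mul_le_mul_of_nonneg_left ?_ (by positivity)
          refine mul_le_mul_of_nonneg_left ?_ (norm_nonneg _)
          exact pow_le_pow_left₀ (by positivity) hzu m
      _ = D * (‖Pd.cf f n j‖ ^ q * τ ^ (s₀ * m * q)) := by
          rw [hD, mul_pow, mul_pow, mul_pow, mul_pow, ← pow_mul τ, ← pow_mul τ]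
          ring
  calc (c₁ / D) ^ (n + 1) * τ ^ (p * n) ≤ c₁ ^ n / D * τ ^ (p * n) :=
        mul_le_mul_of_nonneg_right h1 (by positivity)
    _ = (c₁ ^ n * τ ^ (p * n)) / D := by ring
    _ ≤ _ := by
        rw [div_le_iff₀ hD0]
        linarith

end LO2

theorem prLO2 (hRTB : StRTB) (hCFD : StCFD) : StLO2 := by
  intro K _ _ m p q F hF hFd hq hsl hex hcop
  obtain ⟨i₀, hi₀, hne, hdeg⟩ := hex
  obtain ⟨c, hc, A, hA⟩ := hcop
  have hinj : ∀ φ : K →+* ℂ, Function.Injective (res φ) := fun φ =>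
    φ.injective.comp (FaithfulSMul.algebraMap_injective (𝓞 K) K)
  have key : ∀ φ : K →+* ℂ, ∃ (c₀ : ℝ) (s : ℕ), 0 < c₀ ∧ c₀ ≤ 1 ∧
      ∀ (t : ℂ) (f : ℂ[X]), f.Monic → f.natDegree = m + 1 →
      (∀ i ≤ m, f.coeff i = ((F.coeff i).map (res φ)).eval t) → ∀ n : ℕ,
      ∃ j : Fin (m + 1), c₀ ^ (n + 1) * (max ‖t‖ 1) ^ (p * n) ≤
        ‖Pd.cf f n j‖ ^ q * (max ‖t‖ 1) ^ s := by
    intro φ
    refine LO2.core hRTB m p q (fun i => (F.coeff i).map (res φ)) i₀ hi₀ ?_ ?_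
      (fun i => (A i).map (res φ)) (res φ c) ?_ ?_
    · intro h
      exact hne ((Polynomial.map_eq_zero_iff (hinj φ)).1 h)
    · change q * ((F.coeff i₀).map (res φ)).natDegree = _
      rw [natDegree_map_eq_of_injective (hinj φ)]
      exact hdeg
    · intro h
      exact hc ((map_eq_zero_iff (res φ) (hinj φ)).1 h)
    · have := congrArg (fun P : (𝓞 K)[X] => P.map (res φ)) hA
      simp only [Polynomial.map_sum, Polynomial.map_mul, map_C] at this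
      exact this
  choose c₀ s h0 h1 h2 using key
  obtain ⟨D, hD⟩ : ∃ D, D = 1 + ∑ φ, 1 / c₀ φ := ⟨_, rfl⟩
  have hDs : ∀ φ, 1 / c₀ φ ≤ D := by
    intro φ
    have := single_le_sum (f := fun φ => 1 / c₀ φ)
      (fun φ _ => (one_div_pos.2 (h0 φ)).le) (mem_univ φ)
    linarith
  have hD1 : 1 ≤ D := by
    have : 0 ≤ ∑ φ, 1 / c₀ φ := sum_nonneg fun φ _ => (one_div_pos.2 (h0 φ)).le
    linarith
  refine ⟨1 / D, ∑ φ, s φ, by positivity, (div_le_one (by linarith)).2 hD1,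
    fun φ t₀ n => ?_⟩
  have hψ : ∀ P : (𝓞 K)[X], ((res φ).comp (evalRingHom t₀)) P =
      (P.map (res φ)).eval (res φ t₀) := by
    intro P
    rw [RingHom.comp_apply, coe_evalRingHom, eval_map, eval₂_at_apply]
  obtain ⟨f, hf⟩ : ∃ f, f = F.map ((res φ).comp (evalRingHom t₀)) := ⟨_, rfl⟩
  have hfm : f.Monic := by rw [hf]; exact hF.map _
  have hfd : f.natDegree = m + 1 := by rw [hf, hF.natDegree_map, hFd]
  obtain ⟨j, hj⟩ := h2 φ (res φ t₀) f hfm hfd (fun i _ => by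
    rw [hf, coeff_map, hψ]) n
  refine ⟨j, ?_⟩
  have hcf : Pd.cf f n j = res φ ((Pd.cf F n j).eval t₀) := by
    rw [hf, hCFD.2.1 _ _ _ F n j hF]
    rfl
  rw [hcf] at hj
  have htt : tt φ t₀ 1 = max ‖res φ t₀‖ 1 := by
    unfold tt
    rw [map_one, norm_one]
  rw [htt]
  have hτ1 : 1 ≤ max ‖res φ t₀‖ 1 := le_max_right _ _
  have hcle : 1 / D ≤ c₀ φ := by
    rw [div_le_iff₀ (by linarith)]
    have := mul_le_mul_of_nonneg_left (hDs φ) (h0 φ).le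
    rw [mul_one_div, div_self (h0 φ).ne'] at this
    exact this
  calc (1 / D) ^ (n + 1) * max ‖res φ t₀‖ 1 ^ (p * n)
      ≤ c₀ φ ^ (n + 1) * max ‖res φ t₀‖ 1 ^ (p * n) :=
        mul_le_mul_of_nonneg_right (pow_le_pow_left₀ (by positivity) hcle _) (by positivity)
    _ ≤ _ := hj
    _ ≤ _ := by
        refine mul_le_mul_of_nonneg_left (pow_le_pow_right₀ hτ1 ?_) (by positivity)
        exact single_le_sum (f := fun φ => s φ) (fun φ _ => Nat.zero_le _) (mem_univ φ)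

end Pool.Agent.Work.MP_8d13b5_lc.Fm
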