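import Pool.Agent.Work.MP_8d13b5_lc.Fm.StmtsU
import Pool.Agent.Work.MP_8d13b5_lc.Fm.I_LO2
import Pool.Agent.Work.MP_8d13b5_lc.Pd.NF

set_option autoImplicit false

/-! Item VLO: the lower bound for the largest `E_j`, with explicit constants. -/

namespace Pool.Agent.Work.MP_8d13b5_lc.Fm

open Polynomial NumberField Finset Module

namespace VLO

/-- functions of `H` bounded by a power of `C H` -/
def PB (f : ℝ → ℝ) : Prop :=
  ∃ (C : ℝ) (s : ℕ), 1 ≤ C ∧ ∀ H, 1 ≤ H → 0 ≤ f H ∧ f H ≤ (C * H) ^ s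

theorem PB.mul {f g : ℝ → ℝ} (hf : PB f) (hg : PB g) : PB fun H => f H * g H := by
  obtain ⟨C, s, hC, h⟩ := hf
  obtain ⟨C', s', hC', h'⟩ := hg
  refine ⟨C * C', s + s', by nlinarith, fun H hH => ⟨mul_nonneg (h H hH).1 (h' H hH).1, ?_⟩⟩
  have h1 : C * H ≤ C * C' * H :=
    mul_le_mul_of_nonneg_right (le_mul_of_one_le_right (by linarith) hC') (by linarith)
  have h2 : C' * H ≤ C * C' * H :=
    mul_le_mul_of_nonneg_right (le_mul_of_one_le_left (by linarith) hC) (by linarith)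
  calc f H * g H ≤ (C * H) ^ s * (C' * H) ^ s' :=
        mul_le_mul (h H hH).2 (h' H hH).2 (h' H hH).1 (by positivity)
    _ ≤ (C * C' * H) ^ s * (C * C' * H) ^ s' :=
        mul_le_mul (pow_le_pow_left₀ (by positivity) h1 s) (pow_le_pow_left₀ (by positivity) h2 s')
          (by positivity) (by positivity)
    _ = _ := (pow_add _ _ _).symm

theorem PB.pow {f : ℝ → ℝ} (hf : PB f) (n : ℕ) : PB fun H => f H ^ n := by
  obtain ⟨C, s, hC, h⟩ := hf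
  refine ⟨C, s * n, hC, fun H hH => ⟨pow_nonneg (h H hH).1 n, ?_⟩⟩
  rw [pow_mul]
  exact pow_le_pow_left₀ (h H hH).1 (h H hH).2 n

theorem PB.const (c : ℝ) (hc : 0 ≤ c) : PB fun _ => c := by
  refine ⟨max c 1, 1, le_max_right _ _, fun H hH => ⟨hc, ?_⟩⟩
  rw [pow_one]
  exact (le_max_left c 1).trans (le_mul_of_one_le_right (by positivity) hH)

theorem PB.id : PB fun H => H := ⟨1, 1, le_refl _, fun H hH => ⟨by linarith, by simp⟩⟩

theorem PB.common {f g : ℝ → ℝ} (hf : PB f) (hg : PB g) (s₁ : ℕ) : ∃ (C : ℝ) (s : ℕ), 1 ≤ C ∧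
    s₁ ≤ s ∧ ∀ H, 1 ≤ H → f H ≤ (C * H) ^ s ∧ g H ≤ (C * H) ^ s := by
  obtain ⟨C, s, hC, h⟩ := hf
  obtain ⟨C', s', hC', h'⟩ := hg
  refine ⟨C + C', s + s' + s₁, by linarith, by omega, fun H hH => ⟨?_, ?_⟩⟩
  · refine (h H hH).2.trans ((pow_le_pow_left₀ (by positivity) (by nlinarith :
      C * H ≤ (C + C') * H) s).trans (pow_le_pow_right₀ (by nlinarith) (by omega)))
  · refine (h' H hH).2.trans ((pow_le_pow_left₀ (by positivity) (by nlinarith :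
      C' * H ≤ (C + C') * H) s').trans (pow_le_pow_right₀ (by nlinarith) (by omega)))

section
variable {R : Type} [CommRing R]

theorem pn_nonneg (φ : R →+* ℂ) (P : R[X]) : 0 ≤ pn φ P := sum_nonneg fun _ _ => norm_nonneg _

theorem ev (φ : R →+* ℂ) (P : R[X]) (t : R) :
    φ (P.eval t) = ∑ i ∈ range (P.natDegree + 1), φ (P.coeff i) * φ t ^ i := by
  rw [eval_eq_sum_range, map_sum]
  exact sum_congr rfl fun i _ => by rw [map_mul, map_pow]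

theorem upper (φ : R →+* ℂ) (P : R[X]) (t : R) :
    ‖φ (P.eval t)‖ ≤ pn φ P * (max ‖φ t‖ 1) ^ P.natDegree := by
  rw [ev]
  unfold pn
  rw [sum_mul]
  refine (norm_sum_le _ _).trans (sum_le_sum fun i hi => ?_)
  rw [norm_mul, norm_pow]
  refine mul_le_mul_of_nonneg_left ?_ (norm_nonneg _)
  calc ‖φ t‖ ^ i ≤ (max ‖φ t‖ 1) ^ i := pow_le_pow_left₀ (norm_nonneg _) (le_max_left _ _) _
    _ ≤ _ := pow_le_pow_right₀ (le_max_right _ _) (Nat.lt_succ_iff.1 (mem_range.1 hi))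

theorem lower (φ : R →+* ℂ) (P : R[X]) (t : R) (H B : ℝ) (hH : 1 ≤ H) (hB : 1 ≤ B)
    (hP : pn φ P ≤ H) (hlc : 1 ≤ ‖φ P.leadingCoeff‖ * B) (ht : 2 * H * B ≤ ‖φ t‖) :
    ‖φ t‖ ^ P.natDegree ≤ 2 * B * ‖φ (P.eval t)‖ := by
  have ht1 : 1 ≤ ‖φ t‖ := by nlinarith
  have e : φ (P.eval t) = (∑ i ∈ range P.natDegree, φ (P.coeff i) * φ t ^ i) +
      φ P.leadingCoeff * φ t ^ P.natDegree := by
    rw [ev, sum_range_succ]
    rfl
  have hS : ∑ i ∈ range P.natDegree, ‖φ (P.coeff i)‖ ≤ H := by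
    refine le_trans ?_ hP
    unfold pn
    rw [sum_range_succ]
    linarith [norm_nonneg (φ (P.coeff P.natDegree))]
  have h1 : ‖φ t‖ * ‖∑ i ∈ range P.natDegree, φ (P.coeff i) * φ t ^ i‖ ≤
      H * ‖φ t‖ ^ P.natDegree := by
    calc ‖φ t‖ * ‖∑ i ∈ range P.natDegree, φ (P.coeff i) * φ t ^ i‖
        ≤ ‖φ t‖ * ∑ i ∈ range P.natDegree, ‖φ (P.coeff i)‖ * ‖φ t‖ ^ i := by
          refine mul_le_mul_of_nonneg_left ((norm_sum_le _ _).trans (le_of_eq ?_)) (norm_nonneg _)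
          exact sum_congr rfl fun i _ => by rw [norm_mul, norm_pow]
      _ = ∑ i ∈ range P.natDegree, ‖φ (P.coeff i)‖ * ‖φ t‖ ^ (i + 1) := by
          rw [mul_sum]
          exact sum_congr rfl fun i _ => by ring
      _ ≤ ∑ i ∈ range P.natDegree, ‖φ (P.coeff i)‖ * ‖φ t‖ ^ P.natDegree :=
          sum_le_sum fun i hi => mul_le_mul_of_nonneg_left
            (pow_le_pow_right₀ ht1 (mem_range.1 hi)) (norm_nonneg _)
      _ = (∑ i ∈ range P.natDegree, ‖φ (P.coeff i)‖) * ‖φ t‖ ^ P.natDegree := by rw [sum_mul]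
      _ ≤ _ := mul_le_mul_of_nonneg_right hS (by positivity)
  set Q := ∑ i ∈ range P.natDegree, φ (P.coeff i) * φ t ^ i with hQ
  have h2 : 2 * B * ‖Q‖ ≤ ‖φ t‖ ^ P.natDegree := by
    have h3 : H * (2 * B * ‖Q‖) ≤ H * ‖φ t‖ ^ P.natDegree := by
      refine le_trans ?_ h1
      have := mul_le_mul_of_nonneg_right ht (norm_nonneg Q)
      linarith
    exact le_of_mul_le_mul_left h3 (by linarith)
  have h4 : ‖φ P.leadingCoeff * φ t ^ P.natDegree‖ ≤ ‖φ (P.eval t)‖ + ‖Q‖ := by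
    have := norm_sub_le (φ (P.eval t)) Q
    rw [e, add_sub_cancel_left] at this
    rw [e]
    exact this
  rw [norm_mul, norm_pow] at h4
  have h5 : ‖φ t‖ ^ P.natDegree ≤ ‖φ P.leadingCoeff‖ * B * ‖φ t‖ ^ P.natDegree :=
    le_mul_of_one_le_left (by positivity) hlc
  have h6 := mul_le_mul_of_nonneg_left h4 (by linarith : 0 ≤ B)
  nlinarith

/-- the constant of claim A -/
noncomputable def Wc (m σ : ℕ) (H B Y Y' : ℝ) : ℝ :=
  (2 * B) ^ (m + 1) * ((2 * H * B) ^ (σ * (m + 1)) *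
    (((m : ℝ) + 1) * Y * (2 * H * B) ^ σ * Y') ^ (m + 1))

theorem claimA (φ : R →+* ℂ) (m σ p q : ℕ) (F : R[X][X]) (H B Y Y' : ℝ) (hH : 1 ≤ H)
    (hB : 1 ≤ B) (hY : 1 ≤ Y) (hY' : 1 ≤ Y') (hq : q ≤ m + 1) (hp : p ≤ σ)
    (hF : ∀ i ≤ m, pn φ (F.coeff i) ≤ H) (i₀ : ℕ) (hi₀ : i₀ ≤ m)
    (hlc : 1 ≤ ‖φ (F.coeff i₀).leadingCoeff‖ * B)
    (hd : q * (F.coeff i₀).natDegree = p * (m + 1 - i₀)) (A : Fin (m + 1) → R[X]) (c : R)
    (hc : 1 ≤ ‖φ c‖ * Y') (hA : ∑ i, A i * F.coeff (i : ℕ) = C c)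
    (hAd : ∀ i, (A i).natDegree ≤ σ) (hAp : ∀ i, pn φ (A i) ≤ Y) (t : R) :
    ∃ i ≤ m, (max ‖φ t‖ 1) ^ (p * (m + 1 - i)) ≤
      Wc m σ H B Y Y' * ‖φ ((F.coeff i).eval t)‖ ^ q := by
  have hρ1 : 1 ≤ 2 * H * B := by nlinarith
  have hm1 : (1 : ℝ) ≤ (m : ℝ) + 1 := by
    have : (0 : ℝ) ≤ m := Nat.cast_nonneg m
    linarith
  obtain ⟨ρ, hρ⟩ : ∃ ρ, ρ = 2 * H * B := ⟨_, rfl⟩
  have hρ1' : 1 ≤ ρ := by rw [hρ]; exact hρ1
  obtain ⟨Z, hZ⟩ : ∃ Z, Z = ((m : ℝ) + 1) * Y * ρ ^ σ * Y' := ⟨_, rfl⟩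
  have hZ1 : 1 ≤ Z := by
    rw [hZ]
    exact one_le_mul_of_one_le_of_one_le (one_le_mul_of_one_le_of_one_le
      (one_le_mul_of_one_le_of_one_le hm1 hY) (one_le_pow₀ hρ1')) hY'
  have hW : Wc m σ H B Y Y' = (2 * B) ^ (m + 1) * (ρ ^ (σ * (m + 1)) * Z ^ (m + 1)) := by
    unfold Wc
    rw [hZ, hρ]
  rw [hW]
  rcases le_total ρ ‖φ t‖ with ht | ht
  · refine ⟨i₀, hi₀, ?_⟩
    have e : max ‖φ t‖ 1 = ‖φ t‖ := max_eq_left (hρ1'.trans ht)
    rw [e, ← hd]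
    have h1 := lower φ (F.coeff i₀) t H B hH hB (hF i₀ hi₀) hlc (hρ ▸ ht)
    have h2 : (1 : ℝ) ≤ ρ ^ (σ * (m + 1)) * Z ^ (m + 1) :=
      one_le_mul_of_one_le_of_one_le (one_le_pow₀ hρ1') (one_le_pow₀ hZ1)
    calc ‖φ t‖ ^ (q * (F.coeff i₀).natDegree) = (‖φ t‖ ^ (F.coeff i₀).natDegree) ^ q := by
          rw [← pow_mul, mul_comm q]
      _ ≤ (2 * B * ‖φ ((F.coeff i₀).eval t)‖) ^ q := pow_le_pow_left₀ (by positivity) h1 q
      _ = (2 * B) ^ q * ‖φ ((F.coeff i₀).eval t)‖ ^ q := mul_pow _ _ _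
      _ ≤ (2 * B) ^ (m + 1) * ‖φ ((F.coeff i₀).eval t)‖ ^ q :=
          mul_le_mul_of_nonneg_right (pow_le_pow_right₀ (by linarith) hq) (by positivity)
      _ ≤ _ := by
          refine mul_le_mul_of_nonneg_right ?_ (by positivity)
          exact le_mul_of_one_le_right (by positivity) h2
  · have hmax : max ‖φ t‖ 1 ≤ ρ := max_le ht hρ1'
    obtain ⟨i, hi⟩ : ∃ i : Fin (m + 1), 1 ≤ Z * ‖φ ((F.coeff (i : ℕ)).eval t)‖ := by
      by_contra hcon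
      push Not at hcon
      have h1 : φ c = ∑ i, φ ((A i).eval t) * φ ((F.coeff (i : ℕ)).eval t) := by
        have := congrArg (fun P : R[X] => φ (P.eval t)) hA
        simp only [eval_finsetSum, eval_mul, eval_C, map_sum, map_mul] at this
        exact this.symm
      have h2 : ∀ i : Fin (m + 1), ‖φ ((A i).eval t)‖ ≤ Y * ρ ^ σ := fun i => by
        refine (upper φ (A i) t).trans (mul_le_mul (hAp i) ?_ (by positivity) (by linarith))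
        exact (pow_le_pow_left₀ (by positivity) hmax _).trans (pow_le_pow_right₀ hρ1' (hAd i))
      have h3 : ‖φ c‖ ≤ ∑ i : Fin (m + 1), Y * ρ ^ σ * ‖φ ((F.coeff (i : ℕ)).eval t)‖ := by
        rw [h1]
        refine (norm_sum_le _ _).trans (sum_le_sum fun i _ => ?_)
        rw [norm_mul]
        exact mul_le_mul_of_nonneg_right (h2 i) (norm_nonneg _)
      have h4 : (((m : ℝ) + 1) * Y') * ‖φ c‖ ≤
          ∑ i : Fin (m + 1), Z * ‖φ ((F.coeff (i : ℕ)).eval t)‖ := by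
        refine (mul_le_mul_of_nonneg_left h3 (by positivity)).trans (le_of_eq ?_)
        rw [mul_sum]
        refine sum_congr rfl fun i _ => ?_
        rw [hZ]
        ring
      have h5 : ∑ i : Fin (m + 1), Z * ‖φ ((F.coeff (i : ℕ)).eval t)‖ <
          ∑ _i : Fin (m + 1), (1 : ℝ) :=
        sum_lt_sum_of_nonempty univ_nonempty fun i _ => hcon i
      rw [sum_const, card_univ, Fintype.card_fin, nsmul_eq_mul, mul_one] at h5
      push_cast at h5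
      have h6 : ((m : ℝ) + 1) * 1 ≤ ((m : ℝ) + 1) * (‖φ c‖ * Y') :=
        mul_le_mul_of_nonneg_left hc (by positivity)
      nlinarith
    refine ⟨i, Nat.lt_succ_iff.1 i.2, ?_⟩
    have h7 : (max ‖φ t‖ 1) ^ (p * (m + 1 - (i : ℕ))) ≤ ρ ^ (σ * (m + 1)) :=
      (pow_le_pow_left₀ (by positivity) hmax _).trans (pow_le_pow_right₀ hρ1'
        (Nat.mul_le_mul hp (Nat.sub_le _ _)))
    have h8 : 1 ≤ Z ^ (m + 1) * ‖φ ((F.coeff (i : ℕ)).eval t)‖ ^ q := by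
      calc (1 : ℝ) ≤ (Z * ‖φ ((F.coeff (i : ℕ)).eval t)‖) ^ q := one_le_pow₀ hi
        _ = Z ^ q * ‖φ ((F.coeff (i : ℕ)).eval t)‖ ^ q := mul_pow _ _ _
        _ ≤ _ := mul_le_mul_of_nonneg_right (pow_le_pow_right₀ hZ1 hq) (by positivity)
    have h9 : (1 : ℝ) ≤ (2 * B) ^ (m + 1) := one_le_pow₀ (by linarith)
    calc (max ‖φ t‖ 1) ^ (p * (m + 1 - (i : ℕ))) ≤ ρ ^ (σ * (m + 1)) := h7
      _ ≤ ρ ^ (σ * (m + 1)) * (Z ^ (m + 1) * ‖φ ((F.coeff (i : ℕ)).eval t)‖ ^ q) :=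
          le_mul_of_one_le_right (by positivity) h8
      _ ≤ (2 * B) ^ (m + 1) *
          (ρ ^ (σ * (m + 1)) * (Z ^ (m + 1) * ‖φ ((F.coeff (i : ℕ)).eval t)‖ ^ q)) :=
          le_mul_of_one_le_left (by positivity) h9
      _ = _ := by ring

theorem core (hRTB : StRTB) (hCFD : StCFD) (φ : R →+* ℂ) (m σ p q : ℕ) (F : R[X][X])
    (W H : ℝ) (hH : 1 ≤ H) (hW : 1 ≤ W) (hq : q ≤ m + 1)
    (hFm : F.Monic) (hFd : F.natDegree = m + 1) (hF : ∀ i ≤ m, pn φ (F.coeff i) ≤ H)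
    (hdg : ∀ i ≤ m, (F.coeff i).natDegree ≤ σ) (t : R)
    (hcA : ∃ i ≤ m, (max ‖φ t‖ 1) ^ (p * (m + 1 - i)) ≤ W * ‖φ ((F.coeff i).eval t)‖ ^ q)
    (n : ℕ) : ∃ j : Fin (m + 1), (max ‖φ t‖ 1) ^ (p * n) ≤
      (W * (2 ^ (m + 1)) ^ (m + 1)) ^ n * ((((m : ℝ) + 1) * (((m : ℝ) + 3) * H) ^ m) ^ (m + 1) *
        (‖φ ((Pd.cf F n j).eval t)‖ ^ q * (max ‖φ t‖ 1) ^ (σ * m * (m + 1)))) := by
  have hψ : ∀ P : R[X], (φ.comp (evalRingHom t)) P = φ (P.eval t) := fun P => rfl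
  obtain ⟨f, hf⟩ : ∃ f, f = F.map (φ.comp (evalRingHom t)) := ⟨_, rfl⟩
  have hfm : f.Monic := by rw [hf]; exact hFm.map _
  have hfd : f.natDegree = m + 1 := by rw [hf, hFm.natDegree_map, hFd]
  have hfc : ∀ i, f.coeff i = φ ((F.coeff i).eval t) := fun i => by rw [hf, coeff_map, hψ]
  have hcf : ∀ j, Pd.cf f n j = φ ((Pd.cf F n j).eval t) := fun j => by
    rw [hf, hCFD.2.1 _ _ _ F n j hFm]
    rfl
  obtain ⟨τ, hτ⟩ : ∃ τ, τ = max ‖φ t‖ 1 := ⟨_, rfl⟩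
  have hτ1 : 1 ≤ τ := by rw [hτ]; exact le_max_right _ _
  rw [← hτ]
  rw [← hτ] at hcA
  obtain ⟨z, hz, hz1, hz2⟩ := hRTB (m + 1) f hfm hfd (by omega)
  have hm0 : (0 : ℝ) ≤ m := Nat.cast_nonneg m
  -- the size of the root
  have hzu : 1 + ‖z‖ ≤ ((m : ℝ) + 3) * H * τ ^ σ := by
    have h1 : ∑ i ∈ range (m + 1), ‖f.coeff i‖ ≤ ∑ _i ∈ range (m + 1), H * τ ^ σ := by
      refine sum_le_sum fun i hi => ?_
      have hi' : i ≤ m := Nat.lt_succ_iff.1 (mem_range.1 hi)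
      rw [hfc i]
      refine (upper φ (F.coeff i) t).trans ?_
      rw [← hτ]
      exact mul_le_mul (hF i hi') (pow_le_pow_right₀ hτ1 (hdg i hi')) (by positivity)
        (by linarith)
    rw [sum_const, card_range, nsmul_eq_mul] at h1
    push_cast at h1
    have h2 : 1 ≤ H * τ ^ σ := one_le_mul_of_one_le_of_one_le hH (one_le_pow₀ hτ1)
    have h3 : ((m : ℝ) + 3) * H * τ ^ σ = ((m : ℝ) + 1) * (H * τ ^ σ) + 2 * (H * τ ^ σ) := by
      ring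
    linarith
  obtain ⟨V, hV⟩ : ∃ V, V = W * (2 ^ (m + 1)) ^ (m + 1) := ⟨_, rfl⟩
  have hV1 : 1 ≤ V := by
    rw [hV]
    exact one_le_mul_of_one_le_of_one_le hW (one_le_pow₀ (one_le_pow₀ (by norm_num)))
  have hzl : τ ^ p ≤ V * ‖z‖ ^ q := by
    obtain ⟨i, hi, hi2⟩ := hcA
    rw [← hfc i] at hi2
    have h1 := pow_le_pow_left₀ (norm_nonneg _) (hz2 i (Nat.lt_succ_iff.2 hi)) q
    have h2 : τ ^ (p * (m + 1 - i)) ≤ V * (‖z‖ ^ q) ^ (m + 1 - i) := by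
      refine hi2.trans ((mul_le_mul_of_nonneg_left h1 (by linarith)).trans ?_)
      rw [mul_pow, ← pow_mul ‖z‖, ← pow_mul ‖z‖, mul_comm q, hV]
      have h3 : ((2 : ℝ) ^ (m + 1)) ^ q ≤ (2 ^ (m + 1)) ^ (m + 1) :=
        pow_le_pow_right₀ (one_le_pow₀ (by norm_num)) hq
      calc W * ((2 ^ (m + 1)) ^ q * ‖z‖ ^ ((m + 1 - i) * q)) ≤
            W * ((2 ^ (m + 1)) ^ (m + 1) * ‖z‖ ^ ((m + 1 - i) * q)) :=
            mul_le_mul_of_nonneg_left (mul_le_mul_of_nonneg_right h3 (by positivity))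
              (by linarith)
        _ = _ := by ring
    have h3 : m + 1 - i ≠ 0 := by omega
    have h4 : (τ ^ p) ^ (m + 1 - i) ≤ (V * ‖z‖ ^ q) ^ (m + 1 - i) := by
      rw [mul_pow, ← pow_mul]
      refine h2.trans (mul_le_mul_of_nonneg_right (le_self_pow₀ hV1 h3) (by positivity))
    exact (pow_le_pow_iff_left₀ (by positivity) (by positivity) h3).1 h4
  -- the powers of the root
  obtain ⟨j, hj⟩ : ∃ j : Fin (m + 1), ‖z‖ ^ n ≤
      ((m : ℝ) + 1) * (‖Pd.cf f n j‖ * (1 + ‖z‖) ^ m) := by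
    by_contra hcon
    push Not at hcon
    have h1 := LO2.pow_root f hfm hfd z hz n
    have h2 : ‖z‖ ^ n ≤ ∑ j : Fin (m + 1), ‖Pd.cf f n j‖ * (1 + ‖z‖) ^ m := by
      rw [← norm_pow, h1, Finset.sum_range]
      refine (norm_sum_le _ _).trans (sum_le_sum fun j _ => ?_)
      rw [norm_mul, norm_pow]
      refine mul_le_mul_of_nonneg_left ?_ (norm_nonneg _)
      calc ‖z‖ ^ (j : ℕ) ≤ (1 + ‖z‖) ^ (j : ℕ) :=
            pow_le_pow_left₀ (norm_nonneg _) (by linarith) _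
        _ ≤ _ := pow_le_pow_right₀ (by linarith [norm_nonneg z]) (Nat.lt_succ_iff.1 j.2)
    have hm1 : (0 : ℝ) < (m : ℝ) + 1 := by positivity
    have h3 : ∑ j : Fin (m + 1), ‖Pd.cf f n j‖ * (1 + ‖z‖) ^ m <
        ∑ _j : Fin (m + 1), ‖z‖ ^ n / ((m : ℝ) + 1) := by
      refine sum_lt_sum_of_nonempty univ_nonempty fun j _ => ?_
      rw [lt_div_iff₀ hm1, mul_comm]
      exact hcon j
    rw [sum_const, card_univ, Fintype.card_fin, nsmul_eq_mul] at h3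
    have h4 : ((m + 1 : ℕ) : ℝ) * (‖z‖ ^ n / ((m : ℝ) + 1)) = ‖z‖ ^ n := by
      push_cast
      field_simp
    rw [h4] at h3
    exact lt_irrefl _ (h2.trans_lt h3)
  refine ⟨j, ?_⟩
  rw [← hcf j, ← hV]
  obtain ⟨D, hD⟩ : ∃ D : ℝ, D = ((m : ℝ) + 1) * (((m : ℝ) + 3) * H) ^ m := ⟨_, rfl⟩
  have hD1 : 1 ≤ D := by
    rw [hD]
    refine one_le_mul_of_one_le_of_one_le (by linarith) (one_le_pow₀ ?_)
    exact one_le_mul_of_one_le_of_one_le (by linarith) hH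
  rw [← hD]
  have h5 : ‖z‖ ^ n ≤ D * (‖Pd.cf f n j‖ * τ ^ (σ * m)) := by
    calc ‖z‖ ^ n ≤ ((m : ℝ) + 1) * (‖Pd.cf f n j‖ * (1 + ‖z‖) ^ m) := hj
      _ ≤ ((m : ℝ) + 1) * (‖Pd.cf f n j‖ * (((m : ℝ) + 3) * H * τ ^ σ) ^ m) := by
          refine mul_le_mul_of_nonneg_left (mul_le_mul_of_nonneg_left ?_ (norm_nonneg _))
            (by positivity)
          exact pow_le_pow_left₀ (by positivity) hzu m
      _ = _ := by
          rw [hD, mul_pow _ (τ ^ σ), ← pow_mul]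
          ring
  calc τ ^ (p * n) = (τ ^ p) ^ n := pow_mul _ _ _
    _ ≤ (V * ‖z‖ ^ q) ^ n := pow_le_pow_left₀ (by positivity) hzl n
    _ = V ^ n * (‖z‖ ^ n) ^ q := by rw [mul_pow, ← pow_mul, ← pow_mul, mul_comm q]
    _ ≤ V ^ n * (D * (‖Pd.cf f n j‖ * τ ^ (σ * m))) ^ q :=
        mul_le_mul_of_nonneg_left (pow_le_pow_left₀ (by positivity) h5 q) (by positivity)
    _ = V ^ n * (D ^ q * (‖Pd.cf f n j‖ ^ q * τ ^ (σ * m * q))) := by
        rw [mul_pow, mul_pow, ← pow_mul]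
    _ ≤ V ^ n * (D ^ (m + 1) * (‖Pd.cf f n j‖ ^ q * τ ^ (σ * m * (m + 1)))) := by
        refine mul_le_mul_of_nonneg_left ?_ (by positivity)
        refine mul_le_mul (pow_le_pow_right₀ hD1 hq) ?_ (by positivity) (by positivity)
        refine mul_le_mul_of_nonneg_left (pow_le_pow_right₀ hτ1 ?_) (by positivity)
        exact Nat.mul_le_mul_left _ hq

end

/-- a nonzero integer is not small -/
theorem int_low {K : Type} [Field K] [NumberField K] (b : 𝓞 K) (hb : b ≠ 0) (Y : ℝ)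
    (hY : 1 ≤ Y) (h : ∀ ψ : K →+* ℂ, ‖res ψ b‖ ≤ Y) (φ : K →+* ℂ) :
    1 ≤ ‖res φ b‖ * Y ^ Fintype.card (K →+* ℂ) := by
  classical
  have h1 : 1 ≤ ∏ ψ : K →+* ℂ, ‖res ψ b‖ := Pd.one_le_prod b hb
  rw [← Finset.mul_prod_erase univ _ (mem_univ φ)] at h1
  refine h1.trans (mul_le_mul_of_nonneg_left ?_ (norm_nonneg _))
  calc ∏ ψ ∈ univ.erase φ, ‖res ψ b‖ ≤ ∏ _ψ ∈ univ.erase φ, Y :=
        prod_le_prod (fun _ _ => norm_nonneg _) fun ψ _ => h ψ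
    _ = Y ^ (univ.erase φ).card := prod_const _
    _ ≤ _ := pow_le_pow_right₀ hY (by
        rw [← Finset.card_univ]
        exact card_le_card (erase_subset _ _))

end VLO

open VLO in
theorem prVLO (hVCO : StVCO) (hRTB : StRTB) (hCFD : StCFD) : StVLO := by
  intro K _ _ m σ
  obtain ⟨C₁, s₁, hC₁, hco⟩ := hVCO K m σ
  obtain ⟨D, hD⟩ : ∃ D, D = Fintype.card (K →+* ℂ) := ⟨_, rfl⟩
  have b0 : PB fun H => H := PB.id
  have b1 : PB fun H => (C₁ * H) ^ s₁ := ((PB.const C₁ (by linarith)).mul b0).pow s₁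
  have b2 : PB fun H => 2 * H * H ^ D := ((PB.const 2 (by norm_num)).mul b0).mul (b0.pow D)
  have b3 : PB fun H => Wc m σ H (H ^ D) ((C₁ * H) ^ s₁) (((C₁ * H) ^ s₁) ^ D) := by
    unfold Wc
    exact (((PB.const 2 (by norm_num)).mul (b0.pow D)).pow _).mul ((b2.pow _).mul
      (((((PB.const ((m : ℝ) + 1) (by positivity)).mul b1).mul (b2.pow σ)).mul
        (b1.pow D)).pow _))
  have b4 : PB fun H => Wc m σ H (H ^ D) ((C₁ * H) ^ s₁) (((C₁ * H) ^ s₁) ^ D) *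
      (2 ^ (m + 1)) ^ (m + 1) := b3.mul (PB.const _ (by positivity))
  have b5 : PB fun H => (((m : ℝ) + 1) * (((m : ℝ) + 3) * H) ^ m) ^ (m + 1) :=
    ((PB.const ((m : ℝ) + 1) (by positivity)).mul
      (((PB.const ((m : ℝ) + 3) (by positivity)).mul b0).pow m)).pow _
  obtain ⟨C₀, s, hC₀, hs, hCs⟩ := PB.common b4 b5 (σ * m * (m + 1))
  refine ⟨C₀, s, hC₀, fun H F hF p q hq hp hqm hsl hex φ t₀ n => ?_⟩
  obtain ⟨i₀, hi₀, hne, hdeg⟩ := hex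
  obtain ⟨c, A, hc, hA, hAd, hsz⟩ := hco H F hF
  have hH := hF.one
  have hY : 1 ≤ (C₁ * H) ^ s₁ := one_le_pow₀ (one_le_mul_of_one_le_of_one_le hC₁ hH)
  have hlc : 1 ≤ ‖res φ (F.coeff i₀).leadingCoeff‖ * H ^ D := by
    rw [hD]
    refine int_low _ (leadingCoeff_ne_zero.2 hne) H hH (fun ψ => ?_) φ
    refine le_trans ?_ (hF.ht ψ i₀ hi₀)
    unfold pn
    exact single_le_sum (f := fun i => ‖res ψ ((F.coeff i₀).coeff i)‖)
      (fun _ _ => norm_nonneg _) (mem_range.2 (Nat.lt_succ_self _))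
  have hcl : 1 ≤ ‖res φ c‖ * ((C₁ * H) ^ s₁) ^ D := by
    rw [hD]
    exact int_low c hc _ hY (fun ψ => (hsz ψ).1) φ
  have hW1 : 1 ≤ Wc m σ H (H ^ D) ((C₁ * H) ^ s₁) (((C₁ * H) ^ s₁) ^ D) := by
    unfold Wc
    have e1 : 1 ≤ H ^ D := one_le_pow₀ hH
    have e2 : 1 ≤ 2 * H * H ^ D :=
      one_le_mul_of_one_le_of_one_le (by linarith) e1
    have hm0 : (0 : ℝ) ≤ m := Nat.cast_nonneg m
    refine one_le_mul_of_one_le_of_one_le (one_le_pow₀ (by linarith))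
      (one_le_mul_of_one_le_of_one_le (one_le_pow₀ e2) (one_le_pow₀ ?_))
    exact one_le_mul_of_one_le_of_one_le (one_le_mul_of_one_le_of_one_le
      (one_le_mul_of_one_le_of_one_le (by linarith) hY) (one_le_pow₀ e2)) (one_le_pow₀ hY)
  have hcA := claimA (res φ) m σ p q F H (H ^ D) ((C₁ * H) ^ s₁) (((C₁ * H) ^ s₁) ^ D) hH
    (one_le_pow₀ hH) hY (one_le_pow₀ hY) hqm hp (fun i hi => hF.ht φ i hi) i₀ hi₀ hlc hdeg A c
    hcl hA hAd (fun i => (hsz φ).2 i) t₀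
  obtain ⟨j, hj⟩ := core hRTB hCFD (res φ) m σ p q F _ H hH hW1 hqm hF.crv.monic hF.crv.deg
    (fun i hi => hF.ht φ i hi) hF.dg t₀ hcA n
  refine ⟨j, ?_⟩
  have htt : tt φ t₀ 1 = max ‖res φ t₀‖ 1 := by
    unfold tt
    rw [map_one, norm_one]
  rw [htt]
  obtain ⟨g1, g2⟩ := hCs H hH
  have hCH : 1 ≤ C₀ * H := one_le_mul_of_one_le_of_one_le hC₀ hH
  have hτ1 : 1 ≤ max ‖res φ t₀‖ 1 := le_max_right _ _
  refine hj.trans ?_
  have e3 : (C₀ * H) ^ (s * (n + 1)) = ((C₀ * H) ^ s) ^ n * (C₀ * H) ^ s := by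
    rw [mul_add, mul_one, pow_add, pow_mul]
  rw [e3]
  calc _ ≤ ((C₀ * H) ^ s) ^ n * ((C₀ * H) ^ s *
        (‖res φ ((Pd.cf F n j).eval t₀)‖ ^ q * max ‖res φ t₀‖ 1 ^ s)) := by
        refine mul_le_mul (pow_le_pow_left₀ (by positivity) g1 n) ?_ (by positivity)
          (by positivity)
        refine mul_le_mul g2 ?_ (by positivity) (by positivity)
        exact mul_le_mul_of_nonneg_left (pow_le_pow_right₀ hτ1 hs) (by positivity)
    _ = _ := by ring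

end Pool.Agent.Work.MP_8d13b5_lc.Fm
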