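import Pool.Agent.Work.MP_8d13b5_lc.Fm.StmtsX
import Pool.Agent.Work.MP_8d13b5_lc.Fm.I_VLO
import Pool.Agent.Work.MP_8d13b5_lc.Fm.I_LO2

set_option autoImplicit false

/-! Item XLO: the lower bound for the largest `cf_j`, for families whose coefficients may have
common factors. -/

namespace Pool.Agent.Work.MP_8d13b5_lc.Fm

open Polynomial NumberField Finset Module

namespace XLO

section
variable {R : Type} [CommRing R]

/-- the constant of the claim -/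
noncomputable def Wx (m s : ℕ) (Y B : ℝ) : ℝ :=
  (2 * B) * ((2 * Y * B) ^ s * (((m : ℝ) + 1) * Y * (2 * Y * B) ^ s * B))

/-- some cofactor is large -/
theorem claim (φ : R →+* ℂ) (m s θ : ℕ) (w A : ℕ → R[X]) (r : R) (Y B : ℝ) (hY : 1 ≤ Y)
    (hB : 1 ≤ B) (hθ : θ ≤ s) (hw : ∀ i ≤ m, pn φ (w i) ≤ Y) (i₀ : ℕ) (hi₀ : i₀ ≤ m)
    (hlc : 1 ≤ ‖φ (w i₀).leadingCoeff‖ * B) (hd : (w i₀).natDegree = θ)
    (hr : 1 ≤ ‖φ r‖ * B) (hA : ∑ i ∈ range (m + 1), A i * w i = C r)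
    (hAd : ∀ i, (A i).natDegree ≤ s) (hAp : ∀ i ≤ m, pn φ (A i) ≤ Y) (t : R) :
    ∃ i ≤ m, (max ‖φ t‖ 1) ^ θ ≤ Wx m s Y B * ‖φ ((w i).eval t)‖ := by
  obtain ⟨ρ, hρ⟩ : ∃ ρ, ρ = 2 * Y * B := ⟨_, rfl⟩
  have hρ1 : 1 ≤ ρ := by rw [hρ]; nlinarith
  have hm1 : (1 : ℝ) ≤ (m : ℝ) + 1 := by
    have : (0 : ℝ) ≤ m := Nat.cast_nonneg m
    linarith
  obtain ⟨Z, hZ⟩ : ∃ Z, Z = ((m : ℝ) + 1) * Y * ρ ^ s * B := ⟨_, rfl⟩
  have hZ1 : 1 ≤ Z := by
    rw [hZ]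
    exact one_le_mul_of_one_le_of_one_le (one_le_mul_of_one_le_of_one_le
      (one_le_mul_of_one_le_of_one_le hm1 hY) (one_le_pow₀ hρ1)) hB
  have hW : Wx m s Y B = (2 * B) * (ρ ^ s * Z) := by
    unfold Wx
    rw [hZ, hρ]
  rw [hW]
  rcases le_total ρ ‖φ t‖ with ht | ht
  · refine ⟨i₀, hi₀, ?_⟩
    have e : max ‖φ t‖ 1 = ‖φ t‖ := max_eq_left (hρ1.trans ht)
    rw [e]
    have h1 := VLO.lower φ (w i₀) t Y B hY hB (hw i₀ hi₀) hlc (hρ ▸ ht)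
    rw [hd] at h1
    have h2 : (1 : ℝ) ≤ ρ ^ s * Z :=
      one_le_mul_of_one_le_of_one_le (one_le_pow₀ hρ1) hZ1
    refine h1.trans (mul_le_mul_of_nonneg_right ?_ (norm_nonneg _))
    exact le_mul_of_one_le_right (by positivity) h2
  · have hmax : max ‖φ t‖ 1 ≤ ρ := max_le ht hρ1
    obtain ⟨i, hi, hi1⟩ : ∃ i ∈ range (m + 1), 1 ≤ Z * ‖φ ((w i).eval t)‖ := by
      by_contra hcon
      push Not at hcon
      have h1 : φ r = ∑ i ∈ range (m + 1), φ ((A i).eval t) * φ ((w i).eval t) := by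
        have := congrArg (fun P : R[X] => φ (P.eval t)) hA
        simp only [eval_finsetSum, eval_mul, eval_C, map_sum, map_mul] at this
        exact this.symm
      have h2 : ∀ i ∈ range (m + 1), ‖φ ((A i).eval t)‖ ≤ Y * ρ ^ s := fun i hi => by
        refine (VLO.upper φ (A i) t).trans (mul_le_mul
          (hAp i (Nat.lt_succ_iff.1 (mem_range.1 hi))) ?_ (by positivity) (by linarith))
        exact (pow_le_pow_left₀ (by positivity) hmax _).trans (pow_le_pow_right₀ hρ1 (hAd i))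
      have h3 : ‖φ r‖ ≤ ∑ i ∈ range (m + 1), Y * ρ ^ s * ‖φ ((w i).eval t)‖ := by
        rw [h1]
        refine (norm_sum_le _ _).trans (sum_le_sum fun i hi => ?_)
        rw [norm_mul]
        exact mul_le_mul_of_nonneg_right (h2 i hi) (norm_nonneg _)
      have h4 : (((m : ℝ) + 1) * B) * ‖φ r‖ ≤
          ∑ i ∈ range (m + 1), Z * ‖φ ((w i).eval t)‖ := by
        refine (mul_le_mul_of_nonneg_left h3 (by positivity)).trans (le_of_eq ?_)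
        rw [mul_sum]
        refine sum_congr rfl fun i _ => ?_
        rw [hZ]
        ring
      have h5 : ∑ i ∈ range (m + 1), Z * ‖φ ((w i).eval t)‖ < ∑ _i ∈ range (m + 1), (1 : ℝ) :=
        sum_lt_sum_of_nonempty ⟨0, mem_range.2 (Nat.succ_pos m)⟩ fun i hi => hcon i hi
      rw [sum_const, card_range, nsmul_eq_mul, mul_one] at h5
      push_cast at h5
      have h6 : ((m : ℝ) + 1) * 1 ≤ ((m : ℝ) + 1) * (‖φ r‖ * B) :=
        mul_le_mul_of_nonneg_left hr (by positivity)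
      nlinarith
    refine ⟨i, Nat.lt_succ_iff.1 (mem_range.1 hi), ?_⟩
    have h7 : (max ‖φ t‖ 1) ^ θ ≤ ρ ^ s :=
      (pow_le_pow_left₀ (by positivity) hmax _).trans (pow_le_pow_right₀ hρ1 hθ)
    have h9 : (1 : ℝ) ≤ 2 * B := by linarith
    calc (max ‖φ t‖ 1) ^ θ ≤ ρ ^ s := h7
      _ ≤ ρ ^ s * (Z * ‖φ ((w i).eval t)‖) := le_mul_of_one_le_right (by positivity) hi1
      _ ≤ (2 * B) * (ρ ^ s * (Z * ‖φ ((w i).eval t)‖)) :=
          le_mul_of_one_le_left (by positivity) h9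
      _ = _ := by ring

theorem core (hRTB : StRTB) (hCFD : StCFD) (φ : R →+* ℂ) (m s b θ : ℕ) (F : R[X][X])
    (P : R[X]) (w : ℕ → R[X]) (r : R) (W Y : ℝ) (hY : 1 ≤ Y) (hW : 1 ≤ W)
    (hFm : F.Monic) (hFd : F.natDegree = m + 1) (hF : ∀ i ≤ m, pn φ (F.coeff i) ≤ Y)
    (hdg : ∀ i ≤ m, (F.coeff i).natDegree ≤ s) (hdv : ∀ i ≤ m, (m + 1 - i) ∣ b)
    (hfac : ∀ i ≤ m, C r * F.coeff i ^ (b / (m + 1 - i)) = P * w i) (hr : ‖φ r‖ ≤ Y) (t : R)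
    (hcA : ∃ i ≤ m, (max ‖φ t‖ 1) ^ θ ≤ W * ‖φ ((w i).eval t)‖)
    (n : ℕ) : ∃ j : Fin (m + 1), ‖φ (P.eval t)‖ ^ n * (max ‖φ t‖ 1) ^ (θ * n) ≤
      (W * Y * (2 ^ (m + 1)) ^ b) ^ n * ((((m : ℝ) + 1) * (((m : ℝ) + 3) * Y) ^ m) ^ b *
        (‖φ ((Pd.cf F n j).eval t)‖ ^ b * (max ‖φ t‖ 1) ^ (s * m * b))) := by
  have hψ : ∀ P : R[X], (φ.comp (evalRingHom t)) P = φ (P.eval t) := fun P => rfl
  obtain ⟨f, hf⟩ : ∃ f, f = F.map (φ.comp (evalRingHom t)) := ⟨_, rfl⟩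
  have hfm : f.Monic := by rw [hf]; exact hFm.map _
  have hfd : f.natDegree = m + 1 := by rw [hf, hFm.natDegree_map, hFd]
  have hfc : ∀ i, f.coeff i = φ ((F.coeff i).eval t) := fun i => by rw [hf, coeff_map, hψ]
  have hcf : ∀ j, Pd.cf f n j = φ ((Pd.cf F n j).eval t) := fun j => by
    rw [hf, hCFD.2.1 _ _ _ F n j hFm]
    rfl
  obtain ⟨τ, hτ⟩ : ∃ τ, τ = max ‖φ t‖ 1 := ⟨_, rfl⟩
  have hτ1 : 1 ≤ τ := by rw [hτ]; exact le_max_right _ _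
  rw [← hτ]
  rw [← hτ] at hcA
  obtain ⟨z, hz, hz1, hz2⟩ := hRTB (m + 1) f hfm hfd (by omega)
  have hm0 : (0 : ℝ) ≤ m := Nat.cast_nonneg m
  -- the size of the root
  have hzu : 1 + ‖z‖ ≤ ((m : ℝ) + 3) * Y * τ ^ s := by
    have h1 : ∑ i ∈ range (m + 1), ‖f.coeff i‖ ≤ ∑ _i ∈ range (m + 1), Y * τ ^ s := by
      refine sum_le_sum fun i hi => ?_
      have hi' : i ≤ m := Nat.lt_succ_iff.1 (mem_range.1 hi)
      rw [hfc i]
      refine (VLO.upper φ (F.coeff i) t).trans ?_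
      rw [← hτ]
      exact mul_le_mul (hF i hi') (pow_le_pow_right₀ hτ1 (hdg i hi')) (by positivity)
        (by linarith)
    rw [sum_const, card_range, nsmul_eq_mul] at h1
    push_cast at h1
    have h2 : 1 ≤ Y * τ ^ s := one_le_mul_of_one_le_of_one_le hY (one_le_pow₀ hτ1)
    have h3 : ((m : ℝ) + 3) * Y * τ ^ s = ((m : ℝ) + 1) * (Y * τ ^ s) + 2 * (Y * τ ^ s) := by
      ring
    linarith
  obtain ⟨V, hV⟩ : ∃ V, V = W * Y * (2 ^ (m + 1)) ^ b := ⟨_, rfl⟩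
  have hV1 : 1 ≤ V := by
    rw [hV]
    exact one_le_mul_of_one_le_of_one_le (one_le_mul_of_one_le_of_one_le hW hY)
      (one_le_pow₀ (one_le_pow₀ (by norm_num)))
  have hzl : ‖φ (P.eval t)‖ * τ ^ θ ≤ V * ‖z‖ ^ b := by
    obtain ⟨i, hi, hi2⟩ := hcA
    obtain ⟨e, he⟩ := hdv i hi
    have hpos : 0 < m + 1 - i := by omega
    have hdiv : b / (m + 1 - i) = e := by rw [he, Nat.mul_div_cancel_left _ hpos]
    have hfi := congrArg (fun Q : R[X] => ‖φ (Q.eval t)‖) (hfac i hi)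
    simp only [eval_mul, eval_C, eval_pow, map_mul, map_pow, norm_mul, norm_pow] at hfi
    rw [hdiv, ← hfc i] at hfi
    have hle : e ≤ b := by
      rw [he]
      exact Nat.le_mul_of_pos_left _ hpos
    have h1 := pow_le_pow_left₀ (norm_nonneg _) (hz2 i (Nat.lt_succ_iff.2 hi)) e
    have h2 : ‖f.coeff i‖ ^ e ≤ (2 ^ (m + 1)) ^ b * ‖z‖ ^ b := by
      refine h1.trans ?_
      rw [mul_pow, ← pow_mul ‖z‖, ← he]
      exact mul_le_mul_of_nonneg_right (pow_le_pow_right₀ (one_le_pow₀ (by norm_num)) hle)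
        (by positivity)
    calc ‖φ (P.eval t)‖ * τ ^ θ ≤ ‖φ (P.eval t)‖ * (W * ‖φ ((w i).eval t)‖) :=
          mul_le_mul_of_nonneg_left hi2 (norm_nonneg _)
      _ = W * (‖φ (P.eval t)‖ * ‖φ ((w i).eval t)‖) := by ring
      _ = W * (‖φ r‖ * ‖f.coeff i‖ ^ e) := by rw [← hfi]
      _ ≤ W * (Y * ((2 ^ (m + 1)) ^ b * ‖z‖ ^ b)) := by
          refine mul_le_mul_of_nonneg_left ?_ (by linarith)
          exact mul_le_mul hr h2 (by positivity) (by linarith)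
      _ = _ := by rw [hV]; ring
  -- the powers of the root
  obtain ⟨j, hj⟩ : ∃ j : Fin (m + 1), ‖z‖ ^ n ≤
      ((m : ℝ) + 1) * (‖Pd.cf f n j‖ * (1 + ‖z‖) ^ m) := by
    by_contra hcon
    push Not at hcon
    have h1 := LO2.pow_root f hfm hfd z hz n
    have h2 : ‖z‖ ^ n ≤ ∑ j : Fin (m + 1), ‖Pd.cf f n j‖ * (1 + ‖z‖) ^ m := by
      rw [← norm_pow, h1, Finset.sum_range]
      refine (norm_sum_le _ _).trans (sum_le_sum fun j _ => ?_)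
      rw [norm_mul, norm_pow]
      refine mul_le_mul_of_nonneg_left ?_ (norm_nonneg _)
      calc ‖z‖ ^ (j : ℕ) ≤ (1 + ‖z‖) ^ (j : ℕ) :=
            pow_le_pow_left₀ (norm_nonneg _) (by linarith) _
        _ ≤ _ := pow_le_pow_right₀ (by linarith [norm_nonneg z]) (Nat.lt_succ_iff.1 j.2)
    have hm1 : (0 : ℝ) < (m : ℝ) + 1 := by positivity
    have h3 : ∑ j : Fin (m + 1), ‖Pd.cf f n j‖ * (1 + ‖z‖) ^ m <
        ∑ _j : Fin (m + 1), ‖z‖ ^ n / ((m : ℝ) + 1) := by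
      refine sum_lt_sum_of_nonempty univ_nonempty fun j _ => ?_
      rw [lt_div_iff₀ hm1, mul_comm]
      exact hcon j
    rw [sum_const, card_univ, Fintype.card_fin, nsmul_eq_mul] at h3
    have h4 : ((m + 1 : ℕ) : ℝ) * (‖z‖ ^ n / ((m : ℝ) + 1)) = ‖z‖ ^ n := by
      push_cast
      field_simp
    rw [h4] at h3
    exact lt_irrefl _ (h2.trans_lt h3)
  refine ⟨j, ?_⟩
  rw [← hcf j, ← hV]
  obtain ⟨D, hD⟩ : ∃ D : ℝ, D = ((m : ℝ) + 1) * (((m : ℝ) + 3) * Y) ^ m := ⟨_, rfl⟩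
  rw [← hD]
  have h5 : ‖z‖ ^ n ≤ D * (‖Pd.cf f n j‖ * τ ^ (s * m)) := by
    calc ‖z‖ ^ n ≤ ((m : ℝ) + 1) * (‖Pd.cf f n j‖ * (1 + ‖z‖) ^ m) := hj
      _ ≤ ((m : ℝ) + 1) * (‖Pd.cf f n j‖ * (((m : ℝ) + 3) * Y * τ ^ s) ^ m) := by
          refine mul_le_mul_of_nonneg_left (mul_le_mul_of_nonneg_left ?_ (norm_nonneg _))
            (by positivity)
          exact pow_le_pow_left₀ (by positivity) hzu m
      _ = _ := by
          rw [hD, mul_pow _ (τ ^ s), ← pow_mul]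
          ring
  calc ‖φ (P.eval t)‖ ^ n * τ ^ (θ * n) = (‖φ (P.eval t)‖ * τ ^ θ) ^ n := by
        rw [mul_pow, ← pow_mul]
    _ ≤ (V * ‖z‖ ^ b) ^ n := pow_le_pow_left₀ (by positivity) hzl n
    _ = V ^ n * (‖z‖ ^ n) ^ b := by rw [mul_pow, ← pow_mul, ← pow_mul, mul_comm b]
    _ ≤ V ^ n * (D * (‖Pd.cf f n j‖ * τ ^ (s * m))) ^ b :=
        mul_le_mul_of_nonneg_left (pow_le_pow_left₀ (by positivity) h5 b) (by positivity)
    _ = V ^ n * (D ^ b * (‖Pd.cf f n j‖ ^ b * τ ^ (s * m * b))) := by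
        rw [mul_pow, mul_pow, ← pow_mul]

end

end XLO

open VLO XLO in
theorem prXLO (hRTB : StRTB) (hCFD : StCFD) : StXLO := by
  intro K _ _ m s
  obtain ⟨D, hD⟩ : ∃ D, D = Fintype.card (K →+* ℂ) := ⟨_, rfl⟩
  have b0 : PB fun Y => Y := PB.id
  have b2 : PB fun Y => 2 * Y * Y ^ D := ((PB.const 2 (by norm_num)).mul b0).mul (b0.pow D)
  have b3 : PB fun Y => Wx m s Y (Y ^ D) := by
    unfold Wx
    exact ((PB.const 2 (by norm_num)).mul (b0.pow D)).mul ((b2.pow s).mul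
      ((((PB.const ((m : ℝ) + 1) (by positivity)).mul b0).mul (b2.pow s)).mul (b0.pow D)))
  have b4 : PB fun Y => Wx m s Y (Y ^ D) * Y * (2 ^ (m + 1)) ^ (m + 1).factorial :=
    (b3.mul b0).mul (PB.const _ (by positivity))
  have b5 : PB fun Y => (((m : ℝ) + 1) * (((m : ℝ) + 3) * Y) ^ m) ^ (m + 1).factorial :=
    ((PB.const ((m : ℝ) + 1) (by positivity)).mul
      (((PB.const ((m : ℝ) + 3) (by positivity)).mul b0).pow m)).pow _
  obtain ⟨C₀, s', hC₀, hs, hCs⟩ := PB.common b4 b5 (s * m * (m + 1).factorial)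
  refine ⟨C₀, s', hC₀, fun Y F θ P w A r hFm hFd hdg hF hPi φ t₀ n => ?_⟩
  obtain ⟨i₀, hi₀, hne, hdeg⟩ := hPi.pi.top
  have hY := hPi.one
  have hYD : 1 ≤ Y ^ D := one_le_pow₀ hY
  have hlc : 1 ≤ ‖res φ (w i₀).leadingCoeff‖ * Y ^ D := by
    rw [hD]
    refine int_low _ (leadingCoeff_ne_zero.2 hne) Y hY (fun ψ => ?_) φ
    refine le_trans ?_ (hPi.hw ψ i₀ hi₀)
    unfold pn
    exact single_le_sum (f := fun i => ‖res ψ ((w i₀).coeff i)‖)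
      (fun _ _ => norm_nonneg _) (mem_range.2 (Nat.lt_succ_self _))
  have hrl : 1 ≤ ‖res φ r‖ * Y ^ D := by
    rw [hD]
    exact int_low r hPi.pi.h1 Y hY hPi.hr φ
  have hW1 : 1 ≤ Wx m s Y (Y ^ D) := by
    unfold Wx
    have e2 : 1 ≤ 2 * Y * Y ^ D :=
      one_le_mul_of_one_le_of_one_le (by linarith) hYD
    have hm0 : (0 : ℝ) ≤ m := Nat.cast_nonneg m
    refine one_le_mul_of_one_le_of_one_le (by linarith)
      (one_le_mul_of_one_le_of_one_le (one_le_pow₀ e2) ?_)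
    exact one_le_mul_of_one_le_of_one_le (one_le_mul_of_one_le_of_one_le
      (one_le_mul_of_one_le_of_one_le (by linarith) hY) (one_le_pow₀ e2)) hYD
  have hcA := claim (res φ) m s θ w A r Y (Y ^ D) hY hYD hPi.dθ (fun i hi => hPi.hw φ i hi) i₀
    hi₀ hlc hdeg hrl hPi.bz hPi.dA (fun i hi => hPi.hA φ i hi) t₀
  obtain ⟨j, hj⟩ := XLO.core hRTB hCFD (res φ) m s (m + 1).factorial θ F P w r _ Y hY hW1 hFm hFd
    (fun i hi => hF φ i hi) hdg hPi.pi.dvd hPi.pi.fac (hPi.hr φ) t₀ hcA n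
  refine ⟨j, ?_⟩
  have htt : tt φ t₀ 1 = max ‖res φ t₀‖ 1 := by
    unfold tt
    rw [map_one, norm_one]
  rw [htt]
  obtain ⟨g1, g2⟩ := hCs Y hY
  have hCH : 1 ≤ C₀ * Y := one_le_mul_of_one_le_of_one_le hC₀ hY
  have hτ1 : 1 ≤ max ‖res φ t₀‖ 1 := le_max_right _ _
  refine hj.trans ?_
  have e3 : (C₀ * Y) ^ (s' * (n + 1)) = ((C₀ * Y) ^ s') ^ n * (C₀ * Y) ^ s' := by
    rw [mul_add, mul_one, pow_add, pow_mul]
  rw [e3]
  calc _ ≤ ((C₀ * Y) ^ s') ^ n * ((C₀ * Y) ^ s' *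
        (‖res φ ((Pd.cf F n j).eval t₀)‖ ^ (m + 1).factorial * max ‖res φ t₀‖ 1 ^ s')) := by
        refine mul_le_mul (pow_le_pow_left₀ (by positivity) g1 n) ?_ (by positivity)
          (by positivity)
        refine mul_le_mul g2 ?_ (by positivity) (by positivity)
        exact mul_le_mul_of_nonneg_left (pow_le_pow_right₀ hτ1 hs) (by positivity)
    _ = _ := by ring

end Pool.Agent.Work.MP_8d13b5_lc.Fm
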