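import Pool.Agent.Work.MP_8d13b5_lc.Fm.StmtsX

set_option autoImplicit false

/-!
MP_8d13b5_lc, block FMX, item XPI: the common factor with sizes.
-/

namespace Pool.Agent.Work.MP_8d13b5_lc.Fm

open Polynomial NumberField Finset Module

namespace XPI

/-- coefficients of a product -/
lemma coeff_mul_le {R : Type} [CommRing R] (A h : R[X]) (D l : ℕ) (hA : A.natDegree ≤ D) :
    (A * h).coeff l =
      ∑ j : Fin (D + 1), (if (j : ℕ) ≤ l then h.coeff (l - j) else 0) * A.coeff j := by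
  have h1 : A = ∑ j ∈ range (D + 1), C (A.coeff j) * X ^ j :=
    A.as_sum_range_C_mul_X_pow' (by omega)
  rw [Finset.sum_range] at h1
  conv_lhs => rw [h1]
  rw [Finset.sum_mul, finset_sum_coeff]
  refine Finset.sum_congr rfl (fun j _ => ?_)
  rw [mul_assoc, coeff_C_mul, coeff_X_pow_mul']
  ring

/-- the polynomial with given coefficients -/
noncomputable def pol {R : Type} [CommRing R] {D : ℕ} (x : Fin (D + 1) → R) : R[X] :=
  ∑ j : Fin (D + 1), C (x j) * X ^ (j : ℕ)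

lemma pol_coeff {R : Type} [CommRing R] {D : ℕ} (x : Fin (D + 1) → R) (j : Fin (D + 1)) :
    (pol x).coeff j = x j := by
  rw [pol, finset_sum_coeff, Finset.sum_eq_single j]
  · simp
  · intro i _ hij
    rw [coeff_C_mul, coeff_X_pow, if_neg, mul_zero]
    intro h
    exact hij (Fin.ext h.symm)
  · intro h
    exact absurd (mem_univ j) h

lemma pol_natDegree {R : Type} [CommRing R] {D : ℕ} (x : Fin (D + 1) → R) :
    (pol x).natDegree ≤ D := by
  refine natDegree_sum_le_of_forall_le _ _ (fun j _ => ?_)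
  refine (natDegree_C_mul_X_pow_le _ _).trans ?_
  have := j.2
  omega

lemma pol_coeff_cases {R : Type} [CommRing R] {D : ℕ} (x : Fin (D + 1) → R) (l : ℕ) :
    (pol x).coeff l = 0 ∨ ∃ j, (pol x).coeff l = x j := by
  by_cases hl : l < D + 1
  · right
    exact ⟨⟨l, hl⟩, pol_coeff x ⟨l, hl⟩⟩
  · left
    have := pol_natDegree x
    exact coeff_eq_zero_of_natDegree_lt (by omega)

open Classical in
/-- Cramer's rule for polynomial equations -/
theorem sys (hC : StCRS) (K : Type) [Field K] [NumberField K] (k D : ℕ) :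
    ∃ (C₀ : ℝ) (s : ℕ), 1 ≤ C₀ ∧ ∀ (Y : ℝ) (h : Fin k → (𝓞 K)[X]) (S : ℕ → Prop) (v : ℕ → 𝓞 K),
      1 ≤ Y → (∀ (φ : K →+* ℂ) i l, ‖res φ ((h i).coeff l)‖ ≤ Y) →
      (∀ (φ : K →+* ℂ) l, ‖res φ (v l)‖ ≤ Y) →
      (∃ A' : Fin k → K[X], (∀ i, (A' i).natDegree ≤ D) ∧ ∀ l, S l →
        (∑ i, A' i * (h i).map (algebraMap (𝓞 K) K)).coeff l = (v l : K)) →
      ∃ (c : 𝓞 K) (A : Fin k → (𝓞 K)[X]), c ≠ 0 ∧ (∀ i, (A i).natDegree ≤ D) ∧
        (∀ l ≤ 2 * D, S l → (∑ i, A i * h i).coeff l = c * v l) ∧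
        (∀ φ : K →+* ℂ, ‖res φ c‖ ≤ (C₀ * Y) ^ s) ∧
        ∀ (φ : K →+* ℂ) i l, ‖res φ ((A i).coeff l)‖ ≤ (C₀ * Y) ^ s := by
  obtain ⟨C₀, s, hC₀, H⟩ := hC K (2 * D + 1) (k * (D + 1))
  refine ⟨C₀, s, hC₀, ?_⟩
  intro Y h S v hY hh hv hA'
  obtain ⟨A', hA'd, hA'⟩ := hA'
  let e : Fin k × Fin (D + 1) ≃ Fin (k * (D + 1)) := finProdFinEquiv
  let M : Fin (2 * D + 1) → Fin (k * (D + 1)) → 𝓞 K := fun l q =>
    if S l then (if (((e.symm q).2 : Fin (D + 1)) : ℕ) ≤ (l : ℕ) then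
      (h (e.symm q).1).coeff ((l : ℕ) - ((e.symm q).2 : Fin (D + 1))) else 0) else 0
  let u : Fin (2 * D + 1) → 𝓞 K := fun l => if S l then v l else 0
  have hY0 : 0 ≤ Y := by linarith
  obtain ⟨c, x, hc, hx, hcs, hxs⟩ := H Y M u hY
    (by
      intro φ l q
      simp only [M]
      split_ifs
      · exact hh φ _ _
      · simpa using hY0
      · simpa using hY0)
    (by
      intro φ l
      simp only [u]
      split_ifs
      · exact hv φ _
      · simpa using hY0)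
    (by
      refine ⟨fun q => (A' (e.symm q).1).coeff ((e.symm q).2 : Fin (D + 1)), ?_⟩
      intro l
      by_cases hl : S l
      · simp only [M, u, if_pos hl]
        rw [← hA' l hl, finset_sum_coeff, ← Equiv.sum_comp e, Fintype.sum_prod_type]
        refine Finset.sum_congr rfl (fun i _ => ?_)
        rw [coeff_mul_le _ _ D _ (hA'd i)]
        refine Finset.sum_congr rfl (fun j _ => ?_)
        simp only [Equiv.symm_apply_apply, coeff_map]
        split_ifs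
        · rfl
        · simp
      · simp only [M, u, if_neg hl]
        simp)
  refine ⟨c, fun i => pol (fun j => x (e (i, j))), hc, fun i => pol_natDegree _, ?_, hcs, ?_⟩
  · intro l hl hS
    have h1 := hx ⟨l, by omega⟩
    simp only [M, u, if_pos hS] at h1
    rw [← h1, finset_sum_coeff, ← Equiv.sum_comp e, Fintype.sum_prod_type]
    refine Finset.sum_congr rfl (fun i _ => ?_)
    rw [coeff_mul_le _ _ D _ (pol_natDegree _)]
    refine Finset.sum_congr rfl (fun j _ => ?_)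
    simp only [Equiv.symm_apply_apply, pol_coeff]
  · intro φ i l
    have hpos : 0 ≤ (C₀ * Y) ^ s := by positivity
    rcases pol_coeff_cases (fun j => x (e (i, j))) l with h0 | ⟨j, hj⟩
    · rw [h0, map_zero, norm_zero]
      exact hpos
    · rw [hj]
      exact hxs φ _

/-- Bezout's relation with bounded degrees -/
theorem bez {k : Type} [Field k] {N : ℕ} (h : Fin N → k[X]) (D : ℕ)
    (hD : ∀ i, (h i).natDegree ≤ D) (hne : ∃ i, h i ≠ 0) :
    ∃ (g : k[X]) (A : Fin N → k[X]), g.Monic ∧ (∀ i, g ∣ h i) ∧ ∑ i, A i * h i = g ∧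
      (∀ i, (A i).natDegree ≤ D) ∧ g.natDegree ≤ D := by
  classical
  set I : Ideal k[X] := Ideal.span (Set.range h) with hI
  set g₀ : k[X] := Submodule.IsPrincipal.generator I with hg₀
  have hIg : Ideal.span {g₀} = I := Ideal.span_singleton_generator I
  obtain ⟨i₀, hi₀⟩ := hne
  have hdvd₀ : ∀ i, g₀ ∣ h i := by
    intro i
    rw [← Ideal.mem_span_singleton, hIg]
    exact Ideal.subset_span ⟨i, rfl⟩
  have hg0 : g₀ ≠ 0 := by
    intro h0
    apply hi₀
    have := hdvd₀ i₀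
    rw [h0] at this
    exact zero_dvd_iff.mp this
  set g : k[X] := normalize g₀ with hg
  have hgm : g.Monic := Polynomial.monic_normalize hg0
  have hdvd : ∀ i, g ∣ h i := fun i => normalize_dvd_iff.mpr (hdvd₀ i)
  have hgI : g ∈ I := by
    rw [← hIg, Ideal.mem_span_singleton, hg, dvd_normalize_iff]
  obtain ⟨A, hA⟩ := Ideal.mem_span_range_iff_exists_fun.mp hgI
  -- the element of largest degree
  obtain ⟨a, ha, hmax⟩ := Finset.exists_max_image (univ.filter (fun i => h i ≠ 0))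
    (fun i => (h i).natDegree) ⟨i₀, by simp [hi₀]⟩
  have ha0 : h a ≠ 0 := (mem_filter.mp ha).2
  have hmax' : ∀ i, (h i).natDegree ≤ (h a).natDegree := by
    intro i
    by_cases hi : h i = 0
    · rw [hi]
      simp
    · exact hmax i (by simp [hi])
  have hgd : g.natDegree ≤ (h a).natDegree := natDegree_le_of_dvd (hdvd a) ha0
  let B : Fin N → k[X] := fun i =>
    if i = a then A a + ∑ j ∈ univ.erase a, (A j / h a) * h j else A i % h a
  have hBa : B a = A a + ∑ j ∈ univ.erase a, (A j / h a) * h j := if_pos rfl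
  have hBi : ∀ i, i ≠ a → B i = A i % h a := fun i hi => if_neg hi
  have hsum : ∑ i, B i * h i = g := by
    rw [← Finset.add_sum_erase univ _ (mem_univ a), hBa, ← hA,
      ← Finset.add_sum_erase univ (fun i => A i * h i) (mem_univ a), add_mul, add_assoc]
    congr 1
    rw [Finset.sum_mul, ← Finset.sum_add_distrib]
    refine Finset.sum_congr rfl (fun i hi => ?_)
    rw [hBi i (ne_of_mem_erase hi)]
    have h1 := EuclideanDomain.div_add_mod (A i) (h a)
    calc A i / h a * h i * h a + A i % h a * h i = (h a * (A i / h a) + A i % h a) * h i := by ring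
      _ = A i * h i := by rw [h1]
  have hmod : ∀ i, (A i % h a).natDegree ≤ (h a).natDegree := fun i =>
    natDegree_le_natDegree (degree_mod_lt (A i) ha0).le
  refine ⟨g, B, hgm, hdvd, hsum, ?_, hgd.trans (hD a)⟩
  intro i
  by_cases hi : i = a
  · rw [hi]
    by_cases hB0 : B a = 0
    · rw [hB0]; simp
    have h2 : B a * h a = g - ∑ i ∈ univ.erase a, B i * h i := by
      rw [← hsum, ← Finset.add_sum_erase univ (fun i => B i * h i) (mem_univ a)]
      ring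
    have h3 : (B a * h a).natDegree ≤ 2 * (h a).natDegree := by
      rw [h2]
      refine (natDegree_sub_le _ _).trans (max_le (by omega) ?_)
      refine natDegree_sum_le_of_forall_le _ _ (fun i hi => ?_)
      rw [hBi i (ne_of_mem_erase hi)]
      refine natDegree_mul_le.trans ?_
      have := hmod i
      have := hmax' i
      omega
    rw [natDegree_mul hB0 ha0] at h3
    have := hD a
    omega
  · rw [hBi i hi]
    exact (hmod i).trans (hD a)

lemma pn_le (hPN : StPN) {R : Type} [CommRing R] (φ : R →+* ℂ) (P : R[X]) (D : ℕ) (Z : ℝ)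
    (hP : P.natDegree ≤ D) (hZ : ∀ l, ‖φ (P.coeff l)‖ ≤ Z) : pn φ P ≤ (D + 1) * Z := by
  obtain ⟨_, _, _, _, _, _, _, hf, _⟩ := hPN R φ
  rw [hf P D hP]
  refine (Finset.sum_le_card_nsmul _ _ Z (fun i _ => hZ i)).trans (le_of_eq ?_)
  rw [card_range, nsmul_eq_mul]
  push_cast
  ring

theorem step2 (hC : StCRS) (hPN : StPN) (K : Type) [Field K] [NumberField K] (m D : ℕ) :
    ∃ (C₀ : ℝ) (s : ℕ), 1 ≤ C₀ ∧ ∀ (Y : ℝ) (h : Fin (m + 1) → (𝓞 K)[X]), 1 ≤ Y →
      (∀ i, (h i).natDegree ≤ D) → (∀ (φ : K →+* ℂ) i, pn (res φ) (h i) ≤ Y) → (∃ i, h i ≠ 0) →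
      ∃ (A : Fin (m + 1) → (𝓞 K)[X]), (∀ i, (A i).natDegree ≤ D) ∧ (∑ i, A i * h i) ≠ 0 ∧
        (∑ i, A i * h i).natDegree ≤ D ∧
        (∀ i, ∃ t : K[X], t.natDegree ≤ D ∧
          t * (∑ i, A i * h i).map (algebraMap (𝓞 K) K) = (h i).map (algebraMap (𝓞 K) K)) ∧
        ∀ (φ : K →+* ℂ) i l, ‖res φ ((A i).coeff l)‖ ≤ (C₀ * Y) ^ s := by
  classical
  obtain ⟨C₀, s, hC₀, H⟩ := sys hC K (m + 1) D
  refine ⟨C₀, s, hC₀, ?_⟩
  intro Y h hY hD hpn hne
  have hinj : Function.Injective (algebraMap (𝓞 K) K) := RingOfIntegers.coe_injective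
  have hcoef : ∀ (φ : K →+* ℂ) i l, ‖res φ ((h i).coeff l)‖ ≤ Y := by
    intro φ i l
    obtain ⟨_, _, _, _, _, _, hc, _, _⟩ := hPN (𝓞 K) (res φ)
    exact (hc _ _).trans (hpn φ i)
  set hK : Fin (m + 1) → K[X] := fun i => (h i).map (algebraMap (𝓞 K) K) with hhK
  obtain ⟨g, A', hgm, hgd, hgs, hA'd, hgD⟩ := bez hK D
    (fun i => by
      rw [hhK]
      exact (natDegree_map_le).trans (hD i))
    (by
      obtain ⟨i, hi⟩ := hne
      exact ⟨i, (Polynomial.map_ne_zero_iff hinj).mpr hi⟩)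
  set γ := g.natDegree with hγ
  obtain ⟨c, A, hc, hAd, hAs, _, hAb⟩ := H Y h (fun l => γ ≤ l) (fun l => if l = γ then 1 else 0)
    hY hcoef
    (by
      intro φ l
      split_ifs
      · simpa using hY
      · simp
        linarith)
    ⟨A', hA'd, by
      intro l hl
      rw [show (∑ i, A' i * (h i).map (algebraMap (𝓞 K) K)) = g from hgs]
      by_cases hlγ : l = γ
      · rw [hlγ, if_pos rfl]
        have : g.coeff γ = 1 := hgm
        rw [this]
        simp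
      · rw [if_neg hlγ, coeff_eq_zero_of_natDegree_lt (by omega)]
        simp⟩
  set P : (𝓞 K)[X] := ∑ i, A i * h i with hP
  have hP2 : P.natDegree ≤ 2 * D := by
    rw [hP]
    refine natDegree_sum_le_of_forall_le _ _ (fun i _ => ?_)
    refine natDegree_mul_le.trans ?_
    have := hAd i
    have := hD i
    omega
  have hPγ : P.coeff γ = c := by
    have := hAs γ (by omega) le_rfl
    rw [this, if_pos rfl, mul_one]
  have hPle : P.natDegree ≤ γ := by
    rw [natDegree_le_iff_coeff_eq_zero]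
    intro l hl
    by_cases hl2 : l ≤ 2 * D
    · rw [hAs l hl2 hl.le, if_neg (by omega), mul_zero]
    · exact coeff_eq_zero_of_natDegree_lt (by omega)
  have hPne : P ≠ 0 := by
    intro h0
    apply hc
    rw [← hPγ, h0, coeff_zero]
  have hPdeg : P.natDegree = γ :=
    natDegree_eq_of_le_of_coeff_ne_zero hPle (by rw [hPγ]; exact hc)
  refine ⟨A, hAd, hPne, hPdeg.le.trans hgD, ?_, hAb⟩
  set PK : K[X] := P.map (algebraMap (𝓞 K) K) with hPK
  have hPK0 : PK ≠ 0 := (Polynomial.map_ne_zero_iff hinj).mpr hPne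
  have hPKd : PK.natDegree = γ := by
    rw [hPK, natDegree_map_eq_of_injective hinj, hPdeg]
  have hgP : g ∣ PK := by
    rw [hPK, hP, Polynomial.map_sum]
    refine Finset.dvd_sum (fun i _ => ?_)
    rw [Polynomial.map_mul]
    exact (hgd i).mul_left _
  obtain ⟨u, hu⟩ := hgP
  have hu0 : u ≠ 0 := by
    intro h0
    apply hPK0
    rw [hu, h0, mul_zero]
  have hud : u.natDegree = 0 := by
    have h1 : PK.natDegree = g.natDegree + u.natDegree := by
      rw [hu, natDegree_mul hgm.ne_zero hu0]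
    omega
  obtain ⟨a, ha⟩ := natDegree_eq_zero.mp hud
  have ha0 : a ≠ 0 := by
    intro h0
    apply hu0
    rw [← ha, h0, C_0]
  intro i
  obtain ⟨t, ht⟩ := hgd i
  have hti : C a⁻¹ * t * PK = hK i := by
    rw [hu, ht, ← ha]
    have : C a⁻¹ * C a = (1 : K[X]) := by rw [← C_mul, inv_mul_cancel₀ ha0, C_1]
    calc C a⁻¹ * t * (g * C a) = (C a⁻¹ * C a) * (g * t) := by ring
      _ = g * t := by rw [this, one_mul]
  refine ⟨C a⁻¹ * t, ?_, hti⟩
  by_cases ht0 : C a⁻¹ * t = 0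
  · rw [ht0]; simp
  · have h1 : (hK i).natDegree = (C a⁻¹ * t).natDegree + PK.natDegree := by
      rw [← hti, natDegree_mul ht0 hPK0]
    have h2 : (hK i).natDegree ≤ D := (natDegree_map_le).trans (hD i)
    omega

theorem step3 (hC : StCRS) (K : Type) [Field K] [NumberField K] (D : ℕ) :
    ∃ (C₀ : ℝ) (s : ℕ), 1 ≤ C₀ ∧ ∀ (Y : ℝ) (P h : (𝓞 K)[X]), 1 ≤ Y →
      P.natDegree ≤ D → h.natDegree ≤ D → (∀ (φ : K →+* ℂ) l, ‖res φ (P.coeff l)‖ ≤ Y) →
      (∀ (φ : K →+* ℂ) l, ‖res φ (h.coeff l)‖ ≤ Y) →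
      (∃ t : K[X], t.natDegree ≤ D ∧
        t * P.map (algebraMap (𝓞 K) K) = h.map (algebraMap (𝓞 K) K)) →
      ∃ (c : 𝓞 K) (x : (𝓞 K)[X]), c ≠ 0 ∧ x.natDegree ≤ D ∧ x * P = C c * h ∧
        (∀ φ : K →+* ℂ, ‖res φ c‖ ≤ (C₀ * Y) ^ s) ∧
        ∀ (φ : K →+* ℂ) l, ‖res φ (x.coeff l)‖ ≤ (C₀ * Y) ^ s := by
  classical
  obtain ⟨C₀, s, hC₀, H⟩ := sys hC K 1 D
  refine ⟨C₀, s, hC₀, ?_⟩
  intro Y P h hY hPd hhd hP hh ht
  obtain ⟨t, htd, ht⟩ := ht
  obtain ⟨c, A, hc, hAd, hAs, hcb, hAb⟩ := H Y (fun _ => P) (fun _ => True) (fun l => h.coeff l) hY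
    (fun φ _ l => hP φ l) hh
    ⟨fun _ => t, fun _ => htd, by
      intro l _
      rw [Fin.sum_univ_one, ht, coeff_map]⟩
  refine ⟨c, A 0, hc, hAd 0, ?_, hcb, fun φ l => hAb φ 0 l⟩
  ext1 l
  rw [coeff_C_mul]
  by_cases hl : l ≤ 2 * D
  · rw [← hAs l hl trivial, Fin.sum_univ_one]
  · have h1 : (A 0 * P).natDegree ≤ 2 * D := by
      refine natDegree_mul_le.trans ?_
      have := hAd 0
      omega
    rw [coeff_eq_zero_of_natDegree_lt (by omega), coeff_eq_zero_of_natDegree_lt (by omega),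
      mul_zero]

lemma prod_le {ι : Type} (s : Finset ι) (f : ι → ℝ) (Z : ℝ) (h0 : ∀ i, 0 ≤ f i)
    (hf : ∀ i, f i ≤ Z) : ∏ i ∈ s, f i ≤ Z ^ s.card := by
  rw [← Finset.prod_const]
  exact Finset.prod_le_prod (fun i _ => h0 i) (fun i _ => hf i)

/-- the constants -/
lemma const_bound (κ : ℝ) (n D : ℕ) (hκ : 1 ≤ κ) (H : ℝ) (hH : 1 ≤ H) :
    κ * H ^ n ≤ (κ * H) ^ (n + D + 1) := by
  rw [mul_pow]
  have h1 : κ ≤ κ ^ (n + D + 1) := le_self_pow₀ hκ (by omega)
  have h2 : H ^ n ≤ H ^ (n + D + 1) := pow_le_pow_right₀ hH (by omega)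
  exact mul_le_mul h1 h2 (by positivity) (by positivity)

end XPI

open XPI

theorem prXPI (h1 : StCRS) (h2 : StPN) : StXPI := by
  classical
  intro K _ _ m σ
  set b := (m + 1).factorial with hb
  have hb1 : 1 ≤ b := Nat.succ_le_of_lt (Nat.factorial_pos _)
  set D := σ * b with hDdef
  obtain ⟨C₁, s₁, hC₁, H1⟩ := step2 h1 h2 K m D
  obtain ⟨C₂, s₂, hC₂, H2⟩ := step3 h1 K D
  set κ₂ : ℝ := (m + 1) * (D + 1) * C₁ ^ s₁ with hκ₂
  set n₂ : ℕ := b * s₁ + b with hn₂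
  set κ : ℝ := (D + 1) * κ₂ * (C₂ * κ₂) ^ (s₂ * (m + 1)) with hκ
  set n : ℕ := n₂ + n₂ * (s₂ * (m + 1)) with hn
  have hD1 : (1 : ℝ) ≤ (D : ℝ) + 1 := by
    have : (0 : ℝ) ≤ D := Nat.cast_nonneg _
    linarith
  have hm1 : (1 : ℝ) ≤ (m : ℝ) + 1 := by
    have : (0 : ℝ) ≤ m := Nat.cast_nonneg _
    linarith
  have hκ₂1 : 1 ≤ κ₂ := by
    have h3 : (1 : ℝ) ≤ C₁ ^ s₁ := one_le_pow₀ hC₁
    have h4 : (1 : ℝ) ≤ ((m : ℝ) + 1) * (D + 1) := one_le_mul_of_one_le_of_one_le hm1 hD1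
    exact one_le_mul_of_one_le_of_one_le h4 h3
  have hκ1 : 1 ≤ κ := by
    have h3 : (1 : ℝ) ≤ (C₂ * κ₂) ^ (s₂ * (m + 1)) :=
      one_le_pow₀ (one_le_mul_of_one_le_of_one_le hC₂ hκ₂1)
    exact one_le_mul_of_one_le_of_one_le (one_le_mul_of_one_le_of_one_le hD1 hκ₂1) h3
  refine ⟨κ, n + D + 1, hκ1, ?_⟩
  intro H F hH hF hFd hFH
  have hW := const_bound κ n D hκ1 H hH
  set W : ℝ := (κ * H) ^ (n + D + 1) with hWdef
  set Y₁ : ℝ := H ^ b with hY₁
  set Y₂ : ℝ := κ₂ * H ^ n₂ with hY₂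
  set Z₁ : ℝ := (C₁ * Y₁) ^ s₁ with hZ₁
  set Z₂ : ℝ := (C₂ * Y₂) ^ s₂ with hZ₂
  have hY₁1 : 1 ≤ Y₁ := one_le_pow₀ hH
  have hY₂1 : 1 ≤ Y₂ := one_le_mul_of_one_le_of_one_le hκ₂1 (one_le_pow₀ hH)
  have hZ₁1 : 1 ≤ Z₁ := one_le_pow₀ (one_le_mul_of_one_le_of_one_le hC₁ hY₁1)
  have hZ₂1 : 1 ≤ Z₂ := one_le_pow₀ (one_le_mul_of_one_le_of_one_le hC₂ hY₂1)
  have hZpow : 1 ≤ Z₂ ^ (m + 1) := one_le_pow₀ hZ₂1
  have hY₂eq : ((m : ℝ) + 1) * ((D + 1) * Z₁ * Y₁) = Y₂ := by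
    rw [hY₂, hZ₁, hY₁, hκ₂, hn₂, mul_pow, pow_add, pow_mul]
    ring
  have hWeq : (D + 1) * Y₂ * Z₂ ^ (m + 1) ≤ W := by
    refine le_trans (le_of_eq ?_) hW
    rw [hZ₂, hκ, hn, ← pow_mul, hY₂]
    rw [show C₂ * (κ₂ * H ^ n₂) = (C₂ * κ₂) * H ^ n₂ by ring, mul_pow,
      pow_add H n₂ (n₂ * (s₂ * (m + 1))), pow_mul H n₂ (s₂ * (m + 1))]
    ring
  -- the bounds by `W`
  have hb1W : Z₂ ^ (m + 1) ≤ W := by
    refine le_trans ?_ hWeq
    exact le_mul_of_one_le_left (by positivity) (one_le_mul_of_one_le_of_one_le hD1 hY₂1)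
  have hb2W : Y₂ ≤ W := by
    refine le_trans ?_ hWeq
    calc Y₂ = 1 * Y₂ * 1 := by ring
      _ ≤ (D + 1) * Y₂ * Z₂ ^ (m + 1) := by gcongr
  have hb3W : (D + 1) * Z₂ ^ (m + 1) ≤ W := by
    refine le_trans ?_ hWeq
    calc ((D : ℝ) + 1) * Z₂ ^ (m + 1) = (D + 1) * 1 * Z₂ ^ (m + 1) := by ring
      _ ≤ (D + 1) * Y₂ * Z₂ ^ (m + 1) := by gcongr
  have hb4W : (D + 1) * Z₁ ≤ W := by
    refine le_trans ?_ hb2W
    rw [← hY₂eq]
    calc ((D : ℝ) + 1) * Z₁ = 1 * ((D + 1) * Z₁ * 1) := by ring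
      _ ≤ ((m : ℝ) + 1) * ((D + 1) * Z₁ * Y₁) := by gcongr
  -- the powers
  let h : Fin (m + 1) → (𝓞 K)[X] := fun i => F.coeff i ^ (b / (m + 1 - i))
  have he : ∀ i : Fin (m + 1), b / (m + 1 - (i : ℕ)) ≤ b := fun i => Nat.div_le_self _ _
  have hhd : ∀ i, (h i).natDegree ≤ D := by
    intro i
    have h3 : (F.coeff i).natDegree ≤ σ := hFd i (by omega)
    refine natDegree_pow_le.trans ?_
    rw [hDdef, mul_comm σ b]
    exact Nat.mul_le_mul (he i) h3
  have hhn : ∀ (φ : K →+* ℂ) i, pn (res φ) (h i) ≤ Y₁ := by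
    intro φ i
    obtain ⟨hn0, _, _, _, hp, _, _, _, _⟩ := h2 (𝓞 K) (res φ)
    refine (hp _ _).trans ?_
    have h3 := hFH φ i (by omega)
    refine (pow_le_pow_left₀ (hn0 _) h3 _).trans ?_
    exact pow_le_pow_right₀ hH (he i)
  have hhne : ∃ i, h i ≠ 0 := by
    obtain ⟨i, hi, hi0⟩ := hF
    exact ⟨⟨i, by omega⟩, pow_ne_zero _ hi0⟩
  obtain ⟨A, hAd, hP0, hPd, ht, hAb⟩ := H1 Y₁ h hY₁1 hhd hhn hhne
  set P : (𝓞 K)[X] := ∑ i, A i * h i with hP
  have hApn : ∀ (φ : K →+* ℂ) i, pn (res φ) (A i) ≤ (D + 1) * Z₁ := fun φ i =>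
    pn_le h2 (res φ) (A i) D Z₁ (hAd i) (fun l => hAb φ i l)
  have hPpn : ∀ φ : K →+* ℂ, pn (res φ) P ≤ Y₂ := by
    intro φ
    obtain ⟨hn0, _, _, hmul, _, hsum, _, _, _⟩ := h2 (𝓞 K) (res φ)
    rw [← hY₂eq, hP]
    refine (hsum _ _ _).trans ?_
    have h3 : ∀ i ∈ (univ : Finset (Fin (m + 1))), pn (res φ) (A i * h i) ≤ (D + 1) * Z₁ * Y₁ := by
      intro i _
      refine (hmul _ _).trans ?_
      exact mul_le_mul (hApn φ i) (hhn φ i) (hn0 _) (by positivity)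
    refine (Finset.sum_le_card_nsmul _ _ _ h3).trans (le_of_eq ?_)
    rw [card_univ, Fintype.card_fin, nsmul_eq_mul]
    push_cast
    ring
  have hY₁₂ : Y₁ ≤ Y₂ := by
    rw [← hY₂eq]
    calc Y₁ = 1 * (1 * 1 * Y₁) := by ring
      _ ≤ ((m : ℝ) + 1) * ((D + 1) * Z₁ * Y₁) := by gcongr
  have hPc : ∀ (φ : K →+* ℂ) l, ‖res φ (P.coeff l)‖ ≤ Y₂ := by
    intro φ l
    obtain ⟨_, _, _, _, _, _, hc, _, _⟩ := h2 (𝓞 K) (res φ)
    exact (hc _ _).trans (hPpn φ)
  have hhc : ∀ i (φ : K →+* ℂ) l, ‖res φ ((h i).coeff l)‖ ≤ Y₂ := by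
    intro i φ l
    obtain ⟨_, _, _, _, _, _, hc, _, _⟩ := h2 (𝓞 K) (res φ)
    exact (hc _ _).trans ((hhn φ i).trans hY₁₂)
  choose c x hc0 hxd hx hcb hxb using fun i => H2 Y₂ P (h i) hY₂1 hPd (hhd i) hPc (hhc i) (ht i)
  let r : 𝓞 K := ∏ i, c i
  let w : Fin (m + 1) → (𝓞 K)[X] := fun i => C (∏ l ∈ univ.erase i, c l) * x i
  have hr0 : r ≠ 0 := Finset.prod_ne_zero_iff.mpr (fun i _ => hc0 i)
  have hfac : ∀ i, C r * h i = P * w i := by
    intro i
    have h3 : r = c i * ∏ l ∈ univ.erase i, c l := (Finset.mul_prod_erase univ c (mem_univ i)).symm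
    calc C r * h i = C (∏ l ∈ univ.erase i, c l) * (C (c i) * h i) := by
          rw [h3, C_mul]; ring
      _ = C (∏ l ∈ univ.erase i, c l) * (x i * P) := by rw [hx i]
      _ = P * w i := by simp only [w]; ring
  have hbez : ∑ i, A i * w i = C r := by
    apply mul_left_cancel₀ hP0
    calc P * ∑ i, A i * w i = ∑ i, A i * (P * w i) := by
          rw [Finset.mul_sum]
          exact Finset.sum_congr rfl (fun i _ => by ring)
      _ = ∑ i, A i * (C r * h i) := Finset.sum_congr rfl (fun i _ => by rw [hfac i])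
      _ = C r * ∑ i, A i * h i := by
          rw [Finset.mul_sum]
          exact Finset.sum_congr rfl (fun i _ => by ring)
      _ = P * C r := by rw [← hP]; ring
  have hwd : ∀ i, (w i).natDegree ≤ D := fun i => (natDegree_C_mul_le _ _).trans (hxd i)
  have hwne : ∃ i, w i ≠ 0 := by
    by_contra hcon
    push_neg at hcon
    apply hr0
    rw [← C_eq_zero, ← hbez]
    exact Finset.sum_eq_zero (fun i _ => by rw [hcon i, mul_zero])
  obtain ⟨i₀, hi₀⟩ := hwne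
  obtain ⟨a, ha, hmax⟩ := Finset.exists_max_image (univ.filter (fun i => w i ≠ 0))
    (fun i => (w i).natDegree) ⟨i₀, by simp [hi₀]⟩
  have ha0 : w a ≠ 0 := (mem_filter.mp ha).2
  have hmax' : ∀ i, (w i).natDegree ≤ (w a).natDegree := by
    intro i
    by_cases hi : w i = 0
    · rw [hi]
      simp
    · exact hmax i (by simp [hi])
  -- sizes
  have hrb : ∀ φ : K →+* ℂ, ‖res φ r‖ ≤ Z₂ ^ (m + 1) := by
    intro φ
    have h3 : ‖res φ r‖ = ∏ i, ‖res φ (c i)‖ := by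
      simp only [r]
      rw [map_prod, norm_prod]
    rw [h3]
    refine (prod_le univ (fun i => ‖res φ (c i)‖) Z₂ (fun i => norm_nonneg _)
      (fun i => hcb i φ)).trans (le_of_eq ?_)
    rw [card_univ, Fintype.card_fin]
  have hwc : ∀ (φ : K →+* ℂ) i l, ‖res φ ((w i).coeff l)‖ ≤ Z₂ ^ (m + 1) := by
    intro φ i l
    have h3 : ‖res φ ((w i).coeff l)‖ = (∏ l ∈ univ.erase i, ‖res φ (c l)‖) *
        ‖res φ ((x i).coeff l)‖ := by
      simp only [w]
      rw [coeff_C_mul, map_mul, norm_mul, map_prod, norm_prod]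
    rw [h3]
    have h4 := prod_le (univ.erase i) (fun i => ‖res φ (c i)‖) Z₂ (fun i => norm_nonneg _)
      (fun i => hcb i φ)
    rw [card_erase_of_mem (mem_univ i), card_univ, Fintype.card_fin, Nat.add_sub_cancel] at h4
    rw [pow_succ]
    exact mul_le_mul h4 (hxb i φ l) (norm_nonneg _) (by positivity)
  have hwpn : ∀ (φ : K →+* ℂ) i, pn (res φ) (w i) ≤ (D + 1) * Z₂ ^ (m + 1) := fun φ i =>
    pn_le h2 (res φ) (w i) D _ (hwd i) (fun l => hwc φ i l)
  -- indices in `ℕ`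
  let wN : ℕ → (𝓞 K)[X] := fun i => if hi : i < m + 1 then w ⟨i, hi⟩ else 0
  let AN : ℕ → (𝓞 K)[X] := fun i => if hi : i < m + 1 then A ⟨i, hi⟩ else 0
  have hwN : ∀ i (hi : i ≤ m), wN i = w ⟨i, by omega⟩ := fun i hi => dif_pos (by omega)
  have hAN : ∀ i (hi : i ≤ m), AN i = A ⟨i, by omega⟩ := fun i hi => dif_pos (by omega)
  have hbezN : ∑ i ∈ range (m + 1), AN i * wN i = C r := by
    rw [Finset.sum_range, ← hbez]
    refine Finset.sum_congr rfl (fun i _ => ?_)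
    rw [hwN i (by omega), hAN i (by omega)]
  refine ⟨(w a).natDegree, P, wN, AN, r, ?_⟩
  refine
    { pi :=
        { hb := hb1
          dvd := fun i hi => Nat.dvd_factorial (by omega) (by omega)
          hP := hP0
          h1 := hr0
          h2 := hr0
          fac := ?_
          deg := ?_
          top := ?_
          bez := ⟨AN, hbezN⟩ }
      bz := hbezN
      dP := by omega
      dθ := by
        have := hwd a
        omega
      dA := ?_
      one := ?_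
      hr := fun φ => (hrb φ).trans hb1W
      hP := fun φ => (hPpn φ).trans hb2W
      hw := ?_
      hA := ?_ }
  · intro i hi
    rw [hwN i hi, ← hfac ⟨i, by omega⟩]
  · intro i hi
    rw [hwN i hi]
    exact hmax' _
  · refine ⟨a, by omega, ?_, ?_⟩
    · rw [hwN a (by omega)]
      exact ha0
    · rw [hwN a (by omega)]
  · intro i
    by_cases hi : i ≤ m
    · rw [hAN i hi]
      have := hAd ⟨i, by omega⟩
      omega
    · have : AN i = 0 := dif_neg (by omega)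
      rw [this]
      simp
  · exact one_le_pow₀ (one_le_mul_of_one_le_of_one_le hκ1 hH)
  · intro φ i hi
    rw [hwN i hi]
    exact (hwpn φ _).trans hb3W
  · intro φ i hi
    rw [hAN i hi]
    exact (hApn φ _).trans hb4W

end Pool.Agent.Work.MP_8d13b5_lc.Fm
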