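import Pool.Agent.Work.MP_8d13b5_lc.Fm.Stmts2

set_option autoImplicit false

/-! Block `Fm`, item SQ2 (helper21): recurrences in a general family. -/

namespace Pool.Agent.Work.MP_8d13b5_lc.Fm

open Polynomial NumberField Finset Module

namespace SQ2

/-- the real inequality at the end -/
theorem fin_ineq (C₁ B T HHa P : ℝ) (m n k D κ : ℕ) (hC₁ : 1 ≤ C₁)
    (hB : 1 ≤ B) (hT : 1 ≤ T) (hP : P = ((m : ℝ) + 1) * B)
    (hHH : HHa ≤ P ^ D)
    (hC₂ : ((C₁ * ((m : ℝ) + 1) ^ D) ^ κ) ^ 2 ≤ T) (hHH0 : 0 ≤ HHa)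
    (hmain : T ^ n ≤ (C₁ ^ (n + 1) * T ^ k * HHa) ^ κ) :
    T ^ n ≤ (B * T) ^ (2 * (κ * (k + D)) + 1) := by
  have hT0 : 0 < T := by linarith
  have hB0 : 0 < B := by linarith
  have hC0 : 0 < C₁ := by linarith
  have hm1 : (1 : ℝ) ≤ (m : ℝ) + 1 := by
    have : (0 : ℝ) ≤ m := Nat.cast_nonneg m
    linarith
  have hm0 : (0 : ℝ) < (m : ℝ) + 1 := by linarith
  obtain ⟨E, hE⟩ : ∃ E : ℝ, E = ((m : ℝ) + 1) ^ D := ⟨_, rfl⟩
  rw [← hE] at hC₂
  have hE1 : 1 ≤ E := by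
    rw [hE]
    exact one_le_pow₀ hm1
  have hE0 : 0 < E := by linarith
  obtain ⟨C₃, hC₃⟩ : ∃ C₃ : ℝ, C₃ = C₁ * E := ⟨_, rfl⟩
  rw [← hC₃] at hC₂
  have hC₃1 : 1 ≤ C₃ := by
    rw [hC₃]
    exact one_le_mul_of_one_le_of_one_le hC₁ hE1
  have hC₃0 : 0 < C₃ := by linarith
  have h2 : HHa ≤ E ^ (n + 1) * B ^ D := by
    refine hHH.trans ?_
    rw [hP, mul_pow, ← hE]
    exact mul_le_mul_of_nonneg_right (le_self_pow₀ hE1 (by omega)) (by positivity)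
  have h3 : C₁ ^ (n + 1) * T ^ k * HHa ≤ C₃ ^ (n + 1) * (B * T) ^ (k + D) := by
    have h4 : T ^ k * B ^ D ≤ (B * T) ^ (k + D) := by
      have h5 : T ≤ B * T := le_mul_of_one_le_left hT0.le hB
      have h6 : B ≤ B * T := le_mul_of_one_le_right hB0.le hT
      rw [pow_add]
      exact mul_le_mul (pow_le_pow_left₀ hT0.le h5 _) (pow_le_pow_left₀ hB0.le h6 _)
        (by positivity) (by positivity)
    calc C₁ ^ (n + 1) * T ^ k * HHa
        ≤ C₁ ^ (n + 1) * T ^ k * (E ^ (n + 1) * B ^ D) :=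
          mul_le_mul_of_nonneg_left h2 (by positivity)
      _ = C₃ ^ (n + 1) * (T ^ k * B ^ D) := by
          rw [hC₃, mul_pow C₁]
          ring
      _ ≤ _ := mul_le_mul_of_nonneg_left h4 (by positivity)
  obtain ⟨Q, hQ⟩ : ∃ Q : ℕ, Q = k + D := ⟨_, rfl⟩
  rw [← hQ] at h3 ⊢
  have h4 : T ^ n ≤ (C₃ ^ κ) ^ (n + 1) * (B * T) ^ (κ * Q) := by
    refine hmain.trans ((pow_le_pow_left₀ (by positivity) h3 _).trans (le_of_eq ?_))
    rw [mul_pow, ← pow_mul, ← pow_mul, ← pow_mul]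
    congr 2 <;> ring
  obtain ⟨C₂, hC₂'⟩ : ∃ C₂ : ℝ, C₂ = C₃ ^ κ := ⟨_, rfl⟩
  rw [← hC₂'] at hC₂ h4
  have hC₂0 : 0 < C₂ := by
    rw [hC₂']
    positivity
  have hBT : 1 ≤ B * T := one_le_mul_of_one_le_of_one_le hB hT
  have h5 : T ^ n * T ^ n ≤ T ^ n * (T * (B * T) ^ (2 * (κ * Q))) := by
    calc T ^ n * T ^ n ≤ (C₂ ^ (n + 1) * (B * T) ^ (κ * Q)) *
          (C₂ ^ (n + 1) * (B * T) ^ (κ * Q)) :=
          mul_le_mul h4 h4 (by positivity) (by positivity)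
      _ = (C₂ ^ 2) ^ (n + 1) * (B * T) ^ (2 * (κ * Q)) := by
          rw [← pow_mul C₂, two_mul (κ * Q), pow_add (B * T), two_mul (n + 1), pow_add C₂]
          ring
      _ ≤ T ^ (n + 1) * (B * T) ^ (2 * (κ * Q)) :=
          mul_le_mul_of_nonneg_right (pow_le_pow_left₀ (by positivity) hC₂ _) (by positivity)
      _ = _ := by rw [pow_succ]; ring
  have h6 : T ^ n ≤ T * (B * T) ^ (2 * (κ * Q)) :=
    le_of_mul_le_mul_left h5 (by positivity)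
  refine h6.trans ?_
  rw [pow_succ, mul_comm T]
  refine mul_le_mul_of_nonneg_left ?_ (by positivity)
  exact le_mul_of_one_le_left hT0.le hB

end SQ2

open SQ2 in
theorem prSQ2 (hTH2 : StTH2) (hCFD : StCFD) : StSQ2 := by
  intro K _ _ m F hm hF
  obtain ⟨T₁, C₁, c, κ, hT₁, hC₁, H⟩ := hTH2 K m F hm hF
  set D : ℕ := Fintype.card (K →+* ℂ) with hD
  refine ⟨max T₁ (((C₁ * ((m : ℝ) + 1) ^ D) ^ κ) ^ 2), 2 * (κ * (c + D)) + 1,
    hT₁.trans (le_max_left _ _), ?_⟩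
  intro t₀ hT u B hu hB huB n hn hun
  have hT1 : T₁ ≤ TT t₀ 1 := (le_max_left _ _).trans hT
  have hT2 : ((C₁ * ((m : ℝ) + 1) ^ D) ^ κ) ^ 2 ≤ TT t₀ 1 := (le_max_right _ _).trans hT
  have hmon : (spc F t₀).Monic := hF.monic.map _
  have hdeg : (spc F t₀).natDegree = m + 1 := by
    unfold spc
    rw [hF.monic.natDegree_map, hF.deg]
  have hsol : Pd.Sol (spc F t₀) u := hu
  by_contra hcon
  have ha : (fun j : Fin (m + 1) => u (j : ℕ)) ≠ 0 := by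
    intro h
    apply hcon
    intro i
    refine hsol.eq_zero hmon ?_ i
    intro j hj
    rw [hdeg] at hj
    exact congrFun h ⟨j, hj⟩
  have hsum : ∑ j : Fin (m + 1), (fun j : Fin (m + 1) => u (j : ℕ)) j *
      (Pd.cf F n j).eval t₀ = 0 := by
    have h1 := hsol.expand hmon n
    rw [hun, hdeg, ← Fin.sum_univ_eq_sum_range (fun c => Pd.cf (spc F t₀) n c * u c)] at h1
    rw [h1]
    refine sum_congr rfl fun j _ => ?_
    have h2 := hCFD.2.1 (𝓞 K)[X] (𝓞 K) (evalRingHom t₀) F n j hF.monic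
    have h3 : Pd.cf (spc F t₀) n j = (Pd.cf F n j).eval t₀ := h2
    rw [h3, mul_comm]
  have hmain := H t₀ hT1 n _ ha hsum
  have hHH : HH (fun j : Fin (m + 1) => u (j : ℕ)) ≤ (((m : ℝ) + 1) * B) ^ D := by
    unfold HH
    have h1 : ∀ φ : K →+* ℂ, ∑ j : Fin (m + 1), ‖res φ (u (j : ℕ))‖ ≤ ((m : ℝ) + 1) * B := by
      intro φ
      refine (Finset.sum_le_sum fun (j : Fin (m + 1)) _ =>
        huB φ (j : ℕ) (Nat.lt_succ_iff.1 j.2)).trans (le_of_eq ?_)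
      rw [Finset.sum_const, Finset.card_univ, Fintype.card_fin, nsmul_eq_mul]
      push_cast
      rfl
    refine (Finset.prod_le_prod (fun φ _ => Finset.sum_nonneg fun _ _ => norm_nonneg _)
      (fun φ _ => h1 φ)).trans (le_of_eq ?_)
    rw [Finset.prod_const, Finset.card_univ]
  have := fin_ineq C₁ B (TT t₀ 1) (HH (fun j : Fin (m + 1) => u (j : ℕ)))
    (((m : ℝ) + 1) * B) m n c D κ hC₁ hB (hT₁.trans hT1) rfl hHH hT2
    (Finset.prod_nonneg fun _ _ => Finset.sum_nonneg fun _ _ => norm_nonneg _) hmain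
  exact absurd this (not_le.2 hn)

end Pool.Agent.Work.MP_8d13b5_lc.Fm
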