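import Pool.Agent.Work.MP_8d13b5_lc.Fm.StmtsX
import Pool.Agent.Work.MP_8d13b5_lc.Fm.I_SQ2

set_option autoImplicit false

/-! Block `Fm`, item XSQ: recurrences in a general family, uniform version (after `I_SQ2.lean`). -/

namespace Pool.Agent.Work.MP_8d13b5_lc.Fm

open Polynomial NumberField Finset Module

theorem prXSQ (hXTH : StXTH) (hCFD : StCFD) : StXSQ := by
  intro K _ _ m σ hm
  obtain ⟨C₁, s, c, κ, hC₁, hmainH⟩ := hXTH K m σ hm
  obtain ⟨D, hD⟩ : ∃ D : ℕ, D = Fintype.card (K →+* ℂ) := ⟨_, rfl⟩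
  obtain ⟨c', hc'⟩ : ∃ c' : ℕ, c' = Nat.ceil C₁ + (m + 1) + s + 2 * κ * (s + D) +
      (2 * (κ * (c + D)) + 1) := ⟨_, rfl⟩
  refine ⟨c', by omega, ?_⟩
  intro H F hF t₀ hT u B hu hB huB n hn hun
  have hH := hF.one
  have hcC : C₁ ≤ (c' : ℝ) := by
    refine (Nat.le_ceil C₁).trans ?_
    exact_mod_cast (by omega : Nat.ceil C₁ ≤ c')
  have hcm : ((m : ℝ) + 1) ≤ (c' : ℝ) := by exact_mod_cast (by omega : m + 1 ≤ c')
  have hc1 : (1 : ℝ) ≤ (c' : ℝ) := hC₁.trans hcC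
  have hcH : (1 : ℝ) ≤ (c' : ℝ) * H := one_le_mul_of_one_le_of_one_le hc1 hH
  have hCH : C₁ * H ≤ (c' : ℝ) * H := mul_le_mul_of_nonneg_right hcC (by linarith)
  have hCH1 : 1 ≤ C₁ * H := one_le_mul_of_one_le_of_one_le hC₁ hH
  have hT1' : 1 ≤ TT t₀ 1 := (one_le_pow₀ hcH).trans hT
  have hT1 : (C₁ * H) ^ s ≤ TT t₀ 1 := by
    refine le_trans ?_ hT
    exact (pow_le_pow_left₀ (by linarith) hCH s).trans (pow_le_pow_right₀ hcH (by omega))
  have hT2 : (((C₁ * H) ^ s * ((m : ℝ) + 1) ^ D) ^ κ) ^ 2 ≤ TT t₀ 1 := by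
    refine le_trans ?_ hT
    have h1 : (C₁ * H) ^ s * ((m : ℝ) + 1) ^ D ≤ ((c' : ℝ) * H) ^ (s + D) := by
      rw [pow_add]
      refine mul_le_mul (pow_le_pow_left₀ (by linarith) hCH s) ?_ (by positivity) (by positivity)
      refine pow_le_pow_left₀ (by positivity) ?_ D
      exact hcm.trans (le_mul_of_one_le_right (by linarith) hH)
    rw [← pow_mul]
    refine (pow_le_pow_left₀ (by positivity) h1 _).trans ?_
    rw [← pow_mul]
    refine pow_le_pow_right₀ hcH ?_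
    have : (s + D) * (κ * 2) = 2 * κ * (s + D) := by ring
    omega
  have hmon : (spc F t₀).Monic := hF.crv.monic.map _
  have hdeg : (spc F t₀).natDegree = m + 1 := by
    unfold spc
    rw [hF.crv.monic.natDegree_map, hF.crv.deg]
  have hsol : Pd.Sol (spc F t₀) u := hu
  by_contra hcon
  have ha : (fun j : Fin (m + 1) => u (j : ℕ)) ≠ 0 := by
    intro h
    apply hcon
    intro i
    refine hsol.eq_zero hmon ?_ i
    intro j hj
    rw [hdeg] at hj
    exact congrFun h ⟨j, hj⟩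
  have hsum : ∑ j : Fin (m + 1), (fun j : Fin (m + 1) => u (j : ℕ)) j *
      (Pd.cf F n j).eval t₀ = 0 := by
    have h1 := hsol.expand hmon n
    rw [hun, hdeg, ← Fin.sum_univ_eq_sum_range (fun c => Pd.cf (spc F t₀) n c * u c)] at h1
    rw [h1]
    refine sum_congr rfl fun j _ => ?_
    have h2 := hCFD.2.1 (𝓞 K)[X] (𝓞 K) (evalRingHom t₀) F n j hF.crv.monic
    have h3 : Pd.cf (spc F t₀) n j = (Pd.cf F n j).eval t₀ := h2
    rw [h3, mul_comm]
  have hmain := hmainH H F hF t₀ hT1 n _ ha hsum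
  have hHH : HH (fun j : Fin (m + 1) => u (j : ℕ)) ≤ (((m : ℝ) + 1) * B) ^ D := by
    unfold HH
    have h1 : ∀ φ : K →+* ℂ, ∑ j : Fin (m + 1), ‖res φ (u (j : ℕ))‖ ≤ ((m : ℝ) + 1) * B := by
      intro φ
      refine (Finset.sum_le_sum fun (j : Fin (m + 1)) _ =>
        huB φ (j : ℕ) (Nat.lt_succ_iff.1 j.2)).trans (le_of_eq ?_)
      rw [Finset.sum_const, Finset.card_univ, Fintype.card_fin, nsmul_eq_mul]
      push_cast
      rfl
    refine (Finset.prod_le_prod (fun φ _ => Finset.sum_nonneg fun _ _ => norm_nonneg _)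
      (fun φ _ => h1 φ)).trans (le_of_eq ?_)
    rw [Finset.prod_const, Finset.card_univ, hD]
  have h4 := SQ2.fin_ineq ((C₁ * H) ^ s) B (TT t₀ 1) (HH (fun j : Fin (m + 1) => u (j : ℕ)))
    (((m : ℝ) + 1) * B) m n c D κ (one_le_pow₀ hCH1) hB hT1' rfl hHH hT2
    (Finset.prod_nonneg fun _ _ => Finset.sum_nonneg fun _ _ => norm_nonneg _) hmain
  have h5 : (B * TT t₀ 1) ^ (2 * (κ * (c + D)) + 1) ≤ (B * TT t₀ 1) ^ c' :=
    pow_le_pow_right₀ (one_le_mul_of_one_le_of_one_le hB hT1') (by omega)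
  exact absurd (h4.trans h5) (not_le.2 hn)

end Pool.Agent.Work.MP_8d13b5_lc.Fm
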