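import Pool.Agent.Work.MP_8d13b5_lc.Fm.Stmts2

set_option autoImplicit false

/-! Block `Fm`, item TH2 (Theorem M for general families), helper54. -/

namespace Pool.Agent.Work.MP_8d13b5_lc.Fm

open Polynomial NumberField Finset Module

namespace TH2

section
variable {K : Type} [Field K] [NumberField K]

lemma one_le_norm {z : 𝓞 K} (hz : z ≠ 0) : 1 ≤ ∏ φ : K →+* ℂ, ‖res φ z‖ := by
  have h1 : algebraMap ℚ ℂ (Algebra.norm ℚ (z : K)) = ∏ φ : K →ₐ[ℚ] ℂ, φ z :=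
    Algebra.norm_eq_prod_embeddings ℚ ℂ (z : K)
  have h2 : ‖algebraMap ℚ ℂ (Algebra.norm ℚ (z : K))‖ = ∏ φ : K →+* ℂ, ‖res φ z‖ := by
    rw [h1, norm_prod]
    exact (Fintype.prod_equiv (RingHom.equivRatAlgHom K ℂ) (fun φ : K →+* ℂ => ‖res φ z‖)
      (fun φ : K →ₐ[ℚ] ℂ => ‖φ (z : K)‖) fun φ => rfl).symm
  rw [← h2]
  have h3 : Algebra.norm ℚ (z : K) = ((Algebra.norm ℤ z : ℤ) : ℚ) := (Algebra.coe_norm_int z).symm
  rw [h3]
  have h4 : Algebra.norm ℤ z ≠ 0 := Algebra.norm_ne_zero_iff.2 hz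
  have h5 : (1 : ℤ) ≤ |Algebra.norm ℤ z| := Int.one_le_abs h4
  simp only [map_intCast]
  rw [Complex.norm_intCast]
  exact_mod_cast h5

omit [NumberField K] in
lemma one_le_tt (φ : K →+* ℂ) (x : 𝓞 K) : 1 ≤ tt φ x 1 := by
  refine le_max_of_le_right ?_
  rw [map_one, norm_one]

lemma one_le_TT (x : 𝓞 K) : 1 ≤ TT x 1 := by
  unfold TT
  calc (1 : ℝ) = ∏ _φ : K →+* ℂ, (1 : ℝ) := by rw [prod_const_one]
    _ ≤ ∏ φ : K →+* ℂ, tt φ x 1 :=
      prod_le_prod (fun _ _ => zero_le_one) fun φ _ => one_le_tt φ x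

lemma one_le_HH {k : ℕ} {a : Fin k → 𝓞 K} (ha : a ≠ 0) : 1 ≤ HH a := by
  obtain ⟨j, hj⟩ := Function.ne_iff.1 ha
  refine (one_le_norm hj).trans (prod_le_prod (fun φ _ => norm_nonneg _) fun φ _ => ?_)
  exact single_le_sum (f := fun j => ‖res φ (a j)‖) (fun i _ => norm_nonneg _) (mem_univ j)

lemma hev_one (P : (𝓞 K)[X]) (t : 𝓞 K) : hev P.natDegree P t 1 = P.eval t := by
  unfold hev
  rw [eval_eq_sum_range]
  refine sum_congr rfl fun i _ => ?_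
  rw [one_pow, mul_one]

end

/-- The computation with the exponents. -/
lemma calc2 {T C H c₀ R M P : ℝ} {m n h N₁ D S l p q s s₁ s₂ γ : ℕ} (hT : 1 ≤ T) (hC : 1 ≤ C)
    (hH : 1 ≤ H) (hc : 0 < c₀) (hc1 : c₀ ≤ 1) (hR : 1 ≤ R) (hM : 1 ≤ M) (hq : 1 ≤ q)
    (hN : N₁ = 2 * (γ + 1) * (1 + s₂) * m) (hh : h * N₁ ≤ n) (hP0 : 0 ≤ P)
    (hS : q * (S + l) ≤ p * n + q * (m * h * (1 + s₂)) + q * (m * s₁)) (hl : n ≤ γ * (l + 1))
    (hf : (c₀ ^ D) ^ (n + 1) * T ^ (p * n) ≤ P ^ q * T ^ s)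
    (hP : P ≤ M ^ D * R ^ ((m + 1) ^ 2 * n) * H * (C ^ (n * D * (m - 1)) * T ^ S)) :
    T ^ n ≤ (((M ^ D * R ^ ((m + 1) ^ 2) * C ^ (D * m)) ^ q * (c₀ ^ D)⁻¹) ^ (n + 1) *
      T ^ (q * (γ + 1) + q * (m * s₁) + s) * H) ^ (2 * (γ + 1) * q) := by
  have hT0 : 0 < T := by linarith
  have hC0 : 0 < C := by linarith
  have hR0 : 0 < R := by linarith
  have hM0 : 0 < M := by linarith
  have hH0 : 0 < H := by linarith
  have hcD : 0 < c₀ ^ D := pow_pos hc D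
  set B : ℝ := M ^ D * R ^ ((m + 1) ^ 2) * C ^ (D * m) with hB
  have hB1 : 1 ≤ B := one_le_mul_of_one_le_of_one_le
    (one_le_mul_of_one_le_of_one_le (one_le_pow₀ hM) (one_le_pow₀ hR)) (one_le_pow₀ hC)
  have hB0 : 0 < B := by linarith
  set Q : ℝ := B ^ q * (c₀ ^ D)⁻¹ with hQ
  have hQ1 : 1 ≤ Q := one_le_mul_of_one_le_of_one_le (one_le_pow₀ hB1)
    ((one_le_inv₀ hcD).2 (pow_le_one₀ hc.le hc1))
  have hQ0 : 0 < Q := by linarith
  -- the bound for P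
  have h1 : P ≤ B ^ (n + 1) * H * T ^ S := by
    refine hP.trans ?_
    have a1 : M ^ D ≤ M ^ (D * (n + 1)) := pow_le_pow_right₀ hM (Nat.le_mul_of_pos_right _ (by omega))
    have a2 : R ^ ((m + 1) ^ 2 * n) ≤ R ^ ((m + 1) ^ 2 * (n + 1)) :=
      pow_le_pow_right₀ hR (Nat.mul_le_mul_left _ (by omega))
    have a3 : C ^ (n * D * (m - 1)) ≤ C ^ (D * m * (n + 1)) := by
      refine pow_le_pow_right₀ hC ?_
      calc n * D * (m - 1) ≤ n * D * m := Nat.mul_le_mul_left _ (Nat.sub_le _ _)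
        _ = D * m * n := by ring
        _ ≤ D * m * (n + 1) := Nat.mul_le_mul_left _ (by omega)
    have a4 : B ^ (n + 1) = M ^ (D * (n + 1)) * R ^ ((m + 1) ^ 2 * (n + 1)) *
        C ^ (D * m * (n + 1)) := by
      rw [hB, mul_pow, mul_pow, ← pow_mul, ← pow_mul, ← pow_mul]
    rw [a4]
    calc M ^ D * R ^ ((m + 1) ^ 2 * n) * H * (C ^ (n * D * (m - 1)) * T ^ S)
        ≤ M ^ (D * (n + 1)) * R ^ ((m + 1) ^ 2 * (n + 1)) * H *
            (C ^ (D * m * (n + 1)) * T ^ S) := by gcongr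
      _ = _ := by ring
  set k := m * h * (1 + s₂) with hk
  -- the basic inequality
  have h2 : T ^ (q * l) ≤ Q ^ (n + 1) * H ^ q * T ^ (q * k + q * (m * s₁) + s) := by
    have a1 : (c₀ ^ D) ^ (n + 1) * T ^ (p * n) ≤ (B ^ q) ^ (n + 1) * H ^ q * T ^ (q * S) * T ^ s := by
      refine hf.trans ?_
      have a2 : P ^ q ≤ (B ^ (n + 1) * H * T ^ S) ^ q := pow_le_pow_left₀ hP0 h1 q
      have a3 : (B ^ (n + 1) * H * T ^ S) ^ q = (B ^ q) ^ (n + 1) * H ^ q * T ^ (q * S) := by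
        rw [mul_pow, mul_pow, ← pow_mul, ← pow_mul, ← pow_mul, mul_comm (n + 1) q, mul_comm S q]
      rw [← a3]
      exact mul_le_mul_of_nonneg_right a2 (by positivity)
    have a4 : 0 < (c₀ ^ D) ^ (n + 1) := by positivity
    have a5 : T ^ (p * n) ≤ Q ^ (n + 1) * H ^ q * T ^ (q * S) * T ^ s := by
      have a6 : Q ^ (n + 1) = (B ^ q) ^ (n + 1) * ((c₀ ^ D) ^ (n + 1))⁻¹ := by
        rw [hQ, mul_pow, inv_pow]
      rw [a6]
      calc T ^ (p * n) = (c₀ ^ D) ^ (n + 1) * T ^ (p * n) * ((c₀ ^ D) ^ (n + 1))⁻¹ := by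
            field_simp
        _ ≤ (B ^ q) ^ (n + 1) * H ^ q * T ^ (q * S) * T ^ s * ((c₀ ^ D) ^ (n + 1))⁻¹ := by gcongr
        _ = _ := by ring
    have a7 : q * S + q * l + s ≤ p * n + (q * k + q * (m * s₁) + s) := by
      have : q * S + q * l = q * (S + l) := by ring
      omega
    have a8 : T ^ (p * n) * T ^ (q * l) ≤
        T ^ (p * n) * (Q ^ (n + 1) * H ^ q * T ^ (q * k + q * (m * s₁) + s)) := by
      calc T ^ (p * n) * T ^ (q * l) ≤ Q ^ (n + 1) * H ^ q * T ^ (q * S) * T ^ s * T ^ (q * l) := by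
            gcongr
        _ = Q ^ (n + 1) * H ^ q * T ^ (q * S + q * l + s) := by rw [pow_add, pow_add]; ring
        _ ≤ Q ^ (n + 1) * H ^ q * T ^ (p * n + (q * k + q * (m * s₁) + s)) := by
            have := pow_le_pow_right₀ hT a7
            gcongr
        _ = T ^ (p * n) * (Q ^ (n + 1) * H ^ q * T ^ (q * k + q * (m * s₁) + s)) := by
            rw [pow_add T (p * n)]; ring
    exact le_of_mul_le_mul_left a8 (by positivity)
  set g := γ + 1 with hg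
  set u := q * (m * s₁) + s with hu
  have hg1 : 1 ≤ g := by omega
  -- the exponents
  have h3 : 2 * (g * (q * k)) ≤ q * n := by
    have e1 : 2 * (g * (q * k)) = q * (h * N₁) := by
      rw [hN, hk]
      ring
    rw [e1]
    exact Nat.mul_le_mul_left _ hh
  have h4 : q * n ≤ q * l * g + q * g := by
    have e1 : n ≤ g * (l + 1) := hl.trans (Nat.mul_le_mul_right _ (by omega))
    calc q * n ≤ q * (g * (l + 1)) := Nat.mul_le_mul_left _ e1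
      _ = _ := by ring
  set X : ℝ := Q ^ (n + 1) * H ^ q with hX
  have hX1 : 1 ≤ X := one_le_mul_of_one_le_of_one_le (one_le_pow₀ hQ1) (one_le_pow₀ hH)
  have hX0 : 0 < X := by linarith
  have h5 : T ^ (q * n) ≤ T ^ (q * g) * (X * T ^ u) ^ g * T ^ (g * (q * k)) := by
    calc T ^ (q * n) ≤ T ^ (q * l * g + q * g) := pow_le_pow_right₀ hT h4
      _ = (T ^ (q * l)) ^ g * T ^ (q * g) := by rw [pow_add, pow_mul]
      _ ≤ (X * T ^ (q * k + q * (m * s₁) + s)) ^ g * T ^ (q * g) := by gcongr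
      _ = T ^ (q * g) * (X * T ^ u) ^ g * T ^ (g * (q * k)) := by
          have e1 : T ^ (g * (q * k)) = (T ^ (q * k)) ^ g := by rw [← pow_mul, mul_comm g]
          rw [e1, add_assoc, ← hu, pow_add T (q * k) u, mul_pow X, mul_pow X, mul_pow (T ^ (q * k))]
          ring
  have h6 : T ^ (q * n) ≤ (T ^ (q * g) * (X * T ^ u) ^ g) ^ 2 := by
    have e1 : T ^ (q * n) * T ^ (q * n) ≤ T ^ (q * n) * (T ^ (q * g) * (X * T ^ u) ^ g) ^ 2 := by
      calc T ^ (q * n) * T ^ (q * n)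
          ≤ (T ^ (q * g) * (X * T ^ u) ^ g * T ^ (g * (q * k))) *
            (T ^ (q * g) * (X * T ^ u) ^ g * T ^ (g * (q * k))) := by gcongr
        _ = T ^ (2 * (g * (q * k))) * (T ^ (q * g) * (X * T ^ u) ^ g) ^ 2 := by
            rw [two_mul, pow_add]
            ring
        _ ≤ T ^ (q * n) * (T ^ (q * g) * (X * T ^ u) ^ g) ^ 2 := by
            have := pow_le_pow_right₀ hT h3
            gcongr
    exact le_of_mul_le_mul_left e1 (by positivity)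
  have h7 : (T ^ (q * g) * (X * T ^ u) ^ g) ^ 2 ≤ (X * T ^ (q * g + u)) ^ (2 * g) := by
    have e1 : T ^ (q * g) * (X * T ^ u) ^ g ≤ (X * T ^ (q * g + u)) ^ g := by
      have e2 : T ^ (q * g) ≤ (T ^ (q * g)) ^ g := le_self_pow₀ (one_le_pow₀ hT) (by omega)
      calc T ^ (q * g) * (X * T ^ u) ^ g ≤ (T ^ (q * g)) ^ g * (X * T ^ u) ^ g := by gcongr
        _ = (X * T ^ (q * g + u)) ^ g := by
            rw [← mul_pow, pow_add T (q * g) u]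
            congr 1
            ring
    calc (T ^ (q * g) * (X * T ^ u) ^ g) ^ 2 ≤ ((X * T ^ (q * g + u)) ^ g) ^ 2 := by gcongr
      _ = _ := by rw [← pow_mul, mul_comm g 2]
  have h8 : X * T ^ (q * g + u) ≤ (Q ^ (n + 1) * T ^ (q * g + u) * H) ^ q := by
    have e1 : Q ^ (n + 1) ≤ (Q ^ (n + 1)) ^ q := le_self_pow₀ (one_le_pow₀ hQ1) (by omega)
    have e2 : T ^ (q * g + u) ≤ (T ^ (q * g + u)) ^ q := le_self_pow₀ (one_le_pow₀ hT) (by omega)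
    calc X * T ^ (q * g + u) = Q ^ (n + 1) * T ^ (q * g + u) * H ^ q := by rw [hX]; ring
      _ ≤ (Q ^ (n + 1)) ^ q * (T ^ (q * g + u)) ^ q * H ^ q := by gcongr
      _ = _ := by rw [mul_pow _ H q, mul_pow (Q ^ (n + 1)) _ q]
  have h9 : T ^ n ≤ T ^ (q * n) := pow_le_pow_right₀ hT (Nat.le_mul_of_pos_left _ (by omega))
  have e10 : q * g + q * (m * s₁) + s = q * g + u := by rw [hu]; ring
  rw [e10]
  calc T ^ n ≤ (X * T ^ (q * g + u)) ^ (2 * g) := h9.trans (h6.trans h7)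
    _ ≤ ((Q ^ (n + 1) * T ^ (q * g + u) * H) ^ q) ^ (2 * g) := by gcongr
    _ = (Q ^ (n + 1) * T ^ (q * g + u) * H) ^ (2 * g * q) := by
        rw [← pow_mul, show q * (2 * g) = 2 * g * q by ring]

end TH2

open TH2 in
theorem prTH2 (hVE2 : StVE2) (hEND : StEND) (hID2 : StID2) (hLO2 : StLO2) (hCFD : StCFD)
    (hSLP : StSLP) (hNVF : StNVF) : StTH2 := by
  intro K _ _ m F hm hcrv
  obtain ⟨p, q, hq, hpq, hpq'⟩ := hSLP (𝓞 K) m F ⟨0, Nat.zero_le _, hcrv.ne⟩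
  obtain ⟨c₀, s, hc₀, hc₁, hL⟩ := hLO2 K m p q F hcrv.monic hcrv.deg hq hpq hpq' hcrv.cop
  obtain ⟨Δ, γ, s₁, s₂, hΔ, hV⟩ := hVE2 K m F hm hcrv
  obtain ⟨T₁, hT₁⟩ := hNVF K Δ.natDegree Δ hΔ le_rfl
  obtain ⟨c, hc, A, hA⟩ := hcrv.cop
  set N₁ : ℕ := 2 * (γ + 1) * (1 + s₂) * m with hN₁
  have hN₁pos : 1 ≤ N₁ := by
    rw [hN₁]
    exact Nat.succ_le_of_lt (by positivity)
  obtain ⟨C, hC, hV⟩ := hV N₁ hN₁pos
  set D := finrank ℚ K with hD
  set M : ℝ := (m.factorial : ℝ) with hM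
  set R : ℝ := ∏ φ : K →+* ℂ, ‖res φ c‖ with hR
  have hM1 : 1 ≤ M := by
    rw [hM]
    exact_mod_cast Nat.one_le_iff_ne_zero.2 (Nat.factorial_ne_zero m)
  have hR1 : 1 ≤ R := one_le_norm hc
  have hcD : 0 < c₀ ^ D := pow_pos hc₀ D
  set Q : ℝ := (M ^ D * R ^ ((m + 1) ^ 2) * C ^ (D * m)) ^ q * (c₀ ^ D)⁻¹ with hQ
  have hQ1 : 1 ≤ Q := by
    have h1 : 1 ≤ M ^ D := one_le_pow₀ hM1
    have h2 : 1 ≤ R ^ ((m + 1) ^ 2) := one_le_pow₀ hR1
    have h3 : 1 ≤ C ^ (D * m) := one_le_pow₀ hC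
    have h4 : 1 ≤ (c₀ ^ D)⁻¹ := (one_le_inv₀ hcD).2 (pow_le_one₀ hc₀.le hc₁)
    exact one_le_mul_of_one_le_of_one_le (one_le_pow₀ (one_le_mul_of_one_le_of_one_le
      (one_le_mul_of_one_le_of_one_le h1 h2) h3)) h4
  refine ⟨max 1 (T₁ + 1), Q, q * (γ + 1) + q * (m * s₁) + s, 2 * (γ + 1) * q, le_max_left _ _,
    hQ1, ?_⟩
  intro t₀ ht₀ n a ha hrel
  have hT : 1 ≤ TT t₀ 1 := one_le_TT t₀
  have hH : 1 ≤ HH a := one_le_HH ha
  rcases Nat.eq_zero_or_pos n with rfl | hn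
  · rw [pow_zero]
    exact one_le_pow₀ (one_le_mul_of_one_le_of_one_le
      (one_le_mul_of_one_le_of_one_le (one_le_pow₀ hQ1) (one_le_pow₀ hT)) hH)
  have hΔt : Δ.eval t₀ ≠ 0 := by
    have h1 := hT₁ t₀ 1 isCoprime_one_right (by
      have := (le_max_right _ _).trans ht₀
      linarith)
    rwa [hev_one] at h1
  obtain ⟨ℓ, r, V, ⟨j₁, hℓ⟩, hℓ', hr, hVi, hVr, hVs⟩ := hV n hn t₀ hΔt
  -- the coefficients of the powers at t₀
  have hcf : ∀ j, Pd.cf (spc F t₀) n j = (Pd.cf F n j).eval t₀ := by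
    intro j
    have h1 := hCFD.2.1 (𝓞 K)[X] (𝓞 K) (evalRingHom t₀) F n j hcrv.monic
    rw [coe_evalRingHom] at h1
    exact h1
  have hsm : (spc F t₀).Monic := hcrv.monic.map _
  have hsd : (spc F t₀).natDegree = m + 1 := by
    unfold spc
    rw [hcrv.monic.natDegree_map, hcrv.deg]
  obtain ⟨b, hb⟩ := hID2 (𝓞 K) m n (spc F t₀) (fun i => (A i).eval t₀) c hsm hsd (by
    have h1 := congrArg (fun P : (𝓞 K)[X] => P.eval t₀) hA
    simp only [eval_finsetSum, eval_mul, eval_C] at h1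
    rw [← h1]
    refine sum_congr rfl fun i _ => ?_
    unfold spc
    rw [coeff_map, coe_evalRingHom])
  have hb' : ∑ j, b j * (Pd.cf F n j).eval t₀ = c ^ ((m + 1) ^ 2 * n) := by
    rw [← hb]
    exact sum_congr rfl fun j _ => by rw [hcf]
  have hg : c ^ ((m + 1) ^ 2 * n) ≠ 0 := pow_ne_zero _ hc
  set h := n / N₁ with hh
  choose jj hjj using fun φ : K →+* ℂ => hL φ t₀ n
  obtain ⟨i₀, hi₀⟩ := hEND K m (fun j => (Pd.cf F n j).eval t₀) a b (c ^ ((m + 1) ^ 2 * n)) V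
    (fun φ => ‖res φ ((Pd.cf F n (jj φ)).eval t₀)‖)
    (fun i φ => C ^ n * tt φ t₀ 1 ^ (ℓ i + h + s₁ + s₂ * r i)) hm ha hg hb' hrel hVr hVi
    (fun φ => ⟨norm_nonneg _, jj φ, le_rfl⟩)
    (fun i φ j => hVs φ i j)
  have hcard : (univ : Finset (K →+* ℂ)).card = D := by
    rw [card_univ, NumberField.Embeddings.card]
  have e2 : ∏ φ : K →+* ℂ, ‖res φ (c ^ ((m + 1) ^ 2 * n))‖ = R ^ ((m + 1) ^ 2 * n) := by
    rw [hR, ← prod_pow]
    exact prod_congr rfl fun φ _ => by rw [map_pow, norm_pow]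
  have e3 : ∀ i, ∏ φ : K →+* ℂ, C ^ n * tt φ t₀ 1 ^ (ℓ i + h + s₁ + s₂ * r i) =
      C ^ (n * D) * TT t₀ 1 ^ (ℓ i + h + s₁ + s₂ * r i) := by
    intro i
    rw [prod_mul_distrib, prod_const, hcard, prod_pow, ← pow_mul]
    rfl
  have e4 : ∏ i ∈ univ.erase i₀, ∏ φ : K →+* ℂ,
      C ^ n * tt φ t₀ 1 ^ (ℓ i + h + s₁ + s₂ * r i) =
      C ^ (n * D * (m - 1)) * TT t₀ 1 ^ ∑ i ∈ univ.erase i₀, (ℓ i + h + s₁ + s₂ * r i) := by
    rw [prod_congr rfl fun i _ => e3 i, prod_mul_distrib, prod_const, prod_pow_eq_pow_sum,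
      card_erase_of_mem (mem_univ i₀), card_univ, Fintype.card_fin, ← pow_mul]
  rw [e2, e4] at hi₀
  -- the lower bound
  have hf : (c₀ ^ D) ^ (n + 1) * TT t₀ 1 ^ (p * n) ≤
      (∏ φ : K →+* ℂ, ‖res φ ((Pd.cf F n (jj φ)).eval t₀)‖) ^ q * TT t₀ 1 ^ s := by
    have h1 : ∏ φ : K →+* ℂ, (c₀ ^ (n + 1) * tt φ t₀ 1 ^ (p * n)) ≤
        ∏ φ : K →+* ℂ, (‖res φ ((Pd.cf F n (jj φ)).eval t₀)‖ ^ q * tt φ t₀ 1 ^ s) := by
      refine prod_le_prod (fun φ _ => ?_) fun φ _ => hjj φ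
      have := one_le_tt φ t₀
      positivity
    rw [prod_mul_distrib, prod_mul_distrib, prod_const, hcard, prod_pow, prod_pow, prod_pow] at h1
    have h2 : (c₀ ^ (n + 1)) ^ D = (c₀ ^ D) ^ (n + 1) := by
      rw [← pow_mul, ← pow_mul, mul_comm]
    rw [h2] at h1
    exact h1
  have hS : q * ((∑ i ∈ univ.erase i₀, (ℓ i + h + s₁ + s₂ * r i)) + ℓ i₀) ≤
      p * n + q * (m * h * (1 + s₂)) + q * (m * s₁) := by
    have h1 : (∑ i ∈ univ.erase i₀, (ℓ i + h + s₁ + s₂ * r i)) + ℓ i₀ ≤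
        ∑ i, (ℓ i + h + s₁ + s₂ * r i) := by
      rw [← sum_erase_add _ _ (mem_univ i₀)]
      refine Nat.add_le_add_left ?_ _
      rw [add_assoc, add_assoc]
      exact Nat.le_add_right _ _
    have h2 : ∑ i, (ℓ i + h + s₁ + s₂ * r i) ≤ ∑ i, ℓ i + m * h * (1 + s₂) + m * s₁ := by
      rw [sum_add_distrib, sum_add_distrib, sum_add_distrib, sum_const, sum_const, card_univ,
        Fintype.card_fin, smul_eq_mul, smul_eq_mul, ← mul_sum]
      have h3 : s₂ * ∑ i, r i ≤ s₂ * (m * h) := Nat.mul_le_mul_left _ hr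
      calc ∑ i, ℓ i + m * h + m * s₁ + s₂ * ∑ i, r i
          ≤ ∑ i, ℓ i + m * h + m * s₁ + s₂ * (m * h) := Nat.add_le_add_left h3 _
        _ = _ := by ring
    have h4 : q * ∑ i, ℓ i ≤ p * n :=
      (Nat.mul_le_mul_left _ hℓ).trans (hCFD.2.2.1 (𝓞 K) m p q F hcrv.monic hcrv.deg hpq n j₁
        (Nat.lt_succ_iff.1 j₁.2))
    calc q * ((∑ i ∈ univ.erase i₀, (ℓ i + h + s₁ + s₂ * r i)) + ℓ i₀)
        ≤ q * (∑ i, ℓ i + m * h * (1 + s₂) + m * s₁) := Nat.mul_le_mul_left _ (h1.trans h2)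
      _ = q * ∑ i, ℓ i + q * (m * h * (1 + s₂)) + q * (m * s₁) := by ring
      _ ≤ _ := by omega
  exact calc2 (T := TT t₀ 1) (C := C) (H := HH a) (c₀ := c₀) (R := R) (M := M) (h := h)
    (N₁ := N₁) (D := D) (l := ℓ i₀) (p := p) (s₁ := s₁) (s₂ := s₂) (γ := γ)
    hT hC hH hc₀ hc₁ hR1 hM1 hq hN₁ (Nat.div_mul_le_self n N₁)
    (prod_nonneg fun φ _ => norm_nonneg _) hS (hℓ' i₀) hf hi₀

end Pool.Agent.Work.MP_8d13b5_lc.Fm
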