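import Pool.Agent.Work.MP_8d13b5_lc.Fm.StmtsX
import Pool.Agent.Work.MP_8d13b5_lc.Fm.I_TH2

set_option autoImplicit false

/-! Block `Fm`, item XTH (uniform Theorem M without the condition on coprime coefficients). -/

namespace Pool.Agent.Work.MP_8d13b5_lc.Fm

open Polynomial NumberField Finset Module

namespace XTH

section
variable {K : Type} [Field K] [NumberField K]

omit [NumberField K] in
/-- the coordinates of `X ^ n` modulo `f` are not all zero if `f.coeff 0 ≠ 0` -/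
lemma cf_ne (hCFD : StCFD) (m : ℕ) (f : (𝓞 K)[X]) (hf : f.Monic) (hd : f.natDegree = m + 1)
    (h0 : f.coeff 0 ≠ 0) : ∀ n, ∃ j ≤ m, Pd.cf f n j ≠ 0 := by
  intro n
  induction n with
  | zero =>
    refine ⟨0, Nat.zero_le _, ?_⟩
    unfold Pd.cf
    rw [pow_zero, (modByMonic_eq_self_iff hf).2 (by
      rw [degree_one, degree_eq_natDegree hf.ne_zero, hd]
      exact_mod_cast Nat.succ_pos m), coeff_one_zero]
    exact one_ne_zero
  | succ n ih =>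
    obtain ⟨h1, h2⟩ := hCFD.1 (𝓞 K) m f hf hd n
    by_contra hcon
    push Not at hcon
    have h3 : Pd.cf f n m = 0 := by
      have h4 := hcon 0 (Nat.zero_le _)
      rw [h1, neg_eq_zero, mul_eq_zero] at h4
      exact h4.resolve_right h0
    obtain ⟨j, hj, hne⟩ := ih
    rcases Nat.lt_or_ge j m with hjm | hjm
    · have h4 := hcon (j + 1) hjm
      rw [h2 j hjm, h3, zero_mul, sub_zero] at h4
      exact hne h4
    · have : j = m := le_antisymm hj hjm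
      rw [this] at hne
      exact hne h3

omit [NumberField K] in
lemma piH_mono {m s s' : ℕ} {Y Y' : ℝ} {F : (𝓞 K)[X][X]} {θ : ℕ} {P : (𝓞 K)[X]}
    {w A : ℕ → (𝓞 K)[X]} {r : 𝓞 K} [NumberField K] (h : IsPiH m s Y F θ P w A r) (hs : s ≤ s') (hY : Y ≤ Y') :
    IsPiH m s' Y' F θ P w A r :=
  { pi := h.pi
    bz := h.bz
    dP := h.dP.trans hs
    dθ := h.dθ.trans hs
    dA := fun i => (h.dA i).trans hs
    one := h.one.trans hY
    hr := fun φ => (h.hr φ).trans hY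
    hP := fun φ => (h.hP φ).trans hY
    hw := fun φ i hi => (h.hw φ i hi).trans hY
    hA := fun φ i hi => (h.hA φ i hi).trans hY }

end

end XTH

open TH2 XTH in
theorem prXTH (hXPI : StXPI) (hXEE : StXEE) (hXLO : StXLO) (hXVE : StXVE) (hCO3 : StCO3)
    (hEN3 : StEN3) (hCFD : StCFD) (hVNZ : StVNZ) : StXTH := by
  intro K _ _ m σ hm
  obtain ⟨Cp, sp, hCp, hPI⟩ := hXPI K m σ
  obtain ⟨γ, s₁, s₂, hVE⟩ := hXVE K m σ hm
  set N₁ : ℕ := 2 * (γ + 1) * (1 + s₂) * m with hN₁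
  have hN₁pos : 1 ≤ N₁ := by
    rw [hN₁]
    exact Nat.succ_le_of_lt (by positivity)
  obtain ⟨Cv, sv, hCv, hVE⟩ := hVE N₁ hN₁pos
  obtain ⟨sz, hz⟩ := hVNZ K
  obtain ⟨Cl, sl, hCl, hLO⟩ := hXLO K m (max σ sp)
  set b : ℕ := (m + 1).factorial with hb
  have hb1 : 1 ≤ b := Nat.factorial_pos _
  set D := finrank ℚ K with hD
  set M : ℝ := (m.factorial : ℝ) with hM
  have hM1 : 1 ≤ M := by
    rw [hM]
    exact_mod_cast Nat.one_le_iff_ne_zero.2 (Nat.factorial_ne_zero m)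
  set C₁ : ℝ := 3 + Cp + Cv + Cl + M with hC₁
  set e₁ : ℕ := D * b * (1 + sv * m) + D * ((sp + 2) * sl + (sp + 1)) with he₁
  set s : ℕ := e₁ + (sv + sp + 2) * sz + 1 with hs
  set e₀ : ℕ := (m + b) * sp with he₀
  refine ⟨C₁, s, b * (γ + 1) + b * (m * (s₁ + e₀)) + sl, 2 * (γ + 1) * b, by linarith, ?_⟩
  intro H F hF t₀ ht₀ n a ha hrel
  have hH1 : 1 ≤ H := hF.one
  have hH0 : 0 < H := by linarith
  set Z : ℝ := C₁ * H with hZ
  have hC₁Z : C₁ ≤ Z := by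
    rw [hZ]
    exact le_mul_of_one_le_right (by linarith) hH1
  have hZ3 : 3 ≤ Z := by linarith
  have hZ1 : 1 ≤ Z := by linarith
  have hZ0 : 0 < Z := by linarith
  have hHZ : H ≤ Z := by
    rw [hZ]
    exact le_mul_of_one_le_left hH0.le (by linarith)
  have hCpZ : Cp * H ≤ Z := mul_le_mul_of_nonneg_right (by linarith) hH0.le
  have hCvZ : Cv * H ≤ Z := mul_le_mul_of_nonneg_right (by linarith) hH0.le
  have hClZ : Cl ≤ Z := by linarith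
  have hMZ : M ≤ Z := by linarith
  have hCpH1 : 1 ≤ Cp * H := one_le_mul_of_one_le_of_one_le hCp hH1
  have hCvH1 : 1 ≤ Cv * H := one_le_mul_of_one_le_of_one_le hCv hH1
  have hT : 1 ≤ TT t₀ 1 := one_le_TT t₀
  have hHa : 1 ≤ HH a := one_le_HH ha
  -- the data of XPI
  obtain ⟨θ, P, w, A, r, hpi⟩ := hPI H F hH1 ⟨0, Nat.zero_le _, hF.crv.ne⟩ hF.dg hF.ht
  obtain ⟨Δ, hΔ, hΔd, hΔp, hVE⟩ := hVE H F hF
  -- the values are not zero
  have hbig : (2 * Z ^ (sv + sp + 1)) ^ sz < TT t₀ 1 := by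
    have h1 : 2 * Z ^ (sv + sp + 1) ≤ Z ^ (sv + sp + 2) := by
      rw [pow_succ Z (sv + sp + 1), mul_comm]
      exact mul_le_mul_of_nonneg_left (by linarith) (by positivity)
    calc (2 * Z ^ (sv + sp + 1)) ^ sz ≤ (Z ^ (sv + sp + 2)) ^ sz := by gcongr
      _ = Z ^ ((sv + sp + 2) * sz) := (pow_mul _ _ _).symm
      _ < Z ^ ((sv + sp + 2) * sz + 1) := pow_lt_pow_right₀ (by linarith) (Nat.lt_succ_self _)
      _ ≤ Z ^ s := pow_le_pow_right₀ hZ1 (by omega)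
      _ ≤ TT t₀ 1 := ht₀
  have hY1 : 1 ≤ Z ^ (sv + sp + 1) := one_le_pow₀ hZ1
  have hΔt : Δ.eval t₀ ≠ 0 := by
    refine hz Δ _ hΔ hY1 (fun φ => (hΔp φ).trans ?_) t₀ hbig
    calc (Cv * H) ^ sv ≤ Z ^ sv := by gcongr
      _ ≤ Z ^ (sv + sp + 1) := pow_le_pow_right₀ hZ1 (by omega)
  have hPt : P.eval t₀ ≠ 0 := by
    refine hz P _ hpi.pi.hP hY1 (fun φ => (hpi.hP φ).trans ?_) t₀ hbig
    calc (Cp * H) ^ sp ≤ Z ^ sp := by gcongr
      _ ≤ Z ^ (sv + sp + 1) := pow_le_pow_right₀ hZ1 (by omega)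
  have hF0t : (F.coeff 0).eval t₀ ≠ 0 := by
    refine hz (F.coeff 0) _ hF.crv.ne hY1 (fun φ => (hF.ht φ 0 (Nat.zero_le _)).trans ?_) t₀ hbig
    calc H ≤ Z := hHZ
      _ = Z ^ 1 := (pow_one Z).symm
      _ ≤ Z ^ (sv + sp + 1) := pow_le_pow_right₀ hZ1 (by omega)
  rcases Nat.eq_zero_or_pos n with rfl | hn
  · rw [pow_zero]
    exact one_le_pow₀ (one_le_mul_of_one_le_of_one_le
      (one_le_mul_of_one_le_of_one_le (one_le_pow₀ (one_le_pow₀ hZ1)) (one_le_pow₀ hT)) hHa)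
  obtain ⟨Dn, G, E, A', hG, hcfE, hAE, hEd, hEtop, hbD⟩ :=
    hXEE K m F b θ P w r r hF.crv.monic hF.crv.deg hF.crv.ne hpi.pi n
  obtain ⟨ℓ, r', V, hℓ, hℓ', hr', hVi, hVr, hVs⟩ :=
    hVE n hn Dn G E A' hG hcfE hAE hEd hEtop t₀ hΔt
  -- the specialisation
  have hcf : ∀ j, Pd.cf (spc F t₀) n j = (Pd.cf F n j).eval t₀ := by
    intro j
    have h1 := hCFD.2.1 (𝓞 K)[X] (𝓞 K) (evalRingHom t₀) F n j hF.crv.monic
    rw [coe_evalRingHom] at h1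
    exact h1
  have hsm : (spc F t₀).Monic := hF.crv.monic.map _
  have hsd : (spc F t₀).natDegree = m + 1 := by
    unfold spc
    rw [hF.crv.monic.natDegree_map, hF.crv.deg]
  have hsc : ∀ i, (spc F t₀).coeff i = (F.coeff i).eval t₀ := by
    intro i
    unfold spc
    rw [coeff_map, coe_evalRingHom]
  have hE0 : (fun j : Fin (m + 1) => (Pd.cf F n j).eval t₀) ≠ 0 := by
    obtain ⟨j, hj, hne⟩ := cf_ne hCFD m (spc F t₀) hsm hsd (by rw [hsc]; exact hF0t) n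
    intro h
    apply hne
    have h1 := congrFun h ⟨j, Nat.lt_succ_of_le hj⟩
    rw [hcf]
    exact h1
  have hw0 : (r * P.eval t₀) ^ n ≠ 0 := pow_ne_zero _ (mul_ne_zero hpi.pi.h1 hPt)
  have hspan : r * P.eval t₀ ∈
      Ideal.span {x | ∃ i ≤ m, x = (spc F t₀).coeff i ^ (b / (m + 1 - i))} := by
    have h1 : r * P.eval t₀ = ∑ i ∈ range (m + 1), (A i).eval t₀ * r *
        (spc F t₀).coeff i ^ (b / (m + 1 - i)) := by
      have h2 := congrArg (fun q : (𝓞 K)[X] => q.eval t₀) hpi.bz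
      simp only [eval_finsetSum, eval_mul, eval_C] at h2
      have h2' : r * P.eval t₀ = (∑ i ∈ range (m + 1), (A i).eval t₀ * (w i).eval t₀) * P.eval t₀ := by
        rw [h2]
      rw [h2', sum_mul]
      refine sum_congr rfl fun i hi => ?_
      have hi' : i ≤ m := Nat.lt_succ_iff.1 (mem_range.1 hi)
      have h3 := congrArg (fun q : (𝓞 K)[X] => q.eval t₀) (hpi.pi.fac i hi')
      simp only [eval_mul, eval_C, eval_pow] at h3
      rw [hsc, mul_assoc ((A i).eval t₀) r, h3]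
      ring
    rw [h1]
    refine Ideal.sum_mem _ fun i hi => ?_
    exact Ideal.mul_mem_left _ _ (Ideal.subset_span ⟨i, Nat.lt_succ_iff.1 (mem_range.1 hi), rfl⟩)
  set h := n / N₁ with hh
  -- the lower bound
  set Y : ℝ := (Cp * H) ^ (sp + 1) with hY
  have hYH : H ≤ Y := by
    calc H ≤ Cp * H := le_mul_of_one_le_left hH0.le hCp
      _ = (Cp * H) ^ 1 := (pow_one _).symm
      _ ≤ Y := pow_le_pow_right₀ hCpH1 (by omega)
  have hpi' : IsPiH m (max σ sp) Y F θ P w A r :=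
    piH_mono hpi (le_max_right _ _) (pow_le_pow_right₀ hCpH1 (Nat.le_succ _))
  have hYge1 : 1 ≤ Y := one_le_pow₀ hCpH1
  choose jj hjj using fun φ : K →+* ℂ => hLO Y F θ P w A r hF.crv.monic hF.crv.deg
    (fun i hi => (hF.dg i hi).trans (le_max_left _ _)) (fun φ i hi => (hF.ht φ i hi).trans hYH)
    hpi' φ t₀ n
  obtain ⟨i₀, hi₀⟩ := hEN3 K m b (fun j => (Pd.cf F n j).eval t₀) a ((r * P.eval t₀) ^ n) V
    (fun φ => ‖res φ ((Pd.cf F n (jj φ)).eval t₀)‖)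
    (fun i φ => ((Cv * H) ^ sv) ^ n * tt φ t₀ 1 ^ (ℓ i + h + s₁ + s₂ * r' i)) hm ha hE0 hw0 hrel
    hVr hVi
    (fun ρ hρ => by
      obtain ⟨z, hz⟩ := hCO3 K m b n (spc F t₀) ρ (r * P.eval t₀) hsm hsd hpi.pi.dvd
        (fun j hj => by
          obtain ⟨z, hz⟩ := hρ ⟨j, Nat.lt_succ_of_le hj⟩
          exact ⟨z, by rw [hz, hcf]⟩) hspan
      refine ⟨z, ?_⟩
      rw [hz]
      have h9 : (((r * P.eval t₀) ^ n : 𝓞 K) : K) = ((r * P.eval t₀ : 𝓞 K) : K) ^ n :=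
        map_pow (algebraMap (𝓞 K) K) (r * P.eval t₀) n
      rw [h9])
    (fun φ => ⟨norm_nonneg _, jj φ, le_rfl⟩)
    (fun i φ j => hVs φ i j)
  have hcard : (univ : Finset (K →+* ℂ)).card = D := by
    rw [card_univ, NumberField.Embeddings.card]
  set p₀ : ℝ := ∏ φ : K →+* ℂ, ‖res φ (P.eval t₀)‖ with hp₀
  have hp₀1 : 1 ≤ p₀ := one_le_norm hPt
  have hp₀0 : 0 < p₀ := by linarith
  have e2 : ∏ φ : K →+* ℂ, ‖res φ ((r * P.eval t₀) ^ n)‖ ≤ (Y ^ D) ^ n * p₀ ^ n := by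
    have h1 : ∏ φ : K →+* ℂ, ‖res φ ((r * P.eval t₀) ^ n)‖ =
        (∏ φ : K →+* ℂ, ‖res φ r‖) ^ n * p₀ ^ n := by
      rw [hp₀, ← prod_pow, ← prod_pow, ← prod_mul_distrib]
      exact prod_congr rfl fun φ _ => by rw [map_pow, norm_pow, map_mul, norm_mul, mul_pow]
    have h2 : ∏ φ : K →+* ℂ, ‖res φ r‖ ≤ Y ^ D := by
      calc ∏ φ : K →+* ℂ, ‖res φ r‖ ≤ ∏ _φ : K →+* ℂ, Y :=
            prod_le_prod (fun φ _ => norm_nonneg _) fun φ _ => hpi'.hr φ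
        _ = Y ^ D := by rw [prod_const, hcard]
    rw [h1]
    have h3 : 0 ≤ ∏ φ : K →+* ℂ, ‖res φ r‖ := prod_nonneg fun φ _ => norm_nonneg _
    gcongr
  have e3 : ∀ i, ∏ φ : K →+* ℂ, ((Cv * H) ^ sv) ^ n * tt φ t₀ 1 ^ (ℓ i + h + s₁ + s₂ * r' i) =
      ((Cv * H) ^ sv) ^ (n * D) * TT t₀ 1 ^ (ℓ i + h + s₁ + s₂ * r' i) := by
    intro i
    rw [prod_mul_distrib, prod_const, hcard, prod_pow, ← pow_mul ((Cv * H) ^ sv)]
    rfl
  have e4 : ∏ i ∈ univ.erase i₀, ∏ φ : K →+* ℂ,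
      ((Cv * H) ^ sv) ^ n * tt φ t₀ 1 ^ (ℓ i + h + s₁ + s₂ * r' i) =
      ((Cv * H) ^ sv) ^ (n * D * (m - 1)) *
        TT t₀ 1 ^ ∑ i ∈ univ.erase i₀, (ℓ i + h + s₁ + s₂ * r' i) := by
    rw [prod_congr rfl fun i _ => e3 i, prod_mul_distrib, prod_const, prod_pow_eq_pow_sum,
      card_erase_of_mem (mem_univ i₀), card_univ, Fintype.card_fin, ← pow_mul ((Cv * H) ^ sv)]
  rw [e4] at hi₀
  set S : ℕ := ∑ i ∈ univ.erase i₀, (ℓ i + h + s₁ + s₂ * r' i) with hSdef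
  set Cc : ℝ := (Cv * H) ^ sv with hCc
  have hCc1 : 1 ≤ Cc := one_le_pow₀ hCvH1
  set f₀ : ℝ := ∏ φ : K →+* ℂ, ‖res φ ((Pd.cf F n (jj φ)).eval t₀)‖ with hf₀
  have hf₀0 : 0 ≤ f₀ := prod_nonneg fun φ _ => norm_nonneg _
  -- the product of the lower bounds
  have hlow : p₀ ^ n * TT t₀ 1 ^ (θ * n) ≤
      ((Cl * Y) ^ (sl * (n + 1))) ^ D * f₀ ^ b * TT t₀ 1 ^ sl := by
    have h1 : ∏ φ : K →+* ℂ, (‖res φ (P.eval t₀)‖ ^ n * tt φ t₀ 1 ^ (θ * n)) ≤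
        ∏ φ : K →+* ℂ, ((Cl * Y) ^ (sl * (n + 1)) *
          ‖res φ ((Pd.cf F n (jj φ)).eval t₀)‖ ^ b * tt φ t₀ 1 ^ sl) := by
      refine prod_le_prod (fun φ _ => ?_) fun φ _ => hjj φ
      have := one_le_tt φ t₀
      positivity
    rw [prod_mul_distrib, prod_mul_distrib, prod_mul_distrib, prod_const, hcard, prod_pow,
      prod_pow, prod_pow, prod_pow] at h1
    exact h1
  set Pp : ℝ := M ^ D * HH a * (Cc ^ (n * D * (m - 1)) * TT t₀ 1 ^ S) with hPp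
  have hPp0 : 0 ≤ Pp := by positivity
  have hup : f₀ ^ b ≤ (Y ^ D) ^ n * p₀ ^ n * Pp ^ b :=
    hi₀.trans (mul_le_mul_of_nonneg_right e2 (by positivity))
  -- divide by `p₀ ^ n`
  have hClY1 : 1 ≤ Cl * Y := one_le_mul_of_one_le_of_one_le hCl hYge1
  set c₁ : ℝ := (Cl * Y) ^ sl * Y with hc₁
  have hc₁1 : 1 ≤ c₁ := one_le_mul_of_one_le_of_one_le (one_le_pow₀ hClY1) hYge1
  have hc₁0 : 0 < c₁ := by linarith
  have hmain : TT t₀ 1 ^ (θ * n) ≤ (c₁ ^ D) ^ (n + 1) * (Pp ^ b * TT t₀ 1 ^ sl) := by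
    have h1 : p₀ ^ n * TT t₀ 1 ^ (θ * n) ≤
        p₀ ^ n * (((Cl * Y) ^ (sl * (n + 1))) ^ D * (Y ^ D) ^ n * (Pp ^ b * TT t₀ 1 ^ sl)) := by
      calc p₀ ^ n * TT t₀ 1 ^ (θ * n)
          ≤ ((Cl * Y) ^ (sl * (n + 1))) ^ D * f₀ ^ b * TT t₀ 1 ^ sl := hlow
        _ ≤ ((Cl * Y) ^ (sl * (n + 1))) ^ D * ((Y ^ D) ^ n * p₀ ^ n * Pp ^ b) * TT t₀ 1 ^ sl := by
            gcongr
        _ = _ := by ring
    have h2 : TT t₀ 1 ^ (θ * n) ≤
        ((Cl * Y) ^ (sl * (n + 1))) ^ D * (Y ^ D) ^ n * (Pp ^ b * TT t₀ 1 ^ sl) :=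
      le_of_mul_le_mul_left h1 (by positivity)
    have h3 : ((Cl * Y) ^ (sl * (n + 1))) ^ D * (Y ^ D) ^ n ≤ (c₁ ^ D) ^ (n + 1) := by
      have h4 : (c₁ ^ D) ^ (n + 1) = ((Cl * Y) ^ (sl * (n + 1))) ^ D * (Y ^ D) ^ (n + 1) := by
        have h6 : (((Cl * Y) ^ sl) ^ D) ^ (n + 1) = ((Cl * Y) ^ (sl * (n + 1))) ^ D := by
          rw [← pow_mul, ← pow_mul, ← pow_mul]
          congr 1
          ring
        rw [hc₁, mul_pow, mul_pow, h6]
      rw [h4]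
      have h5 : (Y ^ D) ^ n ≤ (Y ^ D) ^ (n + 1) :=
        pow_le_pow_right₀ (one_le_pow₀ hYge1) (Nat.le_succ n)
      gcongr
    exact h2.trans (mul_le_mul_of_nonneg_right h3 (by positivity))
  -- the exponents
  have hS : b * (S + ℓ i₀) ≤ θ * n + b * (m * h * (1 + s₂)) + b * (m * (s₁ + e₀)) := by
    have h1 : S + ℓ i₀ ≤ ∑ i, (ℓ i + h + s₁ + s₂ * r' i) := by
      rw [hSdef, ← sum_erase_add _ _ (mem_univ i₀)]
      refine Nat.add_le_add_left ?_ _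
      rw [add_assoc, add_assoc]
      exact Nat.le_add_right _ _
    have h2 : ∑ i, (ℓ i + h + s₁ + s₂ * r' i) ≤ Dn + m * h * (1 + s₂) + m * s₁ := by
      rw [sum_add_distrib, sum_add_distrib, sum_add_distrib, sum_const, sum_const, card_univ,
        Fintype.card_fin, smul_eq_mul, smul_eq_mul, ← mul_sum]
      have h3 : s₂ * ∑ i, r' i ≤ s₂ * (m * h) := Nat.mul_le_mul_left _ hr'
      calc ∑ i, ℓ i + m * h + m * s₁ + s₂ * ∑ i, r' i
          ≤ Dn + m * h + m * s₁ + s₂ * (m * h) := by omega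
        _ = _ := by ring
    have h4 : b * Dn ≤ θ * n + e₀ :=
      hbD.trans (Nat.add_le_add_left (Nat.mul_le_mul_left _ hpi.dP) _)
    have h5 : e₀ ≤ b * (m * e₀) := by
      have : 1 * (1 * e₀) ≤ b * (m * e₀) := Nat.mul_le_mul hb1 (Nat.mul_le_mul hm le_rfl)
      simpa using this
    calc b * (S + ℓ i₀) ≤ b * (Dn + m * h * (1 + s₂) + m * s₁) :=
          Nat.mul_le_mul_left _ (h1.trans h2)
      _ = b * Dn + b * (m * h * (1 + s₂)) + b * (m * s₁) := by ring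
      _ ≤ θ * n + e₀ + b * (m * h * (1 + s₂)) + b * (m * s₁) := by omega
      _ ≤ θ * n + b * (m * e₀) + b * (m * h * (1 + s₂)) + b * (m * s₁) := by omega
      _ = _ := by ring
  have hc₀1 : c₁⁻¹ ≤ 1 := inv_le_one_of_one_le₀ hc₁1
  have hf : (c₁⁻¹ ^ D) ^ (n + 1) * TT t₀ 1 ^ (θ * n) ≤ Pp ^ b * TT t₀ 1 ^ sl := by
    have h1 : (c₁⁻¹ ^ D) ^ (n + 1) = ((c₁ ^ D) ^ (n + 1))⁻¹ := by
      rw [inv_pow, inv_pow]
    rw [h1, inv_mul_le_iff₀ (by positivity)]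
    exact hmain
  have hP1 : Pp ≤ M ^ D * (1 : ℝ) ^ ((m + 1) ^ 2 * n) * HH a *
      (Cc ^ (n * D * (m - 1)) * TT t₀ 1 ^ S) := by
    rw [one_pow, mul_one]
  have hfin := calc2 (T := TT t₀ 1) (C := Cc) (H := HH a) (c₀ := c₁⁻¹) (R := 1) (M := M) (h := h)
    (N₁ := N₁) (D := D) (l := ℓ i₀) (p := θ) (q := b) (s := sl) (s₁ := s₁ + e₀) (s₂ := s₂)
    (γ := γ) (S := S) (P := Pp)
    hT hCc1 hHa (by positivity) hc₀1 le_rfl hM1 hb1 hN₁ (Nat.div_mul_le_self n N₁)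
    hPp0 hS (hℓ' i₀) hf hP1
  refine hfin.trans ?_
  -- the constant
  have hYZ : Y ≤ Z ^ (sp + 1) := by
    rw [hY]
    gcongr
  have hQ : (M ^ D * (1 : ℝ) ^ ((m + 1) ^ 2) * Cc ^ (D * m)) ^ b * (c₁⁻¹ ^ D)⁻¹ ≤ Z ^ s := by
    have h1 : M ^ D * (1 : ℝ) ^ ((m + 1) ^ 2) * Cc ^ (D * m) ≤ Z ^ (D * (1 + sv * m)) := by
      rw [one_pow, mul_one]
      calc M ^ D * Cc ^ (D * m) ≤ Z ^ D * (Z ^ sv) ^ (D * m) := by
            rw [hCc]
            gcongr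
        _ = Z ^ (D * (1 + sv * m)) := by
            rw [← pow_mul, ← pow_add]
            congr 1
            ring
    have h2 : (c₁⁻¹ ^ D)⁻¹ = c₁ ^ D := by rw [inv_pow, inv_inv]
    have h3 : c₁ ≤ Z ^ ((sp + 2) * sl + (sp + 1)) := by
      calc c₁ = (Cl * Y) ^ sl * Y := hc₁
        _ ≤ (Z * Z ^ (sp + 1)) ^ sl * Z ^ (sp + 1) := by gcongr
        _ = Z ^ ((sp + 2) * sl + (sp + 1)) := by
            rw [← pow_succ', ← pow_mul, ← pow_add]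
    rw [h2]
    calc (M ^ D * (1 : ℝ) ^ ((m + 1) ^ 2) * Cc ^ (D * m)) ^ b * c₁ ^ D
        ≤ (Z ^ (D * (1 + sv * m))) ^ b * (Z ^ ((sp + 2) * sl + (sp + 1))) ^ D := by gcongr
      _ = Z ^ e₁ := by
          rw [← pow_mul, ← pow_mul, ← pow_add, he₁]
          congr 1
          ring
      _ ≤ Z ^ s := pow_le_pow_right₀ hZ1 (by omega)
  have hT0 : 0 < TT t₀ 1 := by linarith
  have hHa0 : 0 < HH a := by linarith
  gcongr

end Pool.Agent.Work.MP_8d13b5_lc.Fm
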