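import Pool.Agent.Work.MP_8d13b5_lc.Fm.Stmts2

set_option autoImplicit false

/-! Item UUU (helper70): the matrices `U` of the general families. -/

namespace Pool.Agent.Work.MP_8d13b5_lc.Fm

open Polynomial NumberField Finset Module

namespace UUU

section basic

variable {K : Type} [Field K] [NumberField K]

lemma one_le_tt (φ : K →+* ℂ) (t₀ : 𝓞 K) : 1 ≤ tt φ t₀ 1 := by
  unfold tt
  rw [map_one, norm_one]
  exact le_max_right _ _

/-- polynomially bounded quantities -/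
def PB (g : 𝓞 K → (K →+* ℂ) → ℝ) : Prop :=
  ∃ (C : ℝ) (s : ℕ), 1 ≤ C ∧ ∀ t₀ φ, g t₀ φ ≤ C * tt φ t₀ 1 ^ s

lemma PB.mono {g g' : 𝓞 K → (K →+* ℂ) → ℝ} (h : PB g') (hg : ∀ t₀ φ, g t₀ φ ≤ g' t₀ φ) :
    PB g := by
  obtain ⟨C, s, hC, h⟩ := h
  exact ⟨C, s, hC, fun t₀ φ => (hg t₀ φ).trans (h t₀ φ)⟩

lemma PB.add {g g' : 𝓞 K → (K →+* ℂ) → ℝ} (h : PB g) (h' : PB g') :
    PB (fun t₀ φ => g t₀ φ + g' t₀ φ) := by
  obtain ⟨C, s, hC, h⟩ := h
  obtain ⟨C', s', hC', h'⟩ := h'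
  refine ⟨C + C', s + s', by linarith, fun t₀ φ => ?_⟩
  have h1 := one_le_tt φ t₀
  have h2 : tt φ t₀ 1 ^ s ≤ tt φ t₀ 1 ^ (s + s') := pow_le_pow_right₀ h1 (by omega)
  have h3 : tt φ t₀ 1 ^ s' ≤ tt φ t₀ 1 ^ (s + s') := pow_le_pow_right₀ h1 (by omega)
  have h4 := mul_le_mul_of_nonneg_left h2 (by linarith : (0 : ℝ) ≤ C)
  have h5 := mul_le_mul_of_nonneg_left h3 (by linarith : (0 : ℝ) ≤ C')
  have h6 := h t₀ φ
  have h7 := h' t₀ φ
  rw [add_mul]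
  linarith

lemma PB.mul {g g' : 𝓞 K → (K →+* ℂ) → ℝ} (h : PB g) (h' : PB g')
    (h0' : ∀ t₀ φ, 0 ≤ g' t₀ φ) :
    PB (fun t₀ φ => g t₀ φ * g' t₀ φ) := by
  obtain ⟨C, s, hC, h⟩ := h
  obtain ⟨C', s', hC', h'⟩ := h'
  refine ⟨C * C', s + s', one_le_mul_of_one_le_of_one_le hC hC', fun t₀ φ => ?_⟩
  have h1 := one_le_tt φ t₀
  have h8 : 0 ≤ C * tt φ t₀ 1 ^ s := by positivity
  calc g t₀ φ * g' t₀ φ ≤ (C * tt φ t₀ 1 ^ s) * g' t₀ φ :=
        mul_le_mul_of_nonneg_right (h t₀ φ) (h0' t₀ φ)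
    _ ≤ (C * tt φ t₀ 1 ^ s) * (C' * tt φ t₀ 1 ^ s') :=
        mul_le_mul_of_nonneg_left (h' t₀ φ) h8
    _ = C * C' * tt φ t₀ 1 ^ (s + s') := by rw [pow_add]; ring

lemma PB_const (c : (K →+* ℂ) → ℝ) : PB (fun (_ : 𝓞 K) (φ : K →+* ℂ) => c φ) := by
  refine ⟨1 + ∑ ψ : K →+* ℂ, |c ψ|, 0, ?_, fun t₀ φ => ?_⟩
  · have : 0 ≤ ∑ ψ : K →+* ℂ, |c ψ| := Finset.sum_nonneg fun _ _ => abs_nonneg _
    linarith
  · rw [pow_zero, mul_one]
    have h1 : |c φ| ≤ ∑ ψ : K →+* ℂ, |c ψ| :=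
      Finset.single_le_sum (f := fun ψ : K →+* ℂ => |c ψ|) (fun _ _ => abs_nonneg _)
        (Finset.mem_univ φ)
    have h2 := le_abs_self (c φ)
    linarith

lemma PB_sum {ι : Type} (S : Finset ι) (g : ι → 𝓞 K → (K →+* ℂ) → ℝ) (h : ∀ i ∈ S, PB (g i)) :
    PB (fun t₀ φ => ∑ i ∈ S, g i t₀ φ) := by
  classical
  induction S using Finset.induction_on with
  | empty => exact (PB_const (fun _ => 0)).mono fun _ _ => by simp
  | insert a S ha ih =>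
    have h1 := (h a (Finset.mem_insert_self a S)).add
      (ih fun i hi => h i (Finset.mem_insert_of_mem hi))
    exact h1.mono fun t₀ φ => by rw [Finset.sum_insert ha]

lemma PB_eval (P : (𝓞 K)[X]) : PB (fun t₀ φ => ‖res φ (P.eval t₀)‖) := by
  induction P using Polynomial.induction_on' with
  | add p q hp hq =>
    refine (hp.add hq).mono fun t₀ φ => ?_
    rw [eval_add, map_add]
    exact norm_add_le _ _
  | monomial n a =>
    obtain ⟨C, s, hC, h⟩ := PB_const (K := K) (fun φ => ‖res φ a‖)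
    refine ⟨C, s + n, hC, fun t₀ φ => ?_⟩
    show ‖res φ (eval t₀ (monomial n a))‖ ≤ _
    rw [eval_monomial, map_mul, map_pow, norm_mul, norm_pow, pow_add, ← mul_assoc]
    have h1 : ‖res φ t₀‖ ≤ tt φ t₀ 1 := le_max_left _ _
    exact mul_le_mul (h t₀ φ) (pow_le_pow_left₀ (norm_nonneg _) h1 n) (by positivity)
      (by have := one_le_tt φ t₀
          positivity)

end basic

section alg

variable {R A : Type} [CommRing R] [CommRing A] [Algebra R A]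

lemma ev2_add (P Q : R[X][X]) (T Y : A) : ev2 (P + Q) T Y = ev2 P T Y + ev2 Q T Y :=
  eval₂_add _ _

lemma ev2_mul (P Q : R[X][X]) (T Y : A) : ev2 (P * Q) T Y = ev2 P T Y * ev2 Q T Y :=
  eval₂_mul _ _

lemma ev2_C (P : R[X]) (T Y : A) : ev2 (C P) T Y = aeval T P := eval₂_C _ _

lemma ev2_X (T Y : A) : ev2 (X : R[X][X]) T Y = Y := eval₂_X _ _

lemma ev2_monomial (i : ℕ) (P : R[X]) (T Y : A) : ev2 (monomial i P) T Y = aeval T P * Y ^ i :=
  eval₂_monomial _ _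

lemma ev2_alg (F : R[X][X]) (t₀ : R) (Y : A) :
    ev2 F (algebraMap R A t₀) Y = (spc F t₀).eval₂ (algebraMap R A) Y := by
  unfold ev2 spc
  rw [eval₂_map]
  congr 1
  refine Polynomial.ringHom_ext (fun a => ?_) ?_
  · simp
  · simp

lemma ev2_root (F : R[X][X]) (t₀ : R) :
    ev2 F (algebraMap R (AdjoinRoot (spc F t₀)) t₀) (AdjoinRoot.root (spc F t₀)) = 0 := by
  rw [ev2_alg, AdjoinRoot.algebraMap_eq, AdjoinRoot.eval₂_root]

end alg

section size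

variable {R : Type} [CommRing R]

lemma sn_sum {A : Type} [CommRing A] {N : A → ℝ} (hN : IsSn N) {ι : Type} (S : Finset ι)
    (g : ι → A) : N (∑ i ∈ S, g i) ≤ ∑ i ∈ S, N (g i) := by
  classical
  induction S using Finset.induction_on with
  | empty => simp [hN.zero]
  | insert a S ha ih =>
    rw [Finset.sum_insert ha, Finset.sum_insert ha]
    exact (hN.add _ _).trans (by linarith)

lemma crd_root (f : R[X]) (hf : f.Monic) [Nontrivial R] (i j : ℕ) (hj : j < f.natDegree) :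
    (AdjoinRoot.modByMonicHom hf (AdjoinRoot.root f ^ j)).coeff i = if i = j then 1 else 0 := by
  have h1 : AdjoinRoot.root f ^ j = AdjoinRoot.mk f (X ^ j) := by
    rw [map_pow, AdjoinRoot.mk_X]
  rw [h1, AdjoinRoot.modByMonicHom_mk, (modByMonic_eq_self_iff hf).2, coeff_X_pow]
  rw [degree_X_pow, degree_eq_natDegree hf.ne_zero]
  exact_mod_cast hj

/-- the size of a power -/
lemma sn_pow {A : Type} [CommRing A] {N : A → ℝ} (hN : IsSn N) {M : ℝ} (hM : 1 ≤ M)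
    (h1 : N 1 ≤ M) {x : A} (hx : N x ≤ M) (i : ℕ) : N (x ^ i) ≤ M ^ (i + 1) := by
  induction i with
  | zero => simpa using h1
  | succ i ih =>
    rw [pow_succ, pow_succ M]
    exact (hN.mul _ _).trans (mul_le_mul ih hx (hN.nonneg _) (by positivity))

lemma sn_coeff_C_mul {A : Type} [CommRing A] {N : A → ℝ} (hN : IsSn N) (x : A)
    (b : PowerSeries A) (r : ℕ) {B₁ B₂ : ℝ} (h1 : N x ≤ B₁) (hB : 0 ≤ B₁)
    (h2 : N (PowerSeries.coeff r b) ≤ B₂) : N (PowerSeries.coeff r (PowerSeries.C x * b)) ≤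
      B₁ * B₂ := by
  rw [PowerSeries.coeff_C_mul]
  exact (hN.mul _ _).trans (mul_le_mul h1 h2 (hN.nonneg _) hB)

/-- coefficients of a product of power series -/
lemma coeff_prod_le (φ : R →+* ℂ) (a b : PowerSeries R) {B₁ G : ℝ} (hB : 0 ≤ B₁) (hG : 0 ≤ G)
    (ha : ∀ r, ‖φ (PowerSeries.coeff r a)‖ ≤ B₁ * G ^ r)
    (hb : ∀ r, ‖φ (PowerSeries.coeff r b)‖ ≤ G ^ r) (r : ℕ) :
    ‖φ (PowerSeries.coeff r (a * b))‖ ≤ B₁ * (2 * G) ^ r := by
  rw [PowerSeries.coeff_mul, map_sum]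
  have h1 : ∀ q ∈ antidiagonal r, ‖φ (PowerSeries.coeff q.1 a * PowerSeries.coeff q.2 b)‖ ≤
      B₁ * G ^ r := by
    intro q hq
    rw [map_mul, norm_mul]
    calc ‖φ (PowerSeries.coeff q.1 a)‖ * ‖φ (PowerSeries.coeff q.2 b)‖ ≤
        (B₁ * G ^ q.1) * G ^ q.2 := mul_le_mul (ha _) (hb _) (norm_nonneg _) (by positivity)
      _ = B₁ * G ^ r := by rw [mul_assoc, ← pow_add, mem_antidiagonal.1 hq]
  refine (norm_sum_le _ _).trans ((Finset.sum_le_sum h1).trans ?_)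
  rw [Finset.sum_const, Finset.Nat.card_antidiagonal, nsmul_eq_mul, mul_pow]
  have h2 : ((r + 1 : ℕ) : ℝ) ≤ 2 ^ r := by
    have : r + 1 ≤ 2 ^ r := Nat.lt_two_pow_self
    exact_mod_cast this
  have h3 : 0 ≤ B₁ * G ^ r := by positivity
  calc ((r + 1 : ℕ) : ℝ) * (B₁ * G ^ r) ≤ 2 ^ r * (B₁ * G ^ r) :=
        mul_le_mul_of_nonneg_right h2 h3
    _ = B₁ * (2 ^ r * G ^ r) := by ring

/-- the sizes for one seminorm -/
lemma core (hMUN : StMUN) (hINV : StINV) [Nontrivial R] (φ : R →+* ℂ) (f : R[X])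
    (hf : f.Monic) (k : ℕ) (hk : f.natDegree = k) (hN : IsSn (sN φ f hf))
    (hc : ∀ (a : AdjoinRoot f) (j : ℕ),
      ‖φ ((AdjoinRoot.modByMonicHom hf a).coeff j)‖ ≤ sN φ f hf a)
    (μ : PowerSeries (AdjoinRoot f)) (hμ : PowerSeries.constantCoeff μ = 1) (M G : ℝ)
    (hM : 1 ≤ M) (h1 : sN φ f hf 1 ≤ M) (hx : sN φ f hf (AdjoinRoot.root f) ≤ M) (hG : 0 ≤ G)
    (hμr : ∀ r, 1 ≤ r → sN φ f hf (PowerSeries.coeff r μ) ≤ G ^ r)
    (T : Matrix (Fin k) (Fin k) (PowerSeries R))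
    (hT : (Matrix.of fun j i : Fin k => crd f hf i
      ((PowerSeries.C (AdjoinRoot.root f) * μ) ^ (j : ℕ))) * T = 1) (n : ℕ) (i j : Fin k)
    (r : ℕ) :
    ‖φ (PowerSeries.coeff r (∑ l : Fin k, crd f hf l
      (PowerSeries.C (AdjoinRoot.root f ^ (i : ℕ)) * μ ^ n) * T l j))‖ ≤
      k * (M ^ (k + 2) * 2 ^ n) * (4 * G * (1 + k * (M ^ (k + 2) * 2 ^ k))) ^ r := by
  have hM0 : 0 ≤ M := by linarith
  have hmun := hMUN (AdjoinRoot f) (sN φ f hf) M G μ hN hM h1 hG hμ hμr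
  have hxp : ∀ i : ℕ, i < k → sN φ f hf (AdjoinRoot.root f ^ i) ≤ M ^ (k + 1) := fun i hi =>
    (sn_pow hN hM h1 hx i).trans (pow_le_pow_right₀ hM (by omega))
  have hco : ∀ (i : ℕ), i < k → ∀ n r : ℕ, sN φ f hf (PowerSeries.coeff r
      (PowerSeries.C (AdjoinRoot.root f ^ i) * μ ^ n)) ≤ M ^ (k + 2) * 2 ^ n * (2 * G) ^ r := by
    intro i hi n r
    refine (sn_coeff_C_mul hN _ _ r (hxp i hi) (by positivity) (hmun n r)).trans (le_of_eq ?_)
    ring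
  set B : ℝ := M ^ (k + 2) * 2 ^ k with hB
  have hB0 : 0 ≤ B := by positivity
  have hS : ∀ a b : Fin k, ∀ r, 1 ≤ r → ‖φ (PowerSeries.coeff r
      ((Matrix.of fun j i : Fin k => crd f hf i
      ((PowerSeries.C (AdjoinRoot.root f) * μ) ^ (j : ℕ))) a b))‖ ≤ B * (2 * G) ^ r := by
    intro a b r _
    rw [Matrix.of_apply, crd, PowerSeries.coeff_mk, mul_pow, ← map_pow]
    refine (hc _ _).trans ((hco a a.2 a r).trans ?_)
    refine mul_le_mul_of_nonneg_right ?_ (by positivity)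
    exact mul_le_mul_of_nonneg_left (pow_le_pow_right₀ (by norm_num) a.2.le) (by positivity)
  have hS0 : ∀ a b : Fin k, PowerSeries.constantCoeff
      ((Matrix.of fun j i : Fin k => crd f hf i
      ((PowerSeries.C (AdjoinRoot.root f) * μ) ^ (j : ℕ))) a b) = if a = b then 1 else 0 := by
    intro a b
    rw [Matrix.of_apply, ← PowerSeries.coeff_zero_eq_constantCoeff_apply, crd,
      PowerSeries.coeff_mk, PowerSeries.coeff_zero_eq_constantCoeff_apply, map_pow, map_mul,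
      PowerSeries.constantCoeff_C, hμ, mul_one, crd_root f hf b a (by rw [hk]; exact a.2)]
    by_cases hab : a = b
    · rw [if_pos (by rw [hab]), if_pos hab]
    · rw [if_neg (fun h => hab (Fin.ext h.symm)), if_neg hab]
  have hTb := hINV R φ k _ T B (2 * G) hB0 (by positivity) hT hS0 hS
  set G₂ : ℝ := 2 * G * (1 + k * B) with hG₂
  have hG₂0 : 0 ≤ G₂ := by positivity
  have hGG : 2 * G ≤ G₂ := by
    have : 0 ≤ 2 * G * (k * B) := by positivity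
    rw [hG₂, mul_add, mul_one]
    linarith
  have hcr : ∀ (l : Fin k) (r : ℕ), ‖φ (PowerSeries.coeff r (crd f hf l
      (PowerSeries.C (AdjoinRoot.root f ^ (i : ℕ)) * μ ^ n)))‖ ≤
      M ^ (k + 2) * 2 ^ n * G₂ ^ r := by
    intro l r
    rw [crd, PowerSeries.coeff_mk]
    refine (hc _ _).trans ((hco i i.2 n r).trans ?_)
    exact mul_le_mul_of_nonneg_left (pow_le_pow_left₀ (by positivity) hGG r) (by positivity)
  rw [map_sum, map_sum]
  have hfin : ∀ l ∈ (Finset.univ : Finset (Fin k)), ‖φ (PowerSeries.coeff r (crd f hf l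
      (PowerSeries.C (AdjoinRoot.root f ^ (i : ℕ)) * μ ^ n) * T l j))‖ ≤
      M ^ (k + 2) * 2 ^ n * (2 * G₂) ^ r := fun l _ =>
    coeff_prod_le φ _ _ (by positivity) hG₂0 (hcr l) (hTb l j) r
  refine (norm_sum_le _ _).trans ((Finset.sum_le_sum hfin).trans (le_of_eq ?_))
  rw [Finset.sum_const, Finset.card_univ, Fintype.card_fin, nsmul_eq_mul, hG₂]
  ring

lemma num (k n r s s₁ : ℕ) (C C₁ t : ℝ) (hC : 1 ≤ C) (hC₁ : 1 ≤ C₁) (ht : 1 ≤ t) :
    k * ((C * t ^ s) ^ (k + 2) * 2 ^ n) *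
      (4 * (C₁ * (C * t ^ s) ^ s₁) * (1 + k * ((C * t ^ s) ^ (k + 2) * 2 ^ k))) ^ r ≤
    (4 * C₁ * (1 + k * 2 ^ k) * C ^ (s₁ + k + 2)) ^ (n + 1) * t ^ (s * (s₁ + k + 2)) *
      (4 * C₁ * (1 + k * 2 ^ k) * C ^ (s₁ + k + 2) * t ^ (s * (s₁ + k + 2))) ^ r := by
  set M : ℝ := C * t ^ s with hM
  set E : ℝ := 4 * C₁ * (1 + k * 2 ^ k) * C ^ (s₁ + k + 2) with hE
  have ht0 : 0 ≤ t := by linarith
  have hC0 : 0 ≤ C := by linarith
  have hC₁0 : 0 ≤ C₁ := by linarith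
  have hM1 : 1 ≤ M := one_le_mul_of_one_le_of_one_le hC (one_le_pow₀ ht)
  have hk0 : (0 : ℝ) ≤ k * 2 ^ k := by positivity
  have hCp : 1 ≤ C ^ (s₁ + k + 2) := one_le_pow₀ hC
  have hE4 : 4 ≤ E := by
    have h1 : (1 : ℝ) ≤ 1 + k * 2 ^ k := by linarith
    have h2 : 1 ≤ C₁ * (1 + k * 2 ^ k) * C ^ (s₁ + k + 2) :=
      one_le_mul_of_one_le_of_one_le (one_le_mul_of_one_le_of_one_le hC₁ h1) hCp
    have h3 : E = 4 * (C₁ * (1 + k * 2 ^ k) * C ^ (s₁ + k + 2)) := by rw [hE]; ring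
    linarith
  have hMp : ∀ a : ℕ, a ≤ s₁ + k + 2 → M ^ a ≤ C ^ (s₁ + k + 2) * t ^ (s * (s₁ + k + 2)) := by
    intro a ha
    calc M ^ a ≤ M ^ (s₁ + k + 2) := pow_le_pow_right₀ hM1 ha
      _ = _ := by rw [hM, mul_pow, ← pow_mul]
  have hA : k * (M ^ (k + 2) * 2 ^ n) ≤ E ^ (n + 1) * t ^ (s * (s₁ + k + 2)) := by
    have h1 : (k : ℝ) ≤ 1 + k * 2 ^ k := by
      have : (k : ℝ) * 1 ≤ k * 2 ^ k := mul_le_mul_of_nonneg_left (one_le_pow₀ (by norm_num))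
        (by positivity)
      linarith
    have h2 : (2 : ℝ) ^ n ≤ E ^ n := pow_le_pow_left₀ (by norm_num) (by linarith) n
    have h3 := hMp (k + 2) (by omega)
    have h4 : (1 + k * 2 ^ k : ℝ) ≤ 4 * C₁ * (1 + k * 2 ^ k) := by
      have h5 : (1 : ℝ) ≤ 4 * C₁ := by linarith
      have h6 : (0 : ℝ) ≤ 1 + k * 2 ^ k := by linarith
      calc (1 + k * 2 ^ k : ℝ) = 1 * (1 + k * 2 ^ k) := (one_mul _).symm
        _ ≤ 4 * C₁ * (1 + k * 2 ^ k) := mul_le_mul_of_nonneg_right h5 h6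
    calc (k : ℝ) * (M ^ (k + 2) * 2 ^ n) ≤ (4 * C₁ * (1 + k * 2 ^ k)) *
          ((C ^ (s₁ + k + 2) * t ^ (s * (s₁ + k + 2))) * E ^ n) := by
          refine mul_le_mul (h1.trans h4) (mul_le_mul h3 h2 (by positivity) (by positivity))
            (by positivity) (by positivity)
      _ = E ^ (n + 1) * t ^ (s * (s₁ + k + 2)) := by rw [pow_succ, hE]; ring
  have hBd : 4 * (C₁ * M ^ s₁) * (1 + k * (M ^ (k + 2) * 2 ^ k)) ≤
      E * t ^ (s * (s₁ + k + 2)) := by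
    have h1 : (1 : ℝ) ≤ M ^ (k + 2) := one_le_pow₀ hM1
    have h2 : 1 + k * (M ^ (k + 2) * 2 ^ k) ≤ (1 + k * 2 ^ k) * M ^ (k + 2) := by
      have h3 : (1 + k * 2 ^ k) * M ^ (k + 2) = M ^ (k + 2) + k * (M ^ (k + 2) * 2 ^ k) := by
        ring
      linarith
    calc 4 * (C₁ * M ^ s₁) * (1 + k * (M ^ (k + 2) * 2 ^ k)) ≤
        4 * (C₁ * M ^ s₁) * ((1 + k * 2 ^ k) * M ^ (k + 2)) :=
          mul_le_mul_of_nonneg_left h2 (by positivity)
      _ = 4 * C₁ * (1 + k * 2 ^ k) * M ^ (s₁ + k + 2) := by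
          rw [show s₁ + k + 2 = s₁ + (k + 2) by ring, pow_add M s₁ (k + 2)]; ring
      _ ≤ 4 * C₁ * (1 + k * 2 ^ k) * (C ^ (s₁ + k + 2) * t ^ (s * (s₁ + k + 2))) :=
          mul_le_mul_of_nonneg_left (hMp _ le_rfl) (by positivity)
      _ = E * t ^ (s * (s₁ + k + 2)) := by rw [hE]; ring
  exact mul_le_mul hA (pow_le_pow_left₀ (by positivity) hBd r) (by positivity) (by positivity)

end size

section main

variable {K : Type} [Field K] [NumberField K]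

lemma spc_monic {F : (𝓞 K)[X][X]} (hF : F.Monic) (t₀ : 𝓞 K) : (spc F t₀).Monic :=
  hF.map _

lemma spc_deg {F : (𝓞 K)[X][X]} (hF : F.Monic) (t₀ : 𝓞 K) :
    (spc F t₀).natDegree = F.natDegree :=
  hF.natDegree_map _

/-- the size on `AdjoinRoot (spc F t₀)` -/
noncomputable def NN {F : (𝓞 K)[X][X]} (hF : F.Monic) (t₀ : 𝓞 K) (φ : K →+* ℂ) :
    AdjoinRoot (spc F t₀) → ℝ :=
  sN (res φ) (spc F t₀) (spc_monic hF t₀)

lemma NN_sn (hSNM : StSNM) {F : (𝓞 K)[X][X]} (hF : F.Monic) (hk : 1 ≤ F.natDegree) (t₀ : 𝓞 K)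
    (φ : K →+* ℂ) : IsSn (NN hF t₀ φ) :=
  (hSNM (𝓞 K) (res φ) (spc F t₀) (spc_monic hF t₀) (by rw [spc_deg hF]; exact hk)).1

lemma PB_alg (hSNM : StSNM) {F : (𝓞 K)[X][X]} (hF : F.Monic) (hk : 1 ≤ F.natDegree)
    (P : (𝓞 K)[X]) :
    PB (fun t₀ φ => NN hF t₀ φ (algebraMap (𝓞 K) (AdjoinRoot (spc F t₀)) (P.eval t₀))) := by
  refine ((PB_const (K := K) (fun _ => (F.natDegree : ℝ))).mul (PB_eval P)
    (fun _ _ => norm_nonneg _)).mono fun t₀ φ => ?_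
  have h := (hSNM (𝓞 K) (res φ) (spc F t₀) (spc_monic hF t₀) (by rw [spc_deg hF]; exact hk)).2.2.1
    (P.eval t₀)
  rw [spc_deg hF] at h
  exact h.le

lemma PB_root (hSNM : StSNM) {F : (𝓞 K)[X][X]} (hF : F.Monic) (hk : 1 ≤ F.natDegree) :
    PB (fun t₀ φ => NN hF t₀ φ (AdjoinRoot.root (spc F t₀))) := by
  refine ((PB_const (K := K) (fun _ => (F.natDegree : ℝ))).add
    (PB_sum (range F.natDegree) (fun j t₀ φ => ‖res φ ((F.coeff j).eval t₀)‖)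
      fun j _ => PB_eval (F.coeff j))).mono fun t₀ φ => ?_
  have h := (hSNM (𝓞 K) (res φ) (spc F t₀) (spc_monic hF t₀) (by rw [spc_deg hF]; exact hk)).2.2.2
  rw [spc_deg hF] at h
  refine h.trans (le_of_eq ?_)
  congr 1
  refine Finset.sum_congr rfl fun j _ => ?_
  unfold spc
  rw [coeff_map, coe_evalRingHom]

lemma PB_root_pow (hSNM : StSNM) {F : (𝓞 K)[X][X]} (hF : F.Monic) (hk : 1 ≤ F.natDegree)
    (i : ℕ) : PB (fun t₀ φ => NN hF t₀ φ (AdjoinRoot.root (spc F t₀) ^ i)) := by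
  induction i with
  | zero =>
    refine (PB_alg hSNM hF hk 1).mono fun t₀ φ => ?_
    rw [pow_zero, eval_one, map_one]
  | succ i ih =>
    refine (ih.mul (PB_root hSNM hF hk) (fun t₀ φ => (NN_sn hSNM hF hk t₀ φ).nonneg _)).mono
      fun t₀ φ => ?_
    rw [pow_succ]
    exact (NN_sn hSNM hF hk t₀ φ).mul _ _

lemma PB_ev2 (hSNM : StSNM) {F : (𝓞 K)[X][X]} (hF : F.Monic) (hk : 1 ≤ F.natDegree)
    (Q : (𝓞 K)[X][X]) :
    PB (fun t₀ φ => NN hF t₀ φ (ev2 Q (algebraMap (𝓞 K) (AdjoinRoot (spc F t₀)) t₀)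
      (AdjoinRoot.root (spc F t₀)))) := by
  induction Q using Polynomial.induction_on' with
  | add p q hp hq =>
    refine (hp.add hq).mono fun t₀ φ => ?_
    rw [ev2_add]
    exact (NN_sn hSNM hF hk t₀ φ).add _ _
  | monomial i P =>
    refine ((PB_alg hSNM hF hk P).mul (PB_root_pow hSNM hF hk i)
      (fun t₀ φ => (NN_sn hSNM hF hk t₀ φ).nonneg _)).mono fun t₀ φ => ?_
    rw [ev2_monomial, aeval_algebraMap_apply_eq_algebraMap_eval]
    exact (NN_sn hSNM hF hk t₀ φ).mul _ _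

end main

end UUU

open UUU in
/-- **UUU** -/
theorem prUUU (hDIS : StDIS) (hHNX : StHNX) (hSNM : StSNM) (hMUN : StMUN) (hINV : StINV)
    (hUUA : StUUA) : StUUU := by
  intro K _ _ m F hF
  obtain ⟨U₀, V₀, Δ₀, hΔ₀, hUV⟩ := hDIS K m F hF
  have hdeg := hF.deg
  have hmon := hF.monic
  have hk1 : 1 ≤ F.natDegree := by omega
  obtain ⟨τ, hτ⟩ : ∃ τ : ℕ, ∀ j, (F.coeff j).natDegree ≤ τ := by
    refine ⟨∑ j ∈ range (m + 2), (F.coeff j).natDegree, fun j => ?_⟩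
    by_cases hj : j < m + 2
    · exact Finset.single_le_sum (f := fun j => (F.coeff j).natDegree)
        (fun _ _ => Nat.zero_le _) (mem_range.2 hj)
    · rw [coeff_eq_zero_of_natDegree_lt (by omega), natDegree_zero]
      exact Nat.zero_le _
  obtain ⟨C₁, s₁, hC₁, hH⟩ := hHNX (m + 1) τ
  have hN := NN_sn (K := K) hSNM hmon hk1
  -- the sizes of the data
  have b1 := PB_alg (K := K) hSNM hmon hk1 1
  have b2 := PB_alg (K := K) hSNM hmon hk1 X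
  have b3 := PB_root (K := K) hSNM hmon hk1
  have b4 := PB_ev2 (K := K) hSNM hmon hk1 (divX F)
  have b5 := PB_ev2 (K := K) hSNM hmon hk1 V₀
  have b6 := PB_alg (K := K) hSNM hmon hk1 Δ₀
  have b7 := PB_alg (K := K) hSNM hmon hk1 (F.coeff 0)
  have b8 := PB_sum (K := K) (range (m + 2) ×ˢ range (τ + 1)) _
    fun p _ => PB_alg (K := K) hSNM hmon hk1 (C ((F.coeff p.1).coeff p.2))
  obtain ⟨E, s, hE, hEs⟩ := ((((((b1.add b2).add b3).add b4).add b5).add b6).add b7).add b8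
  refine ⟨Δ₀ ^ 2 * F.coeff 0, 4 * C₁ * (1 + ((m + 1 : ℕ) : ℝ) * 2 ^ (m + 1)) *
    E ^ (s₁ + (m + 1) + 2), s * (s₁ + (m + 1) + 2),
    mul_ne_zero (pow_ne_zero 2 hΔ₀) hF.ne, ?_, fun t₀ hΔt n => ?_⟩
  · have h1 : (1 : ℝ) ≤ 4 * C₁ := by linarith
    have h2 : (1 : ℝ) ≤ 1 + ((m + 1 : ℕ) : ℝ) * 2 ^ (m + 1) := by
      have : (0 : ℝ) ≤ ((m + 1 : ℕ) : ℝ) * 2 ^ (m + 1) := by positivity
      linarith
    exact one_le_mul_of_one_le_of_one_le (one_le_mul_of_one_le_of_one_le h1 h2)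
      (one_le_pow₀ hE)
  -- the data at t₀
  set A := AdjoinRoot (spc F t₀) with hA
  set x : A := AdjoinRoot.root (spc F t₀) with hx
  set T₀ : A := algebraMap (𝓞 K) A t₀ with hT₀
  have hroot : ev2 F T₀ x = 0 := ev2_root F t₀
  have hds : ev2 (derivative F) T₀ x * ev2 V₀ T₀ x = algebraMap (𝓞 K) A (Δ₀.eval t₀) := by
    have h := congrArg (fun P => ev2 P T₀ x) hUV
    simp only [ev2_add, ev2_mul, ev2_C] at h
    rw [hroot, mul_zero, zero_add, hT₀, aeval_algebraMap_apply_eq_algebraMap_eval] at h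
    rw [mul_comm]
    exact h
  have hxs : x * (-(ev2 (divX F) T₀ x)) = algebraMap (𝓞 K) A ((F.coeff 0).eval t₀) := by
    have h := congrArg (fun P => ev2 P T₀ x) (divX_mul_X_add F)
    simp only [ev2_add, ev2_mul, ev2_C, ev2_X] at h
    rw [hroot] at h
    rw [← aeval_algebraMap_apply_eq_algebraMap_eval]
    have h2 : aeval (algebraMap (𝓞 K) A t₀) (F.coeff 0) = aeval T₀ (F.coeff 0) := rfl
    rw [h2]
    linear_combination -h
  obtain ⟨μ, hμ, hμe, hμN⟩ := hH (𝓞 K) A F t₀ (Δ₀.eval t₀) ((F.coeff 0).eval t₀) x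
    (-(ev2 (divX F) T₀ x)) (ev2 V₀ T₀ x) hdeg.le hτ hroot hds hxs
  have hdd : (Δ₀ ^ 2 * F.coeff 0).eval t₀ = Δ₀.eval t₀ ^ 2 * (F.coeff 0).eval t₀ := by
    rw [eval_mul, eval_pow]
  obtain ⟨T, hT, hTn⟩ := hUUA (𝓞 K) F t₀ ((Δ₀ ^ 2 * F.coeff 0).eval t₀) (spc_monic hmon t₀) μ
    hmon hk1 hμ (by rw [hdd]; exact hμe)
  have key : ∀ k' : ℕ, F.natDegree = k' → ∃ U : Fin k' → Fin k' → PowerSeries (𝓞 K),
        (∀ i j, PowerSeries.constantCoeff (U i j) = if i = j then 1 else 0) ∧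
        (∀ j : Fin k', ∑ i : Fin k',
          PowerSeries.C ((Pd.cf F n i).eval t₀) * U i j =
            tay (Pd.cf F n j) t₀ ((Δ₀ ^ 2 * F.coeff 0).eval t₀)) ∧
        ∀ (φ : K →+* ℂ) i j r, ‖res φ (PowerSeries.coeff r (U i j))‖ ≤
          k' * ((E * tt φ t₀ 1 ^ s) ^ (k' + 2) * 2 ^ n) *
      (4 * (C₁ * (E * tt φ t₀ 1 ^ s) ^ s₁) *
        (1 + k' * ((E * tt φ t₀ 1 ^ s) ^ (k' + 2) * 2 ^ k'))) ^ r := by
    rintro _ rfl
    refine ⟨fun i j => ∑ l : Fin F.natDegree, crd (spc F t₀) (spc_monic hmon t₀) l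
            (PowerSeries.C (AdjoinRoot.root (spc F t₀) ^ (i : ℕ)) * μ ^ n) * T l j,
            (hTn n).1, (hTn n).2, fun φ i j r => ?_⟩
    have ht1 := one_le_tt φ t₀
    have hM1 : 1 ≤ E * tt φ t₀ 1 ^ s := one_le_mul_of_one_le_of_one_le hE (one_le_pow₀ ht1)
    have hM0 : 0 ≤ E * tt φ t₀ 1 ^ s := by linarith
    have hNt := hN t₀ φ
    have htot := hEs t₀ φ
    simp only [eval_one, map_one, eval_X, eval_C] at htot
    have n1 := hNt.nonneg 1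
    have n2 := hNt.nonneg T₀
    have n3 := hNt.nonneg x
    have n4 := hNt.nonneg (ev2 (divX F) T₀ x)
    have n5 := hNt.nonneg (ev2 V₀ T₀ x)
    have n6 := hNt.nonneg (algebraMap (𝓞 K) A (Δ₀.eval t₀))
    have n7 := hNt.nonneg (algebraMap (𝓞 K) A ((F.coeff 0).eval t₀))
    have n8 : 0 ≤ ∑ p ∈ range (m + 2) ×ˢ range (τ + 1),
        NN hmon t₀ φ (algebraMap (𝓞 K) A ((F.coeff p.1).coeff p.2)) :=
      Finset.sum_nonneg fun _ _ => hNt.nonneg _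
    have m1 : NN hmon t₀ φ 1 ≤ E * tt φ t₀ 1 ^ s := by linarith
    have m3 : NN hmon t₀ φ x ≤ E * tt φ t₀ 1 ^ s := by linarith
    have m8 : ∀ i j, NN hmon t₀ φ (algebraMap (𝓞 K) A ((F.coeff j).coeff i)) ≤
        E * tt φ t₀ 1 ^ s := by
      intro i j
      by_cases hj : j < m + 2
      · by_cases hi : i < τ + 1
        · have h := Finset.single_le_sum (f := fun p : ℕ × ℕ =>
            NN hmon t₀ φ (algebraMap (𝓞 K) A ((F.coeff p.1).coeff p.2)))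
            (fun _ _ => hNt.nonneg _) (mem_product.2 ⟨mem_range.2 hj, mem_range.2 hi⟩ :
              ((j, i) : ℕ × ℕ) ∈ range (m + 2) ×ˢ range (τ + 1))
          have h' : NN hmon t₀ φ (algebraMap (𝓞 K) A ((F.coeff j).coeff i)) ≤
            ∑ p ∈ range (m + 2) ×ˢ range (τ + 1),
              NN hmon t₀ φ (algebraMap (𝓞 K) A ((F.coeff p.1).coeff p.2)) := h
          linarith
        · have h0 : (F.coeff j).coeff i = 0 :=
            coeff_eq_zero_of_natDegree_lt (by have := hτ j; omega)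
          rw [h0, map_zero, hNt.zero]
          exact hM0
      · have h0 : F.coeff j = 0 := coeff_eq_zero_of_natDegree_lt (by omega)
        rw [h0, coeff_zero, map_zero, hNt.zero]
        exact hM0
    have hμr := hμN (NN hmon t₀ φ) (E * tt φ t₀ 1 ^ s) hNt hM1 m1 (by linarith) m3
      (by rw [hNt.neg]; linarith) (by linarith) (by linarith) (by linarith) m8
    exact core hMUN hINV (res φ) (spc F t₀) (spc_monic hmon t₀) F.natDegree (spc_deg hmon t₀)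
      hNt (hSNM (𝓞 K) (res φ) (spc F t₀) (spc_monic hmon t₀)
        (by rw [spc_deg hmon]; exact hk1)).2.1 μ hμ (E * tt φ t₀ 1 ^ s)
      (C₁ * (E * tt φ t₀ 1 ^ s) ^ s₁) hM1 m1 m3 (by positivity) hμr T hT n i j r
  obtain ⟨U, hU1, hU2, hU3⟩ := key (m + 1) hdeg
  exact ⟨U, hU1, hU2, fun φ i j r => (hU3 φ i j r).trans
    (num (m + 1) n r s s₁ E C₁ (tt φ t₀ 1) hE hC₁ (one_le_tt φ t₀))⟩

end Pool.Agent.Work.MP_8d13b5_lc.Fm
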