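import Pool.Agent.Work.MP_8d13b5_lc.Fm.StmtsX
import Pool.Agent.Work.MP_8d13b5_lc.Fm.I_UUU

set_option autoImplicit false

/-! Item XUU: the matrices `U` with explicit constants. -/

namespace Pool.Agent.Work.MP_8d13b5_lc.Fm

open Polynomial NumberField Finset Module

namespace XUU

variable {K : Type} [Field K] [NumberField K]

/-- the size of a value -/
lemma eval_le (φ : K →+* ℂ) (P : (𝓞 K)[X]) (t₀ : 𝓞 K) {B : ℝ} {d e : ℕ} (hB : tt φ t₀ 1 ≤ B)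
    (hd : P.natDegree ≤ d) (hp : pn (res φ) P ≤ B ^ e) :
    ‖res φ (P.eval t₀)‖ ≤ B ^ (e + d) := by
  have h1 := UUU.one_le_tt φ t₀
  have hB1 : 1 ≤ B := h1.trans hB
  rw [eval_eq_sum_range, map_sum]
  have h2 : ∀ i ∈ range (P.natDegree + 1), ‖res φ (P.coeff i * t₀ ^ i)‖ ≤
      ‖res φ (P.coeff i)‖ * B ^ d := by
    intro i hi
    rw [map_mul, map_pow, norm_mul, norm_pow]
    refine mul_le_mul_of_nonneg_left ?_ (norm_nonneg _)
    have h3 : ‖res φ t₀‖ ≤ B := (le_max_left _ _).trans hB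
    calc ‖res φ t₀‖ ^ i ≤ B ^ i := pow_le_pow_left₀ (norm_nonneg _) h3 i
      _ ≤ B ^ d := pow_le_pow_right₀ hB1 (by rw [mem_range] at hi; omega)
  refine (norm_sum_le _ _).trans ((Finset.sum_le_sum h2).trans ?_)
  rw [← Finset.sum_mul, pow_add]
  exact mul_le_mul_of_nonneg_right hp (by positivity)

/-- the size of a value of a polynomial in two variables -/
lemma ev2_le {A : Type} [CommRing A] [Algebra (𝓞 K) A] {N : A → ℝ} (hN : IsSn N)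
    (Q : (𝓞 K)[X][X]) (t₀ : 𝓞 K) (x : A) {B : ℝ} (hB : 2 ≤ B) {D a b : ℕ}
    (hD : Q.natDegree ≤ D) (h1 : N 1 ≤ B ^ b) (hx : N x ≤ B ^ b)
    (hc : ∀ i, N (algebraMap (𝓞 K) A ((Q.coeff i).eval t₀)) ≤ B ^ a) :
    N (ev2 Q (algebraMap (𝓞 K) A t₀) x) ≤ B ^ (D + 1 + a + b * (D + 1)) := by
  have hB1 : 1 ≤ B := by linarith
  have hB0 : 0 ≤ B := by linarith
  unfold ev2
  rw [eval₂_eq_sum_range]
  refine (UUU.sn_sum hN _ _).trans ?_
  have h3 : ∀ i ∈ range (Q.natDegree + 1),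
      N (((aeval (algebraMap (𝓞 K) A t₀) : (𝓞 K)[X] →ₐ[𝓞 K] A) : (𝓞 K)[X] →+* A) (Q.coeff i) *
        x ^ i) ≤ B ^ a * B ^ (b * (D + 1)) := by
    intro i hi
    refine (hN.mul _ _).trans (mul_le_mul ?_ ?_ (hN.nonneg _) (by positivity))
    · have e : ((aeval (algebraMap (𝓞 K) A t₀) : (𝓞 K)[X] →ₐ[𝓞 K] A) : (𝓞 K)[X] →+* A)
          (Q.coeff i) = algebraMap (𝓞 K) A ((Q.coeff i).eval t₀) :=
        aeval_algebraMap_apply_eq_algebraMap_eval _ _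
      rw [e]
      exact hc i
    · refine (UUU.sn_pow hN (one_le_pow₀ hB1) h1 hx i).trans ?_
      rw [← pow_mul]
      refine pow_le_pow_right₀ hB1 (Nat.mul_le_mul_left _ ?_)
      rw [mem_range] at hi
      omega
  refine (Finset.sum_le_sum h3).trans ?_
  rw [Finset.sum_const, card_range, nsmul_eq_mul, pow_add, pow_add, mul_assoc]
  refine mul_le_mul_of_nonneg_right ?_ (by positivity)
  calc ((Q.natDegree + 1 : ℕ) : ℝ) ≤ ((D + 1 : ℕ) : ℝ) := by exact_mod_cast (by omega)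
    _ ≤ 2 ^ (D + 1) := by
        have : D + 1 ≤ 2 ^ (D + 1) := Nat.lt_two_pow_self.le
        exact_mod_cast this
    _ ≤ B ^ (D + 1) := pow_le_pow_left₀ (by norm_num) hB _

lemma num2 (k n r S s₁ : ℕ) (B C₁ C W : ℝ) (hB : 2 ≤ B) (hC₁ : 1 ≤ C₁) (hBW : B ≤ W)
    (hCW : 4 * C₁ ≤ W) (hk : (k : ℝ) ≤ B) (hC : 2 ≤ C) :
    k * ((B ^ S) ^ (k + 2) * 2 ^ n) *
      (4 * (C₁ * (B ^ S) ^ s₁) * (1 + k * ((B ^ S) ^ (k + 2) * 2 ^ k))) ^ r ≤
    C ^ n * W ^ ((1 + S * s₁ + (S * (k + 2) + k + 2)) * (r + 1)) := by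
  have hW : 2 ≤ W := hB.trans hBW
  have hW0 : 0 ≤ W := by linarith
  have hW1 : 1 ≤ W := by linarith
  have hB0 : 0 ≤ B := by linarith
  have hp : ∀ j : ℕ, (B ^ S) ^ j ≤ W ^ (S * j) := fun j => by
    rw [← pow_mul]
    exact pow_le_pow_left₀ hB0 hBW _
  have h1 : (k : ℝ) * (B ^ S) ^ (k + 2) ≤ W ^ (S * (k + 2) + 1) := by
    rw [pow_succ W, mul_comm (W ^ _)]
    exact mul_le_mul (hk.trans hBW) (hp _) (by positivity) hW0
  have h2 : (2 : ℝ) ^ n ≤ C ^ n := pow_le_pow_left₀ (by norm_num) hC n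
  have h3 : 4 * (C₁ * (B ^ S) ^ s₁) ≤ W ^ (1 + S * s₁) := by
    rw [pow_add, pow_one, ← mul_assoc]
    exact mul_le_mul hCW (hp _) (by positivity) hW0
  have h4 : (1 : ℝ) + k * ((B ^ S) ^ (k + 2) * 2 ^ k) ≤ W ^ (S * (k + 2) + k + 2) := by
    have h5 : (k : ℝ) * ((B ^ S) ^ (k + 2) * 2 ^ k) ≤ W ^ (S * (k + 2) + k + 1) := by
      have h6 : (2 : ℝ) ^ k ≤ W ^ k := pow_le_pow_left₀ (by norm_num) hW k
      calc (k : ℝ) * ((B ^ S) ^ (k + 2) * 2 ^ k) = (k * (B ^ S) ^ (k + 2)) * 2 ^ k := by ring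
        _ ≤ W ^ (S * (k + 2) + 1) * W ^ k := mul_le_mul h1 h6 (by positivity) (by positivity)
        _ = W ^ (S * (k + 2) + k + 1) := by rw [← pow_add]; congr 1; ring
    have h7 : 1 ≤ W ^ (S * (k + 2) + k + 1) := one_le_pow₀ hW1
    have h8 : W ^ (S * (k + 2) + k + 2) = W ^ (S * (k + 2) + k + 1) * W := pow_succ _ _
    rw [h8]
    nlinarith
  have h5 : 4 * (C₁ * (B ^ S) ^ s₁) * (1 + k * ((B ^ S) ^ (k + 2) * 2 ^ k)) ≤
      W ^ (1 + S * s₁ + (S * (k + 2) + k + 2)) := by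
    rw [pow_add W (1 + S * s₁)]
    exact mul_le_mul h3 h4 (by positivity) (by positivity)
  have h6 : (k : ℝ) * ((B ^ S) ^ (k + 2) * 2 ^ n) ≤
      C ^ n * W ^ (1 + S * s₁ + (S * (k + 2) + k + 2)) := by
    calc (k : ℝ) * ((B ^ S) ^ (k + 2) * 2 ^ n) = 2 ^ n * (k * (B ^ S) ^ (k + 2)) := by ring
      _ ≤ C ^ n * W ^ (S * (k + 2) + 1) := mul_le_mul h2 h1 (by positivity) (by positivity)
      _ ≤ _ := by
          refine mul_le_mul_of_nonneg_left (pow_le_pow_right₀ hW1 ?_) (by positivity)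
          generalize S * s₁ = u
          generalize S * (k + 2) = v
          omega
  calc _ ≤ (C ^ n * W ^ (1 + S * s₁ + (S * (k + 2) + k + 2))) *
        (W ^ (1 + S * s₁ + (S * (k + 2) + k + 2))) ^ r :=
        mul_le_mul h6 (pow_le_pow_left₀ (by positivity) h5 r) (by positivity) (by positivity)
    _ = _ := by rw [← pow_mul, mul_assoc, ← pow_add]; congr 2; ring

end XUU

open UUU XUU in
/-- **XUU** -/
theorem prXUU (hPN : StPN) (hXDI : StXDI) (hHNX : StHNX) (hSNM : StSNM) (hMUN : StMUN)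
    (hINV : StINV) (hUUA : StUUA) : StXUU := by
  intro K _ _ m σ
  obtain ⟨C₂, s₂, hC₂, hD⟩ := hXDI K m σ
  obtain ⟨C₁, s₁, hC₁, hH⟩ := hHNX (m + 1) σ
  set c₁ : ℝ := ((m + 3 : ℕ) : ℝ) * C₂ with hc₁
  have hm3 : (3 : ℝ) ≤ ((m + 3 : ℕ) : ℝ) := by push_cast; linarith [Nat.cast_nonneg (α := ℝ) m]
  have hc₁3 : 3 ≤ c₁ := by rw [hc₁]; nlinarith
  have hc₁m : ((m + 3 : ℕ) : ℝ) ≤ c₁ := by rw [hc₁]; nlinarith
  have hc₁C : C₂ ≤ c₁ := by rw [hc₁]; nlinarith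
  set a₄ : ℕ := m + 2 + (σ + 2) + (σ + 3) * (m + 2) with ha₄
  set a₅ : ℕ := s₂ + 1 + (s₂ + s₂ + 1) + (σ + 3) * (s₂ + 1) with ha₅
  set S : ℕ := a₄ + a₅ + (σ + 3) + 2 * s₂ + 4 with hS
  set E : ℕ := 1 + S * s₁ + (S * (m + 1 + 2) + (m + 1) + 2) with hEdef
  refine ⟨4 * C₁ * c₁, E + 2 * s₂ + σ + 1, by nlinarith, fun H F hF => ?_⟩
  obtain ⟨U₀, V₀, Δ₀, hΔ₀, hUV, hΔd, hVd, hVc, hsz⟩ := hD H F hF
  have hdeg := hF.crv.deg
  have hmon := hF.crv.monic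
  have hH1 := hF.one
  have hk1 : 1 ≤ F.natDegree := by omega
  have hN := NN_sn (K := K) hSNM hmon hk1
  have hFd : ∀ j, (F.coeff j).natDegree ≤ σ := by
    intro j
    rcases lt_trichotomy j (m + 1) with h | h | h
    · exact hF.dg j (by omega)
    · rw [h, ← hdeg, hmon.coeff_natDegree, natDegree_one]
      exact Nat.zero_le _
    · rw [coeff_eq_zero_of_natDegree_lt (by omega), natDegree_zero]
      exact Nat.zero_le _
  have hFp : ∀ φ : K →+* ℂ, ∀ j, pn (res φ) (F.coeff j) ≤ H := by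
    intro φ j
    have hp := hPN (𝓞 K) (res φ)
    rcases lt_trichotomy j (m + 1) with h | h | h
    · exact hF.ht φ j (by omega)
    · rw [h, ← hdeg, hmon.coeff_natDegree, ← C_1, hp.2.1, map_one, norm_one]
      exact hH1
    · rw [coeff_eq_zero_of_natDegree_lt (by omega), ← C_0, hp.2.1, map_zero, norm_zero]
      linarith
  refine ⟨Δ₀ ^ 2 * F.coeff 0, mul_ne_zero (pow_ne_zero 2 hΔ₀) hF.crv.ne, ?_, fun φ => ?_,
    fun t₀ hΔt n => ?_⟩
  · refine natDegree_mul_le.trans ?_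
    have h1 : (Δ₀ ^ 2).natDegree ≤ 2 * s₂ := natDegree_pow_le.trans (Nat.mul_le_mul_left 2 hΔd)
    have h2 := hFd 0
    omega
  · have hp := hPN (𝓞 K) (res φ)
    have h0 := hp.1
    have hbase : 1 ≤ 4 * C₁ * c₁ * H := by
      have h1 : 1 ≤ 4 * C₁ * c₁ := by nlinarith
      nlinarith
    have h1 : C₂ * H ≤ 4 * C₁ * c₁ * H := by
      refine mul_le_mul_of_nonneg_right ?_ (by linarith)
      nlinarith
    have h2 : H ≤ 4 * C₁ * c₁ * H := by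
      have h3 : 1 ≤ 4 * C₁ * c₁ := by nlinarith
      nlinarith
    have hC2H : 0 ≤ C₂ * H := by positivity
    calc pn (res φ) (Δ₀ ^ 2 * F.coeff 0) ≤ pn (res φ) (Δ₀ ^ 2) * pn (res φ) (F.coeff 0) :=
          hp.2.2.2.1 _ _
      _ ≤ (pn (res φ) Δ₀) ^ 2 * H := mul_le_mul (hp.2.2.2.2.1 _ _) (hFp φ 0) (h0 _)
          (by positivity)
      _ ≤ ((4 * C₁ * c₁ * H) ^ s₂) ^ 2 * (4 * C₁ * c₁ * H) := by
          refine mul_le_mul (pow_le_pow_left₀ (h0 _) ((hsz φ).1.trans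
            (pow_le_pow_left₀ hC2H h1 _)) 2) h2 (by linarith) (by positivity)
      _ = (4 * C₁ * c₁ * H) ^ (s₂ * 2 + 1) := by rw [← pow_mul, pow_succ _ (s₂ * 2)]
      _ ≤ (4 * C₁ * c₁ * H) ^ (E + 2 * s₂ + σ + 1) := pow_le_pow_right₀ hbase (by omega)
  -- the data at t₀
  set A := AdjoinRoot (spc F t₀) with hA
  set x : A := AdjoinRoot.root (spc F t₀) with hx
  set T₀ : A := algebraMap (𝓞 K) A t₀ with hT₀
  have hroot : ev2 F T₀ x = 0 := ev2_root F t₀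
  have hds : ev2 (derivative F) T₀ x * ev2 V₀ T₀ x = algebraMap (𝓞 K) A (Δ₀.eval t₀) := by
    have h := congrArg (fun P => ev2 P T₀ x) hUV
    simp only [ev2_add, ev2_mul, ev2_C] at h
    rw [hroot, mul_zero, zero_add, hT₀, aeval_algebraMap_apply_eq_algebraMap_eval] at h
    rw [mul_comm]
    exact h
  have hxs : x * (-(ev2 (divX F) T₀ x)) = algebraMap (𝓞 K) A ((F.coeff 0).eval t₀) := by
    have h := congrArg (fun P => ev2 P T₀ x) (divX_mul_X_add F)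
    simp only [ev2_add, ev2_mul, ev2_C, ev2_X] at h
    rw [hroot] at h
    rw [← aeval_algebraMap_apply_eq_algebraMap_eval]
    have h2 : aeval (algebraMap (𝓞 K) A t₀) (F.coeff 0) = aeval T₀ (F.coeff 0) := rfl
    rw [h2]
    linear_combination -h
  obtain ⟨μ, hμ, hμe, hμN⟩ := hH (𝓞 K) A F t₀ (Δ₀.eval t₀) ((F.coeff 0).eval t₀) x
    (-(ev2 (divX F) T₀ x)) (ev2 V₀ T₀ x) hdeg.le hFd hroot hds hxs
  have hdd : (Δ₀ ^ 2 * F.coeff 0).eval t₀ = Δ₀.eval t₀ ^ 2 * (F.coeff 0).eval t₀ := by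
    rw [eval_mul, eval_pow]
  obtain ⟨T, hT, hTn⟩ := hUUA (𝓞 K) F t₀ ((Δ₀ ^ 2 * F.coeff 0).eval t₀) (spc_monic hmon t₀) μ
    hmon hk1 hμ (by rw [hdd]; exact hμe)
  -- the sizes
  have hbig : ∀ φ : K →+* ℂ, 3 ≤ c₁ * H * tt φ t₀ 1 ∧ ((m + 3 : ℕ) : ℝ) ≤ c₁ * H * tt φ t₀ 1 := by
    intro φ
    have ht1 := one_le_tt φ t₀
    have hcH : c₁ ≤ c₁ * H := by nlinarith
    have hcHB : c₁ * H ≤ c₁ * H * tt φ t₀ 1 := by nlinarith
    exact ⟨by linarith, by linarith⟩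
  have hall : ∀ φ : K →+* ℂ, 1 ≤ (c₁ * H * tt φ t₀ 1) ^ S ∧
      NN hmon t₀ φ 1 ≤ (c₁ * H * tt φ t₀ 1) ^ S ∧ NN hmon t₀ φ x ≤ (c₁ * H * tt φ t₀ 1) ^ S ∧
      ∀ r, 1 ≤ r → NN hmon t₀ φ (PowerSeries.coeff r μ) ≤
      (C₁ * ((c₁ * H * tt φ t₀ 1) ^ S) ^ s₁) ^ r := by
    intro φ
    have ht1 := one_le_tt φ t₀
    set B : ℝ := c₁ * H * tt φ t₀ 1 with hB
    have hNt := hN t₀ φ
    have hp := hPN (𝓞 K) (res φ)
    have hsn := hSNM (𝓞 K) (res φ) (spc F t₀) (spc_monic hmon t₀)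
      (by rw [spc_deg hmon]; exact hk1)
    have hcH : c₁ ≤ c₁ * H := by nlinarith
    have hcHB : c₁ * H ≤ B := by rw [hB]; nlinarith
    have hB3 : 3 ≤ B := by linarith
    have hB2 : 2 ≤ B := by linarith
    have hB1 : 1 ≤ B := by linarith
    have hB0 : 0 ≤ B := by linarith
    have hmB : ((m + 3 : ℕ) : ℝ) ≤ B := by linarith
    have hτB : tt φ t₀ 1 ≤ B := by
      have : 1 ≤ c₁ * H := by linarith
      rw [hB]; nlinarith
    have hHB : H ≤ B := by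
      have : H ≤ c₁ * H := by nlinarith
      linarith
    have hCHB : C₂ * H ≤ B := by
      have : C₂ * H ≤ c₁ * H := mul_le_mul_of_nonneg_right hc₁C (by linarith)
      linarith
    have hC2H : 0 ≤ C₂ * H := by positivity
    have hpow : ∀ {i j : ℕ}, i ≤ j → B ^ i ≤ B ^ j := fun h => pow_le_pow_right₀ hB1 h
    have halg : ∀ (a : 𝓞 K) (e : ℕ), ‖res φ a‖ ≤ B ^ e →
        NN hmon t₀ φ (algebraMap (𝓞 K) A a) ≤ B ^ (e + 1) := by
      intro a e ha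
      have h1 := hsn.2.2.1 a
      rw [spc_deg hmon, hdeg] at h1
      have h2 : NN hmon t₀ φ (algebraMap (𝓞 K) A a) = ((m + 1 : ℕ) : ℝ) * ‖res φ a‖ := h1
      rw [h2, pow_succ, mul_comm (B ^ e)]
      refine mul_le_mul ?_ ha (norm_nonneg _) hB0
      refine le_trans ?_ hmB
      exact_mod_cast (by omega)
    have q1 : NN hmon t₀ φ 1 ≤ B ^ (0 + 1) := by
      have h1 := halg 1 0 (by rw [map_one, norm_one, pow_zero])
      rwa [map_one] at h1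
    have q2 : NN hmon t₀ φ T₀ ≤ B ^ (1 + 1) :=
      halg t₀ 1 (by rw [pow_one]; exact (le_max_left _ _).trans hτB)
    have qF : ∀ j, ‖res φ ((F.coeff j).eval t₀)‖ ≤ B ^ (1 + σ) := fun j =>
      eval_le φ _ t₀ hτB (hFd j) (by rw [pow_one]; exact (hFp φ j).trans hHB)
    have q3 : NN hmon t₀ φ x ≤ B ^ (σ + 3) := by
      have h1 := hsn.2.2.2
      rw [spc_deg hmon, hdeg] at h1
      have h2 : ∑ j ∈ range (m + 1), ‖res φ ((spc F t₀).coeff j)‖ ≤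
          ((m + 1 : ℕ) : ℝ) * B ^ (1 + σ) := by
        refine (Finset.sum_le_sum fun j _ => ?_).trans (b := ∑ j ∈ range (m + 1), B ^ (1 + σ)) ?_
        · unfold spc
          rw [coeff_map, coe_evalRingHom]
          exact qF j
        · rw [Finset.sum_const, card_range, nsmul_eq_mul]
      have h3 : NN hmon t₀ φ x ≤ ((m + 1 : ℕ) : ℝ) + ((m + 1 : ℕ) : ℝ) * B ^ (1 + σ) :=
        h1.trans (by linarith)
      have h4 : ((m + 1 : ℕ) : ℝ) ≤ B := by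
        refine le_trans ?_ hmB
        exact_mod_cast (by omega)
      have h5 : (1 : ℝ) ≤ B ^ (1 + σ) := one_le_pow₀ hB1
      have h6 : B ^ (σ + 3) = B * B * B ^ (1 + σ) := by
        rw [show σ + 3 = (1 + σ) + 2 by ring, pow_add]; ring
      rw [h6]
      have h7 : ((m + 1 : ℕ) : ℝ) * B ^ (1 + σ) ≤ B * B ^ (1 + σ) :=
        mul_le_mul_of_nonneg_right h4 (by positivity)
      have h8 : ((m + 1 : ℕ) : ℝ) ≤ B * B ^ (1 + σ) := by nlinarith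
      have h9 : 2 * (B * B ^ (1 + σ)) ≤ B * (B * B ^ (1 + σ)) :=
        mul_le_mul_of_nonneg_right hB2 (by positivity)
      nlinarith
    have q1' : NN hmon t₀ φ 1 ≤ B ^ (σ + 3) := q1.trans (hpow (by omega))
    have q4 : NN hmon t₀ φ (ev2 (divX F) T₀ x) ≤ B ^ a₄ := by
      refine ev2_le hNt (divX F) t₀ x hB2 (D := m + 1) ?_ q1' q3 fun i => ?_
      · rw [natDegree_divX_eq_natDegree_tsub_one]
        omega
      · rw [coeff_divX]
        refine (halg _ _ (qF (i + 1))).trans (hpow (by omega))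
    have qV : ∀ i, ‖res φ ((V₀.coeff i).eval t₀)‖ ≤ B ^ (s₂ + s₂) := fun i =>
      eval_le φ _ t₀ hτB (hVc i) (((hsz φ).2 i).trans (pow_le_pow_left₀ hC2H hCHB _))
    have q5 : NN hmon t₀ φ (ev2 V₀ T₀ x) ≤ B ^ a₅ :=
      ev2_le hNt V₀ t₀ x hB2 hVd q1' q3 fun i => halg _ _ (qV i)
    have q6 : NN hmon t₀ φ (algebraMap (𝓞 K) A (Δ₀.eval t₀)) ≤ B ^ (s₂ + s₂ + 1) :=
      halg _ _ (eval_le φ _ t₀ hτB hΔd ((hsz φ).1.trans (pow_le_pow_left₀ hC2H hCHB _)))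
    have q7 : NN hmon t₀ φ (algebraMap (𝓞 K) A ((F.coeff 0).eval t₀)) ≤ B ^ (1 + σ + 1) :=
      halg _ _ (qF 0)
    have q8 : ∀ i j, NN hmon t₀ φ (algebraMap (𝓞 K) A ((F.coeff j).coeff i)) ≤ B ^ (1 + 1) :=
      fun i j => halg _ 1 (by
        rw [pow_one]
        exact ((hp.2.2.2.2.2.2.1 (F.coeff j) i).trans (hFp φ j)).trans hHB)
    refine ⟨one_le_pow₀ hB1, q1.trans (hpow (by omega)), q3.trans (hpow (by omega)), ?_⟩
    exact hμN (NN hmon t₀ φ) (B ^ S) hNt (one_le_pow₀ hB1) (q1.trans (hpow (by omega)))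
      (q2.trans (hpow (by omega))) (q3.trans (hpow (by omega)))
      (by rw [hNt.neg]; exact q4.trans (hpow (by omega))) (q5.trans (hpow (by omega)))
      (q6.trans (hpow (by omega))) (q7.trans (hpow (by omega)))
      (fun i j => (q8 i j).trans (hpow (by omega)))
  have key : ∀ k' : ℕ, F.natDegree = k' → ∃ U : Fin k' → Fin k' → PowerSeries (𝓞 K),
        (∀ i j, PowerSeries.constantCoeff (U i j) = if i = j then 1 else 0) ∧
        (∀ j : Fin k', ∑ i : Fin k',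
          PowerSeries.C ((Pd.cf F n i).eval t₀) * U i j =
            tay (Pd.cf F n j) t₀ ((Δ₀ ^ 2 * F.coeff 0).eval t₀)) ∧
        ∀ (φ : K →+* ℂ) i j r, ‖res φ (PowerSeries.coeff r (U i j))‖ ≤
          k' * (((c₁ * H * tt φ t₀ 1) ^ S) ^ (k' + 2) * 2 ^ n) *
      (4 * (C₁ * ((c₁ * H * tt φ t₀ 1) ^ S) ^ s₁) *
        (1 + k' * (((c₁ * H * tt φ t₀ 1) ^ S) ^ (k' + 2) * 2 ^ k'))) ^ r := by
    rintro _ rfl
    refine ⟨fun i j => ∑ l : Fin F.natDegree, crd (spc F t₀) (spc_monic hmon t₀) l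
            (PowerSeries.C (AdjoinRoot.root (spc F t₀) ^ (i : ℕ)) * μ ^ n) * T l j,
            (hTn n).1, (hTn n).2, fun φ i j r => ?_⟩
    obtain ⟨hM1, m1, m3, hμr⟩ := hall φ
    have hM0 : 0 ≤ (c₁ * H * tt φ t₀ 1) ^ S := by linarith
    exact core hMUN hINV (res φ) (spc F t₀) (spc_monic hmon t₀) F.natDegree (spc_deg hmon t₀)
      (hN t₀ φ) (hSNM (𝓞 K) (res φ) (spc F t₀) (spc_monic hmon t₀)
        (by rw [spc_deg hmon]; exact hk1)).2.1 μ hμ ((c₁ * H * tt φ t₀ 1) ^ S)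
      (C₁ * ((c₁ * H * tt φ t₀ 1) ^ S) ^ s₁) hM1 m1 m3 (by positivity) hμr T hT n i j r
  obtain ⟨U, hU1, hU2, hU3⟩ := key (m + 1) hdeg
  refine ⟨U, hU1, hU2, fun φ i j r => (hU3 φ i j r).trans ?_⟩
  have ht1 := one_le_tt φ t₀
  obtain ⟨hB3, hBm⟩ := hbig φ
  set B : ℝ := c₁ * H * tt φ t₀ 1 with hB
  have hW : 4 * C₁ * c₁ * H * tt φ t₀ 1 = 4 * C₁ * B := by rw [hB]; ring
  have hBW : B ≤ 4 * C₁ * c₁ * H * tt φ t₀ 1 := by rw [hW]; nlinarith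
  have hCW : 4 * C₁ ≤ 4 * C₁ * c₁ * H * tt φ t₀ 1 := by rw [hW]; nlinarith
  have hkB : ((m + 1 : ℕ) : ℝ) ≤ B := by
    refine le_trans ?_ hBm
    exact_mod_cast (by omega)
  refine (num2 (m + 1) n r S s₁ B C₁ (4 * C₁ * c₁) (4 * C₁ * c₁ * H * tt φ t₀ 1)
    (by linarith) hC₁ hBW hCW hkB (by nlinarith)).trans ?_
  refine mul_le_mul_of_nonneg_left (pow_le_pow_right₀ (by linarith)
    (Nat.mul_le_mul_right _ (by omega))) (by positivity)

end Pool.Agent.Work.MP_8d13b5_lc.Fm
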