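import Pool.Agent.Work.MP_8d13b5_lc.Fm.Stmts2
import Pool.Agent.Work.MP_8d13b5_lc.Fm.I_CRA

set_option autoImplicit false

/-! Block `Fm`, item VE2: the auxiliary vectors for general families. -/

namespace Pool.Agent.Work.MP_8d13b5_lc.Fm

open Polynomial NumberField Finset Module

namespace VE2

section ring
variable {R : Type} [CommRing R]

/-- `tay` as a ring homomorphism -/
noncomputable def tayH (t₀ d : R) : R[X] →+* PowerSeries R :=
  (PowerSeries.rescale d).comp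
    ((Polynomial.coeToPowerSeries.ringHom : R[X] →+* PowerSeries R).comp
      ((taylorAlgHom t₀ : R[X] →ₐ[R] R[X]) : R[X] →+* R[X]))

theorem coeff_tayH (P : R[X]) (t₀ d : R) (r : ℕ) :
    PowerSeries.coeff r (tayH t₀ d P) = (hasseDeriv r P).eval t₀ * d ^ r := by
  have h1 : tayH t₀ d P = PowerSeries.rescale d ((taylor t₀ P : R[X]) : PowerSeries R) := rfl
  rw [h1, PowerSeries.coeff_rescale, Polynomial.coeff_coe, taylor_coeff, mul_comm]

theorem tay_eq (P : R[X]) (t₀ d : R) : tay P t₀ d = tayH t₀ d P := by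
  ext r
  rw [coeff_tayH]
  simp [tay]

/-- the coefficient `N` of a product with a series starting at `N` -/
theorem coeff_low (f g : PowerSeries R) (N : ℕ) (h : ∀ i < N, PowerSeries.coeff i f = 0) :
    PowerSeries.coeff N (f * g) = PowerSeries.coeff N f * PowerSeries.constantCoeff g := by
  rw [PowerSeries.coeff_mul, Finset.sum_eq_single (N, 0)]
  · simp
  · rintro ⟨a, b⟩ hab hne
    have h1 : a + b = N := Finset.HasAntidiagonal.mem_antidiagonal.1 hab
    have h2 : a < N := by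
      rcases Nat.lt_or_ge a N with h3 | h3
      · exact h3
      · exfalso
        apply hne
        have h4 : a = N := by omega
        have h5 : b = 0 := by omega
        rw [h4, h5]
    rw [h a h2, zero_mul]
  · intro h1
    exact absurd (Finset.HasAntidiagonal.mem_antidiagonal.2 (by simp)) h1

theorem coeff_low_zero (f g : PowerSeries R) (N : ℕ) (h : ∀ i < N, PowerSeries.coeff i f = 0) :
    ∀ i < N, PowerSeries.coeff i (f * g) = 0 := by
  intro i hi
  rw [PowerSeries.coeff_mul]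
  refine Finset.sum_eq_zero fun ab hab => ?_
  have h1 : ab.1 + ab.2 = i := Finset.HasAntidiagonal.mem_antidiagonal.1 hab
  rw [h ab.1 (by omega), zero_mul]

/-- the degree of a determinant -/
theorem natDegree_det_le {k : ℕ} (M : Matrix (Fin k) (Fin k) R[X]) (D : Fin k → ℕ)
    (h : ∀ i j, (M i j).natDegree ≤ D i) : M.det.natDegree ≤ ∑ i, D i := by
  rw [Matrix.det_apply]
  refine natDegree_sum_le_of_forall_le _ _ fun σ _ => ?_
  have h1 : (∏ i, M (σ i) i).natDegree ≤ ∑ i, D i := by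
    refine (natDegree_prod_le _ _).trans ?_
    have h2 : ∑ i, D i = ∑ i, D (σ i) := (Equiv.sum_comp σ D).symm
    rw [h2]
    exact Finset.sum_le_sum fun i _ => h (σ i) i
  rcases Int.units_eq_one_or (Equiv.Perm.sign σ) with h3 | h3
  · rw [h3, one_smul]
    exact h1
  · rw [h3, Units.neg_smul, one_smul, natDegree_neg]
    exact h1

theorem natDegree_mnr_le {m : ℕ} (U : Fin m → Fin (m + 1) → R[X]) (D : Fin m → ℕ)
    (h : ∀ i j, (U i j).natDegree ≤ D i) (j : Fin (m + 1)) :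
    (mnr U j).natDegree ≤ ∑ i, D i := by
  have h1 := natDegree_det_le (Matrix.of fun i l => U i (j.succAbove l)) D
    (fun i l => h i (j.succAbove l))
  unfold mnr
  rcases neg_one_pow_eq_or R[X] (j : ℕ) with h2 | h2
  · rw [h2, one_mul]
    exact h1
  · rw [h2, neg_one_mul, natDegree_neg]
    exact h1

theorem map_mnr {S : Type} [CommRing S] (ψ : R →+* S) {m : ℕ} (U : Fin m → Fin (m + 1) → R)
    (j : Fin (m + 1)) : ψ (mnr U j) = mnr (fun i l => ψ (U i l)) j := by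
  unfold mnr
  rw [map_mul, map_pow, map_neg, map_one, RingHom.map_det]
  rfl

/-- the coefficients of a power series product, with a bound of geometric type -/
theorem norm_mul_le (φ : R →+* ℂ) (f g : PowerSeries R) (B₁ B₂ G₁ G₂ : ℝ) (hB₁ : 0 ≤ B₁)
    (hG₁ : 1 ≤ G₁) (hG₂ : 1 ≤ G₂) (hB₂ : 0 ≤ B₂)
    (hf : ∀ r, ‖φ (PowerSeries.coeff r f)‖ ≤ B₁ * G₁ ^ r)
    (hg : ∀ r, ‖φ (PowerSeries.coeff r g)‖ ≤ B₂ * G₂ ^ r) (r : ℕ) :
    ‖φ (PowerSeries.coeff r (f * g))‖ ≤ B₁ * B₂ * (2 * (G₁ * G₂)) ^ r := by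
  rw [PowerSeries.coeff_mul, map_sum]
  refine (norm_sum_le _ _).trans ?_
  have h1 : ∀ p ∈ antidiagonal r, ‖φ (PowerSeries.coeff p.1 f * PowerSeries.coeff p.2 g)‖ ≤
      B₁ * B₂ * (G₁ * G₂) ^ r := by
    intro p hp
    have h2 : p.1 + p.2 = r := Finset.HasAntidiagonal.mem_antidiagonal.1 hp
    rw [map_mul, norm_mul]
    have h3 : G₁ ^ p.1 ≤ G₁ ^ r := pow_le_pow_right₀ hG₁ (by omega)
    have h4 : G₂ ^ p.2 ≤ G₂ ^ r := pow_le_pow_right₀ hG₂ (by omega)
    have h5 : B₁ * G₁ ^ p.1 ≤ B₁ * G₁ ^ r := mul_le_mul_of_nonneg_left h3 hB₁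
    have h6 : B₂ * G₂ ^ p.2 ≤ B₂ * G₂ ^ r := mul_le_mul_of_nonneg_left h4 hB₂
    calc ‖φ (PowerSeries.coeff p.1 f)‖ * ‖φ (PowerSeries.coeff p.2 g)‖
        ≤ (B₁ * G₁ ^ r) * (B₂ * G₂ ^ r) :=
          mul_le_mul ((hf _).trans h5) ((hg _).trans h6) (norm_nonneg _)
            (mul_nonneg hB₁ (pow_nonneg (by linarith) _))
      _ = B₁ * B₂ * (G₁ * G₂) ^ r := by rw [mul_pow]; ring
  refine (Finset.sum_le_sum h1).trans ?_
  rw [Finset.sum_const, Finset.Nat.card_antidiagonal, nsmul_eq_mul]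
  have h7 : ((r + 1 : ℕ) : ℝ) ≤ 2 ^ r := by
    have : r + 1 ≤ 2 ^ r := Nat.lt_two_pow_self
    exact_mod_cast this
  have h8 : 0 ≤ B₁ * B₂ * (G₁ * G₂) ^ r :=
    mul_nonneg (mul_nonneg hB₁ hB₂) (pow_nonneg (mul_nonneg (by linarith) (by linarith)) _)
  calc ((r + 1 : ℕ) : ℝ) * (B₁ * B₂ * (G₁ * G₂) ^ r) ≤ 2 ^ r * (B₁ * B₂ * (G₁ * G₂) ^ r) :=
        mul_le_mul_of_nonneg_right h7 h8
    _ = B₁ * B₂ * (2 * (G₁ * G₂)) ^ r := by rw [mul_pow 2]; ring

end ring

section field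
variable {K : Type} [Field K]

theorem one_le_tt (φ : K →+* ℂ) (t₀ : 𝓞 K) : 1 ≤ tt φ t₀ 1 := by
  unfold tt
  rw [map_one, norm_one]
  exact le_max_right _ _

/-- the value of a polynomial -/
theorem eval_le (hPN : StPN) (φ : K →+* ℂ) (t₀ : 𝓞 K) (P : (𝓞 K)[X]) (L : ℕ)
    (hL : P.natDegree ≤ L) : ‖res φ (P.eval t₀)‖ ≤ pn (res φ) P * tt φ t₀ 1 ^ L := by
  obtain ⟨_, _, _, _, _, _, _, h8, _⟩ := hPN (𝓞 K) (res φ)
  rw [eval_eq_sum_range' (Nat.lt_succ_of_le hL), map_sum, h8 P L hL, Finset.sum_mul]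
  refine (norm_sum_le _ _).trans (Finset.sum_le_sum fun i hi => ?_)
  rw [map_mul, norm_mul, map_pow, norm_pow]
  refine mul_le_mul_of_nonneg_left ?_ (norm_nonneg _)
  have h1 : ‖res φ t₀‖ ≤ tt φ t₀ 1 := le_max_left _ _
  have h2 : i ≤ L := by
    have := Finset.mem_range.1 hi
    omega
  exact (pow_le_pow_left₀ (norm_nonneg _) h1 i).trans (pow_le_pow_right₀ (one_le_tt φ t₀) h2)

theorem tay_le (hPN : StPN) (φ : K →+* ℂ) (t₀ : 𝓞 K) (P D : (𝓞 K)[X]) (L : ℕ)
    (hL : P.natDegree ≤ L) (r : ℕ) :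
    ‖res φ (PowerSeries.coeff r (tayH t₀ (D.eval t₀) P))‖ ≤
      2 ^ L * pn (res φ) P * tt φ t₀ 1 ^ L * (pn (res φ) D * tt φ t₀ 1 ^ D.natDegree) ^ r := by
  obtain ⟨h0, _, _, _, _, _, _, _, h9⟩ := hPN (𝓞 K) (res φ)
  rw [coeff_tayH, map_mul, norm_mul, map_pow, norm_pow]
  have ht : 0 ≤ tt φ t₀ 1 := by linarith [one_le_tt φ t₀]
  have h1 : ‖res φ ((hasseDeriv r P).eval t₀)‖ ≤ 2 ^ L * pn (res φ) P * tt φ t₀ 1 ^ L := by
    refine (eval_le hPN φ t₀ _ L ?_).trans ?_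
    · exact (natDegree_hasseDeriv_le P r).trans (by omega)
    · exact mul_le_mul_of_nonneg_right (h9 P L r hL) (pow_nonneg ht _)
  have h2 : ‖res φ (D.eval t₀)‖ ≤ pn (res φ) D * tt φ t₀ 1 ^ D.natDegree :=
    eval_le hPN φ t₀ D _ le_rfl
  have h3 : 0 ≤ 2 ^ L * pn (res φ) P * tt φ t₀ 1 ^ L :=
    mul_nonneg (mul_nonneg (by positivity) (h0 P)) (pow_nonneg ht _)
  exact mul_le_mul h1 (pow_le_pow_left₀ (norm_nonneg _) h2 r) (pow_nonneg (norm_nonneg _) _) h3

end field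

end VE2

open VE2

theorem prVE2 (hGG2 : StGG2) (hUUU : StUUU) (hCRA : StCRA) (hID2 : StID2) (hHDQ : StHDQ)
    (hCFD : StCFD) (hPN : StPN) : StVE2 := by
  classical
  intro K _ _ m F hm hF
  obtain ⟨γ, hG⟩ := hGG2 K m F hm hF
  obtain ⟨Δ, C₀, s, hΔ, hC₀, hU⟩ := hUUU K m F hF
  obtain ⟨c, hc, A, hA⟩ := hF.cop
  refine ⟨Δ, γ, s, s + Δ.natDegree, hΔ, fun N₁ hN₁ => ?_⟩
  obtain ⟨C₁, hC₁, hGn⟩ := hG N₁ hN₁
  -- the degrees of the `E_j`
  set e : ℕ := ∑ i ∈ range (m + 1), (F.coeff i).natDegree with he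
  have hdE : ∀ n, ∀ j : Fin (m + 1), (Pd.cf F n j).natDegree ≤ e * n := by
    intro n j
    have h1 := hCFD.2.2.1 (𝓞 K) m e 1 F hF.monic hF.deg (fun i hi => by
      have h2 : (F.coeff i).natDegree ≤ e :=
        Finset.single_le_sum (f := fun i => (F.coeff i).natDegree) (fun _ _ => Nat.zero_le _)
          (Finset.mem_range.2 (by omega))
      rw [one_mul]
      exact h2.trans (Nat.le_mul_of_pos_right e (by omega))) n j (by have := j.2; omega)
    rwa [one_mul] at h1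
  have hpn0 : ∀ (φ : K →+* ℂ) (P : (𝓞 K)[X]), 0 ≤ pn (res φ) P := fun φ P =>
    (hPN (𝓞 K) (res φ)).1 P
  set Λ : ℝ := 1 + ∑ φ : K →+* ℂ, pn (res φ) Δ with hΛ
  have hΛφ : ∀ φ : K →+* ℂ, pn (res φ) Δ ≤ Λ := by
    intro φ
    have h1 : pn (res φ) Δ ≤ ∑ φ : K →+* ℂ, pn (res φ) Δ :=
      Finset.single_le_sum (f := fun φ : K →+* ℂ => pn (res φ) Δ) (fun φ _ => hpn0 φ _)
        (Finset.mem_univ φ)
    rw [hΛ]
    linarith
  have hΛ1 : 1 ≤ Λ := by
    have : 0 ≤ ∑ φ : K →+* ℂ, pn (res φ) Δ := Finset.sum_nonneg fun φ _ => hpn0 φ _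
    rw [hΛ]
    linarith
  set CC : ℝ := (m + 1) * C₀ ^ 2 * 2 ^ (e + 1) * C₁ * (2 * (C₀ * Λ)) ^ m with hCC
  have hm1 : (1 : ℝ) ≤ (m : ℝ) + 1 := by
    have : (0 : ℝ) ≤ m := Nat.cast_nonneg m
    linarith
  have hCL : 1 ≤ C₀ * Λ := one_le_mul_of_one_le_of_one_le hC₀ hΛ1
  have h2CL : 1 ≤ 2 * (C₀ * Λ) := by linarith
  have hCC1 : 1 ≤ CC := by
    have h1 : (1 : ℝ) ≤ 2 ^ (e + 1) := one_le_pow₀ (by norm_num)
    exact one_le_mul_of_one_le_of_one_le (one_le_mul_of_one_le_of_one_le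
      (one_le_mul_of_one_le_of_one_le (one_le_mul_of_one_le_of_one_le hm1 (one_le_pow₀ hC₀)) h1)
        hC₁) (one_le_pow₀ h2CL)
  refine ⟨CC, hCC1, fun n hn t₀ ht₀ => ?_⟩
  obtain ⟨ℓ, Q, ⟨j₁, hj₁⟩, hℓ2, hQi, hQ0, hQd, hQn⟩ := hGn n hn
  obtain ⟨U, hU0, hU1, hU2⟩ := hU t₀ ht₀ n
  set h := n / N₁ with hh
  have hhn : h ≤ n := Nat.div_le_self _ _
  set d : 𝓞 K := Δ.eval t₀ with hd
  -- `∑ b_j E_j = C r₀`
  obtain ⟨b, hb⟩ := hID2 (𝓞 K)[X] m n F A (C c) hF.monic hF.deg hA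
  set r₀ : 𝓞 K := c ^ ((m + 1) ^ 2 * n) with hr₀
  have hr₀0 : r₀ ≠ 0 := pow_ne_zero _ hc
  have hb' : ∑ j, b j * Pd.cf F n j = C r₀ := by
    rw [hb, hr₀, C_pow]
  have hCr₀ : (C r₀ : (𝓞 K)[X]) ≠ 0 := by
    rwa [Ne, C_eq_zero]
  set E : Fin (m + 1) → (𝓞 K)[X] := fun j => Pd.cf F n j with hE
  have hE0 : E ≠ 0 := by
    intro h0
    apply hCr₀
    rw [← hb']
    refine Finset.sum_eq_zero fun j _ => ?_
    have : Pd.cf F n j = 0 := congrFun h0 j
    rw [this, mul_zero]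
  obtain ⟨⟨j₂, hj₂⟩, hcr⟩ := hCRA (𝓞 K)[X] m E Q hE0 hQi hQ0
  set c' : (𝓞 K)[X] := ∑ i, b i * mnr Q i with hc'
  have hkey : ∀ j, C r₀ * mnr Q j = c' * E j := by
    intro j
    rw [← hb', hc', Finset.sum_mul, Finset.sum_mul]
    refine Finset.sum_congr rfl fun i _ => ?_
    have h1 := hcr i j
    rw [hE] at h1 ⊢
    linear_combination b i * h1
  have hc'0 : c' ≠ 0 := by
    intro h0
    have h1 := hkey j₂
    rw [h0, zero_mul] at h1
    exact (mul_ne_zero hCr₀ hj₂) h1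
  -- the degree of `c'`
  have hdc : c'.natDegree ≤ m * h := by
    obtain ⟨j, hEj, hj⟩ : ∃ j, E j ≠ 0 ∧ ∑ i, ℓ i ≤ (E j).natDegree := by
      by_cases h0 : E j₁ = 0
      · obtain ⟨j, hj⟩ : ∃ j, E j ≠ 0 := by
          by_contra h1
          push Not at h1
          exact hE0 (funext h1)
        refine ⟨j, hj, ?_⟩
        have h1 : (Pd.cf F n j₁).natDegree = 0 := by
          have : Pd.cf F n j₁ = 0 := h0
          rw [this, natDegree_zero]
        rw [h1] at hj₁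
        omega
      · exact ⟨j₁, h0, hj₁⟩
    have h1 := congrArg natDegree (hkey j)
    rw [natDegree_C_mul hr₀0, natDegree_mul hc'0 hEj] at h1
    have h2 := natDegree_mnr_le Q (fun i => ℓ i + h) hQd j
    rw [Finset.sum_add_distrib, Finset.sum_const, Finset.card_univ, Fintype.card_fin,
      smul_eq_mul] at h2
    omega
  -- the order of vanishing
  have hT0 : taylor t₀ c' ≠ 0 := by
    intro h0
    apply hc'0
    have h1 : taylorEquiv t₀ c' = 0 := h0
    exact (EmbeddingLike.map_eq_zero_iff (f := taylorEquiv t₀)).1 h1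
  set ρ : ℕ := (taylor t₀ c').natTrailingDegree with hρ
  have hρm : ρ ≤ m * h := by
    refine (natTrailingDegree_le_natDegree _).trans ?_
    rw [natDegree_taylor]
    exact hdc
  have hd0 : d ≠ 0 := ht₀
  have hcρ : PowerSeries.coeff ρ (tayH t₀ d c') ≠ 0 := by
    rw [coeff_tayH, ← taylor_coeff]
    refine mul_ne_zero ?_ (pow_ne_zero _ hd0)
    exact trailingCoeff_nonzero_iff_nonzero.2 hT0
  have hcl : ∀ i < ρ, PowerSeries.coeff i (tayH t₀ d c') = 0 := by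
    intro i hi
    rw [coeff_tayH, ← taylor_coeff, coeff_eq_zero_of_lt_natTrailingDegree hi, zero_mul]
  -- the index `j₀`
  obtain ⟨j₀, hj₀⟩ : ∃ j, (E j).eval t₀ ≠ 0 := by
    by_contra h1
    push Not at h1
    have h2 := congrArg (fun P : (𝓞 K)[X] => P.eval t₀) hb'
    simp only [eval_finsetSum, eval_mul, eval_C] at h2
    apply hr₀0
    rw [← h2]
    refine Finset.sum_eq_zero fun j _ => ?_
    have h3 : (Pd.cf F n j).eval t₀ = 0 := h1 j
    rw [h3, mul_zero]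
  -- the minor of the Taylor series
  have hconst : PowerSeries.constantCoeff (tayH t₀ d (E j₀)) = (E j₀).eval t₀ := by
    rw [← PowerSeries.coeff_zero_eq_constantCoeff_apply, coeff_tayH, hasseDeriv_zero, pow_zero,
      mul_one]
    rfl
  have hCC0 : ∀ i, PowerSeries.coeff i (tayH t₀ d (C r₀ * mnr Q j₀)) =
      r₀ * PowerSeries.coeff i (tayH t₀ d (mnr Q j₀)) := by
    intro i
    rw [coeff_tayH, coeff_tayH, ← smul_eq_C_mul, map_smul, eval_smul, smul_eq_mul, mul_assoc]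
  have hM1 : PowerSeries.coeff ρ (tayH t₀ d (mnr Q j₀)) ≠ 0 := by
    intro h0
    have h1 := hCC0 ρ
    rw [h0, mul_zero, hkey, map_mul, coeff_low _ _ ρ hcl, hconst] at h1
    exact (mul_ne_zero hcρ hj₀) h1
  have hM2 : ∀ i < ρ, PowerSeries.coeff i (tayH t₀ d (mnr Q j₀)) = 0 := by
    intro i hi
    have h1 := hCC0 i
    rw [hkey, map_mul, coeff_low_zero _ _ ρ hcl i hi] at h1
    exact (mul_eq_zero.1 h1.symm).resolve_left hr₀0
  -- the matrix
  set W : Fin m → Fin (m + 1) → PowerSeries (𝓞 K) := fun i a =>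
    ∑ b', U a b' * tayH t₀ d (Q i b') with hW
  set M : Fin (m + 1) → Fin (m + 1) → PowerSeries (𝓞 K) :=
    Fin.cons (fun a => U a j₀) W with hM
  have hMeq : Matrix.of M =
      CRA.mat (fun i l => tayH t₀ d (Q i l)) (Pi.single j₀ 1) * (Matrix.of U).transpose := by
    ext1 i a
    rw [Matrix.mul_apply]
    refine Fin.cases ?_ (fun i => ?_) i
    · have h1 : ∀ l ∈ (univ : Finset (Fin (m + 1))),
          CRA.mat (fun i l => tayH t₀ d (Q i l)) (Pi.single j₀ 1) 0 l *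
            (Matrix.of U).transpose l a = if l = j₀ then U a j₀ else 0 := by
        intro l _
        by_cases hl : l = j₀
        · subst hl
          simp [CRA.mat, Matrix.transpose_apply]
        · simp [CRA.mat, Matrix.transpose_apply, hl]
      rw [Finset.sum_congr rfl h1]
      simp [M]
    · simp only [CRA.mat, Matrix.of_apply, Matrix.transpose_apply, M, W, Fin.cons_succ]
      refine Finset.sum_congr rfl fun l _ => ?_
      rw [mul_comm]
  have hdetU : PowerSeries.constantCoeff (Matrix.of U).transpose.det = 1 := by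
    rw [Matrix.det_transpose, RingHom.map_det]
    have h1 : (PowerSeries.constantCoeff (R := 𝓞 K)).mapMatrix (Matrix.of U) =
        (1 : Matrix (Fin (m + 1)) (Fin (m + 1)) (𝓞 K)) := by
      ext1 i j
      rw [RingHom.mapMatrix_apply, Matrix.map_apply, Matrix.of_apply, hU0, Matrix.one_apply]
    rw [h1, Matrix.det_one]
  have hdet : PowerSeries.coeff ρ (Matrix.of M).det ≠ 0 := by
    rw [hMeq, Matrix.det_mul, CRA.det_mat]
    have h1 : ∑ l, (Pi.single j₀ 1 : Fin (m + 1) → PowerSeries (𝓞 K)) l *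
        mnr (fun i l => tayH t₀ d (Q i l)) l = tayH t₀ d (mnr Q j₀) := by
      rw [Finset.sum_eq_single j₀]
      · rw [Pi.single_eq_same, one_mul, map_mnr]
      · intro l _ hl
        rw [Pi.single_eq_of_ne hl, zero_mul]
      · intro h
        exact absurd (Finset.mem_univ _) h
    rw [h1, coeff_low _ _ ρ hM2, hdetU, mul_one]
    exact hM1
  obtain ⟨r, hr, hdr⟩ := hHDQ (𝓞 K) (m + 1) ρ M hdet
  have hrs : ∑ i : Fin m, r i.succ ≤ m * h := by
    rw [Fin.sum_univ_succ] at hr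
    omega
  refine ⟨ℓ, fun i => r i.succ, fun i a => PowerSeries.coeff (r i.succ) (W i a),
    ⟨j₁, hj₁⟩, hℓ2, hrs, ?_, ?_, ?_⟩
  · rw [Fintype.linearIndependent_iff]
    intro g hg i
    have h1 : (Fin.cons 0 g : Fin (m + 1) → 𝓞 K) = 0 := by
      refine Matrix.eq_zero_of_vecMul_eq_zero hdr ?_
      funext a
      have h2 := congrFun hg a
      rw [Finset.sum_apply] at h2
      simp only [Pi.smul_apply, smul_eq_mul, Pi.zero_apply] at h2
      simp only [Matrix.vecMul, dotProduct, Fin.sum_univ_succ, Pi.zero_apply, Matrix.of_apply,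
        Fin.cons_zero, Fin.cons_succ, zero_mul, zero_add, M]
      exact h2
    have h3 := congrFun h1 i.succ
    simpa using h3
  · intro i
    have h1 : ∑ a, W i a * PowerSeries.C ((Pd.cf F n a).eval t₀) = 0 := by
      have h2 : ∀ a ∈ (univ : Finset (Fin (m + 1))),
          W i a * PowerSeries.C ((Pd.cf F n a).eval t₀) =
          ∑ b', tayH t₀ d (Q i b') * (PowerSeries.C ((Pd.cf F n a).eval t₀) * U a b') := by
        intro a _
        rw [hW]
        beta_reduce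
        rw [Finset.sum_mul]
        refine Finset.sum_congr rfl fun b' _ => ?_
        ring
      rw [Finset.sum_congr rfl h2, Finset.sum_comm]
      have h3 : ∀ b' ∈ (univ : Finset (Fin (m + 1))),
          ∑ a : Fin (m + 1), tayH t₀ d (Q i b') * (PowerSeries.C ((Pd.cf F n a).eval t₀) * U a b') =
          tayH t₀ d (Q i b' * Pd.cf F n b') := by
        intro b' _
        rw [← Finset.mul_sum, hU1 b', tay_eq, map_mul]
      rw [Finset.sum_congr rfl h3, ← map_sum, hQ0 i, map_zero]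
    have h4 := congrArg (PowerSeries.coeff (r i.succ)) h1
    rw [map_sum, map_zero] at h4
    rw [← h4]
    refine Finset.sum_congr rfl fun a _ => ?_
    rw [PowerSeries.coeff_mul_C]
  · intro φ i j
    set t := tt φ t₀ 1 with ht
    have ht1 : 1 ≤ t := one_le_tt φ t₀
    have ht0 : 0 ≤ t := by linarith
    set L := ℓ i + h with hL
    have hLn : L ≤ (e + 1) * n := by
      have h1 : ℓ i ≤ ∑ i, ℓ i :=
        Finset.single_le_sum (f := ℓ) (fun _ _ => Nat.zero_le _) (Finset.mem_univ i)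
      have h2 := hdE n j₁
      have h3 : (e + 1) * n = e * n + n := by ring
      omega
    have hrn : r i.succ ≤ m * n := by
      have h1 : r i.succ ≤ ∑ i : Fin m, r i.succ :=
        Finset.single_le_sum (f := fun i : Fin m => r i.succ) (fun _ _ => Nat.zero_le _)
          (Finset.mem_univ i)
      exact h1.trans (hrs.trans (Nat.mul_le_mul_left m hhn))
    have hC₀0 : 0 ≤ C₀ := by linarith
    have hC₁0 : 0 ≤ C₁ := by linarith
    have hΛ0 : 0 ≤ Λ := by linarith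
    have hb1 : ∀ b', ‖res φ (PowerSeries.coeff (r i.succ) (U j b' * tayH t₀ d (Q i b')))‖ ≤
        (C₀ ^ (n + 1) * t ^ s) * (2 ^ L * C₁ ^ n * t ^ L) *
          (2 * ((C₀ * t ^ s) * (Λ * t ^ Δ.natDegree))) ^ r i.succ := by
      intro b'
      have hts : 1 ≤ t ^ s := one_le_pow₀ ht1
      have htd : 1 ≤ t ^ Δ.natDegree := one_le_pow₀ ht1
      refine norm_mul_le (res φ) _ _ _ _ _ _ (by positivity)
        (one_le_mul_of_one_le_of_one_le hC₀ hts) (one_le_mul_of_one_le_of_one_le hΛ1 htd)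
        (by positivity) (fun r => hU2 φ j b' r) (fun r => ?_) _
      refine (tay_le hPN φ t₀ (Q i b') Δ L (hQd i b') r).trans ?_
      have h1 : 2 ^ L * pn (res φ) (Q i b') * t ^ L ≤ 2 ^ L * C₁ ^ n * t ^ L :=
        mul_le_mul_of_nonneg_right (mul_le_mul_of_nonneg_left (hQn φ i b') (by positivity))
          (pow_nonneg ht0 _)
      have h2 : (pn (res φ) Δ * t ^ Δ.natDegree) ^ r ≤ (Λ * t ^ Δ.natDegree) ^ r :=
        pow_le_pow_left₀ (mul_nonneg (hpn0 φ Δ) (pow_nonneg ht0 _))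
          (mul_le_mul_of_nonneg_right (hΛφ φ) (pow_nonneg ht0 _)) r
      exact mul_le_mul h1 h2 (pow_nonneg (mul_nonneg (hpn0 φ Δ) (pow_nonneg ht0 _)) _)
        (by positivity)
    have h1 : ‖res φ (PowerSeries.coeff (r i.succ) (W i j))‖ ≤
        (m + 1) * ((C₀ ^ (n + 1) * t ^ s) * (2 ^ L * C₁ ^ n * t ^ L) *
          (2 * ((C₀ * t ^ s) * (Λ * t ^ Δ.natDegree))) ^ r i.succ) := by
      rw [hW]
      beta_reduce
      rw [map_sum, map_sum]
      refine (norm_sum_le _ _).trans ((Finset.sum_le_sum fun b' _ => hb1 b').trans ?_)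
      rw [Finset.sum_const, Finset.card_univ, Fintype.card_fin, nsmul_eq_mul]
      push_cast
      exact le_rfl
    refine h1.trans ?_
    have h2 : ((m : ℝ) + 1) * ((C₀ ^ (n + 1) * t ^ s) * (2 ^ L * C₁ ^ n * t ^ L) *
          (2 * ((C₀ * t ^ s) * (Λ * t ^ Δ.natDegree))) ^ r i.succ) =
        ((m + 1) * C₀ ^ (n + 1) * 2 ^ L * C₁ ^ n * (2 * (C₀ * Λ)) ^ r i.succ) *
          t ^ (ℓ i + h + s + (s + Δ.natDegree) * r i.succ) := by
      have e1 : (2 * ((C₀ * t ^ s) * (Λ * t ^ Δ.natDegree))) =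
          (2 * (C₀ * Λ)) * t ^ (s + Δ.natDegree) := by
        rw [pow_add]
        ring
      rw [e1, mul_pow (2 * (C₀ * Λ)), ← pow_mul, pow_add t (ℓ i + h + s), pow_add t (ℓ i + h),
        ← hL]
      ring
    rw [h2]
    refine mul_le_mul_of_nonneg_right ?_ (pow_nonneg ht0 _)
    have h3 : CC ^ n = ((m : ℝ) + 1) ^ n * C₀ ^ (2 * n) * 2 ^ ((e + 1) * n) * C₁ ^ n *
        (2 * (C₀ * Λ)) ^ (m * n) := by
      rw [hCC, mul_pow, mul_pow, mul_pow, mul_pow, ← pow_mul, ← pow_mul, ← pow_mul]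
    rw [h3]
    have h4 : ((m : ℝ) + 1) ≤ ((m : ℝ) + 1) ^ n := le_self_pow₀ hm1 (by omega)
    have h5 : C₀ ^ (n + 1) ≤ C₀ ^ (2 * n) := pow_le_pow_right₀ hC₀ (by omega)
    have h6 : (2 : ℝ) ^ L ≤ 2 ^ ((e + 1) * n) := pow_le_pow_right₀ (by norm_num) hLn
    have h7 : (2 * (C₀ * Λ)) ^ r i.succ ≤ (2 * (C₀ * Λ)) ^ (m * n) :=
      pow_le_pow_right₀ h2CL hrn
    gcongr

end Pool.Agent.Work.MP_8d13b5_lc.Fm
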