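import Pool.Agent.Work.MP_8d13b5_lc.Fm.StmtsX
import Pool.Agent.Work.MP_8d13b5_lc.Fm.I_CRA
import Pool.Agent.Work.MP_8d13b5_lc.Fm.I_VE2

set_option autoImplicit false

/-! Block `Fm`, item XVE: the auxiliary vectors for general families, uniform version, without the
hypothesis that the coefficients are coprime. -/

namespace Pool.Agent.Work.MP_8d13b5_lc.Fm

open Polynomial NumberField Finset Module

namespace XVE

open VE2

/-- the Taylor series and ring homomorphisms -/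
theorem map_tayH {R S : Type} [CommRing R] [CommRing S] (ψ : R →+* S) (P : R[X]) (t₀ d : R)
    (r : ℕ) : ψ (PowerSeries.coeff r (tayH t₀ d P)) =
      PowerSeries.coeff r (tayH (ψ t₀) (ψ d) (P.map ψ)) := by
  rw [coeff_tayH, coeff_tayH, map_mul, map_pow, ← taylor_coeff, ← taylor_coeff, ← coeff_map,
    map_taylor]

/-- the constants -/
theorem const_le (m σ s₀ s' n L r : ℕ) (C₀ C₁ H : ℝ) (hC₀ : 1 ≤ C₀) (hC₁ : 1 ≤ C₁) (hH : 1 ≤ H)
    (hn : 1 ≤ n) (hL : L ≤ (σ + 1) * n) (hr : r ≤ m * n) :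
    ((m : ℝ) + 1) * C₀ ^ n * (C₀ * H) ^ s₀ * 2 ^ L * ((C₁ * H) ^ s') ^ n *
        (2 * ((C₀ * H) ^ s₀ * (C₀ * H) ^ s₀)) ^ r ≤
      ((((m : ℝ) + 1) * 2 * C₀ * C₁ * H) ^
        (1 + 1 + s₀ + (σ + 1) + s' + (1 + (s₀ + s₀)) * m)) ^ n := by
  have hm1 : (1 : ℝ) ≤ (m : ℝ) + 1 := by
    have : (0 : ℝ) ≤ m := Nat.cast_nonneg m
    linarith
  set Z : ℝ := ((m : ℝ) + 1) * 2 * C₀ * C₁ * H with hZ
  have h0 : 1 ≤ C₀ * H := one_le_mul_of_one_le_of_one_le hC₀ hH
  have h1 : 1 ≤ C₁ * H := one_le_mul_of_one_le_of_one_le hC₁ hH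
  have h2 : (1 : ℝ) ≤ 2 := by norm_num
  have hm0 : (0 : ℝ) ≤ (m : ℝ) + 1 := by linarith
  have hC₀0 : 0 ≤ C₀ := by linarith
  have hC₁0 : 0 ≤ C₁ := by linarith
  have hH0 : 0 ≤ H := by linarith
  have hZ1 : (m : ℝ) + 1 ≤ Z := by
    have e : Z = ((m : ℝ) + 1) * (2 * C₀ * C₁ * H) := by rw [hZ]; ring
    rw [e]
    refine le_mul_of_one_le_right hm0 ?_
    exact one_le_mul_of_one_le_of_one_le (one_le_mul_of_one_le_of_one_le
      (one_le_mul_of_one_le_of_one_le h2 hC₀) hC₁) hH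
  have hZ2 : 2 ≤ Z := by
    have e : Z = 2 * (((m : ℝ) + 1) * C₀ * C₁ * H) := by rw [hZ]; ring
    rw [e]
    refine le_mul_of_one_le_right (by norm_num) ?_
    exact one_le_mul_of_one_le_of_one_le (one_le_mul_of_one_le_of_one_le
      (one_le_mul_of_one_le_of_one_le hm1 hC₀) hC₁) hH
  have hZ3 : C₀ * H ≤ Z := by
    have e : Z = (C₀ * H) * (((m : ℝ) + 1) * 2 * C₁) := by rw [hZ]; ring
    rw [e]
    refine le_mul_of_one_le_right (by linarith) ?_
    exact one_le_mul_of_one_le_of_one_le (one_le_mul_of_one_le_of_one_le hm1 h2) hC₁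
  have hZ4 : C₁ * H ≤ Z := by
    have e : Z = (C₁ * H) * (((m : ℝ) + 1) * 2 * C₀) := by rw [hZ]; ring
    rw [e]
    refine le_mul_of_one_le_right (by linarith) ?_
    exact one_le_mul_of_one_le_of_one_le (one_le_mul_of_one_le_of_one_le hm1 h2) hC₀
  have hZ5 : C₀ ≤ Z := (le_mul_of_one_le_right hC₀0 hH).trans hZ3
  have hZ0 : 0 ≤ Z := by linarith
  have hZ01 : 1 ≤ Z := by linarith
  have k1 : (m : ℝ) + 1 ≤ Z ^ n := hZ1.trans (le_self_pow₀ hZ01 (by omega))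
  have k2 : C₀ ^ n ≤ Z ^ n := pow_le_pow_left₀ hC₀0 hZ5 n
  have k3 : (C₀ * H) ^ s₀ ≤ (Z ^ s₀) ^ n :=
    (pow_le_pow_left₀ (by linarith) hZ3 s₀).trans (le_self_pow₀ (one_le_pow₀ hZ01) (by omega))
  have k4 : (2 : ℝ) ^ L ≤ (Z ^ (σ + 1)) ^ n := by
    rw [← pow_mul]
    exact (pow_le_pow_right₀ h2 hL).trans (pow_le_pow_left₀ (by norm_num) hZ2 _)
  have k5 : ((C₁ * H) ^ s') ^ n ≤ (Z ^ s') ^ n :=
    pow_le_pow_left₀ (pow_nonneg (by linarith) _) (pow_le_pow_left₀ (by linarith) hZ4 s') n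
  have k6 : (2 * ((C₀ * H) ^ s₀ * (C₀ * H) ^ s₀)) ^ r ≤ (Z ^ ((1 + (s₀ + s₀)) * m)) ^ n := by
    have g1 : 2 * ((C₀ * H) ^ s₀ * (C₀ * H) ^ s₀) ≤ Z ^ (1 + (s₀ + s₀)) := by
      rw [pow_add, pow_one, pow_add]
      have g2 : (C₀ * H) ^ s₀ ≤ Z ^ s₀ := pow_le_pow_left₀ (by linarith) hZ3 s₀
      have g3 : 0 ≤ (C₀ * H) ^ s₀ := pow_nonneg (by linarith) _
      exact mul_le_mul hZ2 (mul_le_mul g2 g2 g3 (pow_nonneg hZ0 _)) (mul_nonneg g3 g3) hZ0
    have g4 : 0 ≤ 2 * ((C₀ * H) ^ s₀ * (C₀ * H) ^ s₀) :=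
      mul_nonneg (by norm_num) (mul_nonneg (pow_nonneg (by linarith) _)
        (pow_nonneg (by linarith) _))
    refine (pow_le_pow_left₀ g4 g1 r).trans ?_
    rw [← pow_mul, ← pow_mul, mul_assoc]
    exact pow_le_pow_right₀ hZ01 (Nat.mul_le_mul_left _ hr)
  have e : (Z ^ (1 + 1 + s₀ + (σ + 1) + s' + (1 + (s₀ + s₀)) * m)) ^ n =
      Z ^ n * Z ^ n * (Z ^ s₀) ^ n * (Z ^ (σ + 1)) ^ n * (Z ^ s') ^ n *
        (Z ^ ((1 + (s₀ + s₀)) * m)) ^ n := by
    simp only [← pow_mul, ← pow_add]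
    congr 1
    ring
  rw [e]
  have p1 : 0 ≤ C₀ ^ n := pow_nonneg hC₀0 _
  have p2 : 0 ≤ (C₀ * H) ^ s₀ := pow_nonneg (by linarith) _
  have p3 : (0 : ℝ) ≤ 2 ^ L := by positivity
  have p4 : 0 ≤ ((C₁ * H) ^ s') ^ n := pow_nonneg (pow_nonneg (by linarith) _) _
  have p5 : 0 ≤ (2 * ((C₀ * H) ^ s₀ * (C₀ * H) ^ s₀)) ^ r :=
    pow_nonneg (mul_nonneg (by norm_num) (mul_nonneg p2 p2)) _
  have q0 : 0 ≤ Z ^ n := pow_nonneg hZ0 _
  have q1 : 0 ≤ (Z ^ s₀) ^ n := pow_nonneg (pow_nonneg hZ0 _) _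
  have q2 : 0 ≤ (Z ^ (σ + 1)) ^ n := pow_nonneg (pow_nonneg hZ0 _) _
  have q3 : 0 ≤ (Z ^ s') ^ n := pow_nonneg (pow_nonneg hZ0 _) _
  exact mul_le_mul (mul_le_mul (mul_le_mul (mul_le_mul (mul_le_mul k1 k2 p1 q0) k3 p2
    (mul_nonneg q0 q0)) k4 p3 (mul_nonneg (mul_nonneg q0 q0) q1)) k5 p4
    (mul_nonneg (mul_nonneg (mul_nonneg q0 q0) q1) q2)) k6 p5
    (mul_nonneg (mul_nonneg (mul_nonneg (mul_nonneg q0 q0) q1) q2) q3)

end XVE

open VE2 XVE

theorem prXVE (hXG2 : StXG2) (hXUU : StXUU) (hCRA : StCRA) (hHDQ : StHDQ) (hPN : StPN) :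
    StXVE := by
  classical
  intro K _ _ m σ hm
  obtain ⟨γ, hG⟩ := hXG2 K m σ hm
  obtain ⟨C₀, s₀, hC₀, hU⟩ := hXUU K m σ
  refine ⟨γ, s₀, s₀ + s₀, fun N₁ hN₁ => ?_⟩
  obtain ⟨C₁, s', hC₁, hGn⟩ := hG N₁ hN₁
  have hm1 : (1 : ℝ) ≤ (m : ℝ) + 1 := by
    have : (0 : ℝ) ≤ m := Nat.cast_nonneg m
    linarith
  refine ⟨((m : ℝ) + 1) * 2 * C₀ * C₁, 1 + 1 + s₀ + (σ + 1) + s' + (1 + (s₀ + s₀)) * m,
    one_le_mul_of_one_le_of_one_le (one_le_mul_of_one_le_of_one_le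
      (one_le_mul_of_one_le_of_one_le hm1 (by norm_num)) hC₀) hC₁, fun H F hF => ?_⟩
  have hH1 : 1 ≤ H := hF.one
  obtain ⟨Δ, hΔ, hΔd, hΔn, hUt⟩ := hU H F hF
  have hpn0 : ∀ (φ : K →+* ℂ) (P : (𝓞 K)[X]), 0 ≤ pn (res φ) P := fun φ P =>
    (hPN (𝓞 K) (res φ)).1 P
  have hCH : 1 ≤ C₀ * H := one_le_mul_of_one_le_of_one_le hC₀ hH1
  have hC₀0 : 0 ≤ C₀ := by linarith
  have hC₁0 : 0 ≤ C₁ := by linarith
  have hH0 : 0 ≤ H := by linarith
  refine ⟨Δ, hΔ, by omega, fun φ => (hΔn φ).trans ?_, ?_⟩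
  · have h1 : C₀ * H ≤ ((m : ℝ) + 1) * 2 * C₀ * C₁ * H := by
      have e : ((m : ℝ) + 1) * 2 * C₀ * C₁ * H = (C₀ * H) * (((m : ℝ) + 1) * 2 * C₁) := by ring
      rw [e]
      refine le_mul_of_one_le_right (by linarith) ?_
      exact one_le_mul_of_one_le_of_one_le (one_le_mul_of_one_le_of_one_le hm1 (by norm_num)) hC₁
    refine (pow_le_pow_left₀ (by linarith) h1 s₀).trans ?_
    exact pow_le_pow_right₀ (hCH.trans h1) (by omega)
  intro n hn D G E A hG0 hGE hAE hED hEj t₀ ht₀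
  -- the vector over `K[X]`
  have hE0' : E ≠ 0 := by
    intro h0
    rw [h0] at hAE
    simp at hAE
  obtain ⟨ℓ, Q, hℓ1, hℓ2, hℓ3, hQi, hQ0, hQd, hQn⟩ := hGn H F hF n hn D G E hG0 hE0' hGE hED
  obtain ⟨U, hU0, hU1, hU2⟩ := hUt t₀ ht₀ n
  set h := n / N₁ with hh
  have hhn : h ≤ n := Nat.div_le_self _ _
  set d : 𝓞 K := Δ.eval t₀ with hd
  set ι : 𝓞 K →+* K := algebraMap (𝓞 K) K with hι
  have hιi : Function.Injective ι := FaithfulSMul.algebraMap_injective (𝓞 K) K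
  set E₀ : Fin (m + 1) → (𝓞 K)[X] := fun j => Pd.cf F n j with hE₀
  have hE₀0 : E₀ ≠ 0 := by
    intro h0
    obtain ⟨j, hj⟩ : ∃ j, E j ≠ 0 := by
      by_contra h1
      push Not at h1
      exact hE0' (funext h1)
    have h1 := hGE j
    have h2 : Pd.cf F n j = 0 := congrFun h0 j
    rw [h2, Polynomial.map_zero] at h1
    exact (mul_ne_zero hG0 hj) h1.symm
  obtain ⟨⟨j₂, hj₂⟩, hcr⟩ := hCRA (𝓞 K)[X] m E₀ Q hE₀0 hQi hQ0
  have hcr' : ∀ i j, E i * (mnr Q j).map ι = E j * (mnr Q i).map ι := by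
    intro i j
    have h1 := congrArg (Polynomial.map ι) (hcr i j)
    rw [Polynomial.map_mul, Polynomial.map_mul] at h1
    have h2 : (E₀ i).map ι = G * E i := hGE i
    have h3 : (E₀ j).map ι = G * E j := hGE j
    rw [h2, h3, mul_assoc, mul_assoc] at h1
    exact mul_left_cancel₀ hG0 h1
  set c' : K[X] := ∑ i, A i * (mnr Q i).map ι with hc'
  have hkey : ∀ j, (mnr Q j).map ι = c' * E j := by
    intro j
    rw [← one_mul ((mnr Q j).map ι), ← hAE, hc', Finset.sum_mul, Finset.sum_mul]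
    refine Finset.sum_congr rfl fun i _ => ?_
    linear_combination A i * hcr' i j
  have hc'0 : c' ≠ 0 := by
    intro h0
    have h1 := hkey j₂
    rw [h0, zero_mul] at h1
    exact hj₂ ((Polynomial.map_eq_zero_iff hιi).1 h1)
  -- the degree of `c'`
  have hdc : c'.natDegree ≤ m * h := by
    obtain ⟨j, hEj0, hj⟩ : ∃ j, E j ≠ 0 ∧ D ≤ (E j).natDegree := by
      obtain ⟨j₁, hj₁⟩ := hEj
      by_cases h0 : E j₁ = 0
      · obtain ⟨j, hj⟩ : ∃ j, E j ≠ 0 := by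
          by_contra h1
          push Not at h1
          exact hE0' (funext h1)
        refine ⟨j, hj, ?_⟩
        rw [h0, natDegree_zero] at hj₁
        omega
      · exact ⟨j₁, h0, hj₁⟩
    have h1 := congrArg natDegree (hkey j)
    rw [natDegree_mul hc'0 hEj0] at h1
    have h2 := natDegree_mnr_le Q (fun i => ℓ i + h) hQd j
    have h3 : ((mnr Q j).map ι).natDegree ≤ (mnr Q j).natDegree := natDegree_map_le
    rw [Finset.sum_add_distrib, Finset.sum_const, Finset.card_univ, Fintype.card_fin,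
      smul_eq_mul] at h2
    omega
  -- the order of vanishing
  have hT0 : taylor (ι t₀) c' ≠ 0 := by
    intro h0
    apply hc'0
    have h1 : taylorEquiv (ι t₀) c' = 0 := h0
    exact (EmbeddingLike.map_eq_zero_iff (f := taylorEquiv (ι t₀))).1 h1
  set ρ : ℕ := (taylor (ι t₀) c').natTrailingDegree with hρ
  have hρm : ρ ≤ m * h := by
    refine (natTrailingDegree_le_natDegree _).trans ?_
    rw [natDegree_taylor]
    exact hdc
  have hd0 : ι d ≠ 0 := by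
    intro h0
    exact ht₀ (hιi (by rw [h0, map_zero]))
  have hcρ : PowerSeries.coeff ρ (tayH (ι t₀) (ι d) c') ≠ 0 := by
    rw [coeff_tayH, ← taylor_coeff]
    refine mul_ne_zero ?_ (pow_ne_zero _ hd0)
    exact trailingCoeff_nonzero_iff_nonzero.2 hT0
  have hcl : ∀ i < ρ, PowerSeries.coeff i (tayH (ι t₀) (ι d) c') = 0 := by
    intro i hi
    rw [coeff_tayH, ← taylor_coeff, coeff_eq_zero_of_lt_natTrailingDegree hi, zero_mul]
  -- the index `j₀`
  obtain ⟨j₀, hj₀⟩ : ∃ j, (E j).eval (ι t₀) ≠ 0 := by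
    by_contra h1
    push Not at h1
    have h2 := congrArg (fun P : K[X] => P.eval (ι t₀)) hAE
    simp only [eval_finsetSum, eval_mul, eval_one] at h2
    refine one_ne_zero (α := K) ?_
    rw [← h2]
    refine Finset.sum_eq_zero fun j _ => ?_
    rw [h1 j, mul_zero]
  -- the minor of the Taylor series
  have hconst : PowerSeries.constantCoeff (tayH (ι t₀) (ι d) (E j₀)) = (E j₀).eval (ι t₀) := by
    rw [← PowerSeries.coeff_zero_eq_constantCoeff_apply, coeff_tayH, hasseDeriv_zero, pow_zero,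
      mul_one]
    rfl
  have hM1 : PowerSeries.coeff ρ (tayH t₀ d (mnr Q j₀)) ≠ 0 := by
    intro h0
    have h1 := map_tayH ι (mnr Q j₀) t₀ d ρ
    rw [h0, map_zero, hkey, map_mul, coeff_low _ _ ρ hcl, hconst] at h1
    exact (mul_ne_zero hcρ hj₀) h1.symm
  have hM2 : ∀ i < ρ, PowerSeries.coeff i (tayH t₀ d (mnr Q j₀)) = 0 := by
    intro i hi
    have h1 := map_tayH ι (mnr Q j₀) t₀ d i
    rw [hkey, map_mul, coeff_low_zero _ _ ρ hcl i hi] at h1
    exact hιi (by rw [h1, map_zero])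
  -- the matrix
  set W : Fin m → Fin (m + 1) → PowerSeries (𝓞 K) := fun i a =>
    ∑ b', U a b' * tayH t₀ d (Q i b') with hW
  set M : Fin (m + 1) → Fin (m + 1) → PowerSeries (𝓞 K) :=
    Fin.cons (fun a => U a j₀) W with hM
  have hMeq : Matrix.of M =
      CRA.mat (fun i l => tayH t₀ d (Q i l)) (Pi.single j₀ 1) * (Matrix.of U).transpose := by
    ext1 i a
    rw [Matrix.mul_apply]
    refine Fin.cases ?_ (fun i => ?_) i
    · have h1 : ∀ l ∈ (univ : Finset (Fin (m + 1))),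
          CRA.mat (fun i l => tayH t₀ d (Q i l)) (Pi.single j₀ 1) 0 l *
            (Matrix.of U).transpose l a = if l = j₀ then U a j₀ else 0 := by
        intro l _
        by_cases hl : l = j₀
        · subst hl
          simp [CRA.mat, Matrix.transpose_apply]
        · simp [CRA.mat, Matrix.transpose_apply, hl]
      rw [Finset.sum_congr rfl h1]
      simp [M]
    · simp only [CRA.mat, Matrix.of_apply, Matrix.transpose_apply, M, W, Fin.cons_succ]
      refine Finset.sum_congr rfl fun l _ => ?_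
      rw [mul_comm]
  have hdetU : PowerSeries.constantCoeff (Matrix.of U).transpose.det = 1 := by
    rw [Matrix.det_transpose, RingHom.map_det]
    have h1 : (PowerSeries.constantCoeff (R := 𝓞 K)).mapMatrix (Matrix.of U) =
        (1 : Matrix (Fin (m + 1)) (Fin (m + 1)) (𝓞 K)) := by
      ext1 i j
      rw [RingHom.mapMatrix_apply, Matrix.map_apply, Matrix.of_apply, hU0, Matrix.one_apply]
    rw [h1, Matrix.det_one]
  have hdet : PowerSeries.coeff ρ (Matrix.of M).det ≠ 0 := by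
    rw [hMeq, Matrix.det_mul, CRA.det_mat]
    have h1 : ∑ l, (Pi.single j₀ 1 : Fin (m + 1) → PowerSeries (𝓞 K)) l *
        mnr (fun i l => tayH t₀ d (Q i l)) l = tayH t₀ d (mnr Q j₀) := by
      rw [Finset.sum_eq_single j₀]
      · rw [Pi.single_eq_same, one_mul, map_mnr]
      · intro l _ hl
        rw [Pi.single_eq_of_ne hl, zero_mul]
      · intro h
        exact absurd (Finset.mem_univ _) h
    rw [h1, coeff_low _ _ ρ hM2, hdetU, mul_one]
    exact hM1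
  obtain ⟨r, hr, hdr⟩ := hHDQ (𝓞 K) (m + 1) ρ M hdet
  have hrs : ∑ i : Fin m, r i.succ ≤ m * h := by
    rw [Fin.sum_univ_succ] at hr
    omega
  refine ⟨ℓ, fun i => r i.succ, fun i a => PowerSeries.coeff (r i.succ) (W i a),
    hℓ1, hℓ2, hrs, ?_, ?_, ?_⟩
  · rw [Fintype.linearIndependent_iff]
    intro g hg i
    have h1 : (Fin.cons 0 g : Fin (m + 1) → 𝓞 K) = 0 := by
      refine Matrix.eq_zero_of_vecMul_eq_zero hdr ?_
      funext a
      have h2 := congrFun hg a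
      rw [Finset.sum_apply] at h2
      simp only [Pi.smul_apply, smul_eq_mul, Pi.zero_apply] at h2
      simp only [Matrix.vecMul, dotProduct, Fin.sum_univ_succ, Pi.zero_apply, Matrix.of_apply,
        Fin.cons_zero, Fin.cons_succ, zero_mul, zero_add, M]
      exact h2
    have h3 := congrFun h1 i.succ
    simpa using h3
  · intro i
    have h1 : ∑ a, W i a * PowerSeries.C ((Pd.cf F n a).eval t₀) = 0 := by
      have h2 : ∀ a ∈ (univ : Finset (Fin (m + 1))),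
          W i a * PowerSeries.C ((Pd.cf F n a).eval t₀) =
          ∑ b', tayH t₀ d (Q i b') * (PowerSeries.C ((Pd.cf F n a).eval t₀) * U a b') := by
        intro a _
        rw [hW]
        beta_reduce
        rw [Finset.sum_mul]
        refine Finset.sum_congr rfl fun b' _ => ?_
        ring
      rw [Finset.sum_congr rfl h2, Finset.sum_comm]
      have h3 : ∀ b' ∈ (univ : Finset (Fin (m + 1))),
          ∑ a : Fin (m + 1), tayH t₀ d (Q i b') * (PowerSeries.C ((Pd.cf F n a).eval t₀) * U a b') =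
          tayH t₀ d (Q i b' * Pd.cf F n b') := by
        intro b' _
        rw [← Finset.mul_sum, hU1 b', tay_eq, map_mul]
      rw [Finset.sum_congr rfl h3, ← map_sum, hQ0 i, map_zero]
    have h4 := congrArg (PowerSeries.coeff (r i.succ)) h1
    rw [map_sum, map_zero] at h4
    rw [← h4]
    refine Finset.sum_congr rfl fun a _ => ?_
    rw [PowerSeries.coeff_mul_C]
  · intro φ i j
    set t := tt φ t₀ 1 with ht
    have ht1 : 1 ≤ t := one_le_tt φ t₀
    have ht0 : 0 ≤ t := by linarith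
    set L := ℓ i + h with hL
    have hLn : L ≤ (σ + 1) * n := by
      have h1 := hℓ3 i
      have h3 : (σ + 1) * n = σ * n + n := by ring
      omega
    have hrn : r i.succ ≤ m * n := by
      have h1 : r i.succ ≤ ∑ i : Fin m, r i.succ :=
        Finset.single_le_sum (f := fun i : Fin m => r i.succ) (fun _ _ => Nat.zero_le _)
          (Finset.mem_univ i)
      exact h1.trans (hrs.trans (Nat.mul_le_mul_left m hhn))
    have hCHt : 1 ≤ C₀ * H * t := one_le_mul_of_one_le_of_one_le hCH ht1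
    have hCHt0 : 0 ≤ C₀ * H * t := by linarith
    have hCH0 : 0 ≤ C₀ * H := by linarith
    have hC1H0 : 0 ≤ C₁ * H := mul_nonneg hC₁0 hH0
    have hb1 : ∀ b', ‖res φ (PowerSeries.coeff (r i.succ) (U j b' * tayH t₀ d (Q i b')))‖ ≤
        (C₀ ^ n * (C₀ * H * t) ^ s₀) * (2 ^ L * ((C₁ * H) ^ s') ^ n * t ^ L) *
          (2 * ((C₀ * H * t) ^ s₀ * ((C₀ * H) ^ s₀ * t ^ s₀))) ^ r i.succ := by
      intro b'
      refine norm_mul_le (res φ) _ _ _ _ _ _
        (mul_nonneg (pow_nonneg hC₀0 _) (pow_nonneg hCHt0 _)) (one_le_pow₀ hCHt)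
        (one_le_mul_of_one_le_of_one_le (one_le_pow₀ hCH) (one_le_pow₀ ht1))
        (mul_nonneg (mul_nonneg (by positivity) (pow_nonneg (pow_nonneg hC1H0 _) _))
          (pow_nonneg ht0 _)) (fun r => ?_) (fun r => ?_) _
      · refine (hU2 φ j b' r).trans (le_of_eq ?_)
        have e : (C₀ * H * t) ^ (s₀ * (r + 1)) =
            (C₀ * H * t) ^ s₀ * ((C₀ * H * t) ^ s₀) ^ r := by
          rw [← pow_mul, ← pow_add]
          congr 1
          ring
        rw [e, ← mul_assoc]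
      · refine (tay_le hPN φ t₀ (Q i b') Δ L (hQd i b') r).trans ?_
        have h1 : 2 ^ L * pn (res φ) (Q i b') * t ^ L ≤ 2 ^ L * ((C₁ * H) ^ s') ^ n * t ^ L :=
          mul_le_mul_of_nonneg_right (mul_le_mul_of_nonneg_left (hQn φ i b') (by positivity))
            (pow_nonneg ht0 _)
        have h2 : (pn (res φ) Δ * t ^ Δ.natDegree) ^ r ≤ ((C₀ * H) ^ s₀ * t ^ s₀) ^ r :=
          pow_le_pow_left₀ (mul_nonneg (hpn0 φ Δ) (pow_nonneg ht0 _))
            (mul_le_mul (hΔn φ) (pow_le_pow_right₀ ht1 hΔd) (pow_nonneg ht0 _)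
              (pow_nonneg hCH0 _)) r
        exact mul_le_mul h1 h2 (pow_nonneg (mul_nonneg (hpn0 φ Δ) (pow_nonneg ht0 _)) _)
          (mul_nonneg (mul_nonneg (by positivity) (pow_nonneg (pow_nonneg hC1H0 _) _))
            (pow_nonneg ht0 _))
    have h1 : ‖res φ (PowerSeries.coeff (r i.succ) (W i j))‖ ≤
        (m + 1) * ((C₀ ^ n * (C₀ * H * t) ^ s₀) * (2 ^ L * ((C₁ * H) ^ s') ^ n * t ^ L) *
          (2 * ((C₀ * H * t) ^ s₀ * ((C₀ * H) ^ s₀ * t ^ s₀))) ^ r i.succ) := by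
      rw [hW]
      beta_reduce
      rw [map_sum, map_sum]
      refine (norm_sum_le _ _).trans ((Finset.sum_le_sum fun b' _ => hb1 b').trans ?_)
      rw [Finset.sum_const, Finset.card_univ, Fintype.card_fin, nsmul_eq_mul]
      push_cast
      exact le_rfl
    refine h1.trans ?_
    have h2 : ((m : ℝ) + 1) * ((C₀ ^ n * (C₀ * H * t) ^ s₀) *
          (2 ^ L * ((C₁ * H) ^ s') ^ n * t ^ L) *
          (2 * ((C₀ * H * t) ^ s₀ * ((C₀ * H) ^ s₀ * t ^ s₀))) ^ r i.succ) =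
        (((m : ℝ) + 1) * C₀ ^ n * (C₀ * H) ^ s₀ * 2 ^ L * ((C₁ * H) ^ s') ^ n *
          (2 * ((C₀ * H) ^ s₀ * (C₀ * H) ^ s₀)) ^ r i.succ) *
          t ^ (ℓ i + h + s₀ + (s₀ + s₀) * r i.succ) := by
      have e1 : (2 * ((C₀ * H * t) ^ s₀ * ((C₀ * H) ^ s₀ * t ^ s₀))) =
          (2 * ((C₀ * H) ^ s₀ * (C₀ * H) ^ s₀)) * t ^ (s₀ + s₀) := by
        rw [mul_pow (C₀ * H) t, pow_add]
        ring
      rw [e1, mul_pow (2 * ((C₀ * H) ^ s₀ * (C₀ * H) ^ s₀)), ← pow_mul, pow_add t (ℓ i + h + s₀),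
        pow_add t (ℓ i + h), ← hL, mul_pow (C₀ * H) t]
      ring
    rw [h2]
    refine mul_le_mul_of_nonneg_right ?_ (pow_nonneg ht0 _)
    exact const_le m σ s₀ s' n L (r i.succ) C₀ C₁ H hC₀ hC₁ hH1 hn hLn hrn

end Pool.Agent.Work.MP_8d13b5_lc.Fm
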