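import Pool.Agent.Work.MP_8d13b5_lc.Fm.StmtsY

set_option autoImplicit false

/-! Block `Fm`, item YDE: one decision procedure, multiple roots. -/

namespace Pool.Agent.Work.MP_8d13b5_lc.Fm

open Polynomial NumberField Finset Module

namespace YDE

/-- a bound for the least zero -/
def bd (x : (List ℤ × List ℤ) × ℕ) : ℕ :=
  x.2.unpair.1 * ((Pd.size x.1 ^ (x.2.unpair.1 * x.2.unpair.1) * x.2.unpair.2) ^ x.2.unpair.1 + 2) +
    x.2.unpair.1

theorem primrec_pow : Primrec₂ (fun a b : ℕ => a ^ b) :=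
  Primrec₂.unpaired'.1 Nat.Primrec.pow

theorem primrec_bd : Primrec bd := by
  have hs : Primrec (fun x : (List ℤ × List ℤ) × ℕ => Pd.size x.1) :=
    Pd.primrec_size.comp Primrec.fst
  have hB : Primrec (fun x : (List ℤ × List ℤ) × ℕ => x.2.unpair.1) :=
    Primrec.fst.comp (Primrec.unpair.comp Primrec.snd)
  have hT : Primrec (fun x : (List ℤ × List ℤ) × ℕ => x.2.unpair.2) :=
    Primrec.snd.comp (Primrec.unpair.comp Primrec.snd)
  have h1 : Primrec (fun x : (List ℤ × List ℤ) × ℕ =>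
      Pd.size x.1 ^ (x.2.unpair.1 * x.2.unpair.1)) :=
    primrec_pow.comp hs (Primrec.nat_mul.comp hB hB)
  have h2 : Primrec (fun x : (List ℤ × List ℤ) × ℕ =>
      (Pd.size x.1 ^ (x.2.unpair.1 * x.2.unpair.1) * x.2.unpair.2) ^ x.2.unpair.1) :=
    primrec_pow.comp (Primrec.nat_mul.comp h1 hT) hB
  have h3 : Primrec (fun x : (List ℤ × List ℤ) × ℕ =>
      (Pd.size x.1 ^ (x.2.unpair.1 * x.2.unpair.1) * x.2.unpair.2) ^ x.2.unpair.1 + 2) :=
    Primrec.nat_add.comp h2 (Primrec.const 2)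
  exact Primrec.nat_add.comp (Primrec.nat_mul.comp hB h3) hB

theorem bd_eq (p : List ℤ × List ℤ) (B T : ℕ) :
    bd (p, Nat.pair B T) = B * ((Pd.size p ^ (B * B) * T) ^ B + 2) + B := by
  simp [bd]

theorem val_le {p : List ℤ × List ℤ} {u : ℕ → ℤ} (hu : Pd.IsSeq p u) {N q i d B : ℕ} (hq : q < N)
    (hi : i < d) (hN : N ≤ B) (hd : d ≤ B) :
    (u (q + N * i)).natAbs ≤ Pd.size p ^ (B * B) := by
  have h1 := Pd.val_bound hu (q + N * i)
  have h2 : 1 ≤ Pd.size p := Pd.size_pos hu.2.1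
  refine h1.trans (Nat.pow_le_pow_right h2 ?_)
  have h3 : N * (i + 1) ≤ B * B := Nat.mul_le_mul hN (by omega)
  have e : N * (i + 1) = N * i + N := by ring
  omega

/-- the step from the conclusion on the zeros to the bound -/
theorem step {p : List ℤ × List ℤ} {u : ℕ → ℤ} (hu : Pd.IsSeq p u) {B N T c d M : ℕ} {t : ℤ}
    (hN : 1 ≤ N) (hNB : N ≤ B) (hdB : d ≤ B) (hcB : c ≤ B) (ht : 1 ≤ t.natAbs)
    (htT : t.natAbs ≤ T)
    (hz : ∀ q < N, Zer d M c t (fun n => u (q + N * n))) (h : ∃ n, u n = 0) :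
    ∃ n < bd (p, Nat.pair B T), u n = 0 := by
  obtain ⟨n, hn⟩ := h
  have hs : 1 ≤ Pd.size p := Pd.size_pos hu.2.1
  rw [bd_eq]
  set q := n % N with hq
  have hqN : q < N := Nat.mod_lt _ (by omega)
  have hnq : n = q + N * (n / N) := (Nat.mod_add_div n N).symm
  set n' := n / N with hn'
  rcases hz q hqN with h0 | h0
  · refine ⟨q, by omega, ?_⟩
    have h2 := h0 0
    simpa only [mul_zero, add_zero] using h2
  · have h1 := (h0 (Pd.size p ^ (B * B)) (fun i hi => val_le hu hqN hi hNB hdB)).1 n'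
    refine ⟨n, ?_, hn⟩
    have h2 : n' ≤ (Pd.size p ^ (B * B) * t.natAbs) ^ c := by
      by_contra hc
      push Not at hc
      refine h1 hc ?_
      show u (q + N * n') = 0
      rw [← hnq, hn]
    have h3 : (Pd.size p ^ (B * B) * t.natAbs) ^ c ≤ (Pd.size p ^ (B * B) * T) ^ B := by
      have h4 : 1 ≤ Pd.size p ^ (B * B) := Nat.one_le_pow _ _ hs
      calc (Pd.size p ^ (B * B) * t.natAbs) ^ c ≤ (Pd.size p ^ (B * B) * T) ^ c :=
            Nat.pow_le_pow_left (Nat.mul_le_mul_left _ htT) _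
        _ ≤ (Pd.size p ^ (B * B) * T) ^ B :=
            Nat.pow_le_pow_right (Nat.mul_pos (by omega) (by omega)) hcB
    have h5 : N * n' ≤ B * ((Pd.size p ^ (B * B) * T) ^ B + 2) :=
      Nat.mul_le_mul hNB (by omega)
    omega

end YDE

open YDE in
theorem prYDE (hZRY : StZRY) (hZR0 : StZR0) (hDEC : StDEC) : StYDE := by
  obtain ⟨A, hA, hA'⟩ := hDEC YDE.bd YDE.primrec_bd
    (fun x p u => (∃ n, u n = 0) → ∃ n < YDE.bd (p, x), u n = 0)
    (fun B p u _ h hz => h hz)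
  refine ⟨fun x => A (x.1, Nat.pair x.2.1 x.2.2), ?_, fun m σ M hM => ?_⟩
  · refine hA.comp (Primrec.pair Primrec.fst ?_)
    exact Primrec₂.natPair.comp (Primrec.fst.comp Primrec.snd) (Primrec.snd.comp Primrec.snd)
  obtain ⟨c, hc, hV⟩ : ∃ c : ℕ, 1 ≤ c ∧ ∀ (H : ℕ) (F : ℤ[X][X]), IsI0 m σ H F →
      ∀ t : ℤ, (c * H) ^ c ≤ t.natAbs → ∀ z : ℕ → ℤ, Rec (RingHom.id ℤ) (spc F t ^ M) z →
      Zer ((m + 1) * M) M c t z := by
    rcases Nat.eq_zero_or_pos m with rfl | hm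
    · obtain ⟨c, hc, hV⟩ := hZR0 σ M hM
      refine ⟨c, hc, fun H F hF t ht z hz => ?_⟩
      rw [zero_add, one_mul]
      exact hV H F hF.monic (by rw [hF.deg]) hF.ne hF.one (hF.dg 0 le_rfl) (hF.ht 0 le_rfl) t ht z hz
    · exact hZRY m σ M hm hM
  refine ⟨c + (m + 1) * M + 2, fun B N hB hN hNB p u T hu hgen => ?_⟩
  refine hA' (Nat.pair B T) p u hu ?_
  obtain ⟨H, F, t, hF, hBt, htT, hrec⟩ := hgen
  have hH := hF.one
  have hBH : 2 ≤ B * H := by
    calc 2 ≤ B := by omega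
      _ = B * 1 := (mul_one B).symm
      _ ≤ B * H := Nat.mul_le_mul_left _ hH
  have hT2 : 2 ≤ t.natAbs := by
    refine (hBH.trans ?_).trans hBt
    exact Nat.le_self_pow (by omega) _
  have hTT : (c * H) ^ c ≤ t.natAbs := by
    refine le_trans ?_ hBt
    calc (c * H) ^ c ≤ (B * H) ^ c :=
          Nat.pow_le_pow_left (Nat.mul_le_mul_right _ (by omega)) _
      _ ≤ (B * H) ^ B := Nat.pow_le_pow_right (by omega) (by omega)
  exact step hu hN hNB (by omega) (by omega) (by omega) htT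
    (fun q hq => hV H F hF t hTT _ (hrec q hq))

end Pool.Agent.Work.MP_8d13b5_lc.Fm
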