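import Pool.Agent.Work.MP_8d13b5_lc.Fm.StmtsY

set_option autoImplicit false

/-! ZR0: zeros, order one. -/

namespace Pool.Agent.Work.MP_8d13b5_lc.Fm

open Polynomial NumberField Finset Module

namespace ZR0

/-- a nonzero integral root is at most one of the nonzero coefficients -/
theorem root_le (k : ℕ) : ∀ (p : ℤ[X]) (t : ℤ), p.natDegree ≤ k → p ≠ 0 → t ≠ 0 → p.eval t = 0 →
    ∃ j, t.natAbs ≤ (p.coeff j).natAbs := by
  induction k with
  | zero =>
    intro p t hk hp ht h
    have h1 : p = C (p.coeff 0) := eq_C_of_natDegree_le_zero hk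
    rw [h1, eval_C] at h
    rw [h, C_0] at h1
    exact absurd h1 hp
  | succ k ih =>
    intro p t hk hp ht h
    have h1 := divX_mul_X_add p
    have h2 : p.eval t = (divX p).eval t * t + p.coeff 0 := by
      conv_lhs => rw [← h1]
      simp
    by_cases h0 : p.coeff 0 = 0
    · rw [h0, add_zero, h] at h2
      have h3 : (divX p).eval t = 0 := by
        rcases mul_eq_zero.1 h2.symm with h4 | h4
        · exact h4
        · exact absurd h4 ht
      have h4 : divX p ≠ 0 := by
        intro h5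
        rw [h5, h0] at h1
        simp at h1
        exact hp h1.symm
      have h5 : (divX p).natDegree ≤ k := by
        rw [natDegree_divX_eq_natDegree_tsub_one]
        omega
      obtain ⟨j, hj⟩ := ih (divX p) t h5 h4 ht h3
      exact ⟨j + 1, by rw [coeff_divX] at hj; exact hj⟩
    · refine ⟨0, ?_⟩
      have h3 : t ∣ p.coeff 0 := ⟨-(divX p).eval t, by rw [h] at h2; linear_combination -h2⟩
      exact Nat.le_of_dvd (Int.natAbs_pos.2 h0) (Int.natAbs_dvd_natAbs.2 h3)

/-- the size of a value -/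
theorem eval_le (p : ℤ[X]) (σ H : ℕ) (hσ : p.natDegree ≤ σ) (hH : ∀ j, (p.coeff j).natAbs ≤ H)
    (t : ℤ) (ht : 1 ≤ t.natAbs) : (p.eval t).natAbs ≤ (σ + 1) * H * t.natAbs ^ σ := by
  rw [eval_eq_sum_range' (Nat.lt_succ_of_le hσ)]
  have h1 : ∀ s : Finset ℕ, (∑ i ∈ s, p.coeff i * t ^ i).natAbs ≤
      ∑ i ∈ s, (p.coeff i * t ^ i).natAbs := fun s => Int.natAbs_sum_le s _
  refine (h1 _).trans ?_
  have h2 : ∀ i ∈ range (σ + 1), (p.coeff i * t ^ i).natAbs ≤ H * t.natAbs ^ σ := by
    intro i hi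
    rw [Int.natAbs_mul, Int.natAbs_pow]
    exact Nat.mul_le_mul (hH i) (Nat.pow_le_pow_right ht (Nat.lt_succ_iff.1 (mem_range.1 hi)))
  refine (Finset.sum_le_sum h2).trans ?_
  rw [Finset.sum_const, card_range, smul_eq_mul, mul_assoc]

theorem cf_eq (b : ℤ) (n : ℕ) : Pd.cf (X - C b) n 0 = b ^ n := by
  unfold Pd.cf
  rw [modByMonic_X_sub_C_eq_C_eval, coeff_C_zero]
  simp

theorem zero_of_nat (v : ℤ[X]) (h : ∀ n : ℕ, v.eval (n : ℤ) = 0) : v = 0 := by
  refine Polynomial.eq_zero_of_infinite_isRoot v ?_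
  refine Set.Infinite.mono ?_ (Set.infinite_range_of_injective (Nat.cast_injective (R := ℤ)))
  rintro x ⟨n, rfl⟩
  exact h n

end ZR0

theorem prZR0 (h1 : StADY) : StZR0 := by
  intro σ M hM
  obtain ⟨cA, hA⟩ := h1 0 M hM
  refine ⟨cA * (σ + 2) + (σ + 2), by omega, ?_⟩
  intro H F hF hd hF0 hH hσ hHj t ht z hz
  obtain ⟨c, hc⟩ : ∃ c, c = cA * (σ + 2) + (σ + 2) := ⟨_, rfl⟩
  rw [← hc] at ht ⊢
  have hc2 : 2 ≤ c := by omega
  have htc : c * H ≤ t.natAbs := (Nat.le_self_pow (by omega) _).trans ht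
  have htH : 2 * H ≤ t.natAbs := (Nat.mul_le_mul_right H hc2).trans htc
  have htc' : c ≤ t.natAbs := (Nat.le_mul_of_pos_right c (by omega)).trans htc
  have ht1 : 1 ≤ t.natAbs := by omega
  have ht0 : t ≠ 0 := by
    intro h
    rw [h] at ht1
    simp at ht1
  -- the polynomial
  obtain ⟨b, hb⟩ : ∃ b : ℤ, b = -(F.coeff 0).eval t := ⟨_, rfl⟩
  have hg : spc F t = X - C b := by
    have e1 : F = X + C (F.coeff 0) := by
      have h2 := hF.eq_X_add_C hd
      exact h2
    unfold spc
    conv_lhs => rw [e1]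
    rw [Polynomial.map_add, map_X, map_C, coe_evalRingHom, hb, C_neg]
    ring
  have hb0 : b ≠ 0 := by
    intro h
    rw [hb, neg_eq_zero] at h
    obtain ⟨j, hj⟩ := ZR0.root_le _ (F.coeff 0) t le_rfl hF0 ht0 h
    have := hHj j
    omega
  have hbY : b.natAbs ≤ (σ + 2) * H * t.natAbs ^ σ := by
    rw [hb, Int.natAbs_neg]
    refine (ZR0.eval_le (F.coeff 0) σ H hσ hHj t ht1).trans ?_
    exact Nat.mul_le_mul_right _ (Nat.mul_le_mul_right _ (by omega))
  have hY1 : 1 ≤ (σ + 2) * H * t.natAbs ^ σ :=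
    Nat.mul_pos (Nat.mul_pos (by omega) (by omega)) (pow_pos (by omega) _)
  have hgm : (spc F t).Monic := by
    rw [hg]
    exact monic_X_sub_C b
  have hgd : (spc F t).natDegree = 0 + 1 := by
    rw [hg, natDegree_X_sub_C]
  have hco : ∀ i, ((spc F t).coeff i).natAbs ≤ (σ + 2) * H * t.natAbs ^ σ := by
    intro i
    rw [hg, coeff_sub, coeff_X, coeff_C]
    rcases i with _ | _ | i
    · simpa using hbY
    · simpa using hY1
    · simp
  have hADY := hA (spc F t) ((σ + 2) * H * t.natAbs ^ σ) hgm hgd hY1 hco (by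
    intro v _ hv
    have h3 : v 0 = 0 := by
      refine ZR0.zero_of_nat _ fun n => ?_
      have h6 := hv n
      rw [hg] at h6
      have h4 : Pd.cf (X - C b) n 0 * (v 0).eval (n : ℤ) = 0 := (Fin.sum_univ_one _).symm.trans h6
      rw [ZR0.cf_eq] at h4
      rcases mul_eq_zero.1 h4 with h5 | h5
      · exact absurd h5 (pow_ne_zero _ hb0)
      · exact h5
    funext i
    have hi : i = 0 := Fin.eq_zero i
    rw [hi, h3]
    rfl)
  by_cases hz0 : ∀ n, z n = 0
  · exact Or.inl hz0
  · right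
    intro B hB
    obtain ⟨δ, v, hδ, hvd, hvz, hvc⟩ := hADY z B hz (by
      intro i hi
      exact hB i (by omega))
    have hv0 : ∀ n : ℕ, δ * z n = b ^ n * (v 0).eval (n : ℤ) := by
      intro n
      have h6 := hvz n
      rw [hg] at h6
      have h4 : δ * z n = Pd.cf (X - C b) n 0 * (v 0).eval (n : ℤ) :=
        h6.trans (Fin.sum_univ_one _)
      rw [ZR0.cf_eq] at h4
      exact h4
    have hvne : v 0 ≠ 0 := by
      intro h
      refine hz0 fun n => ?_
      have h4 := hv0 n
      rw [h, eval_zero, mul_zero] at h4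
      rcases mul_eq_zero.1 h4 with h5 | h5
      · exact absurd h5 hδ
      · exact h5
    have hroot : ∀ n, z n = 0 → (v 0).eval (n : ℤ) = 0 := by
      intro n hn
      have h4 := hv0 n
      rw [hn, mul_zero] at h4
      rcases mul_eq_zero.1 h4.symm with h5 | h5
      · exact absurd h5 (pow_ne_zero _ hb0)
      · exact h5
    have hB1 : 1 ≤ B := by
      by_contra hB0
      have hB0' : B = 0 := by omega
      apply hvne
      ext l
      have h4 := hvc 0 l
      rw [hB0', mul_zero] at h4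
      rw [coeff_zero]
      exact Int.natAbs_eq_zero.1 (Nat.le_zero.1 h4)
    refine ⟨?_, ?_⟩
    · intro n hn hzn
      have hn0 : (n : ℤ) ≠ 0 := by
        have : 0 < n := lt_of_le_of_lt (Nat.zero_le _) hn
        exact_mod_cast this.ne'
      obtain ⟨j, hj⟩ := ZR0.root_le _ (v 0) n le_rfl hvne hn0 (hroot n hzn)
      have h4 := hj.trans (hvc 0 j)
      rw [Int.natAbs_natCast] at h4
      have h5 : cA * ((σ + 2) * H * t.natAbs ^ σ) ≤ t.natAbs ^ (σ + 2) := by
        have e1 : cA * (σ + 2) ≤ t.natAbs := le_trans (by omega) htc'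
        have e2 : H ≤ t.natAbs := by omega
        calc cA * ((σ + 2) * H * t.natAbs ^ σ) = (cA * (σ + 2)) * H * t.natAbs ^ σ := by ring
          _ ≤ t.natAbs * t.natAbs * t.natAbs ^ σ :=
            Nat.mul_le_mul_right _ (Nat.mul_le_mul e1 e2)
          _ = t.natAbs ^ (σ + 2) := by ring
      have h6 : (cA * ((σ + 2) * H * t.natAbs ^ σ)) ^ cA * B ≤ (B * t.natAbs) ^ c := by
        calc (cA * ((σ + 2) * H * t.natAbs ^ σ)) ^ cA * B
            ≤ (t.natAbs ^ (σ + 2)) ^ cA * B := Nat.mul_le_mul_right _ (Nat.pow_le_pow_left h5 _)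
          _ = t.natAbs ^ ((σ + 2) * cA) * B := by rw [← pow_mul]
          _ ≤ t.natAbs ^ c * B ^ c := by
            refine Nat.mul_le_mul (Nat.pow_le_pow_right ht1 ?_) (Nat.le_self_pow (by omega) _)
            rw [hc, mul_comm]
            omega
          _ = (B * t.natAbs) ^ c := by rw [mul_pow, mul_comm]
      omega
    · refine ⟨(v 0).roots.toFinset.image Int.toNat, ?_, ?_⟩
      · calc ((v 0).roots.toFinset.image Int.toNat).card ≤ (v 0).roots.toFinset.card :=
            Finset.card_image_le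
          _ ≤ Multiset.card (v 0).roots := Multiset.toFinset_card_le _
          _ ≤ (v 0).natDegree := card_roots' _
          _ < M := hvd 0
      · intro n _ hzn
        refine Finset.mem_image.2 ⟨(n : ℤ), ?_, Int.toNat_natCast n⟩
        rw [Multiset.mem_toFinset, mem_roots hvne]
        exact hroot n hzn

end Pool.Agent.Work.MP_8d13b5_lc.Fm
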