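import Pool.Agent.Work.MP_8d13b5_lc.Fm.StmtsY

/-!
# MP_8d13b5_lc, block FMY, item ZRY: zeros of sequences with multiple characteristic roots
-/

set_option autoImplicit false

namespace Pool.Agent.Work.MP_8d13b5_lc.Fm

open Polynomial NumberField Finset Module

namespace ZRY

theorem root_le (K n : ℕ) : ∀ (d : ℕ) (v : ℤ[X]), v.natDegree ≤ d → v ≠ 0 →
    v.eval (n : ℤ) = 0 → (∀ l, (v.coeff l).natAbs ≤ K) → n ≤ K := by
  intro d
  induction d with
  | zero =>
    intro v hd hv he _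
    rw [Nat.le_zero] at hd
    have h1 := eq_C_of_natDegree_eq_zero hd
    rw [h1, eval_C] at he
    rw [he, C_0] at h1
    exact absurd h1 hv
  | succ d ih =>
    intro v hd hv he hK
    rcases Nat.eq_zero_or_pos n with h0 | hn
    · omega
    have h1 := divX_mul_X_add v
    have h2 : v.divX.eval (n : ℤ) * (n : ℤ) + v.coeff 0 = 0 := by
      rw [← he]
      conv_rhs => rw [← h1]
      rw [eval_add, eval_mul, eval_X, eval_C]
    have hn' : (n : ℤ) ≠ 0 := by exact_mod_cast hn.ne'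
    by_cases hc : v.coeff 0 = 0
    · apply ih v.divX
      · rw [natDegree_divX_eq_natDegree_tsub_one]
        omega
      · intro h
        apply hv
        rw [← h1, h, hc]
        simp
      · rw [hc, add_zero] at h2
        exact (mul_eq_zero.1 h2).resolve_right hn'
      · intro l
        rw [coeff_divX]
        exact hK _
    · have h3 : (n : ℤ) ∣ v.coeff 0 := by
        refine ⟨-v.divX.eval (n : ℤ), ?_⟩
        linarith
      have h4 : n ∣ (v.coeff 0).natAbs := Int.natCast_dvd.1 h3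
      exact (Nat.le_of_dvd (Int.natAbs_pos.2 hc) h4).trans (hK 0)

theorem eval_le (K M n : ℕ) (v : ℤ[X]) (hd : v.natDegree < M)
    (hK : ∀ l, (v.coeff l).natAbs ≤ K) : (v.eval (n : ℤ)).natAbs ≤ M * (K * 2 ^ (n * M)) := by
  rw [eval_eq_sum_range' hd]
  refine (Int.natAbs_sum_le _ _).trans ?_
  have h1 : ∀ l ∈ range M, (v.coeff l * (n : ℤ) ^ l).natAbs ≤ K * 2 ^ (n * M) := by
    intro l hl
    rw [mem_range] at hl
    rw [Int.natAbs_mul, Int.natAbs_pow, Int.natAbs_natCast]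
    apply Nat.mul_le_mul (hK l)
    calc n ^ l ≤ (2 ^ n) ^ l := Nat.pow_le_pow_left (Nat.lt_two_pow_self).le l
      _ = 2 ^ (n * l) := by rw [pow_mul]
      _ ≤ 2 ^ (n * M) := Nat.pow_le_pow_right (by norm_num) (Nat.mul_le_mul_left n hl.le)
  refine (sum_le_sum h1).trans ?_
  rw [sum_const, card_range, smul_eq_mul]

/-- the numerical part of the second case -/
theorem num (c₁ c M H T n A B E : ℕ) (hc2 : 2 ≤ c) (hH : 1 ≤ H) (hcc : c₁ ≤ c)
    (hcM : 2 * c₁ * (c₁ + M) ≤ c) (hT : (c * H) ^ c ≤ T) (hB : 1 ≤ B)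
    (hA : A ≤ T * T ^ E * B * 2 ^ (n * M))
    (h : T ^ n ≤ (((c₁ * H) ^ c₁) ^ (n + 1) * T ^ c₁ * A) ^ c₁) :
    T ^ n ≤ (B * T) ^ (2 * c₁ * (c₁ + 2 + E)) := by
  have hcH : 2 ≤ c * H := by
    calc 2 ≤ c * 1 := by omega
      _ ≤ c * H := Nat.mul_le_mul_left c hH
  have hT0 : 1 ≤ T := (Nat.one_le_pow c (c * H) (by omega)).trans hT
  set U := (c₁ * H) ^ c₁ with hU
  have hU1 : U ≤ (c * H) ^ c₁ := Nat.pow_le_pow_left (Nat.mul_le_mul_right H hcc) c₁
  have hUT : U ≤ T := hU1.trans ((Nat.pow_le_pow_right (by omega) hcc).trans hT)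
  set V := U * 2 ^ M with hV
  have hV1 : V ≤ (c * H) ^ (c₁ + M) := by
    rw [pow_add]
    exact Nat.mul_le_mul hU1 (Nat.pow_le_pow_left hcH M)
  have hV2 : V ^ (2 * c₁) ≤ T := by
    calc V ^ (2 * c₁) ≤ ((c * H) ^ (c₁ + M)) ^ (2 * c₁) := Nat.pow_le_pow_left hV1 _
      _ = (c * H) ^ ((c₁ + M) * (2 * c₁)) := by rw [← pow_mul]
      _ ≤ (c * H) ^ c := Nat.pow_le_pow_right (by omega) (by
          rw [mul_comm]
          exact hcM)
      _ ≤ T := hT
  set W := U * T ^ (c₁ + 1 + E) * B with hW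
  have hW1 : W ≤ (B * T) ^ (c₁ + 2 + E) := by
    calc W ≤ T * T ^ (c₁ + 1 + E) * B := Nat.mul_le_mul_right B (Nat.mul_le_mul_right _ hUT)
      _ = T ^ (c₁ + 2 + E) * B ^ 1 := by ring
      _ ≤ T ^ (c₁ + 2 + E) * B ^ (c₁ + 2 + E) :=
          Nat.mul_le_mul_left _ (Nat.pow_le_pow_right hB (by omega))
      _ = (B * T) ^ (c₁ + 2 + E) := by rw [mul_pow, mul_comm]
  have h1 : T ^ n ≤ (V ^ n * W) ^ c₁ := by
    refine h.trans (Nat.pow_le_pow_left ?_ c₁)
    calc U ^ (n + 1) * T ^ c₁ * A ≤ U ^ (n + 1) * T ^ c₁ * (T * T ^ E * B * 2 ^ (n * M)) :=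
          Nat.mul_le_mul_left _ hA
      _ = V ^ n * W := by
          have e1 : 2 ^ (n * M) = (2 ^ M) ^ n := by rw [← pow_mul, mul_comm M n]
          rw [hV, hW, e1]
          ring
  have h2 : T ^ n * T ^ n ≤ T ^ n * W ^ (2 * c₁) := by
    calc T ^ n * T ^ n ≤ (V ^ n * W) ^ c₁ * (V ^ n * W) ^ c₁ := Nat.mul_le_mul h1 h1
      _ = (V ^ (2 * c₁)) ^ n * W ^ (2 * c₁) := by ring
      _ ≤ T ^ n * W ^ (2 * c₁) := Nat.mul_le_mul_right _ (Nat.pow_le_pow_left hV2 n)
  have h3 : T ^ n ≤ W ^ (2 * c₁) := Nat.le_of_mul_le_mul_left h2 (Nat.pow_pos hT0)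
  calc T ^ n ≤ W ^ (2 * c₁) := h3
    _ ≤ ((B * T) ^ (c₁ + 2 + E)) ^ (2 * c₁) := Nat.pow_le_pow_left hW1 _
    _ = (B * T) ^ (2 * c₁ * (c₁ + 2 + E)) := by
        rw [← pow_mul, mul_comm (c₁ + 2 + E)]

theorem coeff_le {m σ H : ℕ} {F : ℤ[X][X]} (hF : IsI0 m σ H F) (t : ℤ) (ht : 1 ≤ t.natAbs)
    (i : ℕ) : ((spc F t).coeff i).natAbs ≤ (σ + 2) * H * t.natAbs ^ σ := by
  have hpos : 1 ≤ (σ + 2) * H * t.natAbs ^ σ :=
    Nat.mul_pos (Nat.mul_pos (by omega) hF.one) (Nat.pow_pos ht)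
  unfold spc
  rw [coeff_map]
  rcases Nat.lt_trichotomy i (m + 1) with hi | hi | hi
  · have hi' : i ≤ m := by omega
    change ((F.coeff i).eval t).natAbs ≤ _
    rw [eval_eq_sum_range' (Nat.lt_succ_of_le (hF.dg i hi'))]
    refine (Int.natAbs_sum_le _ _).trans ?_
    have h1 : ∀ l ∈ range (σ + 1), ((F.coeff i).coeff l * t ^ l).natAbs ≤ H * t.natAbs ^ σ := by
      intro l hl
      rw [mem_range] at hl
      rw [Int.natAbs_mul, Int.natAbs_pow]
      exact Nat.mul_le_mul (hF.ht i hi' l) (Nat.pow_le_pow_right ht (by omega))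
    refine (sum_le_sum h1).trans ?_
    rw [sum_const, card_range, smul_eq_mul, mul_assoc]
    exact Nat.mul_le_mul_right _ (by omega)
  · have h1 : F.coeff i = 1 := by
      rw [hi, ← hF.deg]
      exact hF.monic.coeff_natDegree
    rw [h1, map_one]
    simpa using hpos
  · have h1 : F.coeff i = 0 := coeff_eq_zero_of_natDegree_lt (by
      rw [hF.deg]
      exact hi)
    rw [h1, map_zero]
    simp

end ZRY

open ZRY in
/-- Item ZRY. -/
theorem prZRY (h1 : StXIZ) (h2 : StKRY) (h3 : StADY) : StZRY := by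
  intro m σ M hm hM
  obtain ⟨c₁, hc₁, k1⟩ := h1 m σ hm
  obtain ⟨c₂, hc₂, k2⟩ := h2 m σ hm
  obtain ⟨c₃, k3⟩ := h3 m M hM
  obtain ⟨E, hE⟩ : ∃ E, E = (σ + 3) * c₃ := ⟨_, rfl⟩
  obtain ⟨c, hc⟩ : ∃ c, c = 2 + c₁ + c₂ + c₃ + (σ + 2) + (m + 1) * M + 2 * c₁ * (c₁ + M) +
    2 * c₁ * (c₁ + 2 + E) + (E + 1) := ⟨_, rfl⟩
  have q0 : 2 ≤ c := by omega
  have q1 : c₁ ≤ c := by omega
  have q2 : c₂ ≤ c := by omega
  have q3 : c₃ ≤ c := by omega
  have q4 : σ + 2 ≤ c := by omega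
  have q5 : (m + 1) * M ≤ c := by omega
  have q6 : 2 * c₁ * (c₁ + M) ≤ c := by omega
  have q7 : 2 * c₁ * (c₁ + 2 + E) ≤ c := by omega
  have q8 : E + 1 ≤ c := by omega
  refine ⟨c, by omega, ?_⟩
  intro H F hF t ht z hz
  have hH : 1 ≤ H := hF.one
  obtain ⟨T, hTd⟩ : ∃ T, T = t.natAbs := ⟨_, rfl⟩
  rw [← hTd] at ht
  have hcH1 : c ≤ c * H := Nat.le_mul_of_pos_right c hH
  have hcH2 : H ≤ c * H := Nat.le_mul_of_pos_left H (by omega)
  have hcHT : c * H ≤ T := (Nat.le_self_pow (by omega) (c * H)).trans ht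
  have hcT : c ≤ T := hcH1.trans hcHT
  have hHT : H ≤ T := hcH2.trans hcHT
  have hT1 : 1 ≤ T := by omega
  have hpow : ∀ a, a ≤ c → (a * H) ^ a ≤ T := by
    intro a ha
    calc (a * H) ^ a ≤ (c * H) ^ a := Nat.pow_le_pow_left (Nat.mul_le_mul_right H ha) a
      _ ≤ (c * H) ^ c := Nat.pow_le_pow_right (by omega) ha
      _ ≤ T := ht
  set g := spc F t with hg
  have hgm : g.Monic := hF.monic.map _
  have hgd : g.natDegree = m + 1 := by
    rw [hg, spc, hF.monic.natDegree_map, hF.deg]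
  obtain ⟨Y, hY⟩ : ∃ Y, Y = (σ + 2) * H * T ^ σ := ⟨_, rfl⟩
  have hY1 : 1 ≤ Y := by
    rw [hY]
    exact Nat.mul_pos (Nat.mul_pos (by omega) hH) (Nat.pow_pos hT1)
  have hYc : ∀ i, (g.coeff i).natAbs ≤ Y := by
    intro i
    rw [hY, hTd]
    exact coeff_le hF t (by omega) i
  have hYT : Y ≤ T ^ (σ + 2) := by
    rw [hY]
    calc (σ + 2) * H * T ^ σ ≤ T * T * T ^ σ :=
          Nat.mul_le_mul_right _ (Nat.mul_le_mul (q4.trans hcT) hHT)
      _ = T ^ (σ + 2) := by ring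
  have hcY : (c₃ * Y) ^ c₃ ≤ T ^ E := by
    calc (c₃ * Y) ^ c₃ ≤ (T * T ^ (σ + 2)) ^ c₃ :=
          Nat.pow_le_pow_left (Nat.mul_le_mul (q3.trans hcT) hYT) c₃
      _ = T ^ E := by
          rw [hE, pow_mul]
          congr 1
          ring
  have hsol : Pd.Sol (g ^ M) z := fun n => hz n
  by_cases hz0 : ∀ n, z n = 0
  · exact Or.inl hz0
  right
  intro B hB
  rw [← hTd]
  obtain ⟨δ, v, hδ, hvd, hv, hvc⟩ := k3 g Y hgm hgd hY1 hYc
    (fun v _ hv => k2 H F hF t (by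
      rw [← hTd]
      exact hpow c₂ q2) v hv) z B hsol hB
  obtain ⟨i₀, hi₀⟩ : ∃ i, v i ≠ 0 := by
    by_contra hcon
    push Not at hcon
    apply hz0
    intro n
    have h4 := hv n
    rw [sum_eq_zero (fun i _ => by rw [hcon i]; simp)] at h4
    exact (mul_eq_zero.1 h4).resolve_left hδ
  obtain ⟨K, hK⟩ : ∃ K, K = (c₃ * Y) ^ c₃ * B := ⟨_, rfl⟩
  have hvK : ∀ i l, ((v i).coeff l).natAbs ≤ K := by
    intro i l
    rw [hK]
    exact hvc i l
  have hB1 : 1 ≤ B := by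
    by_contra hcon
    have hB0 : B = 0 := by omega
    apply hi₀
    ext l
    have := hvK i₀ l
    rw [hK, hB0, mul_zero, Nat.le_zero, Int.natAbs_eq_zero] at this
    rw [this, coeff_zero]
  have hKT : K ≤ T ^ E * B := by
    rw [hK]
    exact Nat.mul_le_mul_right B hcY
  have hBT : 1 ≤ B * T := Nat.mul_pos hB1 hT1
  have key : ∀ n, z n = 0 → (∀ i, (v i).eval (n : ℤ) = 0) ∨ T ^ n ≤ (B * T) ^ c := by
    intro n hn
    by_cases ha : ∀ i, (v i).eval (n : ℤ) = 0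
    · exact Or.inl ha
    right
    have h5 := k1 H F hF t (by
      rw [← hTd]
      exact hpow c₁ q1) n (fun i => (v i).eval (n : ℤ)) (by
        intro h
        apply ha
        intro i
        exact congrFun h i) (by
        have h6 := hv n
        rw [hn, mul_zero] at h6
        rw [h6]
        apply sum_congr rfl
        intro i _
        exact mul_comm _ _)
    rw [← hTd] at h5
    refine (num c₁ c M H T n _ B E q0 hH q1 q6 ht hB1 ?_ h5).trans
      (Nat.pow_le_pow_right hBT q7)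
    calc ∑ j, ((v j).eval (n : ℤ)).natAbs ≤ ∑ _j : Fin (m + 1), M * (K * 2 ^ (n * M)) :=
          sum_le_sum fun j _ => eval_le K M n (v j) (hvd j) (hvK j)
      _ = (m + 1) * M * K * 2 ^ (n * M) := by
          rw [sum_const, card_univ, Fintype.card_fin, smul_eq_mul]
          ring
      _ ≤ T * (T ^ E * B) * 2 ^ (n * M) :=
          Nat.mul_le_mul_right _ (Nat.mul_le_mul (q5.trans hcT) hKT)
      _ = T * T ^ E * B * 2 ^ (n * M) := by ring
  constructor
  · intro n hn hzn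
    rcases key n hzn with h | h
    · have h6 := root_le K n _ (v i₀) le_rfl hi₀ (h i₀) (hvK i₀)
      have h7 : K ≤ (B * T) ^ c := by
        calc K ≤ T ^ E * B := hKT
          _ ≤ (B * T) ^ E * (B * T) := by
              apply Nat.mul_le_mul
              · exact Nat.pow_le_pow_left (Nat.le_mul_of_pos_left T hB1) E
              · exact Nat.le_mul_of_pos_right B hT1
          _ = (B * T) ^ (E + 1) := by rw [pow_succ]
          _ ≤ (B * T) ^ c := Nat.pow_le_pow_right hBT q8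
      omega
    · have h6 : n < 2 ^ n := Nat.lt_two_pow_self
      have h7 : 2 ^ n ≤ T ^ n := Nat.pow_le_pow_left (by omega) n
      omega
  · classical
    refine ⟨((v i₀).roots.toFinset).image Int.natAbs, ?_, ?_⟩
    · calc (((v i₀).roots.toFinset).image Int.natAbs).card ≤ (v i₀).roots.toFinset.card :=
            card_image_le
        _ ≤ (v i₀).roots.card := Multiset.toFinset_card_le _
        _ ≤ (v i₀).natDegree := card_roots' _
        _ < M := hvd i₀
    · intro n hn hzn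
      rcases key n hzn with h | h
      · rw [mem_image]
        refine ⟨(n : ℤ), ?_, Int.natAbs_natCast n⟩
        rw [Multiset.mem_toFinset, mem_roots hi₀]
        exact h i₀
      · omega

end Pool.Agent.Work.MP_8d13b5_lc.Fm
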