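import Pool.Agent.Work.MP_8d13b5_lc.Fm.All
import Pool.Agent.Work.MP_8d13b5_lc.Fm.I_CFD
import Pool.Agent.Work.MP_8d13b5_lc.Fm.I_RTB
import Pool.Agent.Work.MP_8d13b5_lc.Fm.I_HEN
import Pool.Agent.Work.MP_8d13b5_lc.Fm.I_HNX
import Pool.Agent.Work.MP_8d13b5_lc.Fm.I_SNM
import Pool.Agent.Work.MP_8d13b5_lc.Fm.I_MUN
import Pool.Agent.Work.MP_8d13b5_lc.Fm.I_INV
import Pool.Agent.Work.MP_8d13b5_lc.Fm.I_UUA
import Pool.Agent.Work.MP_8d13b5_lc.Fm.I_HDQ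
import Pool.Agent.Work.MP_8d13b5_lc.Fm.I_DRF
import Pool.Agent.Work.MP_8d13b5_lc.Fm.I_DEX
import Pool.Agent.Work.MP_8d13b5_lc.Fm.I_DCO
import Pool.Agent.Work.MP_8d13b5_lc.Fm.I_DAT
import Pool.Agent.Work.MP_8d13b5_lc.Fm.I_FLA
import Pool.Agent.Work.MP_8d13b5_lc.Fm.I_FLD
import Pool.Agent.Work.MP_8d13b5_lc.Fm.I_ELI
import Pool.Agent.Work.MP_8d13b5_lc.Fm.I_CNT
import Pool.Agent.Work.MP_8d13b5_lc.Fm.I_VAN
import Pool.Agent.Work.MP_8d13b5_lc.Fm.I_VFD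
import Pool.Agent.Work.MP_8d13b5_lc.Fm.I_VWR
import Pool.Agent.Work.MP_8d13b5_lc.Fm.I_VG1
import Pool.Agent.Work.MP_8d13b5_lc.Fm.I_VNZ
import Pool.Agent.Work.MP_8d13b5_lc.Fm.I_CRS
import Pool.Agent.Work.MP_8d13b5_lc.Fm.I_XPI
import Pool.Agent.Work.MP_8d13b5_lc.Fm.I_WT3
import Pool.Agent.Work.MP_8d13b5_lc.Fm.I_XEE
import Pool.Agent.Work.MP_8d13b5_lc.Fm.I_XLO
import Pool.Agent.Work.MP_8d13b5_lc.Fm.I_XG2
import Pool.Agent.Work.MP_8d13b5_lc.Fm.I_XDI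
import Pool.Agent.Work.MP_8d13b5_lc.Fm.I_XUU
import Pool.Agent.Work.MP_8d13b5_lc.Fm.I_XVE
import Pool.Agent.Work.MP_8d13b5_lc.Fm.I_CO3
import Pool.Agent.Work.MP_8d13b5_lc.Fm.I_EN3
import Pool.Agent.Work.MP_8d13b5_lc.Fm.I_XTH
import Pool.Agent.Work.MP_8d13b5_lc.Fm.I_XSQ
import Pool.Agent.Work.MP_8d13b5_lc.Fm.I_XFI
import Pool.Agent.Work.MP_8d13b5_lc.Fm.I_XIZ
import Pool.Agent.Work.MP_8d13b5_lc.Fm.I_NPY
import Pool.Agent.Work.MP_8d13b5_lc.Fm.I_KRY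
import Pool.Agent.Work.MP_8d13b5_lc.Fm.I_ADY
import Pool.Agent.Work.MP_8d13b5_lc.Fm.I_ZRY
import Pool.Agent.Work.MP_8d13b5_lc.Fm.I_ZR0
import Pool.Agent.Work.MP_8d13b5_lc.Fm.I_XDE
import Pool.Agent.Work.MP_8d13b5_lc.Fm.I_YDE
import Pool.Agent.Work.MP_8d13b5_lc.Fm.I_RDC
import Pool.Agent.Work.MP_8d13b5_lc.Fm.I_SBY
import Pool.Agent.Work.MP_8d13b5_lc.Fm.I_FNA
import Pool.Agent.Work.MP_8d13b5_lc.Fm.I_FND
import Pool.Agent.Work.MP_8d13b5_lc.Fm.I_EQ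

set_option autoImplicit false

/-! The statements of `StmtsX`, `StmtsY`, proved (from `StRDA`). -/

namespace Pool.Agent.Work.MP_8d13b5_lc.Fm

theorem xVFD : StVFD := prVFD prFLA
theorem xDAT : StDAT := prDAT prDRF prDEX prDCO
theorem xELI : StELI := prELI prFLA
theorem xCNT : StCNT := prCNT prFLA
theorem xVAN : StVAN := prVAN prFLA
theorem xVWR : StVWR := prVWR xVFD prFLD xDAT xELI xCNT xVAN
theorem xVG1 : StVG1 := prVG1 prPN tSIE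
theorem xCRS : StCRS := prCRS tSIE
theorem xXPI : StXPI := prXPI xCRS prPN
theorem xWT3 : StWT3 := prWT3 prCFD
theorem xXEE : StXEE := prXEE xWT3 prCFD
theorem xXLO : StXLO := prXLO prRTB prCFD
theorem xXG2 : StXG2 := prXG2 tGAP xVWR xVG1 prCFD
theorem xXDI : StXDI := prXDI prPN
theorem xHNX : StHNX := prHNX prHEN
theorem xXUU : StXUU := prXUU prPN xXDI xHNX prSNM prMUN prINV prUUA
theorem xXVE : StXVE := prXVE xXG2 xXUU prCRA prHDQ prPN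
theorem xEN3 : StEN3 := prEN3 prEXC prCRA
theorem xXTH : StXTH := prXTH xXPI xXEE xXLO xXVE prCO3 xEN3 prCFD prVNZ
theorem xXSQ : StXSQ := prXSQ xXTH prCFD
theorem xXFI : StXFI := prXFI xXSQ
theorem xXIZ : StXIZ := prXIZ xXTH
theorem xXDE : StXDE := prXDE xXFI prDEC
theorem xKRY : StKRY := prKRY xXIZ
theorem xADY : StADY := prADY prNPY
theorem xZRY : StZRY := prZRY xXIZ xKRY xADY
theorem xZR0 : StZR0 := prZR0 xADY
theorem xYDE : StYDE := prYDE xZRY xZR0 prDEC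
theorem xRDC (hRDA : StRDA) : StRDC := prRDC hRDA
theorem xFNA (hRDA : StRDA) : StFNA := prFNA (xRDC hRDA) prSBY xZRY xZR0
theorem xFND (hRDA : StRDA) : StFND := prFND (xFNA hRDA) prDEC

end Pool.Agent.Work.MP_8d13b5_lc.Fm
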