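import Pool.Agent.Work.MP_8d13b5_lc.Fm.StmtsFz
import Pool.Agent.Work.MP_8d13b5_lc.Fm.I_CFD

set_option autoImplicit false

/-! Item ADZ: solutions of the recurrence of `∏ g.scaleRoots (θ_j)` as combinations of the
solutions of `g` whose coefficients are solutions of `∏ (X - θ_j)`, with sizes. -/

namespace Pool.Agent.Work.MP_8d13b5_lc.Fm

open Polynomial NumberField Finset Module

namespace ADZ

/-! ### sizes of the basic solutions -/

theorem cf_size {R : Type} [CommRing R] [Nontrivial R] (ψ : R →+* ℂ) (m : ℕ) (g : R[X])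
    (hg : g.Monic) (hd : g.natDegree = m + 1) (Y : ℝ) (hY : 0 ≤ Y)
    (hc : ∀ i, ‖ψ (g.coeff i)‖ ≤ Y) : ∀ n, ∀ j ≤ m, ‖ψ (Pd.cf g n j)‖ ≤ (1 + Y) ^ n := by
  intro n
  induction n with
  | zero =>
    intro j _
    rw [CFD.init hg hd, pow_zero]
    split_ifs <;> simp
  | succ n ih =>
    intro j hj
    have hE : 0 ≤ (1 + Y) ^ n := by positivity
    have hmul : ∀ i, ‖ψ (Pd.cf g n m * g.coeff i)‖ ≤ (1 + Y) ^ n * Y := by
      intro i
      rw [map_mul, norm_mul]
      exact mul_le_mul (ih m le_rfl) (hc i) (norm_nonneg _) hE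
    rw [pow_succ]
    rcases j with _ | j
    · rw [CFD.rec0 hg hd, map_neg, norm_neg]
      have := hmul 0
      nlinarith
    · rw [CFD.recS hg hd, map_sub]
      have h1 := norm_sub_le (ψ (Pd.cf g n j)) (ψ (Pd.cf g n m * g.coeff (j + 1)))
      have h2 := hmul (j + 1)
      have h3 := ih j (by omega)
      nlinarith

theorem cf_size' {R : Type} [CommRing R] [Nontrivial R] (ψ : R →+* ℂ) (g : R[X])
    (hg : g.Monic) (Y : ℝ) (hY : 0 ≤ Y) (hc : ∀ i, ‖ψ (g.coeff i)‖ ≤ Y) (n j : ℕ)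
    (hj : j < g.natDegree) : ‖ψ (Pd.cf g n j)‖ ≤ (1 + Y) ^ n := by
  obtain ⟨m, hm⟩ : ∃ m, g.natDegree = m + 1 := ⟨g.natDegree - 1, by omega⟩
  exact cf_size ψ m g hg hm Y hY hc n j (by omega)

section mat

variable {R : Type} [CommRing R] (m r : ℕ) (g f : R[X])

/-- the number of the row -/
def en (ρ : Fin (m + 1) × Fin r) : ℕ := (finProdFinEquiv ρ : Fin ((m + 1) * r))

theorem en_lt (ρ : Fin (m + 1) × Fin r) : en m r ρ < (m + 1) * r := (finProdFinEquiv ρ).2

theorem en_surj (n : ℕ) (hn : n < (m + 1) * r) : ∃ ρ, en m r ρ = n := by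
  refine ⟨finProdFinEquiv.symm ⟨n, hn⟩, ?_⟩
  unfold en
  rw [Equiv.apply_symm_apply]

/-- the matrix -/
noncomputable def Am : Matrix (Fin (m + 1) × Fin r) (Fin (m + 1) × Fin r) R :=
  fun ρ c => Pd.cf g (en m r ρ) (c.1 : ℕ) * Pd.cf f (en m r ρ) (c.2 : ℕ)

variable {m r}

/-- the sequences given by a vector -/
noncomputable def vs (w : Fin (m + 1) × Fin r → R) (i : Fin (m + 1)) (n : ℕ) : R :=
  ∑ l : Fin r, w (i, l) * Pd.cf f n (l : ℕ)

theorem vs_sol (hf : f.Monic) (w : Fin (m + 1) × Fin r → R) (i : Fin (m + 1)) :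
    Pd.Sol f (vs f w i) :=
  Pd.Sol.sum _ fun l _ => (Pd.cf_sol hf (l : ℕ)).smul (w (i, l))

theorem vs_init [Nontrivial R] (hf : f.Monic) (hd : f.natDegree = r)
    (w : Fin (m + 1) × Fin r → R) (i : Fin (m + 1)) (l : Fin r) : vs f w i l = w (i, l) := by
  unfold vs
  have h : ∀ l' : Fin r, w (i, l') * Pd.cf f (l : ℕ) (l' : ℕ) = if l' = l then w (i, l') else 0 := by
    intro l'
    rw [Pd.cf_init hf (by rw [hd]; exact l.2)]
    by_cases h1 : l' = l
    · rw [if_pos h1, if_pos (congrArg Fin.val h1), mul_one]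
    · rw [if_neg h1, if_neg (fun h2 => h1 (Fin.ext h2)), mul_zero]
  rw [Finset.sum_congr rfl fun l' _ => h l', Finset.sum_ite_eq' Finset.univ l,
    if_pos (Finset.mem_univ l)]

/-- the sequence given by a vector -/
noncomputable def sq (w : Fin (m + 1) × Fin r → R) (n : ℕ) : R :=
  ∑ i : Fin (m + 1), Pd.cf g n i * vs f w i n

theorem mulVec_eq (w : Fin (m + 1) × Fin r → R) (ρ : Fin (m + 1) × Fin r) :
    (Am m r g f).mulVec w ρ = sq g f w (en m r ρ) := by
  unfold sq vs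
  simp only [Matrix.mulVec, dotProduct, Am, Fintype.sum_prod_type, Finset.mul_sum]
  refine Finset.sum_congr rfl fun i _ => Finset.sum_congr rfl fun l _ => ?_
  ring

end mat

theorem f_monic {R : Type} [CommRing R] {r : ℕ} (θ : Fin r → R) :
    (∏ j, (X - C (θ j)) : R[X]).Monic := monic_prod_of_monic _ _ fun j _ => monic_X_sub_C (θ j)

theorem f_deg {R : Type} [CommRing R] [Nontrivial R] {r : ℕ} (θ : Fin r → R) :
    (∏ j, (X - C (θ j)) : R[X]).natDegree = r := by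
  rw [natDegree_prod_of_monic _ _ fun j _ => monic_X_sub_C (θ j)]
  simp

theorem G_monic {R : Type} [CommRing R] {r : ℕ} (θ : Fin r → R) (g : R[X]) (hg : g.Monic) :
    (∏ j, g.scaleRoots (θ j) : R[X]).Monic :=
  monic_prod_of_monic _ _ fun j _ => (monic_scaleRoots_iff (θ j)).2 hg

theorem G_deg {R : Type} [CommRing R] [Nontrivial R] {r m : ℕ} (θ : Fin r → R) (g : R[X])
    (hg : g.Monic) (hd : g.natDegree = m + 1) :
    (∏ j, g.scaleRoots (θ j) : R[X]).natDegree = (m + 1) * r := by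
  rw [natDegree_prod_of_monic _ _ fun j _ => (monic_scaleRoots_iff (θ j)).2 hg]
  simp only [natDegree_scaleRoots, hd, Finset.sum_const, Finset.card_univ, Fintype.card_fin,
    smul_eq_mul]
  ring

theorem sq_sol {R : Type} [CommRing R] [Nontrivial R] {r m : ℕ} (hPRZ : StPRZ) (θ : Fin r → R)
    (g : R[X]) (hg : g.Monic) (w : Fin (m + 1) × Fin r → R) :
    Pd.Sol (∏ j, g.scaleRoots (θ j)) (sq g (∏ j, (X - C (θ j))) w) :=
  Pd.Sol.sum _ fun i _ => hPRZ R g r θ (fun n => Pd.cf g n i) _ hg (Pd.cf_sol hg i)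
    (vs_sol _ (f_monic θ) w i)

theorem det_ne {R : Type} [CommRing R] [IsDomain R] {r m : ℕ} (hPRZ : StPRZ) (θ : Fin r → R)
    (g : R[X]) (hg : g.Monic) (hd : g.natDegree = m + 1)
    (hv : ∀ v : Fin (m + 1) → ℕ → R, (∀ i, Pd.Sol (∏ j, (X - C (θ j))) (v i)) →
      (∀ n : ℕ, ∑ i : Fin (m + 1), Pd.cf g n i * v i n = 0) → v = 0) :
    (Am m r g (∏ j, (X - C (θ j)))).det ≠ 0 := by
  intro hdet
  obtain ⟨w, hw, hw0⟩ := Matrix.exists_mulVec_eq_zero_iff.2 hdet
  apply hw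
  have hsol := sq_sol hPRZ θ g hg w
  have hinit : ∀ n < (∏ j, g.scaleRoots (θ j) : R[X]).natDegree,
      sq g (∏ j, (X - C (θ j))) w n = 0 := by
    intro n hn
    rw [G_deg θ g hg hd] at hn
    obtain ⟨ρ, rfl⟩ := en_surj m r n hn
    rw [← mulVec_eq, hw0]
    rfl
  have hz := hsol.eq_zero (G_monic θ g hg) hinit
  have hvs := hv (vs (∏ j, (X - C (θ j))) w) (vs_sol _ (f_monic θ) w) hz
  funext c
  obtain ⟨i, l⟩ := c
  have h2 := vs_init _ (f_monic θ) (f_deg θ) w i l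
  rw [hvs] at h2
  exact h2.symm

/-- the numerical estimate -/
theorem num (N : ℕ) (L Y B : ℝ) (hL : 0 ≤ L) (hY : 1 ≤ Y) (hB : 0 ≤ B) :
    (N : ℝ) * ((N.factorial : ℝ) * ((2 * Y) ^ N * (1 + L) ^ N) ^ N) * B ≤
      (((N : ℝ) * N.factorial + 1) * (2 * (1 + L)) * Y) ^ (N * N + 1) * B := by
  refine mul_le_mul_of_nonneg_right ?_ hB
  have e : (N : ℝ) * ((N.factorial : ℝ) * ((2 * Y) ^ N * (1 + L) ^ N) ^ N) =
      ((N : ℝ) * N.factorial) * ((2 * (1 + L)) * Y) ^ (N * N) := by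
    rw [← mul_pow, ← pow_mul]
    ring
  have hA : 0 ≤ (N : ℝ) * N.factorial := by positivity
  have hZ : 1 ≤ (2 * (1 + L)) * Y := by nlinarith
  rw [e, mul_assoc ((N : ℝ) * N.factorial + 1), mul_pow ((N : ℝ) * N.factorial + 1)]
  refine mul_le_mul ?_ ?_ (by positivity) (by positivity)
  · calc (N : ℝ) * N.factorial ≤ ((N : ℝ) * N.factorial + 1) ^ 1 := by rw [pow_one]; linarith
      _ ≤ ((N : ℝ) * N.factorial + 1) ^ (N * N + 1) :=
          pow_le_pow_right₀ (by linarith) (by omega)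
  · exact pow_le_pow_right₀ hZ (by omega)

end ADZ

theorem prADZ (hPRZ : StPRZ) : StADZ := by
  intro K _ _ m r θ
  set f : (𝓞 K)[X] := ∏ j, (X - C (θ j)) with hfdef
  have hf : f.Monic := ADZ.f_monic θ
  have hfd : f.natDegree = r := ADZ.f_deg θ
  set N : ℕ := (m + 1) * r with hN
  set L : ℝ := ∑ φ : K →+* ℂ, ∑ i ∈ range (r + 1), ‖res φ (f.coeff i)‖ with hL
  have hL0 : 0 ≤ L := Finset.sum_nonneg fun φ _ => Finset.sum_nonneg fun i _ => norm_nonneg _
  have hfL : ∀ (φ : K →+* ℂ) i, ‖res φ (f.coeff i)‖ ≤ L := by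
    intro φ i
    by_cases hi : i < r + 1
    · have h1 : ‖res φ (f.coeff i)‖ ≤ ∑ i ∈ range (r + 1), ‖res φ (f.coeff i)‖ :=
        Finset.single_le_sum (f := fun i => ‖res φ (f.coeff i)‖)
          (fun i _ => norm_nonneg _) (mem_range.2 hi)
      have h2 : ∑ i ∈ range (r + 1), ‖res φ (f.coeff i)‖ ≤ L :=
        Finset.single_le_sum (f := fun φ : K →+* ℂ => ∑ i ∈ range (r + 1), ‖res φ (f.coeff i)‖)
          (fun φ _ => Finset.sum_nonneg fun i _ => norm_nonneg _) (Finset.mem_univ φ)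
      exact h1.trans h2
    · rw [coeff_eq_zero_of_natDegree_lt (by omega), map_zero, norm_zero]
      exact hL0
  refine ⟨((N : ℝ) * N.factorial + 1) * (2 * (1 + L)), N * N + 1, ?_, ?_⟩
  · have : 0 ≤ (N : ℝ) * N.factorial := by positivity
    nlinarith
  intro g Y hg hd hY hc hv z hz
  have hcard : Fintype.card (Fin (m + 1) × Fin r) = N := by
    rw [Fintype.card_prod, Fintype.card_fin, Fintype.card_fin]
  set A := ADZ.Am m r g f with hA
  set b : Fin (m + 1) × Fin r → 𝓞 K := fun ρ => z (ADZ.en m r ρ) with hb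
  set w : Fin (m + 1) × Fin r → 𝓞 K := A.adjugate.mulVec b with hw
  refine ⟨A.det, ADZ.vs f w, ADZ.det_ne hPRZ θ g hg hd hv, ADZ.vs_sol f hf w, ?_, ?_⟩
  · -- the identity
    have hAw : A.mulVec w = A.det • b := by
      rw [hw, Matrix.mulVec_mulVec, Matrix.mul_adjugate, Matrix.smul_mulVec, Matrix.one_mulVec]
    have hs1 : Pd.Sol (∏ j, g.scaleRoots (θ j)) (fun n => A.det * z n) := hz.smul A.det
    have hs2 := ADZ.sq_sol hPRZ θ g hg w
    intro n
    refine Pd.Sol.ext (ADZ.G_monic θ g hg) hs1 hs2 ?_ n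
    intro n hn
    rw [ADZ.G_deg θ g hg hd] at hn
    obtain ⟨ρ, rfl⟩ := ADZ.en_surj m r n hn
    rw [← ADZ.mulVec_eq, ← hfdef, ← hA, hAw]
    rfl
  · -- sizes
    intro B hB φ i l hl
    have hN0 : 0 < N := by
      rw [hN]
      exact Nat.mul_pos (by omega) (by omega)
    have hB0 : 0 ≤ B := (norm_nonneg _).trans (hB φ 0 hN0)
    have hE1 : (1 : ℝ) ≤ (2 * Y) ^ N * (1 + L) ^ N := by
      have ha : (1 : ℝ) ≤ (2 * Y) ^ N := one_le_pow₀ (by linarith)
      have hb : (1 : ℝ) ≤ (1 + L) ^ N := one_le_pow₀ (by linarith)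
      nlinarith
    have hent : ∀ ρ c, ‖res φ (A ρ c)‖ ≤ (2 * Y) ^ N * (1 + L) ^ N := by
      intro ρ c
      have hr := ADZ.en_lt m r ρ
      rw [hA]
      unfold ADZ.Am
      rw [map_mul, norm_mul]
      refine mul_le_mul ?_ ?_ (norm_nonneg _) (by positivity)
      · refine (ADZ.cf_size (res φ) m g hg hd Y (by linarith) (hc φ) _ _ (by omega)).trans ?_
        calc (1 + Y) ^ ADZ.en m r ρ ≤ (2 * Y) ^ ADZ.en m r ρ :=
              pow_le_pow_left₀ (by linarith) (by linarith) _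
          _ ≤ (2 * Y) ^ N := pow_le_pow_right₀ (by linarith) (by omega)
      · refine (ADZ.cf_size' (res φ) f hf L hL0 (hfL φ) _ _ (by rw [hfd]; exact c.2.2)).trans ?_
        exact pow_le_pow_right₀ (by linarith) (by omega)
    have hadj : ∀ ρ c, ‖res φ (A.adjugate ρ c)‖ ≤
        (N.factorial : ℝ) * ((2 * Y) ^ N * (1 + L) ^ N) ^ N := by
      intro ρ c
      rw [Matrix.adjugate_apply, RingHom.map_det]
      have h := Matrix.det_le (A := (res φ).mapMatrix (A.updateRow c (Pi.single ρ 1)))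
        (abv := NormedField.toAbsoluteValue ℂ) (x := (2 * Y) ^ N * (1 + L) ^ N) (by
          intro i j
          show ‖(res φ).mapMatrix (A.updateRow c (Pi.single ρ 1)) i j‖ ≤ _
          rw [RingHom.mapMatrix_apply, Matrix.map_apply, Matrix.updateRow_apply]
          split_ifs with hi
          · rw [Pi.single_apply]
            split_ifs
            · rw [map_one, norm_one]; exact hE1
            · rw [map_zero, norm_zero]; linarith
          · exact hent i j)
      rw [hcard, nsmul_eq_mul] at h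
      exact h
    have hbB : ∀ ρ, ‖res φ (b ρ)‖ ≤ B := fun ρ => hB φ _ (ADZ.en_lt m r ρ)
    have hwB : ∀ ρ, ‖res φ (w ρ)‖ ≤
        (N : ℝ) * ((N.factorial : ℝ) * ((2 * Y) ^ N * (1 + L) ^ N) ^ N) * B := by
      intro ρ
      rw [hw]
      simp only [Matrix.mulVec, dotProduct]
      rw [map_sum]
      refine (norm_sum_le _ _).trans ?_
      have h2 : ∀ c ∈ (Finset.univ : Finset (Fin (m + 1) × Fin r)),
          ‖res φ (A.adjugate ρ c * b c)‖ ≤
          ((N.factorial : ℝ) * ((2 * Y) ^ N * (1 + L) ^ N) ^ N) * B := by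
        intro c _
        rw [map_mul, norm_mul]
        exact mul_le_mul (hadj ρ c) (hbB c) (norm_nonneg _) (by positivity)
      refine (Finset.sum_le_card_nsmul _ _ _ h2).trans (le_of_eq ?_)
      rw [Finset.card_univ, hcard, nsmul_eq_mul]
      ring
    have h3 := ADZ.vs_init f hf hfd w i ⟨l, hl⟩
    have h4 : ADZ.vs f w i l = w (i, ⟨l, hl⟩) := h3
    rw [h4]
    exact (hwB _).trans (ADZ.num N L Y B hL0 hY hB0)

end Pool.Agent.Work.MP_8d13b5_lc.Fm
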