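import Pool.Agent.Work.MP_8d13b5_lc.Fm.StmtsFz
import Pool.Agent.Work.MP_8d13b5_lc.Fm.I_FND

set_option autoImplicit false

/-! Block `Fm`, item FDU: one decision procedure for all families. -/

namespace Pool.Agent.Work.MP_8d13b5_lc.Fm

open Polynomial NumberField Finset Module

namespace FDU

/-- the value of a list of coefficients (Horner) -/
def ev (t : ℤ) (l : List ℤ) : ℤ := l.foldr (fun a b => a + t * b) 0

/-- the coefficients of the recurrence -/
def cl (y : List (List ℤ) × ℤ) : List ℤ := (y.1.map fun l => -1 * ev y.2 l).reverse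

theorem primrec_ev : Primrec₂ (fun (t : ℤ) (l : List ℤ) => ev t l) := by
  have h : Primrec fun y : ℤ × List ℤ => y.2.foldr (fun b s => b + y.1 * s) 0 := by
    refine Primrec.list_foldr (f := fun y : ℤ × List ℤ => y.2) (g := fun _ => (0 : ℤ))
      (h := fun y (q : ℤ × ℤ) => q.1 + y.1 * q.2) Primrec.snd (Primrec.const 0) ?_
    refine (primrec_int_add.comp (Primrec.fst.comp Primrec.snd)
      (primrec_int_mul.comp (Primrec.fst.comp Primrec.fst) (Primrec.snd.comp Primrec.snd))).to₂
  exact h.to₂

theorem primrec_cl : Primrec cl := by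
  refine Primrec.list_reverse.comp ?_
  refine Primrec.list_map (f := fun y : List (List ℤ) × ℤ => y.1)
    (g := fun y l => -1 * ev y.2 l) Primrec.fst ?_
  exact (primrec_int_mul.comp (Primrec.const (-1))
    (primrec_ev.comp (Primrec.snd.comp Primrec.fst) Primrec.snd)).to₂

/-- a bound for the least zero -/
def bd (x : (List ℤ × List ℤ) × ℕ) : ℕ :=
  (Nat.unpair x.2).1 * ((Pd.size x.1 * (Nat.unpair x.2).2) ^ (Nat.unpair x.2).1 + 2)

theorem primrec_bd : Primrec bd := by
  have hs : Primrec (fun x : (List ℤ × List ℤ) × ℕ => Pd.size x.1) :=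
    Pd.primrec_size.comp Primrec.fst
  have hb : Primrec (fun x : (List ℤ × List ℤ) × ℕ => (Nat.unpair x.2).1) :=
    Primrec.fst.comp (Primrec.unpair.comp Primrec.snd)
  have ht : Primrec (fun x : (List ℤ × List ℤ) × ℕ => (Nat.unpair x.2).2) :=
    Primrec.snd.comp (Primrec.unpair.comp Primrec.snd)
  have h1 : Primrec (fun x : (List ℤ × List ℤ) × ℕ =>
      (Pd.size x.1 * (Nat.unpair x.2).2) ^ (Nat.unpair x.2).1) :=
    (show Primrec₂ (fun a b : ℕ => a ^ b) from Primrec₂.unpaired'.1 Nat.Primrec.pow).comp
      (Primrec.nat_mul.comp hs ht) hb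
  exact Primrec.nat_mul.comp hb (Primrec.nat_add.comp h1 (Primrec.const 2))

/-- the polynomial of a list -/
noncomputable def pl (l : List ℤ) : ℤ[X] := ∑ j ∈ range l.length, C (l.getD j 0) * X ^ j

theorem eval_pl (t : ℤ) (l : List ℤ) : (pl l).eval t = ev t l := by
  induction l with
  | nil => simp [pl, ev]
  | cons a l ih =>
    have h1 : (pl (a :: l)).eval t = a + t * (pl l).eval t := by
      unfold pl
      rw [eval_finsetSum, eval_finsetSum, List.length_cons, Finset.sum_range_succ']
      simp only [eval_mul, eval_C, eval_pow, eval_X, List.getD_cons_zero, List.getD_cons_succ,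
        pow_zero, mul_one]
      rw [mul_sum, add_comm]
      congr 1
      refine Finset.sum_congr rfl fun j _ => ?_
      ring
    rw [h1, ih]
    rfl

theorem pol_eq (L : List (List ℤ)) :
    pol L = X ^ L.length + ∑ i ∈ range L.length, C (pl (L.getD i [])) * X ^ i := rfl

theorem deg_lt (L : List (List ℤ)) :
    (∑ i ∈ range L.length, C (pl (L.getD i [])) * X ^ i : ℤ[X][X]).degree < L.length := by
  refine (degree_sum_le _ _).trans_lt ?_
  refine (Finset.sup_lt_iff (WithBot.bot_lt_coe _)).2 fun i hi => ?_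
  refine (degree_C_mul_X_pow_le _ _).trans_lt ?_
  exact_mod_cast mem_range.1 hi

theorem natDegree_pol (L : List (List ℤ)) : (pol L).natDegree = L.length := by
  rw [pol_eq]
  exact natDegree_eq_of_degree_eq_some (by
    rw [degree_add_eq_left_of_degree_lt]
    · exact degree_X_pow _
    · rw [degree_X_pow]
      exact deg_lt L)

theorem coeff_pol (L : List (List ℤ)) (i : ℕ) (hi : i < L.length) :
    (pol L).coeff i = pl (L.getD i []) := by
  rw [pol_eq, coeff_add, coeff_X_pow, if_neg hi.ne, zero_add, finsetSum_coeff]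
  simp only [coeff_C_mul_X_pow]
  rw [Finset.sum_ite_eq, if_pos (mem_range.2 hi)]

theorem cl_eq (L : List (List ℤ)) (t : ℤ) : cl (L, t) = FND.cl (pol L) (FND.ix L.length) t := by
  refine List.ext_getElem ?_ ?_
  · simp [cl, FND.cl, FND.ix]
  · intro j h1 h2
    have hj : j < L.length := by simpa [cl] using h1
    have hj' : L.length - 1 - j < L.length := by omega
    simp only [cl, FND.cl, FND.ix, List.getElem_reverse, List.getElem_map, List.length_map,
      List.getElem_range]
    rw [coeff_pol L _ hj', eval_pl, List.getD_eq_getElem _ _ hj']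

/-- an integer larger than all coefficients is not a root -/
theorem no_root (H : ℕ) (t : ℤ) (ht : H < t.natAbs) : ∀ (n : ℕ) (P : ℤ[X]), P.natDegree ≤ n →
    P ≠ 0 → (∀ j, (P.coeff j).natAbs ≤ H) → P.eval t ≠ 0 := by
  intro n
  induction n with
  | zero =>
    intro P hd hP _ h0
    have h1 : P = C (P.coeff 0) := eq_C_of_natDegree_le_zero hd
    rw [h1, eval_C] at h0
    apply hP
    rw [h1, h0, C_0]
  | succ n ih =>
    intro P hd hP hc h0
    have ht0 : t ≠ 0 := by
      rintro rfl
      simp at ht
    have h1 := divX_mul_X_add P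
    have h2 : P.divX.eval t * t + P.coeff 0 = 0 := by
      have := congrArg (fun Q : ℤ[X] => Q.eval t) h1
      simp only [eval_add, eval_mul, eval_X, eval_C] at this
      rw [this, h0]
    by_cases h3 : P.coeff 0 = 0
    · rw [h3, add_zero] at h2
      have h4 : P.divX.eval t = 0 := by
        rcases mul_eq_zero.1 h2 with h | h
        · exact h
        · exact absurd h ht0
      refine ih P.divX ?_ ?_ ?_ h4
      · rw [natDegree_divX_eq_natDegree_tsub_one]
        omega
      · intro h5
        apply hP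
        rw [← h1, h5, h3]
        simp
      · intro j
        rw [coeff_divX]
        exact hc _
    · have h4 : t ∣ P.coeff 0 := ⟨-(P.divX.eval t), by linarith [h2, mul_comm t (P.divX.eval t)]⟩
      have h5 := Nat.le_of_dvd (Int.natAbs_pos.2 h3) (Int.natAbs_dvd_natAbs.2 h4)
      have h6 := hc 0
      omega

end FDU

theorem prFDU (hFNU : StFNU) (hDEC : StDEC) : StFDU := by
  obtain ⟨M, hM, hM'⟩ := hDEC FDU.bd FDU.primrec_bd
    (fun B p u => (∃ n, u n = 0) → ∃ n < FDU.bd (p, B), u n = 0)
    (fun B p u _ h hz => h hz)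
  refine ⟨fun y => M ((FDU.cl (y.1.1, y.2.1), y.1.2), Nat.pair y.2.2 y.2.1.natAbs), ?_, ?_⟩
  · refine hM.comp (Primrec.pair (Primrec.pair (FDU.primrec_cl.comp (Primrec.pair ?_ ?_)) ?_) ?_)
    · exact Primrec.fst.comp Primrec.fst
    · exact Primrec.fst.comp Primrec.snd
    · exact Primrec.snd.comp Primrec.fst
    · exact Primrec₂.natPair.comp (Primrec.snd.comp Primrec.snd)
        (primrec_natAbs.comp (Primrec.fst.comp Primrec.snd))
  · intro d σ hd
    obtain ⟨N, c, hN, hc, hz⟩ := hFNU d σ hd
    refine ⟨N + c + 2, fun B hB H L hL hNI t ht x u hx hxu hu => ?_⟩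
    have hH := hL.one
    have hlen : L.length = d := by rw [← FDU.natDegree_pol, hL.deg]
    have hBH : 2 ≤ B * H := by
      calc 2 ≤ B := by omega
        _ = B * 1 := (mul_one B).symm
        _ ≤ B * H := Nat.mul_le_mul_left _ hH
    have htH : H < t.natAbs := by
      have h1 : B * H ≤ (B * H) ^ B := Nat.le_self_pow (by omega) _
      have h2 : H < B * H := by
        calc H < 2 * H := by omega
          _ ≤ B * H := Nat.mul_le_mul_right _ (by omega)
      omega
    have hct : (c * H) ^ c ≤ t.natAbs := by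
      refine le_trans ?_ ht
      calc (c * H) ^ c ≤ (B * H) ^ c :=
            Nat.pow_le_pow_left (Nat.mul_le_mul_right _ (by omega)) _
        _ ≤ (B * H) ^ B := Nat.pow_le_pow_right (by omega) (by omega)
    have h0 : ((pol L).coeff 0).eval t ≠ 0 :=
      FDU.no_root H t htH _ _ le_rfl hL.ne (hL.ht 0)
    have hseq := FND.isSeq (pol L) hL.monic (by rw [hL.deg]; exact hd) t h0 u x hu
      (by rw [hL.deg]; exact hx) (by rw [hL.deg]; exact hxu)
    have hcl : FDU.cl (L, t) = FND.cl (pol L) (FND.ix (pol L).natDegree) t := by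
      rw [FDU.natDegree_pol, FDU.cl_eq]
    rw [← hcl] at hseq
    refine hM' (Nat.pair B t.natAbs) _ u hseq ?_
    rintro ⟨n, hn⟩
    set p : List ℤ × List ℤ := (FDU.cl (L, t), x) with hp
    have hbd : FDU.bd (p, Nat.pair B t.natAbs) = B * ((Pd.size p * t.natAbs) ^ B + 2) := by
      unfold FDU.bd
      rw [Nat.unpair_pair]
    rw [hbd]
    obtain ⟨M', hM1, _, _, hz'⟩ := hz H (pol L) hL hNI
    have hqN : n % N < N := Nat.mod_lt _ (by omega)
    have hnq : n = n % N + N * (n / N) := (Nat.mod_add_div n N).symm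
    rcases hz' t hct u hu (n % N) hqN with h3 | h3
    · refine ⟨n % N, ?_, ?_⟩
      · calc n % N < N := hqN
          _ ≤ B * 1 := by omega
          _ ≤ B * ((Pd.size p * t.natAbs) ^ B + 2) := Nat.mul_le_mul_left _ (by omega)
      · have := h3 0
        rwa [Nat.mul_zero, Nat.add_zero] at this
    · have h4 : ∀ i < d, (u i).natAbs ≤ Pd.size p := by
        intro i hi
        rw [hxu i hi]
        refine (Pd.natAbs_getD_le x i).trans ?_
        unfold Pd.size
        exact Nat.le_add_left _ _
      have h5 := (h3 (Pd.size p) h4).1 (n / N)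
      have h6 : n / N ≤ (Pd.size p * t.natAbs) ^ c := by
        by_contra h7
        exact h5 (not_le.1 h7) (by rw [← hnq]; exact hn)
      have hs1 : 1 ≤ Pd.size p := by
        have h7 : (FDU.cl (L, t)).length = d := by simp [FDU.cl, hlen]
        unfold Pd.size
        show 1 ≤ (FDU.cl (L, t)).length + _ + _
        omega
      have hst : 0 < Pd.size p * t.natAbs := Nat.mul_pos hs1 (by omega)
      have h6' : n / N ≤ (Pd.size p * t.natAbs) ^ B :=
        h6.trans (Nat.pow_le_pow_right hst (by omega))
      refine ⟨n, ?_, hn⟩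
      have h8 : N * (n / N) ≤ B * (Pd.size p * t.natAbs) ^ B :=
        Nat.mul_le_mul (by omega) h6'
      have h9 : B * ((Pd.size p * t.natAbs) ^ B + 2) =
          B * (Pd.size p * t.natAbs) ^ B + B * 2 := Nat.mul_add _ _ _
      omega

end Pool.Agent.Work.MP_8d13b5_lc.Fm
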