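import Pool.Agent.Work.MP_8d13b5_lc.Fm.StmtsFz
import Pool.Agent.Work.MP_8d13b5_lc.Fm.I_FNA

set_option autoImplicit false

/-! Item FNU: every family, zeros, uniform in the family. -/

namespace Pool.Agent.Work.MP_8d13b5_lc.Fm

open Polynomial NumberField Finset Module

namespace FNU

/-- growth, uniform -/
theorem grow_u (d σ H : ℕ) (F : ℤ[X][X]) (hF : IsDH d σ H F) (L : ℕ) (t : ℤ)
    (ht : 1 + d * ((σ + 1) * H) ≤ t.natAbs) (u : ℕ → ℤ) (hu : Rec (RingHom.id ℤ) (spc F t) u)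
    (B : ℕ) (hB : ∀ i < d, (u i).natAbs ≤ B) :
    (∀ j, B = 0 → u j = 0) ∧ ∀ j ≤ L, (u j).natAbs ≤ t.natAbs ^ ((σ + 1) * L) * B := by
  have hT1 : 1 ≤ t.natAbs := by omega
  have hT : (1 : ℤ) ≤ |t| := by
    rw [Int.abs_eq_natAbs]
    exact_mod_cast hT1
  have hm : (spc F t).Monic := hF.monic.map _
  have hdeg : (spc F t).natDegree = d := by
    rw [← hF.deg]
    exact hF.monic.natDegree_map _
  have hcoef : ∀ i < d, |(spc F t).coeff i| ≤ (((σ + 1) * H : ℕ) : ℤ) * |t| ^ σ := by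
    intro i _
    unfold spc
    rw [coeff_map]
    show |(F.coeff i).eval t| ≤ _
    refine (FNA.eval_le (F.coeff i) t σ (hF.dg i) hT).trans ?_
    have h2 : (∑ j ∈ range ((F.coeff i).natDegree + 1), |(F.coeff i).coeff j|) ≤
        (((σ + 1) * H : ℕ) : ℤ) := by
      have h3 : ∑ j ∈ range ((F.coeff i).natDegree + 1), ((F.coeff i).coeff j).natAbs ≤
          (σ + 1) * H := by
        refine (sum_le_card_nsmul _ _ H fun j _ => hF.ht i j).trans ?_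
        rw [card_range, smul_eq_mul]
        exact Nat.mul_le_mul_right _ (Nat.succ_le_succ (hF.dg i))
      have h4 : (∑ j ∈ range ((F.coeff i).natDegree + 1), |(F.coeff i).coeff j|) =
          ((∑ j ∈ range ((F.coeff i).natDegree + 1), ((F.coeff i).coeff j).natAbs : ℕ) : ℤ) := by
        push_cast
        rfl
      rw [h4]
      exact_mod_cast h3
    exact mul_le_mul_of_nonneg_right h2 (by positivity)
  have hmain := FNA.grow (spc F t) hm u hu ((((σ + 1) * H : ℕ) : ℤ) * |t| ^ σ) (B : ℤ)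
    (by positivity) (by positivity) (by rw [hdeg]; exact hcoef)
    (by
      rw [hdeg]
      intro i hi
      rw [Int.abs_eq_natAbs]
      exact_mod_cast hB i hi)
  rw [hdeg] at hmain
  refine ⟨fun j hj => ?_, fun j hj => ?_⟩
  · have := hmain j
    rw [hj] at this
    simp only [Nat.cast_zero, mul_zero] at this
    exact abs_eq_zero.1 (le_antisymm this (abs_nonneg _))
  · have h1 : (1 : ℤ) + d * ((((σ + 1) * H : ℕ) : ℤ) * |t| ^ σ) ≤ |t| ^ (σ + 1) := by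
      have h2 : ((1 + d * ((σ + 1) * H) : ℕ) : ℤ) ≤ |t| := by
        rw [Int.abs_eq_natAbs]
        exact_mod_cast ht
      have h3 : (1 : ℤ) ≤ |t| ^ σ := one_le_pow₀ hT
      rw [pow_succ]
      have h4 : ((1 + d * ((σ + 1) * H) : ℕ) : ℤ) = 1 + (d : ℤ) * (((σ + 1) * H : ℕ) : ℤ) := by
        push_cast
        ring
      rw [h4] at h2
      nlinarith
    have h4 : (1 + (d : ℤ) * ((((σ + 1) * H : ℕ) : ℤ) * |t| ^ σ)) ^ j ≤ |t| ^ ((σ + 1) * L) := by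
      calc (1 + (d : ℤ) * ((((σ + 1) * H : ℕ) : ℤ) * |t| ^ σ)) ^ j ≤ (|t| ^ (σ + 1)) ^ j :=
            pow_le_pow_left₀ (by positivity) h1 j
        _ = |t| ^ ((σ + 1) * j) := by rw [pow_mul]
        _ ≤ |t| ^ ((σ + 1) * L) := pow_le_pow_right₀ hT (Nat.mul_le_mul_left _ hj)
    have h5 := (hmain j).trans (mul_le_mul_of_nonneg_right h4 (by positivity : (0 : ℤ) ≤ B))
    rw [Int.abs_eq_natAbs, Int.abs_eq_natAbs] at h5
    exact_mod_cast h5

theorem pow_mono' (x c c' : ℕ) (hc : 1 ≤ c) (h : c ≤ c') : x ^ c ≤ x ^ c' := by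
  rcases Nat.eq_zero_or_pos x with rfl | hx
  · rw [zero_pow (by omega)]
    exact Nat.zero_le _
  · exact Nat.pow_le_pow_right hx h

theorem Zer_mono (D M c c' : ℕ) (t : ℤ) (z : ℕ → ℤ) (hc : 1 ≤ c) (h : c ≤ c')
    (hz : Zer D M c t z) : Zer D M c' t z := by
  rcases hz with hz | hz
  · exact Or.inl hz
  · right
    intro B hB
    obtain ⟨h1, S, hS, h2⟩ := hz B hB
    have hle := pow_mono' (B * t.natAbs) c c' hc h
    exact ⟨fun n hn => h1 n (hle.trans_lt hn), S, hS, fun n hn => h2 n (hle.trans_lt hn)⟩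

theorem thr_mono (c c' H T : ℕ) (hc : 1 ≤ c) (h : c ≤ c') (hT : (c' * H) ^ c' ≤ T) :
    (c * H) ^ c ≤ T :=
  ((Nat.pow_le_pow_left (Nat.mul_le_mul_right _ h) c).trans
    (pow_mono' (c' * H) c c' hc h)).trans hT

/-- one degree `k`, one multiplicity `M` -/
theorem zer1 (h3 : StZRY) (h4 : StZR0) (σ k M : ℕ) (hk : 1 ≤ k) (hM : 1 ≤ M) :
    ∃ c : ℕ, 1 ≤ c ∧ ∀ (H : ℕ) (G : ℤ[X][X]), IsDH k σ H G →
      NonConst (G.map (mapRingHom (Int.castRingHom ℂ))) → ∀ t : ℤ, (c * H) ^ c ≤ t.natAbs →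
      ∀ z : ℕ → ℤ, Rec (RingHom.id ℤ) (spc G t ^ M) z → Zer (k * M) M c t z := by
  obtain ⟨m, rfl⟩ : ∃ m, k = m + 1 := ⟨k - 1, by omega⟩
  rcases Nat.eq_zero_or_pos m with rfl | hm1
  · obtain ⟨c, hc1, hc⟩ := h4 σ M hM
    refine ⟨c, hc1, fun H G hG _ t ht z hz => ?_⟩
    have := hc H G hG.monic hG.deg hG.ne hG.one (hG.dg 0) (hG.ht 0) t ht z hz
    simpa using this
  · obtain ⟨c, hc1, hc⟩ := h3 m σ M hm1 hM
    refine ⟨c, hc1, fun H G hG hr t ht z hz => ?_⟩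
    exact hc H G ⟨hG.monic, hG.deg, hG.ne, hG.one, fun i _ => hG.dg i, fun i _ => hG.ht i, hr⟩
      t ht z hz

/-- all degrees and multiplicities up to `d` -/
theorem zerU (h3 : StZRY) (h4 : StZR0) (σ d : ℕ) :
    ∃ c : ℕ, 1 ≤ c ∧ ∀ k M : ℕ, 1 ≤ k → k ≤ d → 1 ≤ M → M ≤ d →
      ∀ (H : ℕ) (G : ℤ[X][X]), IsDH k σ H G →
      NonConst (G.map (mapRingHom (Int.castRingHom ℂ))) → ∀ t : ℤ, (c * H) ^ c ≤ t.natAbs →
      ∀ z : ℕ → ℤ, Rec (RingHom.id ℤ) (spc G t ^ M) z → Zer (k * M) M c t z := by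
  choose c hc1 hc using fun k M : ℕ => fun hk : 1 ≤ k => fun hM : 1 ≤ M => zer1 h3 h4 σ k M hk hM
  set g : ℕ → ℕ → ℕ := fun k M => if h : 1 ≤ k ∧ 1 ≤ M then c k M h.1 h.2 else 0 with hg
  refine ⟨1 + ∑ k ∈ range (d + 1), ∑ M ∈ range (d + 1), g k M, by omega,
    fun k M hk hkd hM hMd H G hG hr t ht z hz => ?_⟩
  have h1 : g k M ≤ ∑ M ∈ range (d + 1), g k M :=
    single_le_sum (f := fun M => g k M) (fun _ _ => Nat.zero_le _) (mem_range.2 (by omega))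
  have h2 : ∑ M ∈ range (d + 1), g k M ≤ ∑ k ∈ range (d + 1), ∑ M ∈ range (d + 1), g k M :=
    single_le_sum (f := fun k => ∑ M ∈ range (d + 1), g k M) (fun _ _ => Nat.zero_le _)
      (mem_range.2 (by omega))
  have h5 : g k M = c k M hk hM := by
    rw [hg]
    simp only
    rw [dif_pos ⟨hk, hM⟩]
  have h6 : c k M hk hM ≤ 1 + ∑ k ∈ range (d + 1), ∑ M ∈ range (d + 1), g k M := by omega
  exact Zer_mono _ _ _ _ t z (hc1 k M hk hM) h6
    (hc k M hk hM H G hG hr t (thr_mono _ _ H _ (hc1 k M hk hM) h6 ht) z hz)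

end FNU

open FNU in
theorem prFNU (hRDU : StRDU) (hSBY : StSBY) (hZRY : StZRY) (hZR0 : StZR0) : StFNU := by
  intro d σ hd
  obtain ⟨N, c₁, hN, hc₁, h1⟩ := hRDU d σ hd
  obtain ⟨c₂, hc₂, h2⟩ := zerU hZRY hZR0 c₁ d
  set L := N + N * (d * d) with hL
  set s := (σ + 1) * L with hs
  set c := (s + 1) * c₂ + c₁ * c₂ + 1 + d * (σ + 1) with hc
  refine ⟨N, c, hN, by omega, fun H F hF hiso => ?_⟩
  obtain ⟨k, G, hk, hkd, hG, hGn, hdvd, hsep⟩ := h1 H F hF hiso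
  obtain ⟨M, hM, hMd, hMs, hdM⟩ : ∃ M : ℕ, 1 ≤ M ∧ M ≤ d ∧
      ((F.map (algebraMap ℤ[X] (FractionRing ℤ[X]))).Separable → M = 1) ∧
      F ∣ (expand ℤ[X] N G) ^ M := by
    by_cases hS : (F.map (algebraMap ℤ[X] (FractionRing ℤ[X]))).Separable
    · exact ⟨1, le_rfl, hd, fun _ => rfl, by rw [pow_one]; exact hsep hS⟩
    · exact ⟨d, hd, le_rfl, fun h => absurd h hS, hdvd⟩
  refine ⟨M, hM, hMd, hMs, fun t ht u hu q hq => ?_⟩
  have hH : 1 ≤ H := hF.one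
  have hsub : Pd.Sol (spc G t ^ M) (fun n => u (q + N * n)) := by
    refine hSBY ℤ (spc F t) (spc G t ^ M) N q u hN ?_ hu
    have h5 := Polynomial.map_dvd (evalRingHom t) hdM
    rw [Polynomial.map_pow, map_expand] at h5
    rw [map_pow]
    exact h5
  have hcH : c * H ≤ t.natAbs := by
    refine le_trans ?_ ht
    have : (c * H) ^ 1 ≤ (c * H) ^ c := pow_mono' _ _ _ le_rfl (by omega)
    simpa using this
  have hthr1 : 1 + d * ((σ + 1) * H) ≤ t.natAbs := by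
    refine le_trans ?_ hcH
    have e1 : (1 + d * (σ + 1)) * H ≤ c * H := Nat.mul_le_mul_right _ (by omega)
    have e2 : (1 + d * (σ + 1)) * H = H + d * ((σ + 1) * H) := by ring
    omega
  have hthr2 : (c₂ * (c₁ * H) ^ c₁) ^ c₂ ≤ t.natAbs := by
    refine le_trans ?_ ht
    have hcc : c₂ * c₁ ≤ c := by
      have : c₁ * c₂ = c₂ * c₁ := Nat.mul_comm _ _
      omega
    have e1 : c₂ * (c₁ * H) ^ c₁ ≤ (c₂ * (c₁ * H)) ^ c₁ := by
      rw [mul_pow c₂]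
      refine Nat.mul_le_mul_right _ ?_
      have := pow_mono' c₂ 1 c₁ le_rfl hc₁
      simpa using this
    calc (c₂ * (c₁ * H) ^ c₁) ^ c₂ ≤ ((c₂ * (c₁ * H)) ^ c₁) ^ c₂ := Nat.pow_le_pow_left e1 _
      _ = (c₂ * c₁ * H) ^ (c₁ * c₂) := by rw [← pow_mul, mul_assoc]
      _ ≤ (c * H) ^ (c₁ * c₂) := Nat.pow_le_pow_left (Nat.mul_le_mul_right _ hcc) _
      _ ≤ (c * H) ^ c := pow_mono' _ _ _ (Nat.mul_pos hc₁ hc₂) (by omega)
  have hz := h2 k M hk hkd hM hMd ((c₁ * H) ^ c₁) G hG hGn t hthr2 (fun n => u (q + N * n)) hsub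
  by_cases hall : ∀ n, u (q + N * n) = 0
  · exact Or.inl hall
  right
  intro B hB
  rcases hz with hz | hz
  · exact absurd hz hall
  obtain ⟨hb0, hbL⟩ := grow_u d σ H F hF L t hthr1 u hu B hB
  have hBpos : 1 ≤ B := by
    rcases Nat.eq_zero_or_pos B with h | h
    · exact absurd (fun n => hb0 _ h) hall
    · exact h
  obtain ⟨hz1, S, hS, hz2⟩ := hz (t.natAbs ^ s * B) (by
    intro i hi
    apply hbL
    have e1 : N * i ≤ N * (d * d) :=
      Nat.mul_le_mul_left _ (hi.le.trans (Nat.mul_le_mul hkd hMd))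
    omega)
  have hT : 1 ≤ t.natAbs := by omega
  have hle : (t.natAbs ^ s * B * t.natAbs) ^ c₂ ≤ (B * t.natAbs) ^ c := by
    have e1 : t.natAbs ^ s * B * t.natAbs ≤ (B * t.natAbs) ^ (s + 1) := by
      rw [pow_succ, mul_assoc]
      refine Nat.mul_le_mul_right _ (Nat.pow_le_pow_left ?_ s)
      exact Nat.le_mul_of_pos_left _ hBpos
    calc (t.natAbs ^ s * B * t.natAbs) ^ c₂ ≤ ((B * t.natAbs) ^ (s + 1)) ^ c₂ :=
          Nat.pow_le_pow_left e1 _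
      _ = (B * t.natAbs) ^ ((s + 1) * c₂) := by rw [← pow_mul]
      _ ≤ (B * t.natAbs) ^ c := Nat.pow_le_pow_right (Nat.mul_pos hBpos hT) (by omega)
  exact ⟨fun n hn => hz1 n (hle.trans_lt hn), S, hS, fun n hn h => hz2 n (hle.trans_lt hn) h⟩

end Pool.Agent.Work.MP_8d13b5_lc.Fm
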