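import Pool.Agent.Work.MP_8d13b5_lc.Fm.StmtsFz
import Pool.Agent.Work.MP_8d13b5_lc.Fm.I_FNA

set_option autoImplicit false

/-! Item FNZ: every family reduces to one recurrence over the integers. -/

namespace Pool.Agent.Work.MP_8d13b5_lc.Fm

open Polynomial NumberField Finset Module

namespace FNZ

/-- specialisation commutes with the base change -/
theorem spc_map {K : Type} [Field K] [NumberField K] (F : ℤ[X][X]) (t : ℤ) :
    (F.map (mapRingHom (algebraMap ℤ (𝓞 K)))).map (evalRingHom (t : 𝓞 K)) =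
      (spc F t).map (algebraMap ℤ (𝓞 K)) := by
  unfold spc
  rw [Polynomial.map_map, Polynomial.map_map]
  congr 1
  apply RingHom.ext
  intro p
  show (p.map (algebraMap ℤ (𝓞 K))).eval (t : 𝓞 K) = algebraMap ℤ (𝓞 K) (p.eval t)
  rw [eval_map, eval₂_at_intCast]
  simp

/-- the divisibility, specialised -/
theorem spc_dvd {K : Type} [Field K] [NumberField K] (F : ℤ[X][X]) (hF : F.Monic) (N D r : ℕ)
    (θ : Fin r → 𝓞 K) (G : (𝓞 K)[X][X]) (hG : G.Monic)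
    (h : (F.map (mapRingHom (algebraMap ℤ (𝓞 K)))).scaleRoots (C (D : 𝓞 K)) ∣
        expand (𝓞 K)[X] N (∏ j, G.scaleRoots (C (θ j)))) (t : ℤ) :
    ((spc F t).map (algebraMap ℤ (𝓞 K))).scaleRoots (D : 𝓞 K) ∣
      expand (𝓞 K) N (∏ j, (spc G (t : 𝓞 K)).scaleRoots (θ j)) := by
  have h1 := Polynomial.map_dvd (evalRingHom (t : 𝓞 K)) h
  have hFm : (F.map (mapRingHom (algebraMap ℤ (𝓞 K)))).Monic := hF.map _
  rw [Polynomial.map_scaleRoots _ _ _ (by rw [hFm.leadingCoeff, map_one]; exact one_ne_zero),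
    spc_map, map_expand, Polynomial.map_prod] at h1
  have h2 : ∀ j, (G.scaleRoots (C (θ j))).map (evalRingHom (t : 𝓞 K)) =
      (spc G (t : 𝓞 K)).scaleRoots (θ j) := by
    intro j
    rw [Polynomial.map_scaleRoots _ _ _ (by rw [hG.leadingCoeff, map_one]; exact one_ne_zero)]
    unfold spc
    congr 1
    simp
  rw [Finset.prod_congr rfl fun j _ => h2 j] at h1
  have h3 : evalRingHom (t : 𝓞 K) (C (D : 𝓞 K)) = (D : 𝓞 K) := by simp
  rw [h3] at h1
  exact h1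

/-- the scaled subsequence is a solution -/
theorem sub_sol {K : Type} [Field K] [NumberField K] (h2 : StSBY) (F : ℤ[X][X]) (N D r : ℕ)
    (θ : Fin r → 𝓞 K) (G : (𝓞 K)[X][X]) (t : ℤ) (hN : 1 ≤ N)
    (h : ((spc F t).map (algebraMap ℤ (𝓞 K))).scaleRoots (D : 𝓞 K) ∣
      expand (𝓞 K) N (∏ j, (spc G (t : 𝓞 K)).scaleRoots (θ j)))
    (u : ℕ → ℤ) (hu : Rec (RingHom.id ℤ) (spc F t) u) (q : ℕ) :
    Pd.Sol (∏ j, (spc G (t : 𝓞 K)).scaleRoots (θ j))
      (fun n => (D : 𝓞 K) ^ (q + N * n) * ((u (q + N * n) : ℤ) : 𝓞 K)) := by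
  have hu1 : Pd.Sol (spc F t) u := hu
  have hu2 : Pd.Sol ((spc F t).map (algebraMap ℤ (𝓞 K)))
      (fun n => algebraMap ℤ (𝓞 K) (u n)) := hu1.map (algebraMap ℤ (𝓞 K))
  have hu3 := hu2.scale (D : 𝓞 K)
  have hu4 := h2 (𝓞 K) _ _ N q _ hN h hu3
  exact hu4

end FNZ

theorem prFNZ (hRZA : StRZA) (hSBY : StSBY) (hZRZ : StZRZ) (hSQZ : StSQZ) (hINT : StINT) :
    StFNZ := by
  classical
  intro F hF hd h0
  obtain ⟨K, _, _, N, D, r, k, θ, G, hN, hD, hθ, hG, hGd, hG0, hrat, hdvd⟩ := hRZA F hF hd h0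
  obtain ⟨f, hf, hf0, hsq⟩ := hSQZ K r θ hθ
  set σ := ∑ i ∈ range (k + 1), (G.coeff i).natDegree with hσ
  set H : ℝ := 1 + ∑ φ : K →+* ℂ, ∑ i ∈ range (k + 1), pn (res φ) (G.coeff i) with hH
  obtain ⟨c₁, hc₁, hz⟩ := hZRZ K k σ r θ hθ
  have hpn : ∀ (φ : K →+* ℂ) (P : (𝓞 K)[X]), 0 ≤ pn (res φ) P := by
    intro φ P
    unfold pn
    exact sum_nonneg fun _ _ => norm_nonneg _
  have hGH : IsCr0H k σ H G := by
    refine ⟨⟨hG, hGd, hG0, hrat⟩, ?_, ?_, ?_⟩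
    · rw [hH]
      have : 0 ≤ ∑ φ : K →+* ℂ, ∑ i ∈ range (k + 1), pn (res φ) (G.coeff i) :=
        sum_nonneg fun φ _ => sum_nonneg fun i _ => hpn φ _
      linarith
    · intro i hi
      rw [hσ]
      exact single_le_sum (f := fun i => (G.coeff i).natDegree) (fun _ _ => Nat.zero_le _)
        (mem_range.2 (by omega))
    · intro φ i hi
      have h5 : pn (res φ) (G.coeff i) ≤ ∑ i ∈ range (k + 1), pn (res φ) (G.coeff i) :=
        single_le_sum (f := fun i => pn (res φ) (G.coeff i)) (fun _ _ => hpn φ _)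
          (mem_range.2 (by omega))
      have h6 : ∑ i ∈ range (k + 1), pn (res φ) (G.coeff i) ≤
          ∑ φ : K →+* ℂ, ∑ i ∈ range (k + 1), pn (res φ) (G.coeff i) :=
        single_le_sum (f := fun φ : K →+* ℂ => ∑ i ∈ range (k + 1), pn (res φ) (G.coeff i))
          (fun φ _ => sum_nonneg fun i _ => hpn φ _) (mem_univ φ)
      linarith
  set L := N + N * ((k + 1) * r) with hL
  obtain ⟨T₂, s, hT₂, hs⟩ := FNA.grow_t F hF L
  set D' := finrank ℚ K with hD'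
  have hD'1 : 1 ≤ D' := finrank_pos
  refine ⟨N, T₂ + D ^ L + ⌈(c₁ * H) ^ c₁⌉₊, (1 + s + D') * c₁, f, hN, hf, hf0, ?_⟩
  intro t ht u hu q hq
  by_cases hu0 : ∀ n, u n = 0
  · refine ⟨fun _ => 0, ?_, fun n _ => hu0 _, fun B _ n _ _ => rfl⟩
    intro n
    simp
  have hT1 : 1 ≤ t.natAbs := by omega
  have hTr : (1 : ℝ) ≤ (t.natAbs : ℝ) := by exact_mod_cast hT1
  have hTT : TT (t : 𝓞 K) 1 = (t.natAbs : ℝ) ^ D' := by
    have h5 := (hINT K t 1).2.1
    rw [Int.cast_one] at h5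
    rw [h5]
    have h6 : mx t 1 = t.natAbs := by
      unfold mx
      rw [Int.natAbs_one]
      omega
    rw [h6]
  have hTT1 : (c₁ * H) ^ c₁ ≤ TT (t : 𝓞 K) 1 := by
    rw [hTT]
    calc (c₁ * H) ^ c₁ ≤ (⌈(c₁ * H) ^ c₁⌉₊ : ℝ) := Nat.le_ceil _
      _ ≤ (t.natAbs : ℝ) := by exact_mod_cast (by omega : ⌈(c₁ * H) ^ c₁⌉₊ ≤ t.natAbs)
      _ ≤ (t.natAbs : ℝ) ^ D' := le_self_pow₀ hTr (by omega)
  have hsol := FNZ.sub_sol hSBY F N D r θ G t hN (FNZ.spc_dvd F hF N D r θ G hG hdvd t) u hu q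
  obtain ⟨δ, v, hδ, hv, hvz, hB⟩ := hz H G hGH (t : 𝓞 K) hTT1 _ hsol
  obtain ⟨w, hw, hw0⟩ := hsq (k + 1) v hv
  have hDK : (D : 𝓞 K) ≠ 0 := by
    have : D ≠ 0 := by omega
    exact_mod_cast this
  refine ⟨w, hw, ?_, ?_⟩
  · intro n hn
    have h5 := (hw0 n).1 hn
    have h6 := hvz n
    rw [sum_eq_zero (fun i _ => by rw [h5 i, mul_zero])] at h6
    have h7 := (mul_eq_zero.1 h6).resolve_left hδ
    have h8 := (mul_eq_zero.1 h7).resolve_left (pow_ne_zero _ hDK)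
    exact_mod_cast h8
  · intro B hBu n hn hun
    obtain ⟨hb0, hbL⟩ := hs t (by omega) u hu B hBu
    have hBpos : 1 ≤ B := by
      rcases Nat.eq_zero_or_pos B with h | h
      · exact absurd (fun n => hb0 _ h) hu0
      · exact h
    have hDL : D ^ L ≤ t.natAbs := by omega
    have hDLr : ((D ^ L : ℕ) : ℝ) ≤ (t.natAbs : ℝ) := by exact_mod_cast hDL
    have hDL1 : 1 ≤ D ^ L := Nat.one_le_pow _ _ hD
    have hBr : (1 : ℝ) ≤ (B : ℝ) := by exact_mod_cast hBpos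
    set B₁ : ℝ := ((D ^ L * (t.natAbs ^ s * B) : ℕ) : ℝ) with hB₁
    have hB₁1 : 1 ≤ B₁ := by
      rw [hB₁]
      have h9 : 1 ≤ t.natAbs ^ s := Nat.one_le_pow _ _ hT1
      have : 1 ≤ D ^ L * (t.natAbs ^ s * B) := Nat.mul_pos hDL1 (Nat.mul_pos h9 hBpos)
      exact_mod_cast this
    have hzb : ∀ (φ : K →+* ℂ), ∀ n < (k + 1) * r,
        ‖res φ ((D : 𝓞 K) ^ (q + N * n) * ((u (q + N * n) : ℤ) : 𝓞 K))‖ ≤ B₁ := by
      intro φ j hj
      have hjL : q + N * j ≤ L := by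
        have : N * j ≤ N * ((k + 1) * r) := Nat.mul_le_mul_left _ hj.le
        omega
      have h9 := hbL (q + N * j) hjL
      rw [map_mul, map_pow, map_natCast, map_intCast, norm_mul, norm_pow, Complex.norm_natCast,
        Complex.norm_intCast, hB₁]
      have h10 : |((u (q + N * j) : ℤ) : ℝ)| = ((u (q + N * j)).natAbs : ℝ) := by
        rw [Nat.cast_natAbs, Int.cast_abs]
      rw [h10]
      have h11 : D ^ (q + N * j) * (u (q + N * j)).natAbs ≤ D ^ L * (t.natAbs ^ s * B) :=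
        Nat.mul_le_mul (Nat.pow_le_pow_right hD hjL) h9
      exact_mod_cast h11
    have hlast := hB B₁ hB₁1 hzb n ?_ ?_
    · exact (hw0 n).2 hlast
    · rw [hTT]
      have e1 : B₁ * (t.natAbs : ℝ) ^ D' ≤ ((B : ℝ) * t.natAbs) ^ (1 + s + D') := by
        have e2 : B₁ = ((D ^ L : ℕ) : ℝ) * ((t.natAbs : ℝ) ^ s * B) := by
          rw [hB₁]
          push_cast
          ring
        have e3 : B₁ * (t.natAbs : ℝ) ^ D' ≤ (B : ℝ) * (t.natAbs : ℝ) ^ (1 + s + D') := by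
          rw [e2]
          calc ((D ^ L : ℕ) : ℝ) * ((t.natAbs : ℝ) ^ s * B) * (t.natAbs : ℝ) ^ D'
              ≤ (t.natAbs : ℝ) * ((t.natAbs : ℝ) ^ s * B) * (t.natAbs : ℝ) ^ D' := by
                gcongr
            _ = (B : ℝ) * (t.natAbs : ℝ) ^ (1 + s + D') := by
                rw [pow_add, pow_add, pow_one]
                ring
        refine e3.trans ?_
        rw [mul_pow]
        have e4 : (B : ℝ) ≤ (B : ℝ) ^ (1 + s + D') := le_self_pow₀ hBr (by omega)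
        exact mul_le_mul_of_nonneg_right e4 (by positivity)
      have e5 : (B₁ * (t.natAbs : ℝ) ^ D') ^ c₁ ≤ ((B : ℝ) * t.natAbs) ^ ((1 + s + D') * c₁) := by
        rw [pow_mul]
        exact pow_le_pow_left₀ (by positivity) e1 c₁
      have e6 : ((B : ℝ) * t.natAbs) ^ ((1 + s + D') * c₁) < (t.natAbs : ℝ) ^ n := by
        exact_mod_cast hn
      have e7 : (t.natAbs : ℝ) ^ n ≤ ((t.natAbs : ℝ) ^ D') ^ n := by
        exact pow_le_pow_left₀ (by positivity) (le_self_pow₀ hTr (by omega)) n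
      linarith
    · rw [hun]
      simp

end Pool.Agent.Work.MP_8d13b5_lc.Fm
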