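import Pool.Agent.Work.MP_8d13b5_lc.Fm.StmtsFz

set_option autoImplicit false

/-!
MP_8d13b5_lc, block FMZ, item GRW: growth.
-/

namespace Pool.Agent.Work.MP_8d13b5_lc.Fm

open Polynomial NumberField Finset Module

namespace GRW

/-- the shift -/
def sh : Module.End ℤ (ℕ → ℤ) where
  toFun u := fun n => u (n + 1)
  map_add' u v := rfl
  map_smul' a u := rfl

lemma sh_pow (i : ℕ) : ∀ (u : ℕ → ℤ) (n : ℕ), (sh ^ i) u n = u (n + i) := by
  induction i with
  | zero => intro u n; rfl
  | succ i ih =>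
    intro u n
    rw [pow_succ, Module.End.mul_apply, ih]
    show u (n + i + 1) = _
    rw [add_assoc]

lemma aeval_sh (f : ℤ[X]) (u : ℕ → ℤ) (n : ℕ) :
    (aeval sh f u) n = ∑ i ∈ range (f.natDegree + 1), f.coeff i * u (n + i) := by
  rw [aeval_eq_sum_range, LinearMap.sum_apply, Finset.sum_apply]
  refine Finset.sum_congr rfl (fun i _ => ?_)
  rw [LinearMap.smul_apply, Pi.smul_apply, sh_pow, smul_eq_mul]

lemma rec_iff (f : ℤ[X]) (u : ℕ → ℤ) : Rec (RingHom.id ℤ) f u ↔ aeval sh f u = 0 := by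
  constructor
  · intro h
    funext n
    rw [aeval_sh]
    exact h n
  · intro h n
    have := congrFun h n
    rw [aeval_sh] at this
    exact this

lemma rec_mul_right (f g : ℤ[X]) (u : ℕ → ℤ) (h : Rec (RingHom.id ℤ) f u) :
    Rec (RingHom.id ℤ) (f * g) u := by
  rw [rec_iff] at h ⊢
  rw [mul_comm, map_mul, Module.End.mul_apply, h, map_zero]

lemma rec_const (f : ℤ[X]) (w : ℤ) : Rec (RingHom.id ℤ) (f * (X - 1)) (fun _ => w) := by
  rw [rec_iff, map_mul, Module.End.mul_apply]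
  have h : (aeval sh (X - 1 : ℤ[X])) (fun _ => w) = 0 := by
    rw [map_sub, aeval_X, map_one, LinearMap.sub_apply]
    funext n
    show w - w = 0
    ring
  rw [h, map_zero]

lemma rec_sub (f : ℤ[X]) (u v : ℕ → ℤ) (hu : Rec (RingHom.id ℤ) f u)
    (hv : Rec (RingHom.id ℤ) f v) : Rec (RingHom.id ℤ) f (u - v) := by
  rw [rec_iff] at hu hv ⊢
  rw [map_sub, hu, hv, sub_zero]

lemma natAbs_sum_le {ι : Type} (s : Finset ι) (f : ι → ℤ) :
    (∑ i ∈ s, f i).natAbs ≤ ∑ i ∈ s, (f i).natAbs := by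
  classical
  induction s using Finset.induction_on with
  | empty => simp
  | insert a s ha ih =>
    rw [Finset.sum_insert ha, Finset.sum_insert ha]
    exact (Int.natAbs_add_le _ _).trans (by omega)

/-- an integral root of a nonzero polynomial is not larger than the coefficients -/
lemma eval_ne (M : ℕ) (t : ℤ) (ht : M < t.natAbs) : ∀ (d : ℕ) (P : ℤ[X]), P.natDegree ≤ d → P ≠ 0 →
    (∀ j, (P.coeff j).natAbs ≤ M) → P.eval t ≠ 0 := by
  have ht0 : t ≠ 0 := by
    intro h
    rw [h] at ht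
    simp at ht
  intro d
  induction d with
  | zero =>
    intro P hP h0 _ he
    have h1 := Polynomial.eq_C_of_natDegree_le_zero hP
    rw [h1, eval_C] at he
    rw [he, C_0] at h1
    exact h0 h1
  | succ d ih =>
    intro P hP h0 hM he
    have h1 := Polynomial.divX_mul_X_add P
    by_cases hc : P.coeff 0 = 0
    · rw [hc, C_0, add_zero] at h1
      have h2 : P.divX ≠ 0 := by
        intro h
        rw [h, zero_mul] at h1
        exact h0 h1.symm
      have h3 : P.divX.natDegree ≤ d := by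
        rw [natDegree_divX_eq_natDegree_tsub_one]
        omega
      refine ih P.divX h3 h2 (fun j => by rw [coeff_divX]; exact hM _) ?_
      rw [← h1, eval_mul, eval_X] at he
      exact (mul_eq_zero.mp he).resolve_right ht0
    · rw [← h1, eval_add, eval_mul, eval_X, eval_C] at he
      have h2 : t ∣ P.coeff 0 := ⟨-P.divX.eval t, by linarith⟩
      have h3 := Nat.le_of_dvd (Int.natAbs_pos.mpr hc) (Int.natAbs_dvd_natAbs.mpr h2)
      have := hM 0
      omega

lemma coeff_mul_X_sub_one (F : ℤ[X][X]) (i : ℕ) :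
    (F * (X - 1)).coeff (i + 1) = F.coeff i - F.coeff (i + 1) := by
  rw [mul_sub, mul_one, coeff_sub, coeff_mul_X]

lemma coeff_mul_X_sub_one_zero (F : ℤ[X][X]) :
    (F * (X - 1)).coeff 0 = - F.coeff 0 := by
  rw [mul_sub, mul_one, coeff_sub, coeff_mul_X_zero, zero_sub]

section
variable {m σ H : ℕ} {F : ℤ[X][X]}

lemma dgAll (hF : IsI0 m σ H F) : ∀ i, (F.coeff i).natDegree ≤ σ := by
  intro i
  by_cases h1 : i ≤ m
  · exact hF.dg i h1
  · by_cases h2 : i = m + 1
    · have h3 : F.coeff i = 1 := by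
        rw [h2, ← hF.deg]
        exact hF.monic
      rw [h3]
      simp
    · have h3 : F.coeff i = 0 := coeff_eq_zero_of_natDegree_lt (by rw [hF.deg]; omega)
      rw [h3]
      simp

lemma htAll (hF : IsI0 m σ H F) : ∀ i j, ((F.coeff i).coeff j).natAbs ≤ H := by
  intro i j
  have h0 := hF.one
  by_cases h1 : i ≤ m
  · exact hF.ht i h1 j
  · by_cases h2 : i = m + 1
    · have h3 : F.coeff i = 1 := by
        rw [h2, ← hF.deg]
        exact hF.monic
      rw [h3, coeff_one]
      split_ifs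
      · simpa using h0
      · simp
    · have h3 : F.coeff i = 0 := coeff_eq_zero_of_natDegree_lt (by rw [hF.deg]; omega)
      rw [h3]
      simp

lemma isI0_mul (hF : IsI0 m σ H F)
    (hN : NonConst ((F * (X - 1)).map (mapRingHom (Int.castRingHom ℂ)))) :
    IsI0 (m + 1) σ (2 * H) (F * (X - 1)) := by
  have hm1 : (X - 1 : ℤ[X][X]).Monic := by
    have := monic_X_sub_C (1 : ℤ[X])
    rwa [C_1] at this
  have hd1 : (X - 1 : ℤ[X][X]).natDegree = 1 := by
    have := natDegree_X_sub_C (1 : ℤ[X])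
    rwa [C_1] at this
  refine ⟨hF.monic.mul hm1, ?_, ?_, ?_, ?_, ?_, hN⟩
  · rw [hF.monic.natDegree_mul hm1, hF.deg, hd1]
  · rw [coeff_mul_X_sub_one_zero]
    exact neg_ne_zero.mpr hF.ne
  · have := hF.one
    omega
  · intro i _
    cases i with
    | zero =>
      rw [coeff_mul_X_sub_one_zero, natDegree_neg]
      exact dgAll hF 0
    | succ i =>
      rw [coeff_mul_X_sub_one]
      exact (natDegree_sub_le _ _).trans (max_le (dgAll hF _) (dgAll hF _))
  · intro i _ j
    cases i with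
    | zero =>
      rw [coeff_mul_X_sub_one_zero, coeff_neg, Int.natAbs_neg]
      have := htAll hF 0 j
      omega
    | succ i =>
      rw [coeff_mul_X_sub_one, coeff_sub]
      have h1 := htAll hF i j
      have h2 := htAll hF (i + 1) j
      have h3 := Int.natAbs_sub_le ((F.coeff i).coeff j) ((F.coeff (i + 1)).coeff j)
      omega

lemma eval_one_ne (hN : NonConst ((F * (X - 1)).map (mapRingHom (Int.castRingHom ℂ)))) :
    F.eval 1 ≠ 0 := by
  intro h0
  have h1 : (X - C (1 : ℤ[X])) ∣ F := dvd_iff_isRoot.mpr h0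
  rw [C_1] at h1
  obtain ⟨G, hG⟩ := h1
  have hsep := hN.1
  have hd : (X - 1 : (RatFunc ℂ)[X]) * (X - 1) ∣
      (((F * (X - 1)).map (mapRingHom (Int.castRingHom ℂ))).map (algebraMap ℂ[X] (RatFunc ℂ))) := by
    refine ⟨(G.map (mapRingHom (Int.castRingHom ℂ))).map (algebraMap ℂ[X] (RatFunc ℂ)), ?_⟩
    rw [hG]
    simp only [Polynomial.map_mul, Polynomial.map_sub, Polynomial.map_X, Polynomial.map_one]
    ring
  have hu := isUnit_of_self_mul_dvd_separable hsep hd
  have h2 := natDegree_eq_zero_of_isUnit hu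
  have h3 : (X - 1 : (RatFunc ℂ)[X]).natDegree = 1 := by
    have := natDegree_X_sub_C (1 : RatFunc ℂ)
    rwa [C_1] at this
  omega

lemma eval_one_coeff (hF : IsI0 m σ H F) (j : ℕ) : ((F.eval 1).coeff j).natAbs ≤ (m + 2) * H := by
  have h1 : F.eval 1 = ∑ i ∈ range (m + 2), F.coeff i := by
    rw [eval_eq_sum_range, hF.deg]
    refine Finset.sum_congr rfl (fun i _ => ?_)
    rw [one_pow, mul_one]
  rw [h1, finset_sum_coeff]
  refine (natAbs_sum_le _ _).trans ?_
  refine (Finset.sum_le_card_nsmul _ _ H (fun i _ => htAll hF i j)).trans ?_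
  rw [card_range, smul_eq_mul]

lemma spc_eval_one (t : ℤ) : (spc F t).eval 1 = (F.eval 1).eval t := by
  have h := eval₂_hom (p := F) (evalRingHom t) (1 : ℤ[X])
  rw [map_one] at h
  rw [spc, eval_map, h, coe_evalRingHom]

lemma eval_le (hF : IsI0 m σ H F) (i : ℕ) (t : ℤ) (ht : 1 ≤ t.natAbs) :
    ((F.coeff i).eval t).natAbs ≤ (σ + 1) * (H * t.natAbs ^ σ) := by
  rw [eval_eq_sum_range' (n := σ + 1) (by have := dgAll hF i; omega)]
  refine (natAbs_sum_le _ _).trans ?_
  refine (Finset.sum_le_card_nsmul _ _ (H * t.natAbs ^ σ) (fun j hj => ?_)).trans ?_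
  · rw [Int.natAbs_mul, Int.natAbs_pow]
    exact Nat.mul_le_mul (htAll hF i j) (Nat.pow_le_pow_right ht (by
      have := mem_range.mp hj
      omega))
  · rw [card_range, smul_eq_mul]

lemma rec_eq (hF : IsI0 m σ H F) (t : ℤ) (u : ℕ → ℤ) (hu : Rec (RingHom.id ℤ) (spc F t) u) (n : ℕ) :
    u (n + (m + 1)) = - ∑ i ∈ range (m + 1), (F.coeff i).eval t * u (n + i) := by
  have h1 := hu n
  have hd : (spc F t).natDegree = m + 1 := by
    rw [spc, hF.monic.natDegree_map, hF.deg]
  have hc : ∀ i, (spc F t).coeff i = (F.coeff i).eval t := by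
    intro i
    rw [spc, coeff_map, coe_evalRingHom]
  have hl : (F.coeff (m + 1)).eval t = 1 := by
    have : F.coeff (m + 1) = 1 := by
      rw [← hF.deg]
      exact hF.monic
    rw [this, eval_one]
  rw [hd, Finset.sum_range_succ] at h1
  simp only [RingHom.id_apply, hc] at h1
  rw [hl, one_mul] at h1
  linarith

lemma zero_of_init (hF : IsI0 m σ H F) (t : ℤ) (u : ℕ → ℤ)
    (hu : Rec (RingHom.id ℤ) (spc F t) u) (h0 : ∀ i ≤ m, u i = 0) : ∀ n, u n = 0 := by
  intro n
  induction n using Nat.strong_induction_on with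
  | _ n ih =>
    by_cases hn : n ≤ m
    · exact h0 n hn
    · obtain ⟨k, rfl⟩ : ∃ k, n = k + (m + 1) := ⟨n - (m + 1), by omega⟩
      rw [rec_eq hF t u hu k, Finset.sum_eq_zero, neg_zero]
      intro i hi
      rw [ih (k + i) (by have := mem_range.mp hi; omega), mul_zero]

end

/-- the final inequality -/
lemma final (T B c c₁ σ n E w : ℕ) (hT : 2 ≤ T) (hB : 1 ≤ B) (h4 : 4 * c₁ ≤ c)
    (hσ : (σ + 3) * c₁ ≤ c) (hE : E ≤ T ^ (σ + 1) * B) (hlt : (B * T) ^ c < T ^ n)
    (hle : T ^ n ≤ ((E + w) * T) ^ c₁) : T ^ n ≤ w ^ c := by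
  have hBT : 1 ≤ B * T := Nat.one_le_iff_ne_zero.mpr (by positivity)
  by_cases hw : w ≤ E
  · exfalso
    have h1 : (E + w) * T ≤ (B * T) ^ (σ + 3) := by
      calc (E + w) * T ≤ (2 * (T ^ (σ + 1) * B)) * T := Nat.mul_le_mul_right _ (by omega)
        _ ≤ (T * (T ^ (σ + 1) * B)) * T := Nat.mul_le_mul_right _ (Nat.mul_le_mul_right _ hT)
        _ = B * T ^ (σ + 3) := by ring
        _ ≤ B ^ (σ + 3) * T ^ (σ + 3) := Nat.mul_le_mul_right _ (Nat.le_self_pow (by omega) B)
        _ = (B * T) ^ (σ + 3) := by rw [mul_pow]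
    have h2 : T ^ n ≤ (B * T) ^ c := by
      calc T ^ n ≤ ((E + w) * T) ^ c₁ := hle
        _ ≤ ((B * T) ^ (σ + 3)) ^ c₁ := Nat.pow_le_pow_left h1 _
        _ = (B * T) ^ ((σ + 3) * c₁) := by rw [← pow_mul]
        _ ≤ (B * T) ^ c := Nat.pow_le_pow_right hBT hσ
    omega
  · have hw1 : 1 ≤ w := by omega
    have h1 : (E + w) * T ≤ T ^ 2 * w := by
      calc (E + w) * T ≤ (2 * w) * T := Nat.mul_le_mul_right _ (by omega)
        _ ≤ (T * w) * T := Nat.mul_le_mul_right _ (Nat.mul_le_mul_right _ hT)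
        _ = T ^ 2 * w := by ring
    have h2 : T ^ n ≤ T ^ (2 * c₁) * w ^ c₁ := by
      calc T ^ n ≤ ((E + w) * T) ^ c₁ := hle
        _ ≤ (T ^ 2 * w) ^ c₁ := Nat.pow_le_pow_left h1 _
        _ = T ^ (2 * c₁) * w ^ c₁ := by rw [mul_pow, ← pow_mul]
    have h3 : T ^ (4 * c₁) ≤ T ^ n := by
      calc T ^ (4 * c₁) ≤ T ^ c := Nat.pow_le_pow_right (by omega) h4
        _ ≤ (B * T) ^ c := Nat.pow_le_pow_left (Nat.le_mul_of_pos_left _ hB) _
        _ ≤ T ^ n := hlt.le
    have h5 : T ^ n * T ^ n ≤ T ^ n * w ^ (2 * c₁) := by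
      calc T ^ n * T ^ n ≤ (T ^ (2 * c₁) * w ^ c₁) * (T ^ (2 * c₁) * w ^ c₁) :=
            Nat.mul_le_mul h2 h2
        _ = T ^ (4 * c₁) * w ^ (2 * c₁) := by ring
        _ ≤ T ^ n * w ^ (2 * c₁) := Nat.mul_le_mul_right _ h3
    have h6 : T ^ n ≤ w ^ (2 * c₁) := Nat.le_of_mul_le_mul_left h5 (by positivity)
    exact h6.trans (Nat.pow_le_pow_right hw1 (by omega))

end GRW

open GRW

theorem prGRW (hXFI : StXFI) : StGRW := by
  intro m σ
  obtain ⟨c₁, hc₁, hX⟩ := hXFI (m + 1) σ (by omega)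
  set a : ℕ := (σ + 3) * c₁ with ha
  set b : ℕ := (m + 3) * (σ + 1) with hb
  have hb1 : (m + 1) * (σ + 1) ≤ b := Nat.mul_le_mul_right _ (by omega)
  have hb2 : m + 3 ≤ b := Nat.le_mul_of_pos_right _ (by omega)
  refine ⟨4 * c₁ + a + b, by omega, ?_⟩
  set c : ℕ := 4 * c₁ + a + b with hc
  intro H F hF hN t ht u hu
  have hH := hF.one
  set T : ℕ := t.natAbs with hT
  have hcH : c * H ≤ T := (Nat.le_self_pow (by omega) _).trans ht
  have hmH : (m + 3) * H ≤ T := (Nat.mul_le_mul_right H (by omega)).trans hcH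
  have hT2 : 2 ≤ T := by
    have : 3 * 1 ≤ (m + 3) * H := Nat.mul_le_mul (by omega) hH
    omega
  have hX1 : (c₁ * (2 * H)) ^ c₁ ≤ T := by
    refine le_trans ?_ ht
    have h1 : c₁ * (2 * H) ≤ c * H := by
      have : c₁ * (2 * H) = (2 * c₁) * H := by ring
      rw [this]
      exact Nat.mul_le_mul_right _ (by omega)
    refine (Nat.pow_le_pow_left h1 _).trans (Nat.pow_le_pow_right ?_ (by omega))
    exact Nat.mul_pos (by omega) hH
  by_cases hz : ∀ n, u n = 0
  · exact Or.inl hz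
  right
  intro B n hB hlt
  have hB1 : 1 ≤ B := by
    by_contra hcon
    apply hz
    refine zero_of_init hF t u hu (fun i hi => ?_)
    have := hB i hi
    exact Int.natAbs_eq_zero.mp (by omega)
  set w : ℤ := u n with hw
  set v : ℕ → ℤ := u - (fun _ => w) with hv
  have hspc : spc (F * (X - 1)) t = spc F t * (X - 1) := by
    rw [spc, spc, Polynomial.map_mul, Polynomial.map_sub, Polynomial.map_X, Polynomial.map_one]
  have hrv : Rec (RingHom.id ℤ) (spc (F * (X - 1)) t) v := by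
    rw [hspc]
    exact rec_sub _ _ _ (rec_mul_right _ _ _ hu) (rec_const _ _)
  have hvn : v n = 0 := by
    show u n - w = 0
    rw [hw, sub_self]
  rcases hX (2 * H) (F * (X - 1)) (isI0_mul hF hN) t hX1 v hrv with h0 | h0
  · exfalso
    have hconst : ∀ k, u k = w := fun k => sub_eq_zero.mp (h0 k)
    have hw0 : w ≠ 0 := by
      intro h
      exact hz (fun k => by rw [hconst k, h])
    have h1 := hu 0
    have h2 : (spc F t).eval 1 * w = 0 := by
      rw [eval_eq_sum_range, Finset.sum_mul, ← h1]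
      refine Finset.sum_congr rfl (fun i _ => ?_)
      rw [hconst, one_pow, mul_one, RingHom.id_apply]
    rw [spc_eval_one] at h2
    have h3 := (mul_eq_zero.mp h2).resolve_right hw0
    refine eval_ne ((m + 2) * H) t ?_ _ (F.eval 1) le_rfl (eval_one_ne hN) (eval_one_coeff hF) h3
    have : (m + 3) * H = (m + 2) * H + H := by ring
    omega
  · set E : ℕ := (m + 1) * ((σ + 1) * (H * T ^ σ) * B) with hE
    have hTσ : 1 ≤ T ^ σ := Nat.one_le_pow _ _ (by omega)
    have hBE : B ≤ E := by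
      have h1 : 1 ≤ (m + 1) * ((σ + 1) * (H * T ^ σ)) :=
        Nat.mul_pos (by omega) (Nat.mul_pos (by omega) (Nat.mul_pos hH hTσ))
      calc B = 1 * B := (one_mul B).symm
        _ ≤ ((m + 1) * ((σ + 1) * (H * T ^ σ))) * B := Nat.mul_le_mul_right _ h1
        _ = E := by rw [hE]; ring
    have hum : (u (m + 1)).natAbs ≤ E := by
      have h1 := rec_eq hF t u hu 0
      rw [zero_add] at h1
      rw [h1, Int.natAbs_neg]
      refine (natAbs_sum_le _ _).trans ?_
      refine (Finset.sum_le_card_nsmul _ _ ((σ + 1) * (H * T ^ σ) * B) (fun i hi => ?_)).trans ?_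
      · rw [Int.natAbs_mul, zero_add]
        exact Nat.mul_le_mul (eval_le hF i t (by omega)) (hB i (by
          have := mem_range.mp hi
          omega))
      · rw [card_range, smul_eq_mul]
    have hvB : ∀ i ≤ m + 1, (v i).natAbs ≤ E + w.natAbs := by
      intro i hi
      have h1 : (v i).natAbs ≤ (u i).natAbs + w.natAbs := Int.natAbs_sub_le _ _
      by_cases him : i ≤ m
      · have := hB i him
        omega
      · have : i = m + 1 := by omega
        rw [this] at h1 ⊢
        omega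
    have h1 : T ^ n ≤ ((E + w.natAbs) * T) ^ c₁ := by
      by_contra hcon
      exact h0 (E + w.natAbs) n hvB (not_le.mp hcon) hvn
    have hEle : E ≤ T ^ (σ + 1) * B := by
      have h2 : (m + 1) * (σ + 1) * H ≤ T := (Nat.mul_le_mul_right H (by omega)).trans hcH
      calc E = ((m + 1) * (σ + 1) * H) * (T ^ σ * B) := by rw [hE]; ring
        _ ≤ T * (T ^ σ * B) := Nat.mul_le_mul_right _ h2
        _ = T ^ (σ + 1) * B := by ring
    exact final T B c c₁ σ n E w.natAbs hT2 hB1 (by omega) (by omega) hEle hlt h1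

end Pool.Agent.Work.MP_8d13b5_lc.Fm
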