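import Pool.Agent.Work.MP_8d13b5_lc.Fm.StmtsFz

set_option autoImplicit false

/-!
Item POW of block FMZ: the polynomial whose roots are the powers `a ^ N`, with sizes. The
characteristic polynomial of the `N`-th power of the companion matrix of the universal polynomial.
-/

namespace Pool.Agent.Work.MP_8d13b5_lc.Fm

open Polynomial NumberField Finset Module

namespace POW

/-! ### A matrix with given characteristic polynomial -/

/-- over any nontrivial ring a monic polynomial is a characteristic polynomial -/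
theorem exists_matrix {A : Type} [CommRing A] [Nontrivial A] (f : A[X]) (hf : f.Monic) (d : ℕ)
    (hd : f.natDegree = d) : ∃ M : Matrix (Fin d) (Fin d) A, M.charpoly = f := by
  subst hd
  have hdim : (AdjoinRoot.powerBasis' hf).dim = f.natDegree := rfl
  let M : Matrix (Fin f.natDegree) (Fin f.natDegree) A :=
    Algebra.leftMulMatrix (AdjoinRoot.powerBasis' hf).basis (AdjoinRoot.root f)
  refine ⟨M, ?_⟩
  have h1 : aeval (AdjoinRoot.root f) M.charpoly = 0 := by
    apply (injective_iff_map_eq_zero (Algebra.leftMulMatrix (AdjoinRoot.powerBasis' hf).basis)).1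
      (Algebra.leftMulMatrix_injective _)
    rw [← Polynomial.aeval_algHom_apply]
    exact Matrix.aeval_self_charpoly M
  rw [AdjoinRoot.aeval_eq, AdjoinRoot.mk_eq_zero] at h1
  have h2 : M.charpoly.natDegree = f.natDegree := by
    rw [Matrix.charpoly_natDegree_eq_dim, Fintype.card_fin]
  exact Polynomial.eq_of_monic_of_dvd_of_natDegree_le hf M.charpoly_monic h1 h2.le

/-- the characteristic polynomial of `M` divides that of `M ^ N` at `X ^ N` -/
theorem dvd_expand {A : Type} [CommRing A] {d : ℕ} (M : Matrix (Fin d) (Fin d) A) (N : ℕ) :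
    M.charpoly ∣ expand A N (M ^ N).charpoly := by
  have h1 : expand A N (M ^ N).charpoly =
      (Matrix.scalar (Fin d) ((X : A[X]) ^ N) - (M.map (C : A →+* A[X])) ^ N).det := by
    rw [Matrix.charpoly, ← AlgHom.coe_toRingHom, RingHom.map_det]
    congr 1
    rw [← Matrix.map_pow]
    ext i j : 1
    by_cases hij : i = j
    · subst hij
      simp
    · simp [hij, Matrix.diagonal]
  have hc : Commute (Matrix.scalar (Fin d) (X : A[X])) (M.map (C : A →+* A[X])) :=
    Matrix.scalar_commute _ (fun r => Commute.all _ _) _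
  rw [h1, map_pow, ← hc.mul_geom_sum₂, Matrix.det_mul]
  exact dvd_mul_right _ _

/-! ### Sizes -/

/-- the specialisation of the universal ring -/
noncomputable def sp {m : ℕ} {A : Type} [CommRing A] (x : Fin (m + 1) → A) :
    MvPolynomial (Fin (m + 1)) ℤ →+* A :=
  MvPolynomial.eval₂Hom (Int.castRingHom A) x

/-- the universal polynomial -/
noncomputable def uF (m : ℕ) : (MvPolynomial (Fin (m + 1)) ℤ)[X] :=
  X ^ (m + 1) + ∑ i : Fin (m + 1), C (MvPolynomial.X i) * X ^ (i : ℕ)

theorem uF_low (m : ℕ) : (∑ i : Fin (m + 1), C (MvPolynomial.X i) * X ^ (i : ℕ) :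
    (MvPolynomial (Fin (m + 1)) ℤ)[X]).degree < ((m + 1 : ℕ) : WithBot ℕ) := by
  rw [degree_lt_iff_coeff_zero]
  intro k hk
  rw [finsetSum_coeff]
  refine Finset.sum_eq_zero fun i _ => ?_
  rw [coeff_C_mul, coeff_X_pow, if_neg (by have := i.2; omega), mul_zero]

theorem uF_monic (m : ℕ) : (uF m).Monic := monic_X_pow_add (uF_low m)

theorem uF_deg (m : ℕ) : (uF m).natDegree = m + 1 := by
  unfold uF
  rw [natDegree_add_eq_left_of_degree_lt, natDegree_X_pow]
  rw [degree_X_pow]
  exact uF_low m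

theorem uF_map {m : ℕ} {A : Type} [CommRing A] (F : A[X]) (hF : F.Monic)
    (hd : F.natDegree = m + 1) : (uF m).map (sp fun i : Fin (m + 1) => F.coeff (i : ℕ)) = F := by
  conv_rhs => rw [hF.as_sum, hd]
  unfold uF
  rw [Polynomial.map_add, Polynomial.map_pow, Polynomial.map_X, Polynomial.map_sum,
    ← Fin.sum_univ_eq_sum_range (fun i => C (F.coeff i) * X ^ i)]
  congr 1
  refine Finset.sum_congr rfl fun i _ => ?_
  rw [Polynomial.map_mul, Polynomial.map_C, Polynomial.map_pow, Polynomial.map_X]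
  unfold sp
  rw [MvPolynomial.eval₂Hom_X']

theorem mono {c₁ c H : ℕ} (h1 : 1 ≤ c₁) (h : c₁ ≤ c) (hH : 1 ≤ H) : (c₁ * H) ^ c₁ ≤ (c * H) ^ c := by
  have h2 : 1 ≤ c * H := Nat.mul_pos (by omega) hH
  calc (c₁ * H) ^ c₁ ≤ (c * H) ^ c₁ := Nat.pow_le_pow_left (Nat.mul_le_mul_right _ h) _
    _ ≤ (c * H) ^ c := Nat.pow_le_pow_right h2 h

theorem coeff_mul_le (p q : ℤ[X]) (σ A H : ℕ) (hq : q.natDegree ≤ σ) (hp : ∀ j, (p.coeff j).natAbs ≤ A)
    (hqc : ∀ j, (q.coeff j).natAbs ≤ H) (n : ℕ) : ((p * q).coeff n).natAbs ≤ (σ + 1) * (A * H) := by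
  rw [mul_comm p q, coeff_mul, Finset.Nat.sum_antidiagonal_eq_sum_range_succ_mk]
  refine (Int.natAbs_sum_le _ _).trans ?_
  calc ∑ k ∈ range n.succ, (q.coeff (k, n - k).1 * p.coeff (k, n - k).2).natAbs
      ≤ ∑ k ∈ range n.succ, if k ∈ range (σ + 1) then A * H else 0 := by
        refine Finset.sum_le_sum fun k _ => ?_
        split_ifs with hk
        · rw [Int.natAbs_mul, mul_comm A H]
          exact Nat.mul_le_mul (hqc _) (hp _)
        · rw [coeff_eq_zero_of_natDegree_lt (by rw [mem_range] at hk; show q.natDegree < k; omega)]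
          simp
    _ ≤ ∑ k ∈ range (σ + 1), A * H := by
        rw [← Finset.sum_filter]
        refine Finset.sum_le_sum_of_subset fun k hk => ?_
        exact (Finset.mem_filter.1 hk).2
    _ = (σ + 1) * (A * H) := by rw [Finset.sum_const, card_range, smul_eq_mul]

/-- polynomial bounds for the specialisations of a fixed element of the universal ring -/
theorem good (m σ : ℕ) (P : MvPolynomial (Fin (m + 1)) ℤ) :
    ∃ c : ℕ, 1 ≤ c ∧ ∀ x : Fin (m + 1) → ℤ[X], (∀ i, (x i).natDegree ≤ σ) → ∀ H : ℕ, 1 ≤ H →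
      (∀ i j, ((x i).coeff j).natAbs ≤ H) →
      (sp x P).natDegree ≤ c ∧ ∀ j, ((sp x P).coeff j).natAbs ≤ (c * H) ^ c := by
  induction P using MvPolynomial.induction_on with
  | C a =>
    refine ⟨a.natAbs + 1, by omega, fun x _ H hH _ => ?_⟩
    have e : sp x (MvPolynomial.C a) = C a := by
      unfold sp
      rw [MvPolynomial.eval₂Hom_C]
      simp
    rw [e]
    refine ⟨by rw [natDegree_C]; exact Nat.zero_le _, fun j => ?_⟩
    have h1 : ((C a : ℤ[X]).coeff j).natAbs ≤ a.natAbs := by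
      rw [coeff_C]
      split_ifs <;> simp
    refine h1.trans ?_
    have h2 : 1 ≤ (a.natAbs + 1) * H := Nat.one_le_iff_ne_zero.2 (by positivity)
    calc a.natAbs ≤ (a.natAbs + 1) * H := by nlinarith
      _ ≤ ((a.natAbs + 1) * H) ^ (a.natAbs + 1) := Nat.le_self_pow (by omega) _
  | add p q hp hq =>
    obtain ⟨c₁, h1, h2⟩ := hp
    obtain ⟨c₂, h3, h4⟩ := hq
    refine ⟨c₁ + c₂, by omega, fun x hx H hH hc => ?_⟩
    obtain ⟨a1, a2⟩ := h2 x hx H hH hc
    obtain ⟨b1, b2⟩ := h4 x hx H hH hc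
    rw [map_add]
    refine ⟨(natDegree_add_le _ _).trans (by omega), fun j => ?_⟩
    rw [coeff_add]
    refine (Int.natAbs_add_le _ _).trans ?_
    have u1 : (c₁ * H) ^ c₁ ≤ ((c₁ + c₂) * H) ^ c₁ :=
      Nat.pow_le_pow_left (Nat.mul_le_mul_right _ (by omega)) _
    have u2 : (c₂ * H) ^ c₂ ≤ ((c₁ + c₂) * H) ^ c₂ :=
      Nat.pow_le_pow_left (Nat.mul_le_mul_right _ (by omega)) _
    have h5 : 2 ≤ (c₁ + c₂) * H := by nlinarith
    have v1 : 2 ≤ ((c₁ + c₂) * H) ^ c₁ := h5.trans (Nat.le_self_pow (by omega) _)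
    have v2 : 2 ≤ ((c₁ + c₂) * H) ^ c₂ := h5.trans (Nat.le_self_pow (by omega) _)
    rw [pow_add]
    have := a2 j
    have := b2 j
    nlinarith
  | mul_X p i hp =>
    obtain ⟨c₁, h1, h2⟩ := hp
    refine ⟨c₁ + σ + 1, by omega, fun x hx H hH hc => ?_⟩
    obtain ⟨a1, a2⟩ := h2 x hx H hH hc
    have e : sp x (p * MvPolynomial.X i) = sp x p * x i := by
      rw [map_mul]
      unfold sp
      rw [MvPolynomial.eval₂Hom_X']
    rw [e]
    refine ⟨natDegree_mul_le.trans (by have := hx i; omega), fun j => ?_⟩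
    refine (coeff_mul_le _ _ σ _ H (hx i) a2 (hc i) j).trans ?_
    have h6 : 1 ≤ (c₁ + σ + 1) * H := Nat.one_le_iff_ne_zero.2 (by positivity)
    calc (σ + 1) * ((c₁ * H) ^ c₁ * H) = (c₁ * H) ^ c₁ * ((σ + 1) * H) := by ring
      _ ≤ ((c₁ + σ + 1) * H) ^ c₁ * ((c₁ + σ + 1) * H) := by
          refine Nat.mul_le_mul (Nat.pow_le_pow_left (Nat.mul_le_mul_right _ (by omega)) _)
            (Nat.mul_le_mul_right _ (by omega))
      _ = ((c₁ + σ + 1) * H) ^ (c₁ + 1) := (pow_succ _ _).symm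
      _ ≤ ((c₁ + σ + 1) * H) ^ (c₁ + σ + 1) := Nat.pow_le_pow_right h6 (by omega)

end POW

open POW in
/-- **item POW** -/
theorem prPOW : StPOW := by
  intro d σ N hd hN
  obtain ⟨m, rfl⟩ : ∃ m, d = m + 1 := ⟨d - 1, by omega⟩
  obtain ⟨Mu, hMu⟩ := exists_matrix (uF m) (uF_monic m) (m + 1) (uF_deg m)
  have hgood := fun j : ℕ => good m σ ((Mu ^ N).charpoly.coeff j)
  choose c hc1 hc2 using hgood
  set cc : ℕ := 1 + ∑ j ∈ range (m + 2), c j with hcc
  have hcj : ∀ j ∈ range (m + 2), c j ≤ cc := fun j hj => by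
    have := Finset.single_le_sum (f := c) (fun i _ => Nat.zero_le _) hj
    omega
  refine ⟨cc, by omega, fun H F hF => ?_⟩
  set x : Fin (m + 1) → ℤ[X] := fun i => F.coeff (i : ℕ) with hx
  set M : Matrix (Fin (m + 1)) (Fin (m + 1)) ℤ[X] := Mu.map (sp x) with hM
  have hMF : M.charpoly = F := by
    rw [hM, Matrix.charpoly_map, hMu]
    exact uF_map F hF.monic hF.deg
  have hMN : (M ^ N).charpoly = (Mu ^ N).charpoly.map (sp x) := by
    rw [hM, ← Matrix.map_pow, Matrix.charpoly_map]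
  have hdet : ∀ B : Matrix (Fin (m + 1)) (Fin (m + 1)) ℤ[X], B.charpoly.coeff 0 ≠ 0 ↔ B.det ≠ 0 := by
    intro B
    rw [Matrix.det_eq_sign_charpoly_coeff]
    constructor
    · intro h
      exact mul_ne_zero (pow_ne_zero _ (by simp)) h
    · intro h
      exact right_ne_zero_of_mul h
  refine ⟨(M ^ N).charpoly, ⟨(M ^ N).charpoly_monic, ?_, ?_, ?_, ?_, ?_⟩, ?_, ?_⟩
  · rw [Matrix.charpoly_natDegree_eq_dim, Fintype.card_fin]
  · rw [hdet, Matrix.det_pow]
    apply pow_ne_zero
    rw [← hdet, hMF]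
    exact hF.ne
  · exact Nat.one_le_pow _ _ (Nat.mul_pos (by omega) hF.one)
  · intro i
    by_cases hi : i ∈ range (m + 2)
    · rw [hMN, coeff_map]
      exact ((hc2 i x (fun k => hF.dg k) H hF.one (fun k l => hF.ht k l)).1).trans (hcj i hi)
    · rw [coeff_eq_zero_of_natDegree_lt, natDegree_zero]
      · exact Nat.zero_le _
      · rw [Matrix.charpoly_natDegree_eq_dim, Fintype.card_fin]
        rw [mem_range] at hi
        omega
  · intro i j
    by_cases hi : i ∈ range (m + 2)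
    · rw [hMN, coeff_map]
      exact ((hc2 i x (fun k => hF.dg k) H hF.one (fun k l => hF.ht k l)).2 j).trans
        (mono (hc1 i) (hcj i hi) hF.one)
    · have h0 : (M ^ N).charpoly.coeff i = 0 := by
        apply coeff_eq_zero_of_natDegree_lt
        rw [Matrix.charpoly_natDegree_eq_dim, Fintype.card_fin]
        rw [mem_range] at hi
        omega
      rw [h0, coeff_zero, Int.natAbs_zero]
      exact Nat.zero_le _
  · have h := dvd_expand M N
    rw [hMF] at h
    exact h
  · intro y hy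
    rw [← Matrix.charpoly_map, Matrix.map_pow] at hy
    have h1 : y ∈ spectrum (AlgebraicClosure (FractionRing ℤ[X]))
        ((M.map (algebraMap ℤ[X] (AlgebraicClosure (FractionRing ℤ[X])))) ^ N) :=
      Matrix.mem_spectrum_iff_isRoot_charpoly.2 hy
    rw [spectrum.map_pow_of_pos _ (by omega)] at h1
    obtain ⟨a, ha, hay⟩ := h1
    refine ⟨a, hay.symm, ?_⟩
    have h2 := Matrix.mem_spectrum_iff_isRoot_charpoly.1 ha
    rw [Matrix.charpoly_map, hMF] at h2
    exact h2

end Pool.Agent.Work.MP_8d13b5_lc.Fm
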