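import Pool.Agent.Work.MP_8d13b5_lc.Fm.StmtsFz

set_option autoImplicit false

/-! Item PRZ: products of solutions. -/

namespace Pool.Agent.Work.MP_8d13b5_lc.Fm

open Polynomial NumberField Finset Module

namespace PRZ

variable {R : Type} [CommRing R]

theorem shift {P : R[X]} {u : ℕ → R} (h : Pd.Sol P u) (i : ℕ) : Pd.Sol P (fun n => u (n + i)) := by
  intro n
  refine (Finset.sum_congr rfl fun j _ => ?_).trans (h (n + i))
  show P.coeff j * u (n + j + i) = P.coeff j * u (n + i + j)
  rw [show n + j + i = n + i + j by omega]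

theorem tel (θ : R) (y : ℕ → R) (n i : ℕ) :
    y (n + i) = θ ^ i * y n + ∑ l ∈ range i, θ ^ (i - 1 - l) * (y (n + l + 1) - θ * y (n + l)) := by
  induction i with
  | zero => simp
  | succ i ih =>
    have h1 : ∑ l ∈ range i, θ ^ (i + 1 - 1 - l) * (y (n + l + 1) - θ * y (n + l)) =
        θ * ∑ l ∈ range i, θ ^ (i - 1 - l) * (y (n + l + 1) - θ * y (n + l)) := by
      rw [Finset.mul_sum]
      refine Finset.sum_congr rfl fun l hl => ?_
      rw [Finset.mem_range] at hl
      rw [← mul_assoc, ← pow_succ', show i - 1 - l + 1 = i + 1 - 1 - l by omega]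
    rw [Finset.sum_range_succ, h1, show i + 1 - 1 - i = 0 by omega, pow_zero, one_mul,
      show n + (i + 1) = n + i + 1 by omega, pow_succ]
    linear_combination θ * ih

theorem step (g : R[X]) (Q : R[X]) (θ : R) (x y : ℕ → R) (hx : Pd.Sol g x)
    (hQ : ∀ i l : ℕ, Pd.Sol Q (fun n => x (n + i) * (y (n + l + 1) - θ * y (n + l)))) :
    Pd.Sol (g.scaleRoots θ * Q) (fun n => x n * y n) := by
  rw [Pd.sol_iff, mul_comm, map_mul, Module.End.mul_apply, ← Pd.sol_iff]
  have h1 : aeval (Pd.shf R) (g.scaleRoots θ) (fun n => x n * y n) =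
      fun n => ∑ i ∈ range (g.natDegree + 1), ∑ l ∈ range i,
        (g.coeff i * θ ^ (g.natDegree - i) * θ ^ (i - 1 - l)) * (x (n + i) * (y (n + l + 1) - θ * y (n + l))) := by
    funext n
    rw [Pd.aeval_shf, natDegree_scaleRoots]
    have h2 : ∑ i ∈ range (g.natDegree + 1), (g.scaleRoots θ).coeff i * (x (n + i) * y (n + i)) =
        ∑ i ∈ range (g.natDegree + 1), (θ ^ g.natDegree * y n * (g.coeff i * x (n + i)) +
          ∑ l ∈ range i, (g.coeff i * θ ^ (g.natDegree - i) * θ ^ (i - 1 - l)) * (x (n + i) * (y (n + l + 1) - θ * y (n + l)))) := by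
      refine Finset.sum_congr rfl fun i hi => ?_
      rw [Finset.mem_range] at hi
      have h3 : ∑ l ∈ range i, (g.coeff i * θ ^ (g.natDegree - i) * θ ^ (i - 1 - l)) * (x (n + i) * (y (n + l + 1) - θ * y (n + l))) =
          g.coeff i * θ ^ (g.natDegree - i) * x (n + i) * ∑ l ∈ range i, θ ^ (i - 1 - l) * (y (n + l + 1) - θ * y (n + l)) := by
        rw [Finset.mul_sum]
        exact Finset.sum_congr rfl fun l _ => by ring
      have h4 : θ ^ g.natDegree = θ ^ (g.natDegree - i) * θ ^ i := by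
        rw [← pow_add, Nat.sub_add_cancel (by omega)]
      rw [h3, coeff_scaleRoots, tel θ y n i, h4]
      ring
    rw [h2, Finset.sum_add_distrib, ← Finset.mul_sum]
    have h5 : ∑ i ∈ range (g.natDegree + 1), g.coeff i * x (n + i) = 0 := hx n
    rw [h5, mul_zero, zero_add]
  rw [h1]
  refine Pd.Sol.sum _ fun i _ => Pd.Sol.sum _ fun l _ => ?_
  exact (hQ i l).smul _

theorem main (g : R[X]) (r : ℕ) : ∀ (θ : Fin r → R) (x y : ℕ → R),
    Pd.Sol g x → Pd.Sol (∏ j, (X - C (θ j))) y →
    Pd.Sol (∏ j, g.scaleRoots (θ j)) (fun n => x n * y n) := by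
  induction r with
  | zero =>
    intro θ x y _ hy
    have hy0 : ∀ n, y n = 0 := by
      intro n
      have := hy n
      simpa using this
    intro n
    simp [hy0]
  | succ r ih =>
    intro θ x y hx hy
    rw [Fin.prod_univ_succ] at hy ⊢
    have hy' : Pd.Sol (∏ j : Fin r, (X - C (θ j.succ))) (fun n => y (n + 1) - θ 0 * y n) := by
      rw [Pd.sol_iff, mul_comm, map_mul, Module.End.mul_apply, ← Pd.sol_iff] at hy
      have h1 : (aeval (Pd.shf R) (X - C (θ 0))) y = fun n => y (n + 1) - θ 0 * y n := by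
        rw [map_sub, aeval_X, aeval_C]
        rfl
      rwa [h1] at hy
    refine step g _ (θ 0) x y hx fun i l => ?_
    exact ih (fun j => θ j.succ) (fun n => x (n + i)) (fun n => y (n + l + 1) - θ 0 * y (n + l)) (shift hx i)
      (shift hy' l)

end PRZ

theorem prPRZ : StPRZ := by
  intro R _ _ g r θ x y _ hx hy
  exact PRZ.main g r θ x y hx hy

end Pool.Agent.Work.MP_8d13b5_lc.Fm
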