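import Pool.Agent.Work.MP_8d13b5_lc.Fm.StmtsFz
import Pool.Agent.Work.MP_8d13b5_lc.Fm.I_RDC

set_option autoImplicit false

/-! Block `Fm`, item RDU (helper27): the polynomial of the `N`-th powers of the roots, uniform in the
family. The analytic part (`NonConst`) is `RDC.nonconst` of helper54, the exponent is `N₀!` with the
`N₀` of TOR. -/

namespace Pool.Agent.Work.MP_8d13b5_lc.Fm

open Polynomial NumberField Finset Module

namespace RDU

abbrev k0 : Type := FractionRing ℤ[X]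

abbrev Om : Type := AlgebraicClosure k0

theorem inj : Function.Injective (algebraMap ℤ[X] Om) := by
  rw [IsScalarTower.algebraMap_eq ℤ[X] k0 Om]
  exact (algebraMap k0 Om).injective.comp (IsFractionRing.injective ℤ[X] k0)

/-- `IsDH` is monotone in `σ` and `H` -/
theorem mono {d σ σ' H H' : ℕ} {F : ℤ[X][X]} (h : IsDH d σ H F) (hσ : σ ≤ σ') (hH : H ≤ H') :
    IsDH d σ' H' F :=
  ⟨h.monic, h.deg, h.ne, h.one.trans hH, fun i => (h.dg i).trans hσ,
    fun i j => (h.ht i j).trans hH⟩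

/-- the sizes -/
theorem size {c₁ c₂ : ℕ} (h₁ : 1 ≤ c₁) (h₂ : 1 ≤ c₂) (H : ℕ) (hH : 1 ≤ H) :
    c₂ * (c₁ * H) ^ c₁ ≤ (c₁ * c₂ * H) ^ (c₁ * c₂) := by
  have h3 : c₂ ≤ c₂ ^ c₁ := Nat.le_self_pow (by omega) c₂
  have h4 : 1 ≤ c₁ * c₂ * H := by
    have := Nat.mul_pos (Nat.mul_pos (by omega : 0 < c₁) (by omega : 0 < c₂)) (by omega : 0 < H)
    omega
  calc c₂ * (c₁ * H) ^ c₁ ≤ c₂ ^ c₁ * (c₁ * H) ^ c₁ := Nat.mul_le_mul_right _ h3
    _ = (c₁ * c₂ * H) ^ c₁ := by rw [← mul_pow]; congr 1; ring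
    _ ≤ (c₁ * c₂ * H) ^ (c₁ * c₂) := by
      refine Nat.pow_le_pow_right h4 ?_
      exact Nat.le_mul_of_pos_right _ (by omega)

/-- the exponent `N₀!` kills the torsion quotients of the roots -/
theorem torsion {N₀ : ℕ} {F : ℤ[X][X]} (h0 : F.coeff 0 ≠ 0)
    (hT : ∀ (n : ℕ) (c : ℂ), 1 ≤ n → IsPrimitiveRoot c n →
      ¬IsCoprime (hat F) ((hat F).scaleRoots (algebraMap ℂ (RatFunc ℂ) c)) → n ≤ N₀)
    (a b : AlgebraicClosure (RatFunc ℂ)) (ha : aeval a (hat F) = 0) (hb : aeval b (hat F) = 0)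
    (hn : ∃ n : ℕ, 1 ≤ n ∧ (a / b) ^ n = 1) : (a / b) ^ N₀.factorial = 1 := by
  obtain ⟨n, hn, hn'⟩ := hn
  have hb0 : b ≠ 0 := RDC.root_ne_zero h0 hb
  obtain ⟨c, hc, hcn⟩ := RDC.const_of_pow (x := a / b) (c := 1) hn (by rw [hn', map_one])
  have ho : 1 ≤ orderOf c := by
    have h1 : orderOf c ∣ n := orderOf_dvd_of_pow_eq_one hcn
    exact Nat.pos_of_dvd_of_pos h1 (by omega)
  have haeq : a = RDC.ka c * b := by rw [hc, div_mul_cancel₀ a hb0]
  have hnc : ¬IsCoprime (hat F) ((hat F).scaleRoots (algebraMap ℂ (RatFunc ℂ) c)) := by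
    intro hcop
    have h1 := (isCoprime_iff_aeval_ne_zero_of_isAlgClosed (RatFunc ℂ)
      (AlgebraicClosure (RatFunc ℂ)) _ _).1 hcop
    rcases h1 a with h2 | h2
    · exact h2 ha
    · refine h2 ?_
      rw [haeq, aeval_def, RDC.algebraMap_C, RDC.ka_apply, scaleRoots_eval₂_mul, ← aeval_def, hb,
        mul_zero]
  have h1 := hT (orderOf c) c ho (IsPrimitiveRoot.orderOf c) hnc
  have h2 : orderOf c ∣ N₀.factorial := Nat.dvd_factorial (by omega) h1
  rw [← hc, ← map_pow, orderOf_dvd_iff_pow_eq_one.1 h2, map_one]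

/-- the roots of `F` are roots of `expand N G` -/
theorem root_expand {F G Q : ℤ[X][X]} {N d : ℕ} (hFQ : F ∣ expand ℤ[X] N Q) (hQG : Q ∣ G ^ d)
    {a : Om} (ha : (F.map (algebraMap ℤ[X] Om)).eval a = 0) :
    ((expand ℤ[X] N G).map (algebraMap ℤ[X] Om)).eval a = 0 := by
  have h1 : ((expand ℤ[X] N Q).map (algebraMap ℤ[X] Om)).eval a = 0 := by
    obtain ⟨P, hP⟩ := hFQ
    rw [hP, Polynomial.map_mul, eval_mul, ha, zero_mul]
  rw [map_expand, expand_eval] at h1 ⊢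
  obtain ⟨P, hP⟩ := hQG
  have h2 : ((G ^ d).map (algebraMap ℤ[X] Om)).eval (a ^ N) = 0 := by
    rw [hP, Polynomial.map_mul, eval_mul, h1, zero_mul]
  rw [Polynomial.map_pow, eval_pow] at h2
  exact eq_zero_of_pow_eq_zero h2

/-- the separable case -/
theorem dvd_of_sep {F G Q : ℤ[X][X]} {N d : ℕ} (hN : 1 ≤ N) (hF : F.Monic) (hG : G.Monic)
    (hFQ : F ∣ expand ℤ[X] N Q) (hQG : Q ∣ G ^ d)
    (hsep : (F.map (algebraMap ℤ[X] (FractionRing ℤ[X]))).Separable) : F ∣ expand ℤ[X] N G := by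
  have hF0 : F.map (algebraMap ℤ[X] Om) ≠ 0 := (hF.map _).ne_zero
  have hsplit : (F.map (algebraMap ℤ[X] Om)) =
      ((F.map (algebraMap ℤ[X] Om)).roots.map (fun a => X - C a)).prod :=
    (IsAlgClosed.splits (F.map (algebraMap ℤ[X] Om))).eq_prod_roots_of_monic (hF.map _)
  have hE0 : (expand ℤ[X] N G).map (algebraMap ℤ[X] Om) ≠ 0 := by
    rw [map_expand]
    intro h
    rw [expand_eq_zero (by omega)] at h
    exact (hG.map _).ne_zero h
  rw [← map_dvd_map _ inj hF, hsplit, Multiset.prod_X_sub_C_dvd_iff_le_roots hE0]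
  refine (Multiset.le_iff_subset ?_).2 ?_
  · refine nodup_roots ?_
    have h1 : F.map (algebraMap ℤ[X] Om) = (F.map (algebraMap ℤ[X] k0)).map (algebraMap k0 Om) := by
      rw [Polynomial.map_map]
      congr 1
    rw [h1]
    exact hsep.map
  · intro a ha
    rw [mem_roots hF0] at ha
    rw [mem_roots hE0]
    exact root_expand hFQ hQG ha

end RDU

open RDU in
theorem prRDU (hTOR : StTOR) (hPOW : StPOW) (hSQF : StSQF) : StRDU := by
  intro d σ hd
  obtain ⟨N₀, hN₀⟩ := hTOR d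
  have hN : 1 ≤ N₀.factorial := Nat.factorial_pos N₀
  obtain ⟨c₁, hc₁, hP⟩ := hPOW d σ N₀.factorial hd hN
  obtain ⟨c₂, hc₂, hS⟩ := hSQF d c₁ hd
  refine ⟨N₀.factorial, c₁ * c₂, hN, Nat.mul_pos (by omega) (by omega), ?_⟩
  intro H F hF hiso
  obtain ⟨Q, hQ, hFQ, hroots⟩ := hP H F hF
  obtain ⟨k, G, hk, hkd, hG, hGs, hGQ, hQG⟩ := hS _ Q hQ
  have hr : ∀ y : AlgebraicClosure (FractionRing ℤ[X]),
      (G.map (algebraMap ℤ[X] (AlgebraicClosure (FractionRing ℤ[X])))).eval y = 0 →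
      ∃ a : AlgebraicClosure (FractionRing ℤ[X]), y = a ^ N₀.factorial ∧
        (F.map (algebraMap ℤ[X] (AlgebraicClosure (FractionRing ℤ[X])))).eval a = 0 := by
    intro y hy
    refine hroots y ?_
    obtain ⟨P, hP⟩ := hGQ
    rw [hP, Polynomial.map_mul, eval_mul, hy, zero_mul]
  refine ⟨k, G, hk, hkd, ?_, ?_, ?_, ?_⟩
  · exact mono hG (Nat.le_mul_of_pos_right _ (by omega)) (size hc₁ hc₂ H hF.one)
  · exact RDC.nonconst hN hF.ne hiso
      (fun a b ha hb hn => torsion hF.ne (hN₀ F hF.monic hF.deg hF.ne) a b ha hb hn) hG.monic hGs hr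
  · refine hFQ.trans ?_
    obtain ⟨P, hP⟩ := hQG
    exact ⟨expand ℤ[X] N₀.factorial P, by rw [← map_pow, hP, map_mul]⟩
  · intro hsep
    exact dvd_of_sep hN hF.monic hG.monic hFQ hQG hsep

end Pool.Agent.Work.MP_8d13b5_lc.Fm
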