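import Pool.Agent.Work.MP_8d13b5_lc.Fm.StmtsFz
import Mathlib.Analysis.Polynomial.MahlerMeasure
import Mathlib.NumberTheory.MahlerMeasure

set_option autoImplicit false

namespace Pool.Agent.Work.MP_8d13b5_lc.Fm

open Polynomial NumberField Finset Module

namespace SQF

/-! ### The square-free part -/

/-- monic irreducible factors -/
theorem exists_factors (Q : ℤ[X][X]) (hQ : Q.Monic) :
    ∃ s : Multiset ℤ[X][X], (∀ p ∈ s, p.Monic ∧ Irreducible p) ∧ s.prod = Q := by
  classical
  have hne : Q ≠ 0 := hQ.ne_zero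
  have key : ∀ p ∈ UniqueFactorizationMonoid.normalizedFactors Q, p.Monic ∧ Irreducible p := by
    intro p hp
    have hirr : Irreducible p := UniqueFactorizationMonoid.irreducible_of_normalized_factor p hp
    refine ⟨?_, hirr⟩
    have hdvd : p ∣ Q := UniqueFactorizationMonoid.dvd_of_mem_normalizedFactors hp
    have hn : normalize p = p := UniqueFactorizationMonoid.normalize_normalized_factor p hp
    have hu : IsUnit p.leadingCoeff := by
      obtain ⟨q, hq⟩ := hdvd
      have h1 : p.leadingCoeff * q.leadingCoeff = 1 := by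
        rw [← leadingCoeff_mul, ← hq]; exact hQ
      exact IsUnit.of_mul_eq_one _ h1
    have h2 : p.leadingCoeff = normalize p.leadingCoeff := by
      conv_lhs => rw [← hn]
      exact leadingCoeff_normalize p
    rw [Monic, h2]
    exact normalize_eq_one.mpr hu
  refine ⟨UniqueFactorizationMonoid.normalizedFactors Q, key, ?_⟩
  refine eq_of_monic_of_associated ?_ hQ (UniqueFactorizationMonoid.prod_normalizedFactors hne)
  exact Multiset.prod_induction (fun p : ℤ[X][X] => p.Monic) _ (fun a b ha hb => ha.mul hb)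
    monic_one (fun p hp => (key p hp).1)

/-- the number of the factors is at most the degree -/
theorem card_le (s : Multiset ℤ[X][X]) (hs : ∀ p ∈ s, p.Monic ∧ Irreducible p) :
    s.card ≤ s.prod.natDegree := by
  induction s using Multiset.induction_on with
  | empty => simp
  | cons p s ih =>
    have hp := hs p (Multiset.mem_cons_self p s)
    have hs' : ∀ q ∈ s, q.Monic ∧ Irreducible q := fun q hq => hs q (Multiset.mem_cons_of_mem hq)
    have hm : s.prod.Monic := Multiset.prod_induction (fun p : ℤ[X][X] => p.Monic) _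
      (fun a b ha hb => ha.mul hb) monic_one (fun q hq => (hs' q hq).1)
    rw [Multiset.card_cons, Multiset.prod_cons, hp.1.natDegree_mul hm]
    have h1 : 1 ≤ p.natDegree := by
      rcases Nat.eq_zero_or_pos p.natDegree with h | h
      · exact absurd ((hp.1.natDegree_eq_zero.mp h) ▸ isUnit_one) hp.2.not_isUnit
      · exact h
    have := ih hs'
    omega

/-- distinct monic irreducible polynomials stay coprime over the fraction field -/
theorem coprime_map (p q : ℤ[X][X]) (hp : p.Monic ∧ Irreducible p) (hq : q.Monic ∧ Irreducible q)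
    (hne : p ≠ q) :
    IsCoprime (p.map (algebraMap ℤ[X] (FractionRing ℤ[X])))
      (q.map (algebraMap ℤ[X] (FractionRing ℤ[X]))) := by
  have hinj : Function.Injective (algebraMap ℤ[X] (FractionRing ℤ[X])) :=
    IsFractionRing.injective ℤ[X] (FractionRing ℤ[X])
  have hpi : Irreducible (p.map (algebraMap ℤ[X] (FractionRing ℤ[X]))) :=
    (Monic.irreducible_iff_irreducible_map_fraction_map hp.1).mp hp.2
  have hqi : Irreducible (q.map (algebraMap ℤ[X] (FractionRing ℤ[X]))) :=
    (Monic.irreducible_iff_irreducible_map_fraction_map hq.1).mp hq.2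
  rw [hpi.coprime_iff_not_dvd]
  intro hd
  have ha := hpi.associated_of_dvd hqi hd
  have he := eq_of_monic_of_associated (hp.1.map _) (hq.1.map _) ha
  exact hne (Polynomial.map_injective _ hinj he)

/-- the square-free part -/
theorem exists_rad (Q : ℤ[X][X]) (hQ : Q.Monic) (hd : 1 ≤ Q.natDegree) :
    ∃ G G' : ℤ[X][X], G.Monic ∧ Q = G * G' ∧ Q ∣ G ^ Q.natDegree ∧
      (G.map (algebraMap ℤ[X] (FractionRing ℤ[X]))).Separable := by
  classical
  obtain ⟨s, hs, hprod⟩ := exists_factors Q hQ
  have hG : s.dedup.prod ∣ Q := by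
    rw [← hprod]
    exact Multiset.prod_dvd_prod_of_le (Multiset.dedup_le s)
  obtain ⟨G', hG'⟩ := hG
  have hds : ∀ p ∈ s.dedup, p.Monic ∧ Irreducible p := fun p hp => hs p (Multiset.mem_dedup.mp hp)
  refine ⟨s.dedup.prod, G', ?_, hG', ?_, ?_⟩
  · exact Multiset.prod_induction (fun p : ℤ[X][X] => p.Monic) _ (fun a b ha hb => ha.mul hb)
      monic_one (fun p hp => (hds p hp).1)
  · have h1 : ∀ t : Multiset ℤ[X][X], (∀ p ∈ t, p ∈ s) → t.prod ∣ s.dedup.prod ^ t.card := by
      intro t
      induction t using Multiset.induction_on with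
      | empty => intro _; simp
      | cons p t ih =>
        intro ht
        rw [Multiset.prod_cons, Multiset.card_cons, pow_succ']
        refine mul_dvd_mul ?_ (ih fun q hq => ht q (Multiset.mem_cons_of_mem hq))
        exact Multiset.dvd_prod (Multiset.mem_dedup.mpr (ht p (Multiset.mem_cons_self p t)))
    have h2 := h1 s (fun p hp => hp)
    have h3 : s.card ≤ Q.natDegree := by
      have := card_le s hs
      rwa [hprod] at this
    rw [hprod] at h2
    exact h2.trans (pow_dvd_pow _ h3)
  · have h4 : s.dedup.prod = ∏ p ∈ s.toFinset, p := by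
      rw [Finset.prod, Multiset.toFinset_val, Multiset.map_id']
    rw [h4, Polynomial.map_prod]
    refine separable_prod' ?_ ?_
    · intro x hx y hy hxy
      exact coprime_map x y (hs x (Multiset.mem_toFinset.mp hx)) (hs y (Multiset.mem_toFinset.mp hy)) hxy
    · intro x hx
      have hx' := hs x (Multiset.mem_toFinset.mp hx)
      have hpi : Irreducible (x.map (algebraMap ℤ[X] (FractionRing ℤ[X]))) :=
        (Monic.irreducible_iff_irreducible_map_fraction_map hx'.1).mp hx'.2
      haveI : CharZero (FractionRing ℤ[X]) := by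
        exact charZero_of_injective_algebraMap
          (IsFractionRing.injective ℤ[X] (FractionRing ℤ[X]))
      exact hpi.separable

/-! ### The degree in `t` -/

theorem coeff_swap (P : ℤ[X][X]) (i j : ℕ) :
    ((Bivariate.swap P).coeff j).coeff i = (P.coeff i).coeff j := by
  induction P using Polynomial.induction_on' with
  | add p q hp hq => simp only [map_add, coeff_add, hp, hq]
  | monomial n f =>
    induction f using Polynomial.induction_on' with
    | add p q hp hq => simp only [map_add, coeff_add, hp, hq]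
    | monomial m r =>
      rw [Bivariate.swap_monomial_monomial]
      simp only [coeff_monomial]
      split_ifs <;> simp_all [coeff_monomial]

theorem swap_natDegree_le (P : ℤ[X][X]) (σ : ℕ) :
    (Bivariate.swap P).natDegree ≤ σ ↔ ∀ i, (P.coeff i).natDegree ≤ σ := by
  constructor
  · intro h i
    rw [natDegree_le_iff_coeff_eq_zero]
    intro j hj
    rw [← coeff_swap]
    rw [coeff_eq_zero_of_natDegree_lt (lt_of_le_of_lt h hj), coeff_zero]
  · intro h
    rw [natDegree_le_iff_coeff_eq_zero]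
    intro j hj
    ext i
    rw [coeff_swap, coeff_zero]
    exact coeff_eq_zero_of_natDegree_lt (lt_of_le_of_lt (h i) hj)

theorem deg_factor (Q G G' : ℤ[X][X]) (hQ : Q ≠ 0) (h : Q = G * G') (σ : ℕ)
    (hσ : ∀ i, (Q.coeff i).natDegree ≤ σ) : ∀ i, (G.coeff i).natDegree ≤ σ := by
  rw [← swap_natDegree_le] at hσ ⊢
  have hG : G ≠ 0 := fun h0 => hQ (by rw [h, h0, zero_mul])
  have hG' : G' ≠ 0 := fun h0 => hQ (by rw [h, h0, mul_zero])
  have h1 : Bivariate.swap G ≠ 0 := (map_ne_zero_iff _ Bivariate.swap.injective).mpr hG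
  have h2 : Bivariate.swap G' ≠ 0 := (map_ne_zero_iff _ Bivariate.swap.injective).mpr hG'
  have h3 : (Bivariate.swap Q).natDegree =
      (Bivariate.swap G).natDegree + (Bivariate.swap G').natDegree := by
    rw [h, map_mul, natDegree_mul h1 h2]
  omega

/-! ### The Kronecker substitution -/

theorem kr_coeff (L : ℕ) (P : ℤ[X][X]) (hP : ∀ i, (P.coeff i).natDegree < L) (i j : ℕ)
    (hj : j < L) : (P.eval (X ^ L)).coeff (L * i + j) = (P.coeff i).coeff j := by
  rw [eval_eq_sum_range, finset_sum_coeff]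
  have h1 : ∀ m ∈ range (P.natDegree + 1), (P.coeff m * (X ^ L) ^ m).coeff (L * i + j) =
      if m = i then (P.coeff i).coeff j else 0 := by
    intro m _
    rw [← pow_mul, coeff_mul_X_pow']
    rcases lt_trichotomy m i with h | h | h
    · rw [if_neg h.ne]
      have h2 : L * (m + 1) ≤ L * i := Nat.mul_le_mul_left L h
      rw [Nat.mul_add, Nat.mul_one] at h2
      rw [if_pos (by omega)]
      apply coeff_eq_zero_of_natDegree_lt
      have := hP m
      omega
    · subst h
      rw [if_pos (by omega), if_pos rfl]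
      congr 1
      omega
    · rw [if_neg h.ne']
      have h2 : L * (i + 1) ≤ L * m := Nat.mul_le_mul_left L h
      rw [Nat.mul_add, Nat.mul_one] at h2
      rw [if_neg (by omega)]
  rw [Finset.sum_congr rfl h1, Finset.sum_ite_eq']
  split_ifs with h2
  · rfl
  · have h3 : P.natDegree < i := by
      rw [Finset.mem_range] at h2
      omega
    rw [coeff_eq_zero_of_natDegree_lt h3, coeff_zero]

theorem kr_coeff' (L : ℕ) (hL : 0 < L) (P : ℤ[X][X]) (hP : ∀ i, (P.coeff i).natDegree < L) (n : ℕ) :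
    (P.eval (X ^ L)).coeff n = (P.coeff (n / L)).coeff (n % L) := by
  conv_lhs => rw [← Nat.div_add_mod n L]
  exact kr_coeff L P hP _ _ (Nat.mod_lt n hL)

theorem kr_ne_zero (L : ℕ) (hL : 0 < L) (P : ℤ[X][X]) (hP : ∀ i, (P.coeff i).natDegree < L)
    (hm : P.Monic) : P.eval (X ^ L) ≠ 0 := by
  intro h
  have h1 := kr_coeff L P hP P.natDegree 0 hL
  rw [h, coeff_zero] at h1
  have h2 : P.coeff P.natDegree = 1 := hm
  rw [h2] at h1
  simp at h1

theorem kr_natDegree (L : ℕ) (hL : 0 < L) (P : ℤ[X][X]) (hP : ∀ i, (P.coeff i).natDegree < L)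
    (d : ℕ) (hd : P.natDegree = d) : (P.eval (X ^ L)).natDegree < L * (d + 1) := by
  rw [Nat.lt_iff_le_pred (by positivity), natDegree_le_iff_coeff_eq_zero]
  intro n hn
  rw [kr_coeff' L hL P hP]
  have h1 : L * (d + 1) ≤ n := by omega
  have h2 : d + 1 ≤ n / L := by
    rw [Nat.le_div_iff_mul_le hL]
    linarith [Nat.mul_comm L (d + 1)]
  rw [coeff_eq_zero_of_natDegree_lt (by omega : P.natDegree < n / L), coeff_zero]

theorem abs_cast (x : ℤ) : |(x : ℝ)| = ((x.natAbs : ℕ) : ℝ) := by
  rw [Nat.cast_natAbs, Int.cast_abs]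

/-- heights of monic factors -/
theorem ht_factor (d σ H : ℕ) (Q G G' : ℤ[X][X]) (hQ : IsDH d σ H Q) (h : Q = G * G')
    (hGm : ∀ i, (G.coeff i).natDegree ≤ σ) (i j : ℕ) :
    ((G.coeff i).coeff j).natAbs ≤ 2 ^ ((σ + 1) * (d + 1)) * ((σ + 1) * (d + 1)) * H := by
  set L : ℕ := σ + 1 with hLdef
  have hL : 0 < L := Nat.succ_pos σ
  have hQL : ∀ i, (Q.coeff i).natDegree < L := fun i => Nat.lt_succ_of_le (hQ.dg i)
  have hGL : ∀ i, (G.coeff i).natDegree < L := fun i => Nat.lt_succ_of_le (hGm i)
  rcases lt_or_ge j L with hj | hj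
  swap
  · rw [coeff_eq_zero_of_natDegree_lt (lt_of_lt_of_le (hGL i) hj)]
    simp
  set kQ : ℤ[X] := Q.eval (X ^ L) with hkQ
  set kG : ℤ[X] := G.eval (X ^ L) with hkG
  set kG' : ℤ[X] := G'.eval (X ^ L) with hkG'
  have hmul : kQ = kG * kG' := by rw [hkQ, h, eval_mul]
  have hQ0 : kQ ≠ 0 := kr_ne_zero L hL Q hQL hQ.monic
  have hG'0 : kG' ≠ 0 := fun h0 => hQ0 (by rw [hmul, h0, mul_zero])
  have hG0 : kG ≠ 0 := fun h0 => hQ0 (by rw [hmul, h0, zero_mul])
  have hdegQ : kQ.natDegree < L * (d + 1) := kr_natDegree L hL Q hQL d hQ.deg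
  have hdegG : kG.natDegree < L * (d + 1) := by
    have : kQ.natDegree = kG.natDegree + kG'.natDegree := by rw [hmul, natDegree_mul hG0 hG'0]
    omega
  have hM : 1 ≤ (kG'.map (Int.castRingHom ℂ)).mahlerMeasure := one_le_mahlerMeasure_of_ne_zero hG'0
  have hb := norm_coeff_le_choose_mul_mahlerMeasure_of_one_le_mahlerMeasure (L * i + j)
    (kG.map (Int.castRingHom ℂ)) (kG'.map (Int.castRingHom ℂ)) hM
  rw [← Polynomial.map_mul, ← hmul, coeff_map, kr_coeff L G hGL i j hj] at hb
  have hs : (kQ.map (Int.castRingHom ℂ)).mahlerMeasure ≤ ((L * (d + 1) : ℕ) : ℝ) * (H : ℝ) := by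
    refine (mahlerMeasure_le_sum_norm_coeff _).trans ?_
    have hsub : (kQ.map (Int.castRingHom ℂ)).support ⊆ range (L * (d + 1)) := by
      intro n hn
      rw [Finset.mem_range]
      have h1 : n ≤ (kQ.map (Int.castRingHom ℂ)).natDegree := le_natDegree_of_mem_supp n hn
      have h2 : (kQ.map (Int.castRingHom ℂ)).natDegree ≤ kQ.natDegree := natDegree_map_le
      omega
    rw [Polynomial.sum]
    calc ∑ n ∈ (kQ.map (Int.castRingHom ℂ)).support, ‖(kQ.map (Int.castRingHom ℂ)).coeff n‖
        ≤ ∑ n ∈ range (L * (d + 1)), ‖(kQ.map (Int.castRingHom ℂ)).coeff n‖ :=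
          Finset.sum_le_sum_of_subset_of_nonneg hsub (fun _ _ _ => norm_nonneg _)
      _ ≤ ∑ n ∈ range (L * (d + 1)), (H : ℝ) := by
          refine Finset.sum_le_sum fun n _ => ?_
          rw [coeff_map, kr_coeff' L hL Q hQL, eq_intCast, Complex.norm_intCast]
          have := hQ.ht (n / L) (n % L)
          rw [abs_cast]
          exact_mod_cast this
      _ = ((L * (d + 1) : ℕ) : ℝ) * (H : ℝ) := by
          rw [Finset.sum_const, Finset.card_range, nsmul_eq_mul]
  have hch : (((kG.map (Int.castRingHom ℂ)).natDegree.choose (L * i + j) : ℕ) : ℝ) ≤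
      ((2 ^ (L * (d + 1)) : ℕ) : ℝ) := by
    have h1 : (kG.map (Int.castRingHom ℂ)).natDegree.choose (L * i + j) ≤
        2 ^ (kG.map (Int.castRingHom ℂ)).natDegree := Nat.choose_le_two_pow _ _
    have h2 : (kG.map (Int.castRingHom ℂ)).natDegree ≤ L * (d + 1) :=
      natDegree_map_le.trans hdegG.le
    exact_mod_cast h1.trans (Nat.pow_le_pow_right (by norm_num) h2)
  have hfin : ‖(Int.castRingHom ℂ) ((G.coeff i).coeff j)‖ ≤
      ((2 ^ (L * (d + 1)) : ℕ) : ℝ) * (((L * (d + 1) : ℕ) : ℝ) * (H : ℝ)) :=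
    hb.trans (mul_le_mul hch hs (mahlerMeasure_nonneg _) (by positivity))
  rw [eq_intCast, Complex.norm_intCast, abs_cast] at hfin
  have h5 : ((((G.coeff i).coeff j).natAbs : ℕ) : ℝ) ≤
      ((2 ^ (L * (d + 1)) * (L * (d + 1)) * H : ℕ) : ℝ) := by
    push_cast at hfin ⊢
    linarith
  exact_mod_cast h5

end SQF

open SQF in
/-- **The square-free part, with sizes.** -/
theorem prSQF : StSQF := by
  intro d σ hd
  refine ⟨2 ^ ((σ + 1) * (d + 1)) * ((σ + 1) * (d + 1)), Nat.succ_le_of_lt (by positivity), ?_⟩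
  intro H Q hQ
  obtain ⟨G, G', hGm, hmul, hpow, hsep⟩ := exists_rad Q hQ.monic (by rw [hQ.deg]; exact hd)
  rw [hQ.deg] at hpow
  have hG'm : G'.Monic := hGm.of_mul_monic_left (by rw [← hmul]; exact hQ.monic)
  have hdeg : d = G.natDegree + G'.natDegree := by
    rw [← hQ.deg, hmul, hGm.natDegree_mul hG'm]
  have hdg : ∀ i, (G.coeff i).natDegree ≤ σ := deg_factor Q G G' hQ.monic.ne_zero hmul σ hQ.dg
  refine ⟨G.natDegree, G, ?_, by omega, ?_, hsep, ⟨G', hmul⟩, hpow⟩
  · rcases Nat.eq_zero_or_pos G.natDegree with h | h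
    · exfalso
      have h1 : G = 1 := hGm.natDegree_eq_zero.mp h
      rw [h1, one_pow] at hpow
      have h2 : Q = 1 := hQ.monic.eq_one_of_isUnit (isUnit_of_dvd_one hpow)
      have h3 := hQ.deg
      rw [h2, natDegree_one] at h3
      omega
    · exact h
  · refine ⟨hGm, rfl, ?_, ?_, hdg, ?_⟩
    · intro h0
      apply hQ.ne
      rw [hmul, mul_coeff_zero, h0, zero_mul]
    · exact Nat.succ_le_of_lt (Nat.mul_pos (by positivity) hQ.one)
    · exact ht_factor d σ H Q G G' hQ hmul hdg

end Pool.Agent.Work.MP_8d13b5_lc.Fm
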