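import Pool.Agent.Work.MP_8d13b5_lc.Fm.StmtsFz

set_option autoImplicit false

/-! Block `Fm`, item TOR: the orders of the torsion quotients of the roots are bounded. -/

namespace Pool.Agent.Work.MP_8d13b5_lc.Fm

open Polynomial NumberField Finset Module

theorem prTOR (hRSC : StRSC) (hTOT : StTOT) : StTOR := by
  intro d
  obtain ⟨s, hs⟩ := hRSC d
  obtain ⟨N₀, hN₀⟩ := hTOT s
  refine ⟨N₀, fun F hF hd h0 n c hn hc hcop => hN₀ n ?_⟩
  obtain ⟨ρ, hρ, hρs, hev⟩ := hs ℤ (Int.castRingHom ℂ) F Int.cast_injective hF hd h0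
  have h1 : ρ.eval₂ (Int.castRingHom ℂ) c = 0 := hev c hcop
  have h2 : aeval c ρ = 0 := h1
  have h3 : minpoly ℤ c ∣ ρ :=
    minpoly.isIntegrallyClosed_dvd (hc.isIntegral (by omega)) h2
  rw [← cyclotomic_eq_minpoly hc (by omega)] at h3
  have h4 := natDegree_le_of_dvd h3 hρ
  rw [natDegree_cyclotomic] at h4
  exact h4.trans hρs

end Pool.Agent.Work.MP_8d13b5_lc.Fm
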