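import Pool.Agent.Work.MP_8d13b5_lc.Fm.StmtsFz

set_option autoImplicit false

/-! Item TOT (helper70): only finitely many numbers have a bounded totient. -/

namespace Pool.Agent.Work.MP_8d13b5_lc.Fm

open Polynomial NumberField Finset Module

namespace TOT

lemma pk_le (D n p : ℕ) (hn : n.totient ≤ D) (hn0 : 0 < n) (hp : p ∈ n.primeFactors) :
    p ^ n.factorization p ≤ 2 * D + 1 := by
  have hpp := Nat.prime_of_mem_primeFactors hp
  have hk : 0 < n.factorization p :=
    hpp.factorization_pos_of_dvd hn0.ne' (Nat.dvd_of_mem_primeFactors hp)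
  have h1 : (p ^ n.factorization p).totient ≤ D :=
    (Nat.le_of_dvd (Nat.totient_pos.2 hn0)
      (Nat.totient_dvd_of_dvd (Nat.ordProj_dvd n p))).trans hn
  rw [Nat.totient_prime_pow hpp hk] at h1
  have h2 : p ≤ 2 * (p - 1) := by
    have := hpp.two_le
    omega
  have h3 : p ^ n.factorization p = p ^ (n.factorization p - 1) * p := by
    rw [← pow_succ, Nat.sub_add_cancel hk]
  rw [h3]
  calc p ^ (n.factorization p - 1) * p ≤ p ^ (n.factorization p - 1) * (2 * (p - 1)) :=
        Nat.mul_le_mul_left _ h2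
    _ = 2 * (p ^ (n.factorization p - 1) * (p - 1)) := by ring
    _ ≤ 2 * D := Nat.mul_le_mul_left _ h1
    _ ≤ 2 * D + 1 := Nat.le_succ _

end TOT

open TOT in
/-- **TOT** -/
theorem prTOT : StTOT := by
  intro D
  refine ⟨(2 * D + 1) ^ (2 * D + 1), fun n hn => ?_⟩
  rcases Nat.eq_zero_or_pos n with h0 | h0
  · rw [h0]
    exact Nat.zero_le _
  · have h1 : n.primeFactors ⊆ Finset.Icc 1 (2 * D + 1) := by
      intro p hp
      have hpp := Nat.prime_of_mem_primeFactors hp
      have hk : 0 < n.factorization p :=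
        hpp.factorization_pos_of_dvd h0.ne' (Nat.dvd_of_mem_primeFactors hp)
      rw [Finset.mem_Icc]
      exact ⟨hpp.one_le, (Nat.le_self_pow hk.ne' p).trans (pk_le D n p hn h0 hp)⟩
    have h2 : n.primeFactors.card ≤ 2 * D + 1 := by
      have := Finset.card_le_card h1
      rwa [Nat.card_Icc, Nat.add_sub_cancel] at this
    have h3 : ∏ p ∈ n.primeFactors, p ^ n.factorization p = n := by
      have := Nat.prod_factorization_pow_eq_self h0.ne'
      rwa [Finsupp.prod, Nat.support_factorization] at this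
    calc n = ∏ p ∈ n.primeFactors, p ^ n.factorization p := h3.symm
      _ ≤ ∏ _p ∈ n.primeFactors, (2 * D + 1) :=
          Finset.prod_le_prod' fun p hp => pk_le D n p hn h0 hp
      _ = (2 * D + 1) ^ n.primeFactors.card := by rw [Finset.prod_const]
      _ ≤ (2 * D + 1) ^ (2 * D + 1) := Nat.pow_le_pow_right (by omega) h2

end Pool.Agent.Work.MP_8d13b5_lc.Fm
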