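import Pool.Agent.Work.MP_8d13b5_lc.Fm.StmtsFz
import Pool.Agent.Work.MP_8d13b5_lc.Fm.I_SQ2

/-!
# MP_8d13b5_lc, block FMZ, item ZRZ: zeros in a general family, multiplied with constant sequences
-/

set_option autoImplicit false

namespace Pool.Agent.Work.MP_8d13b5_lc.Fm

open Polynomial NumberField Finset Module

namespace ZRZ

variable {K : Type} [Field K] [NumberField K]

theorem tt_one (φ : K →+* ℂ) (x : 𝓞 K) : 1 ≤ tt φ x 1 := by
  unfold tt
  rw [map_one, norm_one]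
  exact le_max_right _ _

theorem tt_le (φ : K →+* ℂ) (x : 𝓞 K) : tt φ x 1 ≤ TT x 1 := by
  classical
  unfold TT
  rw [← Finset.mul_prod_erase _ _ (Finset.mem_univ φ)]
  refine le_mul_of_one_le_right (zero_le_one.trans (tt_one φ x)) ?_
  calc (1 : ℝ) = ∏ _ψ ∈ Finset.univ.erase φ, (1 : ℝ) := by rw [Finset.prod_const_one]
    _ ≤ _ := Finset.prod_le_prod (fun _ _ => zero_le_one) fun ψ _ => tt_one ψ x

theorem eval_norm (φ : K →+* ℂ) (P : (𝓞 K)[X]) (x : 𝓞 K) (σ : ℕ) (hP : P.natDegree ≤ σ) :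
    ‖res φ (P.eval x)‖ ≤ pn (res φ) P * TT x 1 ^ σ := by
  have h1 := tt_one φ x
  have h2 := tt_le φ x
  have h3 : ‖res φ x‖ ≤ tt φ x 1 := le_max_left _ _
  rw [eval_eq_sum_range, map_sum]
  refine (norm_sum_le _ _).trans ?_
  unfold pn
  rw [Finset.sum_mul]
  refine Finset.sum_le_sum fun i hi => ?_
  rw [Finset.mem_range] at hi
  rw [map_mul, map_pow, norm_mul, norm_pow]
  refine mul_le_mul_of_nonneg_left ?_ (norm_nonneg _)
  calc ‖res φ x‖ ^ i ≤ (TT x 1) ^ i := pow_le_pow_left₀ (norm_nonneg _) (h3.trans h2) i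
    _ ≤ (TT x 1) ^ σ := pow_le_pow_right₀ (h1.trans h2) (by omega)

theorem coeff_norm {m σ : ℕ} {H : ℝ} {G : (𝓞 K)[X][X]} (hG : IsCr0H m σ H G) (t₀ : 𝓞 K)
    (φ : K →+* ℂ) (i : ℕ) : ‖res φ ((spc G t₀).coeff i)‖ ≤ H * TT t₀ 1 ^ σ := by
  have hT : 1 ≤ TT t₀ 1 := (tt_one φ t₀).trans (tt_le φ t₀)
  have hT' : 1 ≤ TT t₀ 1 ^ σ := one_le_pow₀ hT
  have hH := hG.one
  have h1 : (1 : ℝ) ≤ H * TT t₀ 1 ^ σ := one_le_mul_of_one_le_of_one_le hH hT'
  unfold spc
  rw [coeff_map]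
  rcases lt_trichotomy i (m + 1) with h | h | h
  · have h' : i ≤ m := by omega
    refine (eval_norm φ (G.coeff i) t₀ σ (hG.dg i h')).trans ?_
    exact mul_le_mul_of_nonneg_right (hG.ht φ i h') (by linarith)
  · have h2 : G.coeff i = 1 := by
      rw [h, ← hG.crv.deg]
      exact hG.crv.monic.coeff_natDegree
    rw [h2, map_one, map_one, norm_one]
    exact h1
  · have h2 : G.coeff i = 0 := coeff_eq_zero_of_natDegree_lt (by
      rw [hG.crv.deg]
      exact h)
    rw [h2, map_zero, map_zero, norm_zero]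
    linarith

/-- growth of the solutions -/
theorem growth (f : (𝓞 K)[X]) (hf : f.Monic) : ∃ Λ : ℕ, 1 ≤ Λ ∧ ∀ (w : ℕ → 𝓞 K), Pd.Sol f w →
    ∀ (φ : K →+* ℂ) (b : ℝ), 0 ≤ b → (∀ l < f.natDegree, ‖res φ (w l)‖ ≤ b) →
      ∀ n, ‖res φ (w n)‖ ≤ (Λ : ℝ) ^ n * b := by
  obtain ⟨S, hS⟩ : ∃ S : ℝ, S = ∑ φ : K →+* ℂ, ∑ i ∈ range f.natDegree, ‖res φ (f.coeff i)‖ :=
    ⟨_, rfl⟩
  refine ⟨Nat.ceil S + 1, by omega, ?_⟩
  intro w hw φ b hb hl n
  have hΛ1 : (1 : ℝ) ≤ ((Nat.ceil S + 1 : ℕ) : ℝ) := by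
    push_cast
    have : (0 : ℝ) ≤ (Nat.ceil S : ℝ) := Nat.cast_nonneg _
    linarith
  have hSφ : ∑ i ∈ range f.natDegree, ‖res φ (f.coeff i)‖ ≤ ((Nat.ceil S + 1 : ℕ) : ℝ) := by
    have h1 : ∑ i ∈ range f.natDegree, ‖res φ (f.coeff i)‖ ≤ S := by
      rw [hS]
      exact Finset.single_le_sum (f := fun ψ : K →+* ℂ =>
        ∑ i ∈ range f.natDegree, ‖res ψ (f.coeff i)‖)
        (fun _ _ => Finset.sum_nonneg fun _ _ => norm_nonneg _) (Finset.mem_univ φ)
    have h2 := Nat.le_ceil S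
    push_cast
    linarith
  generalize ((Nat.ceil S + 1 : ℕ) : ℝ) = Λ at hΛ1 hSφ
  induction n using Nat.strong_induction_on with
  | _ n ih =>
    by_cases hn : n < f.natDegree
    · exact (hl n hn).trans (le_mul_of_one_le_left hb (one_le_pow₀ hΛ1))
    · obtain ⟨j, rfl⟩ : ∃ j, n = j + f.natDegree := ⟨n - f.natDegree, by omega⟩
      rcases Nat.eq_zero_or_pos f.natDegree with h0 | h0
      · have h1 := hw.next hf j
        rw [h1, h0]
        simp only [range_zero, sum_empty, neg_zero, map_zero, norm_zero]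
        positivity
      rw [hw.next hf, map_neg, norm_neg, map_sum]
      refine (norm_sum_le _ _).trans ?_
      have h1 : ∀ i ∈ range f.natDegree, ‖res φ (f.coeff i * w (j + i))‖ ≤
          ‖res φ (f.coeff i)‖ * (Λ ^ (j + f.natDegree - 1) * b) := by
        intro i hi
        rw [mem_range] at hi
        rw [map_mul, norm_mul]
        refine mul_le_mul_of_nonneg_left ?_ (norm_nonneg _)
        refine (ih (j + i) (by omega)).trans ?_
        exact mul_le_mul_of_nonneg_right (pow_le_pow_right₀ hΛ1 (by omega)) hb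
      refine (sum_le_sum h1).trans ?_
      rw [← sum_mul]
      calc (∑ i ∈ range f.natDegree, ‖res φ (f.coeff i)‖) * (Λ ^ (j + f.natDegree - 1) * b)
          ≤ Λ * (Λ ^ (j + f.natDegree - 1) * b) :=
            mul_le_mul_of_nonneg_right hSφ (by positivity)
        _ = Λ ^ (j + f.natDegree) * b := by
            rw [← mul_assoc, ← pow_succ']
            congr 2
            omega

end ZRZ

open ZRZ in
theorem prZRZ (hXTH : StXTH) (hKRZ : StKRZ) (hADZ : StADZ) (hVNZ : StVNZ) (hCFD : StCFD) :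
    StZRZ := by
  intro K _ _ m σ r θ hθ
  obtain ⟨c₂, hc₂, k2⟩ := hKRZ K m σ r θ hθ
  obtain ⟨C₀, s', hC₀, k3⟩ := hADZ K m r θ
  set f : (𝓞 K)[X] := ∏ j, (X - C (θ j)) with hf
  have hfm : f.Monic := monic_prod_of_monic _ _ fun j _ => monic_X_sub_C _
  have hfd : f.natDegree = r := by
    rw [hf, natDegree_prod_of_monic _ _ fun j _ => monic_X_sub_C _]
    simp
  obtain ⟨Λ, hΛ, hgr⟩ := growth f hfm
  rw [hfd] at hgr
  have key : ∃ c₄ : ℕ, ∀ (H : ℝ) (G : (𝓞 K)[X][X]), IsCr0H m σ H G →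
      ∀ t₀ : 𝓞 K, (c₄ * H) ^ c₄ ≤ TT t₀ 1 → ∀ v : Fin (m + 1) → ℕ → 𝓞 K,
      (∀ i, Pd.Sol f (v i)) → ∀ B : ℝ, 1 ≤ B →
      (∀ (φ : K →+* ℂ) i, ∀ l < r, ‖res φ (v i l)‖ ≤ (C₀ * (H * TT t₀ 1 ^ σ)) ^ s' * B) →
      ∀ n, ∑ i : Fin (m + 1), Pd.cf (spc G t₀) n i * v i n = 0 →
      (B * TT t₀ 1) ^ c₄ < TT t₀ 1 ^ n → ∀ i, v i n = 0 := by
    rcases Nat.eq_zero_or_pos m with rfl | hm
    · obtain ⟨s₃, k4⟩ := hVNZ K
      refine ⟨s₃ + 3, ?_⟩
      intro H G hG t₀ hT v hv B hB hvB n hn hnB i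
      have hH := hG.one
      have hne : (G.coeff 0).eval t₀ ≠ 0 := by
        refine k4 (G.coeff 0) H hG.crv.ne hH (fun φ => hG.ht φ 0 le_rfl) t₀ (lt_of_lt_of_le ?_ hT)
        have h1 : (2 : ℝ) * H ≤ ((s₃ + 3 : ℕ) : ℝ) * H := by
          refine mul_le_mul_of_nonneg_right ?_ (by linarith)
          push_cast
          have : (0 : ℝ) ≤ (s₃ : ℝ) := Nat.cast_nonneg _
          linarith
        have h2 : (1 : ℝ) < ((s₃ + 3 : ℕ) : ℝ) * H := by linarith
        calc (2 * H) ^ s₃ ≤ (((s₃ + 3 : ℕ) : ℝ) * H) ^ s₃ :=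
              pow_le_pow_left₀ (by linarith) h1 s₃
          _ < (((s₃ + 3 : ℕ) : ℝ) * H) ^ (s₃ + 3) := pow_lt_pow_right₀ h2 (by omega)
      have hgm : (spc G t₀).Monic := hG.crv.monic.map _
      have hgd : (spc G t₀).natDegree = 1 := by
        unfold spc
        rw [hG.crv.monic.natDegree_map, hG.crv.deg]
      have hcf : ∀ k, Pd.cf (spc G t₀) k 0 ≠ 0 := by
        intro k
        induction k with
        | zero =>
          rw [Pd.cf_init hgm (by omega), if_pos rfl]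
          exact one_ne_zero
        | succ k ih =>
          have h1 := (Pd.cf_sol hgm 0).next hgm k
          rw [hgd, sum_range_one, add_zero] at h1
          rw [h1]
          have h2 : (spc G t₀).coeff 0 ≠ 0 := by
            unfold spc
            rw [coeff_map]
            exact hne
          exact neg_ne_zero.2 (mul_ne_zero h2 ih)
      have hi : i = 0 := by
        have h1 := i.2
        ext
        simp only [Fin.val_zero]
        omega
      rw [hi]
      rw [Fin.sum_univ_one] at hn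
      exact (mul_eq_zero.1 hn).resolve_left (hcf n)
    · obtain ⟨C₁, s, c, κ, hC₁, hmainH⟩ := hXTH K m σ hm
      obtain ⟨D, hD⟩ : ∃ D : ℕ, D = Fintype.card (K →+* ℂ) := ⟨_, rfl⟩
      obtain ⟨E, hE⟩ : ∃ E : ℕ, E = ((σ + 2) * s' + 1) * (2 * (κ * (c + D)) + 1) := ⟨_, rfl⟩
      obtain ⟨c', hc'⟩ : ∃ c' : ℕ, c' = Nat.ceil C₁ + Nat.ceil C₀ + Λ + (m + 1) + s +
        2 * κ * (s + D + D) + E := ⟨_, rfl⟩
      refine ⟨c', ?_⟩
      intro H G hG t₀ hT v hv B hB hvB n hn hnB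
      have hH := hG.one
      have hcC : C₁ ≤ (c' : ℝ) := by
        refine (Nat.le_ceil C₁).trans ?_
        exact_mod_cast (by omega : Nat.ceil C₁ ≤ c')
      have hcC0 : C₀ ≤ (c' : ℝ) := by
        refine (Nat.le_ceil C₀).trans ?_
        exact_mod_cast (by omega : Nat.ceil C₀ ≤ c')
      have hcΛ : (Λ : ℝ) ≤ (c' : ℝ) := by exact_mod_cast (by omega : Λ ≤ c')
      have hcm : ((m : ℝ) + 1) ≤ (c' : ℝ) := by exact_mod_cast (by omega : m + 1 ≤ c')
      have hΛ1 : (1 : ℝ) ≤ (Λ : ℝ) := by exact_mod_cast hΛ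
      have hc1 : (1 : ℝ) ≤ (c' : ℝ) := hC₁.trans hcC
      have hcH : (1 : ℝ) ≤ (c' : ℝ) * H := one_le_mul_of_one_le_of_one_le hc1 hH
      have hccH : (c' : ℝ) ≤ (c' : ℝ) * H := le_mul_of_one_le_right (by linarith) hH
      have hHcH : H ≤ (c' : ℝ) * H := le_mul_of_one_le_left (by linarith) hc1
      have hCH : C₁ * H ≤ (c' : ℝ) * H := mul_le_mul_of_nonneg_right hcC (by linarith)
      have hCH1 : 1 ≤ C₁ * H := one_le_mul_of_one_le_of_one_le hC₁ hH
      have hc'1 : 1 ≤ c' := by omega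
      have hcHT : (c' : ℝ) * H ≤ TT t₀ 1 := (le_self_pow₀ hcH (by omega)).trans hT
      have hT1' : 1 ≤ TT t₀ 1 := hcH.trans hcHT
      have hT1 : (C₁ * H) ^ s ≤ TT t₀ 1 := by
        refine le_trans ?_ hT
        exact (pow_le_pow_left₀ (by linarith) hCH s).trans (pow_le_pow_right₀ hcH (by omega))
      obtain ⟨T, hTd⟩ : ∃ T, T = TT t₀ 1 := ⟨_, rfl⟩
      rw [← hTd] at hT hvB hnB hcHT hT1' hT1
      have hT0 : 0 < T := by linarith
      obtain ⟨A, hA⟩ : ∃ A : ℝ, A = (C₁ * H) ^ s * (Λ : ℝ) ^ D := ⟨_, rfl⟩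
      have hA1 : 1 ≤ A := by
        rw [hA]
        exact one_le_mul_of_one_le_of_one_le (one_le_pow₀ hCH1) (one_le_pow₀ hΛ1)
      have hT2 : ((A * ((m : ℝ) + 1) ^ D) ^ κ) ^ 2 ≤ T := by
        refine le_trans ?_ hT
        have h1 : A * ((m : ℝ) + 1) ^ D ≤ ((c' : ℝ) * H) ^ (s + D + D) := by
          rw [hA, pow_add, pow_add]
          refine mul_le_mul (mul_le_mul (pow_le_pow_left₀ (by linarith) hCH s) ?_ (by positivity)
            (by positivity)) ?_ (by positivity) (by positivity)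
          · exact pow_le_pow_left₀ (by positivity) (hcΛ.trans hccH) D
          · exact pow_le_pow_left₀ (by positivity) (hcm.trans hccH) D
        rw [← pow_mul]
        refine (pow_le_pow_left₀ (by positivity) h1 _).trans ?_
        rw [← pow_mul]
        refine pow_le_pow_right₀ hcH ?_
        have : (s + D + D) * (κ * 2) = 2 * κ * (s + D + D) := by ring
        omega
      obtain ⟨B', hB'⟩ : ∃ B' : ℝ, B' = (C₀ * (H * T ^ σ)) ^ s' * B := ⟨_, rfl⟩
      have hY1 : 1 ≤ C₀ * (H * T ^ σ) :=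
        one_le_mul_of_one_le_of_one_le hC₀ (one_le_mul_of_one_le_of_one_le hH (one_le_pow₀ hT1'))
      have hB'1 : 1 ≤ B' := by
        rw [hB']
        exact one_le_mul_of_one_le_of_one_le (one_le_pow₀ hY1) hB
      rw [← hB'] at hvB
      by_contra hcon
      have ha : (fun j : Fin (m + 1) => v j n) ≠ 0 := by
        intro h
        apply hcon
        intro i
        exact congrFun h i
      have hsum : ∑ j : Fin (m + 1), (fun j : Fin (m + 1) => v j n) j *
          (Pd.cf G n j).eval t₀ = 0 := by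
        rw [← hn]
        refine sum_congr rfl fun j _ => ?_
        have h2 := hCFD.2.1 (𝓞 K)[X] (𝓞 K) (evalRingHom t₀) G n j hG.crv.monic
        have h3 : Pd.cf (spc G t₀) n j = (Pd.cf G n j).eval t₀ := h2
        rw [h3, mul_comm]
      have hmain := hmainH H G hG t₀ (by rw [← hTd]; exact hT1) n _ ha hsum
      rw [← hTd] at hmain
      obtain ⟨P, hP⟩ : ∃ P : ℝ, P = (((m : ℝ) + 1) * B') ^ D := ⟨_, rfl⟩
      have hHH : HH (fun j : Fin (m + 1) => v j n) ≤ ((Λ : ℝ) ^ D) ^ n * P := by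
        unfold HH
        have h1 : ∀ φ : K →+* ℂ, ∑ j : Fin (m + 1), ‖res φ (v j n)‖ ≤
            (Λ : ℝ) ^ n * (((m : ℝ) + 1) * B') := by
          intro φ
          refine (Finset.sum_le_sum fun (j : Fin (m + 1)) _ =>
            hgr (v j) (hv j) φ B' (by linarith) (fun l hl => hvB φ j l hl) n).trans
            (le_of_eq ?_)
          rw [Finset.sum_const, Finset.card_univ, Fintype.card_fin, nsmul_eq_mul]
          push_cast
          ring
        refine (Finset.prod_le_prod (fun φ _ => Finset.sum_nonneg fun _ _ => norm_nonneg _)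
          (fun φ _ => h1 φ)).trans (le_of_eq ?_)
        rw [Finset.prod_const, Finset.card_univ, ← hD, hP, mul_pow, ← pow_mul, ← pow_mul,
          mul_comm n D]
      have hP0 : 0 ≤ P := by
        rw [hP]
        positivity
      have hmain2 : T ^ n ≤ (A ^ (n + 1) * T ^ c * P) ^ κ := by
        refine hmain.trans (pow_le_pow_left₀ ?_ ?_ κ)
        · have : 0 ≤ HH (fun j : Fin (m + 1) => v j n) :=
            Finset.prod_nonneg fun _ _ => Finset.sum_nonneg fun _ _ => norm_nonneg _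
          positivity
        · calc ((C₁ * H) ^ s) ^ (n + 1) * T ^ c * HH (fun j : Fin (m + 1) => v j n)
              ≤ ((C₁ * H) ^ s) ^ (n + 1) * T ^ c * (((Λ : ℝ) ^ D) ^ n * P) :=
                mul_le_mul_of_nonneg_left hHH (by positivity)
            _ ≤ ((C₁ * H) ^ s) ^ (n + 1) * T ^ c * (((Λ : ℝ) ^ D) ^ (n + 1) * P) := by
                refine mul_le_mul_of_nonneg_left (mul_le_mul_of_nonneg_right ?_ hP0)
                  (by positivity)
                exact pow_le_pow_right₀ (one_le_pow₀ hΛ1) (by omega)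
            _ = A ^ (n + 1) * T ^ c * P := by
                rw [hA, mul_pow ((C₁ * H) ^ s)]
                ring
      have h4 := SQ2.fin_ineq A B' T P (((m : ℝ) + 1) * B') m n c D κ hA1 hB'1 hT1' rfl
        hP.le hT2 hP0 hmain2
      have hBT : 1 ≤ B * T := one_le_mul_of_one_le_of_one_le hB hT1'
      have h5 : B' * T ≤ (B * T) ^ ((σ + 2) * s' + 1) := by
        have h6 : C₀ * (H * T ^ σ) ≤ T ^ (σ + 2) := by
          calc C₀ * (H * T ^ σ) ≤ T * (T * T ^ σ) := by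
                refine mul_le_mul (hcC0.trans (hccH.trans hcHT)) ?_ (by positivity)
                  (by linarith)
                exact mul_le_mul_of_nonneg_right (hHcH.trans hcHT) (by positivity)
            _ = T ^ (σ + 2) := by ring
        have h7 : T ≤ B * T := le_mul_of_one_le_left hT0.le hB
        calc B' * T = (C₀ * (H * T ^ σ)) ^ s' * (B * T) := by rw [hB']; ring
          _ ≤ (T ^ (σ + 2)) ^ s' * (B * T) := by
              refine mul_le_mul_of_nonneg_right (pow_le_pow_left₀ (by linarith) h6 s')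
                (by linarith)
          _ ≤ ((B * T) ^ (σ + 2)) ^ s' * (B * T) := by
              refine mul_le_mul_of_nonneg_right ?_ (by linarith)
              exact pow_le_pow_left₀ (by positivity) (pow_le_pow_left₀ hT0.le h7 _) s'
          _ = (B * T) ^ ((σ + 2) * s' + 1) := by rw [← pow_mul, pow_succ]
      have h8 : T ^ n ≤ (B * T) ^ c' := by
        calc T ^ n ≤ (B' * T) ^ (2 * (κ * (c + D)) + 1) := h4
          _ ≤ ((B * T) ^ ((σ + 2) * s' + 1)) ^ (2 * (κ * (c + D)) + 1) :=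
              pow_le_pow_left₀ (by positivity) h5 _
          _ = (B * T) ^ E := by rw [hE, ← pow_mul]
          _ ≤ (B * T) ^ c' := pow_le_pow_right₀ hBT (by omega)
      exact absurd h8 (not_le.2 hnB)
  obtain ⟨c₄, key⟩ := key
  refine ⟨c₂ + c₄, by omega, ?_⟩
  intro H G hG t₀ hT z hz
  have hH := hG.one
  have hmono : ∀ a : ℕ, a ≤ c₂ + c₄ → 1 ≤ a → ((a : ℝ) * H) ^ a ≤ TT t₀ 1 := by
    intro a ha ha1
    refine le_trans ?_ hT
    have h1 : (a : ℝ) * H ≤ ((c₂ + c₄ : ℕ) : ℝ) * H :=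
      mul_le_mul_of_nonneg_right (by exact_mod_cast ha) (by linarith)
    have h2 : (1 : ℝ) ≤ (a : ℝ) * H :=
      one_le_mul_of_one_le_of_one_le (by exact_mod_cast ha1) hH
    exact (pow_le_pow_left₀ (by linarith) h1 a).trans (pow_le_pow_right₀ (h2.trans h1) ha)
  have hT1 : 1 ≤ TT t₀ 1 := by
    refine le_trans ?_ (hmono c₂ (by omega) hc₂)
    exact one_le_pow₀ (one_le_mul_of_one_le_of_one_le (by exact_mod_cast hc₂) hH)
  have hgm : (spc G t₀).Monic := hG.crv.monic.map _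
  have hgd : (spc G t₀).natDegree = m + 1 := by
    unfold spc
    rw [hG.crv.monic.natDegree_map, hG.crv.deg]
  obtain ⟨δ, v, hδ, hv, hzv, hvB⟩ := k3 (spc G t₀) (H * TT t₀ 1 ^ σ) hgm hgd
    (one_le_mul_of_one_le_of_one_le hH (one_le_pow₀ hT1)) (coeff_norm hG t₀)
    (k2 H G hG t₀ (hmono c₂ (by omega) hc₂)) z hz
  refine ⟨δ, v, hδ, hv, hzv, ?_⟩
  intro B hB hzB n hnB hzn
  have h4 : ((c₄ : ℝ) * H) ^ c₄ ≤ TT t₀ 1 := by
    rcases Nat.eq_zero_or_pos c₄ with h0 | h0
    · rw [h0, pow_zero]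
      exact hT1
    · exact hmono c₄ (by omega) h0
  refine key H G hG t₀ h4 v hv B hB (hvB B hzB) n ?_ (lt_of_le_of_lt ?_ hnB)
  · rw [← hzv n, hzn, mul_zero]
  · exact pow_le_pow_right₀ (one_le_mul_of_one_le_of_one_le hB hT1) (by omega)

end Pool.Agent.Work.MP_8d13b5_lc.Fm
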