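import Pool.Agent.Work.MP_8d13b5_lc.Fm.All3
import Pool.Agent.Work.MP_8d13b5_lc.Fm.I_TOT
import Pool.Agent.Work.MP_8d13b5_lc.Fm.I_TOR
import Pool.Agent.Work.MP_8d13b5_lc.Fm.I_POW
import Pool.Agent.Work.MP_8d13b5_lc.Fm.I_SQF
import Pool.Agent.Work.MP_8d13b5_lc.Fm.I_RDU
import Pool.Agent.Work.MP_8d13b5_lc.Fm.I_FNU
import Pool.Agent.Work.MP_8d13b5_lc.Fm.I_FDU
import Pool.Agent.Work.MP_8d13b5_lc.Fm.I_RZB
import Pool.Agent.Work.MP_8d13b5_lc.Fm.I_RZA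
import Pool.Agent.Work.MP_8d13b5_lc.Fm.I_PRZ
import Pool.Agent.Work.MP_8d13b5_lc.Fm.I_ADZ
import Pool.Agent.Work.MP_8d13b5_lc.Fm.I_ZRZ
import Pool.Agent.Work.MP_8d13b5_lc.Fm.I_SQZ
import Pool.Agent.Work.MP_8d13b5_lc.Fm.I_FNZ
import Pool.Agent.Work.MP_8d13b5_lc.Fm.I_GRW

set_option autoImplicit false

/-! The statements of `StmtsFz`, proved (from `StRSC`, `StKRZ`). -/

namespace Pool.Agent.Work.MP_8d13b5_lc.Fm

theorem zTOR (hRSC : StRSC) : StTOR := prTOR hRSC prTOT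
theorem zRDU (hRSC : StRSC) : StRDU := prRDU (zTOR hRSC) prPOW prSQF
theorem zFNU (hRSC : StRSC) : StFNU := prFNU (zRDU hRSC) prSBY xZRY xZR0
theorem zFDU (hRSC : StRSC) : StFDU := prFDU (zFNU hRSC) prDEC
theorem zRZA (hRSC : StRSC) : StRZA := prRZA prRZB hRSC
theorem zADZ : StADZ := prADZ prPRZ
theorem zZRZ (hKRZ : StKRZ) : StZRZ := prZRZ xXTH hKRZ zADZ prVNZ prCFD
theorem zFNZ (hRSC : StRSC) (hKRZ : StKRZ) : StFNZ :=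
  prFNZ (zRZA hRSC) prSBY (zZRZ hKRZ) prSQZ prINT
theorem zGRW : StGRW := prGRW xXFI

end Pool.Agent.Work.MP_8d13b5_lc.Fm
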