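import Pool.Agent.Work.MP_8d13b5_lc.Fm.StmtsHom

set_option autoImplicit false

/-! Item HB1 of the block `Fm`: basic facts on the specialisation `hsp`. -/

namespace Pool.Agent.Work.MP_8d13b5_lc.Fm

open Polynomial NumberField Finset Module

namespace HB1

theorem hev_zero {R : Type} [CommRing R] (D : ℕ) (x y : R) : hev D (0 : R[X]) x y = 0 := by
  unfold hev
  simp

theorem hev_one {R : Type} [CommRing R] (x y : R) : hev 0 (1 : R[X]) x y = 1 := by
  unfold hev
  simp

theorem hev_mulC {R : Type} [CommRing R] (D : ℕ) (P : R[X]) (c x y : R) :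
    hev D (P * C c) x y = hev D P x y * c := by
  unfold hev
  rw [Finset.sum_mul]
  refine Finset.sum_congr rfl fun i _ => ?_
  rw [coeff_mul_C]
  ring

theorem hev_y1 {R : Type} [CommRing R] (D : ℕ) (P : R[X]) (t : R) (h : P.natDegree ≤ D) :
    hev D P t 1 = P.eval t := by
  unfold hev
  rw [eval_eq_sum_range' (Nat.lt_succ_of_le h)]
  refine Finset.sum_congr rfl fun i _ => ?_
  rw [one_pow, mul_one]

theorem hsp_coeff {R : Type} [CommRing R] (e : ℕ) (F : R[X][X]) (x y : R) (n : ℕ) :
    (hsp e F x y).coeff n =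
      if n ≤ F.natDegree then hev (e * (F.natDegree - n)) (F.coeff n) x y else 0 := by
  unfold hsp
  rw [finsetSum_coeff]
  simp only [coeff_C_mul_X_pow]
  rw [Finset.sum_ite_eq]
  simp only [Finset.mem_range, Nat.lt_succ_iff]

theorem hsp_coeff_le {R : Type} [CommRing R] (e : ℕ) (F : R[X][X]) (x y : R) {n : ℕ}
    (h : n ≤ F.natDegree) :
    (hsp e F x y).coeff n = hev (e * (F.natDegree - n)) (F.coeff n) x y := by
  rw [hsp_coeff, if_pos h]

theorem hsp_coeff_gt {R : Type} [CommRing R] (e : ℕ) (F : R[X][X]) (x y : R) {n : ℕ}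
    (h : F.natDegree < n) : (hsp e F x y).coeff n = 0 := by
  rw [hsp_coeff, if_neg (by omega)]

theorem hsp_lead {R : Type} [CommRing R] (e : ℕ) (F : R[X][X]) (x y : R) (h : F.Monic) :
    (hsp e F x y).coeff F.natDegree = 1 := by
  rw [hsp_coeff_le e F x y le_rfl, Nat.sub_self, mul_zero, h.coeff_natDegree, hev_one]

theorem hsp_deg_le {R : Type} [CommRing R] (e : ℕ) (F : R[X][X]) (x y : R) :
    (hsp e F x y).natDegree ≤ F.natDegree := by
  rw [natDegree_le_iff_coeff_eq_zero]
  intro N hN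
  exact hsp_coeff_gt e F x y hN

theorem hsp_monic {R : Type} [CommRing R] (e : ℕ) (F : R[X][X]) (x y : R) (h : F.Monic) :
    (hsp e F x y).Monic :=
  monic_of_natDegree_le_of_coeff_eq_one _ (hsp_deg_le e F x y) (hsp_lead e F x y h)

theorem hsp_deg {R : Type} [CommRing R] [Nontrivial R] (e : ℕ) (F : R[X][X]) (x y : R)
    (h : F.Monic) : (hsp e F x y).natDegree = F.natDegree := by
  refine le_antisymm (hsp_deg_le e F x y) (le_natDegree_of_ne_zero ?_)
  rw [hsp_lead e F x y h]
  exact one_ne_zero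

theorem mul_term {R : Type} [CommRing R] (hHEV : StHEV) (e : ℕ) (F G : R[X][X]) (x y : R)
    (hF : Wt e F) (hG : Wt e G) (i j : ℕ) :
    ((F.coeff i * G.coeff j).natDegree ≤ e * (F.natDegree + G.natDegree - (i + j))) ∧
      (i + j ≤ F.natDegree + G.natDegree →
        hev (e * (F.natDegree + G.natDegree - (i + j))) (F.coeff i * G.coeff j) x y =
          (hsp e F x y).coeff i * (hsp e G x y).coeff j) := by
  by_cases hi : i ≤ F.natDegree
  · by_cases hj : j ≤ G.natDegree
    · have h : e * (F.natDegree + G.natDegree - (i + j)) =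
          e * (F.natDegree - i) + e * (G.natDegree - j) := by
        rw [← mul_add]
        congr 1
        omega
      rw [h]
      refine ⟨natDegree_mul_le.trans (Nat.add_le_add (hF i) (hG j)), fun _ => ?_⟩
      rw [(hHEV.1 R x y).2.1 _ _ _ _ (hF i) (hG j), hsp_coeff_le e F x y hi,
        hsp_coeff_le e G x y hj]
    · have h : G.coeff j = 0 := coeff_eq_zero_of_natDegree_lt (by omega)
      rw [h, mul_zero, natDegree_zero, hev_zero, hsp_coeff_gt e G x y (by omega), mul_zero]
      exact ⟨Nat.zero_le _, fun _ => rfl⟩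
  · have h : F.coeff i = 0 := coeff_eq_zero_of_natDegree_lt (by omega)
    rw [h, zero_mul, natDegree_zero, hev_zero, hsp_coeff_gt e F x y (by omega), zero_mul]
    exact ⟨Nat.zero_le _, fun _ => rfl⟩

theorem wt_mul {R : Type} [CommRing R] [Nontrivial R] (hHEV : StHEV) (e : ℕ) (F G : R[X][X])
    (hFm : F.Monic) (hGm : G.Monic) (hF : Wt e F) (hG : Wt e G) : Wt e (F * G) := by
  intro n
  rw [hFm.natDegree_mul hGm, coeff_mul]
  refine natDegree_sum_le_of_forall_le _ _ fun z hz => ?_
  rw [← HasAntidiagonal.mem_antidiagonal.1 hz]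
  exact (mul_term hHEV e F G 0 0 hF hG z.1 z.2).1

theorem hsp_mul {R : Type} [CommRing R] [Nontrivial R] (hHEV : StHEV) (e : ℕ) (F G : R[X][X])
    (x y : R) (hFm : F.Monic) (hGm : G.Monic) (hF : Wt e F) (hG : Wt e G) :
    hsp e (F * G) x y = hsp e F x y * hsp e G x y := by
  ext n
  rw [coeff_mul]
  by_cases hn : n ≤ F.natDegree + G.natDegree
  · rw [hsp_coeff_le e (F * G) x y (by rw [hFm.natDegree_mul hGm]; exact hn),
      hFm.natDegree_mul hGm, coeff_mul]
    have hs : hev (e * (F.natDegree + G.natDegree - n))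
        (∑ z ∈ antidiagonal n, F.coeff z.1 * G.coeff z.2) x y =
        ∑ z ∈ antidiagonal n, hev (e * (F.natDegree + G.natDegree - n))
          (F.coeff z.1 * G.coeff z.2) x y := (hHEV.1 R x y).1 _ _ _ _
    rw [hs]
    refine Finset.sum_congr rfl fun z hz => ?_
    have hz' := HasAntidiagonal.mem_antidiagonal.1 hz
    rw [← hz']
    exact (mul_term hHEV e F G x y hF hG z.1 z.2).2 (by omega)
  · rw [hsp_coeff_gt e (F * G) x y (by rw [hFm.natDegree_mul hGm]; omega)]
    symm
    refine Finset.sum_eq_zero fun z hz => ?_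
    have hz' := HasAntidiagonal.mem_antidiagonal.1 hz
    by_cases hi : F.natDegree < z.1
    · rw [hsp_coeff_gt e F x y hi, zero_mul]
    · rw [hsp_coeff_gt e G x y (by omega), mul_zero]

theorem wt_one {R : Type} [CommRing R] (e : ℕ) : Wt e (1 : R[X][X]) := by
  intro i
  rw [coeff_one]
  by_cases h : i = 0
  · rw [if_pos h, natDegree_one]
    exact Nat.zero_le _
  · rw [if_neg h, natDegree_zero]
    exact Nat.zero_le _

theorem hsp_one {R : Type} [CommRing R] (e : ℕ) (x y : R) : hsp e (1 : R[X][X]) x y = 1 := by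
  unfold hsp
  rw [natDegree_one, Finset.sum_range_one, Nat.sub_self, mul_zero, coeff_one_zero, hev_one,
    pow_zero, mul_one, map_one]

theorem wt_expand {R : Type} [CommRing R] (e N : ℕ) (F : R[X][X]) (hN : 1 ≤ N)
    (hF : Wt (e * N) F) : Wt e (expand R[X] N F) := by
  intro n
  rw [coeff_expand hN, natDegree_expand]
  by_cases h : N ∣ n
  · obtain ⟨k, rfl⟩ := h
    rw [if_pos (dvd_mul_right N k), Nat.mul_div_cancel_left k hN]
    refine (hF k).trans (le_of_eq ?_)
    rw [mul_assoc, Nat.mul_sub, mul_comm N F.natDegree]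
  · rw [if_neg h, natDegree_zero]
    exact Nat.zero_le _

theorem hsp_expand {R : Type} [CommRing R] (e N : ℕ) (F : R[X][X]) (x y : R) (hN : 1 ≤ N) :
    hsp e (expand R[X] N F) x y = expand R N (hsp (e * N) F x y) := by
  ext n
  rw [coeff_expand hN, hsp_coeff, natDegree_expand, coeff_expand hN]
  by_cases h : N ∣ n
  · obtain ⟨k, rfl⟩ := h
    rw [if_pos (dvd_mul_right N k), if_pos (dvd_mul_right N k), Nat.mul_div_cancel_left k hN,
      hsp_coeff]
    have h1 : N * k ≤ F.natDegree * N ↔ k ≤ F.natDegree := by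
      rw [mul_comm F.natDegree N]
      exact Nat.mul_le_mul_left_iff hN
    have h2 : e * (F.natDegree * N - N * k) = e * N * (F.natDegree - k) := by
      rw [mul_assoc, Nat.mul_sub N, mul_comm N F.natDegree]
    rw [h2]
    by_cases hk : k ≤ F.natDegree
    · rw [if_pos (h1.2 hk), if_pos hk]
    · rw [if_neg (fun h => hk (h1.1 h)), if_neg hk]
  · rw [if_neg h, if_neg h, hev_zero, ite_self]

theorem wt_scale {R : Type} [CommRing R] (e : ℕ) (F : R[X][X]) (a : R)
    (hF : Wt e F) : Wt e (F.scaleRoots (C a)) := by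
  intro n
  rw [coeff_scaleRoots, natDegree_scaleRoots, ← map_pow]
  refine le_trans ?_ (hF n)
  exact natDegree_mul_C_le _ _

theorem hsp_scale {R : Type} [CommRing R] [Nontrivial R] (e : ℕ) (F : R[X][X]) (a x y : R)
    (hFm : F.Monic) : hsp e (F.scaleRoots (C a)) x y = (hsp e F x y).scaleRoots a := by
  ext n
  rw [coeff_scaleRoots, hsp_coeff, hsp_deg e F x y hFm, natDegree_scaleRoots, coeff_scaleRoots,
    ← map_pow, hev_mulC, hsp_coeff]
  by_cases h : n ≤ F.natDegree
  · rw [if_pos h, if_pos h]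
  · rw [if_neg h, if_neg h, zero_mul]

end HB1

theorem prHB1 (hHEV : StHEV) : StHB1 := by
  refine ⟨?_, ?_, ?_, ?_, ?_, ?_, ?_, ?_⟩
  · intro R _ _ e F x y hF
    exact ⟨HB1.hsp_monic e F x y hF, HB1.hsp_deg e F x y hF,
      fun i hi => HB1.hsp_coeff_le e F x y hi⟩
  · intro K _ e F x y hF hw hy
    ext n
    rw [coeff_scaleRoots, HB1.hsp_coeff]
    have hd : (spc F (x / y)).natDegree = F.natDegree := hF.natDegree_map _
    have hc : (spc F (x / y)).coeff n = (F.coeff n).eval (x / y) := by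
      unfold spc
      rw [coeff_map]
      rfl
    rw [hd, hc]
    by_cases h : n ≤ F.natDegree
    · rw [if_pos h, hHEV.2.1 K _ _ x y hy (hw n), ← pow_mul, mul_comm]
    · rw [if_neg h, coeff_eq_zero_of_natDegree_lt (by omega), eval_zero, zero_mul]
  · intro R S _ _ _ ψ e F x y hF
    ext n
    have hd : (F.map (mapRingHom ψ)).natDegree = F.natDegree := hF.natDegree_map _
    rw [coeff_map, HB1.hsp_coeff, HB1.hsp_coeff, hd, coeff_map]
    by_cases h : n ≤ F.natDegree
    · rw [if_pos h, if_pos h, hHEV.2.2.1 R S ψ]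
      rfl
    · rw [if_neg h, if_neg h, map_zero]
  · intro R _ _ e F t hF hw
    ext n
    have hc : (spc F t).coeff n = (F.coeff n).eval t := by
      unfold spc
      rw [coeff_map]
      rfl
    rw [HB1.hsp_coeff, hc]
    by_cases h : n ≤ F.natDegree
    · rw [if_pos h, HB1.hev_y1 _ _ _ (hw n)]
    · rw [if_neg h, coeff_eq_zero_of_natDegree_lt (by omega), eval_zero]
  · intro R _ _ e F G x y hF hG hwF hwG
    exact ⟨HB1.wt_mul hHEV e F G hF hG hwF hwG, HB1.hsp_mul hHEV e F G x y hF hG hwF hwG⟩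
  · intro R _ _ e N F x y hN _ hw
    exact ⟨HB1.wt_expand e N F hN hw, HB1.hsp_expand e N F x y hN⟩
  · intro R _ _ e F a x y hF hw
    exact ⟨HB1.wt_scale e F a hw, HB1.hsp_scale e F a x y hF⟩
  · intro R _ _ e ι s F x y hF hw
    classical
    induction s using Finset.induction_on with
    | empty =>
      rw [Finset.prod_empty, Finset.prod_empty]
      exact ⟨HB1.wt_one e, HB1.hsp_one e x y⟩
    | insert a s ha ih =>
      rw [Finset.prod_insert ha, Finset.prod_insert ha]
      have hm : (∏ i ∈ s, F i).Monic := monic_prod_of_monic _ _ fun i _ => hF i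
      refine ⟨HB1.wt_mul hHEV e _ _ (hF a) hm (hw a) ih.1, ?_⟩
      rw [HB1.hsp_mul hHEV e _ _ x y (hF a) hm (hw a) ih.1, ih.2]

end Pool.Agent.Work.MP_8d13b5_lc.Fm
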