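import Pool.Agent.Work.MP_8d13b5_lc.Fm.StmtsHom

set_option autoImplicit false

/-! Item HB2: the coordinates of the powers of `X` for the specialised family -/

namespace Pool.Agent.Work.MP_8d13b5_lc.Fm

open Polynomial NumberField Finset Module

namespace HB2

theorem hev_sub {R : Type} [CommRing R] (d : ℕ) (P Q : R[X]) (x y : R) :
    hev d (P - Q) x y = hev d P x y - hev d Q x y := by
  unfold hev
  rw [← Finset.sum_sub_distrib]
  refine Finset.sum_congr rfl fun i _ => ?_
  rw [coeff_sub]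
  ring

theorem hev_neg {R : Type} [CommRing R] (d : ℕ) (P : R[X]) (x y : R) :
    hev d (-P) x y = -hev d P x y := by
  unfold hev
  rw [← Finset.sum_neg_distrib]
  refine Finset.sum_congr rfl fun i _ => ?_
  rw [coeff_neg]
  ring

theorem hev_zero {R : Type} [CommRing R] (d : ℕ) (x y : R) : hev d (0 : R[X]) x y = 0 := by
  unfold hev
  refine Finset.sum_eq_zero fun i _ => ?_
  rw [coeff_zero]
  ring

/-- the product term of the recursion -/
theorem prod_term (hHEV : StHEV) {R : Type} [CommRing R] (m e : ℕ) (E F' : R[X]) (x y g : R)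
    (n j : ℕ) (hj : j ≤ m) (hE : E.natDegree ≤ e * (n - m)) (hE0 : n < m → E = 0)
    (hF : F'.natDegree ≤ e * (m + 1 - j)) (hg : g = hev (e * (n - m)) E x y) (h : R)
    (hh : h = hev (e * (m + 1 - j)) F' x y) :
    (E * F').natDegree ≤ e * (n + 1 - j) ∧ (n + 1 < j → E * F' = 0) ∧
      g * h = hev (e * (n + 1 - j)) (E * F') x y := by
  by_cases hnm : n < m
  · rw [hE0 hnm, zero_mul]
    refine ⟨by simp, fun _ => rfl, ?_⟩
    rw [hg, hE0 hnm, hev_zero, hev_zero, zero_mul]
  · have hsum : e * (n + 1 - j) = e * (n - m) + e * (m + 1 - j) := by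
      rw [← mul_add]
      congr 1
      omega
    refine ⟨?_, fun hlt => by omega, ?_⟩
    · rw [hsum]
      exact natDegree_mul_le.trans (add_le_add hE hF)
    · rw [hsum, (hHEV.1 R x y).2.1 _ _ _ _ hE hF, hg, hh]

end HB2

theorem prHB2 (hHEV : StHEV) (hCFD : StCFD) (hHB1 : StHB1) : StHB2 := by
  intro R _ _ m e F x y hF hd hW n
  obtain ⟨hG1, hG2, hG3⟩ := hHB1.1 R e F x y hF
  rw [hd] at hG2 hG3
  have hrF := hCFD.1 R[X] m F hF hd
  have hrG := hCFD.1 R m (hsp e F x y) hG1 hG2
  have hW' : ∀ i, (F.coeff i).natDegree ≤ e * (m + 1 - i) := by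
    intro i
    have := hW i
    rwa [hd] at this
  induction n with
  | zero =>
    intro j hj
    have h1 : Pd.cf F 0 j = if j = 0 then 1 else 0 := Pd.cf_init hF (by omega) j
    have h2 : Pd.cf (hsp e F x y) 0 j = if j = 0 then 1 else 0 := Pd.cf_init hG1 (by omega) j
    rcases Nat.eq_zero_or_pos j with hj0 | hj0
    · subst hj0
      rw [if_pos rfl] at h1 h2
      rw [h1, h2]
      refine ⟨by simp, fun h => absurd h (by omega), ?_⟩
      have := (hHEV.1 R x y).2.2.2.1 (e * (0 - 0)) 1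
      rw [C_1] at this
      rw [this]
      simp
    · rw [if_neg (by omega)] at h1 h2
      rw [h1, h2]
      refine ⟨by simp, fun _ => rfl, ?_⟩
      rw [HB2.hev_zero]
  | succ n ih =>
    intro j hj
    obtain ⟨im1, im2, im3⟩ := ih m le_rfl
    have hterm := HB2.prod_term hHEV m e (Pd.cf F n m) (F.coeff j) x y
      (Pd.cf (hsp e F x y) n m) n j hj im1 im2 (hW' j) im3 ((hsp e F x y).coeff j)
      (hG3 j (by omega))
    obtain ⟨t1, t2, t3⟩ := hterm
    rcases Nat.eq_zero_or_pos j with hj0 | hj0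
    · subst hj0
      rw [(hrF n).1, (hrG n).1, HB2.hev_neg, natDegree_neg, t3]
      exact ⟨t1, fun h => absurd h (by omega), rfl⟩
    · obtain ⟨i, rfl⟩ : ∃ i, j = i + 1 := ⟨j - 1, by omega⟩
      obtain ⟨ii1, ii2, ii3⟩ := ih i (by omega)
      have hidx : n + 1 - (i + 1) = n - i := by omega
      rw [(hrF n).2 i (by omega), (hrG n).2 i (by omega), HB2.hev_sub]
      rw [hidx] at t1 t3 ⊢
      refine ⟨(natDegree_sub_le _ _).trans (max_le ii1 t1), ?_, ?_⟩
      · intro h
        rw [ii2 (by omega), t2 h, sub_zero]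
      · rw [ii3, t3]

end Pool.Agent.Work.MP_8d13b5_lc.Fm
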