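import Pool.Agent.Work.MP_8d13b5_lc.Fm.StmtsHom

set_option autoImplicit false

/-! Item HB3: the family `hfm e F y`. -/

namespace Pool.Agent.Work.MP_8d13b5_lc.Fm

open Polynomial NumberField Finset Module

theorem HB3.hev_map {R : Type} [CommRing R] (D : ℕ) (P : R[X]) (y : R) :
    hev D (P.map C) X (C y) = hpl D P y := by
  unfold hev hpl
  refine Finset.sum_congr rfl fun i _ => ?_
  rw [coeff_map, ← C_pow, C_mul]
  ring

theorem HB3.first (hCFD : StCFD) (hHB1 : StHB1) (hHB2 : StHB2) (R : Type) [CommRing R]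
    [Nontrivial R] (e : ℕ) (F : R[X][X]) (y : R) (hF : F.Monic) (hW : Wt e F) :
    (hfm e F y).Monic ∧ (hfm e F y).natDegree = F.natDegree ∧
    (∀ i ≤ F.natDegree, (hfm e F y).coeff i = hpl (e * (F.natDegree - i)) (F.coeff i) y) ∧
    (∀ i, ((hfm e F y).coeff i).natDegree ≤ e * (F.natDegree - i)) ∧
    (∀ x : R, spc (hfm e F y) x = hsp e F x y) ∧
    ∀ m, F.natDegree = m + 1 → ∀ n, ∀ j ≤ m,
      Pd.cf (hfm e F y) n j = hpl (e * (n - j)) (Pd.cf F n j) y := by
  have hG : (F.map (mapRingHom (C : R →+* R[X]))).Monic := hF.map _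
  have hGd : (F.map (mapRingHom (C : R →+* R[X]))).natDegree = F.natDegree := hF.natDegree_map _
  have hGc : ∀ i, (F.map (mapRingHom (C : R →+* R[X]))).coeff i = (F.coeff i).map C := by
    intro i
    rw [coeff_map]
    rfl
  have hGw : Wt e (F.map (mapRingHom (C : R →+* R[X]))) := by
    intro i
    rw [hGc, hGd]
    exact natDegree_map_le.trans (hW i)
  obtain ⟨h1, h2, h3⟩ := hHB1.1 R[X] e (F.map (mapRingHom (C : R →+* R[X]))) X (C y) hG
  rw [hGd] at h2 h3
  have h3' : ∀ i ≤ F.natDegree,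
      (hfm e F y).coeff i = hpl (e * (F.natDegree - i)) (F.coeff i) y := by
    intro i hi
    have := h3 i hi
    rw [hGc, HB3.hev_map] at this
    exact this
  refine ⟨h1, h2, h3', ?_, ?_, ?_⟩
  · intro i
    rcases le_or_gt i F.natDegree with hi | hi
    · rw [h3' i hi]
      unfold hpl
      refine natDegree_sum_le_of_forall_le _ _ fun l hl => ?_
      refine (natDegree_C_mul_X_pow_le _ _).trans ?_
      exact Nat.lt_succ_iff.1 (Finset.mem_range.1 hl)
    · have h4 : (hfm e F y).coeff i = 0 := by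
        apply coeff_eq_zero_of_natDegree_lt
        show (hsp e (F.map (mapRingHom (C : R →+* R[X]))) X (C y)).natDegree < i
        rw [h2]
        exact hi
      rw [h4, natDegree_zero]
      exact Nat.zero_le _
  · intro x
    have h5 := hHB1.2.2.1 R[X] R (evalRingHom x) e (F.map (mapRingHom (C : R →+* R[X]))) X (C y) hG
    have h6 : (F.map (mapRingHom (C : R →+* R[X]))).map (mapRingHom (evalRingHom x)) = F := by
      rw [Polynomial.map_map]
      have h7 : (mapRingHom (evalRingHom x)).comp (mapRingHom (C : R →+* R[X])) =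
          RingHom.id R[X] := by
        rw [mapRingHom_comp]
        have h8 : (evalRingHom x).comp (C : R →+* R[X]) = RingHom.id R := by
          ext a
          simp
        rw [h8, mapRingHom_id]
      rw [h7, Polynomial.map_id]
    rw [h6, coe_evalRingHom, eval_X, eval_C] at h5
    exact h5
  · intro m hm n j hj
    have h9 := (hHB2 R[X] m e (F.map (mapRingHom (C : R →+* R[X]))) X (C y) hG
      (by rw [hGd, hm]) hGw n j hj).2.2
    have h10 := hCFD.2.1 R[X] R[X][X] (mapRingHom (C : R →+* R[X])) F n j hF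
    rw [h10] at h9
    have h11 : (mapRingHom (C : R →+* R[X])) (Pd.cf F n j) = (Pd.cf F n j).map C := rfl
    rw [h11, HB3.hev_map] at h9
    exact h9

theorem HB3.size (R : Type) [CommRing R] (φ : R →+* ℂ) (D r : ℕ) (P : R[X]) (x y : R)
    (hP : P.natDegree ≤ D) (ht : 1 ≤ max ‖φ x‖ ‖φ y‖) :
    ‖φ ((hasseDeriv r (hpl D P y)).eval x)‖ ≤ 2 ^ D * pn φ P * max ‖φ x‖ ‖φ y‖ ^ D := by
  set t : ℝ := max ‖φ x‖ ‖φ y‖ with htdef
  have hx : ‖φ x‖ ≤ t := le_max_left _ _
  have hy : ‖φ y‖ ≤ t := le_max_right _ _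
  have ht0 : 0 ≤ t := by linarith
  have h1 : (hasseDeriv r (hpl D P y)).eval x =
      ∑ i ∈ range (D + 1), ((i.choose r : R) * (P.coeff i * y ^ (D - i))) * x ^ (i - r) := by
    unfold hpl
    rw [map_sum, eval_finsetSum]
    refine Finset.sum_congr rfl fun i _ => ?_
    rw [C_mul_X_pow_eq_monomial, hasseDeriv_monomial, eval_monomial]
  have h2 : pn φ P = ∑ i ∈ range (D + 1), ‖φ (P.coeff i)‖ := by
    unfold pn
    refine Finset.sum_subset (Finset.range_mono (by omega)) fun i _ hi => ?_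
    rw [coeff_eq_zero_of_natDegree_lt, map_zero, norm_zero]
    rw [Finset.mem_range] at hi
    omega
  rw [h1, map_sum, h2]
  refine (norm_sum_le _ _).trans ?_
  rw [Finset.mul_sum, Finset.sum_mul]
  refine Finset.sum_le_sum fun i hi => ?_
  have hi' : i ≤ D := Nat.lt_succ_iff.1 (Finset.mem_range.1 hi)
  rw [map_mul, map_mul, map_mul, map_pow, map_pow, map_natCast, norm_mul, norm_mul, norm_mul,
    norm_pow, norm_pow, Complex.norm_natCast]
  have e1 : ((i.choose r : ℕ) : ℝ) ≤ 2 ^ D := by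
    have h3 : i.choose r ≤ 2 ^ i := Nat.choose_le_two_pow i r
    have h4 : (2 : ℕ) ^ i ≤ 2 ^ D := Nat.pow_le_pow_right (by norm_num) hi'
    exact_mod_cast h3.trans h4
  have e2 : ‖φ y‖ ^ (D - i) * ‖φ x‖ ^ (i - r) ≤ t ^ D := by
    calc ‖φ y‖ ^ (D - i) * ‖φ x‖ ^ (i - r) ≤ t ^ (D - i) * t ^ (i - r) :=
          mul_le_mul (pow_le_pow_left₀ (norm_nonneg _) hy _)
            (pow_le_pow_left₀ (norm_nonneg _) hx _) (by positivity) (by positivity)
      _ = t ^ (D - i + (i - r)) := (pow_add _ _ _).symm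
      _ ≤ t ^ D := pow_le_pow_right₀ ht (by omega)
  calc ((i.choose r : ℕ) : ℝ) * (‖φ (P.coeff i)‖ * ‖φ y‖ ^ (D - i)) * ‖φ x‖ ^ (i - r)
      = ((i.choose r : ℕ) : ℝ) * ‖φ (P.coeff i)‖ * (‖φ y‖ ^ (D - i) * ‖φ x‖ ^ (i - r)) := by ring
    _ ≤ 2 ^ D * ‖φ (P.coeff i)‖ * t ^ D :=
        mul_le_mul (mul_le_mul_of_nonneg_right e1 (norm_nonneg _)) e2 (by positivity)
          (by positivity)

theorem prHB3 (hHEV : StHEV) (hCFD : StCFD) (hHB1 : StHB1) (hHB2 : StHB2) : StHB3 := by
  refine ⟨fun R _ _ e F y hF hW => HB3.first hCFD hHB1 hHB2 R e F y hF hW, ?_, ?_, ?_, ?_⟩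
  · intro R _ y
    refine ⟨?_, ?_, ?_, ?_⟩
    · intro D P x
      unfold hpl hev
      rw [eval_finsetSum]
      refine Finset.sum_congr rfl fun i _ => ?_
      rw [eval_mul, eval_C, eval_pow, eval_X]
      ring
    · intro D P
      unfold hpl
      refine natDegree_sum_le_of_forall_le _ _ fun l hl => ?_
      refine (natDegree_C_mul_X_pow_le _ _).trans ?_
      exact Nat.lt_succ_iff.1 (Finset.mem_range.1 hl)
    · intro D ι s P
      unfold hpl
      rw [Finset.sum_comm]
      refine Finset.sum_congr rfl fun i _ => ?_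
      rw [finsetSum_coeff, Finset.sum_mul, map_sum, Finset.sum_mul]
    · intro D D' P Q hP hQ
      rw [← HB3.hev_map, ← HB3.hev_map, ← HB3.hev_map, Polynomial.map_mul]
      exact (hHEV.1 R[X] X (C y)).2.1 D D' (P.map C) (Q.map C) (natDegree_map_le.trans hP)
        (natDegree_map_le.trans hQ)
  · intro K _ D P y hy hP
    unfold hpl
    rw [comp, eval₂_eq_sum_range' C (Nat.lt_succ_of_le hP), Finset.mul_sum]
    refine Finset.sum_congr rfl fun i hi => ?_
    have hi' : i ≤ D := Nat.lt_succ_iff.1 (Finset.mem_range.1 hi)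
    rw [mul_pow, ← C_pow]
    have h1 : P.coeff i * y ^ (D - i) = y ^ D * (P.coeff i * y⁻¹ ^ i) := by
      have h2 : y ^ D = y ^ (D - i) * y ^ i := by
        rw [← pow_add]
        congr 1
        omega
      rw [h2, inv_pow]
      field_simp
    rw [h1, C_mul, C_mul]
    ring
  · intro R S _ _ ψ D P y
    unfold hpl
    rw [Polynomial.map_sum]
    refine Finset.sum_congr rfl fun i _ => ?_
    rw [Polynomial.map_mul, map_C, Polynomial.map_pow, map_X, coeff_map, map_mul, map_pow]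
  · intro R _ φ D r P x y hP ht
    exact HB3.size R φ D r P x y hP ht

end Pool.Agent.Work.MP_8d13b5_lc.Fm
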