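import Pool.Agent.Work.MP_8d13b5_lc.Fm.StmtsHom
import Pool.Agent.Work.MP_8d13b5_lc.Fm.I_XPI

set_option autoImplicit false

namespace Pool.Agent.Work.MP_8d13b5_lc.Fm

open Polynomial NumberField Finset Module

namespace HBZ

/-- over a field: multipliers of degree at most `D` for `X ^ j`, `j ≤ D + θ` -/
theorem red {k : Type} [Field k] {N : ℕ} (h A : Fin N → k[X]) (r : k) (θ D j : ℕ) (hθD : θ ≤ D)
    (hj : j ≤ D + θ) (hr : r ≠ 0) (hd : ∀ i, (h i).natDegree ≤ θ) (a : Fin N)
    (ha : (h a).coeff θ ≠ 0) (hA : ∑ i, A i * h i = C r) :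
    ∃ B : Fin N → k[X], (∀ i, (B i).natDegree ≤ D) ∧ ∑ i, B i * h i = X ^ j := by
  classical
  have hane : h a ≠ 0 := fun h0 => ha (by rw [h0, coeff_zero])
  have hadeg : (h a).natDegree = θ := le_antisymm (hd a) (le_natDegree_of_ne_zero ha)
  set T : Fin N → k[X] := fun i => C r⁻¹ * X ^ j * A i with hT
  have hTs : ∑ i, T i * h i = X ^ j := by
    have h1 : ∑ i, T i * h i = C r⁻¹ * X ^ j * ∑ i, A i * h i := by
      rw [Finset.mul_sum]
      refine Finset.sum_congr rfl fun i _ => ?_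
      simp only [hT]; ring
    rw [h1, hA]
    have h2 : (C r⁻¹ * C r : k[X]) = 1 := by rw [← C_mul, inv_mul_cancel₀ hr, C_1]
    calc C r⁻¹ * X ^ j * C r = (C r⁻¹ * C r) * X ^ j := by ring
      _ = X ^ j := by rw [h2, one_mul]
  set B : Fin N → k[X] := fun i => if i = a then
    T a + ∑ l ∈ univ.erase a, (T l / h a) * h l else T i % h a with hB
  have hBa : B a = T a + ∑ l ∈ univ.erase a, (T l / h a) * h l := by simp [hB]
  have hBi : ∀ i, i ≠ a → B i = T i % h a := fun i hi => by simp [hB, hi]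
  have hsum : ∑ i, B i * h i = X ^ j := by
    rw [← hTs, ← Finset.add_sum_erase univ (fun i => B i * h i) (mem_univ a),
      ← Finset.add_sum_erase univ (fun i => T i * h i) (mem_univ a), hBa]
    have h3 : ∑ i ∈ univ.erase a, B i * h i =
        ∑ i ∈ univ.erase a, T i * h i - (∑ l ∈ univ.erase a, (T l / h a) * h l) * h a := by
      rw [Finset.sum_mul, ← Finset.sum_sub_distrib]
      refine Finset.sum_congr rfl fun i hi => ?_
      rw [hBi i (Finset.ne_of_mem_erase hi)]
      have h4 := EuclideanDomain.div_add_mod (T i) (h a)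
      have h5 : T i % h a = T i - h a * (T i / h a) := by
        rw [eq_sub_iff_add_eq]
        rw [add_comm]
        exact h4
      rw [h5]; ring
    rw [h3]; ring
  have hdi : ∀ i, i ≠ a → (B i).natDegree ≤ θ := by
    intro i hi
    rw [hBi i hi]
    have h6 : (T i % h a).degree < (h a).degree := EuclideanDomain.mod_lt (T i) hane
    have h7 : (T i % h a).natDegree ≤ (h a).natDegree := natDegree_le_natDegree h6.le
    rw [hadeg] at h7
    exact h7
  refine ⟨B, ?_, hsum⟩
  intro i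
  by_cases hi : i = a
  · subst hi
    by_cases hB0 : B i = 0
    · rw [hB0, natDegree_zero]; exact Nat.zero_le _
    have h8 : B i * h i = X ^ j - ∑ l ∈ univ.erase i, B l * h l := by
      rw [← hsum, ← Finset.add_sum_erase univ (fun i => B i * h i) (mem_univ i)]
      ring
    have h9 : (B i * h i).natDegree ≤ D + θ := by
      rw [h8]
      refine (natDegree_sub_le _ _).trans (max_le ?_ ?_)
      · rw [natDegree_X_pow]; exact hj
      · refine natDegree_sum_le_of_forall_le _ _ fun l hl => ?_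
        refine natDegree_mul_le.trans ?_
        have := hdi l (Finset.ne_of_mem_erase hl)
        have := hd l
        omega
    rw [natDegree_mul hB0 hane, hadeg] at h9
    omega
  · exact (hdi i hi).trans hθD

/-- a solution over the integers -/
theorem solve (hC : StCRS) (hPN : StPN) (K : Type) [Field K] [NumberField K] (m s : ℕ) :
    ∃ (C₀ : ℝ) (s' : ℕ), 1 ≤ C₀ ∧
      ∀ (Y : ℝ) (θ : ℕ) (w A : ℕ → (𝓞 K)[X]) (r : 𝓞 K), 1 ≤ Y → θ ≤ s → r ≠ 0 →
      (∀ i ≤ m, (w i).natDegree ≤ θ) → (∃ i ≤ m, (w i).coeff θ ≠ 0) →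
      ∑ i ∈ range (m + 1), A i * w i = C r →
      (∀ φ : K →+* ℂ, ∀ i ≤ m, pn (res φ) (w i) ≤ Y) → ∀ j ≤ s + θ,
      ∃ (c : 𝓞 K) (B : Fin (m + 1) → (𝓞 K)[X]), c ≠ 0 ∧
        (∀ φ : K →+* ℂ, ‖res φ c‖ ≤ (C₀ * Y) ^ s') ∧ (∀ i, (B i).natDegree ≤ s) ∧
        ∑ i, B i * w i = C c * X ^ j := by
  obtain ⟨C₀, s', hC₀, H⟩ := XPI.sys hC K (m + 1) s
  refine ⟨C₀, s', hC₀, ?_⟩
  intro Y θ w A r hY hθ hr hw htop hA hpn j hj
  obtain ⟨a, ham, hatop⟩ := htop
  set v : ℕ → 𝓞 K := fun l => if l = j then 1 else 0 with hv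
  have hinj : Function.Injective (algebraMap (𝓞 K) K) := RingOfIntegers.coe_injective
  obtain ⟨c, B, hc, hBd, hB, hcs, _⟩ := H Y (fun i : Fin (m + 1) => w i) (fun _ => True) v hY
    (by
      intro φ i l
      exact ((hPN (𝓞 K) (res φ)).2.2.2.2.2.2.1 (w i) l).trans (hpn φ i (by omega)))
    (by
      intro φ l
      simp only [hv]
      split_ifs
      · rw [map_one, norm_one]; exact hY
      · rw [map_zero, norm_zero]; linarith)
    (by
      have hrK : algebraMap (𝓞 K) K r ≠ 0 := by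
        intro h0
        exact hr (hinj (by rw [h0, map_zero]))
      obtain ⟨A', hA'd, hA's⟩ := red
        (fun i : Fin (m + 1) => (w i).map (algebraMap (𝓞 K) K))
        (fun i : Fin (m + 1) => (A i).map (algebraMap (𝓞 K) K)) (algebraMap (𝓞 K) K r) θ s j hθ hj
        hrK (fun i => natDegree_map_le.trans (hw i (by omega))) ⟨a, by omega⟩
        (by
          simp only [coeff_map]
          intro h0
          exact hatop (hinj (by rw [h0, map_zero])))
        (by
          have h1 := congrArg (Polynomial.map (algebraMap (𝓞 K) K)) hA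
          rw [Polynomial.map_sum, Polynomial.map_C, Finset.sum_range] at h1
          simpa only [Polynomial.map_mul] using h1)
      refine ⟨A', hA'd, fun l _ => ?_⟩
      rw [hA's, coeff_X_pow]
      simp only [hv]
      split_ifs
      · exact (map_one (algebraMap (𝓞 K) K)).symm
      · exact (map_zero (algebraMap (𝓞 K) K)).symm)
  refine ⟨c, B, hc, hcs, hBd, ?_⟩
  ext l
  rw [coeff_C_mul, coeff_X_pow]
  by_cases hl : l ≤ 2 * s
  · rw [hB l hl trivial]
  · have h1 : (∑ i : Fin (m + 1), B i * w i).natDegree ≤ s + θ := by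
      refine natDegree_sum_le_of_forall_le _ _ fun i _ => ?_
      refine natDegree_mul_le.trans ?_
      have := hBd i
      have := hw i (by omega)
      omega
    rw [coeff_eq_zero_of_natDegree_lt (by omega), if_neg (by omega), mul_zero]

end HBZ

open HBZ in
/-- **Bezout with sizes for the forms `w_i`.** -/
theorem prHBZ (hCRS : StCRS) (hPN : StPN) (hHEV : StHEV) : StHBZ := by
  intro K _ _ m s
  obtain ⟨C₀, s', hC₀, H⟩ := solve hCRS hPN K m s
  refine ⟨C₀, 2 * s', hC₀, ?_⟩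
  intro Y θ w A r hY hθ hr hw htop hA hpn
  obtain ⟨c₁, B₁, hc₁, hs₁, hd₁, he₁⟩ := H Y θ w A r hY hθ hr hw htop hA hpn 0 (Nat.zero_le _)
  obtain ⟨c₂, B₂, hc₂, hs₂, hd₂, he₂⟩ := H Y θ w A r hY hθ hr hw htop hA hpn (s + θ) le_rfl
  refine ⟨c₁ * c₂, mul_ne_zero hc₁ hc₂, ?_, ?_⟩
  · intro φ
    rw [map_mul, norm_mul, two_mul, pow_add]
    exact mul_le_mul (hs₁ φ) (hs₂ φ) (norm_nonneg _) (by positivity)
  · intro x y hxy
    obtain ⟨hev1, -⟩ := hHEV
    obtain ⟨hsum, hmul, -, hCc, hCX⟩ := hev1 (𝓞 K) x y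
    set I : Ideal (𝓞 K) := Ideal.span {z | ∃ i ≤ m, z = hev θ (w i) x y} with hI
    have key : ∀ B : Fin (m + 1) → (𝓞 K)[X], (∀ i, (B i).natDegree ≤ s) →
        hev (s + θ) (∑ i, B i * w i) x y ∈ I := by
      intro B hB
      rw [hsum]
      refine Ideal.sum_mem _ fun i _ => ?_
      rw [hmul s θ _ _ (hB i) (hw i (by omega))]
      exact Ideal.mul_mem_left _ _ (Ideal.subset_span ⟨i, by omega, rfl⟩)
    have h1 : c₁ * y ^ (s + θ) ∈ I := by
      have := key B₁ hd₁
      rw [he₁, pow_zero, mul_one, hCc] at this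
      exact this
    have h2 : c₂ * x ^ (s + θ) ∈ I := by
      have := key B₂ hd₂
      rw [he₂, hCX] at this
      exact this
    obtain ⟨u, v, huv⟩ : IsCoprime (x ^ (s + θ)) (y ^ (s + θ)) := hxy.pow
    have h3 : c₁ * c₂ = c₁ * u * (c₂ * x ^ (s + θ)) + c₂ * v * (c₁ * y ^ (s + θ)) := by
      calc c₁ * c₂ = c₁ * c₂ * (u * x ^ (s + θ) + v * y ^ (s + θ)) := by rw [huv, mul_one]
        _ = c₁ * u * (c₂ * x ^ (s + θ)) + c₂ * v * (c₁ * y ^ (s + θ)) := by ring
    rw [h3]
    exact I.add_mem (I.mul_mem_left _ h2) (I.mul_mem_left _ h1)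

end Pool.Agent.Work.MP_8d13b5_lc.Fm
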