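import Pool.Agent.Work.MP_8d13b5_lc.Fm.StmtsHom
import Pool.Agent.Work.MP_8d13b5_lc.Fm.I_FDU

set_option autoImplicit false

/-! Block `Fm`, item HDU: one decision procedure for all families and all rational parameters. -/

namespace Pool.Agent.Work.MP_8d13b5_lc.Fm

open Polynomial NumberField Finset Module

namespace HDU

theorem primrec_ipow : Primrec₂ (fun (x : ℤ) (n : ℕ) => x ^ n) := by
  have h : Primrec₂ (fun (x : ℤ) (n : ℕ) =>
      (Nat.rec (motive := fun _ => ℤ) (1 : ℤ) (fun _ s => s * x) n : ℤ)) := by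
    refine Primrec.nat_rec (f := fun _ : ℤ => (1 : ℤ)) (g := fun (x : ℤ) (q : ℕ × ℤ) => q.2 * x)
      (Primrec.const 1) ?_
    exact (primrec_int_mul.comp (Primrec.snd.comp Primrec.snd) Primrec.fst).to₂
  refine h.of_eq fun x n => ?_
  induction n with
  | zero => simp
  | succ n ih => rw [pow_succ, ← ih]

/-- the value of the form of degree `D` with the coefficients `l` -/
def hl (w : (ℕ × List ℤ) × (ℤ × ℤ)) : ℤ :=
  (List.range (w.1.1 + 1)).foldr
    (fun j s => w.1.2.getD j 0 * w.2.1 ^ j * w.2.2 ^ (w.1.1 - j) + s) 0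

theorem primrec_hl : Primrec hl := by
  refine Primrec.list_foldr (f := fun w : (ℕ × List ℤ) × (ℤ × ℤ) => List.range (w.1.1 + 1))
    (g := fun _ => (0 : ℤ))
    (h := fun w (q : ℕ × ℤ) => w.1.2.getD q.1 0 * w.2.1 ^ q.1 * w.2.2 ^ (w.1.1 - q.1) + q.2)
    (Primrec.list_range.comp (Primrec.succ.comp (Primrec.fst.comp Primrec.fst)))
    (Primrec.const 0) ?_
  have hw : Primrec (fun y : ((ℕ × List ℤ) × (ℤ × ℤ)) × (ℕ × ℤ) => y.1) := Primrec.fst
  have hj : Primrec (fun y : ((ℕ × List ℤ) × (ℤ × ℤ)) × (ℕ × ℤ) => y.2.1) :=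
    Primrec.fst.comp Primrec.snd
  have h1 : Primrec (fun y : ((ℕ × List ℤ) × (ℤ × ℤ)) × (ℕ × ℤ) => y.1.1.2.getD y.2.1 0) :=
    (Primrec.list_getD (0 : ℤ)).comp (Primrec.snd.comp (Primrec.fst.comp hw)) hj
  have h2 : Primrec (fun y : ((ℕ × List ℤ) × (ℤ × ℤ)) × (ℕ × ℤ) => y.1.2.1 ^ y.2.1) :=
    primrec_ipow.comp (Primrec.fst.comp (Primrec.snd.comp hw)) hj
  have h3 : Primrec (fun y : ((ℕ × List ℤ) × (ℤ × ℤ)) × (ℕ × ℤ) =>
      y.1.2.2 ^ (y.1.1.1 - y.2.1)) :=
    primrec_ipow.comp (Primrec.snd.comp (Primrec.snd.comp hw))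
      (Primrec.nat_sub.comp (Primrec.fst.comp (Primrec.fst.comp hw)) hj)
  exact (primrec_int_add.comp (primrec_int_mul.comp (primrec_int_mul.comp h1 h2) h3)
    (Primrec.snd.comp Primrec.snd)).to₂

theorem foldr_range (f : ℕ → ℤ) (n : ℕ) : ∀ a : ℤ,
    (List.range n).foldr (fun j s => f j + s) a = (∑ j ∈ range n, f j) + a := by
  induction n with
  | zero => intro a; simp
  | succ n ih =>
    intro a
    rw [List.range_succ, List.foldr_append, List.foldr_cons, List.foldr_nil, ih,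
      Finset.sum_range_succ]
    ring

theorem coeff_pl (l : List ℤ) (j : ℕ) : (FDU.pl l).coeff j = l.getD j 0 := by
  unfold FDU.pl
  rw [finsetSum_coeff]
  simp only [coeff_C_mul_X_pow]
  rw [Finset.sum_ite_eq]
  split_ifs with h
  · rfl
  · rw [mem_range, not_lt] at h
    rw [List.getD_eq_default _ _ h]

theorem hl_eq (D : ℕ) (l : List ℤ) (x y : ℤ) : hl ((D, l), (x, y)) = hev D (FDU.pl l) x y := by
  unfold hl hev
  rw [foldr_range (fun j => l.getD j 0 * x ^ j * y ^ (D - j)), add_zero]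
  refine Finset.sum_congr rfl fun j _ => ?_
  rw [coeff_pl]

/-- the coefficients of the recurrence -/
def cl (w : List (List ℤ) × (ℕ × (ℤ × ℤ))) : List ℤ :=
  (List.range w.1.length).map fun j =>
    -1 * hl ((w.2.1 * (j + 1), w.1.getD (w.1.length - 1 - j) []), w.2.2)

theorem primrec_cl : Primrec cl := by
  refine Primrec.list_map (f := fun w : List (List ℤ) × (ℕ × (ℤ × ℤ)) => List.range w.1.length)
    (g := fun w j => -1 * hl ((w.2.1 * (j + 1), w.1.getD (w.1.length - 1 - j) []), w.2.2))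
    (Primrec.list_range.comp (Primrec.list_length.comp Primrec.fst)) ?_
  have hL : Primrec (fun y : (List (List ℤ) × (ℕ × (ℤ × ℤ))) × ℕ => y.1.1) :=
    Primrec.fst.comp Primrec.fst
  have hj : Primrec (fun y : (List (List ℤ) × (ℕ × (ℤ × ℤ))) × ℕ => y.2) := Primrec.snd
  have he : Primrec (fun y : (List (List ℤ) × (ℕ × (ℤ × ℤ))) × ℕ => y.1.2.1) :=
    Primrec.fst.comp (Primrec.snd.comp Primrec.fst)
  have hxy : Primrec (fun y : (List (List ℤ) × (ℕ × (ℤ × ℤ))) × ℕ => y.1.2.2) :=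
    Primrec.snd.comp (Primrec.snd.comp Primrec.fst)
  have h1 : Primrec (fun y : (List (List ℤ) × (ℕ × (ℤ × ℤ))) × ℕ => y.1.2.1 * (y.2 + 1)) :=
    Primrec.nat_mul.comp he (Primrec.succ.comp hj)
  have h2 : Primrec (fun y : (List (List ℤ) × (ℕ × (ℤ × ℤ))) × ℕ => y.1.1.length - 1 - y.2) :=
    Primrec.nat_sub.comp (Primrec.nat_sub.comp (Primrec.list_length.comp hL) (Primrec.const 1)) hj
  have h3 : Primrec (fun y : (List (List ℤ) × (ℕ × (ℤ × ℤ))) × ℕ =>
      y.1.1.getD (y.1.1.length - 1 - y.2) []) :=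
    (Primrec.list_getD ([] : List ℤ)).comp hL h2
  exact (primrec_int_mul.comp (Primrec.const (-1))
    (primrec_hl.comp (Primrec.pair (Primrec.pair h1 h3) hxy))).to₂

theorem cl_getD (L : List (List ℤ)) (e : ℕ) (x y : ℤ) (j : ℕ) (hj : j < L.length) :
    (cl (L, (e, (x, y)))).getD j 0 =
      -hev (e * (j + 1)) ((pol L).coeff (L.length - 1 - j)) x y := by
  have h : j < (cl (L, (e, (x, y)))).length := by simpa [cl] using hj
  rw [List.getD_eq_getElem _ _ h]
  simp only [cl, List.getElem_map, List.getElem_range]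
  rw [hl_eq, FDU.coeff_pol L _ (by omega)]
  ring

/-- the sequence of a monic polynomial -/
theorem isSeq (f : ℤ[X]) (hf : f.Monic) (d : ℕ) (hd : f.natDegree = d) (hd1 : 1 ≤ d)
    (h0 : f.coeff 0 ≠ 0) (c v : List ℤ) (u : ℕ → ℤ) (hu : Rec (RingHom.id ℤ) f u)
    (hc : c.length = d) (hcj : ∀ j < d, c.getD j 0 = -f.coeff (d - 1 - j))
    (hv : v.length = d) (hvu : ∀ i < d, u i = v.getD i 0) : Pd.IsSeq (c, v) u := by
  refine ⟨?_, ?_, ?_, ?_, ?_⟩
  · show c.length = v.length
    rw [hc, hv]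
  · show 1 ≤ c.length
    omega
  · show c.getD (c.length - 1) 0 ≠ 0
    rw [hc, hcj _ (by omega), Nat.sub_self]
    exact neg_ne_zero.2 h0
  · intro i hi
    have hi' : i < c.length := hi
    exact hvu i (by omega)
  · intro n
    show u (n + c.length) = ∑ j ∈ Finset.range c.length, c.getD j 0 * u (n + c.length - 1 - j)
    rw [hc]
    have h1 := hu n
    rw [hd, Finset.sum_range_succ] at h1
    have h2 : f.coeff d = 1 := by
      rw [← hd]
      exact hf.coeff_natDegree
    rw [h2, map_one, one_mul] at h1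
    have h3 : u (n + d) = ∑ i ∈ Finset.range d, -(f.coeff i) * u (n + i) := by
      simp only [RingHom.id_apply] at h1
      simp only [neg_mul, Finset.sum_neg_distrib]
      linarith
    rw [h3, ← Finset.sum_range_reflect]
    refine Finset.sum_congr rfl fun j hj => ?_
    rw [Finset.mem_range] at hj
    rw [hcj j hj]
    congr 2
    omega

theorem form_x (H : ℕ) (x y : ℤ) (hxy : IsCoprime x y) (hx : H < x.natAbs) : ∀ (D : ℕ)
    (c : ℕ → ℤ), (∃ i ≤ D, c i ≠ 0) → (∀ i, (c i).natAbs ≤ H) →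
    ∑ i ∈ range (D + 1), c i * x ^ i * y ^ (D - i) ≠ 0 := by
  have hx0 : x ≠ 0 := by
    rintro rfl
    simp at hx
  intro D
  induction D with
  | zero =>
    rintro c ⟨i, hi, hci⟩ _
    obtain rfl : i = 0 := by omega
    simpa using hci
  | succ D ih =>
    rintro c ⟨i, hi, hci⟩ hc h0
    rw [Finset.sum_range_succ'] at h0
    have h1 : ∑ k ∈ range (D + 1), c (k + 1) * x ^ (k + 1) * y ^ (D + 1 - (k + 1)) =
        x * ∑ k ∈ range (D + 1), c (k + 1) * x ^ k * y ^ (D - k) := by
      rw [mul_sum]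
      refine Finset.sum_congr rfl fun k _ => ?_
      rw [Nat.add_sub_add_right]
      ring
    rw [h1] at h0
    simp only [pow_zero, mul_one, Nat.sub_zero] at h0
    by_cases h2 : c 0 = 0
    · rw [h2, zero_mul, add_zero] at h0
      refine ih (fun k => c (k + 1)) ?_ (fun k => hc _) ((mul_eq_zero.1 h0).resolve_left hx0)
      rcases i with _ | i
      · exact absurd h2 hci
      · exact ⟨i, by omega, hci⟩
    · have h3 : x ∣ c 0 * y ^ (D + 1) :=
        ⟨-(∑ k ∈ range (D + 1), c (k + 1) * x ^ k * y ^ (D - k)), by linarith⟩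
      have h4 : x ∣ c 0 := (hxy.pow_right).dvd_of_dvd_mul_right h3
      have h5 := Nat.le_of_dvd (Int.natAbs_pos.2 h2) (Int.natAbs_dvd_natAbs.2 h4)
      have h6 := hc 0
      omega

theorem form_ne (H : ℕ) (x y : ℤ) (hxy : IsCoprime x y) (hx : H < mx x y) (D : ℕ)
    (c : ℕ → ℤ) (h : ∃ i ≤ D, c i ≠ 0) (hc : ∀ i, (c i).natAbs ≤ H) :
    ∑ i ∈ range (D + 1), c i * x ^ i * y ^ (D - i) ≠ 0 := by
  rcases lt_max_iff.1 (show H < max x.natAbs y.natAbs from hx) with h1 | h1
  · exact form_x H x y hxy h1 D c h hc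
  · rw [← Finset.sum_range_reflect]
    obtain ⟨i, hi, hci⟩ := h
    have h2 := form_x H y x hxy.symm h1 D (fun k => c (D - k))
      ⟨D - i, by omega, by simpa [Nat.sub_sub_self hi] using hci⟩ (fun k => hc _)
    intro h3
    apply h2
    rw [← h3]
    refine Finset.sum_congr rfl fun k hk => ?_
    rw [Finset.mem_range] at hk
    have e1 : D + 1 - 1 - k = D - k := by omega
    have e2 : D - (D - k) = k := by omega
    rw [e1, e2]
    ring

theorem hev_ne (H : ℕ) (x y : ℤ) (hxy : IsCoprime x y) (hx : H < mx x y) (D : ℕ)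
    (P : ℤ[X]) (hP : P ≠ 0) (hD : P.natDegree ≤ D) (hc : ∀ j, (P.coeff j).natAbs ≤ H) :
    hev D P x y ≠ 0 :=
  form_ne H x y hxy hx D P.coeff ⟨P.natDegree, hD, by
    rw [coeff_natDegree]
    exact leadingCoeff_ne_zero.2 hP⟩ hc

end HDU

theorem prHDU (hHNU : StHNU) (hDEC : StDEC) (hHB1 : StHB1) : StHDU := by
  obtain ⟨M, hM, hM'⟩ := hDEC FDU.bd FDU.primrec_bd
    (fun B p u => (∃ n, u n = 0) → ∃ n < FDU.bd (p, B), u n = 0)
    (fun B p u _ h hz => h hz)
  refine ⟨fun w => M ((HDU.cl (w.1.1, (w.2.1.1, w.2.2)), w.1.2),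
    Nat.pair w.2.1.2 (max w.2.2.1.natAbs w.2.2.2.natAbs)), ?_, ?_⟩
  · refine hM.comp (Primrec.pair (Primrec.pair (HDU.primrec_cl.comp (Primrec.pair ?_
      (Primrec.pair ?_ ?_))) ?_) ?_)
    · exact Primrec.fst.comp Primrec.fst
    · exact Primrec.fst.comp (Primrec.fst.comp Primrec.snd)
    · exact Primrec.snd.comp Primrec.snd
    · exact Primrec.snd.comp Primrec.fst
    · exact Primrec₂.natPair.comp (Primrec.snd.comp (Primrec.fst.comp Primrec.snd))
        (Primrec.nat_max.comp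
          (primrec_natAbs.comp (Primrec.fst.comp (Primrec.snd.comp Primrec.snd)))
          (primrec_natAbs.comp (Primrec.snd.comp (Primrec.snd.comp Primrec.snd))))
  · intro d e hd
    obtain ⟨N, c, hN, hc, hz⟩ := hHNU d e hd
    refine ⟨N + c + 2, fun B hB H L hL hNI x y hxy ht v u hv hvu hu => ?_⟩
    have hH := hL.one
    have hlen : L.length = d := by rw [← FDU.natDegree_pol, hL.deg]
    have hBH : 2 ≤ B * H := by
      calc 2 ≤ B := by omega
        _ = B * 1 := (mul_one B).symm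
        _ ≤ B * H := Nat.mul_le_mul_left _ hH
    have htH : H < mx x y := by
      have h1 : B * H ≤ (B * H) ^ B := Nat.le_self_pow (by omega) _
      have h2 : H < B * H := by
        calc H < 2 * H := by omega
          _ ≤ B * H := Nat.mul_le_mul_right _ (by omega)
      omega
    have hct : (c * H) ^ c ≤ mx x y := by
      refine le_trans ?_ ht
      calc (c * H) ^ c ≤ (B * H) ^ c :=
            Nat.pow_le_pow_left (Nat.mul_le_mul_right _ (by omega)) _
        _ ≤ (B * H) ^ B := Nat.pow_le_pow_right (by omega) (by omega)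
    obtain ⟨hm, hdg, hco⟩ := hHB1.1 ℤ e (pol L) x y hL.monic
    rw [hL.deg] at hdg hco
    have h0 : (hsp e (pol L) x y).coeff 0 ≠ 0 := by
      rw [hco 0 (Nat.zero_le _)]
      refine HDU.hev_ne H x y hxy htH _ _ hL.ne ?_ (hL.ht 0)
      have := hL.wt 0
      rwa [hL.deg] at this
    have hseq : Pd.IsSeq (HDU.cl (L, (e, (x, y))), v) u := by
      refine HDU.isSeq _ hm d hdg hd h0 _ v u hu (by simp [HDU.cl, hlen]) ?_ hv hvu
      intro j hj
      rw [HDU.cl_getD L e x y j (by omega), hco _ (by omega), hlen]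
      have e1 : d - (d - 1 - j) = j + 1 := by omega
      rw [e1]
    refine hM' (Nat.pair B (max x.natAbs y.natAbs)) _ u hseq ?_
    rintro ⟨n, hn⟩
    change ∃ n < FDU.bd ((HDU.cl (L, (e, (x, y))), v), Nat.pair B (mx x y)), u n = 0
    set p : List ℤ × List ℤ := (HDU.cl (L, (e, (x, y))), v) with hp
    have hbd : FDU.bd (p, Nat.pair B (mx x y)) = B * ((Pd.size p * mx x y) ^ B + 2) := by
      unfold FDU.bd
      rw [Nat.unpair_pair]
    rw [hbd]
    obtain ⟨M', hM1, _, _, hz'⟩ := hz H (pol L) hL hNI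
    have hqN : n % N < N := Nat.mod_lt _ (by omega)
    have hnq : n = n % N + N * (n / N) := (Nat.mod_add_div n N).symm
    rcases hz' x y hxy hct u hu (n % N) hqN with h3 | h3
    · refine ⟨n % N, ?_, ?_⟩
      · calc n % N < N := hqN
          _ ≤ B * 1 := by omega
          _ ≤ B * ((Pd.size p * mx x y) ^ B + 2) := Nat.mul_le_mul_left _ (by omega)
      · have := h3 0
        rwa [Nat.mul_zero, Nat.add_zero] at this
    · have h4 : ∀ i < d, (u i).natAbs ≤ Pd.size p := by
        intro i hi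
        rw [hvu i hi]
        refine (Pd.natAbs_getD_le v i).trans ?_
        unfold Pd.size
        exact Nat.le_add_left _ _
      have h5 := (h3 (Pd.size p) h4).1 (n / N)
      have h6 : n / N ≤ (Pd.size p * mx x y) ^ c := by
        by_contra h7
        exact h5 (not_le.1 h7) (by rw [← hnq]; exact hn)
      have hs1 : 1 ≤ Pd.size p := by
        have h7 : (HDU.cl (L, (e, (x, y)))).length = d := by simp [HDU.cl, hlen]
        unfold Pd.size
        show 1 ≤ (HDU.cl (L, (e, (x, y)))).length + _ + _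
        omega
      have hst : 0 < Pd.size p * mx x y := Nat.mul_pos hs1 (by omega)
      have h6' : n / N ≤ (Pd.size p * mx x y) ^ B :=
        h6.trans (Nat.pow_le_pow_right hst (by omega))
      refine ⟨n, ?_, hn⟩
      have h8 : N * (n / N) ≤ B * (Pd.size p * mx x y) ^ B :=
        Nat.mul_le_mul (by omega) h6'
      have h9 : B * ((Pd.size p * mx x y) ^ B + 2) =
          B * (Pd.size p * mx x y) ^ B + B * 2 := Nat.mul_add _ _ _
      omega

end Pool.Agent.Work.MP_8d13b5_lc.Fm
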