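import Pool.Agent.Work.MP_8d13b5_lc.Fm.StmtsHom

set_option autoImplicit false

/-! Item HDV of the block `Fm`: divisibility of the specialisations. -/

namespace Pool.Agent.Work.MP_8d13b5_lc.Fm

open Polynomial NumberField Finset Module

theorem prHDV (hWDV2 : StWDV2) (hHB1 : StHB1) : StHDV := by
  intro R _ _ e F Q x y hF hQ hw hd
  obtain ⟨G', rfl⟩ := hd
  have hG' : G'.Monic := hF.of_mul_monic_left hQ
  have h1 : Wt e F := hWDV2 R e (F * G') F hQ hF hw (dvd_mul_right F G')
  have h2 : Wt e G' := hWDV2 R e (F * G') G' hQ hG' hw (dvd_mul_left G' F)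
  obtain ⟨-, -, -, -, hmul, -⟩ := hHB1
  rw [(hmul R e F G' x y hF hG' h1 h2).2]
  exact dvd_mul_right _ _

end Pool.Agent.Work.MP_8d13b5_lc.Fm
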