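import Pool.Agent.Work.MP_8d13b5_lc.Fm.StmtsHom
import Pool.Agent.Work.MP_8d13b5_lc.Fm.I_XIZ

set_option autoImplicit false

/-! Block `Fm`, item HIZ (helper63): homogeneous families over the rational integers, the
inequality of HTH. -/

namespace Pool.Agent.Work.MP_8d13b5_lc.Fm

open Polynomial NumberField Finset Module

namespace HIZ

open FI2 XIZ

/-- the size of an integer polynomial at an embedding -/
theorem pn_io (φ : ℚ →+* ℂ) (H σ : ℕ) (P : ℤ[X]) (hdg : P.natDegree ≤ σ)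
    (hH : ∀ j, (P.coeff j).natAbs ≤ H) : pn (res φ) (P.map io) ≤ (((σ + 1) * H : ℕ) : ℝ) := by
  unfold pn
  have h1 : ∀ j, ‖res φ ((P.map io).coeff j)‖ ≤ (H : ℝ) := fun j => by
    rw [coeff_map, norm_io]
    exact_mod_cast hH j
  have h2 : (P.map io).natDegree ≤ σ := natDegree_map_le.trans hdg
  calc ∑ j ∈ range ((P.map io).natDegree + 1), ‖res φ ((P.map io).coeff j)‖
      ≤ ∑ j ∈ range ((P.map io).natDegree + 1), (H : ℝ) := sum_le_sum fun j _ => h1 j
    _ = (((P.map io).natDegree + 1 : ℕ) : ℝ) * H := by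
        rw [sum_const, card_range, nsmul_eq_mul]
    _ ≤ (((σ + 1) * H : ℕ) : ℝ) := by
        have := Nat.mul_le_mul_right H (Nat.add_le_add_right h2 1)
        exact_mod_cast this

/-- the hypotheses over `ℤ` give the structure over `ℚ`, with the size -/
theorem crE {m e H : ℕ} {F : ℤ[X][X]} (h : IsE (m + 1) e H F)
    (hnc : NonConst (F.map (mapRingHom (Int.castRingHom ℂ)))) :
    IsCrE m e (((e * (m + 1) + 1) * H : ℕ) : ℝ) (F.map (mapRingHom io)) := by
  refine ⟨⟨h.monic.map _, by rw [h.monic.natDegree_map, h.deg], ?_, ?_⟩, ?_, fun i => ?_,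
    fun φ i hi => ?_⟩
  · rw [coeff_map]
    exact fun h1 => h.ne (mio_inj (by rw [h1, map_zero]))
  · refine ⟨algebraMap ℚ ℂ, ?_⟩
    have h1 : (F.map (mapRingHom io)).map (mapRingHom (res (algebraMap ℚ ℂ))) =
        F.map (mapRingHom (Int.castRingHom ℂ)) := by
      rw [Polynomial.map_map]
      congr 1
      rw [mapRingHom_comp]
      congr 1
    rw [h1]
    exact hnc
  · have : 1 ≤ (e * (m + 1) + 1) * H := Nat.one_le_iff_ne_zero.2 (Nat.mul_ne_zero (by omega) (by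
      have := h.one
      omega))
    exact_mod_cast this
  · rw [coeff_map, coe_mapRingHom, h.monic.natDegree_map]
    exact natDegree_map_le.trans (h.wt i)
  · rw [coeff_map, coe_mapRingHom]
    refine pn_io φ H _ _ ?_ (h.ht i)
    refine (h.wt i).trans (Nat.mul_le_mul_left e ?_)
    rw [h.deg]
    omega

/-- the values of the forms commute with ring homomorphisms -/
theorem hev_map {R S : Type} [CommRing R] [CommRing S] (ψ : R →+* S) (d : ℕ) (P : R[X]) (x y : R) :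
    ψ (hev d P x y) = hev d (P.map ψ) (ψ x) (ψ y) := by
  unfold hev
  rw [map_sum]
  refine sum_congr rfl fun i _ => ?_
  rw [coeff_map, map_mul, map_mul, map_pow, map_pow]

/-- the specialisations over `ℚ` are those over `ℤ` -/
theorem hsp_io (e : ℕ) {F : ℤ[X][X]} (hF : F.Monic) (x y : ℤ) :
    hsp e (F.map (mapRingHom io)) (io x) (io y) = (hsp e F x y).map io := by
  unfold hsp
  rw [hF.natDegree_map, Polynomial.map_sum]
  refine sum_congr rfl fun i _ => ?_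
  rw [Polynomial.map_mul, Polynomial.map_pow, map_C, map_X, hev_map io, coeff_map, coe_mapRingHom]

/-- the specialisations are monic -/
theorem hsp_monic {R : Type} [CommRing R] [Nontrivial R] (e : ℕ) {F : R[X][X]} (hF : F.Monic)
    (x y : R) : (hsp e F x y).Monic := by
  have h1 : ∀ i, (hsp e F x y).coeff i = if i ∈ range (F.natDegree + 1) then
      hev (e * (F.natDegree - i)) (F.coeff i) x y else 0 := fun i => by
    unfold hsp
    rw [finsetSum_coeff]
    simp_rw [coeff_C_mul_X_pow]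
    rw [sum_ite_eq]
  have h2 : (hsp e F x y).coeff F.natDegree = 1 := by
    rw [h1, if_pos (mem_range.2 (Nat.lt_succ_self _)), hF.coeff_natDegree, Nat.sub_self, mul_zero]
    unfold hev
    simp
  have h3 : (hsp e F x y).natDegree ≤ F.natDegree := natDegree_le_iff_coeff_eq_zero.2 fun i hi => by
    rw [h1, if_neg (by rw [mem_range]; omega)]
  exact monic_of_natDegree_le_of_coeff_eq_one _ h3 h2

end HIZ

open FI2 XIZ HIZ in
theorem prHIZ (hHTH : StHTH) : StHIZ := by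
  intro m e hm
  obtain ⟨C₁, s, c₀, κ, hC₁, hmain⟩ := hHTH ℚ m e hm
  set σ : ℕ := e * (m + 1) with hσ
  set c : ℕ := ⌈C₁⌉₊ * (σ + 1) + s + c₀ + κ + 1 with hc
  refine ⟨c, by omega, fun H F hF hnc x y hxy ht n a ha hrel => ?_⟩
  have hH1 : 1 ≤ H := hF.one
  have hcH : 1 ≤ c * H := Nat.one_le_iff_ne_zero.2 (Nat.mul_ne_zero (by omega) (by omega))
  have ht1 : 1 ≤ mx x y := (Nat.one_le_pow _ _ hcH).trans ht
  have htR : (1 : ℝ) ≤ mx x y := by exact_mod_cast ht1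
  have hcHR : (1 : ℝ) ≤ (c : ℝ) * H := by exact_mod_cast hcH
  have htt : ∀ φ : ℚ →+* ℂ, tt φ (io x) (io y) = (mx x y : ℝ) := fun φ => by
    unfold tt mx
    rw [norm_io, norm_io, Nat.cast_max]
  have hTT : TT (io x) (io y) = (mx x y : ℝ) := by
    unfold TT
    rw [prod_congr rfl fun φ _ => htt φ, prod_const, card_one, pow_one]
  have hHH : HH (fun j => io (a j)) = ((∑ j, (a j).natAbs : ℕ) : ℝ) := by
    unfold HH
    have h1 : ∀ φ : ℚ →+* ℂ, ∑ j, ‖res φ (io (a j))‖ = ((∑ j, (a j).natAbs : ℕ) : ℝ) := fun φ => by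
      rw [Nat.cast_sum]
      exact sum_congr rfl fun j _ => norm_io φ (a j)
    rw [prod_congr rfl fun φ _ => h1 φ, prod_const, card_one, pow_one]
  have hbase : C₁ * (((σ + 1) * H : ℕ) : ℝ) ≤ (c : ℝ) * H := by
    have h1 : C₁ ≤ (⌈C₁⌉₊ : ℝ) := Nat.le_ceil C₁
    have h2 : ⌈C₁⌉₊ * (σ + 1) ≤ c := by omega
    have h3 : ((⌈C₁⌉₊ * (σ + 1) : ℕ) : ℝ) ≤ (c : ℝ) := by exact_mod_cast h2
    push_cast at h3 ⊢
    have h4 : (0 : ℝ) ≤ H := Nat.cast_nonneg H
    have h5 : (0 : ℝ) ≤ (σ : ℝ) + 1 := by positivity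
    calc C₁ * (((σ : ℝ) + 1) * H) = (C₁ * ((σ : ℝ) + 1)) * H := by ring
      _ ≤ ((⌈C₁⌉₊ : ℝ) * ((σ : ℝ) + 1)) * H := by gcongr
      _ ≤ (c : ℝ) * H := by gcongr
  have hb0 : 0 ≤ C₁ * (((σ + 1) * H : ℕ) : ℝ) := by positivity
  have hpow : (C₁ * (((σ + 1) * H : ℕ) : ℝ)) ^ s ≤ ((c : ℝ) * H) ^ c :=
    (pow_le_pow_left₀ hb0 hbase s).trans (pow_le_pow_right₀ hcHR (by omega))
  have hT : (C₁ * (((σ + 1) * H : ℕ) : ℝ)) ^ s ≤ TT (io x) (io y) := by
    rw [hTT]
    refine hpow.trans ?_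
    exact_mod_cast ht
  have hcf : ∀ j, Pd.cf (hsp e (F.map (mapRingHom io)) (io x) (io y)) n j =
      io (Pd.cf (hsp e F x y) n j) := by
    intro j
    rw [hsp_io e hF.monic]
    exact cf_map io _ (hsp_monic e hF.monic x y) n j
  have ha' : (fun j => io (a j)) ≠ 0 := by
    intro h
    refine ha (funext fun j => io_inj ?_)
    have := congrFun h j
    simpa using this
  have hrel' : ∑ j : Fin (m + 1), io (a j) *
      Pd.cf (hsp e (F.map (mapRingHom io)) (io x) (io y)) n j = 0 := by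
    have h1 := congrArg io hrel
    rw [map_sum, map_zero] at h1
    rw [← h1]
    refine sum_congr rfl fun j _ => ?_
    rw [hcf, map_mul]
  have hfin := hmain _ _ (crE hF hnc) (io x) (io y) (hxy.map io) (fun φ => by rw [htt]; exact htR)
    hT n (fun j => io (a j)) ha' hrel'
  rw [hTT, hHH] at hfin
  have hsum1 : 1 ≤ ∑ j, (a j).natAbs := by
    obtain ⟨j, hj⟩ := Function.ne_iff.1 ha
    have h1 : 1 ≤ (a j).natAbs := Int.natAbs_pos.2 hj
    exact h1.trans (single_le_sum (f := fun j => (a j).natAbs) (fun i _ => Nat.zero_le _)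
      (mem_univ j))
  have hkey : (mx x y : ℝ) ^ n ≤
      ((((c : ℝ) * H) ^ c) ^ (n + 1) * (mx x y : ℝ) ^ c * ((∑ j, (a j).natAbs : ℕ) : ℝ)) ^ c := by
    have hs0 : (0 : ℝ) ≤ ((∑ j, (a j).natAbs : ℕ) : ℝ) := Nat.cast_nonneg _
    have hs1 : (1 : ℝ) ≤ ((∑ j, (a j).natAbs : ℕ) : ℝ) := by exact_mod_cast hsum1
    have h1 : ((C₁ * (((σ + 1) * H : ℕ) : ℝ)) ^ s) ^ (n + 1) ≤ (((c : ℝ) * H) ^ c) ^ (n + 1) :=
      pow_le_pow_left₀ (pow_nonneg hb0 s) hpow (n + 1)
    have h2 : (mx x y : ℝ) ^ c₀ ≤ (mx x y : ℝ) ^ c := pow_le_pow_right₀ htR (by omega)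
    have h3 : 1 ≤ (((c : ℝ) * H) ^ c) ^ (n + 1) * (mx x y : ℝ) ^ c *
        ((∑ j, (a j).natAbs : ℕ) : ℝ) :=
      one_le_mul_of_one_le_of_one_le (one_le_mul_of_one_le_of_one_le
        (one_le_pow₀ (one_le_pow₀ hcHR)) (one_le_pow₀ htR)) hs1
    calc (mx x y : ℝ) ^ n ≤ (((C₁ * (((σ + 1) * H : ℕ) : ℝ)) ^ s) ^ (n + 1) *
          (mx x y : ℝ) ^ c₀ * ((∑ j, (a j).natAbs : ℕ) : ℝ)) ^ κ := hfin
      _ ≤ ((((c : ℝ) * H) ^ c) ^ (n + 1) * (mx x y : ℝ) ^ c *
          ((∑ j, (a j).natAbs : ℕ) : ℝ)) ^ κ := by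
          refine pow_le_pow_left₀ (by positivity) ?_ κ
          gcongr
      _ ≤ _ := pow_le_pow_right₀ h3 (by omega)
  exact_mod_cast hkey

end Pool.Agent.Work.MP_8d13b5_lc.Fm
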