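import Pool.Agent.Work.MP_8d13b5_lc.Fm.StmtsHom
import Pool.Agent.Work.MP_8d13b5_lc.Fm.I_VLO
import Pool.Agent.Work.MP_8d13b5_lc.Fm.I_LO2

set_option autoImplicit false

/-! Item HLO (helper27): the lower bound for the largest `cf_j`, homogeneous form. -/

namespace Pool.Agent.Work.MP_8d13b5_lc.Fm

open Polynomial NumberField Finset Module

namespace HLO

section
variable {R : Type} [CommRing R]

/-- the constant of the claim -/
noncomputable def Wh (m s : ℕ) (Y B : ℝ) : ℝ :=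
  (2 * B) * ((((m : ℝ) + 1) * Y * B) * (2 * Y * B) ^ (s + s))

/-- the lower bound for a form with a large leading coefficient -/
theorem lower (φ : R →+* ℂ) (P : R[X]) (x y : R) (H B : ℝ) (hH : 1 ≤ H) (hB : 1 ≤ B)
    (hP : pn φ P ≤ H) (hlc : 1 ≤ ‖φ P.leadingCoeff‖ * B) (ht : 2 * H * B * ‖φ y‖ ≤ ‖φ x‖) :
    ‖φ x‖ ^ P.natDegree ≤ 2 * B * ‖φ (hev P.natDegree P x y)‖ := by
  obtain ⟨ρ, hρ⟩ : ∃ ρ, ρ = 2 * H * B := ⟨_, rfl⟩
  have hρ1 : 1 ≤ ρ := by rw [hρ]; nlinarith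
  rw [← hρ] at ht
  have e : φ (hev P.natDegree P x y) =
      (∑ i ∈ range P.natDegree, φ (P.coeff i) * φ x ^ i * φ y ^ (P.natDegree - i)) +
      φ P.leadingCoeff * φ x ^ P.natDegree := by
    unfold hev
    rw [sum_range_succ, map_add, map_sum]
    congr 1
    · exact sum_congr rfl fun i _ => by rw [map_mul, map_mul, map_pow, map_pow]
    · rw [map_mul, map_mul, map_pow, map_pow, Nat.sub_self, pow_zero, mul_one]
      rfl
  have hS : ∑ i ∈ range P.natDegree, ‖φ (P.coeff i)‖ ≤ H := by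
    refine le_trans ?_ hP
    unfold pn
    rw [sum_range_succ]
    linarith [norm_nonneg (φ (P.coeff P.natDegree))]
  have hy : ‖φ y‖ ≤ ‖φ x‖ := le_trans (le_mul_of_one_le_left (norm_nonneg _) hρ1) ht
  have hterm : ∀ i ∈ range P.natDegree,
      ρ * (‖φ x‖ ^ i * ‖φ y‖ ^ (P.natDegree - i)) ≤ ‖φ x‖ ^ P.natDegree := by
    intro i hi
    have hi' : i < P.natDegree := mem_range.1 hi
    obtain ⟨k, hk⟩ : ∃ k, P.natDegree - i = k + 1 := ⟨P.natDegree - i - 1, by omega⟩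
    rw [hk]
    have h2 : P.natDegree = i + (k + 1) := by omega
    calc ρ * (‖φ x‖ ^ i * ‖φ y‖ ^ (k + 1)) = ‖φ x‖ ^ i * ‖φ y‖ ^ k * (ρ * ‖φ y‖) := by ring
      _ ≤ ‖φ x‖ ^ i * ‖φ x‖ ^ k * ‖φ x‖ := by
          refine mul_le_mul (mul_le_mul_of_nonneg_left (pow_le_pow_left₀ (norm_nonneg _) hy k)
            (by positivity)) ht (by positivity) (by positivity)
      _ = ‖φ x‖ ^ P.natDegree := by rw [h2]; ring
  have h1 : ρ * ‖∑ i ∈ range P.natDegree, φ (P.coeff i) * φ x ^ i * φ y ^ (P.natDegree - i)‖ ≤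
      H * ‖φ x‖ ^ P.natDegree := by
    calc ρ * ‖∑ i ∈ range P.natDegree, φ (P.coeff i) * φ x ^ i * φ y ^ (P.natDegree - i)‖
        ≤ ρ * ∑ i ∈ range P.natDegree,
            ‖φ (P.coeff i)‖ * (‖φ x‖ ^ i * ‖φ y‖ ^ (P.natDegree - i)) := by
          refine mul_le_mul_of_nonneg_left ((norm_sum_le _ _).trans (le_of_eq ?_)) (by linarith)
          exact sum_congr rfl fun i _ => by rw [norm_mul, norm_mul, norm_pow, norm_pow]; ring
      _ = ∑ i ∈ range P.natDegree,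
            ‖φ (P.coeff i)‖ * (ρ * (‖φ x‖ ^ i * ‖φ y‖ ^ (P.natDegree - i))) := by
          rw [mul_sum]
          exact sum_congr rfl fun i _ => by ring
      _ ≤ ∑ i ∈ range P.natDegree, ‖φ (P.coeff i)‖ * ‖φ x‖ ^ P.natDegree :=
          sum_le_sum fun i hi => mul_le_mul_of_nonneg_left (hterm i hi) (norm_nonneg _)
      _ = (∑ i ∈ range P.natDegree, ‖φ (P.coeff i)‖) * ‖φ x‖ ^ P.natDegree := by rw [sum_mul]
      _ ≤ _ := mul_le_mul_of_nonneg_right hS (by positivity)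
  obtain ⟨Q, hQ⟩ : ∃ Q, Q =
      ∑ i ∈ range P.natDegree, φ (P.coeff i) * φ x ^ i * φ y ^ (P.natDegree - i) := ⟨_, rfl⟩
  rw [← hQ] at h1 e
  have h2 : 2 * B * ‖Q‖ ≤ ‖φ x‖ ^ P.natDegree := by
    have h3 : H * (2 * B * ‖Q‖) ≤ H * ‖φ x‖ ^ P.natDegree := by
      refine le_trans (le_of_eq ?_) h1
      rw [hρ]
      ring
    exact le_of_mul_le_mul_left h3 (by linarith)
  have h4 : ‖φ P.leadingCoeff * φ x ^ P.natDegree‖ ≤ ‖φ (hev P.natDegree P x y)‖ + ‖Q‖ := by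
    have h5 := norm_sub_le (φ (hev P.natDegree P x y)) Q
    have h6 : φ (hev P.natDegree P x y) - Q = φ P.leadingCoeff * φ x ^ P.natDegree := by
      rw [e, add_sub_cancel_left]
    rw [h6] at h5
    exact h5
  rw [norm_mul, norm_pow] at h4
  have h5 : ‖φ x‖ ^ P.natDegree ≤ ‖φ P.leadingCoeff‖ * B * ‖φ x‖ ^ P.natDegree :=
    le_mul_of_one_le_left (by positivity) hlc
  have h6 := mul_le_mul_of_nonneg_left h4 (by linarith : 0 ≤ B)
  nlinarith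

/-- some cofactor is large -/
theorem claim (hHEV : StHEV) (φ : R →+* ℂ) (m s θ : ℕ) (w A : ℕ → R[X]) (r : R) (Y B : ℝ)
    (hY : 1 ≤ Y) (hB : 1 ≤ B) (hθ : θ ≤ s) (hw : ∀ i ≤ m, pn φ (w i) ≤ Y)
    (hwd : ∀ i ≤ m, (w i).natDegree ≤ θ) (i₀ : ℕ) (hi₀ : i₀ ≤ m)
    (hlc : 1 ≤ ‖φ (w i₀).leadingCoeff‖ * B) (hd : (w i₀).natDegree = θ)
    (hr : 1 ≤ ‖φ r‖ * B) (hA : ∑ i ∈ range (m + 1), A i * w i = C r)
    (hAd : ∀ i, (A i).natDegree ≤ s) (hAp : ∀ i ≤ m, pn φ (A i) ≤ Y) (x y : R)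
    (hτ1 : 1 ≤ max ‖φ x‖ ‖φ y‖) :
    ∃ i ≤ m, (max ‖φ x‖ ‖φ y‖) ^ θ ≤ Wh m s Y B * ‖φ (hev θ (w i) x y)‖ := by
  obtain ⟨ρ, hρ⟩ : ∃ ρ, ρ = 2 * Y * B := ⟨_, rfl⟩
  have hρ1 : 1 ≤ ρ := by rw [hρ]; nlinarith
  have hm1 : (1 : ℝ) ≤ (m : ℝ) + 1 := by
    have : (0 : ℝ) ≤ m := Nat.cast_nonneg m
    linarith
  obtain ⟨Z, hZ⟩ : ∃ Z, Z = (((m : ℝ) + 1) * Y * B) * ρ ^ (s + s) := ⟨_, rfl⟩
  have hZ1 : 1 ≤ Z := by
    rw [hZ]
    exact one_le_mul_of_one_le_of_one_le (one_le_mul_of_one_le_of_one_le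
      (one_le_mul_of_one_le_of_one_le hm1 hY) hB) (one_le_pow₀ hρ1)
  have hW : Wh m s Y B = (2 * B) * Z := by
    unfold Wh
    rw [hZ, hρ]
  rw [hW]
  obtain ⟨τ, hτ⟩ : ∃ τ, τ = max ‖φ x‖ ‖φ y‖ := ⟨_, rfl⟩
  rw [← hτ] at hτ1 ⊢
  rcases le_total (ρ * ‖φ y‖) ‖φ x‖ with ht | ht
  · refine ⟨i₀, hi₀, ?_⟩
    have e : τ = ‖φ x‖ := by
      rw [hτ]
      exact max_eq_left (le_trans (le_mul_of_one_le_left (norm_nonneg _) hρ1) ht)
    rw [e]
    have h1 := lower φ (w i₀) x y Y B hY hB (hw i₀ hi₀) hlc (hρ ▸ ht)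
    rw [hd] at h1
    refine h1.trans (mul_le_mul_of_nonneg_right ?_ (norm_nonneg _))
    exact le_mul_of_one_le_right (by positivity) hZ1
  · have hmax : τ ≤ ρ * ‖φ y‖ := by
      rw [hτ]
      exact max_le ht (le_mul_of_one_le_left (norm_nonneg _) hρ1)
    have hy0 : 0 < ‖φ y‖ := by
      rcases (norm_nonneg (φ y)).eq_or_lt with h | h
      · rw [← h, mul_zero] at hmax
        linarith
      · exact h
    have hid : ∑ i ∈ range (m + 1), φ (hev s (A i) x y) * φ (hev θ (w i) x y) =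
        φ r * φ y ^ (s + θ) := by
      have h1 := congrArg (fun P : R[X] => φ (hev (s + θ) P x y)) hA
      rw [(hHEV.1 R x y).1, (hHEV.1 R x y).2.2.2.1, map_mul, map_pow, map_sum] at h1
      rw [← h1]
      refine sum_congr rfl fun i hi => ?_
      have hi' : i ≤ m := Nat.lt_succ_iff.1 (mem_range.1 hi)
      rw [(hHEV.1 R x y).2.1 s θ (A i) (w i) (hAd i) (hwd i hi'), map_mul]
    obtain ⟨i, hi, hi1⟩ : ∃ i ∈ range (m + 1), τ ^ θ ≤ Z * ‖φ (hev θ (w i) x y)‖ := by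
      by_contra hcon
      push Not at hcon
      have h2 : ∀ i ∈ range (m + 1), ‖φ (hev s (A i) x y)‖ ≤ Y * τ ^ s := fun i hi => by
        refine (hHEV.2.2.2 R φ s (A i) x y (hAd i)).trans ?_
        rw [← hτ]
        exact mul_le_mul_of_nonneg_right (hAp i (Nat.lt_succ_iff.1 (mem_range.1 hi)))
          (by positivity)
      have h3 : ‖φ r‖ * ‖φ y‖ ^ (s + θ) ≤
          ∑ i ∈ range (m + 1), Y * τ ^ s * ‖φ (hev θ (w i) x y)‖ := by
        rw [← norm_pow, ← norm_mul, ← hid]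
        refine (norm_sum_le _ _).trans (sum_le_sum fun i hi => ?_)
        rw [norm_mul]
        exact mul_le_mul_of_nonneg_right (h2 i hi) (norm_nonneg _)
      -- multiply by Z
      have h4 : Z * (‖φ r‖ * ‖φ y‖ ^ (s + θ)) ≤
          ∑ i ∈ range (m + 1), Y * τ ^ s * (Z * ‖φ (hev θ (w i) x y)‖) := by
        refine (mul_le_mul_of_nonneg_left h3 (by linarith)).trans (le_of_eq ?_)
        rw [mul_sum]
        exact sum_congr rfl fun i _ => by ring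
      have hYτ : 0 < Y * τ ^ s := by positivity
      have h5 : ∑ i ∈ range (m + 1), Y * τ ^ s * (Z * ‖φ (hev θ (w i) x y)‖) <
          ∑ _i ∈ range (m + 1), Y * τ ^ s * τ ^ θ :=
        sum_lt_sum_of_nonempty ⟨0, mem_range.2 (Nat.succ_pos m)⟩ fun i hi =>
          mul_lt_mul_of_pos_left (hcon i hi) hYτ
      rw [sum_const, card_range, nsmul_eq_mul] at h5
      push_cast at h5
      -- lower bound for the left side
      have h6 : τ ^ (s + θ) ≤ ρ ^ (s + s) * ‖φ y‖ ^ (s + θ) := by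
        calc τ ^ (s + θ) ≤ (ρ * ‖φ y‖) ^ (s + θ) := pow_le_pow_left₀ (by linarith) hmax _
          _ = ρ ^ (s + θ) * ‖φ y‖ ^ (s + θ) := mul_pow _ _ _
          _ ≤ ρ ^ (s + s) * ‖φ y‖ ^ (s + θ) :=
            mul_le_mul_of_nonneg_right (pow_le_pow_right₀ hρ1 (by omega)) (by positivity)
      have h7 : ((m : ℝ) + 1) * (Y * τ ^ s * τ ^ θ) ≤ Z * (‖φ r‖ * ‖φ y‖ ^ (s + θ)) := by
        calc ((m : ℝ) + 1) * (Y * τ ^ s * τ ^ θ) = ((m : ℝ) + 1) * Y * τ ^ (s + θ) := by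
              rw [pow_add]; ring
          _ ≤ ((m : ℝ) + 1) * Y * (ρ ^ (s + s) * ‖φ y‖ ^ (s + θ)) :=
              mul_le_mul_of_nonneg_left h6 (by positivity)
          _ ≤ (‖φ r‖ * B) * (((m : ℝ) + 1) * Y * (ρ ^ (s + s) * ‖φ y‖ ^ (s + θ))) :=
              le_mul_of_one_le_left (by positivity) hr
          _ = Z * (‖φ r‖ * ‖φ y‖ ^ (s + θ)) := by rw [hZ]; ring
      linarith
    refine ⟨i, Nat.lt_succ_iff.1 (mem_range.1 hi), hi1.trans ?_⟩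
    have h9 : (1 : ℝ) ≤ 2 * B := by linarith
    calc Z * ‖φ (hev θ (w i) x y)‖ ≤ (2 * B) * (Z * ‖φ (hev θ (w i) x y)‖) :=
          le_mul_of_one_le_left (by positivity) h9
      _ = _ := by ring

theorem core (hRTB : StRTB) (hCFD : StCFD) (φ : R →+* ℂ) (m S b θ : ℕ) (g : R[X])
    (P : R) (w : ℕ → R) (r : R) (W Y τ : ℝ) (hY : 1 ≤ Y) (hW : 1 ≤ W) (hτ1 : 1 ≤ τ)
    (hgm : g.Monic) (hgd : (g.map φ).natDegree = m + 1)
    (hg : ∀ i ≤ m, ‖φ (g.coeff i)‖ ≤ Y * τ ^ S) (hdv : ∀ i ≤ m, (m + 1 - i) ∣ b)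
    (hfac : ∀ i ≤ m, r * g.coeff i ^ (b / (m + 1 - i)) = P * w i) (hr : ‖φ r‖ ≤ Y)
    (hcA : ∃ i ≤ m, τ ^ θ ≤ W * ‖φ (w i)‖)
    (n : ℕ) : ∃ j : Fin (m + 1), ‖φ P‖ ^ n * τ ^ (θ * n) ≤
      (W * Y * (2 ^ (m + 1)) ^ b) ^ n * ((((m : ℝ) + 1) * (((m : ℝ) + 3) * Y) ^ m) ^ b *
        (‖φ (Pd.cf g n j)‖ ^ b * τ ^ (S * m * b))) := by
  obtain ⟨f, hf⟩ : ∃ f, f = g.map φ := ⟨_, rfl⟩
  have hfm : f.Monic := by rw [hf]; exact hgm.map _
  have hfd : f.natDegree = m + 1 := by rw [hf, hgd]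
  have hfc : ∀ i, f.coeff i = φ (g.coeff i) := fun i => by rw [hf, coeff_map]
  have hcf : ∀ j, Pd.cf f n j = φ (Pd.cf g n j) := fun j => by
    rw [hf, hCFD.2.1 _ _ _ g n j hgm]
  obtain ⟨z, hz, hz1, hz2⟩ := hRTB (m + 1) f hfm hfd (by omega)
  have hm0 : (0 : ℝ) ≤ m := Nat.cast_nonneg m
  -- the size of the root
  have hzu : 1 + ‖z‖ ≤ ((m : ℝ) + 3) * Y * τ ^ S := by
    have h1 : ∑ i ∈ range (m + 1), ‖f.coeff i‖ ≤ ∑ _i ∈ range (m + 1), Y * τ ^ S := by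
      refine sum_le_sum fun i hi => ?_
      rw [hfc i]
      exact hg i (Nat.lt_succ_iff.1 (mem_range.1 hi))
    rw [sum_const, card_range, nsmul_eq_mul] at h1
    push_cast at h1
    have h2 : 1 ≤ Y * τ ^ S := one_le_mul_of_one_le_of_one_le hY (one_le_pow₀ hτ1)
    have h3 : ((m : ℝ) + 3) * Y * τ ^ S = ((m : ℝ) + 1) * (Y * τ ^ S) + 2 * (Y * τ ^ S) := by
      ring
    linarith
  obtain ⟨V, hV⟩ : ∃ V, V = W * Y * (2 ^ (m + 1)) ^ b := ⟨_, rfl⟩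
  have hV1 : 1 ≤ V := by
    rw [hV]
    exact one_le_mul_of_one_le_of_one_le (one_le_mul_of_one_le_of_one_le hW hY)
      (one_le_pow₀ (one_le_pow₀ (by norm_num)))
  have hzl : ‖φ P‖ * τ ^ θ ≤ V * ‖z‖ ^ b := by
    obtain ⟨i, hi, hi2⟩ := hcA
    obtain ⟨e, he⟩ := hdv i hi
    have hpos : 0 < m + 1 - i := by omega
    have hdiv : b / (m + 1 - i) = e := by rw [he, Nat.mul_div_cancel_left _ hpos]
    have hfi := congrArg (fun Q : R => ‖φ Q‖) (hfac i hi)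
    simp only [map_mul, map_pow, norm_mul, norm_pow] at hfi
    rw [hdiv, ← hfc i] at hfi
    have hle : e ≤ b := by
      rw [he]
      exact Nat.le_mul_of_pos_left _ hpos
    have h1 := pow_le_pow_left₀ (norm_nonneg _) (hz2 i (Nat.lt_succ_iff.2 hi)) e
    have h2 : ‖f.coeff i‖ ^ e ≤ (2 ^ (m + 1)) ^ b * ‖z‖ ^ b := by
      refine h1.trans ?_
      rw [mul_pow, ← pow_mul ‖z‖, ← he]
      exact mul_le_mul_of_nonneg_right (pow_le_pow_right₀ (one_le_pow₀ (by norm_num)) hle)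
        (by positivity)
    calc ‖φ P‖ * τ ^ θ ≤ ‖φ P‖ * (W * ‖φ (w i)‖) :=
          mul_le_mul_of_nonneg_left hi2 (norm_nonneg _)
      _ = W * (‖φ P‖ * ‖φ (w i)‖) := by ring
      _ = W * (‖φ r‖ * ‖f.coeff i‖ ^ e) := by rw [← hfi]
      _ ≤ W * (Y * ((2 ^ (m + 1)) ^ b * ‖z‖ ^ b)) := by
          refine mul_le_mul_of_nonneg_left ?_ (by linarith)
          exact mul_le_mul hr h2 (by positivity) (by linarith)
      _ = _ := by rw [hV]; ring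
  -- the powers of the root
  obtain ⟨j, hj⟩ : ∃ j : Fin (m + 1), ‖z‖ ^ n ≤
      ((m : ℝ) + 1) * (‖Pd.cf f n j‖ * (1 + ‖z‖) ^ m) := by
    by_contra hcon
    push Not at hcon
    have h1 := LO2.pow_root f hfm hfd z hz n
    have h2 : ‖z‖ ^ n ≤ ∑ j : Fin (m + 1), ‖Pd.cf f n j‖ * (1 + ‖z‖) ^ m := by
      rw [← norm_pow, h1, Finset.sum_range]
      refine (norm_sum_le _ _).trans (sum_le_sum fun j _ => ?_)
      rw [norm_mul, norm_pow]
      refine mul_le_mul_of_nonneg_left ?_ (norm_nonneg _)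
      calc ‖z‖ ^ (j : ℕ) ≤ (1 + ‖z‖) ^ (j : ℕ) :=
            pow_le_pow_left₀ (norm_nonneg _) (by linarith) _
        _ ≤ _ := pow_le_pow_right₀ (by linarith [norm_nonneg z]) (Nat.lt_succ_iff.1 j.2)
    have hm1 : (0 : ℝ) < (m : ℝ) + 1 := by positivity
    have h3 : ∑ j : Fin (m + 1), ‖Pd.cf f n j‖ * (1 + ‖z‖) ^ m <
        ∑ _j : Fin (m + 1), ‖z‖ ^ n / ((m : ℝ) + 1) := by
      refine sum_lt_sum_of_nonempty univ_nonempty fun j _ => ?_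
      rw [lt_div_iff₀ hm1, mul_comm]
      exact hcon j
    rw [sum_const, card_univ, Fintype.card_fin, nsmul_eq_mul] at h3
    have h4 : ((m + 1 : ℕ) : ℝ) * (‖z‖ ^ n / ((m : ℝ) + 1)) = ‖z‖ ^ n := by
      push_cast
      field_simp
    rw [h4] at h3
    exact lt_irrefl _ (h2.trans_lt h3)
  refine ⟨j, ?_⟩
  rw [← hcf j, ← hV]
  obtain ⟨D, hD⟩ : ∃ D : ℝ, D = ((m : ℝ) + 1) * (((m : ℝ) + 3) * Y) ^ m := ⟨_, rfl⟩
  rw [← hD]
  have h5 : ‖z‖ ^ n ≤ D * (‖Pd.cf f n j‖ * τ ^ (S * m)) := by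
    calc ‖z‖ ^ n ≤ ((m : ℝ) + 1) * (‖Pd.cf f n j‖ * (1 + ‖z‖) ^ m) := hj
      _ ≤ ((m : ℝ) + 1) * (‖Pd.cf f n j‖ * (((m : ℝ) + 3) * Y * τ ^ S) ^ m) := by
          refine mul_le_mul_of_nonneg_left (mul_le_mul_of_nonneg_left ?_ (norm_nonneg _))
            (by positivity)
          exact pow_le_pow_left₀ (by positivity) hzu m
      _ = _ := by
          rw [hD, mul_pow _ (τ ^ S), ← pow_mul]
          ring
  calc ‖φ P‖ ^ n * τ ^ (θ * n) = (‖φ P‖ * τ ^ θ) ^ n := by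
        rw [mul_pow, ← pow_mul]
    _ ≤ (V * ‖z‖ ^ b) ^ n := pow_le_pow_left₀ (by positivity) hzl n
    _ = V ^ n * (‖z‖ ^ n) ^ b := by rw [mul_pow, ← pow_mul, ← pow_mul, mul_comm b]
    _ ≤ V ^ n * (D * (‖Pd.cf f n j‖ * τ ^ (S * m))) ^ b :=
        mul_le_mul_of_nonneg_left (pow_le_pow_left₀ (by positivity) h5 b) (by positivity)
    _ = V ^ n * (D ^ b * (‖Pd.cf f n j‖ ^ b * τ ^ (S * m * b))) := by
        rw [mul_pow, mul_pow, ← pow_mul]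

end

end HLO

open VLO HLO in
theorem prHLO (hRTB : StRTB) (hCFD : StCFD) (hHEV : StHEV) (hHB1 : StHB1) (hHPI : StHPI) :
    StHLO := by
  intro K _ _ m s e
  obtain ⟨D, hD⟩ : ∃ D, D = Fintype.card (K →+* ℂ) := ⟨_, rfl⟩
  have b0 : PB fun Y => Y := PB.id
  have b2 : PB fun Y => 2 * Y * Y ^ D := ((PB.const 2 (by norm_num)).mul b0).mul (b0.pow D)
  have b3 : PB fun Y => Wh m s Y (Y ^ D) := by
    unfold Wh
    exact ((PB.const 2 (by norm_num)).mul (b0.pow D)).mul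
      ((((PB.const ((m : ℝ) + 1) (by positivity)).mul b0).mul (b0.pow D)).mul (b2.pow (s + s)))
  have b4 : PB fun Y => Wh m s Y (Y ^ D) * Y * (2 ^ (m + 1)) ^ (m + 1).factorial :=
    (b3.mul b0).mul (PB.const _ (by positivity))
  have b5 : PB fun Y => (((m : ℝ) + 1) * (((m : ℝ) + 3) * Y) ^ m) ^ (m + 1).factorial :=
    ((PB.const ((m : ℝ) + 1) (by positivity)).mul
      (((PB.const ((m : ℝ) + 3) (by positivity)).mul b0).pow m)).pow _
  obtain ⟨C₀, s', hC₀, hs, hCs⟩ := PB.common b4 b5 (e * (m + 1) * m * (m + 1).factorial)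
  refine ⟨C₀, s', hC₀, fun Y F θ P w A r hFm hFd hWt hF hPi φ x y n hτ1 => ?_⟩
  obtain ⟨i₀, hi₀, hne, hdeg⟩ := hPi.pi.top
  have hY := hPi.one
  have hYD : 1 ≤ Y ^ D := one_le_pow₀ hY
  have hlc : 1 ≤ ‖res φ (w i₀).leadingCoeff‖ * Y ^ D := by
    rw [hD]
    refine int_low _ (leadingCoeff_ne_zero.2 hne) Y hY (fun ψ => ?_) φ
    refine le_trans ?_ (hPi.hw ψ i₀ hi₀)
    unfold pn
    exact single_le_sum (f := fun i => ‖res ψ ((w i₀).coeff i)‖)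
      (fun _ _ => norm_nonneg _) (mem_range.2 (Nat.lt_succ_self _))
  have hrl : 1 ≤ ‖res φ r‖ * Y ^ D := by
    rw [hD]
    exact int_low r hPi.pi.h1 Y hY hPi.hr φ
  have hW1 : 1 ≤ Wh m s Y (Y ^ D) := by
    unfold Wh
    have e2 : 1 ≤ 2 * Y * Y ^ D :=
      one_le_mul_of_one_le_of_one_le (by linarith) hYD
    have hm0 : (0 : ℝ) ≤ m := Nat.cast_nonneg m
    refine one_le_mul_of_one_le_of_one_le (by linarith)
      (one_le_mul_of_one_le_of_one_le ?_ (one_le_pow₀ e2))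
    exact one_le_mul_of_one_le_of_one_le (one_le_mul_of_one_le_of_one_le (by linarith) hY) hYD
  have hcA := claim hHEV (res φ) m s θ w A r Y (Y ^ D) hY hYD hPi.dθ (fun i hi => hPi.hw φ i hi)
    (fun i hi => hPi.pi.deg i hi) i₀ hi₀ hlc hdeg hrl hPi.bz hPi.dA (fun i hi => hPi.hA φ i hi)
    x y hτ1
  obtain ⟨hg1, hg2, hg3⟩ := hHB1.1 (𝓞 K) e F x y hFm
  obtain ⟨-, hpi⟩ := hHPI (𝓞 K) m e (m + 1).factorial θ F P w r r hFm hFd hWt hPi.pi
  have hgd : ((hsp e F x y).map (res φ)).natDegree = m + 1 := by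
    rw [hg1.natDegree_map, hg2, hFd]
  have hgc : ∀ i ≤ m, ‖res φ ((hsp e F x y).coeff i)‖ ≤ Y * tt φ x y ^ (e * (m + 1)) := by
    intro i hi
    rw [hg3 i (by omega), hFd]
    have h1 : (F.coeff i).natDegree ≤ e * (m + 1 - i) := by
      have := hWt i
      rwa [hFd] at this
    refine (hHEV.2.2.2 (𝓞 K) (res φ) (e * (m + 1 - i)) (F.coeff i) x y h1).trans ?_
    refine mul_le_mul (hF φ i hi) ?_ (by positivity) (by linarith)
    exact pow_le_pow_right₀ hτ1 (Nat.mul_le_mul_left e (Nat.sub_le _ _))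
  obtain ⟨j, hj⟩ := HLO.core hRTB hCFD (res φ) m (e * (m + 1)) (m + 1).factorial θ (hsp e F x y)
    (hev (e * (m + 1).factorial - θ) P x y) (fun i => hev θ (w i) x y) r _ Y (tt φ x y) hY hW1
    hτ1 hg1 hgd hgc hPi.pi.dvd (fun i hi => hpi x y i hi) (hPi.hr φ) hcA n
  refine ⟨j, ?_⟩
  obtain ⟨g1, g2⟩ := hCs Y hY
  have hCH : 1 ≤ C₀ * Y := one_le_mul_of_one_le_of_one_le hC₀ hY
  refine hj.trans ?_
  have e3 : (C₀ * Y) ^ (s' * (n + 1)) = ((C₀ * Y) ^ s') ^ n * (C₀ * Y) ^ s' := by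
    rw [mul_add, mul_one, pow_add, pow_mul]
  rw [e3]
  have hτ0 : 0 ≤ tt φ x y := by linarith
  calc _ ≤ ((C₀ * Y) ^ s') ^ n * ((C₀ * Y) ^ s' *
        (‖res φ (Pd.cf (hsp e F x y) n j)‖ ^ (m + 1).factorial * tt φ x y ^ s')) := by
        refine mul_le_mul (pow_le_pow_left₀ (by positivity) g1 n) ?_ (by positivity)
          (by positivity)
        refine mul_le_mul g2 ?_ (by positivity) (by positivity)
        exact mul_le_mul_of_nonneg_left (pow_le_pow_right₀ hτ1 hs) (by positivity)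
    _ = _ := by ring

end Pool.Agent.Work.MP_8d13b5_lc.Fm
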