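import Pool.Agent.Work.MP_8d13b5_lc.Fm.StmtsHom
import Pool.Agent.Work.MP_8d13b5_lc.Fm.I_FNA

set_option autoImplicit false

/-! Item HNR: every family, with all rational parameters, reduces to one recurrence over the
integers. -/

namespace Pool.Agent.Work.MP_8d13b5_lc.Fm

open Polynomial NumberField Finset Module

namespace HNR

/-- size of a value of a form -/
theorem hev_le (P : ℤ[X]) (x y : ℤ) (D : ℕ) (T : ℤ) (hx : |x| ≤ T) (hy : |y| ≤ T) :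
    |hev D P x y| ≤ (∑ j ∈ range (D + 1), |P.coeff j|) * T ^ D := by
  unfold hev
  rw [sum_mul]
  refine (abs_sum_le_sum_abs _ _).trans (sum_le_sum fun j hj => ?_)
  rw [mem_range] at hj
  rw [abs_mul, abs_mul, abs_pow, abs_pow, mul_assoc]
  have hT : 0 ≤ T := (abs_nonneg x).trans hx
  have h1 : |x| ^ j * |y| ^ (D - j) ≤ T ^ j * T ^ (D - j) :=
    mul_le_mul (pow_le_pow_left₀ (abs_nonneg _) hx _) (pow_le_pow_left₀ (abs_nonneg _) hy _)
      (pow_nonneg (abs_nonneg _) _) (pow_nonneg hT _)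
  have h2 : T ^ j * T ^ (D - j) = T ^ D := by
    rw [← pow_add]
    congr 1
    omega
  rw [h2] at h1
  exact mul_le_mul_of_nonneg_left h1 (abs_nonneg _)

/-- the bound in terms of the parameters -/
theorem grow_h (hHB1 : StHB1) (F : ℤ[X][X]) (hF : F.Monic) (e L : ℕ) : ∃ T₀ s : ℕ, 1 ≤ T₀ ∧
    ∀ x y : ℤ, T₀ ≤ mx x y → ∀ u : ℕ → ℤ, Rec (RingHom.id ℤ) (hsp e F x y) u → ∀ B : ℕ,
      (∀ i < F.natDegree, (u i).natAbs ≤ B) →
      (∀ j, B = 0 → u j = 0) ∧ ∀ j ≤ L, (u j).natAbs ≤ mx x y ^ s * B := by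
  classical
  set d := F.natDegree with hd
  set s := e * d with hs
  set C₀ : ℕ := ∑ i ∈ range d, ∑ j ∈ range (e * (d - i) + 1), ((F.coeff i).coeff j).natAbs
    with hC
  refine ⟨1 + d * C₀, (s + 1) * L, by omega, fun x y ht u hu B hB => ?_⟩
  obtain ⟨hm, hdeg, hco⟩ := hHB1.1 ℤ e F x y hF
  rw [← hd] at hdeg hco
  obtain ⟨T, hTdef⟩ : ∃ T : ℤ, T = (mx x y : ℤ) := ⟨_, rfl⟩
  have hT1 : 1 ≤ mx x y := by omega
  have hT : (1 : ℤ) ≤ T := by
    rw [hTdef]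
    exact_mod_cast hT1
  have hxT : |x| ≤ T := by
    rw [hTdef, Int.abs_eq_natAbs]
    unfold mx
    exact_mod_cast le_max_left _ _
  have hyT : |y| ≤ T := by
    rw [hTdef, Int.abs_eq_natAbs]
    unfold mx
    exact_mod_cast le_max_right _ _
  have hcoef : ∀ i < d, |(hsp e F x y).coeff i| ≤ (C₀ : ℤ) * T ^ s := by
    intro i hi
    rw [hco i hi.le]
    refine (hev_le (F.coeff i) x y _ T hxT hyT).trans ?_
    have h2 : (∑ j ∈ range (e * (d - i) + 1), |(F.coeff i).coeff j|) ≤ (C₀ : ℤ) := by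
      have h3 : ∑ j ∈ range (e * (d - i) + 1), ((F.coeff i).coeff j).natAbs ≤ C₀ := by
        rw [hC]
        exact single_le_sum
          (f := fun i => ∑ j ∈ range (e * (d - i) + 1), ((F.coeff i).coeff j).natAbs)
          (fun _ _ => Nat.zero_le _) (mem_range.2 hi)
      have h4 : (∑ j ∈ range (e * (d - i) + 1), |(F.coeff i).coeff j|) =
          ((∑ j ∈ range (e * (d - i) + 1), ((F.coeff i).coeff j).natAbs : ℕ) : ℤ) := by
        push_cast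
        rfl
      rw [h4]
      exact_mod_cast h3
    have h5 : T ^ (e * (d - i)) ≤ T ^ s :=
      pow_le_pow_right₀ hT (Nat.mul_le_mul_left _ (Nat.sub_le _ _))
    exact mul_le_mul h2 h5 (by positivity) (by positivity)
  have hmain := FNA.grow (hsp e F x y) hm u hu ((C₀ : ℤ) * T ^ s) (B : ℤ) (by positivity)
    (by positivity)
    (by rw [hdeg]; exact hcoef)
    (by
      rw [hdeg]
      intro i hi
      rw [Int.abs_eq_natAbs]
      exact_mod_cast hB i hi)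
  rw [hdeg] at hmain
  refine ⟨fun j hj => ?_, fun j hj => ?_⟩
  · have := hmain j
    rw [hj] at this
    simp only [Nat.cast_zero, mul_zero] at this
    exact abs_eq_zero.1 (le_antisymm this (abs_nonneg _))
  · have h1 : (1 : ℤ) + d * ((C₀ : ℤ) * T ^ s) ≤ T ^ (s + 1) := by
      have h2 : ((1 + d * C₀ : ℕ) : ℤ) ≤ T := by
        rw [hTdef]
        exact_mod_cast ht
      have h3 : (1 : ℤ) ≤ T ^ s := one_le_pow₀ hT
      rw [pow_succ]
      push_cast at h2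
      nlinarith
    have h4 : (1 + (d : ℤ) * ((C₀ : ℤ) * T ^ s)) ^ j ≤ T ^ ((s + 1) * L) := by
      calc (1 + (d : ℤ) * ((C₀ : ℤ) * T ^ s)) ^ j ≤ (T ^ (s + 1)) ^ j :=
            pow_le_pow_left₀ (by positivity) h1 j
        _ = T ^ ((s + 1) * j) := by rw [pow_mul]
        _ ≤ T ^ ((s + 1) * L) := pow_le_pow_right₀ hT (Nat.mul_le_mul_left _ hj)
    have h5 := (hmain j).trans (mul_le_mul_of_nonneg_right h4 (by positivity : (0 : ℤ) ≤ B))
    rw [Int.abs_eq_natAbs, hTdef] at h5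
    exact_mod_cast h5

/-- the weights after a base change -/
theorem wt_map {R S : Type} [CommRing R] [CommRing S] [Nontrivial S] (ψ : R →+* S) (e : ℕ)
    (F : R[X][X]) (hF : F.Monic) (h : Wt e F) : Wt e (F.map (mapRingHom ψ)) := by
  intro i
  rw [coeff_map, hF.natDegree_map (mapRingHom ψ)]
  exact (natDegree_map_le).trans (h i)

/-- the divisibility, specialised -/
theorem hsp_dvd (hHDV : StHDV) (hHB1 : StHB1) {K : Type} [Field K] [NumberField K] (F : ℤ[X][X])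
    (e : ℕ) (hF : F.Monic) (hW : Wt e F) (N D r : ℕ) (hN : 1 ≤ N)
    (θ : Fin r → 𝓞 K) (G : (𝓞 K)[X][X]) (hG : G.Monic) (hWG : Wt (e * N) G)
    (h : (F.map (mapRingHom (algebraMap ℤ (𝓞 K)))).scaleRoots (C (D : 𝓞 K)) ∣
        expand (𝓞 K)[X] N (∏ j, G.scaleRoots (C (θ j)))) (x y : ℤ) :
    ((hsp e F x y).map (algebraMap ℤ (𝓞 K))).scaleRoots (D : 𝓞 K) ∣
      expand (𝓞 K) N (∏ j, (hsp (e * N) G (x : 𝓞 K) (y : 𝓞 K)).scaleRoots (θ j)) := by
  obtain ⟨-, -, hc, -, -, hf, hg, hh⟩ := hHB1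
  have hFm : (F.map (mapRingHom (algebraMap ℤ (𝓞 K)))).Monic := hF.map _
  have hFW : Wt e (F.map (mapRingHom (algebraMap ℤ (𝓞 K)))) := wt_map _ e F hF hW
  have hGm : ∀ j, (G.scaleRoots (C (θ j))).Monic := fun j => (monic_scaleRoots_iff _).2 hG
  have hGW : ∀ j, Wt (e * N) (G.scaleRoots (C (θ j))) := fun j =>
    (hg (𝓞 K) (e * N) G (θ j) 0 0 hG hWG).1
  have hPm : (∏ j, G.scaleRoots (C (θ j))).Monic := monic_prod_of_monic _ _ fun j _ => hGm j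
  have hPW := hh (𝓞 K) (e * N) (Fin r) univ (fun j => G.scaleRoots (C (θ j))) (x : 𝓞 K)
    (y : 𝓞 K) hGm hGW
  have hEW := hf (𝓞 K) e N (∏ j, G.scaleRoots (C (θ j))) (x : 𝓞 K) (y : 𝓞 K) hN hPm hPW.1
  have h1 := hHDV (𝓞 K) e _ _ (x : 𝓞 K) (y : 𝓞 K) ((monic_scaleRoots_iff _).2 hFm)
    (hPm.expand (by omega)) hEW.1 h
  rw [hEW.2, hPW.2, (hg (𝓞 K) e _ (D : 𝓞 K) (x : 𝓞 K) (y : 𝓞 K) hFm hFW).2] at h1
  have h2 := hc ℤ (𝓞 K) (algebraMap ℤ (𝓞 K)) e F x y hF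
  rw [eq_intCast, eq_intCast] at h2
  rw [← h2] at h1
  rw [Finset.prod_congr rfl fun j _ =>
    (hg (𝓞 K) (e * N) G (θ j) (x : 𝓞 K) (y : 𝓞 K) hG hWG).2] at h1
  exact h1

/-- the scaled subsequence is a solution -/
theorem sub_sol {K : Type} [Field K] [NumberField K] (h2 : StSBY) (f : ℤ[X]) (N D r : ℕ)
    (θ : Fin r → 𝓞 K) (g : (𝓞 K)[X]) (hN : 1 ≤ N)
    (h : (f.map (algebraMap ℤ (𝓞 K))).scaleRoots (D : 𝓞 K) ∣
      expand (𝓞 K) N (∏ j, g.scaleRoots (θ j)))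
    (u : ℕ → ℤ) (hu : Rec (RingHom.id ℤ) f u) (q : ℕ) :
    Pd.Sol (∏ j, g.scaleRoots (θ j))
      (fun n => (D : 𝓞 K) ^ (q + N * n) * ((u (q + N * n) : ℤ) : 𝓞 K)) := by
  have hu1 : Pd.Sol f u := hu
  have hu2 : Pd.Sol (f.map (algebraMap ℤ (𝓞 K)))
      (fun n => algebraMap ℤ (𝓞 K) (u n)) := hu1.map (algebraMap ℤ (𝓞 K))
  have hu3 := hu2.scale (D : 𝓞 K)
  have hu4 := h2 (𝓞 K) _ _ N q _ hN h hu3
  exact hu4

end HNR

theorem prHNR (hRZH : StRZH) (hHDV : StHDV) (hHB1 : StHB1) (hSBY : StSBY) (hHZR : StHZR)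
    (hSQZ : StSQZ) (hINT : StINT) : StHNR := by
  classical
  intro F e hF hd h0 hW
  obtain ⟨K, _, _, N, D, r, k, θ, G, hN, hD, hθ, hG, hGd, hG0, hWG, hrat, hdvd⟩ :=
    hRZH F e hF hd h0 hW
  obtain ⟨f, hf, hf0, hsq⟩ := hSQZ K r θ hθ
  set H : ℝ := 1 + ∑ φ : K →+* ℂ, ∑ i ∈ range (k + 1), pn (res φ) (G.coeff i) with hH
  obtain ⟨c₁, hc₁, hz⟩ := hHZR K k (e * N) r θ hθ
  have hpn : ∀ (φ : K →+* ℂ) (P : (𝓞 K)[X]), 0 ≤ pn (res φ) P := by
    intro φ P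
    unfold pn
    exact sum_nonneg fun _ _ => norm_nonneg _
  have hGH : IsCrE k (e * N) H G := by
    refine ⟨⟨hG, hGd, hG0, hrat⟩, ?_, hWG, ?_⟩
    · rw [hH]
      have : 0 ≤ ∑ φ : K →+* ℂ, ∑ i ∈ range (k + 1), pn (res φ) (G.coeff i) :=
        sum_nonneg fun φ _ => sum_nonneg fun i _ => hpn φ _
      linarith
    · intro φ i hi
      have h5 : pn (res φ) (G.coeff i) ≤ ∑ i ∈ range (k + 1), pn (res φ) (G.coeff i) :=
        single_le_sum (f := fun i => pn (res φ) (G.coeff i)) (fun _ _ => hpn φ _)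
          (mem_range.2 (by omega))
      have h6 : ∑ i ∈ range (k + 1), pn (res φ) (G.coeff i) ≤
          ∑ φ : K →+* ℂ, ∑ i ∈ range (k + 1), pn (res φ) (G.coeff i) :=
        single_le_sum (f := fun φ : K →+* ℂ => ∑ i ∈ range (k + 1), pn (res φ) (G.coeff i))
          (fun φ _ => sum_nonneg fun i _ => hpn φ _) (mem_univ φ)
      linarith
  set L := N + N * ((k + 1) * r) with hL
  obtain ⟨T₂, s, hT₂, hs⟩ := HNR.grow_h hHB1 F hF e L
  set D' := finrank ℚ K with hD'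
  have hD'1 : 1 ≤ D' := finrank_pos
  refine ⟨N, T₂ + D ^ L + ⌈(c₁ * H) ^ c₁⌉₊, (1 + s + D') * c₁, f, hN, hf, hf0, ?_⟩
  intro x y hxy ht u hu q hq
  by_cases hu0 : ∀ n, u n = 0
  · refine ⟨fun _ => 0, ?_, fun n _ => hu0 _, fun B _ n _ _ => rfl⟩
    intro n
    simp
  obtain ⟨htt, hTT, hcop, hone⟩ := hINT K x y
  rw [← hD'] at hTT
  obtain ⟨t, htdef⟩ : ∃ t : ℕ, t = mx x y := ⟨_, rfl⟩
  rw [← htdef] at ht hTT hone ⊢
  have hT1 : 1 ≤ t := by omega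
  have hTr : (1 : ℝ) ≤ (t : ℝ) := by exact_mod_cast hT1
  have hTT1 : (c₁ * H) ^ c₁ ≤ TT (x : 𝓞 K) (y : 𝓞 K) := by
    rw [hTT]
    calc (c₁ * H) ^ c₁ ≤ (⌈(c₁ * H) ^ c₁⌉₊ : ℝ) := Nat.le_ceil _
      _ ≤ (t : ℝ) := by exact_mod_cast (by omega : ⌈(c₁ * H) ^ c₁⌉₊ ≤ t)
      _ ≤ (t : ℝ) ^ D' := le_self_pow₀ hTr (by omega)
  have htt1 : ∀ φ : K →+* ℂ, 1 ≤ tt φ (x : 𝓞 K) (y : 𝓞 K) := by
    intro φ
    rw [htt φ, ← htdef]
    exact hTr
  have hsol := HNR.sub_sol hSBY (hsp e F x y) N D r θ (hsp (e * N) G (x : 𝓞 K) (y : 𝓞 K)) hN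
    (HNR.hsp_dvd hHDV hHB1 F e hF hW N D r hN θ G hG hWG hdvd x y) u hu q
  obtain ⟨δ, v, hδ, hv, hvz, hB⟩ :=
    (hz H G hGH (x : 𝓞 K) (y : 𝓞 K) (hcop hxy) htt1 hTT1).2 _ hsol
  obtain ⟨w, hw, hw0⟩ := hsq (k + 1) v hv
  have hDK : (D : 𝓞 K) ≠ 0 := by
    have : D ≠ 0 := by omega
    exact_mod_cast this
  refine ⟨w, hw, ?_, ?_⟩
  · intro n hn
    have h5 := (hw0 n).1 hn
    have h6 := hvz n
    rw [sum_eq_zero (fun i _ => by rw [h5 i, mul_zero])] at h6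
    have h7 := (mul_eq_zero.1 h6).resolve_left hδ
    have h8 := (mul_eq_zero.1 h7).resolve_left (pow_ne_zero _ hDK)
    exact_mod_cast h8
  · intro B hBu n hn hun
    obtain ⟨hb0, hbL⟩ := hs x y (by omega) u hu B hBu
    rw [← htdef] at hbL
    have hBpos : 1 ≤ B := by
      rcases Nat.eq_zero_or_pos B with h | h
      · exact absurd (fun n => hb0 _ h) hu0
      · exact h
    have hDL : D ^ L ≤ t := by omega
    have hDLr : ((D ^ L : ℕ) : ℝ) ≤ (t : ℝ) := by exact_mod_cast hDL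
    have hDL1 : 1 ≤ D ^ L := Nat.one_le_pow _ _ hD
    have hBr : (1 : ℝ) ≤ (B : ℝ) := by exact_mod_cast hBpos
    set B₁ : ℝ := ((D ^ L * (t ^ s * B) : ℕ) : ℝ) with hB₁
    have hB₁1 : 1 ≤ B₁ := by
      rw [hB₁]
      have h9 : 1 ≤ t ^ s := Nat.one_le_pow _ _ hT1
      have : 1 ≤ D ^ L * (t ^ s * B) := Nat.mul_pos hDL1 (Nat.mul_pos h9 hBpos)
      exact_mod_cast this
    have hzb : ∀ (φ : K →+* ℂ), ∀ n < (k + 1) * r,
        ‖res φ ((D : 𝓞 K) ^ (q + N * n) * ((u (q + N * n) : ℤ) : 𝓞 K))‖ ≤ B₁ := by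
      intro φ j hj
      have hjL : q + N * j ≤ L := by
        have : N * j ≤ N * ((k + 1) * r) := Nat.mul_le_mul_left _ hj.le
        omega
      have h9 := hbL (q + N * j) hjL
      rw [map_mul, map_pow, map_natCast, map_intCast, norm_mul, norm_pow, Complex.norm_natCast,
        Complex.norm_intCast, hB₁]
      have h10 : |((u (q + N * j) : ℤ) : ℝ)| = ((u (q + N * j)).natAbs : ℝ) := by
        rw [Nat.cast_natAbs, Int.cast_abs]
      rw [h10]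
      have h11 : D ^ (q + N * j) * (u (q + N * j)).natAbs ≤ D ^ L * (t ^ s * B) :=
        Nat.mul_le_mul (Nat.pow_le_pow_right hD hjL) h9
      exact_mod_cast h11
    have hlast := hB B₁ hB₁1 hzb n ?_ ?_
    · exact (hw0 n).2 hlast
    · rw [hTT]
      have e1 : B₁ * (t : ℝ) ^ D' ≤ ((B : ℝ) * t) ^ (1 + s + D') := by
        have e2 : B₁ = ((D ^ L : ℕ) : ℝ) * ((t : ℝ) ^ s * B) := by
          rw [hB₁]
          push_cast
          ring
        have e3 : B₁ * (t : ℝ) ^ D' ≤ (B : ℝ) * (t : ℝ) ^ (1 + s + D') := by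
          rw [e2]
          calc ((D ^ L : ℕ) : ℝ) * ((t : ℝ) ^ s * B) * (t : ℝ) ^ D'
              ≤ (t : ℝ) * ((t : ℝ) ^ s * B) * (t : ℝ) ^ D' := by
                gcongr
            _ = (B : ℝ) * (t : ℝ) ^ (1 + s + D') := by
                rw [pow_add, pow_add, pow_one]
                ring
        refine e3.trans ?_
        rw [mul_pow]
        have e4 : (B : ℝ) ≤ (B : ℝ) ^ (1 + s + D') := le_self_pow₀ hBr (by omega)
        exact mul_le_mul_of_nonneg_right e4 (by positivity)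
      have e5 : (B₁ * (t : ℝ) ^ D') ^ c₁ ≤ ((B : ℝ) * t) ^ ((1 + s + D') * c₁) := by
        rw [pow_mul]
        exact pow_le_pow_left₀ (by positivity) e1 c₁
      have e6 : ((B : ℝ) * t) ^ ((1 + s + D') * c₁) < (t : ℝ) ^ n := by
        exact_mod_cast hn
      have e7 : (t : ℝ) ^ n ≤ ((t : ℝ) ^ D') ^ n := by
        exact pow_le_pow_left₀ (by positivity) (le_self_pow₀ hTr (by omega)) n
      linarith
    · rw [hun]
      simp

end Pool.Agent.Work.MP_8d13b5_lc.Fm
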