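import Pool.Agent.Work.MP_8d13b5_lc.Fm.StmtsHom
import Pool.Agent.Work.MP_8d13b5_lc.Fm.I_FNA

set_option autoImplicit false

/-! Item HNU: every family without constant quotients of infinite order, zeros, all rational
parameters, uniform in the family. -/

namespace Pool.Agent.Work.MP_8d13b5_lc.Fm

open Polynomial NumberField Finset Module

namespace HNU

/-- the size of a value of a form -/
theorem hev_le (D : ℕ) (P : ℤ[X]) (x y : ℤ) (H : ℕ) (hP : ∀ j, (P.coeff j).natAbs ≤ H) :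
    |hev D P x y| ≤ (((D + 1) * H : ℕ) : ℤ) * ((mx x y : ℕ) : ℤ) ^ D := by
  unfold hev
  refine (abs_sum_le_sum_abs _ _).trans ?_
  have h1 : ∀ i ∈ range (D + 1), |P.coeff i * x ^ i * y ^ (D - i)| ≤
      (H : ℤ) * ((mx x y : ℕ) : ℤ) ^ D := by
    intro i hi
    have hi' : i ≤ D := by
      have := mem_range.1 hi
      omega
    rw [abs_mul, abs_mul, abs_pow, abs_pow]
    have e1 : |P.coeff i| ≤ (H : ℤ) := by
      rw [Int.abs_eq_natAbs]
      exact_mod_cast hP i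
    have e2 : |x| ≤ ((mx x y : ℕ) : ℤ) := by
      rw [Int.abs_eq_natAbs]
      exact_mod_cast le_max_left _ _
    have e3 : |y| ≤ ((mx x y : ℕ) : ℤ) := by
      rw [Int.abs_eq_natAbs]
      exact_mod_cast le_max_right _ _
    have e4 : |x| ^ i ≤ ((mx x y : ℕ) : ℤ) ^ i := pow_le_pow_left₀ (abs_nonneg _) e2 i
    have e5 : |y| ^ (D - i) ≤ ((mx x y : ℕ) : ℤ) ^ (D - i) :=
      pow_le_pow_left₀ (abs_nonneg _) e3 _
    have e6 : ((mx x y : ℕ) : ℤ) ^ D = ((mx x y : ℕ) : ℤ) ^ i * ((mx x y : ℕ) : ℤ) ^ (D - i) := by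
      rw [← pow_add, Nat.add_sub_cancel' hi']
    rw [e6, ← mul_assoc]
    exact mul_le_mul (mul_le_mul e1 e4 (by positivity) (by positivity)) e5 (by positivity)
      (by positivity)
  refine (sum_le_sum h1).trans (le_of_eq ?_)
  rw [sum_const, card_range, nsmul_eq_mul]
  push_cast
  ring

/-- growth, uniform -/
theorem grow_h (hHB1 : StHB1) (d e H : ℕ) (F : ℤ[X][X]) (hF : IsE d e H F) (L : ℕ) (x y : ℤ)
    (ht : 1 + d * ((e * d + 1) * H) ≤ mx x y) (u : ℕ → ℤ)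
    (hu : Rec (RingHom.id ℤ) (hsp e F x y) u) (B : ℕ) (hB : ∀ i < d, (u i).natAbs ≤ B) :
    (∀ j, B = 0 → u j = 0) ∧ ∀ j ≤ L, (u j).natAbs ≤ mx x y ^ ((e * d + 1) * L) * B := by
  have hT1 : 1 ≤ mx x y := by omega
  obtain ⟨T, hTd⟩ : ∃ T : ℤ, T = ((mx x y : ℕ) : ℤ) := ⟨_, rfl⟩
  have hT : (1 : ℤ) ≤ T := by
    rw [hTd]
    exact_mod_cast hT1
  obtain ⟨hm, hdeg0, hco⟩ := hHB1.1 ℤ e F x y hF.monic
  have hdeg : (hsp e F x y).natDegree = d := by rw [hdeg0, hF.deg]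
  have hcoef : ∀ i < d, |(hsp e F x y).coeff i| ≤ (((e * d + 1) * H : ℕ) : ℤ) * T ^ (e * d) := by
    intro i hi
    rw [hco i (by rw [hF.deg]; omega), hF.deg]
    refine (hev_le _ _ x y H (hF.ht i)).trans ?_
    rw [← hTd]
    have e1 : e * (d - i) ≤ e * d := Nat.mul_le_mul_left _ (Nat.sub_le _ _)
    have e2 : (((e * (d - i) + 1) * H : ℕ) : ℤ) ≤ (((e * d + 1) * H : ℕ) : ℤ) := by
      exact_mod_cast Nat.mul_le_mul_right H (Nat.succ_le_succ e1)
    have e3 : T ^ (e * (d - i)) ≤ T ^ (e * d) := pow_le_pow_right₀ hT e1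
    exact mul_le_mul e2 e3 (by positivity) (by positivity)
  have hmain := FNA.grow (hsp e F x y) hm u hu ((((e * d + 1) * H : ℕ) : ℤ) * T ^ (e * d)) (B : ℤ)
    (by positivity) (by positivity) (by rw [hdeg]; exact hcoef)
    (by
      rw [hdeg]
      intro i hi
      rw [Int.abs_eq_natAbs]
      exact_mod_cast hB i hi)
  rw [hdeg] at hmain
  refine ⟨fun j hj => ?_, fun j hj => ?_⟩
  · have := hmain j
    rw [hj] at this
    simp only [Nat.cast_zero, mul_zero] at this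
    exact abs_eq_zero.1 (le_antisymm this (abs_nonneg _))
  · have h1 : (1 : ℤ) + d * ((((e * d + 1) * H : ℕ) : ℤ) * T ^ (e * d)) ≤ T ^ (e * d + 1) := by
      have h2 : ((1 + d * ((e * d + 1) * H) : ℕ) : ℤ) ≤ T := by
        rw [hTd]
        exact_mod_cast ht
      have h3 : (1 : ℤ) ≤ T ^ (e * d) := one_le_pow₀ hT
      rw [pow_succ]
      have h4 : ((1 + d * ((e * d + 1) * H) : ℕ) : ℤ) =
          1 + (d : ℤ) * (((e * d + 1) * H : ℕ) : ℤ) := by
        push_cast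
        ring
      rw [h4] at h2
      nlinarith
    have h4 : (1 + (d : ℤ) * ((((e * d + 1) * H : ℕ) : ℤ) * T ^ (e * d))) ^ j ≤
        T ^ ((e * d + 1) * L) := by
      calc (1 + (d : ℤ) * ((((e * d + 1) * H : ℕ) : ℤ) * T ^ (e * d))) ^ j
          ≤ (T ^ (e * d + 1)) ^ j := pow_le_pow_left₀ (by positivity) h1 j
        _ = T ^ ((e * d + 1) * j) := by rw [pow_mul]
        _ ≤ T ^ ((e * d + 1) * L) := pow_le_pow_right₀ hT (Nat.mul_le_mul_left _ hj)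
    have h5 := (hmain j).trans (mul_le_mul_of_nonneg_right h4 (by positivity : (0 : ℤ) ≤ B))
    rw [Int.abs_eq_natAbs, hTd] at h5
    exact_mod_cast h5

theorem pow_mono' (x c c' : ℕ) (hc : 1 ≤ c) (h : c ≤ c') : x ^ c ≤ x ^ c' := by
  rcases Nat.eq_zero_or_pos x with rfl | hx
  · rw [zero_pow (by omega)]
    exact Nat.zero_le _
  · exact Nat.pow_le_pow_right hx h

theorem Zrh_mono (D M c c' T : ℕ) (z : ℕ → ℤ) (hc : 1 ≤ c) (h : c ≤ c')
    (hz : Zrh D M c T z) : Zrh D M c' T z := by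
  rcases hz with hz | hz
  · exact Or.inl hz
  · right
    intro B hB
    obtain ⟨h1, S, hS, h2⟩ := hz B hB
    have hle := pow_mono' (B * T) c c' hc h
    exact ⟨fun n hn => h1 n (hle.trans_lt hn), S, hS, fun n hn => h2 n (hle.trans_lt hn)⟩

theorem thr_mono (c c' H T : ℕ) (hc : 1 ≤ c) (h : c ≤ c') (hT : (c' * H) ^ c' ≤ T) :
    (c * H) ^ c ≤ T :=
  ((Nat.pow_le_pow_left (Nat.mul_le_mul_right _ h) c).trans
    (pow_mono' (c' * H) c c' hc h)).trans hT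

/-- all degrees and multiplicities up to `d` -/
theorem zerU (h3 : StHZY) (e d : ℕ) :
    ∃ c : ℕ, 1 ≤ c ∧ ∀ k M : ℕ, 1 ≤ k → k ≤ d → 1 ≤ M → M ≤ d →
      ∀ (H : ℕ) (G : ℤ[X][X]), IsE k e H G →
      NonConst (G.map (mapRingHom (Int.castRingHom ℂ))) → ∀ x y : ℤ, IsCoprime x y →
      (c * H) ^ c ≤ mx x y →
      ∀ z : ℕ → ℤ, Rec (RingHom.id ℤ) (hsp e G x y ^ M) z → Zrh (k * M) M c (mx x y) z := by
  choose c hc1 hc using fun k M : ℕ => fun hk : 1 ≤ k => fun hM : 1 ≤ M => h3 k e M hk hM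
  set g : ℕ → ℕ → ℕ := fun k M => if h : 1 ≤ k ∧ 1 ≤ M then c k M h.1 h.2 else 0 with hg
  refine ⟨1 + ∑ k ∈ range (d + 1), ∑ M ∈ range (d + 1), g k M, by omega,
    fun k M hk hkd hM hMd H G hG hr x y hxy ht z hz => ?_⟩
  have h1 : g k M ≤ ∑ M ∈ range (d + 1), g k M :=
    single_le_sum (f := fun M => g k M) (fun _ _ => Nat.zero_le _) (mem_range.2 (by omega))
  have h2 : ∑ M ∈ range (d + 1), g k M ≤ ∑ k ∈ range (d + 1), ∑ M ∈ range (d + 1), g k M :=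
    single_le_sum (f := fun k => ∑ M ∈ range (d + 1), g k M) (fun _ _ => Nat.zero_le _)
      (mem_range.2 (by omega))
  have h5 : g k M = c k M hk hM := by
    rw [hg]
    simp only
    rw [dif_pos ⟨hk, hM⟩]
  have h6 : c k M hk hM ≤ 1 + ∑ k ∈ range (d + 1), ∑ M ∈ range (d + 1), g k M := by omega
  exact Zrh_mono _ _ _ _ _ z (hc1 k M hk hM) h6
    (hc k M hk hM H G hG hr x y hxy (thr_mono _ _ H _ (hc1 k M hk hM) h6 ht) z hz)

/-- the specialisation of a power of `expand N G` -/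
theorem hsp_pow (hHB1 : StHB1) (e N M : ℕ) (G : ℤ[X][X]) (x y : ℤ) (hN : 1 ≤ N) (hG : G.Monic)
    (hw : Wt (e * N) G) : Wt e ((expand ℤ[X] N G) ^ M) ∧
      hsp e ((expand ℤ[X] N G) ^ M) x y = expand ℤ N (hsp (e * N) G x y ^ M) := by
  obtain ⟨_, _, _, _, _, h6, _, h8⟩ := hHB1
  obtain ⟨hw1, he1⟩ := h6 ℤ e N G x y hN hG hw
  have hm : (expand ℤ[X] N G).Monic := hG.expand (by omega)
  have h := h8 ℤ e ℕ (range M) (fun _ => expand ℤ[X] N G) x y (fun _ => hm) (fun _ => hw1)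
  rw [prod_const, prod_const, card_range] at h
  refine ⟨h.1, ?_⟩
  rw [h.2, he1, map_pow]

end HNU

open HNU in
theorem prHNU (hRDH : StRDH) (hHDV : StHDV) (hHB1 : StHB1) (hSBY : StSBY) (hHZY : StHZY) :
    StHNU := by
  intro d e hd
  obtain ⟨N, c₁, hN, hc₁, h1⟩ := hRDH d e hd
  obtain ⟨c₂, hc₂, h2⟩ := zerU hHZY (e * N) d
  set L := N + N * (d * d) with hL
  set s := (e * d + 1) * L with hs
  set c := (s + 1) * c₂ + c₁ * c₂ + 1 + d * (e * d + 1) with hc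
  refine ⟨N, c, hN, by omega, fun H F hF hiso => ?_⟩
  obtain ⟨k, G, hk, hkd, hG, hGn, hdvd, hsep⟩ := h1 H F hF hiso
  obtain ⟨M, hM, hMd, hMs, hdM⟩ : ∃ M : ℕ, 1 ≤ M ∧ M ≤ d ∧
      ((F.map (algebraMap ℤ[X] (FractionRing ℤ[X]))).Separable → M = 1) ∧
      F ∣ (expand ℤ[X] N G) ^ M := by
    by_cases hS : (F.map (algebraMap ℤ[X] (FractionRing ℤ[X]))).Separable
    · exact ⟨1, le_rfl, hd, fun _ => rfl, by rw [pow_one]; exact hsep hS⟩
    · exact ⟨d, hd, le_rfl, fun h => absurd h hS, hdvd⟩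
  refine ⟨M, hM, hMd, hMs, fun x y hxy ht u hu q hq => ?_⟩
  have hH : 1 ≤ H := hF.one
  have hsub : Pd.Sol (hsp (e * N) G x y ^ M) (fun n => u (q + N * n)) := by
    refine hSBY ℤ (hsp e F x y) (hsp (e * N) G x y ^ M) N q u hN ?_ hu
    obtain ⟨hw, he⟩ := hsp_pow hHB1 e N M G x y hN hG.monic hG.wt
    rw [← he]
    exact hHDV ℤ e F _ x y hF.monic ((hG.monic.expand (by omega)).pow M) hw hdM
  have hcH : c * H ≤ mx x y := by
    refine le_trans ?_ ht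
    have : (c * H) ^ 1 ≤ (c * H) ^ c := pow_mono' _ _ _ le_rfl (by omega)
    simpa using this
  have hthr1 : 1 + d * ((e * d + 1) * H) ≤ mx x y := by
    refine le_trans ?_ hcH
    have e1 : (1 + d * (e * d + 1)) * H ≤ c * H := Nat.mul_le_mul_right _ (by omega)
    have e2 : (1 + d * (e * d + 1)) * H = H + d * ((e * d + 1) * H) := by ring
    omega
  have hthr2 : (c₂ * (c₁ * H) ^ c₁) ^ c₂ ≤ mx x y := by
    refine le_trans ?_ ht
    have hcc : c₂ * c₁ ≤ c := by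
      have : c₁ * c₂ = c₂ * c₁ := Nat.mul_comm _ _
      omega
    have e1 : c₂ * (c₁ * H) ^ c₁ ≤ (c₂ * (c₁ * H)) ^ c₁ := by
      rw [mul_pow c₂]
      refine Nat.mul_le_mul_right _ ?_
      have := pow_mono' c₂ 1 c₁ le_rfl hc₁
      simpa using this
    calc (c₂ * (c₁ * H) ^ c₁) ^ c₂ ≤ ((c₂ * (c₁ * H)) ^ c₁) ^ c₂ := Nat.pow_le_pow_left e1 _
      _ = (c₂ * c₁ * H) ^ (c₁ * c₂) := by rw [← pow_mul, mul_assoc]
      _ ≤ (c * H) ^ (c₁ * c₂) := Nat.pow_le_pow_left (Nat.mul_le_mul_right _ hcc) _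
      _ ≤ (c * H) ^ c := pow_mono' _ _ _ (Nat.mul_pos hc₁ hc₂) (by omega)
  have hz := h2 k M hk hkd hM hMd ((c₁ * H) ^ c₁) G hG hGn x y hxy hthr2
    (fun n => u (q + N * n)) hsub
  by_cases hall : ∀ n, u (q + N * n) = 0
  · exact Or.inl hall
  right
  intro B hB
  rcases hz with hz | hz
  · exact absurd hz hall
  obtain ⟨hb0, hbL⟩ := grow_h hHB1 d e H F hF L x y hthr1 u hu B hB
  have hBpos : 1 ≤ B := by
    rcases Nat.eq_zero_or_pos B with h | h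
    · exact absurd (fun n => hb0 _ h) hall
    · exact h
  obtain ⟨hz1, S, hS, hz2⟩ := hz (mx x y ^ s * B) (by
    intro i hi
    apply hbL
    have e1 : N * i ≤ N * (d * d) :=
      Nat.mul_le_mul_left _ (hi.le.trans (Nat.mul_le_mul hkd hMd))
    omega)
  have hT : 1 ≤ mx x y := by omega
  have hle : (mx x y ^ s * B * mx x y) ^ c₂ ≤ (B * mx x y) ^ c := by
    have e1 : mx x y ^ s * B * mx x y ≤ (B * mx x y) ^ (s + 1) := by
      rw [pow_succ, mul_assoc]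
      refine Nat.mul_le_mul_right _ (Nat.pow_le_pow_left ?_ s)
      exact Nat.le_mul_of_pos_left _ hBpos
    calc (mx x y ^ s * B * mx x y) ^ c₂ ≤ ((B * mx x y) ^ (s + 1)) ^ c₂ :=
          Nat.pow_le_pow_left e1 _
      _ = (B * mx x y) ^ ((s + 1) * c₂) := by rw [← pow_mul]
      _ ≤ (B * mx x y) ^ c := Nat.pow_le_pow_right (Nat.mul_pos hBpos hT) (by omega)
  exact ⟨fun n hn => hz1 n (hle.trans_lt hn), S, hS, fun n hn h => hz2 n (hle.trans_lt hn) h⟩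

end Pool.Agent.Work.MP_8d13b5_lc.Fm
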