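import Pool.Agent.Work.MP_8d13b5_lc.Fm.StmtsHom

set_option autoImplicit false

namespace Pool.Agent.Work.MP_8d13b5_lc.Fm

open Polynomial NumberField Finset Module

namespace HPI

theorem deg_pow {R : Type} [CommRing R] (m e b i : ℕ) (F : R[X][X]) (hF : F.natDegree = m + 1)
    (hW : Wt e F) (hd : (m + 1 - i) ∣ b) :
    e * (m + 1 - i) * (b / (m + 1 - i)) = e * b ∧
      (F.coeff i).natDegree ≤ e * (m + 1 - i) ∧
      (F.coeff i ^ (b / (m + 1 - i))).natDegree ≤ e * b := by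
  have h1 : e * (m + 1 - i) * (b / (m + 1 - i)) = e * b := by
    rw [mul_assoc, Nat.mul_div_cancel' hd]
  have h2 : (F.coeff i).natDegree ≤ e * (m + 1 - i) := by
    have := hW i
    rwa [hF] at this
  refine ⟨h1, h2, ?_⟩
  refine natDegree_pow_le.trans ?_
  rw [← h1, mul_comm (e * (m + 1 - i))]
  exact Nat.mul_le_mul_left _ h2

theorem deg_sum {R : Type} [CommRing R] [IsDomain R] (m e b θ : ℕ) (F : R[X][X]) (P : R[X])
    (w : ℕ → R[X]) (r₁ r₂ : R) (hF : F.natDegree = m + 1) (hW : Wt e F)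
    (h : IsPi m F b θ P w r₁ r₂) : P.natDegree + θ ≤ e * b := by
  obtain ⟨i, hi, hw, hθ⟩ := h.top
  obtain ⟨-, -, h3⟩ := deg_pow m e b i F hF hW (h.dvd i hi)
  rw [← hθ, ← natDegree_mul h.hP hw, ← h.fac i hi]
  exact (natDegree_C_mul_le _ _).trans h3

end HPI

theorem prHPI (hHEV : StHEV) (hHB1 : StHB1) : StHPI := by
  intro R _ _ m e b θ F P w r₁ r₂ hmon hF hW h
  have hdeg := HPI.deg_sum m e b θ F P w r₁ r₂ hF hW h
  refine ⟨hdeg, fun x y i hi => ?_⟩
  obtain ⟨h1, h2, h3⟩ := HPI.deg_pow m e b i F hF hW (h.dvd i hi)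
  obtain ⟨-, emul, epow, eC, -⟩ := hHEV.1 R x y
  have hc := (hHB1.1 R e F x y hmon).2.2 i (by omega)
  rw [hF] at hc
  rw [hc, ← epow _ _ _ h2, h1]
  have e1 : r₁ = hev 0 (C r₁) x y := by
    rw [eC, pow_zero, mul_one]
  have e2 : hev (0 + e * b) (C r₁ * F.coeff i ^ (b / (m + 1 - i))) x y =
      hev 0 (C r₁) x y * hev (e * b) (F.coeff i ^ (b / (m + 1 - i))) x y :=
    emul 0 (e * b) _ _ (natDegree_C r₁).le h3
  rw [← e1, zero_add] at e2
  rw [← e2, h.fac i hi]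
  have e3 : e * b = (e * b - θ) + θ := by omega
  have e4 := emul (e * b - θ) θ P (w i) (by omega) (h.deg i hi)
  rw [← e3] at e4
  exact e4

end Pool.Agent.Work.MP_8d13b5_lc.Fm
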