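import Pool.Agent.Work.MP_8d13b5_lc.Fm.StmtsHom

set_option autoImplicit false

/-! Item HUU: the matrices `U` for the families `hfm e F y` at the point `x`. -/

namespace Pool.Agent.Work.MP_8d13b5_lc.Fm

open Polynomial NumberField Finset Module

namespace HUU

/-- scaling of the roots as a substitution -/
lemma scaleRoots_eq {K : Type} [Field K] (P : K[X]) (z : K) (hz : z ≠ 0) (k : ℕ)
    (hk : P.natDegree = k) : P.scaleRoots z = C (z ^ k) * P.comp (C z⁻¹ * X) := by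
  ext i
  rw [coeff_scaleRoots, coeff_C_mul, comp_C_mul_X_coeff, hk]
  by_cases h : i ≤ k
  · have h1 : z ^ k = z ^ (k - i) * z ^ i := by rw [← pow_add]; congr 1; omega
    rw [h1]
    have h2 : z ^ i * z⁻¹ ^ i = 1 := by rw [← mul_pow, mul_inv_cancel₀ hz, one_pow]
    linear_combination (- (z ^ (k - i)) * P.coeff i) * h2
  · rw [coeff_eq_zero_of_natDegree_lt (by omega)]
    ring

/-- the divisibility over a field -/
lemma dvd_field {K : Type} [Field K] (m : ℕ) (Ft Ut Vt : K[X]) (d z w : K) (hz : z ≠ 0)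
    (hdeg : Ft.natDegree = m + 1) (h : Ut * Ft + Vt * derivative Ft = C d) :
    Ft.scaleRoots z ∣
      (C w * Vt.comp (C z⁻¹ * X)) * derivative (Ft.scaleRoots z) - C (w * z ^ m * d) := by
  rw [scaleRoots_eq Ft z hz (m + 1) hdeg]
  have hzz : C z * C z⁻¹ = (1 : K[X]) := by rw [← C_mul, mul_inv_cancel₀ hz, C_1]
  have hd : derivative (C (z ^ (m + 1)) * Ft.comp (C z⁻¹ * X)) =
      C (z ^ m) * (derivative Ft).comp (C z⁻¹ * X) := by
    rw [derivative_C_mul, derivative_comp, derivative_C_mul, derivative_X, mul_one, pow_succ,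
      C_mul]
    linear_combination (C (z ^ m) * (derivative Ft).comp (C z⁻¹ * X)) * hzz
  rw [hd]
  have h2 := congrArg (fun P : K[X] => P.comp (C z⁻¹ * X)) h
  simp only [add_comp, mul_comp, C_comp] at h2
  have hz1 : C (z ^ (m + 1)) * C ((z ^ (m + 1))⁻¹) = (1 : K[X]) := by
    rw [← C_mul, mul_inv_cancel₀ (pow_ne_zero _ hz), C_1]
  refine ⟨-(C (w * z ^ m) * C ((z ^ (m + 1))⁻¹) * Ut.comp (C z⁻¹ * X)), ?_⟩
  have h3 : (C (w * z ^ m * d) : K[X]) = C w * C (z ^ m) * C d := by rw [C_mul, C_mul]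
  have h4 : (C (w * z ^ m) : K[X]) = C w * C (z ^ m) := by rw [C_mul]
  rw [h3, h4]
  linear_combination (C w * C (z ^ m)) * h2 +
    (C w * C (z ^ m) * Ut.comp (C z⁻¹ * X) * Ft.comp (C z⁻¹ * X)) * hz1

lemma hpl_coeff {R : Type} [CommRing R] (D : ℕ) (P : R[X]) (y : R) (j : ℕ) :
    (hpl D P y).coeff j = if j ≤ D then P.coeff j * y ^ (D - j) else 0 := by
  unfold hpl
  rw [finsetSum_coeff]
  simp only [coeff_C_mul, coeff_X_pow, mul_ite, mul_one, mul_zero]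
  rw [Finset.sum_ite_eq (range (D + 1)) j]
  simp only [mem_range, Nat.lt_succ_iff]

variable {K : Type} [Field K] [NumberField K]

lemma tt_bd (φ : K →+* ℂ) (x y : 𝓞 K) (D : ℕ) (P : (𝓞 K)[X]) (hHEV : StHEV)
    (hd : P.natDegree ≤ D) {Y B : ℝ} (hY : pn (res φ) P ≤ Y) (hY0 : 0 ≤ Y)
    (hB : Y * tt φ x y ^ D ≤ B) : ‖res φ (hev D P x y)‖ ≤ B := by
  have h := hHEV.2.2.2 (𝓞 K) (res φ) D P x y hd
  refine h.trans (le_trans ?_ hB)
  exact mul_le_mul_of_nonneg_right hY (by positivity)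

end HUU

open HUU in
/-- **HUU** -/
theorem prHUU (hXDI : StXDI) (hUUG : StUUG) (hPN : StPN) (hHEV : StHEV) (hCFD : StCFD)
    (hHB1 : StHB1) (hHB3 : StHB3) : StHUU := by
  intro K _ _ m e
  obtain ⟨C₂, s₂, hC₂, hD⟩ := hXDI K m (e * (m + 1))
  obtain ⟨C₁, s₁, hC₁, hU⟩ := hUUG K m (e * (m + 1)) s₂
  set L : ℕ := (e + 1) * s₂ with hL
  set L' : ℕ := L + e * m with hL'
  set S : ℕ := s₂ + L' + e * (m + 1) + 1 with hS
  refine ⟨C₁ * C₂, (S + 1) * s₁ + 2 * s₂ + 1, L' * 2 + e * (m + 1), by nlinarith,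
    fun H F hF => ?_⟩
  have hmon := hF.crv.monic
  have hdeg := hF.crv.deg
  have hH1 := hF.one
  have hwt := hF.wt
  have hwt' : ∀ i, (F.coeff i).natDegree ≤ e * (m + 1 - i) := by
    intro i
    have := hwt i
    rwa [hdeg] at this
  have hFd : ∀ i, (F.coeff i).natDegree ≤ e * (m + 1) := fun i =>
    (hwt' i).trans (Nat.mul_le_mul_left _ (Nat.sub_le _ _))
  have hFp : ∀ φ : K →+* ℂ, ∀ j, pn (res φ) (F.coeff j) ≤ H := by
    intro φ j
    have hp := hPN (𝓞 K) (res φ)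
    rcases lt_trichotomy j (m + 1) with h | h | h
    · exact hF.ht φ j (by omega)
    · rw [h, ← hdeg, hmon.coeff_natDegree, ← C_1, hp.2.1, map_one, norm_one]
      exact hH1
    · rw [coeff_eq_zero_of_natDegree_lt (by omega), ← C_0, hp.2.1, map_zero, norm_zero]
      linarith
  have hFH : IsCr0H m (e * (m + 1)) H F := ⟨hF.crv, hF.one, fun i _ => hFd i, hF.ht⟩
  obtain ⟨U₀, V₀, Δ₀, hΔ₀, hUV, hΔd, hVd, hVc, hsz⟩ := hD H F hFH
  refine ⟨Δ₀ ^ 2 * F.coeff 0, mul_ne_zero (pow_ne_zero 2 hΔ₀) hF.crv.ne, ?_, fun φ => ?_,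
    fun x y hy htt n => ?_⟩
  · refine natDegree_mul_le.trans ?_
    have h1 : (Δ₀ ^ 2).natDegree ≤ 2 * s₂ := natDegree_pow_le.trans (Nat.mul_le_mul_left 2 hΔd)
    have h2 := hFd 0
    have h3 : s₂ ≤ L' := by rw [hL', hL]; nlinarith
    omega
  · have hp := hPN (𝓞 K) (res φ)
    have h0 := hp.1
    have hc : 1 ≤ C₁ * C₂ := by nlinarith
    have hbase : 1 ≤ C₁ * C₂ * H := by nlinarith
    have h1 : C₂ * H ≤ C₁ * C₂ * H := by
      refine mul_le_mul_of_nonneg_right ?_ (by linarith)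
      nlinarith
    have h2 : H ≤ C₁ * C₂ * H := by nlinarith
    have hC2H : 0 ≤ C₂ * H := by positivity
    calc pn (res φ) (Δ₀ ^ 2 * F.coeff 0) ≤ pn (res φ) (Δ₀ ^ 2) * pn (res φ) (F.coeff 0) :=
          hp.2.2.2.1 _ _
      _ ≤ (pn (res φ) Δ₀) ^ 2 * H := mul_le_mul (hp.2.2.2.2.1 _ _) (hFp φ 0) (h0 _)
          (by positivity)
      _ ≤ ((C₁ * C₂ * H) ^ s₂) ^ 2 * (C₁ * C₂ * H) := by
          refine mul_le_mul (pow_le_pow_left₀ (h0 _) ((hsz φ).1.trans
            (pow_le_pow_left₀ hC2H h1 _)) 2) h2 (by linarith) (by positivity)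
      _ = (C₁ * C₂ * H) ^ (s₂ * 2 + 1) := by rw [← pow_mul, pow_succ _ (s₂ * 2)]
      _ ≤ (C₁ * C₂ * H) ^ ((S + 1) * s₁ + 2 * s₂ + 1) :=
          pow_le_pow_right₀ hbase (by omega)
  -- the data
  obtain ⟨hHa, hHb, hHc, -, -, -, -, -⟩ := hHB1
  obtain ⟨hG1, hG2, -, -, -⟩ := hHB3
  obtain ⟨gmon, gdeg, gco, gnd, gsp, -⟩ := hG1 (𝓞 K) e F y hmon hwt
  rw [hdeg] at gdeg gco gnd
  have gsp := gsp x
  set G := hfm e F y with hG
  set f := hsp e F x y with hf
  obtain ⟨fmon, fdeg, fco⟩ := hHa (𝓞 K) e F x y hmon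
  set v : (𝓞 K)[X] := ∑ j ∈ range (s₂ + 1), C (hev (L - e * j) (V₀.coeff j) x y) * X ^ j with hv
  set δ : 𝓞 K := hev L' Δ₀ x y with hδ
  have vco : ∀ j, v.coeff j = if j ≤ s₂ then hev (L - e * j) (V₀.coeff j) x y else 0 := by
    intro j
    rw [hv, finsetSum_coeff]
    simp only [coeff_C_mul, coeff_X_pow, mul_ite, mul_one, mul_zero]
    rw [Finset.sum_ite_eq (range (s₂ + 1)) j]
    simp only [mem_range, Nat.lt_succ_iff]
  have vdeg : v.natDegree ≤ s₂ := by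
    rw [natDegree_le_iff_coeff_eq_zero]
    intro N hN
    rw [vco, if_neg (by omega)]
  have hLj : ∀ j ≤ s₂, s₂ ≤ L - e * j := by
    intro j hj
    have h1 : e * j ≤ e * s₂ := Nat.mul_le_mul_left _ hj
    have h2 : L = e * s₂ + s₂ := by rw [hL]; ring
    omega
  have hs₂L' : s₂ ≤ L' := by rw [hL', hL]; nlinarith
  -- the divisibility
  set ι : 𝓞 K →+* K := algebraMap (𝓞 K) K with hι
  have hinj : Function.Injective ι := FaithfulSMul.algebraMap_injective (𝓞 K) K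
  have hιy : ι y ≠ 0 := fun h => hy (hinj (by rw [h, map_zero]))
  have hdvd : spc G x ∣ v * derivative (spc G x) - C δ := by
    rw [gsp, ← Polynomial.map_dvd_map ι hinj fmon]
    set Ψ : (𝓞 K)[X] →+* K := (evalRingHom (ι x / ι y)).comp (mapRingHom ι) with hΨ
    have hmm : ∀ P : (𝓞 K)[X][X], spc (P.map (mapRingHom ι)) (ι x / ι y) = P.map Ψ := by
      intro P
      unfold spc
      rw [Polynomial.map_map]
    have hFbm : (F.map (mapRingHom ι)).Monic := hmon.map _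
    have hFbd : (F.map (mapRingHom ι)).natDegree = m + 1 := by rw [hmon.natDegree_map, hdeg]
    have hFbw : Wt e (F.map (mapRingHom ι)) := by
      intro i
      rw [hFbd, coeff_map, coe_mapRingHom]
      exact natDegree_map_le.trans (hwt' i)
    have h1 : f.map ι = (F.map Ψ).scaleRoots (ι y ^ e) := by
      rw [hf, hHc (𝓞 K) K ι e F x y hmon, hHb K e _ (ι x) (ι y) hFbm hFbw hιy, hmm]
    have h2 : v.map ι = C (ι y ^ L) * (V₀.map Ψ).comp (C (ι y ^ e)⁻¹ * X) := by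
      ext j
      rw [coeff_map, vco, coeff_C_mul, comp_C_mul_X_coeff, coeff_map]
      by_cases hj : j ≤ s₂
      · rw [if_pos hj, hHEV.2.2.1 (𝓞 K) K ι, hHEV.2.1 K _ _ _ _ hιy
          (natDegree_map_le.trans ((hVc j).trans (hLj j hj)))]
        have h3 : Ψ (V₀.coeff j) = ((V₀.coeff j).map ι).eval (ι x / ι y) := rfl
        have h4 : L = (L - e * j) + e * j := by
          have h5 : e * j ≤ e * s₂ := Nat.mul_le_mul_left _ hj
          have h6 : L = e * s₂ + s₂ := by rw [hL]; ring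
          omega
        have h7 : ι y ^ L = ι y ^ (L - e * j) * (ι y ^ e) ^ j := by
          rw [← pow_mul, ← pow_add, ← h4]
        have h8 : (ι y ^ e) ^ j * ((ι y ^ e)⁻¹) ^ j = 1 := by
          rw [← mul_pow, mul_inv_cancel₀ (pow_ne_zero _ hιy), one_pow]
        rw [h3, h7]
        linear_combination (-(ι y ^ (L - e * j) * ((V₀.coeff j).map ι).eval (ι x / ι y))) * h8
      · rw [if_neg hj, map_zero, coeff_eq_zero_of_natDegree_lt (by omega), map_zero, zero_mul,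
          mul_zero]
    have h3 : ι δ = ι y ^ L * (ι y ^ e) ^ m * Ψ Δ₀ := by
      have h31 : ι y ^ L' = ι y ^ L * (ι y ^ e) ^ m := by rw [← pow_mul, ← pow_add]
      rw [hδ, hHEV.2.2.1 (𝓞 K) K ι, hHEV.2.1 K _ _ _ _ hιy
          (natDegree_map_le.trans (hΔd.trans hs₂L')), h31]
      rfl
    have h4 := congrArg (Polynomial.map Ψ) hUV
    rw [Polynomial.map_add, Polynomial.map_mul, Polynomial.map_mul, ← derivative_map,
      Polynomial.map_C] at h4
    have h5 : (F.map Ψ).natDegree = m + 1 := by rw [hmon.natDegree_map, hdeg]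
    have h6 := dvd_field m (F.map Ψ) (U₀.map Ψ) (V₀.map Ψ) (Ψ Δ₀) (ι y ^ e) (ι y ^ L)
      (pow_ne_zero _ hιy) h5 h4
    rw [Polynomial.map_sub, Polynomial.map_mul, ← derivative_map, Polynomial.map_C, h1, h2, h3]
    exact h6
  obtain ⟨U, hU1, hU2, hU3⟩ := hU G v δ x gmon gdeg (fun i => (gnd i).trans
    (Nat.mul_le_mul_left _ (Nat.sub_le _ _))) vdeg hdvd n
  have hcf : ∀ i, (Pd.cf G n i).eval x = Pd.cf f n i := by
    intro i
    have h1 := hCFD.2.1 (𝓞 K)[X] (𝓞 K) (evalRingHom x) G n i gmon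
    rw [← gsp]
    exact h1.symm
  have hG0 : (G.coeff 0).eval x = hev (e * (m + 1)) (F.coeff 0) x y := by
    rw [gco 0 (Nat.zero_le _), (hG2 (𝓞 K) y).1]
    rfl
  have hdd : δ ^ 2 * (G.coeff 0).eval x =
      hev (L' * 2 + e * (m + 1)) (Δ₀ ^ 2 * F.coeff 0) x y := by
    obtain ⟨-, he2, he3, -, -⟩ := hHEV.1 (𝓞 K) x y
    rw [he2 _ _ _ _ (natDegree_pow_le.trans (by
      have : Δ₀.natDegree ≤ L' := hΔd.trans hs₂L'
      omega)) (hFd 0), he3 _ _ _ (hΔd.trans hs₂L'), hG0]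
  refine ⟨U, hU1, fun j => ?_, fun φ i j r => ?_⟩
  · have h1 := hU2 j
    rw [hdd] at h1
    rw [← h1]
    refine Finset.sum_congr rfl fun i _ => ?_
    rw [hcf]
  -- the sizes
  have ht1 := htt φ
  set t : ℝ := tt φ x y with ht
  have hp := hPN (𝓞 K) (res φ)
  set Z : ℝ := C₂ * H * t with hZ
  have hC2H1 : 1 ≤ C₂ * H := by nlinarith
  have hZ1 : 1 ≤ Z := by rw [hZ]; nlinarith
  have hC2HZ : C₂ * H ≤ Z := by rw [hZ]; nlinarith
  have htZ : t ≤ Z := by rw [hZ]; nlinarith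
  have hHZ : H ≤ Z := by
    have : H ≤ C₂ * H := by nlinarith
    linarith
  have hpow : ∀ {i j : ℕ}, i ≤ j → Z ^ i ≤ Z ^ j := fun h => pow_le_pow_right₀ hZ1 h
  have hb : ∀ (a : ℕ) (D : ℕ), a + D ≤ S → Z ^ a * t ^ D ≤ Z ^ S := by
    intro a D h
    calc Z ^ a * t ^ D ≤ Z ^ a * Z ^ D :=
          mul_le_mul_of_nonneg_left (pow_le_pow_left₀ (by linarith) htZ D) (by positivity)
      _ = Z ^ (a + D) := by rw [pow_add]
      _ ≤ Z ^ S := hpow h
  have hFZ : ∀ j, pn (res φ) (F.coeff j) ≤ Z ^ 1 := fun j => by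
    rw [pow_one]; exact (hFp φ j).trans hHZ
  have b1 : ‖res φ x‖ ≤ Z ^ S := by
    have h1 : ‖res φ x‖ ≤ t := le_max_left _ _
    refine h1.trans (htZ.trans ?_)
    calc Z = Z ^ 1 := (pow_one _).symm
      _ ≤ Z ^ S := hpow (by omega)
  have b2 : ‖res φ δ‖ ≤ Z ^ S := by
    refine tt_bd φ x y L' Δ₀ hHEV (hΔd.trans hs₂L') ((hsz φ).1.trans
      (pow_le_pow_left₀ (by positivity) hC2HZ s₂)) (by positivity) (hb _ _ ?_)
    omega
  have b3 : ∀ i, ‖res φ (v.coeff i)‖ ≤ Z ^ S := by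
    intro i
    rw [vco]
    split_ifs with hi
    · refine tt_bd φ x y (L - e * i) (V₀.coeff i) hHEV ((hVc i).trans (hLj i hi))
        (((hsz φ).2 i).trans (pow_le_pow_left₀ (by positivity) hC2HZ s₂)) (by positivity)
        (hb _ _ ?_)
      have : L - e * i ≤ L := Nat.sub_le _ _
      omega
    · rw [map_zero, norm_zero]
      positivity
  have hsub : ∀ i, e * (m + 1 - i) ≤ e * (m + 1) := fun i =>
    Nat.mul_le_mul_left _ (Nat.sub_le _ _)
  have b4 : ∀ i, ‖res φ ((G.coeff i).eval x)‖ ≤ Z ^ S := by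
    intro i
    by_cases hi : i ≤ m + 1
    · rw [gco i hi, (hG2 (𝓞 K) y).1]
      refine tt_bd φ x y _ (F.coeff i) hHEV (hwt' i) (hFZ i) (by positivity) (hb _ _ ?_)
      have := hsub i
      omega
    · rw [coeff_eq_zero_of_natDegree_lt (by omega), eval_zero, map_zero, norm_zero]
      positivity
  have b5 : ∀ i j, ‖res φ ((G.coeff i).coeff j)‖ ≤ Z ^ S := by
    intro i j
    by_cases hi : i ≤ m + 1
    · rw [gco i hi, hpl_coeff]
      split_ifs with hj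
      · rw [map_mul, map_pow, norm_mul, norm_pow]
        have h1 : ‖res φ ((F.coeff i).coeff j)‖ ≤ Z ^ 1 :=
          (hp.2.2.2.2.2.2.1 (F.coeff i) j).trans (hFZ i)
        have h2 : ‖res φ y‖ ≤ t := le_max_right _ _
        refine (mul_le_mul h1 (pow_le_pow_left₀ (norm_nonneg _) h2 _) (by positivity)
          (by positivity)).trans (hb _ _ ?_)
        have := hsub i
        omega
      · rw [map_zero, norm_zero]
        positivity
    · rw [coeff_eq_zero_of_natDegree_lt (p := G) (by omega), coeff_zero, map_zero, norm_zero]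
      positivity
  refine (hU3 φ (Z ^ S) (one_le_pow₀ hZ1) b1 b2 b3 b4 b5 i j r).trans ?_
  have hW : C₁ * C₂ * H * t = C₁ * Z := by rw [hZ]; ring
  have hCW : C₁ ≤ C₁ * C₂ * H * t := by rw [hW]; nlinarith
  have hZW : Z ≤ C₁ * C₂ * H * t := by rw [hW]; nlinarith
  have hW1 : 1 ≤ C₁ * C₂ * H * t := hC₁.trans hCW
  have hW0 : 0 ≤ C₁ * C₂ * H * t := by linarith
  have h1 : C₁ ^ n ≤ (C₁ * C₂) ^ n := pow_le_pow_left₀ (by linarith) (by nlinarith) n
  have h2 : C₁ * Z ^ S ≤ (C₁ * C₂ * H * t) ^ (S + 1) := by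
    rw [pow_succ (C₁ * C₂ * H * t) S, mul_comm ((C₁ * C₂ * H * t) ^ S)]
    exact mul_le_mul hCW (pow_le_pow_left₀ (by linarith) hZW S) (by positivity) hW0
  refine mul_le_mul h1 ?_ (by positivity) (by positivity)
  calc (C₁ * Z ^ S) ^ (s₁ * (r + 1)) ≤ ((C₁ * C₂ * H * t) ^ (S + 1)) ^ (s₁ * (r + 1)) :=
        pow_le_pow_left₀ (by positivity) h2 _
    _ = (C₁ * C₂ * H * t) ^ ((S + 1) * (s₁ * (r + 1))) := by rw [← pow_mul]
    _ ≤ _ := by
        refine pow_le_pow_right₀ hW1 ?_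
        rw [← mul_assoc]
        exact Nat.mul_le_mul_right _ (by omega)

end Pool.Agent.Work.MP_8d13b5_lc.Fm
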