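import Pool.Agent.Work.MP_8d13b5_lc.Fm.StmtsHom
import Pool.Agent.Work.MP_8d13b5_lc.Fm.I_ZRZ

/-!
# MP_8d13b5_lc, block FMH, item HZR: zeros over a number field, all points `(x : y)`
-/

set_option autoImplicit false

namespace Pool.Agent.Work.MP_8d13b5_lc.Fm

open Polynomial NumberField Finset Module

namespace HZR

variable {K : Type} [Field K] [NumberField K]

theorem tt_le (x y : 𝓞 K) (h : ∀ φ : K →+* ℂ, 1 ≤ tt φ x y) (φ : K →+* ℂ) :
    tt φ x y ≤ TT x y := by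
  classical
  unfold TT
  rw [← Finset.mul_prod_erase _ _ (Finset.mem_univ φ)]
  refine le_mul_of_one_le_right (zero_le_one.trans (h φ)) ?_
  calc (1 : ℝ) = ∏ _ψ ∈ Finset.univ.erase φ, (1 : ℝ) := by rw [Finset.prod_const_one]
    _ ≤ _ := Finset.prod_le_prod (fun _ _ => zero_le_one) fun ψ _ => h ψ

theorem one_le_TT (x y : 𝓞 K) (h : ∀ φ : K →+* ℂ, 1 ≤ tt φ x y) : 1 ≤ TT x y := by
  unfold TT
  calc (1 : ℝ) = ∏ _ψ : K →+* ℂ, (1 : ℝ) := by rw [Finset.prod_const_one]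
    _ ≤ _ := Finset.prod_le_prod (fun _ _ => zero_le_one) fun ψ _ => h ψ

theorem hsp_monic (hHB1 : StHB1) {m e : ℕ} {H : ℝ} {G : (𝓞 K)[X][X]} (hG : IsCrE m e H G)
    (x y : 𝓞 K) : (hsp e G x y).Monic := (hHB1.1 (𝓞 K) e G x y hG.crv.monic).1

theorem hsp_deg (hHB1 : StHB1) {m e : ℕ} {H : ℝ} {G : (𝓞 K)[X][X]} (hG : IsCrE m e H G)
    (x y : 𝓞 K) : (hsp e G x y).natDegree = m + 1 := by
  rw [(hHB1.1 (𝓞 K) e G x y hG.crv.monic).2.1, hG.crv.deg]

theorem coeff_norm (hHB1 : StHB1) (hHEV : StHEV) {m e : ℕ} {H : ℝ} {G : (𝓞 K)[X][X]}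
    (hG : IsCrE m e H G) (x y : 𝓞 K) (h : ∀ φ : K →+* ℂ, 1 ≤ tt φ x y) (φ : K →+* ℂ) (i : ℕ) :
    ‖res φ ((hsp e G x y).coeff i)‖ ≤ H * TT x y ^ (e * (m + 1)) := by
  have hT : 1 ≤ TT x y := one_le_TT x y h
  have hT' : 1 ≤ TT x y ^ (e * (m + 1)) := one_le_pow₀ hT
  have hH := hG.one
  have h1 : (1 : ℝ) ≤ H * TT x y ^ (e * (m + 1)) := one_le_mul_of_one_le_of_one_le hH hT'
  rcases lt_trichotomy i (m + 1) with hi | hi | hi
  · have h' : i ≤ m := by omega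
    rw [(hHB1.1 (𝓞 K) e G x y hG.crv.monic).2.2 i (by rw [hG.crv.deg]; omega)]
    refine (hHEV.2.2.2 (𝓞 K) (res φ) _ (G.coeff i) x y (hG.wt i)).trans ?_
    refine mul_le_mul (hG.ht φ i h') ?_ (by positivity) (by linarith)
    have h2 : max ‖res φ x‖ ‖res φ y‖ = tt φ x y := rfl
    rw [h2]
    calc tt φ x y ^ (e * (G.natDegree - i)) ≤ tt φ x y ^ (e * (m + 1)) := by
          refine pow_le_pow_right₀ (h φ) (Nat.mul_le_mul_left _ ?_)
          rw [hG.crv.deg]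
          omega
      _ ≤ TT x y ^ (e * (m + 1)) :=
          pow_le_pow_left₀ (zero_le_one.trans (h φ)) (tt_le x y h φ) _
  · have h2 : (hsp e G x y).coeff i = 1 := by
      rw [hi, ← hsp_deg hHB1 hG x y]
      exact (hsp_monic hHB1 hG x y).coeff_natDegree
    rw [h2, map_one, norm_one]
    exact h1
  · have h2 : (hsp e G x y).coeff i = 0 := coeff_eq_zero_of_natDegree_lt (by
      rw [hsp_deg hHB1 hG x y]
      exact hi)
    rw [h2, map_zero, norm_zero]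
    linarith

/-- The main estimate: a zero at `n` of the combination with `T ^ n` large forces `v n = 0`. -/
theorem key (hHTH : StHTH) (hHNZ : StHNZ) (hHB1 : StHB1) (m e r : ℕ) (f : (𝓞 K)[X])
    (hfm : f.Monic) (hfd : f.natDegree = r) (C₀ : ℝ) (s' : ℕ) (hC₀ : 1 ≤ C₀) :
    ∃ c₄ : ℕ, 2 ≤ c₄ ∧ ∀ (H : ℝ) (G : (𝓞 K)[X][X]), IsCrE m e H G →
      ∀ x y : 𝓞 K, IsCoprime x y → (∀ φ : K →+* ℂ, 1 ≤ tt φ x y) →
      (c₄ * H) ^ c₄ ≤ TT x y → ∀ v : Fin (m + 1) → ℕ → 𝓞 K,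
      (∀ i, Pd.Sol f (v i)) → ∀ B : ℝ, 1 ≤ B →
      (∀ (φ : K →+* ℂ) i, ∀ l < r,
        ‖res φ (v i l)‖ ≤ (C₀ * (H * TT x y ^ (e * (m + 1)))) ^ s' * B) →
      ∀ n, ∑ i : Fin (m + 1), Pd.cf (hsp e G x y) n i * v i n = 0 →
      (B * TT x y) ^ c₄ < TT x y ^ n → ∀ i, v i n = 0 := by
  obtain ⟨Λ, hΛ, hgr⟩ := ZRZ.growth f hfm
  rw [hfd] at hgr
  rcases Nat.eq_zero_or_pos m with rfl | hm
  · obtain ⟨s₃, k4⟩ := hHNZ K
    refine ⟨s₃ + 3, by omega, ?_⟩
    intro H G hG x y hxy htt hT v hv B hB hvB n hn hnB i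
    have hH := hG.one
    have hgm : (hsp e G x y).Monic := hsp_monic hHB1 hG x y
    have hgd : (hsp e G x y).natDegree = 1 := hsp_deg hHB1 hG x y
    have hwt : (G.coeff 0).natDegree ≤ e * (G.natDegree - 0) := hG.wt 0
    have hne : (hsp e G x y).coeff 0 ≠ 0 := by
      rw [(hHB1.1 (𝓞 K) e G x y hG.crv.monic).2.2 0 (Nat.zero_le _)]
      refine k4 _ (G.coeff 0) H hG.crv.ne hwt hH (fun φ => hG.ht φ 0 le_rfl) x y hxy
        (lt_of_lt_of_le ?_ hT)
      have h1 : (2 : ℝ) * H ≤ ((s₃ + 3 : ℕ) : ℝ) * H := by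
        refine mul_le_mul_of_nonneg_right ?_ (by linarith)
        push_cast
        have : (0 : ℝ) ≤ (s₃ : ℝ) := Nat.cast_nonneg _
        linarith
      have h2 : (1 : ℝ) < ((s₃ + 3 : ℕ) : ℝ) * H := by linarith
      calc (2 * H) ^ s₃ ≤ (((s₃ + 3 : ℕ) : ℝ) * H) ^ s₃ :=
            pow_le_pow_left₀ (by linarith) h1 s₃
        _ < (((s₃ + 3 : ℕ) : ℝ) * H) ^ (s₃ + 3) := pow_lt_pow_right₀ h2 (by omega)
    have hcf : ∀ k, Pd.cf (hsp e G x y) k 0 ≠ 0 := by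
      intro k
      induction k with
      | zero =>
        rw [Pd.cf_init hgm (by omega), if_pos rfl]
        exact one_ne_zero
      | succ k ih =>
        have h1 := (Pd.cf_sol hgm 0).next hgm k
        rw [hgd, sum_range_one, add_zero] at h1
        rw [h1]
        exact neg_ne_zero.2 (mul_ne_zero hne ih)
    have hi : i = 0 := by
      have h1 := i.2
      ext
      simp only [Fin.val_zero]
      omega
    rw [hi]
    rw [Fin.sum_univ_one] at hn
    exact (mul_eq_zero.1 hn).resolve_left (hcf n)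
  · obtain ⟨C₁, s, c, κ, hC₁, hmainH⟩ := hHTH K m e hm
    obtain ⟨σ, hσ⟩ : ∃ σ : ℕ, σ = e * (m + 1) := ⟨_, rfl⟩
    obtain ⟨D, hD⟩ : ∃ D : ℕ, D = Fintype.card (K →+* ℂ) := ⟨_, rfl⟩
    obtain ⟨E, hE⟩ : ∃ E : ℕ, E = ((σ + 2) * s' + 1) * (2 * (κ * (c + D)) + 1) := ⟨_, rfl⟩
    obtain ⟨c', hc'⟩ : ∃ c' : ℕ, c' = Nat.ceil C₁ + Nat.ceil C₀ + Λ + (m + 1) + s +
      2 * κ * (s + D + D) + E := ⟨_, rfl⟩
    refine ⟨c', by omega, ?_⟩
    intro H G hG x y hxy htt hT v hv B hB hvB n hn hnB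
    rw [← hσ] at hvB
    have hH := hG.one
    have hcC : C₁ ≤ (c' : ℝ) := by
      refine (Nat.le_ceil C₁).trans ?_
      exact_mod_cast (by omega : Nat.ceil C₁ ≤ c')
    have hcC0 : C₀ ≤ (c' : ℝ) := by
      refine (Nat.le_ceil C₀).trans ?_
      exact_mod_cast (by omega : Nat.ceil C₀ ≤ c')
    have hcΛ : (Λ : ℝ) ≤ (c' : ℝ) := by exact_mod_cast (by omega : Λ ≤ c')
    have hcm : ((m : ℝ) + 1) ≤ (c' : ℝ) := by exact_mod_cast (by omega : m + 1 ≤ c')
    have hΛ1 : (1 : ℝ) ≤ (Λ : ℝ) := by exact_mod_cast hΛ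
    have hc1 : (1 : ℝ) ≤ (c' : ℝ) := hC₁.trans hcC
    have hcH : (1 : ℝ) ≤ (c' : ℝ) * H := one_le_mul_of_one_le_of_one_le hc1 hH
    have hccH : (c' : ℝ) ≤ (c' : ℝ) * H := le_mul_of_one_le_right (by linarith) hH
    have hHcH : H ≤ (c' : ℝ) * H := le_mul_of_one_le_left (by linarith) hc1
    have hCH : C₁ * H ≤ (c' : ℝ) * H := mul_le_mul_of_nonneg_right hcC (by linarith)
    have hCH1 : 1 ≤ C₁ * H := one_le_mul_of_one_le_of_one_le hC₁ hH
    have hc'1 : 1 ≤ c' := by omega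
    have hcHT : (c' : ℝ) * H ≤ TT x y := (le_self_pow₀ hcH (by omega)).trans hT
    have hT1' : 1 ≤ TT x y := hcH.trans hcHT
    have hT1 : (C₁ * H) ^ s ≤ TT x y := by
      refine le_trans ?_ hT
      exact (pow_le_pow_left₀ (by linarith) hCH s).trans (pow_le_pow_right₀ hcH (by omega))
    obtain ⟨T, hTd⟩ : ∃ T, T = TT x y := ⟨_, rfl⟩
    rw [← hTd] at hT hvB hnB hcHT hT1' hT1
    have hT0 : 0 < T := by linarith
    obtain ⟨A, hA⟩ : ∃ A : ℝ, A = (C₁ * H) ^ s * (Λ : ℝ) ^ D := ⟨_, rfl⟩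
    have hA1 : 1 ≤ A := by
      rw [hA]
      exact one_le_mul_of_one_le_of_one_le (one_le_pow₀ hCH1) (one_le_pow₀ hΛ1)
    have hT2 : ((A * ((m : ℝ) + 1) ^ D) ^ κ) ^ 2 ≤ T := by
      refine le_trans ?_ hT
      have h1 : A * ((m : ℝ) + 1) ^ D ≤ ((c' : ℝ) * H) ^ (s + D + D) := by
        rw [hA, pow_add, pow_add]
        refine mul_le_mul (mul_le_mul (pow_le_pow_left₀ (by linarith) hCH s) ?_ (by positivity)
          (by positivity)) ?_ (by positivity) (by positivity)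
        · exact pow_le_pow_left₀ (by positivity) (hcΛ.trans hccH) D
        · exact pow_le_pow_left₀ (by positivity) (hcm.trans hccH) D
      rw [← pow_mul]
      refine (pow_le_pow_left₀ (by positivity) h1 _).trans ?_
      rw [← pow_mul]
      refine pow_le_pow_right₀ hcH ?_
      have : (s + D + D) * (κ * 2) = 2 * κ * (s + D + D) := by ring
      omega
    obtain ⟨B', hB'⟩ : ∃ B' : ℝ, B' = (C₀ * (H * T ^ σ)) ^ s' * B := ⟨_, rfl⟩
    have hY1 : 1 ≤ C₀ * (H * T ^ σ) :=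
      one_le_mul_of_one_le_of_one_le hC₀ (one_le_mul_of_one_le_of_one_le hH (one_le_pow₀ hT1'))
    have hB'1 : 1 ≤ B' := by
      rw [hB']
      exact one_le_mul_of_one_le_of_one_le (one_le_pow₀ hY1) hB
    rw [← hB'] at hvB
    by_contra hcon
    have ha : (fun j : Fin (m + 1) => v j n) ≠ 0 := by
      intro h
      apply hcon
      intro i
      exact congrFun h i
    have hsum : ∑ j : Fin (m + 1), (fun j : Fin (m + 1) => v j n) j *
        Pd.cf (hsp e G x y) n j = 0 := by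
      rw [← hn]
      exact sum_congr rfl fun j _ => mul_comm _ _
    have hmain := hmainH H G hG x y hxy htt (by rw [← hTd]; exact hT1) n _ ha hsum
    rw [← hTd] at hmain
    obtain ⟨P, hP⟩ : ∃ P : ℝ, P = (((m : ℝ) + 1) * B') ^ D := ⟨_, rfl⟩
    have hHH : HH (fun j : Fin (m + 1) => v j n) ≤ ((Λ : ℝ) ^ D) ^ n * P := by
      unfold HH
      have h1 : ∀ φ : K →+* ℂ, ∑ j : Fin (m + 1), ‖res φ (v j n)‖ ≤
          (Λ : ℝ) ^ n * (((m : ℝ) + 1) * B') := by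
        intro φ
        refine (Finset.sum_le_sum fun (j : Fin (m + 1)) _ =>
          hgr (v j) (hv j) φ B' (by linarith) (fun l hl => hvB φ j l hl) n).trans
          (le_of_eq ?_)
        rw [Finset.sum_const, Finset.card_univ, Fintype.card_fin, nsmul_eq_mul]
        push_cast
        ring
      refine (Finset.prod_le_prod (fun φ _ => Finset.sum_nonneg fun _ _ => norm_nonneg _)
        (fun φ _ => h1 φ)).trans (le_of_eq ?_)
      rw [Finset.prod_const, Finset.card_univ, ← hD, hP, mul_pow, ← pow_mul, ← pow_mul,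
        mul_comm n D]
    have hP0 : 0 ≤ P := by
      rw [hP]
      positivity
    have hmain2 : T ^ n ≤ (A ^ (n + 1) * T ^ c * P) ^ κ := by
      refine hmain.trans (pow_le_pow_left₀ ?_ ?_ κ)
      · have : 0 ≤ HH (fun j : Fin (m + 1) => v j n) :=
          Finset.prod_nonneg fun _ _ => Finset.sum_nonneg fun _ _ => norm_nonneg _
        positivity
      · calc ((C₁ * H) ^ s) ^ (n + 1) * T ^ c * HH (fun j : Fin (m + 1) => v j n)
            ≤ ((C₁ * H) ^ s) ^ (n + 1) * T ^ c * (((Λ : ℝ) ^ D) ^ n * P) :=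
              mul_le_mul_of_nonneg_left hHH (by positivity)
          _ ≤ ((C₁ * H) ^ s) ^ (n + 1) * T ^ c * (((Λ : ℝ) ^ D) ^ (n + 1) * P) := by
              refine mul_le_mul_of_nonneg_left (mul_le_mul_of_nonneg_right ?_ hP0)
                (by positivity)
              exact pow_le_pow_right₀ (one_le_pow₀ hΛ1) (by omega)
          _ = A ^ (n + 1) * T ^ c * P := by
              rw [hA, mul_pow ((C₁ * H) ^ s)]
              ring
    have h4 := SQ2.fin_ineq A B' T P (((m : ℝ) + 1) * B') m n c D κ hA1 hB'1 hT1' rfl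
      hP.le hT2 hP0 hmain2
    have hBT : 1 ≤ B * T := one_le_mul_of_one_le_of_one_le hB hT1'
    have h5 : B' * T ≤ (B * T) ^ ((σ + 2) * s' + 1) := by
      have h6 : C₀ * (H * T ^ σ) ≤ T ^ (σ + 2) := by
        calc C₀ * (H * T ^ σ) ≤ T * (T * T ^ σ) := by
              refine mul_le_mul (hcC0.trans (hccH.trans hcHT)) ?_ (by positivity)
                (by linarith)
              exact mul_le_mul_of_nonneg_right (hHcH.trans hcHT) (by positivity)
          _ = T ^ (σ + 2) := by ring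
      have h7 : T ≤ B * T := le_mul_of_one_le_left hT0.le hB
      calc B' * T = (C₀ * (H * T ^ σ)) ^ s' * (B * T) := by rw [hB']; ring
        _ ≤ (T ^ (σ + 2)) ^ s' * (B * T) := by
            refine mul_le_mul_of_nonneg_right (pow_le_pow_left₀ (by linarith) h6 s')
              (by linarith)
        _ ≤ ((B * T) ^ (σ + 2)) ^ s' * (B * T) := by
            refine mul_le_mul_of_nonneg_right ?_ (by linarith)
            exact pow_le_pow_left₀ (by positivity) (pow_le_pow_left₀ hT0.le h7 _) s'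
        _ = (B * T) ^ ((σ + 2) * s' + 1) := by rw [← pow_mul, pow_succ]
    have h8 : T ^ n ≤ (B * T) ^ c' := by
      calc T ^ n ≤ (B' * T) ^ (2 * (κ * (c + D)) + 1) := h4
        _ ≤ ((B * T) ^ ((σ + 2) * s' + 1)) ^ (2 * (κ * (c + D)) + 1) :=
            pow_le_pow_left₀ (by positivity) h5 _
        _ = (B * T) ^ E := by rw [hE, ← pow_mul]
        _ ≤ (B * T) ^ c' := pow_le_pow_right₀ hBT (by omega)
    exact absurd h8 (not_le.2 hnB)

end HZR

open HZR in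
/-- Item HZR. -/
theorem prHZR (hHTH : StHTH) (hADZ : StADZ) (hHNZ : StHNZ) (hHB1 : StHB1) (hHEV : StHEV) :
    StHZR := by
  intro K _ _ m e r θ hθ
  obtain ⟨C₀, s', hC₀, k3⟩ := hADZ K m r θ
  set f : (𝓞 K)[X] := ∏ j, (X - C (θ j)) with hf
  have hfm : f.Monic := monic_prod_of_monic _ _ fun j _ => monic_X_sub_C _
  have hfd : f.natDegree = r := by
    rw [hf, natDegree_prod_of_monic _ _ fun j _ => monic_X_sub_C _]
    simp
  have hf0 : f.coeff 0 ≠ 0 := by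
    rw [hf, coeff_zero_prod, Finset.prod_ne_zero_iff]
    intro j _
    rw [coeff_sub, coeff_X_zero, coeff_C_zero, zero_sub]
    exact neg_ne_zero.2 (hθ j)
  obtain ⟨c₄, hc₄, key4⟩ := key hHTH hHNZ hHB1 m e r f hfm hfd C₀ s' hC₀
  refine ⟨c₄, by omega, ?_⟩
  intro H G hG x y hxy htt hT
  have hH := hG.one
  have hT1 : 1 < TT x y := by
    refine lt_of_lt_of_le ?_ hT
    have h2 : (1 : ℝ) < (c₄ : ℝ) * H := by
      have h3 : (2 : ℝ) ≤ (c₄ : ℝ) := by exact_mod_cast hc₄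
      nlinarith
    exact one_lt_pow₀ h2 (by omega)
  have hgm := hsp_monic hHB1 hG x y
  have hgd := hsp_deg hHB1 hG x y
  have huniq : ∀ v : Fin (m + 1) → ℕ → 𝓞 K, (∀ i, Pd.Sol f (v i)) →
      (∀ n : ℕ, ∑ i : Fin (m + 1), Pd.cf (hsp e G x y) n i * v i n = 0) → v = 0 := by
    intro v hv h0
    obtain ⟨B, hB⟩ : ∃ B : ℝ, B = 1 + ∑ φ : K →+* ℂ, ∑ i : Fin (m + 1), ∑ l ∈ range r,
        ‖res φ (v i l)‖ := ⟨_, rfl⟩
    have hnn : 0 ≤ ∑ φ : K →+* ℂ, ∑ i : Fin (m + 1), ∑ l ∈ range r, ‖res φ (v i l)‖ :=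
      Finset.sum_nonneg fun _ _ => Finset.sum_nonneg fun _ _ => Finset.sum_nonneg fun _ _ =>
        norm_nonneg _
    have hB1 : 1 ≤ B := by linarith
    have hY1 : 1 ≤ (C₀ * (H * TT x y ^ (e * (m + 1)))) ^ s' :=
      one_le_pow₀ (one_le_mul_of_one_le_of_one_le hC₀
        (one_le_mul_of_one_le_of_one_le hH (one_le_pow₀ hT1.le)))
    have hvB : ∀ (φ : K →+* ℂ) i, ∀ l < r,
        ‖res φ (v i l)‖ ≤ (C₀ * (H * TT x y ^ (e * (m + 1)))) ^ s' * B := by
      intro φ i l hl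
      have h1 : ‖res φ (v i l)‖ ≤ ∑ l ∈ range r, ‖res φ (v i l)‖ :=
        Finset.single_le_sum (f := fun l => ‖res φ (v i l)‖) (fun _ _ => norm_nonneg _)
          (mem_range.2 hl)
      have h2 : ∑ l ∈ range r, ‖res φ (v i l)‖ ≤ ∑ i : Fin (m + 1), ∑ l ∈ range r,
          ‖res φ (v i l)‖ :=
        Finset.single_le_sum (f := fun i : Fin (m + 1) => ∑ l ∈ range r, ‖res φ (v i l)‖)
          (fun _ _ => Finset.sum_nonneg fun _ _ => norm_nonneg _) (Finset.mem_univ i)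
      have h3 : ∑ i : Fin (m + 1), ∑ l ∈ range r, ‖res φ (v i l)‖ ≤
          ∑ φ : K →+* ℂ, ∑ i : Fin (m + 1), ∑ l ∈ range r, ‖res φ (v i l)‖ :=
        Finset.single_le_sum (f := fun φ : K →+* ℂ => ∑ i : Fin (m + 1), ∑ l ∈ range r,
          ‖res φ (v i l)‖) (fun _ _ => Finset.sum_nonneg fun _ _ => Finset.sum_nonneg
          fun _ _ => norm_nonneg _) (Finset.mem_univ φ)
      have h4 : ‖res φ (v i l)‖ ≤ B := by linarith
      exact h4.trans (le_mul_of_one_le_left (by linarith) hY1)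
    obtain ⟨n₀, hn₀⟩ := pow_unbounded_of_one_lt ((B * TT x y) ^ c₄) hT1
    have hzero : ∀ n, n₀ ≤ n → ∀ i, v i n = 0 := by
      intro n hn
      refine key4 H G hG x y hxy htt hT v hv B hB1 hvB n (h0 n) (hn₀.trans_le ?_)
      exact pow_le_pow_right₀ hT1.le hn
    funext i n
    exact Pd.Sol.zero_of_eventually hf0 (hv i) (fun n hn => hzero n hn i) n
  refine ⟨huniq, ?_⟩
  intro z hz
  obtain ⟨δ, v, hδ, hv, hzv, hvB⟩ := k3 (hsp e G x y) (H * TT x y ^ (e * (m + 1))) hgm hgd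
    (one_le_mul_of_one_le_of_one_le hH (one_le_pow₀ hT1.le)) (coeff_norm hHB1 hHEV hG x y htt)
    huniq z hz
  refine ⟨δ, v, hδ, hv, hzv, ?_⟩
  intro B hB hzB n hnB hzn
  refine key4 H G hG x y hxy htt hT v hv B hB (hvB B hzB) n ?_ hnB
  rw [← hzv n, hzn, mul_zero]

end Pool.Agent.Work.MP_8d13b5_lc.Fm
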