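import Pool.Agent.Work.MP_8d13b5_lc.Fm.StmtsFz

set_option autoImplicit false

/-! # KRZ: uniqueness of the constant sequences -/

namespace Pool.Agent.Work.MP_8d13b5_lc.Fm

open Polynomial NumberField Finset Module

namespace KRZ

theorem monic_prod {R : Type} [CommRing R] {r : ℕ} (θ : Fin r → R) :
    (∏ j, (X - C (θ j))).Monic :=
  monic_prod_of_monic _ _ fun j _ => monic_X_sub_C (θ j)

theorem coeff_zero_prod {R : Type} [CommRing R] [IsDomain R] {r : ℕ} (θ : Fin r → R)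
    (h : ∀ j, θ j ≠ 0) : (∏ j, (X - C (θ j))).coeff 0 ≠ 0 := by
  rw [coeff_zero_eq_eval_zero, eval_prod]
  refine Finset.prod_ne_zero_iff.2 fun j _ => ?_
  rw [eval_sub, eval_X, eval_C, zero_sub]
  exact neg_ne_zero.2 (h j)

/-- the bound for the roots -/
noncomputable def rad {K : Type} [Field K] [NumberField K] {r : ℕ} (θ : Fin r → 𝓞 K)
    (φ : K →+* ℂ) : ℝ := 1 + ∑ j, ‖res φ (θ j)‖

theorem one_le_rad {K : Type} [Field K] [NumberField K] {r : ℕ} (θ : Fin r → 𝓞 K)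
    (φ : K →+* ℂ) : 1 ≤ rad θ φ := by
  unfold rad
  have : 0 ≤ ∑ j, ‖res φ (θ j)‖ := Finset.sum_nonneg fun _ _ => norm_nonneg _
  linarith

theorem growth1 {K : Type} [Field K] [NumberField K] {r : ℕ} (θ : Fin r → 𝓞 K)
    (φ : K →+* ℂ) (s : ℕ → 𝓞 K) (hs : Pd.Sol (∏ j, (X - C (θ j))) s) :
    ∃ A : ℝ, 0 ≤ A ∧ ∀ n, ‖res φ (s n)‖ ≤ A * (2 * rad θ φ) ^ n := by
  set f : (𝓞 K)[X] := ∏ j, (X - C (θ j)) with hf
  refine ⟨(∑ i ∈ range f.natDegree, ‖res φ (s i)‖) * 2 ^ f.natDegree, ?_, ?_⟩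
  · exact mul_nonneg (Finset.sum_nonneg fun _ _ => norm_nonneg _) (by positivity)
  · intro n
    refine Pd.growth_ring (one_le_rad θ φ) (res φ) (monic_prod θ) ?_ hs
      (Finset.sum_nonneg fun _ _ => norm_nonneg _) ?_ n
    · intro z hz
      have hz' := (mem_roots'.1 hz).2
      rw [IsRoot.def, Polynomial.map_prod, eval_prod, Finset.prod_eq_zero_iff] at hz'
      obtain ⟨j, _, hj⟩ := hz'
      rw [Polynomial.map_sub, map_X, map_C, eval_sub, eval_X, eval_C, sub_eq_zero] at hj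
      rw [hj]
      unfold rad
      have := Finset.single_le_sum (f := fun j => ‖res φ (θ j)‖) (fun _ _ => norm_nonneg _)
        (Finset.mem_univ j)
      linarith
    · intro i hi
      exact Finset.single_le_sum (f := fun i => ‖res φ (s i)‖) (fun _ _ => norm_nonneg _)
        (Finset.mem_range.2 hi)

theorem growthH {K : Type} [Field K] [NumberField K] {r k : ℕ} (θ : Fin r → 𝓞 K)
    (v : Fin k → ℕ → 𝓞 K) (hv : ∀ i, Pd.Sol (∏ j, (X - C (θ j))) (v i)) :
    ∃ A : ℝ, 0 ≤ A ∧ ∀ n, HH (fun i => v i n) ≤ A * (∏ φ : K →+* ℂ, (2 * rad θ φ)) ^ n := by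
  choose A hA h using fun (φ : K →+* ℂ) (i : Fin k) => growth1 θ φ (v i) (hv i)
  refine ⟨∏ φ : K →+* ℂ, ∑ i, A φ i, Finset.prod_nonneg fun φ _ =>
    Finset.sum_nonneg fun i _ => hA φ i, fun n => ?_⟩
  unfold HH
  rw [← Finset.prod_pow, ← Finset.prod_mul_distrib]
  refine Finset.prod_le_prod (fun φ _ => Finset.sum_nonneg fun _ _ => norm_nonneg _) fun φ _ => ?_
  rw [Finset.sum_mul]
  exact Finset.sum_le_sum fun i _ => h φ i n

end KRZ

theorem prKRZ (hXTH : StXTH) (hCFD : StCFD) (hVNZ : StVNZ) : StKRZ := by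
  intro K _ _ m σ r θ hθ
  rcases Nat.eq_zero_or_pos m with hm | hm
  · subst hm
    obtain ⟨s, hs⟩ := hVNZ K
    refine ⟨s + 3, by omega, ?_⟩
    intro H G hG t₀ ht v _ hv
    have hH := hG.one
    have hcr := hG.crv
    have hcH : (1 : ℝ) < ((s + 3 : ℕ) : ℝ) * H := by
      push_cast
      nlinarith [Nat.cast_nonneg (α := ℝ) s]
    have h2H : 2 * H ≤ ((s + 3 : ℕ) : ℝ) * H := by
      push_cast
      nlinarith [Nat.cast_nonneg (α := ℝ) s]
    have hlt : (2 * H) ^ s < TT t₀ 1 := by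
      refine lt_of_lt_of_le ?_ ht
      calc (2 * H) ^ s ≤ (((s + 3 : ℕ) : ℝ) * H) ^ s := pow_le_pow_left₀ (by linarith) h2H _
        _ < (((s + 3 : ℕ) : ℝ) * H) ^ (s + 3) := pow_lt_pow_right₀ hcH (by omega)
    have hne := hs (G.coeff 0) H hcr.ne hH (fun φ => hG.ht φ 0 le_rfl) t₀ hlt
    have hgm : (spc G t₀).Monic := hcr.monic.map _
    have hgd : (spc G t₀).natDegree = 0 + 1 := by
      unfold spc
      rw [hcr.monic.natDegree_map, hcr.deg]
    have hg0 : (spc G t₀).coeff 0 ≠ 0 := by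
      unfold spc
      rw [coeff_map]
      exact hne
    have hcf : ∀ n, Pd.cf (spc G t₀) n 0 ≠ 0 := by
      intro n
      induction n with
      | zero =>
        rw [Pd.cf_init hgm (by omega), if_pos rfl]
        exact one_ne_zero
      | succ n ih =>
        rw [((hCFD.1 (𝓞 K) 0 (spc G t₀) hgm hgd n).1)]
        exact neg_ne_zero.2 (mul_ne_zero ih hg0)
    funext i n
    have h1 := hv n
    rw [Fin.sum_univ_one] at h1
    have h2 := (mul_eq_zero.1 h1).resolve_left (hcf n)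
    obtain rfl : i = 0 := Fin.fin_one_eq_zero i
    exact h2
  · obtain ⟨C₁, s, c, κ, hC₁, hX⟩ := hXTH K m σ hm
    set L : ℝ := ∏ φ : K →+* ℂ, (2 * KRZ.rad θ φ) with hL
    have hL0 : 0 < L := Finset.prod_pos fun φ _ => by
      have := KRZ.one_le_rad θ φ
      linarith
    obtain ⟨N₁, hN₁⟩ := exists_nat_ge C₁
    obtain ⟨N₂, hN₂⟩ := exists_nat_ge (2 * L ^ κ)
    refine ⟨N₁ + N₂ + s * κ + s + 1, by omega, ?_⟩
    intro H G hG t₀ ht v hv hsum
    have hH := hG.one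
    have hcr := hG.crv
    set b : ℝ := ((N₁ + N₂ + s * κ + s + 1 : ℕ) : ℝ) * H with hb
    have hbN : ((N₁ + N₂ + s * κ + s + 1 : ℕ) : ℝ) ≤ b := by
      rw [hb]
      exact le_mul_of_one_le_right (Nat.cast_nonneg _) hH
    have hb1 : 1 ≤ b := by
      refine le_trans ?_ hbN
      exact_mod_cast (by omega : 1 ≤ N₁ + N₂ + s * κ + s + 1)
    have hbC : C₁ * H ≤ b := by
      rw [hb]
      refine mul_le_mul_of_nonneg_right (hN₁.trans ?_) (by linarith)
      exact_mod_cast (by omega : N₁ ≤ N₁ + N₂ + s * κ + s + 1)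
    have hbL : 2 * L ^ κ ≤ b := by
      refine (hN₂.trans ?_).trans hbN
      exact_mod_cast (by omega : N₂ ≤ N₁ + N₂ + s * κ + s + 1)
    have hCH : 0 ≤ C₁ * H := by positivity
    have h1 : (C₁ * H) ^ s ≤ TT t₀ 1 := by
      refine le_trans ?_ ht
      calc (C₁ * H) ^ s ≤ b ^ s := pow_le_pow_left₀ hCH hbC _
        _ ≤ b ^ (N₁ + N₂ + s * κ + s + 1) := pow_le_pow_right₀ hb1 (by omega)
    have h2 : 2 * ((C₁ * H) ^ s * L) ^ κ ≤ TT t₀ 1 := by
      refine le_trans ?_ ht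
      calc 2 * ((C₁ * H) ^ s * L) ^ κ = (C₁ * H) ^ (s * κ) * (2 * L ^ κ) := by
            rw [mul_pow, ← pow_mul]
            ring
        _ ≤ b ^ (s * κ) * b := by
            exact mul_le_mul (pow_le_pow_left₀ hCH hbC _) hbL (by positivity) (by positivity)
        _ = b ^ (s * κ + 1) := by rw [pow_succ]
        _ ≤ b ^ (N₁ + N₂ + s * κ + s + 1) := pow_le_pow_right₀ hb1 (by omega)
    by_contra hne
    obtain ⟨i₀, hi₀⟩ : ∃ i, v i ≠ 0 := by
      by_contra hcon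
      push Not at hcon
      exact hne (funext hcon)
    obtain ⟨A, hA, hgr⟩ := KRZ.growthH θ v hv
    set T := TT t₀ 1 with hT
    set x := (C₁ * H) ^ s with hx
    have hx1 : 1 ≤ x := one_le_pow₀ (by nlinarith)
    have hy0 : 0 < (x * L) ^ κ := by positivity
    have hT0 : 0 < T := by linarith
    obtain ⟨N, hN⟩ := pow_unbounded_of_one_lt ((x * T ^ c * A) ^ κ) (one_lt_two)
    -- an index with a nonzero vector
    obtain ⟨n, hn, hn0⟩ : ∃ n, N ≤ n ∧ v i₀ n ≠ 0 := by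
      by_contra hcon
      push Not at hcon
      apply hi₀
      funext n
      exact Pd.Sol.zero_of_eventually (KRZ.coeff_zero_prod θ hθ) (hv i₀) hcon n
    have h3 := hX H G hG t₀ h1 n (fun i => v i n) (fun h0 => hn0 (congrFun h0 i₀)) (by
      rw [← hsum n]
      refine Finset.sum_congr rfl fun i _ => ?_
      have h4 := hCFD.2.1 _ _ (evalRingHom t₀) G n i hcr.monic
      rw [mul_comm]
      unfold spc
      rw [h4]
      rfl)
    have h5 : T ^ n ≤ ((x * L) ^ κ) ^ n * (x * T ^ c * A) ^ κ := by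
      calc T ^ n ≤ (x ^ (n + 1) * T ^ c * HH (fun i => v i n)) ^ κ := h3
        _ ≤ (x ^ (n + 1) * T ^ c * (A * L ^ n)) ^ κ := by
            refine pow_le_pow_left₀ ?_ (mul_le_mul_of_nonneg_left (hgr n) (by positivity)) _
            refine mul_nonneg (by positivity) ?_
            exact Finset.prod_nonneg fun φ _ => Finset.sum_nonneg fun _ _ => norm_nonneg _
        _ = ((x * L) ^ κ) ^ n * (x * T ^ c * A) ^ κ := by ring
    have h6 : 2 ^ n * ((x * L) ^ κ) ^ n ≤ T ^ n := by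
      rw [← mul_pow]
      exact pow_le_pow_left₀ (by positivity) h2 n
    have h7 : (2 : ℝ) ^ n ≤ (x * T ^ c * A) ^ κ := by
      have h8 : 0 < ((x * L) ^ κ) ^ n := pow_pos hy0 n
      nlinarith
    have h9 : (2 : ℝ) ^ N ≤ 2 ^ n := pow_le_pow_right₀ (by norm_num) hn
    linarith

end Pool.Agent.Work.MP_8d13b5_lc.Fm
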