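import Pool.Agent.Work.MP_8d13b5_lc.Fm.StmtsFz

set_option autoImplicit false

/-! RSC: the constant quotients are the roots of a polynomial of bounded degree. -/

namespace Pool.Agent.Work.MP_8d13b5_lc.Fm

open Polynomial NumberField Finset Module

namespace RSC

/-- degree of a determinant of polynomials -/
lemma natDegree_det_le {R : Type} [CommRing R] {n : ℕ} (M : Matrix (Fin n) (Fin n) R[X]) (B : ℕ)
    (h : ∀ i j, (M i j).natDegree ≤ B) : M.det.natDegree ≤ n * B := by
  rw [Matrix.det_apply]
  refine natDegree_sum_le_of_forall_le _ _ fun σ _ => ?_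
  have h1 : (∏ i, M (σ i) i).natDegree ≤ n * B := by
    refine (natDegree_prod_le _ _).trans ?_
    refine (Finset.sum_le_card_nsmul _ _ B fun i _ => h _ _).trans ?_
    simp
  rcases Int.units_eq_one_or (Equiv.Perm.sign σ) with h2 | h2
  · rw [h2, one_smul]
    exact h1
  · rw [h2, Units.neg_smul, one_smul, natDegree_neg]
    exact h1

variable {R : Type} [CommRing R]

/-- `F` with coefficients constant in the new variable -/
noncomputable def F1 (F : R[X][X]) : R[X][X][X] := F.map C

/-- the resultant -/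
noncomputable def rsn (d : ℕ) (F : R[X][X]) : R[X][X] :=
  resultant (F1 F) ((F1 F).scaleRoots X) d d

lemma res_deg (d : ℕ) (F : R[X][X]) (hd : F.natDegree ≤ d) :
    (rsn d F).natDegree ≤ (d + d) * d := by
  unfold rsn resultant
  refine natDegree_det_le _ _ fun i j => ?_
  unfold sylvester
  rw [Matrix.of_apply]
  refine Fin.addCases (fun j₁ => ?_) (fun j₁ => ?_) j
  · rw [Fin.addCases_left]
    split_ifs
    · rw [coeff_scaleRoots, F1, coeff_map]
      refine natDegree_mul_le.trans ?_
      rw [natDegree_C, zero_add]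
      refine (natDegree_X_pow_le _).trans ?_
      have : (F.map C : R[X][X][X]).natDegree ≤ F.natDegree := natDegree_map_le
      omega
    · rw [natDegree_zero]
      exact Nat.zero_le _
  · rw [Fin.addCases_right]
    split_ifs
    · rw [F1, coeff_map, natDegree_C]
      exact Nat.zero_le _
    · rw [natDegree_zero]
      exact Nat.zero_le _

lemma res_map {S : Type} [CommRing S] [Nontrivial S] (d : ℕ) (F : R[X][X]) (hF : F.Monic)
    (ψ : R[X][X] →+* S) :
    ψ (rsn d F) = resultant (F.map (ψ.comp C)) ((F.map (ψ.comp C)).scaleRoots (ψ X)) d d := by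
  unfold rsn
  rw [← resultant_map_map, map_scaleRoots, F1, Polynomial.map_map]
  have h : (F1 F).leadingCoeff = 1 := hF.map _
  rw [h, map_one]
  exact one_ne_zero

lemma res_ne [IsDomain R] (d : ℕ) (F : R[X][X]) (hF : F.Monic) (hd : F.natDegree = d)
    (h0 : F.coeff 0 ≠ 0) : rsn d F ≠ 0 := by
  intro h
  have h1 := res_map d F hF (evalRingHom (0 : R[X]))
  have h2 : (evalRingHom (0 : R[X])).comp C = RingHom.id R[X] := by
    ext <;> simp
  rw [h, map_zero, h2, Polynomial.map_id] at h1
  have h3 : (evalRingHom (0 : R[X])) X = 0 := by simp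
  rw [h3, scaleRoots_zero, hF, one_smul, hd, resultant_X_pow_right _ _ _ hd.le] at h1
  have h4 : ((-1 : R[X]) ^ (d * d) * F.coeff 0 ^ d) ≠ 0 :=
    mul_ne_zero (pow_ne_zero _ (neg_ne_zero.2 one_ne_zero)) (pow_ne_zero _ h0)
  exact h4 h1.symm

end RSC

open RSC

theorem prRSC : StRSC := by
  intro d
  refine ⟨(d + d) * d, fun R _ _ φ F hφ hF hd h0 => ?_⟩
  obtain ⟨r, hr⟩ : ∃ r, r = rsn d F := ⟨_, rfl⟩
  have hr0 : r ≠ 0 := hr ▸ res_ne d F hF hd h0
  have hrd : r.natDegree ≤ (d + d) * d := hr ▸ res_deg d F hd.le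
  obtain ⟨i₀, hi₀⟩ : ∃ i, r.coeff i ≠ 0 := by
    by_contra h
    push Not at h
    exact hr0 (Polynomial.ext fun i => by rw [h, coeff_zero])
  obtain ⟨j, hj⟩ : ∃ j, (r.coeff i₀).coeff j ≠ 0 := by
    by_contra h
    push Not at h
    exact hi₀ (Polynomial.ext fun i => by rw [h, coeff_zero])
  have hc : ∀ i, (∑ i ∈ Finset.range (r.natDegree + 1), monomial i ((r.coeff i).coeff j)).coeff i =
      (r.coeff i).coeff j := by
    intro i
    rw [finsetSum_coeff]
    simp only [coeff_monomial]
    rw [Finset.sum_ite_eq']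
    split_ifs with h
    · rfl
    · rw [Finset.mem_range, not_lt] at h
      rw [coeff_eq_zero_of_natDegree_lt (p := r) (by omega), coeff_zero]
  refine ⟨∑ i ∈ Finset.range (r.natDegree + 1), monomial i ((r.coeff i).coeff j), ?_, ?_, ?_⟩
  · intro h
    have := hc i₀
    rw [h, coeff_zero] at this
    exact hj this.symm
  · refine natDegree_sum_le_of_forall_le _ _ fun i hi => (natDegree_monomial_le _).trans ?_
    rw [Finset.mem_range] at hi
    omega
  · intro c hcop
    -- the specialisation
    have h1 := res_map d F hF ((algebraMap ℂ[X] (RatFunc ℂ)).comp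
      (eval₂RingHom (mapRingHom φ) (C c)))
    have h2 : ((algebraMap ℂ[X] (RatFunc ℂ)).comp (eval₂RingHom (mapRingHom φ) (C c))).comp C =
        (algebraMap ℂ[X] (RatFunc ℂ)).comp (mapRingHom φ) := by
      ext <;> simp
    have h3 : ((algebraMap ℂ[X] (RatFunc ℂ)).comp (eval₂RingHom (mapRingHom φ) (C c))) X =
        algebraMap ℂ (RatFunc ℂ) c := by
      rw [RingHom.comp_apply, coe_eval₂RingHom, eval₂_X]
      rfl
    rw [h2, h3] at h1
    have hm : (hatR φ F).natDegree = d := by
      rw [← hd]
      exact hF.natDegree_map _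
    have h4 : resultant (hatR φ F) ((hatR φ F).scaleRoots (algebraMap ℂ (RatFunc ℂ) c)) d d = 0 := by
      have h5 := (resultant_eq_zero_iff (f := hatR φ F)
        (g := (hatR φ F).scaleRoots (algebraMap ℂ (RatFunc ℂ) c))).2
        ⟨Or.inl ((hF.map _).ne_zero), hcop⟩
      rw [natDegree_scaleRoots, hm] at h5
      exact h5
    change _ = resultant (hatR φ F) ((hatR φ F).scaleRoots (algebraMap ℂ (RatFunc ℂ) c)) d d at h1
    rw [h4, RingHom.comp_apply] at h1
    have h5 : eval₂RingHom (mapRingHom φ) (C c) (rsn d F) = 0 :=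
      (map_eq_zero_iff _ (FaithfulSMul.algebraMap_injective ℂ[X] (RatFunc ℂ))).1 h1
    rw [← hr, coe_eval₂RingHom, eval₂_eq_sum_range] at h5
    have h6 := congrArg (fun p => coeff p j) h5
    simp only [finsetSum_coeff, coe_mapRingHom, ← C_pow, coeff_mul_C, coeff_map, coeff_zero] at h6
    rw [eval₂_finsetSum]
    simp only [eval₂_monomial]
    exact h6

end Pool.Agent.Work.MP_8d13b5_lc.Fm
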