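import Pool.Agent.Work.MP_8d13b5_lc.Fm.StmtsHom

set_option autoImplicit false
set_option linter.unusedSectionVars false

/-! Item RZB2 of block FMH: the structure of a general family over the algebraic integers, with the weights
(the file `I_RZB.lean`, with the roots of `G`, and WTG). -/

namespace Pool.Agent.Work.MP_8d13b5_lc.Fm

open Polynomial NumberField Finset Module

namespace RZB2

/-- representatives of a reflexive and symmetric relation -/
theorem exists_reps {α : Type*} (A : Finset α) (r : α → α → Prop) (hr : ∀ a, r a a)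
    (hs : ∀ a b, r a b → r b a) :
    ∃ T ⊆ A, (∀ a ∈ T, ∀ b ∈ T, r a b → a = b) ∧ ∀ a ∈ A, ∃ b ∈ T, r a b := by
  classical
  induction A using Finset.induction_on with
  | empty => exact ⟨∅, subset_rfl, by simp, by simp⟩
  | insert a A ha ih =>
    obtain ⟨T, hT, h1, h2⟩ := ih
    by_cases h : ∃ b ∈ T, r a b
    · refine ⟨T, hT.trans (subset_insert a A), h1, ?_⟩
      intro x hx
      rcases mem_insert.1 hx with rfl | hx
      · exact h
      · exact h2 x hx
    · have h' : ∀ b ∈ T, ¬ r a b := fun b hb hab => h ⟨b, hb, hab⟩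
      refine ⟨insert a T, insert_subset_insert a hT, ?_, ?_⟩
      · intro x hx y hy hxy
        rcases mem_insert.1 hx with hx | hx
        · rcases mem_insert.1 hy with hy | hy
          · rw [hx, hy]
          · exact absurd (hx ▸ hxy) (h' y hy)
        · rcases mem_insert.1 hy with hy | hy
          · exact absurd (hs _ _ (hy ▸ hxy)) (h' x hx)
          · exact h1 x hx y hy hxy
      · intro x hx
        rcases mem_insert.1 hx with rfl | hx
        · exact ⟨x, mem_insert_self _ _, hr x⟩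
        · obtain ⟨b, hb, hxb⟩ := h2 x hx
          exact ⟨b, mem_insert_of_mem hb, hxb⟩

/-- one exponent for all pairs whose quotient is a root of unity -/
theorem exists_N {Ω : Type*} [Field Ω] (A : Finset Ω) : ∃ N : ℕ, 1 ≤ N ∧ ∀ a ∈ A, ∀ b ∈ A,
    (∃ n : ℕ, 1 ≤ n ∧ a ^ n = b ^ n) → a ^ N = b ^ N := by
  classical
  have hc : ∀ p : Ω × Ω, ∃ n : ℕ, 1 ≤ n ∧
      ((∃ n : ℕ, 1 ≤ n ∧ p.1 ^ n = p.2 ^ n) → p.1 ^ n = p.2 ^ n) := by
    intro p
    by_cases h : ∃ n : ℕ, 1 ≤ n ∧ p.1 ^ n = p.2 ^ n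
    · obtain ⟨n, hn, h1⟩ := h
      exact ⟨n, hn, fun _ => h1⟩
    · exact ⟨1, le_rfl, fun h1 => absurd h1 h⟩
  choose n hn1 hn2 using hc
  refine ⟨∏ p ∈ A ×ˢ A, n p, Nat.one_le_iff_ne_zero.2 (Finset.prod_ne_zero_iff.2
    fun p _ => Nat.one_le_iff_ne_zero.1 (hn1 p)), fun a ha b hb h => ?_⟩
  obtain ⟨m, hm⟩ := Finset.dvd_prod_of_mem n (mem_product.2 ⟨ha, hb⟩ : (a, b) ∈ A ×ˢ A)
  rw [hm, pow_mul, pow_mul, hn2 (a, b) h]

/-- an `n`-th root of a constant is a constant -/
theorem root_const {k Ω : Type*} [Field k] [IsAlgClosed k] [Field Ω] (κ : k →+* Ω) (n : ℕ)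
    (hn : 1 ≤ n) (x : Ω) (c : k) (h : x ^ n = κ c) : ∃ c₂ : k, κ c₂ = x := by
  have h1 : (X ^ n - C c : k[X]) ≠ 0 := X_pow_sub_C_ne_zero hn c
  have h2 := (IsAlgClosed.splits (X ^ n - C c : k[X])).mem_range_of_isRoot h1 (i := κ) (x := x)
    (by simp [IsRoot.def, h])
  exact h2

section core

variable {R E Ω k : Type} [CommRing R] [IsDomain R] [IsIntegrallyClosed R] [Field E] [CharZero E]
  [Algebra R E] [IsFractionRing R E] [Field Ω] [IsAlgClosed Ω] [Algebra E Ω] [Normal E Ω]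
  [Algebra R Ω] [IsScalarTower R E Ω] [Field k] [IsAlgClosed k]

/-- the equivalence `a ≈ b` -/
def rel (κ : k →+* E) (a b : Ω) : Prop :=
  ∃ (c : k) (τ : Ω ≃ₐ[E] Ω), c ≠ 0 ∧ a = algebraMap E Ω (κ c) * τ b

theorem rel_refl (κ : k →+* E) (a : Ω) : rel κ a a :=
  ⟨1, AlgEquiv.refl, one_ne_zero, by simp⟩

theorem rel_symm (κ : k →+* E) (a b : Ω) (h : rel κ a b) : rel κ b a := by
  obtain ⟨c, τ, hc, h1⟩ := h
  refine ⟨c⁻¹, τ.symm, inv_ne_zero hc, ?_⟩
  rw [h1, map_mul, AlgEquiv.commutes, AlgEquiv.symm_apply_apply, ← mul_assoc, ← map_mul, ← map_mul,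
    inv_mul_cancel₀ hc, map_one, map_one, one_mul]

/-- the central argument -/
theorem key (κ : k →+* E) (A : Finset Ω) (hA0 : ∀ a ∈ A, a ≠ 0)
    (hAs : ∀ a ∈ A, ∀ τ : Ω ≃ₐ[E] Ω, τ a ∈ A) (N : ℕ) (hN1 : 1 ≤ N)
    (hN : ∀ a ∈ A, ∀ b ∈ A, (∃ n : ℕ, 1 ≤ n ∧ a ^ n = b ^ n) → a ^ N = b ^ N)
    (T : Finset Ω) (hTA : T ⊆ A) (hT : ∀ a ∈ T, ∀ b ∈ T, rel κ a b → a = b)
    (b : Ω) (hb : b ∈ T) (b' : Ω) (hb' : b' ∈ T) (τ τ' : Ω ≃ₐ[E] Ω) (c : k)
    (h : τ b ^ N = algebraMap E Ω (κ c) * τ' b' ^ N) : b = b' ∧ c = 1 := by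
  have hb0 : b ≠ 0 := hA0 b (hTA hb)
  have hb'0 : τ' b' ≠ 0 := by
    rw [ne_eq, map_eq_zero]
    exact hA0 b' (hTA hb')
  -- `τ b = c₂ τ' b'`
  obtain ⟨c₂, hc₂⟩ := root_const ((algebraMap E Ω).comp κ) N hN1 (τ b / τ' b') c (by
    rw [div_pow, h, mul_div_assoc, div_self (pow_ne_zero _ hb'0), mul_one]
    rfl)
  have hc₂' : algebraMap E Ω (κ c₂) = τ b / τ' b' := hc₂
  have h1 : τ b = algebraMap E Ω (κ c₂) * τ' b' := by
    rw [hc₂', div_mul_cancel₀ _ hb'0]
  have hc₂0 : c₂ ≠ 0 := by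
    rintro rfl
    rw [map_zero, map_zero, zero_mul, map_eq_zero] at h1
    exact hb0 h1
  have hκ : Function.Injective ((algebraMap E Ω).comp κ) := RingHom.injective _
  have hc2N : c = c₂ ^ N := by
    apply hκ
    have : algebraMap E Ω (κ c) * τ' b' ^ N = algebraMap E Ω (κ (c₂ ^ N)) * τ' b' ^ N := by
      rw [← h, h1, mul_pow, map_pow, map_pow]
    exact mul_right_cancel₀ (pow_ne_zero _ hb'0) this
  have hbb : b = b' := by
    refine hT b hb b' hb' ⟨c₂, τ'.trans τ.symm, hc₂0, ?_⟩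
    have := congrArg τ.symm h1
    rw [AlgEquiv.symm_apply_apply, map_mul, AlgEquiv.commutes] at this
    exact this
  subst hbb
  refine ⟨rfl, ?_⟩
  -- `σ b = c₂ b`
  set σ : Ω ≃ₐ[E] Ω := τ.trans τ'.symm with hσ
  have h2 : σ b = algebraMap E Ω (κ c₂) * b := by
    have := congrArg τ'.symm h1
    rw [map_mul, AlgEquiv.commutes, AlgEquiv.symm_apply_apply] at this
    exact this
  have h3 : ∀ j : ℕ, algebraMap E Ω (κ c₂) ^ j * b ∈ A := by
    intro j
    induction j with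
    | zero => rw [pow_zero, one_mul]; exact hTA hb
    | succ j ih =>
      have h4 := hAs _ ih σ
      rw [map_mul, map_pow, AlgEquiv.commutes, h2, ← mul_assoc, ← pow_succ] at h4
      exact h4
  obtain ⟨i, j, hij, hfe⟩ := Finite.exists_ne_map_eq_of_infinite
    (fun j : ℕ => (⟨algebraMap E Ω (κ c₂) ^ j * b, h3 j⟩ : A))
  have h5 : algebraMap E Ω (κ c₂) ^ i = algebraMap E Ω (κ c₂) ^ j :=
    mul_right_cancel₀ hb0 (congrArg Subtype.val hfe)
  have hz : algebraMap E Ω (κ c₂) ≠ 0 := by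
    rw [ne_eq, map_eq_zero, map_eq_zero]
    exact hc₂0
  have h6 : ∃ n : ℕ, 1 ≤ n ∧ algebraMap E Ω (κ c₂) ^ n = 1 := by
    rcases lt_or_gt_of_ne hij with hlt | hlt
    · refine ⟨j - i, by omega, ?_⟩
      apply mul_left_cancel₀ (pow_ne_zero i hz)
      rw [← pow_add, Nat.add_sub_cancel' hlt.le, mul_one, h5]
    · refine ⟨i - j, by omega, ?_⟩
      apply mul_left_cancel₀ (pow_ne_zero j hz)
      rw [← pow_add, Nat.add_sub_cancel' hlt.le, mul_one, h5]
  obtain ⟨n, hn1, hn⟩ := h6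
  have h7 : (algebraMap E Ω (κ c₂) * b) ^ N = b ^ N := by
    refine hN _ ?_ _ (hTA hb) ⟨n, hn1, by rw [mul_pow, hn, one_mul]⟩
    have := h3 1
    rwa [pow_one] at this
  rw [mul_pow] at h7
  have h8 : algebraMap E Ω (κ c₂) ^ N = 1 := by
    apply mul_right_cancel₀ (pow_ne_zero N hb0)
    rw [h7, one_mul]
  apply hκ
  rw [hc2N, map_pow, map_one]
  exact h8

/-- the polynomial `G` -/
theorem core (κ : k →+* E) (A : Finset Ω) (hA0 : ∀ a ∈ A, a ≠ 0)
    (hAi : ∀ a ∈ A, IsIntegral R a) (hAs : ∀ a ∈ A, ∀ τ : Ω ≃ₐ[E] Ω, τ a ∈ A) (hne : A.Nonempty) :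
    ∃ (N : ℕ) (G : R[X]), 1 ≤ N ∧ G.Monic ∧ 1 ≤ G.natDegree ∧ G.coeff 0 ≠ 0 ∧
      (G.map (algebraMap R E)).Separable ∧
      (∀ x : Ω, aeval x G = 0 → ∃ a ∈ A, x = a ^ N) ∧
      (∀ (c : k) (x y : Ω), c ≠ 0 → aeval x G = 0 → aeval y G = 0 →
        x = algebraMap E Ω (κ c) * y → c = 1) ∧
      ∀ a ∈ A, ∃ (c : k) (y : Ω), c ≠ 0 ∧ aeval y G = 0 ∧
        a ^ N = algebraMap E Ω (κ (c ^ N)) * y := by
  classical
  obtain ⟨N, hN1, hN⟩ := exists_N A
  obtain ⟨T, hTA, hT, hTr⟩ := exists_reps A (rel κ) (rel_refl κ) (rel_symm κ)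
  have hint : ∀ b ∈ T, IsIntegral R (b ^ N) := fun b hb => (hAi b (hTA hb)).pow N
  have hmp : ∀ b ∈ T, minpoly E (b ^ N) = (minpoly R (b ^ N)).map (algebraMap R E) := fun b hb =>
    minpoly.isIntegrallyClosed_eq_field_fractions' E (hint b hb)
  have hintE : ∀ b ∈ T, IsIntegral E (b ^ N) := fun b hb => (hint b hb).tower_top
  have hinj : Function.Injective (algebraMap R Ω) := by
    rw [IsScalarTower.algebraMap_eq R E Ω]
    exact (algebraMap E Ω).injective.comp (IsFractionRing.injective R E)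
  -- the roots of `G`
  have hroot : ∀ x : Ω, aeval x (∏ b ∈ T, minpoly R (b ^ N)) = 0 →
      ∃ b ∈ T, ∃ τ : Ω ≃ₐ[E] Ω, x = τ b ^ N := by
    intro x hx
    rw [map_prod, Finset.prod_eq_zero_iff] at hx
    obtain ⟨b, hb, hx⟩ := hx
    have h1 : aeval x (minpoly E (b ^ N)) = 0 := by
      rw [hmp b hb, aeval_map_algebraMap]
      exact hx
    have h2 : IsConjRoot E (b ^ N) x := (isConjRoot_iff_aeval_eq_zero (hintE b hb)).2 h1
    obtain ⟨σ, hσ⟩ := isConjRoot_iff_exists_algEquiv.1 h2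
    refine ⟨b, hb, σ.symm, ?_⟩
    rw [← map_pow, ← hσ, AlgEquiv.symm_apply_apply]
  refine ⟨N, ∏ b ∈ T, minpoly R (b ^ N), hN1,
    monic_prod_of_monic _ _ fun b hb => minpoly.monic (hint b hb), ?_, ?_, ?_, ?_, ?_, ?_⟩
  · obtain ⟨a, ha⟩ := hne
    obtain ⟨b, hb, -⟩ := hTr a ha
    rw [natDegree_prod_of_monic _ _ fun b hb => minpoly.monic (hint b hb)]
    refine le_trans ?_ (Finset.single_le_sum (f := fun b => (minpoly R (b ^ N)).natDegree)
      (fun _ _ => Nat.zero_le _) hb)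
    exact minpoly.natDegree_pos (hint b hb)
  · rw [coeff_zero_prod]
    refine Finset.prod_ne_zero_iff.2 fun b hb => ?_
    intro h0
    refine minpoly.coeff_zero_ne_zero (hintE b hb) (pow_ne_zero N (hA0 b (hTA hb))) ?_
    rw [hmp b hb, coeff_map, h0, map_zero]
  · rw [Polynomial.map_prod]
    refine separable_prod' ?_ ?_
    · intro b hb b' hb' hbb
      rw [← hmp b hb, ← hmp b' hb', isCoprime_iff_aeval_ne_zero_of_isAlgClosed E Ω]
      intro x
      by_contra hcon
      rw [not_or, not_not, not_not] at hcon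
      obtain ⟨h1, h2⟩ := hcon
      obtain ⟨σ, hσ⟩ := isConjRoot_iff_exists_algEquiv.1
        ((isConjRoot_iff_aeval_eq_zero (hintE b hb)).2 h1)
      obtain ⟨σ', hσ'⟩ := isConjRoot_iff_exists_algEquiv.1
        ((isConjRoot_iff_aeval_eq_zero (hintE b' hb')).2 h2)
      apply hbb
      refine (key κ A hA0 hAs N hN1 hN T hTA hT b hb b' hb' σ.symm σ'.symm 1 ?_).1
      rw [map_one, map_one, one_mul, ← map_pow, ← map_pow, ← hσ, ← hσ', AlgEquiv.symm_apply_apply,
        AlgEquiv.symm_apply_apply]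
    · intro b hb
      rw [← hmp b hb]
      exact (minpoly.irreducible (hintE b hb)).separable
  · intro x hx
    obtain ⟨b, hb, τ, rfl⟩ := hroot x hx
    exact ⟨τ b, hAs b (hTA hb) τ, rfl⟩
  · intro c x y _ hx hy hxy
    obtain ⟨b, hb, τ, rfl⟩ := hroot x hx
    obtain ⟨b', hb', τ', rfl⟩ := hroot y hy
    exact (key κ A hA0 hAs N hN1 hN T hTA hT b hb b' hb' τ τ' c hxy).2
  · intro a ha
    obtain ⟨b, hb, c, τ, hc, hab⟩ := hTr a ha
    refine ⟨c, τ b ^ N, hc, ?_, ?_⟩
    · rw [map_prod]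
      refine Finset.prod_eq_zero hb ?_
      have h1 : aeval (τ b ^ N) (minpoly E (b ^ N)) = 0 := by
        rw [← map_pow]
        refine (isConjRoot_iff_aeval_eq_zero (hintE b hb)).1 ?_
        exact isConjRoot_iff_exists_algEquiv.2 ⟨τ.symm, AlgEquiv.symm_apply_apply τ _⟩
      rw [hmp b hb, aeval_map_algebraMap] at h1
      exact h1
    · rw [hab, mul_pow, map_pow, map_pow]

end core

theorem exists_list {α : Type*} (s : Multiset α) :
    ∃ a : Fin s.card → α, (Finset.univ : Finset (Fin s.card)).val.map a = s := by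
  refine Quot.inductionOn s fun l => ⟨l.get, ?_⟩
  change (Finset.univ : Finset (Fin l.length)).val.map l.get = (l : Multiset α)
  rw [Fin.univ_val_map, List.ofFn_get]

theorem exists_roots {Ω : Type*} [Field Ω] [IsAlgClosed Ω] (P : Polynomial Ω) (hP : P.Monic) (n : ℕ)
    (hn : P.natDegree = n) : ∃ a : Fin n → Ω, P = ∏ i, (X - C (a i)) := by
  have h1 := (IsAlgClosed.splits P).natDegree_eq_card_roots
  have h2 := (IsAlgClosed.splits P).eq_prod_roots_of_monic hP
  rw [hn] at h1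
  subst h1
  obtain ⟨a, ha⟩ := exists_list P.roots
  refine ⟨a, ?_⟩
  conv_lhs => rw [h2, ← ha]
  rw [Multiset.map_map]
  rfl

theorem prod_scaleRoots {Ω : Type*} [Field Ω] {ι : Type*} (s : Finset ι) (f : ι → Polynomial Ω) (r : Ω) :
    (∏ i ∈ s, f i).scaleRoots r = ∏ i ∈ s, (f i).scaleRoots r := by
  classical
  induction s using Finset.induction_on with
  | empty => simp
  | insert a s ha ih => rw [prod_insert ha, prod_insert ha, mul_scaleRoots_of_noZeroDivisors, ih]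

section main

variable {Z k E Ω : Type} [CommRing Z] [IsDomain Z] [IsIntegrallyClosed Z] [CharZero Z]
  [Field k] [IsAlgClosed k] [Algebra Z k] [IsFractionRing Z k]
  [Field E] [Algebra Z[X] E] [IsFractionRing Z[X] E] [Field Ω] [IsAlgClosed Ω] [Algebra E Ω]
  [Normal E Ω] [Algebra Z[X] Ω] [IsScalarTower Z[X] E Ω]

variable (Z E) in
theorem inj0 : Function.Injective ((algebraMap Z[X] E).comp C) := by
  rw [RingHom.coe_comp]
  exact (IsFractionRing.injective Z[X] E).comp C_injective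

variable (Z k E) in
/-- the constants -/
noncomputable def kap : k →+* E := IsFractionRing.lift (inj0 Z E)

theorem kap_apply (z : Z) : kap Z k E (algebraMap Z k z) = algebraMap Z[X] E (C z) :=
  IsFractionRing.lift_algebraMap (inj0 Z E) z

variable (Z k E) in
/-- the polynomials over the constants -/
noncomputable def ph : k[X] →+* E := eval₂RingHom (kap Z k E) (algebraMap Z[X] E X)

theorem ph_C (c : k) : ph Z k E (C c) = kap Z k E c := by
  simp [ph]

theorem ph_comp : (ph Z k E).comp (mapRingHom (algebraMap Z k)) = algebraMap Z[X] E := by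
  refine Polynomial.ringHom_ext (fun a => ?_) ?_
  · rw [RingHom.comp_apply, coe_mapRingHom, map_C, ph_C, kap_apply]
  · rw [RingHom.comp_apply, coe_mapRingHom, map_X]
    simp [ph]

theorem ph_inj : Function.Injective (ph Z k E) := by
  rw [injective_iff_map_eq_zero]
  intro P hP
  obtain ⟨b, hbm, hb⟩ := IsLocalization.integerNormalization_spec (nonZeroDivisors Z) P
  have h1 : ph Z k E (b • P) = 0 := by
    have h2 : (b • P : k[X]) = C (algebraMap Z k b) * P := by
      rw [← Polynomial.smul_eq_C_mul, algebraMap_smul]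
    rw [h2, map_mul, hP, mul_zero]
  rw [← hb] at h1
  have h3 := congrArg (fun f => f (IsLocalization.integerNormalization (nonZeroDivisors Z) P))
    (ph_comp (Z := Z) (k := k) (E := E))
  simp only [RingHom.comp_apply, coe_mapRingHom] at h3
  rw [h1] at h3
  have h4 : IsLocalization.integerNormalization (nonZeroDivisors Z) P = 0 :=
    (IsFractionRing.injective Z[X] E) (by rw [map_zero]; exact h3.symm)
  rw [h4, Polynomial.map_zero] at hb
  have h5 : (b • P : k[X]) = C (algebraMap Z k b) * P := by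
    rw [← Polynomial.smul_eq_C_mul, algebraMap_smul]
  rw [h5] at hb
  rcases mul_eq_zero.1 hb.symm with h6 | h6
  · rw [C_eq_zero] at h6
    have h7 : b = 0 := (IsFractionRing.injective Z k) (by rw [map_zero]; exact h6)
    exact absurd h7 (nonZeroDivisors.ne_zero hbm)
  · exact h6

end main

theorem main (Z k E Ω : Type) [CommRing Z] [IsDomain Z] [IsIntegrallyClosed Z] [CharZero Z]
    [Field k] [IsAlgClosed k] [Algebra Z k] [IsFractionRing Z k]
    [Field E] [Algebra Z[X] E] [IsFractionRing Z[X] E] [Field Ω] [IsAlgClosed Ω] [Algebra E Ω]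
    [Normal E Ω] [Algebra Z[X] Ω] [IsScalarTower Z[X] E Ω] (F : ℤ[X][X]) (hF : F.Monic) (hdeg : 1 ≤ F.natDegree) (hF0 : F.coeff 0 ≠ 0) :
    ∃ (N : ℕ) (G : Z[X][X]), 1 ≤ N ∧ G.Monic ∧ 1 ≤ G.natDegree ∧ G.coeff 0 ≠ 0 ∧
      (∀ y : Ω, (G.map (algebraMap Z[X] Ω)).eval y = 0 → ∃ a : Ω, y = a ^ N ∧
        ((F.map (mapRingHom (algebraMap ℤ Z))).map (algebraMap Z[X] Ω)).eval a = 0) ∧
      resultant (G.map (mapRingHom (algebraMap Z k)))
        (derivative (G.map (mapRingHom (algebraMap Z k)))) ≠ 0 ∧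
      (∀ c : k, c ≠ 0 → c ≠ 1 → resultant (G.map (mapRingHom (algebraMap Z k)))
        ((G.map (mapRingHom (algebraMap Z k))).scaleRoots (C c)) ≠ 0) ∧
      ∃ c : Fin F.natDegree → k, (∀ i, c i ≠ 0) ∧ ∀ (D : Z) (θ : Fin F.natDegree → Z),
        (∀ i, algebraMap Z k (θ i) = (algebraMap Z k D * c i) ^ N) →
        (F.map (mapRingHom (algebraMap ℤ Z))).scaleRoots (C D) ∣
          expand Z[X] N (∏ j, G.scaleRoots (C (θ j))) := by
  classical
  have hinjE : Function.Injective (algebraMap Z[X] E) := IsFractionRing.injective _ _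
  have hinjΩ : Function.Injective (algebraMap Z[X] Ω) := by
    rw [IsScalarTower.algebraMap_eq Z[X] E Ω]
    exact (algebraMap E Ω).injective.comp hinjE
  have : CharZero E := charZero_of_injective_algebraMap hinjE
  have hcZ : Function.Injective (mapRingHom (algebraMap ℤ Z)) := by
    rw [coe_mapRingHom]
    exact Polynomial.map_injective _ (RingHom.injective_int _)
  set F' : Z[X][X] := F.map (mapRingHom (algebraMap ℤ Z)) with hF'
  have hF'm : F'.Monic := hF.map _
  have hF'd : F'.natDegree = F.natDegree := hF.natDegree_map _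
  have hF'0 : F'.coeff 0 ≠ 0 := by
    rw [hF', coeff_map]
    exact (map_ne_zero_iff _ hcZ).2 hF0
  -- roots
  obtain ⟨a, ha⟩ := exists_roots (F'.map (algebraMap Z[X] Ω)) (hF'm.map _) F.natDegree
    (by rw [hF'm.natDegree_map, hF'd])
  have haev : ∀ x : Ω, aeval x F' = 0 ↔ ∃ i, a i = x := by
    intro x
    rw [← eval_map_algebraMap, ha, eval_prod, Finset.prod_eq_zero_iff]
    simp [sub_eq_zero, eq_comm]
  set A : Finset Ω := univ.image a with hAdef
  have hmem : ∀ x : Ω, x ∈ A ↔ aeval x F' = 0 := by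
    intro x
    rw [haev, hAdef, mem_image]
    simp
  have hA0 : ∀ x ∈ A, x ≠ 0 := by
    rintro x hx rfl
    have h1 := (hmem 0).1 hx
    rw [← coeff_zero_eq_aeval_zero'] at h1
    exact hF'0 (hinjΩ (by rw [h1, map_zero]))
  have hAi : ∀ x ∈ A, IsIntegral Z[X] x := fun x hx => ⟨F', hF'm, (hmem x).1 hx⟩
  have hAs : ∀ x ∈ A, ∀ τ : Ω ≃ₐ[E] Ω, τ x ∈ A := by
    intro x hx τ
    rw [hmem] at hx ⊢
    have h1 := aeval_algHom_apply ((τ : Ω →ₐ[E] Ω).restrictScalars Z[X]) x F'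
    rw [hx, map_zero] at h1
    exact h1
  obtain ⟨N, G, hN, hGm, hGd, hG0, hsep, hrt, hconst, hA⟩ := core (R := Z[X]) (kap Z k E) A hA0 hAi hAs
    ⟨a ⟨0, hdeg⟩, mem_image_of_mem a (mem_univ _)⟩
  set Gk := G.map (mapRingHom (algebraMap Z k)) with hGk
  have hGkm : Gk.Monic := hGm.map _
  have hmapφ : Gk.map (ph Z k E) = G.map (algebraMap Z[X] E) := by
    rw [hGk, Polynomial.map_map, ph_comp]
  have hres : ∀ P : k[X][X], IsCoprime (Gk.map (ph Z k E)) (P.map (ph Z k E)) →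
      resultant Gk P ≠ 0 := by
    intro P hP h0
    apply resultant_ne_zero _ _ hP
    rw [natDegree_map_eq_of_injective ph_inj, natDegree_map_eq_of_injective ph_inj,
      resultant_map_map, h0, map_zero]
  refine ⟨N, G, hN, hGm, hGd, hG0, ?_, ?_, ?_, ?_⟩
  · intro y hy
    rw [eval_map_algebraMap] at hy
    obtain ⟨x, hx, hxy⟩ := hrt y hy
    refine ⟨x, hxy, ?_⟩
    rw [eval_map_algebraMap]
    exact (hmem x).1 hx
  · apply hres
    rw [← derivative_map, hmapφ]
    exact hsep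
  · intro c hc0 hc1
    apply hres
    rw [map_scaleRoots _ _ _ (by rw [hGkm.leadingCoeff, map_one]; exact one_ne_zero), hmapφ, ph_C,
      isCoprime_iff_aeval_ne_zero_of_isAlgClosed E Ω]
    intro x
    by_contra hcon
    rw [not_or, not_not, not_not] at hcon
    obtain ⟨h1, h2⟩ := hcon
    have hz : algebraMap E Ω (kap Z k E c) ≠ 0 := by
      rw [ne_eq, map_eq_zero, map_eq_zero]
      exact hc0
    have h3 : aeval (x / algebraMap E Ω (kap Z k E c)) (G.map (algebraMap Z[X] E)) = 0 := by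
      have h4 := scaleRoots_eval₂_mul (p := G.map (algebraMap Z[X] E)) (algebraMap E Ω)
        (x / algebraMap E Ω (kap Z k E c)) (kap Z k E c)
      rw [mul_div_cancel₀ _ hz, ← aeval_def, h2] at h4
      rcases mul_eq_zero.1 h4.symm with h5 | h5
      · exact absurd (eq_zero_of_pow_eq_zero h5) hz
      · exact h5
    refine hc1 (hconst c x (x / algebraMap E Ω (kap Z k E c)) hc0 ?_ ?_ ?_)
    · rwa [aeval_map_algebraMap] at h1
    · rwa [aeval_map_algebraMap] at h3
    · rw [mul_div_cancel₀ _ hz]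
  · have hch : ∀ i, ∃ (c : k) (y : Ω), c ≠ 0 ∧ aeval y G = 0 ∧
        a i ^ N = algebraMap E Ω (kap Z k E (c ^ N)) * y :=
      fun i => hA (a i) (mem_image_of_mem a (mem_univ i))
    choose c y hc hy hcy using hch
    refine ⟨c, hc, fun D θ hθ => ?_⟩
    have hcom : ∀ z : Z, algebraMap Z[X] Ω (C z) =
        algebraMap E Ω (kap Z k E (algebraMap Z k z)) := by
      intro z
      rw [kap_apply, ← IsScalarTower.algebraMap_apply]
    rw [← Polynomial.map_dvd_map (algebraMap Z[X] Ω) hinjΩ ((monic_scaleRoots_iff _).2 hF'm),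
      map_scaleRoots _ _ _ (by rw [hF'm.leadingCoeff, map_one]; exact one_ne_zero), ha,
      prod_scaleRoots, map_expand, Polynomial.map_prod, map_prod (expand Ω N)]
    refine Finset.prod_dvd_prod_of_dvd _ _ fun i _ => ?_
    rw [map_scaleRoots _ _ _ (by rw [hGm.leadingCoeff, map_one]; exact one_ne_zero),
      X_sub_C_scaleRoots, dvd_iff_isRoot, IsRoot.def, expand_eval]
    have h1 : (algebraMap Z[X] Ω (C D) * a i) ^ N = algebraMap Z[X] Ω (C (θ i)) * y i := by
      rw [mul_pow, hcy, hcom, hcom, hθ, ← mul_assoc, ← map_pow, ← map_pow, ← map_mul, ← map_mul,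
        mul_pow]
    rw [mul_comm (a i), h1, scaleRoots_eval_mul, eval_map_algebraMap, hy, mul_zero]

end RZB2

/-- RZB2 -/
theorem prRZB2 (hWTG : StWTG) : StRZB2 := by
  intro F e hF hdeg hF0 hW
  have halgQ : Algebra.IsAlgebraic ℚ Ab := AlgebraicClosure.isAlgebraic ℚ
  have halg : Algebra.IsAlgebraic ℤ Ab :=
    (IsFractionRing.comap_isAlgebraic_iff (A := ℤ) (K := ℚ) (C := Ab)).2 halgQ
  have hfr : IsFractionRing Zb Ab :=
    integralClosure.isFractionRing_of_algebraic (fun x h => by simpa using h)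
  have hic : IsIntegrallyClosed Zb := (isIntegrallyClosed_iff_isIntegrallyClosedIn Ab).2 inferInstance
  obtain ⟨N, G, hN, hGm, hGd, hG0, hrt, h1, h2, c, hc, hdvd⟩ :=
    RZB2.main Zb Ab (FractionRing Zb[X]) (AlgebraicClosure (FractionRing Zb[X])) F hF hdeg hF0
  classical
  obtain ⟨y, hy, hint⟩ := Algebra.IsAlgebraic.exists_integral_multiples ℤ (univ.image c)
  have hD : ∀ i, IsIntegral ℤ ((y.natAbs : Ab) * c i) := by
    intro i
    have h3 := hint (c i) (mem_image_of_mem c (mem_univ i))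
    rw [zsmul_eq_mul] at h3
    rcases Int.natAbs_eq y with h4 | h4
    · rw [h4] at h3
      simpa using h3
    · rw [h4] at h3
      have h5 := h3.neg
      simpa using h5
  have hθ : ∀ i, IsIntegral ℤ (((y.natAbs : Ab) * c i) ^ N) := fun i => (hD i).pow N
  refine ⟨N, y.natAbs, F.natDegree, G.natDegree - 1, fun i => ⟨_, hθ i⟩, G, hN,
    Nat.one_le_iff_ne_zero.2 (Int.natAbs_ne_zero.2 hy), ?_, hGm, by omega, hG0, ?_, h1, h2, ?_⟩
  · intro j h0
    have h3 := congrArg Subtype.val h0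
    have h4 : ((y.natAbs : Ab) * c j) ^ N = 0 := h3
    rcases mul_eq_zero.1 (eq_zero_of_pow_eq_zero h4) with h5 | h5
    · rw [Nat.cast_eq_zero, Int.natAbs_eq_zero] at h5
      exact hy h5
    · exact hc j h5
  · refine hWTG Zb e N (F.map (mapRingHom (algebraMap ℤ Zb))) G (hF.map _) hGm ?_ hrt
    intro i
    rw [hF.natDegree_map, coeff_map, coe_mapRingHom]
    exact (natDegree_map_le).trans (hW i)
  · refine hdvd _ _ fun i => ?_
    rw [map_natCast]
    rfl

end Pool.Agent.Work.MP_8d13b5_lc.Fm
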