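import Pool.Agent.Work.MP_8d13b5_lc.Fm.StmtsHom

set_option autoImplicit false

/-! Weights of divisors (item WDV2). -/

namespace Pool.Agent.Work.MP_8d13b5_lc.Fm

open Polynomial NumberField Finset Module

namespace WDV2

theorem coeff_swap {R : Type} [CommRing R] (p : R[X][X]) (i j : ℕ) :
    ((Bivariate.swap p).coeff i).coeff j = (p.coeff j).coeff i := by
  induction p using Polynomial.induction_on' with
  | add p q hp hq => rw [map_add, coeff_add, coeff_add, coeff_add, coeff_add, hp, hq]
  | monomial n f =>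
    induction f using Polynomial.induction_on' with
    | add f g hf hg =>
      rw [map_add, map_add, coeff_add, coeff_add, coeff_add, coeff_add, hf, hg]
    | monomial m r =>
      rw [Bivariate.swap_monomial_monomial, coeff_monomial, coeff_monomial]
      by_cases h1 : m = i
      · by_cases h2 : n = j
        · rw [if_pos h1, if_pos h2, coeff_monomial, coeff_monomial, if_pos h1, if_pos h2]
        · rw [if_pos h1, if_neg h2, coeff_monomial, if_neg h2, coeff_zero]
      · by_cases h2 : n = j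
        · rw [if_neg h1, if_pos h2, coeff_monomial, if_neg h1, coeff_zero]
        · rw [if_neg h1, if_neg h2, coeff_zero, coeff_zero]

/-- the largest degree in `t` of the coefficients of `P(t, t ^ e X)` -/
noncomputable def dg {R : Type} [CommRing R] (e : ℕ) (P : R[X][X]) : ℕ :=
  (Bivariate.swap (P.comp (C (X ^ e) * X))).natDegree

theorem dg_le_iff {R : Type} [CommRing R] (e N : ℕ) (P : R[X][X]) :
    dg e P ≤ N ↔ ∀ i, (P.coeff i * (X ^ e) ^ i).natDegree ≤ N := by
  unfold dg
  rw [natDegree_le_iff_coeff_eq_zero]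
  constructor
  · intro h i
    rw [natDegree_le_iff_coeff_eq_zero]
    intro j hj
    have h2 := congrArg (fun q => q.coeff i) (h j hj)
    simp only [coeff_zero, coeff_swap, comp_C_mul_X_coeff] at h2
    exact h2
  · intro h j hj
    ext i
    rw [coeff_swap, comp_C_mul_X_coeff, coeff_zero]
    exact coeff_eq_zero_of_natDegree_lt ((h i).trans_lt hj)

theorem ne {R : Type} [CommRing R] [IsDomain R] (e : ℕ) (P : R[X][X]) (hP : P ≠ 0) :
    Bivariate.swap (P.comp (C (X ^ e) * X)) ≠ 0 := by
  intro h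
  apply hP
  have h1 : P.comp (C (X ^ e) * X) = 0 := by
    have h3 := congrArg Bivariate.swap h
    rwa [Bivariate.swap_swap_apply, map_zero] at h3
  ext1 i
  have h2 := congrArg (fun q => q.coeff i) h1
  simp only [coeff_zero, comp_C_mul_X_coeff] at h2
  rw [coeff_zero]
  rcases mul_eq_zero.1 h2 with h4 | h4
  · exact h4
  · exact absurd h4 (pow_ne_zero _ (pow_ne_zero _ X_ne_zero))

theorem dg_mul {R : Type} [CommRing R] [IsDomain R] (e : ℕ) (P Q : R[X][X]) (hP : P ≠ 0)
    (hQ : Q ≠ 0) : dg e (P * Q) = dg e P + dg e Q := by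
  unfold dg
  rw [mul_comp, map_mul, natDegree_mul (ne e P hP) (ne e Q hQ)]

theorem le_dg {R : Type} [CommRing R] [IsDomain R] (e : ℕ) (P : R[X][X]) (hP : P.Monic) :
    e * P.natDegree ≤ dg e P := by
  have h := (dg_le_iff e (dg e P) P).1 le_rfl P.natDegree
  rwa [hP.coeff_natDegree, one_mul, ← pow_mul, natDegree_X_pow] at h

theorem wt_of_dg {R : Type} [CommRing R] [IsDomain R] (e : ℕ) (P : R[X][X])
    (h : dg e P ≤ e * P.natDegree) : Wt e P := by
  intro i
  by_cases h0 : P.coeff i = 0
  · rw [h0, natDegree_zero]; exact Nat.zero_le _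
  have h1 := (dg_le_iff e _ P).1 h i
  rw [natDegree_mul h0 (pow_ne_zero _ (pow_ne_zero _ X_ne_zero)), ← pow_mul,
    natDegree_X_pow] at h1
  rw [Nat.mul_sub]
  exact Nat.le_sub_of_add_le h1

theorem dg_of_wt {R : Type} [CommRing R] [IsDomain R] (e : ℕ) (P : R[X][X])
    (h : Wt e P) : dg e P ≤ e * P.natDegree := by
  rw [dg_le_iff]
  intro i
  by_cases h0 : P.coeff i = 0
  · rw [h0, zero_mul, natDegree_zero]; exact Nat.zero_le _
  have h2 : i ≤ P.natDegree := le_natDegree_of_ne_zero h0
  rw [natDegree_mul h0 (pow_ne_zero _ (pow_ne_zero _ X_ne_zero)), ← pow_mul, natDegree_X_pow]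
  have h3 := h i
  have h4 := Nat.mul_le_mul_left e h2
  rw [Nat.mul_sub] at h3
  exact Nat.add_le_of_le_sub h4 h3

end WDV2

theorem prWDV2 : StWDV2 := by
  intro R _ _ e F G hF hG hw hd
  obtain ⟨G', rfl⟩ := hd
  have hG' : G'.Monic := hG.of_mul_monic_left hF
  apply WDV2.wt_of_dg
  have h1 := WDV2.dg_of_wt e _ hw
  rw [WDV2.dg_mul e G G' hG.ne_zero hG'.ne_zero, hG.natDegree_mul hG', Nat.mul_add] at h1
  have h2 := WDV2.le_dg e G' hG'
  omega

end Pool.Agent.Work.MP_8d13b5_lc.Fm
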