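import Pool.Agent.Work.MP_8d13b5_lc.Fm.StmtsHom

set_option autoImplicit false

/-! Item WTG: weights of the power family, with the valuation at infinity. -/

namespace Pool.Agent.Work.MP_8d13b5_lc.Fm

open Polynomial NumberField Finset Module

namespace WTG

open scoped NNReal

open Classical in
/-- the degree valuation -/
noncomputable def dv (R : Type) [CommRing R] [IsDomain R] : Valuation R[X] ℝ≥0 where
  toFun f := if f = 0 then 0 else 2 ^ f.natDegree
  map_zero' := by simp
  map_one' := by simp
  map_mul' f g := by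
    by_cases hf : f = 0
    · simp [hf]
    by_cases hg : g = 0
    · simp [hg]
    rw [if_neg (mul_ne_zero hf hg), if_neg hf, if_neg hg, natDegree_mul hf hg, pow_add]
  map_add_le_max' f g := by
    by_cases hfg : f + g = 0
    · simp [hfg]
    by_cases hf : f = 0
    · simp [hf]
    by_cases hg : g = 0
    · simp [hg]
    rw [if_neg hfg, if_neg hf, if_neg hg]
    have h := natDegree_add_le f g
    rcases le_max_iff.1 h with h | h
    · exact le_max_of_le_left (pow_le_pow_right₀ one_le_two h)
    · exact le_max_of_le_right (pow_le_pow_right₀ one_le_two h)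

theorem dv_ne {R : Type} [CommRing R] [IsDomain R] {f : R[X]} (hf : f ≠ 0) :
    dv R f = 2 ^ f.natDegree := if_neg hf

theorem dv_le_iff {R : Type} [CommRing R] [IsDomain R] (f : R[X]) (n : ℕ) :
    dv R f ≤ 2 ^ n ↔ f.natDegree ≤ n := by
  by_cases hf : f = 0
  · rw [hf, map_zero, natDegree_zero]
    simp
  · rw [dv_ne hf]
    exact pow_le_pow_iff_right₀ one_lt_two

theorem hS (R : Type) [CommRing R] [IsDomain R] :
    nonZeroDivisors R[X] ≤ (dv R).supp.primeCompl := by
  intro f hf hmem
  have h0 : f ≠ 0 := nonZeroDivisors.ne_zero hf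
  have h1 : dv R f = 0 := hmem
  rw [dv_ne h0] at h1
  exact absurd h1 (by positivity)

/-- the valuation at infinity of the fraction field -/
noncomputable def vL (R : Type) [CommRing R] [IsDomain R] :
    Valuation (FractionRing R[X]) ℝ≥0 :=
  (dv R).extendToLocalization (hS R) (FractionRing R[X])

theorem vL_map (R : Type) [CommRing R] [IsDomain R] (f : R[X]) :
    vL R (algebraMap R[X] (FractionRing R[X]) f) = dv R f :=
  (dv R).extendToLocalization_apply_map_apply (hS R) _ f

/-- integral elements from a monic polynomial with integral coefficients -/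
theorem integral_of {L : Type} [Field L] (v : Valuation L ℝ≥0) {Ω : Type} [Field Ω] [Algebra L Ω]
    (P : L[X]) (hP : P.Monic) (hc : ∀ i, v (P.coeff i) ≤ 1) (z : Ω) (hz : aeval z P = 0) :
    IsIntegral v.integer z := by
  have hl : P ∈ lifts (algebraMap v.integer L) := by
    rw [lifts_iff_coeff_lifts]
    intro n
    exact ⟨⟨P.coeff n, hc n⟩, rfl⟩
  obtain ⟨q, hq, -, hqm⟩ := lifts_and_natDegree_eq_and_monic hl hP
  refine ⟨q, hqm, ?_⟩
  rw [IsScalarTower.algebraMap_eq v.integer L Ω, ← eval₂_map, hq]
  exact hz

theorem coeff_integral {S Ω : Type} [CommRing S] [Field Ω] [Algebra S Ω] (s : Multiset Ω) :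
    (∀ z ∈ s, IsIntegral S z) → ∀ i, IsIntegral S ((s.map fun a => X - C a).prod.coeff i) := by
  induction s using Multiset.induction_on with
  | empty =>
    intro _ i
    rw [Multiset.map_zero, Multiset.prod_zero, coeff_one]
    split_ifs
    · exact isIntegral_one
    · exact isIntegral_zero
  | cons a s ih =>
    intro h i
    have ih' := ih fun z hz => h z (Multiset.mem_cons_of_mem hz)
    have ha := h a (Multiset.mem_cons_self a s)
    rw [Multiset.map_cons, Multiset.prod_cons, sub_mul, coeff_sub, coeff_C_mul]
    refine IsIntegral.sub ?_ (ha.mul (ih' i))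
    rcases i with _ | i
    · rw [mul_coeff_zero, coeff_X_zero, zero_mul]
      exact isIntegral_zero
    · rw [coeff_X_mul]
      exact ih' i

/-- the core -/
theorem core (R : Type) [CommRing R] [IsDomain R] (e N : ℕ) (F G : R[X][X]) (hF : F.Monic)
    (hG : G.Monic) (hw : Wt e F)
    (hr : ∀ y : AlgebraicClosure (FractionRing R[X]),
      (G.map (algebraMap R[X] (AlgebraicClosure (FractionRing R[X])))).eval y = 0 →
      ∃ a : AlgebraicClosure (FractionRing R[X]), y = a ^ N ∧
        (F.map (algebraMap R[X] (AlgebraicClosure (FractionRing R[X])))).eval a = 0) :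
    Wt (e * N) G := by
  classical
  intro i
  set ι := algebraMap R[X] (FractionRing R[X]) with hι
  set j := algebraMap (FractionRing R[X]) (AlgebraicClosure (FractionRing R[X])) with hj
  have hcomp : algebraMap R[X] (AlgebraicClosure (FractionRing R[X])) = j.comp ι :=
    IsScalarTower.algebraMap_eq _ _ _
  have hinj : Function.Injective j := j.injective
  set s : FractionRing R[X] := (ι (X ^ e))⁻¹ with hs
  have hιX : ι (X ^ e) ≠ 0 := by
    rw [hι]
    intro h
    have := (IsFractionRing.injective R[X] (FractionRing R[X])) (h.trans (map_zero _).symm)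
    exact pow_ne_zero e X_ne_zero this
  have hs0 : s ≠ 0 := inv_ne_zero hιX
  have hvs : vL R s = (2 ^ e)⁻¹ := by
    rw [hs, map_inv₀, hι, vL_map, dv_ne (pow_ne_zero e X_ne_zero), natDegree_X_pow]
  -- the roots of F
  have hroot : ∀ a : AlgebraicClosure (FractionRing R[X]),
      (F.map (j.comp ι)).eval a = 0 → IsIntegral (vL R).integer (j s * a) := by
    intro a ha
    refine integral_of (vL R) ((F.map ι).scaleRoots s) ((monic_scaleRoots_iff s).2 (hF.map ι))
      ?_ _ ?_
    · intro k
      rw [coeff_scaleRoots, coeff_map, hF.natDegree_map, map_mul, map_pow, hvs, hι, vL_map]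
      have h1 := (dv_le_iff (F.coeff k) _).2 (hw k)
      calc dv R (F.coeff k) * ((2 ^ e)⁻¹) ^ (F.natDegree - k)
          ≤ 2 ^ (e * (F.natDegree - k)) * ((2 ^ e)⁻¹) ^ (F.natDegree - k) := by gcongr
        _ = 1 := by
          rw [pow_mul, ← mul_pow, mul_inv_cancel₀ (by positivity), one_pow]
    · have h2 : aeval a (F.map ι) = 0 := by
        rw [aeval_def, eval₂_map, ← eval_map]
        exact ha
      exact scaleRoots_aeval_eq_zero h2
  -- the scaled polynomial of G
  set P := (G.map ι).scaleRoots (s ^ N) with hP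
  have hPm : P.Monic := (monic_scaleRoots_iff _).2 (hG.map ι)
  have hPr : ∀ z ∈ (P.map j).roots, IsIntegral (vL R).integer z := by
    intro z hz
    have hz0 : (P.map j).eval z = 0 := (mem_roots'.1 hz).2
    have hsN : j (s ^ N) ≠ 0 := by
      rw [_root_.map_ne_zero]
      exact pow_ne_zero N hs0
    have hmap : P.map j = ((G.map ι).map j).scaleRoots (j (s ^ N)) := by
      rw [hP]
      refine map_scaleRoots _ _ _ ?_
      rw [(hG.map ι).leadingCoeff, map_one]
      exact one_ne_zero
    have hzz : z = j (s ^ N) * (z / j (s ^ N)) := by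
      rw [mul_div_cancel₀ _ hsN]
    rw [hmap, hzz, scaleRoots_eval_mul] at hz0
    have hy : (G.map (j.comp ι)).eval (z / j (s ^ N)) = 0 := by
      rcases mul_eq_zero.1 hz0 with h | h
      · exact absurd h (pow_ne_zero _ hsN)
      · rw [Polynomial.map_map] at h
        exact h
    obtain ⟨a, ha1, ha2⟩ := hr (z / j (s ^ N)) (by rw [hcomp]; exact hy)
    rw [hcomp] at ha2
    have hzN : z = (j s * a) ^ N := by
      rw [hzz, ha1, map_pow, mul_pow]
    rw [hzN]
    exact (hroot a ha2).pow N
  have hsp : (P.map j) = ((P.map j).roots.map fun a => X - C a).prod := by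
    have := (IsAlgClosed.splits (P.map j)).eq_prod_roots
    rw [(hPm.map j).leadingCoeff, C_1, one_mul] at this
    exact this
  have hint : IsIntegral (vL R).integer (j (P.coeff i)) := by
    rw [← coeff_map, hsp]
    exact coeff_integral _ hPr i
  have hint2 : IsIntegral (vL R).integer (P.coeff i) := (isIntegral_algebraMap_iff hinj).1 hint
  have hv : vL R (P.coeff i) ≤ 1 :=
    Valuation.Integers.mem_of_integral (Valuation.integer.integers (vL R)) hint2
  rw [hP, coeff_scaleRoots, coeff_map, hG.natDegree_map, map_mul, map_pow, map_pow, hvs, hι,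
    vL_map] at hv
  rw [← dv_le_iff]
  have h3 : dv R (G.coeff i) =
      dv R (G.coeff i) * (((2 ^ e)⁻¹) ^ N) ^ (G.natDegree - i) *
        2 ^ (e * N * (G.natDegree - i)) := by
    rw [mul_assoc, pow_mul, pow_mul, ← mul_pow, ← mul_pow, inv_mul_cancel₀ (by positivity),
      one_pow, one_pow, mul_one]
  rw [h3]
  exact mul_le_of_le_one_left (by positivity) hv

end WTG

theorem prWTG : StWTG := fun R _ _ e N F G hF hG hw hr => WTG.core R e N F G hF hG hw hr

end Pool.Agent.Work.MP_8d13b5_lc.Fm
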