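import Pool.Agent.Work.MP_8d13b5_lc.Fm.All4
import Pool.Agent.Work.MP_8d13b5_lc.Fm.I_RSC
import Pool.Agent.Work.MP_8d13b5_lc.Fm.I_KRZ
import Pool.Agent.Work.MP_8d13b5_lc.Fm.I_HEV
import Pool.Agent.Work.MP_8d13b5_lc.Fm.I_HB1
import Pool.Agent.Work.MP_8d13b5_lc.Fm.I_HB2
import Pool.Agent.Work.MP_8d13b5_lc.Fm.I_HB3
import Pool.Agent.Work.MP_8d13b5_lc.Fm.I_HPI
import Pool.Agent.Work.MP_8d13b5_lc.Fm.I_HDV
import Pool.Agent.Work.MP_8d13b5_lc.Fm.I_HNZ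
import Pool.Agent.Work.MP_8d13b5_lc.Fm.I_WDV2
import Pool.Agent.Work.MP_8d13b5_lc.Fm.I_WTG
import Pool.Agent.Work.MP_8d13b5_lc.Fm.I_UUG
import Pool.Agent.Work.MP_8d13b5_lc.Fm.I_HUU
import Pool.Agent.Work.MP_8d13b5_lc.Fm.I_HVE
import Pool.Agent.Work.MP_8d13b5_lc.Fm.I_HBZ
import Pool.Agent.Work.MP_8d13b5_lc.Fm.I_HLO
import Pool.Agent.Work.MP_8d13b5_lc.Fm.I_HTH
import Pool.Agent.Work.MP_8d13b5_lc.Fm.I_HIZ
import Pool.Agent.Work.MP_8d13b5_lc.Fm.I_HZY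
import Pool.Agent.Work.MP_8d13b5_lc.Fm.I_RDH
import Pool.Agent.Work.MP_8d13b5_lc.Fm.I_HNU
import Pool.Agent.Work.MP_8d13b5_lc.Fm.I_HDU
import Pool.Agent.Work.MP_8d13b5_lc.Fm.I_RZB2
import Pool.Agent.Work.MP_8d13b5_lc.Fm.I_RZH
import Pool.Agent.Work.MP_8d13b5_lc.Fm.I_HZR
import Pool.Agent.Work.MP_8d13b5_lc.Fm.I_HNR

set_option autoImplicit false

/-! The statements of `StmtsFz` and `StmtsHom`, proved without hypotheses. -/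

namespace Pool.Agent.Work.MP_8d13b5_lc.Fm

theorem aFNU : StFNU := zFNU prRSC
theorem aFDU : StFDU := zFDU prRSC
theorem aKRZ : StKRZ := prKRZ xXTH prCFD prVNZ
theorem aFNZ : StFNZ := zFNZ prRSC aKRZ
theorem aGRW : StGRW := zGRW

theorem hHB1 : StHB1 := prHB1 prHEV
theorem hHB2 : StHB2 := prHB2 prHEV prCFD hHB1
theorem hHB3 : StHB3 := prHB3 prHEV prCFD hHB1 hHB2
theorem hHPI : StHPI := prHPI prHEV hHB1
theorem hHDV : StHDV := prHDV prWDV2 hHB1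
theorem hHNZ : StHNZ := prHNZ prHEV
theorem hUUG : StUUG := prUUG xHNX prSNM prMUN prINV prUUA
theorem hHUU : StHUU := prHUU xXDI hUUG prPN prHEV prCFD hHB1 hHB3
theorem hHVE : StHVE := prHVE xXG2 hHUU prCRA prHDQ prPN hHB1 hHB2 hHB3
theorem hHBZ : StHBZ := prHBZ xCRS prPN prHEV
theorem hHLO : StHLO := prHLO prRTB prCFD prHEV hHB1 hHPI
theorem hHTH : StHTH := prHTH xXPI xXEE hHLO hHVE prCO3 xEN3 hHPI hHBZ hHNZ hHB1 prCFD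
theorem hHIZ : StHIZ := prHIZ hHTH
theorem hHZY : StHZY := prHZY hHIZ xADY hHB1
theorem hRDH : StRDH := prRDH (zTOR prRSC) prPOW prSQF prWTG
theorem hHNU : StHNU := prHNU hRDH hHDV hHB1 prSBY hHZY
theorem hHDU : StHDU := prHDU hHNU prDEC hHB1
theorem hRZH : StRZH := prRZH (prRZB2 prWTG) prRSC
theorem hHZR : StHZR := prHZR hHTH zADZ hHNZ hHB1 prHEV
theorem hHNR : StHNR := prHNR hRZH hHDV hHB1 prSBY hHZR prSQZ prINT

end Pool.Agent.Work.MP_8d13b5_lc.Fm
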