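import Pool.Agent.Work.MP_8d13b5_lc.Fm.StmtsEff
import Pool.Agent.Work.MP_8d13b5_lc.Fm.I_ADY

set_option autoImplicit false

/-! Item eADY of block EFF: the recurrence of `g ^ M`, with an effective constant. -/

namespace Pool.Agent.Work.MP_8d13b5_lc.Fm

open Polynomial NumberField Finset Module

namespace EADY

/-- a bound for the number of the columns -/
def P (x : ℕ) : ℕ := (x + 1) * (x + 1)

theorem P_tow : Tow P := (Tow.id.add (Tow.const 1)).mul (Tow.id.add (Tow.const 1))

theorem P_pos (x : ℕ) : 1 ≤ P x := Nat.mul_pos (Nat.succ_pos x) (Nat.succ_pos x)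

/-- the bound for the constant -/
def G (x : ℕ) : ℕ :=
  P x * (P x).factorial * (2 ^ (P x * P x) * P x ^ (x * P x)) + P x * P x + 1

theorem G_tow : Tow G :=
  (((P_tow.mul P_tow.fact).mul ((P_tow.mul P_tow).two_pow.mul
    (P_tow.pow (Tow.id.mul P_tow) P_pos))).add (P_tow.mul P_tow)).add (Tow.const 1)

theorem bound (m M : ℕ) :
    (m + 1) * M * ((m + 1) * M).factorial *
        (2 ^ ((m + 1) * M * ((m + 1) * M)) * ((m + 1) * M) ^ (M * ((m + 1) * M))) +
      (m + 1) * M * ((m + 1) * M) + 1 ≤ G (m + M) := by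
  have h1 : (m + 1) * M ≤ P (m + M) := Nat.mul_le_mul (by omega) (by omega)
  have h2 : M ≤ m + M := Nat.le_add_left _ _
  unfold G
  refine Nat.add_le_add (Nat.add_le_add (Nat.mul_le_mul (Nat.mul_le_mul h1
    (Nat.factorial_le h1)) (Nat.mul_le_mul ?_ ?_)) (Nat.mul_le_mul h1 h1)) le_rfl
  · exact Nat.pow_le_pow_right (by norm_num) (Nat.mul_le_mul h1 h1)
  · exact (Nat.pow_le_pow_left h1 _).trans
      (Nat.pow_le_pow_right (P_pos _) (Nat.mul_le_mul h2 h1))

end EADY

theorem peADY (h1 : StNPY) : SeADY := by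
  refine ⟨EADY.G, EADY.G_tow, ?_⟩
  intro m M hM
  set N : ℕ := (m + 1) * M with hN
  refine ⟨N * N.factorial * (2 ^ (N * N) * N ^ (M * N)) + N * N + 1, EADY.bound m M, ?_⟩
  intro g Y hg hd hY hc hv z B hz hzB
  have hN1 : 1 ≤ N := by
    rw [hN]
    exact Nat.one_le_iff_ne_zero.2 (Nat.mul_ne_zero (by omega) (by omega))
  have hY0 : (1 : ℤ) ≤ Y := by exact_mod_cast hY
  have hcard : Fintype.card (Fin (m + 1) × Fin M) = N := by
    rw [Fintype.card_prod, Fintype.card_fin, Fintype.card_fin]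
  have hc' : ∀ i, |g.coeff i| ≤ (Y : ℤ) := by
    intro i
    rw [Int.abs_eq_natAbs]
    exact_mod_cast hc i
  set A := ADY.Am m M g with hA
  set b : Fin (m + 1) × Fin M → ℤ := fun r => z (ADY.en m M r) with hb
  set w : Fin (m + 1) × Fin M → ℤ := A.adjugate.mulVec b with hw
  refine ⟨A.det, ADY.vp w, ADY.det_ne g h1 hg hd hM hv, ADY.vp_deg hM w, ?_, ?_⟩
  · -- the identity
    have hAw : A.mulVec w = A.det • b := by
      rw [hw, Matrix.mulVec_mulVec, Matrix.mul_adjugate, Matrix.smul_mulVec, Matrix.one_mulVec]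
    have hs1 : Pd.Sol (g ^ M) (fun n => A.det * z n) := hz.smul A.det
    have hs2 := ADY.sq_sol g h1 hg hM w
    intro n
    refine Pd.Sol.ext (hg.pow M) hs1 hs2 ?_ n
    intro n hn
    rw [hg.natDegree_pow, hd, mul_comm] at hn
    obtain ⟨r, rfl⟩ := ADY.en_surj m M n hn
    rw [← ADY.mulVec_eq, hAw]
    rfl
  · -- sizes
    have hE1 : (1 : ℤ) ≤ (2 * (Y : ℤ)) ^ N * (N : ℤ) ^ M := by
      have ha : (1 : ℤ) ≤ (2 * (Y : ℤ)) ^ N := one_le_pow₀ (by linarith)
      have hb : (1 : ℤ) ≤ (N : ℤ) ^ M := one_le_pow₀ (by exact_mod_cast hN1)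
      nlinarith
    have hent : ∀ r c, |A r c| ≤ (2 * (Y : ℤ)) ^ N * (N : ℤ) ^ M := by
      intro r c
      have hr := ADY.en_lt m M r
      rw [hA]
      unfold ADY.Am
      rw [abs_mul]
      refine mul_le_mul ?_ ?_ (abs_nonneg _) (by positivity)
      · refine (ADY.cf_size m g hg hd Y (by linarith) hc' _ _ (by omega)).trans ?_
        calc (1 + (Y : ℤ)) ^ ADY.en m M r ≤ (2 * (Y : ℤ)) ^ ADY.en m M r :=
              pow_le_pow_left₀ (by linarith) (by linarith) _
          _ ≤ (2 * (Y : ℤ)) ^ N := pow_le_pow_right₀ (by linarith) (by omega)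
      · rw [abs_pow, Nat.abs_cast]
        calc ((ADY.en m M r : ℕ) : ℤ) ^ (c.2 : ℕ) ≤ (N : ℤ) ^ (c.2 : ℕ) :=
              pow_le_pow_left₀ (by positivity) (by exact_mod_cast hr.le) _
          _ ≤ (N : ℤ) ^ M := pow_le_pow_right₀ (by exact_mod_cast hN1) c.2.2.le
    have hadj : ∀ r c, |A.adjugate r c| ≤
        (N.factorial : ℤ) * ((2 * (Y : ℤ)) ^ N * (N : ℤ) ^ M) ^ N := by
      intro r c
      rw [Matrix.adjugate_apply]
      have h := Matrix.det_le (A := A.updateRow c (Pi.single r 1)) (abv := AbsoluteValue.abs)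
        (x := (2 * (Y : ℤ)) ^ N * (N : ℤ) ^ M) (by
          intro i j
          rw [AbsoluteValue.abs_apply, Matrix.updateRow_apply]
          split_ifs with hi
          · rw [Pi.single_apply]
            split_ifs
            · rw [abs_one]; exact hE1
            · rw [abs_zero]; linarith
          · exact hent i j)
      rw [hcard, AbsoluteValue.abs_apply, nsmul_eq_mul] at h
      exact h
    have hbB : ∀ r, |b r| ≤ (B : ℤ) := by
      intro r
      rw [Int.abs_eq_natAbs]
      exact_mod_cast hzB _ (ADY.en_lt m M r)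
    have hwB : ∀ r, |w r| ≤
        (N : ℤ) * ((N.factorial : ℤ) * ((2 * (Y : ℤ)) ^ N * (N : ℤ) ^ M) ^ N) * B := by
      intro r
      rw [hw]
      simp only [Matrix.mulVec, dotProduct]
      refine (Finset.abs_sum_le_sum_abs _ _).trans ?_
      have h2 : ∀ c ∈ (Finset.univ : Finset (Fin (m + 1) × Fin M)),
          |A.adjugate r c * b c| ≤
          ((N.factorial : ℤ) * ((2 * (Y : ℤ)) ^ N * (N : ℤ) ^ M) ^ N) * B := by
        intro c _
        rw [abs_mul]
        exact mul_le_mul (hadj r c) (hbB c) (abs_nonneg _) (by positivity)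
      refine (Finset.sum_le_card_nsmul _ _ _ h2).trans (le_of_eq ?_)
      rw [Finset.card_univ, hcard, nsmul_eq_mul]
      ring
    intro i l
    have hnum := ADY.num N M Y B _ hY rfl
    rw [ADY.vp_coeff]
    split_ifs with hl
    · refine le_trans ?_ hnum
      have h3 := hwB (i, ⟨l, hl⟩)
      rw [Int.abs_eq_natAbs] at h3
      exact_mod_cast h3
    · simp

end Pool.Agent.Work.MP_8d13b5_lc.Fm
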