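import Pool.Agent.Work.MP_8d13b5_lc.Fm.StmtsEff
import Pool.Agent.Work.MP_8d13b5_lc.Fm.I_CRS

set_option autoImplicit false

/-! Item eCRS of block EFF (helper47): Cramer's rule with effective constants. MODEL for the block. -/

namespace Pool.Agent.Work.MP_8d13b5_lc.Fm

open Polynomial NumberField Finset Module

theorem peCRS (hSIE : StSIE) : SeCRS := by
  intro K _ _
  obtain ⟨C₀, hC₀, hS⟩ := VCO.small hSIE K
  have hb : (⌈C₀⌉₊ : ℝ) ≥ C₀ := Nat.le_ceil C₀
  refine ⟨fun x => ⌈C₀⌉₊ * (x + 2) + (x + 2),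
    ((Tow.const _).mul (Tow.id.add (Tow.const 2))).add (Tow.id.add (Tow.const 2)), fun a b => ?_⟩
  have hb0 : (0 : ℝ) ≤ b := Nat.cast_nonneg b
  refine ⟨C₀ * (b + 2), b + 2, one_le_mul_of_one_le_of_one_le hC₀ (by linarith), ?_, ?_, ?_⟩
  · have ha : (0 : ℝ) ≤ a := Nat.cast_nonneg a
    push_cast
    nlinarith [mul_nonneg (Nat.cast_nonneg (α := ℝ) ⌈C₀⌉₊) ha]
  · simp only
    omega
  intro Y M v hY hM hv ⟨x, hx⟩
  let A : Fin a → Option (Fin b) → 𝓞 K := fun i p =>
    match p with
    | none => -v i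
    | some j => M i j
  have hA : ∀ (φ : K →+* ℂ) i j, ‖res φ (A i j)‖ ≤ Y := by
    intro φ i p
    rcases p with _ | j
    · simp only [A, map_neg, norm_neg]
      exact hv φ i
    · exact hM φ i j
  have hsol : ∃ y ∈ kerA A, y none ≠ 0 := by
    refine ⟨fun p => match p with
      | none => 1
      | some j => x j, ?_, one_ne_zero⟩
    intro i
    rw [Fintype.sum_option]
    simp only [A]
    rw [hx i]
    simp
  obtain ⟨y, hy1, hy2, hy3⟩ := hS _ _ A Y none hY hA hsol
  have hcard : ((Fintype.card (Option (Fin b)) : ℕ) : ℝ) + 1 = b + 2 := by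
    rw [Fintype.card_option, Fintype.card_fin]
    push_cast
    ring
  have hcard' : Fintype.card (Option (Fin b)) + 1 = b + 2 := by
    rw [Fintype.card_option, Fintype.card_fin]
  rw [hcard, hcard'] at hy3
  refine ⟨y none, fun j => y (some j), hy2, ?_, fun φ => hy3 φ none, fun φ j => hy3 φ (some j)⟩
  intro i
  have h1 := hy1 i
  rw [Fintype.sum_option] at h1
  simp only [A] at h1
  linear_combination h1

end Pool.Agent.Work.MP_8d13b5_lc.Fm
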