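import Pool.Agent.Work.MP_8d13b5_lc.Fm.StmtsEff

set_option autoImplicit false

/-! Item eDET: degrees and sizes of determinants and adjugates. -/

namespace Pool.Agent.Work.MP_8d13b5_lc.Fm

open Polynomial NumberField Finset Module

namespace EDET

variable {R : Type} [CommRing R]

theorem pn_neg (hPN : StPN) (φ : R →+* ℂ) (P : R[X]) : pn φ (-P) ≤ pn φ P := by
  obtain ⟨_, hC, _, hmul, _⟩ := hPN R φ
  have h : -P = C (-1) * P := by
    rw [C_neg, C_1, neg_one_mul]
  rw [h]
  refine (hmul _ _).trans (le_of_eq ?_)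
  rw [hC, map_neg, map_one, norm_neg, norm_one, one_mul]

theorem pn_prod (hPN : StPN) (φ : R →+* ℂ) {ι : Type} (s : Finset ι) (P : ι → R[X]) (Y : ℝ)
    (hY : ∀ i, pn φ (P i) ≤ Y) : pn φ (∏ i ∈ s, P i) ≤ Y ^ s.card := by
  classical
  obtain ⟨h0, hC, _, hmul, _⟩ := hPN R φ
  induction s using Finset.induction_on with
  | empty =>
    rw [Finset.prod_empty, Finset.card_empty, pow_zero, ← C_1, hC, map_one, norm_one]
  | insert a s ha ih =>
    rw [Finset.prod_insert ha, Finset.card_insert_of_notMem ha, pow_succ']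
    exact (hmul _ _).trans (mul_le_mul (hY a) ih (h0 _) ((h0 _).trans (hY a)))

theorem pn_sign (hPN : StPN) (φ : R →+* ℂ) (u : ℤˣ) (P : R[X]) : pn φ (u • P) ≤ pn φ P := by
  rcases Int.units_eq_one_or u with h | h
  · rw [h, one_smul]
  · rw [h, Units.neg_smul, one_smul]
    exact pn_neg hPN φ P

theorem natDegree_sign (u : ℤˣ) (P : R[X]) : (u • P).natDegree ≤ P.natDegree := by
  rcases Int.units_eq_one_or u with h | h
  · rw [h, one_smul]
  · rw [h, Units.neg_smul, one_smul, natDegree_neg]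

theorem det_deg (n σ : ℕ) (M : Matrix (Fin n) (Fin n) R[X]) (h : ∀ i j, (M i j).natDegree ≤ σ) :
    M.det.natDegree ≤ n * σ := by
  rw [Matrix.det_apply]
  refine natDegree_sum_le_of_forall_le _ _ fun s _ => ?_
  refine (natDegree_sign _ _).trans ((natDegree_prod_le _ _).trans ?_)
  refine (Finset.sum_le_sum fun i _ => h (s i) i).trans (le_of_eq ?_)
  rw [Finset.sum_const, Finset.card_univ, Fintype.card_fin, smul_eq_mul]

theorem det_pn (hPN : StPN) (n : ℕ) (M : Matrix (Fin n) (Fin n) R[X]) (φ : R →+* ℂ) (Y : ℝ)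
    (h : ∀ i j, pn φ (M i j) ≤ Y) : pn φ M.det ≤ n.factorial * Y ^ n := by
  rw [Matrix.det_apply]
  obtain ⟨_, _, _, _, _, hsum, _⟩ := hPN R φ
  refine (hsum _ _ _).trans ?_
  have h1 : ∀ s ∈ (Finset.univ : Finset (Equiv.Perm (Fin n))),
      pn φ (Equiv.Perm.sign s • ∏ i, M (s i) i) ≤ Y ^ n := by
    intro s _
    refine (pn_sign hPN φ _ _).trans ?_
    have h2 := pn_prod hPN φ (Finset.univ : Finset (Fin n)) (fun i => M (s i) i) Y
      (fun i => h (s i) i)
    rwa [Finset.card_univ, Fintype.card_fin] at h2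
  refine (Finset.sum_le_card_nsmul _ _ _ h1).trans (le_of_eq ?_)
  rw [Finset.card_univ, Fintype.card_perm, Fintype.card_fin, nsmul_eq_mul]

theorem upd {n : ℕ} (M : Matrix (Fin n) (Fin n) R[X]) (i j : Fin n) (p : R[X] → Prop)
    (h : ∀ i j, p (M i j)) (h0 : p 0) (h1 : p 1) (k l : Fin n) :
    p (M.updateRow j (Pi.single i 1) k l) := by
  by_cases hk : k = j
  · subst hk
    rw [Matrix.updateRow_self]
    by_cases hl : l = i
    · subst hl
      rw [Pi.single_eq_same]
      exact h1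
    · rw [Pi.single_eq_of_ne hl]
      exact h0
  · rw [Matrix.updateRow_ne hk]
    exact h k l

end EDET

open EDET in
theorem peDET (hPN : StPN) : SeDET := by
  intro R _ n σ M hM
  refine ⟨det_deg n σ M hM, fun i j => ?_, fun φ Y hY hMY => ⟨det_pn hPN n M φ Y hMY, fun i j => ?_⟩⟩
  · rw [Matrix.adjugate_apply]
    exact det_deg n σ _ (upd M i j (fun P => P.natDegree ≤ σ) hM (by simp) (by simp))
  · rw [Matrix.adjugate_apply]
    obtain ⟨_, hC, _⟩ := hPN R φ
    refine det_pn hPN n _ φ Y (upd M i j (fun P => pn φ P ≤ Y) hMY ?_ ?_)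
    · rw [← C_0, hC, map_zero, norm_zero]
      linarith
    · rw [← C_1, hC, map_one, norm_one]
      exact hY

end Pool.Agent.Work.MP_8d13b5_lc.Fm
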