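import Pool.Agent.Work.MP_8d13b5_lc.Fm.StmtsEff
import Pool.Agent.Work.MP_8d13b5_lc.Fm.I_HBZ

set_option autoImplicit false

/-! Item eHBZ of block EFF (helper37): Bezout with sizes, with effective constants. -/

namespace Pool.Agent.Work.MP_8d13b5_lc.Fm

open Polynomial NumberField Finset Module

namespace EHBZ

open XPI (coeff_mul_le pol_coeff pol_natDegree pol_coeff_cases)

/-- the system over the integers, with the constants of Cramer's rule -/
theorem sysE (K : Type) [Field K] [NumberField K] (k D : ℕ) (C₀ : ℝ) (s : ℕ) (hC₀ : 1 ≤ C₀)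
    (H : ∀ (Y : ℝ) (M : Fin (2 * D + 1) → Fin (k * (D + 1)) → 𝓞 K) (v : Fin (2 * D + 1) → 𝓞 K), 1 ≤ Y →
      (∀ (φ : K →+* ℂ) i j, ‖res φ (M i j)‖ ≤ Y) → (∀ (φ : K →+* ℂ) i, ‖res φ (v i)‖ ≤ Y) →
      (∃ x : Fin (k * (D + 1)) → K, ∀ i, ∑ j, (M i j : K) * x j = (v i : K)) →
      ∃ (c : 𝓞 K) (x : Fin (k * (D + 1)) → 𝓞 K), c ≠ 0 ∧ (∀ i, ∑ j, M i j * x j = c * v i) ∧
        (∀ φ : K →+* ℂ, ‖res φ c‖ ≤ (C₀ * Y) ^ s) ∧
        ∀ (φ : K →+* ℂ) j, ‖res φ (x j)‖ ≤ (C₀ * Y) ^ s) :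
    ∀ (Y : ℝ) (h : Fin k → (𝓞 K)[X]) (S : ℕ → Prop) (v : ℕ → 𝓞 K),
      1 ≤ Y → (∀ (φ : K →+* ℂ) i l, ‖res φ ((h i).coeff l)‖ ≤ Y) →
      (∀ (φ : K →+* ℂ) l, ‖res φ (v l)‖ ≤ Y) →
      (∃ A' : Fin k → K[X], (∀ i, (A' i).natDegree ≤ D) ∧ ∀ l, S l →
        (∑ i, A' i * (h i).map (algebraMap (𝓞 K) K)).coeff l = (v l : K)) →
      ∃ (c : 𝓞 K) (A : Fin k → (𝓞 K)[X]), c ≠ 0 ∧ (∀ i, (A i).natDegree ≤ D) ∧
        (∀ l ≤ 2 * D, S l → (∑ i, A i * h i).coeff l = c * v l) ∧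
        (∀ φ : K →+* ℂ, ‖res φ c‖ ≤ (C₀ * Y) ^ s) ∧
        ∀ (φ : K →+* ℂ) i l, ‖res φ ((A i).coeff l)‖ ≤ (C₀ * Y) ^ s := by
  classical
  intro Y h S v hY hh hv hA'
  obtain ⟨A', hA'd, hA'⟩ := hA'
  let e : Fin k × Fin (D + 1) ≃ Fin (k * (D + 1)) := finProdFinEquiv
  let M : Fin (2 * D + 1) → Fin (k * (D + 1)) → 𝓞 K := fun l q =>
    if S l then (if (((e.symm q).2 : Fin (D + 1)) : ℕ) ≤ (l : ℕ) then
      (h (e.symm q).1).coeff ((l : ℕ) - ((e.symm q).2 : Fin (D + 1))) else 0) else 0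
  let u : Fin (2 * D + 1) → 𝓞 K := fun l => if S l then v l else 0
  have hY0 : 0 ≤ Y := by linarith
  obtain ⟨c, x, hc, hx, hcs, hxs⟩ := H Y M u hY
    (by
      intro φ l q
      simp only [M]
      split_ifs
      · exact hh φ _ _
      · simpa using hY0
      · simpa using hY0)
    (by
      intro φ l
      simp only [u]
      split_ifs
      · exact hv φ _
      · simpa using hY0)
    (by
      refine ⟨fun q => (A' (e.symm q).1).coeff ((e.symm q).2 : Fin (D + 1)), ?_⟩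
      intro l
      by_cases hl : S l
      · simp only [M, u, if_pos hl]
        rw [← hA' l hl, finset_sum_coeff, ← Equiv.sum_comp e, Fintype.sum_prod_type]
        refine Finset.sum_congr rfl (fun i _ => ?_)
        rw [coeff_mul_le _ _ D _ (hA'd i)]
        refine Finset.sum_congr rfl (fun j _ => ?_)
        simp only [Equiv.symm_apply_apply, coeff_map]
        split_ifs
        · rfl
        · simp
      · simp only [M, u, if_neg hl]
        simp)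
  refine ⟨c, fun i => XPI.pol (fun j => x (e (i, j))), hc, fun i => pol_natDegree _, ?_, hcs, ?_⟩
  · intro l hl hS
    have h1 := hx ⟨l, by omega⟩
    simp only [M, u, if_pos hS] at h1
    rw [← h1, finset_sum_coeff, ← Equiv.sum_comp e, Fintype.sum_prod_type]
    refine Finset.sum_congr rfl (fun i _ => ?_)
    rw [coeff_mul_le _ _ D _ (pol_natDegree _)]
    refine Finset.sum_congr rfl (fun j _ => ?_)
    simp only [Equiv.symm_apply_apply, pol_coeff]
  · intro φ i l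
    have hpos : 0 ≤ (C₀ * Y) ^ s := by positivity
    rcases pol_coeff_cases (fun j => x (e (i, j))) l with h0 | ⟨j, hj⟩
    · rw [h0, map_zero, norm_zero]
      exact hpos
    · rw [hj]
      exact hxs φ _


/-- a solution over the integers -/
theorem solveE (hC : SeCRS) (hPN : StPN) (K : Type) [Field K] [NumberField K] :
    ∃ g : ℕ → ℕ, Tow g ∧ ∀ (m s : ℕ), ∃ (C₀ : ℝ) (s' : ℕ), 1 ≤ C₀ ∧ C₀ ≤ g (m + s) ∧ s' ≤ g (m + s) ∧
      ∀ (Y : ℝ) (θ : ℕ) (w A : ℕ → (𝓞 K)[X]) (r : 𝓞 K), 1 ≤ Y → θ ≤ s → r ≠ 0 →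
      (∀ i ≤ m, (w i).natDegree ≤ θ) → (∃ i ≤ m, (w i).coeff θ ≠ 0) →
      ∑ i ∈ range (m + 1), A i * w i = C r →
      (∀ φ : K →+* ℂ, ∀ i ≤ m, pn (res φ) (w i) ≤ Y) → ∀ j ≤ s + θ,
      ∃ (c : 𝓞 K) (B : Fin (m + 1) → (𝓞 K)[X]), c ≠ 0 ∧
        (∀ φ : K →+* ℂ, ‖res φ c‖ ≤ (C₀ * Y) ^ s') ∧ (∀ i, (B i).natDegree ≤ s) ∧
        ∑ i, B i * w i = C c * X ^ j := by
  obtain ⟨g₁, hg₁, H₁⟩ := hC K
  refine ⟨fun x => g₁ ((2 * x + 1) + (x + 1) * (x + 1)), ?_, fun m s => ?_⟩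
  · exact hg₁.comp ((((Tow.const 2).mul Tow.id).add (Tow.const 1)).add
      ((Tow.id.add (Tow.const 1)).mul (Tow.id.add (Tow.const 1))))
  obtain ⟨C₀, s', hC₀, hCg, hsg, H₀⟩ := H₁ (2 * s + 1) ((m + 1) * (s + 1))
  have H := sysE K (m + 1) s C₀ s' hC₀ H₀
  have hgle : g₁ (2 * s + 1 + (m + 1) * (s + 1)) ≤
      g₁ ((2 * (m + s) + 1) + (m + s + 1) * (m + s + 1)) := by
    refine hg₁.mono (Nat.add_le_add (by omega) (Nat.mul_le_mul (by omega) (by omega)))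
  refine ⟨C₀, s', hC₀, hCg.trans (by exact_mod_cast hgle), hsg.trans hgle, ?_⟩
  intro Y θ w A r hY hθ hr hw htop hA hpn j hj
  obtain ⟨a, ham, hatop⟩ := htop
  set v : ℕ → 𝓞 K := fun l => if l = j then 1 else 0 with hv
  have hinj : Function.Injective (algebraMap (𝓞 K) K) := RingOfIntegers.coe_injective
  obtain ⟨c, B, hc, hBd, hB, hcs, _⟩ := H Y (fun i : Fin (m + 1) => w i) (fun _ => True) v hY
    (by
      intro φ i l
      exact ((hPN (𝓞 K) (res φ)).2.2.2.2.2.2.1 (w i) l).trans (hpn φ i (by omega)))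
    (by
      intro φ l
      simp only [hv]
      split_ifs
      · rw [map_one, norm_one]; exact hY
      · rw [map_zero, norm_zero]; linarith)
    (by
      have hrK : algebraMap (𝓞 K) K r ≠ 0 := by
        intro h0
        exact hr (hinj (by rw [h0, map_zero]))
      obtain ⟨A', hA'd, hA's⟩ := HBZ.red
        (fun i : Fin (m + 1) => (w i).map (algebraMap (𝓞 K) K))
        (fun i : Fin (m + 1) => (A i).map (algebraMap (𝓞 K) K)) (algebraMap (𝓞 K) K r) θ s j hθ hj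
        hrK (fun i => natDegree_map_le.trans (hw i (by omega))) ⟨a, by omega⟩
        (by
          simp only [coeff_map]
          intro h0
          exact hatop (hinj (by rw [h0, map_zero])))
        (by
          have h1 := congrArg (Polynomial.map (algebraMap (𝓞 K) K)) hA
          rw [Polynomial.map_sum, Polynomial.map_C, Finset.sum_range] at h1
          simpa only [Polynomial.map_mul] using h1)
      refine ⟨A', hA'd, fun l _ => ?_⟩
      rw [hA's, coeff_X_pow]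
      simp only [hv]
      split_ifs
      · exact (map_one (algebraMap (𝓞 K) K)).symm
      · exact (map_zero (algebraMap (𝓞 K) K)).symm)
  refine ⟨c, B, hc, hcs, hBd, ?_⟩
  ext l
  rw [coeff_C_mul, coeff_X_pow]
  by_cases hl : l ≤ 2 * s
  · rw [hB l hl trivial]
  · have h1 : (∑ i : Fin (m + 1), B i * w i).natDegree ≤ s + θ := by
      refine natDegree_sum_le_of_forall_le _ _ fun i _ => ?_
      refine natDegree_mul_le.trans ?_
      have := hBd i
      have := hw i (by omega)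
      omega
    rw [coeff_eq_zero_of_natDegree_lt (by omega), if_neg (by omega), mul_zero]

end EHBZ

open EHBZ in
/-- **Bezout with sizes for the forms `w_i`.** -/
theorem peHBZ (hCRS : SeCRS) (hPN : StPN) (hHEV : StHEV) : SeHBZ := by
  intro K _ _
  obtain ⟨g₂, hg₂, H₂⟩ := solveE hCRS hPN K
  refine ⟨fun x => 2 * g₂ x, (Tow.const 2).mul hg₂, fun m s => ?_⟩
  obtain ⟨C₀, s', hC₀, hCg, hsg, H⟩ := H₂ m s
  refine ⟨C₀, 2 * s', hC₀, ?_, Nat.mul_le_mul_left 2 hsg, ?_⟩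
  · have h0 : (0 : ℝ) ≤ g₂ (m + s) := Nat.cast_nonneg _
    push_cast
    linarith
  intro Y θ w A r hY hθ hr hw htop hA hpn
  obtain ⟨c₁, B₁, hc₁, hs₁, hd₁, he₁⟩ := H Y θ w A r hY hθ hr hw htop hA hpn 0 (Nat.zero_le _)
  obtain ⟨c₂, B₂, hc₂, hs₂, hd₂, he₂⟩ := H Y θ w A r hY hθ hr hw htop hA hpn (s + θ) le_rfl
  refine ⟨c₁ * c₂, mul_ne_zero hc₁ hc₂, ?_, ?_⟩
  · intro φ
    rw [map_mul, norm_mul, two_mul, pow_add]
    exact mul_le_mul (hs₁ φ) (hs₂ φ) (norm_nonneg _) (by positivity)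
  · intro x y hxy
    obtain ⟨hev1, -⟩ := hHEV
    obtain ⟨hsum, hmul, -, hCc, hCX⟩ := hev1 (𝓞 K) x y
    set I : Ideal (𝓞 K) := Ideal.span {z | ∃ i ≤ m, z = hev θ (w i) x y} with hI
    have key : ∀ B : Fin (m + 1) → (𝓞 K)[X], (∀ i, (B i).natDegree ≤ s) →
        hev (s + θ) (∑ i, B i * w i) x y ∈ I := by
      intro B hB
      rw [hsum]
      refine Ideal.sum_mem _ fun i _ => ?_
      rw [hmul s θ _ _ (hB i) (hw i (by omega))]
      exact Ideal.mul_mem_left _ _ (Ideal.subset_span ⟨i, by omega, rfl⟩)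
    have h1 : c₁ * y ^ (s + θ) ∈ I := by
      have := key B₁ hd₁
      rw [he₁, pow_zero, mul_one, hCc] at this
      exact this
    have h2 : c₂ * x ^ (s + θ) ∈ I := by
      have := key B₂ hd₂
      rw [he₂, hCX] at this
      exact this
    obtain ⟨u, v, huv⟩ : IsCoprime (x ^ (s + θ)) (y ^ (s + θ)) := hxy.pow
    have h3 : c₁ * c₂ = c₁ * u * (c₂ * x ^ (s + θ)) + c₂ * v * (c₁ * y ^ (s + θ)) := by
      calc c₁ * c₂ = c₁ * c₂ * (u * x ^ (s + θ) + v * y ^ (s + θ)) := by rw [huv, mul_one]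
        _ = c₁ * u * (c₂ * x ^ (s + θ)) + c₂ * v * (c₁ * y ^ (s + θ)) := by ring
    rw [h3]
    exact I.add_mem (I.mul_mem_left _ h2) (I.mul_mem_left _ h1)

end Pool.Agent.Work.MP_8d13b5_lc.Fm
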