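import Pool.Agent.Work.MP_8d13b5_lc.Fm.StmtsEff
import Pool.Agent.Work.MP_8d13b5_lc.Fm.I_HDU

set_option autoImplicit false

/-! Item eHDU of block EFF: one decision procedure without a hidden constant. -/

namespace Pool.Agent.Work.MP_8d13b5_lc.Fm

open Polynomial NumberField Finset Module

namespace EHDU

theorem primrec_tw (h : ℕ) : Primrec (tw h) := by
  induction h with
  | zero => exact Primrec.id
  | succ h ih =>
    exact (show Primrec₂ (fun a b : ℕ => a ^ b) from Primrec₂.unpaired'.1 Nat.Primrec.pow).comp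
      (Primrec.const 2) ih

theorem le_two (c : ℕ) : c + c + 2 ≤ 2 ^ 2 ^ c := by
  have h1 : c < 2 ^ c := Nat.lt_two_pow_self
  have h2 := two_mul_le_two_pow (2 ^ c)
  omega

end EHDU

theorem peHDU (hHNU : SeHNU) (hDEC : StDEC) (hHB1 : StHB1) : SeHDU := by
  obtain ⟨M, hM, hM'⟩ := hDEC FDU.bd FDU.primrec_bd
    (fun B p u => (∃ n, u n = 0) → ∃ n < FDU.bd (p, B), u n = 0)
    (fun B p u _ h hz => h hz)
  obtain ⟨k, hk⟩ := hHNU
  refine ⟨k + 2, fun w => M ((HDU.cl (w.1.1, (w.2.1, w.2.2)), w.1.2),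
    Nat.pair (tw (k + 2) (w.1.1.length + w.2.1)) (max w.2.2.1.natAbs w.2.2.2.natAbs)), ?_, ?_⟩
  · have hL : Primrec (fun w : (List (List ℤ) × List ℤ) × (ℕ × (ℤ × ℤ)) => w.1.1) :=
      Primrec.fst.comp Primrec.fst
    have he : Primrec (fun w : (List (List ℤ) × List ℤ) × (ℕ × (ℤ × ℤ)) => w.2.1) :=
      Primrec.fst.comp Primrec.snd
    have hxy : Primrec (fun w : (List (List ℤ) × List ℤ) × (ℕ × (ℤ × ℤ)) => w.2.2) :=
      Primrec.snd.comp Primrec.snd
    have hv : Primrec (fun w : (List (List ℤ) × List ℤ) × (ℕ × (ℤ × ℤ)) => w.1.2) :=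
      Primrec.snd.comp Primrec.fst
    refine hM.comp (Primrec.pair (Primrec.pair (HDU.primrec_cl.comp (Primrec.pair hL
      (Primrec.pair he hxy))) hv) ?_)
    exact Primrec₂.natPair.comp ((EHDU.primrec_tw (k + 2)).comp
        (Primrec.nat_add.comp (Primrec.list_length.comp hL) he))
        (Primrec.nat_max.comp
          (primrec_natAbs.comp (Primrec.fst.comp hxy))
          (primrec_natAbs.comp (Primrec.snd.comp hxy)))
  · intro d e hd H L hL hNI x y hxy ht v u hv hvu hu
    obtain ⟨N, hN, hNc, hz⟩ := hk d e hd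
    set c : ℕ := tw k (d + e) with hcdef
    have hc : 1 ≤ c := by
      have := le_tw k (d + e)
      omega
    set B : ℕ := tw (k + 2) (d + e) with hBdef
    have hB : N + c + 2 ≤ B := by
      have h1 : B = 2 ^ 2 ^ c := by
        rw [hBdef, hcdef, tw_succ, tw_succ]
      have h2 := EHDU.le_two c
      omega
    have hH := hL.one
    have hlen : L.length = d := by rw [← FDU.natDegree_pol, hL.deg]
    have hBH : 2 ≤ B * H := by
      calc 2 ≤ B := by omega
        _ = B * 1 := (mul_one B).symm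
        _ ≤ B * H := Nat.mul_le_mul_left _ hH
    have htH : H < mx x y := by
      have h1 : B * H ≤ (B * H) ^ B := Nat.le_self_pow (by omega) _
      have h2 : H < B * H := by
        calc H < 2 * H := by omega
          _ ≤ B * H := Nat.mul_le_mul_right _ (by omega)
      omega
    have hct : (c * H) ^ c ≤ mx x y := by
      refine le_trans ?_ ht
      calc (c * H) ^ c ≤ (B * H) ^ c :=
            Nat.pow_le_pow_left (Nat.mul_le_mul_right _ (by omega)) _
        _ ≤ (B * H) ^ B := Nat.pow_le_pow_right (by omega) (by omega)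
    obtain ⟨hm, hdg, hco⟩ := hHB1.1 ℤ e (pol L) x y hL.monic
    rw [hL.deg] at hdg hco
    have h0 : (hsp e (pol L) x y).coeff 0 ≠ 0 := by
      rw [hco 0 (Nat.zero_le _)]
      refine HDU.hev_ne H x y hxy htH _ _ hL.ne ?_ (hL.ht 0)
      have := hL.wt 0
      rwa [hL.deg] at this
    have hseq : Pd.IsSeq (HDU.cl (L, (e, (x, y))), v) u := by
      refine HDU.isSeq _ hm d hdg hd h0 _ v u hu (by simp [HDU.cl, hlen]) ?_ hv hvu
      intro j hj
      rw [HDU.cl_getD L e x y j (by omega), hco _ (by omega), hlen]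
      have e1 : d - (d - 1 - j) = j + 1 := by omega
      rw [e1]
    show M ((HDU.cl (L, (e, (x, y))), v),
      Nat.pair (tw (k + 2) (L.length + e)) (max x.natAbs y.natAbs)) = true ↔ ∃ n, u n = 0
    rw [hlen]
    refine hM' (Nat.pair B (max x.natAbs y.natAbs)) _ u hseq ?_
    rintro ⟨n, hn⟩
    change ∃ n < FDU.bd ((HDU.cl (L, (e, (x, y))), v), Nat.pair B (mx x y)), u n = 0
    set p : List ℤ × List ℤ := (HDU.cl (L, (e, (x, y))), v) with hp
    have hbd : FDU.bd (p, Nat.pair B (mx x y)) = B * ((Pd.size p * mx x y) ^ B + 2) := by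
      unfold FDU.bd
      rw [Nat.unpair_pair]
    rw [hbd]
    obtain ⟨M', hM1, _, _, hz'⟩ := hz H (pol L) hL hNI
    have hqN : n % N < N := Nat.mod_lt _ (by omega)
    have hnq : n = n % N + N * (n / N) := (Nat.mod_add_div n N).symm
    rcases hz' x y hxy hct u hu (n % N) hqN with h3 | h3
    · refine ⟨n % N, ?_, ?_⟩
      · calc n % N < N := hqN
          _ ≤ B * 1 := by omega
          _ ≤ B * ((Pd.size p * mx x y) ^ B + 2) := Nat.mul_le_mul_left _ (by omega)
      · have := h3 0
        rwa [Nat.mul_zero, Nat.add_zero] at this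
    · have h4 : ∀ i < d, (u i).natAbs ≤ Pd.size p := by
        intro i hi
        rw [hvu i hi]
        refine (Pd.natAbs_getD_le v i).trans ?_
        unfold Pd.size
        exact Nat.le_add_left _ _
      have h5 := (h3 (Pd.size p) h4).1 (n / N)
      have h6 : n / N ≤ (Pd.size p * mx x y) ^ c := by
        by_contra h7
        exact h5 (not_le.1 h7) (by rw [← hnq]; exact hn)
      have hs1 : 1 ≤ Pd.size p := by
        have h7 : (HDU.cl (L, (e, (x, y)))).length = d := by simp [HDU.cl, hlen]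
        unfold Pd.size
        show 1 ≤ (HDU.cl (L, (e, (x, y)))).length + _ + _
        omega
      have hst : 0 < Pd.size p * mx x y := Nat.mul_pos hs1 (by omega)
      have h6' : n / N ≤ (Pd.size p * mx x y) ^ B :=
        h6.trans (Nat.pow_le_pow_right hst (by omega))
      refine ⟨n, ?_, hn⟩
      have h8 : N * (n / N) ≤ B * (Pd.size p * mx x y) ^ B :=
        Nat.mul_le_mul (by omega) h6'
      have h9 : B * ((Pd.size p * mx x y) ^ B + 2) =
          B * (Pd.size p * mx x y) ^ B + B * 2 := Nat.mul_add _ _ _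
      omega

end Pool.Agent.Work.MP_8d13b5_lc.Fm
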