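import Pool.Agent.Work.MP_8d13b5_lc.Fm.StmtsEff
import Pool.Agent.Work.MP_8d13b5_lc.Fm.I_HIZ

set_option autoImplicit false

/-! Item eHIZ of block EFF: copy of `I_HIZ.lean` with an effective constant. -/

namespace Pool.Agent.Work.MP_8d13b5_lc.Fm

open Polynomial NumberField Finset Module

open FI2 XIZ HIZ in
theorem peHIZ (hHTH : SeHTH) : SeHIZ := by
  obtain ⟨g₁, hg₁, h₁⟩ := hHTH ℚ
  refine ⟨fun x => g₁ x * (x * (x + 1) + 1) + g₁ x + g₁ x + g₁ x + 1,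
    ((((hg₁.mul ((Tow.id.mul (Tow.id.add (Tow.const 1))).add (Tow.const 1))).add hg₁).add hg₁).add hg₁).add
      (Tow.const 1), fun m e hm => ?_⟩
  obtain ⟨C₁, s, c₀, κ, hC₁, hCg, hsg, hcg, hkg, hmain⟩ := h₁ m e hm
  set σ : ℕ := e * (m + 1) with hσ
  set c : ℕ := ⌈C₁⌉₊ * (σ + 1) + s + c₀ + κ + 1 with hc
  have hceil : ⌈C₁⌉₊ ≤ g₁ (m + e) := Nat.ceil_le.2 hCg
  have hσx : σ + 1 ≤ (m + e) * (m + e + 1) + 1 :=
    Nat.add_le_add_right (Nat.mul_le_mul (by omega) (by omega)) 1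
  have hcle : c ≤ g₁ (m + e) * ((m + e) * (m + e + 1) + 1) + g₁ (m + e) + g₁ (m + e) + g₁ (m + e) + 1 := by
    have := Nat.mul_le_mul hceil hσx
    omega
  refine ⟨c, by omega, hcle, fun H F hF hnc x y hxy ht n a ha hrel => ?_⟩
  have hH1 : 1 ≤ H := hF.one
  have hcH : 1 ≤ c * H := Nat.one_le_iff_ne_zero.2 (Nat.mul_ne_zero (by omega) (by omega))
  have ht1 : 1 ≤ mx x y := (Nat.one_le_pow _ _ hcH).trans ht
  have htR : (1 : ℝ) ≤ mx x y := by exact_mod_cast ht1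
  have hcHR : (1 : ℝ) ≤ (c : ℝ) * H := by exact_mod_cast hcH
  have htt : ∀ φ : ℚ →+* ℂ, tt φ (io x) (io y) = (mx x y : ℝ) := fun φ => by
    unfold tt mx
    rw [norm_io, norm_io, Nat.cast_max]
  have hTT : TT (io x) (io y) = (mx x y : ℝ) := by
    unfold TT
    rw [prod_congr rfl fun φ _ => htt φ, prod_const, card_one, pow_one]
  have hHH : HH (fun j => io (a j)) = ((∑ j, (a j).natAbs : ℕ) : ℝ) := by
    unfold HH
    have h1 : ∀ φ : ℚ →+* ℂ, ∑ j, ‖res φ (io (a j))‖ = ((∑ j, (a j).natAbs : ℕ) : ℝ) := fun φ => by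
      rw [Nat.cast_sum]
      exact sum_congr rfl fun j _ => norm_io φ (a j)
    rw [prod_congr rfl fun φ _ => h1 φ, prod_const, card_one, pow_one]
  have hbase : C₁ * (((σ + 1) * H : ℕ) : ℝ) ≤ (c : ℝ) * H := by
    have h1 : C₁ ≤ (⌈C₁⌉₊ : ℝ) := Nat.le_ceil C₁
    have h2 : ⌈C₁⌉₊ * (σ + 1) ≤ c := by omega
    have h3 : ((⌈C₁⌉₊ * (σ + 1) : ℕ) : ℝ) ≤ (c : ℝ) := by exact_mod_cast h2
    push_cast at h3 ⊢
    have h4 : (0 : ℝ) ≤ H := Nat.cast_nonneg H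
    have h5 : (0 : ℝ) ≤ (σ : ℝ) + 1 := by positivity
    calc C₁ * (((σ : ℝ) + 1) * H) = (C₁ * ((σ : ℝ) + 1)) * H := by ring
      _ ≤ ((⌈C₁⌉₊ : ℝ) * ((σ : ℝ) + 1)) * H := by gcongr
      _ ≤ (c : ℝ) * H := by gcongr
  have hb0 : 0 ≤ C₁ * (((σ + 1) * H : ℕ) : ℝ) := by positivity
  have hpow : (C₁ * (((σ + 1) * H : ℕ) : ℝ)) ^ s ≤ ((c : ℝ) * H) ^ c :=
    (pow_le_pow_left₀ hb0 hbase s).trans (pow_le_pow_right₀ hcHR (by omega))
  have hT : (C₁ * (((σ + 1) * H : ℕ) : ℝ)) ^ s ≤ TT (io x) (io y) := by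
    rw [hTT]
    refine hpow.trans ?_
    exact_mod_cast ht
  have hcf : ∀ j, Pd.cf (hsp e (F.map (mapRingHom io)) (io x) (io y)) n j =
      io (Pd.cf (hsp e F x y) n j) := by
    intro j
    rw [hsp_io e hF.monic]
    exact cf_map io _ (hsp_monic e hF.monic x y) n j
  have ha' : (fun j => io (a j)) ≠ 0 := by
    intro h
    refine ha (funext fun j => io_inj ?_)
    have := congrFun h j
    simpa using this
  have hrel' : ∑ j : Fin (m + 1), io (a j) *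
      Pd.cf (hsp e (F.map (mapRingHom io)) (io x) (io y)) n j = 0 := by
    have h1 := congrArg io hrel
    rw [map_sum, map_zero] at h1
    rw [← h1]
    refine sum_congr rfl fun j _ => ?_
    rw [hcf, map_mul]
  have hfin := hmain _ _ (crE hF hnc) (io x) (io y) (hxy.map io) (fun φ => by rw [htt]; exact htR)
    hT n (fun j => io (a j)) ha' hrel'
  rw [hTT, hHH] at hfin
  have hsum1 : 1 ≤ ∑ j, (a j).natAbs := by
    obtain ⟨j, hj⟩ := Function.ne_iff.1 ha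
    have h1 : 1 ≤ (a j).natAbs := Int.natAbs_pos.2 hj
    exact h1.trans (single_le_sum (f := fun j => (a j).natAbs) (fun i _ => Nat.zero_le _)
      (mem_univ j))
  have hkey : (mx x y : ℝ) ^ n ≤
      ((((c : ℝ) * H) ^ c) ^ (n + 1) * (mx x y : ℝ) ^ c * ((∑ j, (a j).natAbs : ℕ) : ℝ)) ^ c := by
    have hs0 : (0 : ℝ) ≤ ((∑ j, (a j).natAbs : ℕ) : ℝ) := Nat.cast_nonneg _
    have hs1 : (1 : ℝ) ≤ ((∑ j, (a j).natAbs : ℕ) : ℝ) := by exact_mod_cast hsum1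
    have h1 : ((C₁ * (((σ + 1) * H : ℕ) : ℝ)) ^ s) ^ (n + 1) ≤ (((c : ℝ) * H) ^ c) ^ (n + 1) :=
      pow_le_pow_left₀ (pow_nonneg hb0 s) hpow (n + 1)
    have h2 : (mx x y : ℝ) ^ c₀ ≤ (mx x y : ℝ) ^ c := pow_le_pow_right₀ htR (by omega)
    have h3 : 1 ≤ (((c : ℝ) * H) ^ c) ^ (n + 1) * (mx x y : ℝ) ^ c *
        ((∑ j, (a j).natAbs : ℕ) : ℝ) :=
      one_le_mul_of_one_le_of_one_le (one_le_mul_of_one_le_of_one_le
        (one_le_pow₀ (one_le_pow₀ hcHR)) (one_le_pow₀ htR)) hs1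
    calc (mx x y : ℝ) ^ n ≤ (((C₁ * (((σ + 1) * H : ℕ) : ℝ)) ^ s) ^ (n + 1) *
          (mx x y : ℝ) ^ c₀ * ((∑ j, (a j).natAbs : ℕ) : ℝ)) ^ κ := hfin
      _ ≤ ((((c : ℝ) * H) ^ c) ^ (n + 1) * (mx x y : ℝ) ^ c *
          ((∑ j, (a j).natAbs : ℕ) : ℝ)) ^ κ := by
          refine pow_le_pow_left₀ (by positivity) ?_ κ
          gcongr
      _ ≤ _ := pow_le_pow_right₀ h3 (by omega)
  exact_mod_cast hkey

end Pool.Agent.Work.MP_8d13b5_lc.Fm
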