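import Pool.Agent.Work.MP_8d13b5_lc.Fm.StmtsEff
import Pool.Agent.Work.MP_8d13b5_lc.Fm.I_HLO

set_option autoImplicit false

/-! Item eHLO of block EFF: the lower bound for the largest `cf_j`, homogeneous form, with effective constants
(after `I_HLO.lean` of helper27). -/

namespace Pool.Agent.Work.MP_8d13b5_lc.Fm

open Polynomial NumberField Finset Module

namespace EHLO

/-- the exponent -/
def ex (D m s e : ℕ) : ℕ :=
  (1 + D) * (2 + 2 * s) + 1 + (m + 1) * (m + 1).factorial + e * (m + 1) * m * (m + 1).factorial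

/-- the bounding function -/
def gg (D x : ℕ) : ℕ :=
  (x + 3) + ((1 + D) * (2 + 2 * x) + 1 + (x + 1) * (x + 1).factorial +
    x * (x + 1) * x * (x + 1).factorial)

theorem gg_tow (D : ℕ) : Tow (gg D) := by
  have h1 : Tow (fun x => x + 1) := Tow.id.add (Tow.const 1)
  have h2 : Tow (fun x => (x + 1).factorial) := h1.fact
  exact (Tow.id.add (Tow.const 3)).add (((((Tow.const (1 + D)).mul
    ((Tow.const 2).add ((Tow.const 2).mul Tow.id))).add (Tow.const 1)).add (h1.mul h2)).add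
      (((Tow.id.mul h1).mul Tow.id).mul h2))

theorem ex_le (D m s e : ℕ) : ex D m s e ≤ gg D (m + s + e) := by
  have hm : m ≤ m + s + e := by omega
  have hs : s ≤ m + s + e := by omega
  have he : e ≤ m + s + e := by omega
  have hf : (m + 1).factorial ≤ (m + s + e + 1).factorial := Nat.factorial_le (by omega)
  unfold ex gg
  refine le_trans ?_ (Nat.le_add_left _ _)
  gcongr

theorem m_le (D m s e : ℕ) : m + 3 ≤ gg D (m + s + e) := by
  unfold gg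
  omega

theorem bd1 (D m s e : ℕ) (Y : ℝ) (hY : 1 ≤ Y) :
    HLO.Wh m s Y (Y ^ D) * Y * (2 ^ (m + 1)) ^ (m + 1).factorial ≤
      (((m : ℝ) + 3) * Y) ^ ex D m s e := by
  have hm : (0 : ℝ) ≤ m := Nat.cast_nonneg m
  obtain ⟨Z, hZ⟩ : ∃ Z, Z = ((m : ℝ) + 3) * Y := ⟨_, rfl⟩
  have h2Z : 2 ≤ Z := by rw [hZ]; nlinarith
  have hYZ : Y ≤ Z := by rw [hZ]; nlinarith
  have hmZ : ((m : ℝ) + 1) * Y ≤ Z := by rw [hZ]; nlinarith
  have h2YZ : 2 * Y ≤ Z := by rw [hZ]; nlinarith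
  have hZ1 : 1 ≤ Z := by linarith
  have hYD : Y ^ D ≤ Z ^ D := pow_le_pow_left₀ (by linarith) hYZ D
  rw [← hZ]
  have a1 : 2 * Y ^ D ≤ Z ^ (1 + D) := by
    rw [pow_add, pow_one]
    exact mul_le_mul h2Z hYD (by positivity) (by linarith)
  have a2 : ((m : ℝ) + 1) * Y * Y ^ D ≤ Z ^ (1 + D) := by
    rw [pow_add, pow_one]
    exact mul_le_mul hmZ hYD (by positivity) (by linarith)
  have a3 : (2 * Y * Y ^ D) ^ (s + s) ≤ Z ^ ((1 + D) * (s + s)) := by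
    rw [pow_mul]
    refine pow_le_pow_left₀ (by positivity) ?_ _
    rw [pow_add, pow_one]
    exact mul_le_mul h2YZ hYD (by positivity) (by linarith)
  have a4 : HLO.Wh m s Y (Y ^ D) ≤ Z ^ (1 + D) * (Z ^ (1 + D) * Z ^ ((1 + D) * (s + s))) := by
    unfold HLO.Wh
    refine mul_le_mul a1 (mul_le_mul a2 a3 (by positivity) (by positivity)) (by positivity)
      (by positivity)
  have a5 : ((2 : ℝ) ^ (m + 1)) ^ (m + 1).factorial ≤ Z ^ ((m + 1) * (m + 1).factorial) := by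
    rw [← pow_mul]
    exact pow_le_pow_left₀ (by norm_num) h2Z _
  calc HLO.Wh m s Y (Y ^ D) * Y * (2 ^ (m + 1)) ^ (m + 1).factorial
      ≤ (Z ^ (1 + D) * (Z ^ (1 + D) * Z ^ ((1 + D) * (s + s)))) * Z *
          Z ^ ((m + 1) * (m + 1).factorial) := by
        refine mul_le_mul (mul_le_mul a4 hYZ (by positivity) (by positivity)) a5 (by positivity)
          (by positivity)
    _ = Z ^ ((1 + D) * (2 + 2 * s) + 1 + (m + 1) * (m + 1).factorial) := by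
        have e1 : (1 + D) * (2 + 2 * s) + 1 + (m + 1) * (m + 1).factorial =
            (1 + D) + ((1 + D) + (1 + D) * (s + s)) + 1 + (m + 1) * (m + 1).factorial := by ring
        rw [e1, pow_add _ _ ((m + 1) * (m + 1).factorial), pow_add _ _ 1, pow_one,
          pow_add _ (1 + D) (1 + D + (1 + D) * (s + s)), pow_add _ (1 + D) ((1 + D) * (s + s))]
    _ ≤ Z ^ ex D m s e := pow_le_pow_right₀ hZ1 (by unfold ex; omega)

theorem bd2 (D m s e : ℕ) (Y : ℝ) (hY : 1 ≤ Y) :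
    (((m : ℝ) + 1) * (((m : ℝ) + 3) * Y) ^ m) ^ (m + 1).factorial ≤
      (((m : ℝ) + 3) * Y) ^ ex D m s e := by
  have hm : (0 : ℝ) ≤ m := Nat.cast_nonneg m
  obtain ⟨Z, hZ⟩ : ∃ Z, Z = ((m : ℝ) + 3) * Y := ⟨_, rfl⟩
  have hmZ : (m : ℝ) + 1 ≤ Z := by rw [hZ]; nlinarith
  have hZ1 : 1 ≤ Z := by linarith
  rw [← hZ]
  calc (((m : ℝ) + 1) * Z ^ m) ^ (m + 1).factorial
      ≤ (Z ^ (m + 1)) ^ (m + 1).factorial := by
        refine pow_le_pow_left₀ (by positivity) ?_ _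
        rw [pow_succ, mul_comm]
        exact mul_le_mul_of_nonneg_left hmZ (by positivity)
    _ = Z ^ ((m + 1) * (m + 1).factorial) := by rw [← pow_mul]
    _ ≤ Z ^ ex D m s e := pow_le_pow_right₀ hZ1 (by unfold ex; omega)

end EHLO

open VLO HLO in
theorem peHLO (hRTB : StRTB) (hCFD : StCFD) (hHEV : StHEV) (hHB1 : StHB1) (hHPI : StHPI) :
    SeHLO := by
  intro K _ _
  obtain ⟨D, hD⟩ : ∃ D, D = Fintype.card (K →+* ℂ) := ⟨_, rfl⟩
  refine ⟨EHLO.gg D, EHLO.gg_tow D, fun m s e => ?_⟩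
  have hm0' : (0 : ℝ) ≤ m := Nat.cast_nonneg m
  obtain ⟨C₀, hC₀d⟩ : ∃ C₀ : ℝ, C₀ = (m : ℝ) + 3 := ⟨_, rfl⟩
  obtain ⟨s', hs'd⟩ : ∃ s' : ℕ, s' = EHLO.ex D m s e := ⟨_, rfl⟩
  have hC₀ : 1 ≤ C₀ := by linarith
  have hs : e * (m + 1) * m * (m + 1).factorial ≤ s' := by
    rw [hs'd]
    unfold EHLO.ex
    omega
  refine ⟨C₀, s', hC₀, ?_, ?_, fun Y F θ P w A r hFm hFd hWt hF hPi φ x y n hτ1 => ?_⟩
  · have h1 : ((m + 3 : ℕ) : ℝ) ≤ (EHLO.gg D (m + s + e) : ℝ) := by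
      exact_mod_cast EHLO.m_le D m s e
    push_cast at h1
    rw [hC₀d]
    exact h1
  · rw [hs'd]
    exact EHLO.ex_le D m s e
  obtain ⟨i₀, hi₀, hne, hdeg⟩ := hPi.pi.top
  have hY := hPi.one
  have hYD : 1 ≤ Y ^ D := one_le_pow₀ hY
  have hlc : 1 ≤ ‖res φ (w i₀).leadingCoeff‖ * Y ^ D := by
    rw [hD]
    refine int_low _ (leadingCoeff_ne_zero.2 hne) Y hY (fun ψ => ?_) φ
    refine le_trans ?_ (hPi.hw ψ i₀ hi₀)
    unfold pn
    exact single_le_sum (f := fun i => ‖res ψ ((w i₀).coeff i)‖)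
      (fun _ _ => norm_nonneg _) (mem_range.2 (Nat.lt_succ_self _))
  have hrl : 1 ≤ ‖res φ r‖ * Y ^ D := by
    rw [hD]
    exact int_low r hPi.pi.h1 Y hY hPi.hr φ
  have hW1 : 1 ≤ Wh m s Y (Y ^ D) := by
    unfold Wh
    have e2 : 1 ≤ 2 * Y * Y ^ D :=
      one_le_mul_of_one_le_of_one_le (by linarith) hYD
    have hm0 : (0 : ℝ) ≤ m := Nat.cast_nonneg m
    refine one_le_mul_of_one_le_of_one_le (by linarith)
      (one_le_mul_of_one_le_of_one_le ?_ (one_le_pow₀ e2))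
    exact one_le_mul_of_one_le_of_one_le (one_le_mul_of_one_le_of_one_le (by linarith) hY) hYD
  have hcA := claim hHEV (res φ) m s θ w A r Y (Y ^ D) hY hYD hPi.dθ (fun i hi => hPi.hw φ i hi)
    (fun i hi => hPi.pi.deg i hi) i₀ hi₀ hlc hdeg hrl hPi.bz hPi.dA (fun i hi => hPi.hA φ i hi)
    x y hτ1
  obtain ⟨hg1, hg2, hg3⟩ := hHB1.1 (𝓞 K) e F x y hFm
  obtain ⟨-, hpi⟩ := hHPI (𝓞 K) m e (m + 1).factorial θ F P w r r hFm hFd hWt hPi.pi
  have hgd : ((hsp e F x y).map (res φ)).natDegree = m + 1 := by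
    rw [hg1.natDegree_map, hg2, hFd]
  have hgc : ∀ i ≤ m, ‖res φ ((hsp e F x y).coeff i)‖ ≤ Y * tt φ x y ^ (e * (m + 1)) := by
    intro i hi
    rw [hg3 i (by omega), hFd]
    have h1 : (F.coeff i).natDegree ≤ e * (m + 1 - i) := by
      have := hWt i
      rwa [hFd] at this
    refine (hHEV.2.2.2 (𝓞 K) (res φ) (e * (m + 1 - i)) (F.coeff i) x y h1).trans ?_
    refine mul_le_mul (hF φ i hi) ?_ (by positivity) (by linarith)
    exact pow_le_pow_right₀ hτ1 (Nat.mul_le_mul_left e (Nat.sub_le _ _))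
  obtain ⟨j, hj⟩ := HLO.core hRTB hCFD (res φ) m (e * (m + 1)) (m + 1).factorial θ (hsp e F x y)
    (hev (e * (m + 1).factorial - θ) P x y) (fun i => hev θ (w i) x y) r _ Y (tt φ x y) hY hW1
    hτ1 hg1 hgd hgc hPi.pi.dvd (fun i hi => hpi x y i hi) (hPi.hr φ) hcA n
  refine ⟨j, ?_⟩
  have g1 := EHLO.bd1 D m s e Y hY
  have g2 := EHLO.bd2 D m s e Y hY
  rw [← hC₀d, ← hs'd] at g1
  have hCH : 1 ≤ C₀ * Y := one_le_mul_of_one_le_of_one_le hC₀ hY
  refine hj.trans ?_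
  have e3 : (C₀ * Y) ^ (s' * (n + 1)) = ((C₀ * Y) ^ s') ^ n * (C₀ * Y) ^ s' := by
    rw [mul_add, mul_one, pow_add, pow_mul]
  rw [e3]
  have hτ0 : 0 ≤ tt φ x y := by linarith
  calc _ ≤ ((C₀ * Y) ^ s') ^ n * ((C₀ * Y) ^ s' *
        (‖res φ (Pd.cf (hsp e F x y) n j)‖ ^ (m + 1).factorial * tt φ x y ^ s')) := by
        refine mul_le_mul (pow_le_pow_left₀ (by positivity) g1 n) ?_ (by positivity)
          (by positivity)
        rw [← hs'd, ← hC₀d] at g2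
        rw [hC₀d] at g2 ⊢
        refine mul_le_mul g2 ?_ (by positivity) (by positivity)
        exact mul_le_mul_of_nonneg_left (pow_le_pow_right₀ hτ1 hs) (by positivity)
    _ = _ := by ring

end Pool.Agent.Work.MP_8d13b5_lc.Fm
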