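import Pool.Agent.Work.MP_8d13b5_lc.Fm.StmtsEff
import Pool.Agent.Work.MP_8d13b5_lc.Fm.I_HNU

set_option autoImplicit false

/-! Item eHNU of block EFF (helper84): zeros, all rational parameters, effective constants. -/

namespace Pool.Agent.Work.MP_8d13b5_lc.Fm

open Polynomial NumberField Finset Module

namespace EHNU

open HNU

/-- the landed proof with an arbitrary large constant `T` -/
theorem core (hHDV : StHDV) (hHB1 : StHB1) (hSBY : StSBY) (d e N c₁ c₂ T : ℕ) (hd : 1 ≤ d)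
    (hN : 1 ≤ N) (hc₁ : 1 ≤ c₁) (hc₂ : 1 ≤ c₂)
    (h1 : ∀ (H : ℕ) (F : ℤ[X][X]), IsE d e H F → NonIso F →
      ∃ (k : ℕ) (G : ℤ[X][X]), 1 ≤ k ∧ k ≤ d ∧ IsE k (e * N) ((c₁ * H) ^ c₁) G ∧
      NonConst (G.map (mapRingHom (Int.castRingHom ℂ))) ∧ F ∣ (expand ℤ[X] N G) ^ d ∧
      ((F.map (algebraMap ℤ[X] (FractionRing ℤ[X]))).Separable → F ∣ expand ℤ[X] N G))
    (h2 : ∀ k M : ℕ, 1 ≤ k → k ≤ d → 1 ≤ M → M ≤ d →
      ∀ (H : ℕ) (G : ℤ[X][X]), IsE k (e * N) H G →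
      NonConst (G.map (mapRingHom (Int.castRingHom ℂ))) → ∀ x y : ℤ, IsCoprime x y →
      (c₂ * H) ^ c₂ ≤ mx x y →
      ∀ z : ℕ → ℤ, Rec (RingHom.id ℤ) (hsp (e * N) G x y ^ M) z → Zrh (k * M) M c₂ (mx x y) z)
    (hT' : ((e * d + 1) * (N + N * (d * d)) + 1) * c₂ + c₁ * c₂ + 1 + d * (e * d + 1) ≤ T)
    (H : ℕ) (F : ℤ[X][X]) (hF : IsE d e H F) (hiso : NonIso F) :
    ∃ M : ℕ, 1 ≤ M ∧ M ≤ d ∧
      ((F.map (algebraMap ℤ[X] (FractionRing ℤ[X]))).Separable → M = 1) ∧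
      ∀ x y : ℤ, IsCoprime x y → (T * H) ^ T ≤ mx x y →
      ∀ u : ℕ → ℤ, Rec (RingHom.id ℤ) (hsp e F x y) u → ∀ q < N,
        (∀ n, u (q + N * n) = 0) ∨ ∀ B : ℕ, (∀ i < d, (u i).natAbs ≤ B) →
          (∀ n, (B * mx x y) ^ T < n → u (q + N * n) ≠ 0) ∧
          ∃ S : Finset ℕ, S.card < M ∧
            ∀ n, (B * mx x y) ^ T < mx x y ^ n → u (q + N * n) = 0 → n ∈ S := by
  set L := N + N * (d * d) with hL
  set s := (e * d + 1) * L with hs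
  obtain ⟨k, G, hk, hkd, hG, hGn, hdvd, hsep⟩ := h1 H F hF hiso
  obtain ⟨M, hM, hMd, hMs, hdM⟩ : ∃ M : ℕ, 1 ≤ M ∧ M ≤ d ∧
      ((F.map (algebraMap ℤ[X] (FractionRing ℤ[X]))).Separable → M = 1) ∧
      F ∣ (expand ℤ[X] N G) ^ M := by
    by_cases hS : (F.map (algebraMap ℤ[X] (FractionRing ℤ[X]))).Separable
    · exact ⟨1, le_rfl, hd, fun _ => rfl, by rw [pow_one]; exact hsep hS⟩
    · exact ⟨d, hd, le_rfl, fun h => absurd h hS, hdvd⟩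
  refine ⟨M, hM, hMd, hMs, fun x y hxy ht u hu q hq => ?_⟩
  have hH : 1 ≤ H := hF.one
  have hsub : Pd.Sol (hsp (e * N) G x y ^ M) (fun n => u (q + N * n)) := by
    refine hSBY ℤ (hsp e F x y) (hsp (e * N) G x y ^ M) N q u hN ?_ hu
    obtain ⟨hw, he⟩ := hsp_pow hHB1 e N M G x y hN hG.monic hG.wt
    rw [← he]
    exact hHDV ℤ e F _ x y hF.monic ((hG.monic.expand (by omega)).pow M) hw hdM
  have hcH : T * H ≤ mx x y := by
    refine le_trans ?_ ht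
    have : (T * H) ^ 1 ≤ (T * H) ^ T := pow_mono' _ _ _ le_rfl (by omega)
    simpa using this
  have hthr1 : 1 + d * ((e * d + 1) * H) ≤ mx x y := by
    refine le_trans ?_ hcH
    have e1 : (1 + d * (e * d + 1)) * H ≤ T * H := Nat.mul_le_mul_right _ (by omega)
    have e2 : (1 + d * (e * d + 1)) * H = H + d * ((e * d + 1) * H) := by ring
    omega
  have hthr2 : (c₂ * (c₁ * H) ^ c₁) ^ c₂ ≤ mx x y := by
    refine le_trans ?_ ht
    have hcc : c₂ * c₁ ≤ T := by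
      have : c₁ * c₂ = c₂ * c₁ := Nat.mul_comm _ _
      omega
    have e1 : c₂ * (c₁ * H) ^ c₁ ≤ (c₂ * (c₁ * H)) ^ c₁ := by
      rw [mul_pow c₂]
      refine Nat.mul_le_mul_right _ ?_
      have := pow_mono' c₂ 1 c₁ le_rfl hc₁
      simpa using this
    calc (c₂ * (c₁ * H) ^ c₁) ^ c₂ ≤ ((c₂ * (c₁ * H)) ^ c₁) ^ c₂ := Nat.pow_le_pow_left e1 _
      _ = (c₂ * c₁ * H) ^ (c₁ * c₂) := by rw [← pow_mul, mul_assoc]
      _ ≤ (T * H) ^ (c₁ * c₂) := Nat.pow_le_pow_left (Nat.mul_le_mul_right _ hcc) _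
      _ ≤ (T * H) ^ T := pow_mono' _ _ _ (Nat.mul_pos hc₁ hc₂) (by omega)
  have hz := h2 k M hk hkd hM hMd ((c₁ * H) ^ c₁) G hG hGn x y hxy hthr2
    (fun n => u (q + N * n)) hsub
  by_cases hall : ∀ n, u (q + N * n) = 0
  · exact Or.inl hall
  right
  intro B hB
  rcases hz with hz | hz
  · exact absurd hz hall
  obtain ⟨hb0, hbL⟩ := grow_h hHB1 d e H F hF L x y hthr1 u hu B hB
  have hBpos : 1 ≤ B := by
    rcases Nat.eq_zero_or_pos B with h | h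
    · exact absurd (fun n => hb0 _ h) hall
    · exact h
  obtain ⟨hz1, S, hS, hz2⟩ := hz (mx x y ^ s * B) (by
    intro i hi
    apply hbL
    have e1 : N * i ≤ N * (d * d) :=
      Nat.mul_le_mul_left _ (hi.le.trans (Nat.mul_le_mul hkd hMd))
    omega)
  have hT : 1 ≤ mx x y := by omega
  have hle : (mx x y ^ s * B * mx x y) ^ c₂ ≤ (B * mx x y) ^ T := by
    have e1 : mx x y ^ s * B * mx x y ≤ (B * mx x y) ^ (s + 1) := by
      rw [pow_succ, mul_assoc]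
      refine Nat.mul_le_mul_right _ (Nat.pow_le_pow_left ?_ s)
      exact Nat.le_mul_of_pos_left _ hBpos
    calc (mx x y ^ s * B * mx x y) ^ c₂ ≤ ((B * mx x y) ^ (s + 1)) ^ c₂ :=
          Nat.pow_le_pow_left e1 _
      _ = (B * mx x y) ^ ((s + 1) * c₂) := by rw [← pow_mul]
      _ ≤ (B * mx x y) ^ T := Nat.pow_le_pow_right (Nat.mul_pos hBpos hT) (by omega)
  exact ⟨fun n hn => hz1 n (hle.trans_lt hn), S, hS, fun n hn h => hz2 n (hle.trans_lt hn) h⟩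

/-- the bound of the constant -/
theorem cst_le (d e N c₁ c₂ x n q : ℕ) (hd : d ≤ x) (he : e ≤ x) (hN : N ≤ n) (h1 : c₁ ≤ n)
    (h2 : c₂ ≤ q) :
    ((e * d + 1) * (N + N * (d * d)) + 1) * c₂ + c₁ * c₂ + 1 + d * (e * d + 1) ≤
      ((x * x + 1) * (n + n * (x * x)) + 1) * q + n * q + 1 + x * (x * x + 1) := by
  gcongr

end EHNU

open HNU EHNU in
theorem peHNU (hRDH : SeRDH) (hHDV : StHDV) (hHB1 : StHB1) (hSBY : StSBY) (hHZY : SeHZY) :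
    SeHNU := by
  obtain ⟨g₁, hg₁, r⟩ := hRDH
  obtain ⟨g₂, hg₂, z⟩ := hHZY
  have hx : Tow (fun x => x) := Tow.id
  have hxx : Tow (fun x => x * x) := hx.mul hx
  have hq : Tow (fun x => g₂ (x + x * g₁ x + x)) := hg₂.comp ((hx.add (hx.mul hg₁)).add hx)
  have hG : Tow (fun x => (((x * x + 1) * (g₁ x + g₁ x * (x * x)) + 1) * g₂ (x + x * g₁ x + x) +
      g₁ x * g₂ (x + x * g₁ x + x) + 1 + x * (x * x + 1)) + g₁ x) :=
    ((((((hxx.add (Tow.const 1)).mul (hg₁.add (hg₁.mul hxx))).add (Tow.const 1)).mul hq).add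
      (hg₁.mul hq)).add (Tow.const 1)).add (hx.mul (hxx.add (Tow.const 1))) |>.add hg₁
  obtain ⟨h, hh⟩ := hG.bd
  refine ⟨h, fun d e hd => ?_⟩
  obtain ⟨N, c₁, hN, hc₁, hNg, hcg, h1⟩ := r d e hd
  set c₂ : ℕ := g₂ (d + e * N + d) with hc₂d
  have hck : ∀ k M : ℕ, 1 ≤ k → k ≤ d → 1 ≤ M → M ≤ d → ∃ c : ℕ, 1 ≤ c ∧ c ≤ c₂ ∧
      ∀ (H : ℕ) (F : ℤ[X][X]), IsE k (e * N) H F →
      NonConst (F.map (mapRingHom (Int.castRingHom ℂ))) →
      ∀ x y : ℤ, IsCoprime x y → (c * H) ^ c ≤ mx x y →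
      ∀ z : ℕ → ℤ, Rec (RingHom.id ℤ) (hsp (e * N) F x y ^ M) z →
        Zrh (k * M) M c (mx x y) z := by
    intro k M hk hkd hM hMd
    obtain ⟨c, hc1, hcg', hc⟩ := z k (e * N) M hk hM
    exact ⟨c, hc1, hcg'.trans (hg₂.mono (by omega)), hc⟩
  have hc₂ : 1 ≤ c₂ := by
    obtain ⟨c, hc1, hc2, _⟩ := hck 1 1 le_rfl hd le_rfl hd
    exact hc1.trans hc2
  have hxe : c₂ ≤ g₂ ((d + e) + (d + e) * g₁ (d + e) + (d + e)) := by
    refine hg₂.mono ?_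
    have h3 : e * N ≤ (d + e) * g₁ (d + e) := Nat.mul_le_mul (Nat.le_add_left _ _) hNg
    omega
  have hbd := hh (d + e)
  have hcst := cst_le d e N c₁ c₂ (d + e) (g₁ (d + e))
    (g₂ ((d + e) + (d + e) * g₁ (d + e) + (d + e))) (Nat.le_add_right _ _) (Nat.le_add_left _ _)
    hNg hcg hxe
  refine ⟨N, hN, by omega, core hHDV hHB1 hSBY d e N c₁ c₂ _ hd hN hc₁ hc₂ h1 ?_ (by omega)⟩
  intro k M hk hkd hM hMd H G hG' hr x y hxy ht z hz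
  obtain ⟨c, hc1, hc2, hc⟩ := hck k M hk hkd hM hMd
  exact Zrh_mono _ _ _ _ _ z hc1 hc2
    (hc H G hG' hr x y hxy (thr_mono _ _ H _ hc1 hc2 ht) z hz)

end Pool.Agent.Work.MP_8d13b5_lc.Fm
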