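import Pool.Agent.Work.MP_8d13b5_lc.Fm.StmtsEff
import Pool.Agent.Work.MP_8d13b5_lc.Fm.I_HTH

set_option autoImplicit false

/-! Block `EFF`, item eHTH (the homogeneous form of Theorem M with effective constants); a copy of
`Fm/I_HTH.lean` with bounds for the explicit constants. -/

namespace Pool.Agent.Work.MP_8d13b5_lc.Fm

open Polynomial NumberField Finset Module

namespace EHTH

/-- the bounds for the constants -/
lemma consts (gp gv gl gb : ℕ → ℕ) (hp : Tow gp) (hv : Tow gv) (hl : Tow gl) (hb : Tow gb)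
    (D sz : ℕ) : ∃ g : ℕ → ℕ, Tow g ∧ ∀ (m e sp γ s₁ s₂ sv sl sb : ℕ) (Cp Cv Cl Cb : ℝ),
      Cp ≤ gp (m + e * (m + 1)) → sp ≤ gp (m + e * (m + 1)) →
      γ ≤ gv (m + e) → s₁ ≤ gv (m + e) → s₂ ≤ gv (m + e) →
      Cv ≤ gv (m + e + 2 * (γ + 1) * (1 + s₂) * m) →
      sv ≤ gv (m + e + 2 * (γ + 1) * (1 + s₂) * m) →
      Cl ≤ gl (m + sp + e) → sl ≤ gl (m + sp + e) →
      Cb ≤ gb (m + sp) → sb ≤ gb (m + sp) →
      3 + Cp + Cv + Cl + (m.factorial : ℝ) + Cb ≤ g (m + e) ∧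
      D * (m + 1).factorial * (1 + sv * m) + D * ((sp + 2) * sl + (sp + 1) * sb) +
        (sv + sp + 2) * sz + 1 ≤ g (m + e) ∧
      (m + 1).factorial * (γ + 1) + (m + 1).factorial * (m * (s₁ + (m + (m + 1).factorial) * sp)) +
        sl ≤ g (m + e) ∧
      2 * (γ + 1) * (m + 1).factorial ≤ g (m + e) := by
  -- the functions
  have hid : Tow (fun x => x) := Tow.id
  have hP : Tow (fun x => gp (x + x * (x + 1))) :=
    hp.comp (hid.add (hid.mul (hid.add (Tow.const 1))))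
  have hN : Tow (fun x => 2 * (gv x + 1) * (1 + gv x) * x) :=
    (((Tow.const 2).mul (hv.add (Tow.const 1))).mul ((Tow.const 1).add hv)).mul hid
  have hV : Tow (fun x => gv (x + 2 * (gv x + 1) * (1 + gv x) * x)) := hv.comp (hid.add hN)
  have hL : Tow (fun x => gl (x + gp (x + x * (x + 1)))) := hl.comp (hid.add hP)
  have hB : Tow (fun x => gb (x + gp (x + x * (x + 1)))) := hb.comp (hid.add hP)
  have hF : Tow (fun x => (x + 1).factorial) := (hid.add (Tow.const 1)).fact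
  generalize hPe : (fun x => gp (x + x * (x + 1))) = P at hP hL hB
  generalize hVe : (fun x => gv (x + 2 * (gv x + 1) * (1 + gv x) * x)) = V at hV
  have hLe : Tow (fun x => gl (x + P x)) := by rw [← hPe]; exact hL
  have hBe : Tow (fun x => gb (x + P x)) := by rw [← hPe]; exact hB
  refine ⟨fun x => (3 + P x + V x + gl (x + P x) + (x + 1).factorial + gb (x + P x)) +
    (D * (x + 1).factorial * (1 + V x * x) +
      D * ((P x + 2) * gl (x + P x) + (P x + 1) * gb (x + P x)) + (V x + P x + 2) * sz + 1) +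
    ((x + 1).factorial * (gv x + 1) +
      (x + 1).factorial * (x * (gv x + (x + (x + 1).factorial) * P x)) + gl (x + P x)) +
    2 * (gv x + 1) * (x + 1).factorial, ?_, ?_⟩
  · refine Tow.add (Tow.add (Tow.add ?_ ?_) ?_) ?_
    · exact (((((Tow.const 3).add hP).add hV).add hLe).add hF).add hBe
    · exact (((((Tow.const D).mul hF).mul ((Tow.const 1).add (hV.mul hid))).add
        ((Tow.const D).mul (((hP.add (Tow.const 2)).mul hLe).add
          ((hP.add (Tow.const 1)).mul hBe)))).add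
            (((hV.add hP).add (Tow.const 2)).mul (Tow.const sz))).add (Tow.const 1)
    · exact ((hF.mul (hv.add (Tow.const 1))).add
        (hF.mul (hid.mul (hv.add ((hid.add hF).mul hP))))).add hLe
    · exact ((Tow.const 2).mul (hv.add (Tow.const 1))).mul hF
  · intro m e sp γ s₁ s₂ sv sl sb Cp Cv Cl Cb hCp hsp hγ hs₁ hs₂ hCv hsv hCl hsl hCb hsb
    beta_reduce
    have hPx : gp (m + e * (m + 1)) ≤ P (m + e) := by
      rw [← hPe]
      refine hp.mono ?_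
      refine Nat.add_le_add (Nat.le_add_right m e) ?_
      exact Nat.mul_le_mul (Nat.le_add_left e m) (Nat.add_le_add (Nat.le_add_right m e) le_rfl)
    have hVx : gv (m + e + 2 * (γ + 1) * (1 + s₂) * m) ≤ V (m + e) := by
      rw [← hVe]
      refine hv.mono ?_
      refine Nat.add_le_add le_rfl ?_
      refine Nat.mul_le_mul ?_ (Nat.le_add_right m e)
      refine Nat.mul_le_mul (Nat.mul_le_mul le_rfl ?_) ?_
      · omega
      · omega
    have hsp' : sp ≤ P (m + e) := hsp.trans hPx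
    have hLx : gl (m + sp + e) ≤ gl (m + e + P (m + e)) := hl.mono (by omega)
    have hBx : gb (m + sp) ≤ gb (m + e + P (m + e)) := hb.mono (by omega)
    have hFx : (m + 1).factorial ≤ (m + e + 1).factorial := Nat.factorial_le (by omega)
    have hFx' : m.factorial ≤ (m + e + 1).factorial := Nat.factorial_le (by omega)
    have hmx : m ≤ m + e := Nat.le_add_right m e
    have hsv' : sv ≤ V (m + e) := hsv.trans hVx
    have hsl' : sl ≤ gl (m + e + P (m + e)) := hsl.trans hLx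
    have hsb' : sb ≤ gb (m + e + P (m + e)) := hsb.trans hBx
    generalize hx : m + e = x at *
    generalize gl (x + P x) = L at *
    generalize gb (x + P x) = B at *
    generalize (x + 1).factorial = F at *
    generalize V x = Vx at *
    generalize P x = Px at *
    generalize gv x = G at *
    have e1 : D * (m + 1).factorial * (1 + sv * m) + D * ((sp + 2) * sl + (sp + 1) * sb) +
        (sv + sp + 2) * sz + 1 ≤
        D * F * (1 + Vx * x) + D * ((Px + 2) * L + (Px + 1) * B) + (Vx + Px + 2) * sz + 1 := by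
      gcongr
    have e2 : (m + 1).factorial * (γ + 1) +
        (m + 1).factorial * (m * (s₁ + (m + (m + 1).factorial) * sp)) + sl ≤
        F * (G + 1) + F * (x * (G + (x + F) * Px)) + L := by
      gcongr
    have e3 : 2 * (γ + 1) * (m + 1).factorial ≤ 2 * (G + 1) * F := by
      gcongr
    refine ⟨?_, ?_, ?_, ?_⟩
    · have h1 : (gp (m + e * (m + 1)) : ℝ) ≤ Px := by exact_mod_cast hPx
      have h2 : (gv (x + 2 * (γ + 1) * (1 + s₂) * m) : ℝ) ≤ Vx := by exact_mod_cast hVx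
      have h3 : (gl (m + sp + e) : ℝ) ≤ L := by exact_mod_cast hLx
      have h4 : (gb (m + sp) : ℝ) ≤ B := by exact_mod_cast hBx
      have h5 : (m.factorial : ℝ) ≤ F := by exact_mod_cast hFx'
      have h6 : (3 : ℝ) + Cp + Cv + Cl + (m.factorial : ℝ) + Cb ≤
          ((3 + Px + Vx + L + F + B : ℕ) : ℝ) := by
        push_cast
        linarith
      refine h6.trans ?_
      exact_mod_cast (by omega : 3 + Px + Vx + L + F + B ≤ (3 + Px + Vx + L + F + B) +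
        (D * F * (1 + Vx * x) + D * ((Px + 2) * L + (Px + 1) * B) + (Vx + Px + 2) * sz + 1) +
        (F * (G + 1) + F * (x * (G + (x + F) * Px)) + L) + 2 * (G + 1) * F)
    · refine e1.trans ?_
      omega
    · refine e2.trans ?_
      omega
    · refine e3.trans ?_
      omega

end EHTH

open TH2 XTH HTH in
theorem peHTH (hXPI : SeXPI) (hXEE : StXEE) (hHLO : SeHLO) (hHVE : SeHVE) (hCO3 : StCO3)
    (hEN3 : StEN3) (hHPI : StHPI) (hHBZ : SeHBZ) (hHNZ : StHNZ) (hHB1 : StHB1)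
    (hCFD : StCFD) : SeHTH := by
  intro K _ _
  obtain ⟨gp, hgp, hXPI⟩ := hXPI K
  obtain ⟨gv, hgv, hHVE⟩ := hHVE K
  obtain ⟨gl, hgl, hHLO⟩ := hHLO K
  obtain ⟨gb, hgb, hHBZ⟩ := hHBZ K
  obtain ⟨sz, hz⟩ := hHNZ K
  obtain ⟨g, hg, hcon⟩ := EHTH.consts gp gv gl gb hgp hgv hgl hgb (finrank ℚ K) sz
  refine ⟨g, hg, ?_⟩
  intro m e hm
  obtain ⟨Cp, sp, hCp, hCpg, hspg, hPI⟩ := hXPI m (e * (m + 1))
  obtain ⟨γ, s₁, s₂, s', hγg, hs₁g, hs₂g, hs'g, hVE⟩ := hHVE m e hm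
  set N₁ : ℕ := 2 * (γ + 1) * (1 + s₂) * m with hN₁
  have hN₁pos : 1 ≤ N₁ := by
    rw [hN₁]
    exact Nat.succ_le_of_lt (by positivity)
  obtain ⟨Cv, sv, hCv, hCvg, hsvg, hVE⟩ := hVE N₁ hN₁pos
  obtain ⟨Cl, sl, hCl, hClg, hslg, hLO⟩ := hHLO m sp e
  obtain ⟨Cb, sb, hCb, hCbg, hsbg, hBZ⟩ := hHBZ m sp
  have hbounds := hcon m e sp γ s₁ s₂ sv sl sb Cp Cv Cl Cb hCpg hspg hγg hs₁g hs₂g
    hCvg hsvg hClg hslg hCbg hsbg
  set b : ℕ := (m + 1).factorial with hb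
  have hb1 : 1 ≤ b := Nat.factorial_pos _
  set D := finrank ℚ K with hD
  set M : ℝ := (m.factorial : ℝ) with hM
  have hM1 : 1 ≤ M := by
    rw [hM]
    exact_mod_cast Nat.one_le_iff_ne_zero.2 (Nat.factorial_ne_zero m)
  set C₁ : ℝ := 3 + Cp + Cv + Cl + M + Cb with hC₁
  set e₁ : ℕ := D * b * (1 + sv * m) + D * ((sp + 2) * sl + (sp + 1) * sb) with he₁
  set s : ℕ := e₁ + (sv + sp + 2) * sz + 1 with hs
  set e₀ : ℕ := (m + b) * sp with he₀
  refine ⟨C₁, s, b * (γ + 1) + b * (m * (s₁ + e₀)) + sl, 2 * (γ + 1) * b, by linarith,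
    hbounds.1, hbounds.2.1, hbounds.2.2.1, hbounds.2.2.2, ?_⟩
  intro H F hF x y hxy htt hTTs n a ha hrel
  have hH1 : 1 ≤ H := hF.one
  have hH0 : 0 < H := by linarith
  set Z : ℝ := C₁ * H with hZ
  have hC₁Z : C₁ ≤ Z := by
    rw [hZ]
    exact le_mul_of_one_le_right (by linarith) hH1
  have hZ3 : 3 ≤ Z := by linarith
  have hZ1 : 1 ≤ Z := by linarith
  have hZ0 : 0 < Z := by linarith
  have hHZ : H ≤ Z := by
    rw [hZ]
    exact le_mul_of_one_le_left hH0.le (by linarith)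
  have hCpZ : Cp * H ≤ Z := mul_le_mul_of_nonneg_right (by linarith) hH0.le
  have hCvZ : Cv * H ≤ Z := mul_le_mul_of_nonneg_right (by linarith) hH0.le
  have hClZ : Cl ≤ Z := by linarith
  have hCbZ : Cb ≤ Z := by linarith
  have hMZ : M ≤ Z := by linarith
  have hCpH1 : 1 ≤ Cp * H := one_le_mul_of_one_le_of_one_le hCp hH1
  have hCvH1 : 1 ≤ Cv * H := one_le_mul_of_one_le_of_one_le hCv hH1
  have hT : 1 ≤ TT x y := one_le_TTh htt
  have hHa : 1 ≤ HH a := one_le_HH ha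
  have hFdeg : ∀ i ≤ m, (F.coeff i).natDegree ≤ e * (m + 1) := by
    intro i _
    refine (hF.wt i).trans (Nat.mul_le_mul_left _ ?_)
    rw [hF.crv.deg]
    exact Nat.sub_le _ _
  -- the data of XPI
  obtain ⟨θ, P, w, A, r, hpi⟩ := hPI H F hH1 ⟨0, Nat.zero_le _, hF.crv.ne⟩ hFdeg hF.ht
  obtain ⟨Δ, hΔ, hΔd, hΔp, hVE⟩ := hVE H F hF
  obtain ⟨hPθ, hfac⟩ := hHPI (𝓞 K) m e b θ F P w r r hF.crv.monic hF.crv.deg hF.wt hpi.pi
  set p' : ℕ := e * b - θ with hp'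
  have hPd : P.natDegree ≤ p' := by omega
  set P' : 𝓞 K := hev p' P x y with hP'
  -- the values are not zero
  have hbig : (2 * Z ^ (sv + sp + 1)) ^ sz < TT x y := by
    have h1 : 2 * Z ^ (sv + sp + 1) ≤ Z ^ (sv + sp + 2) := by
      rw [pow_succ Z (sv + sp + 1), mul_comm]
      exact mul_le_mul_of_nonneg_left (by linarith) (by positivity)
    calc (2 * Z ^ (sv + sp + 1)) ^ sz ≤ (Z ^ (sv + sp + 2)) ^ sz := by gcongr
      _ = Z ^ ((sv + sp + 2) * sz) := (pow_mul _ _ _).symm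
      _ < Z ^ ((sv + sp + 2) * sz + 1) := pow_lt_pow_right₀ (by linarith) (Nat.lt_succ_self _)
      _ ≤ Z ^ s := pow_le_pow_right₀ hZ1 (by omega)
      _ ≤ TT x y := hTTs
  have hY1 : 1 ≤ Z ^ (sv + sp + 1) := one_le_pow₀ hZ1
  have hy0 : y ≠ 0 := by
    have h1 := hz 1 (1 : (𝓞 K)[X]) (Z ^ (sv + sp + 1)) one_ne_zero
      (by rw [natDegree_one]; exact Nat.zero_le _) hY1
      (fun φ => by rw [pn_one]; exact hY1) x y hxy hbig
    rw [hev_one_one] at h1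
    exact h1
  have hΔt : hev s' Δ x y ≠ 0 := by
    refine hz s' Δ _ hΔ hΔd hY1 (fun φ => (hΔp φ).trans ?_) x y hxy hbig
    calc (Cv * H) ^ sv ≤ Z ^ sv := by gcongr
      _ ≤ Z ^ (sv + sp + 1) := pow_le_pow_right₀ hZ1 (by omega)
  have hPt : P' ≠ 0 := by
    refine hz p' P _ hpi.pi.hP hPd hY1 (fun φ => (hpi.hP φ).trans ?_) x y hxy hbig
    calc (Cp * H) ^ sp ≤ Z ^ sp := by gcongr
      _ ≤ Z ^ (sv + sp + 1) := pow_le_pow_right₀ hZ1 (by omega)
  have hF0t : hev (e * (m + 1)) (F.coeff 0) x y ≠ 0 := by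
    refine hz (e * (m + 1)) (F.coeff 0) _ hF.crv.ne (hFdeg 0 (Nat.zero_le _)) hY1
      (fun φ => (hF.ht φ 0 (Nat.zero_le _)).trans ?_) x y hxy hbig
    calc H ≤ Z := hHZ
      _ = Z ^ 1 := (pow_one Z).symm
      _ ≤ Z ^ (sv + sp + 1) := pow_le_pow_right₀ hZ1 (by omega)
  rcases Nat.eq_zero_or_pos n with rfl | hn
  · rw [pow_zero]
    exact one_le_pow₀ (one_le_mul_of_one_le_of_one_le
      (one_le_mul_of_one_le_of_one_le (one_le_pow₀ (one_le_pow₀ hZ1)) (one_le_pow₀ hT)) hHa)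
  obtain ⟨Dn, G, E, A', hG, hcfE, hAE, hEd, hEtop, hbD⟩ :=
    hXEE K m F b θ P w r r hF.crv.monic hF.crv.deg hF.crv.ne hpi.pi n
  obtain ⟨ℓ, r', V, hℓ, hℓ', hr', hVi, hVr, hVs⟩ :=
    hVE n hn Dn G E A' hG hcfE hAE hEd hEtop x y hy0 htt hΔt
  -- the specialisation
  obtain ⟨hsm, hsd, hsc⟩ := hHB1.1 (𝓞 K) e F x y hF.crv.monic
  rw [hF.crv.deg] at hsd hsc
  have hE0 : (fun j : Fin (m + 1) => Pd.cf (hsp e F x y) n j) ≠ 0 := by
    obtain ⟨j, hj, hne⟩ := cf_ne hCFD m (hsp e F x y) hsm hsd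
      (by rw [hsc 0 (Nat.zero_le _), Nat.sub_zero]; exact hF0t) n
    intro h
    apply hne
    have h1 := congrFun h ⟨j, Nat.lt_succ_of_le hj⟩
    exact h1
  -- the constant `c` of HBZ
  set Yw : ℝ := (Cp * H) ^ sp with hYw
  have hYw1 : 1 ≤ Yw := one_le_pow₀ hCpH1
  obtain ⟨c, hc0, hcs, hcI⟩ := hBZ Yw θ w A r hYw1 hpi.dθ hpi.pi.h1 hpi.pi.deg
    (by
      obtain ⟨i, hi, hwi, hdi⟩ := hpi.pi.top
      refine ⟨i, hi, ?_⟩
      rw [← hdi]
      exact leadingCoeff_ne_zero.2 hwi)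
    hpi.bz hpi.hw
  have hw0 : (c * P') ^ n ≠ 0 := pow_ne_zero _ (mul_ne_zero hc0 hPt)
  have hspan : c * P' ∈
      Ideal.span {z | ∃ i ≤ m, z = (hsp e F x y).coeff i ^ (b / (m + 1 - i))} := by
    have h1 : ∀ z ∈ Ideal.span {z | ∃ i ≤ m, z = hev θ (w i) x y}, z * P' ∈
        Ideal.span {z | ∃ i ≤ m, z = (hsp e F x y).coeff i ^ (b / (m + 1 - i))} := by
      intro z hz'
      refine Submodule.span_induction (p := fun z _ => z * P' ∈
        Ideal.span {z | ∃ i ≤ m, z = (hsp e F x y).coeff i ^ (b / (m + 1 - i))})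
        ?_ ?_ ?_ ?_ hz'
      · rintro z ⟨i, hi, rfl⟩
        have h2 := hfac x y i hi
        rw [mul_comm, ← h2]
        exact Ideal.mul_mem_left _ _ (Ideal.subset_span ⟨i, hi, rfl⟩)
      · rw [zero_mul]
        exact Ideal.zero_mem _
      · intro u v _ _ hu hv
        rw [add_mul]
        exact Ideal.add_mem _ hu hv
      · intro u v _ hv
        rw [smul_eq_mul, mul_assoc]
        exact Ideal.mul_mem_left _ _ hv
    exact h1 c (hcI x y hxy)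
  set h := n / N₁ with hh
  -- the lower bound
  set Y : ℝ := (Cp * H) ^ (sp + 1) with hY
  have hYH : H ≤ Y := by
    calc H ≤ Cp * H := le_mul_of_one_le_left hH0.le hCp
      _ = (Cp * H) ^ 1 := (pow_one _).symm
      _ ≤ Y := pow_le_pow_right₀ hCpH1 (by omega)
  have hpi' : IsPiH m sp Y F θ P w A r :=
    piH_mono hpi le_rfl (pow_le_pow_right₀ hCpH1 (Nat.le_succ _))
  have hYge1 : 1 ≤ Y := one_le_pow₀ hCpH1
  choose jj hjj using fun φ : K →+* ℂ => hLO Y F θ P w A r hF.crv.monic hF.crv.deg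
    hF.wt (fun φ i hi => (hF.ht φ i hi).trans hYH)
    hpi' φ x y n (htt φ)
  obtain ⟨i₀, hi₀⟩ := hEN3 K m b (fun j => Pd.cf (hsp e F x y) n j) a ((c * P') ^ n) V
    (fun φ => ‖res φ (Pd.cf (hsp e F x y) n (jj φ))‖)
    (fun i φ => ((Cv * H) ^ sv) ^ n * tt φ x y ^ (ℓ i + h + s₁ + s₂ * r' i)) hm ha hE0 hw0 hrel
    hVr hVi
    (fun ρ hρ => by
      obtain ⟨z, hz⟩ := hCO3 K m b n (hsp e F x y) ρ (c * P') hsm hsd hpi.pi.dvd
        (fun j hj => by
          obtain ⟨z, hz⟩ := hρ ⟨j, Nat.lt_succ_of_le hj⟩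
          exact ⟨z, hz⟩) hspan
      refine ⟨z, ?_⟩
      rw [hz]
      have h9 : (((c * P') ^ n : 𝓞 K) : K) = ((c * P' : 𝓞 K) : K) ^ n :=
        map_pow (algebraMap (𝓞 K) K) (c * P') n
      rw [h9])
    (fun φ => ⟨norm_nonneg _, jj φ, le_rfl⟩)
    (fun i φ j => hVs φ i j)
  have hcard : (univ : Finset (K →+* ℂ)).card = D := by
    rw [card_univ, NumberField.Embeddings.card]
  set p₀ : ℝ := ∏ φ : K →+* ℂ, ‖res φ P'‖ with hp₀
  have hp₀1 : 1 ≤ p₀ := one_le_norm hPt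
  have hp₀0 : 0 < p₀ := by linarith
  set Yc : ℝ := (Cb * Yw) ^ sb with hYc
  have hYc1 : 1 ≤ Yc := one_le_pow₀ (one_le_mul_of_one_le_of_one_le hCb hYw1)
  have e2 : ∏ φ : K →+* ℂ, ‖res φ ((c * P') ^ n)‖ ≤ (Yc ^ D) ^ n * p₀ ^ n := by
    have h1 : ∏ φ : K →+* ℂ, ‖res φ ((c * P') ^ n)‖ =
        (∏ φ : K →+* ℂ, ‖res φ c‖) ^ n * p₀ ^ n := by
      rw [hp₀, ← prod_pow, ← prod_pow, ← prod_mul_distrib]
      exact prod_congr rfl fun φ _ => by rw [map_pow, norm_pow, map_mul, norm_mul, mul_pow]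
    have h2 : ∏ φ : K →+* ℂ, ‖res φ c‖ ≤ Yc ^ D := by
      calc ∏ φ : K →+* ℂ, ‖res φ c‖ ≤ ∏ _φ : K →+* ℂ, Yc :=
            prod_le_prod (fun φ _ => norm_nonneg _) fun φ _ => hcs φ
        _ = Yc ^ D := by rw [prod_const, hcard]
    rw [h1]
    have h3 : 0 ≤ ∏ φ : K →+* ℂ, ‖res φ c‖ := prod_nonneg fun φ _ => norm_nonneg _
    gcongr
  have e3 : ∀ i, ∏ φ : K →+* ℂ, ((Cv * H) ^ sv) ^ n * tt φ x y ^ (ℓ i + h + s₁ + s₂ * r' i) =
      ((Cv * H) ^ sv) ^ (n * D) * TT x y ^ (ℓ i + h + s₁ + s₂ * r' i) := by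
    intro i
    rw [prod_mul_distrib, prod_const, hcard, prod_pow, ← pow_mul ((Cv * H) ^ sv)]
    rfl
  have e4 : ∏ i ∈ univ.erase i₀, ∏ φ : K →+* ℂ,
      ((Cv * H) ^ sv) ^ n * tt φ x y ^ (ℓ i + h + s₁ + s₂ * r' i) =
      ((Cv * H) ^ sv) ^ (n * D * (m - 1)) *
        TT x y ^ ∑ i ∈ univ.erase i₀, (ℓ i + h + s₁ + s₂ * r' i) := by
    rw [prod_congr rfl fun i _ => e3 i, prod_mul_distrib, prod_const, prod_pow_eq_pow_sum,
      card_erase_of_mem (mem_univ i₀), card_univ, Fintype.card_fin, ← pow_mul ((Cv * H) ^ sv)]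
  rw [e4] at hi₀
  set S : ℕ := ∑ i ∈ univ.erase i₀, (ℓ i + h + s₁ + s₂ * r' i) with hSdef
  set Cc : ℝ := (Cv * H) ^ sv with hCc
  have hCc1 : 1 ≤ Cc := one_le_pow₀ hCvH1
  set f₀ : ℝ := ∏ φ : K →+* ℂ, ‖res φ (Pd.cf (hsp e F x y) n (jj φ))‖ with hf₀
  have hf₀0 : 0 ≤ f₀ := prod_nonneg fun φ _ => norm_nonneg _
  -- the product of the lower bounds
  have hlow : p₀ ^ n * TT x y ^ (θ * n) ≤
      ((Cl * Y) ^ (sl * (n + 1))) ^ D * f₀ ^ b * TT x y ^ sl := by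
    have h1 : ∏ φ : K →+* ℂ, (‖res φ P'‖ ^ n * tt φ x y ^ (θ * n)) ≤
        ∏ φ : K →+* ℂ, ((Cl * Y) ^ (sl * (n + 1)) *
          ‖res φ (Pd.cf (hsp e F x y) n (jj φ))‖ ^ b * tt φ x y ^ sl) := by
      refine prod_le_prod (fun φ _ => ?_) fun φ _ => hjj φ
      have := htt φ
      positivity
    rw [prod_mul_distrib, prod_mul_distrib, prod_mul_distrib, prod_const, hcard, prod_pow,
      prod_pow, prod_pow, prod_pow] at h1
    exact h1
  set Pp : ℝ := M ^ D * HH a * (Cc ^ (n * D * (m - 1)) * TT x y ^ S) with hPp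
  have hPp0 : 0 ≤ Pp := by positivity
  have hup : f₀ ^ b ≤ (Yc ^ D) ^ n * p₀ ^ n * Pp ^ b :=
    hi₀.trans (mul_le_mul_of_nonneg_right e2 (by positivity))
  -- divide by `p₀ ^ n`
  have hClY1 : 1 ≤ Cl * Y := one_le_mul_of_one_le_of_one_le hCl hYge1
  set c₁ : ℝ := (Cl * Y) ^ sl * Yc with hc₁
  have hc₁1 : 1 ≤ c₁ := one_le_mul_of_one_le_of_one_le (one_le_pow₀ hClY1) hYc1
  have hc₁0 : 0 < c₁ := by linarith
  have hmain : TT x y ^ (θ * n) ≤ (c₁ ^ D) ^ (n + 1) * (Pp ^ b * TT x y ^ sl) := by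
    have h1 : p₀ ^ n * TT x y ^ (θ * n) ≤
        p₀ ^ n * (((Cl * Y) ^ (sl * (n + 1))) ^ D * (Yc ^ D) ^ n * (Pp ^ b * TT x y ^ sl)) := by
      calc p₀ ^ n * TT x y ^ (θ * n)
          ≤ ((Cl * Y) ^ (sl * (n + 1))) ^ D * f₀ ^ b * TT x y ^ sl := hlow
        _ ≤ ((Cl * Y) ^ (sl * (n + 1))) ^ D * ((Yc ^ D) ^ n * p₀ ^ n * Pp ^ b) * TT x y ^ sl := by
            gcongr
        _ = _ := by ring
    have h2 : TT x y ^ (θ * n) ≤
        ((Cl * Y) ^ (sl * (n + 1))) ^ D * (Yc ^ D) ^ n * (Pp ^ b * TT x y ^ sl) :=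
      le_of_mul_le_mul_left h1 (by positivity)
    have h3 : ((Cl * Y) ^ (sl * (n + 1))) ^ D * (Yc ^ D) ^ n ≤ (c₁ ^ D) ^ (n + 1) := by
      have h4 : (c₁ ^ D) ^ (n + 1) = ((Cl * Y) ^ (sl * (n + 1))) ^ D * (Yc ^ D) ^ (n + 1) := by
        have h6 : (((Cl * Y) ^ sl) ^ D) ^ (n + 1) = ((Cl * Y) ^ (sl * (n + 1))) ^ D := by
          rw [← pow_mul, ← pow_mul, ← pow_mul]
          congr 1
          ring
        rw [hc₁, mul_pow, mul_pow, h6]
      rw [h4]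
      have h5 : (Yc ^ D) ^ n ≤ (Yc ^ D) ^ (n + 1) :=
        pow_le_pow_right₀ (one_le_pow₀ hYc1) (Nat.le_succ n)
      gcongr
    exact h2.trans (mul_le_mul_of_nonneg_right h3 (by positivity))
  -- the exponents
  have hS : b * (S + ℓ i₀) ≤ θ * n + b * (m * h * (1 + s₂)) + b * (m * (s₁ + e₀)) := by
    have h1 : S + ℓ i₀ ≤ ∑ i, (ℓ i + h + s₁ + s₂ * r' i) := by
      rw [hSdef, ← sum_erase_add _ _ (mem_univ i₀)]
      refine Nat.add_le_add_left ?_ _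
      rw [add_assoc, add_assoc]
      exact Nat.le_add_right _ _
    have h2 : ∑ i, (ℓ i + h + s₁ + s₂ * r' i) ≤ Dn + m * h * (1 + s₂) + m * s₁ := by
      rw [sum_add_distrib, sum_add_distrib, sum_add_distrib, sum_const, sum_const, card_univ,
        Fintype.card_fin, smul_eq_mul, smul_eq_mul, ← mul_sum]
      have h3 : s₂ * ∑ i, r' i ≤ s₂ * (m * h) := Nat.mul_le_mul_left _ hr'
      calc ∑ i, ℓ i + m * h + m * s₁ + s₂ * ∑ i, r' i
          ≤ Dn + m * h + m * s₁ + s₂ * (m * h) := by omega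
        _ = _ := by ring
    have h4 : b * Dn ≤ θ * n + e₀ :=
      hbD.trans (Nat.add_le_add_left (Nat.mul_le_mul_left _ hpi.dP) _)
    have h5 : e₀ ≤ b * (m * e₀) := by
      have : 1 * (1 * e₀) ≤ b * (m * e₀) := Nat.mul_le_mul hb1 (Nat.mul_le_mul hm le_rfl)
      simpa using this
    calc b * (S + ℓ i₀) ≤ b * (Dn + m * h * (1 + s₂) + m * s₁) :=
          Nat.mul_le_mul_left _ (h1.trans h2)
      _ = b * Dn + b * (m * h * (1 + s₂)) + b * (m * s₁) := by ring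
      _ ≤ θ * n + e₀ + b * (m * h * (1 + s₂)) + b * (m * s₁) := by omega
      _ ≤ θ * n + b * (m * e₀) + b * (m * h * (1 + s₂)) + b * (m * s₁) := by omega
      _ = _ := by ring
  have hc₀1 : c₁⁻¹ ≤ 1 := inv_le_one_of_one_le₀ hc₁1
  have hf : (c₁⁻¹ ^ D) ^ (n + 1) * TT x y ^ (θ * n) ≤ Pp ^ b * TT x y ^ sl := by
    have h1 : (c₁⁻¹ ^ D) ^ (n + 1) = ((c₁ ^ D) ^ (n + 1))⁻¹ := by
      rw [inv_pow, inv_pow]
    rw [h1, inv_mul_le_iff₀ (by positivity)]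
    exact hmain
  have hP1 : Pp ≤ M ^ D * (1 : ℝ) ^ ((m + 1) ^ 2 * n) * HH a *
      (Cc ^ (n * D * (m - 1)) * TT x y ^ S) := by
    rw [one_pow, mul_one]
  have hfin := calc2 (T := TT x y) (C := Cc) (H := HH a) (c₀ := c₁⁻¹) (R := 1) (M := M) (h := h)
    (N₁ := N₁) (D := D) (l := ℓ i₀) (p := θ) (q := b) (s := sl) (s₁ := s₁ + e₀) (s₂ := s₂)
    (γ := γ) (S := S) (P := Pp)
    hT hCc1 hHa (by positivity) hc₀1 le_rfl hM1 hb1 hN₁ (Nat.div_mul_le_self n N₁)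
    hPp0 hS (hℓ' i₀) hf hP1
  refine hfin.trans ?_
  -- the constant
  have hYZ : Y ≤ Z ^ (sp + 1) := by
    rw [hY]
    gcongr
  have hYwZ : Yw ≤ Z ^ sp := by
    rw [hYw]
    gcongr
  have hYcZ : Yc ≤ Z ^ ((sp + 1) * sb) := by
    calc Yc = (Cb * Yw) ^ sb := hYc
      _ ≤ (Z * Z ^ sp) ^ sb := by gcongr
      _ = Z ^ ((sp + 1) * sb) := by rw [← pow_succ', ← pow_mul]
  have hQ : (M ^ D * (1 : ℝ) ^ ((m + 1) ^ 2) * Cc ^ (D * m)) ^ b * (c₁⁻¹ ^ D)⁻¹ ≤ Z ^ s := by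
    have h1 : M ^ D * (1 : ℝ) ^ ((m + 1) ^ 2) * Cc ^ (D * m) ≤ Z ^ (D * (1 + sv * m)) := by
      rw [one_pow, mul_one]
      calc M ^ D * Cc ^ (D * m) ≤ Z ^ D * (Z ^ sv) ^ (D * m) := by
            rw [hCc]
            gcongr
        _ = Z ^ (D * (1 + sv * m)) := by
            rw [← pow_mul, ← pow_add]
            congr 1
            ring
    have h2 : (c₁⁻¹ ^ D)⁻¹ = c₁ ^ D := by rw [inv_pow, inv_inv]
    have h3 : c₁ ≤ Z ^ ((sp + 2) * sl + (sp + 1) * sb) := by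
      calc c₁ = (Cl * Y) ^ sl * Yc := hc₁
        _ ≤ (Z * Z ^ (sp + 1)) ^ sl * Z ^ ((sp + 1) * sb) := by gcongr
        _ = Z ^ ((sp + 2) * sl + (sp + 1) * sb) := by
            rw [← pow_succ', ← pow_mul, ← pow_add]
    rw [h2]
    calc (M ^ D * (1 : ℝ) ^ ((m + 1) ^ 2) * Cc ^ (D * m)) ^ b * c₁ ^ D
        ≤ (Z ^ (D * (1 + sv * m))) ^ b * (Z ^ ((sp + 2) * sl + (sp + 1) * sb)) ^ D := by gcongr
      _ = Z ^ e₁ := by
          rw [← pow_mul, ← pow_mul, ← pow_add, he₁]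
          congr 1
          ring
      _ ≤ Z ^ s := pow_le_pow_right₀ hZ1 (by omega)
  have hT0 : 0 < TT x y := by linarith
  have hHa0 : 0 < HH a := by linarith
  gcongr

end Pool.Agent.Work.MP_8d13b5_lc.Fm
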