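import Pool.Agent.Work.MP_8d13b5_lc.Fm.StmtsEff
import Pool.Agent.Work.MP_8d13b5_lc.Fm.I_HUU

set_option autoImplicit false

/-! Item eHUU of block EFF: the matrices `U` for the families `hfm e F y`, with effective constants. -/

namespace Pool.Agent.Work.MP_8d13b5_lc.Fm

open Polynomial NumberField Finset Module

namespace EHUU

/-- the argument of `g₁` -/
def aa (x : ℕ) : ℕ := x + x * (x + 1)

/-- the argument of `g₂` -/
def bb (g₁ : ℕ → ℕ) (x : ℕ) : ℕ := aa x + g₁ (aa x)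

/-- the bound -/
def gg (g₁ g₂ : ℕ → ℕ) (x : ℕ) : ℕ :=
  g₂ (bb g₁ x) * g₁ (aa x) +
    ((g₁ (aa x) + ((x + 1) * g₁ (aa x) + x * x) + x * (x + 1) + 2) * g₂ (bb g₁ x) +
      2 * g₁ (aa x) + 1) +
    (((x + 1) * g₁ (aa x) + x * x) * 2 + x * (x + 1))

theorem tow_aa : Tow aa := Tow.id.add (Tow.id.mul (Tow.id.add (Tow.const 1)))

theorem tow_gg {g₁ g₂ : ℕ → ℕ} (h₁ : Tow g₁) (h₂ : Tow g₂) : Tow (gg g₁ g₂) := by
  have ha : Tow (fun x => g₁ (aa x)) := h₁.comp tow_aa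
  have hb : Tow (fun x => g₂ (bb g₁ x)) := h₂.comp (tow_aa.add ha)
  have hx1 : Tow (fun x => x + 1) := Tow.id.add (Tow.const 1)
  have hxx : Tow (fun x => x * x) := Tow.id.mul Tow.id
  have hxx1 : Tow (fun x => x * (x + 1)) := Tow.id.mul hx1
  have hL : Tow (fun x => (x + 1) * g₁ (aa x) + x * x) := (hx1.mul ha).add hxx
  exact ((hb.mul ha).add (((((((ha.add hL).add hxx1).add (Tow.const 2)).mul hb).add
    ((Tow.const 2).mul ha)).add (Tow.const 1)))).add ((hL.mul (Tow.const 2)).add hxx1)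

theorem le_aa (m e : ℕ) : m + e * (m + 1) ≤ aa (m + e) := by
  unfold aa
  nlinarith [Nat.zero_le (m * m), Nat.zero_le (m * e), Nat.zero_le (e * e), Nat.zero_le m,
    Nat.zero_le e]

theorem le_g1 {g₁ : ℕ → ℕ} (h₁ : Tow g₁) (m e : ℕ) {s₂ : ℕ} (hs : s₂ ≤ g₁ (m + e * (m + 1))) :
    s₂ ≤ g₁ (aa (m + e)) := hs.trans (h₁.mono (le_aa m e))

theorem le_bb {g₁ : ℕ → ℕ} (h₁ : Tow g₁) (m e : ℕ) {s₂ : ℕ} (hs : s₂ ≤ g₁ (m + e * (m + 1))) :
    m + e * (m + 1) + s₂ ≤ bb g₁ (m + e) :=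
  Nat.add_le_add (le_aa m e) (le_g1 h₁ m e hs)

theorem bdC {g₁ g₂ : ℕ → ℕ} (h₁ : Tow g₁) (h₂ : Tow g₂) (m e : ℕ) {s₂ : ℕ} {C₁ C₂ : ℝ}
    (hC₁0 : 0 ≤ C₁) (hC₂0 : 0 ≤ C₂)
    (hC₂ : C₂ ≤ g₁ (m + e * (m + 1))) (hs₂ : s₂ ≤ g₁ (m + e * (m + 1)))
    (hC₁ : C₁ ≤ g₂ (m + e * (m + 1) + s₂)) : C₁ * C₂ ≤ ((gg g₁ g₂ (m + e) : ℕ) : ℝ) := by
  have e1 : C₂ ≤ ((g₁ (aa (m + e)) : ℕ) : ℝ) :=
    hC₂.trans (Nat.cast_le.2 (h₁.mono (le_aa m e)))
  have e2 : C₁ ≤ ((g₂ (bb g₁ (m + e)) : ℕ) : ℝ) :=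
    hC₁.trans (Nat.cast_le.2 (h₂.mono (le_bb h₁ m e hs₂)))
  have e3 : C₁ * C₂ ≤ ((g₂ (bb g₁ (m + e)) : ℕ) : ℝ) * ((g₁ (aa (m + e)) : ℕ) : ℝ) :=
    mul_le_mul e2 e1 hC₂0 (hC₁0.trans e2)
  refine e3.trans ?_
  rw [← Nat.cast_mul]
  refine Nat.cast_le.2 ?_
  unfold gg
  rw [Nat.add_assoc]
  exact Nat.le_add_right _ _

theorem le_L {g₁ : ℕ → ℕ} (h₁ : Tow g₁) (m e : ℕ) {s₂ : ℕ} (hs₂ : s₂ ≤ g₁ (m + e * (m + 1))) :
    (e + 1) * s₂ + e * m ≤ (m + e + 1) * g₁ (aa (m + e)) + (m + e) * (m + e) :=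
  Nat.add_le_add (Nat.mul_le_mul (by omega) (le_g1 h₁ m e hs₂))
    (Nat.mul_le_mul (by omega) (by omega))

theorem bds {g₁ g₂ : ℕ → ℕ} (h₁ : Tow g₁) (h₂ : Tow g₂) (m e : ℕ) {s₁ s₂ : ℕ}
    (hs₂ : s₂ ≤ g₁ (m + e * (m + 1))) (hs₁ : s₁ ≤ g₂ (m + e * (m + 1) + s₂)) :
    (s₂ + ((e + 1) * s₂ + e * m) + e * (m + 1) + 1 + 1) * s₁ + 2 * s₂ + 1 ≤
      gg g₁ g₂ (m + e) := by
  have e1 := le_g1 h₁ m e hs₂
  have e2 : s₁ ≤ g₂ (bb g₁ (m + e)) := hs₁.trans (h₂.mono (le_bb h₁ m e hs₂))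
  have e3 := le_L h₁ m e hs₂
  have e4 : e * (m + 1) ≤ (m + e) * (m + e + 1) := Nat.mul_le_mul (by omega) (by omega)
  have e5 : (s₂ + ((e + 1) * s₂ + e * m) + e * (m + 1) + 1 + 1) * s₁ ≤
      (g₁ (aa (m + e)) + ((m + e + 1) * g₁ (aa (m + e)) + (m + e) * (m + e)) +
        (m + e) * (m + e + 1) + 2) * g₂ (bb g₁ (m + e)) :=
    Nat.mul_le_mul (by omega) e2
  unfold gg
  omega

theorem bds' {g₁ g₂ : ℕ → ℕ} (h₁ : Tow g₁) (m e : ℕ) {s₂ : ℕ}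
    (hs₂ : s₂ ≤ g₁ (m + e * (m + 1))) :
    ((e + 1) * s₂ + e * m) * 2 + e * (m + 1) ≤ gg g₁ g₂ (m + e) := by
  have e3 := le_L h₁ m e hs₂
  have e4 : e * (m + 1) ≤ (m + e) * (m + e + 1) := Nat.mul_le_mul (by omega) (by omega)
  unfold gg
  omega

end EHUU

open HUU in
/-- **eHUU** -/
theorem peHUU (hXDI : SeXDI) (hUUG : SeUUG) (hPN : StPN) (hHEV : StHEV) (hCFD : StCFD)
    (hHB1 : StHB1) (hHB3 : StHB3) : SeHUU := by
  intro K _ _
  obtain ⟨g₁, hg₁, hD'⟩ := hXDI K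
  obtain ⟨g₂, hg₂, hU'⟩ := hUUG K
  refine ⟨EHUU.gg g₁ g₂, EHUU.tow_gg hg₁ hg₂, fun m e => ?_⟩
  obtain ⟨C₂, s₂, hC₂, hC₂g, hs₂g, hD⟩ := hD' m (e * (m + 1))
  obtain ⟨C₁, s₁, hC₁, hC₁g, hs₁g, hU⟩ := hU' m (e * (m + 1)) s₂
  set L : ℕ := (e + 1) * s₂ with hL
  set L' : ℕ := L + e * m with hL'
  set S : ℕ := s₂ + L' + e * (m + 1) + 1 with hS
  refine ⟨C₁ * C₂, (S + 1) * s₁ + 2 * s₂ + 1, L' * 2 + e * (m + 1), by nlinarith, ?_, ?_, ?_,
    fun H F hF => ?_⟩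
  · exact EHUU.bdC hg₁ hg₂ m e (by linarith) (by linarith) hC₂g hs₂g hC₁g
  · exact EHUU.bds hg₁ hg₂ m e hs₂g hs₁g
  · exact EHUU.bds' hg₁ m e hs₂g
  have hmon := hF.crv.monic
  have hdeg := hF.crv.deg
  have hH1 := hF.one
  have hwt := hF.wt
  have hwt' : ∀ i, (F.coeff i).natDegree ≤ e * (m + 1 - i) := by
    intro i
    have := hwt i
    rwa [hdeg] at this
  have hFd : ∀ i, (F.coeff i).natDegree ≤ e * (m + 1) := fun i =>
    (hwt' i).trans (Nat.mul_le_mul_left _ (Nat.sub_le _ _))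
  have hFp : ∀ φ : K →+* ℂ, ∀ j, pn (res φ) (F.coeff j) ≤ H := by
    intro φ j
    have hp := hPN (𝓞 K) (res φ)
    rcases lt_trichotomy j (m + 1) with h | h | h
    · exact hF.ht φ j (by omega)
    · rw [h, ← hdeg, hmon.coeff_natDegree, ← C_1, hp.2.1, map_one, norm_one]
      exact hH1
    · rw [coeff_eq_zero_of_natDegree_lt (by omega), ← C_0, hp.2.1, map_zero, norm_zero]
      linarith
  have hFH : IsCr0H m (e * (m + 1)) H F := ⟨hF.crv, hF.one, fun i _ => hFd i, hF.ht⟩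
  obtain ⟨U₀, V₀, Δ₀, hΔ₀, hUV, hΔd, hVd, hVc, hsz⟩ := hD H F hFH
  refine ⟨Δ₀ ^ 2 * F.coeff 0, mul_ne_zero (pow_ne_zero 2 hΔ₀) hF.crv.ne, ?_, fun φ => ?_,
    fun x y hy htt n => ?_⟩
  · refine natDegree_mul_le.trans ?_
    have h1 : (Δ₀ ^ 2).natDegree ≤ 2 * s₂ := natDegree_pow_le.trans (Nat.mul_le_mul_left 2 hΔd)
    have h2 := hFd 0
    have h3 : s₂ ≤ L' := by rw [hL', hL]; nlinarith
    omega
  · have hp := hPN (𝓞 K) (res φ)
    have h0 := hp.1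
    have hc : 1 ≤ C₁ * C₂ := by nlinarith
    have hbase : 1 ≤ C₁ * C₂ * H := by nlinarith
    have h1 : C₂ * H ≤ C₁ * C₂ * H := by
      refine mul_le_mul_of_nonneg_right ?_ (by linarith)
      nlinarith
    have h2 : H ≤ C₁ * C₂ * H := by nlinarith
    have hC2H : 0 ≤ C₂ * H := by positivity
    calc pn (res φ) (Δ₀ ^ 2 * F.coeff 0) ≤ pn (res φ) (Δ₀ ^ 2) * pn (res φ) (F.coeff 0) :=
          hp.2.2.2.1 _ _
      _ ≤ (pn (res φ) Δ₀) ^ 2 * H := mul_le_mul (hp.2.2.2.2.1 _ _) (hFp φ 0) (h0 _)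
          (by positivity)
      _ ≤ ((C₁ * C₂ * H) ^ s₂) ^ 2 * (C₁ * C₂ * H) := by
          refine mul_le_mul (pow_le_pow_left₀ (h0 _) ((hsz φ).1.trans
            (pow_le_pow_left₀ hC2H h1 _)) 2) h2 (by linarith) (by positivity)
      _ = (C₁ * C₂ * H) ^ (s₂ * 2 + 1) := by rw [← pow_mul, pow_succ _ (s₂ * 2)]
      _ ≤ (C₁ * C₂ * H) ^ ((S + 1) * s₁ + 2 * s₂ + 1) :=
          pow_le_pow_right₀ hbase (by omega)
  -- the data
  obtain ⟨hHa, hHb, hHc, -, -, -, -, -⟩ := hHB1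
  obtain ⟨hG1, hG2, -, -, -⟩ := hHB3
  obtain ⟨gmon, gdeg, gco, gnd, gsp, -⟩ := hG1 (𝓞 K) e F y hmon hwt
  rw [hdeg] at gdeg gco gnd
  have gsp := gsp x
  set G := hfm e F y with hG
  set f := hsp e F x y with hf
  obtain ⟨fmon, fdeg, fco⟩ := hHa (𝓞 K) e F x y hmon
  set v : (𝓞 K)[X] := ∑ j ∈ range (s₂ + 1), C (hev (L - e * j) (V₀.coeff j) x y) * X ^ j with hv
  set δ : 𝓞 K := hev L' Δ₀ x y with hδ
  have vco : ∀ j, v.coeff j = if j ≤ s₂ then hev (L - e * j) (V₀.coeff j) x y else 0 := by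
    intro j
    rw [hv, finsetSum_coeff]
    simp only [coeff_C_mul, coeff_X_pow, mul_ite, mul_one, mul_zero]
    rw [Finset.sum_ite_eq (range (s₂ + 1)) j]
    simp only [mem_range, Nat.lt_succ_iff]
  have vdeg : v.natDegree ≤ s₂ := by
    rw [natDegree_le_iff_coeff_eq_zero]
    intro N hN
    rw [vco, if_neg (by omega)]
  have hLj : ∀ j ≤ s₂, s₂ ≤ L - e * j := by
    intro j hj
    have h1 : e * j ≤ e * s₂ := Nat.mul_le_mul_left _ hj
    have h2 : L = e * s₂ + s₂ := by rw [hL]; ring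
    omega
  have hs₂L' : s₂ ≤ L' := by rw [hL', hL]; nlinarith
  -- the divisibility
  set ι : 𝓞 K →+* K := algebraMap (𝓞 K) K with hι
  have hinj : Function.Injective ι := FaithfulSMul.algebraMap_injective (𝓞 K) K
  have hιy : ι y ≠ 0 := fun h => hy (hinj (by rw [h, map_zero]))
  have hdvd : spc G x ∣ v * derivative (spc G x) - C δ := by
    rw [gsp, ← Polynomial.map_dvd_map ι hinj fmon]
    set Ψ : (𝓞 K)[X] →+* K := (evalRingHom (ι x / ι y)).comp (mapRingHom ι) with hΨ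
    have hmm : ∀ P : (𝓞 K)[X][X], spc (P.map (mapRingHom ι)) (ι x / ι y) = P.map Ψ := by
      intro P
      unfold spc
      rw [Polynomial.map_map]
    have hFbm : (F.map (mapRingHom ι)).Monic := hmon.map _
    have hFbd : (F.map (mapRingHom ι)).natDegree = m + 1 := by rw [hmon.natDegree_map, hdeg]
    have hFbw : Wt e (F.map (mapRingHom ι)) := by
      intro i
      rw [hFbd, coeff_map, coe_mapRingHom]
      exact natDegree_map_le.trans (hwt' i)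
    have h1 : f.map ι = (F.map Ψ).scaleRoots (ι y ^ e) := by
      rw [hf, hHc (𝓞 K) K ι e F x y hmon, hHb K e _ (ι x) (ι y) hFbm hFbw hιy, hmm]
    have h2 : v.map ι = C (ι y ^ L) * (V₀.map Ψ).comp (C (ι y ^ e)⁻¹ * X) := by
      ext j
      rw [coeff_map, vco, coeff_C_mul, comp_C_mul_X_coeff, coeff_map]
      by_cases hj : j ≤ s₂
      · rw [if_pos hj, hHEV.2.2.1 (𝓞 K) K ι, hHEV.2.1 K _ _ _ _ hιy
          (natDegree_map_le.trans ((hVc j).trans (hLj j hj)))]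
        have h3 : Ψ (V₀.coeff j) = ((V₀.coeff j).map ι).eval (ι x / ι y) := rfl
        have h4 : L = (L - e * j) + e * j := by
          have h5 : e * j ≤ e * s₂ := Nat.mul_le_mul_left _ hj
          have h6 : L = e * s₂ + s₂ := by rw [hL]; ring
          omega
        have h7 : ι y ^ L = ι y ^ (L - e * j) * (ι y ^ e) ^ j := by
          rw [← pow_mul, ← pow_add, ← h4]
        have h8 : (ι y ^ e) ^ j * ((ι y ^ e)⁻¹) ^ j = 1 := by
          rw [← mul_pow, mul_inv_cancel₀ (pow_ne_zero _ hιy), one_pow]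
        rw [h3, h7]
        linear_combination (-(ι y ^ (L - e * j) * ((V₀.coeff j).map ι).eval (ι x / ι y))) * h8
      · rw [if_neg hj, map_zero, coeff_eq_zero_of_natDegree_lt (by omega), map_zero, zero_mul,
          mul_zero]
    have h3 : ι δ = ι y ^ L * (ι y ^ e) ^ m * Ψ Δ₀ := by
      have h31 : ι y ^ L' = ι y ^ L * (ι y ^ e) ^ m := by rw [← pow_mul, ← pow_add]
      rw [hδ, hHEV.2.2.1 (𝓞 K) K ι, hHEV.2.1 K _ _ _ _ hιy
          (natDegree_map_le.trans (hΔd.trans hs₂L')), h31]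
      rfl
    have h4 := congrArg (Polynomial.map Ψ) hUV
    rw [Polynomial.map_add, Polynomial.map_mul, Polynomial.map_mul, ← derivative_map,
      Polynomial.map_C] at h4
    have h5 : (F.map Ψ).natDegree = m + 1 := by rw [hmon.natDegree_map, hdeg]
    have h6 := dvd_field m (F.map Ψ) (U₀.map Ψ) (V₀.map Ψ) (Ψ Δ₀) (ι y ^ e) (ι y ^ L)
      (pow_ne_zero _ hιy) h5 h4
    rw [Polynomial.map_sub, Polynomial.map_mul, ← derivative_map, Polynomial.map_C, h1, h2, h3]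
    exact h6
  obtain ⟨U, hU1, hU2, hU3⟩ := hU G v δ x gmon gdeg (fun i => (gnd i).trans
    (Nat.mul_le_mul_left _ (Nat.sub_le _ _))) vdeg hdvd n
  have hcf : ∀ i, (Pd.cf G n i).eval x = Pd.cf f n i := by
    intro i
    have h1 := hCFD.2.1 (𝓞 K)[X] (𝓞 K) (evalRingHom x) G n i gmon
    rw [← gsp]
    exact h1.symm
  have hG0 : (G.coeff 0).eval x = hev (e * (m + 1)) (F.coeff 0) x y := by
    rw [gco 0 (Nat.zero_le _), (hG2 (𝓞 K) y).1]
    rfl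
  have hdd : δ ^ 2 * (G.coeff 0).eval x =
      hev (L' * 2 + e * (m + 1)) (Δ₀ ^ 2 * F.coeff 0) x y := by
    obtain ⟨-, he2, he3, -, -⟩ := hHEV.1 (𝓞 K) x y
    rw [he2 _ _ _ _ (natDegree_pow_le.trans (by
      have : Δ₀.natDegree ≤ L' := hΔd.trans hs₂L'
      omega)) (hFd 0), he3 _ _ _ (hΔd.trans hs₂L'), hG0]
  refine ⟨U, hU1, fun j => ?_, fun φ i j r => ?_⟩
  · have h1 := hU2 j
    rw [hdd] at h1
    rw [← h1]
    refine Finset.sum_congr rfl fun i _ => ?_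
    rw [hcf]
  -- the sizes
  have ht1 := htt φ
  set t : ℝ := tt φ x y with ht
  have hp := hPN (𝓞 K) (res φ)
  set Z : ℝ := C₂ * H * t with hZ
  have hC2H1 : 1 ≤ C₂ * H := by nlinarith
  have hZ1 : 1 ≤ Z := by rw [hZ]; nlinarith
  have hC2HZ : C₂ * H ≤ Z := by rw [hZ]; nlinarith
  have htZ : t ≤ Z := by rw [hZ]; nlinarith
  have hHZ : H ≤ Z := by
    have : H ≤ C₂ * H := by nlinarith
    linarith
  have hpow : ∀ {i j : ℕ}, i ≤ j → Z ^ i ≤ Z ^ j := fun h => pow_le_pow_right₀ hZ1 h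
  have hb : ∀ (a : ℕ) (D : ℕ), a + D ≤ S → Z ^ a * t ^ D ≤ Z ^ S := by
    intro a D h
    calc Z ^ a * t ^ D ≤ Z ^ a * Z ^ D :=
          mul_le_mul_of_nonneg_left (pow_le_pow_left₀ (by linarith) htZ D) (by positivity)
      _ = Z ^ (a + D) := by rw [pow_add]
      _ ≤ Z ^ S := hpow h
  have hFZ : ∀ j, pn (res φ) (F.coeff j) ≤ Z ^ 1 := fun j => by
    rw [pow_one]; exact (hFp φ j).trans hHZ
  have b1 : ‖res φ x‖ ≤ Z ^ S := by
    have h1 : ‖res φ x‖ ≤ t := le_max_left _ _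
    refine h1.trans (htZ.trans ?_)
    calc Z = Z ^ 1 := (pow_one _).symm
      _ ≤ Z ^ S := hpow (by omega)
  have b2 : ‖res φ δ‖ ≤ Z ^ S := by
    refine tt_bd φ x y L' Δ₀ hHEV (hΔd.trans hs₂L') ((hsz φ).1.trans
      (pow_le_pow_left₀ (by positivity) hC2HZ s₂)) (by positivity) (hb _ _ ?_)
    omega
  have b3 : ∀ i, ‖res φ (v.coeff i)‖ ≤ Z ^ S := by
    intro i
    rw [vco]
    split_ifs with hi
    · refine tt_bd φ x y (L - e * i) (V₀.coeff i) hHEV ((hVc i).trans (hLj i hi))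
        (((hsz φ).2 i).trans (pow_le_pow_left₀ (by positivity) hC2HZ s₂)) (by positivity)
        (hb _ _ ?_)
      have : L - e * i ≤ L := Nat.sub_le _ _
      omega
    · rw [map_zero, norm_zero]
      positivity
  have hsub : ∀ i, e * (m + 1 - i) ≤ e * (m + 1) := fun i =>
    Nat.mul_le_mul_left _ (Nat.sub_le _ _)
  have b4 : ∀ i, ‖res φ ((G.coeff i).eval x)‖ ≤ Z ^ S := by
    intro i
    by_cases hi : i ≤ m + 1
    · rw [gco i hi, (hG2 (𝓞 K) y).1]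
      refine tt_bd φ x y _ (F.coeff i) hHEV (hwt' i) (hFZ i) (by positivity) (hb _ _ ?_)
      have := hsub i
      omega
    · rw [coeff_eq_zero_of_natDegree_lt (by omega), eval_zero, map_zero, norm_zero]
      positivity
  have b5 : ∀ i j, ‖res φ ((G.coeff i).coeff j)‖ ≤ Z ^ S := by
    intro i j
    by_cases hi : i ≤ m + 1
    · rw [gco i hi, hpl_coeff]
      split_ifs with hj
      · rw [map_mul, map_pow, norm_mul, norm_pow]
        have h1 : ‖res φ ((F.coeff i).coeff j)‖ ≤ Z ^ 1 :=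
          (hp.2.2.2.2.2.2.1 (F.coeff i) j).trans (hFZ i)
        have h2 : ‖res φ y‖ ≤ t := le_max_right _ _
        refine (mul_le_mul h1 (pow_le_pow_left₀ (norm_nonneg _) h2 _) (by positivity)
          (by positivity)).trans (hb _ _ ?_)
        have := hsub i
        omega
      · rw [map_zero, norm_zero]
        positivity
    · rw [coeff_eq_zero_of_natDegree_lt (p := G) (by omega), coeff_zero, map_zero, norm_zero]
      positivity
  refine (hU3 φ (Z ^ S) (one_le_pow₀ hZ1) b1 b2 b3 b4 b5 i j r).trans ?_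
  have hW : C₁ * C₂ * H * t = C₁ * Z := by rw [hZ]; ring
  have hCW : C₁ ≤ C₁ * C₂ * H * t := by rw [hW]; nlinarith
  have hZW : Z ≤ C₁ * C₂ * H * t := by rw [hW]; nlinarith
  have hW1 : 1 ≤ C₁ * C₂ * H * t := hC₁.trans hCW
  have hW0 : 0 ≤ C₁ * C₂ * H * t := by linarith
  have h1 : C₁ ^ n ≤ (C₁ * C₂) ^ n := pow_le_pow_left₀ (by linarith) (by nlinarith) n
  have h2 : C₁ * Z ^ S ≤ (C₁ * C₂ * H * t) ^ (S + 1) := by
    rw [pow_succ (C₁ * C₂ * H * t) S, mul_comm ((C₁ * C₂ * H * t) ^ S)]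
    exact mul_le_mul hCW (pow_le_pow_left₀ (by linarith) hZW S) (by positivity) hW0
  refine mul_le_mul h1 ?_ (by positivity) (by positivity)
  calc (C₁ * Z ^ S) ^ (s₁ * (r + 1)) ≤ ((C₁ * C₂ * H * t) ^ (S + 1)) ^ (s₁ * (r + 1)) :=
        pow_le_pow_left₀ (by positivity) h2 _
    _ = (C₁ * C₂ * H * t) ^ ((S + 1) * (s₁ * (r + 1))) := by rw [← pow_mul]
    _ ≤ _ := by
        refine pow_le_pow_right₀ hW1 ?_
        rw [← mul_assoc]
        exact Nat.mul_le_mul_right _ (by omega)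

end Pool.Agent.Work.MP_8d13b5_lc.Fm
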