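import Pool.Agent.Work.MP_8d13b5_lc.Fm.StmtsEff
import Pool.Agent.Work.MP_8d13b5_lc.Fm.I_HVE

set_option autoImplicit false

/-! Block `Fm`, item eHVE: the auxiliary vectors for the specialisations at the points `(x : y)`, with effective
constants. Copy of `I_HVE.lean`. -/

namespace Pool.Agent.Work.MP_8d13b5_lc.Fm

open Polynomial NumberField Finset Module

namespace EHVE

/-- the bound for the constants -/
def gb (g₁ g₂ : ℕ → ℕ) (x : ℕ) : ℕ :=
  (x + 1) * 2 * g₂ x * g₁ (x + x * (x + 1)) +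
    (1 + 1 + g₂ x + ((x * (x + 1) + x * x) + 1) + g₁ (x + x * (x + 1)) +
      (1 + (g₂ x + g₂ x)) * x) + (g₂ x + g₂ x + x * x)

theorem tow_gb {g₁ g₂ : ℕ → ℕ} (h₁ : Tow g₁) (h₂ : Tow g₂) : Tow (gb g₁ g₂) := by
  have i : Tow (fun x : ℕ => x) := Tow.id
  have c1 : Tow (fun _ : ℕ => 1) := Tow.const 1
  have c2 : Tow (fun _ : ℕ => 2) := Tow.const 2
  have xx : Tow (fun x : ℕ => x * (x + 1)) := i.mul (i.add c1)
  have x2 : Tow (fun x : ℕ => x * x) := i.mul i
  have a1 : Tow (fun x => g₁ (x + x * (x + 1))) := h₁.comp (i.add xx)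
  exact (((((i.add c1).mul c2).mul h₂).mul a1).add
    (((((c1.add c1).add h₂).add ((xx.add x2).add c1)).add a1).add
      ((c1.add (h₂.add h₂)).mul i))).add ((h₂.add h₂).add x2)

end EHVE

open VE2 XVE HVE EHVE

theorem peHVE (hXG2 : SeXG2) (hHUU : SeHUU) (hCRA : StCRA) (hHDQ : StHDQ) (hPN : StPN)
    (_hHB1 : StHB1) (hHB2 : StHB2) (hHB3 : StHB3) : SeHVE := by
  classical
  intro K _ _
  obtain ⟨g₁, hg₁, h₁⟩ := hXG2 K
  obtain ⟨g₂, hg₂, h₂⟩ := hHUU K
  refine ⟨gb g₁ g₂, tow_gb hg₁ hg₂, ?_⟩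
  intro m e hm
  obtain ⟨γ, hγ, hG⟩ := h₁ m (e * (m + 1)) hm
  obtain ⟨C₀, s₀, s₀', hC₀, hC₀g, hs₀g, hs₀g', hU⟩ := h₂ m e
  have hem : e * (m + 1) ≤ (m + e) * ((m + e) + 1) :=
    Nat.mul_le_mul (Nat.le_add_left _ _) (by omega)
  have hem2 : e * m ≤ (m + e) * (m + e) :=
    Nat.mul_le_mul (Nat.le_add_left _ _) (by omega)
  refine ⟨γ, s₀ + e * m, s₀ + s₀', s₀', ?_, ?_, ?_, ?_, fun N₁ hN₁ => ?_⟩
  · have h3 : g₁ (m + e * (m + 1)) ≤ g₁ ((m + e) + (m + e) * ((m + e) + 1)) :=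
      hg₁.mono (by omega)
    unfold gb
    omega
  · unfold gb
    omega
  · unfold gb
    omega
  · unfold gb
    omega
  obtain ⟨C₁, s', hC₁, hC₁g, hs'g, hGn⟩ := hG N₁ hN₁
  have hm1 : (1 : ℝ) ≤ (m : ℝ) + 1 := by
    have : (0 : ℝ) ≤ m := Nat.cast_nonneg m
    linarith
  have hg2m : g₂ (m + e) ≤ g₂ (m + e + N₁) := hg₂.mono (by omega)
  have hmm : (m + e) * ((m + e) + 1) ≤ (m + e + N₁) * ((m + e + N₁) + 1) :=
    Nat.mul_le_mul (by omega) (by omega)
  have hmm2 : (m + e) * (m + e) ≤ (m + e + N₁) * (m + e + N₁) :=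
    Nat.mul_le_mul (by omega) (by omega)
  have hg1m : g₁ (m + e * (m + 1) + N₁) ≤
      g₁ ((m + e + N₁) + (m + e + N₁) * ((m + e + N₁) + 1)) := hg₁.mono (by omega)
  refine ⟨((m : ℝ) + 1) * 2 * C₀ * C₁,
    1 + 1 + s₀ + ((e * (m + 1) + e * m) + 1) + s' + (1 + (s₀ + s₀)) * m,
    one_le_mul_of_one_le_of_one_le (one_le_mul_of_one_le_of_one_le
      (one_le_mul_of_one_le_of_one_le hm1 (by norm_num)) hC₀) hC₁, ?_, ?_, fun H F hF => ?_⟩
  · have b1 : ((m : ℝ) + 1) * 2 ≤ (((m + e + N₁ : ℕ) : ℝ) + 1) * 2 := by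
      push_cast
      have h5 : (0 : ℝ) ≤ e := Nat.cast_nonneg e
      have h6 : (0 : ℝ) ≤ N₁ := Nat.cast_nonneg N₁
      linarith
    have b2 : C₀ ≤ (g₂ (m + e + N₁) : ℝ) := hC₀g.trans (by exact_mod_cast hg2m)
    have b3 : C₁ ≤ (g₁ ((m + e + N₁) + (m + e + N₁) * ((m + e + N₁) + 1)) : ℝ) :=
      hC₁g.trans (by exact_mod_cast hg1m)
    have b4 : ((m : ℝ) + 1) * 2 * C₀ * C₁ ≤
        (((m + e + N₁ : ℕ) : ℝ) + 1) * 2 * (g₂ (m + e + N₁) : ℝ) *
          (g₁ ((m + e + N₁) + (m + e + N₁) * ((m + e + N₁) + 1)) : ℝ) := by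
      refine mul_le_mul (mul_le_mul b1 b2 (by linarith) (by positivity)) b3 (by linarith)
        (by positivity)
    refine b4.trans ?_
    have b5 : (m + e + N₁ + 1) * 2 * g₂ (m + e + N₁) *
        g₁ ((m + e + N₁) + (m + e + N₁) * ((m + e + N₁) + 1)) ≤ gb g₁ g₂ (m + e + N₁) := by
      unfold gb
      omega
    exact_mod_cast b5
  · have c1 : (1 + (s₀ + s₀)) * m ≤
        (1 + (g₂ (m + e + N₁) + g₂ (m + e + N₁))) * (m + e + N₁) :=
      Nat.mul_le_mul (by omega) (by omega)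
    unfold gb
    omega
  have hH1 : 1 ≤ H := hF.one
  have hF' : IsCr0H m (e * (m + 1)) H F := by
    refine ⟨hF.crv, hF.one, fun i hi => (hF.wt i).trans ?_, hF.ht⟩
    rw [hF.crv.deg]
    exact Nat.mul_le_mul_left e (by omega)
  obtain ⟨Δ, hΔ, hΔd, hΔn, hUt⟩ := hU H F hF
  have hpn0 : ∀ (φ : K →+* ℂ) (P : (𝓞 K)[X]), 0 ≤ pn (res φ) P := fun φ P =>
    (hPN (𝓞 K) (res φ)).1 P
  have hCH : 1 ≤ C₀ * H := one_le_mul_of_one_le_of_one_le hC₀ hH1
  have hC₀0 : 0 ≤ C₀ := by linarith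
  have hC₁0 : 0 ≤ C₁ := by linarith
  have hH0 : 0 ≤ H := by linarith
  refine ⟨Δ, hΔ, hΔd, fun φ => (hΔn φ).trans ?_, ?_⟩
  · have h1 : C₀ * H ≤ ((m : ℝ) + 1) * 2 * C₀ * C₁ * H := by
      have e : ((m : ℝ) + 1) * 2 * C₀ * C₁ * H = (C₀ * H) * (((m : ℝ) + 1) * 2 * C₁) := by ring
      rw [e]
      refine le_mul_of_one_le_right (by linarith) ?_
      exact one_le_mul_of_one_le_of_one_le (one_le_mul_of_one_le_of_one_le hm1 (by norm_num)) hC₁
    refine (pow_le_pow_left₀ (by linarith) h1 s₀).trans ?_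
    exact pow_le_pow_right₀ (hCH.trans h1) (by omega)
  intro n hn D G E A hG0 hGE hAE hED hEj x y hy0 htt hd00
  -- the vector over `K[X]`
  have hE0' : E ≠ 0 := by
    intro h0
    rw [h0] at hAE
    simp at hAE
  obtain ⟨ℓ, Q, hℓ1, hℓ2, hℓ3, hQi, hQ0, hQd, hQn⟩ := hGn H F hF' n hn D G E hG0 hE0' hGE hED
  obtain ⟨U, hU0, hU1, hU2⟩ := hUt x y hy0 htt n
  set h := n / N₁ with hh
  have hhn : h ≤ n := Nat.div_le_self _ _
  set d : 𝓞 K := hev s₀' Δ x y with hd
  set ι : 𝓞 K →+* K := algebraMap (𝓞 K) K with hι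
  have hιi : Function.Injective ι := FaithfulSMul.algebraMap_injective (𝓞 K) K
  have hιy : ι y ≠ 0 := by
    intro h0
    exact hy0 (hιi (by rw [h0, map_zero]))
  set E₀ : Fin (m + 1) → (𝓞 K)[X] := fun j => Pd.cf F n j with hE₀
  have hE₀0 : E₀ ≠ 0 := by
    intro h0
    obtain ⟨j, hj⟩ : ∃ j, E j ≠ 0 := by
      by_contra h1
      push Not at h1
      exact hE0' (funext h1)
    have h1 := hGE j
    have h2 : Pd.cf F n j = 0 := congrFun h0 j
    rw [h2, Polynomial.map_zero] at h1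
    exact (mul_ne_zero hG0 hj) h1.symm
  obtain ⟨⟨j₂, hj₂⟩, hcr⟩ := hCRA (𝓞 K)[X] m E₀ Q hE₀0 hQi hQ0
  have hcr' : ∀ i j, E i * (mnr Q j).map ι = E j * (mnr Q i).map ι := by
    intro i j
    have h1 := congrArg (Polynomial.map ι) (hcr i j)
    rw [Polynomial.map_mul, Polynomial.map_mul] at h1
    have h2 : (E₀ i).map ι = G * E i := hGE i
    have h3 : (E₀ j).map ι = G * E j := hGE j
    rw [h2, h3, mul_assoc, mul_assoc] at h1
    exact mul_left_cancel₀ hG0 h1
  set c' : K[X] := ∑ i, A i * (mnr Q i).map ι with hc'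
  have hkey : ∀ j, (mnr Q j).map ι = c' * E j := by
    intro j
    rw [← one_mul ((mnr Q j).map ι), ← hAE, hc', Finset.sum_mul, Finset.sum_mul]
    refine Finset.sum_congr rfl fun i _ => ?_
    linear_combination A i * hcr' i j
  have hc'0 : c' ≠ 0 := by
    intro h0
    have h1 := hkey j₂
    rw [h0, zero_mul] at h1
    exact hj₂ ((Polynomial.map_eq_zero_iff hιi).1 h1)
  -- the degree of `c'`
  have hdc : c'.natDegree ≤ m * h := by
    obtain ⟨j, hEj0, hj⟩ : ∃ j, E j ≠ 0 ∧ D ≤ (E j).natDegree := by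
      obtain ⟨j₁, hj₁⟩ := hEj
      by_cases h0 : E j₁ = 0
      · obtain ⟨j, hj⟩ : ∃ j, E j ≠ 0 := by
          by_contra h1
          push Not at h1
          exact hE0' (funext h1)
        refine ⟨j, hj, ?_⟩
        rw [h0, natDegree_zero] at hj₁
        omega
      · exact ⟨j₁, h0, hj₁⟩
    have h1 := congrArg natDegree (hkey j)
    rw [natDegree_mul hc'0 hEj0] at h1
    have h2 := natDegree_mnr_le Q (fun i => ℓ i + h) hQd j
    have h3 : ((mnr Q j).map ι).natDegree ≤ (mnr Q j).natDegree := natDegree_map_le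
    rw [Finset.sum_add_distrib, Finset.sum_const, Finset.card_univ, Fintype.card_fin,
      smul_eq_mul] at h2
    omega
  -- the homogenised syzygies
  obtain ⟨hB3a, hB3b, hB3c, hB3d, hB3e⟩ := hHB3
  obtain ⟨_, _, hB3s, hB3m⟩ := hB3b (𝓞 K) y
  have hcf' : ∀ j : Fin (m + 1), Pd.cf (hfm e F y) n j = hpl (e * (n - j)) (Pd.cf F n j) y := by
    intro j
    exact (hB3a (𝓞 K) e F y hF.crv.monic hF.wt).2.2.2.2.2 m hF.crv.deg n j (by have := j.2; omega)
  set Q' : Fin m → Fin (m + 1) → (𝓞 K)[X] := fun i j => hpl (ℓ i + h + e * (j : ℕ)) (Q i j) y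
    with hQ'
  have hpl0 : ∀ D : ℕ, hpl D (0 : (𝓞 K)[X]) y = 0 := by
    intro D
    unfold hpl
    refine Finset.sum_eq_zero fun i _ => ?_
    rw [coeff_zero, zero_mul, C_0, zero_mul]
  have hQ'0 : ∀ i, ∑ j, Q' i j * Pd.cf (hfm e F y) n j = 0 := by
    intro i
    have h1 : ∀ j ∈ (univ : Finset (Fin (m + 1))), Q' i j * Pd.cf (hfm e F y) n j =
        hpl (ℓ i + h + e * n) (Q i j * Pd.cf F n j) y := by
      intro j _
      have hjm : (j : ℕ) ≤ m := by have := j.2; omega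
      obtain ⟨hb1, hb2, _⟩ := hHB2 (𝓞 K) m e F x y hF.crv.monic hF.crv.deg hF.wt n j hjm
      rw [hcf' j]
      rcases Nat.lt_or_ge n j with hnj | hnj
      · rw [hb2 hnj, mul_zero, hpl0, hpl0, mul_zero]
      · have h2 : (Q i j).natDegree ≤ ℓ i + h + e * (j : ℕ) := (hQd i j).trans (by omega)
        have h3 : ℓ i + h + e * n = (ℓ i + h + e * (j : ℕ)) + e * (n - j) := by
          obtain ⟨k, hk⟩ := Nat.exists_eq_add_of_le hnj
          rw [hk, Nat.add_sub_cancel_left]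
          ring
        rw [h3, hB3m _ _ _ _ h2 hb1]
    rw [Finset.sum_congr rfl h1, ← hB3s, hQ0 i, hpl0]
  -- the minors
  have hmn : ∀ j, (mnr Q' j).map ι =
      ((∏ i : Fin m, C (ι y ^ (ℓ i + h))) *
        ∏ l : Fin m, C (ι y ^ (e * ((j.succAbove l : Fin (m + 1)) : ℕ)))) *
        ((mnr Q j).map ι).comp (C (ι y)⁻¹ * X) := by
    intro j
    have h1 : (mnr Q' j).map ι = mapRingHom ι (mnr Q' j) := rfl
    have h2 : ((mnr Q j).map ι).comp (C (ι y)⁻¹ * X) =
        (compRingHom (C (ι y)⁻¹ * X)).comp (mapRingHom ι) (mnr Q j) := rfl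
    rw [h1, map_mnr, h2, map_mnr, ← mnr_scale
      (fun i l => (compRingHom (C (ι y)⁻¹ * X)).comp (mapRingHom ι) (Q i l))
      (fun i : Fin m => C (ι y ^ (ℓ i + h)))
      (fun l : Fin (m + 1) => C (ι y ^ (e * (l : ℕ))))]
    congr 1
    funext i l
    have h3 : mapRingHom ι (Q' i l) = hpl (ℓ i + h + e * (l : ℕ)) ((Q i l).map ι) (ι y) := by
      rw [coe_mapRingHom]
      exact hB3d (𝓞 K) K ι _ _ _
    have h4 : ((Q i l).map ι).natDegree ≤ ℓ i + h + e * (l : ℕ) :=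
      natDegree_map_le.trans ((hQd i l).trans (by omega))
    rw [h3, hB3c K _ _ _ hιy h4, pow_add, C_mul, mul_assoc]
    rfl
  -- the index `j₀`
  obtain ⟨j₀, hj₀⟩ : ∃ j, (E j).eval ((ι y)⁻¹ * ι x) ≠ 0 := by
    by_contra h1
    push Not at h1
    have h2 := congrArg (fun P : K[X] => P.eval ((ι y)⁻¹ * ι x)) hAE
    simp only [eval_finsetSum, eval_mul, eval_one] at h2
    refine one_ne_zero (α := K) ?_
    rw [← h2]
    refine Finset.sum_eq_zero fun j _ => ?_
    rw [h1 j, mul_zero]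
  set k₀ : K := (∏ i : Fin m, ι y ^ (ℓ i + h)) *
    ∏ l : Fin m, ι y ^ (e * ((j₀.succAbove l : Fin (m + 1)) : ℕ)) with hk₀
  have hk₀0 : k₀ ≠ 0 :=
    mul_ne_zero (Finset.prod_ne_zero_iff.2 fun i _ => pow_ne_zero _ hιy)
      (Finset.prod_ne_zero_iff.2 fun i _ => pow_ne_zero _ hιy)
  set c'' : K[X] := C k₀ * c'.comp (C (ι y)⁻¹ * X) with hc''
  set E'' : K[X] := (E j₀).comp (C (ι y)⁻¹ * X) with hE''
  have hkey'' : (mnr Q' j₀).map ι = c'' * E'' := by
    rw [hmn, hkey, mul_comp, hc'', hE'', hk₀, C_mul]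
    simp only [map_prod]
    ring
  have hc''0 : c'' ≠ 0 := by
    rw [hc'']
    exact mul_ne_zero (by rwa [Ne, C_eq_zero]) (comp_inj (ι y) hιy c' hc'0)
  have hdc'' : c''.natDegree ≤ m * h := by
    rw [hc'', natDegree_C_mul hk₀0]
    exact (natDegree_comp_le' (ι y) c').trans hdc
  -- the order of vanishing
  have hT0 : taylor (ι x) c'' ≠ 0 := by
    intro h0
    apply hc''0
    have h1 : taylorEquiv (ι x) c'' = 0 := h0
    exact (EmbeddingLike.map_eq_zero_iff (f := taylorEquiv (ι x))).1 h1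
  set ρ : ℕ := (taylor (ι x) c'').natTrailingDegree with hρ
  have hρm : ρ ≤ m * h := by
    refine (natTrailingDegree_le_natDegree _).trans ?_
    rw [natDegree_taylor]
    exact hdc''
  have hd0 : ι d ≠ 0 := by
    intro h0
    exact hd00 (hιi (by rw [h0, map_zero]))
  have hcρ : PowerSeries.coeff ρ (tayH (ι x) (ι d) c'') ≠ 0 := by
    rw [coeff_tayH, ← taylor_coeff]
    refine mul_ne_zero ?_ (pow_ne_zero _ hd0)
    exact trailingCoeff_nonzero_iff_nonzero.2 hT0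
  have hcl : ∀ i < ρ, PowerSeries.coeff i (tayH (ι x) (ι d) c'') = 0 := by
    intro i hi
    rw [coeff_tayH, ← taylor_coeff, coeff_eq_zero_of_lt_natTrailingDegree hi, zero_mul]
  -- the minor of the Taylor series
  have hconst : PowerSeries.constantCoeff (tayH (ι x) (ι d) E'') ≠ 0 := by
    rw [← PowerSeries.coeff_zero_eq_constantCoeff_apply, coeff_tayH, hasseDeriv_zero, pow_zero,
      mul_one]
    have h1 : E''.eval (ι x) = (E j₀).eval ((ι y)⁻¹ * ι x) := by
      rw [hE'', eval_comp, eval_mul, eval_C, eval_X]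
    intro h2
    apply hj₀
    rw [← h1]
    exact h2
  have hM1 : PowerSeries.coeff ρ (tayH x d (mnr Q' j₀)) ≠ 0 := by
    intro h0
    have h1 := map_tayH ι (mnr Q' j₀) x d ρ
    rw [h0, map_zero, hkey'', map_mul, coeff_low _ _ ρ hcl] at h1
    exact (mul_ne_zero hcρ hconst) h1.symm
  have hM2 : ∀ i < ρ, PowerSeries.coeff i (tayH x d (mnr Q' j₀)) = 0 := by
    intro i hi
    have h1 := map_tayH ι (mnr Q' j₀) x d i
    rw [hkey'', map_mul, coeff_low_zero _ _ ρ hcl i hi] at h1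
    exact hιi (by rw [h1, map_zero])
  -- the matrix
  set W : Fin m → Fin (m + 1) → PowerSeries (𝓞 K) := fun i a =>
    ∑ b', U a b' * tayH x d (Q' i b') with hW
  set M : Fin (m + 1) → Fin (m + 1) → PowerSeries (𝓞 K) :=
    Fin.cons (fun a => U a j₀) W with hM
  have hMeq : Matrix.of M =
      CRA.mat (fun i l => tayH x d (Q' i l)) (Pi.single j₀ 1) * (Matrix.of U).transpose := by
    ext1 i a
    rw [Matrix.mul_apply]
    refine Fin.cases ?_ (fun i => ?_) i
    · have h1 : ∀ l ∈ (univ : Finset (Fin (m + 1))),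
          CRA.mat (fun i l => tayH x d (Q' i l)) (Pi.single j₀ 1) 0 l *
            (Matrix.of U).transpose l a = if l = j₀ then U a j₀ else 0 := by
        intro l _
        by_cases hl : l = j₀
        · subst hl
          simp [CRA.mat, Matrix.transpose_apply]
        · simp [CRA.mat, Matrix.transpose_apply, hl]
      rw [Finset.sum_congr rfl h1]
      simp [M]
    · simp only [CRA.mat, Matrix.of_apply, Matrix.transpose_apply, M, W, Fin.cons_succ]
      refine Finset.sum_congr rfl fun l _ => ?_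
      rw [mul_comm]
  have hdetU : PowerSeries.constantCoeff (Matrix.of U).transpose.det = 1 := by
    rw [Matrix.det_transpose, RingHom.map_det]
    have h1 : (PowerSeries.constantCoeff (R := 𝓞 K)).mapMatrix (Matrix.of U) =
        (1 : Matrix (Fin (m + 1)) (Fin (m + 1)) (𝓞 K)) := by
      ext1 i j
      rw [RingHom.mapMatrix_apply, Matrix.map_apply, Matrix.of_apply, hU0, Matrix.one_apply]
    rw [h1, Matrix.det_one]
  have hdet : PowerSeries.coeff ρ (Matrix.of M).det ≠ 0 := by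
    rw [hMeq, Matrix.det_mul, CRA.det_mat]
    have h1 : ∑ l, (Pi.single j₀ 1 : Fin (m + 1) → PowerSeries (𝓞 K)) l *
        mnr (fun i l => tayH x d (Q' i l)) l = tayH x d (mnr Q' j₀) := by
      rw [Finset.sum_eq_single j₀]
      · rw [Pi.single_eq_same, one_mul, map_mnr]
      · intro l _ hl
        rw [Pi.single_eq_of_ne hl, zero_mul]
      · intro h
        exact absurd (Finset.mem_univ _) h
    rw [h1, coeff_low _ _ ρ hM2, hdetU, mul_one]
    exact hM1
  obtain ⟨r, hr, hdr⟩ := hHDQ (𝓞 K) (m + 1) ρ M hdet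
  have hrs : ∑ i : Fin m, r i.succ ≤ m * h := by
    rw [Fin.sum_univ_succ] at hr
    omega
  refine ⟨ℓ, fun i => r i.succ, fun i a => PowerSeries.coeff (r i.succ) (W i a),
    hℓ1, hℓ2, hrs, ?_, ?_, ?_⟩
  · rw [Fintype.linearIndependent_iff]
    intro g hg i
    have h1 : (Fin.cons 0 g : Fin (m + 1) → 𝓞 K) = 0 := by
      refine Matrix.eq_zero_of_vecMul_eq_zero hdr ?_
      funext a
      have h2 := congrFun hg a
      rw [Finset.sum_apply] at h2
      simp only [Pi.smul_apply, smul_eq_mul, Pi.zero_apply] at h2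
      simp only [Matrix.vecMul, dotProduct, Fin.sum_univ_succ, Pi.zero_apply, Matrix.of_apply,
        Fin.cons_zero, Fin.cons_succ, zero_mul, zero_add, M]
      exact h2
    have h3 := congrFun h1 i.succ
    simpa using h3
  · intro i
    have h1 : ∑ a : Fin (m + 1), W i a * PowerSeries.C (Pd.cf (hsp e F x y) n a) = 0 := by
      have h2 : ∀ a ∈ (univ : Finset (Fin (m + 1))),
          W i a * PowerSeries.C (Pd.cf (hsp e F x y) n a) =
          ∑ b', tayH x d (Q' i b') * (PowerSeries.C (Pd.cf (hsp e F x y) n a) * U a b') := by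
        intro a _
        rw [hW]
        beta_reduce
        rw [Finset.sum_mul]
        refine Finset.sum_congr rfl fun b' _ => ?_
        ring
      rw [Finset.sum_congr rfl h2, Finset.sum_comm]
      have h3 : ∀ b' ∈ (univ : Finset (Fin (m + 1))),
          ∑ a : Fin (m + 1), tayH x d (Q' i b') *
            (PowerSeries.C (Pd.cf (hsp e F x y) n a) * U a b') =
          tayH x d (Q' i b' * Pd.cf (hfm e F y) n b') := by
        intro b' _
        rw [← Finset.mul_sum, hU1 b', tay_eq, map_mul]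
      rw [Finset.sum_congr rfl h3, ← map_sum, hQ'0 i, map_zero]
    have h4 := congrArg (PowerSeries.coeff (r i.succ)) h1
    rw [map_sum, map_zero] at h4
    rw [← h4]
    refine Finset.sum_congr rfl fun a _ => ?_
    rw [PowerSeries.coeff_mul_C]
  · intro φ i j
    set t := tt φ x y with ht
    have ht1 : 1 ≤ t := htt φ
    have ht0 : 0 ≤ t := by linarith
    set L := ℓ i + h + e * m with hL
    have hLn : L ≤ ((e * (m + 1) + e * m) + 1) * n := by
      have h1 := hℓ3 i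
      have h3 : ((e * (m + 1) + e * m) + 1) * n = e * (m + 1) * n + e * m * n + n := by ring
      have h4 : e * m ≤ e * m * n := Nat.le_mul_of_pos_right _ (by omega)
      omega
    have hrn : r i.succ ≤ m * n := by
      have h1 : r i.succ ≤ ∑ i : Fin m, r i.succ :=
        Finset.single_le_sum (f := fun i : Fin m => r i.succ) (fun _ _ => Nat.zero_le _)
          (Finset.mem_univ i)
      exact h1.trans (hrs.trans (Nat.mul_le_mul_left m hhn))
    have hCHt : 1 ≤ C₀ * H * t := one_le_mul_of_one_le_of_one_le hCH ht1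
    have hCHt0 : 0 ≤ C₀ * H * t := by linarith
    have hCH0 : 0 ≤ C₀ * H := by linarith
    have hC1H0 : 0 ≤ C₁ * H := mul_nonneg hC₁0 hH0
    have hdn : ‖res φ d‖ ≤ (C₀ * H) ^ s₀ * t ^ s₀' := by
      refine (prHEV.2.2.2 (𝓞 K) (res φ) s₀' Δ x y hΔd).trans ?_
      exact mul_le_mul_of_nonneg_right (hΔn φ) (pow_nonneg ht0 _)
    have hb1 : ∀ b', ‖res φ (PowerSeries.coeff (r i.succ) (U j b' * tayH x d (Q' i b')))‖ ≤
        (C₀ ^ n * (C₀ * H * t) ^ s₀) * (2 ^ L * ((C₁ * H) ^ s') ^ n * t ^ L) *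
          (2 * ((C₀ * H * t) ^ s₀ * ((C₀ * H) ^ s₀ * t ^ s₀'))) ^ r i.succ := by
      intro b'
      refine norm_mul_le (res φ) _ _ _ _ _ _
        (mul_nonneg (pow_nonneg hC₀0 _) (pow_nonneg hCHt0 _)) (one_le_pow₀ hCHt)
        (one_le_mul_of_one_le_of_one_le (one_le_pow₀ hCH) (one_le_pow₀ ht1))
        (mul_nonneg (mul_nonneg (by positivity) (pow_nonneg (pow_nonneg hC1H0 _) _))
          (pow_nonneg ht0 _)) (fun r => ?_) (fun r => ?_) _
      · refine (hU2 φ j b' r).trans (le_of_eq ?_)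
        have e : (C₀ * H * t) ^ (s₀ * (r + 1)) =
            (C₀ * H * t) ^ s₀ * ((C₀ * H * t) ^ s₀) ^ r := by
          rw [← pow_mul, ← pow_add]
          congr 1
          ring
        rw [e, ← mul_assoc]
      · have hbm : (b' : ℕ) ≤ m := by have := b'.2; omega
        have hebm : e * (b' : ℕ) ≤ e * m := Nat.mul_le_mul_left e hbm
        rw [coeff_tayH, map_mul, norm_mul, map_pow, norm_pow]
        have h1 := hB3e (𝓞 K) (res φ) (ℓ i + h + e * (b' : ℕ)) r (Q i b') x y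
          ((hQd i b').trans (by omega)) (htt φ)
        have h2 : (2 : ℝ) ^ (ℓ i + h + e * (b' : ℕ)) ≤ 2 ^ L :=
          pow_le_pow_right₀ (by norm_num) (by omega)
        have h3 : t ^ (ℓ i + h + e * (b' : ℕ)) ≤ t ^ L :=
          pow_le_pow_right₀ ht1 (by omega)
        have h4 : (2 : ℝ) ^ (ℓ i + h + e * (b' : ℕ)) * pn (res φ) (Q i b') *
            max ‖res φ x‖ ‖res φ y‖ ^ (ℓ i + h + e * (b' : ℕ)) ≤
            2 ^ L * ((C₁ * H) ^ s') ^ n * t ^ L := by
          refine mul_le_mul (mul_le_mul h2 (hQn φ i b') (hpn0 φ _) (by positivity)) h3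
            (pow_nonneg ht0 _) (mul_nonneg (by positivity) (pow_nonneg (pow_nonneg hC1H0 _) _))
        exact mul_le_mul (h1.trans h4) (pow_le_pow_left₀ (norm_nonneg _) hdn r)
          (pow_nonneg (norm_nonneg _) _)
          (mul_nonneg (mul_nonneg (by positivity) (pow_nonneg (pow_nonneg hC1H0 _) _))
            (pow_nonneg ht0 _))
    have h1 : ‖res φ (PowerSeries.coeff (r i.succ) (W i j))‖ ≤
        (m + 1) * ((C₀ ^ n * (C₀ * H * t) ^ s₀) * (2 ^ L * ((C₁ * H) ^ s') ^ n * t ^ L) *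
          (2 * ((C₀ * H * t) ^ s₀ * ((C₀ * H) ^ s₀ * t ^ s₀'))) ^ r i.succ) := by
      rw [hW]
      beta_reduce
      rw [map_sum, map_sum]
      refine (norm_sum_le _ _).trans ((Finset.sum_le_sum fun b' _ => hb1 b').trans ?_)
      rw [Finset.sum_const, Finset.card_univ, Fintype.card_fin, nsmul_eq_mul]
      push_cast
      exact le_rfl
    refine h1.trans ?_
    have h2 : ((m : ℝ) + 1) * ((C₀ ^ n * (C₀ * H * t) ^ s₀) *
          (2 ^ L * ((C₁ * H) ^ s') ^ n * t ^ L) *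
          (2 * ((C₀ * H * t) ^ s₀ * ((C₀ * H) ^ s₀ * t ^ s₀'))) ^ r i.succ) =
        (((m : ℝ) + 1) * C₀ ^ n * (C₀ * H) ^ s₀ * 2 ^ L * ((C₁ * H) ^ s') ^ n *
          (2 * ((C₀ * H) ^ s₀ * (C₀ * H) ^ s₀)) ^ r i.succ) *
          t ^ (ℓ i + h + (s₀ + e * m) + (s₀ + s₀') * r i.succ) := by
      have e1 : (2 * ((C₀ * H * t) ^ s₀ * ((C₀ * H) ^ s₀ * t ^ s₀'))) =
          (2 * ((C₀ * H) ^ s₀ * (C₀ * H) ^ s₀)) * t ^ (s₀ + s₀') := by
        rw [mul_pow (C₀ * H) t, pow_add]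
        ring
      have e2 : ℓ i + h + (s₀ + e * m) + (s₀ + s₀') * r i.succ =
          L + s₀ + (s₀ + s₀') * r i.succ := by
        rw [hL]
        ring
      rw [e1, mul_pow (2 * ((C₀ * H) ^ s₀ * (C₀ * H) ^ s₀)), ← pow_mul, e2, pow_add t (L + s₀),
        pow_add t L, mul_pow (C₀ * H) t]
      ring
    rw [h2]
    refine mul_le_mul_of_nonneg_right ?_ (pow_nonneg ht0 _)
    exact const_le m (e * (m + 1) + e * m) s₀ s' n L (r i.succ) C₀ C₁ H hC₀ hC₁ hH1 hn hLn hrn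

end Pool.Agent.Work.MP_8d13b5_lc.Fm
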