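import Pool.Agent.Work.MP_8d13b5_lc.Fm.StmtsY

set_option autoImplicit false

/-! # KRY: uniqueness of the polynomial coefficients -/

namespace Pool.Agent.Work.MP_8d13b5_lc.Fm

open Polynomial NumberField Finset Module

namespace KRY

/-- The values of a polynomial grow at most polynomially. -/
theorem poly_bound (P : ℤ[X]) : ∃ A r : ℕ, ∀ n : ℕ, (P.eval (n : ℤ)).natAbs ≤ A * (n + 1) ^ r := by
  induction P using Polynomial.induction_on' with
  | add p q hp hq =>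
    obtain ⟨A, r, h1⟩ := hp
    obtain ⟨B, s, h2⟩ := hq
    refine ⟨A + B, r + s, fun n => ?_⟩
    rw [eval_add]
    have h3 : (n + 1) ^ r ≤ (n + 1) ^ (r + s) := Nat.pow_le_pow_right (by omega) (by omega)
    have h4 : (n + 1) ^ s ≤ (n + 1) ^ (r + s) := Nat.pow_le_pow_right (by omega) (by omega)
    calc (p.eval (n : ℤ) + q.eval (n : ℤ)).natAbs
        ≤ (p.eval (n : ℤ)).natAbs + (q.eval (n : ℤ)).natAbs := Int.natAbs_add_le _ _
      _ ≤ A * (n + 1) ^ (r + s) + B * (n + 1) ^ (r + s) :=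
          add_le_add ((h1 n).trans (Nat.mul_le_mul_left _ h3))
            ((h2 n).trans (Nat.mul_le_mul_left _ h4))
      _ = (A + B) * (n + 1) ^ (r + s) := by ring
  | monomial k a =>
    refine ⟨a.natAbs, k, fun n => ?_⟩
    rw [eval_monomial, Int.natAbs_mul, Int.natAbs_pow, Int.natAbs_natCast]
    exact Nat.mul_le_mul_left _ (Nat.pow_le_pow_left (by omega) _)

/-- The same for a finite family. -/
theorem fam_bound {m : ℕ} (v : Fin m → ℤ[X]) :
    ∃ A r : ℕ, ∀ n : ℕ, ∑ i, ((v i).eval (n : ℤ)).natAbs ≤ A * (n + 1) ^ r := by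
  choose A r h using fun i => poly_bound (v i)
  refine ⟨∑ i, A i, ∑ i, r i, fun n => ?_⟩
  rw [Finset.sum_mul]
  refine Finset.sum_le_sum fun i hi => (h i n).trans (Nat.mul_le_mul_left _ ?_)
  exact Nat.pow_le_pow_right (by omega) (Finset.single_le_sum (fun _ _ => Nat.zero_le _) hi)

/-- Powers of two beat polynomials. -/
theorem two_pow (K R : ℕ) : ∃ N : ℕ, ∀ n : ℕ, N ≤ n → K * (n + 1) ^ R < 2 ^ n := by
  have h1 := tendsto_pow_const_div_const_pow_of_one_lt R (one_lt_two : (1 : ℝ) < 2)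
  have h2 := h1.comp (Filter.tendsto_add_atTop_nat 1)
  have h3 : ∀ᶠ n : ℕ in Filter.atTop,
      (((n + 1 : ℕ) : ℝ) ^ R / (2 : ℝ) ^ (n + 1)) < 1 / (2 * ((K : ℝ) + 1)) :=
    h2.eventually_lt_const (by positivity)
  obtain ⟨N, hN⟩ := Filter.eventually_atTop.mp h3
  refine ⟨N, fun n hn => ?_⟩
  have h4 := hN n hn
  rw [div_lt_div_iff₀ (by positivity) (by positivity), one_mul, pow_succ (2 : ℝ) n] at h4
  have h5 : (K : ℝ) * ((n + 1 : ℕ) : ℝ) ^ R < 2 ^ n := by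
    have h6 : (0 : ℝ) ≤ ((n + 1 : ℕ) : ℝ) ^ R := by positivity
    nlinarith
  exact_mod_cast h5

/-- A nonzero polynomial has nonzero values at arbitrarily large integers. -/
theorem exists_ne (P : ℤ[X]) (hP : P ≠ 0) (N : ℕ) : ∃ n : ℕ, N ≤ n ∧ P.eval (n : ℤ) ≠ 0 := by
  by_contra h
  push Not at h
  apply hP
  apply Polynomial.eq_zero_of_infinite_isRoot
  have h1 : Set.Infinite ((fun n : ℕ => (n : ℤ)) '' Set.Ici N) :=
    (Set.Ici_infinite N).image (fun a _ b _ hab => by exact_mod_cast hab)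
  refine h1.mono ?_
  rintro _ ⟨n, hn, rfl⟩
  exact h n hn

end KRY

theorem prKRY (h1 : StXIZ) : StKRY := by
  intro m σ hm
  obtain ⟨c, hc, h⟩ := h1 m σ hm
  refine ⟨c ^ 2 + 1, by omega, ?_⟩
  intro H F hF t ht v hv
  by_contra hne
  have hH := hF.one
  have hc2 : c ≤ c ^ 2 + 1 := by nlinarith
  have hbase : c * H ≤ (c ^ 2 + 1) * H := Nat.mul_le_mul_right _ hc2
  have hcH : 1 ≤ c * H := Nat.mul_pos hc hH
  have ht1 : (c * H) ^ c ≤ t.natAbs := by
    refine le_trans ?_ ht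
    calc (c * H) ^ c ≤ (c * H) ^ (c ^ 2 + 1) := Nat.pow_le_pow_right hcH hc2
      _ ≤ ((c ^ 2 + 1) * H) ^ (c ^ 2 + 1) := Nat.pow_le_pow_left hbase _
  set x := t.natAbs with hx
  set y := (c * H) ^ (c ^ 2) with hy
  have hypos : 0 < y := Nat.pow_pos hcH
  have hxy : 2 * y ≤ x := by
    refine le_trans ?_ ht
    have h2 : 2 ≤ (c ^ 2 + 1) * H := by nlinarith
    calc 2 * y ≤ ((c ^ 2 + 1) * H) * ((c ^ 2 + 1) * H) ^ (c ^ 2) :=
          Nat.mul_le_mul h2 (Nat.pow_le_pow_left hbase _)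
      _ = ((c ^ 2 + 1) * H) ^ (c ^ 2 + 1) := by ring
  obtain ⟨i₀, hi₀⟩ : ∃ i, v i ≠ 0 := by
    by_contra hcon
    push Not at hcon
    exact hne (funext hcon)
  obtain ⟨A, r, hA⟩ := KRY.fam_bound v
  obtain ⟨N, hN⟩ := KRY.two_pow (y * x ^ (c ^ 2) * A ^ c) (r * c)
  obtain ⟨n, hn, hn0⟩ := KRY.exists_ne (v i₀) hi₀ N
  have h3 := h H F hF t ht1 n (fun i => (v i).eval (n : ℤ))
    (fun h0 => hn0 (congrFun h0 i₀)) (by
      rw [← hv n]
      exact Finset.sum_congr rfl fun i _ => mul_comm _ _)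
  have h4 : x ^ n ≤ y ^ n * (y * x ^ (c ^ 2) * A ^ c * (n + 1) ^ (r * c)) := by
    calc x ^ n ≤ (((c * H) ^ c) ^ (n + 1) * x ^ c *
          ∑ j, ((v j).eval (n : ℤ)).natAbs) ^ c := h3
      _ ≤ (((c * H) ^ c) ^ (n + 1) * x ^ c * (A * (n + 1) ^ r)) ^ c :=
          Nat.pow_le_pow_left (Nat.mul_le_mul_left _ (hA n)) _
      _ = y ^ n * (y * x ^ (c ^ 2) * A ^ c * (n + 1) ^ (r * c)) := by
          rw [hy]
          ring
  have h5 : 2 ^ n * y ^ n ≤ x ^ n := by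
    rw [← mul_pow]
    exact Nat.pow_le_pow_left hxy n
  have h6 : y ^ n * 2 ^ n ≤ y ^ n * (y * x ^ (c ^ 2) * A ^ c * (n + 1) ^ (r * c)) := by
    rw [mul_comm (y ^ n) (2 ^ n)]
    exact h5.trans h4
  have h7 := Nat.le_of_mul_le_mul_left h6 (Nat.pow_pos hypos)
  have h8 := hN n hn
  omega

end Pool.Agent.Work.MP_8d13b5_lc.Fm
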