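import Pool.Agent.Work.MP_8d13b5_lc.Fm.StmtsHom
import Pool.Agent.Work.MP_8d13b5_lc.Fm.I_ZRY
import Pool.Agent.Work.MP_8d13b5_lc.Fm.I_KRY

/-!
# MP_8d13b5_lc, block FMH, item HZY: zeros with multiplicities, homogeneous form
-/

set_option autoImplicit false

namespace Pool.Agent.Work.MP_8d13b5_lc.Fm

open Polynomial NumberField Finset Module

namespace HZY

/-- the inequality of HIZ for a polynomial `g` -/
def Ineq (m c₁ H T : ℕ) (g : ℤ[X]) : Prop :=
  ∀ (n : ℕ) (a : Fin (m + 1) → ℤ), a ≠ 0 → ∑ j, a j * Pd.cf g n j = 0 →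
    T ^ n ≤ (((c₁ * H) ^ c₁) ^ (n + 1) * T ^ c₁ * ∑ j, (a j).natAbs) ^ c₁

/-- uniqueness -/
theorem uniq (m c H x : ℕ) (g : ℤ[X]) (hc : 1 ≤ c) (hH : 1 ≤ H)
    (ht : ((c ^ 2 + 1) * H) ^ (c ^ 2 + 1) ≤ x) (h : Ineq m c H x g) (v : Fin (m + 1) → ℤ[X])
    (hv : ∀ n : ℕ, ∑ i : Fin (m + 1), Pd.cf g n i * (v i).eval (n : ℤ) = 0) : v = 0 := by
  by_contra hne
  have hc2 : c ≤ c ^ 2 + 1 := by nlinarith
  have hbase : c * H ≤ (c ^ 2 + 1) * H := Nat.mul_le_mul_right _ hc2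
  have hcH : 1 ≤ c * H := Nat.mul_pos hc hH
  set y := (c * H) ^ (c ^ 2) with hy
  have hypos : 0 < y := Nat.pow_pos hcH
  have hxy : 2 * y ≤ x := by
    refine le_trans ?_ ht
    have h2 : 2 ≤ (c ^ 2 + 1) * H := by nlinarith
    calc 2 * y ≤ ((c ^ 2 + 1) * H) * ((c ^ 2 + 1) * H) ^ (c ^ 2) :=
          Nat.mul_le_mul h2 (Nat.pow_le_pow_left hbase _)
      _ = ((c ^ 2 + 1) * H) ^ (c ^ 2 + 1) := by ring
  obtain ⟨i₀, hi₀⟩ : ∃ i, v i ≠ 0 := by
    by_contra hcon
    push Not at hcon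
    exact hne (funext hcon)
  obtain ⟨A, r, hA⟩ := KRY.fam_bound v
  obtain ⟨N, hN⟩ := KRY.two_pow (y * x ^ (c ^ 2) * A ^ c) (r * c)
  obtain ⟨n, hn, hn0⟩ := KRY.exists_ne (v i₀) hi₀ N
  have h3 := h n (fun i => (v i).eval (n : ℤ))
    (fun h0 => hn0 (congrFun h0 i₀)) (by
      rw [← hv n]
      exact Finset.sum_congr rfl fun i _ => mul_comm _ _)
  have h4 : x ^ n ≤ y ^ n * (y * x ^ (c ^ 2) * A ^ c * (n + 1) ^ (r * c)) := by
    calc x ^ n ≤ (((c * H) ^ c) ^ (n + 1) * x ^ c *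
          ∑ j, ((v j).eval (n : ℤ)).natAbs) ^ c := h3
      _ ≤ (((c * H) ^ c) ^ (n + 1) * x ^ c * (A * (n + 1) ^ r)) ^ c :=
          Nat.pow_le_pow_left (Nat.mul_le_mul_left _ (hA n)) _
      _ = y ^ n * (y * x ^ (c ^ 2) * A ^ c * (n + 1) ^ (r * c)) := by
          rw [hy]
          ring
  have h5 : 2 ^ n * y ^ n ≤ x ^ n := by
    rw [← mul_pow]
    exact Nat.pow_le_pow_left hxy n
  have h6 : y ^ n * 2 ^ n ≤ y ^ n * (y * x ^ (c ^ 2) * A ^ c * (n + 1) ^ (r * c)) := by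
    rw [mul_comm (y ^ n) (2 ^ n)]
    exact h5.trans h4
  have h7 := Nat.le_of_mul_le_mul_left h6 (Nat.pow_pos hypos)
  have h8 := hN n hn
  omega

/-- a zero of a form divides a coefficient -/
theorem dvd_coeff (x y : ℤ) (hxy : IsCoprime x y) (hy : y ≠ 0) : ∀ (d : ℕ) (a : ℕ → ℤ),
    (∃ j ≤ d, a j ≠ 0) → ∑ i ∈ range (d + 1), a i * x ^ i * y ^ (d - i) = 0 →
    ∃ j ≤ d, a j ≠ 0 ∧ y ∣ a j := by
  intro d
  induction d with
  | zero =>
    intro a ha h
    obtain ⟨j, hj, hja⟩ := ha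
    have hj0 : j = 0 := by omega
    subst hj0
    simp at h
    exact absurd h hja
  | succ d ih =>
    intro a ha h
    rw [sum_range_succ, Nat.sub_self, pow_zero, mul_one] at h
    have e1 : ∑ i ∈ range (d + 1), a i * x ^ i * y ^ (d + 1 - i) =
        y * ∑ i ∈ range (d + 1), a i * x ^ i * y ^ (d - i) := by
      rw [mul_sum]
      apply sum_congr rfl
      intro i hi
      rw [mem_range] at hi
      have : d + 1 - i = (d - i) + 1 := by omega
      rw [this, pow_succ]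
      ring
    rw [e1] at h
    by_cases h0 : a (d + 1) = 0
    · rw [h0, zero_mul, add_zero] at h
      obtain ⟨j, hj, hja⟩ := ha
      obtain ⟨j', hj', hja'⟩ := ih a ⟨j, by
        rcases Nat.lt_or_eq_of_le hj with h1 | h1
        · omega
        · rw [h1] at hja
          exact absurd h0 hja, hja⟩ ((mul_eq_zero.1 h).resolve_left hy)
      exact ⟨j', by omega, hja'⟩
    · refine ⟨d + 1, le_rfl, h0, ?_⟩
      have h1 : y ∣ a (d + 1) * x ^ (d + 1) := ⟨-∑ i ∈ range (d + 1), a i * x ^ i * y ^ (d - i), by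
        linear_combination h⟩
      exact (hxy.symm.pow_right).dvd_of_dvd_mul_right h1

/-- a zero of a form is small -/
theorem zero_small (d H : ℕ) (P : ℤ[X]) (x y : ℤ) (hxy : IsCoprime x y) (hd : P.natDegree ≤ d)
    (hP : P ≠ 0) (hH : ∀ j, (P.coeff j).natAbs ≤ H) (hH1 : 1 ≤ H) (h : hev d P x y = 0) :
    mx x y ≤ H := by
  have hex : ∃ j ≤ d, P.coeff j ≠ 0 := ⟨P.natDegree, hd, by
    rw [coeff_natDegree]
    exact leadingCoeff_ne_zero.2 hP⟩
  have hy1 : y.natAbs ≤ H := by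
    by_cases hy : y = 0
    · rw [hy]; simp
    · obtain ⟨j, _, hj0, hj⟩ := dvd_coeff x y hxy hy d (fun j => P.coeff j) hex h
      exact (Nat.le_of_dvd (Int.natAbs_pos.2 hj0) (Int.natAbs_dvd_natAbs.2 hj)).trans (hH j)
  have hx1 : x.natAbs ≤ H := by
    by_cases hx : x = 0
    · rw [hx]; simp
    · have h' : ∑ i ∈ range (d + 1), P.coeff (d - i) * y ^ i * x ^ (d - i) = 0 := by
        rw [← h]
        unfold hev
        rw [← sum_range_reflect]
        apply sum_congr rfl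
        intro i hi
        rw [mem_range] at hi
        have e1 : d + 1 - 1 - i = d - i := by omega
        have e2 : d - (d - i) = i := by omega
        rw [e1, e2]
        ring
      obtain ⟨j, hj, hja⟩ := hex
      obtain ⟨j', _, hj0, hjd⟩ := dvd_coeff y x hxy.symm hx d (fun j => P.coeff (d - j))
        ⟨d - j, by omega, by
          have : d - (d - j) = j := by omega
          rw [this]
          exact hja⟩ h'
      exact (Nat.le_of_dvd (Int.natAbs_pos.2 hj0) (Int.natAbs_dvd_natAbs.2 hjd)).trans (hH _)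
  exact max_le hx1 hy1

/-- the size of a value of a form -/
theorem hev_le (d H : ℕ) (P : ℤ[X]) (x y : ℤ) (hH : ∀ j, (P.coeff j).natAbs ≤ H)
    (hT : 1 ≤ mx x y) : (hev d P x y).natAbs ≤ (d + 1) * H * mx x y ^ d := by
  unfold hev
  refine (Int.natAbs_sum_le _ _).trans ?_
  have h1 : ∀ i ∈ range (d + 1), (P.coeff i * x ^ i * y ^ (d - i)).natAbs ≤ H * mx x y ^ d := by
    intro i hi
    rw [mem_range] at hi
    rw [Int.natAbs_mul, Int.natAbs_mul, Int.natAbs_pow, Int.natAbs_pow, mul_assoc]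
    apply Nat.mul_le_mul (hH i)
    calc x.natAbs ^ i * y.natAbs ^ (d - i) ≤ mx x y ^ i * mx x y ^ (d - i) :=
          Nat.mul_le_mul (Nat.pow_le_pow_left (le_max_left _ _) _)
            (Nat.pow_le_pow_left (le_max_right _ _) _)
      _ = mx x y ^ d := by
          rw [← pow_add]
          congr 1
          omega
  refine (sum_le_sum h1).trans ?_
  rw [sum_const, card_range, smul_eq_mul, mul_assoc]

theorem cf_eq (b : ℤ) (n : ℕ) : Pd.cf (X - C b) n 0 = b ^ n := by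
  unfold Pd.cf
  rw [modByMonic_X_sub_C_eq_C_eval, coeff_C_zero]
  simp

/-- the inequality, all orders -/
theorem ineq (hHIZ : StHIZ) (hHB1 : StHB1) (m e : ℕ) : ∃ c : ℕ, 1 ≤ c ∧
    ∀ (H : ℕ) (F : ℤ[X][X]), IsE (m + 1) e H F →
    NonConst (F.map (mapRingHom (Int.castRingHom ℂ))) →
    ∀ x y : ℤ, IsCoprime x y → (c * H) ^ c ≤ mx x y → Ineq m c H (mx x y) (hsp e F x y) := by
  rcases Nat.eq_zero_or_pos m with hm | hm
  · subst hm
    refine ⟨2, by norm_num, ?_⟩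
    intro H F hF _ x y hxy hT n a ha hsum
    exfalso
    have hH := hF.one
    have hgm := (hHB1.1 ℤ e F x y hF.monic).1
    have hgd := (hHB1.1 ℤ e F x y hF.monic).2.1
    have hg0 := (hHB1.1 ℤ e F x y hF.monic).2.2 0 (Nat.zero_le _)
    rw [hF.deg] at hgd hg0
    have hne : (hsp e F x y).coeff 0 ≠ 0 := by
      intro h0
      rw [hg0] at h0
      have h1 := zero_small _ H (F.coeff 0) x y hxy (by
        have := hF.wt 0
        rw [hF.deg] at this
        exact this) hF.ne (hF.ht 0) hH h0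
      have h2 : (2 * H) ^ 2 = H * (4 * H) := by ring
      have h3 : 4 * H ≤ H * (4 * H) := Nat.le_mul_of_pos_left _ hH
      omega
    have hg : hsp e F x y = X - C (-(hsp e F x y).coeff 0) := by
      rw [C_neg, sub_neg_eq_add]
      exact hgm.eq_X_add_C hgd
    apply ha
    funext i
    have hi : i = 0 := Fin.eq_zero i
    have h4 : a 0 * Pd.cf (hsp e F x y) n 0 = 0 := (Fin.sum_univ_one _).symm.trans hsum
    rw [hg, cf_eq] at h4
    rw [hi]
    exact (mul_eq_zero.1 h4).resolve_right (pow_ne_zero _ (neg_ne_zero.2 hne))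
  · obtain ⟨c, hc, h⟩ := hHIZ m e hm
    exact ⟨c, hc, fun H F hF hN x y hxy hT => h H F hF hN x y hxy hT⟩

end HZY

open HZY in
/-- Item HZY. -/
theorem prHZY (hHIZ : StHIZ) (hADY : StADY) (hHB1 : StHB1) : StHZY := by
  intro k e M hk hM
  obtain ⟨m, rfl⟩ : ∃ m, k = m + 1 := ⟨k - 1, by omega⟩
  obtain ⟨c₁, hc₁, k1⟩ := ineq hHIZ hHB1 m e
  obtain ⟨c₂, hc₂⟩ : ∃ c₂, c₂ = c₁ ^ 2 + 1 := ⟨_, rfl⟩
  obtain ⟨c₃, k3⟩ := hADY m M hM
  obtain ⟨σ, hσ⟩ : ∃ σ, σ = e * (m + 1) := ⟨_, rfl⟩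
  obtain ⟨E, hE⟩ : ∃ E, E = (σ + 3) * c₃ := ⟨_, rfl⟩
  obtain ⟨c, hc⟩ : ∃ c, c = 2 + c₁ + c₂ + c₃ + (σ + 2) + (m + 1) * M + 2 * c₁ * (c₁ + M) +
    2 * c₁ * (c₁ + 2 + E) + (E + 1) := ⟨_, rfl⟩
  have q0 : 2 ≤ c := by omega
  have q1 : c₁ ≤ c := by omega
  have q2 : c₂ ≤ c := by omega
  have q3 : c₃ ≤ c := by omega
  have q4 : σ + 2 ≤ c := by omega
  have q5 : (m + 1) * M ≤ c := by omega
  have q6 : 2 * c₁ * (c₁ + M) ≤ c := by omega
  have q7 : 2 * c₁ * (c₁ + 2 + E) ≤ c := by omega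
  have q8 : E + 1 ≤ c := by omega
  refine ⟨c, by omega, ?_⟩
  intro H F hF hNC x y hxy ht z hz
  have hH : 1 ≤ H := hF.one
  obtain ⟨T, hTd⟩ : ∃ T, T = mx x y := ⟨_, rfl⟩
  rw [← hTd] at ht
  have hcH1 : c ≤ c * H := Nat.le_mul_of_pos_right c hH
  have hcH2 : H ≤ c * H := Nat.le_mul_of_pos_left H (by omega)
  have hcHT : c * H ≤ T := (Nat.le_self_pow (by omega) (c * H)).trans ht
  have hcT : c ≤ T := hcH1.trans hcHT
  have hHT : H ≤ T := hcH2.trans hcHT
  have hT1 : 1 ≤ T := by omega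
  have hpow : ∀ a, a ≤ c → (a * H) ^ a ≤ T := by
    intro a ha
    calc (a * H) ^ a ≤ (c * H) ^ a := Nat.pow_le_pow_left (Nat.mul_le_mul_right H ha) a
      _ ≤ (c * H) ^ c := Nat.pow_le_pow_right (by omega) ha
      _ ≤ T := ht
  set g := hsp e F x y with hg
  have hgm : g.Monic := (hHB1.1 ℤ e F x y hF.monic).1
  have hgd : g.natDegree = m + 1 := by
    rw [hg, (hHB1.1 ℤ e F x y hF.monic).2.1, hF.deg]
  have hIneq : Ineq m c₁ H T g := by
    rw [hTd]
    exact k1 H F hF hNC x y hxy (by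
      rw [← hTd]
      exact hpow c₁ q1)
  obtain ⟨Y, hY⟩ : ∃ Y, Y = (σ + 2) * H * T ^ σ := ⟨_, rfl⟩
  have hY1 : 1 ≤ Y := by
    rw [hY]
    exact Nat.mul_pos (Nat.mul_pos (by omega) hH) (Nat.pow_pos hT1)
  have hYc : ∀ i, (g.coeff i).natAbs ≤ Y := by
    intro i
    rcases Nat.lt_or_ge (m + 1) i with hi | hi
    · rw [coeff_eq_zero_of_natDegree_lt (by rw [hgd]; exact hi)]
      simp
    · rw [hg, (hHB1.1 ℤ e F x y hF.monic).2.2 i (by rw [hF.deg]; exact hi), hF.deg]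
      have hD : e * (m + 1 - i) ≤ σ := by
        rw [hσ]
        exact Nat.mul_le_mul_left e (Nat.sub_le _ _)
      refine (hev_le _ H _ x y (hF.ht i) (by rw [← hTd]; exact hT1)).trans ?_
      rw [← hTd, hY]
      exact Nat.mul_le_mul (Nat.mul_le_mul_right H (by omega)) (Nat.pow_le_pow_right hT1 hD)
  have hYT : Y ≤ T ^ (σ + 2) := by
    rw [hY]
    calc (σ + 2) * H * T ^ σ ≤ T * T * T ^ σ :=
          Nat.mul_le_mul_right _ (Nat.mul_le_mul (q4.trans hcT) hHT)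
      _ = T ^ (σ + 2) := by ring
  have hcY : (c₃ * Y) ^ c₃ ≤ T ^ E := by
    calc (c₃ * Y) ^ c₃ ≤ (T * T ^ (σ + 2)) ^ c₃ :=
          Nat.pow_le_pow_left (Nat.mul_le_mul (q3.trans hcT) hYT) c₃
      _ = T ^ E := by
          rw [hE, pow_mul]
          congr 1
          ring
  have hsol : Pd.Sol (g ^ M) z := fun n => hz n
  by_cases hz0 : ∀ n, z n = 0
  · exact Or.inl hz0
  right
  intro B hB
  rw [← hTd]
  obtain ⟨δ, v, hδ, hvd, hv, hvc⟩ := k3 g Y hgm hgd hY1 hYc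
    (fun v _ hv => uniq m c₁ H T g hc₁ hH (by
      rw [← hc₂]
      exact hpow c₂ q2) hIneq v hv) z B hsol hB
  obtain ⟨i₀, hi₀⟩ : ∃ i, v i ≠ 0 := by
    by_contra hcon
    push Not at hcon
    apply hz0
    intro n
    have h4 := hv n
    rw [sum_eq_zero (fun i _ => by rw [hcon i]; simp)] at h4
    exact (mul_eq_zero.1 h4).resolve_left hδ
  obtain ⟨K, hK⟩ : ∃ K, K = (c₃ * Y) ^ c₃ * B := ⟨_, rfl⟩
  have hvK : ∀ i l, ((v i).coeff l).natAbs ≤ K := by
    intro i l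
    rw [hK]
    exact hvc i l
  have hB1 : 1 ≤ B := by
    by_contra hcon
    have hB0 : B = 0 := by omega
    apply hi₀
    ext l
    have := hvK i₀ l
    rw [hK, hB0, mul_zero, Nat.le_zero, Int.natAbs_eq_zero] at this
    rw [this, coeff_zero]
  have hKT : K ≤ T ^ E * B := by
    rw [hK]
    exact Nat.mul_le_mul_right B hcY
  have hBT : 1 ≤ B * T := Nat.mul_pos hB1 hT1
  have key : ∀ n, z n = 0 → (∀ i, (v i).eval (n : ℤ) = 0) ∨ T ^ n ≤ (B * T) ^ c := by
    intro n hn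
    by_cases ha : ∀ i, (v i).eval (n : ℤ) = 0
    · exact Or.inl ha
    right
    have h5 := hIneq n (fun i => (v i).eval (n : ℤ)) (by
        intro h
        apply ha
        intro i
        exact congrFun h i) (by
        have h6 := hv n
        rw [hn, mul_zero] at h6
        rw [h6]
        apply sum_congr rfl
        intro i _
        exact mul_comm _ _)
    refine (ZRY.num c₁ c M H T n _ B E q0 hH q1 q6 ht hB1 ?_ h5).trans
      (Nat.pow_le_pow_right hBT q7)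
    calc ∑ j, ((v j).eval (n : ℤ)).natAbs ≤ ∑ _j : Fin (m + 1), M * (K * 2 ^ (n * M)) :=
          sum_le_sum fun j _ => ZRY.eval_le K M n (v j) (hvd j) (hvK j)
      _ = (m + 1) * M * K * 2 ^ (n * M) := by
          rw [sum_const, card_univ, Fintype.card_fin, smul_eq_mul]
          ring
      _ ≤ T * (T ^ E * B) * 2 ^ (n * M) :=
          Nat.mul_le_mul_right _ (Nat.mul_le_mul (q5.trans hcT) hKT)
      _ = T * T ^ E * B * 2 ^ (n * M) := by ring
  constructor
  · intro n hn hzn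
    rcases key n hzn with h | h
    · have h6 := ZRY.root_le K n _ (v i₀) le_rfl hi₀ (h i₀) (hvK i₀)
      have h7 : K ≤ (B * T) ^ c := by
        calc K ≤ T ^ E * B := hKT
          _ ≤ (B * T) ^ E * (B * T) := by
              apply Nat.mul_le_mul
              · exact Nat.pow_le_pow_left (Nat.le_mul_of_pos_left T hB1) E
              · exact Nat.le_mul_of_pos_right B hT1
          _ = (B * T) ^ (E + 1) := by rw [pow_succ]
          _ ≤ (B * T) ^ c := Nat.pow_le_pow_right hBT q8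
      omega
    · have h6 : n < 2 ^ n := Nat.lt_two_pow_self
      have h7 : 2 ^ n ≤ T ^ n := Nat.pow_le_pow_left (by omega) n
      omega
  · classical
    refine ⟨((v i₀).roots.toFinset).image Int.natAbs, ?_, ?_⟩
    · calc (((v i₀).roots.toFinset).image Int.natAbs).card ≤ (v i₀).roots.toFinset.card :=
            card_image_le
        _ ≤ (v i₀).roots.card := Multiset.toFinset_card_le _
        _ ≤ (v i₀).natDegree := card_roots' _
        _ < M := hvd i₀
    · intro n hn hzn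
      rcases key n hzn with h | h
      · rw [mem_image]
        refine ⟨(n : ℤ), ?_, Int.natAbs_natCast n⟩
        rw [Multiset.mem_toFinset, mem_roots hi₀]
        exact h i₀
      · omega

end Pool.Agent.Work.MP_8d13b5_lc.Fm
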