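import Pool.Agent.Work.MP_8d13b5_lc.Fm.StmtsEff
import Pool.Agent.Work.MP_8d13b5_lc.Fm.I_HZY

set_option autoImplicit false

/-! Item eHZY of block EFF: zeros with multiplicities, homogeneous form, effective constants. Copy of `I_HZY.lean`. -/

namespace Pool.Agent.Work.MP_8d13b5_lc.Fm

open Polynomial NumberField Finset Module

namespace EHZY

open HZY

/-- the inequality, all orders -/
theorem ineq (hHIZ : SeHIZ) (hHB1 : StHB1) : ∃ g : ℕ → ℕ, Tow g ∧ ∀ m e : ℕ, ∃ c : ℕ,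
    1 ≤ c ∧ c ≤ g (m + e) ∧ ∀ (H : ℕ) (F : ℤ[X][X]), IsE (m + 1) e H F →
    NonConst (F.map (mapRingHom (Int.castRingHom ℂ))) →
    ∀ x y : ℤ, IsCoprime x y → (c * H) ^ c ≤ mx x y → Ineq m c H (mx x y) (hsp e F x y) := by
  obtain ⟨g₁, hg₁, hHIZ⟩ := hHIZ
  refine ⟨fun x => g₁ x + 2, hg₁.add (Tow.const 2), fun m e => ?_⟩
  rcases Nat.eq_zero_or_pos m with hm | hm
  · subst hm
    refine ⟨2, by norm_num, Nat.le_add_left 2 _, ?_⟩
    intro H F hF _ x y hxy hT n a ha hsum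
    exfalso
    have hH := hF.one
    have hgm := (hHB1.1 ℤ e F x y hF.monic).1
    have hgd := (hHB1.1 ℤ e F x y hF.monic).2.1
    have hg0 := (hHB1.1 ℤ e F x y hF.monic).2.2 0 (Nat.zero_le _)
    rw [hF.deg] at hgd hg0
    have hne : (hsp e F x y).coeff 0 ≠ 0 := by
      intro h0
      rw [hg0] at h0
      have h1 := zero_small _ H (F.coeff 0) x y hxy (by
        have := hF.wt 0
        rw [hF.deg] at this
        exact this) hF.ne (hF.ht 0) hH h0
      have h2 : (2 * H) ^ 2 = H * (4 * H) := by ring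
      have h3 : 4 * H ≤ H * (4 * H) := Nat.le_mul_of_pos_left _ hH
      omega
    have hg : hsp e F x y = X - C (-(hsp e F x y).coeff 0) := by
      rw [C_neg, sub_neg_eq_add]
      exact hgm.eq_X_add_C hgd
    apply ha
    funext i
    have hi : i = 0 := Fin.eq_zero i
    have h4 : a 0 * Pd.cf (hsp e F x y) n 0 = 0 := (Fin.sum_univ_one _).symm.trans hsum
    rw [hg, cf_eq] at h4
    rw [hi]
    exact (mul_eq_zero.1 h4).resolve_right (pow_ne_zero _ (neg_ne_zero.2 hne))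
  · obtain ⟨c, hc, hcg, h⟩ := hHIZ m e hm
    exact ⟨c, hc, hcg.trans (Nat.le_add_right _ 2),
      fun H F hF hN x y hxy hT => h H F hF hN x y hxy hT⟩

/-- the bound of the constants -/
theorem tow {g₁ g₃ : ℕ → ℕ} (h₁ : Tow g₁) (h₃ : Tow g₃) :
    Tow (fun x => 2 + g₁ x + (g₁ x * g₁ x + 1) + g₃ x + (x * x + 2) + x * x +
      2 * g₁ x * (g₁ x + x) + 2 * g₁ x * (g₁ x + 2 + (x * x + 3) * g₃ x) +
      ((x * x + 3) * g₃ x + 1)) := by
  have hx := Tow.id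
  have hxx : Tow (fun x => x * x) := hx.mul hx
  have hE : Tow (fun x => (x * x + 3) * g₃ x) := (hxx.add (Tow.const 3)).mul h₃
  have h2 : Tow (fun x => 2 * g₁ x) := (Tow.const 2).mul h₁
  exact ((((((((Tow.const 2).add h₁).add ((h₁.mul h₁).add (Tow.const 1))).add h₃).add
    (hxx.add (Tow.const 2))).add hxx).add (h2.mul (h₁.add hx))).add
    (h2.mul ((h₁.add (Tow.const 2)).add hE))).add (hE.add (Tow.const 1))

theorem bound {c c₁ c₂ c₃ σ E m e M G₁ G₃ : ℕ}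
    (hc : c = 2 + c₁ + c₂ + c₃ + (σ + 2) + (m + 1) * M + 2 * c₁ * (c₁ + M) +
      2 * c₁ * (c₁ + 2 + E) + (E + 1))
    (hc₂ : c₂ = c₁ ^ 2 + 1) (hσ : σ = e * (m + 1)) (hE : E = (σ + 3) * c₃) (h₁ : c₁ ≤ G₁)
    (h₃ : c₃ ≤ G₃) :
    c ≤ 2 + G₁ + (G₁ * G₁ + 1) + G₃ + ((m + 1 + e + M) * (m + 1 + e + M) + 2) +
      (m + 1 + e + M) * (m + 1 + e + M) + 2 * G₁ * (G₁ + (m + 1 + e + M)) +
      2 * G₁ * (G₁ + 2 + ((m + 1 + e + M) * (m + 1 + e + M) + 3) * G₃) +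
      (((m + 1 + e + M) * (m + 1 + e + M) + 3) * G₃ + 1) := by
  obtain ⟨x, hx⟩ : ∃ x, x = m + 1 + e + M := ⟨_, rfl⟩
  rw [← hx]
  have hm : m + 1 ≤ x := by omega
  have he : e ≤ x := by omega
  have hM : M ≤ x := by omega
  have hσx : σ ≤ x * x := by
    rw [hσ]
    exact Nat.mul_le_mul he hm
  have hEx : E ≤ (x * x + 3) * G₃ := by
    rw [hE]
    exact Nat.mul_le_mul (Nat.add_le_add_right hσx 3) h₃
  have h₂ : c₂ ≤ G₁ * G₁ + 1 := by
    rw [hc₂, sq]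
    exact Nat.add_le_add_right (Nat.mul_le_mul h₁ h₁) 1
  rw [hc]
  gcongr

end EHZY

open HZY in
/-- Item eHZY. -/
theorem peHZY (hHIZ : SeHIZ) (hADY : SeADY) (hHB1 : StHB1) : SeHZY := by
  obtain ⟨g₁, hg₁, hI⟩ := EHZY.ineq hHIZ hHB1
  obtain ⟨g₃, hg₃, hADY⟩ := hADY
  refine ⟨fun x => 2 + g₁ x + (g₁ x * g₁ x + 1) + g₃ x + (x * x + 2) + x * x +
    2 * g₁ x * (g₁ x + x) + 2 * g₁ x * (g₁ x + 2 + (x * x + 3) * g₃ x) + ((x * x + 3) * g₃ x + 1),
    EHZY.tow hg₁ hg₃, ?_⟩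
  intro k e M hk hM
  obtain ⟨m, rfl⟩ : ∃ m, k = m + 1 := ⟨k - 1, by omega⟩
  obtain ⟨c₁, hc₁, hb₁, k1⟩ := hI m e
  obtain ⟨c₂, hc₂⟩ : ∃ c₂, c₂ = c₁ ^ 2 + 1 := ⟨_, rfl⟩
  obtain ⟨c₃, hb₃, k3⟩ := hADY m M hM
  obtain ⟨σ, hσ⟩ : ∃ σ, σ = e * (m + 1) := ⟨_, rfl⟩
  obtain ⟨E, hE⟩ : ∃ E, E = (σ + 3) * c₃ := ⟨_, rfl⟩
  obtain ⟨c, hc⟩ : ∃ c, c = 2 + c₁ + c₂ + c₃ + (σ + 2) + (m + 1) * M + 2 * c₁ * (c₁ + M) +
    2 * c₁ * (c₁ + 2 + E) + (E + 1) := ⟨_, rfl⟩
  have q0 : 2 ≤ c := by omega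
  have q1 : c₁ ≤ c := by omega
  have q2 : c₂ ≤ c := by omega
  have q3 : c₃ ≤ c := by omega
  have q4 : σ + 2 ≤ c := by omega
  have q5 : (m + 1) * M ≤ c := by omega
  have q6 : 2 * c₁ * (c₁ + M) ≤ c := by omega
  have q7 : 2 * c₁ * (c₁ + 2 + E) ≤ c := by omega
  have q8 : E + 1 ≤ c := by omega
  refine ⟨c, by omega, ?_, ?_⟩
  · exact EHZY.bound hc hc₂ hσ hE (hb₁.trans (hg₁.mono (by omega))) (hb₃.trans (hg₃.mono (by omega)))
  intro H F hF hNC x y hxy ht z hz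
  have hH : 1 ≤ H := hF.one
  obtain ⟨T, hTd⟩ : ∃ T, T = mx x y := ⟨_, rfl⟩
  rw [← hTd] at ht
  have hcH1 : c ≤ c * H := Nat.le_mul_of_pos_right c hH
  have hcH2 : H ≤ c * H := Nat.le_mul_of_pos_left H (by omega)
  have hcHT : c * H ≤ T := (Nat.le_self_pow (by omega) (c * H)).trans ht
  have hcT : c ≤ T := hcH1.trans hcHT
  have hHT : H ≤ T := hcH2.trans hcHT
  have hT1 : 1 ≤ T := by omega
  have hpow : ∀ a, a ≤ c → (a * H) ^ a ≤ T := by
    intro a ha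
    calc (a * H) ^ a ≤ (c * H) ^ a := Nat.pow_le_pow_left (Nat.mul_le_mul_right H ha) a
      _ ≤ (c * H) ^ c := Nat.pow_le_pow_right (by omega) ha
      _ ≤ T := ht
  set g := hsp e F x y with hg
  have hgm : g.Monic := (hHB1.1 ℤ e F x y hF.monic).1
  have hgd : g.natDegree = m + 1 := by
    rw [hg, (hHB1.1 ℤ e F x y hF.monic).2.1, hF.deg]
  have hIneq : Ineq m c₁ H T g := by
    rw [hTd]
    exact k1 H F hF hNC x y hxy (by
      rw [← hTd]
      exact hpow c₁ q1)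
  obtain ⟨Y, hY⟩ : ∃ Y, Y = (σ + 2) * H * T ^ σ := ⟨_, rfl⟩
  have hY1 : 1 ≤ Y := by
    rw [hY]
    exact Nat.mul_pos (Nat.mul_pos (by omega) hH) (Nat.pow_pos hT1)
  have hYc : ∀ i, (g.coeff i).natAbs ≤ Y := by
    intro i
    rcases Nat.lt_or_ge (m + 1) i with hi | hi
    · rw [coeff_eq_zero_of_natDegree_lt (by rw [hgd]; exact hi)]
      simp
    · rw [hg, (hHB1.1 ℤ e F x y hF.monic).2.2 i (by rw [hF.deg]; exact hi), hF.deg]
      have hD : e * (m + 1 - i) ≤ σ := by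
        rw [hσ]
        exact Nat.mul_le_mul_left e (Nat.sub_le _ _)
      refine (hev_le _ H _ x y (hF.ht i) (by rw [← hTd]; exact hT1)).trans ?_
      rw [← hTd, hY]
      exact Nat.mul_le_mul (Nat.mul_le_mul_right H (by omega)) (Nat.pow_le_pow_right hT1 hD)
  have hYT : Y ≤ T ^ (σ + 2) := by
    rw [hY]
    calc (σ + 2) * H * T ^ σ ≤ T * T * T ^ σ :=
          Nat.mul_le_mul_right _ (Nat.mul_le_mul (q4.trans hcT) hHT)
      _ = T ^ (σ + 2) := by ring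
  have hcY : (c₃ * Y) ^ c₃ ≤ T ^ E := by
    calc (c₃ * Y) ^ c₃ ≤ (T * T ^ (σ + 2)) ^ c₃ :=
          Nat.pow_le_pow_left (Nat.mul_le_mul (q3.trans hcT) hYT) c₃
      _ = T ^ E := by
          rw [hE, pow_mul]
          congr 1
          ring
  have hsol : Pd.Sol (g ^ M) z := fun n => hz n
  by_cases hz0 : ∀ n, z n = 0
  · exact Or.inl hz0
  right
  intro B hB
  rw [← hTd]
  obtain ⟨δ, v, hδ, hvd, hv, hvc⟩ := k3 g Y hgm hgd hY1 hYc
    (fun v _ hv => uniq m c₁ H T g hc₁ hH (by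
      rw [← hc₂]
      exact hpow c₂ q2) hIneq v hv) z B hsol hB
  obtain ⟨i₀, hi₀⟩ : ∃ i, v i ≠ 0 := by
    by_contra hcon
    push Not at hcon
    apply hz0
    intro n
    have h4 := hv n
    rw [sum_eq_zero (fun i _ => by rw [hcon i]; simp)] at h4
    exact (mul_eq_zero.1 h4).resolve_left hδ
  obtain ⟨K, hK⟩ : ∃ K, K = (c₃ * Y) ^ c₃ * B := ⟨_, rfl⟩
  have hvK : ∀ i l, ((v i).coeff l).natAbs ≤ K := by
    intro i l
    rw [hK]
    exact hvc i l
  have hB1 : 1 ≤ B := by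
    by_contra hcon
    have hB0 : B = 0 := by omega
    apply hi₀
    ext l
    have := hvK i₀ l
    rw [hK, hB0, mul_zero, Nat.le_zero, Int.natAbs_eq_zero] at this
    rw [this, coeff_zero]
  have hKT : K ≤ T ^ E * B := by
    rw [hK]
    exact Nat.mul_le_mul_right B hcY
  have hBT : 1 ≤ B * T := Nat.mul_pos hB1 hT1
  have key : ∀ n, z n = 0 → (∀ i, (v i).eval (n : ℤ) = 0) ∨ T ^ n ≤ (B * T) ^ c := by
    intro n hn
    by_cases ha : ∀ i, (v i).eval (n : ℤ) = 0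
    · exact Or.inl ha
    right
    have h5 := hIneq n (fun i => (v i).eval (n : ℤ)) (by
        intro h
        apply ha
        intro i
        exact congrFun h i) (by
        have h6 := hv n
        rw [hn, mul_zero] at h6
        rw [h6]
        apply sum_congr rfl
        intro i _
        exact mul_comm _ _)
    refine (ZRY.num c₁ c M H T n _ B E q0 hH q1 q6 ht hB1 ?_ h5).trans
      (Nat.pow_le_pow_right hBT q7)
    calc ∑ j, ((v j).eval (n : ℤ)).natAbs ≤ ∑ _j : Fin (m + 1), M * (K * 2 ^ (n * M)) :=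
          sum_le_sum fun j _ => ZRY.eval_le K M n (v j) (hvd j) (hvK j)
      _ = (m + 1) * M * K * 2 ^ (n * M) := by
          rw [sum_const, card_univ, Fintype.card_fin, smul_eq_mul]
          ring
      _ ≤ T * (T ^ E * B) * 2 ^ (n * M) :=
          Nat.mul_le_mul_right _ (Nat.mul_le_mul (q5.trans hcT) hKT)
      _ = T * T ^ E * B * 2 ^ (n * M) := by ring
  constructor
  · intro n hn hzn
    rcases key n hzn with h | h
    · have h6 := ZRY.root_le K n _ (v i₀) le_rfl hi₀ (h i₀) (hvK i₀)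
      have h7 : K ≤ (B * T) ^ c := by
        calc K ≤ T ^ E * B := hKT
          _ ≤ (B * T) ^ E * (B * T) := by
              apply Nat.mul_le_mul
              · exact Nat.pow_le_pow_left (Nat.le_mul_of_pos_left T hB1) E
              · exact Nat.le_mul_of_pos_right B hT1
          _ = (B * T) ^ (E + 1) := by rw [pow_succ]
          _ ≤ (B * T) ^ c := Nat.pow_le_pow_right hBT q8
      omega
    · have h6 : n < 2 ^ n := Nat.lt_two_pow_self
      have h7 : 2 ^ n ≤ T ^ n := Nat.pow_le_pow_left (by omega) n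
      omega
  · classical
    refine ⟨((v i₀).roots.toFinset).image Int.natAbs, ?_, ?_⟩
    · calc (((v i₀).roots.toFinset).image Int.natAbs).card ≤ (v i₀).roots.toFinset.card :=
            card_image_le
        _ ≤ (v i₀).roots.card := Multiset.toFinset_card_le _
        _ ≤ (v i₀).natDegree := card_roots' _
        _ < M := hvd i₀
    · intro n hn hzn
      rcases key n hzn with h | h
      · rw [mem_image]
        refine ⟨(n : ℤ), ?_, Int.natAbs_natCast n⟩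
        rw [Multiset.mem_toFinset, mem_roots hi₀]
        exact h i₀
      · omega

end Pool.Agent.Work.MP_8d13b5_lc.Fm
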