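import Pool.Agent.Work.MP_8d13b5_lc.Fm.StmtsEff
import Pool.Agent.Work.MP_8d13b5_lc.Fm.I_POW

set_option autoImplicit false

/-! Item ePOW of block EFF (helper22): the polynomial whose roots are the powers `a ^ N`, with effective
sizes: the characteristic polynomial of the `N`-th power of the companion matrix. -/

namespace Pool.Agent.Work.MP_8d13b5_lc.Fm

open Polynomial NumberField Finset Module

namespace EPOW

/-! ### The companion matrix -/

theorem exists_matrix {A : Type} [CommRing A] [Nontrivial A] (f : A[X]) (hf : f.Monic) (d : ℕ)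
    (hd : f.natDegree = d) : ∃ M : Matrix (Fin d) (Fin d) A, M.charpoly = f ∧
      ∀ i j, M i j = 0 ∨ M i j = 1 ∨ M i j = -f.coeff (i : ℕ) := by
  subst hd
  have hdim : (AdjoinRoot.powerBasis' hf).dim = f.natDegree := rfl
  let M : Matrix (Fin f.natDegree) (Fin f.natDegree) A :=
    Algebra.leftMulMatrix (AdjoinRoot.powerBasis' hf).basis (AdjoinRoot.root f)
  refine ⟨M, ?_, ?_⟩
  · have h1 : aeval (AdjoinRoot.root f) M.charpoly = 0 := by
      apply (injective_iff_map_eq_zero (Algebra.leftMulMatrix (AdjoinRoot.powerBasis' hf).basis)).1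
        (Algebra.leftMulMatrix_injective _)
      rw [← Polynomial.aeval_algHom_apply]
      exact Matrix.aeval_self_charpoly M
    rw [AdjoinRoot.aeval_eq, AdjoinRoot.mk_eq_zero] at h1
    have h2 : M.charpoly.natDegree = f.natDegree := by
      rw [Matrix.charpoly_natDegree_eq_dim, Fintype.card_fin]
    exact Polynomial.eq_of_monic_of_dvd_of_natDegree_le hf M.charpoly_monic h1 h2.le
  · have h3 : (AdjoinRoot.powerBasis' hf).minpolyGen = f := by
      have h4 := (AdjoinRoot.powerBasis' hf).aeval_minpolyGen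
      have h5 : (AdjoinRoot.powerBasis' hf).gen = AdjoinRoot.root f := rfl
      rw [h5, AdjoinRoot.aeval_eq, AdjoinRoot.mk_eq_zero] at h4
      exact Polynomial.eq_of_monic_of_dvd_of_natDegree_le hf
        (AdjoinRoot.powerBasis' hf).minpolyGen_monic h4
        ((AdjoinRoot.powerBasis' hf).natDegree_minpolyGen).le
    intro i j
    have h6 := (AdjoinRoot.powerBasis' hf).leftMulMatrix
    have h7 : M i j = (if (j : ℕ) + 1 = (AdjoinRoot.powerBasis' hf).dim then
        -(AdjoinRoot.powerBasis' hf).minpolyGen.coeff (i : ℕ) else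
        if (i : ℕ) = (j : ℕ) + 1 then 1 else 0) :=
      congrFun (congrFun h6 i) j
    rw [h3] at h7
    split_ifs at h7 with h8 h9
    · exact Or.inr (Or.inr h7)
    · exact Or.inr (Or.inl h7)
    · exact Or.inl h7

/-! ### Norms -/

/-- submultiplicative seminorms with values in `ℕ` -/
structure Sn {R : Type} [CommRing R] (N : R → ℕ) : Prop where
  zero : N 0 = 0
  one : N 1 ≤ 1
  neg : ∀ a, N (-a) = N a
  add : ∀ a b, N (a + b) ≤ N a + N b
  mul : ∀ a b, N (a * b) ≤ N a * N b

theorem Sn.sum {R : Type} [CommRing R] {N : R → ℕ} (hN : Sn N) {ι : Type} (s : Finset ι) (f : ι → R) :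
    N (∑ i ∈ s, f i) ≤ ∑ i ∈ s, N (f i) := by
  classical
  induction s using Finset.induction_on with
  | empty => simp [hN.zero]
  | insert a s ha ih =>
    rw [Finset.sum_insert ha, Finset.sum_insert ha]
    exact (hN.add _ _).trans (Nat.add_le_add_left ih _)

theorem Sn.prod {R : Type} [CommRing R] {N : R → ℕ} (hN : Sn N) {ι : Type} (s : Finset ι) (f : ι → R) :
    N (∏ i ∈ s, f i) ≤ ∏ i ∈ s, N (f i) := by
  classical
  induction s using Finset.induction_on with
  | empty => simpa using hN.one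
  | insert a s ha ih =>
    rw [Finset.prod_insert ha, Finset.prod_insert ha]
    exact (hN.mul _ _).trans (Nat.mul_le_mul_left _ ih)

/-- the sum of the norms of the coefficients -/
noncomputable def L {R : Type} [CommRing R] (N : R → ℕ) (P : R[X]) : ℕ :=
  ∑ i ∈ P.support, N (P.coeff i)

theorem L_eq {R : Type} [CommRing R] {N : R → ℕ} (hN : Sn N) (P : R[X]) (s : Finset ℕ)
    (hs : P.support ⊆ s) : L N P = ∑ i ∈ s, N (P.coeff i) := by
  unfold L
  refine Finset.sum_subset hs fun i _ hi => ?_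
  rw [notMem_support_iff.1 hi, hN.zero]

theorem L_coeff {R : Type} [CommRing R] {N : R → ℕ} (hN : Sn N) (P : R[X]) (i : ℕ) :
    N (P.coeff i) ≤ L N P := by
  by_cases hi : i ∈ P.support
  · exact Finset.single_le_sum (f := fun i => N (P.coeff i)) (fun _ _ => Nat.zero_le _) hi
  · rw [notMem_support_iff.1 hi, hN.zero]
    exact Nat.zero_le _

theorem L_monomial {R : Type} [CommRing R] {N : R → ℕ} (hN : Sn N) (n : ℕ) (a : R) :
    L N (monomial n a) = N a := by
  rw [L_eq hN _ {n} (support_monomial_subset n a), Finset.sum_singleton, coeff_monomial_same]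

theorem L_add {R : Type} [CommRing R] {N : R → ℕ} (hN : Sn N) (P Q : R[X]) :
    L N (P + Q) ≤ L N P + L N Q := by
  classical
  rw [L_eq hN (P + Q) (P.support ∪ Q.support) support_add,
    L_eq hN P (P.support ∪ Q.support) Finset.subset_union_left,
    L_eq hN Q (P.support ∪ Q.support) Finset.subset_union_right, ← Finset.sum_add_distrib]
  refine Finset.sum_le_sum fun i _ => ?_
  rw [coeff_add]
  exact hN.add _ _

theorem L_sum {R : Type} [CommRing R] {N : R → ℕ} (hN : Sn N) {ι : Type} (s : Finset ι)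
    (f : ι → R[X]) : L N (∑ i ∈ s, f i) ≤ ∑ i ∈ s, L N (f i) := by
  classical
  induction s using Finset.induction_on with
  | empty => simp [L]
  | insert a s ha ih =>
    rw [Finset.sum_insert ha, Finset.sum_insert ha]
    exact (L_add hN _ _).trans (Nat.add_le_add_left ih _)

theorem L_sn {R : Type} [CommRing R] {N : R → ℕ} (hN : Sn N) : Sn (L N) where
  zero := by simp [L]
  one := by
    rw [← monomial_zero_one, L_monomial hN]
    exact hN.one
  neg P := by
    unfold L
    rw [support_neg]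
    refine Finset.sum_congr rfl fun i _ => ?_
    rw [coeff_neg, hN.neg]
  add := L_add hN
  mul P Q := by
    rw [mul_eq_sum_sum]
    refine (L_sum hN _ _).trans ?_
    unfold L
    rw [Finset.sum_mul]
    refine Finset.sum_le_sum fun i _ => ?_
    rw [Polynomial.sum_def, Finset.mul_sum]
    refine (L_sum hN _ _).trans ?_
    refine Finset.sum_le_sum fun j _ => ?_
    rw [L_monomial hN]
    exact hN.mul _ _

theorem natAbs_sn : Sn Int.natAbs where
  zero := rfl
  one := le_rfl
  neg := Int.natAbs_neg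
  add := Int.natAbs_add_le
  mul a b := (Int.natAbs_mul a b).le

/-! ### Sizes of determinants and of powers of matrices -/

theorem sn_det {R : Type} [CommRing R] {N : R → ℕ} (hN : Sn N) {d B : ℕ}
    (M : Matrix (Fin d) (Fin d) R) (hM : ∀ i j, N (M i j) ≤ B) : N M.det ≤ d.factorial * B ^ d := by
  rw [Matrix.det_apply]
  refine (hN.sum _ _).trans ?_
  calc ∑ σ : Equiv.Perm (Fin d), N (Equiv.Perm.sign σ • ∏ i, M (σ i) i)
      ≤ ∑ σ : Equiv.Perm (Fin d), B ^ d := by
        refine Finset.sum_le_sum fun σ _ => ?_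
        have h1 : N (Equiv.Perm.sign σ • ∏ i, M (σ i) i) = N (∏ i, M (σ i) i) := by
          rcases Int.units_eq_one_or (Equiv.Perm.sign σ) with h | h
          · rw [h, one_smul]
          · rw [h, Units.neg_smul, one_smul, hN.neg]
        rw [h1]
        refine (hN.prod _ _).trans ?_
        calc ∏ i, N (M (σ i) i) ≤ ∏ i : Fin d, B :=
              Finset.prod_le_prod' fun i _ => hM _ _
          _ = B ^ d := by rw [Finset.prod_const, Finset.card_univ, Fintype.card_fin]
    _ = d.factorial * B ^ d := by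
        rw [Finset.sum_const, Finset.card_univ, Fintype.card_perm, Fintype.card_fin, smul_eq_mul]

theorem sn_pow {R : Type} [CommRing R] {N : R → ℕ} (hN : Sn N) {d B : ℕ}
    (M : Matrix (Fin d) (Fin d) R) (hM : ∀ i j, N (M i j) ≤ B) (n : ℕ) (i j : Fin d) :
    N ((M ^ n) i j) ≤ (d * B) ^ n := by
  induction n generalizing i j with
  | zero =>
    rw [pow_zero, pow_zero, Matrix.one_apply]
    split_ifs
    · exact hN.one
    · rw [hN.zero]; exact Nat.zero_le _
  | succ n ih =>
    rw [pow_succ, Matrix.mul_apply]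
    refine (hN.sum _ _).trans ?_
    calc ∑ k : Fin d, N ((M ^ n) i k * M k j) ≤ ∑ k : Fin d, (d * B) ^ n * B :=
          Finset.sum_le_sum fun k _ => (hN.mul _ _).trans (Nat.mul_le_mul (ih i k) (hM k j))
      _ = (d * B) ^ (n + 1) := by
          rw [Finset.sum_const, Finset.card_univ, Fintype.card_fin, smul_eq_mul, pow_succ]
          ring

theorem sn_charpoly {R : Type} [CommRing R] {N : R → ℕ} (hN : Sn N) {d B : ℕ}
    (M : Matrix (Fin d) (Fin d) R) (hM : ∀ i j, N (M i j) ≤ B) :
    L N M.charpoly ≤ d.factorial * (1 + B) ^ d := by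
  rw [Matrix.charpoly]
  refine sn_det (L_sn hN) _ fun i j => ?_
  by_cases hij : i = j
  · subst hij
    rw [Matrix.charmatrix_apply_eq, sub_eq_add_neg]
    refine (L_add hN _ _).trans (Nat.add_le_add ?_ ?_)
    · rw [X, L_monomial hN]
      exact hN.one
    · rw [(L_sn hN).neg, ← monomial_zero_left, L_monomial hN]
      exact hM _ _
  · rw [Matrix.charmatrix_apply_ne _ _ _ hij, (L_sn hN).neg, ← monomial_zero_left, L_monomial hN]
    exact (hM _ _).trans (Nat.le_add_left _ _)

/-! ### Degrees in the inner variable -/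

/-- all the coefficients have degree at most `D` -/
def DT (D : ℕ) (P : ℤ[X][X]) : Prop := ∀ i, (P.coeff i).natDegree ≤ D

theorem DT.mul {D E : ℕ} {P Q : ℤ[X][X]} (hP : DT D P) (hQ : DT E Q) : DT (D + E) (P * Q) := by
  intro i
  rw [coeff_mul]
  refine natDegree_sum_le_of_forall_le _ _ fun p _ => ?_
  exact natDegree_mul_le.trans (Nat.add_le_add (hP _) (hQ _))

theorem DT.one : DT 0 (1 : ℤ[X][X]) := by
  intro i
  rw [coeff_one]
  split_ifs <;> simp

theorem DT.prod {ι : Type} (s : Finset ι) (f : ι → ℤ[X][X]) (D : ℕ) (h : ∀ i ∈ s, DT D (f i)) :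
    DT (s.card * D) (∏ i ∈ s, f i) := by
  classical
  induction s using Finset.induction_on with
  | empty => simpa using DT.one
  | insert a s ha ih =>
    rw [Finset.prod_insert ha, Finset.card_insert_of_notMem ha, add_mul, one_mul, add_comm]
    exact (h a (Finset.mem_insert_self _ _)).mul (ih fun i hi => h i (Finset.mem_insert_of_mem hi))

theorem DT.sum {ι : Type} (s : Finset ι) (f : ι → ℤ[X][X]) (D : ℕ) (h : ∀ i ∈ s, DT D (f i)) :
    DT D (∑ i ∈ s, f i) := by
  intro i
  rw [finsetSum_coeff]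
  exact natDegree_sum_le_of_forall_le _ _ fun j hj => h j hj i

theorem DT.neg {D : ℕ} {P : ℤ[X][X]} (hP : DT D P) : DT D (-P) := by
  intro i
  rw [coeff_neg, natDegree_neg]
  exact hP i

theorem dt_det {d D : ℕ} (M : Matrix (Fin d) (Fin d) ℤ[X][X]) (hM : ∀ i j, DT D (M i j)) :
    DT (d * D) M.det := by
  rw [Matrix.det_apply]
  refine DT.sum _ _ _ fun σ _ => ?_
  have h2 : DT (d * D) (∏ i, M (σ i) i) := by
    have := DT.prod (Finset.univ : Finset (Fin d)) (fun i => M (σ i) i) D fun i _ => hM _ _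
    rwa [Finset.card_univ, Fintype.card_fin] at this
  rcases Int.units_eq_one_or (Equiv.Perm.sign σ) with h | h
  · rw [h, one_smul]
    exact h2
  · rw [h, Units.neg_smul, one_smul]
    exact h2.neg

theorem dt_pow {d σ : ℕ} (M : Matrix (Fin d) (Fin d) ℤ[X]) (hM : ∀ i j, (M i j).natDegree ≤ σ)
    (n : ℕ) (i j : Fin d) : ((M ^ n) i j).natDegree ≤ n * σ := by
  induction n generalizing i j with
  | zero =>
    rw [pow_zero, Matrix.one_apply]
    split_ifs <;> simp
  | succ n ih =>
    rw [pow_succ, Matrix.mul_apply]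
    refine natDegree_sum_le_of_forall_le _ _ fun k _ => ?_
    refine natDegree_mul_le.trans ?_
    have h1 := ih i k
    have h2 := hM k j
    rw [add_mul, one_mul]
    omega

theorem dt_charpoly {d D : ℕ} (M : Matrix (Fin d) (Fin d) ℤ[X]) (hM : ∀ i j, (M i j).natDegree ≤ D) :
    DT (d * D) M.charpoly := by
  rw [Matrix.charpoly]
  refine dt_det _ fun i j => ?_
  by_cases hij : i = j
  · subst hij
    rw [Matrix.charmatrix_apply_eq]
    intro k
    rw [coeff_sub]
    refine (natDegree_sub_le _ _).trans (max_le ?_ ?_)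
    · rw [coeff_X]
      split_ifs <;> simp
    · rw [coeff_C]
      split_ifs
      · exact hM _ _
      · simp
  · rw [Matrix.charmatrix_apply_ne _ _ _ hij]
    refine DT.neg fun k => ?_
    rw [coeff_C]
    split_ifs
    · exact hM _ _
    · simp

end EPOW

open EPOW in
/-- **item ePOW** -/
theorem pePOW : SePOW := by
  refine ⟨fun x => x.factorial + 2 * (x * (x + 1)) + x * x + x * (x * x),
    ((((Tow.id.fact).add ((Tow.const 2).mul (Tow.id.mul (Tow.id.add (Tow.const 1))))).add
      (Tow.id.mul Tow.id)).add (Tow.id.mul (Tow.id.mul Tow.id))), ?_⟩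
  intro d σ N hd hN
  have hd' : 1 ≤ d.factorial := Nat.factorial_pos d
  set c : ℕ := d.factorial + 2 * (d * (σ + 1)) + N * d + d * (N * σ) with hc
  have hc1 : 1 ≤ c := by omega
  refine ⟨c, hc1, ?_, fun H F hF => ?_⟩
  · have e1 : d ≤ d + σ + N := by omega
    have e2 : σ ≤ d + σ + N := by omega
    have e3 : N ≤ d + σ + N := by omega
    have f1 : d.factorial ≤ (d + σ + N).factorial := Nat.factorial_le e1
    simp only
    rw [hc]
    gcongr
  obtain ⟨M, hMF, hMe⟩ := exists_matrix F hF.monic d hF.deg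
  have hdet : ∀ B : Matrix (Fin d) (Fin d) ℤ[X], B.charpoly.coeff 0 ≠ 0 ↔ B.det ≠ 0 := by
    intro B
    rw [Matrix.det_eq_sign_charpoly_coeff]
    constructor
    · intro h
      exact mul_ne_zero (pow_ne_zero _ (by simp)) h
    · intro h
      exact right_ne_zero_of_mul h
  have hH : 1 ≤ H := hF.one
  -- sizes of the entries
  have hB : ∀ i j, L Int.natAbs (M i j) ≤ (σ + 1) * H := by
    intro i j
    have h1 : 1 ≤ (σ + 1) * H := Nat.mul_pos (by omega) hH
    rcases hMe i j with h | h | h
    · rw [h, (L_sn natAbs_sn).zero]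
      exact Nat.zero_le _
    · rw [h]
      exact (L_sn natAbs_sn).one.trans h1
    · rw [h, (L_sn natAbs_sn).neg]
      have h2 : (F.coeff (i : ℕ)).support ⊆ range (σ + 1) := by
        intro k hk
        rw [mem_range, Nat.lt_succ_iff]
        exact (le_natDegree_of_mem_supp k hk).trans (hF.dg _)
      rw [L_eq natAbs_sn _ _ h2]
      calc ∑ k ∈ range (σ + 1), ((F.coeff (i : ℕ)).coeff k).natAbs
          ≤ ∑ k ∈ range (σ + 1), H := Finset.sum_le_sum fun k _ => hF.ht _ _
        _ = (σ + 1) * H := by rw [Finset.sum_const, card_range, smul_eq_mul]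
  have hD : ∀ i j, (M i j).natDegree ≤ σ := by
    intro i j
    rcases hMe i j with h | h | h
    · rw [h]; simp
    · rw [h]; simp
    · rw [h, natDegree_neg]
      exact hF.dg _
  have hs := sn_charpoly (L_sn natAbs_sn) (M ^ N) (sn_pow (L_sn natAbs_sn) M hB N)
  have hdd := dt_charpoly (M ^ N) (dt_pow M hD N)
  have hfin : d.factorial * (1 + (d * ((σ + 1) * H)) ^ N) ^ d ≤ (c * H) ^ c := by
    have h1 : 1 ≤ d * ((σ + 1) * H) := Nat.mul_pos hd (Nat.mul_pos (by omega) hH)
    have h2 : 1 + (d * ((σ + 1) * H)) ^ N ≤ (2 * (d * ((σ + 1) * H))) ^ N := by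
      rw [mul_pow 2]
      have h3 : 1 ≤ (d * ((σ + 1) * H)) ^ N := Nat.one_le_pow _ _ h1
      have h4 : 2 ≤ 2 ^ N := Nat.le_self_pow (by omega) 2
      nlinarith
    have h5 : 2 * (d * ((σ + 1) * H)) ≤ c * H := by
      calc 2 * (d * ((σ + 1) * H)) = (2 * (d * (σ + 1))) * H := by ring
        _ ≤ c * H := Nat.mul_le_mul_right _ (by omega)
    have h6 : d.factorial ≤ c * H := by
      calc d.factorial ≤ c := by omega
        _ = c * 1 := (mul_one c).symm
        _ ≤ c * H := Nat.mul_le_mul_left _ hH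
    have h7 : 1 ≤ c * H := Nat.mul_pos hc1 hH
    calc d.factorial * (1 + (d * ((σ + 1) * H)) ^ N) ^ d
        ≤ (c * H) * (((c * H) ^ N) ^ d) :=
          Nat.mul_le_mul h6 (Nat.pow_le_pow_left (h2.trans (Nat.pow_le_pow_left h5 _)) _)
      _ = (c * H) ^ (N * d + 1) := by rw [← pow_mul, pow_succ, mul_comm]
      _ ≤ (c * H) ^ c := Nat.pow_le_pow_right h7 (by omega)
  refine ⟨(M ^ N).charpoly, ⟨(M ^ N).charpoly_monic, ?_, ?_, ?_, ?_, ?_⟩, ?_, ?_⟩
  · rw [Matrix.charpoly_natDegree_eq_dim, Fintype.card_fin]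
  · rw [hdet, Matrix.det_pow]
    apply pow_ne_zero
    rw [← hdet, hMF]
    exact hF.ne
  · exact Nat.one_le_pow _ _ (Nat.mul_pos (by omega) hF.one)
  · intro i
    exact (hdd i).trans (by omega)
  · intro i j
    have h1 : (((M ^ N).charpoly.coeff i).coeff j).natAbs ≤ L Int.natAbs ((M ^ N).charpoly.coeff i) :=
      L_coeff natAbs_sn _ _
    have h2 : L Int.natAbs ((M ^ N).charpoly.coeff i) ≤ L (L Int.natAbs) (M ^ N).charpoly :=
      L_coeff (L_sn natAbs_sn) _ _
    exact h1.trans (h2.trans (hs.trans hfin))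
  · have h := POW.dvd_expand M N
    rw [hMF] at h
    exact h
  · intro y hy
    rw [← Matrix.charpoly_map, Matrix.map_pow] at hy
    have h1 : y ∈ spectrum (AlgebraicClosure (FractionRing ℤ[X]))
        ((M.map (algebraMap ℤ[X] (AlgebraicClosure (FractionRing ℤ[X])))) ^ N) :=
      Matrix.mem_spectrum_iff_isRoot_charpoly.2 hy
    rw [spectrum.map_pow_of_pos _ (by omega)] at h1
    obtain ⟨a, ha, hay⟩ := h1
    refine ⟨a, hay.symm, ?_⟩
    have h2 := Matrix.mem_spectrum_iff_isRoot_charpoly.1 ha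
    rw [Matrix.charpoly_map, hMF] at h2
    exact h2

end Pool.Agent.Work.MP_8d13b5_lc.Fm
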