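import Pool.Agent.Work.MP_8d13b5_lc.Fm.StmtsEff
import Pool.Agent.Work.MP_8d13b5_lc.Fm.I_RDH

set_option autoImplicit false

/-! Item eRDH of block EFF: the polynomial of the `N`-th powers of the roots, with weights and
effective constants. -/

namespace Pool.Agent.Work.MP_8d13b5_lc.Fm

open Polynomial NumberField Finset Module

open RDH in
theorem peRDH (hTOR : SeTOR) (hPOW : SePOW) (hSQF : SeSQF) (hWTG : StWTG) : SeRDH := by
  obtain ⟨gT, hgT, hT⟩ := hTOR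
  obtain ⟨gP, hgP, hP0⟩ := hPOW
  obtain ⟨gS, hgS, hS0⟩ := hSQF
  obtain ⟨g₁, hg₁⟩ : ∃ g₁ : ℕ → ℕ, g₁ = fun x => gP (x + x * x + (gT x).factorial) := ⟨_, rfl⟩
  have hT₁ : Tow g₁ := by
    rw [hg₁]
    exact hgP.comp ((Tow.id.add (Tow.id.mul Tow.id)).add hgT.fact)
  refine ⟨fun x => (gT x).factorial + g₁ x * gS (x + g₁ x),
    hgT.fact.add (hT₁.mul (hgS.comp (Tow.id.add hT₁))), fun d e hd => ?_⟩
  obtain ⟨N₀, hN₀g, hN₀⟩ := hT d
  have hN : 1 ≤ N₀.factorial := Nat.factorial_pos N₀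
  obtain ⟨c₁, hc₁, hc₁g, hP⟩ := hP0 d (e * d) N₀.factorial hd hN
  obtain ⟨c₂, hc₂, hc₂g, hS⟩ := hS0 d c₁ hd
  have hNle : N₀.factorial ≤ (gT (d + e)).factorial :=
    Nat.factorial_le (hN₀g.trans (hgT.mono (Nat.le_add_right _ _)))
  have hc₁le : c₁ ≤ g₁ (d + e) := by
    rw [hg₁]
    refine hc₁g.trans (hgP.mono ?_)
    have h1 : e * d ≤ (d + e) * (d + e) := Nat.mul_le_mul (Nat.le_add_left _ _) (Nat.le_add_right _ _)
    omega
  have hc₂le : c₂ ≤ gS (d + e + g₁ (d + e)) := by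
    refine hc₂g.trans (hgS.mono ?_)
    omega
  refine ⟨N₀.factorial, c₁ * c₂, hN, Nat.mul_pos (by omega) (by omega),
    hNle.trans (Nat.le_add_right _ _),
    (Nat.mul_le_mul hc₁le hc₂le).trans (Nat.le_add_left _ _), ?_⟩
  intro H F hFE hiso
  have hF := RDH.isDH hFE
  obtain ⟨Q, hQ, hFQ, hroots⟩ := hP H F hF
  obtain ⟨k, G, hk, hkd, hG, hGs, hGQ, hQG⟩ := hS _ Q hQ
  have hr : ∀ y : AlgebraicClosure (FractionRing ℤ[X]),
      (G.map (algebraMap ℤ[X] (AlgebraicClosure (FractionRing ℤ[X])))).eval y = 0 →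
      ∃ a : AlgebraicClosure (FractionRing ℤ[X]), y = a ^ N₀.factorial ∧
        (F.map (algebraMap ℤ[X] (AlgebraicClosure (FractionRing ℤ[X])))).eval a = 0 := by
    intro y hy
    refine hroots y ?_
    obtain ⟨P, hP⟩ := hGQ
    rw [hP, Polynomial.map_mul, eval_mul, hy, zero_mul]
  refine ⟨k, G, hk, hkd, ?_, ?_, ?_, ?_⟩
  · exact RDH.isE (mono hG (le_refl c₁) (size hc₁ hc₂ H hF.one))
      (hWTG ℤ e N₀.factorial F G hFE.monic hG.monic hFE.wt hr)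
  · exact RDC.nonconst hN hF.ne hiso
      (fun a b ha hb hn => torsion hF.ne (hN₀ F hF.monic hF.deg hF.ne) a b ha hb hn) hG.monic hGs hr
  · refine hFQ.trans ?_
    obtain ⟨P, hP⟩ := hQG
    exact ⟨expand ℤ[X] N₀.factorial P, by rw [← map_pow, hP, map_mul]⟩
  · intro hsep
    exact dvd_of_sep hN hF.monic hG.monic hFQ hQG hsep

end Pool.Agent.Work.MP_8d13b5_lc.Fm
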