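import Pool.Agent.Work.MP_8d13b5_lc.Fm.StmtsEff
import Pool.Agent.Work.MP_8d13b5_lc.Fm.I_SQF

set_option autoImplicit false

/-! Item eSQF of block EFF: the square-free part with an effective constant. -/

namespace Pool.Agent.Work.MP_8d13b5_lc.Fm

open Polynomial NumberField Finset Module

open SQF in
theorem peSQF : SeSQF := by
  refine ⟨fun x => 2 ^ ((x + 1) * (x + 1)) * ((x + 1) * (x + 1)), ?_, fun d σ hd => ?_⟩
  · have h1 : Tow (fun x => x + 1) := Tow.id.add (Tow.const 1)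
    have h2 : Tow (fun x => (x + 1) * (x + 1)) := h1.mul h1
    exact h2.two_pow.mul h2
  have hle : (σ + 1) * (d + 1) ≤ (d + σ + 1) * (d + σ + 1) :=
    Nat.mul_le_mul (by omega) (by omega)
  refine ⟨2 ^ ((σ + 1) * (d + 1)) * ((σ + 1) * (d + 1)), Nat.succ_le_of_lt (by positivity),
    Nat.mul_le_mul (Nat.pow_le_pow_right (by norm_num) hle) hle, ?_⟩
  intro H Q hQ
  obtain ⟨G, G', hGm, hmul, hpow, hsep⟩ := exists_rad Q hQ.monic (by rw [hQ.deg]; exact hd)
  rw [hQ.deg] at hpow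
  have hG'm : G'.Monic := hGm.of_mul_monic_left (by rw [← hmul]; exact hQ.monic)
  have hdeg : d = G.natDegree + G'.natDegree := by
    rw [← hQ.deg, hmul, hGm.natDegree_mul hG'm]
  have hdg : ∀ i, (G.coeff i).natDegree ≤ σ := deg_factor Q G G' hQ.monic.ne_zero hmul σ hQ.dg
  refine ⟨G.natDegree, G, ?_, by omega, ?_, hsep, ⟨G', hmul⟩, hpow⟩
  · rcases Nat.eq_zero_or_pos G.natDegree with h | h
    · exfalso
      have h1 : G = 1 := hGm.natDegree_eq_zero.mp h
      rw [h1, one_pow] at hpow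
      have h2 : Q = 1 := hQ.monic.eq_one_of_isUnit (isUnit_of_dvd_one hpow)
      have h3 := hQ.deg
      rw [h2, natDegree_one] at h3
      omega
    · exact h
  · refine ⟨hGm, rfl, ?_, ?_, hdg, ?_⟩
    · intro h0
      apply hQ.ne
      rw [hmul, mul_coeff_zero, h0, zero_mul]
    · exact Nat.succ_le_of_lt (Nat.mul_pos (by positivity) hQ.one)
    · exact ht_factor d σ H Q G G' hQ hmul hdg

end Pool.Agent.Work.MP_8d13b5_lc.Fm
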