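import Pool.Agent.Work.MP_8d13b5_lc.Fm.StmtsEff
import Pool.Agent.Work.MP_8d13b5_lc.Fm.I_RSC
import Pool.Agent.Work.MP_8d13b5_lc.Fm.I_TOT

set_option autoImplicit false

/-! Item eTOR of block EFF: the orders of the torsion quotients of the roots, with an explicit bound. -/

namespace Pool.Agent.Work.MP_8d13b5_lc.Fm

open Polynomial NumberField Finset Module

namespace ETOR

open RSC TOT

theorem rsc (d : ℕ) : ∀ (R : Type) [CommRing R] [IsDomain R] (φ : R →+* ℂ) (F : R[X][X]),
    Function.Injective φ → F.Monic → F.natDegree = d → F.coeff 0 ≠ 0 →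
    ∃ ρ : R[X], ρ ≠ 0 ∧ ρ.natDegree ≤ (d + d) * d ∧ ∀ c : ℂ,
      ¬IsCoprime (hatR φ F) ((hatR φ F).scaleRoots (algebraMap ℂ (RatFunc ℂ) c)) →
      ρ.eval₂ φ c = 0 := by
  intro R _ _ φ F hφ hF hd h0
  obtain ⟨r, hr⟩ : ∃ r, r = rsn d F := ⟨_, rfl⟩
  have hr0 : r ≠ 0 := hr ▸ res_ne d F hF hd h0
  have hrd : r.natDegree ≤ (d + d) * d := hr ▸ res_deg d F hd.le
  obtain ⟨i₀, hi₀⟩ : ∃ i, r.coeff i ≠ 0 := by
    by_contra h
    push Not at h
    exact hr0 (Polynomial.ext fun i => by rw [h, coeff_zero])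
  obtain ⟨j, hj⟩ : ∃ j, (r.coeff i₀).coeff j ≠ 0 := by
    by_contra h
    push Not at h
    exact hi₀ (Polynomial.ext fun i => by rw [h, coeff_zero])
  have hc : ∀ i, (∑ i ∈ Finset.range (r.natDegree + 1), monomial i ((r.coeff i).coeff j)).coeff i =
      (r.coeff i).coeff j := by
    intro i
    rw [finsetSum_coeff]
    simp only [coeff_monomial]
    rw [Finset.sum_ite_eq']
    split_ifs with h
    · rfl
    · rw [Finset.mem_range, not_lt] at h
      rw [coeff_eq_zero_of_natDegree_lt (p := r) (by omega), coeff_zero]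
  refine ⟨∑ i ∈ Finset.range (r.natDegree + 1), monomial i ((r.coeff i).coeff j), ?_, ?_, ?_⟩
  · intro h
    have := hc i₀
    rw [h, coeff_zero] at this
    exact hj this.symm
  · refine natDegree_sum_le_of_forall_le _ _ fun i hi => (natDegree_monomial_le _).trans ?_
    rw [Finset.mem_range] at hi
    omega
  · intro c hcop
    -- the specialisation
    have h1 := res_map d F hF ((algebraMap ℂ[X] (RatFunc ℂ)).comp
      (eval₂RingHom (mapRingHom φ) (C c)))
    have h2 : ((algebraMap ℂ[X] (RatFunc ℂ)).comp (eval₂RingHom (mapRingHom φ) (C c))).comp C =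
        (algebraMap ℂ[X] (RatFunc ℂ)).comp (mapRingHom φ) := by
      ext <;> simp
    have h3 : ((algebraMap ℂ[X] (RatFunc ℂ)).comp (eval₂RingHom (mapRingHom φ) (C c))) X =
        algebraMap ℂ (RatFunc ℂ) c := by
      rw [RingHom.comp_apply, coe_eval₂RingHom, eval₂_X]
      rfl
    rw [h2, h3] at h1
    have hm : (hatR φ F).natDegree = d := by
      rw [← hd]
      exact hF.natDegree_map _
    have h4 : resultant (hatR φ F) ((hatR φ F).scaleRoots (algebraMap ℂ (RatFunc ℂ) c)) d d = 0 := by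
      have h5 := (resultant_eq_zero_iff (f := hatR φ F)
        (g := (hatR φ F).scaleRoots (algebraMap ℂ (RatFunc ℂ) c))).2
        ⟨Or.inl ((hF.map _).ne_zero), hcop⟩
      rw [natDegree_scaleRoots, hm] at h5
      exact h5
    change _ = resultant (hatR φ F) ((hatR φ F).scaleRoots (algebraMap ℂ (RatFunc ℂ) c)) d d at h1
    rw [h4, RingHom.comp_apply] at h1
    have h5 : eval₂RingHom (mapRingHom φ) (C c) (rsn d F) = 0 :=
      (map_eq_zero_iff _ (FaithfulSMul.algebraMap_injective ℂ[X] (RatFunc ℂ))).1 h1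
    rw [← hr, coe_eval₂RingHom, eval₂_eq_sum_range] at h5
    have h6 := congrArg (fun p => coeff p j) h5
    simp only [finsetSum_coeff, coe_mapRingHom, ← C_pow, coeff_mul_C, coeff_map, coeff_zero] at h6
    rw [eval₂_finsetSum]
    simp only [eval₂_monomial]
    exact h6

theorem tot (D n : ℕ) (hn : n.totient ≤ D) : n ≤ (2 * D + 1) ^ (2 * D + 1) := by
  rcases Nat.eq_zero_or_pos n with h0 | h0
  · rw [h0]
    exact Nat.zero_le _
  · have h1 : n.primeFactors ⊆ Finset.Icc 1 (2 * D + 1) := by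
      intro p hp
      have hpp := Nat.prime_of_mem_primeFactors hp
      have hk : 0 < n.factorization p :=
        hpp.factorization_pos_of_dvd h0.ne' (Nat.dvd_of_mem_primeFactors hp)
      rw [Finset.mem_Icc]
      exact ⟨hpp.one_le, (Nat.le_self_pow hk.ne' p).trans (pk_le D n p hn h0 hp)⟩
    have h2 : n.primeFactors.card ≤ 2 * D + 1 := by
      have := Finset.card_le_card h1
      rwa [Nat.card_Icc, Nat.add_sub_cancel] at this
    have h3 : ∏ p ∈ n.primeFactors, p ^ n.factorization p = n := by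
      have := Nat.prod_factorization_pow_eq_self h0.ne'
      rwa [Finsupp.prod, Nat.support_factorization] at this
    calc n = ∏ p ∈ n.primeFactors, p ^ n.factorization p := h3.symm
      _ ≤ ∏ _p ∈ n.primeFactors, (2 * D + 1) :=
          Finset.prod_le_prod' fun p hp => pk_le D n p hn h0 hp
      _ = (2 * D + 1) ^ n.primeFactors.card := by rw [Finset.prod_const]
      _ ≤ (2 * D + 1) ^ (2 * D + 1) := Nat.pow_le_pow_right (by omega) h2

end ETOR

open ETOR in
theorem peTOR : SeTOR := by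
  have hq : Tow (fun x : ℕ => 2 * ((x + x) * x) + 1) :=
    ((Tow.const 2).mul ((Tow.id.add Tow.id).mul Tow.id)).add (Tow.const 1)
  refine ⟨fun x => (2 * ((x + x) * x) + 1) ^ (2 * ((x + x) * x) + 1),
    hq.pow hq (fun x => Nat.le_add_left 1 _), fun d =>
    ⟨(2 * ((d + d) * d) + 1) ^ (2 * ((d + d) * d) + 1), le_rfl, ?_⟩⟩
  intro F hF hd h0 n c hn hc hcop
  refine tot ((d + d) * d) n ?_
  obtain ⟨ρ, hρ, hρs, hev⟩ := rsc d ℤ (Int.castRingHom ℂ) F Int.cast_injective hF hd h0
  have h1 : ρ.eval₂ (Int.castRingHom ℂ) c = 0 := hev c hcop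
  have h2 : aeval c ρ = 0 := h1
  have h3 : minpoly ℤ c ∣ ρ :=
    minpoly.isIntegrallyClosed_dvd (hc.isIntegral (by omega)) h2
  rw [← cyclotomic_eq_minpoly hc (by omega)] at h3
  have h4 := natDegree_le_of_dvd h3 hρ
  rw [natDegree_cyclotomic] at h4
  exact h4.trans hρs

end Pool.Agent.Work.MP_8d13b5_lc.Fm
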