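import Pool.Agent.Work.MP_8d13b5_lc.Fm.StmtsEff
import Pool.Agent.Work.MP_8d13b5_lc.Fm.I_UUG

set_option autoImplicit false

/-! Item eUUG: the matrices `U` from explicit data, with effective constants. -/

namespace Pool.Agent.Work.MP_8d13b5_lc.Fm

open Polynomial NumberField Finset Module

namespace EUUG

/-- the bounding function -/
def gg (g₁ : ℕ → ℕ) (x : ℕ) : ℕ :=
  4 * g₁ (x + 1) * (x + 3) + (1 + (4 * x + 23) * g₁ (x + 1) + ((4 * x + 23) * (x + 3) + (x + 3)))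

lemma gg_tow {g₁ : ℕ → ℕ} (h : Tow g₁) : Tow (gg g₁) := by
  have h1 : Tow (fun x => g₁ (x + 1)) := h.comp (Tow.id.add (Tow.const 1))
  have h3 : Tow (fun x => x + 3) := Tow.id.add (Tow.const 3)
  have h4 : Tow (fun x => 4 * x + 23) := ((Tow.const 4).mul Tow.id).add (Tow.const 23)
  exact (((Tow.const 4).mul h1).mul h3).add
    (((Tow.const 1).add (h4.mul h1)).add ((h4.mul h3).add h3))

lemma bd_c {g₁ : ℕ → ℕ} (h : Tow g₁) (m σ s₂ : ℕ) (C₁ : ℝ) (h1 : 1 ≤ C₁)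
    (hC : C₁ ≤ g₁ (m + 1 + σ)) :
    4 * C₁ * ((m + 3 : ℕ) : ℝ) ≤ (gg g₁ (m + σ + s₂) : ℕ) := by
  have hmono : g₁ (m + 1 + σ) ≤ g₁ (m + σ + s₂ + 1) := h.mono (by omega)
  have h2 : C₁ ≤ (g₁ (m + σ + s₂ + 1) : ℕ) := hC.trans (by exact_mod_cast hmono)
  have h3 : 4 * C₁ * ((m + 3 : ℕ) : ℝ) ≤
      4 * ((g₁ (m + σ + s₂ + 1) : ℕ) : ℝ) * ((m + σ + s₂ + 3 : ℕ) : ℝ) := by
    refine mul_le_mul (by linarith) ?_ (Nat.cast_nonneg _) (by positivity)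
    exact_mod_cast (by omega)
  refine h3.trans ?_
  have h4 : 4 * g₁ (m + σ + s₂ + 1) * (m + σ + s₂ + 3) ≤ gg g₁ (m + σ + s₂) :=
    Nat.le_add_right _ _
  exact_mod_cast h4

lemma bd_s {g₁ : ℕ → ℕ} (h : Tow g₁) (m σ s₂ s₁ : ℕ) (hs : s₁ ≤ g₁ (m + 1 + σ)) :
    1 + (m + 2 + 2 + 3 * (m + 2) + (s₂ + 1 + 2 + 3 * (s₂ + 1)) + 3 + 4) * s₁ +
      ((m + 2 + 2 + 3 * (m + 2) + (s₂ + 1 + 2 + 3 * (s₂ + 1)) + 3 + 4) * (m + 1 + 2) +
        (m + 1) + 2) ≤ gg g₁ (m + σ + s₂) := by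
  have hmono : g₁ (m + 1 + σ) ≤ g₁ (m + σ + s₂ + 1) := h.mono (by omega)
  have h2 : s₁ ≤ g₁ (m + σ + s₂ + 1) := hs.trans hmono
  have hS : m + 2 + 2 + 3 * (m + 2) + (s₂ + 1 + 2 + 3 * (s₂ + 1)) + 3 + 4 ≤
      4 * (m + σ + s₂) + 23 := by omega
  have h3 := Nat.mul_le_mul hS h2
  have h4 : (m + 2 + 2 + 3 * (m + 2) + (s₂ + 1 + 2 + 3 * (s₂ + 1)) + 3 + 4) * (m + 1 + 2) ≤
      (4 * (m + σ + s₂) + 23) * (m + σ + s₂ + 3) := Nat.mul_le_mul hS (by omega)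
  unfold gg
  omega

end EUUG

open UUU XUU in
/-- **eUUG** -/
theorem peUUG (hHNX : SeHNX) (hSNM : StSNM) (hMUN : StMUN) (hINV : StINV) (hUUA : StUUA) :
    SeUUG := by
  intro K _ _
  obtain ⟨g₁, hg₁, hHn⟩ := hHNX
  refine ⟨EUUG.gg g₁, EUUG.gg_tow hg₁, fun m σ s₂ => ?_⟩
  obtain ⟨C₁, s₁, hC₁, hCg, hsg, hH⟩ := hHn (m + 1) σ
  set c₁ : ℝ := ((m + 3 : ℕ) : ℝ) with hc₁
  have hm3 : (3 : ℝ) ≤ ((m + 3 : ℕ) : ℝ) := by push_cast; linarith [Nat.cast_nonneg (α := ℝ) m]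
  have hc₁3 : 3 ≤ c₁ := hm3
  set a₄ : ℕ := m + 2 + 2 + 3 * (m + 2) with ha₄
  set a₅ : ℕ := s₂ + 1 + 2 + 3 * (s₂ + 1) with ha₅
  set S : ℕ := a₄ + a₅ + 3 + 4 with hS
  set E : ℕ := 1 + S * s₁ + (S * (m + 1 + 2) + (m + 1) + 2) with hEdef
  refine ⟨4 * C₁ * c₁, E, by nlinarith, EUUG.bd_c hg₁ m σ s₂ C₁ hC₁ hCg,
    EUUG.bd_s hg₁ m σ s₂ s₁ hsg, fun F v δ t₀ hmon hdeg hFd hvd hdvd n => ?_⟩
  have hk1 : 1 ≤ F.natDegree := by omega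
  have hN := NN_sn (K := K) hSNM hmon hk1
  -- the data at t₀
  set A := AdjoinRoot (spc F t₀) with hA
  set x : A := AdjoinRoot.root (spc F t₀) with hx
  set T₀ : A := algebraMap (𝓞 K) A t₀ with hT₀
  have hroot : ev2 F T₀ x = 0 := ev2_root F t₀
  have hds : ev2 (derivative F) T₀ x * ev2 (v.map C) T₀ x = algebraMap (𝓞 K) A δ :=
    UUG.ds_eq F v δ t₀ hdvd
  have hxs : x * (-(ev2 (divX F) T₀ x)) = algebraMap (𝓞 K) A ((F.coeff 0).eval t₀) := by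
    have h := congrArg (fun P => ev2 P T₀ x) (divX_mul_X_add F)
    simp only [ev2_add, ev2_mul, ev2_C, ev2_X] at h
    rw [hroot] at h
    rw [← aeval_algebraMap_apply_eq_algebraMap_eval]
    have h2 : aeval (algebraMap (𝓞 K) A t₀) (F.coeff 0) = aeval T₀ (F.coeff 0) := rfl
    rw [h2]
    linear_combination -h
  obtain ⟨μ, hμ, hμe, hμN⟩ := hH (𝓞 K) A F t₀ δ ((F.coeff 0).eval t₀) x
    (-(ev2 (divX F) T₀ x)) (ev2 (v.map C) T₀ x) hdeg.le hFd hroot hds hxs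
  obtain ⟨T, hT, hTn⟩ := hUUA (𝓞 K) F t₀ (δ ^ 2 * (F.coeff 0).eval t₀) (spc_monic hmon t₀) μ
    hmon hk1 hμ hμe
  -- the sizes
  have hall : ∀ (φ : K →+* ℂ) (B₀ : ℝ), 1 ≤ B₀ → ‖res φ t₀‖ ≤ B₀ → ‖res φ δ‖ ≤ B₀ →
      (∀ i, ‖res φ (v.coeff i)‖ ≤ B₀) → (∀ i, ‖res φ ((F.coeff i).eval t₀)‖ ≤ B₀) →
      (∀ i j, ‖res φ ((F.coeff i).coeff j)‖ ≤ B₀) →
      1 ≤ (c₁ * B₀) ^ S ∧
      NN hmon t₀ φ 1 ≤ (c₁ * B₀) ^ S ∧ NN hmon t₀ φ x ≤ (c₁ * B₀) ^ S ∧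
      ∀ r, 1 ≤ r → NN hmon t₀ φ (PowerSeries.coeff r μ) ≤
      (C₁ * ((c₁ * B₀) ^ S) ^ s₁) ^ r := by
    intro φ B₀ hB₀ bt bδ bv bF bFF
    set B : ℝ := c₁ * B₀ with hB
    have hNt := hN t₀ φ
    have hsn := hSNM (𝓞 K) (res φ) (spc F t₀) (spc_monic hmon t₀)
      (by rw [spc_deg hmon]; exact hk1)
    have hc₁0 : 0 ≤ c₁ := by linarith
    have hcB : c₁ ≤ B := by rw [hB]; nlinarith
    have hB₀B : B₀ ≤ B := by rw [hB]; nlinarith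
    have hB3 : 3 ≤ B := by linarith
    have hB2 : 2 ≤ B := by linarith
    have hB1 : 1 ≤ B := by linarith
    have hB0 : 0 ≤ B := by linarith
    have hmB : ((m + 3 : ℕ) : ℝ) ≤ B := by linarith
    have hpow : ∀ {i j : ℕ}, i ≤ j → B ^ i ≤ B ^ j := fun h => pow_le_pow_right₀ hB1 h
    have halg : ∀ (a : 𝓞 K), ‖res φ a‖ ≤ B →
        NN hmon t₀ φ (algebraMap (𝓞 K) A a) ≤ B ^ 2 := by
      intro a ha
      have h1 := hsn.2.2.1 a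
      rw [spc_deg hmon, hdeg] at h1
      have h2 : NN hmon t₀ φ (algebraMap (𝓞 K) A a) = ((m + 1 : ℕ) : ℝ) * ‖res φ a‖ := h1
      rw [h2, pow_two]
      refine mul_le_mul ?_ ha (norm_nonneg _) hB0
      refine le_trans ?_ hmB
      exact_mod_cast (by omega)
    have q1 : NN hmon t₀ φ 1 ≤ B ^ 2 := by
      have h1 := halg 1 (by rw [map_one, norm_one]; exact hB1)
      rwa [map_one] at h1
    have q2 : NN hmon t₀ φ T₀ ≤ B ^ 2 := halg t₀ (bt.trans hB₀B)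
    have qF : ∀ j, ‖res φ ((F.coeff j).eval t₀)‖ ≤ B := fun j => (bF j).trans hB₀B
    have q3 : NN hmon t₀ φ x ≤ B ^ 3 := by
      have h1 := hsn.2.2.2
      rw [spc_deg hmon, hdeg] at h1
      have h2 : ∑ j ∈ range (m + 1), ‖res φ ((spc F t₀).coeff j)‖ ≤
          ((m + 1 : ℕ) : ℝ) * B := by
        refine (Finset.sum_le_sum fun j _ => ?_).trans (b := ∑ j ∈ range (m + 1), B) ?_
        · unfold spc
          rw [coeff_map, coe_evalRingHom]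
          exact qF j
        · rw [Finset.sum_const, card_range, nsmul_eq_mul]
      have h3 : NN hmon t₀ φ x ≤ ((m + 1 : ℕ) : ℝ) + ((m + 1 : ℕ) : ℝ) * B :=
        h1.trans (by linarith)
      have h4 : ((m + 1 : ℕ) : ℝ) ≤ B := by
        refine le_trans ?_ hmB
        exact_mod_cast (by omega)
      have h7 : ((m + 1 : ℕ) : ℝ) * B ≤ B * B := mul_le_mul_of_nonneg_right h4 hB0
      have h8 : B ≤ B * B := by nlinarith
      have h9 : 2 * (B * B) ≤ B * (B * B) := mul_le_mul_of_nonneg_right hB2 (by positivity)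
      have h10 : B ^ 3 = B * (B * B) := by ring
      rw [h10]
      linarith
    have q1' : NN hmon t₀ φ 1 ≤ B ^ 3 := q1.trans (hpow (by omega))
    have q4 : NN hmon t₀ φ (ev2 (divX F) T₀ x) ≤ B ^ a₄ := by
      refine ev2_le hNt (divX F) t₀ x hB2 (D := m + 1) (a := 2) (b := 3) ?_ q1' q3 fun i => ?_
      · rw [natDegree_divX_eq_natDegree_tsub_one]
        omega
      · rw [coeff_divX]
        exact halg _ (qF (i + 1))
    have q5 : NN hmon t₀ φ (ev2 (v.map C) T₀ x) ≤ B ^ a₅ := by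
      refine ev2_le hNt (v.map C) t₀ x hB2 (D := s₂) (a := 2) (b := 3)
        (natDegree_map_le.trans hvd) q1' q3 fun i => ?_
      rw [coeff_map, eval_C]
      exact halg _ ((bv i).trans hB₀B)
    have q6 : NN hmon t₀ φ (algebraMap (𝓞 K) A δ) ≤ B ^ 2 := halg _ (bδ.trans hB₀B)
    have q7 : NN hmon t₀ φ (algebraMap (𝓞 K) A ((F.coeff 0).eval t₀)) ≤ B ^ 2 :=
      halg _ (qF 0)
    have q8 : ∀ i j, NN hmon t₀ φ (algebraMap (𝓞 K) A ((F.coeff j).coeff i)) ≤ B ^ 2 :=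
      fun i j => halg _ ((bFF j i).trans hB₀B)
    refine ⟨one_le_pow₀ hB1, q1.trans (hpow (by omega)), q3.trans (hpow (by omega)), ?_⟩
    exact hμN (NN hmon t₀ φ) (B ^ S) hNt (one_le_pow₀ hB1) (q1.trans (hpow (by omega)))
      (q2.trans (hpow (by omega))) (q3.trans (hpow (by omega)))
      (by rw [hNt.neg]; exact q4.trans (hpow (by omega))) (q5.trans (hpow (by omega)))
      (q6.trans (hpow (by omega))) (q7.trans (hpow (by omega)))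
      (fun i j => (q8 i j).trans (hpow (by omega)))
  have key : ∀ k' : ℕ, F.natDegree = k' → ∃ U : Fin k' → Fin k' → PowerSeries (𝓞 K),
        (∀ i j, PowerSeries.constantCoeff (U i j) = if i = j then 1 else 0) ∧
        (∀ j : Fin k', ∑ i : Fin k',
          PowerSeries.C ((Pd.cf F n i).eval t₀) * U i j =
            tay (Pd.cf F n j) t₀ (δ ^ 2 * (F.coeff 0).eval t₀)) ∧
        ∀ (φ : K →+* ℂ) (B₀ : ℝ), 1 ≤ B₀ → ‖res φ t₀‖ ≤ B₀ → ‖res φ δ‖ ≤ B₀ →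
          (∀ i, ‖res φ (v.coeff i)‖ ≤ B₀) → (∀ i, ‖res φ ((F.coeff i).eval t₀)‖ ≤ B₀) →
          (∀ i j, ‖res φ ((F.coeff i).coeff j)‖ ≤ B₀) →
          ∀ i j r, ‖res φ (PowerSeries.coeff r (U i j))‖ ≤
          k' * (((c₁ * B₀) ^ S) ^ (k' + 2) * 2 ^ n) *
      (4 * (C₁ * ((c₁ * B₀) ^ S) ^ s₁) *
        (1 + k' * (((c₁ * B₀) ^ S) ^ (k' + 2) * 2 ^ k'))) ^ r := by
    rintro _ rfl
    refine ⟨fun i j => ∑ l : Fin F.natDegree, crd (spc F t₀) (spc_monic hmon t₀) l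
            (PowerSeries.C (AdjoinRoot.root (spc F t₀) ^ (i : ℕ)) * μ ^ n) * T l j,
            (hTn n).1, (hTn n).2, fun φ B₀ hB₀ bt bδ bv bF bFF i j r => ?_⟩
    obtain ⟨hM1, m1, m3, hμr⟩ := hall φ B₀ hB₀ bt bδ bv bF bFF
    have hM0 : 0 ≤ (c₁ * B₀) ^ S := by linarith
    exact core hMUN hINV (res φ) (spc F t₀) (spc_monic hmon t₀) F.natDegree (spc_deg hmon t₀)
      (hN t₀ φ) (hSNM (𝓞 K) (res φ) (spc F t₀) (spc_monic hmon t₀)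
        (by rw [spc_deg hmon]; exact hk1)).2.1 μ hμ ((c₁ * B₀) ^ S)
      (C₁ * ((c₁ * B₀) ^ S) ^ s₁) hM1 m1 m3 (by positivity) hμr T hT n i j r
  obtain ⟨U, hU1, hU2, hU3⟩ := key (m + 1) hdeg
  refine ⟨U, hU1, hU2, fun φ B₀ hB₀ bt bδ bv bF bFF i j r =>
    (hU3 φ B₀ hB₀ bt bδ bv bF bFF i j r).trans ?_⟩
  have hcB : c₁ ≤ c₁ * B₀ := by nlinarith
  set B : ℝ := c₁ * B₀ with hB
  have hW : 4 * C₁ * c₁ * B₀ = 4 * C₁ * B := by rw [hB]; ring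
  have hB3 : 3 ≤ B := by linarith
  have hBW : B ≤ 4 * C₁ * c₁ * B₀ := by rw [hW]; nlinarith
  have hCW : 4 * C₁ ≤ 4 * C₁ * c₁ * B₀ := by rw [hW]; nlinarith
  have hkB : ((m + 1 : ℕ) : ℝ) ≤ B := by
    refine le_trans ?_ hcB
    rw [hc₁]
    exact_mod_cast (by omega)
  exact num2 (m + 1) n r S s₁ B C₁ (4 * C₁ * c₁) (4 * C₁ * c₁ * B₀)
    (by linarith) hC₁ hBW hCW hkB (by nlinarith)

end Pool.Agent.Work.MP_8d13b5_lc.Fm
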