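import Pool.Agent.Work.MP_8d13b5_lc.Fm.StmtsEff
import Pool.Agent.Work.MP_8d13b5_lc.Fm.I_VWR

set_option autoImplicit false

/-! Item eVWR of the block EFF: uniform assembly of the function field part, effective constant. -/

namespace Pool.Agent.Work.MP_8d13b5_lc.Fm

open Polynomial NumberField Finset Module

theorem peVWR (hVFD : SeVFD) (hFLD : StFLD) (hDAT : StDAT) (hELI : StELI)
    (hCNT : StCNT) (hVAN : StVAN) : SeVWR := by
  obtain ⟨g₁, hg₁, h₁⟩ := hVFD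
  refine ⟨fun x => (x + 1) ^ (x + 1) * (2 ^ x * (1 + (x + 1) * (x * x) + g₁ x)), ?_,
    fun m w => ?_⟩
  · refine Tow.mul (Tow.pow (Tow.id.add (Tow.const 1)) (Tow.id.add (Tow.const 1))
      (fun x => Nat.le_add_left 1 _)) (Tow.mul (Tow.id.two_pow) (Tow.add ?_ hg₁))
    exact (Tow.const 1).add ((Tow.id.add (Tow.const 1)).mul (Tow.id.mul Tow.id))
  obtain ⟨c, hcg, hc⟩ := h₁ m w
  refine ⟨(m + 1) ^ (m + 1) * (2 ^ m * (1 + (m + 1) * (w * m) + c)), ?_, ?_⟩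
  · have hm1 : m ≤ m + w := Nat.le_add_right _ _
    have hw1 : w ≤ m + w := Nat.le_add_left _ _
    have e1 : (m + 1) ^ (m + 1) ≤ (m + w + 1) ^ (m + w + 1) :=
      (Nat.pow_le_pow_left (Nat.succ_le_succ hm1) _).trans
        (Nat.pow_le_pow_right (Nat.succ_pos _) (Nat.succ_le_succ hm1))
    have e2 : 2 ^ m ≤ 2 ^ (m + w) := Nat.pow_le_pow_right (by norm_num) hm1
    have e3 : (m + 1) * (w * m) ≤ (m + w + 1) * ((m + w) * (m + w)) :=
      Nat.mul_le_mul (Nat.succ_le_succ hm1) (Nat.mul_le_mul hw1 hm1)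
    exact Nat.mul_le_mul e1 (Nat.mul_le_mul e2
      (Nat.add_le_add (Nat.add_le_add le_rfl e3) hcg))
  intro G hm hd h0 hnc hw n L P hP hL hsum
  obtain ⟨E, hE, hA, D, τ, lam, hdat⟩ := hDAT m G hm hd h0 hnc
  obtain ⟨δ, hδ, h1, h2⟩ := hc G E D τ lam hm hd hw hdat
  obtain ⟨a, ha, haF, hasum⟩ := hVAN m G E D τ lam w hdat hm hd n L P hP hL hsum
  obtain ⟨i, j, hij, x, y, hx, hy, hxF, hyF, hxy⟩ :=
    hELI m G E D τ lam w c δ hdat hδ h1 h2 n (L + (m + 1) * (w * m)) a ha haF hasum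
  have h3 := hCNT E (m + 1) τ lam w ((m + 1) ^ (m + 1))
    (hFLD E m τ lam w G hm hd hw (VWR.root_of_split hdat)) i j (hdat.ne j) (hdat.quo i j hij) n _
    x y hx hxF hyF hxy
  refine h3.trans ?_
  rw [Nat.mul_assoc]
  refine Nat.mul_le_mul_left _ ?_
  rw [Nat.mul_assoc]
  refine Nat.mul_le_mul_left _ ?_
  have h4 : (m + 1) * (w * m) + c ≤ ((m + 1) * (w * m) + c) * (L + 1) :=
    Nat.le_mul_of_pos_right _ (Nat.succ_pos L)
  nlinarith

end Pool.Agent.Work.MP_8d13b5_lc.Fm
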