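import Pool.Agent.Work.MP_8d13b5_lc.Fm.StmtsEy

set_option autoImplicit false

/-! Item XB1: the family `eyF` (degree, weights, heights, specialisation). -/

namespace Pool.Agent.Work.MP_8d13b5_lc.Fm

open Polynomial NumberField Finset Module

namespace EXB1

/-- the quadratic factor -/
noncomputable def P (a : ℤ) : ℤ[X][X] := X ^ 2 - C (C a) * X + C X

theorem P_deg (a : ℤ) : (P a).natDegree = 2 := by
  unfold P
  compute_degree!

theorem P_monic (a : ℤ) : (P a).Monic := by
  unfold P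
  monicity!

theorem P_zero (a : ℤ) : (P a).eval 0 = X := by
  unfold P
  simp

theorem L_zero (r : ℤ) : (X - C (C r) : ℤ[X][X]).eval 0 = - C r := by
  simp

theorem P_wt (a : ℤ) : Wt 1 (P a) := by
  intro i
  rw [P_deg, one_mul]
  rcases i with _ | _ | _ | i
  · have : (P a).coeff 0 = X := by rw [coeff_zero_eq_eval_zero, P_zero]
    rw [this, natDegree_X]
    norm_num
  · have : (P a).coeff 1 = - C a := by
      unfold P
      rw [coeff_add, coeff_sub, coeff_X_pow, coeff_C_mul, coeff_X_one, coeff_C,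
        if_neg (by norm_num), if_neg one_ne_zero]
      ring
    rw [this, natDegree_neg, natDegree_C]
    norm_num
  · have : (P a).coeff 2 = 1 := by
      unfold P
      rw [coeff_add, coeff_sub, coeff_X_pow, coeff_C_mul, coeff_X, coeff_C, if_pos rfl,
        if_neg (by norm_num), if_neg two_ne_zero]
      ring
    exact (by rw [this, natDegree_one] : ((P a).coeff 2).natDegree = 0).le.trans (Nat.zero_le _)
  · have : (P a).coeff (i + 3) = 0 := coeff_eq_zero_of_natDegree_lt (by rw [P_deg]; omega)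
    rw [this, natDegree_zero]
    exact Nat.zero_le _

theorem L_wt (r : ℤ) : Wt 1 (X - C (C r) : ℤ[X][X]) := by
  intro i
  rw [natDegree_X_sub_C, one_mul]
  rcases i with _ | _ | i
  · rw [coeff_zero_eq_eval_zero, L_zero, natDegree_neg, natDegree_C]
    norm_num
  · have : (X - C (C r) : ℤ[X][X]).coeff 1 = 1 := by
      rw [coeff_sub, coeff_X_one, coeff_C, if_neg one_ne_zero, sub_zero]
    exact (by rw [this, natDegree_one] :
      ((X - C (C r) : ℤ[X][X]).coeff 1).natDegree = 0).le.trans (Nat.zero_le _)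
  · have : (X - C (C r) : ℤ[X][X]).coeff (i + 2) = 0 :=
      coeff_eq_zero_of_natDegree_lt (by rw [natDegree_X_sub_C]; omega)
    rw [this, natDegree_zero]
    exact Nat.zero_le _

theorem wt_one : Wt 1 (1 : ℤ[X][X]) := by
  intro i
  rw [coeff_one]
  split_ifs
  · rw [natDegree_one]
    exact Nat.zero_le _
  · rw [natDegree_zero]
    exact Nat.zero_le _

/-- all the coefficients have the size at most `H` -/
def Ht (H : ℕ) (F : ℤ[X][X]) : Prop := ∀ i l, ((F.coeff i).coeff l).natAbs ≤ H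

theorem shift (n i l : ℕ) {H : ℕ} {F : ℤ[X][X]} (h : Ht H F) :
    (((X ^ n * F).coeff i).coeff l).natAbs ≤ H := by
  rw [coeff_X_pow_mul']
  split_ifs
  · exact h _ _
  · simp

theorem shift' (i l : ℕ) {H : ℕ} {F : ℤ[X][X]} (h : Ht H F) :
    (((C X * F).coeff i).coeff l).natAbs ≤ H := by
  rw [coeff_C_mul, ← pow_one (X : ℤ[X]), coeff_X_pow_mul']
  split_ifs
  · exact h _ _
  · simp

theorem P_mul {a : ℤ} {A H : ℕ} {F : ℤ[X][X]} (ha : a.natAbs ≤ A) (h : Ht H F) :
    Ht ((A + 2) * H) (P a * F) := by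
  intro i l
  have e : P a * F = X ^ 2 * F - C (C a) * (X ^ 1 * F) + C X * F := by
    unfold P
    ring
  rw [e, coeff_add, coeff_add, coeff_sub, coeff_sub, coeff_C_mul, coeff_C_mul]
  have h1 := shift 2 i l h
  have h2 := shift 1 i l h
  have h3 := shift' i l h
  have h4 := Nat.mul_le_mul ha h2
  rw [← Int.natAbs_mul] at h4
  have h5 : (A + 2) * H = A * H + 2 * H := by ring
  rw [h5]
  omega

theorem L_mul {r : ℤ} {A H : ℕ} {F : ℤ[X][X]} (hr : r.natAbs ≤ A) (h : Ht H F) :
    Ht ((A + 2) * H) ((X - C (C r)) * F) := by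
  intro i l
  have e : (X - C (C r)) * F = X ^ 1 * F - C (C r) * (X ^ 0 * F) := by
    ring
  rw [e, coeff_sub, coeff_sub, coeff_C_mul, coeff_C_mul]
  have h1 := shift 1 i l h
  have h2 := shift 0 i l h
  have h4 := Nat.mul_le_mul hr h2
  rw [← Int.natAbs_mul] at h4
  have h5 : (A + 2) * H = A * H + 2 * H := by ring
  rw [h5]
  omega

theorem prod_ht {k : ℕ} (a : Fin k → ℤ) (A : ℕ) (ha : ∀ j, (a j).natAbs ≤ A) (s : Finset (Fin k)) :
    Ht ((A + 2) ^ s.card) (∏ j ∈ s, P (a j)) := by
  induction s using Finset.induction_on with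
  | empty =>
    intro i l
    rw [prod_empty, card_empty, pow_zero, coeff_one]
    split_ifs
    · rw [coeff_one]
      split_ifs <;> simp
    · simp
  | insert b s hb ih =>
    rw [prod_insert hb, card_insert_of_notMem hb, pow_succ, mul_comm _ (A + 2)]
    exact P_mul (ha b) ih

theorem prod_wt (hHB1 : StHB1) {k : ℕ} (a : Fin k → ℤ) (s : Finset (Fin k)) :
    Wt 1 (∏ j ∈ s, P (a j)) := by
  induction s using Finset.induction_on with
  | empty => rw [prod_empty]; exact wt_one
  | insert b s hb ih =>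
    rw [prod_insert hb]
    exact (hHB1.2.2.2.2.1 ℤ 1 _ _ 0 1 (P_monic _) (monic_prod_of_monic _ _ fun j _ => P_monic _)
      (P_wt _) ih).1

end EXB1

open EXB1 in
theorem peXB1 (hHB1 : StHB1) : StXB1 := by
  intro k a r A hA ha hr hr0
  have hm : (∏ j, P (a j)).Monic := monic_prod_of_monic _ _ fun j _ => P_monic _
  have hd : (∏ j, P (a j)).natDegree = 2 * k := by
    rw [natDegree_prod_of_monic _ _ fun j _ => P_monic _]
    simp only [P_deg, sum_const, card_univ, Fintype.card_fin, smul_eq_mul]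
    ring
  have hmL : (X - C (C r) : ℤ[X][X]).Monic := monic_X_sub_C _
  have hmE : (eyF k a r).Monic := hmL.mul hm
  have hw : Wt 1 (eyF k a r) :=
    (hHB1.2.2.2.2.1 ℤ 1 _ _ 0 1 hmL hm (L_wt r) (prod_wt hHB1 a univ)).1
  refine ⟨⟨hmE, ?_, ?_, ?_, hw, ?_⟩, ?_⟩
  · show ((X - C (C r)) * ∏ j, P (a j)).natDegree = _
    rw [hmL.natDegree_mul hm, hd, natDegree_X_sub_C]
    ring
  · rw [coeff_zero_eq_eval_zero]
    show ((X - C (C r)) * ∏ j, P (a j)).eval 0 ≠ 0
    rw [eval_mul, L_zero, eval_prod]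
    refine mul_ne_zero (neg_ne_zero.2 (C_ne_zero.2 hr0)) (prod_ne_zero_iff.2 fun j _ => ?_)
    rw [P_zero]
    exact X_ne_zero
  · exact Nat.one_le_pow _ _ (by omega)
  · have h := L_mul hr (prod_ht a A ha univ)
    rw [card_univ, Fintype.card_fin, mul_comm, ← pow_succ] at h
    exact h
  · intro q
    rw [hHB1.2.2.2.1 ℤ 1 _ q hmE hw]
    unfold spc eyF eyf
    simp [Polynomial.map_mul, Polynomial.map_prod]

end Pool.Agent.Work.MP_8d13b5_lc.Fm
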