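import Pool.Agent.Work.MP_8d13b5_lc.Fm.StmtsEy

set_option autoImplicit false

/-! Item XB2 of the block EFF: the roots of the family `eyF` have non constant quotients. -/

namespace Pool.Agent.Work.MP_8d13b5_lc.Fm

open Polynomial NumberField Finset Module

namespace EXB2

theorem sepq {K : Type} [Field K] (a t : K) (h : 4 * t - a ^ 2 ≠ 0) :
    (X ^ 2 - C a * X + C t : K[X]).Separable := by
  rw [separable_def]
  have hd : derivative (X ^ 2 - C a * X + C t : K[X]) = 2 * X - C a := by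
    simp only [derivative_add, derivative_sub, derivative_X_pow, derivative_C_mul, derivative_X,
      derivative_C, mul_one, add_zero]
    norm_num
    exact map_ofNat C 2
  rw [hd]
  have h1 : C (4 * t - a ^ 2)⁻¹ * (4 * C t - C a ^ 2) = (1 : K[X]) := by
    have e : (4 * C t - C a ^ 2 : K[X]) = C (4 * t - a ^ 2) := by
      have h4 : (C 4 : K[X]) = 4 := map_ofNat C 4
      rw [C_sub, C_mul, C_pow, h4]
    rw [e, ← C_mul, inv_mul_cancel₀ h, C_1]
  refine ⟨4 * C (4 * t - a ^ 2)⁻¹, -(C (4 * t - a ^ 2)⁻¹ * (2 * X - C a)), ?_⟩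
  linear_combination h1

theorem copq {K : Type} [Field K] (a b t : K) (hab : b - a ≠ 0) (ht : t ≠ 0) :
    IsCoprime (X ^ 2 - C a * X + C t : K[X]) (X ^ 2 - C b * X + C t) := by
  have h1 : C t⁻¹ * C t = (1 : K[X]) := by rw [← C_mul, inv_mul_cancel₀ ht, C_1]
  have h2 : C (b - a)⁻¹ * (C b - C a) = (1 : K[X]) := by
    rw [← C_sub, ← C_mul, inv_mul_cancel₀ hab, C_1]
  refine ⟨-(C t⁻¹ * (X - C b) * C (b - a)⁻¹), C t⁻¹ * (1 + (X - C b) * C (b - a)⁻¹), ?_⟩
  linear_combination h1 - C t⁻¹ * (X - C b) * X * h2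

theorem copl {K : Type} [Field K] (r a t : K) (h : r ^ 2 - a * r + t ≠ 0) :
    IsCoprime (X - C r : K[X]) (X ^ 2 - C a * X + C t) := by
  have h1 : C (r ^ 2 - a * r + t)⁻¹ * (C r ^ 2 - C a * C r + C t) = (1 : K[X]) := by
    rw [← C_pow, ← C_mul, ← C_sub, ← C_add, ← C_mul, inv_mul_cancel₀ h, C_1]
  refine ⟨-(C (r ^ 2 - a * r + t)⁻¹ * (X + C r - C a)), C (r ^ 2 - a * r + t)⁻¹, ?_⟩
  linear_combination h1

theorem phi_inj : Function.Injective (algebraMap ℤ[X] (FractionRing ℤ[X])) :=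
  IsFractionRing.injective ℤ[X] (FractionRing ℤ[X])

theorem Om_inj : Function.Injective (algebraMap ℤ[X] Om) := by
  rw [IsScalarTower.algebraMap_eq ℤ[X] (FractionRing ℤ[X]) Om]
  exact (algebraMap (FractionRing ℤ[X]) Om).injective.comp phi_inj

theorem phi_ne {P : ℤ[X]} (h : P ≠ 0) : algebraMap ℤ[X] (FractionRing ℤ[X]) P ≠ 0 :=
  fun h1 => h (phi_inj (by rw [h1, map_zero]))

theorem lin_ne (b c : ℤ) (hb : b ≠ 0) : (C b * X + C c : ℤ[X]) ≠ 0 := by
  intro h
  have h1 := congrArg (fun P : ℤ[X] => P.coeff 1) h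
  simp only [coeff_add, coeff_C_mul, coeff_X_one, coeff_C_succ, coeff_zero, mul_one, add_zero] at h1
  exact hb h1

theorem sep (k : ℕ) (a : Fin k → ℤ) (r : ℤ) (hsq : ∀ i j, i ≠ j → a i ^ 2 ≠ a j ^ 2) :
    ((eyF k a r).map (algebraMap ℤ[X] (FractionRing ℤ[X]))).Separable := by
  have h1 : (eyF k a r).map (algebraMap ℤ[X] (FractionRing ℤ[X])) =
      (X - C (algebraMap ℤ[X] (FractionRing ℤ[X]) (C r))) *
        ∏ j, (X ^ 2 - C (algebraMap ℤ[X] (FractionRing ℤ[X]) (C (a j))) * X +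
          C (algebraMap ℤ[X] (FractionRing ℤ[X]) X)) := by
    unfold eyF
    rw [Polynomial.map_mul, Polynomial.map_sub, map_X, map_C, Polynomial.map_prod]
    refine congrArg _ (Finset.prod_congr rfl fun j _ => ?_)
    rw [Polynomial.map_add, Polynomial.map_sub, Polynomial.map_mul, Polynomial.map_pow, map_X,
      map_C, map_C]
  rw [h1]
  have ht : algebraMap ℤ[X] (FractionRing ℤ[X]) X ≠ 0 := phi_ne X_ne_zero
  refine Separable.mul (separable_X_sub_C) (separable_prod' ?_ ?_) (IsCoprime.prod_right ?_)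
  · intro i _ j _ hij
    refine copq _ _ _ ?_ ht
    rw [← map_sub, ← C_sub]
    refine phi_ne ?_
    rw [Ne, C_eq_zero]
    intro h
    exact hsq i j hij (by rw [sub_eq_zero.1 h])
  · intro j _
    refine sepq _ _ ?_
    have e : 4 * algebraMap ℤ[X] (FractionRing ℤ[X]) X -
        algebraMap ℤ[X] (FractionRing ℤ[X]) (C (a j)) ^ 2 =
        algebraMap ℤ[X] (FractionRing ℤ[X]) (C 4 * X + C (-(a j) ^ 2)) := by
      rw [map_add, map_mul, C_neg, map_neg, C_pow, map_pow]
      have h4 : (C (4 : ℤ) : ℤ[X]) = 4 := map_ofNat C 4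
      have h5 : algebraMap ℤ[X] (FractionRing ℤ[X]) 4 = 4 :=
        map_ofNat (algebraMap ℤ[X] (FractionRing ℤ[X])) 4
      rw [h4, h5]
      ring
    rw [e]
    exact phi_ne (lin_ne 4 _ (by norm_num))
  · intro j _
    refine copl _ _ _ ?_
    have e : algebraMap ℤ[X] (FractionRing ℤ[X]) (C r) ^ 2 -
        algebraMap ℤ[X] (FractionRing ℤ[X]) (C (a j)) * algebraMap ℤ[X] (FractionRing ℤ[X]) (C r) +
        algebraMap ℤ[X] (FractionRing ℤ[X]) X =
        algebraMap ℤ[X] (FractionRing ℤ[X]) (C 1 * X + C (r ^ 2 - a j * r)) := by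
      rw [C_1, one_mul, C_sub, C_mul, C_pow, map_add, map_sub, map_mul, map_pow]
      ring
    rw [e]
    exact phi_ne (lin_ne 1 _ one_ne_zero)

/-- the roots -/
theorem roots (k : ℕ) (a : Fin k → ℤ) (r : ℤ) (x : Om) (hx : IsRt (eyF k a r) x) :
    x = (r : Om) ∨ ∃ j, x ^ 2 - (a j : Om) * x + algebraMap ℤ[X] Om X = 0 := by
  unfold IsRt eyF at hx
  rw [Polynomial.map_mul, Polynomial.map_sub, map_X, map_C, Polynomial.map_prod, eval_mul,
    eval_sub, eval_X, eval_C, eval_prod, mul_eq_zero, Finset.prod_eq_zero_iff] at hx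
  rcases hx with hx | ⟨j, -, hx⟩
  · left
    rw [sub_eq_zero] at hx
    rw [hx]
    simp
  · right
    refine ⟨j, ?_⟩
    rw [Polynomial.map_add, Polynomial.map_sub, Polynomial.map_mul, Polynomial.map_pow, map_X,
      map_C, map_C, eval_add, eval_sub, eval_mul, eval_pow, eval_X, eval_C, eval_C] at hx
    have e : algebraMap ℤ[X] Om (C (a j)) = (a j : Om) := by simp
    rw [e] at hx
    exact hx

theorem int_alg (n : ℤ) : IsAlgebraic ℤ (n : Om) := by
  have h := isAlgebraic_algebraMap (R := ℤ) (A := Om) n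
  simpa using h

theorem not_alg_t : ¬ IsAlgebraic ℤ (algebraMap ℤ[X] Om X) := by
  rw [isAlgebraic_algebraMap_iff Om_inj]
  exact transcendental_X ℤ

/-- a root of a quadratic factor is not algebraic -/
theorem not_alg (b : ℤ) (y : Om) (hy : y ^ 2 - (b : Om) * y + algebraMap ℤ[X] Om X = 0) :
    ¬ IsAlgebraic ℤ y := by
  intro h
  refine not_alg_t ?_
  have e : algebraMap ℤ[X] Om X = (b : Om) * y - y ^ 2 := by linear_combination hy
  rw [e]
  exact ((int_alg b).mul h).sub (h.pow 2)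

theorem cast_zero {n : ℤ} (h : (n : Om) = 0) : n = 0 := by
  have h1 : algebraMap ℤ[X] Om (C n) = 0 := by
    rw [← h]
    simp
  exact C_eq_zero.1 (Om_inj (by rw [h1, map_zero]))

theorem nonconst (k : ℕ) (a : Fin k → ℤ) (r : ℤ) (hr : r ≠ 0) (ha : ∀ j, a j ≠ 0)
    (hsq : ∀ i j, i ≠ j → a i ^ 2 ≠ a j ^ 2) (x y : Om) (hx : IsRt (eyF k a r) x)
    (hy : IsRt (eyF k a r) y) (hne : x ≠ y) : ¬ IsAlgebraic ℤ (x / y) := by
  intro halg
  have hr0 : (r : Om) ≠ 0 := fun h => hr (cast_zero h)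
  rcases roots k a r x hx with hxr | ⟨i, hxi⟩ <;> rcases roots k a r y hy with hyr | ⟨j, hyj⟩
  · exact hne (hxr.trans hyr.symm)
  · refine not_alg (a j) y hyj ?_
    have hy0 : y ≠ 0 := by
      rintro rfl
      exact not_alg (a j) 0 hyj (by simpa using int_alg 0)
    have hx0 : x ≠ 0 := by rw [hxr]; exact hr0
    have e : y = x * (x / y)⁻¹ := by field_simp
    rw [e]
    refine IsAlgebraic.mul ?_ halg.inv
    rw [hxr]
    exact int_alg r
  · refine not_alg (a i) x hxi ?_
    have hy0 : y ≠ 0 := by rw [hyr]; exact hr0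
    have e : x = (x / y) * y := by field_simp
    rw [e]
    refine IsAlgebraic.mul halg ?_
    rw [hyr]
    exact int_alg r
  · have hy0 : y ≠ 0 := by
      rintro rfl
      exact not_alg (a j) 0 hyj (by simpa using int_alg 0)
    obtain ⟨c, hc⟩ : ∃ c, c = x / y := ⟨_, rfl⟩
    rw [← hc] at halg
    have hxc : x = c * y := by rw [hc]; field_simp
    have h1 : (c ^ 2 - 1) * y = (a i : Om) * c - (a j : Om) := by
      have h2 : ((c ^ 2 - 1) * y - ((a i : Om) * c - (a j : Om))) * y = 0 := by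
        rw [hxc] at hxi
        linear_combination hxi - hyj
      rcases mul_eq_zero.1 h2 with h3 | h3
      · exact sub_eq_zero.1 h3
      · exact absurd h3 hy0
    by_cases hc1 : c ^ 2 - 1 = 0
    · have h2 : (c - 1) * (c + 1) = 0 := by linear_combination hc1
      rcases mul_eq_zero.1 h2 with h3 | h3
      · refine hne ?_
        rw [hxc, sub_eq_zero.1 h3, one_mul]
      · have hcm : c = -1 := by linear_combination h3
        rw [hc1, zero_mul, hcm] at h1
        have h4 : ((a i + a j : ℤ) : Om) = 0 := by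
          push_cast
          linear_combination h1
        have h5 : a i + a j = 0 := cast_zero h4
        by_cases hij : i = j
        · subst hij
          exact ha i (by omega)
        · refine hsq i j hij ?_
          have h6 : a i = -a j := by omega
          rw [h6]
          ring
    · refine not_alg (a j) y hyj ?_
      have e : y = ((a i : Om) * c - (a j : Om)) * (c ^ 2 - 1)⁻¹ := by
        rw [← h1]
        field_simp
      rw [e]
      refine IsAlgebraic.mul (((int_alg (a i)).mul halg).sub (int_alg (a j))) ?_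
      refine IsAlgebraic.inv ((halg.pow 2).sub ?_)
      simpa using int_alg 1

theorem monic (k : ℕ) (a : Fin k → ℤ) (r : ℤ) : (eyF k a r).Monic := by
  unfold eyF
  refine Monic.mul (monic_X_sub_C _) (monic_prod_of_monic _ _ fun j _ => ?_)
  have h : (X ^ 2 - C (C (a j)) * X + C X : ℤ[X][X]) = X ^ 2 + (-(C (C (a j)) * X) + C X) := by ring
  rw [h]
  refine monic_X_pow_add ?_
  refine lt_of_le_of_lt (degree_add_le _ _) ?_
  rw [max_lt_iff]
  constructor
  · rw [degree_neg]
    exact lt_of_le_of_lt (degree_C_mul_X_le _) (by norm_num)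
  · exact lt_of_le_of_lt degree_C_le (by norm_num)

theorem coeff_zero_ne (k : ℕ) (a : Fin k → ℤ) (r : ℤ) (hr : r ≠ 0) :
    (eyF k a r).coeff 0 ≠ 0 := by
  unfold eyF
  rw [coeff_zero_eq_eval_zero, eval_mul, eval_prod]
  refine mul_ne_zero ?_ (Finset.prod_ne_zero_iff.2 fun j _ => ?_)
  · rw [eval_sub, eval_X, eval_C, zero_sub, neg_ne_zero, Ne, C_eq_zero]
    exact hr
  · rw [eval_add, eval_sub, eval_mul, eval_pow, eval_X, eval_C, eval_C, mul_zero,
      zero_pow two_ne_zero, sub_zero, zero_add]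
    exact X_ne_zero

end EXB2

/-- **item XB2** -/
theorem peXB2 (hEQ2 : StEQ2) : StXB2 := by
  intro k a r hr ha hsq
  exact hEQ2 _ (EXB2.monic k a r) (EXB2.coeff_zero_ne k a r hr)
    ⟨EXB2.sep k a r hsq, fun x y hx hy hne => EXB2.nonconst k a r hr ha hsq x y hx hy hne⟩

end Pool.Agent.Work.MP_8d13b5_lc.Fm
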