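import Pool.Agent.Work.MP_8d13b5_lc.Fm.StmtsEy

set_option autoImplicit false

/-! Item XB3 of block EFF: the instances of the open type of odd order, with explicit constants. -/

namespace Pool.Agent.Work.MP_8d13b5_lc.Fm

open Polynomial NumberField Finset Module

namespace EXB3

/-- the bound of the constants -/
theorem tow {g : ℕ → ℕ} (hg : Tow g) :
    Tow (fun x => g (2 * x + 3) * 3 ^ (x + 1) + (x + 1) * g (2 * x + 3)) := by
  have h1 : Tow (fun x => 2 * x + 3) := ((Tow.const 2).mul Tow.id).add (Tow.const 3)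
  have h2 : Tow (fun x => g (2 * x + 3)) := hg.comp h1
  have h3 : Tow (fun x => x + 1) := Tow.id.add (Tow.const 1)
  have h4 : Tow (fun x => 3 ^ (x + 1)) := (Tow.const 3).pow h3 (fun _ => by norm_num)
  exact (h2.mul h4).add (h3.mul h2)

/-- the threshold -/
theorem thr {c k A C : ℕ} (hc : 1 ≤ c) (hA : 1 ≤ A) (h1 : c * 3 ^ (k + 1) ≤ C)
    (h2 : (k + 1) * c ≤ C) : (c * (A + 2) ^ (k + 1)) ^ c ≤ (C * A) ^ C := by
  have hP : 1 ≤ c * 3 ^ (k + 1) := Nat.mul_pos hc (Nat.pow_pos (by norm_num))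
  have hCA : 1 ≤ C * A := Nat.mul_pos (hP.trans h1) hA
  have h3 : c * (A + 2) ^ (k + 1) ≤ (C * A) ^ (k + 1) := by
    calc c * (A + 2) ^ (k + 1) ≤ c * (3 * A) ^ (k + 1) :=
          Nat.mul_le_mul_left c (Nat.pow_le_pow_left (by omega) _)
      _ = c * 3 ^ (k + 1) * A ^ (k + 1) := by rw [mul_pow, mul_assoc]
      _ ≤ (c * 3 ^ (k + 1)) ^ (k + 1) * A ^ (k + 1) :=
          Nat.mul_le_mul_right _ (Nat.le_self_pow (Nat.succ_ne_zero k) _)
      _ = (c * 3 ^ (k + 1) * A) ^ (k + 1) := by rw [← mul_pow]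
      _ ≤ (C * A) ^ (k + 1) := Nat.pow_le_pow_left (Nat.mul_le_mul_right A h1) _
  calc (c * (A + 2) ^ (k + 1)) ^ c ≤ ((C * A) ^ (k + 1)) ^ c := Nat.pow_le_pow_left h3 c
    _ = (C * A) ^ ((k + 1) * c) := by rw [← pow_mul]
    _ ≤ (C * A) ^ C := Nat.pow_le_pow_right hCA h2

end EXB3

/-- Item XB3. -/
theorem peXB3 (hHZY : SeHZY) (hXB1 : StXB1) (hXB2 : StXB2) : StXB3 := by
  obtain ⟨g, hg, hZ⟩ := hHZY
  obtain ⟨h, hh⟩ := (EXB3.tow hg).bd
  refine ⟨h, ?_⟩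
  intro k a r A hk hA ha hr hr0 ha0 hsq q hq u hu
  obtain ⟨c, hc1, hcg, hc⟩ := hZ (2 * k + 1) 1 1 (by omega) le_rfl
  obtain ⟨C, hC⟩ : ∃ C, C = tw h k := ⟨_, rfl⟩
  rw [← hC] at hq
  rw [← hC]
  have hcg' : c ≤ g (2 * k + 3) := hcg
  have hGC : g (2 * k + 3) * 3 ^ (k + 1) + (k + 1) * g (2 * k + 3) ≤ C := by
    rw [hC]
    exact hh k
  have e1 : c * 3 ^ (k + 1) ≤ C :=
    ((Nat.mul_le_mul_right _ hcg').trans (Nat.le_add_right _ _)).trans hGC
  have e2 : (k + 1) * c ≤ C :=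
    ((Nat.mul_le_mul_left _ hcg').trans (Nat.le_add_left _ _)).trans hGC
  have hP : 1 ≤ c * 3 ^ (k + 1) := Nat.mul_pos hc1 (Nat.pow_pos (by norm_num))
  have hC1 : 1 ≤ C := hP.trans e1
  have hq1 : 1 ≤ q.natAbs := (Nat.one_le_pow _ _ (Nat.mul_pos hC1 hA)).trans hq
  have hmx : mx q 1 = q.natAbs := by
    unfold mx
    rw [Int.natAbs_one]
    exact max_eq_left hq1
  obtain ⟨hE, hsp1⟩ := hXB1 k a r A hA ha hr hr0
  have hthr : (c * (A + 2) ^ (k + 1)) ^ c ≤ mx q 1 := by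
    rw [hmx]
    exact (EXB3.thr hc1 hA e1 e2).trans hq
  have key := hc ((A + 2) ^ (k + 1)) (eyF k a r) hE (hXB2 k a r hr0 ha0 hsq) q 1
    isCoprime_one_right hthr u (by
      rw [pow_one, hsp1 q]
      exact hu)
  rw [hmx] at key
  rcases key with h0 | h1
  · exact Or.inl h0
  right
  intro B hB n hn
  obtain ⟨_, S, hS, hS'⟩ := h1 B (by
    intro i hi
    exact hB i (by omega))
  have hS0 : S = ∅ := by
    rw [← Finset.card_eq_zero]
    omega
  have h2 : q.natAbs ^ n ≤ (B * q.natAbs) ^ c := by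
    by_contra hcon
    have h3 := hS' n (not_le.1 hcon) hn
    rw [hS0] at h3
    exact absurd h3 (Finset.notMem_empty n)
  have h3 : 1 ≤ B * q.natAbs := by
    by_contra hcon
    have h4 : B * q.natAbs = 0 := by omega
    rw [h4, zero_pow (by omega)] at h2
    have h5 : 1 ≤ q.natAbs ^ n := Nat.one_le_pow _ _ hq1
    omega
  have h4 : c ≤ C := (Nat.le_mul_of_pos_right c (Nat.pow_pos (by norm_num))).trans e1
  exact h2.trans (Nat.pow_le_pow_right h3 h4)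

end Pool.Agent.Work.MP_8d13b5_lc.Fm
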