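import Pool.Agent.Work.MP_8d13b5_lc.Fm.StmtsU

set_option autoImplicit false

/-!
Item VDI of block FMU: the discriminant with sizes. The Bezout identity for the universal monic
polynomial of degree `m + 1` over `MvPolynomial (Fin (m + 1)) ℤ` is specialised.
-/

namespace Pool.Agent.Work.MP_8d13b5_lc.Fm

open Polynomial NumberField Finset Module

namespace VDI

/-- the specialisation of the universal ring -/
noncomputable def sp {m : ℕ} {A : Type} [CommRing A] (x : Fin (m + 1) → A) :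
    MvPolynomial (Fin (m + 1)) ℤ →+* A :=
  MvPolynomial.eval₂Hom (Int.castRingHom A) x

/-- the universal polynomial -/
noncomputable def uF (m : ℕ) : (MvPolynomial (Fin (m + 1)) ℤ)[X] :=
  X ^ (m + 1) + ∑ i : Fin (m + 1), C (MvPolynomial.X i) * X ^ (i : ℕ)

theorem uF_deg (m : ℕ) : (uF m).natDegree ≤ m + 1 := by
  unfold uF
  refine natDegree_add_le_of_degree_le (natDegree_X_pow_le _) ?_
  refine natDegree_sum_le_of_forall_le _ _ fun i _ => ?_
  exact (natDegree_C_mul_X_pow_le _ _).trans i.2.le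

theorem uF_map {m : ℕ} {A : Type} [CommRing A] (F : A[X]) (hF : F.Monic)
    (hd : F.natDegree = m + 1) : (uF m).map (sp fun i : Fin (m + 1) => F.coeff (i : ℕ)) = F := by
  conv_rhs => rw [hF.as_sum, hd]
  unfold uF
  rw [Polynomial.map_add, Polynomial.map_pow, Polynomial.map_X, Polynomial.map_sum,
    ← Fin.sum_univ_eq_sum_range (fun i => C (F.coeff i) * X ^ i)]
  congr 1
  refine Finset.sum_congr rfl fun i _ => ?_
  rw [Polynomial.map_mul, Polynomial.map_C, Polynomial.map_pow, Polynomial.map_X]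
  unfold sp
  rw [MvPolynomial.eval₂Hom_X']

theorem mono {C₁ C H : ℝ} {a b : ℕ} (hC : C₁ ≤ C) (h1 : 1 ≤ C₁) (hH : 1 ≤ H)
    (hab : a ≤ b) : (C₁ * H) ^ a ≤ (C * H) ^ b := by
  have h2 : 1 ≤ C * H := one_le_mul_of_one_le_of_one_le (h1.trans hC) hH
  calc (C₁ * H) ^ a ≤ (C * H) ^ a :=
        pow_le_pow_left₀ (by positivity) (mul_le_mul_of_nonneg_right hC (by linarith)) _
    _ ≤ (C * H) ^ b := pow_le_pow_right₀ h2 hab

/-- polynomial bounds for the specialisations of a fixed element of the universal ring -/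
theorem good (hPN : StPN) (K : Type) [Field K] [NumberField K] (m σ : ℕ)
    (P : MvPolynomial (Fin (m + 1)) ℤ) :
    ∃ (C₁ : ℝ) (s : ℕ), 1 ≤ C₁ ∧ ∀ x : Fin (m + 1) → (𝓞 K)[X], (∀ i, (x i).natDegree ≤ σ) →
      (sp x P).natDegree ≤ s ∧ ∀ (φ : K →+* ℂ) (H : ℝ), 1 ≤ H → (∀ i, pn (res φ) (x i) ≤ H) →
        pn (res φ) (sp x P) ≤ (C₁ * H) ^ s := by
  induction P using MvPolynomial.induction_on with
  | C a =>
    refine ⟨1 + |(a : ℝ)|, 1, by linarith [abs_nonneg (a : ℝ)], fun x _ => ?_⟩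
    have e : sp x (MvPolynomial.C a) = C ((a : 𝓞 K)) := by
      unfold sp
      rw [MvPolynomial.eval₂Hom_C]
      simp
    rw [e]
    refine ⟨by rw [natDegree_C]; exact Nat.zero_le _, fun φ H hH _ => ?_⟩
    rw [(hPN (𝓞 K) (res φ)).2.1, map_intCast, pow_one, Complex.norm_intCast]
    nlinarith [abs_nonneg (a : ℝ)]
  | add p q hp hq =>
    obtain ⟨C₁, s₁, h1, h2⟩ := hp
    obtain ⟨C₂, s₂, h3, h4⟩ := hq
    refine ⟨2 * max C₁ C₂, max s₁ s₂ + 1, by linarith [le_max_left C₁ C₂], fun x hx => ?_⟩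
    obtain ⟨a1, a2⟩ := h2 x hx
    obtain ⟨b1, b2⟩ := h4 x hx
    rw [map_add]
    refine ⟨(natDegree_add_le _ _).trans ?_, fun φ H hH hpn => ?_⟩
    · exact max_le (a1.trans ((le_max_left _ _).trans (Nat.le_succ _)))
        (b1.trans ((le_max_right _ _).trans (Nat.le_succ _)))
    · refine ((hPN (𝓞 K) (res φ)).2.2.1 _ _).trans ?_
      set M := max C₁ C₂ with hM
      have hM1 : 1 ≤ M := h1.trans (le_max_left _ _)
      have hMH : 1 ≤ M * H := one_le_mul_of_one_le_of_one_le hM1 hH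
      have c1 : (C₁ * H) ^ s₁ ≤ (M * H) ^ max s₁ s₂ :=
        mono (le_max_left _ _) h1 hH (le_max_left _ _)
      have c2 : (C₂ * H) ^ s₂ ≤ (M * H) ^ max s₁ s₂ :=
        mono (le_max_right _ _) h3 hH (le_max_right _ _)
      have c3 : (M * H) ^ max s₁ s₂ ≤ (2 * M * H) ^ max s₁ s₂ :=
        pow_le_pow_left₀ (by positivity) (by nlinarith) _
      have c4 : 0 ≤ (2 * M * H) ^ max s₁ s₂ := by positivity
      calc pn (res φ) (sp x p) + pn (res φ) (sp x q)
          ≤ (M * H) ^ max s₁ s₂ + (M * H) ^ max s₁ s₂ :=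
            add_le_add ((a2 φ H hH hpn).trans c1) ((b2 φ H hH hpn).trans c2)
        _ = 2 * (M * H) ^ max s₁ s₂ := by ring
        _ ≤ (2 * M * H) ^ max s₁ s₂ * (2 * M * H) := by nlinarith
        _ = (2 * M * H) ^ (max s₁ s₂ + 1) := (pow_succ _ _).symm
  | mul_X p i hp =>
    obtain ⟨C₁, s₁, h1, h2⟩ := hp
    refine ⟨C₁, s₁ + σ + 1, h1, fun x hx => ?_⟩
    obtain ⟨a1, a2⟩ := h2 x hx
    have e : sp x (p * MvPolynomial.X i) = sp x p * x i := by
      rw [map_mul]
      unfold sp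
      rw [MvPolynomial.eval₂Hom_X']
    rw [e]
    refine ⟨natDegree_mul_le.trans (by have := hx i; omega), fun φ H hH hpn => ?_⟩
    refine ((hPN (𝓞 K) (res φ)).2.2.2.1 _ _).trans ?_
    have hCH : 1 ≤ C₁ * H := one_le_mul_of_one_le_of_one_le h1 hH
    have hHC : H ≤ C₁ * H := by nlinarith
    calc pn (res φ) (sp x p) * pn (res φ) (x i) ≤ (C₁ * H) ^ s₁ * (C₁ * H) :=
          mul_le_mul (a2 φ H hH hpn) ((hpn i).trans hHC) ((hPN (𝓞 K) (res φ)).1 _) (by positivity)
      _ = (C₁ * H) ^ (s₁ + 1) := (pow_succ _ _).symm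
      _ ≤ (C₁ * H) ^ (s₁ + σ + 1) := pow_le_pow_right₀ hCH (by omega)

/-- the resultant of the universal polynomial and its derivative does not vanish in `F` -/
theorem res_ne {K : Type} [Field K] [NumberField K] {m : ℕ} {F : (𝓞 K)[X][X]} (hF : IsCrv m F) :
    resultant F (derivative F) (m + 1) m ≠ 0 := by
  obtain ⟨φ, hsep, -⟩ := hF.rat
  set f : (𝓞 K)[X] →+* RatFunc ℂ := (algebraMap ℂ[X] (RatFunc ℂ)).comp (mapRingHom (res φ)) with hf
  have hcop : IsCoprime (F.map f) (derivative (F.map f)) := by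
    have h2 := hsep
    rw [Polynomial.Separable, Polynomial.map_map] at h2
    exact h2
  have hM : (F.map f).Monic := hF.monic.map f
  have hd : (F.map f).natDegree = m + 1 := by
    rw [hF.monic.natDegree_map, hF.deg]
  have hd' : (derivative (F.map f)).natDegree = m := by
    rw [natDegree_derivative, hd]
    rfl
  have h1 := resultant_ne_zero _ _ hcop
  rw [hd, hd', derivative_map, resultant_map_map] at h1
  intro h
  rw [h, map_zero] at h1
  exact h1 rfl

end VDI

open VDI in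
/-- **item VDI** -/
theorem prVDI (hPN : StPN) : StVDI := by
  intro K _ _ m σ
  have hd' : (derivative (uF m)).natDegree ≤ m :=
    (natDegree_derivative_le _).trans (by have := uF_deg m; omega)
  obtain ⟨p, q, -, -, hpq⟩ := exists_mul_add_mul_eq_C_resultant (m := m + 1) (n := m) (uF m)
    (derivative (uF m)) (uF_deg m) hd' (Or.inl (Nat.succ_ne_zero m))
  obtain ⟨C₁, s₁, hC₁, h1⟩ := good hPN K m σ (resultant (uF m) (derivative (uF m)) (m + 1) m)
  have h2 := fun j => good hPN K m σ (q.coeff j)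
  choose C₂ s₂ hC₂ h3 using h2
  set N := q.natDegree with hN
  refine ⟨C₁ + ∑ j ∈ range (N + 1), C₂ j, s₁ + ∑ j ∈ range (N + 1), s₂ j + N, ?_, ?_⟩
  · have : 0 ≤ ∑ j ∈ range (N + 1), C₂ j :=
      Finset.sum_nonneg fun j _ => zero_le_one.trans (hC₂ j)
    linarith
  intro H F hF
  set x : Fin (m + 1) → (𝓞 K)[X] := fun i => F.coeff (i : ℕ) with hx
  have hxd : ∀ i, (x i).natDegree ≤ σ := fun i => hF.dg i (Nat.lt_succ_iff.1 i.2)
  have hxp : ∀ (φ : K →+* ℂ) i, pn (res φ) (x i) ≤ H := fun φ i =>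
    hF.ht φ i (Nat.lt_succ_iff.1 i.2)
  have hmap : (uF m).map (sp x) = F := uF_map F hF.crv.monic hF.crv.deg
  have hder : (derivative (uF m)).map (sp x) = derivative F := by
    rw [← derivative_map, hmap]
  have hres : sp x (resultant (uF m) (derivative (uF m)) (m + 1) m) =
      resultant F (derivative F) (m + 1) m := by
    rw [← resultant_map_map, hmap, hder]
  have hCs : ∀ j ∈ range (N + 1), C₂ j ≤ C₁ + ∑ j ∈ range (N + 1), C₂ j := fun j hj => by
    have := Finset.single_le_sum (f := C₂) (fun i _ => zero_le_one.trans (hC₂ i)) hj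
    linarith
  have hC1s : C₁ ≤ C₁ + ∑ j ∈ range (N + 1), C₂ j := by
    have : 0 ≤ ∑ j ∈ range (N + 1), C₂ j :=
      Finset.sum_nonneg fun j _ => zero_le_one.trans (hC₂ j)
    linarith
  have hss : ∀ j ∈ range (N + 1), s₂ j ≤ s₁ + ∑ j ∈ range (N + 1), s₂ j + N := fun j hj => by
    have := Finset.single_le_sum (f := s₂) (fun i _ => Nat.zero_le _) hj
    omega
  refine ⟨p.map (sp x), q.map (sp x),
    sp x (resultant (uF m) (derivative (uF m)) (m + 1) m), ?_, ?_, ?_, ?_, ?_, ?_⟩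
  · rw [hres]
    exact res_ne hF.crv
  · have h4 := congrArg (Polynomial.map (sp x)) hpq
    rw [Polynomial.map_add, Polynomial.map_mul, Polynomial.map_mul, Polynomial.map_C, hmap,
      hder] at h4
    rw [← h4]
    ring
  · have := (h1 x hxd).1
    omega
  · have h4 : (q.map (sp x)).natDegree ≤ N := natDegree_map_le
    omega
  · intro j
    rw [coeff_map]
    by_cases hj : j ∈ range (N + 1)
    · exact ((h3 j x hxd).1).trans (hss j hj)
    · rw [coeff_eq_zero_of_natDegree_lt (by rw [mem_range] at hj; omega), map_zero,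
        natDegree_zero]
      exact Nat.zero_le _
  · intro φ
    refine ⟨((h1 x hxd).2 φ H hF.one (hxp φ)).trans
      (mono hC1s hC₁ hF.one (by omega)), fun j => ?_⟩
    rw [coeff_map]
    by_cases hj : j ∈ range (N + 1)
    · exact ((h3 j x hxd).2 φ H hF.one (hxp φ)).trans
        (mono (hCs j hj) (hC₂ j) hF.one (hss j hj))
    · rw [coeff_eq_zero_of_natDegree_lt (by rw [mem_range] at hj; omega), map_zero]
      have h5 : pn (res φ) (0 : (𝓞 K)[X]) = 0 := by
        have := (hPN (𝓞 K) (res φ)).2.1 0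
        rwa [map_zero, map_zero, norm_zero] at this
      rw [h5]
      have h6 : 1 ≤ C₁ + ∑ j ∈ range (N + 1), C₂ j := hC₁.trans hC1s
      have h7 := hF.one
      positivity

end Pool.Agent.Work.MP_8d13b5_lc.Fm
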