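import Pool.Agent.Work.MP_8d13b5_lc.Fm.StmtsX
import Pool.Agent.Work.MP_8d13b5_lc.Fm.I_VDI

set_option autoImplicit false

/-!
Item XDI of block FMX: the discriminant with sizes, for `IsCr0H` (the proof of VDI, which does not use
the condition on the coefficients).
-/

namespace Pool.Agent.Work.MP_8d13b5_lc.Fm

open Polynomial NumberField Finset Module

namespace XDI

/-- the resultant of the universal polynomial and its derivative does not vanish in `F` -/
theorem res_ne {K : Type} [Field K] [NumberField K] {m : ℕ} {F : (𝓞 K)[X][X]} (hF : IsCr0 m F) :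
    resultant F (derivative F) (m + 1) m ≠ 0 := by
  obtain ⟨φ, hsep, -⟩ := hF.rat
  set f : (𝓞 K)[X] →+* RatFunc ℂ := (algebraMap ℂ[X] (RatFunc ℂ)).comp (mapRingHom (res φ)) with hf
  have hcop : IsCoprime (F.map f) (derivative (F.map f)) := by
    have h2 := hsep
    rw [Polynomial.Separable, Polynomial.map_map] at h2
    exact h2
  have hM : (F.map f).Monic := hF.monic.map f
  have hd : (F.map f).natDegree = m + 1 := by
    rw [hF.monic.natDegree_map, hF.deg]
  have hd' : (derivative (F.map f)).natDegree = m := by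
    rw [natDegree_derivative, hd]
    rfl
  have h1 := resultant_ne_zero _ _ hcop
  rw [hd, hd', derivative_map, resultant_map_map] at h1
  intro h
  rw [h, map_zero] at h1
  exact h1 rfl

end XDI

open VDI in
/-- **item XDI** -/
theorem prXDI (hPN : StPN) : StXDI := by
  intro K _ _ m σ
  have hd' : (derivative (uF m)).natDegree ≤ m :=
    (natDegree_derivative_le _).trans (by have := uF_deg m; omega)
  obtain ⟨p, q, -, -, hpq⟩ := exists_mul_add_mul_eq_C_resultant (m := m + 1) (n := m) (uF m)
    (derivative (uF m)) (uF_deg m) hd' (Or.inl (Nat.succ_ne_zero m))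
  obtain ⟨C₁, s₁, hC₁, h1⟩ := good hPN K m σ (resultant (uF m) (derivative (uF m)) (m + 1) m)
  have h2 := fun j => good hPN K m σ (q.coeff j)
  choose C₂ s₂ hC₂ h3 using h2
  set N := q.natDegree with hN
  refine ⟨C₁ + ∑ j ∈ range (N + 1), C₂ j, s₁ + ∑ j ∈ range (N + 1), s₂ j + N, ?_, ?_⟩
  · have : 0 ≤ ∑ j ∈ range (N + 1), C₂ j :=
      Finset.sum_nonneg fun j _ => zero_le_one.trans (hC₂ j)
    linarith
  intro H F hF
  set x : Fin (m + 1) → (𝓞 K)[X] := fun i => F.coeff (i : ℕ) with hx
  have hxd : ∀ i, (x i).natDegree ≤ σ := fun i => hF.dg i (Nat.lt_succ_iff.1 i.2)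
  have hxp : ∀ (φ : K →+* ℂ) i, pn (res φ) (x i) ≤ H := fun φ i =>
    hF.ht φ i (Nat.lt_succ_iff.1 i.2)
  have hmap : (uF m).map (sp x) = F := uF_map F hF.crv.monic hF.crv.deg
  have hder : (derivative (uF m)).map (sp x) = derivative F := by
    rw [← derivative_map, hmap]
  have hres : sp x (resultant (uF m) (derivative (uF m)) (m + 1) m) =
      resultant F (derivative F) (m + 1) m := by
    rw [← resultant_map_map, hmap, hder]
  have hCs : ∀ j ∈ range (N + 1), C₂ j ≤ C₁ + ∑ j ∈ range (N + 1), C₂ j := fun j hj => by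
    have := Finset.single_le_sum (f := C₂) (fun i _ => zero_le_one.trans (hC₂ i)) hj
    linarith
  have hC1s : C₁ ≤ C₁ + ∑ j ∈ range (N + 1), C₂ j := by
    have : 0 ≤ ∑ j ∈ range (N + 1), C₂ j :=
      Finset.sum_nonneg fun j _ => zero_le_one.trans (hC₂ j)
    linarith
  have hss : ∀ j ∈ range (N + 1), s₂ j ≤ s₁ + ∑ j ∈ range (N + 1), s₂ j + N := fun j hj => by
    have := Finset.single_le_sum (f := s₂) (fun i _ => Nat.zero_le _) hj
    omega
  refine ⟨p.map (sp x), q.map (sp x),
    sp x (resultant (uF m) (derivative (uF m)) (m + 1) m), ?_, ?_, ?_, ?_, ?_, ?_⟩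
  · rw [hres]
    exact XDI.res_ne hF.crv
  · have h4 := congrArg (Polynomial.map (sp x)) hpq
    rw [Polynomial.map_add, Polynomial.map_mul, Polynomial.map_mul, Polynomial.map_C, hmap,
      hder] at h4
    rw [← h4]
    ring
  · have := (h1 x hxd).1
    omega
  · have h4 : (q.map (sp x)).natDegree ≤ N := natDegree_map_le
    omega
  · intro j
    rw [coeff_map]
    by_cases hj : j ∈ range (N + 1)
    · exact ((h3 j x hxd).1).trans (hss j hj)
    · rw [coeff_eq_zero_of_natDegree_lt (by rw [mem_range] at hj; omega), map_zero,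
        natDegree_zero]
      exact Nat.zero_le _
  · intro φ
    refine ⟨((h1 x hxd).2 φ H hF.one (hxp φ)).trans
      (mono hC1s hC₁ hF.one (by omega)), fun j => ?_⟩
    rw [coeff_map]
    by_cases hj : j ∈ range (N + 1)
    · exact ((h3 j x hxd).2 φ H hF.one (hxp φ)).trans
        (mono (hCs j hj) (hC₂ j) hF.one (hss j hj))
    · rw [coeff_eq_zero_of_natDegree_lt (by rw [mem_range] at hj; omega), map_zero]
      have h5 : pn (res φ) (0 : (𝓞 K)[X]) = 0 := by
        have := (hPN (𝓞 K) (res φ)).2.1 0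
        rwa [map_zero, map_zero, norm_zero] at this
      rw [h5]
      have h6 : 1 ≤ C₁ + ∑ j ∈ range (N + 1), C₂ j := hC₁.trans hC1s
      have h7 := hF.one
      positivity

end Pool.Agent.Work.MP_8d13b5_lc.Fm
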