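import Pool.Agent.Work.MP_8d13b5_lc.Fm.StmtsEff
import Pool.Agent.Work.MP_8d13b5_lc.Fm.I_XDI

set_option autoImplicit false

/-! Item eXDI of block EFF (helper8): the discriminant with sizes and explicit constants, from the
adjugate of the Sylvester matrix. -/

namespace Pool.Agent.Work.MP_8d13b5_lc.Fm

open Polynomial NumberField Finset Module

namespace EXDI

/-- the Bezout identity of the resultant, with the coefficients of the second cofactor in the
adjugate of the Sylvester matrix -/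
theorem bez {R : Type} [CommRing R] [Nontrivial R] {m n : ℕ} (f g : R[X])
    (hf : f.natDegree ≤ m + 1) (hg : g.natDegree ≤ n) :
    ∃ U V : R[X], U * f + V * g = C (f.resultant g (m + 1) n) ∧ V.natDegree ≤ m + 1 ∧
      ∀ j, V.coeff j = 0 ∨ ∃ a b, V.coeff j = (f.sylvester g (m + 1) n).adjugate a b := by
  set b₂ := degreeLT.basis R (m + 1 + n) with hb₂
  set b₁ := ((degreeLT.basis R (m + 1)).prod (degreeLT.basis R n)).reindex finSumFinEquiv with hb₁
  let i0 : Fin (m + 1 + n) := ⟨0, by omega⟩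
  set X := adjSylvester f g (b₂ i0) with hX
  have h0 : ((b₂ i0 : R[X]_(m + 1 + n)) : R[X]) = 1 := by
    rw [hb₂, degreeLT.basis_val]
    simp [i0]
  have h1 : (sylvesterMap f g hf hg X).1 = (f.resultant g (m + 1) n • (b₂ i0)).1 :=
    congr(($(sylveserMap_comp_adjSylvester f g hf hg) _).1)
  have h2 : f * X.2.1 + g * X.1.1 = C (f.resultant g (m + 1) n) := by
    have h3 : (f.resultant g (m + 1) n • (b₂ i0)).1 = C (f.resultant g (m + 1) n) := by
      rw [Submodule.coe_smul, h0, smul_eq_C_mul, mul_one]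
    rw [← h3, ← h1]
    rfl
  have h4 : ∀ k, b₁.repr X k = (f.sylvester g (m + 1) n).adjugate k i0 := by
    intro k
    rw [hX, adjSylvester, Matrix.toLin_self]
    rw [← hb₁, Basis.repr_sum_self]
  refine ⟨X.2.1, X.1.1, by rw [← h2]; ring, ?_, ?_⟩
  · have h5 : (X.1.1 : R[X]).degree < ((m + 1 : ℕ) : WithBot ℕ) := mem_degreeLT.1 X.1.2
    exact natDegree_le_of_degree_le h5.le
  · intro j
    by_cases hj : j < m + 1
    · right
      refine ⟨Fin.castAdd n ⟨j, hj⟩, i0, ?_⟩
      rw [← h4, hb₁, Basis.repr_reindex_apply, finSumFinEquiv_symm_apply_castAdd,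
        Basis.prod_repr_inl, degreeLT.basis_repr]
    · left
      have h5 : (X.1.1 : R[X]).degree < ((m + 1 : ℕ) : WithBot ℕ) := mem_degreeLT.1 X.1.2
      refine coeff_eq_zero_of_degree_lt (h5.trans_le ?_)
      exact_mod_cast Nat.le_of_not_lt hj

end EXDI

/-- **item eXDI** -/
theorem peXDI (hPN : StPN) (hDET : SeDET) : SeXDI := by
  intro K _ _
  refine ⟨fun x => (2 * x + 1).factorial * (x + 1) + ((2 * x + 1) * x + (2 * x + 1)), ?_, ?_⟩
  · have h1 : Tow (fun x => 2 * x + 1) := ((Tow.const 2).mul Tow.id).add (Tow.const 1)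
    exact (h1.fact.mul (Tow.id.add (Tow.const 1))).add ((h1.mul Tow.id).add h1)
  intro m σ
  set n := m + 1 + m with hn
  have hn1 : n = 2 * m + 1 := by omega
  have hfac : 1 ≤ n.factorial := Nat.one_le_iff_ne_zero.2 (Nat.factorial_ne_zero n)
  have hC1 : (1 : ℝ) ≤ ((n.factorial * (m + 1) : ℕ) : ℝ) := by
    exact_mod_cast Nat.mul_pos hfac (Nat.succ_pos m)
  refine ⟨((n.factorial * (m + 1) : ℕ) : ℝ), n * σ + n, hC1, ?_, ?_, ?_⟩
  · have h1 : n.factorial * (m + 1) ≤ (2 * (m + σ) + 1).factorial * (m + σ + 1) +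
        ((2 * (m + σ) + 1) * (m + σ) + (2 * (m + σ) + 1)) := by
      have h2 : n.factorial ≤ (2 * (m + σ) + 1).factorial := Nat.factorial_le (by omega)
      have h3 : n.factorial * (m + 1) ≤ (2 * (m + σ) + 1).factorial * (m + σ + 1) :=
        Nat.mul_le_mul h2 (by omega)
      omega
    exact_mod_cast h1
  · simp only
    have h1 : n * σ ≤ (2 * (m + σ) + 1) * (m + σ) := Nat.mul_le_mul (by omega) (by omega)
    omega
  intro H F hF
  have hH : 1 ≤ H := hF.one
  have hH0 : 0 ≤ H := by linarith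
  have hpz : ∀ φ : K →+* ℂ, pn (res φ) (0 : (𝓞 K)[X]) = 0 := by
    intro φ
    have := (hPN (𝓞 K) (res φ)).2.1 0
    rwa [map_zero, map_zero, norm_zero] at this
  have hz : ∀ k, m + 1 < k → F.coeff k = 0 := fun k hk =>
    coeff_eq_zero_of_natDegree_lt (by rw [hF.crv.deg]; exact hk)
  have hm1 : F.coeff (m + 1) = 1 := by
    rw [← hF.crv.deg]
    exact hF.crv.monic.coeff_natDegree
  have hcd : ∀ k, (F.coeff k).natDegree ≤ σ := by
    intro k
    rcases lt_trichotomy k (m + 1) with h | h | h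
    · exact hF.dg k (by omega)
    · rw [h, hm1, natDegree_one]
      exact Nat.zero_le _
    · rw [hz k h, natDegree_zero]
      exact Nat.zero_le _
  have hcp : ∀ (φ : K →+* ℂ) k, pn (res φ) (F.coeff k) ≤ H := by
    intro φ k
    rcases lt_trichotomy k (m + 1) with h | h | h
    · exact hF.ht φ k (by omega)
    · rw [h, hm1]
      have := (hPN (𝓞 K) (res φ)).2.1 1
      rw [map_one, map_one, norm_one] at this
      rw [this]
      exact hH
    · rw [hz k h, hpz]
      exact hH0
  have hdd : ∀ k, ((derivative F).coeff k).natDegree ≤ σ := by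
    intro k
    rw [coeff_derivative]
    have h1 : ((k : (𝓞 K)[X]) + 1) = C ((k : 𝓞 K) + 1) := by simp
    rw [h1]
    exact (natDegree_mul_C_le _ _).trans (hcd (k + 1))
  have hdp : ∀ (φ : K →+* ℂ) k, pn (res φ) ((derivative F).coeff k) ≤ (m + 1) * H := by
    intro φ k
    by_cases hk : m < k
    · rw [coeff_derivative, hz (k + 1) (by omega), zero_mul, hpz]
      positivity
    · rw [coeff_derivative]
      have h1 : ((k : (𝓞 K)[X]) + 1) = C ((k : 𝓞 K) + 1) := by simp
      rw [h1]
      refine ((hPN (𝓞 K) (res φ)).2.2.2.1 _ _).trans ?_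
      rw [(hPN (𝓞 K) (res φ)).2.1]
      have h2 : ‖res φ ((k : 𝓞 K) + 1)‖ = (k : ℝ) + 1 := by
        rw [map_add, map_natCast, map_one]
        have : ((k : ℂ) + 1) = (((k : ℝ) + 1 : ℝ) : ℂ) := by push_cast; ring
        rw [this, Complex.norm_real, Real.norm_eq_abs, abs_of_nonneg (by positivity)]
      rw [h2, mul_comm]
      have h3 : (k : ℝ) + 1 ≤ (m : ℝ) + 1 := by
        have : (k : ℝ) ≤ m := by exact_mod_cast Nat.le_of_not_lt hk
        linarith
      exact mul_le_mul h3 (hcp φ (k + 1)) ((hPN (𝓞 K) (res φ)).1 _) (by positivity)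
  set M := sylvester F (derivative F) (m + 1) m with hM
  have hMd : ∀ i j, (M i j).natDegree ≤ σ := by
    intro i j
    rw [hM, sylvester, Matrix.of_apply]
    refine Fin.addCases (fun j₁ => ?_) (fun j₁ => ?_) j
    · rw [Fin.addCases_left]
      split_ifs
      · exact hdd _
      · rw [natDegree_zero]
        exact Nat.zero_le _
    · rw [Fin.addCases_right]
      split_ifs
      · exact hcd _
      · rw [natDegree_zero]
        exact Nat.zero_le _
  have hHm : H ≤ (m + 1) * H := by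
    have : (0 : ℝ) ≤ m := Nat.cast_nonneg m
    nlinarith
  have hMp : ∀ (φ : K →+* ℂ) i j, pn (res φ) (M i j) ≤ (m + 1) * H := by
    intro φ i j
    rw [hM, sylvester, Matrix.of_apply]
    refine Fin.addCases (fun j₁ => ?_) (fun j₁ => ?_) j
    · rw [Fin.addCases_left]
      split_ifs
      · exact hdp φ _
      · rw [hpz]
        positivity
    · rw [Fin.addCases_right]
      split_ifs
      · exact (hcp φ _).trans hHm
      · rw [hpz]
        positivity
  obtain ⟨d1, d2, d3⟩ := hDET (𝓞 K) n σ M hMd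
  have hfin : ∀ Z : ℝ, Z ≤ n.factorial * ((m + 1) * H) ^ n →
      Z ≤ (((n.factorial * (m + 1) : ℕ) : ℝ) * H) ^ (n * σ + n) := by
    intro Z hZ
    have hf1 : (1 : ℝ) ≤ (n.factorial : ℝ) := by exact_mod_cast hfac
    have h1 : (n.factorial : ℝ) ≤ (n.factorial : ℝ) ^ n :=
      le_self_pow₀ hf1 (by omega)
    have h2 : (1 : ℝ) ≤ ((n.factorial * (m + 1) : ℕ) : ℝ) * H :=
      one_le_mul_of_one_le_of_one_le hC1 hH
    calc Z ≤ n.factorial * ((m + 1) * H) ^ n := hZ
      _ ≤ (n.factorial : ℝ) ^ n * ((m + 1) * H) ^ n :=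
          mul_le_mul_of_nonneg_right h1 (by positivity)
      _ = (((n.factorial * (m + 1) : ℕ) : ℝ) * H) ^ n := by
          push_cast
          rw [← mul_pow]
          ring
      _ ≤ (((n.factorial * (m + 1) : ℕ) : ℝ) * H) ^ (n * σ + n) :=
          pow_le_pow_right₀ h2 (Nat.le_add_left _ _)
  have hY : 1 ≤ ((m : ℝ) + 1) * H := hH.trans hHm
  have hFd : F.natDegree ≤ m + 1 := hF.crv.deg.le
  have hF'd : (derivative F).natDegree ≤ m := by
    have := natDegree_derivative_le F
    rw [hF.crv.deg] at this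
    exact this
  obtain ⟨U, V, hUV, hVd, hVc⟩ := EXDI.bez F (derivative F) hFd hF'd
  refine ⟨U, V, resultant F (derivative F) (m + 1) m, XDI.res_ne hF.crv, hUV, ?_, ?_, ?_, ?_⟩
  · exact le_trans d1 (Nat.le_add_right _ _)
  · exact hVd.trans (by omega)
  · intro j
    rcases hVc j with h | ⟨a, b, h⟩
    · rw [h, natDegree_zero]
      exact Nat.zero_le _
    · rw [h]
      exact (d2 a b).trans (Nat.le_add_right _ _)
  · intro φ
    obtain ⟨e1, e2⟩ := d3 (res φ) ((m + 1) * H) hY (hMp φ)
    refine ⟨hfin _ e1, fun j => ?_⟩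
    rcases hVc j with h | ⟨a, b, h⟩
    · rw [h, hpz]
      positivity
    · rw [h]
      exact hfin _ (e2 a b)

end Pool.Agent.Work.MP_8d13b5_lc.Fm
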