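import Pool.Agent.Work.MP_8d13b5_lc.Fm.StmtsEff
import Pool.Agent.Work.MP_8d13b5_lc.Fm.I_XPI

set_option autoImplicit false

/-!
MP_8d13b5_lc, block EFF, item eXPI: the common factor with sizes, effective constants (copy of `I_XPI.lean`).
-/

namespace Pool.Agent.Work.MP_8d13b5_lc.Fm

open Polynomial NumberField Finset Module

namespace EXPI

open XPI (pol_coeff pol_natDegree pol_coeff_cases coeff_mul_le bez pn_le)

/-- the conclusion of `SeCRS` for given constants -/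
def CRSb (K : Type) [Field K] [NumberField K] (a b : ℕ) (C₀ : ℝ) (s : ℕ) : Prop :=
  ∀ (Y : ℝ) (M : Fin a → Fin b → 𝓞 K) (v : Fin a → 𝓞 K), 1 ≤ Y →
    (∀ (φ : K →+* ℂ) i j, ‖res φ (M i j)‖ ≤ Y) → (∀ (φ : K →+* ℂ) i, ‖res φ (v i)‖ ≤ Y) →
    (∃ x : Fin b → K, ∀ i, ∑ j, (M i j : K) * x j = (v i : K)) →
    ∃ (c : 𝓞 K) (x : Fin b → 𝓞 K), c ≠ 0 ∧ (∀ i, ∑ j, M i j * x j = c * v i) ∧
      (∀ φ : K →+* ℂ, ‖res φ c‖ ≤ (C₀ * Y) ^ s) ∧
      ∀ (φ : K →+* ℂ) j, ‖res φ (x j)‖ ≤ (C₀ * Y) ^ s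

open Classical in
/-- Cramer's rule for polynomial equations -/
theorem sys (K : Type) [Field K] [NumberField K] (k D : ℕ) (C₀ : ℝ) (s : ℕ) (hC₀ : 1 ≤ C₀)
    (H : CRSb K (2 * D + 1) (k * (D + 1)) C₀ s) :
    ∀ (Y : ℝ) (h : Fin k → (𝓞 K)[X]) (S : ℕ → Prop) (v : ℕ → 𝓞 K),
      1 ≤ Y → (∀ (φ : K →+* ℂ) i l, ‖res φ ((h i).coeff l)‖ ≤ Y) →
      (∀ (φ : K →+* ℂ) l, ‖res φ (v l)‖ ≤ Y) →
      (∃ A' : Fin k → K[X], (∀ i, (A' i).natDegree ≤ D) ∧ ∀ l, S l →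
        (∑ i, A' i * (h i).map (algebraMap (𝓞 K) K)).coeff l = (v l : K)) →
      ∃ (c : 𝓞 K) (A : Fin k → (𝓞 K)[X]), c ≠ 0 ∧ (∀ i, (A i).natDegree ≤ D) ∧
        (∀ l ≤ 2 * D, S l → (∑ i, A i * h i).coeff l = c * v l) ∧
        (∀ φ : K →+* ℂ, ‖res φ c‖ ≤ (C₀ * Y) ^ s) ∧
        ∀ (φ : K →+* ℂ) i l, ‖res φ ((A i).coeff l)‖ ≤ (C₀ * Y) ^ s := by
  intro Y h S v hY hh hv hA'
  obtain ⟨A', hA'd, hA'⟩ := hA'
  let e : Fin k × Fin (D + 1) ≃ Fin (k * (D + 1)) := finProdFinEquiv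
  let M : Fin (2 * D + 1) → Fin (k * (D + 1)) → 𝓞 K := fun l q =>
    if S l then (if (((e.symm q).2 : Fin (D + 1)) : ℕ) ≤ (l : ℕ) then
      (h (e.symm q).1).coeff ((l : ℕ) - ((e.symm q).2 : Fin (D + 1))) else 0) else 0
  let u : Fin (2 * D + 1) → 𝓞 K := fun l => if S l then v l else 0
  have hY0 : 0 ≤ Y := by linarith
  obtain ⟨c, x, hc, hx, hcs, hxs⟩ := H Y M u hY
    (by
      intro φ l q
      simp only [M]
      split_ifs
      · exact hh φ _ _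
      · simpa using hY0
      · simpa using hY0)
    (by
      intro φ l
      simp only [u]
      split_ifs
      · exact hv φ _
      · simpa using hY0)
    (by
      refine ⟨fun q => (A' (e.symm q).1).coeff ((e.symm q).2 : Fin (D + 1)), ?_⟩
      intro l
      by_cases hl : S l
      · simp only [M, u, if_pos hl]
        rw [← hA' l hl, finset_sum_coeff, ← Equiv.sum_comp e, Fintype.sum_prod_type]
        refine Finset.sum_congr rfl (fun i _ => ?_)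
        rw [coeff_mul_le _ _ D _ (hA'd i)]
        refine Finset.sum_congr rfl (fun j _ => ?_)
        simp only [Equiv.symm_apply_apply, coeff_map]
        split_ifs
        · rfl
        · simp
      · simp only [M, u, if_neg hl]
        simp)
  refine ⟨c, fun i => XPI.pol (fun j => x (e (i, j))), hc, fun i => pol_natDegree _, ?_, hcs, ?_⟩
  · intro l hl hS
    have h1 := hx ⟨l, by omega⟩
    simp only [M, u, if_pos hS] at h1
    rw [← h1, finset_sum_coeff, ← Equiv.sum_comp e, Fintype.sum_prod_type]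
    refine Finset.sum_congr rfl (fun i _ => ?_)
    rw [coeff_mul_le _ _ D _ (pol_natDegree _)]
    refine Finset.sum_congr rfl (fun j _ => ?_)
    simp only [Equiv.symm_apply_apply, pol_coeff]
  · intro φ i l
    have hpos : 0 ≤ (C₀ * Y) ^ s := by positivity
    rcases pol_coeff_cases (fun j => x (e (i, j))) l with h0 | ⟨j, hj⟩
    · rw [h0, map_zero, norm_zero]
      exact hpos
    · rw [hj]
      exact hxs φ _

theorem step2 (hPN : StPN) (K : Type) [Field K] [NumberField K] (m D : ℕ) (C₀ : ℝ) (s : ℕ)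
    (hC₀ : 1 ≤ C₀) (H0 : CRSb K (2 * D + 1) ((m + 1) * (D + 1)) C₀ s) :
    ∀ (Y : ℝ) (h : Fin (m + 1) → (𝓞 K)[X]), 1 ≤ Y →
      (∀ i, (h i).natDegree ≤ D) → (∀ (φ : K →+* ℂ) i, pn (res φ) (h i) ≤ Y) → (∃ i, h i ≠ 0) →
      ∃ (A : Fin (m + 1) → (𝓞 K)[X]), (∀ i, (A i).natDegree ≤ D) ∧ (∑ i, A i * h i) ≠ 0 ∧
        (∑ i, A i * h i).natDegree ≤ D ∧
        (∀ i, ∃ t : K[X], t.natDegree ≤ D ∧
          t * (∑ i, A i * h i).map (algebraMap (𝓞 K) K) = (h i).map (algebraMap (𝓞 K) K)) ∧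
        ∀ (φ : K →+* ℂ) i l, ‖res φ ((A i).coeff l)‖ ≤ (C₀ * Y) ^ s := by
  classical
  have H := sys K (m + 1) D C₀ s hC₀ H0
  intro Y h hY hD hpn hne
  have hinj : Function.Injective (algebraMap (𝓞 K) K) := RingOfIntegers.coe_injective
  have hcoef : ∀ (φ : K →+* ℂ) i l, ‖res φ ((h i).coeff l)‖ ≤ Y := by
    intro φ i l
    obtain ⟨_, _, _, _, _, _, hc, _, _⟩ := hPN (𝓞 K) (res φ)
    exact (hc _ _).trans (hpn φ i)
  set hK : Fin (m + 1) → K[X] := fun i => (h i).map (algebraMap (𝓞 K) K) with hhK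
  obtain ⟨g, A', hgm, hgd, hgs, hA'd, hgD⟩ := bez hK D
    (fun i => by
      rw [hhK]
      exact (natDegree_map_le).trans (hD i))
    (by
      obtain ⟨i, hi⟩ := hne
      exact ⟨i, (Polynomial.map_ne_zero_iff hinj).mpr hi⟩)
  set γ := g.natDegree with hγ
  obtain ⟨c, A, hc, hAd, hAs, _, hAb⟩ := H Y h (fun l => γ ≤ l) (fun l => if l = γ then 1 else 0)
    hY hcoef
    (by
      intro φ l
      split_ifs
      · simpa using hY
      · simp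
        linarith)
    ⟨A', hA'd, by
      intro l hl
      rw [show (∑ i, A' i * (h i).map (algebraMap (𝓞 K) K)) = g from hgs]
      by_cases hlγ : l = γ
      · rw [hlγ, if_pos rfl]
        have : g.coeff γ = 1 := hgm
        rw [this]
        simp
      · rw [if_neg hlγ, coeff_eq_zero_of_natDegree_lt (by omega)]
        simp⟩
  set P : (𝓞 K)[X] := ∑ i, A i * h i with hP
  have hP2 : P.natDegree ≤ 2 * D := by
    rw [hP]
    refine natDegree_sum_le_of_forall_le _ _ (fun i _ => ?_)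
    refine natDegree_mul_le.trans ?_
    have := hAd i
    have := hD i
    omega
  have hPγ : P.coeff γ = c := by
    have := hAs γ (by omega) le_rfl
    rw [this, if_pos rfl, mul_one]
  have hPle : P.natDegree ≤ γ := by
    rw [natDegree_le_iff_coeff_eq_zero]
    intro l hl
    by_cases hl2 : l ≤ 2 * D
    · rw [hAs l hl2 hl.le, if_neg (by omega), mul_zero]
    · exact coeff_eq_zero_of_natDegree_lt (by omega)
  have hPne : P ≠ 0 := by
    intro h0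
    apply hc
    rw [← hPγ, h0, coeff_zero]
  have hPdeg : P.natDegree = γ :=
    natDegree_eq_of_le_of_coeff_ne_zero hPle (by rw [hPγ]; exact hc)
  refine ⟨A, hAd, hPne, hPdeg.le.trans hgD, ?_, hAb⟩
  set PK : K[X] := P.map (algebraMap (𝓞 K) K) with hPK
  have hPK0 : PK ≠ 0 := (Polynomial.map_ne_zero_iff hinj).mpr hPne
  have hPKd : PK.natDegree = γ := by
    rw [hPK, natDegree_map_eq_of_injective hinj, hPdeg]
  have hgP : g ∣ PK := by
    rw [hPK, hP, Polynomial.map_sum]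
    refine Finset.dvd_sum (fun i _ => ?_)
    rw [Polynomial.map_mul]
    exact (hgd i).mul_left _
  obtain ⟨u, hu⟩ := hgP
  have hu0 : u ≠ 0 := by
    intro h0
    apply hPK0
    rw [hu, h0, mul_zero]
  have hud : u.natDegree = 0 := by
    have h1 : PK.natDegree = g.natDegree + u.natDegree := by
      rw [hu, natDegree_mul hgm.ne_zero hu0]
    omega
  obtain ⟨a, ha⟩ := natDegree_eq_zero.mp hud
  have ha0 : a ≠ 0 := by
    intro h0
    apply hu0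
    rw [← ha, h0, C_0]
  intro i
  obtain ⟨t, ht⟩ := hgd i
  have hti : C a⁻¹ * t * PK = hK i := by
    rw [hu, ht, ← ha]
    have : C a⁻¹ * C a = (1 : K[X]) := by rw [← C_mul, inv_mul_cancel₀ ha0, C_1]
    calc C a⁻¹ * t * (g * C a) = (C a⁻¹ * C a) * (g * t) := by ring
      _ = g * t := by rw [this, one_mul]
  refine ⟨C a⁻¹ * t, ?_, hti⟩
  by_cases ht0 : C a⁻¹ * t = 0
  · rw [ht0]; simp
  · have h1 : (hK i).natDegree = (C a⁻¹ * t).natDegree + PK.natDegree := by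
      rw [← hti, natDegree_mul ht0 hPK0]
    have h2 : (hK i).natDegree ≤ D := (natDegree_map_le).trans (hD i)
    omega

theorem step3 (K : Type) [Field K] [NumberField K] (D : ℕ) (C₀ : ℝ) (s : ℕ)
    (hC₀ : 1 ≤ C₀) (H0 : CRSb K (2 * D + 1) (1 * (D + 1)) C₀ s) :
    ∀ (Y : ℝ) (P h : (𝓞 K)[X]), 1 ≤ Y →
      P.natDegree ≤ D → h.natDegree ≤ D → (∀ (φ : K →+* ℂ) l, ‖res φ (P.coeff l)‖ ≤ Y) →
      (∀ (φ : K →+* ℂ) l, ‖res φ (h.coeff l)‖ ≤ Y) →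
      (∃ t : K[X], t.natDegree ≤ D ∧
        t * P.map (algebraMap (𝓞 K) K) = h.map (algebraMap (𝓞 K) K)) →
      ∃ (c : 𝓞 K) (x : (𝓞 K)[X]), c ≠ 0 ∧ x.natDegree ≤ D ∧ x * P = C c * h ∧
        (∀ φ : K →+* ℂ, ‖res φ c‖ ≤ (C₀ * Y) ^ s) ∧
        ∀ (φ : K →+* ℂ) l, ‖res φ (x.coeff l)‖ ≤ (C₀ * Y) ^ s := by
  classical
  have H := sys K 1 D C₀ s hC₀ H0
  intro Y P h hY hPd hhd hP hh ht
  obtain ⟨t, htd, ht⟩ := ht
  obtain ⟨c, A, hc, hAd, hAs, hcb, hAb⟩ := H Y (fun _ => P) (fun _ => True) (fun l => h.coeff l) hY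
    (fun φ _ l => hP φ l) hh
    ⟨fun _ => t, fun _ => htd, by
      intro l _
      rw [Fin.sum_univ_one, ht, coeff_map]⟩
  refine ⟨c, A 0, hc, hAd 0, ?_, hcb, fun φ l => hAb φ 0 l⟩
  ext1 l
  rw [coeff_C_mul]
  by_cases hl : l ≤ 2 * D
  · rw [← hAs l hl trivial, Fin.sum_univ_one]
  · have h1 : (A 0 * P).natDegree ≤ 2 * D := by
      refine natDegree_mul_le.trans ?_
      have := hAd 0
      omega
    rw [coeff_eq_zero_of_natDegree_lt (by omega), coeff_eq_zero_of_natDegree_lt (by omega),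
      mul_zero]

/-- bound for the degree -/
def dx (x : ℕ) : ℕ := x * (x + 1).factorial

/-- bound for the constants of the hypothesis -/
def G (g₁ : ℕ → ℕ) (x : ℕ) : ℕ := g₁ (2 * dx x + 1 + (x + 1) * (dx x + 1)) + 1

/-- bound for `κ₂` -/
def k2 (g₁ : ℕ → ℕ) (x : ℕ) : ℕ := (x + 1) * (dx x + 1) * G g₁ x ^ G g₁ x

/-- bound for `n₂` -/
def n2 (g₁ : ℕ → ℕ) (x : ℕ) : ℕ := (x + 1).factorial * G g₁ x + (x + 1).factorial

/-- bound for `κ` -/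
def kx (g₁ : ℕ → ℕ) (x : ℕ) : ℕ :=
  (dx x + 1) * k2 g₁ x * (G g₁ x * k2 g₁ x) ^ (G g₁ x * (x + 1))

/-- bound for the exponent -/
def sx (g₁ : ℕ → ℕ) (x : ℕ) : ℕ := n2 g₁ x + n2 g₁ x * (G g₁ x * (x + 1)) + dx x + 1

/-- the bound -/
def gx (g₁ : ℕ → ℕ) (x : ℕ) : ℕ := kx g₁ x + sx g₁ x

lemma tow_dx : Tow dx := Tow.id.mul (Tow.fact (Tow.id.add (Tow.const 1)))

lemma tow_G {g₁ : ℕ → ℕ} (h : Tow g₁) : Tow (G g₁) := by
  have h1 : Tow (fun x => 2 * dx x + 1 + (x + 1) * (dx x + 1)) :=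
    (((Tow.const 2).mul tow_dx).add (Tow.const 1)).add
      ((Tow.id.add (Tow.const 1)).mul (tow_dx.add (Tow.const 1)))
  exact (h.comp h1).add (Tow.const 1)

lemma one_le_G (g₁ : ℕ → ℕ) (x : ℕ) : 1 ≤ G g₁ x := by unfold G; omega

lemma one_le_k2 (g₁ : ℕ → ℕ) (x : ℕ) : 1 ≤ k2 g₁ x := by
  have h1 : 0 < G g₁ x := one_le_G g₁ x
  unfold k2
  exact Nat.succ_le_of_lt (by positivity)

lemma tow_k2 {g₁ : ℕ → ℕ} (h : Tow g₁) : Tow (k2 g₁) :=
  ((Tow.id.add (Tow.const 1)).mul (tow_dx.add (Tow.const 1))).mul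
    ((tow_G h).pow (tow_G h) (one_le_G g₁))

lemma tow_n2 {g₁ : ℕ → ℕ} (h : Tow g₁) : Tow (n2 g₁) :=
  ((Tow.fact (Tow.id.add (Tow.const 1))).mul (tow_G h)).add (Tow.fact (Tow.id.add (Tow.const 1)))

lemma gx_tow {g₁ : ℕ → ℕ} (h : Tow g₁) : Tow (gx g₁) := by
  have h1 : Tow (kx g₁) :=
    ((tow_dx.add (Tow.const 1)).mul (tow_k2 h)).mul
      (((tow_G h).mul (tow_k2 h)).pow ((tow_G h).mul (Tow.id.add (Tow.const 1)))
        (fun x => Nat.succ_le_of_lt (Nat.mul_pos (one_le_G g₁ x) (one_le_k2 g₁ x))))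
  have h2 : Tow (sx g₁) :=
    (((tow_n2 h).add ((tow_n2 h).mul ((tow_G h).mul (Tow.id.add (Tow.const 1))))).add tow_dx).add
      (Tow.const 1)
  exact h1.add h2

theorem consts {g₁ : ℕ → ℕ} (hg₁ : Tow g₁) (m σ b D : ℕ) (hb : b = (m + 1).factorial)
    (hD : D = σ * b) (C₁ C₂ : ℝ) (s₁ s₂ : ℕ) (hC₁ : 1 ≤ C₁) (hC₂ : 1 ≤ C₂)
    (hCg₁ : C₁ ≤ g₁ (2 * D + 1 + (m + 1) * (D + 1))) (hsg₁ : s₁ ≤ g₁ (2 * D + 1 + (m + 1) * (D + 1)))
    (hCg₂ : C₂ ≤ g₁ (2 * D + 1 + 1 * (D + 1))) (hsg₂ : s₂ ≤ g₁ (2 * D + 1 + 1 * (D + 1))) :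
    ((D : ℝ) + 1) * ((m + 1) * (D + 1) * C₁ ^ s₁) *
        (C₂ * ((m + 1) * (D + 1) * C₁ ^ s₁)) ^ (s₂ * (m + 1)) ≤ (gx g₁ (m + σ) : ℕ) ∧
      b * s₁ + b + (b * s₁ + b) * (s₂ * (m + 1)) + D + 1 ≤ gx g₁ (m + σ) := by
  set x := m + σ with hx
  have hmx : m ≤ x := by omega
  have hσx : σ ≤ x := by omega
  have hbx : b ≤ (x + 1).factorial := by rw [hb]; exact Nat.factorial_le (by omega)
  have hDx : D ≤ dx x := by
    rw [hD]
    exact Nat.mul_le_mul hσx hbx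
  have ha1 : 2 * D + 1 + (m + 1) * (D + 1) ≤ 2 * dx x + 1 + (x + 1) * (dx x + 1) := by gcongr
  have ha2 : 2 * D + 1 + 1 * (D + 1) ≤ 2 * dx x + 1 + (x + 1) * (dx x + 1) := by
    gcongr
    omega
  have hG1 : g₁ (2 * D + 1 + (m + 1) * (D + 1)) ≤ G g₁ x :=
    (hg₁.mono ha1).trans (Nat.le_succ _)
  have hG2 : g₁ (2 * D + 1 + 1 * (D + 1)) ≤ G g₁ x :=
    (hg₁.mono ha2).trans (Nat.le_succ _)
  have hC₁G : C₁ ≤ (G g₁ x : ℕ) := hCg₁.trans (by exact_mod_cast hG1)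
  have hC₂G : C₂ ≤ (G g₁ x : ℕ) := hCg₂.trans (by exact_mod_cast hG2)
  have hs₁G : s₁ ≤ G g₁ x := hsg₁.trans hG1
  have hs₂G : s₂ ≤ G g₁ x := hsg₂.trans hG2
  have hGone : (1 : ℝ) ≤ (G g₁ x : ℕ) := by exact_mod_cast one_le_G g₁ x
  have hmx' : (m : ℝ) ≤ x := by exact_mod_cast hmx
  have hDx' : (D : ℝ) ≤ (dx x : ℕ) := by exact_mod_cast hDx
  have hm0 : (0 : ℝ) ≤ m := Nat.cast_nonneg _
  have hD0 : (0 : ℝ) ≤ D := Nat.cast_nonneg _
  have hC₁0 : 0 ≤ C₁ := by linarith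
  have hC₂0 : 0 ≤ C₂ := by linarith
  have hpow : C₁ ^ s₁ ≤ (G g₁ x : ℝ) ^ G g₁ x :=
    (pow_le_pow_left₀ hC₁0 hC₁G _).trans (pow_le_pow_right₀ hGone hs₁G)
  have hk2 : ((m : ℝ) + 1) * (D + 1) * C₁ ^ s₁ ≤ (k2 g₁ x : ℕ) := by
    unfold k2
    push_cast
    gcongr
  have hk20 : 0 ≤ ((m : ℝ) + 1) * (D + 1) * C₁ ^ s₁ := by positivity
  have hone : (1 : ℝ) ≤ (G g₁ x : ℕ) * (k2 g₁ x : ℕ) := by
    exact_mod_cast Nat.succ_le_of_lt (Nat.mul_pos (one_le_G g₁ x) (one_le_k2 g₁ x))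
  have hexp : s₂ * (m + 1) ≤ G g₁ x * (x + 1) := Nat.mul_le_mul hs₂G (by omega)
  constructor
  · refine le_trans ?_ (show ((kx g₁ x : ℕ) : ℝ) ≤ (gx g₁ x : ℕ) by
      unfold gx
      push_cast
      have : (0 : ℝ) ≤ sx g₁ x := Nat.cast_nonneg _
      linarith)
    have h3 : (C₂ * ((m + 1) * (D + 1) * C₁ ^ s₁)) ^ (s₂ * (m + 1)) ≤
        ((G g₁ x : ℝ) * (k2 g₁ x : ℕ)) ^ (G g₁ x * (x + 1)) := by
      refine (pow_le_pow_left₀ (mul_nonneg hC₂0 hk20) ?_ _).trans (pow_le_pow_right₀ hone hexp)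
      exact mul_le_mul hC₂G hk2 hk20 (by positivity)
    have h4 : (0 : ℝ) ≤ (C₂ * ((m + 1) * (D + 1) * C₁ ^ s₁)) ^ (s₂ * (m + 1)) := by positivity
    unfold kx
    push_cast
    gcongr
  · refine le_trans ?_ (show sx g₁ x ≤ gx g₁ x by unfold gx; omega)
    have h5 : b * s₁ + b ≤ n2 g₁ x := by
      unfold n2
      gcongr
    unfold sx
    gcongr

end EXPI

open XPI (const_bound prod_le pn_le)
open EXPI (gx gx_tow consts)

theorem peXPI (hCRS : SeCRS) (h2 : StPN) : SeXPI := by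
  classical
  intro K _ _
  obtain ⟨g₁, hg₁, h1⟩ := hCRS K
  refine ⟨gx g₁, gx_tow hg₁, fun m σ => ?_⟩
  set b := (m + 1).factorial with hb
  have hb1 : 1 ≤ b := Nat.succ_le_of_lt (Nat.factorial_pos _)
  set D := σ * b with hDdef
  obtain ⟨C₁, s₁, hC₁, hCg₁, hsg₁, H1'⟩ := h1 (2 * D + 1) ((m + 1) * (D + 1))
  obtain ⟨C₂, s₂, hC₂, hCg₂, hsg₂, H2'⟩ := h1 (2 * D + 1) (1 * (D + 1))
  have H1 := EXPI.step2 h2 K m D C₁ s₁ hC₁ H1'
  have H2 := EXPI.step3 K D C₂ s₂ hC₂ H2'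
  set κ₂ : ℝ := (m + 1) * (D + 1) * C₁ ^ s₁ with hκ₂
  set n₂ : ℕ := b * s₁ + b with hn₂
  set κ : ℝ := (D + 1) * κ₂ * (C₂ * κ₂) ^ (s₂ * (m + 1)) with hκ
  set n : ℕ := n₂ + n₂ * (s₂ * (m + 1)) with hn
  have hD1 : (1 : ℝ) ≤ (D : ℝ) + 1 := by
    have : (0 : ℝ) ≤ D := Nat.cast_nonneg _
    linarith
  have hm1 : (1 : ℝ) ≤ (m : ℝ) + 1 := by
    have : (0 : ℝ) ≤ m := Nat.cast_nonneg _
    linarith
  have hκ₂1 : 1 ≤ κ₂ := by
    have h3 : (1 : ℝ) ≤ C₁ ^ s₁ := one_le_pow₀ hC₁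
    have h4 : (1 : ℝ) ≤ ((m : ℝ) + 1) * (D + 1) := one_le_mul_of_one_le_of_one_le hm1 hD1
    exact one_le_mul_of_one_le_of_one_le h4 h3
  have hκ1 : 1 ≤ κ := by
    have h3 : (1 : ℝ) ≤ (C₂ * κ₂) ^ (s₂ * (m + 1)) :=
      one_le_pow₀ (one_le_mul_of_one_le_of_one_le hC₂ hκ₂1)
    exact one_le_mul_of_one_le_of_one_le (one_le_mul_of_one_le_of_one_le hD1 hκ₂1) h3
  have hbd := consts hg₁ m σ b D hb hDdef C₁ C₂ s₁ s₂ hC₁ hC₂ hCg₁ hsg₁ hCg₂ hsg₂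
  refine ⟨κ, n + D + 1, hκ1, hbd.1, hbd.2, ?_⟩
  intro H F hH hF hFd hFH
  have hW := const_bound κ n D hκ1 H hH
  set W : ℝ := (κ * H) ^ (n + D + 1) with hWdef
  set Y₁ : ℝ := H ^ b with hY₁
  set Y₂ : ℝ := κ₂ * H ^ n₂ with hY₂
  set Z₁ : ℝ := (C₁ * Y₁) ^ s₁ with hZ₁
  set Z₂ : ℝ := (C₂ * Y₂) ^ s₂ with hZ₂
  have hY₁1 : 1 ≤ Y₁ := one_le_pow₀ hH
  have hY₂1 : 1 ≤ Y₂ := one_le_mul_of_one_le_of_one_le hκ₂1 (one_le_pow₀ hH)
  have hZ₁1 : 1 ≤ Z₁ := one_le_pow₀ (one_le_mul_of_one_le_of_one_le hC₁ hY₁1)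
  have hZ₂1 : 1 ≤ Z₂ := one_le_pow₀ (one_le_mul_of_one_le_of_one_le hC₂ hY₂1)
  have hZpow : 1 ≤ Z₂ ^ (m + 1) := one_le_pow₀ hZ₂1
  have hY₂eq : ((m : ℝ) + 1) * ((D + 1) * Z₁ * Y₁) = Y₂ := by
    rw [hY₂, hZ₁, hY₁, hκ₂, hn₂, mul_pow, pow_add, pow_mul]
    ring
  have hWeq : (D + 1) * Y₂ * Z₂ ^ (m + 1) ≤ W := by
    refine le_trans (le_of_eq ?_) hW
    rw [hZ₂, hκ, hn, ← pow_mul, hY₂]
    rw [show C₂ * (κ₂ * H ^ n₂) = (C₂ * κ₂) * H ^ n₂ by ring, mul_pow,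
      pow_add H n₂ (n₂ * (s₂ * (m + 1))), pow_mul H n₂ (s₂ * (m + 1))]
    ring
  -- the bounds by `W`
  have hb1W : Z₂ ^ (m + 1) ≤ W := by
    refine le_trans ?_ hWeq
    exact le_mul_of_one_le_left (by positivity) (one_le_mul_of_one_le_of_one_le hD1 hY₂1)
  have hb2W : Y₂ ≤ W := by
    refine le_trans ?_ hWeq
    calc Y₂ = 1 * Y₂ * 1 := by ring
      _ ≤ (D + 1) * Y₂ * Z₂ ^ (m + 1) := by gcongr
  have hb3W : (D + 1) * Z₂ ^ (m + 1) ≤ W := by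
    refine le_trans ?_ hWeq
    calc ((D : ℝ) + 1) * Z₂ ^ (m + 1) = (D + 1) * 1 * Z₂ ^ (m + 1) := by ring
      _ ≤ (D + 1) * Y₂ * Z₂ ^ (m + 1) := by gcongr
  have hb4W : (D + 1) * Z₁ ≤ W := by
    refine le_trans ?_ hb2W
    rw [← hY₂eq]
    calc ((D : ℝ) + 1) * Z₁ = 1 * ((D + 1) * Z₁ * 1) := by ring
      _ ≤ ((m : ℝ) + 1) * ((D + 1) * Z₁ * Y₁) := by gcongr
  -- the powers
  let h : Fin (m + 1) → (𝓞 K)[X] := fun i => F.coeff i ^ (b / (m + 1 - i))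
  have he : ∀ i : Fin (m + 1), b / (m + 1 - (i : ℕ)) ≤ b := fun i => Nat.div_le_self _ _
  have hhd : ∀ i, (h i).natDegree ≤ D := by
    intro i
    have h3 : (F.coeff i).natDegree ≤ σ := hFd i (by omega)
    refine natDegree_pow_le.trans ?_
    rw [hDdef, mul_comm σ b]
    exact Nat.mul_le_mul (he i) h3
  have hhn : ∀ (φ : K →+* ℂ) i, pn (res φ) (h i) ≤ Y₁ := by
    intro φ i
    obtain ⟨hn0, _, _, _, hp, _, _, _, _⟩ := h2 (𝓞 K) (res φ)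
    refine (hp _ _).trans ?_
    have h3 := hFH φ i (by omega)
    refine (pow_le_pow_left₀ (hn0 _) h3 _).trans ?_
    exact pow_le_pow_right₀ hH (he i)
  have hhne : ∃ i, h i ≠ 0 := by
    obtain ⟨i, hi, hi0⟩ := hF
    exact ⟨⟨i, by omega⟩, pow_ne_zero _ hi0⟩
  obtain ⟨A, hAd, hP0, hPd, ht, hAb⟩ := H1 Y₁ h hY₁1 hhd hhn hhne
  set P : (𝓞 K)[X] := ∑ i, A i * h i with hP
  have hApn : ∀ (φ : K →+* ℂ) i, pn (res φ) (A i) ≤ (D + 1) * Z₁ := fun φ i =>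
    pn_le h2 (res φ) (A i) D Z₁ (hAd i) (fun l => hAb φ i l)
  have hPpn : ∀ φ : K →+* ℂ, pn (res φ) P ≤ Y₂ := by
    intro φ
    obtain ⟨hn0, _, _, hmul, _, hsum, _, _, _⟩ := h2 (𝓞 K) (res φ)
    rw [← hY₂eq, hP]
    refine (hsum _ _ _).trans ?_
    have h3 : ∀ i ∈ (univ : Finset (Fin (m + 1))), pn (res φ) (A i * h i) ≤ (D + 1) * Z₁ * Y₁ := by
      intro i _
      refine (hmul _ _).trans ?_
      exact mul_le_mul (hApn φ i) (hhn φ i) (hn0 _) (by positivity)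
    refine (Finset.sum_le_card_nsmul _ _ _ h3).trans (le_of_eq ?_)
    rw [card_univ, Fintype.card_fin, nsmul_eq_mul]
    push_cast
    ring
  have hY₁₂ : Y₁ ≤ Y₂ := by
    rw [← hY₂eq]
    calc Y₁ = 1 * (1 * 1 * Y₁) := by ring
      _ ≤ ((m : ℝ) + 1) * ((D + 1) * Z₁ * Y₁) := by gcongr
  have hPc : ∀ (φ : K →+* ℂ) l, ‖res φ (P.coeff l)‖ ≤ Y₂ := by
    intro φ l
    obtain ⟨_, _, _, _, _, _, hc, _, _⟩ := h2 (𝓞 K) (res φ)
    exact (hc _ _).trans (hPpn φ)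
  have hhc : ∀ i (φ : K →+* ℂ) l, ‖res φ ((h i).coeff l)‖ ≤ Y₂ := by
    intro i φ l
    obtain ⟨_, _, _, _, _, _, hc, _, _⟩ := h2 (𝓞 K) (res φ)
    exact (hc _ _).trans ((hhn φ i).trans hY₁₂)
  choose c x hc0 hxd hx hcb hxb using fun i => H2 Y₂ P (h i) hY₂1 hPd (hhd i) hPc (hhc i) (ht i)
  let r : 𝓞 K := ∏ i, c i
  let w : Fin (m + 1) → (𝓞 K)[X] := fun i => C (∏ l ∈ univ.erase i, c l) * x i
  have hr0 : r ≠ 0 := Finset.prod_ne_zero_iff.mpr (fun i _ => hc0 i)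
  have hfac : ∀ i, C r * h i = P * w i := by
    intro i
    have h3 : r = c i * ∏ l ∈ univ.erase i, c l := (Finset.mul_prod_erase univ c (mem_univ i)).symm
    calc C r * h i = C (∏ l ∈ univ.erase i, c l) * (C (c i) * h i) := by
          rw [h3, C_mul]; ring
      _ = C (∏ l ∈ univ.erase i, c l) * (x i * P) := by rw [hx i]
      _ = P * w i := by simp only [w]; ring
  have hbez : ∑ i, A i * w i = C r := by
    apply mul_left_cancel₀ hP0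
    calc P * ∑ i, A i * w i = ∑ i, A i * (P * w i) := by
          rw [Finset.mul_sum]
          exact Finset.sum_congr rfl (fun i _ => by ring)
      _ = ∑ i, A i * (C r * h i) := Finset.sum_congr rfl (fun i _ => by rw [hfac i])
      _ = C r * ∑ i, A i * h i := by
          rw [Finset.mul_sum]
          exact Finset.sum_congr rfl (fun i _ => by ring)
      _ = P * C r := by rw [← hP]; ring
  have hwd : ∀ i, (w i).natDegree ≤ D := fun i => (natDegree_C_mul_le _ _).trans (hxd i)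
  have hwne : ∃ i, w i ≠ 0 := by
    by_contra hcon
    push_neg at hcon
    apply hr0
    rw [← C_eq_zero, ← hbez]
    exact Finset.sum_eq_zero (fun i _ => by rw [hcon i, mul_zero])
  obtain ⟨i₀, hi₀⟩ := hwne
  obtain ⟨a, ha, hmax⟩ := Finset.exists_max_image (univ.filter (fun i => w i ≠ 0))
    (fun i => (w i).natDegree) ⟨i₀, by simp [hi₀]⟩
  have ha0 : w a ≠ 0 := (mem_filter.mp ha).2
  have hmax' : ∀ i, (w i).natDegree ≤ (w a).natDegree := by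
    intro i
    by_cases hi : w i = 0
    · rw [hi]
      simp
    · exact hmax i (by simp [hi])
  -- sizes
  have hrb : ∀ φ : K →+* ℂ, ‖res φ r‖ ≤ Z₂ ^ (m + 1) := by
    intro φ
    have h3 : ‖res φ r‖ = ∏ i, ‖res φ (c i)‖ := by
      simp only [r]
      rw [map_prod, norm_prod]
    rw [h3]
    refine (prod_le univ (fun i => ‖res φ (c i)‖) Z₂ (fun i => norm_nonneg _)
      (fun i => hcb i φ)).trans (le_of_eq ?_)
    rw [card_univ, Fintype.card_fin]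
  have hwc : ∀ (φ : K →+* ℂ) i l, ‖res φ ((w i).coeff l)‖ ≤ Z₂ ^ (m + 1) := by
    intro φ i l
    have h3 : ‖res φ ((w i).coeff l)‖ = (∏ l ∈ univ.erase i, ‖res φ (c l)‖) *
        ‖res φ ((x i).coeff l)‖ := by
      simp only [w]
      rw [coeff_C_mul, map_mul, norm_mul, map_prod, norm_prod]
    rw [h3]
    have h4 := prod_le (univ.erase i) (fun i => ‖res φ (c i)‖) Z₂ (fun i => norm_nonneg _)
      (fun i => hcb i φ)
    rw [card_erase_of_mem (mem_univ i), card_univ, Fintype.card_fin, Nat.add_sub_cancel] at h4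
    rw [pow_succ]
    exact mul_le_mul h4 (hxb i φ l) (norm_nonneg _) (by positivity)
  have hwpn : ∀ (φ : K →+* ℂ) i, pn (res φ) (w i) ≤ (D + 1) * Z₂ ^ (m + 1) := fun φ i =>
    pn_le h2 (res φ) (w i) D _ (hwd i) (fun l => hwc φ i l)
  -- indices in `ℕ`
  let wN : ℕ → (𝓞 K)[X] := fun i => if hi : i < m + 1 then w ⟨i, hi⟩ else 0
  let AN : ℕ → (𝓞 K)[X] := fun i => if hi : i < m + 1 then A ⟨i, hi⟩ else 0
  have hwN : ∀ i (hi : i ≤ m), wN i = w ⟨i, by omega⟩ := fun i hi => dif_pos (by omega)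
  have hAN : ∀ i (hi : i ≤ m), AN i = A ⟨i, by omega⟩ := fun i hi => dif_pos (by omega)
  have hbezN : ∑ i ∈ range (m + 1), AN i * wN i = C r := by
    rw [Finset.sum_range, ← hbez]
    refine Finset.sum_congr rfl (fun i _ => ?_)
    rw [hwN i (by omega), hAN i (by omega)]
  refine ⟨(w a).natDegree, P, wN, AN, r, ?_⟩
  refine
    { pi :=
        { hb := hb1
          dvd := fun i hi => Nat.dvd_factorial (by omega) (by omega)
          hP := hP0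
          h1 := hr0
          h2 := hr0
          fac := ?_
          deg := ?_
          top := ?_
          bez := ⟨AN, hbezN⟩ }
      bz := hbezN
      dP := by omega
      dθ := by
        have := hwd a
        omega
      dA := ?_
      one := ?_
      hr := fun φ => (hrb φ).trans hb1W
      hP := fun φ => (hPpn φ).trans hb2W
      hw := ?_
      hA := ?_ }
  · intro i hi
    rw [hwN i hi, ← hfac ⟨i, by omega⟩]
  · intro i hi
    rw [hwN i hi]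
    exact hmax' _
  · refine ⟨a, by omega, ?_, ?_⟩
    · rw [hwN a (by omega)]
      exact ha0
    · rw [hwN a (by omega)]
  · intro i
    by_cases hi : i ≤ m
    · rw [hAN i hi]
      have := hAd ⟨i, by omega⟩
      omega
    · have : AN i = 0 := dif_neg (by omega)
      rw [this]
      simp
  · exact one_le_pow₀ (one_le_mul_of_one_le_of_one_le hκ1 hH)
  · intro φ i hi
    rw [hwN i hi]
    exact (hwpn φ _).trans hb3W
  · intro φ i hi
    rw [hAN i hi]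
    exact (hApn φ _).trans hb4W

end Pool.Agent.Work.MP_8d13b5_lc.Fm
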