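import Pool.Agent.Work.MP_8d13b5_lc.Fm.All5
import Pool.Agent.Work.MP_8d13b5_lc.Fm.E_ADY
import Pool.Agent.Work.MP_8d13b5_lc.Fm.E_CRS
import Pool.Agent.Work.MP_8d13b5_lc.Fm.E_DET
import Pool.Agent.Work.MP_8d13b5_lc.Fm.E_HBZ
import Pool.Agent.Work.MP_8d13b5_lc.Fm.E_HDU
import Pool.Agent.Work.MP_8d13b5_lc.Fm.E_HIZ
import Pool.Agent.Work.MP_8d13b5_lc.Fm.E_HLO
import Pool.Agent.Work.MP_8d13b5_lc.Fm.E_HNU
import Pool.Agent.Work.MP_8d13b5_lc.Fm.E_HNX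
import Pool.Agent.Work.MP_8d13b5_lc.Fm.E_HTH
import Pool.Agent.Work.MP_8d13b5_lc.Fm.E_HUU
import Pool.Agent.Work.MP_8d13b5_lc.Fm.E_HVE
import Pool.Agent.Work.MP_8d13b5_lc.Fm.E_HZY
import Pool.Agent.Work.MP_8d13b5_lc.Fm.E_POW
import Pool.Agent.Work.MP_8d13b5_lc.Fm.E_RDH
import Pool.Agent.Work.MP_8d13b5_lc.Fm.E_SQF
import Pool.Agent.Work.MP_8d13b5_lc.Fm.E_TOR
import Pool.Agent.Work.MP_8d13b5_lc.Fm.E_UUG
import Pool.Agent.Work.MP_8d13b5_lc.Fm.E_VFD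
import Pool.Agent.Work.MP_8d13b5_lc.Fm.E_VG1
import Pool.Agent.Work.MP_8d13b5_lc.Fm.E_VWR
import Pool.Agent.Work.MP_8d13b5_lc.Fm.E_XB1
import Pool.Agent.Work.MP_8d13b5_lc.Fm.E_XB2
import Pool.Agent.Work.MP_8d13b5_lc.Fm.E_XB3
import Pool.Agent.Work.MP_8d13b5_lc.Fm.E_XDI
import Pool.Agent.Work.MP_8d13b5_lc.Fm.E_XG2
import Pool.Agent.Work.MP_8d13b5_lc.Fm.E_XPI

set_option autoImplicit false

/-! The effective statements (`StmtsEff`, `StmtsEy`), proved. -/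

namespace Pool.Agent.Work.MP_8d13b5_lc.Fm

theorem eVFD : SeVFD := peVFD prFLA
theorem eVWR : SeVWR := peVWR eVFD prFLD xDAT xELI xCNT xVAN
theorem eVG1 : SeVG1 := peVG1 prPN tSIE
theorem eCRS : SeCRS := peCRS tSIE
theorem eXPI : SeXPI := peXPI eCRS prPN
theorem eXG2 : SeXG2 := peXG2 tGAP eVWR eVG1 prCFD
theorem eDET : SeDET := peDET prPN
theorem eHNX : SeHNX := peHNX
theorem eUUG : SeUUG := peUUG eHNX prSNM prMUN prINV prUUA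
theorem eXDI : SeXDI := peXDI prPN eDET
theorem eHUU : SeHUU := peHUU eXDI eUUG prPN prHEV prCFD hHB1 hHB3
theorem eHVE : SeHVE :=
  peHVE eXG2 eHUU prCRA prHDQ prPN hHB1 hHB2 hHB3
theorem eHBZ : SeHBZ := peHBZ eCRS prPN prHEV
theorem eHLO : SeHLO := peHLO prRTB prCFD prHEV hHB1 hHPI
theorem eHTH : SeHTH :=
  peHTH eXPI xXEE eHLO eHVE prCO3 xEN3 hHPI eHBZ hHNZ hHB1 prCFD
theorem eHIZ : SeHIZ := peHIZ eHTH
theorem eADY : SeADY := peADY prNPY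
theorem eHZY : SeHZY := peHZY eHIZ eADY hHB1
theorem eTOR : SeTOR := peTOR
theorem ePOW : SePOW := pePOW
theorem eSQF : SeSQF := peSQF
theorem eRDH : SeRDH := peRDH eTOR ePOW eSQF prWTG
theorem eHNU : SeHNU := peHNU eRDH hHDV hHB1 prSBY eHZY
theorem eHDU : SeHDU := peHDU eHNU prDEC hHB1
theorem yXB1 : StXB1 := peXB1 hHB1
theorem yXB2 : StXB2 := peXB2 prEQ2
theorem yXB3 : StXB3 := peXB3 eHZY yXB1 yXB2

end Pool.Agent.Work.MP_8d13b5_lc.Fm
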