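import Pool.Agent.Work.MP_8d13b5_lc.Fm.StmtsRed
import Pool.Agent.Work.MP_8d13b5_lc.Fm.I_HDU

set_option autoImplicit false

/-! Block RED, item RHC: the Skolem Problem for the family reduces to the Skolem Problem for `f`. -/

namespace Pool.Agent.Work.MP_8d13b5_lc.Fm

open Polynomial NumberField Finset Module

namespace RRHC

/-- a list of lists with `pol = F` -/
noncomputable def lst (F : ℤ[X][X]) (ix : List ℕ) (k : ℕ → ℕ) : List (List ℤ) :=
  ix.map fun i => (List.range (k i)).map fun j => (F.coeff i).coeff j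

theorem exists_lst (F : ℤ[X][X]) (d : ℕ) :
    ∃ L : List (List ℤ), L.length = d ∧ ∀ i < d, (pol L).coeff i = F.coeff i := by
  refine ⟨lst F (List.range d) fun i => (F.coeff i).natDegree + 1, by simp [lst], ?_⟩
  intro i hi
  have hlen : (lst F (List.range d) fun i => (F.coeff i).natDegree + 1).length = d := by
    simp [lst]
  rw [FDU.coeff_pol _ i (by rw [hlen]; exact hi)]
  ext j
  rw [HDU.coeff_pl]
  have h1 : (lst F (List.range d) fun i => (F.coeff i).natDegree + 1).getD i [] =
      (List.range ((F.coeff i).natDegree + 1)).map fun j => (F.coeff i).coeff j := by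
    rw [List.getD_eq_getElem _ _ (by rw [hlen]; exact hi)]
    simp [lst]
  rw [h1]
  by_cases hj : j < (F.coeff i).natDegree + 1
  · rw [List.getD_eq_getElem _ _ (by simpa using hj)]
    simp
  · rw [List.getD_eq_default _ _ (by simpa using hj)]
    exact (coeff_eq_zero_of_natDegree_lt (by omega)).symm

/-- a bound for the first zero -/
def bd (N c : ℕ) (x : (List ℤ × List ℤ) × ℕ) : ℕ := N * (Pd.size x.1 * x.2) ^ c + N + 1

theorem primrec_bd (N c : ℕ) : Primrec (bd N c) := by
  have hs : Primrec (fun x : (List ℤ × List ℤ) × ℕ => Pd.size x.1) :=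
    Pd.primrec_size.comp Primrec.fst
  have h1 : Primrec (fun x : (List ℤ × List ℤ) × ℕ => (Pd.size x.1 * x.2) ^ c) :=
    (show Primrec₂ (fun a b : ℕ => a ^ b) from Primrec₂.unpaired'.1 Nat.Primrec.pow).comp
      (Primrec.nat_mul.comp hs Primrec.snd) (Primrec.const c)
  exact Primrec.succ.comp (Primrec.nat_add.comp
    (Primrec.nat_mul.comp (Primrec.const N) h1) (Primrec.const N))

/-- a finite list of primitive recursive functions -/
theorem primrec_range {α : Type} [Primcodable α] (g : ℕ → α → ℤ) (hg : ∀ i, Primrec (g i)) :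
    ∀ k : ℕ, Primrec (fun a : α => (List.range k).map fun i => g i a) := by
  intro k
  induction k with
  | zero => exact Primrec.const []
  | succ k ih =>
    have h : Primrec (fun a : α => ((List.range k).map fun i => g i a) ++ [g k a]) :=
      Primrec.list_append.comp ih (Primrec.list_cons.comp (hg k) (Primrec.const []))
    refine h.of_eq fun a => ?_
    rw [List.range_succ, List.map_append]
    rfl

/-- a finite disjunction -/
def orN {α : Type} (h : ℕ → α → Bool) : ℕ → α → Bool
  | 0, _ => false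
  | n + 1, a => orN h n a || h n a

theorem orN_iff {α : Type} (h : ℕ → α → Bool) (a : α) : ∀ n : ℕ,
    orN h n a = true ↔ ∃ q < n, h q a = true := by
  intro n
  induction n with
  | zero => simp [orN]
  | succ n ih =>
    rw [orN, Bool.or_eq_true, ih]
    constructor
    · rintro (⟨q, hq, h1⟩ | h1)
      · exact ⟨q, by omega, h1⟩
      · exact ⟨n, by omega, h1⟩
    · rintro ⟨q, hq, h1⟩
      rcases Nat.lt_succ_iff_lt_or_eq.1 hq with h2 | h2
      · exact Or.inl ⟨q, h2, h1⟩
      · exact Or.inr (h2 ▸ h1)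

theorem computable_orN {α : Type} [Primcodable α] (h : ℕ → α → Bool) (hh : ∀ q, Computable (h q)) :
    ∀ n : ℕ, Computable (orN h n) := by
  intro n
  induction n with
  | zero => exact (Computable.const false).of_eq fun a => rfl
  | succ n ih =>
    have h1 : Computable (fun a : α => (orN h n a || h n a)) :=
      (Primrec.or.to_comp).comp ih (hh n)
    exact h1.of_eq fun a => rfl

/-- the list of the initial values of `w` -/
noncomputable def vl {d : ℕ} (W : ℕ → ℕ → MvPolynomial (Fin (d + 2)) ℤ) (k q : ℕ)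
    (a : List ℤ × (ℤ × ℤ)) : List ℤ :=
  (List.range k).map fun i =>
    MvPolynomial.eval (fun j : Fin (d + 2) => (a.2.1 :: a.2.2 :: a.1).getD j 0) (W q i)

theorem primrec_vl (hRPM : StRPM) {d : ℕ} (W : ℕ → ℕ → MvPolynomial (Fin (d + 2)) ℤ) (k q : ℕ) :
    Primrec (vl W k q) := by
  have hl : Primrec (fun a : List ℤ × (ℤ × ℤ) => a.2.1 :: a.2.2 :: a.1) :=
    Primrec.list_cons.comp (Primrec.fst.comp Primrec.snd)
      (Primrec.list_cons.comp (Primrec.snd.comp Primrec.snd) Primrec.fst)
  exact primrec_range (fun i (a : List ℤ × (ℤ × ℤ)) =>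
    MvPolynomial.eval (fun j : Fin (d + 2) => (a.2.1 :: a.2.2 :: a.1).getD j 0) (W q i))
    (fun i => (hRPM (d + 2) (W q i)).comp hl) k

theorem args_eq {d : ℕ} (x y : ℤ) (v : List ℤ) (u : ℕ → ℤ) (hu : ∀ i < d, u i = v.getD i 0) :
    (Fin.cons x (Fin.cons y fun i : Fin d => u i) : Fin (d + 2) → ℤ) =
      fun j : Fin (d + 2) => (x :: y :: v).getD j 0 := by
  funext j
  refine Fin.cases ?_ (fun j => ?_) j
  · simp
  · refine Fin.cases ?_ (fun j => ?_) j
    · simp
    · rw [Fin.cons_succ, Fin.cons_succ, hu j j.2]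
      simp

end RRHC

theorem prRHC (hDEC : StDEC) (hHB1 : StHB1) (hRPM : StRPM) : StRHC := by
  intro F e d hF hd hd1 hF0 hWt N T₀ c f W hR
  obtain ⟨L, hLlen, hL⟩ := RRHC.exists_lst F d
  obtain ⟨M, hM, hM'⟩ := hDEC (RRHC.bd N c) (RRHC.primrec_bd N c)
    (fun B p u => (∃ n, u n = 0) → ∃ n < RRHC.bd N c (p, B), u n = 0)
    (fun B p u _ h hz => h hz)
  obtain ⟨H, hH⟩ : ∃ H : ℕ, ∀ j, ((F.coeff 0).coeff j).natAbs ≤ H := by
    refine ⟨∑ j ∈ range ((F.coeff 0).natDegree + 1), ((F.coeff 0).coeff j).natAbs, fun j => ?_⟩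
    by_cases hj : j < (F.coeff 0).natDegree + 1
    · exact Finset.single_le_sum (f := fun j => ((F.coeff 0).coeff j).natAbs)
        (fun _ _ => Nat.zero_le _) (mem_range.2 hj)
    · rw [coeff_eq_zero_of_natDegree_lt (by omega)]
      exact Nat.zero_le _
  refine ⟨H + 2, fun D hD hDf => ?_⟩
  refine ⟨fun a => (M ((HDU.cl (L, (e, a.2)), a.1), max a.2.1.natAbs a.2.2.natAbs) ||
    RRHC.orN (fun q a => D (RRHC.vl W f.natDegree q a)) N a), ?_, ?_⟩
  · refine (Primrec.or.to_comp).comp ?_ ?_
    · refine (hM.comp (Primrec.pair (Primrec.pair (HDU.primrec_cl.comp (Primrec.pair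
        (Primrec.const L) (Primrec.pair (Primrec.const e) Primrec.snd))) Primrec.fst)
        (Primrec.nat_max.comp
          (primrec_natAbs.comp (Primrec.fst.comp Primrec.snd))
          (primrec_natAbs.comp (Primrec.snd.comp Primrec.snd))))).to_comp
    · exact RRHC.computable_orN _ (fun q => hD.comp (RRHC.primrec_vl hRPM W _ q).to_comp) N
  · intro x y hxy hT0 hT1 v u hv hvu hu
    have hT2 : 2 ≤ mx x y := by omega
    obtain ⟨hm, hdg, hco⟩ := hHB1.1 ℤ e F x y hF
    rw [hd] at hdg hco
    have h0 : (hsp e F x y).coeff 0 ≠ 0 := by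
      rw [hco 0 (Nat.zero_le _)]
      refine HDU.hev_ne H x y hxy (by omega) _ _ hF0 ?_ hH
      have := hWt 0
      rwa [hd] at this
    have hseq : Pd.IsSeq (HDU.cl (L, (e, (x, y))), v) u := by
      refine HDU.isSeq _ hm d hdg hd1 h0 _ v u hu (by simp [HDU.cl, hLlen]) ?_ hv hvu
      intro j hj
      rw [HDU.cl_getD L e x y j (by omega), hco _ (by omega), hLlen, hL _ (by omega)]
      have e1 : d - (d - 1 - j) = j + 1 := by omega
      rw [e1]
    have hMP := hM' (mx x y) _ u hseq
    obtain ⟨p, hp⟩ : ∃ p : List ℤ × List ℤ, p = (HDU.cl (L, (e, (x, y))), v) := ⟨_, rfl⟩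
    rw [← hp] at hMP
    have hA : (M ((HDU.cl (L, (e, (x, y))), v), max x.natAbs y.natAbs) ||
        RRHC.orN (fun q a => D (RRHC.vl W f.natDegree q a)) N (v, (x, y))) = true ↔
        M (p, mx x y) = true ∨ ∃ q < N, D (RRHC.vl W f.natDegree q (v, (x, y))) = true := by
      rw [Bool.or_eq_true, RRHC.orN_iff, hp]
      rfl
    -- the sequences `w`
    have hw : ∀ q < N, ∃ w : ℕ → ℤ, (D (RRHC.vl W f.natDegree q (v, (x, y))) = true ↔
        ∃ n, w n = 0) ∧ (∀ n, w n = 0 → u (q + N * n) = 0) ∧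
        ∀ B : ℕ, (∀ i < d, (u i).natAbs ≤ B) →
          ∀ n, (B * mx x y) ^ c < mx x y ^ n → u (q + N * n) = 0 → w n = 0 := by
      intro q hq
      obtain ⟨w, hw1, hw2, hw3, hw4⟩ := hR.red x y hxy hT0 u hu q hq
      refine ⟨w, ?_, hw3, hw4⟩
      refine hDf _ w (by simp [RRHC.vl]) ?_ ?_
      · intro i hi
        rw [hw2 i, RRHC.args_eq x y v u hvu, List.getD_eq_getElem _ _ (by simpa [RRHC.vl] using hi)]
        simp [RRHC.vl]
      · intro n
        exact hw1 n
    refine hA.trans ?_
    constructor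
    · rintro (h1 | ⟨q, hq, h1⟩)
      · by_contra h2
        exact h2 ((hMP fun h3 => absurd h3 h2).1 h1)
      · obtain ⟨w, hw1, hw2, _⟩ := hw q hq
        obtain ⟨n, hn⟩ := hw1.1 h1
        exact ⟨_, hw2 n hn⟩
    · rintro ⟨n, hn⟩
      by_cases hz : ∃ n < RRHC.bd N c (p, mx x y), u n = 0
      · exact Or.inl ((hMP fun _ => hz).2 ⟨n, hn⟩)
      · refine Or.inr ?_
        have hN := hR.pos
        have hqN : n % N < N := Nat.mod_lt _ (by omega)
        have hnq : n = n % N + N * (n / N) := (Nat.mod_add_div n N).symm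
        obtain ⟨w, hw1, _, hw3⟩ := hw (n % N) hqN
        refine ⟨n % N, hqN, hw1.2 ⟨n / N, ?_⟩⟩
        refine hw3 (Pd.size p) ?_ (n / N) ?_ (by rw [← hnq]; exact hn)
        · intro i hi
          rw [hvu i hi]
          refine (Pd.natAbs_getD_le v i).trans ?_
          rw [hp]
          unfold Pd.size
          exact Nat.le_add_left _ _
        · by_contra h4
          rw [not_lt] at h4
          apply hz
          refine ⟨n, ?_, hn⟩
          have h5 : n / N < 2 ^ (n / N) := Nat.lt_two_pow_self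
          have h6 : 2 ^ (n / N) ≤ mx x y ^ (n / N) := Nat.pow_le_pow_left hT2 _
          have h7 : n / N ≤ (Pd.size p * mx x y) ^ c := by omega
          have h8 : N * (n / N) ≤ N * (Pd.size p * mx x y) ^ c := Nat.mul_le_mul_left _ h7
          show n < N * (Pd.size p * mx x y) ^ c + N + 1
          omega

end Pool.Agent.Work.MP_8d13b5_lc.Fm
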