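import Pool.Agent.Work.MP_8d13b5_lc.Fm.StmtsRed
import Pool.Agent.Work.MP_8d13b5_lc.Fm.I_HNR

set_option autoImplicit false

/-! Item RHN of block RED: every family, with all rational parameters, has a polynomial reduction to one
recurrence over the integers. After `I_HNR.lean`. -/

namespace Pool.Agent.Work.MP_8d13b5_lc.Fm

open Polynomial NumberField Finset Module

namespace RRHN

/-- the polynomial data of the subsequence `q` -/
theorem qdata (hHB1 : StHB1) (hRPC : StRPC) (hRPA : StRPA) (F : ℤ[X][X]) (e d : ℕ) (hF : F.Monic)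
    (hFd : F.natDegree = d) (hd : 1 ≤ d) {K : Type} [Field K] [NumberField K] (N D r k : ℕ)
    (θ : Fin r → 𝓞 K) (G : (𝓞 K)[X][X]) (hG : G.Monic) (hGd : G.natDegree = k + 1) (f : ℤ[X])
    (hsq : ∀ (σ : Type) (k : ℕ) (v : (σ → ℤ) → Fin k → ℕ → 𝓞 K),
      (∀ i n, Pl (fun a => v a i n)) →
      ∃ w : (σ → ℤ) → ℕ → ℤ, (∀ n, Pl (fun a => w a n)) ∧
        ∀ a, (∀ i, Pd.Sol (∏ j, (X - C (θ j))) (v a i)) →
          Pd.Sol f (w a) ∧ ∀ n, w a n = 0 ↔ ∀ i, v a i n = 0) (q : ℕ) :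
    ∃ W : ℕ → MvPolynomial (Fin (d + 2)) ℤ, ∀ (x y : ℤ) (u : ℕ → ℤ),
      Rec (RingHom.id ℤ) (hsp e F x y) u →
      (∀ v : Fin (k + 1) → ℕ → 𝓞 K, (∀ i, Pd.Sol (∏ j, (X - C (θ j))) (v i)) →
        (∀ n : ℕ, ∑ i : Fin (k + 1), Pd.cf (hsp (e * N) G (x : 𝓞 K) (y : 𝓞 K)) n i * v i n = 0) →
        v = 0) →
      Pd.Sol (∏ j, (hsp (e * N) G (x : 𝓞 K) (y : 𝓞 K)).scaleRoots (θ j))
        (fun n => (D : 𝓞 K) ^ (q + N * n) * ((u (q + N * n) : ℤ) : 𝓞 K)) →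
      ∃ (w : ℕ → ℤ) (δ : 𝓞 K) (v : Fin (k + 1) → ℕ → 𝓞 K), δ ≠ 0 ∧
        (∀ i, Pd.Sol (∏ j, (X - C (θ j))) (v i)) ∧
        (∀ n, δ * ((D : 𝓞 K) ^ (q + N * n) * ((u (q + N * n) : ℤ) : 𝓞 K)) =
          ∑ i : Fin (k + 1), Pd.cf (hsp (e * N) G (x : 𝓞 K) (y : 𝓞 K)) n i * v i n) ∧
        Pd.Sol f w ∧
        (∀ i, w i = MvPolynomial.eval (Fin.cons x (Fin.cons y fun i : Fin d => u i)) (W i)) ∧
        ∀ n, w n = 0 ↔ ∀ i, v i n = 0 := by
  choose h hPl hh using hRPC.2.2 F e d hF hFd hd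
  obtain ⟨δ, v, hvPl, hvS, hmain⟩ := hRPA K (Fin (d + 2)) k r θ
    (fun a => hsp (e * N) G ((a 0 : ℤ) : 𝓞 K) ((a 1 : ℤ) : 𝓞 K))
    (fun a n => (D : 𝓞 K) ^ (q + N * n) * ((h (q + N * n) a : ℤ) : 𝓞 K))
    (fun a => (hHB1.1 (𝓞 K) (e * N) G _ _ hG).1)
    (fun a => (hHB1.1 (𝓞 K) (e * N) G _ _ hG).2.1.trans hGd)
    (fun i => hRPC.2.1 (𝓞 K) (Fin (d + 2)) (e * N) G (fun a => ((a 0 : ℤ) : 𝓞 K))
      (fun a => ((a 1 : ℤ) : 𝓞 K)) hG (Pl.var 0) (Pl.var 1) i)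
    (fun n => (Pl.const _).mul ((hPl (q + N * n)).map (Int.castRingHom (𝓞 K))))
  obtain ⟨w, hwPl, hw⟩ := hsq (Fin (d + 2)) (k + 1) v hvPl
  choose W hW using fun n => Pl.int_iff.1 (hwPl n)
  refine ⟨W, fun x y u hu huniq hsol => ?_⟩
  obtain ⟨a, ha⟩ : ∃ a : Fin (d + 2) → ℤ, a = Fin.cons x (Fin.cons y fun i : Fin d => u i) :=
    ⟨_, rfl⟩
  have ha0 : a 0 = x := by rw [ha]; rfl
  have ha1 : a 1 = y := by rw [ha]; rfl
  have hz : ∀ n, h n a = u n := fun n => by rw [hh n x y u hu, ha]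
  obtain ⟨h1, h2⟩ := hw a (hvS a)
  have h5 := hmain a
  simp only [ha0, ha1, hz] at h5
  obtain ⟨h3, h4⟩ := h5 huniq hsol
  exact ⟨w a, δ a, v a, h3, hvS a, h4, h1, fun i => by rw [hW i a, ha], h2⟩

end RRHN

theorem prRHN (hRZH : StRZH) (hHDV : StHDV) (hHB1 : StHB1) (hSBY : StSBY) (hHZR : StHZR)
    (hINT : StINT) (hRPC : StRPC) (hRPA : StRPA) (hRPS : StRPS) : StRHN := by
  classical
  intro F e d hF hFd hd h0 hW
  obtain ⟨K, _, _, N, D, r, k, θ, G, hN, hD, hθ, hG, hGd, hG0, hWG, hrat, hdvd⟩ :=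
    hRZH F e hF (hFd.symm ▸ hd) h0 hW
  obtain ⟨f, hf, hf0, hsq⟩ := hRPS K r θ hθ
  set H : ℝ := 1 + ∑ φ : K →+* ℂ, ∑ i ∈ range (k + 1), pn (res φ) (G.coeff i) with hH
  obtain ⟨c₁, hc₁, hz⟩ := hHZR K k (e * N) r θ hθ
  have hpn : ∀ (φ : K →+* ℂ) (P : (𝓞 K)[X]), 0 ≤ pn (res φ) P := by
    intro φ P
    unfold pn
    exact sum_nonneg fun _ _ => norm_nonneg _
  have hGH : IsCrE k (e * N) H G := by
    refine ⟨⟨hG, hGd, hG0, hrat⟩, ?_, hWG, ?_⟩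
    · rw [hH]
      have : 0 ≤ ∑ φ : K →+* ℂ, ∑ i ∈ range (k + 1), pn (res φ) (G.coeff i) :=
        sum_nonneg fun φ _ => sum_nonneg fun i _ => hpn φ _
      linarith
    · intro φ i hi
      have h5 : pn (res φ) (G.coeff i) ≤ ∑ i ∈ range (k + 1), pn (res φ) (G.coeff i) :=
        single_le_sum (f := fun i => pn (res φ) (G.coeff i)) (fun _ _ => hpn φ _)
          (mem_range.2 (by omega))
      have h6 : ∑ i ∈ range (k + 1), pn (res φ) (G.coeff i) ≤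
          ∑ φ : K →+* ℂ, ∑ i ∈ range (k + 1), pn (res φ) (G.coeff i) :=
        single_le_sum (f := fun φ : K →+* ℂ => ∑ i ∈ range (k + 1), pn (res φ) (G.coeff i))
          (fun φ _ => sum_nonneg fun i _ => hpn φ _) (mem_univ φ)
      linarith
  set L := N + N * ((k + 1) * r) with hL
  obtain ⟨T₂, s, hT₂, hs⟩ := HNR.grow_h hHB1 F hF e L
  set D' := finrank ℚ K with hD'
  have hD'1 : 1 ≤ D' := finrank_pos
  choose W hWq using fun q => RRHN.qdata hHB1 hRPC hRPA F e d hF hFd hd N D r k θ G hG hGd f hsq q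
  refine ⟨N, T₂ + D ^ L + ⌈(c₁ * H) ^ c₁⌉₊, (1 + s + D') * c₁, f, W, hN, hf, hf0, ?_⟩
  intro x y hxy ht u hu q hq
  obtain ⟨htt, hTT, hcop, hone⟩ := hINT K x y
  rw [← hD'] at hTT
  obtain ⟨t, htdef⟩ : ∃ t : ℕ, t = mx x y := ⟨_, rfl⟩
  rw [← htdef] at ht hTT hone ⊢
  have hT1 : 1 ≤ t := by omega
  have hTr : (1 : ℝ) ≤ (t : ℝ) := by exact_mod_cast hT1
  have hTT1 : (c₁ * H) ^ c₁ ≤ TT (x : 𝓞 K) (y : 𝓞 K) := by
    rw [hTT]
    calc (c₁ * H) ^ c₁ ≤ (⌈(c₁ * H) ^ c₁⌉₊ : ℝ) := Nat.le_ceil _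
      _ ≤ (t : ℝ) := by exact_mod_cast (by omega : ⌈(c₁ * H) ^ c₁⌉₊ ≤ t)
      _ ≤ (t : ℝ) ^ D' := le_self_pow₀ hTr (by omega)
  have htt1 : ∀ φ : K →+* ℂ, 1 ≤ tt φ (x : 𝓞 K) (y : 𝓞 K) := by
    intro φ
    rw [htt φ, ← htdef]
    exact hTr
  have hsol := HNR.sub_sol hSBY (hsp e F x y) N D r θ (hsp (e * N) G (x : 𝓞 K) (y : 𝓞 K)) hN
    (HNR.hsp_dvd hHDV hHB1 F e hF hW N D r hN θ G hG hWG hdvd x y) u hu q
  obtain ⟨huniq, hz2⟩ := hz H G hGH (x : 𝓞 K) (y : 𝓞 K) (hcop hxy) htt1 hTT1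
  obtain ⟨δ', v', hδ', hv', hvz', hB⟩ := hz2 _ hsol
  obtain ⟨w, δ, v, hδ, hv, hvz, hw, hwW, hw0⟩ := hWq q x y u hu huniq hsol
  -- the two solutions are proportional
  have hprop : ∀ i n, δ' * v i n = δ * v' i n := by
    have h5 := huniq (fun i n => δ' * v i n - δ * v' i n)
      (fun i => ((hv i).smul δ').sub ((hv' i).smul δ)) (fun n => by
        have e1 : ∑ i : Fin (k + 1), Pd.cf (hsp (e * N) G (x : 𝓞 K) (y : 𝓞 K)) n i *
            (δ' * v i n - δ * v' i n) =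
            δ' * (∑ i : Fin (k + 1), Pd.cf (hsp (e * N) G (x : 𝓞 K) (y : 𝓞 K)) n i * v i n) -
            δ * (∑ i : Fin (k + 1), Pd.cf (hsp (e * N) G (x : 𝓞 K) (y : 𝓞 K)) n i * v' i n) := by
          rw [mul_sum, mul_sum, ← sum_sub_distrib]
          exact sum_congr rfl fun i _ => by ring
        rw [e1, ← hvz n, ← hvz' n]
        ring)
    intro i n
    have h6 := congrFun (congrFun h5 i) n
    exact sub_eq_zero.1 h6
  have hiff : ∀ n, (∀ i, v' i n = 0) → w n = 0 := by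
    intro n hn
    refine (hw0 n).2 fun i => ?_
    have h6 := hprop i n
    rw [hn i, mul_zero] at h6
    exact (mul_eq_zero.1 h6).resolve_left hδ'
  have hDK : (D : 𝓞 K) ≠ 0 := by
    have : D ≠ 0 := by omega
    exact_mod_cast this
  refine ⟨w, hw, hwW, ?_, ?_⟩
  · intro n hn
    have h5 := (hw0 n).1 hn
    have h6 := hvz n
    rw [sum_eq_zero (fun i _ => by rw [h5 i, mul_zero])] at h6
    have h7 := (mul_eq_zero.1 h6).resolve_left hδ
    have h8 := (mul_eq_zero.1 h7).resolve_left (pow_ne_zero _ hDK)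
    exact_mod_cast h8
  · intro B hBu n hn hun
    obtain ⟨hb0, hbL⟩ := hs x y (by omega) u hu B (by rw [hFd]; exact hBu)
    rw [← htdef] at hbL
    rcases Nat.eq_zero_or_pos B with hB0 | hBpos
    · -- all the values are zero
      have h5 := huniq v hv (fun n => by
        rw [← hvz n, hb0 _ hB0, Int.cast_zero, mul_zero, mul_zero])
      exact (hw0 n).2 fun i => by rw [h5]; rfl
    have hDL : D ^ L ≤ t := by omega
    have hDLr : ((D ^ L : ℕ) : ℝ) ≤ (t : ℝ) := by exact_mod_cast hDL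
    have hDL1 : 1 ≤ D ^ L := Nat.one_le_pow _ _ hD
    have hBr : (1 : ℝ) ≤ (B : ℝ) := by exact_mod_cast hBpos
    set B₁ : ℝ := ((D ^ L * (t ^ s * B) : ℕ) : ℝ) with hB₁
    have hB₁1 : 1 ≤ B₁ := by
      rw [hB₁]
      have h9 : 1 ≤ t ^ s := Nat.one_le_pow _ _ hT1
      have : 1 ≤ D ^ L * (t ^ s * B) := Nat.mul_pos hDL1 (Nat.mul_pos h9 hBpos)
      exact_mod_cast this
    have hzb : ∀ (φ : K →+* ℂ), ∀ n < (k + 1) * r,
        ‖res φ ((D : 𝓞 K) ^ (q + N * n) * ((u (q + N * n) : ℤ) : 𝓞 K))‖ ≤ B₁ := by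
      intro φ j hj
      have hjL : q + N * j ≤ L := by
        have : N * j ≤ N * ((k + 1) * r) := Nat.mul_le_mul_left _ hj.le
        omega
      have h9 := hbL (q + N * j) hjL
      rw [map_mul, map_pow, map_natCast, map_intCast, norm_mul, norm_pow, Complex.norm_natCast,
        Complex.norm_intCast, hB₁]
      have h10 : |((u (q + N * j) : ℤ) : ℝ)| = ((u (q + N * j)).natAbs : ℝ) := by
        rw [Nat.cast_natAbs, Int.cast_abs]
      rw [h10]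
      have h11 : D ^ (q + N * j) * (u (q + N * j)).natAbs ≤ D ^ L * (t ^ s * B) :=
        Nat.mul_le_mul (Nat.pow_le_pow_right hD hjL) h9
      exact_mod_cast h11
    have hlast := hB B₁ hB₁1 hzb n ?_ ?_
    · exact hiff n hlast
    · rw [hTT]
      have e1 : B₁ * (t : ℝ) ^ D' ≤ ((B : ℝ) * t) ^ (1 + s + D') := by
        have e2 : B₁ = ((D ^ L : ℕ) : ℝ) * ((t : ℝ) ^ s * B) := by
          rw [hB₁]
          push_cast
          ring
        have e3 : B₁ * (t : ℝ) ^ D' ≤ (B : ℝ) * (t : ℝ) ^ (1 + s + D') := by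
          rw [e2]
          calc ((D ^ L : ℕ) : ℝ) * ((t : ℝ) ^ s * B) * (t : ℝ) ^ D'
              ≤ (t : ℝ) * ((t : ℝ) ^ s * B) * (t : ℝ) ^ D' := by
                gcongr
            _ = (B : ℝ) * (t : ℝ) ^ (1 + s + D') := by
                rw [pow_add, pow_add, pow_one]
                ring
        refine e3.trans ?_
        rw [mul_pow]
        have e4 : (B : ℝ) ≤ (B : ℝ) ^ (1 + s + D') := le_self_pow₀ hBr (by omega)
        exact mul_le_mul_of_nonneg_right e4 (by positivity)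
      have e5 : (B₁ * (t : ℝ) ^ D') ^ c₁ ≤ ((B : ℝ) * t) ^ ((1 + s + D') * c₁) := by
        rw [pow_mul]
        exact pow_le_pow_left₀ (by positivity) e1 c₁
      have e6 : ((B : ℝ) * t) ^ ((1 + s + D') * c₁) < (t : ℝ) ^ n := by
        exact_mod_cast hn
      have e7 : (t : ℝ) ^ n ≤ ((t : ℝ) ^ D') ^ n := by
        exact pow_le_pow_left₀ (by positivity) (le_self_pow₀ hTr (by omega)) n
      linarith
    · rw [hun]
      simp

end Pool.Agent.Work.MP_8d13b5_lc.Fm
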