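import Pool.Agent.Work.MP_8d13b5_lc.Fm.StmtsRed
import Pool.Agent.Work.MP_8d13b5_lc.Fm.I_ADZ

set_option autoImplicit false

/-! Item RPA of block RED: the combinations of item ADZ with an explicit polynomial solution. -/

namespace Pool.Agent.Work.MP_8d13b5_lc.Fm

open Polynomial NumberField Finset Module

namespace RRPA

section

variable {R σ : Type} [CommRing R] [Nontrivial R]

/-- the vector -/
noncomputable def w (m r : ℕ) (f : R[X]) (g : (σ → ℤ) → R[X]) (z : (σ → ℤ) → ℕ → R)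
    (a : σ → ℤ) : Fin (m + 1) × Fin r → R :=
  (ADZ.Am m r (g a) f).adjugate.mulVec fun ρ => z a (ADZ.en m r ρ)

theorem w_pl (hRPC : StRPC) (m r : ℕ) (f : R[X]) (g : (σ → ℤ) → R[X]) (z : (σ → ℤ) → ℕ → R)
    (hg : ∀ a, (g a).Monic) (hd : ∀ a, (g a).natDegree = m + 1)
    (hc : ∀ i, Pl (fun a => (g a).coeff i)) (hz : ∀ n, Pl (fun a => z a n))
    (ρ : Fin (m + 1) × Fin r) : Pl (fun a => w m r f g z a ρ) := by
  have hcf : ∀ n, ∀ j ≤ m, Pl (fun a => Pd.cf (g a) n j) := hRPC.1 R σ m g hg hd hc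
  have hent : ∀ i j, Pl (fun a => ADZ.Am m r (g a) f i j) := fun i j =>
    (hcf (ADZ.en m r i) (j.1 : ℕ) (by omega)).mul (Pl.const _)
  have h : Pl (fun a => ∑ κ : Fin (m + 1) × Fin r,
      (ADZ.Am m r (g a) f).adjugate ρ κ * z a (ADZ.en m r κ)) :=
    Pl.sum _ fun κ _ => (Pl.adj (fun a => ADZ.Am m r (g a) f) hent ρ κ).mul (hz _)
  exact h.congr fun a => rfl

theorem v_pl (hRPC : StRPC) (m r : ℕ) (f : R[X]) (g : (σ → ℤ) → R[X]) (z : (σ → ℤ) → ℕ → R)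
    (hg : ∀ a, (g a).Monic) (hd : ∀ a, (g a).natDegree = m + 1)
    (hc : ∀ i, Pl (fun a => (g a).coeff i)) (hz : ∀ n, Pl (fun a => z a n))
    (i : Fin (m + 1)) (n : ℕ) : Pl (fun a => ADZ.vs f (w m r f g z a) i n) := by
  have h : Pl (fun a => ∑ l : Fin r, w m r f g z a (i, l) * Pd.cf f n (l : ℕ)) :=
    Pl.sum _ fun l _ => (w_pl hRPC m r f g z hg hd hc hz (i, l)).mul (Pl.const _)
  exact h.congr fun a => rfl

end

end RRPA

theorem prRPA (hPRZ : StPRZ) (hRPC : StRPC) : StRPA := by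
  intro K σ _ _ m r θ g z hg hd hc hz
  set f : (𝓞 K)[X] := ∏ j, (X - C (θ j)) with hfdef
  have hf : f.Monic := ADZ.f_monic θ
  refine ⟨fun a => (ADZ.Am m r (g a) f).det, fun a => ADZ.vs f (RRPA.w m r f g z a),
    fun i n => RRPA.v_pl hRPC m r f g z hg hd hc hz i n,
    fun a i => ADZ.vs_sol f hf (RRPA.w m r f g z a) i, ?_⟩
  intro a hv hza
  refine ⟨ADZ.det_ne hPRZ θ (g a) (hg a) (hd a) hv, ?_⟩
  set A := ADZ.Am m r (g a) f with hA
  set b : Fin (m + 1) × Fin r → 𝓞 K := fun ρ => z a (ADZ.en m r ρ) with hb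
  have hAw : A.mulVec (RRPA.w m r f g z a) = A.det • b := by
    unfold RRPA.w
    rw [← hA, Matrix.mulVec_mulVec, Matrix.mul_adjugate, Matrix.smul_mulVec, Matrix.one_mulVec]
  have hs1 : Pd.Sol (∏ j, (g a).scaleRoots (θ j)) (fun n => A.det * z a n) := hza.smul A.det
  have hs2 := ADZ.sq_sol hPRZ θ (g a) (hg a) (RRPA.w m r f g z a)
  intro n
  refine Pd.Sol.ext (ADZ.G_monic θ (g a) (hg a)) hs1 hs2 ?_ n
  intro n hn
  rw [ADZ.G_deg θ (g a) (hg a) (hd a)] at hn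
  obtain ⟨ρ, rfl⟩ := ADZ.en_surj m r n hn
  rw [← ADZ.mulVec_eq, ← hfdef, ← hA, hAw]
  rfl

end Pool.Agent.Work.MP_8d13b5_lc.Fm
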