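import Pool.Agent.Work.MP_8d13b5_lc.Fm.StmtsRed
import Pool.Agent.Work.MP_8d13b5_lc.Fm.I_CFD

set_option autoImplicit false

namespace Pool.Agent.Work.MP_8d13b5_lc.Fm

open Polynomial NumberField Finset Module

namespace RRPC

theorem partA (R σ : Type) [CommRing R] [Nontrivial R] (m : ℕ) (g : (σ → ℤ) → R[X])
    (hg : ∀ a, (g a).Monic) (hd : ∀ a, (g a).natDegree = m + 1)
    (hc : ∀ i, Pl (fun a => (g a).coeff i)) :
    ∀ n, ∀ j ≤ m, Pl (fun a => Pd.cf (g a) n j) := by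
  intro n
  induction n with
  | zero =>
    intro j _
    exact (Pl.const (if j = 0 then (1 : R) else 0)).congr fun a => CFD.init (hg a) (hd a) j
  | succ n ih =>
    intro j hj
    rcases j with _ | j
    · exact ((ih m le_rfl).mul (hc 0)).neg.congr fun a => CFD.rec0 (hg a) (hd a) n
    · exact ((ih j (by omega)).sub ((ih m le_rfl).mul (hc (j + 1)))).congr
        fun a => CFD.recS (hg a) (hd a) n j

theorem partHev {R σ : Type} [CommRing R] (D : ℕ) (P : R[X]) (x y : (σ → ℤ) → R) (hx : Pl x)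
    (hy : Pl y) : Pl (fun a => hev D P (x a) (y a)) :=
  Pl.sum (range (D + 1)) (h := fun i a => P.coeff i * x a ^ i * y a ^ (D - i))
    fun i _ => ((Pl.const (P.coeff i)).mul (hx.pow i)).mul (hy.pow (D - i))

theorem partB (hHB1 : StHB1) (R σ : Type) [CommRing R] [Nontrivial R] (e : ℕ) (F : R[X][X])
    (x y : (σ → ℤ) → R) (hF : F.Monic) (hx : Pl x) (hy : Pl y) (i : ℕ) :
    Pl (fun a => (hsp e F (x a) (y a)).coeff i) := by
  by_cases hi : i ≤ F.natDegree
  · exact (partHev (e * (F.natDegree - i)) (F.coeff i) x y hx hy).congr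
      fun a => (hHB1.1 R e F (x a) (y a) hF).2.2 i hi
  · refine (Pl.const (0 : R)).congr fun a => ?_
    exact coeff_eq_zero_of_natDegree_lt (by rw [(hHB1.1 R e F (x a) (y a) hF).2.1]; omega)

end RRPC

theorem prRPC (hHB1 : StHB1) : StRPC := by
  refine ⟨RRPC.partA, RRPC.partB hHB1, ?_⟩
  intro F e d hF hd hd1 n
  obtain ⟨m, rfl⟩ : ∃ m, d = m + 1 := ⟨d - 1, by omega⟩
  have hx : Pl (fun a : Fin (m + 1 + 2) → ℤ => a 0) :=
    (Pl.var (R := ℤ) (0 : Fin (m + 1 + 2))).congr fun a => by simp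
  have hy : Pl (fun a : Fin (m + 1 + 2) → ℤ => a 1) :=
    (Pl.var (R := ℤ) (1 : Fin (m + 1 + 2))).congr fun a => by simp
  have hA := RRPC.partA ℤ (Fin (m + 1 + 2)) m (fun a => hsp e F (a 0) (a 1))
    (fun a => (hHB1.1 ℤ e F (a 0) (a 1) hF).1)
    (fun a => by rw [(hHB1.1 ℤ e F (a 0) (a 1) hF).2.1, hd])
    (fun i => RRPC.partB hHB1 ℤ (Fin (m + 1 + 2)) e F (fun a => a 0) (fun a => a 1) hF hx hy i) n
  refine ⟨fun a => ∑ c : Fin (m + 1), Pd.cf (hsp e F (a 0) (a 1)) n c * a c.succ.succ, ?_, ?_⟩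
  · exact Pl.sum univ (h := fun (c : Fin (m + 1)) (a : Fin (m + 1 + 2) → ℤ) =>
        Pd.cf (hsp e F (a 0) (a 1)) n c * a c.succ.succ)
      fun c _ => (hA c (by have := c.2; omega)).mul
        ((Pl.var (R := ℤ) (c.succ.succ : Fin (m + 1 + 2))).congr fun a => by simp)
  · intro x y u hu
    have hb := hHB1.1 ℤ e F x y hF
    have h1 := Pd.Sol.expand hb.1 (s := u) hu n
    rw [h1, hb.2.1, hd, Finset.sum_range]
    refine Finset.sum_congr rfl fun c _ => ?_
    rfl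

end Pool.Agent.Work.MP_8d13b5_lc.Fm
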