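import Pool.Agent.Work.MP_8d13b5_lc.Fm.StmtsRed
import Pool.Agent.Work.MP_8d13b5_lc.Bd.B06

set_option autoImplicit false

/-! Item RPM of block RED (helper37): polynomials with integer coefficients are primitive recursive. -/

namespace Pool.Agent.Work.MP_8d13b5_lc.Fm

open Polynomial NumberField Finset Module

theorem prRPM : StRPM := by
  intro k P
  induction P using MvPolynomial.induction_on with
  | C c =>
    refine (Primrec.const c).of_eq fun l => ?_
    rw [MvPolynomial.eval_C]
  | add p q hp hq =>
    refine (primrec_int_add.comp hp hq).of_eq fun l => ?_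
    rw [map_add]
  | mul_X p i hp =>
    refine (primrec_int_mul.comp hp
      ((Primrec.list_getD (0 : ℤ)).comp Primrec.id (Primrec.const (i : ℕ)))).of_eq fun l => ?_
    rw [map_mul, MvPolynomial.eval_X]
    rfl

end Pool.Agent.Work.MP_8d13b5_lc.Fm
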