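import Pool.Agent.Work.MP_8d13b5_lc.Fm.All5
import Pool.Agent.Work.MP_8d13b5_lc.Fm.R_RPC
import Pool.Agent.Work.MP_8d13b5_lc.Fm.R_RPA
import Pool.Agent.Work.MP_8d13b5_lc.Fm.R_RPS
import Pool.Agent.Work.MP_8d13b5_lc.Fm.R_RHN
import Pool.Agent.Work.MP_8d13b5_lc.Fm.R_RPM
import Pool.Agent.Work.MP_8d13b5_lc.Fm.R_RHC

set_option autoImplicit false

/-! The statements of `StmtsRed`, proved. -/

namespace Pool.Agent.Work.MP_8d13b5_lc.Fm

theorem rRPC : StRPC := prRPC hHB1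
theorem rRPA : StRPA := prRPA prPRZ rRPC
theorem rRPS : StRPS := prRPS
theorem rRHN : StRHN := prRHN hRZH hHDV hHB1 prSBY hHZR prINT rRPC rRPA rRPS
theorem rRPM : StRPM := prRPM
theorem rRHC : StRHC := prRHC prDEC hHB1 rRPM

end Pool.Agent.Work.MP_8d13b5_lc.Fm
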