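import Pool.Agent.Work.MP_8d13b5_lc.Fm.StmtsTame
import Pool.Agent.Work.MP_8d13b5_lc.Fm.I_RZH

set_option autoImplicit false

/-!
Item TBH of block TAME: descent of the block structure to a number field.
-/

namespace Pool.Agent.Work.MP_8d13b5_lc.Fm

open Polynomial NumberField Finset Module

namespace TTBH

theorem coeff_zero_prod' {R ι : Type} [CommRing R] [IsDomain R] (s : Finset ι) (P : ι → R[X])
    (h : ∀ i ∈ s, (P i).coeff 0 ≠ 0) : (∏ i ∈ s, P i).coeff 0 ≠ 0 := by
  rw [coeff_zero_prod]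
  exact Finset.prod_ne_zero_iff.2 h

theorem minpoly_coeff_zero {x : Ab} (hx : IsIntegral ℤ x) (h : x ≠ 0) :
    (minpoly ℤ x).coeff 0 ≠ 0 := by
  intro h0
  have h1 := minpoly.isIntegrallyClosed_eq_field_fractions' ℚ hx
  apply minpoly.coeff_zero_ne_zero (A := ℚ) (RZH.algQ x).isIntegral h
  rw [h1, coeff_map, h0, map_zero]

/-- the product of the minimal polynomials -/
noncomputable def chi {r : ℕ} (θ : Fin r → Zb) : ℤ[X] := ∏ j, minpoly ℤ (algebraMap Zb Ab (θ j))

theorem int (z : Zb) : IsIntegral ℤ (algebraMap Zb Ab z) := z.2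

theorem chi_monic {r : ℕ} (θ : Fin r → Zb) : (chi θ).Monic :=
  monic_prod_of_monic _ _ fun j _ => minpoly.monic (int (θ j))

theorem chi_coeff {r : ℕ} (θ : Fin r → Zb) (h : ∀ j, θ j ≠ 0) : (chi θ).coeff 0 ≠ 0 := by
  refine coeff_zero_prod' _ _ fun j _ => minpoly_coeff_zero (int (θ j)) fun h0 => h j ?_
  exact Subtype.val_injective h0

theorem chi_root {r : ℕ} (θ : Fin r → Zb) (j : Fin r) :
    aeval (algebraMap Zb Ab (θ j)) (chi θ) = 0 := by
  unfold chi
  rw [map_prod]
  exact Finset.prod_eq_zero (Finset.mem_univ j) (minpoly.aeval ℤ _)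

theorem chi_splits {r : ℕ} (θ : Fin r → Zb) (L : IntermediateField ℚ Ab)
    (hL : ∀ x ∈ ((chi θ).map (algebraMap ℤ Ab)).roots, x ∈ L) :
    ((chi θ).map (algebraMap ℤ L)).Splits := by
  have h := Splits.of_splits_map (f := (chi θ).map (algebraMap ℤ L)) (algebraMap L Ab)
    (IsAlgClosed.splits _)
  have e : (chi θ).map ((algebraMap L Ab).comp (algebraMap ℤ L)) =
      (chi θ).map (algebraMap ℤ Ab) := by
    rw [Subsingleton.elim ((algebraMap L Ab).comp (algebraMap ℤ L)) (algebraMap ℤ Ab)]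
  rw [Polynomial.map_map, e] at h
  exact h fun x hx => ⟨⟨x, hL x hx⟩, rfl⟩

end TTBH

theorem prTBH (hTBZ : StTBZ) (hRSC : StRSC) (hTSL : StTSL) : StTBH := by
  classical
  intro F e hF hFd hF0 hFW hFT
  obtain ⟨N, D, r, s, kk, bl, θ, P, hN, hD, hr, hθ, hP, hr1, hr2, hdvd, htame⟩ :=
    hTBZ F e hF hFd hF0 hFW hFT
  set S : Finset Ab := (Finset.univ.biUnion fun β => (range ((P β).natDegree + 1)).biUnion fun i =>
    (range (((P β).coeff i).natDegree + 1)).image fun l =>
      algebraMap Zb Ab (((P β).coeff i).coeff l)) ∪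
      ((Finset.univ.image fun j => algebraMap Zb Ab (θ j)) ∪
        ((TTBH.chi θ).map (algebraMap ℤ Ab)).roots.toFinset) with hS
  set L : IntermediateField ℚ Ab := IntermediateField.adjoin ℚ (S : Set Ab) with hL
  have hSL : ∀ x ∈ S, x ∈ L := fun x hx => IntermediateField.subset_adjoin ℚ _ hx
  have hθL : ∀ j, algebraMap Zb Ab (θ j) ∈ L := fun j =>
    hSL _ (Finset.mem_union_right _ (Finset.mem_union_left _
      (Finset.mem_image_of_mem _ (Finset.mem_univ j))))
  have hχL : ∀ x ∈ ((TTBH.chi θ).map (algebraMap ℤ Ab)).roots, x ∈ L := fun x hx =>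
    hSL _ (Finset.mem_union_right _ (Finset.mem_union_right _ (Multiset.mem_toFinset.2 hx)))
  have hGL : ∀ β i l, algebraMap Zb Ab (((P β).coeff i).coeff l) ∈ L := by
    intro β i l
    by_cases hi : i < (P β).natDegree + 1
    · by_cases hl : l < ((P β).coeff i).natDegree + 1
      · refine hSL _ (Finset.mem_union_left _ (Finset.mem_biUnion.2 ⟨β, Finset.mem_univ β,
          Finset.mem_biUnion.2 ⟨i, Finset.mem_range.2 hi, ?_⟩⟩))
        exact Finset.mem_image_of_mem _ (Finset.mem_range.2 hl)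
      · rw [coeff_eq_zero_of_natDegree_lt (by omega), map_zero]
        exact L.zero_mem
    · rw [coeff_eq_zero_of_natDegree_lt (p := P β) (by omega), coeff_zero, map_zero]
      exact L.zero_mem
  have hNF : NumberField L := RZH.numberField_adjoin S
  have hio := RZH.io_inj L
  choose θ' hθ' using fun j => RZH.mem_io L (θ j) (hθL j)
  have hlift : ∀ β, ∃ q : (𝓞 L)[X][X], q.map (mapRingHom (RZH.io L)) = P β := by
    intro β
    have hl : P β ∈ lifts (mapRingHom (RZH.io L)) := by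
      rw [lifts_iff_coeff_lifts]
      intro i
      have h1 : (P β).coeff i ∈ lifts (RZH.io L) := by
        rw [lifts_iff_coeff_lifts]
        intro l
        exact RZH.mem_io L _ (hGL β i l)
      rw [mem_lifts] at h1
      obtain ⟨q, hq⟩ := h1
      exact ⟨q, hq⟩
    rw [mem_lifts] at hl
    exact hl
  choose P' hP' using hlift
  have hmi : Function.Injective (mapRingHom (RZH.io L)) := Polynomial.map_injective _ hio
  have hP'm : ∀ β, (P' β).Monic := fun β => monic_of_injective hmi (by rw [hP' β]; exact (hP β).1)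
  have hP'd : ∀ β, (P' β).natDegree = kk β := by
    intro β
    rw [← (hP β).2.1, ← hP' β, natDegree_map_eq_of_injective hmi]
  have hP'0 : ∀ β, (P' β).coeff 0 ≠ 0 := by
    intro β h
    apply (hP β).2.2.2.1
    rw [← hP' β, coeff_map, h, map_zero]
  have hθ'0 : ∀ j, θ' j ≠ 0 := by
    intro j h
    apply hθ j
    rw [← hθ' j, h, map_zero]
  set j : 𝓞 L →+* Ab := (algebraMap Zb Ab).comp (RZH.io L) with hj
  have hji : Function.Injective j := Subtype.val_injective.comp hio
  have hGj : (∏ β, P' β).map (mapRingHom j) = (∏ β, P β).map (mapRingHom (algebraMap Zb Ab)) := by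
    have e0 : (∏ β, P' β).map (mapRingHom (RZH.io L)) = ∏ β, P β := by
      rw [Polynomial.map_prod]
      exact Finset.prod_congr rfl fun β _ => hP' β
    rw [← e0, Polynomial.map_map]
    congr 1
    apply RingHom.ext
    intro x
    rw [RingHom.comp_apply, coe_mapRingHom, coe_mapRingHom, coe_mapRingHom, Polynomial.map_map]
  have hAlg : Algebra.IsAlgebraic ℚ Ab := ⟨RZH.algQ⟩
  let ψ : Ab →+* ℂ := (IsAlgClosed.lift (R := ℚ) (S := Ab) (M := ℂ)).toRingHom
  have hW' : ∀ β, Wt (e * N) (P' β) := by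
    intro β i
    have h1 : ((P' β).coeff i).map (RZH.io L) = (P β).coeff i := by
      rw [← hP' β, coeff_map, coe_mapRingHom]
    rw [← natDegree_map_eq_of_injective hio ((P' β).coeff i), h1, hP'd, ← (hP β).2.1]
    exact (hP β).2.2.2.2 i
  have hdv : (F.map (mapRingHom (algebraMap ℤ (𝓞 L)))).scaleRoots (C (D : 𝓞 L)) ∣
      expand (𝓞 L)[X] N (∏ j, (P' (bl j)).scaleRoots (C (θ' j))) := by
    have hFm : (F.map (mapRingHom (algebraMap ℤ (𝓞 L)))).Monic := hF.map _
    rw [← Polynomial.map_dvd_map _ hmi ((monic_scaleRoots_iff _).2 hFm), map_expand,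
      Polynomial.map_prod, map_scaleRoots _ _ _ (by
        rw [hFm.leadingCoeff, map_one]; exact one_ne_zero), Polynomial.map_map]
    have e1 : (mapRingHom (RZH.io L)).comp (mapRingHom (algebraMap ℤ (𝓞 L))) =
        mapRingHom (algebraMap ℤ Zb) := by
      apply RingHom.ext
      intro x
      rw [RingHom.comp_apply, coe_mapRingHom, coe_mapRingHom, coe_mapRingHom, Polynomial.map_map,
        Subsingleton.elim ((RZH.io L).comp (algebraMap ℤ (𝓞 L))) (algebraMap ℤ Zb)]
    have e2 : mapRingHom (RZH.io L) (C (D : 𝓞 L)) = C (D : Zb) := by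
      rw [coe_mapRingHom, Polynomial.map_C, map_natCast]
    have e3 : ∀ i, ((P' (bl i)).scaleRoots (C (θ' i))).map (mapRingHom (RZH.io L)) =
        (P (bl i)).scaleRoots (C (θ i)) := by
      intro i
      rw [map_scaleRoots _ _ _ (by rw [(hP'm (bl i)).leadingCoeff, map_one]; exact one_ne_zero),
        hP', coe_mapRingHom, Polynomial.map_C, hθ']
    rw [e1, e2, Finset.prod_congr rfl fun i _ => e3 i]
    exact hdvd
  have hemb : ∀ i, algebraMap L Ab (algebraMap (𝓞 L) L (θ' i)) = algebraMap Zb Ab (θ i) := by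
    intro i
    rw [← RZH.io_apply, hθ']
  refine ⟨L, inferInstance, hNF, N, D, r, s, kk, bl, θ', P', ?_⟩
  refine ⟨hN, hD, hr, hθ'0, hP'm, hP'd, fun β => (hP β).2.2.1, hP'0, hW',
    ⟨ψ.comp (algebraMap L Ab), ?_⟩, hdv, ?_, ?_⟩
  · refine RZH.nonConst hRSC j hji ψ _ ?_ (∏ β, P' β)
      (monic_prod_of_monic _ _ fun β _ => hP'm β)
      (TTBH.coeff_zero_prod' _ _ fun β _ => hP'0 β) ?_ ?_
    · rfl
    · rw [hGj]
      exact hr1
    · rw [hGj]
      exact hr2
  · intro β
    refine hTSL.1 L Ab (algebraMap L Ab) _ ?_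
    refine hTSL.2.2.2 Ab _ {x : Ab | ∃ j, bl j = β ∧ x = algebraMap Zb Ab (θ j)} ?_ (htame β)
    rintro x ⟨y, ⟨i, hi, rfl⟩, rfl⟩
    exact ⟨i, hi, hemb i⟩
  · refine ⟨TTBH.chi θ, TTBH.chi_monic θ, TTBH.chi_coeff θ hθ, TTBH.chi_splits θ L hχL, ?_⟩
    intro i
    apply (algebraMap L Ab).injective
    rw [map_zero, ← TTBH.chi_root θ i, ← hemb i]
    exact (Polynomial.map_aeval_eq_aeval_map (φ := RingHom.id ℤ) (ψ := algebraMap L Ab)
      (RingHom.ext_int _ _) (TTBH.chi θ) _).trans (by rw [Polynomial.map_id])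

end Pool.Agent.Work.MP_8d13b5_lc.Fm
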