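import Pool.Agent.Work.MP_8d13b5_lc.Fm.StmtsTame
import Pool.Agent.Work.MP_8d13b5_lc.Fm.I_RZB2

set_option autoImplicit false
set_option linter.unusedSectionVars false

/-! Item TBZ of block TAME: the structure of a general family over the algebraic integers, with the
blocks (the file `I_RZB2.lean`, with the factors numbered). -/

namespace Pool.Agent.Work.MP_8d13b5_lc.Fm

open Polynomial NumberField Finset Module

namespace TTBZ

section core

variable {R E Ω k : Type} [CommRing R] [IsDomain R] [IsIntegrallyClosed R] [Field E] [CharZero E]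
  [Algebra R E] [IsFractionRing R E] [Field Ω] [IsAlgClosed Ω] [Algebra E Ω] [Normal E Ω]
  [Algebra R Ω] [IsScalarTower R E Ω] [Field k] [IsAlgClosed k]

/-- the blocks -/
theorem core (κ : k →+* E) (A : Finset Ω) (hA0 : ∀ a ∈ A, a ≠ 0)
    (hAi : ∀ a ∈ A, IsIntegral R a) (hAs : ∀ a ∈ A, ∀ τ : Ω ≃ₐ[E] Ω, τ a ∈ A) :
    ∃ (N s : ℕ) (b : Fin s → Ω) (P : Fin s → R[X]), 1 ≤ N ∧ (∀ β, b β ∈ A) ∧
      (∀ β, (P β).Monic ∧ 1 ≤ (P β).natDegree ∧ (P β).coeff 0 ≠ 0) ∧
      ((∏ β, P β).map (algebraMap R E)).Separable ∧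
      (∀ β, ∀ x : Ω, aeval x (P β) = 0 → ∃ a ∈ A, x = a ^ N) ∧
      (∀ (c : k) (x y : Ω), c ≠ 0 → aeval x (∏ β, P β) = 0 → aeval y (∏ β, P β) = 0 →
        x = algebraMap E Ω (κ c) * y → c = 1) ∧
      ∀ a ∈ A, ∃ (β : Fin s) (c : k) (y : Ω), c ≠ 0 ∧ aeval y (P β) = 0 ∧
        algebraMap E Ω (κ c) * b β ∈ A ∧ a ^ N = algebraMap E Ω (κ (c ^ N)) * y := by
  classical
  obtain ⟨N, hN1, hN⟩ := RZB2.exists_N A
  obtain ⟨T, hTA, hT, hTr⟩ := RZB2.exists_reps A (RZB2.rel κ) (RZB2.rel_refl κ) (RZB2.rel_symm κ)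
  have hint : ∀ b ∈ T, IsIntegral R (b ^ N) := fun b hb => (hAi b (hTA hb)).pow N
  have hmp : ∀ b ∈ T, minpoly E (b ^ N) = (minpoly R (b ^ N)).map (algebraMap R E) := fun b hb =>
    minpoly.isIntegrallyClosed_eq_field_fractions' E (hint b hb)
  have hintE : ∀ b ∈ T, IsIntegral E (b ^ N) := fun b hb => (hint b hb).tower_top
  -- the roots of a block
  have hroot1 : ∀ b ∈ T, ∀ x : Ω, aeval x (minpoly R (b ^ N)) = 0 →
      ∃ τ : Ω ≃ₐ[E] Ω, x = τ b ^ N := by
    intro b hb x hx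
    have h1 : aeval x (minpoly E (b ^ N)) = 0 := by
      rw [hmp b hb, aeval_map_algebraMap]
      exact hx
    have h2 : IsConjRoot E (b ^ N) x := (isConjRoot_iff_aeval_eq_zero (hintE b hb)).2 h1
    obtain ⟨σ, hσ⟩ := isConjRoot_iff_exists_algEquiv.1 h2
    refine ⟨σ.symm, ?_⟩
    rw [← map_pow, ← hσ, AlgEquiv.symm_apply_apply]
  have hprod : ∀ f : Ω → R[X], ∏ β, f (T.equivFin.symm β : Ω) = ∏ b ∈ T, f b := by
    intro f
    rw [Equiv.prod_comp T.equivFin.symm (fun b : T => f b), Finset.prod_coe_sort]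
  have hroot : ∀ x : Ω, aeval x (∏ b ∈ T, minpoly R (b ^ N)) = 0 →
      ∃ b ∈ T, ∃ τ : Ω ≃ₐ[E] Ω, x = τ b ^ N := by
    intro x hx
    rw [map_prod, Finset.prod_eq_zero_iff] at hx
    obtain ⟨b, hb, hx⟩ := hx
    exact ⟨b, hb, hroot1 b hb x hx⟩
  refine ⟨N, T.card, fun β => (T.equivFin.symm β : Ω),
    fun β => minpoly R ((T.equivFin.symm β : Ω) ^ N), hN1,
    fun β => hTA (T.equivFin.symm β).2, ?_, ?_, ?_, ?_, ?_⟩
  · intro β
    have hb := (T.equivFin.symm β).2
    refine ⟨minpoly.monic (hint _ hb), minpoly.natDegree_pos (hint _ hb), ?_⟩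
    intro h0
    refine minpoly.coeff_zero_ne_zero (hintE _ hb) (pow_ne_zero N (hA0 _ (hTA hb))) ?_
    rw [hmp _ hb, coeff_map, h0, map_zero]
  · rw [hprod (fun b => minpoly R (b ^ N)), Polynomial.map_prod]
    refine separable_prod' ?_ ?_
    · intro b hb b' hb' hbb
      rw [← hmp b hb, ← hmp b' hb', isCoprime_iff_aeval_ne_zero_of_isAlgClosed E Ω]
      intro x
      by_contra hcon
      rw [not_or, not_not, not_not] at hcon
      obtain ⟨h1, h2⟩ := hcon
      obtain ⟨σ, hσ⟩ := isConjRoot_iff_exists_algEquiv.1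
        ((isConjRoot_iff_aeval_eq_zero (hintE b hb)).2 h1)
      obtain ⟨σ', hσ'⟩ := isConjRoot_iff_exists_algEquiv.1
        ((isConjRoot_iff_aeval_eq_zero (hintE b' hb')).2 h2)
      apply hbb
      refine (RZB2.key κ A hA0 hAs N hN1 hN T hTA hT b hb b' hb' σ.symm σ'.symm 1 ?_).1
      rw [map_one, map_one, one_mul, ← map_pow, ← map_pow, ← hσ, ← hσ', AlgEquiv.symm_apply_apply,
        AlgEquiv.symm_apply_apply]
    · intro b hb
      rw [← hmp b hb]
      exact (minpoly.irreducible (hintE b hb)).separable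
  · intro β x hx
    have hb := (T.equivFin.symm β).2
    obtain ⟨τ, rfl⟩ := hroot1 _ hb x hx
    exact ⟨τ _, hAs _ (hTA hb) τ, rfl⟩
  · intro c x y _ hx hy hxy
    rw [hprod (fun b => minpoly R (b ^ N))] at hx hy
    obtain ⟨b, hb, τ, rfl⟩ := hroot x hx
    obtain ⟨b', hb', τ', rfl⟩ := hroot y hy
    exact (RZB2.key κ A hA0 hAs N hN1 hN T hTA hT b hb b' hb' τ τ' c hxy).2
  · intro a ha
    obtain ⟨b, hb, c, τ, hc, hab⟩ := hTr a ha
    refine ⟨T.equivFin ⟨b, hb⟩, c, τ b ^ N, hc, ?_, ?_, ?_⟩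
    · simp only [Equiv.symm_apply_apply]
      have h1 : aeval (τ b ^ N) (minpoly E (b ^ N)) = 0 := by
        rw [← map_pow]
        refine (isConjRoot_iff_aeval_eq_zero (hintE b hb)).1 ?_
        exact isConjRoot_iff_exists_algEquiv.2 ⟨τ.symm, AlgEquiv.symm_apply_apply τ _⟩
      rw [hmp b hb, aeval_map_algebraMap] at h1
      exact h1
    · simp only [Equiv.symm_apply_apply]
      have h1 := hAs a ha τ.symm
      rw [hab, map_mul, AlgEquiv.commutes, AlgEquiv.symm_apply_apply] at h1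
      exact h1
    · rw [hab, mul_pow, map_pow, map_pow]

end core

theorem main (Z k E Ω : Type) [CommRing Z] [IsDomain Z] [IsIntegrallyClosed Z] [CharZero Z]
    [Field k] [IsAlgClosed k] [Algebra Z k] [IsFractionRing Z k]
    [Field E] [Algebra Z[X] E] [IsFractionRing Z[X] E] [Field Ω] [IsAlgClosed Ω] [Algebra E Ω]
    [Normal E Ω] [Algebra Z[X] Ω] [IsScalarTower Z[X] E Ω] (F : ℤ[X][X]) (hF : F.Monic)
    (hF0 : F.coeff 0 ≠ 0) :
    ∃ (N s : ℕ) (b : Fin s → Ω) (P : Fin s → Z[X][X]), 1 ≤ N ∧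
      (∀ β, ((F.map (mapRingHom (algebraMap ℤ Z))).map (algebraMap Z[X] Ω)).eval (b β) = 0) ∧
      (∀ β, (P β).Monic ∧ 1 ≤ (P β).natDegree ∧ (P β).coeff 0 ≠ 0) ∧
      (∀ β, ∀ y : Ω, ((P β).map (algebraMap Z[X] Ω)).eval y = 0 → ∃ a : Ω, y = a ^ N ∧
        ((F.map (mapRingHom (algebraMap ℤ Z))).map (algebraMap Z[X] Ω)).eval a = 0) ∧
      resultant ((∏ β, P β).map (mapRingHom (algebraMap Z k)))
        (derivative ((∏ β, P β).map (mapRingHom (algebraMap Z k)))) ≠ 0 ∧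
      (∀ c : k, c ≠ 0 → c ≠ 1 → resultant ((∏ β, P β).map (mapRingHom (algebraMap Z k)))
        (((∏ β, P β).map (mapRingHom (algebraMap Z k))).scaleRoots (C c)) ≠ 0) ∧
      ∃ (bl : Fin F.natDegree → Fin s) (c : Fin F.natDegree → k), (∀ i, c i ≠ 0) ∧
        (∀ i, ((F.map (mapRingHom (algebraMap ℤ Z))).map (algebraMap Z[X] Ω)).eval
          (algebraMap E Ω (RZB2.kap Z k E (c i)) * b (bl i)) = 0) ∧
        ∀ (D : Z) (θ : Fin F.natDegree → Z),
        (∀ i, algebraMap Z k (θ i) = (algebraMap Z k D * c i) ^ N) →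
        (F.map (mapRingHom (algebraMap ℤ Z))).scaleRoots (C D) ∣
          expand Z[X] N (∏ j, (P (bl j)).scaleRoots (C (θ j))) := by
  classical
  have hinjE : Function.Injective (algebraMap Z[X] E) := IsFractionRing.injective _ _
  have hinjΩ : Function.Injective (algebraMap Z[X] Ω) := by
    rw [IsScalarTower.algebraMap_eq Z[X] E Ω]
    exact (algebraMap E Ω).injective.comp hinjE
  have : CharZero E := charZero_of_injective_algebraMap hinjE
  have hcZ : Function.Injective (mapRingHom (algebraMap ℤ Z)) := by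
    rw [coe_mapRingHom]
    exact Polynomial.map_injective _ (RingHom.injective_int _)
  set F' : Z[X][X] := F.map (mapRingHom (algebraMap ℤ Z)) with hF'
  have hF'm : F'.Monic := hF.map _
  have hF'd : F'.natDegree = F.natDegree := hF.natDegree_map _
  have hF'0 : F'.coeff 0 ≠ 0 := by
    rw [hF', coeff_map]
    exact (map_ne_zero_iff _ hcZ).2 hF0
  -- roots
  obtain ⟨a, ha⟩ := RZB2.exists_roots (F'.map (algebraMap Z[X] Ω)) (hF'm.map _) F.natDegree
    (by rw [hF'm.natDegree_map, hF'd])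
  have haev : ∀ x : Ω, aeval x F' = 0 ↔ ∃ i, a i = x := by
    intro x
    rw [← eval_map_algebraMap, ha, eval_prod, Finset.prod_eq_zero_iff]
    simp [sub_eq_zero, eq_comm]
  set A : Finset Ω := univ.image a with hAdef
  have hmem : ∀ x : Ω, x ∈ A ↔ aeval x F' = 0 := by
    intro x
    rw [haev, hAdef, mem_image]
    simp
  have hA0 : ∀ x ∈ A, x ≠ 0 := by
    rintro x hx rfl
    have h1 := (hmem 0).1 hx
    rw [← coeff_zero_eq_aeval_zero'] at h1
    exact hF'0 (hinjΩ (by rw [h1, map_zero]))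
  have hAi : ∀ x ∈ A, IsIntegral Z[X] x := fun x hx => ⟨F', hF'm, (hmem x).1 hx⟩
  have hAs : ∀ x ∈ A, ∀ τ : Ω ≃ₐ[E] Ω, τ x ∈ A := by
    intro x hx τ
    rw [hmem] at hx ⊢
    have h1 := aeval_algHom_apply ((τ : Ω →ₐ[E] Ω).restrictScalars Z[X]) x F'
    rw [hx, map_zero] at h1
    exact h1
  obtain ⟨N, s, b, P, hN, hbA, hPm, hsep, hrt, hconst, hA⟩ :=
    core (R := Z[X]) (RZB2.kap Z k E) A hA0 hAi hAs
  set G : Z[X][X] := ∏ β, P β with hG
  have hGm : G.Monic := monic_prod_of_monic _ _ fun β _ => (hPm β).1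
  set Gk := G.map (mapRingHom (algebraMap Z k)) with hGk
  have hGkm : Gk.Monic := hGm.map _
  have hmapφ : Gk.map (RZB2.ph Z k E) = G.map (algebraMap Z[X] E) := by
    rw [hGk, Polynomial.map_map, RZB2.ph_comp]
  have hres : ∀ Q : k[X][X], IsCoprime (Gk.map (RZB2.ph Z k E)) (Q.map (RZB2.ph Z k E)) →
      resultant Gk Q ≠ 0 := by
    intro Q hQ h0
    apply resultant_ne_zero _ _ hQ
    rw [natDegree_map_eq_of_injective RZB2.ph_inj, natDegree_map_eq_of_injective RZB2.ph_inj,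
      resultant_map_map, h0, map_zero]
  refine ⟨N, s, b, P, hN, ?_, hPm, ?_, ?_, ?_, ?_⟩
  · intro β
    rw [eval_map_algebraMap]
    exact (hmem _).1 (hbA β)
  · intro β y hy
    rw [eval_map_algebraMap] at hy
    obtain ⟨x, hx, hxy⟩ := hrt β y hy
    refine ⟨x, hxy, ?_⟩
    rw [eval_map_algebraMap]
    exact (hmem x).1 hx
  · apply hres
    rw [← derivative_map, hmapφ]
    exact hsep
  · intro c hc0 hc1
    apply hres
    rw [map_scaleRoots _ _ _ (by rw [hGkm.leadingCoeff, map_one]; exact one_ne_zero), hmapφ,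
      RZB2.ph_C, isCoprime_iff_aeval_ne_zero_of_isAlgClosed E Ω]
    intro x
    by_contra hcon
    rw [not_or, not_not, not_not] at hcon
    obtain ⟨h1, h2⟩ := hcon
    have hz : algebraMap E Ω (RZB2.kap Z k E c) ≠ 0 := by
      rw [ne_eq, map_eq_zero, map_eq_zero]
      exact hc0
    have h3 : aeval (x / algebraMap E Ω (RZB2.kap Z k E c)) (G.map (algebraMap Z[X] E)) = 0 := by
      have h4 := scaleRoots_eval₂_mul (p := G.map (algebraMap Z[X] E)) (algebraMap E Ω)
        (x / algebraMap E Ω (RZB2.kap Z k E c)) (RZB2.kap Z k E c)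
      rw [mul_div_cancel₀ _ hz, ← aeval_def, h2] at h4
      rcases mul_eq_zero.1 h4.symm with h5 | h5
      · exact absurd (eq_zero_of_pow_eq_zero h5) hz
      · exact h5
    refine hc1 (hconst c x (x / algebraMap E Ω (RZB2.kap Z k E c)) hc0 ?_ ?_ ?_)
    · rwa [aeval_map_algebraMap] at h1
    · rwa [aeval_map_algebraMap] at h3
    · rw [mul_div_cancel₀ _ hz]
  · have hch : ∀ i, ∃ (β : Fin s) (c : k) (y : Ω), c ≠ 0 ∧ aeval y (P β) = 0 ∧
        algebraMap E Ω (RZB2.kap Z k E c) * b β ∈ A ∧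
        a i ^ N = algebraMap E Ω (RZB2.kap Z k E (c ^ N)) * y :=
      fun i => hA (a i) (mem_image_of_mem a (mem_univ i))
    choose bl c y hc hy hcb hcy using hch
    refine ⟨bl, c, hc, ?_, fun D θ hθ => ?_⟩
    · intro i
      rw [eval_map_algebraMap]
      exact (hmem _).1 (hcb i)
    have hcom : ∀ z : Z, algebraMap Z[X] Ω (C z) =
        algebraMap E Ω (RZB2.kap Z k E (algebraMap Z k z)) := by
      intro z
      rw [RZB2.kap_apply, ← IsScalarTower.algebraMap_apply]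
    rw [← Polynomial.map_dvd_map (algebraMap Z[X] Ω) hinjΩ ((monic_scaleRoots_iff _).2 hF'm),
      map_scaleRoots _ _ _ (by rw [hF'm.leadingCoeff, map_one]; exact one_ne_zero), ha,
      RZB2.prod_scaleRoots, map_expand, Polynomial.map_prod, map_prod (expand Ω N)]
    refine Finset.prod_dvd_prod_of_dvd _ _ fun i _ => ?_
    rw [map_scaleRoots _ _ _ (by rw [(hPm (bl i)).1.leadingCoeff, map_one]; exact one_ne_zero),
      X_sub_C_scaleRoots, dvd_iff_isRoot, IsRoot.def, expand_eval]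
    have h1 : (algebraMap Z[X] Ω (C D) * a i) ^ N = algebraMap Z[X] Ω (C (θ i)) * y i := by
      rw [mul_pow, hcy, hcom, hcom, hθ, ← mul_assoc, ← map_pow, ← map_pow, ← map_mul, ← map_mul,
        mul_pow]
    rw [mul_comm (a i), h1, scaleRoots_eval_mul, eval_map_algebraMap, hy, mul_zero]

end TTBZ

/-- TBZ -/
theorem prTBZ (hWTG : StWTG) (hTOM : StTOM) (hTSL : StTSL) : StTBZ := by
  intro F e hF hdeg hF0 hW hT
  have halgQ : Algebra.IsAlgebraic ℚ Ab := AlgebraicClosure.isAlgebraic ℚ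
  have halg : Algebra.IsAlgebraic ℤ Ab :=
    (IsFractionRing.comap_isAlgebraic_iff (A := ℤ) (K := ℚ) (C := Ab)).2 halgQ
  have hfr : IsFractionRing Zb Ab :=
    integralClosure.isFractionRing_of_algebraic (fun x h => by simpa using h)
  have hic : IsIntegrallyClosed Zb := (isIntegrallyClosed_iff_isIntegrallyClosedIn Ab).2 inferInstance
  obtain ⟨N, s, b, P, hN, hb, hP, hrt, h1, h2, bl, c, hc, hcb, hdvd⟩ :=
    TTBZ.main Zb Ab (FractionRing Zb[X]) (AlgebraicClosure (FractionRing Zb[X])) F hF hF0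
  classical
  obtain ⟨y, hy, hint⟩ := Algebra.IsAlgebraic.exists_integral_multiples ℤ (univ.image c)
  have hD : ∀ i, IsIntegral ℤ ((y.natAbs : Ab) * c i) := by
    intro i
    have h3 := hint (c i) (mem_image_of_mem c (mem_univ i))
    rw [zsmul_eq_mul] at h3
    rcases Int.natAbs_eq y with h4 | h4
    · rw [h4] at h3
      simpa using h3
    · rw [h4] at h3
      have h5 := h3.neg
      simpa using h5
  have hθ : ∀ i, IsIntegral ℤ (((y.natAbs : Ab) * c i) ^ N) := fun i => (hD i).pow N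
  have hy0 : (y.natAbs : Ab) ≠ 0 := by
    rw [ne_eq, Nat.cast_eq_zero, Int.natAbs_eq_zero]
    exact hy
  obtain ⟨-, hTb, hTc, hTd⟩ := hTSL
  refine ⟨N, y.natAbs, F.natDegree, s, fun β => (P β).natDegree, bl, fun i => ⟨_, hθ i⟩, P, hN,
    Nat.one_le_iff_ne_zero.2 (Int.natAbs_ne_zero.2 hy), hdeg, ?_, ?_, h1, h2, ?_, ?_⟩
  · intro j h0
    have h3 := congrArg Subtype.val h0
    have h4 : ((y.natAbs : Ab) * c j) ^ N = 0 := h3
    rcases mul_eq_zero.1 (eq_zero_of_pow_eq_zero h4) with h5 | h5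
    · exact hy0 h5
    · exact hc j h5
  · intro β
    refine ⟨(hP β).1, rfl, (hP β).2.1, (hP β).2.2, ?_⟩
    refine hWTG Zb e N (F.map (mapRingHom (algebraMap ℤ Zb))) (P β) (hF.map _) (hP β).1 ?_ (hrt β)
    intro i
    rw [hF.natDegree_map, coeff_map, coe_mapRingHom]
    exact (natDegree_map_le).trans (hW i)
  · refine hdvd _ _ fun i => ?_
    rw [map_natCast]
    rfl
  · intro β
    have h3 := hTOM F hF hF0 hT ((algebraMap (FractionRing Zb[X]) Oz).comp
      (RZB2.kap Zb Ab (FractionRing Zb[X]))) (b β) (by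
        have h4 := hb β
        rw [Polynomial.map_map] at h4
        exact h4)
    have h5 := hTc Ab _ N hN (hTb Ab _ (y.natAbs : Ab) hy0 h3)
    refine hTd Ab _ _ ?_ h5
    rintro x ⟨j, rfl, rfl⟩
    refine ⟨c j * (y.natAbs : Ab), ⟨c j, ?_, rfl⟩, ?_⟩
    · have h6 := hcb j
      rw [Polynomial.map_map] at h6
      exact h6
    · change (c j * (y.natAbs : Ab)) ^ N = ((y.natAbs : Ab) * c j) ^ N
      rw [mul_comm]

end Pool.Agent.Work.MP_8d13b5_lc.Fm
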