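import Pool.Agent.Work.MP_8d13b5_lc.Fm.StmtsTame
import Pool.Agent.Work.MP_8d13b5_lc.Fm.I_HEV

set_option autoImplicit false

/-! Item TCO of the block TAME: the specialised blocks are coprime. -/

namespace Pool.Agent.Work.MP_8d13b5_lc.Fm

open Polynomial NumberField Finset Module

namespace TTCO

theorem res_ne {K : Type} [Field K] [NumberField K] {s : ℕ} (P : Fin s → (𝓞 K)[X][X])
    (hP : ∀ β, (P β).Monic)
    (hr : ∃ φ : K →+* ℂ, NonConst ((∏ β, P β).map (mapRingHom (res φ)))) (β γ : Fin s)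
    (hβγ : β ≠ γ) : resultant (P β) (P γ) ≠ 0 := by
  classical
  obtain ⟨φ, hsep, -⟩ := hr
  have e1 : ∀ Q : (𝓞 K)[X][X],
      (Q.map (mapRingHom (res φ))).map (algebraMap ℂ[X] (RatFunc ℂ)) =
        Q.map ((algebraMap ℂ[X] (RatFunc ℂ)).comp (mapRingHom (res φ))) := fun Q => by
    rw [Polynomial.map_map]
  rw [e1] at hsep
  generalize (algebraMap ℂ[X] (RatFunc ℂ)).comp (mapRingHom (res φ)) = h at hsep
  rw [Polynomial.map_prod, ← mul_prod_erase univ _ (mem_univ β)] at hsep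
  have h2 := hsep.isCoprime
  have h3 : (P γ).map h ∣ ∏ δ ∈ univ.erase β, (P δ).map h :=
    dvd_prod_of_mem (fun δ => (P δ).map h) (mem_erase.2 ⟨hβγ.symm, mem_univ γ⟩)
  have h4 : IsCoprime ((P β).map h) ((P γ).map h) := h2.of_isCoprime_of_dvd_right h3
  intro h0
  have h5 := resultant_ne_zero _ _ h4
  rw [(hP β).natDegree_map, (hP γ).natDegree_map, resultant_map_map, h0, map_zero] at h5
  exact h5 rfl

theorem wt_map {R S : Type} [CommRing R] [CommRing S] [Nontrivial S] (ψ : R →+* S) (E : ℕ)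
    (P : R[X][X]) (hP : P.Monic) (hW : Wt E P) : Wt E (P.map (mapRingHom ψ)) := by
  intro i
  rw [coeff_map, hP.natDegree_map, coe_mapRingHom]
  exact natDegree_map_le.trans (hW i)

theorem step (hHB1 : StHB1) {K : Type} [Field K] [NumberField K] (E : ℕ) (P Q : (𝓞 K)[X][X])
    (hP : P.Monic) (hQ : Q.Monic) (hWP : Wt E P) (hWQ : Wt E Q) (x y : 𝓞 K) (hy : y ≠ 0)
    (hρ : hev (resultant P Q).natDegree (resultant P Q) x y ≠ 0) :
    IsCoprime ((hsp E P x y).map (algebraMap (𝓞 K) K))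
      ((hsp E Q x y).map (algebraMap (𝓞 K) K)) := by
  obtain ⟨-, hb, hc, -⟩ := hHB1
  have hi : Function.Injective (algebraMap (𝓞 K) K) := FaithfulSMul.algebraMap_injective _ _
  have hyK : algebraMap (𝓞 K) K y ≠ 0 := fun h => hy (hi (h.trans (map_zero _).symm))
  rw [hc _ _ (algebraMap (𝓞 K) K) E P x y hP, hc _ _ (algebraMap (𝓞 K) K) E Q x y hQ,
    hb K E _ _ _ (hP.map _) (wt_map _ E P hP hWP) hyK,
    hb K E _ _ _ (hQ.map _) (wt_map _ E Q hQ hWQ) hyK]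
  refine isCoprime_scaleRoots _ _ _ (IsUnit.mk0 _ (pow_ne_zero _ hyK)) ?_
  by_contra hn
  apply hρ
  have e1 : ∀ F : (𝓞 K)[X][X], ∀ t : K, spc (F.map (mapRingHom (algebraMap (𝓞 K) K))) t =
      F.map ((evalRingHom t).comp (mapRingHom (algebraMap (𝓞 K) K))) := fun F t => by
    rw [spc, Polynomial.map_map]
  rw [e1, e1] at hn
  have h1 := resultant_eq_zero_iff.2 ⟨Or.inl (hP.map ((evalRingHom
    (algebraMap (𝓞 K) K x / algebraMap (𝓞 K) K y)).comp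
      (mapRingHom (algebraMap (𝓞 K) K)))).ne_zero, hn⟩
  rw [hP.natDegree_map, hQ.natDegree_map, resultant_map_map] at h1
  have h2 : ((resultant P Q).map (algebraMap (𝓞 K) K)).eval
      (algebraMap (𝓞 K) K x / algebraMap (𝓞 K) K y) = 0 := h1
  apply hi
  obtain ⟨-, h3, h4, -⟩ := prHEV
  rw [h4 _ _ (algebraMap (𝓞 K) K), h3 K _ _ _ _ hyK natDegree_map_le, h2, mul_zero, map_zero]

theorem large (hHNZ : StHNZ) (hINT : StINT) {K : Type} [Field K] [NumberField K] (Δ : (𝓞 K)[X])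
    (hΔ : Δ ≠ 0) (p : ℕ) (hp : Δ.natDegree ≤ p) : ∃ T₀ : ℕ, ∀ x y : ℤ, IsCoprime x y →
      T₀ ≤ mx x y → hev p Δ (x : 𝓞 K) (y : 𝓞 K) ≠ 0 := by
  obtain ⟨s, hs⟩ := hHNZ K
  have hpn : ∀ φ : K →+* ℂ, 0 ≤ pn (res φ) Δ := fun φ => sum_nonneg fun i _ => norm_nonneg _
  obtain ⟨T₀, hT₀⟩ := exists_nat_gt ((2 * (1 + ∑ φ : K →+* ℂ, pn (res φ) Δ)) ^ s)
  refine ⟨T₀, fun x y hxy hT => ?_⟩
  obtain ⟨-, hTT, hcop, h1⟩ := hINT K x y
  refine hs p Δ (1 + ∑ φ : K →+* ℂ, pn (res φ) Δ) hΔ hp ?_ ?_ (x : 𝓞 K) (y : 𝓞 K) (hcop hxy) ?_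
  · have := sum_nonneg (fun φ (_ : φ ∈ (univ : Finset (K →+* ℂ))) => hpn φ)
    linarith
  · intro φ
    have := single_le_sum (fun φ (_ : φ ∈ (univ : Finset (K →+* ℂ))) => hpn φ) (mem_univ φ)
    linarith
  · rw [hTT]
    have h2 : (1 : ℝ) ≤ mx x y := by exact_mod_cast h1 hxy
    have h3 : (T₀ : ℝ) ≤ mx x y := by exact_mod_cast hT
    exact hT₀.trans_le (h3.trans (le_self_pow₀ h2 finrank_pos.ne'))

end TTCO

theorem prTCO (hHB1 : StHB1) (hHNZ : StHNZ) (hINT : StINT) : StTCO := by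
  intro K _ _ e N D r s kk bl θ P F hB
  have hex : ∀ β γ : Fin s, ∃ T₀ : ℕ, β ≠ γ → ∀ x y : ℤ, IsCoprime x y → T₀ ≤ mx x y →
      IsCoprime ((hsp (e * N) (P β) (x : 𝓞 K) (y : 𝓞 K)).map (algebraMap (𝓞 K) K))
        ((hsp (e * N) (P γ) (x : 𝓞 K) (y : 𝓞 K)).map (algebraMap (𝓞 K) K)) := by
    intro β γ
    by_cases hβγ : β = γ
    · exact ⟨0, fun h => absurd hβγ h⟩
    · obtain ⟨T₁, h1⟩ := TTCO.large hHNZ hINT (K := K) 1 one_ne_zero 1 (by simp)
      obtain ⟨T₂, h2⟩ := TTCO.large hHNZ hINT (resultant (P β) (P γ))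
        (TTCO.res_ne P hB.monic hB.rat β γ hβγ) _ le_rfl
      refine ⟨max T₁ T₂, fun _ x y hxy hT => ?_⟩
      refine TTCO.step hHB1 (e * N) (P β) (P γ) (hB.monic β) (hB.monic γ) (hB.wt β) (hB.wt γ)
        (x : 𝓞 K) (y : 𝓞 K) ?_ (h2 x y hxy ((le_max_right _ _).trans hT))
      intro hy
      apply h1 x y hxy ((le_max_left _ _).trans hT)
      rw [hy, hev, sum_range_succ, sum_range_one, coeff_one_zero, pow_zero, coeff_one]
      simp
  choose T hT using hex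
  refine ⟨univ.sup fun β => univ.sup fun γ => T β γ, fun x y hxy hle β γ hβγ => ?_⟩
  refine hT β γ hβγ x y hxy (le_trans ?_ hle)
  exact (le_sup (f := fun γ => T β γ) (mem_univ γ)).trans
    (le_sup (f := fun β => univ.sup fun γ => T β γ) (mem_univ β))

end Pool.Agent.Work.MP_8d13b5_lc.Fm
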