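import Pool.Agent.Work.MP_8d13b5_lc.Fm.StmtsTame

set_option autoImplicit false

/-!
# Item TCR of block TAME: Chinese remainders for coordinates

Author: helper10.  Captain: helper47.
-/

namespace Pool.Agent.Work.MP_8d13b5_lc.Fm

open Polynomial NumberField Finset Module

namespace TTCR

variable {K : Type} [Field K] {s : ℕ} (kk : Fin s → ℕ) (g : Fin s → K[X]) (a : Fin s → ℕ → K)

/-- the component of the block `γ` -/
noncomputable def y (γ : Fin s) (n : ℕ) : K := ∑ i ∈ range (kk γ), Pd.cf (g γ) n i * a γ i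

lemma y_sol (hmon : ∀ β, (g β).Monic) (γ : Fin s) : Pd.Sol (g γ) (y kk g a γ) := by
  refine Pd.Sol.sum _ fun i _ => ?_
  have h1 := (Pd.cf_sol (hmon γ) i).smul (a γ i)
  have e : (fun n => a γ i * Pd.cf (g γ) n i) = fun n => Pd.cf (g γ) n i * a γ i :=
    funext fun n => mul_comm _ _
  rwa [e] at h1

lemma y_zero (hmon : ∀ β, (g β).Monic) (hdeg : ∀ β, (g β).natDegree = kk β)
    (hcop : ∀ β γ, β ≠ γ → IsCoprime (g β) (g γ))
    (h0 : ∀ l < ∑ β, kk β, ∑ β, ∑ i ∈ range (kk β), Pd.cf (g β) l i * a β i = 0) (β : Fin s) :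
    y kk g a β = 0 := by
  have hy := y_sol kk g a hmon
  have hsum : Pd.Sol (∏ γ, g γ) (fun n => ∑ γ, y kk g a γ n) := Pd.Sol.sum _ fun γ _ => by
    rw [← Finset.prod_erase_mul univ g (mem_univ γ)]
    exact (hy γ).mul_left _
  have hdegp : (∏ γ, g γ).natDegree = ∑ γ, kk γ := by
    rw [Polynomial.natDegree_prod_of_monic _ _ (fun γ _ => hmon γ)]
    exact sum_congr rfl fun γ _ => hdeg γ
  have hmonp : (∏ γ, g γ).Monic := monic_prod_of_monic _ _ fun γ _ => hmon γ
  have hz : ∀ n, ∑ γ, y kk g a γ n = 0 := hsum.eq_zero hmonp (fun l hl => h0 l (hdegp ▸ hl))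
  have hQ : Pd.Sol (∏ γ ∈ univ.erase β, g γ) (y kk g a β) := by
    have h1 : Pd.Sol (∏ γ ∈ univ.erase β, g γ) (fun n => ∑ γ ∈ univ.erase β, y kk g a γ n) :=
      Pd.Sol.sum _ fun γ hγ => by
        rw [← Finset.prod_erase_mul _ g hγ]
        exact (hy γ).mul_left _
    have h2 := h1.smul (-1)
    have e : (fun n => -1 * ∑ γ ∈ univ.erase β, y kk g a γ n) = y kk g a β := funext fun n => by
      have h3 := hz n
      rw [← Finset.sum_erase_add _ _ (mem_univ β)] at h3
      linear_combination -h3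
    rwa [e] at h2
  have hcopQ : IsCoprime (∏ γ ∈ univ.erase β, g γ) (g β) :=
    IsCoprime.prod_left fun γ hγ => hcop γ β (ne_of_mem_erase hγ)
  obtain ⟨A, B, hAB⟩ := hcopQ
  have h1 := (Pd.sol_iff _ _).1 (hQ.mul_left A)
  have h2 := (Pd.sol_iff _ _).1 ((hy β).mul_left B)
  have h3 : aeval (Pd.shf K) (A * (∏ γ ∈ univ.erase β, g γ) + B * g β) (y kk g a β) = 0 := by
    rw [map_add, LinearMap.add_apply, h1, h2, add_zero]
  rw [hAB, map_one] at h3
  exact h3

end TTCR

/-- TCR -/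
theorem prTCR : StTCR := by
  intro K _ s kk g hmon hdeg hcop a h0 β i hi
  have h4 := congrFun (TTCR.y_zero kk g a hmon hdeg hcop h0 β) i
  unfold TTCR.y at h4
  have hi' : i < (g β).natDegree := by rw [hdeg]; exact hi
  rw [Finset.sum_eq_single i] at h4
  · rw [Pd.cf_init (hmon β) hi', if_pos rfl, one_mul] at h4
    exact h4
  · intro l _ hl
    rw [Pd.cf_init (hmon β) hi', if_neg hl, zero_mul]
  · intro h
    exact absurd (mem_range.2 hi) h

end Pool.Agent.Work.MP_8d13b5_lc.Fm
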