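import Pool.Agent.Work.MP_8d13b5_lc.Fm.StmtsTame
import Pool.Agent.Work.MP_8d13b5_lc.Fm.R_RHP
import Pool.Agent.Work.MP_8d13b5_lc.Rk.Code

set_option autoImplicit false

/-! Block TAME, item TDU: the decision procedure. -/

namespace Pool.Agent.Work.MP_8d13b5_lc.Fm

open Polynomial NumberField Finset Module

namespace TTDU

/-- a bound for the first zero -/
def bd (N h : ℕ) (x : (List ℤ × List ℤ) × ℕ) : ℕ := N * Rk.tow h (Pd.size x.1 + x.2) + N + 1

theorem primrec_bd (N h : ℕ) : Primrec (bd N h) := by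
  have hs : Primrec (fun x : (List ℤ × List ℤ) × ℕ => Pd.size x.1) :=
    Pd.primrec_size.comp Primrec.fst
  have h1 : Primrec (fun x : (List ℤ × List ℤ) × ℕ => Rk.tow h (Pd.size x.1 + x.2)) :=
    (Rk.primrec_tow h).comp (Primrec.nat_add.comp hs Primrec.snd)
  exact Primrec.succ.comp (Primrec.nat_add.comp
    (Primrec.nat_mul.comp (Primrec.const N) h1) (Primrec.const N))

end TTDU

theorem prTDU (hDEC : StDEC) (hHB1 : StHB1) : StTDU := by
  intro F e d hF hd hd1 hF0 hWt N T₀ h hN hR
  obtain ⟨L, hLlen, hL⟩ := RRHC.exists_lst F d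
  obtain ⟨M, hM, hM'⟩ := hDEC (TTDU.bd N h) (TTDU.primrec_bd N h)
    (fun B p u => (∃ n, u n = 0) → ∃ n < TTDU.bd N h (p, B), u n = 0)
    (fun B p u _ h hz => h hz)
  obtain ⟨H, hH⟩ : ∃ H : ℕ, ∀ j, ((F.coeff 0).coeff j).natAbs ≤ H := by
    refine ⟨∑ j ∈ range ((F.coeff 0).natDegree + 1), ((F.coeff 0).coeff j).natAbs, fun j => ?_⟩
    by_cases hj : j < (F.coeff 0).natDegree + 1
    · exact Finset.single_le_sum (f := fun j => ((F.coeff 0).coeff j).natAbs)
        (fun _ _ => Nat.zero_le _) (mem_range.2 hj)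
    · rw [coeff_eq_zero_of_natDegree_lt (by omega)]
      exact Nat.zero_le _
  refine ⟨H + 2, fun a => M ((HDU.cl (L, (e, a.2)), a.1), max a.2.1.natAbs a.2.2.natAbs), ?_, ?_⟩
  · exact hM.comp (Primrec.pair (Primrec.pair (HDU.primrec_cl.comp (Primrec.pair
        (Primrec.const L) (Primrec.pair (Primrec.const e) Primrec.snd))) Primrec.fst)
        (Primrec.nat_max.comp
          (primrec_natAbs.comp (Primrec.fst.comp Primrec.snd))
          (primrec_natAbs.comp (Primrec.snd.comp Primrec.snd))))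
  · intro x y hxy hT0 hT1 v u hv hvu hu
    have hT2 : 2 ≤ mx x y := by omega
    obtain ⟨hm, hdg, hco⟩ := hHB1.1 ℤ e F x y hF
    rw [hd] at hdg hco
    have h0 : (hsp e F x y).coeff 0 ≠ 0 := by
      rw [hco 0 (Nat.zero_le _)]
      refine HDU.hev_ne H x y hxy (by omega) _ _ hF0 ?_ hH
      have := hWt 0
      rwa [hd] at this
    have hseq : Pd.IsSeq (HDU.cl (L, (e, (x, y))), v) u := by
      refine HDU.isSeq _ hm d hdg hd1 h0 _ v u hu (by simp [HDU.cl, hLlen]) ?_ hv hvu
      intro j hj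
      rw [HDU.cl_getD L e x y j (by omega), hco _ (by omega), hLlen, hL _ (by omega)]
      have e1 : d - (d - 1 - j) = j + 1 := by omega
      rw [e1]
    have hMP := hM' (mx x y) _ u hseq
    obtain ⟨p, hp⟩ : ∃ p : List ℤ × List ℤ, p = (HDU.cl (L, (e, (x, y))), v) := ⟨_, rfl⟩
    rw [← hp] at hMP
    have hA : M ((HDU.cl (L, (e, (x, y))), v), max x.natAbs y.natAbs) = true ↔
        M (p, mx x y) = true := by
      rw [hp]
      rfl
    show M ((HDU.cl (L, (e, (x, y))), v), max x.natAbs y.natAbs) = true ↔ _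
    rw [hA]
    refine hMP ?_
    rintro ⟨n, hn⟩
    have hqN : n % N < N := Nat.mod_lt _ (by omega)
    have hnq : n = n % N + N * (n / N) := (Nat.mod_add_div n N).symm
    rcases hR x y hxy hT0 u hu (n % N) hqN with h1 | h1
    · refine ⟨n % N, ?_, ?_⟩
      · show n % N < N * Rk.tow h (Pd.size p + mx x y) + N + 1
        have := Nat.zero_le (N * Rk.tow h (Pd.size p + mx x y))
        omega
      · have := h1 0
        rwa [mul_zero, add_zero] at this
    · refine ⟨n, ?_, hn⟩
      have h2 : n / N ≤ Rk.tow h (Pd.size p + mx x y) := by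
        by_contra h3
        rw [not_le] at h3
        refine h1 (Pd.size p) ?_ (n / N) h3 (by rw [← hnq]; exact hn)
        intro i hi
        rw [hvu i hi]
        refine (Pd.natAbs_getD_le v i).trans ?_
        rw [hp]
        unfold Pd.size
        exact Nat.le_add_left _ _
      have h8 : N * (n / N) ≤ N * Rk.tow h (Pd.size p + mx x y) := Nat.mul_le_mul_left _ h2
      show n < N * Rk.tow h (Pd.size p + mx x y) + N + 1
      omega

end Pool.Agent.Work.MP_8d13b5_lc.Fm
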