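import Pool.Agent.Work.MP_8d13b5_lc.Fm.StmtsTame
import Pool.Agent.Work.MP_8d13b5_lc.Rk.ExpPoly
import Pool.Agent.Work.MP_8d13b5_lc.Bd.B02

set_option autoImplicit false

namespace Pool.Agent.Work.MP_8d13b5_lc.Fm

open Polynomial NumberField Finset Module

namespace TTEX

open Rk in
/-- solutions are exponential polynomials -/
theorem repr {K : Type} [Field K] [CharZero K] [DecidableEq K] (f : K[X]) (hs : f.Splits)
    (hm : f.Monic)
    (h0 : ∀ x ∈ f.roots, x ≠ 0) (u : ℕ → K) (hu : Pd.Sol f u) :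
    ∃ Q : K → K[X], (∀ x, (Q x).natDegree ≤ f.natDegree) ∧
      (∀ x, x ∉ f.roots.toFinset → Q x = 0) ∧
      ∀ n, u n = ∑ x ∈ f.roots.toFinset, (Q x).eval (n : K) * x ^ n := by
  have hf0 : f ≠ 0 := hm.ne_zero
  set e : Ix f ≃ Fin f.natDegree := Fintype.equivFinOfCardEq (card_Ix f hs) with he
  obtain ⟨c, hc, hcu⟩ := interp f hs hf0 e u
  set c' : K → ℕ → K := fun x k =>
    if h : x ∈ f.roots.toFinset ∧ k < f.roots.count x then c ⟨⟨x, h.1⟩, ⟨k, h.2⟩⟩ else 0 with hc'
  set T := f.roots.toFinset with hT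
  set m : K → ℕ := fun x => f.roots.count x with hm'
  have hL : ∀ F : K[X], tf T m c' F = ∑ i, c i * (taylor i.1.1 F).coeff i.2 := by
    intro F
    rw [tf_apply, Fintype.sum_sigma, ← Finset.sum_coe_sort T]
    refine Finset.sum_congr rfl fun x _ => ?_
    rw [← Fin.sum_univ_eq_sum_range (fun k => c' x.1 k * (taylor x.1 F).coeff k)]
    refine Finset.sum_congr rfl fun k _ => ?_
    rw [hc']
    dsimp only
    rw [dif_pos ⟨x.2, k.2⟩]
  have hkill : ∀ n, tf T m c' (f * X ^ n) = 0 := by
    intro n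
    refine tf_kill _ _ _ _ fun x _ => Dvd.dvd.mul_right ?_ _
    rw [hm']
    dsimp only
    rw [count_roots]
    exact pow_rootMultiplicity_dvd f x
  have hsol : Pd.Sol f (fun n => tf T m c' (X ^ n)) := by
    intro n
    rw [← lin_mul_X_pow (tf T m c') (fun n => tf T m c' (X ^ n)) (fun _ => rfl) f n]
    exact hkill n
  have hrep : ∀ n, tf T m c' (X ^ n) = u n := by
    refine Pd.Sol.ext hm hsol hu fun i hi => ?_
    show tf T m c' (X ^ i) = u i
    rw [hL]
    exact hcu i hi
  set Q : K → K[X] := fun x => ∑ k ∈ range (m x),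
    C (c' x k * (x ^ k)⁻¹ * ((k.factorial : ℕ) : K)⁻¹) * descPochhammer K k with hQ
  have hQeval : ∀ x, x ≠ 0 → ∀ n : ℕ, (Q x).eval (n : K) * x ^ n =
      ∑ k ∈ range (m x), c' x k * (taylor x (X ^ n : K[X])).coeff k := by
    intro x hx n
    rw [hQ]
    dsimp only
    rw [eval_finsetSum, Finset.sum_mul]
    refine Finset.sum_congr rfl fun k _ => ?_
    rw [eval_mul, eval_C, descPochhammer_eval_eq_descFactorial,
      Nat.descFactorial_eq_factorial_mul_choose, taylor_coeff_X_pow]
    push_cast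
    have hk0 : ((k.factorial : ℕ) : K) ≠ 0 := by exact_mod_cast k.factorial_ne_zero
    rcases le_or_gt k n with hkn | hkn
    · have h1 : x ^ n = x ^ (n - k) * x ^ k := by rw [← pow_add, Nat.sub_add_cancel hkn]
      rw [h1]
      have hxk : x ^ k ≠ 0 := pow_ne_zero _ hx
      field_simp
    · rw [Nat.choose_eq_zero_of_lt hkn]; simp
  refine ⟨Q, fun x => ?_, fun x hx => ?_, fun n => ?_⟩
  · refine natDegree_sum_le_of_forall_le _ _ fun k hk => ?_
    refine (natDegree_C_mul_le _ _).trans ?_
    rw [descPochhammer_natDegree]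
    refine (Finset.mem_range.1 hk).le.trans ?_
    rw [hs.natDegree_eq_card_roots]
    exact Multiset.count_le_card x f.roots
  · have h1 : m x = 0 := by
      rw [hm']
      dsimp only
      rw [Multiset.count_eq_zero]
      intro h
      exact hx (Multiset.mem_toFinset.2 h)
    rw [hQ]
    dsimp only
    rw [h1, Finset.sum_range_zero]
  · rw [← hrep n, tf_apply]
    exact Finset.sum_congr rfl fun x hx => (hQeval x (h0 x (Multiset.mem_toFinset.1 hx)) n).symm

/-- heights of bounded integers -/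
theorem height_int {K : Type} [Field K] [NumberField K] (z : 𝓞 K) (Y : ℝ) (hY : 1 ≤ Y)
    (h : ∀ φ : K →+* ℂ, ‖res φ z‖ ≤ Y) :
    Height.mulHeight₁ (algebraMap (𝓞 K) K z) ≤ Y ^ Module.finrank ℚ K := by
  refine Rk.mulHeight₁_le_of_integral z.isIntegral_coe hY fun v => ?_
  rw [← InfinitePlace.norm_embedding_eq v]
  exact h v.embedding

end TTEX

open TTEX in
theorem prTEX : StTEX := by
  classical
  intro K _ _ r θ hθ S
  set f : (𝓞 K)[X] := ∏ j ∈ S, (X - C (θ j)) with hf
  have hfm : f.Monic := monic_prod_of_monic _ _ fun j _ => monic_X_sub_C (θ j)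
  have hfd : f.natDegree = S.card := by
    rw [hf, natDegree_prod_of_monic _ _ fun j _ => monic_X_sub_C (θ j)]
    simp
  set g : K[X] := f.map (algebraMap (𝓞 K) K) with hg
  have hgm : g.Monic := hfm.map _
  have hgd : g.natDegree = S.card := by
    rw [hg, hfm.natDegree_map, hfd]
  have hge : g = ∏ j ∈ S, (X - C (algebraMap (𝓞 K) K (θ j))) := by
    rw [hg, hf, Polynomial.map_prod]
    refine Finset.prod_congr rfl fun j _ => ?_
    rw [Polynomial.map_sub, map_X, map_C]
  have hgs : g.Splits := by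
    rw [hge]
    exact Splits.prod fun j _ => Splits.X_sub_C _
  have hroots : ∀ x, x ∈ g.roots.toFinset ↔ ∃ j ∈ S, x = algebraMap (𝓞 K) K (θ j) := by
    intro x
    rw [Multiset.mem_toFinset, mem_roots hgm.ne_zero, IsRoot, hge, eval_prod,
      Finset.prod_eq_zero_iff]
    constructor
    · rintro ⟨j, hj, h⟩
      refine ⟨j, hj, ?_⟩
      rw [eval_sub, eval_X, eval_C] at h
      exact sub_eq_zero.1 h
    · rintro ⟨j, hj, h⟩
      refine ⟨j, hj, ?_⟩
      rw [eval_sub, eval_X, eval_C, h, sub_self]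
  have h0 : ∀ x ∈ g.roots, x ≠ 0 := by
    intro x hx
    obtain ⟨j, _, rfl⟩ := (hroots x).1 (Multiset.mem_toFinset.2 hx)
    intro h
    exact hθ j (RingOfIntegers.coe_injective (by rw [map_zero]; exact h))
  -- the basic solutions
  have hbas : ∀ l : ℕ, Pd.Sol g (fun n => algebraMap (𝓞 K) K (Pd.cf f n l)) := fun l =>
    (Pd.cf_sol hfm l).map (algebraMap (𝓞 K) K)
  choose Q hQd hQ0 hQe using fun l : ℕ => TTEX.repr g hgs hgm h0 _ (hbas l)
  -- a bound for the heights
  obtain ⟨A, hA⟩ : ∃ A : ℕ, ∀ l < S.card, ∀ x i, Height.mulHeight₁ ((Q l x).coeff i) ≤ A := by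
    set F : Finset K := (insert 0 (((range S.card) ×ˢ (g.roots.toFinset ×ˢ range (S.card + 1))).image
      fun p => (Q p.1 p.2.1).coeff p.2.2)) with hF
    obtain ⟨A, hA⟩ := exists_nat_ge (∑ z ∈ F, Height.mulHeight₁ z)
    refine ⟨A, fun l hl x i => ?_⟩
    have hmem : (Q l x).coeff i ∈ F := by
      rw [hF]
      by_cases hx : x ∈ g.roots.toFinset
      · by_cases hi : i < S.card + 1
        · refine Finset.mem_insert_of_mem (Finset.mem_image.2 ⟨(l, (x, i)), ?_, rfl⟩)
          rw [Finset.mem_product, Finset.mem_product]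
          exact ⟨Finset.mem_range.2 hl, hx, Finset.mem_range.2 hi⟩
        · have : (Q l x).coeff i = 0 := by
            apply coeff_eq_zero_of_natDegree_lt
            have := hQd l x
            omega
          rw [this]
          exact Finset.mem_insert_self _ _
      · rw [hQ0 l x hx, coeff_zero]
        exact Finset.mem_insert_self _ _
    exact (Finset.single_le_sum (fun z _ => Height.mulHeight₁_nonneg z) hmem).trans hA
  set D := Module.finrank ℚ K with hD
  have hW : Height.totalWeight K = D := NumberField.totalWeight_eq_finrank K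
  refine ⟨(S.card + 1) * (A + 1), D + (S.card + D * S.card), fun y hy Y hY hyY => ?_⟩
  have hY1 : (1 : ℝ) ≤ Y := by exact_mod_cast hY
  have hSr : S.card ≤ r := by
    calc S.card ≤ (univ : Finset (Fin r)).card := Finset.card_le_univ S
      _ = r := by simp
  refine ⟨fun x => ∑ l ∈ range S.card, C (algebraMap (𝓞 K) K (y l)) * Q l x, fun x => ?_,
    fun x i => ?_, fun U hU n => ?_⟩
  · refine natDegree_sum_le_of_forall_le _ _ fun l _ => ?_
    refine (natDegree_C_mul_le _ _).trans ((hQd l x).trans ?_)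
    omega
  · rw [finsetSum_coeff]
    set B : ℝ := (((S.card + 1) * (A + 1) * Y : ℕ) : ℝ) with hB
    have hBe : B = ((S.card : ℝ) + 1) * ((A : ℝ) + 1) * Y := by rw [hB]; push_cast; ring
    have hs0 : (0 : ℝ) ≤ S.card := Nat.cast_nonneg _
    have hA0 : (0 : ℝ) ≤ A := Nat.cast_nonneg _
    have hsB : (S.card : ℝ) + 1 ≤ B := by
      rw [hBe]
      have : (1 : ℝ) ≤ ((A : ℝ) + 1) * Y := by nlinarith
      nlinarith
    have hAB : (A : ℝ) + 1 ≤ B := by
      rw [hBe]
      have h1 : (1 : ℝ) ≤ ((S.card : ℝ) + 1) * Y := by nlinarith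
      nlinarith
    have hYB : (Y : ℝ) ≤ B := by
      rw [hBe]
      have h1 : (1 : ℝ) ≤ ((S.card : ℝ) + 1) * ((A : ℝ) + 1) := by nlinarith
      nlinarith
    have hB1 : (1 : ℝ) ≤ B := hY1.trans hYB
    rw [Nat.cast_pow, ← hB]
    rcases Nat.eq_zero_or_pos S.card with hS0 | hS0
    · rw [hS0, Finset.sum_range_zero, Height.mulHeight₁_zero]
      exact one_le_pow₀ hB1
    refine (Height.mulHeight₁_sum_le (Finset.nonempty_range_iff.2 hS0.ne') _).trans ?_
    rw [Finset.card_range, hW, pow_add B D, pow_add B S.card]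
    have hterm : ∀ l ∈ range S.card, Height.mulHeight₁ ((C (algebraMap (𝓞 K) K (y l)) *
        Q l x).coeff i) ≤ B * B ^ D := by
      intro l hl
      rw [coeff_C_mul, mul_comm]
      refine (Height.mulHeight₁_mul_le _ _).trans ?_
      refine mul_le_mul ?_ ?_ (Height.mulHeight₁_nonneg _) (by positivity)
      · refine (hA l (Finset.mem_range.1 hl) x i).trans ?_
        linarith
      · refine (height_int (y l) Y hY1 fun φ => hyY φ l
          (lt_of_lt_of_le (Finset.mem_range.1 hl) hSr)).trans ?_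
        exact pow_le_pow_left₀ (by positivity) hYB _
    refine mul_le_mul (pow_le_pow_left₀ (by positivity) (by linarith) _) ?_
      (Finset.prod_nonneg fun _ _ => Height.mulHeight₁_nonneg _) (by positivity)
    refine (Finset.prod_le_prod (fun _ _ => Height.mulHeight₁_nonneg _) hterm).trans ?_
    rw [Finset.prod_const, Finset.card_range, mul_pow, ← pow_mul]
  · have hUr : U = g.roots.toFinset := by
      ext x
      rw [hU x, hroots x]
    have h1 := Pd.Sol.expand hfm hy n
    rw [h1, map_sum, hUr, hfd]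
    have h2 : ∀ x ∈ g.roots.toFinset,
        (∑ l ∈ range S.card, C (algebraMap (𝓞 K) K (y l)) * Q l x).eval (n : K) * x ^ n =
        ∑ l ∈ range S.card, algebraMap (𝓞 K) K (y l) * ((Q l x).eval (n : K) * x ^ n) := by
      intro x _
      rw [eval_finsetSum, Finset.sum_mul]
      refine Finset.sum_congr rfl fun l _ => ?_
      rw [eval_mul, eval_C, mul_assoc]
    rw [Finset.sum_congr rfl h2, Finset.sum_comm]
    refine Finset.sum_congr rfl fun l _ => ?_
    rw [← Finset.mul_sum, ← hQe l n, map_mul, mul_comm]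

end Pool.Agent.Work.MP_8d13b5_lc.Fm
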