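import Pool.Agent.Work.MP_8d13b5_lc.Fm.StmtsTame
import Pool.Agent.Work.MP_8d13b5_lc.Bd.B04

set_option autoImplicit false

/-! Block TAME, item TKZ: zeros of a tame sequence over a number field. -/

namespace Pool.Agent.Work.MP_8d13b5_lc.Fm

open Polynomial NumberField Finset Module

namespace TTKZ

open Height Rk

theorem elem_size (s₁ M h₀ b c : ℕ) :
    Elem (fun Y => s₁ + M + (s₁ + 1) ^ s₁ * (h₀ ^ M * (b * (Y + 1)) ^ c) ^ s₁) :=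
  (Elem.const (s₁ + M)).add ((Elem.const ((s₁ + 1) ^ s₁)).mul
    (((Elem.const (h₀ ^ M)).mul (((Elem.const b).mul (Elem.id.add (Elem.const 1))).pow
      (Elem.const c))).pow (Elem.const s₁)))

theorem exists_bd {K : Type} [Field K] [NumberField K] (U : Finset K) :
    ∃ h₀ : ℕ, 1 ≤ h₀ ∧ ∀ x ∈ U, mulHeight₁ x ≤ (h₀ : ℝ) := by
  obtain ⟨n, hn⟩ := exists_nat_ge (∑ x ∈ U, mulHeight₁ x)
  refine ⟨n + 1, Nat.le_add_left _ _, fun x hx => ?_⟩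
  have h1 : mulHeight₁ x ≤ ∑ x ∈ U, mulHeight₁ x :=
    Finset.single_le_sum (f := fun x : K => mulHeight₁ x) (fun x _ => mulHeight₁_nonneg x) hx
  push_cast
  linarith

theorem exists_cf (χ : ℤ[X]) : ∃ C₀ : ℕ, ∀ i, |χ.coeff i| ≤ (C₀ : ℤ) := by
  refine ⟨∑ i ∈ χ.support, (χ.coeff i).natAbs, fun i => ?_⟩
  by_cases hi : i ∈ χ.support
  · have h1 : (χ.coeff i).natAbs ≤ ∑ i ∈ χ.support, (χ.coeff i).natAbs :=
      Finset.single_le_sum (f := fun i => (χ.coeff i).natAbs) (fun _ _ => Nat.zero_le _) hi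
    rw [Int.abs_eq_natAbs]
    exact_mod_cast h1
  · rw [notMem_support_iff.1 hi, abs_zero]
    exact Int.natCast_nonneg _

end TTKZ

open Height Rk in
theorem prTKZ (hTEX : StTEX) (hTPT : StTPT) (hTSL : StTSL) : StTKZ := by
  classical
  intro K _ _ r θ hθ hχex S htame
  obtain ⟨χ, hχ, hχ0, hsplit, hχθ⟩ := hχex
  obtain ⟨Bt, hBt, Ht⟩ := torsion_bound
  obtain ⟨Bc, hBc, Hc⟩ := class_ne_zero
  obtain ⟨b, c, HT⟩ := hTEX K r θ hθ S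
  obtain ⟨M, hM⟩ : ∃ M, M = (Bt (finrank ℚ K)).factorial := ⟨_, rfl⟩
  have hM0 : 0 < M := by rw [hM]; exact Nat.factorial_pos _
  have htf : ∀ x : K, (∃ m : ℕ, 0 < m ∧ x ^ m = 1) → x ^ M = 1 := by
    intro x hx
    rw [hM]
    exact Ht (finrank ℚ K) K le_rfl x hx
  obtain ⟨U, hU⟩ : ∃ U : Finset K, U = S.image (fun j => algebraMap (𝓞 K) K (θ j)) := ⟨_, rfl⟩
  have hUmem : ∀ x, x ∈ U ↔ ∃ j ∈ S, x = algebraMap (𝓞 K) K (θ j) := by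
    intro x
    rw [hU, mem_image]
    exact ⟨fun ⟨j, hj, h⟩ => ⟨j, hj, h.symm⟩, fun ⟨j, hj, h⟩ => ⟨j, hj, h.symm⟩⟩
  have hUcard : U.card ≤ r := by
    rw [hU]
    exact card_image_le.trans ((card_le_univ S).trans (by simp))
  obtain ⟨h₀, hh0, hUH⟩ := TTKZ.exists_bd U
  obtain ⟨C₀, hC₀⟩ := TTKZ.exists_cf χ
  obtain ⟨s₁, hs₁⟩ : ∃ s₁, s₁ = r + finrank ℚ K + χ.natDegree + C₀ := ⟨_, rfl⟩
  obtain ⟨S2, hS2⟩ : ∃ S2 : ℕ → ℕ, S2 = fun Y => s₁ + M +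
    (s₁ + 1) ^ s₁ * (h₀ ^ M * (b * (Y + 1)) ^ c) ^ s₁ := ⟨_, rfl⟩
  have eS2 : Elem S2 := by rw [hS2]; exact TTKZ.elem_size s₁ M h₀ b c
  obtain ⟨h, hh⟩ := (Elem.const M).mul ((hBc.comp eS2).add (Elem.const 1))
  refine ⟨M, h, hM0, ?_⟩
  intro y hy Y hY n hn hyn i
  have hS2' : S2 Y = s₁ + M + (s₁ + 1) ^ s₁ * (h₀ ^ M * (b * (Y + 1)) ^ c) ^ s₁ := by rw [hS2]
  obtain ⟨Q, hQdeg, hQH, hQ⟩ := HT y hy (Y + 1) (Nat.le_add_left _ _) (fun φ l hl =>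
    (hY φ l hl).trans (by push_cast; linarith))
  have hQ' := hQ U hUmem
  have hU0 : ∀ x ∈ U, x ≠ 0 := by
    intro x hx h0
    obtain ⟨j, _, hxj⟩ := (hUmem x).1 hx
    rw [h0] at hxj
    have : θ j = 0 := by
      apply IsFractionRing.injective (𝓞 K) K
      rw [map_zero]
      exact hxj.symm
    exact hθ j this
  have hUχ : ∀ x ∈ U, aeval x χ = 0 := by
    intro x hx
    obtain ⟨j, _, hxj⟩ := (hUmem x).1 hx
    rw [hxj]
    exact hχθ j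
  have htors : ∀ x y : K, x ≠ 0 → y ≠ 0 → x ^ M ≠ y ^ M → ∀ m : ℕ, 0 < m →
      (x ^ M / y ^ M) ^ m ≠ 1 := by
    intro x y hx hy hxy m hm h1
    apply hxy
    have h2 : (x / y) ^ M = 1 := htf (x / y) ⟨M * m, Nat.mul_pos hM0 hm, by
      rw [pow_mul, div_pow, h1]⟩
    rw [div_pow] at h2
    exact (div_eq_one_iff_eq (pow_ne_zero _ hy)).1 h2
  have hcase : ∀ j : ℕ, (mrT U Q M j).Nonempty → ((mrT U Q M j).card = 1 ∨
      ∃ v : AbsoluteValue K ℝ, IsPlace v ∧ (∃ μ ∈ mrT U Q M j, ∃ ν ∈ mrT U Q M j, v μ ≠ v ν) ∧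
        ∀ x ∈ mrT U Q M j, ∀ y ∈ mrT U Q M j, ∀ z ∈ mrT U Q M j, ∀ w ∈ mrT U Q M j,
          (∀ t ∈ mrT U Q M j, v t ≤ v x) → (∀ t ∈ mrT U Q M j, v t ≤ v y) →
            (∀ t ∈ mrT U Q M j, v t ≤ v z) → (∀ t ∈ mrT U Q M j, v t ≤ v w) →
              ∃ a b : ℤ, (a ≠ 0 ∨ b ≠ 0) ∧ (x / y) ^ a = (z / w) ^ b) := by
    intro j hTne
    by_cases hc1 : (mrT U Q M j).card = 1
    · exact Or.inl hc1
    right
    have hmem : ∀ μ ∈ mrT U Q M j, ∃ x ∈ U, x ^ M = μ := by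
      intro μ hμ
      obtain ⟨_, x, hx, hxM, _⟩ := mr_mem U Q M j μ hμ
      exact ⟨x, hx, hxM⟩
    have hcard2 : 1 < (mrT U Q M j).card := by
      have := card_pos.2 hTne
      omega
    obtain ⟨μ₁, hμ₁, μ₂, hμ₂, hne⟩ := one_lt_card.1 hcard2
    refine hTPT K (mrT U Q M j) ?_ ?_ ?_
    · intro μ hμ
      obtain ⟨x, hx, rfl⟩ := hmem μ hμ
      exact pow_ne_zero _ (hU0 x hx)
    · refine ⟨μ₁, hμ₁, μ₂, hμ₂, ?_⟩
      obtain ⟨x₁, hx₁, rfl⟩ := hmem μ₁ hμ₁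
      obtain ⟨x₂, hx₂, rfl⟩ := hmem μ₂ hμ₂
      exact htors x₁ x₂ (hU0 x₁ hx₁) (hU0 x₂ hx₂) hne
    · refine hTSL.2.2.2 K _ _ ?_ (hTSL.2.2.1 K _ M hM0 htame)
      intro μ hμ
      obtain ⟨x, hx, hxM⟩ := hmem μ (mem_coe.1 hμ)
      exact ⟨x, (hUmem x).1 hx, hxM⟩
  have hpos : ∀ j < M, (mrT U Q M j).Nonempty → ∀ n' : ℕ, Bc (S2 Y) ≤ n' →
      y (M * n' + j) ≠ 0 := by
    intro j hj hTne n' hn' hu0
    have h1 := hQ' (M * n' + j)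
    rw [hu0, map_zero, mr_sum U Q M j n'] at h1
    refine Hc (S2 Y) K (by rw [hS2', hs₁]; omega) χ hχ hχ0 (by rw [hS2', hs₁]; omega)
      (fun i => (hC₀ i).trans (by
        have : C₀ ≤ S2 Y := by rw [hS2', hs₁]; omega
        exact_mod_cast this)) hsplit M hM0 (by rw [hS2']; omega) htf (mrT U Q M j)
      (mrR U Q M j) hTne ?_ ?_ (hcase j hTne) n' j hn' hj h1.symm
    · intro μ hμ
      obtain ⟨_, x, hx, hxM, _⟩ := mr_mem U Q M j μ hμ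
      exact ⟨x, hUχ x hx, hxM⟩
    · intro μ hμ
      refine ⟨(mr_mem U Q M j μ hμ).1, (mr_natDegree U Q M j r hQdeg μ).trans
        (by rw [hS2', hs₁]; omega), fun i => ?_⟩
      refine (mr_height U Q M j s₁ (h₀ : ℝ) (((b * (Y + 1)) ^ c : ℕ) : ℝ) (by exact_mod_cast hh0)
        (hUcard.trans (by rw [hs₁]; omega)) (by rw [hs₁]; omega) hj.le hUH
        (fun x i => hQH x i) μ i).trans ?_
      have h3 : (s₁ + 1) ^ s₁ * (h₀ ^ M * (b * (Y + 1)) ^ c) ^ s₁ ≤ S2 Y := by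
        rw [hS2']; omega
      exact_mod_cast h3
  have hdm : M * (n / M) + n % M = n := Nat.div_add_mod n M
  have hj : n % M < M := Nat.mod_lt _ hM0
  have hn1 : M * (Bc (S2 Y) + 1) ≤ n := (hh Y).trans hn.le
  have hn' : Bc (S2 Y) ≤ n / M := by
    rw [Nat.le_div_iff_mul_le hM0]
    nlinarith
  have hT0 : mrT U Q M (n % M) = ∅ := by
    rcases (mrT U Q M (n % M)).eq_empty_or_nonempty with h0 | h0
    · exact h0
    · exact absurd (by rw [hdm]; exact hyn) (hpos _ hj h0 _ hn')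
  have h1 := hQ' (M * i + n % M)
  rw [mr_sum U Q M (n % M) i, hT0, sum_empty] at h1
  rw [show n % M + M * i = M * i + n % M by ring]
  apply IsFractionRing.injective (𝓞 K) K
  rw [map_zero]
  exact h1

end Pool.Agent.Work.MP_8d13b5_lc.Fm
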