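import Pool.Agent.Work.MP_8d13b5_lc.Fm.StmtsTame

set_option autoImplicit false

/-! Block TAME, item TLF: from block coordinates to coordinates. -/

namespace Pool.Agent.Work.MP_8d13b5_lc.Fm

open Polynomial NumberField Finset Module

namespace TTLF

theorem fb_dvd {R : Type} [CommRing R] {r s : ℕ} (bl : Fin r → Fin s) (θ : Fin r → R)
    (β : Fin s) : fb bl θ β ∣ ∏ j, (X - C (θ j)) := by
  unfold fb
  exact Finset.prod_dvd_prod_of_subset _ _ _ (Finset.filter_subset _ _)

theorem sol_of_dvd {A : Type} [CommRing A] {f g : A[X]} (h : f ∣ g) {u : ℕ → A}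
    (hu : Pd.Sol f u) : Pd.Sol g u := by
  obtain ⟨q, rfl⟩ := h
  exact hu.mul_right q

theorem map_cf {A B : Type} [CommRing A] [CommRing B] (φ : A →+* B) {f : A[X]} (hf : f.Monic)
    (n c : ℕ) : Pd.cf (f.map φ) n c = φ (Pd.cf f n c) := by
  unfold Pd.cf
  rw [← coeff_map, Polynomial.map_modByMonic φ hf, Polynomial.map_pow, map_X]

end TTLF

theorem prTLF (hTCR : StTCR) : StTLF := by
  intro K _ _ m r s kk bl θ g hg hdeg hsum hcop w hw
  have hG : (∏ β, g β).Monic := monic_prod_of_monic _ _ fun β _ => hg β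
  have hGd : (∏ β, g β).natDegree = m + 1 := by
    rw [natDegree_prod_of_monic _ _ fun β _ => hg β, ← hsum]
    exact Finset.sum_congr rfl fun β _ => hdeg β
  have hexp : ∀ β l n, Pd.cf (g β) n l =
      ∑ i : Fin (m + 1), Pd.cf (∏ γ, g γ) n i * Pd.cf (g β) i l := by
    intro β l n
    have h1 : Pd.Sol (∏ γ, g γ) (fun n => Pd.cf (g β) n l) :=
      TTLF.sol_of_dvd (Finset.dvd_prod_of_mem g (Finset.mem_univ β)) (Pd.cf_sol (hg β) l)
    have h2 := Pd.Sol.expand hG h1 n
    rw [hGd, Finset.sum_range] at h2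
    exact h2
  refine ⟨fun i n => ∑ β, ∑ l ∈ range (kk β), Pd.cf (g β) i l * w β l n, ?_, ?_, ?_⟩
  · intro i
    refine Pd.Sol.sum _ fun β _ => Pd.Sol.sum _ fun l _ => ?_
    exact Pd.Sol.smul (TTLF.sol_of_dvd (TTLF.fb_dvd bl θ β) (hw β l)) _
  · intro n
    simp only [Finset.mul_sum]
    rw [Finset.sum_comm]
    refine Finset.sum_congr rfl fun β _ => ?_
    rw [Finset.sum_comm]
    refine Finset.sum_congr rfl fun l _ => ?_
    rw [hexp β l n, Finset.sum_mul]
    refine Finset.sum_congr rfl fun i _ => ?_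
    ring
  · intro n hn β l hl
    have h1 := hTCR K s kk (fun β => (g β).map (algebraMap (𝓞 K) K)) (fun β => (hg β).map _)
      (fun β => by rw [(hg β).natDegree_map, hdeg β]) hcop
      (fun β l => algebraMap (𝓞 K) K (w β l n)) (fun l' hl' => by
        have h2 := hn ⟨l', by omega⟩
        have h3 := congrArg (algebraMap (𝓞 K) K) h2
        simp only [map_sum, map_mul, map_zero] at h3
        rw [← h3]
        refine Finset.sum_congr rfl fun β _ => Finset.sum_congr rfl fun i _ => ?_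
        rw [TTLF.map_cf _ (hg β)]) β l hl
    exact (FaithfulSMul.algebraMap_injective (𝓞 K) K) (by rw [h1, map_zero])

end Pool.Agent.Work.MP_8d13b5_lc.Fm
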