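import Pool.Agent.Work.MP_8d13b5_lc.Fm.StmtsTame
import Pool.Agent.Work.MP_8d13b5_lc.Fm.I_HNR
import Pool.Agent.Work.MP_8d13b5_lc.Bd.B01

set_option autoImplicit false

/-! Item TNZ: zeros of the sequences of a tame family. -/

namespace Pool.Agent.Work.MP_8d13b5_lc.Fm

open Polynomial NumberField Finset Module

namespace TTNZ

/-- the divisibility, specialised, for a product of blocks -/
theorem hsp_dvd (hHDV : StHDV) (hHB1 : StHB1) {K : Type} [Field K] [NumberField K] (F : ℤ[X][X])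
    (e : ℕ) (hF : F.Monic) (hW : Wt e F) (N D r s : ℕ) (hN : 1 ≤ N) (bl : Fin r → Fin s)
    (θ : Fin r → 𝓞 K) (P : Fin s → (𝓞 K)[X][X]) (hG : ∀ β, (P β).Monic)
    (hWG : ∀ β, Wt (e * N) (P β))
    (h : (F.map (mapRingHom (algebraMap ℤ (𝓞 K)))).scaleRoots (C (D : 𝓞 K)) ∣
        expand (𝓞 K)[X] N (∏ j, (P (bl j)).scaleRoots (C (θ j)))) (x y : ℤ) :
    ((hsp e F x y).map (algebraMap ℤ (𝓞 K))).scaleRoots (D : 𝓞 K) ∣
      expand (𝓞 K) N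
        (∏ j, (hsp (e * N) (P (bl j)) (x : 𝓞 K) (y : 𝓞 K)).scaleRoots (θ j)) := by
  obtain ⟨-, -, hc, -, -, hf, hg, hh⟩ := hHB1
  have hFm : (F.map (mapRingHom (algebraMap ℤ (𝓞 K)))).Monic := hF.map _
  have hFW : Wt e (F.map (mapRingHom (algebraMap ℤ (𝓞 K)))) := HNR.wt_map _ e F hF hW
  have hGm : ∀ j, ((P (bl j)).scaleRoots (C (θ j))).Monic := fun j =>
    (monic_scaleRoots_iff _).2 (hG (bl j))
  have hGW : ∀ j, Wt (e * N) ((P (bl j)).scaleRoots (C (θ j))) := fun j =>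
    (hg (𝓞 K) (e * N) (P (bl j)) (θ j) 0 0 (hG (bl j)) (hWG (bl j))).1
  have hPm : (∏ j, (P (bl j)).scaleRoots (C (θ j))).Monic :=
    monic_prod_of_monic _ _ fun j _ => hGm j
  have hPW := hh (𝓞 K) (e * N) (Fin r) univ (fun j => (P (bl j)).scaleRoots (C (θ j))) (x : 𝓞 K)
    (y : 𝓞 K) hGm hGW
  have hEW := hf (𝓞 K) e N (∏ j, (P (bl j)).scaleRoots (C (θ j))) (x : 𝓞 K) (y : 𝓞 K) hN hPm
    hPW.1
  have h1 := hHDV (𝓞 K) e _ _ (x : 𝓞 K) (y : 𝓞 K) ((monic_scaleRoots_iff _).2 hFm)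
    (hPm.expand (by omega)) hEW.1 h
  rw [hEW.2, hPW.2, (hg (𝓞 K) e _ (D : 𝓞 K) (x : 𝓞 K) (y : 𝓞 K) hFm hFW).2] at h1
  have h2 := hc ℤ (𝓞 K) (algebraMap ℤ (𝓞 K)) e F x y hF
  rw [eq_intCast, eq_intCast] at h2
  rw [← h2] at h1
  rw [Finset.prod_congr rfl fun j _ =>
    (hg (𝓞 K) (e * N) (P (bl j)) (θ j) (x : 𝓞 K) (y : 𝓞 K) (hG (bl j)) (hWG (bl j))).2] at h1
  exact h1

/-- the scaled subsequence is a solution -/
theorem sub_sol {K : Type} [Field K] [NumberField K] (h2 : StSBY) (f : ℤ[X]) (N D : ℕ)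
    (g : (𝓞 K)[X]) (hN : 1 ≤ N)
    (h : (f.map (algebraMap ℤ (𝓞 K))).scaleRoots (D : 𝓞 K) ∣ expand (𝓞 K) N g)
    (u : ℕ → ℤ) (hu : Rec (RingHom.id ℤ) f u) (q : ℕ) :
    Pd.Sol g (fun n => (D : 𝓞 K) ^ (q + N * n) * ((u (q + N * n) : ℤ) : 𝓞 K)) := by
  have hu1 : Pd.Sol f u := hu
  have hu2 : Pd.Sol (f.map (algebraMap ℤ (𝓞 K)))
      (fun n => algebraMap ℤ (𝓞 K) (u n)) := hu1.map (algebraMap ℤ (𝓞 K))
  have hu3 := hu2.scale (D : 𝓞 K)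
  exact h2 (𝓞 K) _ _ N q _ hN h hu3

/-- a common height for finitely many towers over a power -/
theorem tower (s a : ℕ) (hh : Fin s → ℕ) : ∃ h : ℕ, ∀ m : ℕ, m ^ a ≤ Rk.tow h m ∧
    ∀ β, Rk.tow (hh β) (m ^ a) ≤ Rk.tow h m := by
  have h1 : Rk.Elem (fun m => m ^ a) := Rk.Elem.id.pow (Rk.Elem.const a)
  obtain ⟨k, hk⟩ := h1
  have h2 : ∀ β, ∃ l, ∀ m, Rk.tow (hh β) (m ^ a) ≤ Rk.tow l m := by
    intro β
    have h3 : Rk.Elem (Rk.tow (hh β)) := ⟨hh β, fun _ => le_rfl⟩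
    exact h3.comp ⟨k, hk⟩
  choose l hl using h2
  refine ⟨k + ∑ β, l β, fun m => ⟨(hk m).trans (Rk.tow_mono_left (by omega) m), fun β => ?_⟩⟩
  refine (hl β m).trans (Rk.tow_mono_left ?_ m)
  have : l β ≤ ∑ β, l β := single_le_sum (f := l) (fun _ _ => Nat.zero_le _) (mem_univ β)
  omega

end TTNZ

theorem prTNZ (hTBH : StTBH) (hTZB : StTZB) (hTKZ : StTKZ) (hHDV : StHDV) (hHB1 : StHB1)
    (hSBY : StSBY) : StTNZ := by
  classical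
  intro F e hF hd h0 hW hTame
  obtain ⟨K, _, _, N₁, D, r, s, kk, bl, θ, P, hBk⟩ := hTBH F e hF hd h0 hW hTame
  obtain ⟨T₁, c, hz⟩ := hTZB K e N₁ D r s kk bl θ P F hBk
  have hN₁ := hBk.hN
  have hD := hBk.hD
  have hK : ∀ β : Fin s, ∃ M h : ℕ, 1 ≤ M ∧ ∀ y : ℕ → 𝓞 K, Pd.Sol (fb bl θ β) y →
      ∀ Y : ℕ, (∀ (φ : K →+* ℂ), ∀ l < r, ‖res φ (y l)‖ ≤ Y) →
      ∀ n, Rk.tow h Y < n → y n = 0 → ∀ i, y (n % M + M * i) = 0 := by
    intro β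
    refine hTKZ K r θ hBk.hθ hBk.spl (univ.filter (fun j => bl j = β)) ?_
    have h1 := hBk.tame β
    have h2 : {x : K | ∃ j ∈ univ.filter (fun j => bl j = β), x = algebraMap (𝓞 K) K (θ j)} =
        {x : K | ∃ j, bl j = β ∧ x = algebraMap (𝓞 K) K (θ j)} := by
      ext x
      simp only [mem_filter, mem_univ, true_and, Set.mem_setOf_eq]
    rw [h2]
    exact h1
  choose M hh hM1 hM using hK
  obtain ⟨MM, hMM⟩ : ∃ MM : ℕ, MM = ∏ β, M β := ⟨_, rfl⟩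
  have hMM1 : 1 ≤ MM := by
    rw [hMM]
    exact Nat.one_le_iff_ne_zero.2 (prod_ne_zero_iff.2 fun β _ => by have := hM1 β; omega)
  have hMd : ∀ β, M β ∣ MM := fun β => by
    rw [hMM]
    exact dvd_prod_of_mem M (mem_univ β)
  set L := N₁ + N₁ * ((∑ β, kk β) * r) with hL
  obtain ⟨T₂, s', hT₂, hs⟩ := HNR.grow_h hHB1 F hF e L
  obtain ⟨h, hh1⟩ := TTNZ.tower s (2 * ((2 + s') * c)) hh
  refine ⟨N₁ * MM, T₂ + D ^ L + T₁ + 2, h, Nat.mul_pos hN₁ hMM1, ?_⟩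
  intro x y hxy ht u hu q hq
  refine or_iff_not_imp_left.2 fun hne B hBu n hn hun => hne ?_
  obtain ⟨t, htdef⟩ : ∃ t : ℕ, t = mx x y := ⟨_, rfl⟩
  obtain ⟨hb0, hbL⟩ := hs x y (by omega) u hu B hBu
  have hzz := hz x y hxy (by omega)
  rw [← htdef] at ht hn hbL hzz
  have hBpos : 1 ≤ B := by
    rcases Nat.eq_zero_or_pos B with h | h
    · exact absurd (fun n => hb0 _ h) hne
    · exact h
  have hT1 : 1 ≤ t := by omega
  have hTr : (1 : ℝ) ≤ (t : ℝ) := by exact_mod_cast hT1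
  obtain ⟨q₁, q₂, hq₁, hqq⟩ : ∃ q₁ q₂ : ℕ, q₁ < N₁ ∧ q = q₁ + N₁ * q₂ :=
    ⟨q % N₁, q / N₁, Nat.mod_lt _ (by omega), (Nat.mod_add_div q N₁).symm⟩
  have hidx : ∀ n', q₁ + N₁ * (q₂ + MM * n') = q + N₁ * MM * n' := by
    intro n'
    rw [hqq]
    ring
  have hsol := TTNZ.sub_sol hSBY (hsp e F x y) N₁ D
    (∏ j, (hsp (e * N₁) (P (bl j)) (x : 𝓞 K) (y : 𝓞 K)).scaleRoots (θ j)) hN₁
    (TTNZ.hsp_dvd hHDV hHB1 F e hF hW N₁ D r s hN₁ bl θ P hBk.monic hBk.wt hBk.dvd x y) u hu q₁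
  obtain ⟨δ, w, hδ, hw, hwz, hBw⟩ := hzz _ hsol
  have hDK : (D : 𝓞 K) ≠ 0 := by
    have : D ≠ 0 := by omega
    exact_mod_cast this
  have hDL : D ^ L ≤ t := by omega
  have hDL1 : 1 ≤ D ^ L := Nat.one_le_pow _ _ hD
  set B₁ : ℝ := ((D ^ L * (t ^ s' * B) : ℕ) : ℝ) with hB₁
  have hB₁1 : 1 ≤ B₁ := by
    rw [hB₁]
    have h9 : 1 ≤ t ^ s' := Nat.one_le_pow _ _ hT1
    have : 1 ≤ D ^ L * (t ^ s' * B) := Nat.mul_pos hDL1 (Nat.mul_pos h9 hBpos)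
    exact_mod_cast this
  have hzb : ∀ (φ : K →+* ℂ), ∀ n < (∑ β, kk β) * r,
      ‖res φ ((D : 𝓞 K) ^ (q₁ + N₁ * n) * ((u (q₁ + N₁ * n) : ℤ) : 𝓞 K))‖ ≤ B₁ := by
    intro φ j hj
    have hjL : q₁ + N₁ * j ≤ L := by
      have : N₁ * j ≤ N₁ * ((∑ β, kk β) * r) := Nat.mul_le_mul_left _ hj.le
      omega
    have h9 := hbL (q₁ + N₁ * j) hjL
    rw [map_mul, map_pow, map_natCast, map_intCast, norm_mul, norm_pow, Complex.norm_natCast,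
      Complex.norm_intCast, hB₁]
    have h10 : |((u (q₁ + N₁ * j) : ℤ) : ℝ)| = ((u (q₁ + N₁ * j)).natAbs : ℝ) := by
      rw [Nat.cast_natAbs, Int.cast_abs]
    rw [h10]
    have h11 : D ^ (q₁ + N₁ * j) * (u (q₁ + N₁ * j)).natAbs ≤ D ^ L * (t ^ s' * B) :=
      Nat.mul_le_mul (Nat.pow_le_pow_right hD hjL) h9
    exact_mod_cast h11
  obtain ⟨hwB, hwn⟩ := hBw B₁ hB₁1 hzb
  obtain ⟨Y, hY⟩ : ∃ Y : ℕ, Y = (B + t) ^ (2 * ((2 + s') * c)) := ⟨_, rfl⟩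
  have hYb : (B₁ * (t : ℝ)) ^ c ≤ (Y : ℝ) := by
    have h1 : D ^ L * (t ^ s' * B) * t ≤ (B * t) ^ (2 + s') := by
      calc D ^ L * (t ^ s' * B) * t ≤ t * (t ^ s' * B) * t := by gcongr
        _ = B * t ^ (2 + s') := by ring
        _ ≤ B ^ (2 + s') * t ^ (2 + s') :=
          Nat.mul_le_mul_right _ (Nat.le_self_pow (by omega) B)
        _ = (B * t) ^ (2 + s') := (mul_pow _ _ _).symm
    have h2 : B * t ≤ (B + t) ^ 2 := by nlinarith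
    have h3 : (D ^ L * (t ^ s' * B) * t) ^ c ≤ Y := by
      calc (D ^ L * (t ^ s' * B) * t) ^ c ≤ ((B * t) ^ (2 + s')) ^ c := Nat.pow_le_pow_left h1 c
        _ ≤ (((B + t) ^ 2) ^ (2 + s')) ^ c :=
          Nat.pow_le_pow_left (Nat.pow_le_pow_left h2 _) c
        _ = Y := by rw [hY, ← pow_mul, ← pow_mul]
    rw [hB₁]
    exact_mod_cast h3
  obtain ⟨hhY, hhβ⟩ := hh1 (B + t)
  rw [← hY] at hhY hhβ
  obtain ⟨n', hn'⟩ : ∃ n' : ℕ, n' = q₂ + MM * n := ⟨_, rfl⟩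
  have hnn' : n ≤ n' := by
    have : 1 * n ≤ MM * n := Nat.mul_le_mul_right _ hMM1
    omega
  have hYn : Y < n' := by omega
  have hpow : (B₁ * (t : ℝ)) ^ c < (t : ℝ) ^ n' := by
    have h1 : n' < t ^ n' :=
      Nat.lt_pow_self (by omega)
    have h2 : Y < t ^ n' := by omega
    have h3 : (Y : ℝ) < (t : ℝ) ^ n' := by exact_mod_cast h2
    linarith
  have hwn' := hwn n' hpow (by
    show (D : 𝓞 K) ^ (q₁ + N₁ * n') * ((u (q₁ + N₁ * n') : ℤ) : 𝓞 K) = 0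
    rw [hn', hidx, hun]
    simp)
  have hw0 : ∀ β, ∀ i < kk β, ∀ n'', w β i (q₂ + MM * n'') = 0 := by
    intro β i hi n''
    have h1 := hM β (w β i) (hw β i) Y (fun φ l hl => (hwB φ β i l hl).trans hYb) n'
      (by have := hhβ β; omega) (hwn' β i hi)
    obtain ⟨b, hb⟩ := hMd β
    have h2 : n' % M β = (q₂ + MM * n'') % M β := by
      rw [hn', hb, mul_assoc, mul_assoc, Nat.add_mul_mod_self_left, Nat.add_mul_mod_self_left]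
    have h3 := h1 ((q₂ + MM * n'') / M β)
    rw [h2, Nat.mod_add_div] at h3
    exact h3
  intro n''
  have h6 := hwz (q₂ + MM * n'')
  rw [sum_eq_zero (fun β _ => sum_eq_zero fun i hi => by
    rw [hw0 β i (mem_range.1 hi) n'', mul_zero])] at h6
  have h7 := (mul_eq_zero.1 h6).resolve_left hδ
  have h8 := (mul_eq_zero.1 h7).resolve_left (pow_ne_zero _ hDK)
  rw [hidx] at h8
  exact_mod_cast h8

end Pool.Agent.Work.MP_8d13b5_lc.Fm
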