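import Pool.Agent.Work.MP_8d13b5_lc.Fm.StmtsTame

set_option autoImplicit false

/-! Item TOM of the block TAME: from the roots in `Om` to the constants in `Ab`. -/

namespace Pool.Agent.Work.MP_8d13b5_lc.Fm

open Polynomial NumberField Finset Module

namespace TTOM

/-- the natural map from `ℤ[t]` to `Zb[t]` -/
noncomputable def nu : ℤ[X] →+* Zb[X] := mapRingHom (algebraMap ℤ Zb)

theorem algZ_inj : Function.Injective (algebraMap ℤ Zb) := by
  have h : Function.Injective (algebraMap ℤ Ab) := (algebraMap ℤ Ab).injective_int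
  intro x y hxy
  refine h ?_
  have h1 := congrArg (algebraMap Zb Ab) hxy
  rw [← IsScalarTower.algebraMap_apply ℤ Zb Ab, ← IsScalarTower.algebraMap_apply ℤ Zb Ab] at h1
  exact h1

theorem nu_inj : Function.Injective nu := Polynomial.map_injective _ algZ_inj

/-- the map from `ℤ[t]` to the fraction field of `Zb[t]` -/
noncomputable def psi : ℤ[X] →+* FractionRing Zb[X] :=
  (algebraMap Zb[X] (FractionRing Zb[X])).comp nu

theorem psi_inj : Function.Injective psi :=
  (IsFractionRing.injective Zb[X] (FractionRing Zb[X])).comp nu_inj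

/-- the map of the fraction fields -/
noncomputable def kap : FractionRing ℤ[X] →+* FractionRing Zb[X] := IsFractionRing.lift psi_inj

theorem kap_psi (x : ℤ[X]) : kap (algebraMap ℤ[X] (FractionRing ℤ[X]) x) = psi x :=
  IsFractionRing.lift_algebraMap psi_inj x

theorem exists_j : ∃ j : Om →+* Oz, ∀ x : ℤ[X],
    j (algebraMap ℤ[X] Om x) = algebraMap Zb[X] Oz (nu x) := by
  let f : FractionRing ℤ[X] →+* Oz := (algebraMap (FractionRing Zb[X]) Oz).comp kap
  let _ : Algebra (FractionRing ℤ[X]) Oz := f.toAlgebra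
  let g : Om →ₐ[FractionRing ℤ[X]] Oz := IsAlgClosed.lift
  refine ⟨g.toRingHom, fun x => ?_⟩
  have h1 : algebraMap ℤ[X] Om x = algebraMap (FractionRing ℤ[X]) Om
      (algebraMap ℤ[X] (FractionRing ℤ[X]) x) := IsScalarTower.algebraMap_apply _ _ _ _
  have h2 : algebraMap Zb[X] Oz (nu x) = algebraMap (FractionRing Zb[X]) Oz
      (algebraMap Zb[X] (FractionRing Zb[X]) (nu x)) := IsScalarTower.algebraMap_apply _ _ _ _
  rw [h1, h2]
  show g (algebraMap (FractionRing ℤ[X]) Om _) = _
  rw [g.commutes]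
  show (algebraMap (FractionRing Zb[X]) Oz) (kap _) = _
  rw [kap_psi]
  rfl

/-- the image of `F` -/
theorem map_eq (j : Om →+* Oz)
    (hj : ∀ x : ℤ[X], j (algebraMap ℤ[X] Om x) = algebraMap Zb[X] Oz (nu x)) (F : ℤ[X][X]) :
    (F.map (algebraMap ℤ[X] Om)).map j =
      F.map ((algebraMap Zb[X] Oz).comp (mapRingHom (algebraMap ℤ Zb))) := by
  rw [Polynomial.map_map]
  congr 1
  exact RingHom.ext fun x => hj x

/-- roots under `j` -/
theorem isRt_of (j : Om →+* Oz)
    (hj : ∀ x : ℤ[X], j (algebraMap ℤ[X] Om x) = algebraMap Zb[X] Oz (nu x)) (F : ℤ[X][X])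
    (a : Om) (ha : IsRz F (j a)) : IsRt F a := by
  unfold IsRz at ha
  rw [← map_eq j hj, eval_map, eval₂_at_apply, ← map_zero j] at ha
  exact j.injective ha

/-- a root of a polynomial over the small field, in the large field, comes from the small field -/
theorem lift_root {L L' : Type} [Field L] [Field L'] [IsAlgClosed L] (j : L →+* L') (P : L[X])
    (hP : P ≠ 0) (a : L') (ha : eval a (P.map j) = 0) : ∃ a₀ : L, j a₀ = a := by
  have hs : P.Splits := IsAlgClosed.splits _
  rw [hs.eq_prod_roots, Polynomial.map_mul, Polynomial.map_multiset_prod, Multiset.map_map,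
    eval_mul, eval_multiset_prod, Multiset.map_map, map_C, eval_C] at ha
  rcases mul_eq_zero.1 ha with h2 | h2
  · exact absurd ((map_eq_zero_iff j j.injective).1 h2) (leadingCoeff_ne_zero.2 hP)
  · rw [Multiset.prod_eq_zero_iff, Multiset.mem_map] at h2
    obtain ⟨b, -, h4⟩ := h2
    refine ⟨b, ?_⟩
    simp only [Function.comp_apply, Polynomial.map_sub, map_X, map_C, eval_sub, eval_X,
      eval_C] at h4
    exact (sub_eq_zero.1 h4).symm

theorem alg_int (c : Ab) : IsAlgebraic ℤ c := by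
  have h1 : IsAlgebraic ℚ c := (AlgebraicClosure.isAlgebraic ℚ).isAlgebraic c
  exact (IsFractionRing.isAlgebraic_iff ℤ ℚ Ab).2 h1

theorem exists_iota (j : Om →+* Oz) (κ : Ab →+* Oz) :
    ∃ ι : Ab →+* Om, ∀ c, j (ι c) = κ c := by
  have h : ∀ c : Ab, ∃ x : Om, j x = κ c := by
    intro c
    obtain ⟨P, hP, hPc⟩ := alg_int c
    refine lift_root j (P.map (Int.castRingHom Om)) ?_ (κ c) ?_
    · exact (Polynomial.map_ne_zero_iff (Int.castRingHom Om).injective_int).2 hP
    · rw [Polynomial.map_map, eval_map]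
      have h1 : κ (eval₂ (Int.castRingHom Ab) c P) = 0 := by
        have h2 : eval₂ (Int.castRingHom Ab) c P = 0 := by
          rw [← hPc, aeval_def]
          congr 1
        rw [h2, map_zero]
      rw [hom_eval₂] at h1
      rw [← h1]
      congr 1
      exact Subsingleton.elim _ _
  choose f hf using h
  refine ⟨{ toFun := f, map_one' := ?_, map_mul' := ?_, map_zero' := ?_, map_add' := ?_ }, hf⟩
  · exact j.injective (by rw [hf, map_one, map_one])
  · exact fun x y => j.injective (by rw [hf, map_mul, map_mul, hf, hf])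
  · exact j.injective (by rw [hf, map_zero, map_zero])
  · exact fun x y => j.injective (by rw [hf, map_add, map_add, hf, hf])

end TTOM

/-- **item TOM** -/
theorem prTOM (hTSL : StTSL) : StTOM := by
  intro F hF h0 hT κ b hb
  obtain ⟨t1, t2, -, t4⟩ := hTSL
  obtain ⟨j, hj⟩ := TTOM.exists_j
  obtain ⟨ι, hι⟩ := TTOM.exists_iota j κ
  have hFO : F.map (algebraMap ℤ[X] Om) ≠ 0 := (hF.map _).ne_zero
  obtain ⟨b₀, hb0⟩ := TTOM.lift_root j (F.map (algebraMap ℤ[X] Om)) hFO b (by
    rw [TTOM.map_eq j hj]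
    exact hb)
  have hR : IsRt F b₀ := TTOM.isRt_of j hj F b₀ (by rw [hb0]; exact hb)
  have hbne : b₀ ≠ 0 := by
    intro h1
    rw [h1, IsRt, ← coeff_zero_eq_eval_zero, coeff_map] at hR
    have h2 : Function.Injective (algebraMap ℤ[X] Om) := by
      rw [IsScalarTower.algebraMap_eq ℤ[X] (FractionRing ℤ[X]) Om]
      exact (algebraMap (FractionRing ℤ[X]) Om).injective.comp
        (IsFractionRing.injective ℤ[X] (FractionRing ℤ[X]))
    exact h0 (h2 (by rw [hR, map_zero]))
  refine t1 Ab Om ι _ (t4 Om _ _ ?_ (t2 Om _ b₀⁻¹ (inv_ne_zero hbne) (hT b₀ hR)))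
  rintro _ ⟨c, hc, rfl⟩
  refine ⟨ι c * b₀, ⟨?_, ?_⟩, ?_⟩
  · refine TTOM.isRt_of j hj F _ ?_
    rw [map_mul, hι, hb0]
    exact hc
  · rw [mul_div_cancel_right₀ _ hbne]
    obtain ⟨P, hP, hPc⟩ := TTOM.alg_int c
    refine ⟨P, hP, ?_⟩
    have h1 := congrArg ι hPc
    rw [map_zero, aeval_def, hom_eval₂] at h1
    rw [aeval_def, ← h1]
    congr 1
    exact Subsingleton.elim _ _
  · exact mul_inv_cancel_right₀ hbne (ι c)

end Pool.Agent.Work.MP_8d13b5_lc.Fm
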