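import Pool.Agent.Work.MP_8d13b5_lc.Fm.StmtsTame

set_option autoImplicit false

/-! Block TAME, item TPL: every absolute value considered in `IsAb` which is not trivial on a number
field orders the elements in the same way as one of the places. -/

namespace Pool.Agent.Work.MP_8d13b5_lc.Fm

open Polynomial NumberField Finset Module

namespace TTPL

open IsDedekindDomain Height

variable {K : Type} [Field K]

/-- the valuation of a nonarchimedean absolute value -/
noncomputable def valOf (v : AbsoluteValue K ℝ) (h : IsNonarchimedean v) : Valuation K NNReal where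
  toFun x := ⟨v x, v.nonneg x⟩
  map_zero' := by
    apply NNReal.eq
    exact map_zero v
  map_one' := by
    apply NNReal.eq
    exact map_one v
  map_mul' x y := by
    apply NNReal.eq
    exact map_mul v x y
  map_add_le_max' x y := le_max_iff.2 (le_max_iff.1 (h x y))

theorem valOf_le_one {v : AbsoluteValue K ℝ} {h : IsNonarchimedean v} {x : K}
    (hx : valOf v h x ≤ 1) : v x ≤ 1 := hx

/-- a nonarchimedean absolute value is at most one on the integral elements -/
theorem le_one_of_integral {v : AbsoluteValue K ℝ} (h : IsNonarchimedean v) {x : K}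
    (hx : IsIntegral ℤ x) : v x ≤ 1 := by
  have h1 : IsIntegral (valOf v h).valuationSubring x := hx.tower_top
  obtain ⟨y, hy⟩ := IsIntegrallyClosed.isIntegral_iff.1 h1
  rw [← hy]
  exact valOf_le_one (h := h) y.2

theorem int_le_one {v : AbsoluteValue K ℝ} (h : IsNonarchimedean v) (x : 𝓞 K) :
    v (algebraMap (𝓞 K) K x) ≤ 1 := le_one_of_integral h (RingOfIntegers.isIntegral_coe x)

/-- the ideal of the integers of absolute value less than one -/
def idl (v : AbsoluteValue K ℝ) (h : IsNonarchimedean v) : Ideal (𝓞 K) where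
  carrier := {x | v (algebraMap (𝓞 K) K x) < 1}
  add_mem' := by
    intro a b ha hb
    show v (algebraMap (𝓞 K) K (a + b)) < 1
    rw [map_add]
    exact lt_of_le_of_lt (h _ _) (max_lt ha hb)
  zero_mem' := by
    show v (algebraMap (𝓞 K) K 0) < 1
    rw [map_zero, map_zero]
    exact one_pos
  smul_mem' := by
    intro c x hx
    show v (algebraMap (𝓞 K) K (c • x)) < 1
    rw [smul_eq_mul, map_mul, map_mul]
    exact lt_of_le_of_lt (mul_le_of_le_one_left (v.nonneg _) (int_le_one h c)) hx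

theorem mem_idl {v : AbsoluteValue K ℝ} {h : IsNonarchimedean v} {x : 𝓞 K} :
    x ∈ idl v h ↔ v (algebraMap (𝓞 K) K x) < 1 := Iff.rfl

theorem not_mem_idl {v : AbsoluteValue K ℝ} {h : IsNonarchimedean v} {x : 𝓞 K}
    (hx : x ∉ idl v h) : v (algebraMap (𝓞 K) K x) = 1 :=
  le_antisymm (int_le_one h x) (not_lt.1 fun h1 => hx (mem_idl.2 h1))

theorem idl_prime (v : AbsoluteValue K ℝ) (h : IsNonarchimedean v) : (idl v h).IsPrime := by
  refine ⟨?_, ?_⟩
  · rw [Ne, Ideal.eq_top_iff_one, mem_idl]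
    intro h1
    rw [map_one, map_one] at h1
    exact lt_irrefl _ h1
  · intro x y hxy
    by_contra hcon
    rw [not_or] at hcon
    rw [mem_idl, map_mul, map_mul, not_mem_idl hcon.1, not_mem_idl hcon.2, mul_one] at hxy
    exact lt_irrefl _ hxy

theorem idl_ne_bot [NumberField K] (v : AbsoluteValue K ℝ) (h : IsNonarchimedean v)
    (hnt : ∃ x, x ≠ 0 ∧ v x ≠ 1) : idl v h ≠ ⊥ := by
  intro hbot
  obtain ⟨x, hx0, hx1⟩ := hnt
  have hone : ∀ a : 𝓞 K, a ≠ 0 → v (algebraMap (𝓞 K) K a) = 1 := by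
    intro a ha
    refine not_mem_idl (h := h) fun h1 => ha ?_
    rw [hbot] at h1
    exact Ideal.mem_bot.1 h1
  obtain ⟨a, b, hb, hab⟩ := IsFractionRing.div_surjective (A := 𝓞 K) x
  have hb0 : b ≠ 0 := nonZeroDivisors.ne_zero hb
  have ha0 : a ≠ 0 := by
    rintro rfl
    apply hx0
    rw [← hab, map_zero, zero_div]
  apply hx1
  rw [← hab, map_div₀, hone a ha0, hone b hb0, div_one]

theorem lt_of_lt_one (v w : AbsoluteValue K ℝ) (h : ∀ x, v x < 1 ↔ w x < 1) (x y : K) :
    v x < v y ↔ w x < w y := by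
  by_cases hy : y = 0
  · subst hy
    rw [map_zero, map_zero]
    exact iff_of_false (not_lt.2 (v.nonneg x)) (not_lt.2 (w.nonneg x))
  · have h1 := h (x / y)
    rw [map_div₀, map_div₀, div_lt_one (v.pos hy), div_lt_one (w.pos hy)] at h1
    exact h1

section

variable [NumberField K]

/-- the prime of `v` -/
def pr (v : AbsoluteValue K ℝ) (h : IsNonarchimedean v) (hnt : ∃ x, x ≠ 0 ∧ v x ≠ 1) :
    HeightOneSpectrum (𝓞 K) := ⟨idl v h, idl_prime v h, idl_ne_bot v h hnt⟩

theorem pl_eq (p : HeightOneSpectrum (𝓞 K)) (x : K) :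
    place (FinitePlace.embedding p) x = ‖FinitePlace.embedding p x‖ := rfl

theorem val_le_one {p : HeightOneSpectrum (𝓞 K)} {x : K}
    (hx : place (FinitePlace.embedding p) x ≤ 1) : p.valuation K x ≤ 1 := by
  rw [pl_eq, FinitePlace.norm_embedding'] at hx
  have h1 : (1 : ℝ) =
      ((WithZeroMulInt.toNNReal (HeightOneSpectrum.absNorm_ne_zero p) 1 : NNReal) : ℝ) := by
    rw [map_one, NNReal.coe_one]
  rw [h1, NNReal.coe_le_coe] at hx
  exact (WithZeroMulInt.toNNReal_strictMono
    (HeightOneSpectrum.one_lt_absNorm_nnreal p)).le_iff_le.1 hx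

theorem key_le (v : AbsoluteValue K ℝ) (h : IsNonarchimedean v) (hnt : ∃ x, x ≠ 0 ∧ v x ≠ 1)
    (x : K) (hx : place (FinitePlace.embedding (pr v h hnt)) x ≤ 1) : v x ≤ 1 := by
  obtain ⟨n, d, hnd⟩ := (pr v h hnt).exists_primeCompl_mul_eq_of_integer x (val_le_one hx)
  have hd : v (algebraMap (𝓞 K) K d) = 1 := not_mem_idl (h := h) d.2
  have h1 : v x * 1 = v (algebraMap (𝓞 K) K n) := by
    rw [← hd, ← map_mul, hnd]
  rw [← mul_one (v x), h1]
  exact int_le_one h n

theorem key_lt (v : AbsoluteValue K ℝ) (h : IsNonarchimedean v) (hnt : ∃ x, x ≠ 0 ∧ v x ≠ 1)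
    (x : K) (hx : place (FinitePlace.embedding (pr v h hnt)) x < 1) : v x < 1 := by
  obtain ⟨n, d, hnd⟩ := (pr v h hnt).exists_primeCompl_mul_eq_of_integer x (val_le_one hx.le)
  have hd : v (algebraMap (𝓞 K) K d) = 1 := not_mem_idl (h := h) d.2
  have h1 : v x * 1 = v (algebraMap (𝓞 K) K n) := by
    rw [← hd, ← map_mul, hnd]
  have hd' : place (FinitePlace.embedding (pr v h hnt)) (algebraMap (𝓞 K) K d) = 1 := by
    rw [pl_eq, FinitePlace.norm_eq_one_iff_notMem]
    exact d.2
  have h2 : place (FinitePlace.embedding (pr v h hnt)) (algebraMap (𝓞 K) K n) < 1 := by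
    rw [← hnd, map_mul, hd', mul_one]
    exact hx
  rw [pl_eq, FinitePlace.norm_lt_one_iff_mem] at h2
  rw [← mul_one (v x), h1]
  exact h2

theorem key_iff (v : AbsoluteValue K ℝ) (h : IsNonarchimedean v) (hnt : ∃ x, x ≠ 0 ∧ v x ≠ 1)
    (x : K) : v x < 1 ↔ place (FinitePlace.embedding (pr v h hnt)) x < 1 := by
  refine ⟨fun hx => ?_, key_lt v h hnt x⟩
  by_contra hcon
  rw [not_lt] at hcon
  have hx0 : x ≠ 0 := by
    rintro rfl
    rw [map_zero] at hcon
    exact absurd hcon (not_le.2 one_pos)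
  have h1 : place (FinitePlace.embedding (pr v h hnt)) x⁻¹ ≤ 1 := by
    rw [map_inv₀]
    exact inv_le_one_of_one_le₀ hcon
  have h2 := key_le v h hnt x⁻¹ h1
  rw [map_inv₀] at h2
  exact absurd h2 (not_le.2 ((one_lt_inv₀ (v.pos hx0)).2 hx))

end

end TTPL

/-- TPL -/
theorem prTPL : StTPL := by
  intro K _ _ v hv hnt
  rcases hv with h | ⟨φ, hφ⟩
  · exact ⟨place (FinitePlace.embedding (TTPL.pr v h hnt)), Or.inr ⟨TTPL.pr v h hnt, rfl⟩,
      TTPL.lt_of_lt_one v _ (TTPL.key_iff v h hnt)⟩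
  · refine ⟨place φ, Or.inl ?_, fun x y => ?_⟩
    · show place φ ∈ NumberField.multisetInfinitePlace K
      rw [NumberField.mem_multisetInfinitePlace]
      exact ⟨φ, rfl⟩
    · rw [hφ x, hφ y]
      exact Iff.rfl

end Pool.Agent.Work.MP_8d13b5_lc.Fm
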