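import Pool.Agent.Work.MP_8d13b5_lc.Fm.StmtsTame
import Pool.Agent.Work.MP_8d13b5_lc.Bd.B04

set_option autoImplicit false

/-! Block TAME, item TPT: a good place for a tame set. -/

namespace Pool.Agent.Work.MP_8d13b5_lc.Fm

open Polynomial NumberField Finset Module

namespace TTPT

/-- rank one: two quotients are dependent -/
theorem rank_one {L : Type} [Field L] (S : Set L) (h : RkS 1 S) (x y z w : L) (hx : x ∈ S)
    (hy : y ∈ S) (hz : z ∈ S) (hw : w ∈ S) :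
    ∃ a b : ℤ, (a ≠ 0 ∨ b ≠ 0) ∧ (x / y) ^ a = (z / w) ^ b := by
  obtain ⟨e, he, h1⟩ := h ![x, z] ![y, w] (by
    intro i
    fin_cases i
    · exact ⟨hx, hy⟩
    · exact ⟨hz, hw⟩)
  rw [Fin.prod_univ_two] at h1
  have h2 : (x / y) ^ e 0 * (z / w) ^ e 1 = 1 := h1
  refine ⟨e 0, -e 1, ?_, ?_⟩
  · by_contra hcon
    push Not at hcon
    apply he
    funext i
    fin_cases i
    · exact hcon.1
    · exact neg_eq_zero.1 hcon.2
  · rw [zpow_neg]
    exact eq_inv_of_mul_eq_one_left h2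

/-- rank two and a third quotient of absolute value different from one -/
theorem rank_two {L : Type} [Field L] (S : Set L) (h : RkS 2 S) (v : AbsoluteValue L ℝ)
    (μ ν x y z w : L) (hμ : μ ∈ S) (hν : ν ∈ S) (hx : x ∈ S) (hy : y ∈ S) (hz : z ∈ S)
    (hw : w ∈ S) (hxy : v (x / y) = 1) (hzw : v (z / w) = 1) (hv : v (μ / ν) ≠ 1) :
    ∃ a b : ℤ, (a ≠ 0 ∨ b ≠ 0) ∧ (x / y) ^ a = (z / w) ^ b := by
  obtain ⟨e, he, h1⟩ := h ![x, z, μ] ![y, w, ν] (by
    intro i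
    fin_cases i
    · exact ⟨hx, hy⟩
    · exact ⟨hz, hw⟩
    · exact ⟨hμ, hν⟩)
  rw [Fin.prod_univ_three] at h1
  have h2 : (x / y) ^ e 0 * (z / w) ^ e 1 * (μ / ν) ^ e 2 = 1 := h1
  have h3 : v (μ / ν) ^ e 2 = 1 := by
    have h4 := congrArg v h2
    rw [map_mul, map_mul, map_zpow₀, map_zpow₀, map_zpow₀, hxy, hzw, one_zpow, one_zpow, one_mul,
      one_mul, map_one] at h4
    exact h4
  have h5 : e 2 = 0 := (zpow_eq_one_iff_right₀ (v.nonneg _) hv).1 h3
  rw [h5, zpow_zero, mul_one] at h2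
  refine ⟨e 0, -e 1, ?_, ?_⟩
  · by_contra hcon
    push Not at hcon
    apply he
    funext i
    fin_cases i
    · exact hcon.1
    · exact neg_eq_zero.1 hcon.2
    · exact h5
  · rw [zpow_neg]
    exact eq_inv_of_mul_eq_one_left h2

end TTPT

open TTPT in
theorem prTPT (hTPL : StTPL) : StTPT := by
  intro K _ _ T hT0 hnt hS
  obtain ⟨μ, hμ, ν, hν, hroot⟩ := hnt
  have hμ0 := hT0 μ hμ
  have hν0 := hT0 ν hν
  obtain ⟨v₀, hv₀, hne⟩ := Rk.exists_place_ne_one (μ / ν) (div_ne_zero hμ0 hν0) hroot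
  have hne' : v₀ μ ≠ v₀ ν := by
    intro h
    apply hne
    rw [map_div₀, h, div_self (v₀.ne_zero hν0)]
  rcases hS (T : Set K) subset_rfl with h2 | ⟨v, hab, hlev⟩
  · refine ⟨v₀, hv₀, ⟨μ, hμ, ν, hν, hne'⟩, ?_⟩
    intro x hx y hy z hz w hw dx dy dz dw
    refine rank_two (T : Set K) h2 v₀ μ ν x y z w hμ hν hx hy hz hw ?_ ?_ hne
    · rw [map_div₀, le_antisymm (dy x hx) (dx y hy), div_self (v₀.ne_zero (hT0 y hy))]
    · rw [map_div₀, le_antisymm (dw z hz) (dz w hw), div_self (v₀.ne_zero (hT0 w hw))]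
  · by_cases heq : ∀ x ∈ T, ∀ y ∈ T, v x = v y
    · refine ⟨v₀, hv₀, ⟨μ, hμ, ν, hν, hne'⟩, ?_⟩
      intro x hx y hy z hz w hw _ _ _ _
      exact rank_one _ hlev x y z w ⟨hx, fun b hb => (heq b hb x hx).le⟩
        ⟨hy, fun b hb => (heq b hb y hy).le⟩ ⟨hz, fun b hb => (heq b hb z hz).le⟩
        ⟨hw, fun b hb => (heq b hb w hw).le⟩
    · push Not at heq
      obtain ⟨t, ht, t', ht', htt⟩ := heq
      have ht'0 := hT0 t' ht'
      obtain ⟨u, hu, huv⟩ := hTPL K v hab ⟨t / t', div_ne_zero (hT0 t ht) ht'0, by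
        intro h
        apply htt
        rw [map_div₀, div_eq_one_iff_eq (v.ne_zero ht'0)] at h
        exact h⟩
      have heqv : ∀ a b : K, u a ≤ u b → v a ≤ v b := by
        intro a b hab'
        rw [← not_lt]
        intro h
        have := (huv b a).1 h
        linarith
      refine ⟨u, hu, ⟨t, ht, t', ht', fun h => htt (le_antisymm (heqv t t' h.le)
        (heqv t' t h.ge))⟩, ?_⟩
      intro x hx y hy z hz w hw dx dy dz dw
      exact rank_one _ hlev x y z w ⟨hx, fun b hb => heqv _ _ (dx b hb)⟩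
        ⟨hy, fun b hb => heqv _ _ (dy b hb)⟩ ⟨hz, fun b hb => heqv _ _ (dz b hb)⟩
        ⟨hw, fun b hb => heqv _ _ (dw b hb)⟩

end Pool.Agent.Work.MP_8d13b5_lc.Fm
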