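import Pool.Agent.Work.MP_8d13b5_lc.Fm.StmtsTame

set_option autoImplicit false

/-! Item TSL of the block TAME: simple properties of tame sets. -/

namespace Pool.Agent.Work.MP_8d13b5_lc.Fm

open Polynomial NumberField Finset Module

namespace TTSL

theorem rkS_mono {L : Type} [Field L] {n : ℕ} {S S' : Set L} (hS : S ⊆ S') (h : RkS n S') :
    RkS n S := fun b c hbc => h b c (fun i => ⟨hS (hbc i).1, hS (hbc i).2⟩)

theorem rkS_of_image {L L' : Type} [Field L] [Field L'] (ψ : L →+* L') {n : ℕ} {S : Set L}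
    (h : RkS n (ψ '' S)) : RkS n S := by
  intro b c hbc
  obtain ⟨e, he, h1⟩ := h (fun i => ψ (b i)) (fun i => ψ (c i))
    (fun i => ⟨⟨b i, (hbc i).1, rfl⟩, ⟨c i, (hbc i).2, rfl⟩⟩)
  refine ⟨e, he, ψ.injective ?_⟩
  rw [map_prod, map_one, ← h1]
  refine Finset.prod_congr rfl (fun i _ => ?_)
  rw [map_zpow₀, map_div₀]

theorem rkS_image {L : Type} [Field L] {n : ℕ} {S : Set L} (f : L → L) (k : ℕ)
    (hf : ∀ x y, f x / f y = (x / y) ^ k) (h : RkS n S) : RkS n (f '' S) := by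
  intro b c hbc
  choose hb hc using hbc
  choose x hx hbx using hb
  choose y hy hcy using hc
  obtain ⟨e, he, h1⟩ := h x y (fun i => ⟨hx i, hy i⟩)
  refine ⟨e, he, ?_⟩
  have h2 : ∏ i, (b i / c i) ^ e i = (∏ i, (x i / y i) ^ e i) ^ k := by
    rw [← Finset.prod_pow]
    refine Finset.prod_congr rfl (fun i _ => ?_)
    rw [← hbx i, ← hcy i, hf, ← zpow_natCast, ← zpow_natCast, ← zpow_mul, ← zpow_mul, mul_comm]
  rw [h2, h1, one_pow]

theorem tameS_image {L : Type} [Field L] {S : Set L} (f : L → L) (k : ℕ)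
    (hf : ∀ x y, f x / f y = (x / y) ^ k)
    (hv : ∀ v : AbsoluteValue L ℝ, ∀ x y, v (f x) ≤ v (f y) → v x ≤ v y) (h : TameS S) :
    TameS (f '' S) := by
  intro S' hS'
  have himg : S' ⊆ f '' {x | x ∈ S ∧ f x ∈ S'} := by
    intro y hy
    obtain ⟨x, hx, rfl⟩ := hS' hy
    exact ⟨x, ⟨hx, hy⟩, rfl⟩
  rcases h {x | x ∈ S ∧ f x ∈ S'} (fun x hx => hx.1) with h | ⟨v, hab, h⟩
  · exact Or.inl (rkS_mono himg (rkS_image f k hf h))
  · refine Or.inr ⟨v, hab, rkS_mono ?_ (rkS_image f k hf h)⟩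
    rintro c ⟨hc, hcd⟩
    obtain ⟨x, hx, rfl⟩ := himg hc
    exact ⟨x, ⟨hx, fun b hb => hv v _ _ (hcd _ hb.2)⟩, rfl⟩

theorem tameS_mono {L : Type} [Field L] {S S' : Set L} (hS : S ⊆ S') (h : TameS S') :
    TameS S := fun T hT => h T (hT.trans hS)

theorem tameS_of_image {L L' : Type} [Field L] [Field L'] (ψ : L →+* L') {S : Set L}
    (h : TameS (ψ '' S)) : TameS S := by
  intro S' hS'
  rcases h (ψ '' S') (Set.image_mono hS') with h | ⟨v, hab, h⟩
  · exact Or.inl (rkS_of_image ψ h)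
  · refine Or.inr ⟨v.comp ψ.injective, ?_, ?_⟩
    · rcases hab with hab | ⟨φ, hφ⟩
      · left
        intro x y
        change v (ψ (x + y)) ≤ max (v (ψ x)) (v (ψ y))
        rw [map_add]
        exact hab _ _
      · right
        exact ⟨φ.comp ψ, fun x => hφ (ψ x)⟩
    · refine rkS_of_image ψ (rkS_mono ?_ h)
      rintro c ⟨x, ⟨hx, hx'⟩, rfl⟩
      refine ⟨⟨x, hx, rfl⟩, ?_⟩
      rintro b ⟨y, hy, rfl⟩
      exact hx' y hy

end TTSL

theorem prTSL : StTSL := by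
  refine ⟨fun L L' _ _ ψ S h => TTSL.tameS_of_image ψ h, ?_, ?_,
    fun L _ S S' hS h => TTSL.tameS_mono hS h⟩
  · intro L _ S a ha h
    refine TTSL.tameS_image (fun x => x * a) 1 (fun x y => ?_) (fun v x y hxy => ?_) h
    · rw [pow_one, mul_div_mul_right _ _ ha]
    · have h1 : v (x * a) ≤ v (y * a) := hxy
      rw [map_mul, map_mul] at h1
      exact le_of_mul_le_mul_right h1 (v.pos ha)
  · intro L _ S N hN h
    refine TTSL.tameS_image (fun x => x ^ N) N (fun x y => ?_) (fun v x y hxy => ?_) h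
    · rw [div_pow]
    · have h1 : v (x ^ N) ≤ v (y ^ N) := hxy
      rw [map_pow, map_pow] at h1
      exact le_of_pow_le_pow_left₀ (by omega) (v.nonneg y) h1

end Pool.Agent.Work.MP_8d13b5_lc.Fm
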