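import Pool.Agent.Work.MP_8d13b5_lc.Fm.StmtsTame

/-!
# MP_8d13b5_lc, block TAME, item TZB: the block coordinates of a solution and its zeros
-/

set_option autoImplicit false

namespace Pool.Agent.Work.MP_8d13b5_lc.Fm

open Polynomial NumberField Finset Module

namespace TTZB

variable {K : Type} [Field K] [NumberField K]

theorem pn_nonneg (φ : K →+* ℂ) (P : (𝓞 K)[X]) : 0 ≤ pn (res φ) P := by
  unfold pn
  exact sum_nonneg fun _ _ => norm_nonneg _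

/-- the bound for the coefficients of the specialised blocks -/
theorem coeff_bd (hHB1 : StHB1) (hHEV : StHEV) {e : ℕ} {P : (𝓞 K)[X][X]} (hm : P.Monic)
    (hW : Wt e P) {k σ : ℕ} (hk : P.natDegree = k) (hσ : e * k ≤ σ) {H T : ℝ} (hT : 1 ≤ T)
    (φ : K →+* ℂ) (hH : ∀ i < k + 1, pn (res φ) (P.coeff i) ≤ H) (hH1 : 1 ≤ H) (x y : 𝓞 K)
    (htt : tt φ x y = T) (i : ℕ) : ‖res φ ((hsp e P x y).coeff i)‖ ≤ H * T ^ σ := by
  obtain ⟨h1, h2, h3⟩ := hHB1.1 (𝓞 K) e P x y hm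
  have hT' : 1 ≤ T ^ σ := one_le_pow₀ hT
  rcases Nat.lt_or_ge k i with hi | hi
  · have h4 : (hsp e P x y).coeff i = 0 := coeff_eq_zero_of_natDegree_lt (by rw [h2, hk]; exact hi)
    rw [h4, map_zero, norm_zero]
    positivity
  · rw [h3 i (by rw [hk]; exact hi)]
    refine (hHEV.2.2.2 (𝓞 K) (res φ) _ (P.coeff i) x y (hW i)).trans ?_
    refine mul_le_mul (hH i (by omega)) ?_ (by positivity) (by linarith)
    have h4 : max ‖res φ x‖ ‖res φ y‖ = T := htt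
    rw [h4]
    refine pow_le_pow_right₀ hT ?_
    rw [hk]
    exact (Nat.mul_le_mul_left _ (Nat.sub_le _ _)).trans hσ

/-- `scaleRoots` commutes with finite products -/
theorem dvd_scale {s : ℕ} (g : Fin s → (𝓞 K)[X]) (β : Fin s) (a : 𝓞 K) :
    (∏ γ, g γ).scaleRoots a =
      (g β).scaleRoots a * (∏ γ ∈ univ.erase β, g γ).scaleRoots a := by
  rw [← mul_scaleRoots_of_noZeroDivisors, Finset.mul_prod_erase _ _ (mem_univ β)]

end TTZB

open TTZB in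
theorem prTZB (hHZR : StHZR) (hTLF : StTLF) (hTAD : StTAD) (hTCO : StTCO) (hHB1 : StHB1)
    (hHEV : StHEV) (hINT : StINT) : StTZB := by
  classical
  intro K _ _ e N D r s kk bl θ P F hB
  -- the rank
  have hpos : 1 ≤ ∑ β, kk β := by
    have h0 : kk (bl ⟨0, hB.hr⟩) ≤ ∑ β, kk β :=
      single_le_sum (f := fun β => kk β) (fun _ _ => Nat.zero_le _) (mem_univ _)
    exact (hB.pos _).trans h0
  obtain ⟨m, hm⟩ : ∃ m : ℕ, ∑ β, kk β = m + 1 := ⟨∑ β, kk β - 1, by omega⟩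
  set G : (𝓞 K)[X][X] := ∏ β, P β with hGdef
  set H₁ : ℝ := 1 + ∑ φ : K →+* ℂ, ∑ i ∈ range (m + 1), pn (res φ) (G.coeff i) with hH₁
  set H₂ : ℝ := 1 + ∑ φ : K →+* ℂ, ∑ β, ∑ i ∈ range (kk β + 1), pn (res φ) ((P β).coeff i)
    with hH₂
  have hH₂1 : 1 ≤ H₂ := by
    rw [hH₂]
    have : 0 ≤ ∑ φ : K →+* ℂ, ∑ β, ∑ i ∈ range (kk β + 1), pn (res φ) ((P β).coeff i) :=
      sum_nonneg fun φ _ => sum_nonneg fun β _ => sum_nonneg fun i _ => pn_nonneg φ _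
    linarith
  have hGE : IsCrE m (e * N) H₁ G := by
    refine ⟨⟨monic_prod_of_monic _ _ fun β _ => hB.monic β, ?_, ?_, hB.rat⟩, ?_, ?_, ?_⟩
    · rw [hGdef, natDegree_prod_of_monic _ _ fun β _ => hB.monic β, ← hm]
      exact sum_congr rfl fun β _ => hB.deg β
    · rw [hGdef, coeff_zero_prod, Finset.prod_ne_zero_iff]
      intro β _
      exact hB.ne β
    · rw [hH₁]
      have : 0 ≤ ∑ φ : K →+* ℂ, ∑ i ∈ range (m + 1), pn (res φ) (G.coeff i) :=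
        sum_nonneg fun φ _ => sum_nonneg fun i _ => pn_nonneg φ _
      linarith
    · exact (hHB1.2.2.2.2.2.2.2 (𝓞 K) (e * N) (Fin s) univ P 0 0 hB.monic hB.wt).1
    · intro φ i hi
      have h5 : pn (res φ) (G.coeff i) ≤ ∑ i ∈ range (m + 1), pn (res φ) (G.coeff i) :=
        single_le_sum (f := fun i => pn (res φ) (G.coeff i)) (fun _ _ => pn_nonneg φ _)
          (mem_range.2 (by omega))
      have h6 : ∑ i ∈ range (m + 1), pn (res φ) (G.coeff i) ≤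
          ∑ φ : K →+* ℂ, ∑ i ∈ range (m + 1), pn (res φ) (G.coeff i) :=
        single_le_sum (f := fun φ : K →+* ℂ => ∑ i ∈ range (m + 1), pn (res φ) (G.coeff i))
          (fun φ _ => sum_nonneg fun i _ => pn_nonneg φ _) (mem_univ φ)
      linarith
  have hPb : ∀ (φ : K →+* ℂ) (β : Fin s), ∀ i < kk β + 1, pn (res φ) ((P β).coeff i) ≤ H₂ := by
    intro φ β i hi
    have h5 : pn (res φ) ((P β).coeff i) ≤ ∑ i ∈ range (kk β + 1), pn (res φ) ((P β).coeff i) :=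
      single_le_sum (f := fun i => pn (res φ) ((P β).coeff i)) (fun _ _ => pn_nonneg φ _)
        (mem_range.2 hi)
    have h6 : ∑ i ∈ range (kk β + 1), pn (res φ) ((P β).coeff i) ≤
        ∑ β, ∑ i ∈ range (kk β + 1), pn (res φ) ((P β).coeff i) :=
      single_le_sum (f := fun β => ∑ i ∈ range (kk β + 1), pn (res φ) ((P β).coeff i))
        (fun β _ => sum_nonneg fun i _ => pn_nonneg φ _) (mem_univ β)
    have h7 : ∑ β, ∑ i ∈ range (kk β + 1), pn (res φ) ((P β).coeff i) ≤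
        ∑ φ : K →+* ℂ, ∑ β, ∑ i ∈ range (kk β + 1), pn (res φ) ((P β).coeff i) :=
      single_le_sum
        (f := fun φ : K →+* ℂ => ∑ β, ∑ i ∈ range (kk β + 1), pn (res φ) ((P β).coeff i))
        (fun φ _ => sum_nonneg fun β _ => sum_nonneg fun i _ => pn_nonneg φ _) (mem_univ φ)
    linarith
  obtain ⟨c₁, hc₁, hz⟩ := hHZR K m (e * N) r θ hB.hθ
  obtain ⟨C₀, s', hC₀, had⟩ := hTAD K r s kk bl θ
  obtain ⟨T₁, hco⟩ := hTCO K e N D r s kk bl θ P F hB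
  obtain ⟨D', hD'⟩ : ∃ D' : ℕ, D' = finrank ℚ K := ⟨_, rfl⟩
  have hD'1 : 1 ≤ D' := by
    rw [hD']
    exact finrank_pos
  obtain ⟨σ, hσ⟩ : ∃ σ : ℕ, σ = e * N * ∑ β, kk β := ⟨_, rfl⟩
  obtain ⟨c, hc⟩ : ∃ c : ℕ, c = (σ + 1) * s' + 1 + D' * c₁ := ⟨_, rfl⟩
  refine ⟨T₁ + 1 + ⌈(c₁ * H₁) ^ c₁⌉₊ + ⌈C₀ * H₂⌉₊, c, ?_⟩
  intro x y hxy ht z hzs
  obtain ⟨htt, hTT, hcop, -⟩ := hINT K x y
  rw [← hD'] at hTT
  obtain ⟨t, htdef⟩ : ∃ t : ℕ, t = mx x y := ⟨_, rfl⟩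
  rw [← htdef] at ht hTT ⊢
  have hT1 : 1 ≤ t := by omega
  have hTr : (1 : ℝ) ≤ (t : ℝ) := by exact_mod_cast hT1
  have hTT1 : (c₁ * H₁) ^ c₁ ≤ TT (x : 𝓞 K) (y : 𝓞 K) := by
    rw [hTT]
    calc (c₁ * H₁) ^ c₁ ≤ (⌈(c₁ * H₁) ^ c₁⌉₊ : ℝ) := Nat.le_ceil _
      _ ≤ (t : ℝ) := by exact_mod_cast (by omega : ⌈(c₁ * H₁) ^ c₁⌉₊ ≤ t)
      _ ≤ (t : ℝ) ^ D' := le_self_pow₀ hTr (by omega)
  have hCH : C₀ * H₂ ≤ (t : ℝ) := by
    calc C₀ * H₂ ≤ (⌈C₀ * H₂⌉₊ : ℝ) := Nat.le_ceil _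
      _ ≤ (t : ℝ) := by exact_mod_cast (by omega : ⌈C₀ * H₂⌉₊ ≤ t)
  have htt1 : ∀ φ : K →+* ℂ, 1 ≤ tt φ (x : 𝓞 K) (y : 𝓞 K) := by
    intro φ
    rw [htt φ, ← htdef]
    exact hTr
  -- the blocks
  set g : Fin s → (𝓞 K)[X] := fun β => hsp (e * N) (P β) (x : 𝓞 K) (y : 𝓞 K) with hg
  have hgm : ∀ β, (g β).Monic := fun β => (hHB1.1 (𝓞 K) (e * N) (P β) x y (hB.monic β)).1
  have hgd : ∀ β, (g β).natDegree = kk β := fun β => by
    rw [hg, (hHB1.1 (𝓞 K) (e * N) (P β) x y (hB.monic β)).2.1, hB.deg β]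
  have hgG : hsp (e * N) G (x : 𝓞 K) (y : 𝓞 K) = ∏ β, g β :=
    (hHB1.2.2.2.2.2.2.2 (𝓞 K) (e * N) (Fin s) univ P (x : 𝓞 K) (y : 𝓞 K) hB.monic hB.wt).2
  have hgc : ∀ β γ, β ≠ γ → IsCoprime ((g β).map (algebraMap (𝓞 K) K))
      ((g γ).map (algebraMap (𝓞 K) K)) := fun β γ hβγ => hco x y hxy (by omega) β γ hβγ
  have hYb : ∀ (φ : K →+* ℂ) β i, ‖res φ ((g β).coeff i)‖ ≤ H₂ * (t : ℝ) ^ σ := by
    intro φ β i
    refine coeff_bd hHB1 hHEV (hB.monic β) (hB.wt β) (hB.deg β) ?_ hTr φ (hPb φ β) hH₂1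
      (x : 𝓞 K) (y : 𝓞 K) (by rw [htt φ, ← htdef]) i
    rw [hσ]
    exact Nat.mul_le_mul_left _
      (single_le_sum (f := fun β => kk β) (fun _ _ => Nat.zero_le _) (mem_univ β))
  have hY1 : 1 ≤ H₂ * (t : ℝ) ^ σ := one_le_mul_of_one_le_of_one_le hH₂1 (one_le_pow₀ hTr)
  obtain ⟨huniq, hex⟩ := hz H₁ G hGE (x : 𝓞 K) (y : 𝓞 K) (hcop hxy) htt1 hTT1
  rw [hgG] at huniq hex
  have hUq : UqB kk bl θ g := by
    intro w hw hw0 β i hi
    obtain ⟨v, hv, hvw, hv0⟩ := hTLF K m r s kk bl θ g hgm hgd hm hgc w hw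
    have h1 : v = 0 := huniq v hv fun n => by rw [hvw n, hw0 n]
    funext n
    exact hv0 n (fun i => by rw [h1]; rfl) β i hi
  obtain ⟨δ, w, hδ, hw, hzw, hwB⟩ := had g (H₂ * (t : ℝ) ^ σ) hgm hgd hY1 hYb hUq z hzs
  refine ⟨δ, w, hδ, hw, hzw, ?_⟩
  intro B hB1 hzB
  have hBT : 1 ≤ B * (t : ℝ) := one_le_mul_of_one_le_of_one_le hB1 hTr
  have hTBT : (t : ℝ) ≤ B * t := le_mul_of_one_le_left (by linarith) hB1
  have hBBT : B ≤ B * (t : ℝ) := le_mul_of_one_le_right (by linarith) hTr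
  have hkr : ∑ j, kk (bl j) ≤ (∑ β, kk β) * r := by
    have h1 : ∑ j, kk (bl j) ≤ ∑ _j : Fin r, ∑ β, kk β :=
      sum_le_sum fun j _ =>
        single_le_sum (f := fun β => kk β) (fun _ _ => Nat.zero_le _) (mem_univ _)
    rw [sum_const, card_univ, Fintype.card_fin, smul_eq_mul, mul_comm] at h1
    exact h1
  constructor
  · intro φ β i l hl
    refine (hwB B (by linarith) (fun φ n hn => hzB φ n (lt_of_lt_of_le hn hkr)) φ β i l hl).trans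
      ?_
    have h2 : C₀ * (H₂ * (t : ℝ) ^ σ) ≤ (t : ℝ) ^ (σ + 1) := by
      rw [← mul_assoc, pow_succ, mul_comm ((t : ℝ) ^ σ) (t : ℝ)]
      exact mul_le_mul_of_nonneg_right hCH (by positivity)
    have h3 : 0 ≤ C₀ * (H₂ * (t : ℝ) ^ σ) := by positivity
    calc (C₀ * (H₂ * (t : ℝ) ^ σ)) ^ s' * B ≤ ((t : ℝ) ^ (σ + 1)) ^ s' * B :=
          mul_le_mul_of_nonneg_right (pow_le_pow_left₀ h3 h2 s') (by linarith)
      _ ≤ ((B * (t : ℝ)) ^ (σ + 1)) ^ s' * (B * t) := by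
          refine mul_le_mul ?_ hBBT (by linarith) (by positivity)
          exact pow_le_pow_left₀ (by positivity) (pow_le_pow_left₀ (by positivity) hTBT _) s'
      _ = (B * (t : ℝ)) ^ ((σ + 1) * s' + 1) := by rw [← pow_mul, pow_succ]
      _ ≤ (B * (t : ℝ)) ^ c := pow_le_pow_right₀ hBT (by omega)
  · intro n hn hzn β i hi
    -- `z` is a solution for the family `G`
    have hzG : Pd.Sol (∏ j, (∏ β, g β).scaleRoots (θ j)) z := by
      have h1 : ∏ j, (∏ β, g β).scaleRoots (θ j) =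
          (∏ j, (g (bl j)).scaleRoots (θ j)) *
            ∏ j, (∏ γ ∈ univ.erase (bl j), g γ).scaleRoots (θ j) := by
        rw [← prod_mul_distrib]
        exact prod_congr rfl fun j _ => dvd_scale g (bl j) (θ j)
      rw [h1]
      exact Pd.Sol.mul_right hzs _
    obtain ⟨δ₁, v₁, hδ₁, hv₁, hzv₁, hz₁⟩ := hex z hzG
    have hv₁0 : ∀ i, v₁ i n = 0 := by
      refine hz₁ B hB1 (fun φ k hk => hzB φ k (by rw [hm]; exact hk)) n ?_ hzn
      rw [hTT]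
      have e1 : B * (t : ℝ) ^ D' ≤ (B * t) ^ D' := by
        rw [mul_pow]
        exact mul_le_mul_of_nonneg_right (le_self_pow₀ hB1 (by omega)) (by positivity)
      calc (B * (t : ℝ) ^ D') ^ c₁ ≤ ((B * t) ^ D') ^ c₁ :=
            pow_le_pow_left₀ (by positivity) e1 c₁
        _ = (B * t) ^ (D' * c₁) := by rw [← pow_mul]
        _ ≤ (B * t) ^ c := pow_le_pow_right₀ hBT (by omega)
        _ < (t : ℝ) ^ n := hn
        _ ≤ ((t : ℝ) ^ D') ^ n :=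
            pow_le_pow_left₀ (by positivity) (le_self_pow₀ hTr (by omega)) n
    obtain ⟨v, hv, hvw, hv0⟩ := hTLF K m r s kk bl θ g hgm hgd hm hgc w hw
    have hcomp : (fun i n => δ₁ * v i n - δ * v₁ i n) = (0 : Fin (m + 1) → ℕ → 𝓞 K) := by
      refine huniq _ (fun i => ((hv i).smul δ₁).sub ((hv₁ i).smul δ)) fun n => ?_
      have h1 : ∑ i : Fin (m + 1), Pd.cf (∏ β, g β) n i * (δ₁ * v i n - δ * v₁ i n) =
          δ₁ * (∑ i : Fin (m + 1), Pd.cf (∏ β, g β) n i * v i n) -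
            δ * ∑ i : Fin (m + 1), Pd.cf (∏ β, g β) n i * v₁ i n := by
        rw [mul_sum, mul_sum, ← sum_sub_distrib]
        exact sum_congr rfl fun i _ => by ring
      rw [h1, hvw n, ← hzw n, ← hzv₁ n]
      ring
    have hvn : ∀ i, v i n = 0 := by
      intro i
      have h1 : δ₁ * v i n - δ * v₁ i n = 0 := congrFun (congrFun hcomp i) n
      rw [hv₁0 i, mul_zero, sub_zero] at h1
      exact (mul_eq_zero.1 h1).resolve_left hδ₁
    exact hv0 n hvn β i hi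

end Pool.Agent.Work.MP_8d13b5_lc.Fm
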