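import Pool.Agent.Work.MP_8d13b5_lc.Fm.All5
import Pool.Agent.Work.MP_8d13b5_lc.Fm.T_TSL
import Pool.Agent.Work.MP_8d13b5_lc.Fm.T_TPL
import Pool.Agent.Work.MP_8d13b5_lc.Fm.T_TPT
import Pool.Agent.Work.MP_8d13b5_lc.Fm.T_TOM
import Pool.Agent.Work.MP_8d13b5_lc.Fm.T_TBZ
import Pool.Agent.Work.MP_8d13b5_lc.Fm.T_TBH
import Pool.Agent.Work.MP_8d13b5_lc.Fm.T_TCR
import Pool.Agent.Work.MP_8d13b5_lc.Fm.T_TLF
import Pool.Agent.Work.MP_8d13b5_lc.Fm.T_TAD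
import Pool.Agent.Work.MP_8d13b5_lc.Fm.T_TCO
import Pool.Agent.Work.MP_8d13b5_lc.Fm.T_TZB
import Pool.Agent.Work.MP_8d13b5_lc.Fm.T_TEX
import Pool.Agent.Work.MP_8d13b5_lc.Fm.T_TKZ
import Pool.Agent.Work.MP_8d13b5_lc.Fm.T_TNZ
import Pool.Agent.Work.MP_8d13b5_lc.Fm.T_TDU

set_option autoImplicit false

/-! The statements of `StmtsTame`, proved. -/

namespace Pool.Agent.Work.MP_8d13b5_lc.Fm

theorem aTSL : StTSL := prTSL
theorem aTPL : StTPL := prTPL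
theorem aTPT : StTPT := prTPT aTPL
theorem aTOM : StTOM := prTOM aTSL
theorem aTBZ : StTBZ := prTBZ prWTG aTOM aTSL
theorem aTBH : StTBH := prTBH aTBZ prRSC aTSL
theorem aTCR : StTCR := prTCR
theorem aTLF : StTLF := prTLF aTCR
theorem aTAD : StTAD := prTAD prPRZ
theorem aTCO : StTCO := prTCO hHB1 hHNZ prINT
theorem aTZB : StTZB := prTZB hHZR aTLF aTAD aTCO hHB1 prHEV prINT
theorem aTEX : StTEX := prTEX
theorem aTKZ : StTKZ := prTKZ aTEX aTPT aTSL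
theorem aTNZ : StTNZ := prTNZ aTBH aTZB aTKZ hHDV hHB1 prSBY
theorem aTDU : StTDU := prTDU prDEC hHB1

end Pool.Agent.Work.MP_8d13b5_lc.Fm
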