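import Pool.Agent.Work.MP_8d13b5_lc.Fm.All5

set_option autoImplicit false

namespace Pool.Agent.Work.MP_8d13b5_lc.Fm.AllFamilies

open Pool.Agent.Work.MP_8d13b5_lc Pool.Agent.Work.MP_8d13b5_lc.Fm Polynomial Finset

/-- an algebraic closure of the field `ℚ(t)` (the fraction field of `ℤ[t]`) -/
abbrev Om : Type := AlgebraicClosure (FractionRing ℤ[X])

/-- The families. `F = X ^ d + F_(d-1)(t) X ^ (d-1) + ... + F_0(t)` is a polynomial in `X` whose
coefficients `F_i = F.coeff i` are integer polynomials in the parameter `t`, of degree at most `s` and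
with coefficients at most `H` in absolute value, `F_0 ≠ 0`. -/
structure Fam (d s H : ℕ) (F : ℤ[X][X]) : Prop where
  monic : F.Monic
  deg : F.natDegree = d
  pos : 1 ≤ d
  ne : F.coeff 0 ≠ 0
  one : 1 ≤ H
  dg : ∀ i < d, (F.coeff i).natDegree ≤ s
  ht : ∀ i < d, ∀ j, ((F.coeff i).coeff j).natAbs ≤ H

/-- the algebraic function `a` of `t` is a root of `F` -/
def IsRoot (F : ℤ[X][X]) (a : Om) : Prop := (F.map (algebraMap ℤ[X] Om)).eval a = 0

/-- No two roots of `F` have a constant quotient (algebraic over `ℚ`), except for roots of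
unity. (Multiple roots are allowed.) -/
def Free (F : ℤ[X][X]) : Prop :=
  ∀ a b : Om, IsRoot F a → IsRoot F b → IsAlgebraic ℤ (a / b) → ∃ N : ℕ, 1 ≤ N ∧ a ^ N = b ^ N

/-- The roots of `F` are simple. -/
def Simple (F : ℤ[X][X]) : Prop :=
  (F.map (algebraMap ℤ[X] (FractionRing ℤ[X]))).Separable

/-- the height of a rational number: the larger of the numerator and the denominator -/
def height (t : ℚ) : ℕ := max t.num.natAbs t.den

/-- `v` satisfies the recurrence with the characteristic polynomial `F(t, X)`: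
`v_(n+d) + F_(d-1)(t) v_(n+d-1) + ... + F_0(t) v_n = 0` -/
def Rec (F : ℤ[X][X]) (t : ℚ) (v : ℕ → ℚ) : Prop :=
  ∀ n, ∑ i ∈ range (F.natDegree + 1), aeval t (F.coeff i) * v (n + i) = 0

/-- `w` satisfies the recurrence with the characteristic polynomial `f` over the integers -/
def RecZ (f : ℤ[X]) (w : ℕ → ℤ) : Prop :=
  ∀ n, ∑ i ∈ range (f.natDegree + 1), f.coeff i * w (n + i) = 0

/-- `z_0, ..., z_(d-1)` are at most `B` in absolute value -/
def Bound (d B : ℕ) (z : ℕ → ℤ) : Prop := ∀ i < d, (z i).natAbs ≤ B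

/-- `v` is zero, or, for every bound `B` of the initial values `z`, the zeros of `v` are at most
`(B T) ^ c`, and all except fewer than `M` of them satisfy `T ^ n ≤ (B T) ^ c`. -/
def Zeros (d M c T : ℕ) (z : ℕ → ℤ) (v : ℕ → ℚ) : Prop :=
  (∀ n, v n = 0) ∨ ∀ B : ℕ, Bound d B z →
    (∀ n, (B * T) ^ c < n → v n ≠ 0) ∧
    ∃ S : Finset ℕ, S.card < M ∧ ∀ n, (B * T) ^ c < T ^ n → v n = 0 → n ∈ S

/-- the polynomial `X ^ d + ∑_(i < d) L_i(t) X ^ i`, `d = L.length`, where `L_i` is given by the list of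
its coefficients -/
noncomputable def pol (L : List (List ℤ)) : ℤ[X][X] :=
  X ^ L.length + ∑ i ∈ range L.length,
    C (∑ j ∈ range (L.getD i []).length, C ((L.getD i []).getD j 0) * X ^ j) * X ^ i

section proof

variable {d s H : ℕ} {F : ℤ[X][X]}

theorem Fam.wt (hF : Fam d s H F) : Wt s F := by
  intro i
  rw [hF.deg]
  rcases lt_trichotomy i d with h | h | h
  · refine (hF.dg i h).trans ?_
    exact Nat.le_mul_of_pos_right _ (by omega)
  · subst h
    have h1 : F.coeff i = 1 := by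
      have := hF.monic.coeff_natDegree
      rwa [hF.deg] at this
    rw [h1, natDegree_one]
    exact Nat.zero_le _
  · rw [coeff_eq_zero_of_natDegree_lt (by rw [hF.deg]; exact h), natDegree_zero]
    exact Nat.zero_le _

theorem Fam.isE (hF : Fam d s H F) : IsE d s H F := by
  refine ⟨hF.monic, hF.deg, hF.ne, hF.one, hF.wt, fun i j => ?_⟩
  rcases lt_trichotomy i d with h | h | h
  · exact hF.ht i h j
  · subst h
    have h1 : F.coeff i = 1 := by
      have := hF.monic.coeff_natDegree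
      rwa [hF.deg] at this
    rw [h1, coeff_one]
    have := hF.one
    split_ifs
    · simpa using this
    · simp
  · have h1 : F.coeff i = 0 := coeff_eq_zero_of_natDegree_lt (by rw [hF.deg]; exact h)
    rw [h1]
    simp

theorem coprime (t : ℚ) : IsCoprime t.num (t.den : ℤ) := by
  rw [Int.isCoprime_iff_gcd_eq_one]
  have := t.reduced
  rw [Nat.Coprime] at this
  rw [Int.gcd_eq_natAbs, Int.natAbs_natCast]
  exact this

theorem mx_eq (t : ℚ) : mx t.num (t.den : ℤ) = height t := by
  unfold mx height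
  rw [Int.natAbs_natCast]

theorem height_pos (t : ℚ) : 1 ≤ height t := t.pos.trans_le (le_max_right _ _)

/-- the integer sequence of a member of the family -/
theorem lift (hF : Fam d s H F) (t : ℚ) (z : ℕ → ℤ) (v : ℕ → ℚ) (hz : ∀ i < d, v i = z i)
    (hv : Rec F t v) : ∃ u : ℕ → ℤ, Fm.Rec (RingHom.id ℤ) (hsp s F t.num t.den) u ∧
      (∀ i < d, u i = ((t.den : ℤ) ^ s) ^ i * z i) ∧
      ∀ n, (u n : ℚ) = ((t.den : ℚ) ^ s) ^ n * v n := by
  obtain ⟨h1, h2, -⟩ := hHB1.1 ℤ s F t.num t.den hF.monic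
  rw [hF.deg] at h2
  set f := hsp s F t.num (t.den : ℤ) with hf
  have hd0 : (t.den : ℚ) ≠ 0 := by exact_mod_cast t.den_ne_zero
  refine ⟨fun n => ∑ c ∈ range f.natDegree, Pd.cf f n c * (((t.den : ℤ) ^ s) ^ c * z c), ?_, ?_, ?_⟩
  · exact Pd.sol_of_init h1 _
  · intro i hi
    exact Pd.init_of_init h1 (fun c => ((t.den : ℤ) ^ s) ^ c * z c) (by rw [h2]; exact hi)
  · set FQ : ℚ[X][X] := F.map (mapRingHom (Int.castRingHom ℚ)) with hFQ
    have hFQm : FQ.Monic := hF.monic.map _
    have hinj : Function.Injective (mapRingHom (Int.castRingHom ℚ)) :=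
      map_injective _ Int.cast_injective
    have hFQd : FQ.natDegree = F.natDegree := natDegree_map_eq_of_injective hinj F
    have hFQw : Wt s FQ := by
      intro i
      rw [hFQ, coeff_map, coe_mapRingHom, hFQd]
      exact natDegree_map_le.trans (hF.wt i)
    have h3 := hHB1.2.2.1 ℤ ℚ (Int.castRingHom ℚ) s F t.num t.den hF.monic
    have h4 := hHB1.2.1 ℚ s FQ (t.num : ℚ) (t.den : ℚ) hFQm hFQw hd0
    rw [Rat.num_div_den] at h4
    have h5 : f.map (Int.castRingHom ℚ) = (spc FQ t).scaleRoots ((t.den : ℚ) ^ s) := by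
      rw [hf, h3, ← h4]
      simp [hFQ]
    have h6 : Pd.Sol (spc FQ t) v := by
      intro n
      have h7 := hv n
      unfold spc
      rw [hFQm.natDegree_map, hFQd]
      rw [← h7]
      refine Finset.sum_congr rfl fun i _ => ?_
      rw [coeff_map, hFQ, coeff_map, coe_mapRingHom, coe_evalRingHom, eval_map]
      rfl
    have h8 := h6.scale ((t.den : ℚ) ^ s)
    rw [← h5] at h8
    have h9 := (Pd.sol_of_init h1 (fun c => ((t.den : ℤ) ^ s) ^ c * z c)).map (Int.castRingHom ℚ)
    have h10 : (f.map (Int.castRingHom ℚ)).Monic := h1.map _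
    intro n
    refine Pd.Sol.ext h10 h9 h8 ?_ n
    intro i hi
    rw [h1.natDegree_map] at hi
    show (Int.castRingHom ℚ) _ = _
    rw [Pd.init_of_init h1 (fun c => ((t.den : ℤ) ^ s) ^ c * z c) hi]
    rw [h2] at hi
    rw [hz i hi]
    simp

theorem zero_iff (t : ℚ) (v : ℕ → ℚ) (u : ℕ → ℤ)
    (h : ∀ n, (u n : ℚ) = ((t.den : ℚ) ^ s) ^ n * v n) (n : ℕ) : u n = 0 ↔ v n = 0 := by
  have hd0 : (t.den : ℚ) ≠ 0 := by exact_mod_cast t.den_ne_zero
  have h1 : ((t.den : ℚ) ^ s) ^ n ≠ 0 := pow_ne_zero _ (pow_ne_zero _ hd0)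
  rw [← Int.cast_eq_zero (α := ℚ), h n, mul_eq_zero]
  exact ⟨fun h => h.resolve_left h1, fun h => Or.inr h⟩

theorem init_bound (t : ℚ) (z : ℕ → ℤ) (u : ℕ → ℤ) (B : ℕ) (hB : Bound d B z)
    (hu : ∀ i < d, u i = ((t.den : ℤ) ^ s) ^ i * z i) :
    ∀ i < d, (u i).natAbs ≤ B * height t ^ (s * d) := by
  intro i hi
  rw [hu i hi, Int.natAbs_mul, Int.natAbs_pow, Int.natAbs_pow, Int.natAbs_natCast, mul_comm]
  refine Nat.mul_le_mul (hB i hi) ?_
  rw [← pow_mul]
  calc t.den ^ (s * i) ≤ height t ^ (s * i) := Nat.pow_le_pow_left (le_max_right _ _) _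
    _ ≤ height t ^ (s * d) :=
      Nat.pow_le_pow_right (height_pos t) (Nat.mul_le_mul_left _ hi.le)

theorem bound_pow (B T c p : ℕ) :
    (B * T ^ p * T) ^ c ≤ (B * T) ^ (c * (p + 1)) := by
  have h1 : B * T ^ p * T ≤ (B * T) ^ (p + 1) := by
    rw [mul_assoc, ← pow_succ, mul_pow]
    exact Nat.mul_le_mul_right _ (Nat.le_self_pow (by omega) B)
  calc (B * T ^ p * T) ^ c ≤ ((B * T) ^ (p + 1)) ^ c := Nat.pow_le_pow_left h1 _
    _ = (B * T) ^ (c * (p + 1)) := by rw [← pow_mul, mul_comm (p + 1) c]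

theorem eq_zero_of_bound (hF : Fam d s H F) (t : ℚ) (u : ℕ → ℤ)
    (hu : Fm.Rec (RingHom.id ℤ) (hsp s F t.num t.den) u) (h0 : ∀ i < d, u i = 0) (n : ℕ) :
    u n = 0 := by
  obtain ⟨h1, h2, -⟩ := hHB1.1 ℤ s F t.num t.den hF.monic
  rw [hF.deg] at h2
  exact Pd.Sol.eq_zero (f := hsp s F t.num t.den) h1 hu (fun i hi => h0 i (by rwa [h2] at hi)) n

theorem bound_zero (t : ℚ) (z : ℕ → ℤ) (u : ℕ → ℤ) (hB : Bound d 0 z)
    (hu : ∀ i < d, u i = ((t.den : ℤ) ^ s) ^ i * z i) : ∀ i < d, u i = 0 := by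
  intro i hi
  have h1 := init_bound (s := s) t z u 0 hB hu i hi
  rw [zero_mul] at h1
  exact Int.natAbs_eq_zero.1 (Nat.le_zero.1 h1)

/-- scaling of the initial values -/
def sc (w : (List (List ℤ) × List ℤ) × ((ℕ × ℕ) × (ℤ × ℤ))) : List ℤ :=
  (List.range w.1.2.length).map fun i => (w.2.2.2 ^ w.2.1.1) ^ i * w.1.2.getD i 0

theorem primrec_sc : Primrec sc := by
  refine Primrec.list_map
    (f := fun w : (List (List ℤ) × List ℤ) × ((ℕ × ℕ) × (ℤ × ℤ)) => List.range w.1.2.length)
    (g := fun w i => (w.2.2.2 ^ w.2.1.1) ^ i * w.1.2.getD i 0)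
    (Primrec.list_range.comp (Primrec.list_length.comp (Primrec.snd.comp Primrec.fst))) ?_
  have hw : Primrec (fun y : ((List (List ℤ) × List ℤ) × ((ℕ × ℕ) × (ℤ × ℤ))) × ℕ => y.1) :=
    Primrec.fst
  have hi : Primrec (fun y : ((List (List ℤ) × List ℤ) × ((ℕ × ℕ) × (ℤ × ℤ))) × ℕ => y.2) :=
    Primrec.snd
  have h1 := HDU.primrec_ipow.comp
    (HDU.primrec_ipow.comp (Primrec.snd.comp (Primrec.snd.comp (Primrec.snd.comp hw)))
      (Primrec.fst.comp (Primrec.fst.comp (Primrec.snd.comp hw)))) hi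
  have h2 := (Primrec.list_getD (0 : ℤ)).comp (Primrec.snd.comp (Primrec.fst.comp hw)) hi
  exact (primrec_int_mul.comp h1 h2).to₂

theorem sc_getD (L : List (List ℤ)) (x : List ℤ) (s B : ℕ) (p q : ℤ) (i : ℕ) (hi : i < x.length) :
    (sc ((L, x), ((s, B), (p, q)))).getD i 0 = (q ^ s) ^ i * x.getD i 0 := by
  have h : i < (sc ((L, x), ((s, B), (p, q)))).length := by simpa [sc] using hi
  rw [List.getD_eq_getElem _ _ h]
  simp only [sc, List.getElem_map, List.getElem_range]

end proof

/-- **The Skolem Problem in all one-parameter families, for all rational parameters and all initial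
values.** All sequences are rational solutions of the recurrence with the characteristic
polynomial `F(t, X)`, `t` rational, with integer initial values `z_0, ..., z_(d-1)` (no restriction:
multiply the sequence by a constant).

(1) Zeros. For all `d`, `s` there are `N` and `c` such that for all families `F` of order `d`, degree at
most `s` and coefficients at most `H` in which no two roots have a constant quotient other than a
root of unity, there is `M ≤ d` (`M = 1` if the roots are simple) such that for all rational `t` of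
height `T ≥ (c H) ^ c`, all solutions `v` and all `q < N`: either `v_(q + N n) = 0` for all `n`, or the
`n` with `v_(q + N n) = 0` satisfy `n ≤ (B T) ^ c`, and all except at most `M - 1` of them satisfy
`T ^ n ≤ (B T) ^ c`, that is `n ≤ c (1 + log B / log T)`, where `B` bounds the initial values.

(2) Decision. One primitive recursive procedure decides, from the coefficients of `F`, the initial
values, `s`, a number `B` and `t`, whether the solution has a zero, correctly for all these
families of all orders and all rational `t` of height at least `(B H) ^ B`, if `B ≥ B₀(d, s)`.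

(3) All families. For every family `F`, without any condition on the roots, there are `N`, `T₀`, `c`
and ONE recurrence over the integers with constant coefficients `f`, `f(0) ≠ 0`, such that for all
rational `t` of height `T ≥ T₀`, all solutions `v` and all `q < N` there is a solution `w` for `f` such
that `w_n = 0` implies `v_(q + N n) = 0`, and conversely if `T ^ n > (B T) ^ c`. -/
theorem result :
    (∀ d s : ℕ, ∃ N c : ℕ, 1 ≤ N ∧ ∀ (H : ℕ) (F : ℤ[X][X]), Fam d s H F → Free F →
      ∃ M : ℕ, 1 ≤ M ∧ M ≤ d ∧ (Simple F → M = 1) ∧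
        ∀ t : ℚ, (c * H) ^ c ≤ height t → ∀ (z : ℕ → ℤ) (v : ℕ → ℚ), (∀ i < d, v i = z i) →
          Rec F t v → ∀ q < N, Zeros d M c (height t) z (fun n => v (q + N * n))) ∧
    (∃ A : (List (List ℤ) × List ℤ) × ((ℕ × ℕ) × (ℤ × ℤ)) → Bool, Primrec A ∧
      ∀ d s : ℕ, ∃ B₀ : ℕ, ∀ B : ℕ, B₀ ≤ B → ∀ (H : ℕ) (L : List (List ℤ)),
        Fam d s H (pol L) → Free (pol L) → ∀ t : ℚ, (B * H) ^ B ≤ height t →
        ∀ (x : List ℤ) (v : ℕ → ℚ), x.length = d → (∀ i < d, v i = x.getD i 0) →
          Rec (pol L) t v → (A ((L, x), ((s, B), (t.num, (t.den : ℤ)))) = true ↔ ∃ n, v n = 0)) ∧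
    (∀ (d s H : ℕ) (F : ℤ[X][X]), Fam d s H F →
      ∃ (N T₀ c : ℕ) (f : ℤ[X]), 1 ≤ N ∧ f.Monic ∧ f.coeff 0 ≠ 0 ∧
        ∀ t : ℚ, T₀ ≤ height t → ∀ (z : ℕ → ℤ) (v : ℕ → ℚ), (∀ i < d, v i = z i) →
          Rec F t v → ∀ q < N, ∃ w : ℕ → ℤ, RecZ f w ∧ (∀ n, w n = 0 → v (q + N * n) = 0) ∧
            ∀ B : ℕ, Bound d B z → ∀ n, (B * height t) ^ c < height t ^ n →
              v (q + N * n) = 0 → w n = 0) := by
  refine ⟨?_, ?_, ?_⟩
  · intro d s
    rcases Nat.eq_zero_or_pos d with hd | hd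
    · subst hd
      exact ⟨1, 1, le_rfl, fun H F hF => absurd hF.pos (by omega)⟩
    obtain ⟨N, c, hN, hc, h⟩ := hHNU d s hd
    refine ⟨N, c * (s * d + 1), hN, fun H F hF hfree => ?_⟩
    obtain ⟨M, hM, hMd, hMs, h⟩ := h H F hF.isE (prEQ1 F hF.monic hF.ne hfree)
    refine ⟨M, hM, hMd, hMs, fun t ht z v hz hv q hq => ?_⟩
    have hcc : c ≤ c * (s * d + 1) := Nat.le_mul_of_pos_right _ (by omega)
    have hcH : (c * H) ^ c ≤ mx t.num (t.den : ℤ) := by
      rw [mx_eq]
      refine le_trans ?_ ht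
      calc (c * H) ^ c ≤ (c * (s * d + 1) * H) ^ c :=
            Nat.pow_le_pow_left (Nat.mul_le_mul_right _ hcc) _
        _ ≤ (c * (s * d + 1) * H) ^ (c * (s * d + 1)) := by
            refine Nat.pow_le_pow_right ?_ hcc
            have := hF.one
            exact Nat.mul_pos (lt_of_lt_of_le hc hcc) this
    obtain ⟨u, hu, hui, huv⟩ := lift hF t z v hz hv
    rcases h t.num t.den (coprime t) hcH u hu q hq with h1 | h1
    · left
      intro n
      exact (zero_iff t v u huv _).1 (h1 n)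
    · right
      intro B hB
      rcases Nat.eq_zero_or_pos B with hB0 | hB0
      · exfalso
        subst hB0
        have h2 := eq_zero_of_bound hF t u hu (bound_zero t z u hB hui)
        have h3 := (h1 0 (fun i hi => by rw [bound_zero t z u hB hui i hi]; simp)).1 1 (by
          rw [zero_mul, zero_pow (by omega)]
          exact Nat.one_pos)
        exact h3 (h2 _)
      · obtain ⟨h2, S, hS, h3⟩ := h1 (B * height t ^ (s * d)) (init_bound t z u B hB hui)
        rw [mx_eq] at h2 h3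
        have h4 := bound_pow B (height t) c (s * d)
        refine ⟨fun n hn => ?_, S, hS, fun n hn h0 => ?_⟩
        · intro h0
          exact h2 n (lt_of_le_of_lt h4 hn) ((zero_iff t v u huv _).2 h0)
        · exact h3 n (lt_of_le_of_lt h4 hn) ((zero_iff t v u huv _).2 h0)
  · obtain ⟨A, hA, h⟩ := hHDU
    refine ⟨fun w => A ((w.1.1, sc w), (w.2.1, w.2.2)), ?_, fun d s => ?_⟩
    · exact hA.comp (Primrec.pair (Primrec.pair (Primrec.fst.comp Primrec.fst) primrec_sc)
        Primrec.snd)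
    · rcases Nat.eq_zero_or_pos d with hd | hd
      · subst hd
        exact ⟨0, fun B _ H L hF => absurd hF.pos (by omega)⟩
      obtain ⟨B₀, h⟩ := h d s hd
      refine ⟨B₀, fun B hB H L hF hfree t ht x v hx hi hv => ?_⟩
      obtain ⟨u, hu, hui, huv⟩ := lift hF t (fun i => x.getD i 0) v hi hv
      have h1 := h B hB H L hF.isE (prEQ1 _ hF.monic hF.ne hfree) t.num t.den (coprime t)
        (by rw [mx_eq]; exact ht) (sc ((L, x), ((s, B), (t.num, (t.den : ℤ))))) u
        (by simpa [sc] using hx)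
        (fun i hi' => by rw [sc_getD L x s B _ _ i (by omega)]; exact hui i hi') hu
      refine h1.trans ?_
      exact exists_congr fun n => zero_iff t v u huv n
  · intro d s H F hF
    obtain ⟨N, T₀, c, f, hN, hf, hf0, h⟩ := hHNR F s hF.monic (by rw [hF.deg]; exact hF.pos)
      hF.ne hF.wt
    refine ⟨N, T₀, c * (s * d + 1), f, hN, hf, hf0, fun t ht z v hz hv q hq => ?_⟩
    obtain ⟨u, hu, hui, huv⟩ := lift hF t z v hz hv
    by_cases h0 : ∀ n, u n = 0
    · refine ⟨fun _ => 0, fun n => by simp, fun n _ => (zero_iff t v u huv _).1 (h0 _),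
        fun _ _ _ _ _ => rfl⟩
    obtain ⟨w, hw, hw1, hw2⟩ := h t.num t.den (coprime t) (by rw [mx_eq]; exact ht) u hu q hq
    refine ⟨w, hw, fun n hn => (zero_iff t v u huv _).1 (hw1 n hn), fun B hB n hn hn0 => ?_⟩
    have hB0 : 1 ≤ B := by
      rcases Nat.eq_zero_or_pos B with hB0 | hB0
      · exfalso
        subst hB0
        exact h0 (eq_zero_of_bound hF t u hu (bound_zero t z u hB hui))
      · exact hB0
    refine hw2 (B * height t ^ (s * d)) ?_ n ?_ ((zero_iff t v u huv _).2 hn0)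
    · rw [hF.deg]
      exact init_bound t z u B hB hui
    · rw [mx_eq]
      exact lt_of_le_of_lt (bound_pow B (height t) c (s * d)) hn

end Pool.Agent.Work.MP_8d13b5_lc.Fm.AllFamilies
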