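import Mathlib

set_option autoImplicit false

/-! If one member `F(t, X)` of a family has no multiple roots, the family has none. -/

namespace Pool.Agent.Work.MP_8d13b5_lc.Fm

open Polynomial

theorem sep_map_iff (F : ℤ[X][X]) (hF : F.Monic) (h0 : F.natDegree ≠ 0) (K : Type*) [Field K]
    [CharZero K] (φ : ℤ[X] →+* K) :
    (F.map φ).Separable ↔ φ (resultant F (derivative F)) ≠ 0 := by
  have hm : (F.map φ).Monic := hF.map φ
  have hd : (F.map φ).natDegree = F.natDegree := hF.natDegree_map φ
  have e1 : (derivative (F.map φ)).natDegree = (derivative F).natDegree := by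
    rw [natDegree_derivative, natDegree_derivative, hd]
  have e2 : derivative (F.map φ) = (derivative F).map φ := derivative_map F φ
  have e3 : resultant (F.map φ) (derivative (F.map φ)) = φ (resultant F (derivative F)) := by
    rw [hd, e1, e2, resultant_map_map]
  rw [← e3, Polynomial.Separable, ← isUnit_resultant_iff_isCoprime hm, isUnit_iff_ne_zero]

theorem sep_of_member (F : ℤ[X][X]) (hF : F.Monic) (t : ℚ)
    (h : (F.map ((aeval t : ℤ[X] →ₐ[ℤ] ℚ) : ℤ[X] →+* ℚ)).Separable) :
    (F.map (algebraMap ℤ[X] (FractionRing ℤ[X]))).Separable := by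
  rcases eq_or_ne F.natDegree 0 with h0 | h0
  · rw [eq_one_of_monic_natDegree_zero hF h0, Polynomial.map_one]
    exact separable_one
  · have : CharZero (FractionRing ℤ[X]) := by
      exact charZero_of_injective_algebraMap (IsFractionRing.injective ℤ[X] (FractionRing ℤ[X]))
    rw [sep_map_iff F hF h0] at h ⊢
    intro h1
    apply h
    rw [(IsFractionRing.injective ℤ[X] (FractionRing ℤ[X])) (h1.trans (map_zero _).symm), map_zero]

end Pool.Agent.Work.MP_8d13b5_lc.Fm
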