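import Pool.Agent.Work.MP_8d13b5_lc.Fg.ResultFixedGroup
import Pool.Agent.Work.MP_8d13b5_lc.Fm.FamilyReductionDefs

set_option autoImplicit false

/-! The theorem FixedGroup for one recurrence given by a monic integer polynomial. -/

namespace Pool.Agent.Work.MP_8d13b5_lc.Fm.Single

open Polynomial Finset Pool.Agent.Work.MP_8d13b5_lc.Fm.FamilyReduction
  Pool.Agent.Results.MP_8d13b5_lc.FixedGroup

/-- the coefficients of the recurrence -/
def cl (f : ℤ[X]) : List ℤ := (List.range f.natDegree).map fun j => -f.coeff (f.natDegree - 1 - j)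

/-- the initial values -/
def xl (m : ℕ) (w : ℕ → ℤ) : List ℤ := (List.range m).map w

theorem cl_length (f : ℤ[X]) : (cl f).length = f.natDegree := by simp [cl]

theorem xl_length (m : ℕ) (w : ℕ → ℤ) : (xl m w).length = m := by simp [xl]

theorem cl_getD (f : ℤ[X]) (j : ℕ) (hj : j < f.natDegree) :
    (cl f).getD j 0 = -f.coeff (f.natDegree - 1 - j) := by
  have h : j < (cl f).length := by rwa [cl_length]
  rw [List.getD_eq_getElem _ _ h]
  simp [cl]

theorem xl_getD (m : ℕ) (w : ℕ → ℤ) (i : ℕ) (hi : i < m) : (xl m w).getD i 0 = w i := by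
  have h : i < (xl m w).length := by rwa [xl_length]
  rw [List.getD_eq_getElem _ _ h]
  simp [xl]

theorem isSeq (f : ℤ[X]) (hf : f.Monic) (h0 : f.coeff 0 ≠ 0) (hd : 1 ≤ f.natDegree) (w : ℕ → ℤ)
    (hw : RecZ f w) : IsSeq (cl f, xl f.natDegree w) w := by
  refine ⟨?_, ?_, ?_, ?_, ?_⟩
  · show (cl f).length = (xl f.natDegree w).length
    rw [cl_length, xl_length]
  · show 1 ≤ (cl f).length
    rwa [cl_length]
  · show (cl f).getD ((cl f).length - 1) 0 ≠ 0
    rw [cl_length, cl_getD f _ (by omega), Nat.sub_self]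
    exact neg_ne_zero.2 h0
  · intro i hi
    have hi' : i < f.natDegree := by
      have h : i < (cl f).length := hi
      rwa [cl_length] at h
    exact (xl_getD _ w i hi').symm
  · intro n
    show w (n + (cl f).length) = ∑ j ∈ range (cl f).length, (cl f).getD j 0 *
      w (n + (cl f).length - 1 - j)
    rw [cl_length]
    have h := hw n
    rw [Finset.sum_range_succ, hf.coeff_natDegree, one_mul] at h
    rw [← Finset.sum_range_reflect] at h
    have e : ∑ j ∈ range f.natDegree, (cl f).getD j 0 * w (n + f.natDegree - 1 - j) =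
        -∑ j ∈ range f.natDegree, f.coeff (f.natDegree - 1 - j) * w (n + (f.natDegree - 1 - j)) := by
      rw [← Finset.sum_neg_distrib]
      refine Finset.sum_congr rfl fun j hj => ?_
      rw [Finset.mem_range] at hj
      rw [cl_getD f j hj]
      have e1 : n + f.natDegree - 1 - j = n + (f.natDegree - 1 - j) := by omega
      rw [e1, neg_mul]
    rw [e]
    linarith

theorem isRoot_iff (f : ℤ[X]) (hf : f.Monic) (z : ℂ) : Pool.Agent.Results.MP_8d13b5_lc.FixedGroup.IsRoot (cl f) z ↔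
    aeval z f = 0 := by
  unfold Pool.Agent.Results.MP_8d13b5_lc.FixedGroup.IsRoot
  rw [cl_length]
  have e : aeval z f = z ^ f.natDegree +
      ∑ j ∈ range f.natDegree, ((f.coeff (f.natDegree - 1 - j) : ℤ) : ℂ) *
        z ^ (f.natDegree - 1 - j) := by
    rw [aeval_eq_sum_range, Finset.sum_range_succ, hf.coeff_natDegree, ← Finset.sum_range_reflect]
    simp only [zsmul_eq_mul, one_smul]
    rw [add_comm]
  have e2 : ∑ j ∈ range f.natDegree, (((cl f).getD j 0 : ℤ) : ℂ) * z ^ (f.natDegree - 1 - j) =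
      -∑ j ∈ range f.natDegree, ((f.coeff (f.natDegree - 1 - j) : ℤ) : ℂ) *
        z ^ (f.natDegree - 1 - j) := by
    rw [← Finset.sum_neg_distrib]
    refine Finset.sum_congr rfl fun j hj => ?_
    rw [Finset.mem_range] at hj
    rw [cl_getD f j hj]
    push_cast
    ring
  rw [e, e2, eq_neg_iff_add_eq_zero]

/-- the roots in `ℂ` -/
noncomputable def rts (f : ℤ[X]) : Finset ℂ := (f.map (algebraMap ℤ ℂ)).roots.toFinset

theorem mem_rts (f : ℤ[X]) (hf : f.Monic) (z : ℂ) : z ∈ rts f ↔ aeval z f = 0 := by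
  rw [rts, Multiset.mem_toFinset, mem_roots (hf.map _).ne_zero, Polynomial.IsRoot.def,
    eval_map_algebraMap]

theorem simple (f : ℤ[X]) (hf : f.Monic) (hs : (f.map (Int.castRingHom ℚ)).Separable) :
    Simple (cl f) := by
  refine ⟨rts f, ?_, fun z hz => (isRoot_iff f hf z).2 ((mem_rts f hf z).1 hz)⟩
  rw [cl_length]
  have hC : (f.map (algebraMap ℤ ℂ)).Separable := by
    have e : f.map (algebraMap ℤ ℂ) = (f.map (Int.castRingHom ℚ)).map (algebraMap ℚ ℂ) := by
      rw [Polynomial.map_map]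
      congr 1
    rw [e]
    exact hs.map
  have h1 := nodup_roots hC
  have hsp : (f.map (algebraMap ℤ ℂ)).Splits := IsAlgClosed.splits _
  rw [rts, Multiset.toFinset_card_of_nodup h1, ← hsp.natDegree_eq_card_roots,
    hf.natDegree_map]

theorem size_le (f : ℤ[X]) (w : ℕ → ℤ) (S : ℕ) (hw : ∀ i < f.natDegree, (w i).natAbs ≤ S) :
    size (cl f, xl f.natDegree w) ≤
      f.natDegree + ((cl f).map Int.natAbs).sum + f.natDegree * S := by
  unfold size
  show (cl f).length + ((cl f).map Int.natAbs).sum + ((xl f.natDegree w).map Int.natAbs).sum ≤ _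
  rw [cl_length]
  have h : ((xl f.natDegree w).map Int.natAbs).sum ≤ f.natDegree * S := by
    have h1 : ∀ x ∈ (xl f.natDegree w).map Int.natAbs, x ≤ S := by
      intro x hx
      rw [List.mem_map] at hx
      obtain ⟨y, hy, rfl⟩ := hx
      rw [xl, List.mem_map] at hy
      obtain ⟨i, hi, rfl⟩ := hy
      exact hw i (List.mem_range.1 hi)
    have h2 := List.sum_le_card_nsmul _ _ h1
    rwa [List.length_map, xl_length, smul_eq_mul] at h2
  omega

theorem log_pow_le (a k : ℕ) : Nat.log 2 (a ^ k) ≤ k * (Nat.log 2 a + 1) := by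
  have h : a ^ k ≤ 2 ^ (k * (Nat.log 2 a + 1)) := by
    rw [mul_comm, pow_mul]
    exact Nat.pow_le_pow_left (Nat.lt_pow_succ_log_self (by norm_num) a).le k
  calc Nat.log 2 (a ^ k) ≤ Nat.log 2 (2 ^ (k * (Nat.log 2 a + 1))) := Nat.log_mono_right h
    _ = k * (Nat.log 2 a + 1) := Nat.log_pow (by norm_num) _

/-- **FixedGroup for one recurrence.** -/
theorem single (f : ℤ[X]) (hf : f.Monic) (h0 : f.coeff 0 ≠ 0) :
    ∃ M C : ℕ, 1 ≤ M ∧ ∀ w : ℕ → ℤ, RecZ f w → ∀ S : ℕ, (∀ i < f.natDegree, (w i).natAbs ≤ S) →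
      (∀ n, (S + 2) ^ C ≤ n → w n = 0 → ∀ k, w (n % M + k * M) = 0) ∧
      ((f.map (Int.castRingHom ℚ)).Separable →
        ∀ n, C * (Nat.log 2 (S + 2) + 1) ≤ n → w n = 0 → ∀ k, w (n % M + k * M) = 0) := by
  rcases Nat.eq_zero_or_pos f.natDegree with hd | hd
  · refine ⟨1, 0, le_rfl, fun w hw S _ => ?_⟩
    have h1 : f = 1 := eq_one_of_monic_natDegree_zero hf hd
    have hz : ∀ n, w n = 0 := by
      intro n
      have h := hw n
      rw [h1] at h
      simpa using h
    exact ⟨fun n _ _ k => hz _, fun _ n _ _ k => hz _⟩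
  · have hg : ∀ i : Fin (rts f).card, (((rts f).equivFin.symm i : ℂ)) ≠ 0 ∧
        IsAlgebraic ℚ (((rts f).equivFin.symm i : ℂ)) := by
      intro i
      have hz := (mem_rts f hf _).1 ((rts f).equivFin.symm i).2
      refine ⟨fun h => ?_, ?_⟩
      · rw [h] at hz
        apply h0
        have h2 : aeval (0 : ℂ) f = ((f.coeff 0 : ℤ) : ℂ) := by
          rw [aeval_def, eval₂_at_zero]
          rfl
        rw [h2] at hz
        exact_mod_cast hz
      · refine ⟨f.map (Int.castRingHom ℚ), (hf.map _).ne_zero, ?_⟩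
        have e : (algebraMap ℚ ℂ).comp (Int.castRingHom ℚ) = algebraMap ℤ ℂ := RingHom.ext_int _ _
        rw [aeval_def, eval₂_map, e]
        rw [aeval_def] at hz
        exact hz
    obtain ⟨M, C, hM, hmain, -⟩ := Pool.Agent.Results.MP_8d13b5_lc.FixedGroup.result _ _ hg f.natDegree
    set L : ℕ := ((cl f).map Int.natAbs).sum with hL
    set K : ℕ := f.natDegree + L + f.natDegree + 2 with hK
    refine ⟨M, C * (K + 2), hM, fun w hw S hS => ?_⟩
    have hseq := isSeq f hf h0 hd w hw
    have hroots : ∀ z : ℂ, Pool.Agent.Results.MP_8d13b5_lc.FixedGroup.IsRoot (cl f) z →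
        ∃ a : Fin (rts f).card → ℤ, z = ∏ i, ((rts f).equivFin.symm i : ℂ) ^ a i := by
      intro z hz
      have hz' : z ∈ rts f := (mem_rts f hf z).2 ((isRoot_iff f hf z).1 hz)
      refine ⟨Pi.single ((rts f).equivFin ⟨z, hz'⟩) 1, ?_⟩
      rw [Finset.prod_eq_single ((rts f).equivFin ⟨z, hz'⟩)]
      · rw [Pi.single_eq_same, zpow_one, Equiv.symm_apply_apply]
      · intro j _ hj
        rw [Pi.single_eq_of_ne hj, zpow_zero]
      · intro h
        exact absurd (Finset.mem_univ _) h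
    obtain ⟨m1, m2⟩ := hmain _ w hseq (by show (cl f).length ≤ _; rw [cl_length]) hroots
    have hsz := size_le f w S hS
    have hle : size (cl f, xl f.natDegree w) + 2 ≤ (S + 2) ^ (K + 1) := by
      have h1 : size (cl f, xl f.natDegree w) + 2 ≤ K * (S + 2) := by
        have : f.natDegree * S ≤ K * S := Nat.mul_le_mul_right _ (by omega)
        nlinarith
      have h2 : K ≤ (S + 2) ^ K := by
        calc K ≤ 2 ^ K := Nat.lt_two_pow_self.le
          _ ≤ (S + 2) ^ K := Nat.pow_le_pow_left (by omega) K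
      calc size (cl f, xl f.natDegree w) + 2 ≤ K * (S + 2) := h1
        _ ≤ (S + 2) ^ K * (S + 2) := Nat.mul_le_mul_right _ h2
        _ = (S + 2) ^ (K + 1) := (pow_succ _ _).symm
    refine ⟨fun n hn hn0 k => m1 n ?_ hn0 k, fun hs n hn hn0 k => m2 (simple f hf hs) n ?_ hn0 k⟩
    · calc (size (cl f, xl f.natDegree w) + 2) ^ C ≤ ((S + 2) ^ (K + 1)) ^ C :=
            Nat.pow_le_pow_left hle C
        _ = (S + 2) ^ ((K + 1) * C) := (pow_mul _ _ _).symm
        _ ≤ (S + 2) ^ (C * (K + 2)) := Nat.pow_le_pow_right (by omega) (by nlinarith)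
        _ ≤ n := hn
    · have h1 : Nat.log 2 (size (cl f, xl f.natDegree w) + 2) ≤
          (K + 1) * (Nat.log 2 (S + 2) + 1) :=
        (Nat.log_mono_right hle).trans (log_pow_le _ _)
      calc C * (Nat.log 2 (size (cl f, xl f.natDegree w) + 2) + 1)
          ≤ C * ((K + 1) * (Nat.log 2 (S + 2) + 1) + 1) := Nat.mul_le_mul_left _ (by omega)
        _ ≤ C * ((K + 2) * (Nat.log 2 (S + 2) + 1)) := Nat.mul_le_mul_left _ (by nlinarith)
        _ = C * (K + 2) * (Nat.log 2 (S + 2) + 1) := by ring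
        _ ≤ n := hn

end Pool.Agent.Work.MP_8d13b5_lc.Fm.Single
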