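import Pool.Agent.Work.MP_8d13b5_lc.Fm.FamilyReductionProof
import Pool.Agent.Work.MP_8d13b5_lc.Fm.Single
import Pool.Agent.Work.MP_8d13b5_lc.Fm.SepT
import Pool.Agent.Work.MP_8d13b5_lc.Fm.StmtsSimple

set_option autoImplicit false

/-! The bounds for the zeros of all members of a family, with the logarithmic bound for the members without
multiple roots. -/

namespace Pool.Agent.Work.MP_8d13b5_lc.Fm.AllSimple

open Pool.Agent.Work.MP_8d13b5_lc Pool.Agent.Work.MP_8d13b5_lc.Fm Polynomial Finset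
open Pool.Agent.Work.MP_8d13b5_lc.Fm.FamilyReduction

/-- the member `F(t, X)` -/
noncomputable def mem (F : ℤ[X][X]) (t : ℚ) : ℚ[X] := F.map ((aeval t : ℤ[X] →ₐ[ℤ] ℚ) : ℤ[X] →+* ℚ)

/-- the modulus `M` and the exponent `C` are good for the member `F(t, X)` -/
def Good (F : ℤ[X][X]) (d : ℕ) (t : ℚ) (M C : ℕ) : Prop :=
  ∀ (z : ℕ → ℤ) (v : ℕ → ℚ), (∀ i < d, v i = z i) → FamilyReduction.Rec F t v →
    ∀ B, Bound d B z →
      (∀ n, (B * height t + 2) ^ C ≤ n → v n = 0 → ∀ k, v (n % M + k * M) = 0) ∧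
      ((mem F t).Separable → ∀ n, C * (Nat.log 2 (B * height t + 2) + 1) ≤ n → v n = 0 →
        ∀ k, v (n % M + k * M) = 0)

theorem class_mono (v : ℕ → ℚ) (M M' : ℕ) (h : M ∣ M') (n : ℕ)
    (hv : ∀ k, v (n % M + k * M) = 0) (k : ℕ) : v (n % M' + k * M') = 0 := by
  obtain ⟨a, rfl⟩ := h
  have h1 : n % (M * a) = n % M + (n / M % a) * M := by
    rw [Nat.mod_mul]
    ring
  have h2 : n % (M * a) + k * (M * a) = n % M + ((n / M % a) + k * a) * M := by
    rw [h1]
    ring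
  rw [h2]
  exact hv _

theorem Good.mono {F : ℤ[X][X]} {d : ℕ} {t : ℚ} {M C M' C' : ℕ} (h : Good F d t M C)
    (hM : M ∣ M') (hC : C ≤ C') : Good F d t M' C' := by
  intro z v hz hv B hB
  obtain ⟨h1, h2⟩ := h z v hz hv B hB
  refine ⟨fun n hn hn0 k => class_mono v M M' hM n (h1 n ?_ hn0) k,
    fun hs n hn hn0 k => class_mono v M M' hM n (h2 hs n ?_ hn0) k⟩
  · exact (Nat.pow_le_pow_right (by omega) hC).trans hn
  · exact (Nat.mul_le_mul_right _ hC).trans hn

/-- the integer polynomial of the member -/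
theorem hsp_map {d s : ℕ} {F : ℤ[X][X]} (hF : Fam d F) (hw : Wt s F) (t : ℚ) :
    (hsp s F t.num (t.den : ℤ)).map (Int.castRingHom ℚ) = (mem F t).scaleRoots ((t.den : ℚ) ^ s) := by
  have hd0 : (t.den : ℚ) ≠ 0 := by exact_mod_cast t.den_ne_zero
  set FQ : ℚ[X][X] := F.map (mapRingHom (Int.castRingHom ℚ)) with hFQ
  have hFQm : FQ.Monic := hF.monic.map _
  have hinj : Function.Injective (mapRingHom (Int.castRingHom ℚ)) :=
    map_injective _ Int.cast_injective
  have hFQd : FQ.natDegree = F.natDegree := natDegree_map_eq_of_injective hinj F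
  have hFQw : Wt s FQ := by
    intro i
    rw [hFQ, coeff_map, coe_mapRingHom, hFQd]
    exact natDegree_map_le.trans (hw i)
  have h3 := hHB1.2.2.1 ℤ ℚ (Int.castRingHom ℚ) s F t.num t.den hF.monic
  have h4 := hHB1.2.1 ℚ s FQ (t.num : ℚ) (t.den : ℚ) hFQm hFQw hd0
  rw [Rat.num_div_den] at h4
  have h5 : spc FQ t = mem F t := by
    ext i
    rw [spc, coeff_map, hFQ, coeff_map, coe_mapRingHom, coe_evalRingHom, eval_map, mem, coeff_map]
    rfl
  rw [h3, ← h5, ← h4]
  simp [hFQ]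

theorem sep_scaleRoots (p : ℚ[X]) (a : ℚ) (ha : a ≠ 0) (h : p.Separable) :
    (p.scaleRoots a).Separable := by
  have e : derivative (p.scaleRoots a) = (derivative p).scaleRoots a := by
    ext i
    rw [coeff_derivative, coeff_scaleRoots, coeff_scaleRoots, coeff_derivative,
      natDegree_derivative]
    have e1 : p.natDegree - (i + 1) = p.natDegree - 1 - i := by omega
    rw [e1]
    ring
  rw [Polynomial.Separable, e]
  exact isCoprime_scaleRoots _ _ _ (isUnit_iff_ne_zero.2 ha) h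

theorem le_pow_aux (B H p : ℕ) (hH : 1 ≤ H) : B * H ^ p + 2 ≤ (B * H + 2) ^ (p + 1) := by
  have h1 : B * H ^ p ≤ (B * H) ^ (p + 1) := by
    rcases Nat.eq_zero_or_pos B with h | h
    · subst h
      simp
    · rw [mul_pow]
      exact Nat.mul_le_mul (Nat.le_self_pow (by omega) B) (Nat.pow_le_pow_right hH (by omega))
  have h2 : (B * H) ^ (p + 1) + 2 ^ (p + 1) ≤ (B * H + 2) ^ (p + 1) :=
    pow_add_pow_le (by omega) (by omega) (by omega)
  have h3 : 2 ≤ 2 ^ (p + 1) := Nat.le_self_pow (by omega) 2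
  omega

/-- single members -/
theorem member {d s : ℕ} {F : ℤ[X][X]} (hF : Fam d F) (hs : Wt s F) (t : ℚ)
    (ht : aeval t (F.coeff 0) ≠ 0) : ∃ M C, 1 ≤ M ∧ Good F d t M C := by
  obtain ⟨g1, g2, -⟩ := hHB1.1 ℤ s F t.num t.den hF.monic
  rw [hF.deg] at g2
  have hd0 : ((t.den : ℚ) ^ s) ≠ 0 := pow_ne_zero _ (by exact_mod_cast t.den_ne_zero)
  have hmap := hsp_map hF hs t
  have hc0 : (hsp s F t.num (t.den : ℤ)).coeff 0 ≠ 0 := by
    intro h
    have e := congrArg (fun p => p.coeff 0) hmap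
    simp only [coeff_map, coeff_scaleRoots] at e
    rw [h, map_zero] at e
    have e2 : (mem F t).coeff 0 ≠ 0 := by
      rw [mem, coeff_map]
      exact ht
    exact mul_ne_zero e2 (pow_ne_zero _ hd0) e.symm
  obtain ⟨M, C, hM, hmain⟩ := Single.single (hsp s F t.num (t.den : ℤ)) g1 hc0
  refine ⟨M, C * (s * d + 2), hM, fun z v hz hv B hB => ?_⟩
  obtain ⟨u, hu, hui, huv⟩ := lift hF hs t z v hz hv
  have hib := init_bound t z u B hB hui
  obtain ⟨m1, m2⟩ := hmain u hu (B * height t ^ (s * d)) (by rwa [g2])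
  have hle := le_pow_aux B (height t) (s * d) (height_pos t)
  have hz0 := fun n => zero_iff t v u huv n
  refine ⟨fun n hn hn0 k => (hz0 _).1 (m1 n ?_ ((hz0 n).2 hn0) k),
    fun hsep n hn hn0 k => (hz0 _).1 (m2 ?_ n ?_ ((hz0 n).2 hn0) k)⟩
  · calc (B * height t ^ (s * d) + 2) ^ C ≤ ((B * height t + 2) ^ (s * d + 1)) ^ C :=
          Nat.pow_le_pow_left hle C
      _ = (B * height t + 2) ^ ((s * d + 1) * C) := (pow_mul _ _ _).symm
      _ ≤ (B * height t + 2) ^ (C * (s * d + 2)) := Nat.pow_le_pow_right (by omega) (by nlinarith)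
      _ ≤ n := hn
  · rw [hmap]
    exact sep_scaleRoots _ _ hd0 hsep
  · have h1 : Nat.log 2 (B * height t ^ (s * d) + 2) ≤
        (s * d + 1) * (Nat.log 2 (B * height t + 2) + 1) :=
      (Nat.log_mono_right hle).trans (Single.log_pow_le _ _)
    calc C * (Nat.log 2 (B * height t ^ (s * d) + 2) + 1)
        ≤ C * ((s * d + 1) * (Nat.log 2 (B * height t + 2) + 1) + 1) :=
          Nat.mul_le_mul_left _ (by omega)
      _ ≤ C * ((s * d + 2) * (Nat.log 2 (B * height t + 2) + 1)) :=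
          Nat.mul_le_mul_left _ (by nlinarith)
      _ = C * (s * d + 2) * (Nat.log 2 (B * height t + 2) + 1) := by ring
      _ ≤ n := hn

/-- finitely many members -/
theorem finite {d s : ℕ} {F : ℤ[X][X]} (hF : Fam d F) (hs : Wt s F) (L : List ℚ)
    (hL : ∀ t ∈ L, aeval t (F.coeff 0) ≠ 0) : ∃ M C, 1 ≤ M ∧ ∀ t ∈ L, Good F d t M C := by
  induction L with
  | nil => exact ⟨1, 0, le_rfl, by simp⟩
  | cons t₀ L ih =>
    obtain ⟨M, C, hM, h⟩ := ih fun t ht => hL t (List.mem_cons_of_mem _ ht)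
    obtain ⟨M', C', hM', h'⟩ := member hF hs t₀ (hL t₀ List.mem_cons_self)
    refine ⟨M * M', C + C', Nat.mul_pos hM hM', fun t ht => ?_⟩
    rcases List.mem_cons.1 ht with rfl | ht
    · exact h'.mono (Dvd.intro_left _ rfl) (by omega)
    · exact (h t ht).mono (Dvd.intro _ rfl) (by omega)

/-- polynomials are bounded by powers -/
theorem eval_bound {k : ℕ} (P : MvPolynomial (Fin k) ℤ) :
    ∃ a, ∀ (x : Fin k → ℤ) (Y : ℕ), 2 ≤ Y → (∀ i, (x i).natAbs ≤ Y) →
      (MvPolynomial.eval x P).natAbs ≤ Y ^ a := by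
  induction P using MvPolynomial.induction_on with
  | C b =>
    refine ⟨b.natAbs, fun x Y hY _ => ?_⟩
    rw [MvPolynomial.eval_C]
    exact Nat.lt_two_pow_self.le.trans (Nat.pow_le_pow_left hY _)
  | add p q hp hq =>
    obtain ⟨a, ha⟩ := hp
    obtain ⟨b, hb⟩ := hq
    refine ⟨a + b + 1, fun x Y hY hx => ?_⟩
    rw [map_add]
    refine (Int.natAbs_add_le _ _).trans ?_
    have h1 : Y ^ a ≤ Y ^ (a + b) := Nat.pow_le_pow_right (by omega) (by omega)
    have h2 : Y ^ b ≤ Y ^ (a + b) := Nat.pow_le_pow_right (by omega) (by omega)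
    have h3 := ha x Y hY hx
    have h4 := hb x Y hY hx
    calc _ ≤ Y ^ (a + b) * 2 := by omega
      _ ≤ Y ^ (a + b) * Y := Nat.mul_le_mul_left _ hY
      _ = Y ^ (a + b + 1) := (pow_succ _ _).symm
  | mul_X p i hp =>
    obtain ⟨a, ha⟩ := hp
    refine ⟨a + 1, fun x Y hY hx => ?_⟩
    rw [map_mul, MvPolynomial.eval_X, Int.natAbs_mul, pow_succ]
    exact Nat.mul_le_mul (ha x Y hY hx) (hx i)

theorem eval_bounds {k : ℕ} (N m : ℕ) (W : ℕ → ℕ → MvPolynomial (Fin k) ℤ) :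
    ∃ a, ∀ q < N, ∀ i < m, ∀ (x : Fin k → ℤ) (Y : ℕ), 2 ≤ Y → (∀ i, (x i).natAbs ≤ Y) →
      (MvPolynomial.eval x (W q i)).natAbs ≤ Y ^ a := by
  choose a ha using fun q i => eval_bound (W q i)
  refine ⟨∑ q ∈ range N, ∑ i ∈ range m, a q i, fun q hq i hi x Y hY hx => ?_⟩
  refine (ha q i x Y hY hx).trans (Nat.pow_le_pow_right (by omega) ?_)
  refine (Finset.single_le_sum (f := fun i => a q i) (fun _ _ => Nat.zero_le _)
    (mem_range.2 hi)).trans ?_
  exact Finset.single_le_sum (f := fun q => ∑ i ∈ range m, a q i) (fun _ _ => Nat.zero_le _)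
    (mem_range.2 hq)

/-- large heights -/
theorem large {d s : ℕ} {F : ℤ[X][X]} (hF : Fam d F) (hs : Wt s F) (hSHN : StSHN) :
    ∃ T M C, 1 ≤ M ∧ ∀ t : ℚ, T ≤ height t → Good F d t M C := by
  obtain ⟨N, T₀, c, f, W, hR, hsp⟩ := hSHN F s d hF.monic hF.deg hF.pos hF.ne hs
  obtain ⟨M', C', hM', hsg⟩ := Single.single f hR.monic hR.ne
  obtain ⟨a, ha⟩ := eval_bounds N f.natDegree W
  obtain ⟨b, hb⟩ : ∃ b, b = (s * d + 1) * a := ⟨_, rfl⟩
  obtain ⟨g, hg⟩ : ∃ g, g = c * (s * d + 1) + 1 := ⟨_, rfl⟩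
  have hN := hR.pos
  refine ⟨T₀ + 2, N * M', N * (C' * (b + 3) + g) + (N + ((b + 2) * C' + g + 1)),
    Nat.mul_pos hN hM', fun t ht z v hz hv B hB => ?_⟩
  obtain ⟨u, hu, hui, huv⟩ := lift hF hs t z v hz hv
  have hib := init_bound t z u B hB hui
  have hz0 := fun n => zero_iff t v u huv n
  rcases Nat.eq_zero_or_pos B with hB0 | hB1
  · have hv0 : ∀ n, v n = 0 := by
      refine rec_ext hF t v (fun _ => 0) hv (fun n => by simp) fun i hi => ?_
      have h := hB i hi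
      rw [hB0, Nat.le_zero, Int.natAbs_eq_zero] at h
      rw [hz i hi, h, Int.cast_zero]
    exact ⟨fun n _ _ k => hv0 _, fun _ n _ _ k => hv0 _⟩
  obtain ⟨H, hH⟩ : ∃ H, H = height t := ⟨_, rfl⟩
  obtain ⟨X, hX⟩ : ∃ X, X = B * H + 2 := ⟨_, rfl⟩
  obtain ⟨L, hL⟩ : ∃ L, L = Nat.log 2 X + 1 := ⟨_, rfl⟩
  rw [← hH] at ht hib ⊢
  rw [← hX, ← hL]
  have hX2 : 2 ≤ X := by omega
  have hHX : H ≤ X := by
    have : H ≤ B * H := Nat.le_mul_of_pos_left _ hB1
    omega
  have hXL : X < 2 ^ L := by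
    rw [hL]
    exact Nat.lt_pow_succ_log_self (by norm_num) X
  have hL1 : 1 ≤ L := by omega
  have hLX : L ≤ X := by
    have := Nat.log_lt_self 2 (x := X) (by omega)
    omega
  have hY : ∀ i : Fin (d + 2),
      ((Fin.cons t.num (Fin.cons (t.den : ℤ) fun i : Fin d => u i) : Fin (d + 2) → ℤ) i).natAbs ≤
        X ^ (s * d + 1) := by
    have h1 : X ≤ X ^ (s * d + 1) := Nat.le_self_pow (by omega) X
    refine Fin.cases ?_ fun i => Fin.cases ?_ (fun i => ?_) i
    · rw [Fin.cons_zero]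
      have h2 : t.num.natAbs ≤ H := by rw [hH]; exact le_max_left _ _
      omega
    · rw [Fin.cons_succ, Fin.cons_zero, Int.natAbs_natCast]
      have h2 : t.den ≤ H := by rw [hH]; exact le_max_right _ _
      omega
    · rw [Fin.cons_succ, Fin.cons_succ]
      have h2 := le_pow_aux B H (s * d) (by omega)
      rw [← hX] at h2
      have h3 := hib i i.2
      omega
  have hS : ∀ q < N, ∀ i < f.natDegree, (MvPolynomial.eval (Fin.cons t.num
      (Fin.cons (t.den : ℤ) fun i : Fin d => u i) : Fin (d + 2) → ℤ) (W q i)).natAbs ≤ X ^ b := by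
    intro q hq i hi
    have h := ha q hq i hi _ (X ^ (s * d + 1)) (hX2.trans (Nat.le_self_pow (by omega) X)) hY
    rwa [← pow_mul, ← hb] at h
  have hS2 : X ^ b + 2 ≤ X ^ (b + 2) := by
    have h1 : 1 ≤ X ^ b := Nat.one_le_pow _ _ (by omega)
    have h2 : 4 ≤ X ^ 2 := by nlinarith
    rw [pow_add]
    nlinarith
  have key : ∀ m, ∃ w : ℕ → ℤ, RecZ f w ∧ (∀ i < f.natDegree, (w i).natAbs ≤ X ^ b) ∧
      (c * (s * d + 1) * L < m / N → v m = 0 → w (m / N) = 0) ∧
      ((∀ k, w (m / N % M' + k * M') = 0) → ∀ k, v (m % (N * M') + k * (N * M')) = 0) := by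
    intro m
    have hq : m % N < N := Nat.mod_lt _ (by omega)
    obtain ⟨w, hw, hwW, hw1, hw2⟩ := hR.red t.num t.den (coprime t)
      (by rw [mx_eq, ← hH]; omega) u hu (m % N) hq
    refine ⟨w, hw, fun i hi => ?_, fun hm hm0 => ?_, fun hk k => ?_⟩
    · rw [hwW i]
      exact hS _ hq i hi
    · refine hw2 (B * H ^ (s * d)) hib (m / N) ?_ ?_
      · rw [mx_eq, ← hH]
        refine lt_of_le_of_lt (bound_pow B H c (s * d)) ?_
        have h1 : (B * H) ^ (c * (s * d + 1)) ≤ (2 ^ L) ^ (c * (s * d + 1)) :=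
          Nat.pow_le_pow_left (by omega) _
        refine lt_of_le_of_lt h1 ?_
        rw [← pow_mul]
        have h2 : 2 ^ (L * (c * (s * d + 1))) < 2 ^ (m / N) := by
          refine Nat.pow_lt_pow_right (by norm_num) ?_
          rw [mul_comm]
          exact hm
        exact lt_of_lt_of_le h2 (Nat.pow_le_pow_left (by omega) _)
      · rw [Nat.mod_add_div]
        exact (hz0 m).2 hm0
    · have h1 : m % (N * M') + k * (N * M') = m % N + N * (m / N % M' + k * M') := by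
        rw [Nat.mod_mul]
        ring
      rw [h1]
      exact (hz0 _).1 (hw1 _ (hk k))
  refine ⟨fun m hm hm0 => ?_, fun hsep m hm hm0 => ?_⟩
  · obtain ⟨w, hw, hwS, hw1, hw2⟩ := key m
    have h1 : X ^ ((b + 2) * C' + g + 1) ≤ m / N := by
      rw [Nat.le_div_iff_mul_le hN]
      have h2 : N ≤ X ^ N := Nat.lt_two_pow_self.le.trans (Nat.pow_le_pow_left hX2 _)
      calc X ^ ((b + 2) * C' + g + 1) * N ≤ X ^ ((b + 2) * C' + g + 1) * X ^ N :=
            Nat.mul_le_mul_left _ h2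
        _ = X ^ (N + ((b + 2) * C' + g + 1)) := by rw [← pow_add, add_comm]
        _ ≤ X ^ (N * (C' * (b + 3) + g) + (N + ((b + 2) * C' + g + 1))) :=
            Nat.pow_le_pow_right (by omega) (by omega)
        _ ≤ m := hm
    refine hw2 ((hsg w hw (X ^ b) hwS).1 (m / N) ?_ (hw1 ?_ hm0))
    · calc (X ^ b + 2) ^ C' ≤ (X ^ (b + 2)) ^ C' := Nat.pow_le_pow_left hS2 _
        _ = X ^ ((b + 2) * C') := (pow_mul _ _ _).symm
        _ ≤ X ^ ((b + 2) * C' + g + 1) := Nat.pow_le_pow_right (by omega) (by omega)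
        _ ≤ m / N := h1
    · have h2 : g ≤ X ^ g := Nat.lt_two_pow_self.le.trans (Nat.pow_le_pow_left hX2 _)
      have h3 : g * L ≤ X ^ (g + 1) := by
        rw [pow_succ]
        exact Nat.mul_le_mul h2 hLX
      have h4 : X ^ (g + 1) ≤ X ^ ((b + 2) * C' + g + 1) :=
        Nat.pow_le_pow_right (by omega) (by omega)
      have h5 : c * (s * d + 1) * L < g * L := by
        rw [hg]
        exact Nat.mul_lt_mul_of_pos_right (by omega) hL1
      omega
  · obtain ⟨w, hw, hwS, hw1, hw2⟩ := key m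
    have h1 : (C' * (b + 3) + g) * L ≤ m / N := by
      rw [Nat.le_div_iff_mul_le hN]
      calc (C' * (b + 3) + g) * L * N = N * (C' * (b + 3) + g) * L := by ring
        _ ≤ (N * (C' * (b + 3) + g) + (N + ((b + 2) * C' + g + 1))) * L :=
          Nat.mul_le_mul_right _ (by omega)
        _ ≤ m := hm
    have hfs : (f.map (Int.castRingHom ℚ)).Separable := hsp (sep_of_member F hF.monic t hsep)
    refine hw2 ((hsg w hw (X ^ b) hwS).2 hfs (m / N) ?_ (hw1 ?_ hm0))
    · have h2 : Nat.log 2 (X ^ b + 2) ≤ (b + 2) * L := by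
        rw [hL]
        exact (Nat.log_mono_right hS2).trans (Single.log_pow_le _ _)
      calc C' * (Nat.log 2 (X ^ b + 2) + 1) ≤ C' * ((b + 3) * L) :=
            Nat.mul_le_mul_left _ (by nlinarith)
        _ = C' * (b + 3) * L := by ring
        _ ≤ (C' * (b + 3) + g) * L := Nat.mul_le_mul_right _ (by omega)
        _ ≤ m / N := h1
    · have h5 : c * (s * d + 1) * L < g * L := by
        rw [hg]
        exact Nat.mul_lt_mul_of_pos_right (by omega) hL1
      have h6 : g * L ≤ (C' * (b + 3) + g) * L := Nat.mul_le_mul_right _ (by omega)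
      omega

/-- **The bounds for the zeros of all members of a family.** -/
theorem allSimple (hSHN : StSHN) {d : ℕ} {F : ℤ[X][X]} (hF : Fam d F) :
    ∃ M C : ℕ, 1 ≤ M ∧ ∀ t : ℚ, aeval t (F.coeff 0) ≠ 0 → Good F d t M C := by
  obtain ⟨s, hs⟩ := exists_wt hF
  obtain ⟨T, M₁, C₁, hM₁, h₁⟩ := large hF hs hSHN
  obtain ⟨M₂, C₂, hM₂, h₂⟩ := finite hF hs
    (((finite_height T).toFinset.filter fun t => aeval t (F.coeff 0) ≠ 0).toList) (by
      intro t ht
      rw [Finset.mem_toList, Finset.mem_filter] at ht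
      exact ht.2)
  refine ⟨M₁ * M₂, C₁ + C₂, Nat.mul_pos hM₁ hM₂, fun t ht0 => ?_⟩
  by_cases ht : T ≤ height t
  · exact (h₁ t ht).mono (Dvd.intro _ rfl) (by omega)
  · refine (h₂ t ?_).mono (Dvd.intro_left _ rfl) (by omega)
    rw [Finset.mem_toList, Finset.mem_filter, Set.Finite.mem_toFinset]
    exact ⟨not_le.1 ht, ht0⟩

end Pool.Agent.Work.MP_8d13b5_lc.Fm.AllSimple
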