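import Pool.Agent.Work.MP_8d13b5_lc.Pd.Sol

set_option autoImplicit false

/-! Definitions for the block `Fm`: families of forms `lam_j` of the same degree. A form of degree
`d` in two variables is given by its dehomogenisation `P`, a polynomial of degree at most `d`. -/

namespace Pool.Agent.Work.MP_8d13b5_lc.Fm

open Polynomial NumberField Finset

/-- the value at `(x, y)` of the form of degree `d` with the dehomogenisation `P` -/
def hev {R : Type} [CommRing R] (d : ℕ) (P : R[X]) (x y : R) : R :=
  ∑ i ∈ range (d + 1), P.coeff i * x ^ i * y ^ (d - i)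

/-- the sum of the absolute values of the coefficients of `P` under `φ` -/
noncomputable def pn {R : Type} [CommRing R] (φ : R →+* ℂ) (P : R[X]) : ℝ :=
  ∑ i ∈ range (P.natDegree + 1), ‖φ (P.coeff i)‖

/-- the restriction of an embedding to the ring of integers -/
def res {K : Type} [Field K] (φ : K →+* ℂ) : 𝓞 K →+* ℂ := φ.comp (algebraMap (𝓞 K) K)

/-- the larger absolute value of `x`, `y` at the embedding `φ` -/
noncomputable def tt {K : Type} [Field K] (φ : K →+* ℂ) (x y : 𝓞 K) : ℝ :=
  max ‖res φ x‖ ‖res φ y‖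

/-- the height of `(x, y)` (not normalised) -/
noncomputable def TT {K : Type} [Field K] [NumberField K] (x y : 𝓞 K) : ℝ :=
  ∏ φ : K →+* ℂ, tt φ x y

/-- the height of the vector `a` (not normalised) -/
noncomputable def HH {K : Type} [Field K] [NumberField K] {k : ℕ} (a : Fin k → 𝓞 K) : ℝ :=
  ∏ φ : K →+* ℂ, ∑ j, ‖res φ (a j)‖

/-- forms of degree `e` in two variables, given by the polynomials `lam j`: not zero, pairwise not
proportional, without a common zero on the projective line -/
structure IsFam {R : Type} [CommRing R] {m : ℕ} (e : ℕ) (lam : Fin (m + 1) → R[X]) : Prop where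
  deg : ∀ j, (lam j).natDegree ≤ e
  top : ∃ j, (lam j).coeff e ≠ 0
  ne : ∀ j, lam j ≠ 0
  np : ∀ i j, i ≠ j → ∀ a b : R, C a * lam i = C b * lam j → a = 0
  cop : ∃ c : R, c ≠ 0 ∧ ∃ A : Fin (m + 1) → R[X], ∑ j, A j * lam j = C c

/-- the syzygies of `E` of degree at most `L` -/
def Syz {F : Type} [Field F] {k : ℕ} (E : Fin k → F[X]) (L : ℕ) :
    Submodule F (Fin k → F[X]) where
  carrier := {P | (∀ j, (P j).natDegree ≤ L) ∧ ∑ j, P j * E j = 0}
  zero_mem' := ⟨fun j => by simp, by simp⟩
  add_mem' := by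
    rintro P Q ⟨h1, h2⟩ ⟨h3, h4⟩
    refine ⟨fun j => (natDegree_add_le _ _).trans (max_le (h1 j) (h3 j)), ?_⟩
    simp only [Pi.add_apply, add_mul, sum_add_distrib, h2, h4, add_zero]
  smul_mem' := by
    rintro c P ⟨h1, h2⟩
    refine ⟨fun j => (natDegree_smul_le _ _).trans (h1 j), ?_⟩
    simp only [Pi.smul_apply, smul_mul_assoc, ← smul_sum, h2, smul_zero]

/-- the vectors of polynomials that depend on the vectors `Q s` -/
def DepM {F : Type} [Field F] {k r : ℕ} (Q : Fin r → Fin k → F[X]) :
    Submodule F (Fin k → F[X]) where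
  carrier := {P | ∃ c : F[X], c ≠ 0 ∧ c • P ∈ Submodule.span F[X] (Set.range Q)}
  zero_mem' := ⟨1, one_ne_zero, by simp⟩
  add_mem' := by
    rintro P P' ⟨c, hc, h⟩ ⟨c', hc', h'⟩
    refine ⟨c * c', mul_ne_zero hc hc', ?_⟩
    rw [smul_add, mul_comm c c', mul_smul, mul_comm c' c, mul_smul]
    exact add_mem (Submodule.smul_mem _ _ h) (Submodule.smul_mem _ _ h')
  smul_mem' := by
    rintro a P ⟨c, hc, h⟩
    refine ⟨c, hc, ?_⟩
    rw [smul_comm, ← algebraMap_smul F[X] a]
    exact Submodule.smul_mem _ _ h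

/-- the kernel over `K` of a matrix over the ring of integers -/
noncomputable def kerA {K : Type} [Field K] {ι κ : Type} [Fintype ι] (A : κ → ι → 𝓞 K) :
    Submodule K (ι → K) where
  carrier := {v | ∀ i, ∑ j, (A i j : K) * v j = 0}
  zero_mem' := fun i => by simp
  add_mem' := by
    intro v w hv hw i
    simp only [Pi.add_apply, mul_add, sum_add_distrib, hv i, hw i, add_zero]
  smul_mem' := by
    intro c v hv i
    simp only [Pi.smul_apply, smul_eq_mul, mul_left_comm, ← mul_sum, hv i, mul_zero]

/-- the maximal minor without the column `j`, with the sign -/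
noncomputable def mnr {R : Type} [CommRing R] {m : ℕ} (U : Fin m → Fin (m + 1) → R)
    (j : Fin (m + 1)) : R :=
  (-1) ^ (j : ℕ) * (Matrix.of fun i l => U i (j.succAbove l)).det

end Pool.Agent.Work.MP_8d13b5_lc.Fm
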