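import Pool.Agent.Work.MP_8d13b5_lc.Fm.Stmts

set_option autoImplicit false

/-! Definitions for the general (not split) families. A polynomial `F(t, X)` is an element of
`R[X][X]`: the outer variable is `X`, the inner variable is the parameter `t`. -/

namespace Pool.Agent.Work.MP_8d13b5_lc.Fm

open Polynomial NumberField Finset Module

/-- the specialisation `F(t₀, X)` -/
noncomputable def spc {R : Type} [CommRing R] (F : R[X][X]) (t₀ : R) : R[X] :=
  F.map (evalRingHom t₀)

/-- the value `F(T, Y)` in an algebra -/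
noncomputable def ev2 {R S : Type} [CommRing R] [CommRing S] [Algebra R S] (F : R[X][X])
    (T Y : S) : S :=
  F.eval₂ ((aeval T : R[X] →ₐ[R] S) : R[X] →+* S) Y

/-- the power series `P(t₀ + d s)` -/
noncomputable def tay {R : Type} [CommRing R] (P : R[X]) (t₀ d : R) : PowerSeries R :=
  PowerSeries.mk fun r => (hasseDeriv r P).eval t₀ * d ^ r

/-- The roots of `G(t, X)`, algebraic functions of `t`, are different, and no quotient of two
of them is a constant. -/
def NonConst (G : ℂ[X][X]) : Prop :=
  (G.map (algebraMap ℂ[X] (RatFunc ℂ))).Separable ∧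
    ∀ c : ℂ, c ≠ 0 → c ≠ 1 → IsCoprime (G.map (algebraMap ℂ[X] (RatFunc ℂ)))
      ((G.scaleRoots (C c)).map (algebraMap ℂ[X] (RatFunc ℂ)))

/-- Families of recurrences with the characteristic polynomial `F(t, X)`, monic of degree `m + 1` in
`X`: the constant coefficient is not zero, the coefficients `F_0, ..., F_m` are coprime, and the roots
are different with non constant quotients (in some complex embedding). -/
structure IsCrv {K : Type} [Field K] [NumberField K] (m : ℕ) (F : (𝓞 K)[X][X]) : Prop where
  monic : F.Monic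
  deg : F.natDegree = m + 1
  ne : F.coeff 0 ≠ 0
  cop : ∃ c : 𝓞 K, c ≠ 0 ∧ ∃ A : Fin (m + 1) → (𝓞 K)[X], ∑ i, A i * F.coeff (i : ℕ) = C c
  rat : ∃ φ : K →+* ℂ, NonConst (F.map (mapRingHom (res φ)))

/-- a submultiplicative seminorm -/
structure IsSn {A : Type} [CommRing A] (N : A → ℝ) : Prop where
  zero : N 0 = 0
  nonneg : ∀ a, 0 ≤ N a
  neg : ∀ a, N (-a) = N a
  add : ∀ a b, N (a + b) ≤ N a + N b
  mul : ∀ a b, N (a * b) ≤ N a * N b

/-- the size of an element of `R[x] = R[X] / (f)`: the sum of the absolute values under `φ` of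
the coordinates of all `a x ^ i`, `i < deg f` -/
noncomputable def sN {R : Type} [CommRing R] (φ : R →+* ℂ) (f : R[X]) (hf : f.Monic)
    (a : AdjoinRoot f) : ℝ :=
  ∑ i ∈ range f.natDegree, ∑ j ∈ range f.natDegree,
    ‖φ ((AdjoinRoot.modByMonicHom hf (a * AdjoinRoot.root f ^ i)).coeff j)‖

/-- the coordinate `j` of a power series over `R[x] = R[X] / (f)`, a power series over `R` -/
noncomputable def crd {R : Type} [CommRing R] (f : R[X]) (hf : f.Monic) (j : ℕ)
    (b : PowerSeries (AdjoinRoot f)) : PowerSeries R :=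
  PowerSeries.mk fun r => (AdjoinRoot.modByMonicHom hf (PowerSeries.coeff r b)).coeff j

end Pool.Agent.Work.MP_8d13b5_lc.Fm
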