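import Pool.Agent.Work.MP_8d13b5_lc.Fm.Stmts2

set_option autoImplicit false

/-! Definitions for the general families without the condition that the coefficients are coprime. -/

namespace Pool.Agent.Work.MP_8d13b5_lc.Fm

open Polynomial NumberField Finset Module

/-- Families of recurrences with the characteristic polynomial `F(t, X)`, monic of degree `m + 1` in
`X`: the constant coefficient is not zero and the roots are different with non constant quotients
(in some complex embedding). -/
structure IsCr0 {K : Type} [Field K] [NumberField K] (m : ℕ) (F : (𝓞 K)[X][X]) : Prop where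
  monic : F.Monic
  deg : F.natDegree = m + 1
  ne : F.coeff 0 ≠ 0
  rat : ∃ φ : K →+* ℂ, NonConst (F.map (mapRingHom (res φ)))

/-- the common factor `P` of the powers `F_i ^ (b / (m + 1 - i))` of the coefficients and the
coprime cofactors `w_i`, of largest degree `θ` -/
structure IsPi {R : Type} [CommRing R] (m : ℕ) (F : R[X][X]) (b θ : ℕ) (P : R[X])
    (w : ℕ → R[X]) (r₁ r₂ : R) : Prop where
  hb : 1 ≤ b
  dvd : ∀ i ≤ m, (m + 1 - i) ∣ b
  hP : P ≠ 0
  h1 : r₁ ≠ 0
  h2 : r₂ ≠ 0
  fac : ∀ i ≤ m, C r₁ * F.coeff i ^ (b / (m + 1 - i)) = P * w i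
  deg : ∀ i ≤ m, (w i).natDegree ≤ θ
  top : ∃ i ≤ m, w i ≠ 0 ∧ (w i).natDegree = θ
  bez : ∃ A : ℕ → R[X], ∑ i ∈ range (m + 1), A i * w i = C r₂

end Pool.Agent.Work.MP_8d13b5_lc.Fm
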