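import Pool.Agent.Work.MP_8d13b5_lc.Fm.StmtsEff
import Pool.Agent.Work.MP_8d13b5_lc.Fm.I_HNX
import Pool.Agent.Work.MP_8d13b5_lc.Fm.I_HEN

set_option autoImplicit false

/-! Item eHNX of block EFF: Hensel's lemma with a majorant, with effective constants. The constants are
`16 * (τ + 1) * Cc k τ ^ 2` and `2 * (4 * τ + 3 * k + 6) + 2`. -/

namespace Pool.Agent.Work.MP_8d13b5_lc.Fm

open Polynomial NumberField Finset Module

namespace EHNX

open HEN in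
/-- HEN with its constant. -/
theorem hen (I J : ℕ) (A : Type) [CommRing A] (g : ℕ → ℕ → A) (h00 : g 0 0 = 0)
    (h01 : g 0 1 = 0) : ∃ z : PowerSeries A, PowerSeries.constantCoeff z = 0 ∧
      z = ∑ i ∈ range (I + 1), ∑ j ∈ range (J + 1),
        PowerSeries.C (g i j) * PowerSeries.X ^ i * z ^ j ∧
      ∀ (N : A → ℝ) (M : ℝ), IsSn N → 1 ≤ M → (∀ i ≤ I, ∀ j ≤ J, N (g i j) ≤ M) →
        ∀ r, 1 ≤ r → N (PowerSeries.coeff r z) ≤ (16 * ((I : ℝ) + 1) * M ^ 2) ^ r := by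
  have hI0 : (0 : ℝ) ≤ (I : ℝ) := Nat.cast_nonneg I
  obtain ⟨z, hz, hfix⟩ := exists_fix I J g h00 h01
  refine ⟨z, hz, hfix, ?_⟩
  intro N M hN hM hg r _
  have hM0 : 0 < M := by linarith
  have h1 := bound I J g h00 h01 z hz hfix N M hN hM hg r
  set ρ : ℝ := 1 / (16 * ((I : ℝ) + 1) * M ^ 2) with hρd
  have hρ0 : 0 < ρ := by rw [hρd]; positivity
  have h2 : N (PowerSeries.coeff r z) * ρ ^ r ≤ wt N ρ r z := by
    unfold wt
    exact single_le_sum (f := fun r => N (PowerSeries.coeff r z) * ρ ^ r)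
      (fun s _ => mul_nonneg (hN.nonneg _) (pow_nonneg hρ0.le s)) (mem_range.2 (Nat.lt_succ_self r))
  have h3 : N (PowerSeries.coeff r z) * ρ ^ r ≤ 1 := by
    refine (h2.trans h1).trans ?_
    rw [div_le_one (by positivity)]
    linarith
  have h4 : (16 * ((I : ℝ) + 1) * M ^ 2) ^ r * ρ ^ r = 1 := by
    rw [← mul_pow, hρd, mul_one_div_cancel (by positivity), one_pow]
  have h5 : 0 < ρ ^ r := pow_pos hρ0 r
  rw [← h4] at h3
  exact le_of_mul_le_mul_right h3 h5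

/-- the majorant of the constants -/
def gx (x : ℕ) : ℕ :=
  16 * (x + 1) * ((x + 1) * 2 ^ x * ((x + 1) * 2 ^ x)) ^ 2 + (2 * (4 * x + 3 * x + 6) + 2)

theorem tow_gx : Tow gx := by
  have h1 : Tow (fun x => x + 1) := Tow.id.add (Tow.const 1)
  have h2 : Tow (fun x => (x + 1) * 2 ^ x) := h1.mul Tow.id.two_pow
  have h3 : Tow (fun x => (x + 1) * 2 ^ x * ((x + 1) * 2 ^ x)) := h2.mul h2
  have h4 : Tow (fun x => ((x + 1) * 2 ^ x * ((x + 1) * 2 ^ x)) ^ 2) :=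
    h3.pow (Tow.const 2) (fun x => Nat.succ_le_of_lt (by positivity))
  have h5 : Tow (fun x => 16 * (x + 1)) := (Tow.const 16).mul h1
  have h6 : Tow (fun x => 4 * x + 3 * x + 6) :=
    (((Tow.const 4).mul Tow.id).add ((Tow.const 3).mul Tow.id)).add (Tow.const 6)
  exact (h5.mul h4).add (((Tow.const 2).mul h6).add (Tow.const 2))

theorem le_gx (k τ : ℕ) : 16 * ((τ : ℝ) + 1) * HNX.Cc k τ ^ 2 ≤ gx (k + τ) := by
  have hk : (k : ℝ) ≤ ((k + τ : ℕ) : ℝ) := by exact_mod_cast Nat.le_add_right k τ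
  have ht : (τ : ℝ) ≤ ((k + τ : ℕ) : ℝ) := by exact_mod_cast Nat.le_add_left τ k
  have hk2 : (2 : ℝ) ^ k ≤ 2 ^ (k + τ) := pow_le_pow_right₀ (by norm_num) (Nat.le_add_right k τ)
  have ht2 : (2 : ℝ) ^ τ ≤ 2 ^ (k + τ) := pow_le_pow_right₀ (by norm_num) (Nat.le_add_left τ k)
  have h1 : HNX.Cc k τ ≤ (((k + τ : ℕ) : ℝ) + 1) * 2 ^ (k + τ) *
      ((((k + τ : ℕ) : ℝ) + 1) * 2 ^ (k + τ)) := by
    unfold HNX.Cc
    refine mul_le_mul (mul_le_mul ?_ hk2 (by positivity) (by positivity))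
      (mul_le_mul ?_ ht2 (by positivity) (by positivity)) (by positivity) (by positivity)
    · linarith
    · linarith
  have h0 : 0 ≤ HNX.Cc k τ := zero_le_one.trans (HNX.Cc_one k τ)
  have h2 := pow_le_pow_left₀ h0 h1 2
  have h3 : 16 * ((τ : ℝ) + 1) ≤ 16 * (((k + τ : ℕ) : ℝ) + 1) := by linarith
  have h4 := mul_le_mul h3 h2 (by positivity) (by positivity)
  refine h4.trans ?_
  have e : ((gx (k + τ) : ℕ) : ℝ) = 16 * (((k + τ : ℕ) : ℝ) + 1) *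
      ((((k + τ : ℕ) : ℝ) + 1) * 2 ^ (k + τ) * ((((k + τ : ℕ) : ℝ) + 1) * 2 ^ (k + τ))) ^ 2 +
      ((2 * (4 * (k + τ) + 3 * (k + τ) + 6) + 2 : ℕ) : ℝ) := by
    unfold gx
    push_cast
    ring
  rw [e]
  exact le_add_of_nonneg_right (Nat.cast_nonneg _)

theorem s_le_gx (k τ : ℕ) : 2 * (4 * τ + 3 * k + 6) + 2 ≤ gx (k + τ) := by
  have h : 2 * (4 * τ + 3 * k + 6) + 2 ≤ 2 * (4 * (k + τ) + 3 * (k + τ) + 6) + 2 := by omega
  exact h.trans (Nat.le_add_left _ _)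

end EHNX

/-- Item eHNX. -/
theorem peHNX : SeHNX := by
  refine ⟨EHNX.gx, EHNX.tow_gx, ?_⟩
  intro k τ
  have hH := EHNX.hen τ k
  have hτ0 : (0 : ℝ) ≤ (τ : ℝ) := Nat.cast_nonneg τ
  have hC₀ : (1 : ℝ) ≤ 16 * ((τ : ℝ) + 1) := by linarith
  refine ⟨16 * ((τ : ℝ) + 1) * HNX.Cc k τ ^ 2, 2 * (4 * τ + 3 * k + 6) + 2, ?_, EHNX.le_gx k τ,
    EHNX.s_le_gx k τ, ?_⟩
  · exact one_le_mul_of_one_le_of_one_le hC₀ (one_le_pow₀ (HNX.Cc_one k τ))
  intro R A _ _ _ F t₀ Δ c x xs ds hk hτ h0 h1 hxs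
  have hg00 : HNX.gg k F t₀ Δ c x ds 0 0 = 0 := by
    rw [HNX.gg, if_pos rfl, if_pos (by omega)]
  have hg01 : HNX.gg k F t₀ Δ c x ds 0 1 = 0 := by
    rw [HNX.gg, if_pos rfl, if_pos (by omega)]
  obtain ⟨z, hz0, hz, hb⟩ := hH A (HNX.gg k F t₀ Δ c x ds) hg00 hg01
  refine ⟨1 + PowerSeries.C (algebraMap R A Δ * xs) * z, ?_, ?_, ?_⟩
  · rw [map_add, map_mul, hz0, mul_zero, add_zero, map_one]
  · have e : PowerSeries.C x * (1 + PowerSeries.C (algebraMap R A Δ * xs) * z) =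
        PowerSeries.C x + PowerSeries.C (algebraMap R A (Δ * c)) * z := by
      have e1 : algebraMap R A (Δ * c) = x * (algebraMap R A Δ * xs) := by
        rw [map_mul, ← hxs]
        ring
      rw [e1, map_mul PowerSeries.C x, mul_add, mul_one, mul_assoc]
    rw [e]
    exact HNX.zero_of F k τ hk hτ t₀ Δ c x ds h0 h1 z hz
  · intro N M hN hM hN1 ht hx hxs' hds hΔ hc hF r hr
    have hM0 : 0 ≤ M := by linarith
    have hCc := HNX.Cc_one k τ
    have hM' : 1 ≤ HNX.Cc k τ * M ^ (4 * τ + 3 * k + 6) :=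
      one_le_mul_of_one_le_of_one_le hCc (one_le_pow₀ hM)
    have hzr := hb N _ hN hM' (fun i hi j hj => HNX.bd_gg hN hM hN1 F k τ t₀ Δ c x ds ht hx hds hΔ hc
      hF hτ i j hi hj) r hr
    have e : PowerSeries.coeff r (1 + PowerSeries.C (algebraMap R A Δ * xs) * z) =
        algebraMap R A Δ * xs * PowerSeries.coeff r z := by
      rw [map_add, PowerSeries.coeff_one, if_neg (by omega), zero_add, PowerSeries.coeff_C_mul]
    rw [e]
    refine (HNX.sn_mul hN (HNX.sn_mul hN hΔ hxs') hzr).trans ?_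
    have h4 : M * M ≤ (M ^ 2) ^ r := by
      rw [← pow_two]
      exact le_self_pow₀ (one_le_pow₀ hM) (by omega)
    refine (mul_le_mul_of_nonneg_right h4 (by positivity)).trans (le_of_eq ?_)
    rw [← mul_pow]
    congr 1
    ring

end Pool.Agent.Work.MP_8d13b5_lc.Fm
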