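import Pool.Agent.Work.MP_8d13b5_lc.Fm.StmtsW

set_option autoImplicit false

/-! Block `Fm`, item FDR (helper57): derivation and degree. -/

namespace Pool.Agent.Work.MP_8d13b5_lc.Fm

open Polynomial NumberField Finset Module

namespace FDR

variable {E : Type} [Field E] [Algebra ℂ E]

lemma D_smul (D : Derivation ℤ E E) (dc : ∀ c : ℂ, D (algebraMap ℂ E c) = 0) (c : ℂ) (x : E) :
    D (c • x) = c • D x := by
  rw [Algebra.smul_def, D.leibniz, dc, smul_zero, add_zero, smul_eq_mul, Algebra.smul_def]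

lemma D_aeval {D : Derivation ℤ E E} {τ : E} (tau : D τ = 1)
    (dc : ∀ c : ℂ, D (algebraMap ℂ E c) = 0) (P : ℂ[X]) :
    D (aeval τ P) = aeval τ (derivative P) := by
  induction P using Polynomial.induction_on' with
  | add p q hp hq => simp [hp, hq]
  | monomial n a =>
    rw [aeval_monomial, D.leibniz, dc, smul_zero, add_zero, derivative_monomial, aeval_monomial,
      D.leibniz_pow, tau]
    simp [mul_assoc]

omit [Algebra ℂ E] in
lemma D_pow (D : Derivation ℤ E E) {x : E} (hx : x ≠ 0) (n : ℕ) :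
    D (x ^ n) = x ^ n * (n * (D x / x)) := by
  rcases n with _ | n
  · simp
  · rw [D.leibniz_pow]
    simp only [Nat.add_sub_cancel, nsmul_eq_mul, smul_eq_mul]
    field_simp
    ring

omit [Algebra ℂ E] in
lemma D_prod (D : Derivation ℤ E E) {ι : Type} [DecidableEq ι] (s : Finset ι) (f g : ι → E)
    (h : ∀ i ∈ s, D (f i) = f i * g i) :
    D (∏ i ∈ s, f i) = (∏ i ∈ s, f i) * ∑ i ∈ s, g i := by
  induction s using Finset.induction_on with
  | empty => simp
  | insert a s ha ih =>
    rw [prod_insert ha, sum_insert ha, D.leibniz, ih fun i hi => h i (mem_insert_of_mem hi),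
      h a (mem_insert_self a s)]
    simp only [smul_eq_mul]
    ring

/-- The elements of finite degree are a subalgebra. -/
def SA (h : StFLA) {k : ℕ} (τ : E) (lam : Fin k → E) (w : ℕ) : Subalgebra ℂ E where
  carrier := {x | ∃ d, x ∈ Fil τ lam w d}
  mul_mem' := by
    rintro x y ⟨d, hd⟩ ⟨d', hd'⟩
    exact ⟨d + d', (h E k τ lam w).2.2.1 d d' x y hd hd'⟩
  add_mem' := by
    rintro x y ⟨d, hd⟩ ⟨d', hd'⟩
    exact ⟨max d d', add_mem ((h E k τ lam w).1 _ _ (le_max_left _ _) hd)
      ((h E k τ lam w).1 _ _ (le_max_right _ _) hd')⟩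
  algebraMap_mem' := by
    intro c
    refine ⟨0, ?_⟩
    rw [Algebra.algebraMap_eq_smul_one]
    exact Submodule.smul_mem _ _ (h E k τ lam w).2.1

end FDR

open FDR in
theorem prFDR (h1 : StFLA) : StFDR := by
  intro m G E _ _ D τ lam w hd
  classical
  obtain ⟨hmono, hone, hmul, hpol, hlam, hpow⟩ := h1 E (m + 1) τ lam w
  set A := SA h1 τ lam w with hA
  have hAτ : ∀ P : ℂ[X], aeval τ P ∈ A := fun P => ⟨_, hpol P⟩
  have hAl : ∀ j, lam j ∈ A := fun j => ⟨_, hlam j⟩
  -- the value of the derivative with respect to `X`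
  set F : E[X] := G.map ((aeval τ : ℂ[X] →ₐ[ℂ] E) : ℂ[X] →+* E) with hF
  have hFc : ∀ i, F.coeff i = aeval τ (G.coeff i) := fun i => by
    rw [hF, coeff_map]
    rfl
  have hev : ∀ j, F.eval (lam j) = 0 := fun j => by
    rw [hF, hd.split, eval_prod]
    exact prod_eq_zero (mem_univ j) (by simp)
  have hsep : F.Separable := by
    rw [hF, hd.split]
    exact separable_prod_X_sub_C_iff.2 hd.inj
  have hg0 : ∀ j, (derivative F).eval (lam j) ≠ 0 := fun j => by
    have h := hsep.eval₂_derivative_ne_zero (RingHom.id E) (x := lam j)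
      (by simpa [eval₂_id] using hev j)
    simpa [eval₂_id] using h
  have hgA : ∀ j, (derivative F).eval (lam j) ∈ A := fun j => by
    rw [eval_eq_sum_range]
    refine A.sum_mem fun i _ => A.mul_mem ?_ (A.pow_mem (hAl j) i)
    rw [coeff_derivative, hFc]
    refine A.mul_mem (hAτ _) ?_
    exact_mod_cast A.natCast_mem (i + 1)
  -- the derivative of `lam j`
  have hD : ∀ j, (derivative F).eval (lam j) * D (lam j) =
      -∑ i ∈ range (F.natDegree + 1), aeval τ (derivative (G.coeff i)) * lam j ^ i := fun j => by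
    have e1 : F.eval (lam j) = ∑ i ∈ range (F.natDegree + 1), F.coeff i * lam j ^ i :=
      eval_eq_sum_range _
    have e2 : (derivative F).eval (lam j) =
        ∑ i ∈ range (F.natDegree + 1), F.coeff i * (i * lam j ^ (i - 1)) := by
      rw [derivative_eval, sum_over_range' _ _ _ (Nat.lt_succ_self _)]
      · exact sum_congr rfl fun i _ => by ring
      · intro n
        simp
    have e3 := congrArg D (e1.symm.trans (hev j))
    rw [map_sum, map_zero] at e3
    rw [eq_neg_iff_add_eq_zero, ← e3, e2, sum_mul, ← sum_add_distrib]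
    refine sum_congr rfl fun i _ => ?_
    rw [D.leibniz, D.leibniz_pow, hFc, D_aeval hd.tau hd.dc]
    simp only [smul_eq_mul, nsmul_eq_mul]
    ring
  have hhA : ∀ j, (derivative F).eval (lam j) * D (lam j) ∈ A := fun j => by
    rw [hD j]
    exact A.neg_mem (A.sum_mem fun i _ => A.mul_mem (hAτ _) (A.pow_mem (hAl j) i))
  set δ : E := ∏ j, ((derivative F).eval (lam j) * lam j) with hδ
  have hδ0 : δ ≠ 0 := prod_ne_zero_iff.2 fun j _ => mul_ne_zero (hg0 j) (hd.ne j)
  have hδA : δ ∈ A := A.prod_mem fun j _ => A.mul_mem (hgA j) (hAl j)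
  have hfA : ∀ j, δ * (D (lam j) / lam j) ∈ A := fun j => by
    have e : δ * (D (lam j) / lam j) = (∏ l ∈ univ.erase j, ((derivative F).eval (lam l) * lam l)) *
        ((derivative F).eval (lam j) * D (lam j)) := by
      rw [hδ, ← mul_prod_erase univ _ (mem_univ j)]
      have := hd.ne j
      field_simp
    rw [e]
    exact A.mul_mem (A.prod_mem fun l _ => A.mul_mem (hgA l) (hAl l)) (hhA j)
  obtain ⟨c0, hc0⟩ := hδA
  choose cf hcf using hfA
  set c := c0 + ∑ j, cf j with hc
  have hδc : δ ∈ Fil τ lam w c := hmono _ _ (Nat.le_add_right _ _) hc0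
  have hfc : ∀ j, δ * (D (lam j) / lam j) ∈ Fil τ lam w c := fun j =>
    hmono _ _ ((single_le_sum (f := cf) (fun _ _ => Nat.zero_le _) (mem_univ j)).trans
      (Nat.le_add_left _ _)) (hcf j)
  refine ⟨δ, c, hδ0, fun d x hx => ?_, hfc⟩
  refine Submodule.span_induction ?_ ?_ ?_ ?_ hx
  · rintro _ ⟨i, ν, hle, rfl⟩
    have eP : D (∏ j, lam j ^ ν j) = (∏ j, lam j ^ ν j) * ∑ j, (ν j * (D (lam j) / lam j)) :=
      D_prod D univ _ _ fun j _ => D_pow D (hd.ne j) (ν j)
    have e : δ * D (τ ^ i * ∏ j, lam j ^ ν j) =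
        (i : ℂ) • (δ * (τ ^ (i - 1) * ∏ j, lam j ^ ν j)) +
          (τ ^ i * ∏ j, lam j ^ ν j) * ∑ j, (ν j : ℂ) • (δ * (D (lam j) / lam j)) := by
      rw [D.leibniz, D.leibniz_pow, hd.tau, eP]
      simp only [smul_eq_mul, nsmul_eq_mul]
      simp only [Algebra.smul_def, map_natCast, mul_sum]
      rw [mul_add, add_comm]
      congr 1
      · ring
      · rw [mul_sum]
        exact sum_congr rfl fun j _ => by ring
    rw [e]
    refine add_mem ?_ ?_
    · refine Submodule.smul_mem _ _ ?_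
      rw [mul_comm]
      refine hmul _ _ _ _ (Submodule.subset_span ⟨i - 1, ν, by omega, rfl⟩) hδc
    · refine hmul _ _ _ _ (Submodule.subset_span ⟨i, ν, hle, rfl⟩) ?_
      exact sum_mem fun j _ => Submodule.smul_mem _ _ (hfc j)
  · rw [map_zero, mul_zero]
    exact Submodule.zero_mem _
  · intro x y _ _ h3 h4
    rw [map_add, mul_add]
    exact add_mem h3 h4
  · intro a x _ h3
    rw [D_smul D hd.dc, mul_smul_comm]
    exact Submodule.smul_mem _ _ h3

end Pool.Agent.Work.MP_8d13b5_lc.Fm
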