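import Pool.Agent.Work.MP_8d13b5_lc.Fm.StmtsEff
import Pool.Agent.Work.MP_8d13b5_lc.Fm.I_VFD

set_option autoImplicit false

/-! Item eVFD of block EFF: derivation and degree, with an effective constant. -/

namespace Pool.Agent.Work.MP_8d13b5_lc.Fm

open Polynomial NumberField Finset Module


open FDR VFD in
theorem peVFD (h1 : StFLA) : SeVFD := by
  refine ⟨fun x => (x + 1) * (x + x * x + x) + (x + x * (x + 1)), ?_, fun m w => ?_⟩
  · exact (((Tow.id.add (Tow.const 1)).mul ((Tow.id.add (Tow.id.mul Tow.id)).add Tow.id)).add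
      (Tow.id.add (Tow.id.mul (Tow.id.add (Tow.const 1)))))
  refine ⟨(m + 1) * (w + w * m + w) + (w + w * (m + 1)), ?_, ?_⟩
  · have hm : m ≤ m + w := Nat.le_add_right m w
    have hw : w ≤ m + w := Nat.le_add_left w m
    show (m + 1) * (w + w * m + w) + (w + w * (m + 1)) ≤
      ((m + w) + 1) * ((m + w) + (m + w) * (m + w) + (m + w)) +
        ((m + w) + (m + w) * ((m + w) + 1))
    gcongr
  intro G E _ _ D τ lam hmon hdeg hw hd
  classical
  obtain ⟨hmono, hone, hmul, hpol, hlam, hpow⟩ := h1 E (m + 1) τ lam w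
  have hpol' : ∀ P : ℂ[X], P.natDegree ≤ w → aeval τ P ∈ Fil τ lam w w := fun P hP =>
    hmono _ _ hP (hpol P)
  have hlp : ∀ j i, lam j ^ i ∈ Fil τ lam w (w * i) := fun j i => by
    rw [mul_comm]
    exact hpow w (lam j) i (hlam j)
  -- the value of the derivative with respect to `X`
  set F : E[X] := G.map ((aeval τ : ℂ[X] →ₐ[ℂ] E) : ℂ[X] →+* E) with hF
  have hFd : F.natDegree = m + 1 := by rw [hF, hmon.natDegree_map, hdeg]
  have hFc : ∀ i, F.coeff i = aeval τ (G.coeff i) := fun i => by
    rw [hF, coeff_map]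
    rfl
  have hev : ∀ j, F.eval (lam j) = 0 := fun j => by
    rw [hF, hd.split, eval_prod]
    exact prod_eq_zero (mem_univ j) (by simp)
  have hsep : F.Separable := by
    rw [hF, hd.split]
    exact separable_prod_X_sub_C_iff.2 hd.inj
  have hg0 : ∀ j, (derivative F).eval (lam j) ≠ 0 := fun j => by
    have h := hsep.eval₂_derivative_ne_zero (RingHom.id E) (x := lam j)
      (by simpa [eval₂_id] using hev j)
    simpa [eval₂_id] using h
  have hgA : ∀ j, (derivative F).eval (lam j) ∈ Fil τ lam w (w + w * m) := fun j => by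
    rw [eval_eq_sum_range]
    refine sum_mem fun i hi => ?_
    have hi' : i ≤ m := by
      have h2 := natDegree_derivative_le F
      have h3 := mem_range.1 hi
      omega
    rw [coeff_derivative, hFc]
    have h2 : aeval τ (G.coeff (i + 1)) * ((i : E) + 1) * lam j ^ i =
        ((i + 1 : ℕ) : ℂ) • (aeval τ (G.coeff (i + 1)) * lam j ^ i) := by
      rw [Algebra.smul_def, map_natCast]
      push_cast
      ring
    rw [h2]
    refine Submodule.smul_mem _ _ (hmono _ _ ?_ (hmul _ _ _ _ (hpol' _ (hw (i + 1))) (hlp j i)))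
    exact Nat.add_le_add_left (Nat.mul_le_mul_left w hi') w
  -- the derivative of `lam j`
  have hD : ∀ j, (derivative F).eval (lam j) * D (lam j) =
      -∑ i ∈ range (F.natDegree + 1), aeval τ (derivative (G.coeff i)) * lam j ^ i := fun j => by
    have e1 : F.eval (lam j) = ∑ i ∈ range (F.natDegree + 1), F.coeff i * lam j ^ i :=
      eval_eq_sum_range _
    have e2 : (derivative F).eval (lam j) =
        ∑ i ∈ range (F.natDegree + 1), F.coeff i * (i * lam j ^ (i - 1)) := by
      rw [derivative_eval, sum_over_range' _ _ _ (Nat.lt_succ_self _)]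
      · exact sum_congr rfl fun i _ => by ring
      · intro n
        simp
    have e3 := congrArg D (e1.symm.trans (hev j))
    rw [map_sum, map_zero] at e3
    rw [eq_neg_iff_add_eq_zero, ← e3, e2, sum_mul, ← sum_add_distrib]
    refine sum_congr rfl fun i _ => ?_
    rw [D.leibniz, D.leibniz_pow, hFc, D_aeval hd.tau hd.dc]
    simp only [smul_eq_mul, nsmul_eq_mul]
    ring
  have hhA : ∀ j, (derivative F).eval (lam j) * D (lam j) ∈ Fil τ lam w (w + w * (m + 1)) :=
    fun j => by
    rw [hD j]
    refine Submodule.neg_mem _ (sum_mem fun i hi => ?_)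
    have hi' : i ≤ m + 1 := by
      have h3 := mem_range.1 hi
      omega
    have h2 : (derivative (G.coeff i)).natDegree ≤ w :=
      (natDegree_derivative_le _).trans ((Nat.sub_le _ _).trans (hw i))
    refine hmono _ _ ?_ (hmul _ _ _ _ (hpol' _ h2) (hlp j i))
    exact Nat.add_le_add_left (Nat.mul_le_mul_left w hi') w
  have hgl : ∀ j, (derivative F).eval (lam j) * lam j ∈ Fil τ lam w (w + w * m + w) := fun j =>
    hmul _ _ _ _ (hgA j) (hlam j)
  set δ : E := ∏ j, ((derivative F).eval (lam j) * lam j) with hδ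
  have hδ0 : δ ≠ 0 := prod_ne_zero_iff.2 fun j _ => mul_ne_zero (hg0 j) (hd.ne j)
  set c := (m + 1) * (w + w * m + w) + (w + w * (m + 1)) with hc
  have hδc : δ ∈ Fil τ lam w c := by
    have h2 := prod_mem' h1 τ lam w univ (fun j => (derivative F).eval (lam j) * lam j) _
      fun j _ => hgl j
    rw [card_univ, Fintype.card_fin] at h2
    exact hmono _ _ (Nat.le_add_right _ _) h2
  have hfc : ∀ j, δ * (D (lam j) / lam j) ∈ Fil τ lam w c := fun j => by
    have e : δ * (D (lam j) / lam j) = (∏ l ∈ univ.erase j, ((derivative F).eval (lam l) * lam l)) *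
        ((derivative F).eval (lam j) * D (lam j)) := by
      rw [hδ, ← mul_prod_erase univ _ (mem_univ j)]
      have := hd.ne j
      field_simp
    rw [e]
    have h2 := prod_mem' h1 τ lam w (univ.erase j)
      (fun j => (derivative F).eval (lam j) * lam j) _ fun j _ => hgl j
    refine hmono _ _ ?_ (hmul _ _ _ _ h2 (hhA j))
    refine Nat.add_le_add_right (Nat.mul_le_mul_right _ ?_) _
    exact (card_le_univ _).trans (by rw [Fintype.card_fin])
  refine ⟨δ, hδ0, fun d x hx => ?_, hfc⟩
  refine Submodule.span_induction ?_ ?_ ?_ ?_ hx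
  · rintro _ ⟨i, ν, hle, rfl⟩
    have eP : D (∏ j, lam j ^ ν j) = (∏ j, lam j ^ ν j) * ∑ j, (ν j * (D (lam j) / lam j)) :=
      D_prod D univ _ _ fun j _ => D_pow D (hd.ne j) (ν j)
    have e : δ * D (τ ^ i * ∏ j, lam j ^ ν j) =
        (i : ℂ) • (δ * (τ ^ (i - 1) * ∏ j, lam j ^ ν j)) +
          (τ ^ i * ∏ j, lam j ^ ν j) * ∑ j, (ν j : ℂ) • (δ * (D (lam j) / lam j)) := by
      rw [D.leibniz, D.leibniz_pow, hd.tau, eP]
      simp only [smul_eq_mul, nsmul_eq_mul]
      simp only [Algebra.smul_def, map_natCast, mul_sum]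
      rw [mul_add, add_comm]
      congr 1
      · ring
      · rw [mul_sum]
        exact sum_congr rfl fun j _ => by ring
    rw [e]
    refine add_mem ?_ ?_
    · refine Submodule.smul_mem _ _ ?_
      rw [mul_comm]
      refine hmul _ _ _ _ (Submodule.subset_span ⟨i - 1, ν, by omega, rfl⟩) hδc
    · refine hmul _ _ _ _ (Submodule.subset_span ⟨i, ν, hle, rfl⟩) ?_
      exact sum_mem fun j _ => Submodule.smul_mem _ _ (hfc j)
  · rw [map_zero, mul_zero]
    exact Submodule.zero_mem _
  · intro x y _ _ h3 h4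
    rw [map_add, mul_add]
    exact add_mem h3 h4
  · intro a x _ h3
    rw [D_smul D hd.dc, mul_smul_comm]
    exact Submodule.smul_mem _ _ h3

end Pool.Agent.Work.MP_8d13b5_lc.Fm
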