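import Pool.Agent.Work.MP_8d13b5_lc.Fm.StmtsEx

set_option autoImplicit false

/-! Item XA1 of block EFF: the explicit family, degree, weights, heights, specialisation. -/

namespace Pool.Agent.Work.MP_8d13b5_lc.Fm

open Polynomial NumberField Finset Module

namespace EXA1

/-- the factor number `j` -/
noncomputable def fac (k j : ℕ) : ℤ[X][X] :=
  X ^ 2 - C (C (2 * ((j : ℤ) + 1))) * X + C (C ((2 * k).factorial : ℤ) * X ^ 2 + 1)

/-- its majorant -/
noncomputable def maj (k j : ℕ) : ℕ[X][X] :=
  X ^ 2 + C (C (2 * (j + 1))) * X + C (C ((2 * k).factorial) * X ^ 2 + 1)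

/-- coefficientwise domination -/
def Maj (F : ℤ[X][X]) (A : ℕ[X][X]) : Prop :=
  ∀ i j, ((F.coeff i).coeff j).natAbs ≤ (A.coeff i).coeff j

theorem fac_eq (k j : ℕ) : fac k j =
    X ^ 2 + (C (-C (2 * ((j : ℤ) + 1))) * X + C (C ((2 * k).factorial : ℤ) * X ^ 2 + 1)) := by
  unfold fac
  rw [map_neg]
  ring

theorem fac_monic (k j : ℕ) : (fac k j).Monic := by
  rw [fac_eq]
  refine monic_X_pow_add (n := 2) ?_
  exact lt_of_le_of_lt degree_linear_le (by norm_num)

theorem fac_deg (k j : ℕ) : (fac k j).natDegree = 2 := by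
  rw [fac_eq]
  have h : (X ^ 2 + (C (-C (2 * ((j : ℤ) + 1))) * X +
      C (C ((2 * k).factorial : ℤ) * X ^ 2 + 1)) : ℤ[X][X]).degree = 2 := by
    rw [degree_add_eq_left_of_degree_lt]
    · exact degree_X_pow 2
    · rw [degree_X_pow]
      exact lt_of_le_of_lt degree_linear_le (by norm_num)
  exact natDegree_eq_of_degree_eq_some h

theorem fac_coeff0 (k j : ℕ) :
    (fac k j).coeff 0 = C ((2 * k).factorial : ℤ) * X ^ 2 + 1 := by
  rw [coeff_zero_eq_eval_zero]
  unfold fac
  simp only [eval_add, eval_sub, eval_mul, eval_pow, eval_X, eval_C]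
  ring

theorem fac_coeff1 (k j : ℕ) : (fac k j).coeff 1 = -C (2 * ((j : ℤ) + 1)) := by
  unfold fac
  rw [coeff_add, coeff_sub, coeff_X_pow, coeff_C_mul, coeff_X_one, coeff_C_succ]
  simp

theorem fac_coeff2 (k j : ℕ) : (fac k j).coeff 2 = 1 := by
  have h := fac_monic k j
  unfold Polynomial.Monic leadingCoeff at h
  rwa [fac_deg] at h

theorem fac_coeff_big (k j i : ℕ) (h : 2 < i) : (fac k j).coeff i = 0 :=
  coeff_eq_zero_of_natDegree_lt (by rw [fac_deg]; exact h)

theorem fac_wt (k j : ℕ) : Wt 1 (fac k j) := by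
  intro i
  rw [fac_deg]
  rcases Nat.lt_or_ge 2 i with h | h
  · rw [fac_coeff_big k j i h, natDegree_zero]
    exact Nat.zero_le _
  · interval_cases i
    · rw [fac_coeff0]
      have h1 : (C ((2 * k).factorial : ℤ) * X ^ 2 + 1 : ℤ[X]).natDegree ≤ 2 := by
        compute_degree
      simpa using h1
    · rw [fac_coeff1, natDegree_neg, natDegree_C]
      exact Nat.zero_le _
    · rw [fac_coeff2, natDegree_one]

theorem Maj_mul {F G : ℤ[X][X]} {A B : ℕ[X][X]} (hF : Maj F A) (hG : Maj G B) :
    Maj (F * G) (A * B) := by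
  intro i j
  rw [coeff_mul, coeff_mul, finset_sum_coeff, finset_sum_coeff]
  refine (Int.natAbs_sum_le _ _).trans (sum_le_sum fun p _ => ?_)
  rw [coeff_mul, coeff_mul]
  refine (Int.natAbs_sum_le _ _).trans (sum_le_sum fun q _ => ?_)
  rw [Int.natAbs_mul]
  exact Nat.mul_le_mul (hF _ _) (hG _ _)

theorem Maj_one : Maj 1 1 := by
  intro i j
  rw [coeff_one, coeff_one]
  split_ifs
  · rw [coeff_one, coeff_one]
    split_ifs <;> simp
  · simp

theorem Maj_prod (k : ℕ) (h : ∀ j, Maj (fac k j) (maj k j)) (s : Finset ℕ) :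
    Maj (∏ j ∈ s, fac k j) (∏ j ∈ s, maj k j) := by
  classical
  induction s using Finset.induction_on with
  | empty =>
    rw [prod_empty, prod_empty]
    exact Maj_one
  | insert a s ha ih =>
    rw [prod_insert ha, prod_insert ha]
    exact Maj_mul (h a) ih

theorem maj_coeff (k j i l : ℕ) : ((maj k j).coeff i).coeff l =
    (if i = 2 ∧ l = 0 then 1 else 0) + (if i = 1 ∧ l = 0 then 2 * (j + 1) else 0) +
      (if i = 0 then (if l = 2 then (2 * k).factorial else 0) + (if l = 0 then 1 else 0) else 0) := by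
  unfold maj
  rw [coeff_add, coeff_add, coeff_add, coeff_add, coeff_X_pow, coeff_C_mul, coeff_X, coeff_C]
  congr 1
  · congr 1
    · by_cases h : i = 2
      · rw [if_pos h, coeff_one]
        simp [h]
      · rw [if_neg h, coeff_zero, if_neg (fun h' => h h'.1)]
    · by_cases h : i = 1
      · rw [if_pos h.symm, mul_one, coeff_C]
        simp [h]
      · rw [if_neg (fun h' => h h'.symm), mul_zero, coeff_zero, if_neg (fun h' => h h'.1)]
  · by_cases h : i = 0
    · rw [if_pos h, if_pos h, coeff_add, coeff_C_mul, coeff_X_pow, coeff_one]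
      congr 1
      by_cases h' : l = 2
      · rw [if_pos h', if_pos h', mul_one]
      · rw [if_neg h', if_neg h', mul_zero]
    · rw [if_neg h, if_neg h, coeff_zero]

theorem fac_maj (k j : ℕ) : Maj (fac k j) (maj k j) := by
  intro i l
  rw [maj_coeff]
  rcases Nat.lt_or_ge 2 i with h | h
  · rw [fac_coeff_big k j i h, coeff_zero]
    exact Nat.zero_le _
  · interval_cases i
    · rw [fac_coeff0, coeff_add, coeff_C_mul, coeff_X_pow, coeff_one]
      by_cases h2 : l = 2
      · subst h2
        simp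
      · by_cases h0 : l = 0
        · subst h0
          simp
        · simp [h2, h0]
    · rw [fac_coeff1, coeff_neg, coeff_C]
      by_cases h0 : l = 0
      · subst h0
        rw [if_pos rfl, Int.natAbs_neg]
        have : (2 * ((j : ℤ) + 1)).natAbs = 2 * (j + 1) := by
          have e : (2 * ((j : ℤ) + 1)) = ((2 * (j + 1) : ℕ) : ℤ) := by push_cast; ring
          rw [e, Int.natAbs_natCast]
        rw [this]
        simp
      · simp [h0]
    · rw [fac_coeff2, coeff_one]
      by_cases h0 : l = 0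
      · subst h0
        simp
      · simp [h0]

theorem coeff_le_eval (B : ℕ[X]) (l : ℕ) : B.coeff l ≤ B.eval 1 := by
  rcases Nat.lt_or_ge B.natDegree l with h | h
  · rw [coeff_eq_zero_of_natDegree_lt h]
    exact Nat.zero_le _
  · rw [eval_eq_sum_range]
    have := single_le_sum (f := fun i => B.coeff i * 1 ^ i) (s := range (B.natDegree + 1))
      (fun i _ => Nat.zero_le _) (mem_range.2 (Nat.lt_succ_of_le h))
    simpa using this

theorem coeff_le_eval2 (A : ℕ[X][X]) (i l : ℕ) : (A.coeff i).coeff l ≤ (A.eval 1).eval 1 := by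
  refine (coeff_le_eval _ _).trans ?_
  rcases Nat.lt_or_ge A.natDegree i with h | h
  · rw [coeff_eq_zero_of_natDegree_lt h, eval_zero]
    exact Nat.zero_le _
  · have e : A.eval 1 = ∑ i ∈ range (A.natDegree + 1), A.coeff i := by
      rw [eval_eq_sum_range]
      exact sum_congr rfl fun i _ => by rw [one_pow, mul_one]
    rw [e, eval_finset_sum]
    exact single_le_sum (f := fun i => (A.coeff i).eval 1) (s := range (A.natDegree + 1))
      (fun i _ => Nat.zero_le _) (mem_range.2 (Nat.lt_succ_of_le h))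

theorem maj_eval (k j : ℕ) : ((maj k j).eval 1).eval 1 = 2 * (j + 1) + 2 + (2 * k).factorial := by
  unfold maj
  simp only [eval_add, eval_mul, eval_pow, eval_X, eval_C, eval_one, one_pow, mul_one]
  ring

end EXA1

open EXA1 in
theorem peXA1 (hHB1 : StHB1) : StXA1 := by
  intro k hk
  have hF : exF k = ∏ j ∈ range k, fac k j := rfl
  obtain ⟨-, -, -, hd, -, -, -, hp⟩ := hHB1
  refine ⟨⟨?_, ?_, ?_, ?_, ?_, ?_⟩, fun t => ?_⟩
  · rw [hF]
    exact monic_prod_of_monic _ _ fun j _ => fac_monic k j
  · rw [hF, natDegree_prod_of_monic _ _ fun j _ => fac_monic k j]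
    simp only [fac_deg, sum_const, card_range, smul_eq_mul]
    ring
  · rw [hF, coeff_zero_eq_eval_zero, eval_prod]
    refine prod_ne_zero_iff.2 fun j _ h => ?_
    rw [← coeff_zero_eq_eval_zero, fac_coeff0] at h
    have := congrArg (fun P : ℤ[X] => P.eval 0) h
    simp at this
  · exact Nat.one_le_pow _ _ (by omega)
  · rw [hF]
    exact (hp ℤ 1 ℕ (range k) (fac k) 0 0 (fac_monic k) (fac_wt k)).1
  · intro i j
    rw [hF]
    refine (Maj_prod k (fac_maj k) (range k) i j).trans ((coeff_le_eval2 _ _ _).trans ?_)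
    rw [eval_prod, eval_prod]
    refine (prod_le_prod' (g := fun _ => 2 * k + 2 + (2 * k).factorial) fun j hj => ?_).trans
      (le_of_eq ?_)
    · rw [maj_eval]
      have := mem_range.1 hj
      omega
    · rw [prod_const, card_range]
  · rw [hF, (hp ℤ 1 ℕ (range k) (fac k) t 1 (fac_monic k) (fac_wt k)).2]
    unfold exf
    refine prod_congr rfl fun j _ => ?_
    rw [hd ℤ 1 (fac k j) t (fac_monic k j) (fac_wt k j)]
    unfold spc fac
    simp [Polynomial.map_sub, Polynomial.map_add, Polynomial.map_mul, Polynomial.map_pow]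

end Pool.Agent.Work.MP_8d13b5_lc.Fm
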