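import Pool.Agent.Work.MP_8d13b5_lc.Fm.StmtsEx

set_option autoImplicit false

/-! Item XA2: the explicit family of order `2 k`: simple roots, no constant quotient. -/

namespace Pool.Agent.Work.MP_8d13b5_lc.Fm

open Polynomial NumberField Finset Module

namespace EXA2

/-- the factor `X ^ 2 - s X + n` -/
noncomputable def Fa {A : Type} [CommRing A] (s n : A) : A[X] := X ^ 2 - C s * X + C n

theorem map_Fa {A B : Type} [CommRing A] [CommRing B] (φ : A →+* B) (s n : A) :
    (Fa s n).map φ = Fa (φ s) (φ n) := by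
  unfold Fa
  rw [Polynomial.map_add, Polynomial.map_sub, Polynomial.map_mul, Polynomial.map_pow,
    Polynomial.map_X, Polynomial.map_C, Polynomial.map_C]

theorem eval_Fa {A B : Type} [CommRing A] [CommRing B] (φ : A →+* B) (s n : A) (a : B) :
    (Fa s n).eval₂ φ a = a ^ 2 - φ s * a + φ n := by
  unfold Fa
  rw [eval₂_add, eval₂_sub, eval₂_mul, eval₂_pow, eval₂_X, eval₂_C, eval₂_C]

theorem cop_Fa {K : Type} [Field K] (s s' n : K) (hn : n ≠ 0) (hs : s ≠ s') :
    IsCoprime (Fa s n) (Fa s' n) := by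
  have h1 : s' - s ≠ 0 := fun h => hs (sub_eq_zero.1 h).symm
  refine ⟨C n⁻¹ * (1 - C (s' - s)⁻¹ * (X - C s)), C n⁻¹ * (C (s' - s)⁻¹ * (X - C s)), ?_⟩
  have e1 : (C n⁻¹ * C n : K[X]) = 1 := by
    rw [← C_mul, inv_mul_cancel₀ hn, C_1]
  have e2 : (C (s' - s)⁻¹ * (C s' - C s) : K[X]) = 1 := by
    rw [← C_sub, ← C_mul, inv_mul_cancel₀ h1, C_1]
  have e3 : Fa s n - Fa s' n = (C s' - C s) * X := by
    unfold Fa
    ring
  have e4 : Fa s n = (X - C s) * X + C n := by
    unfold Fa
    ring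
  calc C n⁻¹ * (1 - C (s' - s)⁻¹ * (X - C s)) * Fa s n +
        C n⁻¹ * (C (s' - s)⁻¹ * (X - C s)) * Fa s' n
      = C n⁻¹ * (Fa s n - C (s' - s)⁻¹ * (X - C s) * (Fa s n - Fa s' n)) := by ring
    _ = C n⁻¹ * (Fa s n - (C (s' - s)⁻¹ * (C s' - C s)) * ((X - C s) * X)) := by
        rw [e3]
        ring
    _ = C n⁻¹ * C n := by
        rw [e2, e4]
        ring
    _ = 1 := e1

theorem sep_Fa {K : Type} [Field K] (s n : K) (h : 4 * n - s ^ 2 ≠ 0) : (Fa s n).Separable := by
  rw [separable_def]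
  have hd : derivative (Fa s n) = C 2 * X - C s := by
    unfold Fa
    rw [derivative_add, derivative_sub, derivative_C_mul, derivative_X_pow, derivative_X,
      derivative_C, add_zero, mul_one]
    norm_num
  refine ⟨C (4 * n - s ^ 2)⁻¹ * C 4, -(C (4 * n - s ^ 2)⁻¹ * (C 2 * X - C s)), ?_⟩
  rw [hd]
  have e1 : (C (4 * n - s ^ 2)⁻¹ * (C 4 * C n - C s ^ 2) : K[X]) = 1 := by
    rw [← C_mul, ← C_pow, ← C_sub, ← C_mul, inv_mul_cancel₀ h, C_1]
  have e2 : (C 2 * C 2 : K[X]) = C 4 := by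
    rw [← C_mul]
    norm_num
  calc C (4 * n - s ^ 2)⁻¹ * C 4 * Fa s n +
        -(C (4 * n - s ^ 2)⁻¹ * (C 2 * X - C s)) * (C 2 * X - C s)
      = C (4 * n - s ^ 2)⁻¹ * (C 4 * Fa s n - (C 2 * X - C s) ^ 2) := by ring
    _ = C (4 * n - s ^ 2)⁻¹ * (C 4 * C n - C s ^ 2) := by
        congr 1
        unfold Fa
        have e3 : (C 4 : K[X]) = 4 := map_ofNat C 4
        have e4 : (C 2 : K[X]) = 2 := map_ofNat C 2
        rw [e3, e4]
        ring
    _ = 1 := e1

/-- the family over `ℂ` -/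
theorem map_exF (k : ℕ) : (exF k).map (mapRingHom (Int.castRingHom ℂ)) =
    ∏ j ∈ range k, Fa (C (2 * ((j : ℂ) + 1))) (C ((2 * k).factorial : ℂ) * X ^ 2 + 1) := by
  have h : exF k = ∏ j ∈ range k,
      Fa (C (2 * ((j : ℤ) + 1))) (C ((2 * k).factorial : ℤ) * X ^ 2 + 1) := rfl
  rw [h, Polynomial.map_prod]
  refine Finset.prod_congr rfl fun j _ => ?_
  rw [map_Fa]
  congr 1
  · rw [coe_mapRingHom, Polynomial.map_C]
    simp
  · rw [coe_mapRingHom, Polynomial.map_add, Polynomial.map_mul, Polynomial.map_pow,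
      Polynomial.map_X, Polynomial.map_C, Polynomial.map_one]
    simp

/-- `N(t)` is not a constant -/
theorem ne_const (k : ℕ) (β : ℂ) : (C ((2 * k).factorial : ℂ) * X ^ 2 + 1 : ℂ[X]) ≠ C β := by
  intro h
  have h1 := congrArg (fun p : ℂ[X] => p.coeff 2) h
  simp only [coeff_add, coeff_C_mul, coeff_X_pow, if_true, mul_one, coeff_one, coeff_C] at h1
  rw [if_neg (by norm_num), if_neg (by norm_num), add_zero] at h1
  exact (Nat.cast_ne_zero.2 (Nat.factorial_ne_zero (2 * k))) h1

end EXA2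

open EXA2 in
theorem peXA2 : StXA2 := by
  intro k _
  rw [map_exF]
  set N : ℂ[X] := C ((2 * k).factorial : ℂ) * X ^ 2 + 1 with hN
  have hNc : ∀ β : ℂ, N ≠ C β := ne_const k
  have hcast : ∀ i j : ℕ, i ≠ j → (2 * ((i : ℂ) + 1)) ≠ 2 * ((j : ℂ) + 1) := by
    intro i j hij h
    have h1 : (i : ℂ) = j := by linear_combination h / 2
    exact hij (Nat.cast_injective h1)
  refine ⟨?_, ?_⟩
  · rw [Polynomial.map_prod]
    set φ : ℂ[X] →+* RatFunc ℂ := algebraMap ℂ[X] (RatFunc ℂ) with hφd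
    have hφ : Function.Injective φ := RatFunc.algebraMap_injective ℂ
    refine separable_prod' ?_ ?_
    · intro i _ j _ hij
      rw [map_Fa, map_Fa]
      refine cop_Fa _ _ _ ?_ ?_
      · intro h
        have h1 : N = C 0 := by
          rw [C_0]
          exact hφ (h.trans (map_zero φ).symm)
        exact hNc 0 h1
      · intro h
        exact hcast i j hij (C_injective (hφ h))
    · intro j _
      rw [map_Fa]
      refine sep_Fa _ _ ?_
      intro h
      have h1 : φ (4 * N - C (2 * ((j : ℂ) + 1)) ^ 2) = 0 := by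
        rw [map_sub, map_mul, map_pow, map_ofNat φ 4]
        exact h
      have h2 : 4 * N - C (2 * ((j : ℂ) + 1)) ^ 2 = 0 := hφ (h1.trans (map_zero φ).symm)
      have h3 : N = C ((2 * ((j : ℂ) + 1)) ^ 2 / 4) := by
        have e3 : (C 4 : ℂ[X]) = 4 := map_ofNat C 4
        have e5 : (C (4⁻¹ : ℂ) * C 4 : ℂ[X]) = 1 := by
          rw [← C_mul]
          norm_num
        have e4 : N = C (4⁻¹ : ℂ) * (4 * N) := by
          rw [← e3, ← mul_assoc, e5, one_mul]
        rw [e4, sub_eq_zero.1 h2, ← C_pow, ← C_mul]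
        congr 1
        ring
      exact hNc _ h3
  · intro c hc hc1
    set G : ℂ[X][X] := ∏ j ∈ range k, Fa (C (2 * ((j : ℂ) + 1))) N with hG
    set K := AlgebraicClosure (RatFunc ℂ) with hK
    set σ : ℂ[X] →+* K := (algebraMap (RatFunc ℂ) K).comp (algebraMap ℂ[X] (RatFunc ℂ)) with hσd
    have hσ : Function.Injective σ :=
      (algebraMap (RatFunc ℂ) K).injective.comp (RatFunc.algebraMap_injective ℂ)
    have hev : ∀ (P : ℂ[X][X]) (a : K), aeval a (P.map (algebraMap ℂ[X] (RatFunc ℂ))) =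
        P.eval₂ σ a := by
      intro P a
      rw [aeval_def, eval₂_map]
    have hGe : ∀ a : K, G.eval₂ σ a =
        ∏ j ∈ range k, (a ^ 2 - σ (C (2 * ((j : ℂ) + 1))) * a + σ N) := by
      intro a
      have h := map_prod (eval₂RingHom σ a)
        (fun j : ℕ => Fa (C (2 * ((j : ℂ) + 1))) N) (range k)
      rw [coe_eval₂RingHom] at h
      rw [hG, h]
      exact Finset.prod_congr rfl fun j _ => eval_Fa σ _ _ a
    rw [isCoprime_iff_aeval_ne_zero_of_isAlgClosed (RatFunc ℂ) K]
    intro a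
    by_contra hcon
    push Not at hcon
    obtain ⟨h1, h2⟩ := hcon
    rw [hev, hGe] at h1
    rw [hev] at h2
    have hc0 : σ (C c) ≠ 0 := by
      intro h
      have := hσ (h.trans (map_zero σ).symm)
      exact hc (by simpa using this)
    set b : K := a / σ (C c) with hb
    have hab : a = σ (C c) * b := by
      rw [hb, mul_div_cancel₀ _ hc0]
    rw [hab, scaleRoots_eval₂_mul] at h2
    have h3 : G.eval₂ σ b = 0 := by
      rcases mul_eq_zero.1 h2 with h | h
      · exact absurd h (pow_ne_zero _ hc0)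
      · exact h
    rw [hGe] at h3
    obtain ⟨i, _, hi⟩ := Finset.prod_eq_zero_iff.1 h1
    obtain ⟨j, _, hj⟩ := Finset.prod_eq_zero_iff.1 h3
    rw [hab] at hi
    have hb0 : b ≠ 0 := by
      intro h
      rw [h] at hj
      have h4 : σ N = 0 := by linear_combination hj
      have h5 : N = C 0 := by
        rw [C_0]
        exact hσ (h4.trans (map_zero σ).symm)
      exact hNc 0 h5
    have e1 : σ (C (c ^ 2 - 1)) * b = σ (C (2 * ((i : ℂ) + 1) * c - 2 * ((j : ℂ) + 1))) := by
      have e2 : (σ (C (c ^ 2 - 1)) * b -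
          σ (C (2 * ((i : ℂ) + 1) * c - 2 * ((j : ℂ) + 1)))) * b = 0 := by
        rw [C_sub, C_pow, C_1, C_sub, C_mul (a := 2 * ((i : ℂ) + 1)) (b := c), map_sub, map_pow,
          map_one, map_sub, map_mul]
        linear_combination hi - hj
      rcases mul_eq_zero.1 e2 with h | h
      · exact sub_eq_zero.1 h
      · exact absurd h hb0
    by_cases hcc : c ^ 2 - 1 = 0
    · have hcm : c = -1 := by
        have h4 : (c - 1) * (c + 1) = 0 := by linear_combination hcc
        rcases mul_eq_zero.1 h4 with h | h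
        · exact absurd (sub_eq_zero.1 h) hc1
        · exact eq_neg_of_add_eq_zero_left h
      rw [hcc, C_0, map_zero, zero_mul, hcm] at e1
      have h5 : (2 * ((i : ℂ) + 1) * (-1) - 2 * ((j : ℂ) + 1)) = 0 := by
        have h6 := hσ (e1.symm.trans (map_zero σ).symm)
        exact C_eq_zero.1 h6
      have h6 : ((i + 1 + (j + 1) : ℕ) : ℂ) = 0 := by
        push_cast
        linear_combination (-1 / 2 : ℂ) * h5
      have h7 := Nat.cast_eq_zero.1 h6
      omega
    · set β : ℂ := (2 * ((i : ℂ) + 1) * c - 2 * ((j : ℂ) + 1)) / (c ^ 2 - 1) with hβ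
      have hbβ : b = σ (C β) := by
        have h4 : σ (C (c ^ 2 - 1)) ≠ 0 := by
          intro h
          have := hσ (h.trans (map_zero σ).symm)
          exact hcc (C_eq_zero.1 this)
        apply mul_left_cancel₀ h4
        rw [e1, ← map_mul, ← C_mul, hβ, mul_div_cancel₀ _ hcc]
      have h5 : σ N = σ (C (2 * ((j : ℂ) + 1) * β - β ^ 2)) := by
        rw [C_sub, C_mul (a := 2 * ((j : ℂ) + 1)) (b := β), C_pow, map_sub, map_mul, map_pow, ← hbβ]
        linear_combination hj
      exact hNc _ (hσ h5)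

end Pool.Agent.Work.MP_8d13b5_lc.Fm
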