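import Pool.Agent.Work.MP_8d13b5_lc.Fm.StmtsEx

set_option autoImplicit false

/-! Item XA3 of block EFF (helper80): the explicit family, all constants explicit. -/

namespace Pool.Agent.Work.MP_8d13b5_lc.Fm

open Polynomial NumberField Finset Module

namespace EXA3

/-- the threshold -/
def thr (g : ℕ → ℕ) (k : ℕ) : ℕ :=
  ((g (2 * k + 2) + 1) * (2 * k + 2 + (2 * k).factorial) ^ k) ^ (g (2 * k + 2)) + g (2 * k + 2)

theorem tow_thr {g : ℕ → ℕ} (hg : Tow g) : Tow (thr g) := by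
  have h2k : Tow (fun k => 2 * k) := (Tow.const 2).mul Tow.id
  have h1 : Tow (fun k => 2 * k + 2) := h2k.add (Tow.const 2)
  have h2 : Tow (fun k => g (2 * k + 2)) := hg.comp h1
  have h3 : Tow (fun k => 2 * k + 2 + (2 * k).factorial) := h1.add h2k.fact
  have h4 : Tow (fun k => (2 * k + 2 + (2 * k).factorial) ^ k) :=
    h3.pow Tow.id fun k => by omega
  have h5 : Tow (fun k => (g (2 * k + 2) + 1) * (2 * k + 2 + (2 * k).factorial) ^ k) :=
    (h2.add (Tow.const 1)).mul h4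
  exact (h5.pow h2 fun k => Nat.one_le_iff_ne_zero.2 (by positivity)).add h2

end EXA3

open EXA3 in
theorem peXA3 (hHZY : SeHZY) (hXA1 : StXA1) (hXA2 : StXA2) : StXA3 := by
  obtain ⟨g, hg, hz⟩ := hHZY
  obtain ⟨h, hh⟩ := (tow_thr hg).bd
  refine ⟨h, fun k hk t ht u hu => ?_⟩
  obtain ⟨c, hc1, hc2, hc⟩ := hz (2 * k) 1 1 (by omega) le_rfl
  have hc2' : c ≤ g (2 * k + 2) := hc2
  have hthr := hh k
  have hgt : g (2 * k + 2) ≤ tw h k := le_trans (Nat.le_add_left _ _) hthr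
  have hct : c ≤ tw h k := hc2'.trans hgt
  have hk1 : 1 ≤ t.natAbs := hk.trans ((le_tw h k).trans ht)
  have hmx : mx t 1 = t.natAbs := max_eq_left hk1
  have hH : 1 ≤ (2 * k + 2 + (2 * k).factorial) ^ k := Nat.one_le_iff_ne_zero.2 (by positivity)
  have hle : (c * (2 * k + 2 + (2 * k).factorial) ^ k) ^ c ≤ mx t 1 := by
    rw [hmx]
    refine le_trans ?_ ((le_trans (Nat.le_add_right _ _) hthr).trans ht)
    refine (Nat.pow_le_pow_left (Nat.mul_le_mul_right _ (hc2'.trans (Nat.le_succ _))) _).trans ?_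
    refine Nat.pow_le_pow_right ?_ hc2'
    exact Nat.one_le_iff_ne_zero.2 (by positivity)
  have hrec : Rec (RingHom.id ℤ) (hsp 1 (exF k) t 1 ^ 1) u := by
    rw [pow_one, (hXA1 k hk).2 t]
    exact hu
  have hZ := hc _ (exF k) (hXA1 k hk).1 (hXA2 k hk) t 1 isCoprime_one_right hle u hrec
  rcases hZ with hZ | hZ
  · exact Or.inl hZ
  refine Or.inr fun B hB n hn => ?_
  obtain ⟨-, S, hS, hSn⟩ := hZ B (by rw [mul_one]; exact hB)
  have hS0 : S = ∅ := Finset.card_eq_zero.1 (by omega)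
  rw [hmx, hS0] at hSn
  have h1 : t.natAbs ^ n ≤ (B * t.natAbs) ^ c := by
    by_contra hcon
    exact absurd (hSn n (not_le.1 hcon) hn) (Finset.notMem_empty n)
  refine h1.trans (Nat.pow_le_pow_right ?_ hct)
  rcases Nat.eq_zero_or_pos (B * t.natAbs) with h0 | h0
  · exfalso
    rw [h0, zero_pow (by omega)] at h1
    have : 1 ≤ t.natAbs ^ n := Nat.one_le_pow _ _ hk1
    omega
  · exact h0

end Pool.Agent.Work.MP_8d13b5_lc.Fm
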