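import Mathlib

/-!
# Degrees of syzygies of powers of polynomials

If `lam j`, `j < k`, are nonzero polynomials of degree at most `e` over a field of characteristic
zero, no two of them proportional, and `∑ j, P j * lam j ^ n = 0` with `P` not zero of degree at
most `L`, then `n ≤ 2 ^ k * (L + k * e)`.
-/

set_option autoImplicit false

open Polynomial

noncomputable section

namespace Pool.Agent.SkolemFm

namespace Elim

variable {K : Type*} [Field K]

/-- relations between two terms -/
theorem two_term {f g A B : K[X]} {c : K} {L n : ℕ} (hf : f ≠ 0) (hg : g ≠ 0)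
    (hfg : ∀ c : K, f ≠ C c * g) (hA : A ≠ 0) (hB : B ≠ 0) (hAL : A.natDegree ≤ L)
    (hBL : B.natDegree ≤ L) (h : A * f ^ n = C c * (B * g ^ n)) : n ≤ L := by
  classical
  have hc : c ≠ 0 := by
    rintro rfl
    rw [C_0, zero_mul] at h
    exact mul_ne_zero hA (pow_ne_zero _ hf) h
  set d := EuclideanDomain.gcd f g with hd
  obtain ⟨u, hu⟩ : d ∣ f := EuclideanDomain.gcd_dvd_left f g
  obtain ⟨v, hv⟩ : d ∣ g := EuclideanDomain.gcd_dvd_right f g
  have hd0 : d ≠ 0 := by
    intro h0
    rw [h0, zero_mul] at hu
    exact hf hu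
  have hu0 : u ≠ 0 := by
    rintro rfl
    exact hf (by rw [hu, mul_zero])
  have hv0 : v ≠ 0 := by
    rintro rfl
    exact hg (by rw [hv, mul_zero])
  have hcop : IsCoprime u v := by
    have h1 := EuclideanDomain.gcd_eq_gcd_ab f g
    rw [← hd] at h1
    refine ⟨EuclideanDomain.gcdA f g, EuclideanDomain.gcdB f g, ?_⟩
    apply mul_left_cancel₀ hd0
    calc d * (EuclideanDomain.gcdA f g * u + EuclideanDomain.gcdB f g * v)
        = (d * u) * EuclideanDomain.gcdA f g + (d * v) * EuclideanDomain.gcdB f g := by ring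
      _ = f * EuclideanDomain.gcdA f g + g * EuclideanDomain.gcdB f g := by rw [← hu, ← hv]
      _ = d * 1 := by rw [← h1, mul_one]
  have h1 : A * u ^ n = C c * (B * v ^ n) := by
    have h2 : d ^ n * (A * u ^ n) = d ^ n * (C c * (B * v ^ n)) := by
      calc d ^ n * (A * u ^ n) = A * (d * u) ^ n := by rw [mul_pow]; ring
        _ = C c * (B * (d * v) ^ n) := by rw [← hu, ← hv, h]
        _ = d ^ n * (C c * (B * v ^ n)) := by rw [mul_pow]; ring
    exact mul_left_cancel₀ (pow_ne_zero _ hd0) h2
  have hub : u ^ n ∣ B := by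
    have h2 : u ^ n ∣ (C c * B) * v ^ n := ⟨A, by rw [mul_assoc, ← h1]; ring⟩
    have h3 : u ^ n ∣ C c * B := (hcop.pow (m := n) (n := n)).dvd_of_dvd_mul_right h2
    have h4 : B = C c⁻¹ * (C c * B) := by
      rw [← mul_assoc, ← C_mul, inv_mul_cancel₀ hc, C_1, one_mul]
    rw [h4]
    exact dvd_mul_of_dvd_right h3 _
  have hva : v ^ n ∣ A := by
    have h2 : v ^ n ∣ A * u ^ n := ⟨C c * B, by rw [h1]; ring⟩
    exact (hcop.symm.pow (m := n) (n := n)).dvd_of_dvd_mul_right h2
  have hdu : n * u.natDegree ≤ L := by
    rw [← natDegree_pow]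
    exact (natDegree_le_of_dvd hub hB).trans hBL
  have hdv : n * v.natDegree ≤ L := by
    rw [← natDegree_pow]
    exact (natDegree_le_of_dvd hva hA).trans hAL
  rcases Nat.eq_zero_or_pos u.natDegree with h0 | h0
  · rcases Nat.eq_zero_or_pos v.natDegree with h2 | h2
    · exfalso
      obtain ⟨a, ha⟩ := natDegree_eq_zero.1 h0
      obtain ⟨b, hb⟩ := natDegree_eq_zero.1 h2
      have hb0 : b ≠ 0 := by
        rintro rfl
        exact hv0 (by rw [← hb, C_0])
      refine hfg (a / b) ?_
      rw [hu, hv, ← ha, ← hb, div_eq_mul_inv, C_mul]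
      have : C b⁻¹ * C b = (1 : K[X]) := by rw [← C_mul, inv_mul_cancel₀ hb0, C_1]
      calc d * C a = C a * d * 1 := by ring
        _ = C a * d * (C b⁻¹ * C b) := by rw [this]
        _ = C a * C b⁻¹ * (d * C b) := by ring
    · exact (Nat.le_mul_of_pos_right _ h2).trans hdv
  · exact (Nat.le_mul_of_pos_right _ h0).trans hdu

/-- a vanishing Wronskian -/
theorem prop_of_wronskian [CharZero K] {z w : K[X]} (hz : z ≠ 0)
    (h : z * derivative w = w * derivative z) : ∃ c : K, w = C c * z := by
  classical
  set d := EuclideanDomain.gcd z w with hd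
  obtain ⟨u, hu⟩ : d ∣ z := EuclideanDomain.gcd_dvd_left z w
  obtain ⟨v, hv⟩ : d ∣ w := EuclideanDomain.gcd_dvd_right z w
  have hd0 : d ≠ 0 := by
    intro h0
    rw [h0, zero_mul] at hu
    exact hz hu
  have hu0 : u ≠ 0 := by
    rintro rfl
    exact hz (by rw [hu, mul_zero])
  have hcop : IsCoprime u v := by
    have h1 := EuclideanDomain.gcd_eq_gcd_ab z w
    rw [← hd] at h1
    refine ⟨EuclideanDomain.gcdA z w, EuclideanDomain.gcdB z w, ?_⟩
    apply mul_left_cancel₀ hd0
    calc d * (EuclideanDomain.gcdA z w * u + EuclideanDomain.gcdB z w * v)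
        = (d * u) * EuclideanDomain.gcdA z w + (d * v) * EuclideanDomain.gcdB z w := by ring
      _ = z * EuclideanDomain.gcdA z w + w * EuclideanDomain.gcdB z w := by rw [← hu, ← hv]
      _ = d * 1 := by rw [← h1, mul_one]
  have hW : wronskian u v = 0 := by
    have h2 : d ^ 2 * wronskian u v = 0 := by
      have h3 : z * derivative w - w * derivative z = 0 := by rw [h, sub_self]
      rw [← h3, hu, hv, wronskian, derivative_mul, derivative_mul]
      ring
    exact (mul_eq_zero.1 h2).resolve_left (pow_ne_zero _ hd0)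
  obtain ⟨h1, h2⟩ := hcop.wronskian_eq_zero_iff.1 hW
  obtain ⟨a, ha⟩ := natDegree_eq_zero.1 (derivative_eq_zero.1 h1)
  obtain ⟨b, hb⟩ := natDegree_eq_zero.1 (derivative_eq_zero.1 h2)
  have ha0 : a ≠ 0 := by
    rintro rfl
    exact hu0 (by rw [← ha, C_0])
  refine ⟨b / a, ?_⟩
  rw [hu, hv, ← ha, ← hb, div_eq_mul_inv, C_mul]
  have : C a⁻¹ * C a = (1 : K[X]) := by rw [← C_mul, inv_mul_cancel₀ ha0, C_1]
  calc d * C b = C b * d * 1 := by ring
    _ = C b * d * (C a⁻¹ * C a) := by rw [this]
    _ = C b * C a⁻¹ * (d * C a) := by ring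

open scoped Classical in
theorem elim_aux [CharZero K] {k e n : ℕ} (lam : Fin k → K[X]) (hlam : ∀ j, lam j ≠ 0)
    (hdeg : ∀ j, (lam j).natDegree ≤ e) (hprop : ∀ i j, i ≠ j → ∀ c : K, lam i ≠ C c * lam j)
    (m : ℕ) : ∀ (L : ℕ) (P : Fin k → K[X]), (∀ j, (P j).natDegree ≤ L) → P ≠ 0 →
      (Finset.univ.filter fun j => P j ≠ 0).card ≤ m → ∑ j, P j * lam j ^ (n + 1) = 0 →
      n + 1 ≤ 2 ^ m * (L + k * e) := by
  induction m with
  | zero =>
    intro L P _ hP hcard _
    exfalso
    apply hP
    funext j
    by_contra hj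
    have : j ∈ Finset.univ.filter fun j => P j ≠ 0 := by simp; exact hj
    rw [Finset.card_eq_zero.1 (Nat.le_zero.1 hcard)] at this
    exact Finset.notMem_empty _ this
  | succ m ih =>
    intro L P hL hP hcard h
    obtain ⟨a, ha⟩ := Function.ne_iff.1 hP
    rw [Pi.zero_apply] at ha
    -- the derivation
    set z : Fin k → K[X] := fun j => P j * lam j ^ (n + 1) with hz
    set D : Fin k → K[X] := fun j =>
      derivative (P j) * lam j + C ((n : K) + 1) * P j * derivative (lam j) with hD
    have hzD : ∀ j, derivative (z j) = D j * lam j ^ n := by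
      intro j
      simp only [hz, hD, derivative_mul, derivative_pow, Nat.add_sub_cancel]
      push_cast
      rw [map_add, map_natCast, map_one]
      ring
    set T : Fin k → K[X] := fun j => (∏ i ∈ Finset.univ.erase j, lam i) * D j with hT
    have hTl : ∀ j, T j * lam j ^ (n + 1) = (∏ i, lam i) * derivative (z j) := by
      intro j
      rw [hzD, hT, ← Finset.prod_erase_mul _ _ (Finset.mem_univ j)]
      ring
    have hk : 0 < k := a.pos
    have hTdeg : ∀ j, (T j).natDegree ≤ L + k * e := by
      intro j
      have h1 : (∏ i ∈ Finset.univ.erase j, lam i).natDegree ≤ (k - 1) * e := by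
        refine (natDegree_prod_le _ _).trans ?_
        refine (Finset.sum_le_card_nsmul _ _ e fun i _ => hdeg i).trans ?_
        rw [Finset.card_erase_of_mem (Finset.mem_univ j), Finset.card_univ, Fintype.card_fin,
          smul_eq_mul]
      have h2 : (D j).natDegree ≤ L + e := by
        refine (natDegree_add_le _ _).trans (max_le ?_ ?_)
        · refine (natDegree_mul_le).trans (Nat.add_le_add ?_ (hdeg j))
          exact (natDegree_derivative_le _).trans ((Nat.sub_le _ _).trans (hL j))
        · refine (natDegree_mul_le).trans (Nat.add_le_add ?_ ?_)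
          · exact (natDegree_C_mul_le _ _).trans (hL j)
          · exact (natDegree_derivative_le _).trans ((Nat.sub_le _ _).trans (hdeg j))
      refine (natDegree_mul_le).trans ((Nat.add_le_add h1 h2).trans (le_of_eq ?_))
      obtain ⟨k', rfl⟩ : ∃ k', k = k' + 1 := ⟨k - 1, by omega⟩
      rw [Nat.add_sub_cancel]
      ring
    have hTsum : ∑ j, T j * lam j ^ (n + 1) = 0 := by
      simp only [hTl]
      rw [← Finset.mul_sum, ← derivative_sum, h, derivative_zero, mul_zero]
    set P' : Fin k → K[X] := fun j => P a * T j - P j * T a with hP'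
    by_cases hP0 : P' = 0
    · -- two proportional terms
      have hb : ∃ b, b ≠ a ∧ P b ≠ 0 := by
        by_contra hcon
        push Not at hcon
        rw [Finset.sum_eq_single a (fun b _ hb => by rw [hcon b hb, zero_mul])
          (fun h => absurd (Finset.mem_univ a) h)] at h
        exact mul_ne_zero ha (pow_ne_zero _ (hlam a)) h
      obtain ⟨b, hba, hb0⟩ := hb
      have h1 : P a * T b = P b * T a := by
        have := congrFun hP0 b
        simp only [hP', Pi.zero_apply] at this
        exact sub_eq_zero.1 this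
      have hza : z a ≠ 0 := mul_ne_zero ha (pow_ne_zero _ (hlam a))
      have hzb : z b ≠ 0 := mul_ne_zero hb0 (pow_ne_zero _ (hlam b))
      have h2 : (∏ i, lam i) * (z a * derivative (z b)) =
          (∏ i, lam i) * (z b * derivative (z a)) := by
        calc (∏ i, lam i) * (z a * derivative (z b)) = z a * ((∏ i, lam i) * derivative (z b)) := by
              ring
          _ = (P a * T b) * (lam a ^ (n + 1) * lam b ^ (n + 1)) := by rw [← hTl, hz]; ring
          _ = (P b * T a) * (lam a ^ (n + 1) * lam b ^ (n + 1)) := by rw [h1]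
          _ = z b * ((∏ i, lam i) * derivative (z a)) := by rw [← hTl, hz]; ring
          _ = (∏ i, lam i) * (z b * derivative (z a)) := by ring
      have h3 := mul_left_cancel₀ (Finset.prod_ne_zero_iff.2 fun i _ => hlam i) h2
      obtain ⟨c, hc⟩ := prop_of_wronskian hza h3
      have h4 : n + 1 ≤ L :=
        two_term (hlam b) (hlam a) (hprop b a hba) hb0 ha (hL b) (hL a) hc
      calc n + 1 ≤ L := h4
        _ ≤ 1 * (L + k * e) := by rw [one_mul]; exact Nat.le_add_right _ _
        _ ≤ 2 ^ (m + 1) * (L + k * e) := Nat.mul_le_mul_right _ Nat.one_le_two_pow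
    · have h5 := ih (2 * L + k * e) P' ?_ hP0 ?_ ?_
      · refine h5.trans (le_of_eq ?_)
        rw [pow_succ]
        ring
      · intro j
        refine (natDegree_sub_le _ _).trans (max_le ?_ ?_)
        · refine (natDegree_mul_le).trans ((Nat.add_le_add (hL a) (hTdeg j)).trans (le_of_eq ?_))
          ring
        · refine (natDegree_mul_le).trans ((Nat.add_le_add (hL j) (hTdeg a)).trans (le_of_eq ?_))
          ring
      · have hsub : (Finset.univ.filter fun j => P' j ≠ 0) ⊆
            (Finset.univ.filter fun j => P j ≠ 0).erase a := by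
          intro j hj
          simp only [Finset.mem_filter, Finset.mem_univ, true_and] at hj
          simp only [Finset.mem_erase, Finset.mem_filter, Finset.mem_univ, true_and]
          refine ⟨?_, ?_⟩
          · rintro rfl
            apply hj
            simp only [hP']
            ring
          · intro h0
            apply hj
            have : T j = 0 := by
              simp only [hT, hD, h0, derivative_zero]
              ring
            simp only [hP', this, h0]
            ring
        have h6 := Finset.card_le_card hsub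
        rw [Finset.card_erase_of_mem (by simpa using ha)] at h6
        omega
      · have h7 : ∀ j, P' j * lam j ^ (n + 1) =
            P a * (T j * lam j ^ (n + 1)) - T a * (P j * lam j ^ (n + 1)) := by
          intro j
          simp only [hP']
          ring
        simp only [h7]
        rw [Finset.sum_sub_distrib, ← Finset.mul_sum, ← Finset.mul_sum, hTsum, h, mul_zero,
          mul_zero, sub_zero]

end Elim

open scoped Classical in
/-- Syzygies of powers have large degree. -/
theorem elim {K : Type*} [Field K] [CharZero K] {k e L n : ℕ} (lam P : Fin k → K[X])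
    (hlam : ∀ j, lam j ≠ 0) (hdeg : ∀ j, (lam j).natDegree ≤ e)
    (hprop : ∀ i j, i ≠ j → ∀ c : K, lam i ≠ C c * lam j) (hP : P ≠ 0)
    (hL : ∀ j, (P j).natDegree ≤ L) (h : ∑ j, P j * lam j ^ n = 0) :
    n ≤ 2 ^ k * (L + k * e) := by
  rcases Nat.eq_zero_or_pos n with rfl | hn
  · exact Nat.zero_le _
  · obtain ⟨n, rfl⟩ : ∃ n', n = n' + 1 := ⟨n - 1, by omega⟩
    refine Elim.elim_aux lam hlam hdeg hprop k L P hL hP ?_ h
    exact (Finset.card_filter_le _ _).trans (by rw [Finset.card_univ, Fintype.card_fin])

end Pool.Agent.SkolemFm
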