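import Mathlib

set_option autoImplicit false

/-! Definitions for the theorem `EveryFamily`. -/

namespace Pool.Agent.Work.MP_8d13b5_lc.Fm.EveryFamily

open Polynomial Finset

/-- the iterated exponential `2 ^ 2 ^ ... ^ 2 ^ x` with `h` twos -/
def E (h x : ℕ) : ℕ := (fun y => 2 ^ y)^[h] x

/-- an algebraic closure of the field `ℚ(t)` (the fraction field of `ℤ[t]`) -/
abbrev Om : Type := AlgebraicClosure (FractionRing ℤ[X])

/-- The families. `F = X ^ d + F_(d-1)(t) X ^ (d-1) + ... + F_0(t)` is a polynomial in `X` whose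
coefficients `F_i = F.coeff i` are integer polynomials in the parameter `t`, of degree at most `s` and
with coefficients at most `H` in absolute value, `F_0 ≠ 0`. -/
structure Fam (d s H : ℕ) (F : ℤ[X][X]) : Prop where
  monic : F.Monic
  deg : F.natDegree = d
  pos : 1 ≤ d
  ne : F.coeff 0 ≠ 0
  one : 1 ≤ H
  dg : ∀ i < d, (F.coeff i).natDegree ≤ s
  ht : ∀ i < d, ∀ j, ((F.coeff i).coeff j).natAbs ≤ H

/-- the algebraic function `a` of `t` is a root of `F` -/
def IsRoot (F : ℤ[X][X]) (a : Om) : Prop := (F.map (algebraMap ℤ[X] Om)).eval a = 0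

/-- No two roots of `F` have a constant quotient (algebraic over `ℚ`), except for roots of
unity. (Multiple roots are allowed.) -/
def Free (F : ℤ[X][X]) : Prop :=
  ∀ a b : Om, IsRoot F a → IsRoot F b → IsAlgebraic ℤ (a / b) → ∃ N : ℕ, 1 ≤ N ∧ a ^ N = b ^ N

/-- The roots of `F` are simple. -/
def Simple (F : ℤ[X][X]) : Prop :=
  (F.map (algebraMap ℤ[X] (FractionRing ℤ[X]))).Separable

/-- the height of a rational number: the larger of the numerator and the denominator -/
def height (t : ℚ) : ℕ := max t.num.natAbs t.den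

/-- `v` satisfies the recurrence with the characteristic polynomial `F(t, X)`:
`v_(n+d) + F_(d-1)(t) v_(n+d-1) + ... + F_0(t) v_n = 0` -/
def Rec (F : ℤ[X][X]) (t : ℚ) (v : ℕ → ℚ) : Prop :=
  ∀ n, ∑ i ∈ range (F.natDegree + 1), aeval t (F.coeff i) * v (n + i) = 0

/-- `w` satisfies the recurrence with the characteristic polynomial `f` over the integers -/
def RecZ (f : ℤ[X]) (w : ℕ → ℤ) : Prop :=
  ∀ n, ∑ i ∈ range (f.natDegree + 1), f.coeff i * w (n + i) = 0

/-- `z_0, ..., z_(d-1)` are at most `B` in absolute value -/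
def Bound (d B : ℕ) (z : ℕ → ℤ) : Prop := ∀ i < d, (z i).natAbs ≤ B

/-- `v` is zero, or, for every bound `B` of the initial values `z`, the zeros of `v` are at most
`(B T) ^ c`, and all except fewer than `M` of them satisfy `T ^ n ≤ (B T) ^ c`. -/
def Zeros (d M c T : ℕ) (z : ℕ → ℤ) (v : ℕ → ℚ) : Prop :=
  (∀ n, v n = 0) ∨ ∀ B : ℕ, Bound d B z →
    (∀ n, (B * T) ^ c < n → v n ≠ 0) ∧
    ∃ S : Finset ℕ, S.card < M ∧ ∀ n, (B * T) ^ c < T ^ n → v n = 0 → n ∈ S

/-- the polynomial `X ^ d + ∑_(i < d) L_i(t) X ^ i`, `d = L.length`, where `L_i` is given by the list of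
its coefficients -/
noncomputable def pol (L : List (List ℤ)) : ℤ[X][X] :=
  X ^ L.length + ∑ i ∈ range L.length,
    C (∑ j ∈ range (L.getD i []).length, C ((L.getD i []).getD j 0) * X ^ j) * X ^ i

/-- the polynomial `(X - r) ∏_(j < k) (X ^ 2 - a_j X + q)` of the examples of part (3) -/
noncomputable def exa (k : ℕ) (a : Fin k → ℤ) (r q : ℤ) : ℤ[X] :=
  (X - C r) * ∏ j, (X ^ 2 - C (a j) * X + C q)

end Pool.Agent.Work.MP_8d13b5_lc.Fm.EveryFamily
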