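import Pool.Agent.Work.MP_8d13b5_lc.Fm.StmtsY

/-!
Item RDA: the polynomial whose roots are the powers of the roots.
-/

set_option autoImplicit false

namespace Pool.Agent.Work.MP_8d13b5_lc.Fm

open Polynomial NumberField Finset Module

namespace RDA

abbrev k0 : Type := FractionRing ℤ[X]

abbrev Om : Type := AlgebraicClosure k0

theorem inj : Function.Injective (algebraMap ℤ[X] Om) := by
  rw [IsScalarTower.algebraMap_eq ℤ[X] k0 Om]
  exact (algebraMap k0 Om).injective.comp (IsFractionRing.injective ℤ[X] k0)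

theorem charZero : CharZero k0 := by
  have : CharZero ℤ[X] := inferInstance
  exact charZero_of_injective_algebraMap (IsFractionRing.injective ℤ[X] k0)

end RDA

open RDA in
theorem prRDA : StRDA := by
  classical
  intro F N hF hd h0 hN
  have := charZero
  have hinj := inj
  set f : ℤ[X] →+* Om := algebraMap ℤ[X] Om with hf
  have hFm : (F.map f).Monic := hF.map f
  have hF0 : F.map f ≠ 0 := hFm.ne_zero
  have hdeg : (F.map f).natDegree = F.natDegree := hF.natDegree_map f
  set S : Finset Om := (F.map f).roots.toFinset with hS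
  have hroot : ∀ a ∈ S, (F.map f).eval a = 0 := by
    intro a ha
    rw [hS, Multiset.mem_toFinset, mem_roots hF0] at ha
    exact ha
  have hint : ∀ a ∈ S, IsIntegral ℤ[X] a := by
    intro a ha
    refine ⟨F, hF, ?_⟩
    rw [← eval_map]
    exact hroot a ha
  have hint2 : ∀ a ∈ S, IsIntegral ℤ[X] (a ^ N) := fun a ha => (hint a ha).pow N
  have hne : ∀ a ∈ S, a ≠ 0 := by
    intro a ha h
    have h1 := hroot a ha
    rw [h, ← coeff_zero_eq_eval_zero, coeff_map] at h1
    exact h0 ((map_eq_zero_iff f hinj).1 h1)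
  let P : Om → ℤ[X][X] := fun a => minpoly ℤ[X] (a ^ N)
  have hPm : ∀ a ∈ S, (P a).Monic := fun a ha => minpoly.monic (hint2 a ha)
  have hPk : ∀ a ∈ S, (P a).map (algebraMap ℤ[X] k0) = minpoly k0 (a ^ N) :=
    fun a ha => (minpoly.isIntegrallyClosed_eq_field_fractions k0 Om (hint2 a ha)).symm
  set T : Finset ℤ[X][X] := S.image P with hT
  have hTm : ∀ Q ∈ T, Q.Monic := by
    intro Q hQ
    obtain ⟨a, ha, rfl⟩ := Finset.mem_image.1 hQ
    exact hPm a ha
  have hSne : S.Nonempty := by
    obtain ⟨a, ha⟩ := IsAlgClosed.exists_root (F.map f) (by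
      rw [degree_eq_natDegree hF0, hdeg]
      exact_mod_cast (by omega : F.natDegree ≠ 0))
    exact ⟨a, by rw [hS, Multiset.mem_toFinset, mem_roots hF0]; exact ha⟩
  have hGm : (∏ Q ∈ T, Q).Monic := monic_prod_of_monic _ _ hTm
  have hE : ∀ a ∈ S, ((expand ℤ[X] N (∏ Q ∈ T, Q)).map f).eval a = 0 := by
    intro a ha
    rw [map_expand, expand_eval, Polynomial.map_prod, eval_prod]
    refine Finset.prod_eq_zero (Finset.mem_image_of_mem P ha) ?_
    rw [eval_map]
    exact minpoly.aeval ℤ[X] (a ^ N)
  have hsplit : (F.map f) = ((F.map f).roots.map (fun a => X - C a)).prod :=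
    (IsAlgClosed.splits (F.map f)).eq_prod_roots_of_monic hFm
  have hcard : (F.map f).roots.card = F.natDegree := by
    rw [← hdeg]
    exact (IsAlgClosed.splits (F.map f)).natDegree_eq_card_roots.symm
  refine ⟨∏ Q ∈ T, Q, hGm, ?_, ?_, ?_, ?_, ?_, ?_⟩
  · obtain ⟨a, ha⟩ := hSne
    rw [natDegree_prod_of_monic _ _ hTm]
    refine le_trans ?_ (Finset.single_le_sum (f := fun Q : ℤ[X][X] => Q.natDegree)
      (fun _ _ => Nat.zero_le _) (Finset.mem_image_of_mem P ha))
    exact minpoly.natDegree_pos (hint2 a ha)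
  · rw [coeff_zero_eq_eval_zero, eval_prod, Finset.prod_ne_zero_iff]
    intro Q hQ
    obtain ⟨a, ha, rfl⟩ := Finset.mem_image.1 hQ
    rw [← coeff_zero_eq_eval_zero]
    intro h
    have h1 : ((P a).map (algebraMap ℤ[X] k0)).coeff 0 = 0 := by rw [coeff_map, h, map_zero]
    rw [hPk a ha] at h1
    exact minpoly.coeff_zero_ne_zero ((hint2 a ha).tower_top) (pow_ne_zero N (hne a ha)) h1
  · rw [Polynomial.map_prod]
    refine separable_prod' ?_ ?_
    · intro Q hQ Q' hQ' hne'
      obtain ⟨a, ha, rfl⟩ := Finset.mem_image.1 hQ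
      obtain ⟨b, hb, rfl⟩ := Finset.mem_image.1 hQ'
      have h1 : Irreducible ((P a).map (algebraMap ℤ[X] k0)) := by
        rw [hPk a ha]
        exact minpoly.irreducible ((hint2 a ha).tower_top)
      have h2 : Irreducible ((P b).map (algebraMap ℤ[X] k0)) := by
        rw [hPk b hb]
        exact minpoly.irreducible ((hint2 b hb).tower_top)
      refine h1.coprime_iff_not_dvd.2 fun h => hne' ?_
      have h3 := (h1.associated_of_dvd h2 h)
      have h4 := eq_of_monic_of_associated ((hPm a ha).map _) ((hPm b hb).map _) h3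
      exact map_injective _ (IsFractionRing.injective ℤ[X] k0) h4
    · intro Q hQ
      obtain ⟨a, ha, rfl⟩ := Finset.mem_image.1 hQ
      rw [hPk a ha]
      exact (minpoly.irreducible ((hint2 a ha).tower_top)).separable
  · intro y hy
    rw [Polynomial.map_prod, eval_prod, Finset.prod_eq_zero_iff] at hy
    obtain ⟨Q, hQ, hy⟩ := hy
    obtain ⟨a, ha, rfl⟩ := Finset.mem_image.1 hQ
    have h1 : (P a).map f = (minpoly k0 (a ^ N)).map (algebraMap k0 Om) := by
      rw [← hPk a ha, Polynomial.map_map]
      congr 1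
    rw [h1, eval_map_algebraMap] at hy
    have h2 : minpoly k0 (a ^ N) = minpoly k0 y :=
      minpoly.eq_of_irreducible_of_monic (minpoly.irreducible ((hint2 a ha).tower_top)) hy
        (minpoly.monic ((hint2 a ha).tower_top))
    have h3 : IsConjRoot k0 y (a ^ N) := h2.symm
    obtain ⟨σ, hσ⟩ := isConjRoot_iff_exists_algEquiv.1 h3
    refine ⟨σ a, ?_, ?_⟩
    · rw [← map_pow, hσ]
    · have h4 := hroot a ha
      rw [eval_map, hf] at h4 ⊢
      have h5 : eval₂ (algebraMap ℤ[X] Om) (σ a) F = σ (eval₂ (algebraMap ℤ[X] Om) a F) := by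
        have h6 := Polynomial.hom_eval₂ F (algebraMap ℤ[X] Om) (σ : Om →+* Om) a
        have h7 : (σ : Om →+* Om).comp (algebraMap ℤ[X] Om) = algebraMap ℤ[X] Om := by
          refine RingHom.ext fun x => ?_
          rw [RingHom.comp_apply, IsScalarTower.algebraMap_apply ℤ[X] k0 Om]
          exact σ.commutes _
        rw [h7] at h6
        exact h6.symm
      rw [h5, h4, map_zero]
  · rw [← map_dvd_map f hinj hF, Polynomial.map_pow, hsplit]
    have h1 : ((F.map f).roots.map (fun a => X - C a)).prod ∣
        ((F.map f).roots.map (fun _ => (expand ℤ[X] N (∏ Q ∈ T, Q)).map f)).prod := by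
      refine Multiset.prod_dvd_prod_of_dvd _ _ ?_
      intro a ha
      rw [dvd_iff_isRoot]
      exact hE a (Multiset.mem_toFinset.2 ha)
    rw [Multiset.map_const', Multiset.prod_replicate, hcard] at h1
    exact h1
  · intro hsep
    rw [← map_dvd_map f hinj hF, hsplit, Multiset.prod_X_sub_C_dvd_iff_le_roots]
    · refine (Multiset.le_iff_subset ?_).2 ?_
      · refine nodup_roots ?_
        have h1 : F.map f = (F.map (algebraMap ℤ[X] k0)).map (algebraMap k0 Om) := by
          rw [Polynomial.map_map]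
          congr 1
        rw [h1]
        exact hsep.map
      · intro a ha
        rw [mem_roots']
        refine ⟨?_, hE a (Multiset.mem_toFinset.2 ha)⟩
        rw [map_expand]
        intro h
        rw [expand_eq_zero (by omega)] at h
        exact (hGm.map f).ne_zero h
    · rw [map_expand]
      intro h
      rw [expand_eq_zero (by omega)] at h
      exact (hGm.map f).ne_zero h

end Pool.Agent.Work.MP_8d13b5_lc.Fm
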