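import Pool.Agent.Work.MP_8d13b5_lc.Fm.All3
import Pool.Agent.Work.MP_8d13b5_lc.Fm.I_RDA

set_option autoImplicit false

namespace Pool.Agent.Work.MP_8d13b5_lc.Fm.EveryFamily

open Pool.Agent.Work.MP_8d13b5_lc Pool.Agent.Work.MP_8d13b5_lc.Fm Polynomial Finset

/-- `u` is the sequence with data `p = ((c_1, ..., c_d), (u_0, ..., u_(d-1)))`:
`d ≥ 1`, `c_d ≠ 0` and `u_(n+d) = c_1 u_(n+d-1) + ... + c_d u_n` -/
def IsSeq (p : List ℤ × List ℤ) (u : ℕ → ℤ) : Prop :=
  p.1.length = p.2.length ∧ 1 ≤ p.1.length ∧ p.1.getD (p.1.length - 1) 0 ≠ 0 ∧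
    (∀ i, i < p.1.length → u i = p.2.getD i 0) ∧
    ∀ n : ℕ, u (n + p.1.length) =
      ∑ j ∈ range p.1.length, p.1.getD j 0 * u (n + p.1.length - 1 - j)

/-- an algebraic closure of the field `ℚ(t)` (the fraction field of `ℤ[t]`) -/
abbrev Om : Type := AlgebraicClosure (FractionRing ℤ[X])

/-- The families. `F = X ^ k + F_(k-1)(t) X ^ (k-1) + ... + F_0(t)` is a polynomial in `X` whose
coefficients `F_i = F.coeff i` are integer polynomials in the parameter `t`, of degree at most `σ` and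
with coefficients at most `H` in absolute value, `F_0 ≠ 0`. -/
structure Fam (k σ H : ℕ) (F : ℤ[X][X]) : Prop where
  monic : F.Monic
  deg : F.natDegree = k
  pos : 1 ≤ k
  ne : F.coeff 0 ≠ 0
  one : 1 ≤ H
  dg : ∀ i < k, (F.coeff i).natDegree ≤ σ
  ht : ∀ i < k, ∀ j, ((F.coeff i).coeff j).natAbs ≤ H

/-- the algebraic function `a` of `t` is a root of `F` -/
def IsRoot (F : ℤ[X][X]) (a : Om) : Prop := (F.map (algebraMap ℤ[X] Om)).eval a = 0

/-- No two roots of `F` have a constant quotient (algebraic over `ℚ`), except for roots of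
unity. (Multiple roots are allowed.) -/
def Free (F : ℤ[X][X]) : Prop :=
  ∀ a b : Om, IsRoot F a → IsRoot F b → IsAlgebraic ℤ (a / b) → ∃ N : ℕ, 1 ≤ N ∧ a ^ N = b ^ N

/-- The roots of `F` are simple. -/
def Simple (F : ℤ[X][X]) : Prop :=
  (F.map (algebraMap ℤ[X] (FractionRing ℤ[X]))).Separable

/-- `u` satisfies the recurrence with the characteristic polynomial `F(t, X)`:
`u_(n+k) + F_(k-1)(t) u_(n+k-1) + ... + F_0(t) u_n = 0` -/
def Rec (F : ℤ[X][X]) (t : ℤ) (u : ℕ → ℤ) : Prop :=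
  ∀ n, ∑ i ∈ range (F.natDegree + 1), (F.coeff i).eval t * u (n + i) = 0

/-- The zeros of a nonzero sequence `u` whose first `d` values are at most `B` in absolute value are
at most `(B |t|) ^ c`, and fewer than `M` of them do not satisfy `|t| ^ n ≤ (B |t|) ^ c`. -/
def Zeros (d M c : ℕ) (t : ℤ) (u : ℕ → ℤ) (x : ℕ → ℕ) : Prop :=
  (∀ n, u (x n) = 0) ∨ ∀ B : ℕ, (∀ i < d, (u i).natAbs ≤ B) →
    (∀ n, (B * t.natAbs) ^ c < n → u (x n) ≠ 0) ∧
    ∃ S : Finset ℕ, S.card < M ∧
      ∀ n, (B * t.natAbs) ^ c < t.natAbs ^ n → u (x n) = 0 → n ∈ S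

/-- For some family `F` of order `k`, degree at most `σ` and coefficients at most `H`, with simple
roots and non constant quotients, and some integer `t` with `|t| ≥ (B H) ^ B`, the `N` subsequences
`u_(q + N n)` satisfy the recurrence of `F(t, X)`. -/
def InClass (k σ B N : ℕ) (u : ℕ → ℤ) : Prop :=
  ∃ (H : ℕ) (F : ℤ[X][X]) (t : ℤ), Fam k σ H F ∧ Simple F ∧
    (∀ a b, IsRoot F a → IsRoot F b → a ≠ b → ¬ IsAlgebraic ℤ (a / b)) ∧
    (B * H) ^ B ≤ t.natAbs ∧ ∀ q < N, Rec F t (fun n => u (q + N * n))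

theorem rec_iff {F : ℤ[X][X]} (hF : F.Monic) (t : ℤ) (u : ℕ → ℤ) :
    Rec F t u ↔ Fm.Rec (RingHom.id ℤ) (spc F t) u := by
  unfold Rec Fm.Rec spc
  rw [hF.natDegree_map]
  simp only [coeff_map, RingHom.id_apply, coe_evalRingHom]

theorem isI0 {k σ H : ℕ} {F : ℤ[X][X]} (h : Fam k σ H F) (hs : Simple F)
    (hc : ∀ a b, IsRoot F a → IsRoot F b → a ≠ b → ¬ IsAlgebraic ℤ (a / b)) :
    IsI0 (k - 1) σ H F := by
  have hk := h.pos
  exact ⟨h.monic, by rw [h.deg]; omega, h.ne, h.one, fun i hi => h.dg i (by omega),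
    fun i hi => h.ht i (by omega), prEQ2 F h.monic h.ne ⟨hs, hc⟩⟩

/-- **The Skolem Problem in one-parameter families of recurrences, for all initial values.**

(1) Every family: let `F` be a family such that no two roots have a constant quotient other than a
root of unity. There are `N`, `M`, `T₀`, `c` (`M = 1` if the roots are simple) such that for all
integers `t` with `|t| ≥ T₀`, all integer sequences `u` satisfying the recurrence of `F(t, X)` and all
`q < N`: either `u_(q + N n) = 0` for all `n`, or the `n` with `u_(q + N n) = 0` satisfy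
`n ≤ (B |t|) ^ c`, and all except at most `M - 1` of them satisfy `|t| ^ n ≤ (B |t|) ^ c`, that is
`n ≤ c (1 + log B / log |t|)`, where `B` bounds the initial values.

(2) Decision: for every such `F` there are `T₀` and a primitive recursive procedure which decides
for all integers `t` with `|t| ≥ T₀` and all initial values `x` whether the sequence has a zero.

(3) Uniformity in the family: for all `k`, `σ`, `M` there is `c` such that for all families `F` of
order `k`, degree at most `σ` and coefficients at most `H` with simple roots and non constant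
quotients, all integers `t` with `|t| ≥ (c H) ^ c` and all integer sequences `u` satisfying the
recurrence with the characteristic polynomial `F(t, X) ^ M` the conclusion of (1) on the zeros
holds (`N = 1`).

(4) One primitive recursive procedure decides, from the data of a linear recurrence sequence `u` of
any order and a number `B`, whether `u` has a zero, correctly for all `u` in `InClass k σ B N`,
`N ≤ B`, `B ≥ B₀(k, σ)`. -/
theorem result :
    (∀ (k σ H : ℕ) (F : ℤ[X][X]), Fam k σ H F → Free F →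
      ∃ N M T₀ c : ℕ, 1 ≤ N ∧ 1 ≤ M ∧ (Simple F → M = 1) ∧
        ∀ t : ℤ, T₀ ≤ t.natAbs → ∀ u : ℕ → ℤ, Rec F t u → ∀ q < N,
          Zeros k M c t u (fun n => q + N * n)) ∧
    (∀ (k σ H : ℕ) (F : ℤ[X][X]), Fam k σ H F → Free F →
      ∃ (T₀ : ℕ) (A : ℤ × List ℤ → Bool), Primrec A ∧
        ∀ t : ℤ, T₀ ≤ t.natAbs → ∀ (u : ℕ → ℤ) (x : List ℤ), Rec F t u →
          x.length = k → (∀ i < k, u i = x.getD i 0) →
          (A (t, x) = true ↔ ∃ n, u n = 0)) ∧
    (∀ k σ M : ℕ, 1 ≤ M → ∃ c : ℕ, 1 ≤ c ∧ ∀ (H : ℕ) (F : ℤ[X][X]), Fam k σ H F → Simple F →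
      (∀ a b, IsRoot F a → IsRoot F b → a ≠ b → ¬ IsAlgebraic ℤ (a / b)) →
      ∀ t : ℤ, (c * H) ^ c ≤ t.natAbs → ∀ u : ℕ → ℤ, Rec (F ^ M) t u →
        Zeros (k * M) M c t u (fun n => n)) ∧
    ∃ A : (List ℤ × List ℤ) × ℕ → Bool, Primrec A ∧
      ∀ k σ : ℕ, 2 ≤ k → ∃ B₀ : ℕ, ∀ B N : ℕ, B₀ ≤ B → 1 ≤ N → N ≤ B →
        ∀ (p : List ℤ × List ℤ) (u : ℕ → ℤ), IsSeq p u → InClass k σ B N u →
          (A (p, B) = true ↔ ∃ n, u n = 0) := by
  refine ⟨?_, ?_, ?_, ?_⟩
  · intro k σ H F hF hfree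
    obtain ⟨N, M, T₀, c, hN, hM, hs, h⟩ := xFNA prRDA F hF.monic (by rw [hF.deg]; exact hF.pos)
      hF.ne (prEQ1 F hF.monic hF.ne hfree)
    refine ⟨N, M, T₀, c, hN, hM, hs, fun t ht u hu q hq => ?_⟩
    have h1 := h t ht u ((rec_iff hF.monic t u).1 hu) q hq
    rw [hF.deg] at h1
    exact h1
  · intro k σ H F hF hfree
    obtain ⟨T₀, A, hA, h⟩ := xFND prRDA F hF.monic (by rw [hF.deg]; exact hF.pos)
      hF.ne (prEQ1 F hF.monic hF.ne hfree)
    refine ⟨T₀, A, hA, fun t ht u x hu hx hi => ?_⟩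
    exact h t ht u x ((rec_iff hF.monic t u).1 hu) (by rw [hF.deg]; exact hx)
      (by rw [hF.deg]; exact hi)
  · intro k σ M hM
    rcases Nat.lt_or_ge 1 k with hk | hk
    · obtain ⟨c, hc, h⟩ := xZRY (k - 1) σ M (by omega) hM
      refine ⟨c, hc, fun H F hF hs hq t ht u hu => ?_⟩
      have h1 : Rec (F ^ M) t u ↔ Fm.Rec (RingHom.id ℤ) (spc F t ^ M) u := by
        rw [rec_iff (hF.monic.pow M)]
        unfold spc
        rw [Polynomial.map_pow]
      have h2 := h H F (isI0 hF hs hq) t ht u (h1.1 hu)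
      rw [Nat.sub_add_cancel (by omega)] at h2
      exact h2
    · obtain ⟨c, hc, h⟩ := xZR0 σ M hM
      refine ⟨c, hc, fun H F hF hs hq t ht u hu => ?_⟩
      have hk1 : k = 1 := le_antisymm hk hF.pos
      have h1 : Rec (F ^ M) t u ↔ Fm.Rec (RingHom.id ℤ) (spc F t ^ M) u := by
        rw [rec_iff (hF.monic.pow M)]
        unfold spc
        rw [Polynomial.map_pow]
      have h2 := h H F hF.monic (by rw [hF.deg, hk1]) hF.ne hF.one (hF.dg 0 hF.pos)
        (hF.ht 0 hF.pos) t ht u (h1.1 hu)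
      rw [hk1, one_mul]
      exact h2
  · obtain ⟨A, hA, h⟩ := xXDE
    refine ⟨A, hA, fun k σ hk => ?_⟩
    obtain ⟨B₀, h⟩ := h (k - 1) σ (by omega)
    refine ⟨B₀, fun B N hB hN hNB p u hp hu => ?_⟩
    obtain ⟨H, F, t, hF, hs, hq, ht, hr⟩ := hu
    exact h B N hB hN hNB p u hp ⟨H, F, t, isI0 hF hs hq, ht,
      fun q hq' => (rec_iff hF.monic t _).1 (hr q hq')⟩

end Pool.Agent.Work.MP_8d13b5_lc.Fm.EveryFamily
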