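import Pool.Agent.Work.MP_8d13b5_lc.Fm.All6

set_option autoImplicit false

namespace Pool.Agent.Work.MP_8d13b5_lc.Fm.EveryFamily

open Pool.Agent.Work.MP_8d13b5_lc Pool.Agent.Work.MP_8d13b5_lc.Fm Polynomial Finset

/-- the iterated exponential: `E 0 x = x`, `E (k + 1) x = 2 ^ E k x` -/
def E : ℕ → ℕ → ℕ
  | 0, x => x
  | k + 1, x => 2 ^ E k x

/-- an algebraic closure of the field `ℚ(t)` (the fraction field of `ℤ[t]`) -/
abbrev Om : Type := AlgebraicClosure (FractionRing ℤ[X])

/-- The families. `F = X ^ d + F_(d-1)(t) X ^ (d-1) + ... + F_0(t)` is a polynomial in `X` whose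
coefficients `F_i = F.coeff i` are integer polynomials in the parameter `t`, of degree at most `s` and
with coefficients at most `H` in absolute value, `F_0 ≠ 0`. -/
structure Fam (d s H : ℕ) (F : ℤ[X][X]) : Prop where
  monic : F.Monic
  deg : F.natDegree = d
  pos : 1 ≤ d
  ne : F.coeff 0 ≠ 0
  one : 1 ≤ H
  dg : ∀ i < d, (F.coeff i).natDegree ≤ s
  ht : ∀ i < d, ∀ j, ((F.coeff i).coeff j).natAbs ≤ H

/-- the algebraic function `a` of `t` is a root of `F` -/
def IsRoot (F : ℤ[X][X]) (a : Om) : Prop := (F.map (algebraMap ℤ[X] Om)).eval a = 0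

/-- No two roots of `F` have a constant quotient (algebraic over `ℚ`), except for roots of
unity. (Multiple roots are allowed.) -/
def Free (F : ℤ[X][X]) : Prop :=
  ∀ a b : Om, IsRoot F a → IsRoot F b → IsAlgebraic ℤ (a / b) → ∃ N : ℕ, 1 ≤ N ∧ a ^ N = b ^ N

/-- The roots of `F` are simple. -/
def Simple (F : ℤ[X][X]) : Prop :=
  (F.map (algebraMap ℤ[X] (FractionRing ℤ[X]))).Separable

/-- the height of a rational number: the larger of the numerator and the denominator -/
def height (t : ℚ) : ℕ := max t.num.natAbs t.den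

/-- `v` satisfies the recurrence with the characteristic polynomial `F(t, X)`:
`v_(n+d) + F_(d-1)(t) v_(n+d-1) + ... + F_0(t) v_n = 0` -/
def Rec (F : ℤ[X][X]) (t : ℚ) (v : ℕ → ℚ) : Prop :=
  ∀ n, ∑ i ∈ range (F.natDegree + 1), aeval t (F.coeff i) * v (n + i) = 0

/-- `w` satisfies the recurrence with the characteristic polynomial `f` over the integers -/
def RecZ (f : ℤ[X]) (w : ℕ → ℤ) : Prop :=
  ∀ n, ∑ i ∈ range (f.natDegree + 1), f.coeff i * w (n + i) = 0

/-- `z_0, ..., z_(d-1)` are at most `B` in absolute value -/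
def Bound (d B : ℕ) (z : ℕ → ℤ) : Prop := ∀ i < d, (z i).natAbs ≤ B

/-- `v` is zero, or, for every bound `B` of the initial values `z`, the zeros of `v` are at most
`(B T) ^ c`, and all except fewer than `M` of them satisfy `T ^ n ≤ (B T) ^ c`. -/
def Zeros (d M c T : ℕ) (z : ℕ → ℤ) (v : ℕ → ℚ) : Prop :=
  (∀ n, v n = 0) ∨ ∀ B : ℕ, Bound d B z →
    (∀ n, (B * T) ^ c < n → v n ≠ 0) ∧
    ∃ S : Finset ℕ, S.card < M ∧ ∀ n, (B * T) ^ c < T ^ n → v n = 0 → n ∈ S

/-- the polynomial `X ^ d + ∑_(i < d) L_i(t) X ^ i`, `d = L.length`, where `L_i` is given by the list of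
its coefficients -/
noncomputable def pol (L : List (List ℤ)) : ℤ[X][X] :=
  X ^ L.length + ∑ i ∈ range L.length,
    C (∑ j ∈ range (L.getD i []).length, C ((L.getD i []).getD j 0) * X ^ j) * X ^ i

/-- the polynomial `(X - r) ∏_(j < k) (X ^ 2 - a_j X + q)` of the examples of part (3) -/
noncomputable def exa (k : ℕ) (a : Fin k → ℤ) (r q : ℤ) : ℤ[X] :=
  (X - C r) * ∏ j, (X ^ 2 - C (a j) * X + C q)

section proof

variable {d s H : ℕ} {F : ℤ[X][X]}

theorem E_eq (k x : ℕ) : E k x = tw k x := by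
  induction k with
  | zero => rfl
  | succ k ih => rw [E, ih]; rfl

theorem Fam.wt (hF : Fam d s H F) : Wt s F := by
  intro i
  rw [hF.deg]
  rcases lt_trichotomy i d with h | h | h
  · refine (hF.dg i h).trans ?_
    exact Nat.le_mul_of_pos_right _ (by omega)
  · subst h
    have h1 : F.coeff i = 1 := by
      have := hF.monic.coeff_natDegree
      rwa [hF.deg] at this
    rw [h1, natDegree_one]
    exact Nat.zero_le _
  · rw [coeff_eq_zero_of_natDegree_lt (by rw [hF.deg]; exact h), natDegree_zero]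
    exact Nat.zero_le _

theorem Fam.isE (hF : Fam d s H F) : IsE d s H F := by
  refine ⟨hF.monic, hF.deg, hF.ne, hF.one, hF.wt, fun i j => ?_⟩
  rcases lt_trichotomy i d with h | h | h
  · exact hF.ht i h j
  · subst h
    have h1 : F.coeff i = 1 := by
      have := hF.monic.coeff_natDegree
      rwa [hF.deg] at this
    rw [h1, coeff_one]
    have := hF.one
    split_ifs
    · simpa using this
    · simp
  · have h1 : F.coeff i = 0 := coeff_eq_zero_of_natDegree_lt (by rw [hF.deg]; exact h)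
    rw [h1]
    simp

theorem coprime (t : ℚ) : IsCoprime t.num (t.den : ℤ) := by
  rw [Int.isCoprime_iff_gcd_eq_one]
  have := t.reduced
  rw [Nat.Coprime] at this
  rw [Int.gcd_eq_natAbs, Int.natAbs_natCast]
  exact this

theorem mx_eq (t : ℚ) : mx t.num (t.den : ℤ) = height t := by
  unfold mx height
  rw [Int.natAbs_natCast]

theorem height_pos (t : ℚ) : 1 ≤ height t := t.pos.trans_le (le_max_right _ _)

/-- the integer sequence of a member of the family -/
theorem lift (hF : Fam d s H F) (t : ℚ) (z : ℕ → ℤ) (v : ℕ → ℚ) (hz : ∀ i < d, v i = z i)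
    (hv : Rec F t v) : ∃ u : ℕ → ℤ, Fm.Rec (RingHom.id ℤ) (hsp s F t.num t.den) u ∧
      (∀ i < d, u i = ((t.den : ℤ) ^ s) ^ i * z i) ∧
      ∀ n, (u n : ℚ) = ((t.den : ℚ) ^ s) ^ n * v n := by
  obtain ⟨h1, h2, -⟩ := hHB1.1 ℤ s F t.num t.den hF.monic
  rw [hF.deg] at h2
  set f := hsp s F t.num (t.den : ℤ) with hf
  have hd0 : (t.den : ℚ) ≠ 0 := by exact_mod_cast t.den_ne_zero
  refine ⟨fun n => ∑ c ∈ range f.natDegree, Pd.cf f n c * (((t.den : ℤ) ^ s) ^ c * z c), ?_, ?_, ?_⟩
  · exact Pd.sol_of_init h1 _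
  · intro i hi
    exact Pd.init_of_init h1 (fun c => ((t.den : ℤ) ^ s) ^ c * z c) (by rw [h2]; exact hi)
  · set FQ : ℚ[X][X] := F.map (mapRingHom (Int.castRingHom ℚ)) with hFQ
    have hFQm : FQ.Monic := hF.monic.map _
    have hinj : Function.Injective (mapRingHom (Int.castRingHom ℚ)) :=
      map_injective _ Int.cast_injective
    have hFQd : FQ.natDegree = F.natDegree := natDegree_map_eq_of_injective hinj F
    have hFQw : Wt s FQ := by
      intro i
      rw [hFQ, coeff_map, coe_mapRingHom, hFQd]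
      exact natDegree_map_le.trans (hF.wt i)
    have h3 := hHB1.2.2.1 ℤ ℚ (Int.castRingHom ℚ) s F t.num t.den hF.monic
    have h4 := hHB1.2.1 ℚ s FQ (t.num : ℚ) (t.den : ℚ) hFQm hFQw hd0
    rw [Rat.num_div_den] at h4
    have h5 : f.map (Int.castRingHom ℚ) = (spc FQ t).scaleRoots ((t.den : ℚ) ^ s) := by
      rw [hf, h3, ← h4]
      simp [hFQ]
    have h6 : Pd.Sol (spc FQ t) v := by
      intro n
      have h7 := hv n
      unfold spc
      rw [hFQm.natDegree_map, hFQd]
      rw [← h7]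
      refine Finset.sum_congr rfl fun i _ => ?_
      rw [coeff_map, hFQ, coeff_map, coe_mapRingHom, coe_evalRingHom, eval_map]
      rfl
    have h8 := h6.scale ((t.den : ℚ) ^ s)
    rw [← h5] at h8
    have h9 := (Pd.sol_of_init h1 (fun c => ((t.den : ℤ) ^ s) ^ c * z c)).map (Int.castRingHom ℚ)
    have h10 : (f.map (Int.castRingHom ℚ)).Monic := h1.map _
    intro n
    refine Pd.Sol.ext h10 h9 h8 ?_ n
    intro i hi
    rw [h1.natDegree_map] at hi
    show (Int.castRingHom ℚ) _ = _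
    rw [Pd.init_of_init h1 (fun c => ((t.den : ℤ) ^ s) ^ c * z c) hi]
    rw [h2] at hi
    rw [hz i hi]
    simp

theorem zero_iff (t : ℚ) (v : ℕ → ℚ) (u : ℕ → ℤ)
    (h : ∀ n, (u n : ℚ) = ((t.den : ℚ) ^ s) ^ n * v n) (n : ℕ) : u n = 0 ↔ v n = 0 := by
  have hd0 : (t.den : ℚ) ≠ 0 := by exact_mod_cast t.den_ne_zero
  have h1 : ((t.den : ℚ) ^ s) ^ n ≠ 0 := pow_ne_zero _ (pow_ne_zero _ hd0)
  rw [← Int.cast_eq_zero (α := ℚ), h n, mul_eq_zero]
  exact ⟨fun h => h.resolve_left h1, fun h => Or.inr h⟩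

theorem init_bound (t : ℚ) (z : ℕ → ℤ) (u : ℕ → ℤ) (B : ℕ) (hB : Bound d B z)
    (hu : ∀ i < d, u i = ((t.den : ℤ) ^ s) ^ i * z i) :
    ∀ i < d, (u i).natAbs ≤ B * height t ^ (s * d) := by
  intro i hi
  rw [hu i hi, Int.natAbs_mul, Int.natAbs_pow, Int.natAbs_pow, Int.natAbs_natCast, mul_comm]
  refine Nat.mul_le_mul (hB i hi) ?_
  rw [← pow_mul]
  calc t.den ^ (s * i) ≤ height t ^ (s * i) := Nat.pow_le_pow_left (le_max_right _ _) _
    _ ≤ height t ^ (s * d) :=
      Nat.pow_le_pow_right (height_pos t) (Nat.mul_le_mul_left _ hi.le)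

theorem bound_pow (B T c p : ℕ) :
    (B * T ^ p * T) ^ c ≤ (B * T) ^ (c * (p + 1)) := by
  have h1 : B * T ^ p * T ≤ (B * T) ^ (p + 1) := by
    rw [mul_assoc, ← pow_succ, mul_pow]
    exact Nat.mul_le_mul_right _ (Nat.le_self_pow (by omega) B)
  calc (B * T ^ p * T) ^ c ≤ ((B * T) ^ (p + 1)) ^ c := Nat.pow_le_pow_left h1 _
    _ = (B * T) ^ (c * (p + 1)) := by rw [← pow_mul, mul_comm (p + 1) c]

theorem eq_zero_of_bound (hF : Fam d s H F) (t : ℚ) (u : ℕ → ℤ)
    (hu : Fm.Rec (RingHom.id ℤ) (hsp s F t.num t.den) u) (h0 : ∀ i < d, u i = 0) (n : ℕ) :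
    u n = 0 := by
  obtain ⟨h1, h2, -⟩ := hHB1.1 ℤ s F t.num t.den hF.monic
  rw [hF.deg] at h2
  exact Pd.Sol.eq_zero (f := hsp s F t.num t.den) h1 hu (fun i hi => h0 i (by rwa [h2] at hi)) n

theorem bound_zero (t : ℚ) (z : ℕ → ℤ) (u : ℕ → ℤ) (hB : Bound d 0 z)
    (hu : ∀ i < d, u i = ((t.den : ℤ) ^ s) ^ i * z i) : ∀ i < d, u i = 0 := by
  intro i hi
  have h1 := init_bound (s := s) t z u 0 hB hu i hi
  rw [zero_mul] at h1
  exact Int.natAbs_eq_zero.1 (Nat.le_zero.1 h1)

/-! ### the degree of the family, and the scaling of the initial values -/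

/-- the degree of a list of coefficients -/
def dg (l : List ℤ) : ℕ :=
  (List.range l.length).foldr (fun j m => if l.getD j 0 = 0 then m else max j m) 0

/-- the largest degree -/
def dL (L : List (List ℤ)) : ℕ := L.foldr (fun l m => max (dg l) m) 0

theorem primrec_dg : Primrec dg := by
  refine Primrec.list_foldr (f := fun l : List ℤ => List.range l.length) (g := fun _ => (0 : ℕ))
    (h := fun l (q : ℕ × ℕ) => if l.getD q.1 0 = 0 then q.2 else max q.1 q.2)
    (Primrec.list_range.comp Primrec.list_length) (Primrec.const 0) ?_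
  have hl : Primrec (fun y : List ℤ × (ℕ × ℕ) => y.1) := Primrec.fst
  have hj : Primrec (fun y : List ℤ × (ℕ × ℕ) => y.2.1) := Primrec.fst.comp Primrec.snd
  have hm : Primrec (fun y : List ℤ × (ℕ × ℕ) => y.2.2) := Primrec.snd.comp Primrec.snd
  have h1 : Primrec (fun y : List ℤ × (ℕ × ℕ) => y.1.getD y.2.1 0) :=
    (Primrec.list_getD (0 : ℤ)).comp hl hj
  exact (Primrec.ite (Primrec.eq.comp h1 (Primrec.const 0)) hm (Primrec.nat_max.comp hj hm)).to₂

theorem primrec_dL : Primrec dL := by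
  refine Primrec.list_foldr (f := fun L : List (List ℤ) => L) (g := fun _ => (0 : ℕ))
    (h := fun _ (q : List ℤ × ℕ) => max (dg q.1) q.2) Primrec.id (Primrec.const 0) ?_
  exact (Primrec.nat_max.comp (primrec_dg.comp (Primrec.fst.comp Primrec.snd))
    (Primrec.snd.comp Primrec.snd)).to₂

theorem dg_fold (l : List ℤ) (n : ℕ) : ∀ a : ℕ,
    let r := (List.range n).foldr (fun j m => if l.getD j 0 = 0 then m else max j m) a
    a ≤ r ∧ (∀ j < n, l.getD j 0 ≠ 0 → j ≤ r) ∧ (r = a ∨ ∃ j < n, l.getD j 0 ≠ 0 ∧ r = j) := by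
  induction n with
  | zero => intro a; simp
  | succ n ih =>
    intro a
    simp only [List.range_succ, List.foldr_append, List.foldr_cons, List.foldr_nil]
    by_cases h0 : l.getD n 0 = 0
    · rw [if_pos h0]
      obtain ⟨h1, h2, h3⟩ := ih a
      refine ⟨h1, fun j hj hj0 => ?_, ?_⟩
      · rcases Nat.lt_succ_iff_lt_or_eq.1 hj with h | h
        · exact h2 j h hj0
        · subst h
          exact absurd h0 hj0
      · rcases h3 with h3 | ⟨j, hj, hj0, h3⟩
        · exact Or.inl h3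
        · exact Or.inr ⟨j, by omega, hj0, h3⟩
    · rw [if_neg h0]
      obtain ⟨h1, h2, h3⟩ := ih (max n a)
      refine ⟨(le_max_right _ _).trans h1, fun j hj hj0 => ?_, ?_⟩
      · rcases Nat.lt_succ_iff_lt_or_eq.1 hj with h | h
        · exact h2 j h hj0
        · subst h
          exact (le_max_left _ _).trans h1
      · rcases h3 with h3 | ⟨j, hj, hj0, h3⟩
        · rcases le_total n a with h | h
          · rw [max_eq_right h] at h3 ⊢
            exact Or.inl h3
          · rw [max_eq_left h] at h3 ⊢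
            exact Or.inr ⟨n, by omega, h0, h3⟩
        · exact Or.inr ⟨j, by omega, hj0, h3⟩

theorem natDegree_pl (l : List ℤ) : (FDU.pl l).natDegree = dg l := by
  obtain ⟨-, h2, h3⟩ := dg_fold l l.length 0
  change (∀ j < l.length, l.getD j 0 ≠ 0 → j ≤ dg l) at h2
  change (dg l = 0 ∨ ∃ j < l.length, l.getD j 0 ≠ 0 ∧ dg l = j) at h3
  refine le_antisymm ?_ ?_
  · refine natDegree_le_iff_coeff_eq_zero.2 fun j hj => ?_
    rw [HDU.coeff_pl]
    by_contra h0
    by_cases hj' : j < l.length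
    · have := h2 j hj' h0
      omega
    · exact h0 (List.getD_eq_default _ _ (by omega))
  · rcases h3 with h3 | ⟨j, _, hj0, h3⟩
    · omega
    · rw [h3]
      refine le_natDegree_of_ne_zero ?_
      rw [HDU.coeff_pl]
      exact hj0

theorem dL_le (L : List (List ℤ)) (m : ℕ) : dL L ≤ m ↔ ∀ l ∈ L, dg l ≤ m := by
  unfold dL
  induction L with
  | nil => simp
  | cons l L ih =>
    rw [List.foldr_cons, max_le_iff, ih]
    simp

theorem fam_dL {L : List (List ℤ)} (hF : Fam d s H (pol L)) :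
    Fam d (dL L) H (pol L) ∧ dL L ≤ s := by
  have hlen : L.length = d := by rw [← FDU.natDegree_pol]; exact hF.deg
  have hc : ∀ i < d, (pol L).coeff i = FDU.pl (L.getD i []) := by
    intro i hi
    exact FDU.coeff_pol L i (by omega)
  refine ⟨⟨hF.monic, hF.deg, hF.pos, hF.ne, hF.one, fun i hi => ?_, hF.ht⟩, ?_⟩
  · rw [hc i hi, natDegree_pl]
    refine (dL_le L _).1 le_rfl _ ?_
    rw [List.getD_eq_getElem _ _ (by omega)]
    exact List.getElem_mem _
  · refine (dL_le L s).2 fun l hl => ?_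
    obtain ⟨i, hi, rfl⟩ := List.mem_iff_getElem.1 hl
    have h := hF.dg i (by omega)
    rw [hc i (by omega), natDegree_pl, List.getD_eq_getElem _ _ hi] at h
    exact h

/-- scaling of the initial values -/
def sc (w : (List (List ℤ) × List ℤ) × (ℤ × ℤ)) : List ℤ :=
  (List.range w.1.2.length).map fun i => (w.2.2 ^ dL w.1.1) ^ i * w.1.2.getD i 0

theorem primrec_sc : Primrec sc := by
  refine Primrec.list_map
    (f := fun w : (List (List ℤ) × List ℤ) × (ℤ × ℤ) => List.range w.1.2.length)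
    (g := fun w i => (w.2.2 ^ dL w.1.1) ^ i * w.1.2.getD i 0)
    (Primrec.list_range.comp (Primrec.list_length.comp (Primrec.snd.comp Primrec.fst))) ?_
  have hw : Primrec (fun y : ((List (List ℤ) × List ℤ) × (ℤ × ℤ)) × ℕ => y.1) := Primrec.fst
  have hi : Primrec (fun y : ((List (List ℤ) × List ℤ) × (ℤ × ℤ)) × ℕ => y.2) := Primrec.snd
  have h1 := HDU.primrec_ipow.comp
    (HDU.primrec_ipow.comp (Primrec.snd.comp (Primrec.snd.comp hw))
      (primrec_dL.comp (Primrec.fst.comp (Primrec.fst.comp hw)))) hi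
  have h2 := (Primrec.list_getD (0 : ℤ)).comp (Primrec.snd.comp (Primrec.fst.comp hw)) hi
  exact (primrec_int_mul.comp h1 h2).to₂

theorem sc_getD (L : List (List ℤ)) (x : List ℤ) (p q : ℤ) (i : ℕ) (hi : i < x.length) :
    (sc ((L, x), (p, q))).getD i 0 = (q ^ dL L) ^ i * x.getD i 0 := by
  have h : i < (sc ((L, x), (p, q))).length := by simpa [sc] using hi
  rw [List.getD_eq_getElem _ _ h]
  simp only [sc, List.getElem_map, List.getElem_range]

/-- the threshold is monotone -/
theorem thr {a b H T : ℕ} (hH : 1 ≤ H) (hab : a ≤ b) (h : (b * H) ^ b ≤ T) (hb : 1 ≤ b) :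
    (a * H) ^ a ≤ T := by
  refine le_trans ?_ h
  calc (a * H) ^ a ≤ (b * H) ^ a := Nat.pow_le_pow_left (Nat.mul_le_mul_right _ hab) _
    _ ≤ (b * H) ^ b := Nat.pow_le_pow_right (Nat.mul_pos hb hH) hab

end proof

/-- **The Skolem Problem in all one-parameter families of linear recurrences, for all rational
parameters and all initial values, with an elementary bound.** There is a number `h` with the
following properties; `E h` is the iterated exponential.

(1) Zeros. Let `C = E h (d + s)`. For all `d`, `s` there is `N ≤ C` such that for all families `F` of order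
`d`, degree at most `s` and coefficients at most `H` in which no two roots have a constant quotient
other than a root of unity, there is `M ≤ d` (`M = 1` if the roots are simple) such that for all
rational `t` of height `T ≥ (C H) ^ C`, all solutions `v` of the recurrence of `F(t, X)` with integer initial
values and all `q < N`: either `v_(q + N n) = 0` for all `n`, or the `n` with `v_(q + N n) = 0` satisfy
`n ≤ (B T) ^ C`, and all except at most `M - 1` of them satisfy `T ^ n ≤ (B T) ^ C`, where `B` bounds the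
initial values.

(2) Decision. One primitive recursive procedure decides, from the coefficients of `F`, the initial
values and `t`, whether the solution has a zero, correctly for all these families of all orders,
degrees and heights and all these `t`.

(3) Examples with `2 k` roots of equal modulus. Let `C = E h k`, let `a_1, ..., a_k`, `r` be nonzero integers
of absolute value at most `A`, the squares `a_j ^ 2` different, and `|q| ≥ (C A) ^ C`. Let `u` be a nonzero
integer solution of the recurrence with the characteristic polynomial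
`(X - r) ∏_(j ≤ k) (X ^ 2 - a_j X + q)`, `|u_0|, ..., |u_(2k)| ≤ B`. Then `u_n = 0` implies `|q| ^ n ≤ (B |q|) ^ C`. -/
theorem result : ∃ h : ℕ,
    (∀ d s : ℕ, ∃ N : ℕ, 1 ≤ N ∧ N ≤ E h (d + s) ∧ ∀ (H : ℕ) (F : ℤ[X][X]), Fam d s H F → Free F →
      ∃ M : ℕ, 1 ≤ M ∧ M ≤ d ∧ (Simple F → M = 1) ∧
        ∀ t : ℚ, (E h (d + s) * H) ^ E h (d + s) ≤ height t →
        ∀ (z : ℕ → ℤ) (v : ℕ → ℚ), (∀ i < d, v i = z i) → Rec F t v →
          ∀ q < N, Zeros d M (E h (d + s)) (height t) z (fun n => v (q + N * n))) ∧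
    (∃ A : (List (List ℤ) × List ℤ) × (ℤ × ℤ) → Bool, Primrec A ∧
      ∀ (d s H : ℕ) (L : List (List ℤ)), Fam d s H (pol L) → Free (pol L) →
        ∀ t : ℚ, (E h (d + s) * H) ^ E h (d + s) ≤ height t →
        ∀ (x : List ℤ) (v : ℕ → ℚ), x.length = d → (∀ i < d, v i = x.getD i 0) →
          Rec (pol L) t v → (A ((L, x), (t.num, (t.den : ℤ))) = true ↔ ∃ n, v n = 0)) ∧
    (∀ (k : ℕ) (a : Fin k → ℤ) (r q : ℤ) (A : ℕ), 1 ≤ k → (∀ j, a j ≠ 0 ∧ (a j).natAbs ≤ A) →
      r ≠ 0 ∧ r.natAbs ≤ A → (∀ i j, i ≠ j → a i ^ 2 ≠ a j ^ 2) →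
      (E h k * A) ^ E h k ≤ q.natAbs → ∀ u : ℕ → ℤ, RecZ (exa k a r q) u →
        (∀ n, u n = 0) ∨ ∀ B : ℕ, Bound (2 * k + 1) B u →
          ∀ n, u n = 0 → q.natAbs ^ n ≤ (B * q.natAbs) ^ E h k) := by
  obtain ⟨h₁, hZ⟩ := eHNU
  obtain ⟨h₂, A, hA, hD⟩ := eHDU
  obtain ⟨h₃, hX⟩ := yXB3
  obtain ⟨h, hh⟩ : ∃ h, h = h₁ + h₂ + h₃ + 3 := ⟨_, rfl⟩
  -- the bound for the exponent in the root form
  have hc : ∀ x y : ℕ, y ≤ x → tw h₁ x * (y * y + 1) ≤ tw h x := by
    intro x y hy
    obtain ⟨w, hw⟩ : ∃ w, w = tw h₁ x := ⟨_, rfl⟩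
    have h1 : x ≤ w := hw ▸ le_tw h₁ x
    have h2 : tw (h₁ + 3) x = 2 ^ 2 ^ 2 ^ w := by
      rw [tw_succ, tw_succ, tw_succ, ← hw]
    have h3 : w * (y * y + 1) ≤ 2 ^ 2 ^ 2 ^ w := by
      have e1 : w < 2 ^ w := Nat.lt_two_pow_self
      have e2 : y * y + 1 ≤ 2 ^ w * 2 ^ w := by
        have : y + 1 ≤ 2 ^ w := by omega
        nlinarith
      have e3 : w * (y * y + 1) ≤ 2 ^ (3 * w) := by
        calc w * (y * y + 1) ≤ 2 ^ w * (2 ^ w * 2 ^ w) := Nat.mul_le_mul e1.le e2
          _ = 2 ^ (3 * w) := by rw [← pow_add, ← pow_add]; congr 1; ring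
      have e4 : 3 * w ≤ 2 ^ 2 ^ w := by
        have a1 : 2 * w ≤ 2 ^ w := two_mul_le_two_pow w
        have a2 : 2 * 2 ^ w ≤ 2 ^ 2 ^ w := two_mul_le_two_pow _
        omega
      exact e3.trans (Nat.pow_le_pow_right (by norm_num) e4)
    rw [← hw]
    refine h3.trans ?_
    rw [← h2]
    exact tw_le_of_le (by omega) x
  have hpos : ∀ x, 1 ≤ tw h x := by
    intro x
    rw [hh]
    exact Nat.one_le_two_pow
  refine ⟨h, ?_, ?_, ?_⟩
  · intro d s
    simp only [E_eq]
    rcases Nat.eq_zero_or_pos d with hd | hd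
    · subst hd
      exact ⟨1, le_rfl, hpos _, fun H F hF => absurd hF.pos (by omega)⟩
    obtain ⟨N, hN, hNle, hZ⟩ := hZ d s hd
    refine ⟨N, hN, hNle.trans (tw_le_of_le (by omega) _), fun H F hF hfree => ?_⟩
    obtain ⟨M, hM, hMd, hMs, hZ⟩ := hZ H F hF.isE (prEQ1 F hF.monic hF.ne hfree)
    refine ⟨M, hM, hMd, hMs, fun t ht z v hz hv q hq => ?_⟩
    obtain ⟨c, hcdef⟩ : ∃ c, c = tw h₁ (d + s) := ⟨_, rfl⟩
    obtain ⟨c', hc'def⟩ : ∃ c', c' = tw h (d + s) := ⟨_, rfl⟩
    have hcc : c * (s * d + 1) ≤ c' := by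
      rw [hcdef, hc'def]
      refine le_trans ?_ (hc (d + s) (d + s) le_rfl)
      refine Nat.mul_le_mul_left _ (Nat.succ_le_succ ?_)
      exact Nat.mul_le_mul (by omega) (by omega)
    have hcc' : c ≤ c' := le_trans (Nat.le_mul_of_pos_right _ (by omega)) hcc
    rw [← hcdef] at hZ
    rw [← hc'def] at ht ⊢
    have hcH : (c * H) ^ c ≤ mx t.num (t.den : ℤ) := by
      rw [mx_eq]
      exact thr hF.one hcc' ht (by rw [hc'def]; exact hpos _)
    obtain ⟨u, hu, hui, huv⟩ := lift hF t z v hz hv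
    rcases hZ t.num t.den (coprime t) hcH u hu q hq with h1 | h1
    · left
      intro n
      exact (zero_iff t v u huv _).1 (h1 n)
    · right
      intro B hB
      rcases Nat.eq_zero_or_pos B with hB0 | hB0
      · have hz0 : ∀ n, v n = 0 := by
          subst hB0
          intro n
          exact (zero_iff t v u huv _).1
            (eq_zero_of_bound hF t u hu (bound_zero t z u hB hui) n)
        exfalso
        subst hB0
        have hc0 : 1 ≤ c := by
          rw [hcdef]
          exact le_trans (by omega) (le_tw h₁ (d + s))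
        have h3 := (h1 0 (fun i hi => by rw [bound_zero t z u hB hui i hi]; simp)).1 1 (by
          rw [zero_mul, zero_pow (by omega)]
          exact Nat.one_pos)
        exact h3 ((zero_iff t v u huv _).2 (hz0 _))
      · obtain ⟨h2, S, hS, h3⟩ := h1 (B * height t ^ (s * d)) (init_bound t z u B hB hui)
        rw [mx_eq] at h2 h3
        have h4 : (B * height t ^ (s * d) * height t) ^ c ≤ (B * height t) ^ c' := by
          refine (bound_pow B (height t) c (s * d)).trans ?_
          exact Nat.pow_le_pow_right (Nat.mul_pos hB0 (height_pos t)) hcc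
        refine ⟨fun n hn => ?_, S, hS, fun n hn h0 => ?_⟩
        · intro h0
          exact h2 n (lt_of_le_of_lt h4 hn) ((zero_iff t v u huv _).2 h0)
        · exact h3 n (lt_of_le_of_lt h4 hn) ((zero_iff t v u huv _).2 h0)
  · refine ⟨fun w => A ((w.1.1, sc w), (dL w.1.1, (w.2.1, w.2.2))), ?_, fun d s H L hF hfree => ?_⟩
    · exact hA.comp (Primrec.pair (Primrec.pair (Primrec.fst.comp Primrec.fst) primrec_sc)
        (Primrec.pair (primrec_dL.comp (Primrec.fst.comp Primrec.fst)) Primrec.snd))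
    · simp only [E_eq]
      intro t ht x v hx hi hv
      obtain ⟨hF', hs⟩ := fam_dL hF
      obtain ⟨u, hu, hui, huv⟩ := lift hF' t (fun i => x.getD i 0) v hi hv
      have hthr : (tw h₂ (d + dL L) * H) ^ tw h₂ (d + dL L) ≤ mx t.num (t.den : ℤ) := by
        rw [mx_eq]
        refine thr hF.one ?_ ht (hpos _)
        exact (tw_mono h₂ (by omega)).trans (tw_le_of_le (by omega) _)
      have h1 := hD d (dL L) hF.pos H L hF'.isE (prEQ1 _ hF.monic hF.ne hfree) t.num t.den
        (coprime t) hthr (sc ((L, x), (t.num, (t.den : ℤ)))) u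
        (by simpa [sc] using hx)
        (fun i hi' => by rw [sc_getD L x _ _ i (by omega)]; exact hui i hi') hu
      refine h1.trans ?_
      exact exists_congr fun n => zero_iff t v u huv n
  · intro k a r q A hk ha hr haa hq u hu
    simp only [E_eq] at hq ⊢
    have hA1 : 1 ≤ A := le_trans (Int.natAbs_pos.2 hr.1) hr.2
    have hle : tw h₃ k ≤ tw h k := tw_le_of_le (by omega) k
    have hq' : (tw h₃ k * A) ^ tw h₃ k ≤ q.natAbs := thr hA1 hle hq (hpos _)
    rcases hX k a r A hk hA1 (fun j => (ha j).2) hr.2 hr.1 (fun j => (ha j).1) haa q hq' u hu with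
      h1 | h1
    · exact Or.inl h1
    · right
      intro B hB n hn
      refine (h1 B hB n hn).trans ?_
      have hq1 : 1 ≤ q.natAbs := le_trans (Nat.one_le_pow _ _ (Nat.mul_pos (hpos k) hA1)) hq
      rcases Nat.eq_zero_or_pos B with hB0 | hB0
      · exfalso
        have h2 := h1 B hB n hn
        have h3 : 1 ≤ tw h₃ k := le_trans hk (le_tw h₃ k)
        rw [hB0, zero_mul, zero_pow (by omega)] at h2
        have h4 : 1 ≤ q.natAbs ^ n := Nat.one_le_pow _ _ hq1
        omega
      · exact Nat.pow_le_pow_right (Nat.mul_pos hB0 hq1) hle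

end Pool.Agent.Work.MP_8d13b5_lc.Fm.EveryFamily
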