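import Pool.Agent.Work.MP_8d13b5_lc.Fm.All7
import Pool.Agent.Work.MP_8d13b5_lc.Fm.R_RHP

set_option autoImplicit false

namespace Pool.Agent.Work.MP_8d13b5_lc.Fm.FamilyReduction

open Pool.Agent.Work.MP_8d13b5_lc Pool.Agent.Work.MP_8d13b5_lc.Fm Polynomial Finset

/-- The families: `F = X ^ d + F_(d-1)(t) X ^ (d-1) + ... + F_0(t)`, `d ≥ 1`, is a polynomial in `X` whose
coefficients `F_i = F.coeff i` are arbitrary integer polynomials in the parameter `t`, `F_0 ≠ 0`. -/
structure Fam (d : ℕ) (F : ℤ[X][X]) : Prop where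
  monic : F.Monic
  deg : F.natDegree = d
  pos : 1 ≤ d
  ne : F.coeff 0 ≠ 0

/-- the height of a rational number: the larger of the numerator and the denominator -/
def height (t : ℚ) : ℕ := max t.num.natAbs t.den

/-- `v` satisfies the recurrence with the characteristic polynomial `F(t, X)`:
`v_(n+d) + F_(d-1)(t) v_(n+d-1) + ... + F_0(t) v_n = 0` -/
def Rec (F : ℤ[X][X]) (t : ℚ) (v : ℕ → ℚ) : Prop :=
  ∀ n, ∑ i ∈ range (F.natDegree + 1), aeval t (F.coeff i) * v (n + i) = 0

/-- `w` satisfies the recurrence with the characteristic polynomial `f` over the integers -/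
def RecZ (f : ℤ[X]) (w : ℕ → ℤ) : Prop :=
  ∀ n, ∑ i ∈ range (f.natDegree + 1), f.coeff i * w (n + i) = 0

/-- `z_0, ..., z_(d-1)` are at most `B` in absolute value -/
def Bound (d B : ℕ) (z : ℕ → ℤ) : Prop := ∀ i < d, (z i).natAbs ≤ B

/-- the point with the coordinates `num t, den t, z_0, ..., z_(d-1)` -/
def pt (d : ℕ) (t : ℚ) (z : ℕ → ℤ) : Fin (d + 2) → ℤ :=
  Fin.cons t.num (Fin.cons (t.den : ℤ) fun i : Fin d => z i)

/-- the solution of the recurrence of `f` with the initial values `l` has a zero -/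
def ZeroZ (f : ℤ[X]) (l : List ℤ) : Prop :=
  ∃ w : ℕ → ℤ, RecZ f w ∧ (∀ i < f.natDegree, w i = l.getD i 0) ∧ ∃ n, w n = 0

/-- the solution of the recurrence of `F(t, X)` with the initial values `x` has a zero -/
def ZeroQ (F : ℤ[X][X]) (t : ℚ) (x : List ℤ) : Prop :=
  ∃ v : ℕ → ℚ, Rec F t v ∧ (∀ i < F.natDegree, v i = x.getD i 0) ∧ ∃ n, v n = 0

/-- the Skolem Problem is decidable for the one recurrence of `f` (all integer initial values) -/
def Skolem (f : ℤ[X]) : Prop :=
  ∃ D : List ℤ → Bool, Computable D ∧ ∀ l, l.length = f.natDegree → (D l = true ↔ ZeroZ f l)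

/-- the Skolem Problem is decidable for the one recurrence of `F(t, X)` (all integer initial values) -/
def SkolemAt (F : ℤ[X][X]) (t : ℚ) : Prop :=
  ∃ D : List ℤ → Bool, Computable D ∧ ∀ x, x.length = F.natDegree → (D x = true ↔ ZeroQ F t x)

/-- the Skolem Problem is decidable for the whole family: all rational `t` with `F_0(t) ≠ 0`, all integer
initial values -/
def SkolemAll (F : ℤ[X][X]) : Prop :=
  ∃ A : List ℤ × (ℤ × ℤ) → Bool, Computable A ∧
    ∀ t : ℚ, aeval t (F.coeff 0) ≠ 0 → ∀ x : List ℤ, x.length = F.natDegree →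
      (A (x, (t.num, (t.den : ℤ))) = true ↔ ZeroQ F t x)

section proof

variable {d s : ℕ} {F : ℤ[X][X]}

theorem coprime (t : ℚ) : IsCoprime t.num (t.den : ℤ) := by
  rw [Int.isCoprime_iff_gcd_eq_one]
  have := t.reduced
  rw [Nat.Coprime] at this
  rw [Int.gcd_eq_natAbs, Int.natAbs_natCast]
  exact this

theorem mx_eq (t : ℚ) : mx t.num (t.den : ℤ) = height t := by
  unfold mx height
  rw [Int.natAbs_natCast]

theorem height_pos (t : ℚ) : 1 ≤ height t := t.pos.trans_le (le_max_right _ _)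

/-- weights -/
theorem exists_wt (hF : Fam d F) : ∃ s, Wt s F := by
  refine ⟨∑ i ∈ range d, (F.coeff i).natDegree, fun i => ?_⟩
  rw [hF.deg]
  rcases lt_trichotomy i d with h | h | h
  · refine (Finset.single_le_sum (f := fun i => (F.coeff i).natDegree) (fun _ _ => Nat.zero_le _)
      (mem_range.2 h)).trans ?_
    exact Nat.le_mul_of_pos_right _ (by omega)
  · subst h
    have h1 : F.coeff i = 1 := by
      have := hF.monic.coeff_natDegree
      rwa [hF.deg] at this
    rw [h1, natDegree_one]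
    exact Nat.zero_le _
  · rw [coeff_eq_zero_of_natDegree_lt (by rw [hF.deg]; exact h), natDegree_zero]
    exact Nat.zero_le _

/-- the integer sequence of a member of the family -/
theorem lift (hF : Fam d F) (hw : Wt s F) (t : ℚ) (z : ℕ → ℤ) (v : ℕ → ℚ)
    (hz : ∀ i < d, v i = z i)
    (hv : Rec F t v) : ∃ u : ℕ → ℤ, Fm.Rec (RingHom.id ℤ) (hsp s F t.num t.den) u ∧
      (∀ i < d, u i = ((t.den : ℤ) ^ s) ^ i * z i) ∧
      ∀ n, (u n : ℚ) = ((t.den : ℚ) ^ s) ^ n * v n := by
  obtain ⟨h1, h2, -⟩ := hHB1.1 ℤ s F t.num t.den hF.monic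
  rw [hF.deg] at h2
  set f := hsp s F t.num (t.den : ℤ) with hf
  have hd0 : (t.den : ℚ) ≠ 0 := by exact_mod_cast t.den_ne_zero
  refine ⟨fun n => ∑ c ∈ range f.natDegree, Pd.cf f n c * (((t.den : ℤ) ^ s) ^ c * z c), ?_, ?_, ?_⟩
  · exact Pd.sol_of_init h1 _
  · intro i hi
    exact Pd.init_of_init h1 (fun c => ((t.den : ℤ) ^ s) ^ c * z c) (by rw [h2]; exact hi)
  · set FQ : ℚ[X][X] := F.map (mapRingHom (Int.castRingHom ℚ)) with hFQ
    have hFQm : FQ.Monic := hF.monic.map _
    have hinj : Function.Injective (mapRingHom (Int.castRingHom ℚ)) :=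
      map_injective _ Int.cast_injective
    have hFQd : FQ.natDegree = F.natDegree := natDegree_map_eq_of_injective hinj F
    have hFQw : Wt s FQ := by
      intro i
      rw [hFQ, coeff_map, coe_mapRingHom, hFQd]
      exact natDegree_map_le.trans (hw i)
    have h3 := hHB1.2.2.1 ℤ ℚ (Int.castRingHom ℚ) s F t.num t.den hF.monic
    have h4 := hHB1.2.1 ℚ s FQ (t.num : ℚ) (t.den : ℚ) hFQm hFQw hd0
    rw [Rat.num_div_den] at h4
    have h5 : f.map (Int.castRingHom ℚ) = (spc FQ t).scaleRoots ((t.den : ℚ) ^ s) := by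
      rw [hf, h3, ← h4]
      simp [hFQ]
    have h6 : Pd.Sol (spc FQ t) v := by
      intro n
      have h7 := hv n
      unfold spc
      rw [hFQm.natDegree_map, hFQd]
      rw [← h7]
      refine Finset.sum_congr rfl fun i _ => ?_
      rw [coeff_map, hFQ, coeff_map, coe_mapRingHom, coe_evalRingHom, eval_map]
      rfl
    have h8 := h6.scale ((t.den : ℚ) ^ s)
    rw [← h5] at h8
    have h9 := (Pd.sol_of_init h1 (fun c => ((t.den : ℤ) ^ s) ^ c * z c)).map (Int.castRingHom ℚ)
    have h10 : (f.map (Int.castRingHom ℚ)).Monic := h1.map _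
    intro n
    refine Pd.Sol.ext h10 h9 h8 ?_ n
    intro i hi
    rw [h1.natDegree_map] at hi
    show (Int.castRingHom ℚ) _ = _
    rw [Pd.init_of_init h1 (fun c => ((t.den : ℤ) ^ s) ^ c * z c) hi]
    rw [h2] at hi
    rw [hz i hi]
    simp

theorem zero_iff (t : ℚ) (v : ℕ → ℚ) (u : ℕ → ℤ)
    (h : ∀ n, (u n : ℚ) = ((t.den : ℚ) ^ s) ^ n * v n) (n : ℕ) : u n = 0 ↔ v n = 0 := by
  have hd0 : (t.den : ℚ) ≠ 0 := by exact_mod_cast t.den_ne_zero
  have h1 : ((t.den : ℚ) ^ s) ^ n ≠ 0 := pow_ne_zero _ (pow_ne_zero _ hd0)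
  rw [← Int.cast_eq_zero (α := ℚ), h n, mul_eq_zero]
  exact ⟨fun h => h.resolve_left h1, fun h => Or.inr h⟩

theorem init_bound (t : ℚ) (z : ℕ → ℤ) (u : ℕ → ℤ) (B : ℕ) (hB : Bound d B z)
    (hu : ∀ i < d, u i = ((t.den : ℤ) ^ s) ^ i * z i) :
    ∀ i < d, (u i).natAbs ≤ B * height t ^ (s * d) := by
  intro i hi
  rw [hu i hi, Int.natAbs_mul, Int.natAbs_pow, Int.natAbs_pow, Int.natAbs_natCast, mul_comm]
  refine Nat.mul_le_mul (hB i hi) ?_
  rw [← pow_mul]
  calc t.den ^ (s * i) ≤ height t ^ (s * i) := Nat.pow_le_pow_left (le_max_right _ _) _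
    _ ≤ height t ^ (s * d) :=
      Nat.pow_le_pow_right (height_pos t) (Nat.mul_le_mul_left _ hi.le)

theorem bound_pow (B T c p : ℕ) :
    (B * T ^ p * T) ^ c ≤ (B * T) ^ (c * (p + 1)) := by
  have h1 : B * T ^ p * T ≤ (B * T) ^ (p + 1) := by
    rw [mul_assoc, ← pow_succ, mul_pow]
    exact Nat.mul_le_mul_right _ (Nat.le_self_pow (by omega) B)
  calc (B * T ^ p * T) ^ c ≤ ((B * T) ^ (p + 1)) ^ c := Nat.pow_le_pow_left h1 _
    _ = (B * T) ^ (c * (p + 1)) := by rw [← pow_mul, mul_comm (p + 1) c]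

/-- the substitution of the scaled initial values -/
noncomputable def sub (d s : ℕ) : Fin (d + 2) → MvPolynomial (Fin (d + 2)) ℤ :=
  Fin.cons (MvPolynomial.X 0) (Fin.cons (MvPolynomial.X 1) fun i : Fin d =>
    (MvPolynomial.X 1 ^ s) ^ (i : ℕ) * MvPolynomial.X i.succ.succ)

theorem eval_sub (t : ℚ) (z u : ℕ → ℤ) (hu : ∀ i < d, u i = ((t.den : ℤ) ^ s) ^ i * z i)
    (P : MvPolynomial (Fin (d + 2)) ℤ) :
    MvPolynomial.eval (pt d t z) (MvPolynomial.bind₁ (sub d s) P) =
      MvPolynomial.eval (Fin.cons t.num (Fin.cons (t.den : ℤ) fun i : Fin d => u i)) P := by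
  rw [← MvPolynomial.coe_aeval_eq_eval, RingHom.coe_coe, MvPolynomial.aeval_bind₁,
    ← MvPolynomial.coe_aeval_eq_eval, RingHom.coe_coe]
  congr 1
  congr 1
  funext k
  refine Fin.cases ?_ (fun k => ?_) k
  · simp [sub, pt]
  · refine Fin.cases ?_ (fun k => ?_) k
    · have h : (1 : Fin (d + 2)) = Fin.succ 0 := rfl
      simp only [sub, Fin.cons_succ, Fin.cons_zero, MvPolynomial.aeval_X]
      rw [h]
      simp [pt]
    · have h : (1 : Fin (d + 2)) = Fin.succ 0 := rfl
      simp only [sub, Fin.cons_succ, map_mul, map_pow, MvPolynomial.aeval_X]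
      rw [hu k k.2, h]
      simp [pt]

/-- scaling of the initial values -/
def sc (s : ℕ) (w : List ℤ × (ℤ × ℤ)) : List ℤ :=
  (List.range w.1.length).map fun i => (w.2.2 ^ s) ^ i * w.1.getD i 0

theorem primrec_sc (s : ℕ) : Primrec (sc s) := by
  refine Primrec.list_map
    (f := fun w : List ℤ × (ℤ × ℤ) => List.range w.1.length)
    (g := fun w i => (w.2.2 ^ s) ^ i * w.1.getD i 0)
    (Primrec.list_range.comp (Primrec.list_length.comp Primrec.fst)) ?_
  have hw : Primrec (fun y : (List ℤ × (ℤ × ℤ)) × ℕ => y.1) := Primrec.fst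
  have hi : Primrec (fun y : (List ℤ × (ℤ × ℤ)) × ℕ => y.2) := Primrec.snd
  have h1 := HDU.primrec_ipow.comp
    (HDU.primrec_ipow.comp (Primrec.snd.comp (Primrec.snd.comp hw)) (Primrec.const s)) hi
  have h2 := (Primrec.list_getD (0 : ℤ)).comp (Primrec.fst.comp hw) hi
  exact (primrec_int_mul.comp h1 h2).to₂

theorem sc_getD (x : List ℤ) (s : ℕ) (p q : ℤ) (i : ℕ) (hi : i < x.length) :
    (sc s (x, (p, q))).getD i 0 = (q ^ s) ^ i * x.getD i 0 := by
  have h : i < (sc s (x, (p, q))).length := by simpa [sc] using hi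
  rw [List.getD_eq_getElem _ _ h]
  simp only [sc, List.getElem_map, List.getElem_range]

theorem pt_eq (d : ℕ) (t : ℚ) (x : List ℤ) : pt d t (fun i => x.getD i 0) =
    fun j : Fin (d + 2) => (t.num :: (t.den : ℤ) :: x).getD j 0 :=
  RRHC.args_eq (d := d) t.num t.den x (fun i => x.getD i 0) fun _ _ => rfl

/-- the solution with given initial values -/
theorem exists_sol (hF : Fam d F) (t : ℚ) (x : List ℤ) :
    ∃ v : ℕ → ℚ, Rec F t v ∧ ∀ i < d, v i = x.getD i 0 := by
  set f : ℚ[X] := F.map ((aeval t : ℤ[X] →ₐ[ℤ] ℚ) : ℤ[X] →+* ℚ) with hf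
  have hfm : f.Monic := hF.monic.map _
  have hfd : f.natDegree = F.natDegree := hF.monic.natDegree_map _
  refine ⟨fun n => ∑ c ∈ range f.natDegree, Pd.cf f n c * ((x.getD c 0 : ℤ) : ℚ), ?_, ?_⟩
  · intro n
    have h := Pd.sol_of_init hfm (fun c => ((x.getD c 0 : ℤ) : ℚ)) n
    rw [hfd] at h ⊢
    rw [← h]
    refine Finset.sum_congr rfl fun i _ => ?_
    rw [hf, coeff_map]
    rfl
  · intro i hi
    exact Pd.init_of_init hfm (fun c => ((x.getD c 0 : ℤ) : ℚ)) (by rw [hfd, hF.deg]; exact hi)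

/-- the solution with given initial values is unique -/
theorem rec_ext (hF : Fam d F) (t : ℚ) (v v' : ℕ → ℚ) (h : Rec F t v) (h' : Rec F t v')
    (hi : ∀ i < d, v i = v' i) (n : ℕ) : v n = v' n := by
  set f : ℚ[X] := F.map ((aeval t : ℤ[X] →ₐ[ℤ] ℚ) : ℤ[X] →+* ℚ) with hf
  have hfm : f.Monic := hF.monic.map _
  have hfd : f.natDegree = F.natDegree := hF.monic.natDegree_map _
  have key : ∀ w : ℕ → ℚ, Rec F t w → Pd.Sol f w := by
    intro w hw n
    rw [hfd, ← hw n]
    refine Finset.sum_congr rfl fun i _ => ?_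
    rw [hf, coeff_map]
    rfl
  exact Pd.Sol.ext hfm (key v h) (key v' h') (fun i h => hi i (by rwa [hfd, hF.deg] at h)) n

theorem zeroQ_iff (hF : Fam d F) (t : ℚ) (x : List ℤ) (v : ℕ → ℚ) (h : Rec F t v)
    (hi : ∀ i < d, v i = x.getD i 0) : ZeroQ F t x ↔ ∃ n, v n = 0 := by
  constructor
  · rintro ⟨v', h1, h2, n, hn⟩
    rw [hF.deg] at h2
    exact ⟨n, by rw [rec_ext hF t v v' h h1 (fun i hi' => by rw [hi i hi', h2 i hi']), hn]⟩
  · intro h1
    exact ⟨v, h, by rwa [hF.deg], h1⟩

theorem recZ_ext {f : ℤ[X]} (hf : f.Monic) (w w' : ℕ → ℤ) (h : RecZ f w) (h' : RecZ f w')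
    (hi : ∀ i < f.natDegree, w i = w' i) (n : ℕ) : w n = w' n :=
  Pd.Sol.ext hf (show Pd.Sol f w from h) (show Pd.Sol f w' from h') hi n

theorem zeroZ_iff {f : ℤ[X]} (hf : f.Monic) (l : List ℤ) (w : ℕ → ℤ) (h : RecZ f w)
    (hi : ∀ i < f.natDegree, w i = l.getD i 0) : ZeroZ f l ↔ ∃ n, w n = 0 := by
  constructor
  · rintro ⟨w', h1, h2, n, hn⟩
    exact ⟨n, by rw [recZ_ext hf w w' h h1 (fun i hi' => by rw [hi i hi', h2 i hi']), hn]⟩
  · intro h1
    exact ⟨w, h, hi, h1⟩

/-- finite lists of primitive recursive functions -/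
theorem primrec_lists {α : Type} [Primcodable α] (g : ℕ → α → List ℤ) (hg : ∀ i, Primrec (g i)) :
    ∀ k : ℕ, Primrec (fun a : α => (List.range k).map fun i => g i a) := by
  intro k
  induction k with
  | zero => exact Primrec.const []
  | succ k ih =>
    have h : Primrec (fun a : α => ((List.range k).map fun i => g i a) ++ [g k a]) :=
      Primrec.list_append.comp ih (Primrec.list_cons.comp (hg k) (Primrec.const []))
    refine h.of_eq fun a => ?_
    rw [List.range_succ, List.map_append]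
    rfl

/-- the rational numbers of bounded height -/
theorem finite_height (T : ℕ) : {t : ℚ | height t < T}.Finite := by
  have h1 : Set.Finite ((fun p : ℤ × ℕ => (p.1 : ℚ) / p.2) ''
      (((Finset.Icc (-(T : ℤ)) T) ×ˢ (Finset.range T) : Finset (ℤ × ℕ)) : Set (ℤ × ℕ))) :=
    (Finset.finite_toSet _).image _
  refine h1.subset ?_
  intro t ht
  have ht' : height t < T := ht
  refine ⟨(t.num, t.den), ?_, ?_⟩
  · have h2 : t.num.natAbs < T := lt_of_le_of_lt (le_max_left _ _) ht'
    have h3 : t.den < T := lt_of_le_of_lt (le_max_right _ _) ht'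
    rw [Finset.mem_coe, Finset.mem_product, Finset.mem_Icc, Finset.mem_range]
    refine ⟨⟨by omega, by omega⟩, h3⟩
  · exact Rat.num_div_den t

/-- the decision for the whole family from the decision for large heights and for single members -/
theorem patch (hF : Fam d F) (T₀ : ℕ) (A₀ : List ℤ × (ℤ × ℤ) → Bool) (hA₀ : Computable A₀)
    (h₀ : ∀ t : ℚ, T₀ ≤ height t → ∀ x : List ℤ, x.length = d →
      (A₀ (x, (t.num, (t.den : ℤ))) = true ↔ ZeroQ F t x))
    (hE : ∀ t : ℚ, height t < T₀ → aeval t (F.coeff 0) ≠ 0 → SkolemAt F t) : SkolemAll F := by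
  classical
  have key : ∀ L : List ℚ, (∀ t ∈ L, SkolemAt F t) →
      ∃ A : List ℤ × (ℤ × ℤ) → Bool, Computable A ∧
        ∀ t : ℚ, (t ∈ L ∨ T₀ ≤ height t) → ∀ x : List ℤ, x.length = d →
          (A (x, (t.num, (t.den : ℤ))) = true ↔ ZeroQ F t x) := by
    intro L
    induction L with
    | nil =>
      intro _
      exact ⟨A₀, hA₀, fun t ht => h₀ t (by simpa using ht)⟩
    | cons t₀ L ih =>
      intro hL
      obtain ⟨A, hA, h⟩ := ih fun t ht => hL t (List.mem_cons_of_mem _ ht)
      obtain ⟨D, hD, hDt⟩ := hL t₀ List.mem_cons_self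
      refine ⟨fun w => bif decide (w.2 = (t₀.num, (t₀.den : ℤ))) then D w.1 else A w, ?_, ?_⟩
      · refine Computable.cond ?_ (hD.comp Computable.fst) hA
        exact ((Primrec.eq.comp Primrec.snd (Primrec.const (t₀.num, (t₀.den : ℤ)))).decide).to_comp
      · intro t ht x hx
        show (bif decide ((t.num, (t.den : ℤ)) = (t₀.num, (t₀.den : ℤ))) then D x
          else A (x, (t.num, (t.den : ℤ)))) = true ↔ _
        by_cases hc : t = t₀
        · subst hc
          rw [decide_eq_true rfl, cond_true]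
          exact hDt x (by rw [hF.deg]; exact hx)
        · have hne : ¬ ((t.num, (t.den : ℤ)) = (t₀.num, (t₀.den : ℤ))) := by
            intro he
            apply hc
            rw [Prod.mk.injEq] at he
            exact Rat.ext he.1 (by exact_mod_cast he.2)
          rw [decide_eq_false hne, cond_false]
          refine h t ?_ x hx
          rcases ht with ht | ht
          · rcases List.mem_cons.1 ht with ht | ht
            · exact absurd ht hc
            · exact Or.inl ht
          · exact Or.inr ht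
  obtain ⟨A, hA, h⟩ := key
    (((finite_height T₀).toFinset.filter fun t => aeval t (F.coeff 0) ≠ 0).toList) (by
      intro t ht
      rw [Finset.mem_toList, Finset.mem_filter, Set.Finite.mem_toFinset] at ht
      exact hE t ht.1 ht.2)
  refine ⟨A, hA, fun t ht0 x hx => h t ?_ x (by rw [← hF.deg]; exact hx)⟩
  by_cases ht : T₀ ≤ height t
  · exact Or.inr ht
  · left
    rw [Finset.mem_toList, Finset.mem_filter, Set.Finite.mem_toFinset]
    exact ⟨not_le.1 ht, ht0⟩

end proof

/-- **Every one-parameter family of linear recurrences reduces to one recurrence.** Let `F(t, X)` be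
an arbitrary family. There are `N`, `T₀`, `c`, a monic integer polynomial `f`, `f(0) ≠ 0`, and integer
polynomials `W_(q,i)` in `d + 2` variables with the following properties.

(1) Let `t` be rational of height `T ≥ T₀`, `v` a solution of the recurrence of `F(t, X)` with integer
initial values `z_0, ..., z_(d-1)`, and `q < N`. Let `w` be the solution of the recurrence of `f` with
the initial values `w_i = W_(q,i)(num t, den t, z_0, ..., z_(d-1))`, `i < deg f` (this formula is then true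
for all `i`). If `w_n = 0` then `v_(q + N n) = 0`. Conversely if `v_(q + N n) = 0` and
`T ^ n > (B T) ^ c`, where `B` bounds the `|z_i|`, then `w_n = 0`.

(2) One primitive recursive function computes from `z_0, ..., z_(d-1)` and `t` of height `≥ T₀` a bit and
finitely many lists `l` of `deg f` integers such that `v` has a zero if and only if the bit is `1` or,
for one of the lists, the solution of the recurrence of `f` with the initial values `l` has a zero.

(3) If the Skolem Problem is decidable for finitely many single recurrences, namely for the recurrence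
of `f` and for the members `F(t, X)` with `F_0(t) ≠ 0` of height `< T₀`, then it is decidable for the whole
family. -/
theorem result (d : ℕ) (F : ℤ[X][X]) (hF : Fam d F) :
    ∃ (N T₀ c : ℕ) (f : ℤ[X]) (W : ℕ → ℕ → MvPolynomial (Fin (d + 2)) ℤ),
      1 ≤ N ∧ f.Monic ∧ f.coeff 0 ≠ 0 ∧
      (∀ t : ℚ, T₀ ≤ height t → ∀ (z : ℕ → ℤ) (v : ℕ → ℚ), (∀ i < d, v i = z i) → Rec F t v →
        ∀ q < N, ∃ w : ℕ → ℤ, RecZ f w ∧ (∀ i, w i = MvPolynomial.eval (pt d t z) (W q i)) ∧
          (∀ n, w n = 0 → v (q + N * n) = 0) ∧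
          ∀ B : ℕ, Bound d B z → ∀ n, (B * height t) ^ c < height t ^ n →
            v (q + N * n) = 0 → w n = 0) ∧
      (∃ R : List ℤ × (ℤ × ℤ) → Bool × List (List ℤ), Primrec R ∧
        ∀ t : ℚ, T₀ ≤ height t → ∀ x : List ℤ, x.length = d →
          (∀ l ∈ (R (x, (t.num, (t.den : ℤ)))).2, l.length = f.natDegree) ∧
          (ZeroQ F t x ↔ (R (x, (t.num, (t.den : ℤ)))).1 = true ∨
            ∃ l ∈ (R (x, (t.num, (t.den : ℤ)))).2, ZeroZ f l)) ∧
      (Skolem f → (∀ t : ℚ, height t < T₀ → aeval t (F.coeff 0) ≠ 0 → SkolemAt F t) →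
        SkolemAll F) := by
  obtain ⟨s, hs⟩ := exists_wt hF
  obtain ⟨N, T₀, c, f, W, hR⟩ := rRHN F s d hF.monic hF.deg hF.pos hF.ne hs
  obtain ⟨T₁, b, hb, hT₁⟩ := prRHP prDEC hHB1 F s d hF.monic hF.deg hF.pos hF.ne hs N T₀ c f W hR
  obtain ⟨T₂, hT₂⟩ := rRHC F s d hF.monic hF.deg hF.pos hF.ne hs N T₀ c f W hR
  obtain ⟨W', hW'⟩ : ∃ W' : ℕ → ℕ → MvPolynomial (Fin (d + 2)) ℤ,
      W' = fun q i => MvPolynomial.bind₁ (sub d s) (W q i) := ⟨_, rfl⟩
  refine ⟨N, T₀ + T₁ + T₂, c * (s * d + 1), f, W', hR.pos, hR.monic, hR.ne, ?_, ?_, ?_⟩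
  · intro t ht z v hz hv q hq
    obtain ⟨u, hu, hui, huv⟩ := lift hF hs t z v hz hv
    obtain ⟨w, hw, hwW, hw1, hw2⟩ := hR.red t.num t.den (coprime t)
      (by rw [mx_eq]; omega) u hu q hq
    refine ⟨w, hw, fun i => ?_, fun n hn => (zero_iff t v u huv _).1 (hw1 n hn),
      fun B hB n hn hn0 => ?_⟩
    · rw [hwW i, hW']
      exact (eval_sub t z u hui _).symm
    · refine hw2 (B * height t ^ (s * d)) (init_bound t z u B hB hui) n ?_
        ((zero_iff t v u huv _).2 hn0)
      rw [mx_eq]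
      exact lt_of_le_of_lt (bound_pow B (height t) c (s * d)) hn
  · refine ⟨fun w => (b (sc s w, w.2), (List.range N).map fun q => RRHC.vl W' f.natDegree q w),
      ?_, ?_⟩
    · exact (hb.comp ((primrec_sc s).pair Primrec.snd)).pair
        (primrec_lists _ (fun q => RRHC.primrec_vl rRPM W' _ q) N)
    · intro t ht x hx
      refine ⟨?_, ?_⟩
      · intro l hl
        obtain ⟨q, _, rfl⟩ := List.mem_map.1 hl
        simp [RRHC.vl]
      · obtain ⟨v, hv, hvi⟩ := exists_sol hF t x
        obtain ⟨u, hu, hui, huv⟩ := lift hF hs t (fun i => x.getD i 0) v hvi hv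
        have h1 := hT₁ t.num t.den (coprime t) (by rw [mx_eq]; omega) (by rw [mx_eq]; omega)
          (sc s (x, (t.num, (t.den : ℤ)))) u (by simpa [sc] using hx)
          (fun i hi' => by rw [sc_getD x s _ _ i (by omega)]; exact hui i hi') hu
        rw [zeroQ_iff hF t x v hv hvi, ← exists_congr fun n => zero_iff t v u huv n, h1]
        refine or_congr Iff.rfl ?_
        have hl : ∀ q i, i < f.natDegree → (RRHC.vl W' f.natDegree q (x, (t.num, (t.den : ℤ)))).getD i 0 =
            MvPolynomial.eval (Fin.cons t.num (Fin.cons (t.den : ℤ) fun i : Fin d => u i))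
              (W q i) := by
          intro q i hi
          rw [List.getD_eq_getElem _ _ (by simpa [RRHC.vl] using hi)]
          simp only [RRHC.vl, List.getElem_map, List.getElem_range]
          rw [← eval_sub t (fun i => x.getD i 0) u hui, pt_eq, hW']
        constructor
        · rintro ⟨q, hq, w, hw, hwW, n, hn⟩
          refine ⟨_, List.mem_map.2 ⟨q, List.mem_range.2 hq, rfl⟩, w, hw, fun i hi => ?_, n, hn⟩
          rw [hl q i hi, hwW i]
        · rintro ⟨l, hl', hz⟩
          obtain ⟨q, hq, rfl⟩ := List.mem_map.1 hl'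
          rw [List.mem_range] at hq
          obtain ⟨w, hw, hwW, _, _⟩ := hR.red t.num t.den (coprime t)
            (by rw [mx_eq]; omega) u hu q hq
          refine ⟨q, hq, w, hw, hwW, ?_⟩
          exact (zeroZ_iff hR.monic _ w hw (fun i hi => by rw [hl q i hi, hwW i])).1 hz
  · rintro ⟨D, hD, hDf⟩ hE
    have hDf' : Decides f D := by
      intro l w hl hwi hw
      rw [hDf l hl]
      exact zeroZ_iff hR.monic l w hw hwi
    obtain ⟨A, hA, h⟩ := hT₂ D hD hDf'
    refine patch hF (T₀ + T₁ + T₂) (fun w => A (sc s w, w.2))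
      (hA.comp ((primrec_sc s).to_comp.pair Computable.snd)) ?_ hE
    intro t ht x hx
    obtain ⟨v, hv, hvi⟩ := exists_sol hF t x
    obtain ⟨u, hu, hui, huv⟩ := lift hF hs t (fun i => x.getD i 0) v hvi hv
    have h1 := h t.num t.den (coprime t) (by rw [mx_eq]; omega) (by rw [mx_eq]; omega)
      (sc s (x, (t.num, (t.den : ℤ)))) u (by simpa [sc] using hx)
      (fun i hi' => by rw [sc_getD x s _ _ i (by omega)]; exact hui i hi') hu
    rw [zeroQ_iff hF t x v hv hvi, ← exists_congr fun n => zero_iff t v u huv n]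
    exact h1

end Pool.Agent.Work.MP_8d13b5_lc.Fm.FamilyReduction
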