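import Pool.Agent.Work.MP_8d13b5_lc.Fm.Stmts
import Pool.Agent.Work.MP_8d13b5_lc.Pd.Decide

set_option autoImplicit false

/-! Definitions and statements for the final theorem of the block `Fm`. -/

namespace Pool.Agent.Work.MP_8d13b5_lc.Fm

open Polynomial NumberField Finset Module

/-- `s` satisfies the linear recurrence with characteristic polynomial `f`, whose coefficients
are read through the ring homomorphism `ψ` -/
def Rec {A B : Type} [CommRing A] [CommRing B] (ψ : A →+* B) (f : A[X]) (s : ℕ → B) : Prop :=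
  ∀ n, ∑ i ∈ range (f.natDegree + 1), ψ (f.coeff i) * s (n + i) = 0

/-- the polynomial whose roots are the `θ * lam_j(x, y)`, `θ` a root of `f_j` -/
noncomputable def poly {A : Type} [CommRing A] {m : ℕ} (e : ℕ) (lam f : Fin (m + 1) → A[X])
    (x y : A) : A[X] :=
  ∏ j, (f j).scaleRoots (hev e (lam j) x y)

/-- `z_n = ∑_j lam_j(x, y) ^ n * s_j(n)`, where `s_j` satisfies the recurrence with characteristic
polynomial `f_j` -/
def Parts {K : Type} [Field K] {m : ℕ} (e : ℕ) (lam f : Fin (m + 1) → (𝓞 K)[X]) (x y : 𝓞 K)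
    (z : ℕ → K) (s : Fin (m + 1) → ℕ → K) : Prop :=
  (∀ j, Rec (algebraMap (𝓞 K) K) (f j) (s j)) ∧
    ∀ n, z n = ∑ j, ((hev e (lam j) x y : 𝓞 K) : K) ^ n * s j n

/-- the larger absolute value -/
def mx (x y : ℤ) : ℕ := max x.natAbs y.natAbs

/-- The class for the decision procedure: for some coprime integers `x`, `y` with
`max (|x|, |y|) ≥ T₀`, each of the `N` subsequences `u_(q + N n)`, `q < N`, has parts
`s_0, ..., s_m` for the family; either all the parts are zero or one of them has no zero `n ≥ B`. -/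
def InClass {K : Type} [Field K] {m : ℕ} (e : ℕ) (lam f : Fin (m + 1) → (𝓞 K)[X]) (N T₀ B : ℕ)
    (u : ℕ → ℤ) : Prop :=
  ∃ x y : ℤ, IsCoprime x y ∧ T₀ ≤ mx x y ∧ ∀ q < N, ∃ s : Fin (m + 1) → ℕ → K,
    Parts e lam f (x : 𝓞 K) (y : 𝓞 K) (fun n => (u (q + N * n) : K)) s ∧
      ((∀ j n, s j n = 0) ∨ ∃ j, ∀ n, B ≤ n → s j n ≠ 0)

/-- INT (integers in `K`). Proof: `φ((x : 𝓞 K)) = x`; `TT` is a product of `D` equal factors; coprime
integers stay coprime in `𝓞 K` (`IsCoprime.map`). -/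
def StINT : Prop :=
  ∀ (K : Type) [Field K] [NumberField K] (x y : ℤ),
    (∀ φ : K →+* ℂ, tt φ (x : 𝓞 K) (y : 𝓞 K) = mx x y) ∧
    TT (x : 𝓞 K) (y : 𝓞 K) = (mx x y : ℝ) ^ finrank ℚ K ∧
    (IsCoprime x y → IsCoprime (x : 𝓞 K) (y : 𝓞 K)) ∧ (IsCoprime x y → 1 ≤ mx x y)

/-- DEC (decision from a primitive recursive bound). Proof: as `Pd.decide_of_bd` in `Pd/Decide.lean`, with
the general function `bd`: search for a zero `n < bd (p, B)`. -/
def StDEC : Prop :=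
  ∀ bd : (List ℤ × List ℤ) × ℕ → ℕ, Primrec bd →
    ∀ P : ℕ → List ℤ × List ℤ → (ℕ → ℤ) → Prop,
      (∀ (B : ℕ) (p : List ℤ × List ℤ) (u : ℕ → ℤ), Pd.IsSeq p u → P B p u →
        (∃ n, u n = 0) → ∃ n < bd (p, B), u n = 0) →
      ∃ M : (List ℤ × List ℤ) × ℕ → Bool, Primrec M ∧
        ∀ (B : ℕ) (p : List ℤ × List ℤ) (u : ℕ → ℤ), Pd.IsSeq p u → P B p u →
          (M (p, B) = true ↔ ∃ n, u n = 0)

/-- PB (parts and zeros). Proof from NVF, KER, PAR, SEQ: `T₀` is larger than the `T₀` of KER and SEQ and the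
`T₁` of NVF for all `lam_j`. `Rec` for a monic polynomial is `Pd.Sol` of the mapped polynomial (as
`rec_iff` in `Results/MP_8d13b5_lc/SectorFamilies.lean`); `map_scaleRoots`. Uniqueness from KER
for the difference. -/
def StPB : Prop :=
  ∀ (K : Type) [Field K] [NumberField K] (m e ν : ℕ) (lam f : Fin (m + 1) → (𝓞 K)[X]),
    1 ≤ m → IsFam e lam → (∀ j, (f j).Monic ∧ (f j).coeff 0 ≠ 0) → ∃ (T₀ : ℝ) (c : ℕ), 1 ≤ T₀ ∧
    ∀ x y : 𝓞 K, IsCoprime x y → T₀ ≤ TT x y → (∀ φ : K →+* ℂ, tt φ x y ≤ TT x y ^ ν) →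
      (∀ z : ℕ → K, Rec (algebraMap (𝓞 K) K) (poly e lam f x y) z →
        ∃! s : Fin (m + 1) → ℕ → K, Parts e lam f x y z s) ∧
      ∀ (z : ℕ → 𝓞 K) (s : Fin (m + 1) → ℕ → K) (B : ℝ),
        Parts e lam f x y (fun n => (z n : K)) s → 1 ≤ B →
        (∀ φ : K →+* ℂ, ∀ i < ∑ j, (f j).natDegree, ‖res φ (z i)‖ ≤ B) →
        ∀ n, (B * TT x y) ^ c < TT x y ^ n → z n = 0 → ∀ j, s j n = 0

/-- PC (decision procedure). Proof from PB (`ν = 1`), INT, DEC. Let `c`, `T₀'` be the constants of PB, `T₀ ≥ 2`,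
`T₀ ≥ T₀'`, `d = ∑ deg f_j`. For `q < N`, `z_n = u_(q + N n)`, `|z_i| ≤ size p ^ (N (d + 1))` for
`i < d` (`Pd.val_bound`), so with `L = N (d + 1) lsize p`, `B' = 2 ^ L`, `T = mx x y`, `D` the degree,
`(B' T ^ D) ^ c ≤ (T ^ D) ^ (c (L + 1)) < (T ^ D) ^ n` for `n > c (L + 1)`, so such a zero `n` of `z` is a
zero of all `s_j`: impossible for `n ≥ B` if one `s_j` has no zero `n ≥ B`. If all `s_j` are zero then
`u_q = 0`. So if `u` has a zero then it has a zero below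
`bd (p, B) = N (c (N (d + 1) (size p + 3) + 1) + B + 2) + N`, which is primitive recursive
(`Pd.primrec_size`, `Pd.lsize_le`). `N ≥ 1`. -/
def StPC : Prop :=
  ∀ (K : Type) [Field K] [NumberField K] (m e N : ℕ) (lam f : Fin (m + 1) → (𝓞 K)[X]),
    1 ≤ m → 1 ≤ N → IsFam e lam → (∀ j, (f j).Monic ∧ (f j).coeff 0 ≠ 0) →
    ∃ (T₀ : ℕ) (M : (List ℤ × List ℤ) × ℕ → Bool), Primrec M ∧
      ∀ (B : ℕ) (p : List ℤ × List ℤ) (u : ℕ → ℤ), Pd.IsSeq p u → InClass e lam f N T₀ B u →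
        (M (p, B) = true ↔ ∃ n, u n = 0)

/-- PD (simple roots `lam_j(x, y)`, integer sequences). Proof from PB with `f_j = X - 1`, `ν = 1`, INT: a
solution `s` of the recurrence of `X - 1` is constant; if one `s_j ≠ 0` then PB gives
`z_n ≠ 0` for `(B T ^ D) ^ c < T ^ (D n)`, and `(B T) ^ (D c) < T ^ n` implies this (`D ≥ 1`, `T`, `B ≥ 1`;
for `B = 0` replace `B` by `1`: then all `u_i = 0`, `i ≤ m`, and `u = 0`). -/
def StPD : Prop :=
  ∀ (K : Type) [Field K] [NumberField K] (m e : ℕ) (lam : Fin (m + 1) → (𝓞 K)[X]),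
    1 ≤ m → IsFam e lam → ∃ T₀ c : ℕ, ∀ x y : ℤ, IsCoprime x y → T₀ ≤ mx x y →
      ∀ u : ℕ → ℤ, Rec (algebraMap (𝓞 K) K)
          (∏ j, (X - C (hev e (lam j) (x : 𝓞 K) (y : 𝓞 K)))) (fun n => (u n : K)) →
        (∀ n, u n = 0) ∨ ∀ B n : ℕ, (∀ i ≤ m, (u i).natAbs ≤ B) →
          (B * mx x y) ^ c < mx x y ^ n → u n ≠ 0

/-- the polynomial with the roots `(x + i y) (x + 2 i y)`, `(x + i y) (x - 2 i y)`, their conjugates
and `r = a x ^ 2 + b x y + c y ^ 2` -/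
noncomputable def five (a b c x y : ℤ) : ℤ[X] :=
  (X ^ 2 - C (2 * (x ^ 2 - 2 * y ^ 2)) * X + C ((x ^ 2 + y ^ 2) * (x ^ 2 + 4 * y ^ 2))) *
    (X ^ 2 - C (2 * (x ^ 2 + 2 * y ^ 2)) * X + C ((x ^ 2 + y ^ 2) * (x ^ 2 + 4 * y ^ 2))) *
    (X - C (a * x ^ 2 + b * x * y + c * y ^ 2))

/-- PE (order five, four dominant roots of equal modulus). Proof from PD and EXA: `K = ℚ(i)`
(`CyclotomicField 4 ℚ`, `I` a primitive fourth root of unity), `m = 4`, `e = 2`, the product of the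
`X - lam_j(x, y)` is the image of `five a b c x y`. -/
def StPE : Prop :=
  ∀ a b c : ℤ, ¬(a = 0 ∧ b = 0 ∧ c = 0) → ∃ T₀ k : ℕ, ∀ x y : ℤ, IsCoprime x y → T₀ ≤ mx x y →
    ∀ u : ℕ → ℤ, Rec (RingHom.id ℤ) (five a b c x y) u →
      (∀ n, u n = 0) ∨ ∀ B n : ℕ, (∀ i ≤ 4, (u i).natAbs ≤ B) →
        (B * mx x y) ^ k < mx x y ^ n → u n ≠ 0

/-- PF (one variable, degrees may differ). Proof from PD with `y = 1`, `e` the largest degree of the
`lam_j`: `hev e P t 1 = P.eval t`, `mx t 1 = |t|` for `t ≠ 0`. -/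
def StPF : Prop :=
  ∀ (K : Type) [Field K] [NumberField K] (m : ℕ) (lam : Fin (m + 1) → (𝓞 K)[X]), 1 ≤ m →
    (∀ j, lam j ≠ 0) → (∀ i j, i ≠ j → ∀ a b : 𝓞 K, C a * lam i = C b * lam j → a = 0) →
    (∃ c : 𝓞 K, c ≠ 0 ∧ ∃ A : Fin (m + 1) → (𝓞 K)[X], ∑ j, A j * lam j = C c) →
    ∃ T₀ c : ℕ, ∀ t : ℤ, T₀ ≤ t.natAbs →
      ∀ u : ℕ → ℤ, Rec (algebraMap (𝓞 K) K) (∏ j, (X - C ((lam j).eval (t : 𝓞 K))))
          (fun n => (u n : K)) →
        (∀ n, u n = 0) ∨ ∀ B n : ℕ, (∀ i ≤ m, (u i).natAbs ≤ B) →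
          (B * t.natAbs) ^ c < t.natAbs ^ n → u n ≠ 0

end Pool.Agent.Work.MP_8d13b5_lc.Fm
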