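import Pool.Agent.Work.MP_8d13b5_lc.Fm.All

set_option autoImplicit false

namespace Pool.Agent.Work.MP_8d13b5_lc.Fm.Draft

open Pool.Agent.Work.MP_8d13b5_lc Pool.Agent.Work.MP_8d13b5_lc.Fm Polynomial NumberField Finset

/-- **All but finitely many members of a family, all initial values.**

Let `K` be a number field, `lam_0, ..., lam_m` (`m ≥ 1`) forms of the same degree `e` in `x`, `y` over
the integers of `K`, pairwise not proportional and without a common zero on the projective line
(`IsFam`), and `f_0, ..., f_m` monic polynomials with nonzero constant terms.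

(1) For every `ν` there are `T₀` and `c` such that for all coprime integers `x`, `y` of `K` with
`T = TT x y ≥ T₀` and with all conjugates of `x`, `y` at most `T ^ ν` in absolute value: every solution
`z` of the recurrence with the characteristic roots `θ * lam_j(x, y)`, `f_j(θ) = 0`
(with multiplicities), has exactly one decomposition `z_n = ∑_j lam_j(x, y) ^ n * s_j(n)` with
solutions `s_j` of the recurrences of the `f_j`, and if `z_n = 0` for an index `n` with
`T ^ n > (B T) ^ c`, where `B ≥ 1` bounds the conjugates of the initial values, then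
`s_j(n) = 0` for all `j`.

(2) There are `T₀` and a primitive recursive procedure which decides, from the data of an
integer linear recurrence sequence `u` and a number `B`, whether `u` has a zero, correctly
for all `u` in `InClass` (coprime integers `x`, `y` with `max (|x|, |y|) ≥ T₀`).

(3) Order five, four characteristic roots of equal absolute value: for all integers
`(a, b, c) ≠ 0` there are `T₀` and `k` such that for all coprime integers `x`, `y` with
`T = max (|x|, |y|) ≥ T₀` and all integer sequences `u` which satisfy the recurrence with the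
characteristic roots `(x + i y) (x + 2 i y)`, `(x + i y) (x - 2 i y)`, their conjugates and
`a x ^ 2 + b x y + c y ^ 2`: either `u` is zero or `u_n ≠ 0` for all `n` with
`T ^ n > (B T) ^ k`, `B ≥ |u_0|, ..., |u_4|`. -/
theorem result :
    (∀ (K : Type) [Field K] [NumberField K] (m e ν : ℕ) (lam f : Fin (m + 1) → (𝓞 K)[X]),
      1 ≤ m → IsFam e lam → (∀ j, (f j).Monic ∧ (f j).coeff 0 ≠ 0) →
      ∃ (T₀ : ℝ) (c : ℕ), 1 ≤ T₀ ∧
      ∀ x y : 𝓞 K, IsCoprime x y → T₀ ≤ TT x y → (∀ φ : K →+* ℂ, tt φ x y ≤ TT x y ^ ν) →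
        (∀ z : ℕ → K, Rec (algebraMap (𝓞 K) K) (poly e lam f x y) z →
          ∃! s : Fin (m + 1) → ℕ → K, Parts e lam f x y z s) ∧
        ∀ (z : ℕ → 𝓞 K) (s : Fin (m + 1) → ℕ → K) (B : ℝ),
          Parts e lam f x y (fun n => (z n : K)) s → 1 ≤ B →
          (∀ φ : K →+* ℂ, ∀ i < ∑ j, (f j).natDegree, ‖res φ (z i)‖ ≤ B) →
          ∀ n, (B * TT x y) ^ c < TT x y ^ n → z n = 0 → ∀ j, s j n = 0) ∧
    (∀ (K : Type) [Field K] [NumberField K] (m e N : ℕ) (lam f : Fin (m + 1) → (𝓞 K)[X]),
      1 ≤ m → 1 ≤ N → IsFam e lam → (∀ j, (f j).Monic ∧ (f j).coeff 0 ≠ 0) →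
      ∃ (T₀ : ℕ) (M : (List ℤ × List ℤ) × ℕ → Bool), Primrec M ∧
        ∀ (B : ℕ) (p : List ℤ × List ℤ) (u : ℕ → ℤ), Pd.IsSeq p u →
          InClass e lam f N T₀ B u → (M (p, B) = true ↔ ∃ n, u n = 0)) ∧
    (∀ a b c : ℤ, ¬(a = 0 ∧ b = 0 ∧ c = 0) → ∃ T₀ k : ℕ,
      ∀ x y : ℤ, IsCoprime x y → T₀ ≤ mx x y →
        ∀ u : ℕ → ℤ, Rec (RingHom.id ℤ) (five a b c x y) u →
          (∀ n, u n = 0) ∨ ∀ B n : ℕ, (∀ i ≤ 4, (u i).natAbs ≤ B) →
            (B * mx x y) ^ k < mx x y ^ n → u n ≠ 0) :=
  ⟨Fm.tPB, Fm.tPC, Fm.tPE⟩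

end Pool.Agent.Work.MP_8d13b5_lc.Fm.Draft
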