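import Pool.Agent.Work.MP_8d13b5_lc.Fm.Stmts

set_option autoImplicit false

/-! Item ADJ of the block Fm (helper22): denominators and sizes of the parts. -/

namespace Pool.Agent.Work.MP_8d13b5_lc.Fm

open Polynomial NumberField Finset Module

namespace ADJ

/-- the index set of the columns -/
abbrev Ix {m : ℕ} (d : Fin (m + 1) → ℕ) : Type := (j : Fin (m + 1)) × Fin (d j)

/-- the matrix of the initial values -/
noncomputable def mat {R : Type} [CommRing R] {m : ℕ} (f : Fin (m + 1) → R[X])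
    (β : Fin (m + 1) → R) :
    Matrix (Ix fun j => (f j).natDegree) (Ix fun j => (f j).natDegree) R :=
  Matrix.of fun r c => β c.1 ^ ((finSigmaFinEquiv r : Fin (∑ j, (f j).natDegree)) : ℕ) *
    Pd.cf (f c.1) ((finSigmaFinEquiv r : Fin (∑ j, (f j).natDegree)) : ℕ) (c.2 : ℕ)

theorem cf_map {R S : Type} [CommRing R] [CommRing S] (ψ : R →+* S) {f : R[X]} (hf : f.Monic)
    (n c : ℕ) : Pd.cf (f.map ψ) n c = ψ (Pd.cf f n c) := by
  unfold Pd.cf
  rw [← coeff_map, Polynomial.map_modByMonic _ hf, Polynomial.map_pow, Polynomial.map_X]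

/-- sum over the pairs -/
theorem mat_mulVec {R : Type} [CommRing R] {m : ℕ} (f : Fin (m + 1) → R[X])
    (β : Fin (m + 1) → R) (v : Ix (fun j => (f j).natDegree) → R)
    (r : Ix fun j => (f j).natDegree) :
    (mat f β).mulVec v r = ∑ j, β j ^ ((finSigmaFinEquiv r : Fin (∑ j, (f j).natDegree)) : ℕ) *
      ∑ c : Fin (f j).natDegree,
        Pd.cf (f j) ((finSigmaFinEquiv r : Fin (∑ j, (f j).natDegree)) : ℕ) (c : ℕ) * v ⟨j, c⟩ := by
  unfold Matrix.mulVec dotProduct
  rw [Fintype.sum_sigma]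
  refine sum_congr rfl fun j _ => ?_
  rw [mul_sum]
  refine sum_congr rfl fun c _ => ?_
  simp only [mat, Matrix.of_apply]
  ring

/-- the sequence with given initial values -/
theorem seq_of_init {R : Type} [CommRing R] [Nontrivial R] {f : R[X]} (hf : f.Monic)
    (v : Fin f.natDegree → R) :
    Pd.Sol f (fun n => ∑ c : Fin f.natDegree, Pd.cf f n (c : ℕ) * v c) ∧
    ∀ i : Fin f.natDegree, ∑ c : Fin f.natDegree, Pd.cf f (i : ℕ) (c : ℕ) * v c = v i := by
  set w : ℕ → R := fun c => if h : c < f.natDegree then v ⟨c, h⟩ else 0 with hw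
  have h1 : ∀ n, ∑ c : Fin f.natDegree, Pd.cf f n (c : ℕ) * v c =
      ∑ c ∈ range f.natDegree, Pd.cf f n c * w c := by
    intro n
    rw [Finset.sum_range]
    refine sum_congr rfl fun c _ => ?_
    rw [hw]
    simp only [c.2, dif_pos]
  constructor
  · have h2 := Pd.sol_of_init hf w
    have h3 : (fun n => ∑ c : Fin f.natDegree, Pd.cf f n (c : ℕ) * v c) =
        fun n => ∑ c ∈ range f.natDegree, Pd.cf f n c * w c := funext h1
    rw [h3]
    exact h2
  · intro i
    rw [h1, Pd.init_of_init hf w i.2, hw]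
    simp only [i.2, dif_pos]

theorem prod_monic {R : Type} [CommRing R] {m : ℕ} (f : Fin (m + 1) → R[X])
    (hf : ∀ j, (f j).Monic) (β : Fin (m + 1) → R) : (∏ j, (f j).scaleRoots (β j)).Monic :=
  monic_prod_of_monic _ _ fun j _ => Pd.monic_scaleRoots (hf j) (β j)

theorem prod_natDegree {R : Type} [CommRing R] [Nontrivial R] {m : ℕ} (f : Fin (m + 1) → R[X])
    (hf : ∀ j, (f j).Monic) (β : Fin (m + 1) → R) :
    (∏ j, (f j).scaleRoots (β j)).natDegree = ∑ j, (f j).natDegree := by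
  rw [natDegree_prod_of_monic _ _ fun j _ => Pd.monic_scaleRoots (hf j) (β j)]
  exact sum_congr rfl fun j _ => natDegree_scaleRoots _ _

theorem sol_prod {R : Type} [CommRing R] {m : ℕ} (f : Fin (m + 1) → R[X])
    (β : Fin (m + 1) → R) (s : Fin (m + 1) → ℕ → R) (hs : ∀ j, Pd.Sol (f j) (s j)) :
    Pd.Sol (∏ j, (f j).scaleRoots (β j)) (fun n => ∑ j, β j ^ n * s j n) := by
  apply Pd.Sol.sum
  intro j _
  rw [← prod_erase_mul univ _ (mem_univ j)]
  exact ((hs j).scale (β j)).mul_left _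

/-- the matrix is injective, hence its determinant is not zero -/
theorem det_ne_zero {F : Type} [Field F] {m : ℕ} (f : Fin (m + 1) → F[X])
    (hf : ∀ j, (f j).Monic) (β : Fin (m + 1) → F)
    (hinj : ∀ s : Fin (m + 1) → ℕ → F, (∀ j, Pd.Sol (f j) (s j)) →
      (∀ n, ∑ j, β j ^ n * s j n = 0) → ∀ j n, s j n = 0) : (mat f β).det ≠ 0 := by
  intro hdet
  obtain ⟨v, hv, hv0⟩ := Matrix.exists_mulVec_eq_zero_iff.mpr hdet
  apply hv
  set s : Fin (m + 1) → ℕ → F := fun j n =>
    ∑ c : Fin (f j).natDegree, Pd.cf (f j) n (c : ℕ) * v ⟨j, c⟩ with hs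
  have hsol : ∀ j, Pd.Sol (f j) (s j) := fun j => (seq_of_init (hf j) fun c => v ⟨j, c⟩).1
  have hzero : ∀ n, ∑ j, β j ^ n * s j n = 0 := by
    have h1 := sol_prod f β s hsol
    intro n
    refine h1.eq_zero (prod_monic f hf β) ?_ n
    intro i hi
    rw [prod_natDegree f hf β] at hi
    have h2 := congrFun hv0 (finSigmaFinEquiv.symm (⟨i, hi⟩ : Fin (∑ j, (f j).natDegree)))
    rw [mat_mulVec, Equiv.apply_symm_apply] at h2
    exact h2
  have hall := hinj s hsol hzero
  funext ⟨j, c⟩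
  have h3 := (seq_of_init (hf j) fun c => v ⟨j, c⟩).2 c
  rw [← h3]
  exact hall j c

/-- bound for the entries of the adjugate -/
theorem adj_le {ι : Type} [Fintype ι] [DecidableEq ι] (M : Matrix ι ι ℂ) (x : ℝ) (hx : 1 ≤ x)
    (hM : ∀ i j, ‖M i j‖ ≤ x) (i j : ι) :
    ‖M.adjugate i j‖ ≤ (Fintype.card ι).factorial * x ^ Fintype.card ι := by
  rw [Matrix.adjugate_apply]
  have h := Matrix.det_le (A := M.updateRow j (Pi.single i 1)) (abv := NormedField.toAbsoluteValue ℂ)
    (x := x) (by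
      intro k l
      change ‖M.updateRow j (Pi.single i 1) k l‖ ≤ x
      by_cases hk : k = j
      · subst hk
        rw [Matrix.updateRow_self, Pi.single_apply]
        split_ifs
        · rw [norm_one]; exact hx
        · rw [norm_zero]; linarith
      · rw [Matrix.updateRow_ne hk]
        exact hM k l)
  rw [nsmul_eq_mul] at h
  exact h

end ADJ

open ADJ in
theorem prADJ : StADJ := by
  intro K _ _ m f hf
  classical
  set d : ℕ := ∑ j, (f j).natDegree with hd
  -- bounds for the coefficients and the roots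
  set A₁ : ℝ := 1 + ∑ φ : K →+* ℂ, ∑ j : Fin (m + 1), ∑ i ∈ range d,
    ∑ c ∈ range (f j).natDegree, ‖res φ (Pd.cf (f j) i c)‖ with hA₁
  set A₀ : ℝ := 1 + ∑ φ : K →+* ℂ, ∑ j : Fin (m + 1),
    ∑ z ∈ ((f j).map (res φ)).roots.toFinset, ‖z‖ with hA₀
  have hA₁1 : 1 ≤ A₁ := by
    have : 0 ≤ ∑ φ : K →+* ℂ, ∑ j : Fin (m + 1), ∑ i ∈ range d,
      ∑ c ∈ range (f j).natDegree, ‖res φ (Pd.cf (f j) i c)‖ := by positivity
    linarith
  have hA₀1 : 1 ≤ A₀ := by
    have : 0 ≤ ∑ φ : K →+* ℂ, ∑ j : Fin (m + 1),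
      ∑ z ∈ ((f j).map (res φ)).roots.toFinset, ‖z‖ := by positivity
    linarith
  have hcf : ∀ (φ : K →+* ℂ) (j : Fin (m + 1)) (i c : ℕ), i < d → c < (f j).natDegree →
      ‖res φ (Pd.cf (f j) i c)‖ ≤ A₁ := by
    intro φ j i c hi hc
    have h1 : ‖res φ (Pd.cf (f j) i c)‖ ≤
        ∑ c ∈ range (f j).natDegree, ‖res φ (Pd.cf (f j) i c)‖ :=
      single_le_sum (f := fun c => ‖res φ (Pd.cf (f j) i c)‖) (fun _ _ => norm_nonneg _)
        (mem_range.mpr hc)
    have h2 : ∑ c ∈ range (f j).natDegree, ‖res φ (Pd.cf (f j) i c)‖ ≤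
        ∑ i ∈ range d, ∑ c ∈ range (f j).natDegree, ‖res φ (Pd.cf (f j) i c)‖ :=
      single_le_sum (f := fun i => ∑ c ∈ range (f j).natDegree, ‖res φ (Pd.cf (f j) i c)‖)
        (fun _ _ => sum_nonneg fun _ _ => norm_nonneg _) (mem_range.mpr hi)
    have h3 : ∑ i ∈ range d, ∑ c ∈ range (f j).natDegree, ‖res φ (Pd.cf (f j) i c)‖ ≤
        ∑ j : Fin (m + 1), ∑ i ∈ range d, ∑ c ∈ range (f j).natDegree,
          ‖res φ (Pd.cf (f j) i c)‖ :=
      single_le_sum (f := fun j => ∑ i ∈ range d, ∑ c ∈ range (f j).natDegree,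
        ‖res φ (Pd.cf (f j) i c)‖)
        (fun _ _ => sum_nonneg fun _ _ => sum_nonneg fun _ _ => norm_nonneg _) (mem_univ j)
    have h4 : ∑ j : Fin (m + 1), ∑ i ∈ range d, ∑ c ∈ range (f j).natDegree,
          ‖res φ (Pd.cf (f j) i c)‖ ≤
        ∑ φ : K →+* ℂ, ∑ j : Fin (m + 1), ∑ i ∈ range d, ∑ c ∈ range (f j).natDegree,
          ‖res φ (Pd.cf (f j) i c)‖ :=
      single_le_sum (f := fun φ : K →+* ℂ => ∑ j : Fin (m + 1), ∑ i ∈ range d,
        ∑ c ∈ range (f j).natDegree, ‖res φ (Pd.cf (f j) i c)‖)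
        (fun _ _ => sum_nonneg fun _ _ => sum_nonneg fun _ _ => sum_nonneg fun _ _ =>
          norm_nonneg _) (mem_univ φ)
    rw [hA₁]
    linarith
  have hroots : ∀ (φ : K →+* ℂ) (j : Fin (m + 1)), ∀ z ∈ ((f j).map (res φ)).roots,
      ‖z‖ ≤ A₀ := by
    intro φ j z hz
    have h1 : ‖z‖ ≤ ∑ z ∈ ((f j).map (res φ)).roots.toFinset, ‖z‖ :=
      single_le_sum (f := fun z : ℂ => ‖z‖) (fun _ _ => norm_nonneg _)
        (Multiset.mem_toFinset.mpr hz)
    have h2 : ∑ z ∈ ((f j).map (res φ)).roots.toFinset, ‖z‖ ≤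
        ∑ j : Fin (m + 1), ∑ z ∈ ((f j).map (res φ)).roots.toFinset, ‖z‖ :=
      single_le_sum (f := fun j => ∑ z ∈ ((f j).map (res φ)).roots.toFinset, ‖z‖)
        (fun _ _ => sum_nonneg fun _ _ => norm_nonneg _) (mem_univ j)
    have h3 : ∑ j : Fin (m + 1), ∑ z ∈ ((f j).map (res φ)).roots.toFinset, ‖z‖ ≤
        ∑ φ : K →+* ℂ, ∑ j : Fin (m + 1), ∑ z ∈ ((f j).map (res φ)).roots.toFinset, ‖z‖ :=
      single_le_sum (f := fun φ : K →+* ℂ => ∑ j : Fin (m + 1),
        ∑ z ∈ ((f j).map (res φ)).roots.toFinset, ‖z‖)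
        (fun _ _ => sum_nonneg fun _ _ => sum_nonneg fun _ _ => norm_nonneg _) (mem_univ φ)
    rw [hA₀]
    linarith
  set G : ℝ := d * d.factorial * A₁ ^ d * 2 ^ d with hG
  have hG0 : 0 ≤ G := by positivity
  refine ⟨(G + 1) * (2 * A₀), ?_, ?_⟩
  · have h1 : 1 ≤ G + 1 := by linarith
    have h2 : 1 ≤ 2 * A₀ := by linarith
    nlinarith
  intro β hinj s y b B hB hs hy hb hyB
  set ι : Type := Ix fun j => (f j).natDegree with hι
  have hcard : Fintype.card ι = d :=
    (Fintype.card_congr (finSigmaFinEquiv (n := fun j => (f j).natDegree))).trans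
      (Fintype.card_fin _)
  set M : Matrix ι ι (𝓞 K) := mat f β with hM
  -- the matrix over K
  have hfm : ∀ j, ((f j).map (algebraMap (𝓞 K) K)).Monic := fun j => (hf j).map _
  have hfd : ∀ j, ((f j).map (algebraMap (𝓞 K) K)).natDegree = (f j).natDegree :=
    fun j => (hf j).natDegree_map _
  -- the kernel over K
  have hdet : M.det ≠ 0 := by
    intro h0
    have h1 : (M.map (algebraMap (𝓞 K) K)).det = 0 := by
      have := RingHom.map_det (algebraMap (𝓞 K) K) M
      rw [h0, map_zero] at this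
      exact this.symm
    obtain ⟨v, hv, hv0⟩ := Matrix.exists_mulVec_eq_zero_iff.mpr h1
    apply hv
    set g : Fin (m + 1) → K[X] := fun j => (f j).map (algebraMap (𝓞 K) K) with hg
    set w : Fin (m + 1) → ℕ → K := fun j c =>
      if h : c < (f j).natDegree then v ⟨j, ⟨c, h⟩⟩ else 0 with hw
    set t : Fin (m + 1) → ℕ → K := fun j n =>
      ∑ c ∈ range (g j).natDegree, Pd.cf (g j) n c * w j c with ht
    have htsol : ∀ j, Pd.Sol (g j) (t j) := fun j => Pd.sol_of_init (hfm j) (w j)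
    have hzero : ∀ n, ∑ j, (β j : K) ^ n * t j n = 0 := by
      have h1 := sol_prod g (fun j => (β j : K)) t htsol
      intro n
      refine h1.eq_zero (prod_monic g hfm _) ?_ n
      intro i hi
      rw [prod_natDegree g hfm _] at hi
      have hi' : i < ∑ j, (f j).natDegree := by
        have : ∑ j, (g j).natDegree = ∑ j, (f j).natDegree := sum_congr rfl fun j _ => hfd j
        rwa [this] at hi
      have h2 := congrFun hv0 (finSigmaFinEquiv.symm (⟨i, hi'⟩ : Fin (∑ j, (f j).natDegree)))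
      rw [Pi.zero_apply] at h2
      rw [← h2]
      unfold Matrix.mulVec dotProduct
      rw [Fintype.sum_sigma]
      refine sum_congr rfl fun j _ => ?_
      simp only [ht]
      rw [hfd, Finset.sum_range, mul_sum]
      refine sum_congr rfl fun c _ => ?_
      simp only [hM, mat, Matrix.map_apply, Matrix.of_apply, Equiv.apply_symm_apply, map_mul,
        map_pow, hg, hw, c.2, dif_pos]
      rw [cf_map _ (hf j)]
      ring
    have hall := hinj t htsol hzero
    funext ⟨j, c⟩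
    have h3 : t j c = w j c := Pd.init_of_init (hfm j) (w j) (by rw [hfd]; exact c.2)
    have h4 : w j c = v ⟨j, c⟩ := by
      rw [hw]
      simp only [c.2, dif_pos]
    rw [← h4, ← h3]
    exact hall j c
  -- the vector of the initial values
  set yv : ι → 𝓞 K := fun r => y ((finSigmaFinEquiv r : Fin (∑ j, (f j).natDegree)) : ℕ)
    with hyv
  set w : ι → 𝓞 K := M.adjugate.mulVec yv with hw
  have hMv : (M.map (algebraMap (𝓞 K) K)).mulVec (fun r : ι => s r.1 (r.2 : ℕ)) =
      fun r => (yv r : K) := by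
    funext r
    rw [hyv]
    simp only
    rw [hy]
    unfold Matrix.mulVec dotProduct
    rw [Fintype.sum_sigma]
    refine sum_congr rfl fun j _ => ?_
    rw [(hs j).expand (hfm j), hfd, Finset.sum_range, mul_sum]
    refine sum_congr rfl fun c _ => ?_
    simp only [hM, mat, Matrix.map_apply, Matrix.of_apply, map_mul, map_pow]
    rw [cf_map _ (hf j)]
    ring
  have hwv : ∀ r : ι, (w r : K) = (M.det : K) * s r.1 (r.2 : ℕ) := by
    intro r
    have h1 : (fun r => (w r : K)) =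
        (M.adjugate.map (algebraMap (𝓞 K) K)).mulVec (fun r => (yv r : K)) := by
      funext r
      simp only [hw, Matrix.mulVec, dotProduct, map_sum, map_mul, Matrix.map_apply]
    have h2 : (M.adjugate.map (algebraMap (𝓞 K) K)) * (M.map (algebraMap (𝓞 K) K)) =
        (M.det : K) • (1 : Matrix ι ι K) := by
      rw [← Matrix.map_mul, Matrix.adjugate_mul]
      ext a c
      rw [Matrix.map_apply, Matrix.smul_apply, Matrix.smul_apply, Matrix.one_apply,
        Matrix.one_apply, smul_eq_mul, smul_eq_mul, map_mul]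
      split_ifs
      · rw [map_one]
      · rw [map_zero]
    have h3 := congrFun h1 r
    rw [h3, ← hMv, Matrix.mulVec_mulVec, h2, Matrix.smul_mulVec, Matrix.one_mulVec]
    rfl
  refine ⟨M.det, hdet, fun n => ?_⟩
  refine ⟨fun j => ∑ c : Fin (f j).natDegree, Pd.cf (f j) n (c : ℕ) * w ⟨j, c⟩, ?_, ?_⟩
  · intro j
    have hwv' : ∀ r : ι, algebraMap (𝓞 K) K (w r) =
        algebraMap (𝓞 K) K M.det * s r.1 (r.2 : ℕ) := hwv
    change algebraMap (𝓞 K) K (∑ c : Fin (f j).natDegree, Pd.cf (f j) n (c : ℕ) * w ⟨j, c⟩) =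
      algebraMap (𝓞 K) K M.det * s j n
    rw [(hs j).expand (hfm j), hfd, Finset.sum_range, map_sum, mul_sum]
    refine sum_congr rfl fun c _ => ?_
    rw [map_mul, hwv', cf_map _ (hf j)]
    ring
  · intro φ j
    have hb1 : 1 ≤ b φ := (hb φ).1
    set x : ℝ := A₁ * b φ ^ d with hx
    have hx1 : 1 ≤ x := by
      have : 1 ≤ b φ ^ d := one_le_pow₀ hb1
      nlinarith
    have hent : ∀ r c : ι, ‖(M.map (res φ)) r c‖ ≤ x := by
      intro r c
      have hr : ((finSigmaFinEquiv r : Fin (∑ j, (f j).natDegree)) : ℕ) < d :=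
        (finSigmaFinEquiv r : Fin (∑ j, (f j).natDegree)).2
      simp only [hM, mat, Matrix.map_apply, Matrix.of_apply, map_mul, map_pow]
      rw [norm_mul, norm_pow, mul_comm]
      refine mul_le_mul (hcf φ c.1 _ _ hr c.2.2) ?_ (by positivity) (by linarith)
      refine (pow_le_pow_left₀ (norm_nonneg _) ((hb φ).2 c.1) _).trans ?_
      exact pow_le_pow_right₀ hb1 hr.le
    have hwle : ∀ r : ι, ‖res φ (w r)‖ ≤ d * (d.factorial * x ^ d * B) := by
      intro r
      rw [hw]
      unfold Matrix.mulVec dotProduct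
      rw [map_sum]
      refine (norm_sum_le _ _).trans ?_
      have h1 : ∀ c ∈ (univ : Finset ι), ‖res φ (M.adjugate r c * yv c)‖ ≤
          d.factorial * x ^ d * B := by
        intro c _
        rw [map_mul, norm_mul]
        have h2 : res φ (M.adjugate r c) = (M.map (res φ)).adjugate r c := by
          have := congrFun (congrFun (RingHom.map_adjugate (res φ) M) r) c
          exact this
        have h3 := adj_le (M.map (res φ)) x hx1 hent r c
        rw [← h2, hcard] at h3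
        refine mul_le_mul h3 ?_ (norm_nonneg _) (by positivity)
        exact hyB φ _ (finSigmaFinEquiv c : Fin (∑ j, (f j).natDegree)).2
      refine (sum_le_card_nsmul _ _ _ h1).trans ?_
      rw [card_univ, hcard, nsmul_eq_mul]
    set U : ℝ := d * (d.factorial * x ^ d * B) with hU
    have hx0 : 0 ≤ x := by linarith
    have hU0 : 0 ≤ U := by positivity
    obtain ⟨hsol, hini⟩ := seq_of_init (hf j) (fun c => w ⟨j, c⟩)
    have hgr := Pd.growth_ring hA₀1 (res φ) (hf j) (hroots φ j) hsol hU0 (by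
      intro i hi
      have h1 := hini ⟨i, hi⟩
      simp only at h1
      simp only
      rw [h1]
      exact hwle _) n
    refine hgr.trans ?_
    have hdj : (f j).natDegree ≤ d :=
      single_le_sum (f := fun j => (f j).natDegree) (fun _ _ => Nat.zero_le _) (mem_univ j)
    have h2 : (2 : ℝ) ^ (f j).natDegree ≤ 2 ^ d := pow_le_pow_right₀ (by norm_num) hdj
    have h3 : U * 2 ^ (f j).natDegree ≤ G * (b φ ^ (d ^ 2) * B) := by
      calc U * 2 ^ (f j).natDegree ≤ U * 2 ^ d := mul_le_mul_of_nonneg_left h2 hU0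
        _ = G * (b φ ^ (d ^ 2) * B) := by
            rw [hU, hG, hx, mul_pow, ← pow_mul, ← pow_two]
            ring
    have h4 : (1 : ℝ) ≤ 2 * A₀ := by linarith
    have h5 : G * (2 * A₀) ^ n ≤ ((G + 1) * (2 * A₀)) ^ (n + 1) := by
      rw [mul_pow (G + 1) (2 * A₀)]
      have e1 : G ≤ (G + 1) ^ (n + 1) := by
        have : (G + 1) ^ 1 ≤ (G + 1) ^ (n + 1) :=
          pow_le_pow_right₀ (by linarith) (by omega)
        rw [pow_one] at this
        linarith
      have e2 : (2 * A₀) ^ n ≤ (2 * A₀) ^ (n + 1) := pow_le_pow_right₀ h4 (by omega)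
      exact mul_le_mul e1 e2 (by positivity) (by positivity)
    have hbB : 0 ≤ b φ ^ (d ^ 2) * B := mul_nonneg (by positivity) hB
    calc U * 2 ^ (f j).natDegree * (2 * A₀) ^ n
        ≤ G * (b φ ^ (d ^ 2) * B) * (2 * A₀) ^ n :=
          mul_le_mul_of_nonneg_right h3 (by positivity)
      _ = G * (2 * A₀) ^ n * (b φ ^ (d ^ 2) * B) := by ring
      _ ≤ ((G + 1) * (2 * A₀)) ^ (n + 1) * (b φ ^ (d ^ 2) * B) :=
          mul_le_mul_of_nonneg_right h5 hbB
      _ = ((G + 1) * (2 * A₀)) ^ (n + 1) * b φ ^ (d ^ 2) * B := by ring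

end Pool.Agent.Work.MP_8d13b5_lc.Fm
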