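import Pool.Agent.Work.MP_8d13b5_lc.Fm.Stmts2

set_option autoImplicit false

/-! Item COE: content of the coefficients of `X ^ n mod F`. Modulo the ideal `I` the statement says
that the coefficients of a monic divisor of `X ^ n` of degree `k` have power `k n` equal to zero. -/

namespace Pool.Agent.Work.MP_8d13b5_lc.Fm

open Polynomial NumberField Finset Module

namespace COE

lemma of_inj {S : Type} [CommRing S] {F : S[X]} (hF : F.Monic) (hd : 1 ≤ F.natDegree)
    {a : S} (ha : AdjoinRoot.of F a = 0) : a = 0 := by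
  rcases subsingleton_or_nontrivial S with h | h
  · exact Subsingleton.elim _ _
  have h1 : F ∣ C a := by
    rw [← AdjoinRoot.mk_eq_zero, AdjoinRoot.mk_C]
    exact ha
  have h2 : C a %ₘ F = 0 := (modByMonic_eq_zero_iff_dvd hF).2 h1
  have h3 : C a %ₘ F = C a := by
    rw [modByMonic_eq_self_iff hF]
    refine lt_of_le_of_lt degree_C_le ?_
    rw [degree_eq_natDegree hF.ne_zero]
    exact_mod_cast hd
  rw [h3] at h2
  exact C_eq_zero.1 h2

lemma core : ∀ (k : ℕ) (S : Type) [CommRing S] (F : S[X]) (n : ℕ), F.Monic →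
    F.natDegree = k → F ∣ X ^ n → ∀ i < k, F.coeff i ^ (k * n) = 0 := by
  intro k
  induction k with
  | zero => intro S _ F n _ _ _ i hi; omega
  | succ k ih =>
    intro S _ F n hF hk hd i hi
    rcases subsingleton_or_nontrivial S with h | h
    · exact Subsingleton.elim _ _
    have inj : Function.Injective (AdjoinRoot.of F) := by
      rw [injective_iff_map_eq_zero]
      intro a ha
      exact of_inj hF (by omega) ha
    have : Nontrivial (AdjoinRoot F) := inj.nontrivial
    set x : AdjoinRoot F := AdjoinRoot.root F with hx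
    have hroot : (F.map (AdjoinRoot.of F)).IsRoot x := AdjoinRoot.isRoot_root F
    obtain ⟨G, hG⟩ := dvd_iff_isRoot.2 hroot
    have hM : (F.map (AdjoinRoot.of F)).Monic := hF.map _
    have hGm : G.Monic := by
      rw [hG] at hM
      exact Monic.of_mul_monic_left (monic_X_sub_C x) hM
    have hGd : G.natDegree = k := by
      have h1 : (F.map (AdjoinRoot.of F)).natDegree = k + 1 := by
        rw [hF.natDegree_map, hk]
      rw [hG, Monic.natDegree_mul (monic_X_sub_C x) hGm, natDegree_X_sub_C] at h1
      omega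
    have hdv : F.map (AdjoinRoot.of F) ∣ X ^ n := by
      have := Polynomial.map_dvd (AdjoinRoot.of F) hd
      simpa using this
    have hGX : G ∣ X ^ n := (Dvd.intro_left _ hG.symm).trans hdv
    have hxn : x ^ n = 0 := by
      obtain ⟨Q, hQ⟩ := hdv
      have := congrArg (eval x) hQ
      rw [eval_mul, IsRoot.def.1 hroot, zero_mul] at this
      simpa using this
    have key : (AdjoinRoot.of F (F.coeff i)) ^ ((k + 1) * n) = 0 := by
      have hc : AdjoinRoot.of F (F.coeff i) = ((X - C x) * G).coeff i := by
        rw [← hG, coeff_map]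
      rw [hc]
      have hn : n ≤ (k + 1) * n := Nat.le_mul_of_pos_left _ (by omega)
      rcases Nat.eq_zero_or_pos i with h0 | h0
      · subst h0
        rw [mul_coeff_zero, coeff_sub, coeff_X_zero, coeff_C_zero, zero_sub, mul_pow, neg_pow,
          pow_eq_zero_of_le hn hxn, mul_zero, zero_mul]
      · obtain ⟨j, rfl⟩ : ∃ j, i = j + 1 := ⟨i - 1, by omega⟩
        rw [sub_mul, coeff_sub, coeff_X_mul, coeff_C_mul, sub_eq_add_neg]
        refine Commute.add_pow_eq_zero_of_add_le_succ_of_pow_eq_zero (Commute.all _ _)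
          (ih (AdjoinRoot F) G n hGm hGd hGX j (by omega)) (n := n) ?_ ?_
        · rw [neg_pow, mul_pow, hxn, zero_mul, mul_zero]
        · rw [add_mul, one_mul]
          omega
    rw [← map_pow] at key
    exact of_inj hF (by omega) key

end COE

theorem prCOE : StCOE := by
  intro k S _ F n I hF hk h i hi
  rcases eq_or_ne I ⊤ with hI | hI
  · rw [hI]
    exact Submodule.mem_top
  have : Nontrivial (S ⧸ I) := Ideal.Quotient.nontrivial_iff.2 hI
  have : Nontrivial S := (Ideal.Quotient.mk I).domain_nontrivial
  have h1 : (F.map (Ideal.Quotient.mk I)) ∣ X ^ n := by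
    rw [← modByMonic_eq_zero_iff_dvd (hF.map _)]
    have h2 : (X ^ n : (S ⧸ I)[X]) = (X ^ n : S[X]).map (Ideal.Quotient.mk I) := by simp
    rw [h2, ← map_modByMonic _ hF]
    ext j
    rw [coeff_map, coeff_zero, Ideal.Quotient.eq_zero_iff_mem]
    rcases Nat.lt_or_ge j k with hj | hj
    · exact h j hj
    · have : ((X ^ n : S[X]) %ₘ F).coeff j = 0 := by
        apply coeff_eq_zero_of_degree_lt
        refine lt_of_lt_of_le (degree_modByMonic_lt _ hF) ?_
        rw [degree_eq_natDegree hF.ne_zero, hk]
        exact_mod_cast hj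
      rw [this]
      exact I.zero_mem
  have h3 := COE.core k (S ⧸ I) (F.map (Ideal.Quotient.mk I)) n (hF.map _)
    (by rw [hF.natDegree_map, hk]) h1 i hi
  rw [coeff_map, ← map_pow, Ideal.Quotient.eq_zero_iff_mem] at h3
  exact h3

end Pool.Agent.Work.MP_8d13b5_lc.Fm
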