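import Pool.Agent.Work.MP_8d13b5_lc.Fm.Stmts2

set_option autoImplicit false

/-!
Item DIS of block FM2: the discriminant.
-/

namespace Pool.Agent.Work.MP_8d13b5_lc.Fm

open Polynomial NumberField Finset Module

namespace DIS

/-- descent of coprimality and clearing of denominators -/
theorem core {R L : Type} [CommRing R] [IsDomain R] [Field L] (f : R →+* L)
    (hf : Function.Injective f) (P Q : R[X]) (h : IsCoprime (P.map f) (Q.map f)) :
    ∃ (U V : R[X]) (Δ : R), Δ ≠ 0 ∧ U * P + V * Q = C Δ := by
  let F := FractionRing R
  let g : F →+* L := IsFractionRing.lift (K := F) hf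
  have hg : g.comp (algebraMap R F) = f := by
    ext x
    exact IsFractionRing.lift_algebraMap hf x
  have h1 : IsCoprime (P.map (algebraMap R F)) (Q.map (algebraMap R F)) := by
    rw [← Polynomial.isCoprime_map g, Polynomial.map_map, Polynomial.map_map, hg]
    exact h
  obtain ⟨u, v, huv⟩ := h1
  obtain ⟨b, hb0, hb⟩ := IsLocalization.integerNormalization_spec (nonZeroDivisors R) u
  obtain ⟨c, hc0, hc⟩ := IsLocalization.integerNormalization_spec (nonZeroDivisors R) v
  set U := IsLocalization.integerNormalization (nonZeroDivisors R) u with hU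
  set V := IsLocalization.integerNormalization (nonZeroDivisors R) v with hV
  refine ⟨C c * U, C b * V, b * c,
    mul_ne_zero (nonZeroDivisors.ne_zero hb0) (nonZeroDivisors.ne_zero hc0), ?_⟩
  apply Polynomial.map_injective (algebraMap R F) (IsFractionRing.injective R F)
  simp only [Polynomial.map_add, Polynomial.map_mul, Polynomial.map_C, hb, hc]
  rw [Algebra.smul_def, Algebra.smul_def]
  have e1 : ∀ r : R, algebraMap R F[X] r = C (algebraMap R F r) := fun r => rfl
  rw [e1, e1, map_mul, map_mul]
  linear_combination (C (algebraMap R F b) * C (algebraMap R F c)) * huv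

end DIS

/-- **item DIS** -/
theorem prDIS : StDIS := by
  intro K _ _ m F hF
  obtain ⟨φ, hsep, -⟩ := hF.rat
  have hres : Function.Injective (res φ) := by
    intro x y hxy
    have h1 : φ (x : K) = φ (y : K) := hxy
    exact RingOfIntegers.ext (φ.injective h1)
  have hm : Function.Injective (mapRingHom (res φ)) := by
    intro p q hpq
    exact Polynomial.map_injective (res φ) hres hpq
  have hf : Function.Injective ((algebraMap ℂ[X] (RatFunc ℂ)).comp (mapRingHom (res φ))) :=
    (RatFunc.algebraMap_injective ℂ).comp hm
  refine DIS.core ((algebraMap ℂ[X] (RatFunc ℂ)).comp (mapRingHom (res φ))) hf F (derivative F) ?_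
  have h2 := hsep
  rw [Polynomial.Separable, Polynomial.map_map, Polynomial.derivative_map] at h2
  exact h2

end Pool.Agent.Work.MP_8d13b5_lc.Fm
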