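import Pool.Agent.Work.MP_8d13b5_lc.Fm.StmtsZ

set_option autoImplicit false

/-! Items EQ1, EQ2 of the block FMZ. -/

namespace Pool.Agent.Work.MP_8d13b5_lc.Fm

open Polynomial NumberField Finset Module

namespace EQ

/-- the map from `ℤ[t]` to `ℂ(t)` -/
noncomputable def psi : ℤ[X] →+* RatFunc ℂ :=
  (algebraMap ℂ[X] (RatFunc ℂ)).comp (mapRingHom (Int.castRingHom ℂ))

theorem psi_inj : Function.Injective psi := by
  unfold psi
  refine (RatFunc.algebraMap_injective ℂ).comp ?_
  exact Polynomial.map_injective _ Int.cast_injective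

/-- the map from the fraction field -/
noncomputable def kap : FractionRing ℤ[X] →+* RatFunc ℂ := IsFractionRing.lift psi_inj

theorem kap_psi (x : ℤ[X]) : kap (algebraMap ℤ[X] (FractionRing ℤ[X]) x) = psi x :=
  IsFractionRing.lift_algebraMap psi_inj x

/-- the algebraic closure of `ℂ(t)` -/
abbrev OmC : Type := AlgebraicClosure (RatFunc ℂ)

theorem exists_j : ∃ j : Om →+* OmC, ∀ x : ℤ[X],
    j (algebraMap ℤ[X] Om x) = algebraMap (RatFunc ℂ) OmC (psi x) := by
  let f : FractionRing ℤ[X] →+* OmC := (algebraMap (RatFunc ℂ) OmC).comp kap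
  let _ : Algebra (FractionRing ℤ[X]) OmC := f.toAlgebra
  let g : Om →ₐ[FractionRing ℤ[X]] OmC := IsAlgClosed.lift
  refine ⟨g.toRingHom, fun x => ?_⟩
  have h1 : algebraMap ℤ[X] Om x = algebraMap (FractionRing ℤ[X]) Om
      (algebraMap ℤ[X] (FractionRing ℤ[X]) x) := IsScalarTower.algebraMap_apply _ _ _ _
  rw [h1]
  show g (algebraMap (FractionRing ℤ[X]) Om _) = _
  rw [g.commutes]
  show (algebraMap (RatFunc ℂ) OmC) (kap _) = _
  rw [kap_psi]

theorem hat_eq (F : ℤ[X][X]) : hat F = F.map psi := rfl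

/-- every root in the large field comes from the small one -/
theorem root_lift (j : Om →+* OmC)
    (hj : ∀ x : ℤ[X], j (algebraMap ℤ[X] Om x) = algebraMap (RatFunc ℂ) OmC (psi x))
    (F : ℤ[X][X]) (hF : F.Monic) (a : OmC) (ha : aeval a (hat F) = 0) :
    ∃ a₀ : Om, j a₀ = a ∧ IsRt F a₀ := by
  have hs : (F.map (algebraMap ℤ[X] Om)).Splits := IsAlgClosed.splits _
  have hm : (F.map (algebraMap ℤ[X] Om)).Monic := hF.map _
  have h1 : F.map (algebraMap ℤ[X] Om) =
      ((F.map (algebraMap ℤ[X] Om)).roots.map fun b => X - C b).prod := by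
    conv_lhs => rw [hs.eq_prod_roots, hm.leadingCoeff, C_1, one_mul]
  have h2 : eval a ((F.map (algebraMap ℤ[X] Om)).map j) = 0 := by
    have h3 : (F.map (algebraMap ℤ[X] Om)).map j = (hat F).map (algebraMap (RatFunc ℂ) OmC) := by
      rw [hat_eq, Polynomial.map_map, Polynomial.map_map]
      congr 1
      exact RingHom.ext fun x => hj x
    rw [h3, eval_map_algebraMap]
    exact ha
  rw [h1, Polynomial.map_multiset_prod, Multiset.map_map, eval_multiset_prod, Multiset.map_map,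
    Multiset.prod_eq_zero_iff, Multiset.mem_map] at h2
  obtain ⟨b, hb, h4⟩ := h2
  refine ⟨b, ?_, ?_⟩
  · simp only [Function.comp_apply, Polynomial.map_sub, map_X, map_C, eval_sub, eval_X,
      eval_C] at h4
    exact (sub_eq_zero.1 h4).symm
  · exact (mem_roots'.1 hb).2

/-- a constant which is algebraic over `ℤ[t]` is algebraic over `ℤ` -/
theorem alg_of_const (j : Om →+* OmC)
    (hj : ∀ x : ℤ[X], j (algebraMap ℤ[X] Om x) = algebraMap (RatFunc ℂ) OmC (psi x))
    (z : Om) (c : ℂ) (hz : j z = algebraMap (RatFunc ℂ) OmC (algebraMap ℂ (RatFunc ℂ) c)) :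
    IsAlgebraic ℤ z := by
  have h1 : IsAlgebraic ℤ[X] z := by
    have h2 : IsAlgebraic (FractionRing ℤ[X]) z := Algebra.IsAlgebraic.isAlgebraic z
    exact (IsFractionRing.isAlgebraic_iff ℤ[X] (FractionRing ℤ[X]) Om).2 h2
  obtain ⟨P, hP, hPz⟩ := h1
  have h3 : ∑ i ∈ range (P.natDegree + 1), (P.coeff i).map (Int.castRingHom ℂ) * C (c ^ i) = 0 := by
    have h4 : j (aeval z P) = 0 := by rw [hPz, map_zero]
    rw [aeval_eq_sum_range, map_sum] at h4
    apply (RatFunc.algebraMap_injective ℂ)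
    apply (algebraMap (RatFunc ℂ) OmC).injective
    rw [map_zero, map_zero, ← h4, map_sum, map_sum]
    refine sum_congr rfl fun i _ => ?_
    have e1 : j (P.coeff i • z ^ i) = algebraMap (RatFunc ℂ) OmC (psi (P.coeff i)) *
        (algebraMap (RatFunc ℂ) OmC (algebraMap ℂ (RatFunc ℂ) c)) ^ i := by
      rw [Algebra.smul_def, RingHom.map_mul, RingHom.map_pow, hj, hz]
    rw [e1, RingHom.map_mul, RingHom.map_mul, ← RingHom.map_pow, ← RingHom.map_pow]
    rfl
  obtain ⟨i, hi⟩ : ∃ i, P.coeff i ≠ 0 := by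
    by_contra h
    push Not at h
    exact hP (Polynomial.ext fun i => by rw [h i, coeff_zero])
  obtain ⟨l, hl⟩ : ∃ l, (P.coeff i).coeff l ≠ 0 := by
    by_contra h
    push Not at h
    exact hi (Polynomial.ext fun l => by rw [h l, coeff_zero])
  let Q : ℤ[X] := ∑ i ∈ range (P.natDegree + 1), C ((P.coeff i).coeff l) * X ^ i
  have hQ : Q.coeff i = (P.coeff i).coeff l := by
    simp only [Q, finsetSum_coeff, coeff_C_mul, coeff_X_pow, mul_ite, mul_one, mul_zero]
    rw [sum_ite_eq, if_pos]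
    rw [mem_range]
    by_contra h
    exact hi (coeff_eq_zero_of_natDegree_lt (by omega))
  refine ⟨Q, fun h => hl ?_, ?_⟩
  · rw [← hQ, h, coeff_zero]
  · have h5 := congrArg (fun R : ℂ[X] => R.coeff l) h3
    simp only [finsetSum_coeff, coeff_mul_C, coeff_map, coeff_zero] at h5
    apply j.injective
    rw [map_zero]
    simp only [Q, map_sum, map_mul, map_pow, aeval_X, aeval_C]
    rw [hz]
    have h6 := congrArg (fun x => algebraMap (RatFunc ℂ) OmC (algebraMap ℂ (RatFunc ℂ) x)) h5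
    simp only [map_sum, map_mul, map_pow, map_zero, eq_intCast, map_intCast] at h6
    simp only [eq_intCast, map_intCast]
    exact h6

/-- the common part -/
theorem core (F : ℤ[X][X]) (hF : F.Monic) (h0 : F.coeff 0 ≠ 0) (c : ℂ) (hc : c ≠ 0)
    (h : ¬ IsCoprime (hat F) ((hat F).scaleRoots (algebraMap ℂ (RatFunc ℂ) c))) :
    ∃ a b : Om, IsRt F a ∧ IsRt F b ∧ b ≠ 0 ∧ IsAlgebraic ℤ (a / b) ∧
      (∀ N : ℕ, a ^ N = b ^ N → c ^ N = 1) ∧ (a = b → c = 1) := by
  obtain ⟨j, hj⟩ := exists_j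
  rw [Polynomial.isCoprime_iff_aeval_ne_zero_of_isAlgClosed (RatFunc ℂ) OmC] at h
  push Not at h
  obtain ⟨a, ha1, ha2⟩ := h
  set s : OmC := algebraMap (RatFunc ℂ) OmC (algebraMap ℂ (RatFunc ℂ) c) with hs
  have hs0 : s ≠ 0 := by
    rw [hs]
    simpa using hc
  have hb : aeval (a / s) (hat F) = 0 := by
    have h1 := Polynomial.scaleRoots_eval₂_mul (p := hat F) (algebraMap (RatFunc ℂ) OmC) (a / s)
      (algebraMap ℂ (RatFunc ℂ) c)
    rw [← hs, mul_div_cancel₀ _ hs0] at h1
    rw [aeval_def] at ha2 ⊢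
    rw [ha2] at h1
    rcases mul_eq_zero.1 h1.symm with h2 | h2
    · exact absurd h2 (pow_ne_zero _ hs0)
    · exact h2
  obtain ⟨a₀, ha3, ha4⟩ := root_lift j hj F hF a ha1
  obtain ⟨b₀, hb3, hb4⟩ := root_lift j hj F hF (a / s) hb
  have hb0 : b₀ ≠ 0 := by
    intro h1
    rw [h1, IsRt, ← coeff_zero_eq_eval_zero, coeff_map] at hb4
    have h2 : Function.Injective (algebraMap ℤ[X] Om) := by
      rw [IsScalarTower.algebraMap_eq ℤ[X] (FractionRing ℤ[X]) Om]
      exact (algebraMap (FractionRing ℤ[X]) Om).injective.comp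
        (IsFractionRing.injective ℤ[X] (FractionRing ℤ[X]))
    exact h0 (h2 (by rw [hb4, map_zero]))
  have hbs : a / s ≠ 0 := by
    rw [← hb3]
    exact (map_ne_zero_iff j j.injective).2 hb0
  have ha0 : a ≠ 0 := fun h1 => hbs (by rw [h1, zero_div])
  have hq : j (a₀ / b₀) = s := by
    rw [map_div₀, ha3, hb3]
    field_simp
  refine ⟨a₀, b₀, ha4, hb4, hb0, alg_of_const j hj _ c (by rw [hq]), ?_, ?_⟩
  · intro N hN
    have h1 : s ^ N = 1 := by
      rw [← hq, ← map_pow, div_pow, hN, div_self (pow_ne_zero _ hb0), map_one]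
    rw [hs, ← map_pow, ← map_pow] at h1
    have h2 : Function.Injective (algebraMap ℂ (RatFunc ℂ)) := (algebraMap ℂ (RatFunc ℂ)).injective
    exact h2 ((algebraMap (RatFunc ℂ) OmC).injective (by rw [h1, map_one, map_one]))
  · intro h1
    have h3 : s = 1 := by rw [← hq, h1, div_self hb0, map_one]
    rw [hs] at h3
    have h2 : Function.Injective (algebraMap ℂ (RatFunc ℂ)) := (algebraMap ℂ (RatFunc ℂ)).injective
    exact h2 ((algebraMap (RatFunc ℂ) OmC).injective (by rw [h3, map_one, map_one]))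

end EQ

/-- **item EQ1** -/
theorem prEQ1 : StEQ1 := by
  intro F hF h0 h c hc hN
  by_contra hcop
  obtain ⟨a, b, ha, hb, -, hal, h1, -⟩ := EQ.core F hF h0 c hc hcop
  obtain ⟨N, hN1, hab⟩ := h a b ha hb hal
  exact hN N hN1 (h1 N hab)

/-- **item EQ2** -/
theorem prEQ2 : StEQ2 := by
  intro F hF h0 h
  obtain ⟨hsep, hne⟩ := h
  have e1 : (F.map (mapRingHom (Int.castRingHom ℂ))).map (algebraMap ℂ[X] (RatFunc ℂ)) =
      hat F := by
    rw [Polynomial.map_map]
    rfl
  constructor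
  · rw [e1]
    have h2 : hat F = (F.map (algebraMap ℤ[X] (FractionRing ℤ[X]))).map EQ.kap := by
      rw [Polynomial.map_map, EQ.hat_eq]
      congr 1
      exact RingHom.ext fun x => (EQ.kap_psi x).symm
    rw [h2]
    exact hsep.map
  · intro c hc hc1
    have e2 : ((F.map (mapRingHom (Int.castRingHom ℂ))).scaleRoots (C c)).map
        (algebraMap ℂ[X] (RatFunc ℂ)) = (hat F).scaleRoots (algebraMap ℂ (RatFunc ℂ) c) := by
      rw [← e1]
      rw [Polynomial.map_scaleRoots]
      · rfl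
      · rw [(hF.map (mapRingHom (Int.castRingHom ℂ))).leadingCoeff, map_one]
        exact one_ne_zero
    rw [e1, e2]
    by_contra hcop
    obtain ⟨a, b, ha, hb, -, hal, -, h2⟩ := EQ.core F hF h0 c hc hcop
    by_cases hab : a = b
    · exact hc1 (h2 hab)
    · exact hne a b ha hb hab hal

end Pool.Agent.Work.MP_8d13b5_lc.Fm
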