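import Pool.Agent.Work.MP_8d13b5_lc.Fm.Stmts2

set_option autoImplicit false

/-! Item EX2: the explicit family `X ^ k - t X - 1`. -/

namespace Pool.Agent.Work.MP_8d13b5_lc.Fm

open Polynomial NumberField Finset Module

namespace EX2

/-- the polynomial `X ^ k - t X - 1` -/
noncomputable def G (R : Type) [CommRing R] (k : ℕ) : R[X][X] := X ^ k - (C X * X + 1)

theorem deg_aux (R : Type) [CommRing R] (a : R) : (C a * X + 1 : R[X]).natDegree ≤ 1 := by
  have : (C a * X + 1 : R[X]) = C a * X + C 1 := by rw [C_1]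
  rw [this]
  exact natDegree_linear_le

theorem monic_aux {R : Type} [CommRing R] (a : R) {k : ℕ} (hk : 2 ≤ k) :
    (X ^ k - (C a * X + 1) : R[X]).Monic := by
  refine monic_X_pow_sub ?_
  refine lt_of_le_of_lt degree_le_natDegree ?_
  have := deg_aux R a
  exact_mod_cast lt_of_le_of_lt this (by omega)

theorem natDegree_aux {R : Type} [CommRing R] [Nontrivial R] (a : R) {k : ℕ} (hk : 2 ≤ k) :
    (X ^ k - (C a * X + 1) : R[X]).natDegree = k := by
  rw [natDegree_sub_eq_left_of_natDegree_lt, natDegree_X_pow]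
  rw [natDegree_X_pow]
  exact lt_of_le_of_lt (deg_aux R a) (by omega)

theorem coeff_aux {R : Type} [CommRing R] (a : R) (k i : ℕ) :
    (X ^ k - (C a * X + 1) : R[X]).coeff i =
      (if i = k then 1 else 0) - ((if i = 1 then a else 0) + if i = 0 then 1 else 0) := by
  rw [coeff_sub, coeff_add, coeff_X_pow, coeff_C_mul, coeff_X, coeff_one]
  have h : a * (if 1 = i then (1 : R) else 0) = if i = 1 then a else 0 := by
    by_cases h : i = 1
    · rw [if_pos h, if_pos h.symm, mul_one]
    · rw [if_neg h, if_neg (fun h' => h h'.symm), mul_zero]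
  rw [h]

theorem map_G {R S : Type} [CommRing R] [CommRing S] (ψ : R →+* S) (k : ℕ) :
    (G R k).map (mapRingHom ψ) = G S k := by
  unfold G
  simp [Polynomial.map_sub, Polynomial.map_add, Polynomial.map_mul]

theorem spc_G {R : Type} [CommRing R] (k : ℕ) (t : R) :
    spc (G R k) t = X ^ k - (C t * X + 1) := by
  unfold spc G
  simp [Polynomial.map_sub, Polynomial.map_add, Polynomial.map_mul]

/-- the parameter is transcendental -/
theorem trans {K : Type} [Field K] (σ : ℂ[X] →+* K) (hσ : Function.Injective σ) (k : ℕ)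
    (hk : 1 ≤ k) (α β : ℂ) (hα : α ≠ 0) : σ X ^ k * σ (C α) ≠ σ (C β) := by
  intro h
  rw [← map_pow, ← map_mul] at h
  have h1 := hσ h
  have h2 := congrArg (fun p : ℂ[X] => p.coeff k) h1
  simp only [coeff_mul_C, coeff_X_pow, if_true, one_mul, coeff_C] at h2
  rw [if_neg (by omega)] at h2
  exact hα h2

theorem nonConst (k : ℕ) (hk : 2 ≤ k) : NonConst (G ℂ k) := by
  have hGdeg : (G ℂ k).natDegree = k := natDegree_aux _ hk
  set K := AlgebraicClosure (RatFunc ℂ) with hK
  set σ : ℂ[X] →+* K := (algebraMap (RatFunc ℂ) K).comp (algebraMap ℂ[X] (RatFunc ℂ)) with hσd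
  have hσ : Function.Injective σ :=
    (algebraMap (RatFunc ℂ) K).injective.comp (RatFunc.algebraMap_injective ℂ)
  have hev : ∀ (P : ℂ[X][X]) (a : K), aeval a (P.map (algebraMap ℂ[X] (RatFunc ℂ))) =
      P.eval₂ σ a := by
    intro P a
    rw [aeval_def, eval₂_map]
  have hG : ∀ a : K, (G ℂ k).eval₂ σ a = a ^ k - (σ X * a + 1) := by
    intro a
    unfold G
    simp [eval₂_sub, eval₂_add, eval₂_mul]
  have hkc : (1 - (k : ℂ)) ≠ 0 := by
    intro h
    have h1 : (k : ℂ) = ((1 : ℕ) : ℂ) := by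
      rw [Nat.cast_one]
      exact (sub_eq_zero.1 h).symm
    have := Nat.cast_injective h1
    omega
  refine ⟨?_, ?_⟩
  · rw [separable_def, isCoprime_iff_aeval_ne_zero_of_isAlgClosed (RatFunc ℂ) K]
    intro a
    by_contra hcon
    push Not at hcon
    obtain ⟨h1, h2⟩ := hcon
    rw [hev, hG] at h1
    have hd : derivative ((G ℂ k).map (algebraMap ℂ[X] (RatFunc ℂ))) =
        (derivative (G ℂ k)).map (algebraMap ℂ[X] (RatFunc ℂ)) := (derivative_map _ _)
    rw [hd, hev] at h2
    have hG' : (derivative (G ℂ k)).eval₂ σ a = (k : K) * a ^ (k - 1) - σ X := by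
      unfold G
      simp [derivative_X_pow, eval₂_sub, eval₂_mul]
    rw [hG'] at h2
    have hσk : σ (C (1 - (k : ℂ))) = 1 - (k : K) := by simp
    have hpow : a ^ k = a * a ^ (k - 1) := by
      rw [← pow_succ', Nat.sub_add_cancel (by omega)]
    have e1 : σ X = (k : K) * a ^ (k - 1) := (sub_eq_zero.1 h2).symm
    have e2 : (1 - (k : K)) * a ^ k = 1 := by
      have : a ^ k - ((k : K) * a ^ (k - 1) * a + 1) = 0 := by rw [← e1]; exact h1
      rw [hpow] at this ⊢
      linear_combination this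
    -- `σ X ^ k (1 - k) ^ k = k ^ k (1 - k)`
    have e3 : σ X ^ k * (1 - (k : K)) ^ k = (k : K) ^ k * (1 - (k : K)) := by
      have f1 : a ^ (k * (k - 1)) * (1 - (k : K)) ^ (k - 1) = 1 := by
        rw [pow_mul, ← mul_pow, mul_comm (a ^ k), e2, one_pow]
      have f2 : (1 - (k : K)) ^ k = (1 - (k : K)) ^ (k - 1) * (1 - (k : K)) := by
        rw [← pow_succ, Nat.sub_add_cancel (by omega)]
      rw [e1, mul_pow, ← pow_mul, mul_comm (k - 1) k, f2]
      calc _ = (k : K) ^ k * (a ^ (k * (k - 1)) * (1 - (k : K)) ^ (k - 1)) * (1 - (k : K)) := by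
            ring
        _ = _ := by rw [f1, mul_one]
    refine trans σ hσ k (by omega) ((1 - (k : ℂ)) ^ k) ((k : ℂ) ^ k * (1 - (k : ℂ)))
      (pow_ne_zero _ hkc) ?_
    have g1 : σ (C ((1 - (k : ℂ)) ^ k)) = (1 - (k : K)) ^ k := by
      rw [C_pow, map_pow, hσk]
    have g2 : σ (C ((k : ℂ) ^ k * (1 - (k : ℂ)))) = (k : K) ^ k * (1 - (k : K)) := by
      rw [C_mul, map_mul, hσk, C_pow, map_pow]
      simp
    rw [g1, g2, e3]
  · intro c hc hc1
    rw [isCoprime_iff_aeval_ne_zero_of_isAlgClosed (RatFunc ℂ) K]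
    intro a
    by_contra hcon
    push Not at hcon
    obtain ⟨h1, h2⟩ := hcon
    rw [hev, hG] at h1
    rw [hev] at h2
    have hc0 : σ (C c) ≠ 0 := by
      intro h
      have := hσ (h.trans (map_zero σ).symm)
      exact hc (by simpa using this)
    set b : K := a / σ (C c) with hb
    have hab : a = σ (C c) * b := by
      rw [hb, mul_div_cancel₀ _ hc0]
    rw [hab, scaleRoots_eval₂_mul, hGdeg, hG] at h2
    have h3 : b ^ k - (σ X * b + 1) = 0 := by
      rcases mul_eq_zero.1 h2 with h | h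
      · exact absurd h (pow_ne_zero _ hc0)
      · exact h
    rw [hab, mul_pow] at h1
    have e1 : (σ (C c) ^ k - σ (C c)) * b ^ k = 1 - σ (C c) := by
      linear_combination h1 - σ (C c) * h3
    have hck : c ^ k - c ≠ 0 := by
      intro h
      have h4 : σ (C c) ^ k - σ (C c) = 0 := by
        rw [← map_pow, ← map_sub, ← C_pow, ← C_sub, h, C_0, map_zero]
      rw [h4, zero_mul] at e1
      have h5 : σ (C c) = σ (C 1) := by
        rw [C_1, map_one]
        exact (sub_eq_zero.1 e1.symm).symm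
      exact hc1 (C_injective (hσ h5))
    have h1c : 1 - c ≠ 0 := fun h => hc1 (sub_eq_zero.1 h).symm
    set ν : ℂ := (1 - c) / (c ^ k - c) with hν
    have hν0 : ν ≠ 0 := div_ne_zero h1c hck
    have e2 : b ^ k = σ (C ν) := by
      have h4 : σ (C (c ^ k - c)) ≠ 0 := by
        intro h
        have := hσ (h.trans (map_zero σ).symm)
        exact hck (C_eq_zero.1 this)
      have h5 : σ (C (c ^ k - c)) * σ (C ν) = σ (C (1 - c)) := by
        rw [← map_mul, ← C_mul, hν, mul_div_cancel₀ _ hck]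
      have h6 : σ (C (c ^ k - c)) = σ (C c) ^ k - σ (C c) := by
        rw [C_sub, map_sub, C_pow, map_pow]
      have h7 : σ (C (1 - c)) = 1 - σ (C c) := by
        rw [C_sub, map_sub, C_1, map_one]
      apply mul_left_cancel₀ h4
      rw [h5, h6, h7, e1]
    have e3 : σ X * b = σ (C (ν - 1)) := by
      rw [C_sub, map_sub, C_1, map_one, ← e2]
      linear_combination -h3
    refine trans σ hσ k (by omega) ν ((ν - 1) ^ k) hν0 ?_
    rw [← e2, ← mul_pow, e3, ← map_pow, ← C_pow]

end EX2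

/-- **EX2.** -/
theorem prEX2 (hFI2 : StFI2) : StEX2 := by
  intro k hk
  have hm : (EX2.G ℤ k).Monic := EX2.monic_aux _ hk
  have hd : (EX2.G ℤ k).natDegree = (k - 1) + 1 := by
    have h : (EX2.G ℤ k).natDegree = k := EX2.natDegree_aux _ hk
    omega
  have h0 : (EX2.G ℤ k).coeff 0 = -1 := by
    have := EX2.coeff_aux (X : ℤ[X]) k 0
    rw [if_neg (by omega), if_neg (by omega), if_pos rfl] at this
    unfold EX2.G
    rw [this]
    ring
  have hne : (EX2.G ℤ k).coeff 0 ≠ 0 := by
    rw [h0]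
    exact neg_ne_zero.2 one_ne_zero
  have hcop : ∃ c : ℤ, c ≠ 0 ∧ ∃ A : Fin (k - 1 + 1) → ℤ[X],
      ∑ i, A i * (EX2.G ℤ k).coeff (i : ℕ) = C c := by
    refine ⟨1, one_ne_zero, fun i => if i = 0 then -1 else 0, ?_⟩
    rw [Finset.sum_eq_single 0]
    · show (if (0 : Fin (k - 1 + 1)) = 0 then (-1 : ℤ[X]) else 0) * (EX2.G ℤ k).coeff 0 = C 1
      rw [if_pos rfl, h0, C_1]
      ring
    · intro i _ hi
      show (if i = 0 then (-1 : ℤ[X]) else 0) * (EX2.G ℤ k).coeff (i : ℕ) = 0
      rw [if_neg hi, zero_mul]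
    · intro h
      exact absurd (Finset.mem_univ _) h
  have hnc : NonConst ((EX2.G ℤ k).map (mapRingHom (Int.castRingHom ℂ))) := by
    rw [EX2.map_G]
    exact EX2.nonConst k hk
  obtain ⟨T₀, c, h⟩ := hFI2 (k - 1) (EX2.G ℤ k) (by omega) hm hd hne hcop hnc
  refine ⟨T₀, c, fun t ht u hu => ?_⟩
  have hrec : Rec (RingHom.id ℤ) (spc (EX2.G ℤ k) t) u := by
    intro n
    rw [EX2.spc_G, EX2.natDegree_aux t hk]
    have e1 : ∀ i, (RingHom.id ℤ) ((X ^ k - (C t * X + 1) : ℤ[X]).coeff i) * u (n + i) =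
        (if i = k then u (n + i) else 0) - ((if i = 1 then t * u (n + i) else 0) +
          if i = 0 then u (n + i) else 0) := by
      intro i
      rw [RingHom.id_apply, EX2.coeff_aux]
      split_ifs <;> ring
    simp only [e1]
    rw [Finset.sum_sub_distrib, Finset.sum_add_distrib, Finset.sum_ite_eq', Finset.sum_ite_eq',
      Finset.sum_ite_eq', if_pos (by simp), if_pos (by simp; omega), if_pos (by simp)]
    rw [hu n]
    simp
  rcases h t ht u hrec with h1 | h1
  · exact Or.inl h1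
  · refine Or.inr fun B n hB => h1 B n fun i hi => hB i (by omega)

end Pool.Agent.Work.MP_8d13b5_lc.Fm
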