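import Pool.Agent.Work.MP_8d13b5_lc.Fm.Stmts2
import Pool.Agent.Work.MP_8d13b5_lc.Fm.I_GRE

set_option autoImplicit false

/-! Item GG2 of the block `Fm` (second part): the greedy construction of independent relations for
a general family. -/

namespace Pool.Agent.Work.MP_8d13b5_lc.Fm

open Polynomial NumberField Finset Module

namespace GG2

theorem pn_nonneg {R : Type} [CommRing R] (φ : R →+* ℂ) (P : R[X]) : 0 ≤ pn φ P :=
  Finset.sum_nonneg fun _ _ => norm_nonneg _

end GG2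

open GRE in
theorem prGG2 (hGAP : StGAP) (hWRG : StWRG) (hGG1 : StGG1) (hCFD : StCFD) (hID2 : StID2)
    (hSLP : StSLP) : StGG2 := by
  intro K _ _ m F hm hF
  obtain ⟨φ₀, hφ₀⟩ := hF.rat
  have hres : Function.Injective (res φ₀) := by
    unfold res
    exact (φ₀.injective).comp (FaithfulSMul.algebraMap_injective (𝓞 K) K)
  set G : ℂ[X][X] := F.map (mapRingHom (res φ₀)) with hG
  have hG0 : G.coeff 0 ≠ 0 := by
    rw [hG, coeff_map, coe_mapRingHom]
    intro h
    exact hF.ne (Polynomial.map_injective _ hres (by rw [h, Polynomial.map_zero]))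
  obtain ⟨cW, hcW⟩ := hWRG m G (hF.monic.map _) (by rw [hG, hF.monic.natDegree_map, hF.deg])
    hG0 hφ₀
  obtain ⟨p, q, hq, hslope, _⟩ := hSLP (𝓞 K) m F ⟨0, Nat.zero_le _, hF.ne⟩
  have hdeg : ∀ n, ∀ j : Fin (m + 1), (Pd.cf F n j).natDegree ≤ p * n := by
    intro n j
    have h1 := hCFD.2.2.1 (𝓞 K) m p q F hF.monic hF.deg hslope n j (by have := j.2; omega)
    exact (Nat.le_mul_of_pos_left _ hq).trans h1
  set Λ : ℝ := ∑ φ : K →+* ℂ, (1 + ∑ i ∈ range (m + 1), pn (res φ) (F.coeff i)) with hΛd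
  have hterm : ∀ φ : K →+* ℂ, 1 ≤ 1 + ∑ i ∈ range (m + 1), pn (res φ) (F.coeff i) := fun φ =>
    le_add_of_nonneg_right (Finset.sum_nonneg fun _ _ => GG2.pn_nonneg _ _)
  have hΛ1 : ∀ φ : K →+* ℂ, 1 + ∑ i ∈ range (m + 1), pn (res φ) (F.coeff i) ≤ Λ := fun φ =>
    Finset.single_le_sum (f := fun φ : K →+* ℂ => 1 + ∑ i ∈ range (m + 1), pn (res φ) (F.coeff i))
      (fun φ _ => zero_le_one.trans (hterm φ)) (mem_univ φ)
  have hΛ : 1 ≤ Λ := (hterm φ₀).trans (hΛ1 φ₀)
  refine ⟨cW, fun N₁ hN₁ => ?_⟩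
  obtain ⟨C₁, hC₁, G1⟩ := hGG1 K m p Λ hΛ N₁ hN₁
  refine ⟨C₁, hC₁, fun n hn => ?_⟩
  set ψ := algebraMap (𝓞 K) K with hψ
  set E : Fin (m + 1) → K[X] := fun j => (Pd.cf F n j).map ψ with hE
  have hE0 : E ≠ 0 := by
    intro h
    have h1 : ∀ j : Fin (m + 1), Pd.cf F n j = 0 := by
      intro j
      by_contra hne
      exact map_ne hne (congr_fun h j)
    obtain ⟨c, hc, A, hA⟩ := hF.cop
    obtain ⟨b, hb⟩ := hID2 (𝓞 K)[X] m n F A (C c) hF.monic hF.deg hA
    rw [Finset.sum_eq_zero (fun j _ => by rw [h1 j, mul_zero])] at hb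
    have h2 : (C c : (𝓞 K)[X]) ≠ 0 := C_ne_zero.2 hc
    exact pow_ne_zero _ h2 hb.symm
  obtain ⟨j₀, -, hj₀⟩ := Finset.exists_max_image (univ : Finset (Fin (m + 1)))
    (fun j => (Pd.cf F n j).natDegree) ⟨0, mem_univ _⟩
  have hEdeg : ∀ j, (E j).natDegree ≤ (Pd.cf F n j₀).natDegree := fun j =>
    natDegree_map_le.trans (hj₀ j (mem_univ j))
  obtain ⟨ℓ, hsum, hP, hgap⟩ := hGAP K m (Pd.cf F n j₀).natDegree E hE0 hEdeg
  have hℓ : ∀ i, ℓ i ≤ p * n := fun i =>
    ((Finset.single_le_sum (f := ℓ) (fun _ _ => Nat.zero_le _) (mem_univ i)).trans hsum).trans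
      (hdeg n j₀)
  have hlow : ∀ i, n ≤ cW * (ℓ i + 1) := by
    intro i
    obtain ⟨P, ⟨hP1, hP2⟩, hP0⟩ := hP i
    refine hcW n (ℓ i) (fun j => (P j).map φ₀) ?_ (fun j => natDegree_map_le.trans (hP1 j)) ?_
    · intro h
      apply hP0
      funext j
      have h1 := congr_fun h j
      exact Polynomial.map_injective _ φ₀.injective (by
        rw [Pi.zero_apply, Polynomial.map_zero]; exact h1)
    · have h1 := congr_arg (Polynomial.map φ₀) hP2
      rw [Polynomial.map_sum, Polynomial.map_zero] at h1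
      refine Eq.trans (Finset.sum_congr rfl fun j _ => ?_) h1
      rw [Polynomial.map_mul, hG, hCFD.2.1 (𝓞 K)[X] ℂ[X] (mapRingHom (res φ₀)) F n j hF.monic]
      simp only [hE, coe_mapRingHom, Polynomial.map_map]
      rfl
  have hpn : ∀ (φ : K →+* ℂ) (j : Fin (m + 1)), pn (res φ) (Pd.cf F n j) ≤ Λ ^ n := by
    intro φ j
    refine (hCFD.2.2.2 (𝓞 K) m F (res φ) hF.monic hF.deg n j (by have := j.2; omega)).trans ?_
    exact pow_le_pow_left₀ (zero_le_one.trans (hterm φ)) (hΛ1 φ) n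
  have key : ∀ (k : ℕ) (hk : k ≤ m), ∃ Q : Fin k → Fin (m + 1) → (𝓞 K)[X],
      LinearIndependent K[X] (fun s j => (Q s j).map ψ : Fin k → Fin (m + 1) → K[X]) ∧
      (∀ s, ∑ j, Q s j * Pd.cf F n j = 0) ∧
      (∀ s j, (Q s j).natDegree ≤ ℓ (Fin.castLE hk s) + n / N₁) ∧
      ∀ (φ : K →+* ℂ) s j, pn (res φ) (Q s j) ≤ C₁ ^ n := by
    intro k
    induction k with
    | zero =>
      intro _
      exact ⟨fun s => Fin.elim0 s, linearIndependent_empty_type, fun s => Fin.elim0 s,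
        fun s => Fin.elim0 s, fun _ s => Fin.elim0 s⟩
    | succ k ih =>
      intro hk
      obtain ⟨Q, hQ1, hQ2, hQ3, hQ4⟩ := ih (by omega)
      obtain ⟨P, hP1, hP2, hP3, hP4⟩ := G1 n hn (fun j => Pd.cf F n j) (hdeg n) hpn (ℓ ⟨k, hk⟩) k
        (fun s j => (Q s j).map ψ)
        (hℓ _) (hgap ⟨k, hk⟩ k (fun s j => (Q s j).map ψ) le_rfl (n / N₁))
      refine ⟨(Fin.snoc Q P : Fin (k + 1) → Fin (m + 1) → (𝓞 K)[X]), ?_, ?_, ?_, ?_⟩
      · have h1 : (fun s j => ((Fin.snoc Q P : Fin (k + 1) → Fin (m + 1) → (𝓞 K)[X]) s j).map ψ :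
            Fin (k + 1) → Fin (m + 1) → K[X]) =
            (Fin.snoc (fun s j => (Q s j).map ψ : Fin k → Fin (m + 1) → K[X])
              (fun j => (P j).map ψ) : Fin (k + 1) → Fin (m + 1) → K[X]) := by
          funext s
          refine Fin.lastCases ?_ (fun s => ?_) s
          · simp only [Fin.snoc_last]
          · simp only [Fin.snoc_castSucc]
        rw [h1]
        apply indep_snoc _ _ hQ1
        intro c hc hmem
        exact hP4 ⟨c, hc, hmem⟩
      · intro s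
        refine Fin.lastCases ?_ (fun s => ?_) s
        · simp only [Fin.snoc_last]
          exact hP1
        · simp only [Fin.snoc_castSucc]
          exact hQ2 s
      · intro s
        refine Fin.lastCases ?_ (fun s => ?_) s
        · intro j
          simp only [Fin.snoc_last]
          exact hP2 j
        · intro j
          simp only [Fin.snoc_castSucc]
          exact hQ3 s j
      · intro φ s
        refine Fin.lastCases ?_ (fun s => ?_) s
        · intro j
          simp only [Fin.snoc_last]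
          exact hP3 φ j
        · intro j
          simp only [Fin.snoc_castSucc]
          exact hQ4 φ s j
  obtain ⟨Q, hQ1, hQ2, hQ3, hQ4⟩ := key m le_rfl
  refine ⟨ℓ, Q, ⟨j₀, hsum⟩, hlow, ?_, hQ2, fun i j => hQ3 i j, hQ4⟩
  rw [Fintype.linearIndependent_iff] at hQ1 ⊢
  intro g hg i
  have h1 := hQ1 (fun s => (g s).map ψ) (by
    funext j
    have h2 := congr_fun hg j
    rw [Finset.sum_apply] at h2 ⊢
    simp only [Pi.smul_apply, smul_eq_mul, Pi.zero_apply] at h2 ⊢
    have h3 := congr_arg (Polynomial.map ψ) h2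
    rw [Polynomial.map_sum, Polynomial.map_zero] at h3
    simpa only [Polynomial.map_mul] using h3) i
  exact map_inj (by rw [h1, Polynomial.map_zero])

end Pool.Agent.Work.MP_8d13b5_lc.Fm
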