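import Pool.Agent.Work.MP_8d13b5_lc.Fm.Stmts2

set_option autoImplicit false

/-! Item HDQ of the block Fm: coefficients of a determinant of power series. -/

namespace Pool.Agent.Work.MP_8d13b5_lc.Fm

open Polynomial NumberField Finset Module

namespace HDQ

theorem coeff_det (R : Type) [CommRing R] (k N : ℕ) (M : Fin k → Fin k → PowerSeries R) :
    PowerSeries.coeff N (Matrix.of M).det = ∑ r ∈ finsuppAntidiag (univ : Finset (Fin k)) N,
      (Matrix.of fun i j => PowerSeries.coeff (r i) (M i j)).det := by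
  rw [← Matrix.det_transpose, Matrix.det_apply', map_sum]
  have h : ∀ r : Fin k →₀ ℕ, (Matrix.of fun i j => PowerSeries.coeff (r i) (M i j)).det =
      ∑ σ : Equiv.Perm (Fin k), ((Equiv.Perm.sign σ : ℤ) : R) *
        ∏ i, PowerSeries.coeff (r i) (M i (σ i)) := by
    intro r
    rw [← Matrix.det_transpose, Matrix.det_apply']
    rfl
  simp only [h]
  rw [Finset.sum_comm]
  refine Finset.sum_congr rfl fun σ _ => ?_
  have h2 : (((Equiv.Perm.sign σ : ℤ)) : PowerSeries R) =
      PowerSeries.C (((Equiv.Perm.sign σ : ℤ)) : R) := by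
    rw [map_intCast]
  rw [h2, PowerSeries.coeff_C_mul, ← Finset.mul_sum]
  congr 1
  have h3 := PowerSeries.coeff_prod (fun i => M i (σ i)) N (univ : Finset (Fin k))
  exact h3

end HDQ

theorem prHDQ : StHDQ := by
  intro R _ k N M h
  rw [HDQ.coeff_det] at h
  obtain ⟨r, hr, h2⟩ := Finset.exists_ne_zero_of_sum_ne_zero h
  exact ⟨r, (mem_finsuppAntidiag.mp hr).1, h2⟩

end Pool.Agent.Work.MP_8d13b5_lc.Fm
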