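import Pool.Agent.Work.MP_8d13b5_lc.Fm.StmtsHom
import Pool.Agent.Work.MP_8d13b5_lc.Fm.I_VNZ

set_option autoImplicit false

/-! Item HNZ of the block FMH: zeros of forms. -/

namespace Pool.Agent.Work.MP_8d13b5_lc.Fm

open Polynomial NumberField Finset Module

namespace HNZ

variable {K : Type} [Field K] [NumberField K]

theorem root_le (φ : K →+* ℂ) (P : (𝓞 K)[X]) (x y : 𝓞 K) (h0 : hev P.natDegree P x y = 0)
    (hlc : P.leadingCoeff ≠ 0) (Y : ℝ) (hP : pn (res φ) P ≤ Y) :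
    tt φ x y * ‖res φ P.leadingCoeff‖ ≤ ‖res φ y‖ * Y := by
  have hlcY : ‖res φ P.leadingCoeff‖ ≤ Y := (VNZ.coeff_le φ P _).trans hP
  by_cases hx : ‖res φ x‖ ≤ ‖res φ y‖
  · have h1 : tt φ x y = ‖res φ y‖ := max_eq_right hx
    rw [h1]
    exact mul_le_mul_of_nonneg_left hlcY (norm_nonneg _)
  · have hx1 : ‖res φ y‖ < ‖res φ x‖ := not_le.1 hx
    have h1 : tt φ x y = ‖res φ x‖ := max_eq_left hx1.le
    rw [h1]
    set u := ‖res φ x‖ with hu
    set v := ‖res φ y‖ with hv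
    have hv0 : 0 ≤ v := norm_nonneg _
    have hu0 : 0 < u := lt_of_le_of_lt hv0 hx1
    set n := P.natDegree with hn
    unfold hev at h0
    rw [sum_range_succ, Nat.sub_self, pow_zero, mul_one] at h0
    have hn1 : 1 ≤ n := by
      by_contra hn0
      have hn0' : n = 0 := by omega
      rw [hn0', range_zero, sum_empty, zero_add, pow_zero, mul_one] at h0
      apply hlc
      rw [leadingCoeff, ← hn, hn0', h0]
    have h2 := congrArg (res φ) h0
    rw [map_add, map_sum, map_zero] at h2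
    have h3 : ‖res φ P.leadingCoeff‖ * u ^ n ≤ Y * (u ^ (n - 1) * v) := by
      have h4 : res φ (P.coeff n * x ^ n) =
          -∑ i ∈ range n, res φ (P.coeff i * x ^ i * y ^ (n - i)) :=
        eq_neg_of_add_eq_zero_right h2
      have h5 : ‖res φ P.leadingCoeff‖ * u ^ n = ‖res φ (P.coeff n * x ^ n)‖ := by
        rw [map_mul, map_pow, norm_mul, norm_pow]
        rfl
      rw [h5, h4, norm_neg]
      refine (norm_sum_le _ _).trans ?_
      have h6 : ∀ i ∈ range n, ‖res φ (P.coeff i * x ^ i * y ^ (n - i))‖ ≤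
          ‖res φ (P.coeff i)‖ * (u ^ (n - 1) * v) := by
        intro i hi
        rw [mem_range] at hi
        rw [map_mul, map_mul, map_pow, map_pow, norm_mul, norm_mul, norm_pow, norm_pow, mul_assoc]
        refine mul_le_mul_of_nonneg_left ?_ (norm_nonneg _)
        have e1 : n - i = (n - 1 - i) + 1 := by omega
        have e2 : n - 1 = i + (n - 1 - i) := by omega
        calc u ^ i * v ^ (n - i) = u ^ i * v ^ (n - 1 - i) * v := by
              rw [e1, pow_succ, mul_assoc]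
          _ ≤ u ^ i * u ^ (n - 1 - i) * v := by
              refine mul_le_mul_of_nonneg_right (mul_le_mul_of_nonneg_left
                (pow_le_pow_left₀ hv0 hx1.le _) (by positivity)) hv0
          _ = u ^ (n - 1) * v := by rw [← pow_add, ← e2]
      refine (sum_le_sum h6).trans ?_
      rw [← sum_mul]
      refine mul_le_mul_of_nonneg_right (le_trans ?_ hP) (by positivity)
      unfold pn
      exact sum_le_sum_of_subset_of_nonneg (range_mono (Nat.le_succ _))
        (fun _ _ _ => norm_nonneg _)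
    have h7 : u ^ n = u ^ (n - 1) * u := by
      rw [← pow_succ]
      congr 1
      omega
    rw [h7] at h3
    have hpos : 0 < u ^ (n - 1) := by positivity
    have h8 : u ^ (n - 1) * (u * ‖res φ P.leadingCoeff‖) ≤ u ^ (n - 1) * (v * Y) := by
      calc u ^ (n - 1) * (u * ‖res φ P.leadingCoeff‖) =
          ‖res φ P.leadingCoeff‖ * (u ^ (n - 1) * u) := by ring
        _ ≤ _ := h3
        _ = _ := by ring
    exact le_of_mul_le_mul_left h8 hpos

theorem dvd_lead {R : Type} [CommRing R] (P : R[X]) (x y : R) (hxy : IsCoprime x y)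
    (h0 : hev P.natDegree P x y = 0) : y ∣ P.leadingCoeff := by
  unfold hev at h0
  rw [sum_range_succ, Nat.sub_self, pow_zero, mul_one] at h0
  have h1 : y ∣ ∑ i ∈ range P.natDegree, P.coeff i * x ^ i * y ^ (P.natDegree - i) := by
    refine dvd_sum fun i hi => ?_
    rw [mem_range] at hi
    exact Dvd.dvd.mul_left (dvd_pow_self y (by omega)) _
  have h2 : y ∣ P.coeff P.natDegree * x ^ P.natDegree := by
    rw [eq_neg_of_add_eq_zero_right h0]
    exact (dvd_neg).2 h1
  exact (hxy.symm.pow_right).dvd_of_dvd_mul_right h2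

end HNZ

open HNZ in
theorem prHNZ (hHEV : StHEV) : StHNZ := by
  intro K _ _
  refine ⟨Fintype.card (K →+* ℂ), ?_⟩
  intro p Δ Y hΔ hdeg hY hpn x y hxy hT h0
  have h2Y : Y ^ (Fintype.card (K →+* ℂ)) ≤ (2 * Y) ^ (Fintype.card (K →+* ℂ)) :=
    pow_le_pow_left₀ (by linarith) (by linarith) _
  have h1Y : (1 : ℝ) ≤ (2 * Y) ^ (Fintype.card (K →+* ℂ)) := one_le_pow₀ (by linarith)
  by_cases hy : y = 0
  · subst hy
    have hx : IsUnit x := isCoprime_zero_right.1 hxy
    obtain ⟨x', hx'⟩ := hx.exists_right_inv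
    have hx0 : x ≠ 0 := hx.ne_zero
    have hx'0 : x' ≠ 0 := by
      rintro rfl
      rw [mul_zero] at hx'
      exact zero_ne_one hx'
    have h1 : 1 ≤ ∏ φ : K →+* ℂ, ‖res φ x'‖ := Pd.one_le_prod x' hx'0
    have h2 : (∏ φ : K →+* ℂ, ‖res φ x‖) * ∏ φ : K →+* ℂ, ‖res φ x'‖ = 1 := by
      rw [← prod_mul_distrib]
      refine prod_eq_one fun φ _ => ?_
      rw [← norm_mul, ← map_mul, hx', map_one, norm_one]
    have h3 : TT x 0 = ∏ φ : K →+* ℂ, ‖res φ x‖ := by
      unfold TT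
      refine prod_congr rfl fun φ _ => ?_
      unfold tt
      rw [map_zero, norm_zero]
      exact max_eq_left (norm_nonneg _)
    have h4 : (0 : ℝ) ≤ ∏ φ : K →+* ℂ, ‖res φ x‖ := prod_nonneg fun _ _ => norm_nonneg _
    rw [h3] at hT
    nlinarith
  · have hlc : Δ.leadingCoeff ≠ 0 := leadingCoeff_ne_zero.2 hΔ
    have h1 : hev Δ.natDegree Δ x y = 0 := by
      have h2 := (hHEV.1 (𝓞 K) x y).2.1 Δ.natDegree (p - Δ.natDegree) Δ (C 1) le_rfl (by simp)
      rw [C_1, mul_one, Nat.add_sub_cancel' hdeg, h0, ← C_1, (hHEV.1 (𝓞 K) x y).2.2.2.1,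
        one_mul] at h2
      rcases mul_eq_zero.1 h2.symm with h3 | h3
      · exact h3
      · exact absurd (eq_zero_of_pow_eq_zero h3) hy
    obtain ⟨b, hb⟩ := dvd_lead Δ x y hxy h1
    have hb0 : b ≠ 0 := by
      rintro rfl
      rw [mul_zero] at hb
      exact hlc hb
    have h2 : 1 ≤ ∏ φ : K →+* ℂ, ‖res φ b‖ := Pd.one_le_prod b hb0
    have h3 : ∏ φ : K →+* ℂ, ‖res φ y‖ ≤ ∏ φ : K →+* ℂ, ‖res φ Δ.leadingCoeff‖ := by
      have h4 : ∏ φ : K →+* ℂ, ‖res φ Δ.leadingCoeff‖ =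
          (∏ φ : K →+* ℂ, ‖res φ y‖) * ∏ φ : K →+* ℂ, ‖res φ b‖ := by
        rw [← prod_mul_distrib]
        exact prod_congr rfl fun φ _ => by rw [hb, map_mul, norm_mul]
      rw [h4]
      exact le_mul_of_one_le_right (prod_nonneg fun _ _ => norm_nonneg _) h2
    have h5 : TT x y * ∏ φ : K →+* ℂ, ‖res φ Δ.leadingCoeff‖ ≤
        (∏ φ : K →+* ℂ, ‖res φ y‖) * Y ^ (Fintype.card (K →+* ℂ)) := by
      unfold TT
      rw [← prod_mul_distrib]
      have h6 : (∏ φ : K →+* ℂ, ‖res φ y‖) * Y ^ (Fintype.card (K →+* ℂ)) =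
          ∏ φ : K →+* ℂ, (‖res φ y‖ * Y) := by
        rw [prod_mul_distrib, prod_const, card_univ]
      rw [h6]
      refine prod_le_prod (fun φ _ => mul_nonneg ((norm_nonneg _).trans (le_max_left _ _))
        (norm_nonneg _)) fun φ _ => ?_
      exact root_le φ Δ x y h1 hlc Y (hpn φ)
    have h7 : 1 ≤ ∏ φ : K →+* ℂ, ‖res φ Δ.leadingCoeff‖ := Pd.one_le_prod _ hlc
    have h8 : TT x y * ∏ φ : K →+* ℂ, ‖res φ Δ.leadingCoeff‖ ≤
        Y ^ (Fintype.card (K →+* ℂ)) * ∏ φ : K →+* ℂ, ‖res φ Δ.leadingCoeff‖ := by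
      refine h5.trans ?_
      rw [mul_comm]
      exact mul_le_mul_of_nonneg_left h3 (by positivity)
    have h9 : TT x y ≤ Y ^ (Fintype.card (K →+* ℂ)) := le_of_mul_le_mul_right h8 (by linarith)
    linarith

end Pool.Agent.Work.MP_8d13b5_lc.Fm
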