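import Pool.Agent.Work.MP_8d13b5_lc.Fm.Stmts2

set_option autoImplicit false

/-! Block FM2, item ID2. -/

namespace Pool.Agent.Work.MP_8d13b5_lc.Fm

open Polynomial NumberField Finset Module

namespace ID2

theorem sum_pow_mem {ι : Type} {S : Type} [CommRing S] (I : Ideal S) (N : ℕ) (f : ι → S)
    (s : Finset ι) (hs : s.Nonempty) (h : ∀ i ∈ s, f i ^ N ∈ I) :
    (∑ i ∈ s, f i) ^ (s.card * N) ∈ I := by
  induction hs using Finset.Nonempty.cons_induction with
  | singleton a =>
    rw [Finset.sum_singleton, Finset.card_singleton, one_mul]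
    exact h a (Finset.mem_singleton_self a)
  | cons a s ha hs ih =>
    rw [Finset.sum_cons, Finset.card_cons]
    have h1 := h a (Finset.mem_cons_self a s)
    have h2 := ih fun i hi => h i (Finset.mem_cons_of_mem hi)
    refine I.add_pow_mem_of_pow_mem_of_le h1 h2 ?_
    rw [add_mul, one_mul]
    omega

end ID2

theorem prID2 (hCOE : StCOE) : StID2 := by
  intro S _ m n F A c hF hd hc
  set I : Ideal S := Ideal.span (Set.range fun j : Fin (m + 1) => Pd.cf F n (j : ℕ)) with hI
  have hcf : ∀ j < m + 1, Pd.cf F n j ∈ I := fun j hj =>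
    Ideal.subset_span ⟨⟨j, hj⟩, rfl⟩
  have h1 := hCOE (m + 1) S F n I hF hd hcf
  have h2 : c ^ ((m + 1) ^ 2 * n) ∈ I := by
    have h3 := ID2.sum_pow_mem I ((m + 1) * n) (fun i : Fin (m + 1) => A i * F.coeff (i : ℕ))
      Finset.univ ⟨0, Finset.mem_univ _⟩ (by
        intro i _
        rw [mul_pow]
        exact I.mul_mem_left _ (h1 i i.2))
    rw [hc, Finset.card_univ, Fintype.card_fin] at h3
    rw [pow_two, mul_assoc]
    exact h3
  rw [hI, Ideal.mem_span_range_iff_exists_fun] at h2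
  obtain ⟨b, hb⟩ := h2
  exact ⟨b, hb⟩

end Pool.Agent.Work.MP_8d13b5_lc.Fm
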