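import Pool.Agent.Work.MP_8d13b5_lc.Fm.Stmts
import Pool.Agent.Work.MP_8d13b5_lc.Pd.NF

set_option autoImplicit false

/-! # MP_8d13b5_lc, block Fm, item NVF: the values of the forms are not zero. Author helper78. -/

namespace Pool.Agent.Work.MP_8d13b5_lc.Fm

open Polynomial NumberField Finset Module

namespace NVF

variable {K : Type} [Field K] [NumberField K]

theorem one_le (w : 𝓞 K) (hw : w ≠ 0) : 1 ≤ ∏ φ : K →+* ℂ, ‖res φ w‖ :=
  Pd.one_le_prod w hw

theorem tt_nonneg (φ : K →+* ℂ) (x y : 𝓞 K) : 0 ≤ tt φ x y :=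
  (norm_nonneg _).trans (le_max_left _ _)

theorem TT_nonneg (x y : 𝓞 K) : 0 ≤ TT x y := prod_nonneg fun φ _ => tt_nonneg φ x y

theorem TT_mul (x y w : 𝓞 K) : TT (x * w) (y * w) = TT x y * ∏ φ : K →+* ℂ, ‖res φ w‖ := by
  unfold TT
  rw [← prod_mul_distrib]
  refine prod_congr rfl fun φ _ => ?_
  unfold tt
  rw [map_mul, map_mul, norm_mul, norm_mul, max_mul_of_nonneg _ _ (norm_nonneg _)]

theorem TT_le_mul (x y w : 𝓞 K) (hw : w ≠ 0) : TT x y ≤ TT (x * w) (y * w) := by
  rw [TT_mul]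
  exact le_mul_of_one_le_right (TT_nonneg x y) (one_le w hw)

theorem TT_unit (x x' : 𝓞 K) (h : x' * x = 1) : TT x 0 ≤ 1 := by
  have hx' : x' ≠ 0 := by
    rintro rfl
    simp at h
  have h1 := TT_le_mul x 0 x' hx'
  rw [zero_mul, mul_comm x x', h] at h1
  refine h1.trans (le_of_eq ?_)
  unfold TT tt
  simp

end NVF

open NVF in
theorem prNVF (hHEV : StHEV) : StNVF := by
  intro K _ _ e lam hlam hdeg
  classical
  obtain ⟨-, h2, h3, -⟩ := hHEV
  have hinj : Function.Injective (algebraMap (𝓞 K) K) := RingOfIntegers.coe_injective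
  set p : K[X] := lam.map (algebraMap (𝓞 K) K) with hp
  have hp0 : p ≠ 0 := (Polynomial.map_ne_zero_iff hinj).2 hlam
  have hch : ∀ t : K, ∃ u v : 𝓞 K, v ≠ 0 ∧ t * algebraMap (𝓞 K) K v = algebraMap (𝓞 K) K u := by
    intro t
    obtain ⟨u, v, hv, huv⟩ := IsFractionRing.div_surjective (A := 𝓞 K) t
    have hv0 : v ≠ 0 := nonZeroDivisors.ne_zero hv
    refine ⟨u, v, hv0, ?_⟩
    have hv1 : algebraMap (𝓞 K) K v ≠ 0 := fun h => hv0 ((map_eq_zero_iff _ hinj).1 h)
    rw [← huv, div_mul_cancel₀ _ hv1]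
  choose u v hv huv using hch
  refine ⟨1 + ∑ t ∈ p.roots.toFinset, TT (u t) (v t), ?_⟩
  intro x y hxy hT hzero
  have hsum : 0 ≤ ∑ t ∈ p.roots.toFinset, TT (u t) (v t) :=
    sum_nonneg fun t _ => TT_nonneg _ _
  obtain ⟨a, b, hab⟩ := hxy
  by_cases hy : y = 0
  · subst hy
    rw [mul_zero, add_zero] at hab
    have := TT_unit x a hab
    linarith
  have hy1 : algebraMap (𝓞 K) K y ≠ 0 := fun h => hy ((map_eq_zero_iff _ hinj).1 h)
  set t : K := algebraMap (𝓞 K) K x / algebraMap (𝓞 K) K y with ht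
  have hroot : p.eval t = 0 := by
    have e1 := h3 (𝓞 K) K (algebraMap (𝓞 K) K) e lam x y
    rw [hzero, map_zero, h2 K e p _ _ hy1 (natDegree_map_le.trans hdeg)] at e1
    exact (mul_eq_zero.1 e1.symm).resolve_left (pow_ne_zero _ hy1)
  have hmem : t ∈ p.roots.toFinset := by
    rw [Multiset.mem_toFinset, mem_roots hp0]
    exact hroot
  have hle : TT (u t) (v t) ≤ ∑ t ∈ p.roots.toFinset, TT (u t) (v t) :=
    single_le_sum (f := fun t => TT (u t) (v t)) (fun t _ => TT_nonneg _ _) hmem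
  have hrel : x * v t = u t * y := by
    apply hinj
    rw [map_mul, map_mul, ← huv t, ht]
    field_simp
  set w : 𝓞 K := a * u t + b * v t with hw
  have hyw : y * w = v t := by
    calc y * w = a * (u t * y) + b * y * v t := by rw [hw]; ring
      _ = (a * x + b * y) * v t := by rw [← hrel]; ring
      _ = v t := by rw [hab, one_mul]
  have hxw : x * w = u t := by
    calc x * w = a * x * u t + b * (x * v t) := by rw [hw]; ring
      _ = (a * x + b * y) * u t := by rw [hrel]; ring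
      _ = u t := by rw [hab, one_mul]
  have hw0 : w ≠ 0 := by
    intro h0
    rw [h0, mul_zero] at hyw
    exact hv t hyw.symm
  have hfin := TT_le_mul x y w hw0
  rw [hxw, hyw] at hfin
  linarith

end Pool.Agent.Work.MP_8d13b5_lc.Fm
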