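import Pool.Agent.Work.MP_8d13b5_lc.Fm.StmtsFz

set_option autoImplicit false

/-!
Item RZA of block FMZ: descent of the structure of a general family to a number field.
-/

namespace Pool.Agent.Work.MP_8d13b5_lc.Fm

open Polynomial NumberField Finset Module

namespace RZA

theorem algQ (x : Ab) : IsAlgebraic ℚ x := (AlgebraicClosure.isAlgebraic ℚ).isAlgebraic x

/-- the number field generated by finitely many algebraic numbers -/
theorem numberField_adjoin (S : Finset Ab) :
    NumberField (IntermediateField.adjoin ℚ (S : Set Ab)) := by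
  have h : FiniteDimensional ℚ (IntermediateField.adjoin ℚ (S : Set Ab)) :=
    IntermediateField.finiteDimensional_adjoin fun x _ => (algQ x).isIntegral
  exact @NumberField.mk _ _ inferInstance h

/-- the integers of an intermediate field in the ring of algebraic integers -/
noncomputable def io (L : IntermediateField ℚ Ab) : 𝓞 L →+* Zb :=
  RingHom.codRestrict ((algebraMap L Ab).comp (algebraMap (𝓞 L) L)) (integralClosure ℤ Ab) (by
    intro x
    have h1 : IsIntegral ℤ (algebraMap (𝓞 L) L x) := RingOfIntegers.isIntegral_coe x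
    exact h1.map (algebraMap L Ab).toIntAlgHom)

theorem io_apply (L : IntermediateField ℚ Ab) (x : 𝓞 L) :
    algebraMap Zb Ab (io L x) = algebraMap L Ab (algebraMap (𝓞 L) L x) := rfl

theorem io_inj (L : IntermediateField ℚ Ab) : Function.Injective (io L) := by
  intro x y h
  have h1 := congrArg (algebraMap Zb Ab) h
  rw [io_apply, io_apply] at h1
  exact RingOfIntegers.coe_injective ((algebraMap L Ab).injective h1)

theorem mem_io (L : IntermediateField ℚ Ab) (z : Zb) (hz : algebraMap Zb Ab z ∈ L) :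
    ∃ y : 𝓞 L, io L y = z := by
  have h1 : IsIntegral ℤ (⟨algebraMap Zb Ab z, hz⟩ : L) := by
    have h2 : IsIntegral ℤ ((algebraMap L Ab) (⟨algebraMap Zb Ab z, hz⟩ : L)) := z.2
    exact (isIntegral_algebraMap_iff (algebraMap L Ab).injective).1 h2
  refine ⟨⟨⟨algebraMap Zb Ab z, hz⟩, h1⟩, ?_⟩
  apply Subtype.ext
  rfl

/-- the embedding of `Ab[t]` in `ℂ(t)` -/
noncomputable def hh (ψ : Ab →+* ℂ) : Ab[X] →+* RatFunc ℂ :=
  (algebraMap ℂ[X] (RatFunc ℂ)).comp (mapRingHom ψ)

theorem hh_inj (ψ : Ab →+* ℂ) : Function.Injective (hh ψ) := by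
  intro x y h
  have h1 : mapRingHom ψ x = mapRingHom ψ y := IsFractionRing.injective ℂ[X] (RatFunc ℂ) h
  exact Polynomial.map_injective ψ ψ.injective h1

theorem hh_C (ψ : Ab →+* ℂ) (c : Ab) : hh ψ (C c) = algebraMap ℂ (RatFunc ℂ) (ψ c) := by
  unfold hh
  rw [RingHom.comp_apply, coe_mapRingHom, Polynomial.map_C,
    IsScalarTower.algebraMap_apply ℂ ℂ[X] (RatFunc ℂ), Polynomial.algebraMap_eq]

theorem cop {A B : Type} [CommRing A] [IsDomain A] [Field B] (h : A →+* B)
    (hi : Function.Injective h) (P Q : A[X]) (hP : P ≠ 0) (hr : resultant P Q ≠ 0) :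
    IsCoprime (P.map h) (Q.map h) := by
  by_contra hn
  have h1 : resultant (P.map h) (Q.map h) = 0 :=
    resultant_eq_zero_iff.2 ⟨Or.inl ((Polynomial.map_ne_zero_iff hi).2 hP), hn⟩
  rw [natDegree_map_eq_of_injective hi, natDegree_map_eq_of_injective hi, resultant_map_map] at h1
  exact hr (hi (h1.trans (map_zero h).symm))

theorem nonConst (hRSC : StRSC) {K : Type} [Field K] [NumberField K] (j : 𝓞 K →+* Ab)
    (hj : Function.Injective j) (ψ : Ab →+* ℂ) (φ : K →+* ℂ) (hφ : res φ = ψ.comp j)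
    (G : (𝓞 K)[X][X]) (hG : G.Monic) (hG0 : G.coeff 0 ≠ 0)
    (h1 : resultant (G.map (mapRingHom j)) (derivative (G.map (mapRingHom j))) ≠ 0)
    (h2 : ∀ c : Ab, c ≠ 0 → c ≠ 1 → resultant (G.map (mapRingHom j))
        ((G.map (mapRingHom j)).scaleRoots (C c)) ≠ 0) :
    NonConst (G.map (mapRingHom (res φ))) := by
  have hM : (G.map (mapRingHom j)).Monic := hG.map _
  have e1 : (G.map (mapRingHom (res φ))).map (algebraMap ℂ[X] (RatFunc ℂ)) =
      (G.map (mapRingHom j)).map (hh ψ) := by
    rw [Polynomial.map_map, Polynomial.map_map]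
    congr 1
    unfold hh
    rw [RingHom.comp_assoc, hφ]
    congr 1
    apply RingHom.ext
    intro x
    rw [RingHom.comp_apply, coe_mapRingHom, coe_mapRingHom, coe_mapRingHom, Polynomial.map_map]
  refine ⟨?_, ?_⟩
  · rw [e1, Polynomial.Separable, derivative_map]
    exact cop _ (hh_inj ψ) _ _ hM.ne_zero h1
  · intro c hc0 hc1
    have hMC : (G.map (mapRingHom (res φ))).Monic := hG.map _
    have e2 : ((G.map (mapRingHom (res φ))).scaleRoots (C c)).map (algebraMap ℂ[X] (RatFunc ℂ)) =
        ((G.map (mapRingHom j)).map (hh ψ)).scaleRoots (algebraMap ℂ (RatFunc ℂ) c) := by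
      rw [map_scaleRoots _ _ _ (by rw [hMC.leadingCoeff, map_one]; exact one_ne_zero), e1]
      congr 1
    rw [e1, e2]
    by_contra hn
    obtain ⟨s, hs⟩ := hRSC G.natDegree
    have hres : Function.Injective (res φ) := by
      rw [hφ]
      exact ψ.injective.comp hj
    obtain ⟨ρ, hρ0, -, hρ⟩ := hs (𝓞 K) (res φ) G hres hG rfl hG0
    have e3 : hatR (res φ) G = (G.map (mapRingHom j)).map (hh ψ) := by
      rw [← e1, Polynomial.map_map]
      rfl
    have h3 : ρ.eval₂ (res φ) c = 0 := hρ c (by rw [e3]; exact hn)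
    have h4 : ((ρ.map j).map ψ).IsRoot c := by
      rw [Polynomial.map_map, ← hφ, IsRoot.def, eval_map]
      exact h3
    obtain ⟨c', rfl⟩ := (IsAlgClosed.splits (ρ.map j)).mem_range_of_isRoot
      ((Polynomial.map_ne_zero_iff hj).2 hρ0) h4
    have hc0' : c' ≠ 0 := by
      rintro rfl
      exact hc0 (map_zero ψ)
    have hc1' : c' ≠ 1 := by
      rintro rfl
      exact hc1 (map_one ψ)
    have h5 := cop _ (hh_inj ψ) _ _ hM.ne_zero (h2 c' hc0' hc1')
    rw [map_scaleRoots _ _ _ (by rw [hM.leadingCoeff, map_one]; exact one_ne_zero), hh_C] at h5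
    exact hn h5

end RZA

theorem prRZA (hRZB : StRZB) (hRSC : StRSC) : StRZA := by
  classical
  intro F hF hFd hF0
  obtain ⟨N, D, r, k, θ, G, hN, hD, hθ, hG, hGd, hG0, hr1, hr2, hdvd⟩ := hRZB F hF hFd hF0
  set S : Finset Ab := ((range (G.natDegree + 1)).biUnion fun i =>
    (range ((G.coeff i).natDegree + 1)).image fun l => algebraMap Zb Ab ((G.coeff i).coeff l)) ∪
      Finset.univ.image fun j => algebraMap Zb Ab (θ j) with hS
  set L : IntermediateField ℚ Ab := IntermediateField.adjoin ℚ (S : Set Ab) with hL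
  have hSL : ∀ x ∈ S, x ∈ L := fun x hx => IntermediateField.subset_adjoin ℚ _ hx
  have hθL : ∀ j, algebraMap Zb Ab (θ j) ∈ L := fun j =>
    hSL _ (Finset.mem_union_right _ (Finset.mem_image_of_mem _ (Finset.mem_univ j)))
  have hGL : ∀ i l, algebraMap Zb Ab ((G.coeff i).coeff l) ∈ L := by
    intro i l
    by_cases hi : i < G.natDegree + 1
    · by_cases hl : l < (G.coeff i).natDegree + 1
      · refine hSL _ (Finset.mem_union_left _ (Finset.mem_biUnion.2 ⟨i, Finset.mem_range.2 hi, ?_⟩))
        exact Finset.mem_image_of_mem _ (Finset.mem_range.2 hl)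
      · rw [coeff_eq_zero_of_natDegree_lt (by omega), map_zero]
        exact L.zero_mem
    · rw [coeff_eq_zero_of_natDegree_lt (p := G) (by omega), coeff_zero, map_zero]
      exact L.zero_mem
  have hNF : NumberField L := RZA.numberField_adjoin S
  have hio := RZA.io_inj L
  choose θ' hθ' using fun j => RZA.mem_io L (θ j) (hθL j)
  have hlift : G ∈ lifts (mapRingHom (RZA.io L)) := by
    rw [lifts_iff_coeff_lifts]
    intro i
    have h1 : G.coeff i ∈ lifts (RZA.io L) := by
      rw [lifts_iff_coeff_lifts]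
      intro l
      exact RZA.mem_io L _ (hGL i l)
    rw [mem_lifts] at h1
    obtain ⟨q, hq⟩ := h1
    exact ⟨q, hq⟩
  rw [mem_lifts] at hlift
  obtain ⟨G', hG'⟩ := hlift
  have hmi : Function.Injective (mapRingHom (RZA.io L)) := Polynomial.map_injective _ hio
  have hG'm : G'.Monic := monic_of_injective hmi (by rw [hG']; exact hG)
  have hG'd : G'.natDegree = k + 1 := by
    rw [← hGd, ← hG', natDegree_map_eq_of_injective hmi]
  have hG'0 : G'.coeff 0 ≠ 0 := by
    intro h
    apply hG0
    rw [← hG', coeff_map, h, map_zero]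
  have hθ'0 : ∀ j, θ' j ≠ 0 := by
    intro j h
    apply hθ j
    rw [← hθ' j, h, map_zero]
  set j : 𝓞 L →+* Ab := (algebraMap Zb Ab).comp (RZA.io L) with hj
  have hji : Function.Injective j := Subtype.val_injective.comp hio
  have hGj : G'.map (mapRingHom j) = G.map (mapRingHom (algebraMap Zb Ab)) := by
    rw [← hG', Polynomial.map_map]
    congr 1
    apply RingHom.ext
    intro x
    rw [RingHom.comp_apply, coe_mapRingHom, coe_mapRingHom, coe_mapRingHom, Polynomial.map_map]
  have hAlg : Algebra.IsAlgebraic ℚ Ab := ⟨RZA.algQ⟩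
  let ψ : Ab →+* ℂ := (IsAlgClosed.lift (R := ℚ) (S := Ab) (M := ℂ)).toRingHom
  refine ⟨L, inferInstance, hNF, N, D, r, k, θ', G', hN, hD, hθ'0, hG'm, hG'd, hG'0,
    ⟨ψ.comp (algebraMap L Ab), ?_⟩, ?_⟩
  · refine RZA.nonConst hRSC j hji ψ _ ?_ G' hG'm hG'0 ?_ ?_
    · rfl
    · rw [hGj]
      exact hr1
    · rw [hGj]
      exact hr2
  · have hFm : (F.map (mapRingHom (algebraMap ℤ (𝓞 L)))).Monic := hF.map _
    rw [← Polynomial.map_dvd_map _ hmi ((monic_scaleRoots_iff _).2 hFm), map_expand,
      Polynomial.map_prod, map_scaleRoots _ _ _ (by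
        rw [hFm.leadingCoeff, map_one]; exact one_ne_zero), Polynomial.map_map]
    have e1 : (mapRingHom (RZA.io L)).comp (mapRingHom (algebraMap ℤ (𝓞 L))) =
        mapRingHom (algebraMap ℤ Zb) := by
      apply RingHom.ext
      intro x
      rw [RingHom.comp_apply, coe_mapRingHom, coe_mapRingHom, coe_mapRingHom, Polynomial.map_map,
        Subsingleton.elim ((RZA.io L).comp (algebraMap ℤ (𝓞 L))) (algebraMap ℤ Zb)]
    have e2 : mapRingHom (RZA.io L) (C (D : 𝓞 L)) = C (D : Zb) := by
      rw [coe_mapRingHom, Polynomial.map_C, map_natCast]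
    have e3 : ∀ i, (G'.scaleRoots (C (θ' i))).map (mapRingHom (RZA.io L)) =
        G.scaleRoots (C (θ i)) := by
      intro i
      rw [map_scaleRoots _ _ _ (by rw [hG'm.leadingCoeff, map_one]; exact one_ne_zero), hG',
        coe_mapRingHom, Polynomial.map_C, hθ']
    rw [e1, e2, Finset.prod_congr rfl fun i _ => e3 i]
    exact hdvd

end Pool.Agent.Work.MP_8d13b5_lc.Fm
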