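import Pool.Agent.Work.MP_8d13b5_lc.Fm.Stmts

set_option autoImplicit false

/-!
# Block Fm, item SEQ: the zeros are zeros of all the parts
-/

namespace Pool.Agent.Work.MP_8d13b5_lc.Fm

open Polynomial NumberField Finset Module

namespace SEQ

theorem pn_nonneg {R : Type} [CommRing R] (φ : R →+* ℂ) (P : R[X]) : 0 ≤ pn φ P :=
  Finset.sum_nonneg fun _ _ => norm_nonneg _

/-- the real inequality at the end -/
theorem fin_ineq (C₁ A Λ B T HHa P : ℝ) (m n k D d2 κ : ℕ) (hC₁ : 1 ≤ C₁) (hA : 1 ≤ A)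
    (hΛ : 1 ≤ Λ) (hB : 1 ≤ B) (hT : 1 ≤ T)
    (hP : 0 ≤ P) (hPle : P ≤ (m + 1) * (A ^ (n + 1) * (Λ * T ^ κ) ^ d2 * B))
    (hHH0 : 0 ≤ HHa) (hHH : HHa ≤ P ^ D)
    (hC₂ : ((C₁ * ((m + 1) * A * Λ ^ d2) ^ D) ^ (2 * m)) ^ 2 ≤ T)
    (hmain : T ^ n ≤ (C₁ ^ (n + 1) * T ^ k * HHa) ^ (2 * m)) :
    T ^ n ≤ (B * T) ^ (2 * (2 * m * (k + κ * d2 * D + D)) + 1) := by
  have hT0 : 0 < T := by linarith
  have hB0 : 0 < B := by linarith
  have hA0 : 0 < A := by linarith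
  have hΛ0 : 0 < Λ := by linarith
  have hC0 : 0 < C₁ := by linarith
  have hm1 : (1 : ℝ) ≤ (m : ℝ) + 1 := by
    have : (0 : ℝ) ≤ m := Nat.cast_nonneg m
    linarith
  have hm0 : (0 : ℝ) < (m : ℝ) + 1 := by linarith
  obtain ⟨E, hE⟩ : ∃ E : ℝ, E = (m + 1) * A * Λ ^ d2 := ⟨_, rfl⟩
  rw [← hE] at hC₂
  have hE1 : 1 ≤ E := by
    rw [hE]
    have h1 : 1 ≤ ((m : ℝ) + 1) * A := one_le_mul_of_one_le_of_one_le hm1 hA
    exact one_le_mul_of_one_le_of_one_le h1 (one_le_pow₀ hΛ)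
  have hE0 : 0 < E := by linarith
  obtain ⟨C₃, hC₃⟩ : ∃ C₃ : ℝ, C₃ = C₁ * E ^ D := ⟨_, rfl⟩
  rw [← hC₃] at hC₂
  have hC₃1 : 1 ≤ C₃ := by
    rw [hC₃]
    exact one_le_mul_of_one_le_of_one_le hC₁ (one_le_pow₀ hE1)
  have hC₃0 : 0 < C₃ := by linarith
  -- the bound of `P`
  have h1 : P ≤ E ^ (n + 1) * (T ^ (κ * d2) * B) := by
    refine hPle.trans ?_
    have e1 : ((m : ℝ) + 1) * (A ^ (n + 1) * (Λ * T ^ κ) ^ d2 * B) =
        (((m : ℝ) + 1) * A ^ (n + 1) * Λ ^ d2) * (T ^ (κ * d2) * B) := by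
      rw [mul_pow Λ, ← pow_mul]
      ring
    rw [e1]
    refine mul_le_mul_of_nonneg_right ?_ (by positivity)
    rw [hE, mul_pow, mul_pow]
    have h2 : ((m : ℝ) + 1) ≤ ((m : ℝ) + 1) ^ (n + 1) := le_self_pow₀ hm1 (by omega)
    have h3 : Λ ^ d2 ≤ (Λ ^ d2) ^ (n + 1) := le_self_pow₀ (one_le_pow₀ hΛ) (by omega)
    exact mul_le_mul (mul_le_mul_of_nonneg_right h2 (by positivity)) h3 (by positivity)
      (by positivity)
  have h2 : HHa ≤ (E ^ D) ^ (n + 1) * (T ^ (κ * d2 * D) * B ^ D) := by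
    refine hHH.trans ((pow_le_pow_left₀ hP h1 D).trans (le_of_eq ?_))
    rw [mul_pow, mul_pow (T ^ (κ * d2)) B, ← pow_mul, ← pow_mul, ← pow_mul, mul_comm (n + 1) D]
  have h3 : C₁ ^ (n + 1) * T ^ k * HHa ≤ C₃ ^ (n + 1) * (B * T) ^ (k + κ * d2 * D + D) := by
    have h4 : T ^ k * (T ^ (κ * d2 * D) * B ^ D) ≤ (B * T) ^ (k + κ * d2 * D + D) := by
      have h5 : T ≤ B * T := le_mul_of_one_le_left hT0.le hB
      have h6 : B ≤ B * T := le_mul_of_one_le_right hB0.le hT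
      rw [pow_add, pow_add, ← mul_assoc]
      exact mul_le_mul (mul_le_mul (pow_le_pow_left₀ hT0.le h5 _) (pow_le_pow_left₀ hT0.le h5 _)
        (by positivity) (by positivity)) (pow_le_pow_left₀ hB0.le h6 _) (by positivity)
        (by positivity)
    calc C₁ ^ (n + 1) * T ^ k * HHa
        ≤ C₁ ^ (n + 1) * T ^ k * ((E ^ D) ^ (n + 1) * (T ^ (κ * d2 * D) * B ^ D)) :=
          mul_le_mul_of_nonneg_left h2 (by positivity)
      _ = C₃ ^ (n + 1) * (T ^ k * (T ^ (κ * d2 * D) * B ^ D)) := by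
          rw [hC₃, mul_pow C₁]
          ring
      _ ≤ _ := mul_le_mul_of_nonneg_left h4 (by positivity)
  obtain ⟨Q, hQ⟩ : ∃ Q : ℕ, Q = k + κ * d2 * D + D := ⟨_, rfl⟩
  rw [← hQ] at h3 ⊢
  have h4 : T ^ n ≤ (C₃ ^ (2 * m)) ^ (n + 1) * (B * T) ^ (2 * m * Q) := by
    refine hmain.trans ((pow_le_pow_left₀ (by positivity) h3 _).trans (le_of_eq ?_))
    rw [mul_pow, ← pow_mul, ← pow_mul, ← pow_mul]
    congr 2 <;> ring
  obtain ⟨C₂, hC₂'⟩ : ∃ C₂ : ℝ, C₂ = C₃ ^ (2 * m) := ⟨_, rfl⟩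
  rw [← hC₂'] at hC₂ h4
  have hC₂0 : 0 < C₂ := by
    rw [hC₂']
    positivity
  have hBT : 1 ≤ B * T := one_le_mul_of_one_le_of_one_le hB hT
  have h5 : T ^ n * T ^ n ≤ T ^ n * (T * (B * T) ^ (2 * (2 * m * Q))) := by
    calc T ^ n * T ^ n ≤ (C₂ ^ (n + 1) * (B * T) ^ (2 * m * Q)) *
          (C₂ ^ (n + 1) * (B * T) ^ (2 * m * Q)) :=
          mul_le_mul h4 h4 (by positivity) (by positivity)
      _ = (C₂ ^ 2) ^ (n + 1) * (B * T) ^ (2 * (2 * m * Q)) := by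
          rw [← pow_mul C₂, two_mul (2 * m * Q), pow_add (B * T), two_mul (n + 1), pow_add C₂]
          ring
      _ ≤ T ^ (n + 1) * (B * T) ^ (2 * (2 * m * Q)) :=
          mul_le_mul_of_nonneg_right (pow_le_pow_left₀ (by positivity) hC₂ _) (by positivity)
      _ = _ := by rw [pow_succ]; ring
  have h6 : T ^ n ≤ T * (B * T) ^ (2 * (2 * m * Q)) :=
    le_of_mul_le_mul_left h5 (by positivity)
  refine h6.trans ?_
  rw [pow_succ, mul_comm T]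
  refine mul_le_mul_of_nonneg_left ?_ (by positivity)
  exact le_mul_of_one_le_left hT0.le hB

end SEQ

open SEQ in
theorem prSEQ (hTHM : StTHM) (hKER : StKER) (hADJ : StADJ) (hHEV : StHEV) : StSEQ := by
  intro K _ _ m e ν lam f hm hlam hf
  obtain ⟨C₁, hC₁, H1⟩ := hTHM K m e lam hm hlam 1
  obtain ⟨T₁, hT₁, H2⟩ := hKER K m e lam f hm hlam hf
  obtain ⟨A, hA, H3⟩ := hADJ K m f (fun j => (hf j).1)
  obtain ⟨Λ, hΛ, hΛ'⟩ : ∃ Λ : ℝ, 1 ≤ Λ ∧ ∀ (φ : K →+* ℂ) j, pn (res φ) (lam j) ≤ Λ := by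
    refine ⟨1 + ∑ φ : K →+* ℂ, ∑ j, pn (res φ) (lam j), ?_, ?_⟩
    · have : 0 ≤ ∑ φ : K →+* ℂ, ∑ j, pn (res φ) (lam j) :=
        Finset.sum_nonneg fun _ _ => Finset.sum_nonneg fun _ _ => pn_nonneg _ _
      linarith
    · intro φ j
      have h1 : pn (res φ) (lam j) ≤ ∑ j, pn (res φ) (lam j) :=
        Finset.single_le_sum (f := fun j => pn (res φ) (lam j)) (fun _ _ => pn_nonneg _ _)
          (Finset.mem_univ j)
      have h2 : ∑ j, pn (res φ) (lam j) ≤ ∑ φ : K →+* ℂ, ∑ j, pn (res φ) (lam j) :=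
        Finset.single_le_sum (f := fun φ : K →+* ℂ => ∑ j, pn (res φ) (lam j))
          (fun _ _ => Finset.sum_nonneg fun _ _ => pn_nonneg _ _) (Finset.mem_univ φ)
      linarith
  set d : ℕ := ∑ j, (f j).natDegree with hd
  set D : ℕ := Fintype.card (K →+* ℂ) with hD
  set C₂ : ℝ := (C₁ * (((m : ℝ) + 1) * A * Λ ^ (d ^ 2)) ^ D) ^ (2 * m) with hC₂
  refine ⟨max T₁ (C₂ ^ 2), 2 * (2 * m * (m * e + ν * e * d ^ 2 * D + D)) + 1,
    hT₁.trans (le_max_left _ _), ?_⟩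
  intro x y hxy hne hT hν s z B hB hs hz hzB n hn hzn
  set T : ℝ := TT x y with hTdef
  have hT1 : T₁ ≤ T := (le_max_left _ _).trans hT
  have hT2 : C₂ ^ 2 ≤ T := (le_max_right _ _).trans hT
  have hT3 : 1 ≤ T := hT₁.trans hT1
  by_contra hcon
  push Not at hcon
  obtain ⟨j₀, hj₀⟩ := hcon
  have hb1 : 1 ≤ Λ * T ^ (ν * e) := one_le_mul_of_one_le_of_one_le hΛ (one_le_pow₀ hT3)
  have hbφ : ∀ (φ : K →+* ℂ) j, ‖res φ (hev e (lam j) x y)‖ ≤ Λ * T ^ (ν * e) := by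
    intro φ j
    refine (hHEV.2.2.2 (𝓞 K) (res φ) e (lam j) x y (hlam.deg j)).trans ?_
    have h0 : 0 ≤ tt φ x y := le_max_of_le_left (norm_nonneg _)
    have h1 : (max ‖res φ x‖ ‖res φ y‖) ^ e ≤ T ^ (ν * e) := by
      rw [pow_mul]
      exact pow_le_pow_left₀ h0 (hν φ) e
    exact mul_le_mul (hΛ' φ j) h1 (pow_nonneg h0 _) (by linarith)
  obtain ⟨δ, hδ, Hδ⟩ := H3 (fun j => hev e (lam j) x y)
    (fun s' hs' h0 => H2 x y hxy hne hT1 s' hs' h0) s z (fun _ => Λ * T ^ (ν * e)) B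
    (zero_le_one.trans hB) hs hz
    (fun φ => ⟨hb1, hbφ φ⟩) hzB
  obtain ⟨a, ha, hab⟩ := Hδ n
  have ha0 : a ≠ 0 := by
    intro h
    have h1 := ha j₀
    rw [h] at h1
    have h2 : ((0 : 𝓞 K) : K) = (δ : K) * s j₀ n := h1
    have h3 : (δ : K) ≠ 0 := by exact_mod_cast hδ
    have h4 : (δ : K) * s j₀ n = 0 := by rw [← h2]; simp
    exact (mul_ne_zero h3 hj₀) h4
  have hsum : ∑ j, a j * hev e (lam j) x y ^ n = 0 := by
    have h1 : ((∑ j, a j * hev e (lam j) x y ^ n : 𝓞 K) : K) = 0 := by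
      have h2 : ((∑ j, a j * hev e (lam j) x y ^ n : 𝓞 K) : K) =
          ∑ j, (a j : K) * ((hev e (lam j) x y : 𝓞 K) : K) ^ n := by
        push_cast
        rfl
      rw [h2]
      have h3 : ∑ j, (a j : K) * ((hev e (lam j) x y : 𝓞 K) : K) ^ n =
          (δ : K) * ∑ j, ((hev e (lam j) x y : 𝓞 K) : K) ^ n * s j n := by
        rw [Finset.mul_sum]
        refine Finset.sum_congr rfl fun j _ => ?_
        rw [ha j]
        ring
      rw [h3, ← hz n, hzn]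
      simp
    exact_mod_cast h1
  have hmain := H1 x y hxy hne n a ha0 hsum
  rw [mul_one, one_add_one_eq_two] at hmain
  have hHH : HH a ≤ (((m : ℝ) + 1) * (A ^ (n + 1) * (Λ * T ^ (ν * e)) ^ (d ^ 2) * B)) ^ D := by
    unfold HH
    have h1 : ∀ φ : K →+* ℂ, ∑ j, ‖res φ (a j)‖ ≤
        ((m : ℝ) + 1) * (A ^ (n + 1) * (Λ * T ^ (ν * e)) ^ (d ^ 2) * B) := by
      intro φ
      refine (Finset.sum_le_sum fun j _ => hab φ j).trans (le_of_eq ?_)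
      rw [Finset.sum_const, Finset.card_univ, Fintype.card_fin, nsmul_eq_mul]
      push_cast
      rfl
    refine (Finset.prod_le_prod (fun φ _ => Finset.sum_nonneg fun _ _ => norm_nonneg _)
      (fun φ _ => h1 φ)).trans (le_of_eq ?_)
    rw [Finset.prod_const, Finset.card_univ]
  have := fin_ineq C₁ A Λ B T (HH a)
    (((m : ℝ) + 1) * (A ^ (n + 1) * (Λ * T ^ (ν * e)) ^ (d ^ 2) * B)) m n (m * e) D (d ^ 2) (ν * e)
    hC₁ hA hΛ hB hT3 (by positivity) le_rfl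
    (Finset.prod_nonneg fun _ _ => Finset.sum_nonneg fun _ _ => norm_nonneg _) hHH hT2 hmain
  exact absurd this (not_le.2 hn)

end Pool.Agent.Work.MP_8d13b5_lc.Fm
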