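import Pool.Agent.Work.MP_8d13b5_lc.Fm.Stmts2

set_option autoImplicit false

/-! Item SLP: the slope at infinity. -/

namespace Pool.Agent.Work.MP_8d13b5_lc.Fm

open Polynomial NumberField Finset Module

theorem prSLP : StSLP := by
  intro R _ m F hex
  classical
  obtain ⟨i0, hi0, hF0⟩ := hex
  obtain ⟨i, hi, hmax⟩ := Finset.exists_max_image
    ((range (m + 1)).filter fun i => F.coeff i ≠ 0)
    (fun i => ((F.coeff i).natDegree : ℚ) / ((m + 1 - i : ℕ) : ℚ))
    ⟨i0, mem_filter.2 ⟨mem_range.2 (Nat.lt_succ_of_le hi0), hF0⟩⟩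
  rw [mem_filter, mem_range] at hi
  refine ⟨(F.coeff i).natDegree, m + 1 - i, by omega, fun j hj => ?_, i, by omega, hi.2,
    Nat.mul_comm _ _⟩
  by_cases hj0 : F.coeff j = 0
  · rw [hj0, natDegree_zero, Nat.mul_zero]
    exact Nat.zero_le _
  · have h1 := hmax j (mem_filter.2 ⟨mem_range.2 (Nat.lt_succ_of_le hj), hj0⟩)
    have h2 : (0 : ℚ) < ((m + 1 - i : ℕ) : ℚ) := by
      exact_mod_cast (show 0 < m + 1 - i by omega)
    have h3 : (0 : ℚ) < ((m + 1 - j : ℕ) : ℚ) := by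
      exact_mod_cast (show 0 < m + 1 - j by omega)
    rw [div_le_div_iff₀ h3 h2] at h1
    have h4 : (F.coeff j).natDegree * (m + 1 - i) ≤ (F.coeff i).natDegree * (m + 1 - j) := by
      exact_mod_cast h1
    rw [Nat.mul_comm (m + 1 - i)]
    exact h4

end Pool.Agent.Work.MP_8d13b5_lc.Fm
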