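import Pool.Agent.Work.MP_8d13b5_lc.Fm.StmtsU
import Pool.Agent.Work.MP_8d13b5_lc.Fm.I_DE2

set_option autoImplicit false

/-! Block `Fm`, item VDE: one decision procedure for the general families of all orders. -/

namespace Pool.Agent.Work.MP_8d13b5_lc.Fm

open Polynomial NumberField Finset Module

namespace VDE

/-- a bound for the least zero -/
def bd (x : (List ℤ × List ℤ) × ℕ) : ℕ :=
  x.2 * (x.2 * (x.2 * x.2 * (Pd.size x.1 + 3) + 1) + 2) + x.2

theorem primrec_bd : Primrec bd := by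
  have hs : Primrec (fun x : (List ℤ × List ℤ) × ℕ => Pd.size x.1) :=
    Pd.primrec_size.comp Primrec.fst
  have hB : Primrec (fun x : (List ℤ × List ℤ) × ℕ => x.2) := Primrec.snd
  have h1 : Primrec (fun x : (List ℤ × List ℤ) × ℕ => x.2 * x.2 * (Pd.size x.1 + 3)) :=
    Primrec.nat_mul.comp (Primrec.nat_mul.comp hB hB)
      (Primrec.nat_add.comp hs (Primrec.const 3))
  have h2 : Primrec (fun x : (List ℤ × List ℤ) × ℕ =>
      x.2 * (x.2 * x.2 * (Pd.size x.1 + 3) + 1)) :=
    Primrec.nat_mul.comp hB (Primrec.nat_add.comp h1 (Primrec.const 1))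
  have h3 : Primrec (fun x : (List ℤ × List ℤ) × ℕ =>
      x.2 * (x.2 * x.2 * (Pd.size x.1 + 3) + 1) + 2) :=
    Primrec.nat_add.comp h2 (Primrec.const 2)
  exact Primrec.nat_add.comp (Primrec.nat_mul.comp hB h3) hB

end VDE

theorem prVDE (hVFI : StVFI) (hDEC : StDEC) : StVDE := by
  obtain ⟨M, hM, hM'⟩ := hDEC VDE.bd VDE.primrec_bd
    (fun B p u => (∃ n, u n = 0) → ∃ n < VDE.bd (p, B), u n = 0)
    (fun B p u _ h hz => h hz)
  refine ⟨M, hM, fun m σ hm => ?_⟩
  obtain ⟨c, hc, hV⟩ := hVFI m σ hm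
  refine ⟨c + m + 2, fun B N hB hN hNB p u hu hgen => hM' B p u hu ?_⟩
  obtain ⟨H, F, t, hF, hT, hrec⟩ := hgen
  rintro ⟨n, hn⟩
  have hH := hF.one
  have hBH : 2 ≤ B * H := by
    calc 2 ≤ B := by omega
      _ = B * 1 := (mul_one B).symm
      _ ≤ B * H := Nat.mul_le_mul_left _ hH
  have hT2 : 2 ≤ t.natAbs := by
    refine (hBH.trans ?_).trans hT
    exact Nat.le_self_pow (by omega) _
  have hTT : (c * H) ^ c ≤ t.natAbs := by
    refine le_trans ?_ hT
    calc (c * H) ^ c ≤ (B * H) ^ c :=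
          Nat.pow_le_pow_left (Nat.mul_le_mul_right _ (by omega)) _
      _ ≤ (B * H) ^ B := Nat.pow_le_pow_right (by omega) (by omega)
  set q := n % N with hq
  have hqN : q < N := Nat.mod_lt _ (by omega)
  have hnq : n = q + N * (n / N) := (Nat.mod_add_div n N).symm
  set n' := n / N with hn'
  set L := N * (m + 1 + 1) * Pd.lsize p with hL
  have hLs : L ≤ B * B * (Pd.size p + 3) :=
    Nat.mul_le_mul (Nat.mul_le_mul hNB (by omega)) (Pd.lsize_le p)
  by_cases hbig : c * (L + 1) < n'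
  · rcases hV H F hF t hTT _ (hrec q hqN) with hz | hz
    · refine ⟨q, ?_, ?_⟩
      · show q < B * (B * (B * B * (Pd.size p + 3) + 1) + 2) + B
        omega
      · have h2 := hz 0
        simpa only [mul_zero, add_zero] using h2
    · exfalso
      refine hz (2 ^ L) n' (fun i hi => DE2.val_le hu hqN (by omega))
        (DE2.lt_aux hT2 hbig) ?_
      show u (q + N * n') = 0
      rw [← hnq, hn]
  · refine ⟨n, ?_, hn⟩
    show n < B * (B * (B * B * (Pd.size p + 3) + 1) + 2) + B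
    have h1 : n' ≤ B * (B * B * (Pd.size p + 3) + 1) + 2 := by
      have h2 : c * (L + 1) ≤ B * (B * B * (Pd.size p + 3) + 1) :=
        Nat.mul_le_mul (by omega) (by omega)
      omega
    have h2 : N * n' ≤ B * (B * (B * B * (Pd.size p + 3) + 1) + 2) :=
      Nat.mul_le_mul hNB h1
    omega

end Pool.Agent.Work.MP_8d13b5_lc.Fm
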