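import Pool.Agent.Work.MP_8d13b5_lc.Fm.StmtsU
import Pool.Agent.Work.MP_8d13b5_lc.Fm.I_GRE

set_option autoImplicit false

/-! Item VG2 of the block `Fm` (uniform version): the greedy construction of independent relations
for a general family, with constants which depend only on the field, the order and the degree, and
polynomially on the size of the coefficients. -/

namespace Pool.Agent.Work.MP_8d13b5_lc.Fm

open Polynomial NumberField Finset Module

namespace VG2

theorem pn_nonneg {R : Type} [CommRing R] (φ : R →+* ℂ) (P : R[X]) : 0 ≤ pn φ P :=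
  Finset.sum_nonneg fun _ _ => norm_nonneg _

end VG2

open GRE in
theorem prVG2 (hGAP : StGAP) (hVWR : StVWR) (hVG1 : StVG1) (hCFD : StCFD) (hID2 : StID2) :
    StVG2 := by
  intro K _ _ m σ hm
  obtain ⟨cW, hcW'⟩ := hVWR m σ
  refine ⟨cW, fun N₁ hN₁ => ?_⟩
  obtain ⟨C₀, s₀, hC₀, G1'⟩ := hVG1 K m σ N₁ hN₁
  have hm0 : (0 : ℝ) ≤ m := Nat.cast_nonneg _
  have hC₁ : 1 ≤ C₀ * (m + 2) := by nlinarith
  refine ⟨C₀ * (m + 2), s₀, hC₁, fun H F hFH n hn => ?_⟩
  have hF : IsCrv m F := hFH.crv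
  have hH := hFH.one
  obtain ⟨φ₀, hφ₀⟩ := hF.rat
  have hres : Function.Injective (res φ₀) := by
    unfold res
    exact (φ₀.injective).comp (FaithfulSMul.algebraMap_injective (𝓞 K) K)
  set G : ℂ[X][X] := F.map (mapRingHom (res φ₀)) with hG
  have hG0 : G.coeff 0 ≠ 0 := by
    rw [hG, coeff_map, coe_mapRingHom]
    intro h
    exact hF.ne (Polynomial.map_injective _ hres (by rw [h, Polynomial.map_zero]))
  have hFdeg : ∀ i, (F.coeff i).natDegree ≤ σ := by
    intro i
    rcases Nat.lt_or_ge m i with h | h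
    · rcases Nat.lt_or_ge (m + 1) i with h' | h'
      · rw [coeff_eq_zero_of_natDegree_lt (by rw [hF.deg]; exact h')]
        simp
      · have hi : i = F.natDegree := by rw [hF.deg]; omega
        rw [hi, hF.monic.coeff_natDegree]
        simp
    · exact hFH.dg i h
  have hGdeg : ∀ i, (G.coeff i).natDegree ≤ σ := by
    intro i
    rw [hG, coeff_map, coe_mapRingHom]
    exact natDegree_map_le.trans (hFdeg i)
  have hcW := hcW' G (hF.monic.map _) (by rw [hG, hF.monic.natDegree_map, hF.deg]) hG0 hφ₀ hGdeg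
  have hdeg : ∀ n, ∀ j : Fin (m + 1), (Pd.cf F n j).natDegree ≤ σ * n := by
    intro n j
    have h1 := hCFD.2.2.1 (𝓞 K) m σ 1 F hF.monic hF.deg (by
      intro i hi
      rw [one_mul]
      exact (hFdeg i).trans (Nat.le_mul_of_pos_right _ (by omega))) n j (by have := j.2; omega)
    rwa [one_mul] at h1
  set Λ : ℝ := 1 + (m + 1) * H with hΛd
  have hterm : ∀ φ : K →+* ℂ, 1 ≤ 1 + ∑ i ∈ range (m + 1), pn (res φ) (F.coeff i) := fun φ =>
    le_add_of_nonneg_right (Finset.sum_nonneg fun _ _ => VG2.pn_nonneg _ _)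
  have hΛ1 : ∀ φ : K →+* ℂ, 1 + ∑ i ∈ range (m + 1), pn (res φ) (F.coeff i) ≤ Λ := by
    intro φ
    have h1 : ∑ i ∈ range (m + 1), pn (res φ) (F.coeff i) ≤ ∑ i ∈ range (m + 1), H :=
      Finset.sum_le_sum fun i hi => hFH.ht φ i (Nat.lt_succ_iff.mp (Finset.mem_range.mp hi))
    rw [Finset.sum_const, card_range, nsmul_eq_mul, Nat.cast_add, Nat.cast_one] at h1
    rw [hΛd]
    linarith
  have hΛ : 1 ≤ Λ := (hterm φ₀).trans (hΛ1 φ₀)
  have hΛH : Λ ≤ (m + 2) * H := by rw [hΛd]; nlinarith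
  have G1 := G1' Λ hΛ
  have hbd : ((C₀ * Λ) ^ s₀) ^ n ≤ ((C₀ * (m + 2) * H) ^ s₀) ^ n := by
    have h1 : 0 ≤ C₀ * Λ := by positivity
    have h2 : C₀ * Λ ≤ C₀ * (m + 2) * H := by
      rw [mul_assoc]
      exact mul_le_mul_of_nonneg_left hΛH (by linarith)
    exact pow_le_pow_left₀ (pow_nonneg h1 _) (pow_le_pow_left₀ h1 h2 _) _
  set ψ := algebraMap (𝓞 K) K with hψ
  set E : Fin (m + 1) → K[X] := fun j => (Pd.cf F n j).map ψ with hE
  have hE0 : E ≠ 0 := by
    intro h
    have h1 : ∀ j : Fin (m + 1), Pd.cf F n j = 0 := by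
      intro j
      by_contra hne
      exact map_ne hne (congr_fun h j)
    obtain ⟨c, hc, A, hA⟩ := hF.cop
    obtain ⟨b, hb⟩ := hID2 (𝓞 K)[X] m n F A (C c) hF.monic hF.deg hA
    rw [Finset.sum_eq_zero (fun j _ => by rw [h1 j, mul_zero])] at hb
    have h2 : (C c : (𝓞 K)[X]) ≠ 0 := C_ne_zero.2 hc
    exact pow_ne_zero _ h2 hb.symm
  obtain ⟨j₀, -, hj₀⟩ := Finset.exists_max_image (univ : Finset (Fin (m + 1)))
    (fun j => (Pd.cf F n j).natDegree) ⟨0, mem_univ _⟩
  have hEdeg : ∀ j, (E j).natDegree ≤ (Pd.cf F n j₀).natDegree := fun j =>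
    natDegree_map_le.trans (hj₀ j (mem_univ j))
  obtain ⟨ℓ, hsum, hP, hgap⟩ := hGAP K m (Pd.cf F n j₀).natDegree E hE0 hEdeg
  have hℓ : ∀ i, ℓ i ≤ σ * n := fun i =>
    ((Finset.single_le_sum (f := ℓ) (fun _ _ => Nat.zero_le _) (mem_univ i)).trans hsum).trans
      (hdeg n j₀)
  have hlow : ∀ i, n ≤ cW * (ℓ i + 1) := by
    intro i
    obtain ⟨P, ⟨hP1, hP2⟩, hP0⟩ := hP i
    refine hcW n (ℓ i) (fun j => (P j).map φ₀) ?_ (fun j => natDegree_map_le.trans (hP1 j)) ?_
    · intro h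
      apply hP0
      funext j
      have h1 := congr_fun h j
      exact Polynomial.map_injective _ φ₀.injective (by
        rw [Pi.zero_apply, Polynomial.map_zero]; exact h1)
    · have h1 := congr_arg (Polynomial.map φ₀) hP2
      rw [Polynomial.map_sum, Polynomial.map_zero] at h1
      refine Eq.trans (Finset.sum_congr rfl fun j _ => ?_) h1
      rw [Polynomial.map_mul, hG, hCFD.2.1 (𝓞 K)[X] ℂ[X] (mapRingHom (res φ₀)) F n j hF.monic]
      simp only [hE, coe_mapRingHom, Polynomial.map_map]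
      rfl
  have hpn : ∀ (φ : K →+* ℂ) (j : Fin (m + 1)), pn (res φ) (Pd.cf F n j) ≤ Λ ^ n := by
    intro φ j
    refine (hCFD.2.2.2 (𝓞 K) m F (res φ) hF.monic hF.deg n j (by have := j.2; omega)).trans ?_
    exact pow_le_pow_left₀ (zero_le_one.trans (hterm φ)) (hΛ1 φ) n
  have key : ∀ (k : ℕ) (hk : k ≤ m), ∃ Q : Fin k → Fin (m + 1) → (𝓞 K)[X],
      LinearIndependent K[X] (fun s j => (Q s j).map ψ : Fin k → Fin (m + 1) → K[X]) ∧
      (∀ s, ∑ j, Q s j * Pd.cf F n j = 0) ∧
      (∀ s j, (Q s j).natDegree ≤ ℓ (Fin.castLE hk s) + n / N₁) ∧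
      ∀ (φ : K →+* ℂ) s j, pn (res φ) (Q s j) ≤ ((C₀ * (m + 2) * H) ^ s₀) ^ n := by
    intro k
    induction k with
    | zero =>
      intro _
      exact ⟨fun s => Fin.elim0 s, linearIndependent_empty_type, fun s => Fin.elim0 s,
        fun s => Fin.elim0 s, fun _ s => Fin.elim0 s⟩
    | succ k ih =>
      intro hk
      obtain ⟨Q, hQ1, hQ2, hQ3, hQ4⟩ := ih (by omega)
      obtain ⟨P, hP1, hP2, hP3, hP4⟩ := G1 n hn (fun j => Pd.cf F n j) (hdeg n) hpn (ℓ ⟨k, hk⟩) k
        (fun s j => (Q s j).map ψ)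
        (hℓ _) (hgap ⟨k, hk⟩ k (fun s j => (Q s j).map ψ) le_rfl (n / N₁))
      refine ⟨(Fin.snoc Q P : Fin (k + 1) → Fin (m + 1) → (𝓞 K)[X]), ?_, ?_, ?_, ?_⟩
      · have h1 : (fun s j => ((Fin.snoc Q P : Fin (k + 1) → Fin (m + 1) → (𝓞 K)[X]) s j).map ψ :
            Fin (k + 1) → Fin (m + 1) → K[X]) =
            (Fin.snoc (fun s j => (Q s j).map ψ : Fin k → Fin (m + 1) → K[X])
              (fun j => (P j).map ψ) : Fin (k + 1) → Fin (m + 1) → K[X]) := by
          funext s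
          refine Fin.lastCases ?_ (fun s => ?_) s
          · simp only [Fin.snoc_last]
          · simp only [Fin.snoc_castSucc]
        rw [h1]
        apply indep_snoc _ _ hQ1
        intro c hc hmem
        exact hP4 ⟨c, hc, hmem⟩
      · intro s
        refine Fin.lastCases ?_ (fun s => ?_) s
        · simp only [Fin.snoc_last]
          exact hP1
        · simp only [Fin.snoc_castSucc]
          exact hQ2 s
      · intro s
        refine Fin.lastCases ?_ (fun s => ?_) s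
        · intro j
          simp only [Fin.snoc_last]
          exact hP2 j
        · intro j
          simp only [Fin.snoc_castSucc]
          exact hQ3 s j
      · intro φ s
        refine Fin.lastCases ?_ (fun s => ?_) s
        · intro j
          simp only [Fin.snoc_last]
          exact (hP3 φ j).trans hbd
        · intro j
          simp only [Fin.snoc_castSucc]
          exact hQ4 φ s j
  obtain ⟨Q, hQ1, hQ2, hQ3, hQ4⟩ := key m le_rfl
  refine ⟨ℓ, Q, ⟨j₀, hsum⟩, hlow, ?_, hQ2, fun i j => hQ3 i j, hQ4⟩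
  rw [Fintype.linearIndependent_iff] at hQ1 ⊢
  intro g hg i
  have h1 := hQ1 (fun s => (g s).map ψ) (by
    funext j
    have h2 := congr_fun hg j
    rw [Finset.sum_apply] at h2 ⊢
    simp only [Pi.smul_apply, smul_eq_mul, Pi.zero_apply] at h2 ⊢
    have h3 := congr_arg (Polynomial.map ψ) h2
    rw [Polynomial.map_sum, Polynomial.map_zero] at h3
    simpa only [Polynomial.map_mul] using h3) i
  exact map_inj (by rw [h1, Polynomial.map_zero])

end Pool.Agent.Work.MP_8d13b5_lc.Fm
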