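import Pool.Agent.Work.MP_8d13b5_lc.Fm.StmtsU
import Pool.Agent.Work.MP_8d13b5_lc.Fm.I_SQ2

set_option autoImplicit false

/-! Block `Fm`, item VSQ: recurrences in a general family, uniform version. -/

namespace Pool.Agent.Work.MP_8d13b5_lc.Fm

open Polynomial NumberField Finset Module

open SQ2 in
theorem prVSQ (hVTH : StVTH) (hCFD : StCFD) : StVSQ := by
  intro K _ _ m σ hm
  obtain ⟨C₁, s, k, κ, hC₁, hth⟩ := hVTH K m σ hm
  obtain ⟨D, hD⟩ : ∃ D : ℕ, D = Fintype.card (K →+* ℂ) := ⟨_, rfl⟩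
  obtain ⟨c, hc⟩ : ∃ c : ℕ, c = ⌈C₁⌉₊ * (m + 1) + s + 2 * (κ * (s + D)) +
    (2 * (κ * (k + D)) + 1) := ⟨_, rfl⟩
  refine ⟨c, by omega, ?_⟩
  intro H F hF t₀ hT u B hu hB huB n hn hun
  have hH := hF.one
  have hm1 : (1 : ℝ) ≤ (m : ℝ) + 1 := by
    have : (0 : ℝ) ≤ m := Nat.cast_nonneg m
    linarith
  -- the constant
  have hcC : C₁ * ((m : ℝ) + 1) ≤ c := by
    have h1 : C₁ ≤ (⌈C₁⌉₊ : ℝ) := Nat.le_ceil C₁
    have h2 : ((⌈C₁⌉₊ * (m + 1) : ℕ) : ℝ) ≤ c := by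
      have : ⌈C₁⌉₊ * (m + 1) ≤ c := by omega
      exact_mod_cast this
    push_cast at h2
    exact (mul_le_mul_of_nonneg_right h1 (by linarith)).trans h2
  obtain ⟨Y, hY⟩ : ∃ Y : ℝ, Y = C₁ * ((m : ℝ) + 1) * H := ⟨_, rfl⟩
  have hY1 : 1 ≤ Y := by
    rw [hY]
    exact one_le_mul_of_one_le_of_one_le (one_le_mul_of_one_le_of_one_le hC₁ hm1) hH
  have hYc : Y ≤ c * H := by
    rw [hY]
    exact mul_le_mul_of_nonneg_right hcC (by linarith)
  have hcH1 : 1 ≤ (c : ℝ) * H := hY1.trans hYc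
  have hYpow : ∀ e : ℕ, e ≤ c → Y ^ e ≤ TT t₀ 1 := fun e he =>
    ((pow_le_pow_left₀ (by linarith) hYc e).trans (pow_le_pow_right₀ hcH1 he)).trans hT
  have hT1 : 1 ≤ TT t₀ 1 := (one_le_pow₀ hcH1).trans hT
  have hCH : C₁ * H ≤ Y := by
    rw [hY]
    have : C₁ * 1 ≤ C₁ * ((m : ℝ) + 1) := mul_le_mul_of_nonneg_left hm1 (by linarith)
    rw [mul_one] at this
    exact mul_le_mul_of_nonneg_right this (by linarith)
  have hCH1 : 1 ≤ C₁ * H := one_le_mul_of_one_le_of_one_le hC₁ hH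
  have hmY : (m : ℝ) + 1 ≤ Y := by
    rw [hY]
    have h1 : (1 : ℝ) * (m + 1) ≤ C₁ * (m + 1) := mul_le_mul_of_nonneg_right hC₁ (by linarith)
    have h2 : C₁ * ((m : ℝ) + 1) * 1 ≤ C₁ * (m + 1) * H :=
      mul_le_mul_of_nonneg_left hH (by positivity)
    linarith
  have hTs : (C₁ * H) ^ s ≤ TT t₀ 1 :=
    (pow_le_pow_left₀ (by linarith) hCH s).trans (hYpow s (by omega))
  have hT2 : (((C₁ * H) ^ s * ((m : ℝ) + 1) ^ D) ^ κ) ^ 2 ≤ TT t₀ 1 := by
    have h1 : (C₁ * H) ^ s * ((m : ℝ) + 1) ^ D ≤ Y ^ (s + D) := by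
      rw [pow_add]
      exact mul_le_mul (pow_le_pow_left₀ (by linarith) hCH s)
        (pow_le_pow_left₀ (by linarith) hmY D) (by positivity) (by positivity)
    calc (((C₁ * H) ^ s * ((m : ℝ) + 1) ^ D) ^ κ) ^ 2 ≤ ((Y ^ (s + D)) ^ κ) ^ 2 := by
          apply pow_le_pow_left₀ (by positivity)
          exact pow_le_pow_left₀ (by positivity) h1 _
      _ = Y ^ (2 * (κ * (s + D))) := by
          rw [← pow_mul, ← pow_mul]
          congr 1
          ring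
      _ ≤ TT t₀ 1 := hYpow _ (by omega)
  have hmon : (spc F t₀).Monic := hF.crv.monic.map _
  have hdeg : (spc F t₀).natDegree = m + 1 := by
    unfold spc
    rw [hF.crv.monic.natDegree_map, hF.crv.deg]
  have hsol : Pd.Sol (spc F t₀) u := hu
  by_contra hcon
  have ha : (fun j : Fin (m + 1) => u (j : ℕ)) ≠ 0 := by
    intro h
    apply hcon
    intro i
    refine hsol.eq_zero hmon ?_ i
    intro j hj
    rw [hdeg] at hj
    exact congrFun h ⟨j, hj⟩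
  have hsum : ∑ j : Fin (m + 1), (fun j : Fin (m + 1) => u (j : ℕ)) j *
      (Pd.cf F n j).eval t₀ = 0 := by
    have h1 := hsol.expand hmon n
    rw [hun, hdeg, ← Fin.sum_univ_eq_sum_range (fun c => Pd.cf (spc F t₀) n c * u c)] at h1
    rw [h1]
    refine sum_congr rfl fun j _ => ?_
    have h2 := hCFD.2.1 (𝓞 K)[X] (𝓞 K) (evalRingHom t₀) F n j hF.crv.monic
    have h3 : Pd.cf (spc F t₀) n j = (Pd.cf F n j).eval t₀ := h2
    rw [h3, mul_comm]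
  have hmain := hth H F hF t₀ hTs n _ ha hsum
  have hHH : HH (fun j : Fin (m + 1) => u (j : ℕ)) ≤ (((m : ℝ) + 1) * B) ^ D := by
    unfold HH
    have h1 : ∀ φ : K →+* ℂ, ∑ j : Fin (m + 1), ‖res φ (u (j : ℕ))‖ ≤ ((m : ℝ) + 1) * B := by
      intro φ
      refine (Finset.sum_le_sum fun (j : Fin (m + 1)) _ =>
        huB φ (j : ℕ) (Nat.lt_succ_iff.1 j.2)).trans (le_of_eq ?_)
      rw [Finset.sum_const, Finset.card_univ, Fintype.card_fin, nsmul_eq_mul]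
      push_cast
      rfl
    refine (Finset.prod_le_prod (fun φ _ => Finset.sum_nonneg fun _ _ => norm_nonneg _)
      (fun φ _ => h1 φ)).trans (le_of_eq ?_)
    rw [Finset.prod_const, Finset.card_univ, hD]
  have hfin := fin_ineq ((C₁ * H) ^ s) B (TT t₀ 1) (HH (fun j : Fin (m + 1) => u (j : ℕ)))
    (((m : ℝ) + 1) * B) m n k D κ (one_le_pow₀ hCH1) hB hT1 rfl hHH hT2
    (Finset.prod_nonneg fun _ _ => Finset.sum_nonneg fun _ _ => norm_nonneg _) hmain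
  have hBT : 1 ≤ B * TT t₀ 1 := one_le_mul_of_one_le_of_one_le hB hT1
  have hle : (B * TT t₀ 1) ^ (2 * (κ * (k + D)) + 1) ≤ (B * TT t₀ 1) ^ c :=
    pow_le_pow_right₀ hBT (by omega)
  exact absurd (hfin.trans hle) (not_le.2 hn)

end Pool.Agent.Work.MP_8d13b5_lc.Fm
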