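import Pool.Agent.Work.MP_8d13b5_lc.Fm.StmtsU
import Pool.Agent.Work.MP_8d13b5_lc.Fm.I_TH2

set_option autoImplicit false

/-! Block `FMU`, item VTH (Theorem M for general families, uniform version), helper13; after I_TH2
of helper54. -/

namespace Pool.Agent.Work.MP_8d13b5_lc.Fm

open Polynomial NumberField Finset Module

namespace VTH

/-- the bound of the constant of `TH2.calc2` -/
lemma bnd {X M R C L : ℝ} {D m s₂ s₁ s₀ q : ℕ} (hM : M ≤ X)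
    (hM1 : 1 ≤ M) (hR0 : 1 ≤ R) (hR : R ≤ X ^ (s₁ * D)) (hC0 : 1 ≤ C) (hC : C ≤ X ^ s₂)
    (hL0 : 1 ≤ L) (hL : L ≤ X ^ s₀) (hq : q ≤ m + 1) :
    (M ^ D * R ^ ((m + 1) ^ 2) * C ^ (D * m)) ^ q * L ^ D ≤
      X ^ ((D + s₁ * D * (m + 1) ^ 2 + s₂ * (D * m)) * (m + 1) + s₀ * D) := by
  have hX0 : 0 ≤ X := by linarith
  have h1 : 1 ≤ M ^ D * R ^ ((m + 1) ^ 2) * C ^ (D * m) :=
    one_le_mul_of_one_le_of_one_le
      (one_le_mul_of_one_le_of_one_le (one_le_pow₀ hM1) (one_le_pow₀ hR0)) (one_le_pow₀ hC0)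
  have h2 : M ^ D * R ^ ((m + 1) ^ 2) * C ^ (D * m) ≤
      X ^ (D + s₁ * D * (m + 1) ^ 2 + s₂ * (D * m)) := by
    rw [pow_add, pow_add]
    have a1 : M ^ D ≤ X ^ D := pow_le_pow_left₀ (by linarith) hM D
    have a2 : R ^ ((m + 1) ^ 2) ≤ X ^ (s₁ * D * (m + 1) ^ 2) := by
      rw [pow_mul X (s₁ * D)]
      exact pow_le_pow_left₀ (by linarith) hR _
    have a3 : C ^ (D * m) ≤ X ^ (s₂ * (D * m)) := by
      rw [pow_mul X s₂]
      exact pow_le_pow_left₀ (by linarith) hC _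
    have b1 : 0 ≤ M ^ D := by positivity
    have b2 : 0 ≤ R ^ ((m + 1) ^ 2) := by positivity
    have b3 : 0 ≤ C ^ (D * m) := by positivity
    exact mul_le_mul (mul_le_mul a1 a2 b2 (by positivity)) a3 b3 (by positivity)
  rw [pow_add]
  refine mul_le_mul ?_ ?_ (by positivity) (by positivity)
  · calc (M ^ D * R ^ ((m + 1) ^ 2) * C ^ (D * m)) ^ q
        ≤ (M ^ D * R ^ ((m + 1) ^ 2) * C ^ (D * m)) ^ (m + 1) := pow_le_pow_right₀ h1 hq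
      _ ≤ (X ^ (D + s₁ * D * (m + 1) ^ 2 + s₂ * (D * m))) ^ (m + 1) :=
        pow_le_pow_left₀ (by linarith) h2 _
      _ = _ := by rw [← pow_mul]
  · rw [pow_mul X s₀]
    exact pow_le_pow_left₀ (by linarith) hL _

end VTH

open TH2 VTH in
theorem prVTH (hVVE : StVVE) (hEND : StEND) (hID2 : StID2) (hVCO : StVCO) (hVLO : StVLO)
    (hVSL : StVSL) (hCFD : StCFD) (hVNZ : StVNZ) : StVTH := by
  intro K _ _ m σ hm
  obtain ⟨γ, s₁, s₂, hV⟩ := hVVE K m σ hm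
  obtain ⟨Cc, sc, hCc, hCO⟩ := hVCO K m σ
  obtain ⟨Cl, sl, hCl, hLO⟩ := hVLO K m σ
  obtain ⟨sn, hNZ⟩ := hVNZ K
  set N₁ : ℕ := 2 * (γ + 1) * (1 + s₂) * m with hN₁
  have hN₁pos : 1 ≤ N₁ := by
    rw [hN₁]
    exact Nat.succ_le_of_lt (by positivity)
  obtain ⟨Cv, sv, hCv, hV⟩ := hV N₁ hN₁pos
  set D := finrank ℚ K with hD
  set M : ℝ := (m.factorial : ℝ) with hM
  have hM1 : 1 ≤ M := by
    rw [hM]
    exact_mod_cast Nat.one_le_iff_ne_zero.2 (Nat.factorial_ne_zero m)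
  set sQ : ℕ := (D + sc * D * (m + 1) ^ 2 + sv * (D * m)) * (m + 1) + sl * D with hsQ
  set C₁ : ℝ := Cc + Cl + Cv + M with hC₁
  have hC₁4 : 2 ≤ C₁ := by rw [hC₁]; linarith
  refine ⟨C₁, sQ + (1 + sv) * sn + 1, (m + 1) * (γ + 1) + (m + 1) * (m * s₁) + sl,
    2 * (γ + 1) * (m + 1), by linarith, ?_⟩
  intro H F hF t₀ ht₀ n a ha hrel
  have hcrv := hF.crv
  have hH1 := hF.one
  set X : ℝ := C₁ * H with hX
  have hX2 : 2 ≤ X := by
    rw [hX]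
    nlinarith
  have hX1 : 1 ≤ X := by linarith
  have hXM : M ≤ X := by
    rw [hX, hC₁]
    nlinarith
  have hXc : Cc * H ≤ X := by
    rw [hX, hC₁]
    nlinarith
  have hXl : Cl * H ≤ X := by
    rw [hX, hC₁]
    nlinarith
  have hXv : Cv * H ≤ X := by
    rw [hX, hC₁]
    nlinarith
  have hcH : 1 ≤ Cc * H := one_le_mul_of_one_le_of_one_le hCc hH1
  have hlH : 1 ≤ Cl * H := one_le_mul_of_one_le_of_one_le hCl hH1
  have hvH : 1 ≤ Cv * H := one_le_mul_of_one_le_of_one_le hCv hH1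
  have hT : 1 ≤ TT t₀ 1 := one_le_TT t₀
  have hH : 1 ≤ HH a := one_le_HH ha
  rcases Nat.eq_zero_or_pos n with rfl | hn
  · rw [pow_zero]
    exact one_le_pow₀ (one_le_mul_of_one_le_of_one_le
      (one_le_mul_of_one_le_of_one_le (one_le_pow₀ (one_le_pow₀ hX1)) (one_le_pow₀ hT)) hH)
  obtain ⟨p, q, hq, hpσ, hqm, hpq, hpq'⟩ := hVSL (𝓞 K) m σ F ⟨0, Nat.zero_le _, hcrv.ne⟩ hF.dg
  have hL := hLO H F hF p q hq hpσ hqm hpq hpq'
  obtain ⟨c, A, hc, hA, -, hcA⟩ := hCO H F hF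
  obtain ⟨Δ, hΔ, -, hΔs, hV⟩ := hV H F hF
  set R : ℝ := ∏ φ : K →+* ℂ, ‖res φ c‖ with hR
  have hR1 : 1 ≤ R := one_le_norm hc
  have hcard : (univ : Finset (K →+* ℂ)).card = D := by
    rw [card_univ, NumberField.Embeddings.card]
  have hRX : R ≤ X ^ (sc * D) := by
    calc R ≤ ∏ _φ : K →+* ℂ, X ^ sc :=
          prod_le_prod (fun φ _ => norm_nonneg _) fun φ _ =>
            (hcA φ).1.trans (pow_le_pow_left₀ (by linarith) hXc sc)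
      _ = X ^ (sc * D) := by rw [prod_const, hcard, ← pow_mul]
  set C : ℝ := (Cv * H) ^ sv with hC
  have hC1 : 1 ≤ C := one_le_pow₀ hvH
  have hCX : C ≤ X ^ sv := pow_le_pow_left₀ (by linarith) hXv sv
  set L : ℝ := (Cl * H) ^ sl with hLdef
  have hL1 : 1 ≤ L := one_le_pow₀ hlH
  have hLX : L ≤ X ^ sl := pow_le_pow_left₀ (by linarith) hXl sl
  set c₀ : ℝ := L⁻¹ with hc₀def
  have hc₀ : 0 < c₀ := inv_pos.2 (by linarith)
  have hc₁ : c₀ ≤ 1 := inv_le_one_of_one_le₀ hL1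
  set Q : ℝ := (M ^ D * R ^ ((m + 1) ^ 2) * C ^ (D * m)) ^ q * (c₀ ^ D)⁻¹ with hQ
  have hQL : (c₀ ^ D)⁻¹ = L ^ D := by
    rw [hc₀def, inv_pow, inv_inv]
  have hQX : Q ≤ X ^ sQ := by
    rw [hQ, hQL]
    exact bnd hXM hM1 hR1 hRX hC1 hCX hL1 hLX hqm
  have hQ1 : 1 ≤ Q := by
    rw [hQ, hQL]
    exact one_le_mul_of_one_le_of_one_le (one_le_pow₀ (one_le_mul_of_one_le_of_one_le
      (one_le_mul_of_one_le_of_one_le (one_le_pow₀ hM1) (one_le_pow₀ hR1)) (one_le_pow₀ hC1)))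
      (one_le_pow₀ hL1)
  have hΔt : Δ.eval t₀ ≠ 0 := by
    refine hNZ Δ C hΔ hC1 hΔs t₀ (lt_of_lt_of_le ?_ ht₀)
    have h1 : (2 * C) ^ sn ≤ X ^ ((1 + sv) * sn) := by
      rw [pow_mul]
      refine pow_le_pow_left₀ (by linarith) ?_ sn
      rw [pow_add, pow_one]
      exact mul_le_mul hX2 hCX (by linarith) (by linarith)
    refine lt_of_le_of_lt h1 (pow_lt_pow_right₀ (by linarith) ?_)
    omega
  obtain ⟨ℓ, r, V, ⟨j₁, hℓ⟩, hℓ', hr, hVi, hVr, hVs⟩ := hV n hn t₀ hΔt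
  -- the coefficients of the powers at t₀
  have hcf : ∀ j, Pd.cf (spc F t₀) n j = (Pd.cf F n j).eval t₀ := by
    intro j
    have h1 := hCFD.2.1 (𝓞 K)[X] (𝓞 K) (evalRingHom t₀) F n j hcrv.monic
    rw [coe_evalRingHom] at h1
    exact h1
  have hsm : (spc F t₀).Monic := hcrv.monic.map _
  have hsd : (spc F t₀).natDegree = m + 1 := by
    unfold spc
    rw [hcrv.monic.natDegree_map, hcrv.deg]
  obtain ⟨b, hb⟩ := hID2 (𝓞 K) m n (spc F t₀) (fun i => (A i).eval t₀) c hsm hsd (by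
    have h1 := congrArg (fun P : (𝓞 K)[X] => P.eval t₀) hA
    simp only [eval_finsetSum, eval_mul, eval_C] at h1
    rw [← h1]
    refine sum_congr rfl fun i _ => ?_
    unfold spc
    rw [coeff_map, coe_evalRingHom])
  have hb' : ∑ j, b j * (Pd.cf F n j).eval t₀ = c ^ ((m + 1) ^ 2 * n) := by
    rw [← hb]
    exact sum_congr rfl fun j _ => by rw [hcf]
  have hg : c ^ ((m + 1) ^ 2 * n) ≠ 0 := pow_ne_zero _ hc
  set h := n / N₁ with hh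
  choose jj hjj using fun φ : K →+* ℂ => hL φ t₀ n
  obtain ⟨i₀, hi₀⟩ := hEND K m (fun j => (Pd.cf F n j).eval t₀) a b (c ^ ((m + 1) ^ 2 * n)) V
    (fun φ => ‖res φ ((Pd.cf F n (jj φ)).eval t₀)‖)
    (fun i φ => C ^ n * tt φ t₀ 1 ^ (ℓ i + h + s₁ + s₂ * r i)) hm ha hg hb' hrel hVr hVi
    (fun φ => ⟨norm_nonneg _, jj φ, le_rfl⟩)
    (fun i φ j => hVs φ i j)
  have e2 : ∏ φ : K →+* ℂ, ‖res φ (c ^ ((m + 1) ^ 2 * n))‖ = R ^ ((m + 1) ^ 2 * n) := by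
    rw [hR, ← prod_pow]
    exact prod_congr rfl fun φ _ => by rw [map_pow, norm_pow]
  have e3 : ∀ i, ∏ φ : K →+* ℂ, C ^ n * tt φ t₀ 1 ^ (ℓ i + h + s₁ + s₂ * r i) =
      C ^ (n * D) * TT t₀ 1 ^ (ℓ i + h + s₁ + s₂ * r i) := by
    intro i
    rw [prod_mul_distrib, prod_const, hcard, prod_pow, ← pow_mul]
    rfl
  have e4 : ∏ i ∈ univ.erase i₀, ∏ φ : K →+* ℂ,
      C ^ n * tt φ t₀ 1 ^ (ℓ i + h + s₁ + s₂ * r i) =
      C ^ (n * D * (m - 1)) * TT t₀ 1 ^ ∑ i ∈ univ.erase i₀, (ℓ i + h + s₁ + s₂ * r i) := by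
    rw [prod_congr rfl fun i _ => e3 i, prod_mul_distrib, prod_const, prod_pow_eq_pow_sum,
      card_erase_of_mem (mem_univ i₀), card_univ, Fintype.card_fin, ← pow_mul]
  rw [e2, e4] at hi₀
  -- the lower bound
  have hf : (c₀ ^ D) ^ (n + 1) * TT t₀ 1 ^ (p * n) ≤
      (∏ φ : K →+* ℂ, ‖res φ ((Pd.cf F n (jj φ)).eval t₀)‖) ^ q * TT t₀ 1 ^ sl := by
    have h1 : ∏ φ : K →+* ℂ, (c₀ ^ (n + 1) * tt φ t₀ 1 ^ (p * n)) ≤
        ∏ φ : K →+* ℂ, (‖res φ ((Pd.cf F n (jj φ)).eval t₀)‖ ^ q * tt φ t₀ 1 ^ sl) := by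
      refine prod_le_prod (fun φ _ => ?_) fun φ _ => ?_
      · have := one_le_tt φ t₀
        positivity
      · have h2 := hjj φ
        have h3 : (Cl * H) ^ (sl * (n + 1)) = L ^ (n + 1) := by rw [hLdef, ← pow_mul]
        rw [h3] at h2
        have hL0 : 0 < L := by linarith
        have h4 : c₀ ^ (n + 1) * L ^ (n + 1) = 1 := by
          rw [← mul_pow, hc₀def, inv_mul_cancel₀ hL0.ne', one_pow]
        calc c₀ ^ (n + 1) * tt φ t₀ 1 ^ (p * n)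
            ≤ c₀ ^ (n + 1) * (L ^ (n + 1) * ‖res φ ((Pd.cf F n (jj φ)).eval t₀)‖ ^ q *
              tt φ t₀ 1 ^ sl) := mul_le_mul_of_nonneg_left h2 (by positivity)
          _ = (c₀ ^ (n + 1) * L ^ (n + 1)) * (‖res φ ((Pd.cf F n (jj φ)).eval t₀)‖ ^ q *
              tt φ t₀ 1 ^ sl) := by ring
          _ = _ := by rw [h4, one_mul]
    rw [prod_mul_distrib, prod_mul_distrib, prod_const, hcard, prod_pow, prod_pow, prod_pow] at h1
    have h2 : (c₀ ^ (n + 1)) ^ D = (c₀ ^ D) ^ (n + 1) := by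
      rw [← pow_mul, ← pow_mul, mul_comm]
    rw [h2] at h1
    exact h1
  have hS : q * ((∑ i ∈ univ.erase i₀, (ℓ i + h + s₁ + s₂ * r i)) + ℓ i₀) ≤
      p * n + q * (m * h * (1 + s₂)) + q * (m * s₁) := by
    have h1 : (∑ i ∈ univ.erase i₀, (ℓ i + h + s₁ + s₂ * r i)) + ℓ i₀ ≤
        ∑ i, (ℓ i + h + s₁ + s₂ * r i) := by
      rw [← sum_erase_add _ _ (mem_univ i₀)]
      refine Nat.add_le_add_left ?_ _
      rw [add_assoc, add_assoc]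
      exact Nat.le_add_right _ _
    have h2 : ∑ i, (ℓ i + h + s₁ + s₂ * r i) ≤ ∑ i, ℓ i + m * h * (1 + s₂) + m * s₁ := by
      rw [sum_add_distrib, sum_add_distrib, sum_add_distrib, sum_const, sum_const, card_univ,
        Fintype.card_fin, smul_eq_mul, smul_eq_mul, ← mul_sum]
      have h3 : s₂ * ∑ i, r i ≤ s₂ * (m * h) := Nat.mul_le_mul_left _ hr
      calc ∑ i, ℓ i + m * h + m * s₁ + s₂ * ∑ i, r i
          ≤ ∑ i, ℓ i + m * h + m * s₁ + s₂ * (m * h) := Nat.add_le_add_left h3 _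
        _ = _ := by ring
    have h4 : q * ∑ i, ℓ i ≤ p * n :=
      (Nat.mul_le_mul_left _ hℓ).trans (hCFD.2.2.1 (𝓞 K) m p q F hcrv.monic hcrv.deg hpq n j₁
        (Nat.lt_succ_iff.1 j₁.2))
    calc q * ((∑ i ∈ univ.erase i₀, (ℓ i + h + s₁ + s₂ * r i)) + ℓ i₀)
        ≤ q * (∑ i, ℓ i + m * h * (1 + s₂) + m * s₁) := Nat.mul_le_mul_left _ (h1.trans h2)
      _ = q * ∑ i, ℓ i + q * (m * h * (1 + s₂)) + q * (m * s₁) := by ring
      _ ≤ _ := by omega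
  have hfin := calc2 (T := TT t₀ 1) (C := C) (H := HH a) (c₀ := c₀) (R := R) (M := M) (h := h)
    (N₁ := N₁) (D := D) (l := ℓ i₀) (p := p) (s₁ := s₁) (s₂ := s₂) (γ := γ)
    hT hC1 hH hc₀ hc₁ hR1 hM1 hq hN₁ (Nat.div_mul_le_self n N₁)
    (prod_nonneg fun φ _ => norm_nonneg _) hS (hℓ' i₀) hf hi₀
  refine hfin.trans ?_
  rw [← hQ]
  have f1 : Q ^ (n + 1) ≤ (X ^ (sQ + (1 + sv) * sn + 1)) ^ (n + 1) := by
    refine pow_le_pow_left₀ (by linarith) (hQX.trans (pow_le_pow_right₀ hX1 ?_)) _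
    omega
  have f2 : TT t₀ 1 ^ (q * (γ + 1) + q * (m * s₁) + sl) ≤
      TT t₀ 1 ^ ((m + 1) * (γ + 1) + (m + 1) * (m * s₁) + sl) := by
    refine pow_le_pow_right₀ hT ?_
    have g1 := Nat.mul_le_mul_right (γ + 1) hqm
    have g2 := Nat.mul_le_mul_right (m * s₁) hqm
    omega
  have f3 : Q ^ (n + 1) * TT t₀ 1 ^ (q * (γ + 1) + q * (m * s₁) + sl) * HH a ≤
      (X ^ (sQ + (1 + sv) * sn + 1)) ^ (n + 1) *
        TT t₀ 1 ^ ((m + 1) * (γ + 1) + (m + 1) * (m * s₁) + sl) * HH a := by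
    have g0 : 0 ≤ Q ^ (n + 1) := by positivity
    have g1 : 0 ≤ TT t₀ 1 := by linarith
    gcongr
  have f4 : 1 ≤ (X ^ (sQ + (1 + sv) * sn + 1)) ^ (n + 1) *
        TT t₀ 1 ^ ((m + 1) * (γ + 1) + (m + 1) * (m * s₁) + sl) * HH a :=
    one_le_mul_of_one_le_of_one_le
      (one_le_mul_of_one_le_of_one_le (one_le_pow₀ (one_le_pow₀ hX1)) (one_le_pow₀ hT)) hH
  have f5 : 0 ≤ Q ^ (n + 1) * TT t₀ 1 ^ (q * (γ + 1) + q * (m * s₁) + sl) * HH a := by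
    have g1 : 0 ≤ TT t₀ 1 := by linarith
    have g2 : 0 ≤ HH a := by linarith
    positivity
  calc (Q ^ (n + 1) * TT t₀ 1 ^ (q * (γ + 1) + q * (m * s₁) + sl) * HH a) ^ (2 * (γ + 1) * q)
      ≤ ((X ^ (sQ + (1 + sv) * sn + 1)) ^ (n + 1) *
        TT t₀ 1 ^ ((m + 1) * (γ + 1) + (m + 1) * (m * s₁) + sl) * HH a) ^ (2 * (γ + 1) * q) :=
        pow_le_pow_left₀ f5 f3 _
    _ ≤ _ := pow_le_pow_right₀ f4 (Nat.mul_le_mul_left _ hqm)

end Pool.Agent.Work.MP_8d13b5_lc.Fm
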