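import Pool.Agent.Work.MP_8d13b5_lc.Fm.StmtsU
import Pool.Agent.Work.MP_8d13b5_lc.Fm.I_UUU

set_option autoImplicit false

/-! Item VUU (helper39): the matrices `U` of the general families, uniform version. -/

namespace Pool.Agent.Work.MP_8d13b5_lc.Fm

open Polynomial NumberField Finset Module

namespace VUU

lemma pn_nn {R : Type} [CommRing R] (φ : R →+* ℂ) (P : R[X]) : 0 ≤ pn φ P :=
  Finset.sum_nonneg fun _ _ => norm_nonneg _

/-- value of a polynomial -/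
lemma eval_le {R : Type} [CommRing R] (φ : R →+* ℂ) (P : R[X]) (t₀ : R) (τ : ℝ) (D : ℕ)
    (hτ : 1 ≤ τ) (ht : ‖φ t₀‖ ≤ τ) (hD : P.natDegree ≤ D) :
    ‖φ (P.eval t₀)‖ ≤ pn φ P * τ ^ D := by
  rw [eval_eq_sum_range, map_sum]
  refine (norm_sum_le _ _).trans ?_
  unfold pn
  rw [Finset.sum_mul]
  refine Finset.sum_le_sum fun i hi => ?_
  rw [map_mul, map_pow, norm_mul, norm_pow]
  have hi' : i ≤ D := by
    have := mem_range.1 hi
    omega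
  refine mul_le_mul_of_nonneg_left ?_ (norm_nonneg _)
  exact (pow_le_pow_left₀ (norm_nonneg _) ht i).trans (pow_le_pow_right₀ hτ hi')

lemma ev2_sum {R A : Type} [CommRing R] [CommRing A] [Algebra R A] (Q : R[X][X]) (D : ℕ)
    (hQ : Q.natDegree ≤ D) (T Y : A) :
    ev2 Q T Y = ∑ i ∈ range (D + 1), aeval T (Q.coeff i) * Y ^ i := by
  unfold ev2
  rw [eval₂_eq_sum_range' _ (Nat.lt_succ_of_le hQ)]
  rfl

variable {K : Type} [Field K] [NumberField K]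

/-- size of a value `Q(t₀, x)` -/
lemma ev2_le (hSNM : StSNM) {F : (𝓞 K)[X][X]} (hF : F.Monic) (hk : 1 ≤ F.natDegree) (t₀ : 𝓞 K)
    (φ : K →+* ℂ) (τ M A : ℝ) (D : ℕ) (hτ : 1 ≤ τ) (ht : ‖res φ t₀‖ ≤ τ) (hM : 1 ≤ M)
    (h1 : UUU.NN hF t₀ φ 1 ≤ M) (hx : UUU.NN hF t₀ φ (AdjoinRoot.root (spc F t₀)) ≤ M)
    (hA : 0 ≤ A) (Q : (𝓞 K)[X][X]) (hQ : Q.natDegree ≤ D) (hQj : ∀ j, (Q.coeff j).natDegree ≤ D)
    (hQp : ∀ j, pn (res φ) (Q.coeff j) ≤ A) :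
    UUU.NN hF t₀ φ (ev2 Q (algebraMap (𝓞 K) (AdjoinRoot (spc F t₀)) t₀)
      (AdjoinRoot.root (spc F t₀))) ≤ (D + 1) * (F.natDegree * (A * τ ^ D)) * M ^ (D + 1) := by
  have hN := UUU.NN_sn (K := K) hSNM hF hk t₀ φ
  rw [ev2_sum Q D hQ]
  refine (UUU.sn_sum hN _ _).trans ?_
  have hterm : ∀ i ∈ range (D + 1), UUU.NN hF t₀ φ
      (aeval (algebraMap (𝓞 K) (AdjoinRoot (spc F t₀)) t₀) (Q.coeff i) *
        AdjoinRoot.root (spc F t₀) ^ i) ≤ F.natDegree * (A * τ ^ D) * M ^ (D + 1) := by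
    intro i hi
    have hi' : i ≤ D := by
      have := mem_range.1 hi
      omega
    refine (hN.mul _ _).trans ?_
    rw [aeval_algebraMap_apply_eq_algebraMap_eval]
    have h2 := (hSNM (𝓞 K) (res φ) (spc F t₀) (UUU.spc_monic hF t₀)
      (by rw [UUU.spc_deg hF]; exact hk)).2.2.1 ((Q.coeff i).eval t₀)
    rw [UUU.spc_deg hF] at h2
    have h3 := eval_le (res φ) (Q.coeff i) t₀ τ D hτ ht (hQj i)
    have h4 : pn (res φ) (Q.coeff i) * τ ^ D ≤ A * τ ^ D :=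
      mul_le_mul_of_nonneg_right (hQp i) (by positivity)
    have h5 : UUU.NN hF t₀ φ (algebraMap (𝓞 K) (AdjoinRoot (spc F t₀)) ((Q.coeff i).eval t₀)) ≤
        F.natDegree * (A * τ ^ D) := by
      refine h2.le.trans ?_
      exact mul_le_mul_of_nonneg_left (h3.trans h4) (Nat.cast_nonneg _)
    have h6 : UUU.NN hF t₀ φ (AdjoinRoot.root (spc F t₀) ^ i) ≤ M ^ (D + 1) :=
      (UUU.sn_pow hN hM h1 hx i).trans (pow_le_pow_right₀ hM (by omega))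
    exact mul_le_mul h5 h6 (hN.nonneg _) (by positivity)
  refine (Finset.sum_le_card_nsmul _ _ _ hterm).trans (le_of_eq ?_)
  rw [card_range, nsmul_eq_mul]
  push_cast
  ring

lemma coeff_deg {m σ : ℕ} {H : ℝ} {F : (𝓞 K)[X][X]} (hF : IsCrvH m σ H F) (j : ℕ) :
    (F.coeff j).natDegree ≤ σ := by
  rcases Nat.lt_trichotomy j (m + 1) with h | h | h
  · exact hF.dg j (by omega)
  · have h1 : F.coeff j = 1 := by
      have := hF.crv.monic.coeff_natDegree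
      rw [hF.crv.deg] at this
      rw [h]; exact this
    rw [h1, natDegree_one]; exact Nat.zero_le _
  · rw [coeff_eq_zero_of_natDegree_lt (by rw [hF.crv.deg]; exact h), natDegree_zero]
    exact Nat.zero_le _

lemma coeff_pn {m σ : ℕ} {H : ℝ} {F : (𝓞 K)[X][X]} (hF : IsCrvH m σ H F) (φ : K →+* ℂ) (j : ℕ) :
    pn (res φ) (F.coeff j) ≤ H := by
  rcases Nat.lt_trichotomy j (m + 1) with h | h | h
  · exact hF.ht φ j (by omega)
  · have h1 : F.coeff j = 1 := by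
      have := hF.crv.monic.coeff_natDegree
      rw [hF.crv.deg] at this
      rw [h]; exact this
    rw [h1]
    have h2 : pn (res φ) (1 : (𝓞 K)[X]) = 1 := by
      unfold pn
      rw [natDegree_one]
      simp
    rw [h2]; exact hF.one
  · have h2 : pn (res φ) (0 : (𝓞 K)[X]) = 0 := by
      unfold pn
      simp
    have h3 : F.coeff j = 0 := coeff_eq_zero_of_natDegree_lt (by rw [hF.crv.deg]; exact h)
    rw [h3, h2]; have := hF.one; linarith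

/-- the final numerical inequality -/
lemma fin_num (E C₁ H τ : ℝ) (q n r : ℕ) (hE : 1 ≤ E) (hC₁ : 1 ≤ C₁) (hH : 1 ≤ H) (hτ : 1 ≤ τ)
    (hq : 1 ≤ q) : E ^ (n + 1) * (C₁ * H * τ) ^ q * (E * (C₁ * H * τ) ^ q) ^ r ≤
      (E * C₁) ^ n * ((E * C₁) * H * τ) ^ (q * (r + 1)) := by
  have hX : 1 ≤ C₁ * H * τ :=
    one_le_mul_of_one_le_of_one_le (one_le_mul_of_one_le_of_one_le hC₁ hH) hτ
  have h1 : E ^ (n + 1) * (C₁ * H * τ) ^ q * (E * (C₁ * H * τ) ^ q) ^ r =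
      E ^ n * (E * (C₁ * H * τ) ^ q) ^ (r + 1) := by ring
  have h2 : E * (C₁ * H * τ) ^ q ≤ (E * (C₁ * H * τ)) ^ q := by
    rw [mul_pow E (C₁ * H * τ) q]
    refine mul_le_mul_of_nonneg_right ?_ (by positivity)
    calc E = E ^ 1 := (pow_one E).symm
      _ ≤ E ^ q := pow_le_pow_right₀ hE hq
  have h3 : ((E * C₁) * H * τ) ^ (q * (r + 1)) = ((E * (C₁ * H * τ)) ^ q) ^ (r + 1) := by
    rw [← pow_mul]; congr 1; ring
  rw [h1, h3]
  have h4 : E ^ n ≤ (E * C₁) ^ n := by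
    refine pow_le_pow_left₀ (by linarith) ?_ n
    nlinarith
  exact mul_le_mul h4 (pow_le_pow_left₀ (by positivity) h2 _) (by positivity) (by positivity)

end VUU

open VUU in
/-- **VUU** -/
theorem prVUU (hVDI : StVDI) (hHNX : StHNX) (hSNM : StSNM) (hMUN : StMUN) (hINV : StINV)
    (hUUA : StUUA) (hPN : StPN) : StVUU := by
  intro K _ _ m σ
  obtain ⟨C₁, s₁, hC₁, hVD⟩ := hVDI K m σ
  obtain ⟨C₂, s₂, hC₂, hHN⟩ := hHNX (m + 1) σ
  obtain ⟨D, hD⟩ : ∃ D : ℕ, D = s₁ + σ + m + 1 := ⟨_, rfl⟩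
  have hkp : (1 : ℝ) ≤ ((m + 1 : ℕ) : ℝ) := by exact_mod_cast Nat.succ_le_succ (Nat.zero_le m)
  obtain ⟨E₀, hE₀⟩ : ∃ E₀ : ℝ, E₀ = ((D : ℝ) + 1) * ((m + 1 : ℕ) : ℝ) *
    (2 * ((m + 1 : ℕ) : ℝ)) ^ (D + 1) := ⟨_, rfl⟩
  have hD1r : (1 : ℝ) ≤ (D : ℝ) + 1 := by
    have : (0 : ℝ) ≤ D := Nat.cast_nonneg _
    linarith
  have hE₀1 : 1 ≤ E₀ := by
    rw [hE₀]
    exact one_le_mul_of_one_le_of_one_le (one_le_mul_of_one_le_of_one_le hD1r hkp)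
      (one_le_pow₀ (by linarith))
  obtain ⟨e₀, he₀⟩ : ∃ e₀ : ℕ, e₀ = 2 * D + D * (D + 1) := ⟨_, rfl⟩
  obtain ⟨q, hq⟩ : ∃ q : ℕ, q = e₀ * (s₂ + (m + 1) + 2) := ⟨_, rfl⟩
  have hqe : e₀ ≤ q := by rw [hq]; exact Nat.le_mul_of_pos_right _ (by omega)
  have hq2 : 2 * D ≤ q := by omega
  have hq1 : 1 ≤ q := by omega
  obtain ⟨E, hE⟩ : ∃ E : ℝ, E = 4 * C₂ * (1 + ((m + 1 : ℕ) : ℝ) * 2 ^ (m + 1)) *
    E₀ ^ (s₂ + (m + 1) + 2) := ⟨_, rfl⟩
  have hE1 : 1 ≤ E := by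
    have h1 : (1 : ℝ) ≤ 4 * C₂ := by linarith
    have h2 : (1 : ℝ) ≤ 1 + ((m + 1 : ℕ) : ℝ) * 2 ^ (m + 1) := by
      have : (0 : ℝ) ≤ ((m + 1 : ℕ) : ℝ) * 2 ^ (m + 1) := by positivity
      linarith
    rw [hE]
    exact one_le_mul_of_one_le_of_one_le (one_le_mul_of_one_le_of_one_le h1 h2)
      (one_le_pow₀ hE₀1)
  refine ⟨E * C₁, q, one_le_mul_of_one_le_of_one_le hE1 hC₁, ?_⟩
  intro H F hFH
  obtain ⟨U₀, V₀, Δ₀, hΔ₀, hUV, hΔd, hVd, hVj, hsz⟩ := hVD H F hFH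
  have hF := hFH.crv
  have hH := hFH.one
  have hdeg := hF.deg
  have hmon := hF.monic
  have hk1 : 1 ≤ F.natDegree := by omega
  have hC₁H : 1 ≤ C₁ * H := one_le_mul_of_one_le_of_one_le hC₁ hH
  have hHCH : H ≤ C₁ * H := by nlinarith
  have hCEH : C₁ * H ≤ E * C₁ * H := by
    have : 0 ≤ (E - 1) * (C₁ * H) := mul_nonneg (by linarith) (by linarith)
    linarith
  have hN := UUU.NN_sn (K := K) hSNM hmon hk1
  refine ⟨Δ₀ ^ 2 * F.coeff 0, mul_ne_zero (pow_ne_zero 2 hΔ₀) hF.ne, ?_, ?_, ?_⟩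
  · refine natDegree_mul_le.trans ?_
    have h1 : (Δ₀ ^ 2).natDegree ≤ 2 * s₁ := natDegree_pow_le.trans (by omega)
    have h2 := coeff_deg hFH 0
    omega
  · intro φ
    obtain ⟨p0, -, -, pmul, ppow, -, -, -, -⟩ := hPN (𝓞 K) (res φ)
    have h1 : pn (res φ) (Δ₀ ^ 2) ≤ ((C₁ * H) ^ s₁) ^ 2 :=
      (ppow _ 2).trans (pow_le_pow_left₀ (p0 _) (hsz φ).1 2)
    have h2 := coeff_pn hFH φ 0
    calc pn (res φ) (Δ₀ ^ 2 * F.coeff 0) ≤ pn (res φ) (Δ₀ ^ 2) * pn (res φ) (F.coeff 0) := pmul _ _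
      _ ≤ ((C₁ * H) ^ s₁) ^ 2 * (C₁ * H) :=
          mul_le_mul h1 (h2.trans hHCH) (p0 _) (by positivity)
      _ = (C₁ * H) ^ (s₁ * 2 + 1) := by ring
      _ ≤ (C₁ * H) ^ q := pow_le_pow_right₀ hC₁H (by omega)
      _ ≤ (E * C₁ * H) ^ q := pow_le_pow_left₀ (by positivity) hCEH q
  intro t₀ hΔt n
  -- the data at t₀
  set A := AdjoinRoot (spc F t₀) with hA
  set x : A := AdjoinRoot.root (spc F t₀) with hx
  set T₀ : A := algebraMap (𝓞 K) A t₀ with hT₀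
  have hroot : ev2 F T₀ x = 0 := UUU.ev2_root F t₀
  have hds : ev2 (derivative F) T₀ x * ev2 V₀ T₀ x = algebraMap (𝓞 K) A (Δ₀.eval t₀) := by
    have h := congrArg (fun P => ev2 P T₀ x) hUV
    simp only [UUU.ev2_add, UUU.ev2_mul, UUU.ev2_C] at h
    rw [hroot, mul_zero, zero_add, hT₀, aeval_algebraMap_apply_eq_algebraMap_eval] at h
    rw [mul_comm]
    exact h
  have hxs : x * (-(ev2 (divX F) T₀ x)) = algebraMap (𝓞 K) A ((F.coeff 0).eval t₀) := by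
    have h := congrArg (fun P => ev2 P T₀ x) (divX_mul_X_add F)
    simp only [UUU.ev2_add, UUU.ev2_mul, UUU.ev2_C, UUU.ev2_X] at h
    rw [hroot] at h
    rw [← aeval_algebraMap_apply_eq_algebraMap_eval]
    have h2 : aeval (algebraMap (𝓞 K) A t₀) (F.coeff 0) = aeval T₀ (F.coeff 0) := rfl
    rw [h2]
    linear_combination -h
  obtain ⟨μ, hμ, hμe, hμN⟩ := hHN (𝓞 K) A F t₀ (Δ₀.eval t₀) ((F.coeff 0).eval t₀) x
    (-(ev2 (divX F) T₀ x)) (ev2 V₀ T₀ x) hdeg.le (coeff_deg hFH) hroot hds hxs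
  have hdd : (Δ₀ ^ 2 * F.coeff 0).eval t₀ = Δ₀.eval t₀ ^ 2 * (F.coeff 0).eval t₀ := by
    rw [eval_mul, eval_pow]
  obtain ⟨T, hT, hTn⟩ := hUUA (𝓞 K) F t₀ ((Δ₀ ^ 2 * F.coeff 0).eval t₀)
    (UUU.spc_monic hmon t₀) μ hmon hk1 hμ (by rw [hdd]; exact hμe)
  have key : ∀ k' : ℕ, F.natDegree = k' → ∃ U : Fin k' → Fin k' → PowerSeries (𝓞 K),
        (∀ i j, PowerSeries.constantCoeff (U i j) = if i = j then 1 else 0) ∧
        (∀ j : Fin k', ∑ i : Fin k',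
          PowerSeries.C ((Pd.cf F n i).eval t₀) * U i j =
            tay (Pd.cf F n j) t₀ ((Δ₀ ^ 2 * F.coeff 0).eval t₀)) ∧
        ∀ (φ : K →+* ℂ) i j r, ‖res φ (PowerSeries.coeff r (U i j))‖ ≤
          k' * ((E₀ * (C₁ * H * tt φ t₀ 1) ^ e₀) ^ (k' + 2) * 2 ^ n) *
      (4 * (C₂ * (E₀ * (C₁ * H * tt φ t₀ 1) ^ e₀) ^ s₂) *
        (1 + k' * ((E₀ * (C₁ * H * tt φ t₀ 1) ^ e₀) ^ (k' + 2) * 2 ^ k'))) ^ r := by
    rintro _ rfl
    refine ⟨fun i j => ∑ l : Fin F.natDegree, crd (spc F t₀) (UUU.spc_monic hmon t₀) l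
            (PowerSeries.C (AdjoinRoot.root (spc F t₀) ^ (i : ℕ)) * μ ^ n) * T l j,
            (hTn n).1, (hTn n).2, fun φ i j r => ?_⟩
    have ht1 := UUU.one_le_tt φ t₀
    have htt : ‖res φ t₀‖ ≤ tt φ t₀ 1 := le_max_left _ _
    have hNt := hN t₀ φ
    obtain ⟨hsΔ, hsV⟩ := hsz φ
    generalize tt φ t₀ 1 = τ at ht1 htt ⊢
    obtain ⟨Y, hY⟩ : ∃ Y : ℝ, Y = C₁ * H * τ := ⟨_, rfl⟩
    have hY1 : 1 ≤ Y := by rw [hY]; exact one_le_mul_of_one_le_of_one_le hC₁H ht1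
    have hτY : τ ≤ Y := by rw [hY]; nlinarith
    have hCHY : C₁ * H ≤ Y := by rw [hY]; nlinarith
    have hHY : H ≤ Y := hHCH.trans hCHY
    rw [← hY]
    have hY0 : 0 ≤ Y := by linarith
    have hYD : 1 ≤ Y ^ D := one_le_pow₀ hY1
    have hYp : ∀ a, a ≤ D → Y ^ a ≤ Y ^ D := fun a ha => pow_le_pow_right₀ hY1 ha
    have hτD : τ ^ D ≤ Y ^ D := pow_le_pow_left₀ (by linarith) hτY D
    have hHτ : H * τ ^ σ ≤ Y ^ D := by
      calc H * τ ^ σ ≤ Y * Y ^ σ :=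
            mul_le_mul hHY (pow_le_pow_left₀ (by linarith) hτY σ) (by positivity) hY0
        _ = Y ^ (σ + 1) := by ring
        _ ≤ Y ^ D := hYp _ (by omega)
    have hkdeg : (F.natDegree : ℝ) = ((m + 1 : ℕ) : ℝ) := by rw [hdeg]
    obtain ⟨M₁, hM₁⟩ : ∃ M₁ : ℝ, M₁ = 2 * ((m + 1 : ℕ) : ℝ) * Y ^ D := ⟨_, rfl⟩
    have hkY : ((m + 1 : ℕ) : ℝ) ≤ ((m + 1 : ℕ) : ℝ) * Y ^ D := by nlinarith
    have hM₁1 : 1 ≤ M₁ := by rw [hM₁]; linarith
    have hM₁k : ((m + 1 : ℕ) : ℝ) * Y ^ D ≤ M₁ := by rw [hM₁]; linarith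
    obtain ⟨M, hM⟩ : ∃ M : ℝ, M = ((D : ℝ) + 1) * (((m + 1 : ℕ) : ℝ) * (Y ^ D * Y ^ D)) *
      M₁ ^ (D + 1) := ⟨_, rfl⟩
    have hMeq : E₀ * Y ^ e₀ = M := by
      have h1 : Y ^ (2 * D + D * (D + 1)) = Y ^ D * Y ^ D * (Y ^ D) ^ (D + 1) := by
        rw [pow_add, two_mul, pow_add, pow_mul]
      rw [hM, hM₁, hE₀, he₀, h1, mul_pow (2 * ((m + 1 : ℕ) : ℝ)) (Y ^ D) (D + 1)]
      ring
    have hkYY : (1 : ℝ) ≤ ((m + 1 : ℕ) : ℝ) * (Y ^ D * Y ^ D) :=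
      one_le_mul_of_one_le_of_one_le hkp (one_le_mul_of_one_le_of_one_le hYD hYD)
    have hM₁M : M₁ ≤ M := by
      have h1 : M₁ ≤ M₁ ^ (D + 1) := by
        calc M₁ = M₁ ^ 1 := (pow_one _).symm
          _ ≤ M₁ ^ (D + 1) := pow_le_pow_right₀ hM₁1 (by omega)
      have h2 : (1 : ℝ) ≤ ((D : ℝ) + 1) * (((m + 1 : ℕ) : ℝ) * (Y ^ D * Y ^ D)) :=
        one_le_mul_of_one_le_of_one_le hD1r hkYY
      rw [hM]
      have h3 : 0 ≤ M₁ ^ (D + 1) := by positivity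
      nlinarith
    have hM1 : 1 ≤ M := hM₁1.trans hM₁M
    have hkYYM : ((m + 1 : ℕ) : ℝ) * (Y ^ D * Y ^ D) ≤ M := by
      have h1 : (1 : ℝ) ≤ M₁ ^ (D + 1) := one_le_pow₀ hM₁1
      rw [hM]
      have h4 : (0 : ℝ) ≤ ((m + 1 : ℕ) : ℝ) * (Y ^ D * Y ^ D) := by linarith
      calc ((m + 1 : ℕ) : ℝ) * (Y ^ D * Y ^ D) ≤
          ((D : ℝ) + 1) * (((m + 1 : ℕ) : ℝ) * (Y ^ D * Y ^ D)) := by nlinarith
        _ ≤ ((D : ℝ) + 1) * (((m + 1 : ℕ) : ℝ) * (Y ^ D * Y ^ D)) * M₁ ^ (D + 1) := by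
          have h5 : 0 ≤ ((D : ℝ) + 1) * (((m + 1 : ℕ) : ℝ) * (Y ^ D * Y ^ D)) := by positivity
          nlinarith
    have hkYDM : ((m + 1 : ℕ) : ℝ) * Y ^ D ≤ M := hM₁k.trans hM₁M
    -- sizes of images of constants
    have halg : ∀ b : 𝓞 K, UUU.NN hmon t₀ φ (algebraMap (𝓞 K) A b) =
        ((m + 1 : ℕ) : ℝ) * ‖res φ b‖ := by
      intro b
      have h := (hSNM (𝓞 K) (res φ) (spc F t₀) (UUU.spc_monic hmon t₀)
        (by rw [UUU.spc_deg hmon]; exact hk1)).2.2.1 b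
      rw [UUU.spc_deg hmon, hdeg] at h
      exact h
    have hN1 : UUU.NN hmon t₀ φ 1 ≤ M₁ := by
      have h := halg 1
      rw [map_one, map_one, norm_one, mul_one] at h
      rw [h]; exact hkY.trans hM₁k
    have hNT : UUU.NN hmon t₀ φ T₀ ≤ M₁ := by
      rw [hT₀, halg]
      refine le_trans ?_ hM₁k
      refine mul_le_mul_of_nonneg_left ?_ (by linarith)
      refine (htt.trans hτY).trans ?_
      calc Y = Y ^ 1 := (pow_one Y).symm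
        _ ≤ Y ^ D := hYp 1 (by omega)
    have hNx : UUU.NN hmon t₀ φ x ≤ M₁ := by
      have h := (hSNM (𝓞 K) (res φ) (spc F t₀) (UUU.spc_monic hmon t₀)
        (by rw [UUU.spc_deg hmon]; exact hk1)).2.2.2
      rw [UUU.spc_deg hmon, hdeg] at h
      refine h.trans ?_
      have h1 : ∑ j ∈ range (m + 1), ‖res φ ((spc F t₀).coeff j)‖ ≤
          ((m + 1 : ℕ) : ℝ) * Y ^ D := by
        have h2 : ∀ j ∈ range (m + 1), ‖res φ ((spc F t₀).coeff j)‖ ≤ Y ^ D := by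
          intro j hj
          have h3 : (spc F t₀).coeff j = (F.coeff j).eval t₀ := by
            unfold spc
            rw [coeff_map, coe_evalRingHom]
          rw [h3]
          refine (eval_le (res φ) (F.coeff j) t₀ τ σ ht1 htt (coeff_deg hFH j)).trans ?_
          refine le_trans ?_ hHτ
          exact mul_le_mul_of_nonneg_right (coeff_pn hFH φ j) (by positivity)
        refine (Finset.sum_le_card_nsmul _ _ _ h2).trans (le_of_eq ?_)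
        rw [card_range, nsmul_eq_mul]
      rw [hM₁]; linarith
    have hev : ∀ Q : (𝓞 K)[X][X], Q.natDegree ≤ D → (∀ j, (Q.coeff j).natDegree ≤ D) →
        (∀ j, pn (res φ) (Q.coeff j) ≤ Y ^ D) → UUU.NN hmon t₀ φ (ev2 Q T₀ x) ≤ M := by
      intro Q h1 h2 h3
      have h := ev2_le hSNM hmon hk1 t₀ φ τ M₁ (Y ^ D) D ht1 htt hM₁1 hN1 hNx (by positivity)
        Q h1 h2 h3
      refine h.trans ?_
      rw [hM, hkdeg]
      refine mul_le_mul_of_nonneg_right ?_ (by positivity)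
      refine mul_le_mul_of_nonneg_left ?_ (by linarith)
      refine mul_le_mul_of_nonneg_left ?_ (by linarith)
      exact mul_le_mul_of_nonneg_left hτD (by positivity)
    have m4 : UUU.NN hmon t₀ φ (ev2 (divX F) T₀ x) ≤ M := by
      refine hev (divX F) ?_ (fun j => ?_) (fun j => ?_)
      · rw [natDegree_divX_eq_natDegree_tsub_one, hdeg]; omega
      · rw [coeff_divX]; exact (coeff_deg hFH _).trans (by omega)
      · rw [coeff_divX]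
        refine ((coeff_pn hFH φ _).trans hHY).trans ?_
        calc Y = Y ^ 1 := (pow_one Y).symm
          _ ≤ Y ^ D := hYp 1 (by omega)
    have m5 : UUU.NN hmon t₀ φ (ev2 V₀ T₀ x) ≤ M := by
      refine hev V₀ (hVd.trans (by omega)) (fun j => (hVj j).trans (by omega)) (fun j => ?_)
      refine (hsV j).trans ?_
      exact (pow_le_pow_left₀ (by linarith) hCHY s₁).trans (hYp s₁ (by omega))
    have m6 : UUU.NN hmon t₀ φ (algebraMap (𝓞 K) A (Δ₀.eval t₀)) ≤ M := by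
      rw [halg]
      refine le_trans ?_ hkYYM
      refine mul_le_mul_of_nonneg_left ?_ (by linarith)
      refine (eval_le (res φ) Δ₀ t₀ τ s₁ ht1 htt hΔd).trans ?_
      refine mul_le_mul ?_ ?_ (by positivity) (by positivity)
      · exact hsΔ.trans ((pow_le_pow_left₀ (by linarith) hCHY s₁).trans (hYp s₁ (by omega)))
      · exact (pow_le_pow_left₀ (by linarith) hτY s₁).trans (hYp s₁ (by omega))
    have m7 : UUU.NN hmon t₀ φ (algebraMap (𝓞 K) A ((F.coeff 0).eval t₀)) ≤ M := by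
      rw [halg]
      refine le_trans ?_ hkYDM
      refine mul_le_mul_of_nonneg_left ?_ (by linarith)
      refine (eval_le (res φ) (F.coeff 0) t₀ τ σ ht1 htt (coeff_deg hFH 0)).trans ?_
      refine le_trans ?_ hHτ
      exact mul_le_mul_of_nonneg_right (coeff_pn hFH φ 0) (by positivity)
    have m8 : ∀ i j, UUU.NN hmon t₀ φ (algebraMap (𝓞 K) A ((F.coeff j).coeff i)) ≤ M := by
      intro i j
      rw [halg]
      refine le_trans ?_ hkYDM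
      refine mul_le_mul_of_nonneg_left ?_ (by linarith)
      obtain ⟨-, -, -, -, -, -, pco, -, -⟩ := hPN (𝓞 K) (res φ)
      refine (pco (F.coeff j) i).trans (((coeff_pn hFH φ j).trans hHY).trans ?_)
      calc Y = Y ^ 1 := (pow_one Y).symm
        _ ≤ Y ^ D := hYp 1 (by omega)
    have m1 : UUU.NN hmon t₀ φ 1 ≤ M := hN1.trans hM₁M
    have m2 : UUU.NN hmon t₀ φ T₀ ≤ M := hNT.trans hM₁M
    have m3 : UUU.NN hmon t₀ φ x ≤ M := hNx.trans hM₁M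
    have hμr := hμN (UUU.NN hmon t₀ φ) M hNt hM1 m1 m2 m3
      (by rw [hNt.neg]; exact m4) m5 m6 m7 m8
    rw [hMeq]
    exact UUU.core hMUN hINV (res φ) (spc F t₀) (UUU.spc_monic hmon t₀) F.natDegree
      (UUU.spc_deg hmon t₀)
      hNt (hSNM (𝓞 K) (res φ) (spc F t₀) (UUU.spc_monic hmon t₀)
        (by rw [UUU.spc_deg hmon]; exact hk1)).2.1 μ hμ M
      (C₂ * M ^ s₂) hM1 m1 m3 (by positivity) hμr T hT n i j r
  obtain ⟨U, hU1, hU2, hU3⟩ := key (m + 1) hdeg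
  refine ⟨U, hU1, hU2, fun φ i j r => (hU3 φ i j r).trans ?_⟩
  have ht1 := UUU.one_le_tt φ t₀
  have h1 := UUU.num (m + 1) n r e₀ s₂ E₀ C₂ (C₁ * H * tt φ t₀ 1) hE₀1 hC₂
    (one_le_mul_of_one_le_of_one_le hC₁H ht1)
  rw [← hE, ← hq] at h1
  exact h1.trans (fin_num E C₁ H (tt φ t₀ 1) q n r hE1 hC₁ hH ht1 hq1)

end Pool.Agent.Work.MP_8d13b5_lc.Fm
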