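import Pool.Agent.Work.MP_8d13b5_lc.Fm.StmtsU
import Pool.Agent.Work.MP_8d13b5_lc.Fm.I_VE2

set_option autoImplicit false

/-! Block `Fm`, item VVE: the auxiliary vectors, uniform version. -/

namespace Pool.Agent.Work.MP_8d13b5_lc.Fm

open Polynomial NumberField Finset Module

open VE2

theorem prVVE (hVG2 : StVG2) (hVUU : StVUU) (hCRA : StCRA) (hID2 : StID2) (hHDQ : StHDQ)
    (hCFD : StCFD) (hPN : StPN) : StVVE := by
  classical
  intro K _ _ m σ hm
  obtain ⟨γ, hG⟩ := hVG2 K m σ hm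
  obtain ⟨C₀, s₀, hC₀, hU⟩ := hVUU K m σ
  refine ⟨γ, s₀, 2 * s₀, fun N₁ hN₁ => ?_⟩
  obtain ⟨C₁, s₃, hC₁, hGn⟩ := hG N₁ hN₁
  have hm1 : (1 : ℝ) ≤ (m : ℝ) + 1 := by
    have : (0 : ℝ) ≤ m := Nat.cast_nonneg m
    linarith
  have hC₀0 : 0 ≤ C₀ := by linarith
  have hC₁0 : 0 ≤ C₁ := by linarith
  have hm0 : (0 : ℝ) ≤ (m : ℝ) + 1 := by linarith
  set CB : ℝ := 2 * (m + 1) * C₀ * C₁ with hCB
  have hCB1 : 1 ≤ CB :=
    one_le_mul_of_one_le_of_one_le (one_le_mul_of_one_le_of_one_le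
      (one_le_mul_of_one_le_of_one_le (by norm_num) hm1) hC₀) hC₁
  have hCBm : (m : ℝ) + 1 ≤ CB := by
    have h1 : (m : ℝ) + 1 ≤ 2 * (m + 1) := by linarith
    have h2 : 2 * ((m : ℝ) + 1) * 1 * 1 ≤ CB := by
      rw [hCB]
      gcongr
    linarith
  have hCB2 : (2 : ℝ) ≤ CB := by
    have h2 : 2 * (1 : ℝ) * 1 * 1 ≤ CB := by
      rw [hCB]
      gcongr
    linarith
  have hCBC₀ : C₀ ≤ CB := by
    have h2 : 1 * (1 : ℝ) * C₀ * 1 ≤ CB := by
      rw [hCB]
      gcongr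
      norm_num
    linarith
  have hCBC₁ : C₁ ≤ CB := by
    have h2 : 1 * (1 : ℝ) * 1 * C₁ ≤ CB := by
      rw [hCB]
      gcongr
      norm_num
    linarith
  refine ⟨CB, 1 + 1 + s₀ + (σ + 1) + s₃ + (1 + 2 * s₀) * m, hCB1, fun H F hFH => ?_⟩
  have hF := hFH.crv
  have hH := hFH.one
  have hH0 : 0 ≤ H := by linarith
  obtain ⟨Δ, hΔ, hΔd, hΔn, hU⟩ := hU H F hFH
  obtain ⟨c, hc, A, hA⟩ := hF.cop
  have hGn := hGn H F hFH
  set Y : ℝ := CB * H with hY
  have hY1 : 1 ≤ Y := one_le_mul_of_one_le_of_one_le hCB1 hH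
  have hY0 : 0 ≤ Y := by linarith
  have hCBY : CB ≤ Y := le_mul_of_one_le_right (by linarith) hH
  have hC₀Y : C₀ * H ≤ Y := mul_le_mul_of_nonneg_right hCBC₀ hH0
  have hC₁Y : C₁ * H ≤ Y := mul_le_mul_of_nonneg_right hCBC₁ hH0
  have hC₀H : 1 ≤ C₀ * H := one_le_mul_of_one_le_of_one_le hC₀ hH
  have hC₁H : 1 ≤ C₁ * H := one_le_mul_of_one_le_of_one_le hC₁ hH
  have hC₀H0 : 0 ≤ C₀ * H := by linarith
  have hC₁H0 : 0 ≤ C₁ * H := by linarith
  -- the degrees of the `E_j`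
  have hdE : ∀ n, ∀ j : Fin (m + 1), (Pd.cf F n j).natDegree ≤ σ * n := by
    intro n j
    have h1 := hCFD.2.2.1 (𝓞 K) m σ 1 F hF.monic hF.deg (fun i hi => by
      have h2 : (F.coeff i).natDegree ≤ σ := hFH.dg i hi
      rw [one_mul]
      exact h2.trans (Nat.le_mul_of_pos_right σ (by omega))) n j (by have := j.2; omega)
    rwa [one_mul] at h1
  have hpn0 : ∀ (φ : K →+* ℂ) (P : (𝓞 K)[X]), 0 ≤ pn (res φ) P := fun φ P =>
    (hPN (𝓞 K) (res φ)).1 P
  refine ⟨Δ, hΔ, hΔd.trans ?_, fun φ => (hΔn φ).trans ?_, fun n hn t₀ ht₀ => ?_⟩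
  · omega
  · exact (pow_le_pow_left₀ hC₀H0 hC₀Y _).trans (pow_le_pow_right₀ hY1 (by omega))
  obtain ⟨ℓ, Q, ⟨j₁, hj₁⟩, hℓ2, hQi, hQ0, hQd, hQn⟩ := hGn n hn
  obtain ⟨U, hU0, hU1, hU2⟩ := hU t₀ ht₀ n
  set h := n / N₁ with hh
  have hhn : h ≤ n := Nat.div_le_self _ _
  set d : 𝓞 K := Δ.eval t₀ with hd
  -- `∑ b_j E_j = C r₀`
  obtain ⟨b, hb⟩ := hID2 (𝓞 K)[X] m n F A (C c) hF.monic hF.deg hA
  set r₀ : 𝓞 K := c ^ ((m + 1) ^ 2 * n) with hr₀
  have hr₀0 : r₀ ≠ 0 := pow_ne_zero _ hc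
  have hb' : ∑ j, b j * Pd.cf F n j = C r₀ := by
    rw [hb, hr₀, C_pow]
  have hCr₀ : (C r₀ : (𝓞 K)[X]) ≠ 0 := by
    rwa [Ne, C_eq_zero]
  set E : Fin (m + 1) → (𝓞 K)[X] := fun j => Pd.cf F n j with hE
  have hE0 : E ≠ 0 := by
    intro h0
    apply hCr₀
    rw [← hb']
    refine Finset.sum_eq_zero fun j _ => ?_
    have : Pd.cf F n j = 0 := congrFun h0 j
    rw [this, mul_zero]
  obtain ⟨⟨j₂, hj₂⟩, hcr⟩ := hCRA (𝓞 K)[X] m E Q hE0 hQi hQ0
  set c' : (𝓞 K)[X] := ∑ i, b i * mnr Q i with hc'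
  have hkey : ∀ j, C r₀ * mnr Q j = c' * E j := by
    intro j
    rw [← hb', hc', Finset.sum_mul, Finset.sum_mul]
    refine Finset.sum_congr rfl fun i _ => ?_
    have h1 := hcr i j
    rw [hE] at h1 ⊢
    linear_combination b i * h1
  have hc'0 : c' ≠ 0 := by
    intro h0
    have h1 := hkey j₂
    rw [h0, zero_mul] at h1
    exact (mul_ne_zero hCr₀ hj₂) h1
  -- the degree of `c'`
  have hdc : c'.natDegree ≤ m * h := by
    obtain ⟨j, hEj, hj⟩ : ∃ j, E j ≠ 0 ∧ ∑ i, ℓ i ≤ (E j).natDegree := by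
      by_cases h0 : E j₁ = 0
      · obtain ⟨j, hj⟩ : ∃ j, E j ≠ 0 := by
          by_contra h1
          push Not at h1
          exact hE0 (funext h1)
        refine ⟨j, hj, ?_⟩
        have h1 : (Pd.cf F n j₁).natDegree = 0 := by
          have : Pd.cf F n j₁ = 0 := h0
          rw [this, natDegree_zero]
        rw [h1] at hj₁
        omega
      · exact ⟨j₁, h0, hj₁⟩
    have h1 := congrArg natDegree (hkey j)
    rw [natDegree_C_mul hr₀0, natDegree_mul hc'0 hEj] at h1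
    have h2 := natDegree_mnr_le Q (fun i => ℓ i + h) hQd j
    rw [Finset.sum_add_distrib, Finset.sum_const, Finset.card_univ, Fintype.card_fin,
      smul_eq_mul] at h2
    omega
  -- the order of vanishing
  have hT0 : taylor t₀ c' ≠ 0 := by
    intro h0
    apply hc'0
    have h1 : taylorEquiv t₀ c' = 0 := h0
    exact (EmbeddingLike.map_eq_zero_iff (f := taylorEquiv t₀)).1 h1
  set ρ : ℕ := (taylor t₀ c').natTrailingDegree with hρ
  have hρm : ρ ≤ m * h := by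
    refine (natTrailingDegree_le_natDegree _).trans ?_
    rw [natDegree_taylor]
    exact hdc
  have hd0 : d ≠ 0 := ht₀
  have hcρ : PowerSeries.coeff ρ (tayH t₀ d c') ≠ 0 := by
    rw [coeff_tayH, ← taylor_coeff]
    refine mul_ne_zero ?_ (pow_ne_zero _ hd0)
    exact trailingCoeff_nonzero_iff_nonzero.2 hT0
  have hcl : ∀ i < ρ, PowerSeries.coeff i (tayH t₀ d c') = 0 := by
    intro i hi
    rw [coeff_tayH, ← taylor_coeff, coeff_eq_zero_of_lt_natTrailingDegree hi, zero_mul]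
  -- the index `j₀`
  obtain ⟨j₀, hj₀⟩ : ∃ j, (E j).eval t₀ ≠ 0 := by
    by_contra h1
    push Not at h1
    have h2 := congrArg (fun P : (𝓞 K)[X] => P.eval t₀) hb'
    simp only [eval_finsetSum, eval_mul, eval_C] at h2
    apply hr₀0
    rw [← h2]
    refine Finset.sum_eq_zero fun j _ => ?_
    have h3 : (Pd.cf F n j).eval t₀ = 0 := h1 j
    rw [h3, mul_zero]
  -- the minor of the Taylor series
  have hconst : PowerSeries.constantCoeff (tayH t₀ d (E j₀)) = (E j₀).eval t₀ := by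
    rw [← PowerSeries.coeff_zero_eq_constantCoeff_apply, coeff_tayH, hasseDeriv_zero, pow_zero,
      mul_one]
    rfl
  have hCC0 : ∀ i, PowerSeries.coeff i (tayH t₀ d (C r₀ * mnr Q j₀)) =
      r₀ * PowerSeries.coeff i (tayH t₀ d (mnr Q j₀)) := by
    intro i
    rw [coeff_tayH, coeff_tayH, ← smul_eq_C_mul, map_smul, eval_smul, smul_eq_mul, mul_assoc]
  have hM1 : PowerSeries.coeff ρ (tayH t₀ d (mnr Q j₀)) ≠ 0 := by
    intro h0
    have h1 := hCC0 ρ
    rw [h0, mul_zero, hkey, map_mul, coeff_low _ _ ρ hcl, hconst] at h1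
    exact (mul_ne_zero hcρ hj₀) h1
  have hM2 : ∀ i < ρ, PowerSeries.coeff i (tayH t₀ d (mnr Q j₀)) = 0 := by
    intro i hi
    have h1 := hCC0 i
    rw [hkey, map_mul, coeff_low_zero _ _ ρ hcl i hi] at h1
    exact (mul_eq_zero.1 h1.symm).resolve_left hr₀0
  -- the matrix
  set W : Fin m → Fin (m + 1) → PowerSeries (𝓞 K) := fun i a =>
    ∑ b', U a b' * tayH t₀ d (Q i b') with hW
  set M : Fin (m + 1) → Fin (m + 1) → PowerSeries (𝓞 K) :=
    Fin.cons (fun a => U a j₀) W with hM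
  have hMeq : Matrix.of M =
      CRA.mat (fun i l => tayH t₀ d (Q i l)) (Pi.single j₀ 1) * (Matrix.of U).transpose := by
    ext1 i a
    rw [Matrix.mul_apply]
    refine Fin.cases ?_ (fun i => ?_) i
    · have h1 : ∀ l ∈ (univ : Finset (Fin (m + 1))),
          CRA.mat (fun i l => tayH t₀ d (Q i l)) (Pi.single j₀ 1) 0 l *
            (Matrix.of U).transpose l a = if l = j₀ then U a j₀ else 0 := by
        intro l _
        by_cases hl : l = j₀
        · subst hl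
          simp [CRA.mat, Matrix.transpose_apply]
        · simp [CRA.mat, Matrix.transpose_apply, hl]
      rw [Finset.sum_congr rfl h1]
      simp [M]
    · simp only [CRA.mat, Matrix.of_apply, Matrix.transpose_apply, M, W, Fin.cons_succ]
      refine Finset.sum_congr rfl fun l _ => ?_
      rw [mul_comm]
  have hdetU : PowerSeries.constantCoeff (Matrix.of U).transpose.det = 1 := by
    rw [Matrix.det_transpose, RingHom.map_det]
    have h1 : (PowerSeries.constantCoeff (R := 𝓞 K)).mapMatrix (Matrix.of U) =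
        (1 : Matrix (Fin (m + 1)) (Fin (m + 1)) (𝓞 K)) := by
      ext1 i j
      rw [RingHom.mapMatrix_apply, Matrix.map_apply, Matrix.of_apply, hU0, Matrix.one_apply]
    rw [h1, Matrix.det_one]
  have hdet : PowerSeries.coeff ρ (Matrix.of M).det ≠ 0 := by
    rw [hMeq, Matrix.det_mul, CRA.det_mat]
    have h1 : ∑ l, (Pi.single j₀ 1 : Fin (m + 1) → PowerSeries (𝓞 K)) l *
        mnr (fun i l => tayH t₀ d (Q i l)) l = tayH t₀ d (mnr Q j₀) := by
      rw [Finset.sum_eq_single j₀]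
      · rw [Pi.single_eq_same, one_mul, map_mnr]
      · intro l _ hl
        rw [Pi.single_eq_of_ne hl, zero_mul]
      · intro h
        exact absurd (Finset.mem_univ _) h
    rw [h1, coeff_low _ _ ρ hM2, hdetU, mul_one]
    exact hM1
  obtain ⟨r, hr, hdr⟩ := hHDQ (𝓞 K) (m + 1) ρ M hdet
  have hrs : ∑ i : Fin m, r i.succ ≤ m * h := by
    rw [Fin.sum_univ_succ] at hr
    omega
  refine ⟨ℓ, fun i => r i.succ, fun i a => PowerSeries.coeff (r i.succ) (W i a),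
    ⟨j₁, hj₁⟩, hℓ2, hrs, ?_, ?_, ?_⟩
  · rw [Fintype.linearIndependent_iff]
    intro g hg i
    have h1 : (Fin.cons 0 g : Fin (m + 1) → 𝓞 K) = 0 := by
      refine Matrix.eq_zero_of_vecMul_eq_zero hdr ?_
      funext a
      have h2 := congrFun hg a
      rw [Finset.sum_apply] at h2
      simp only [Pi.smul_apply, smul_eq_mul, Pi.zero_apply] at h2
      simp only [Matrix.vecMul, dotProduct, Fin.sum_univ_succ, Pi.zero_apply, Matrix.of_apply,
        Fin.cons_zero, Fin.cons_succ, zero_mul, zero_add, M]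
      exact h2
    have h3 := congrFun h1 i.succ
    simpa using h3
  · intro i
    have h1 : ∑ a, W i a * PowerSeries.C ((Pd.cf F n a).eval t₀) = 0 := by
      have h2 : ∀ a ∈ (univ : Finset (Fin (m + 1))),
          W i a * PowerSeries.C ((Pd.cf F n a).eval t₀) =
          ∑ b', tayH t₀ d (Q i b') * (PowerSeries.C ((Pd.cf F n a).eval t₀) * U a b') := by
        intro a _
        rw [hW]
        beta_reduce
        rw [Finset.sum_mul]
        refine Finset.sum_congr rfl fun b' _ => ?_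
        ring
      rw [Finset.sum_congr rfl h2, Finset.sum_comm]
      have h3 : ∀ b' ∈ (univ : Finset (Fin (m + 1))),
          ∑ a : Fin (m + 1), tayH t₀ d (Q i b') * (PowerSeries.C ((Pd.cf F n a).eval t₀) * U a b') =
          tayH t₀ d (Q i b' * Pd.cf F n b') := by
        intro b' _
        rw [← Finset.mul_sum, hU1 b', tay_eq, map_mul]
      rw [Finset.sum_congr rfl h3, ← map_sum, hQ0 i, map_zero]
    have h4 := congrArg (PowerSeries.coeff (r i.succ)) h1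
    rw [map_sum, map_zero] at h4
    rw [← h4]
    refine Finset.sum_congr rfl fun a _ => ?_
    rw [PowerSeries.coeff_mul_C]
  · intro φ i j
    set t := tt φ t₀ 1 with ht
    have ht1 : 1 ≤ t := one_le_tt φ t₀
    have ht0 : 0 ≤ t := by linarith
    set L := ℓ i + h with hL
    have hLn : L ≤ (σ + 1) * n := by
      have h1 : ℓ i ≤ ∑ i, ℓ i :=
        Finset.single_le_sum (f := ℓ) (fun _ _ => Nat.zero_le _) (Finset.mem_univ i)
      have h2 := hdE n j₁
      have h3 : (σ + 1) * n = σ * n + n := by ring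
      omega
    have hrn : r i.succ ≤ m * n := by
      have h1 : r i.succ ≤ ∑ i : Fin m, r i.succ :=
        Finset.single_le_sum (f := fun i : Fin m => r i.succ) (fun _ _ => Nat.zero_le _)
          (Finset.mem_univ i)
      exact h1.trans (hrs.trans (Nat.mul_le_mul_left m hhn))
    set G₁ : ℝ := (C₀ * H * t) ^ s₀ with hG₁
    set G₂ : ℝ := (C₀ * H) ^ s₀ * t ^ s₀ with hG₂
    have hG₁1 : 1 ≤ G₁ := one_le_pow₀ (one_le_mul_of_one_le_of_one_le hC₀H ht1)
    have hG₂1 : 1 ≤ G₂ :=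
      one_le_mul_of_one_le_of_one_le (one_le_pow₀ hC₀H) (one_le_pow₀ ht1)
    have hb1 : ∀ b', ‖res φ (PowerSeries.coeff (r i.succ) (U j b' * tayH t₀ d (Q i b')))‖ ≤
        (C₀ ^ n * G₁) * (2 ^ L * ((C₁ * H) ^ s₃) ^ n * t ^ L) * (2 * (G₁ * G₂)) ^ r i.succ := by
      intro b'
      refine norm_mul_le (res φ) _ _ _ _ _ _ (by positivity) hG₁1 hG₂1
        (by positivity) (fun r => ?_) (fun r => ?_) _
      · refine (hU2 φ j b' r).trans (le_of_eq ?_)
        rw [hG₁]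
        ring
      refine (tay_le hPN φ t₀ (Q i b') Δ L (hQd i b') r).trans ?_
      have h1 : 2 ^ L * pn (res φ) (Q i b') * t ^ L ≤ 2 ^ L * ((C₁ * H) ^ s₃) ^ n * t ^ L :=
        mul_le_mul_of_nonneg_right (mul_le_mul_of_nonneg_left (hQn φ i b') (by positivity))
          (pow_nonneg ht0 _)
      have h2 : (pn (res φ) Δ * t ^ Δ.natDegree) ^ r ≤ G₂ ^ r :=
        pow_le_pow_left₀ (mul_nonneg (hpn0 φ Δ) (pow_nonneg ht0 _))
          (mul_le_mul (hΔn φ) (pow_le_pow_right₀ ht1 hΔd) (pow_nonneg ht0 _)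
            (pow_nonneg hC₀H0 _)) r
      exact mul_le_mul h1 h2 (pow_nonneg (mul_nonneg (hpn0 φ Δ) (pow_nonneg ht0 _)) _)
        (by positivity)
    have h1 : ‖res φ (PowerSeries.coeff (r i.succ) (W i j))‖ ≤
        (m + 1) * ((C₀ ^ n * G₁) * (2 ^ L * ((C₁ * H) ^ s₃) ^ n * t ^ L) *
          (2 * (G₁ * G₂)) ^ r i.succ) := by
      rw [hW]
      beta_reduce
      rw [map_sum, map_sum]
      refine (norm_sum_le _ _).trans ((Finset.sum_le_sum fun b' _ => hb1 b').trans ?_)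
      rw [Finset.sum_const, Finset.card_univ, Fintype.card_fin, nsmul_eq_mul]
      push_cast
      exact le_rfl
    refine h1.trans ?_
    have h2 : ((m : ℝ) + 1) * ((C₀ ^ n * G₁) * (2 ^ L * ((C₁ * H) ^ s₃) ^ n * t ^ L) *
          (2 * (G₁ * G₂)) ^ r i.succ) =
        ((m + 1) * C₀ ^ n * (C₀ * H) ^ s₀ * 2 ^ L * ((C₁ * H) ^ s₃) ^ n *
          (2 * (C₀ * H) ^ (2 * s₀)) ^ r i.succ) *
          t ^ (ℓ i + h + s₀ + 2 * s₀ * r i.succ) := by
      have e1 : 2 * (G₁ * G₂) = (2 * (C₀ * H) ^ (2 * s₀)) * t ^ (2 * s₀) := by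
        rw [hG₁, hG₂, mul_pow (C₀ * H) t, two_mul s₀, pow_add, pow_add]
        ring
      rw [e1, mul_pow (2 * (C₀ * H) ^ (2 * s₀)), ← pow_mul t, pow_add t (ℓ i + h + s₀),
        pow_add t (ℓ i + h), ← hL, hG₁, mul_pow (C₀ * H) t]
      ring
    rw [h2]
    refine mul_le_mul_of_nonneg_right ?_ (pow_nonneg ht0 _)
    have h3 : (Y ^ (1 + 1 + s₀ + (σ + 1) + s₃ + (1 + 2 * s₀) * m)) ^ n =
        Y ^ n * Y ^ n * (Y ^ s₀) ^ n * Y ^ ((σ + 1) * n) * (Y ^ s₃) ^ n *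
          (Y * Y ^ (2 * s₀)) ^ (m * n) := by
      rw [← pow_succ', ← pow_mul, ← pow_mul, ← pow_mul, ← pow_mul, ← pow_add, ← pow_add,
        ← pow_add, ← pow_add, ← pow_add]
      congr 1
      ring
    rw [h3]
    have h4 : ((m : ℝ) + 1) ≤ Y ^ n := (hCBm.trans hCBY).trans (le_self_pow₀ hY1 (by omega))
    have h5 : C₀ ^ n ≤ Y ^ n := pow_le_pow_left₀ hC₀0 (hCBC₀.trans hCBY) _
    have h6 : (2 : ℝ) ^ L ≤ Y ^ ((σ + 1) * n) :=
      (pow_le_pow_left₀ (by norm_num) (hCB2.trans hCBY) _).trans (pow_le_pow_right₀ hY1 hLn)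
    have h8 : (C₀ * H) ^ s₀ ≤ (Y ^ s₀) ^ n :=
      (pow_le_pow_left₀ hC₀H0 hC₀Y _).trans (le_self_pow₀ (one_le_pow₀ hY1) (by omega))
    have h9 : ((C₁ * H) ^ s₃) ^ n ≤ (Y ^ s₃) ^ n :=
      pow_le_pow_left₀ (pow_nonneg hC₁H0 _) (pow_le_pow_left₀ hC₁H0 hC₁Y _) _
    have h7 : (2 * (C₀ * H) ^ (2 * s₀)) ^ r i.succ ≤ (Y * Y ^ (2 * s₀)) ^ (m * n) := by
      have h10 : 2 * (C₀ * H) ^ (2 * s₀) ≤ Y * Y ^ (2 * s₀) :=
        mul_le_mul (hCB2.trans hCBY) (pow_le_pow_left₀ hC₀H0 hC₀Y _) (pow_nonneg hC₀H0 _) hY0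
      exact (pow_le_pow_left₀ (by positivity) h10 _).trans (pow_le_pow_right₀
        (one_le_mul_of_one_le_of_one_le hY1 (one_le_pow₀ hY1)) hrn)
    gcongr

end Pool.Agent.Work.MP_8d13b5_lc.Fm
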