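import Pool.Agent.Work.MP_8d13b5_lc.Fm.StmtsW

set_option autoImplicit false

/-! Item WR2: assembly of part (2) of the general theorem. -/

namespace Pool.Agent.Work.MP_8d13b5_lc.Fm

open Polynomial NumberField Finset Module

theorem prWR2 : StWR2 := by
  intro _ hFLD hFDR hDAT hELI hCNT hVAN m G hG hdeg h0 hNC
  obtain ⟨E, _, _, D, τ, lam, hD⟩ := hDAT m G hG hdeg h0 hNC
  obtain ⟨w, hw⟩ : ∃ w : ℕ, ∀ i, (G.coeff i).natDegree ≤ w := by
    refine ⟨(range (m + 2)).sup fun i => (G.coeff i).natDegree, fun i => ?_⟩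
    by_cases hi : i < m + 2
    · exact Finset.le_sup (f := fun i => (G.coeff i).natDegree) (mem_range.2 hi)
    · rw [coeff_eq_zero_of_natDegree_lt (by omega), natDegree_zero]
      exact Nat.zero_le _
  obtain ⟨δ, c, hδ, hδ1, hδ2⟩ := hFDR m G E D τ lam w hD
  have hroot : ∀ j, (G.map ((aeval τ : ℂ[X] →ₐ[ℂ] E) : ℂ[X] →+* E)).eval (lam j) = 0 := by
    intro j
    rw [hD.split, eval_prod]
    exact Finset.prod_eq_zero (mem_univ j) (by rw [eval_sub, eval_X, eval_C, sub_self])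
  have hq := hFLD E m τ lam w G hG hdeg hw hroot
  refine ⟨(m + 1) ^ (m + 1) * (2 ^ m * (1 + (m + 1) * (w * m) + c)), ?_⟩
  intro n L P hP hPd hsum
  obtain ⟨a, ha, had, has⟩ := hVAN m G E D τ lam w hD hG hdeg n L P hP hPd hsum
  obtain ⟨i, j, hij, x, y, hx, hy, hxd, hyd, hxy⟩ :=
    hELI m G E D τ lam w c δ hD hδ hδ1 hδ2 n (L + (m + 1) * (w * m)) a ha had has
  refine (hCNT E (m + 1) τ lam w ((m + 1) ^ (m + 1)) hq i j (hD.ne j) (hD.quo i j hij) n _ x y
    hx hxd hyd hxy).trans ?_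
  rw [mul_assoc, mul_assoc]
  refine Nat.mul_le_mul_left _ (Nat.mul_le_mul_left _ ?_)
  nlinarith [Nat.zero_le (((m + 1) * (w * m) + c) * L)]

end Pool.Agent.Work.MP_8d13b5_lc.Fm
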