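import Mathlib

set_option autoImplicit false

/-! Polynomial functions of integers with values in a commutative ring. -/

namespace Pool.Agent.Work.MP_8d13b5_lc.Fm

open Finset

/-- `h` is a polynomial function (with coefficients in `R`) of the integers `a i` -/
def Pl {σ R : Type} [CommRing R] (h : (σ → ℤ) → R) : Prop :=
  ∃ P : MvPolynomial σ R, ∀ a, h a = MvPolynomial.eval (fun i => ((a i : ℤ) : R)) P

namespace Pl

variable {σ R : Type} [CommRing R]

theorem congr {h h' : (σ → ℤ) → R} (H : Pl h) (e : ∀ a, h' a = h a) : Pl h' := by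
  obtain ⟨P, hP⟩ := H
  exact ⟨P, fun a => by rw [e, hP]⟩

theorem const (c : R) : Pl (fun _ : σ → ℤ => c) := ⟨MvPolynomial.C c, fun a => by simp⟩

theorem var (i : σ) : Pl (fun a : σ → ℤ => ((a i : ℤ) : R)) := ⟨MvPolynomial.X i, fun a => by simp⟩

theorem add {h h' : (σ → ℤ) → R} (H : Pl h) (H' : Pl h') : Pl (fun a => h a + h' a) := by
  obtain ⟨P, hP⟩ := H
  obtain ⟨Q, hQ⟩ := H'
  exact ⟨P + Q, fun a => by rw [map_add, ← hP, ← hQ]⟩

theorem mul {h h' : (σ → ℤ) → R} (H : Pl h) (H' : Pl h') : Pl (fun a => h a * h' a) := by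
  obtain ⟨P, hP⟩ := H
  obtain ⟨Q, hQ⟩ := H'
  exact ⟨P * Q, fun a => by rw [map_mul, ← hP, ← hQ]⟩

theorem neg {h : (σ → ℤ) → R} (H : Pl h) : Pl (fun a => -h a) := by
  obtain ⟨P, hP⟩ := H
  exact ⟨-P, fun a => by rw [map_neg, ← hP]⟩

theorem sub {h h' : (σ → ℤ) → R} (H : Pl h) (H' : Pl h') : Pl (fun a => h a - h' a) :=
  (H.add H'.neg).congr fun a => sub_eq_add_neg _ _

theorem pow {h : (σ → ℤ) → R} (H : Pl h) (n : ℕ) : Pl (fun a => h a ^ n) := by
  obtain ⟨P, hP⟩ := H
  exact ⟨P ^ n, fun a => by rw [map_pow, ← hP]⟩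

theorem sum {ι : Type} (s : Finset ι) {h : ι → (σ → ℤ) → R} (H : ∀ i ∈ s, Pl (h i)) :
    Pl (fun a => ∑ i ∈ s, h i a) := by
  classical
  induction s using Finset.induction_on with
  | empty => exact (const (0 : R)).congr fun a => by simp
  | insert i s hi ih =>
    refine ((H i (mem_insert_self i s)).add (ih fun j hj => H j (mem_insert_of_mem hj))).congr
      fun a => ?_
    rw [Finset.sum_insert hi]

theorem prod {ι : Type} (s : Finset ι) {h : ι → (σ → ℤ) → R} (H : ∀ i ∈ s, Pl (h i)) :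
    Pl (fun a => ∏ i ∈ s, h i a) := by
  classical
  induction s using Finset.induction_on with
  | empty => exact (const (1 : R)).congr fun a => by simp
  | insert i s hi ih =>
    refine ((H i (mem_insert_self i s)).mul (ih fun j hj => H j (mem_insert_of_mem hj))).congr
      fun a => ?_
    rw [Finset.prod_insert hi]

/-- the image under a ring homomorphism -/
theorem map {S : Type} [CommRing S] (ψ : R →+* S) {h : (σ → ℤ) → R} (H : Pl h) :
    Pl (fun a => ψ (h a)) := by
  obtain ⟨P, hP⟩ := H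
  refine ⟨MvPolynomial.map ψ P, fun a => ?_⟩
  show ψ (h a) = _
  rw [hP, MvPolynomial.eval_map, MvPolynomial.eval, MvPolynomial.coe_eval₂Hom,
    MvPolynomial.eval₂_comp_left]
  congr 1
  funext i
  simp

theorem int_iff {h : (σ → ℤ) → ℤ} :
    Pl h ↔ ∃ P : MvPolynomial σ ℤ, ∀ a, h a = MvPolynomial.eval a P := by
  unfold Pl
  simp only [Int.cast_id]

/-- the image under an additive map to the integers (a coordinate) -/
theorem lin (L : R →+ ℤ) {h : (σ → ℤ) → R} (H : Pl h) : Pl (fun a => L (h a)) := by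
  rw [int_iff]
  obtain ⟨P, hP⟩ := H
  have key : ∀ P : MvPolynomial σ R, ∃ Q : MvPolynomial σ ℤ, ∀ a : σ → ℤ,
      L (MvPolynomial.eval (fun i => ((a i : ℤ) : R)) P) = MvPolynomial.eval a Q := by
    intro P
    induction P using MvPolynomial.induction_on with
    | C c => exact ⟨MvPolynomial.C (L c), fun a => by simp⟩
    | add p q hp hq =>
      obtain ⟨P', hP'⟩ := hp
      obtain ⟨Q', hQ'⟩ := hq
      exact ⟨P' + Q', fun a => by rw [map_add, map_add, map_add, hP', hQ']⟩
    | mul_X p i hp =>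
      obtain ⟨P', hP'⟩ := hp
      refine ⟨P' * MvPolynomial.X i, fun a => ?_⟩
      have e1 : MvPolynomial.eval (fun i => ((a i : ℤ) : R)) (p * MvPolynomial.X i) =
          (a i : ℤ) • MvPolynomial.eval (fun i => ((a i : ℤ) : R)) p := by
        rw [map_mul, MvPolynomial.eval_X, mul_comm, zsmul_eq_mul]
      have e2 : MvPolynomial.eval a (P' * MvPolynomial.X i) = MvPolynomial.eval a P' * a i := by
        rw [map_mul, MvPolynomial.eval_X]
      rw [e1, map_zsmul, hP' a, e2, smul_eq_mul, mul_comm]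
  obtain ⟨Q, hQ⟩ := key P
  refine ⟨Q, fun a => ?_⟩
  rw [hP, hQ]

/-- determinants -/
theorem det {ι : Type} [Fintype ι] [DecidableEq ι] (M : (σ → ℤ) → Matrix ι ι R)
    (H : ∀ i j, Pl (fun a => M a i j)) : Pl (fun a => (M a).det) := by
  have h1 : Pl (fun a => ∑ τ : Equiv.Perm ι, ((Equiv.Perm.sign τ : ℤ) : R) *
      ∏ i, M a (τ i) i) :=
    sum _ fun τ _ => (const _).mul (prod _ fun i _ => H (τ i) i)
  refine h1.congr fun a => ?_
  rw [Matrix.det_apply']

/-- entries of the adjugate -/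
theorem adj {ι : Type} [Fintype ι] [DecidableEq ι] (M : (σ → ℤ) → Matrix ι ι R)
    (H : ∀ i j, Pl (fun a => M a i j)) (i j : ι) : Pl (fun a => (M a).adjugate i j) := by
  have h1 : Pl (fun a => ((M a).updateRow j (Pi.single i 1)).det) := by
    refine det _ fun k l => ?_
    by_cases hk : k = j
    · subst hk
      refine (const ((Pi.single i (1 : R) : ι → R) l)).congr fun a => ?_
      rw [Matrix.updateRow_self]
    · refine (H k l).congr fun a => ?_
      rw [Matrix.updateRow_ne hk]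
  refine h1.congr fun a => ?_
  rw [Matrix.adjugate_apply]

end Pl

end Pool.Agent.Work.MP_8d13b5_lc.Fm
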