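import Pool.Agent.Work.MP_8d13b5_lc.Fm.StmtsSimple
import Pool.Agent.Work.MP_8d13b5_lc.Fm.All7

set_option autoImplicit false

/-! Item SHN of block SIM: the polynomial reduction of a family without multiple roots can be chosen with a
recurrence without multiple roots. After `R_RHN.lean`. -/

namespace Pool.Agent.Work.MP_8d13b5_lc.Fm

open Polynomial NumberField Finset Module

theorem prSHN (hSPS : StSPS) (hSZH : StSZH) : StSHN := by
  classical
  intro F e d hF hFd hd h0 hW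
  by_cases hsep : (F.map (algebraMap ℤ[X] (FractionRing ℤ[X]))).Separable
  swap
  · obtain ⟨N, T₀, c, f, W, h⟩ := rRHN F e d hF hFd hd h0 hW
    exact ⟨N, T₀, c, f, W, h, fun h' => absurd h' hsep⟩
  obtain ⟨K, _, _, N, D, r₀, k, θ₀, G, hN, hD, hθ₀, hG, hGd, hG0, hWG, hrat, hdvd₀⟩ :=
    hRZH F e hF (hFd.symm ▸ hd) h0 hW
  obtain ⟨r, θ, hθi, hrange, hdvd⟩ := hSZH F hF hsep K N D r₀ θ₀ G hD hN hG hdvd₀
  have hθ : ∀ j, θ j ≠ 0 := by
    intro j
    have h1 : θ j ∈ Set.range θ₀ := hrange ▸ Set.mem_range_self j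
    obtain ⟨i, hi⟩ := h1
    rw [← hi]
    exact hθ₀ i
  obtain ⟨f, hf, hf0, hfs, hsq⟩ := hSPS K r θ hθ hθi
  set H : ℝ := 1 + ∑ φ : K →+* ℂ, ∑ i ∈ range (k + 1), pn (res φ) (G.coeff i) with hH
  obtain ⟨c₁, hc₁, hz⟩ := hHZR K k (e * N) r θ hθ
  have hpn : ∀ (φ : K →+* ℂ) (P : (𝓞 K)[X]), 0 ≤ pn (res φ) P := by
    intro φ P
    unfold pn
    exact sum_nonneg fun _ _ => norm_nonneg _
  have hGH : IsCrE k (e * N) H G := by
    refine ⟨⟨hG, hGd, hG0, hrat⟩, ?_, hWG, ?_⟩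
    · rw [hH]
      have : 0 ≤ ∑ φ : K →+* ℂ, ∑ i ∈ range (k + 1), pn (res φ) (G.coeff i) :=
        sum_nonneg fun φ _ => sum_nonneg fun i _ => hpn φ _
      linarith
    · intro φ i hi
      have h5 : pn (res φ) (G.coeff i) ≤ ∑ i ∈ range (k + 1), pn (res φ) (G.coeff i) :=
        single_le_sum (f := fun i => pn (res φ) (G.coeff i)) (fun _ _ => hpn φ _)
          (mem_range.2 (by omega))
      have h6 : ∑ i ∈ range (k + 1), pn (res φ) (G.coeff i) ≤
          ∑ φ : K →+* ℂ, ∑ i ∈ range (k + 1), pn (res φ) (G.coeff i) :=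
        single_le_sum (f := fun φ : K →+* ℂ => ∑ i ∈ range (k + 1), pn (res φ) (G.coeff i))
          (fun φ _ => sum_nonneg fun i _ => hpn φ _) (mem_univ φ)
      linarith
  set L := N + N * ((k + 1) * r) with hL
  obtain ⟨T₂, s, hT₂, hs⟩ := HNR.grow_h hHB1 F hF e L
  set D' := finrank ℚ K with hD'
  have hD'1 : 1 ≤ D' := finrank_pos
  choose W hWq using fun q => RRHN.qdata hHB1 rRPC rRPA F e d hF hFd hd N D r k θ G hG hGd f hsq q
  refine ⟨N, T₂ + D ^ L + ⌈(c₁ * H) ^ c₁⌉₊, (1 + s + D') * c₁, f, W, ⟨hN, hf, hf0, ?_⟩, fun _ => hfs⟩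
  intro x y hxy ht u hu q hq
  obtain ⟨htt, hTT, hcop, hone⟩ := prINT K x y
  rw [← hD'] at hTT
  obtain ⟨t, htdef⟩ : ∃ t : ℕ, t = mx x y := ⟨_, rfl⟩
  rw [← htdef] at ht hTT hone ⊢
  have hT1 : 1 ≤ t := by omega
  have hTr : (1 : ℝ) ≤ (t : ℝ) := by exact_mod_cast hT1
  have hTT1 : (c₁ * H) ^ c₁ ≤ TT (x : 𝓞 K) (y : 𝓞 K) := by
    rw [hTT]
    calc (c₁ * H) ^ c₁ ≤ (⌈(c₁ * H) ^ c₁⌉₊ : ℝ) := Nat.le_ceil _
      _ ≤ (t : ℝ) := by exact_mod_cast (by omega : ⌈(c₁ * H) ^ c₁⌉₊ ≤ t)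
      _ ≤ (t : ℝ) ^ D' := le_self_pow₀ hTr (by omega)
  have htt1 : ∀ φ : K →+* ℂ, 1 ≤ tt φ (x : 𝓞 K) (y : 𝓞 K) := by
    intro φ
    rw [htt φ, ← htdef]
    exact hTr
  have hsol := HNR.sub_sol prSBY (hsp e F x y) N D r θ (hsp (e * N) G (x : 𝓞 K) (y : 𝓞 K)) hN
    (HNR.hsp_dvd hHDV hHB1 F e hF hW N D r hN θ G hG hWG hdvd x y) u hu q
  obtain ⟨huniq, hz2⟩ := hz H G hGH (x : 𝓞 K) (y : 𝓞 K) (hcop hxy) htt1 hTT1
  obtain ⟨δ', v', hδ', hv', hvz', hB⟩ := hz2 _ hsol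
  obtain ⟨w, δ, v, hδ, hv, hvz, hw, hwW, hw0⟩ := hWq q x y u hu huniq hsol
  -- the two solutions are proportional
  have hprop : ∀ i n, δ' * v i n = δ * v' i n := by
    have h5 := huniq (fun i n => δ' * v i n - δ * v' i n)
      (fun i => ((hv i).smul δ').sub ((hv' i).smul δ)) (fun n => by
        have e1 : ∑ i : Fin (k + 1), Pd.cf (hsp (e * N) G (x : 𝓞 K) (y : 𝓞 K)) n i *
            (δ' * v i n - δ * v' i n) =
            δ' * (∑ i : Fin (k + 1), Pd.cf (hsp (e * N) G (x : 𝓞 K) (y : 𝓞 K)) n i * v i n) -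
            δ * (∑ i : Fin (k + 1), Pd.cf (hsp (e * N) G (x : 𝓞 K) (y : 𝓞 K)) n i * v' i n) := by
          rw [mul_sum, mul_sum, ← sum_sub_distrib]
          exact sum_congr rfl fun i _ => by ring
        rw [e1, ← hvz n, ← hvz' n]
        ring)
    intro i n
    have h6 := congrFun (congrFun h5 i) n
    exact sub_eq_zero.1 h6
  have hiff : ∀ n, (∀ i, v' i n = 0) → w n = 0 := by
    intro n hn
    refine (hw0 n).2 fun i => ?_
    have h6 := hprop i n
    rw [hn i, mul_zero] at h6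
    exact (mul_eq_zero.1 h6).resolve_left hδ'
  have hDK : (D : 𝓞 K) ≠ 0 := by
    have : D ≠ 0 := by omega
    exact_mod_cast this
  refine ⟨w, hw, hwW, ?_, ?_⟩
  · intro n hn
    have h5 := (hw0 n).1 hn
    have h6 := hvz n
    rw [sum_eq_zero (fun i _ => by rw [h5 i, mul_zero])] at h6
    have h7 := (mul_eq_zero.1 h6).resolve_left hδ
    have h8 := (mul_eq_zero.1 h7).resolve_left (pow_ne_zero _ hDK)
    exact_mod_cast h8
  · intro B hBu n hn hun
    obtain ⟨hb0, hbL⟩ := hs x y (by omega) u hu B (by rw [hFd]; exact hBu)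
    rw [← htdef] at hbL
    rcases Nat.eq_zero_or_pos B with hB0 | hBpos
    · -- all the values are zero
      have h5 := huniq v hv (fun n => by
        rw [← hvz n, hb0 _ hB0, Int.cast_zero, mul_zero, mul_zero])
      exact (hw0 n).2 fun i => by rw [h5]; rfl
    have hDL : D ^ L ≤ t := by omega
    have hDLr : ((D ^ L : ℕ) : ℝ) ≤ (t : ℝ) := by exact_mod_cast hDL
    have hDL1 : 1 ≤ D ^ L := Nat.one_le_pow _ _ hD
    have hBr : (1 : ℝ) ≤ (B : ℝ) := by exact_mod_cast hBpos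
    set B₁ : ℝ := ((D ^ L * (t ^ s * B) : ℕ) : ℝ) with hB₁
    have hB₁1 : 1 ≤ B₁ := by
      rw [hB₁]
      have h9 : 1 ≤ t ^ s := Nat.one_le_pow _ _ hT1
      have : 1 ≤ D ^ L * (t ^ s * B) := Nat.mul_pos hDL1 (Nat.mul_pos h9 hBpos)
      exact_mod_cast this
    have hzb : ∀ (φ : K →+* ℂ), ∀ n < (k + 1) * r,
        ‖res φ ((D : 𝓞 K) ^ (q + N * n) * ((u (q + N * n) : ℤ) : 𝓞 K))‖ ≤ B₁ := by
      intro φ j hj
      have hjL : q + N * j ≤ L := by
        have : N * j ≤ N * ((k + 1) * r) := Nat.mul_le_mul_left _ hj.le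
        omega
      have h9 := hbL (q + N * j) hjL
      rw [map_mul, map_pow, map_natCast, map_intCast, norm_mul, norm_pow, Complex.norm_natCast,
        Complex.norm_intCast, hB₁]
      have h10 : |((u (q + N * j) : ℤ) : ℝ)| = ((u (q + N * j)).natAbs : ℝ) := by
        rw [Nat.cast_natAbs, Int.cast_abs]
      rw [h10]
      have h11 : D ^ (q + N * j) * (u (q + N * j)).natAbs ≤ D ^ L * (t ^ s * B) :=
        Nat.mul_le_mul (Nat.pow_le_pow_right hD hjL) h9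
      exact_mod_cast h11
    have hlast := hB B₁ hB₁1 hzb n ?_ ?_
    · exact hiff n hlast
    · rw [hTT]
      have e1 : B₁ * (t : ℝ) ^ D' ≤ ((B : ℝ) * t) ^ (1 + s + D') := by
        have e2 : B₁ = ((D ^ L : ℕ) : ℝ) * ((t : ℝ) ^ s * B) := by
          rw [hB₁]
          push_cast
          ring
        have e3 : B₁ * (t : ℝ) ^ D' ≤ (B : ℝ) * (t : ℝ) ^ (1 + s + D') := by
          rw [e2]
          calc ((D ^ L : ℕ) : ℝ) * ((t : ℝ) ^ s * B) * (t : ℝ) ^ D'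
              ≤ (t : ℝ) * ((t : ℝ) ^ s * B) * (t : ℝ) ^ D' := by
                gcongr
            _ = (B : ℝ) * (t : ℝ) ^ (1 + s + D') := by
                rw [pow_add, pow_add, pow_one]
                ring
        refine e3.trans ?_
        rw [mul_pow]
        have e4 : (B : ℝ) ≤ (B : ℝ) ^ (1 + s + D') := le_self_pow₀ hBr (by omega)
        exact mul_le_mul_of_nonneg_right e4 (by positivity)
      have e5 : (B₁ * (t : ℝ) ^ D') ^ c₁ ≤ ((B : ℝ) * t) ^ ((1 + s + D') * c₁) := by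
        rw [pow_mul]
        exact pow_le_pow_left₀ (by positivity) e1 c₁
      have e6 : ((B : ℝ) * t) ^ ((1 + s + D') * c₁) < (t : ℝ) ^ n := by
        exact_mod_cast hn
      have e7 : (t : ℝ) ^ n ≤ ((t : ℝ) ^ D') ^ n := by
        exact pow_le_pow_left₀ (by positivity) (le_self_pow₀ hTr (by omega)) n
      linarith
    · rw [hun]
      simp

end Pool.Agent.Work.MP_8d13b5_lc.Fm
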