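import Mathlib

/-!
# Siegel's lemma avoiding a subspace, over a ring which is free over the integers
-/

set_option autoImplicit false

noncomputable section

namespace Pool.Agent.SkolemFm

open Module

/-- The coordinates of `a` in the basis `b` are at most `B`. -/
def Sz {R ι : Type*} [CommRing R] (b : Basis ι ℤ R) (a : R) (B : ℕ) : Prop :=
  ∀ s, |b.repr a s| ≤ (B : ℤ)

namespace Sz

variable {R ι : Type*} [CommRing R] {b : Basis ι ℤ R}

lemma mono {a : R} {B B' : ℕ} (h : Sz b a B) (hB : B ≤ B') : Sz b a B' := fun s =>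
  (h s).trans (by exact_mod_cast hB)

lemma zero (B : ℕ) : Sz b 0 B := fun s => by simp

lemma add {x y : R} {X Y : ℕ} (hx : Sz b x X) (hy : Sz b y Y) : Sz b (x + y) (X + Y) := fun s => by
  rw [map_add, Finsupp.add_apply]
  push_cast
  exact (abs_add_le _ _).trans (add_le_add (hx s) (hy s))

lemma sub {x y : R} {X Y : ℕ} (hx : Sz b x X) (hy : Sz b y Y) : Sz b (x - y) (X + Y) := fun s => by
  rw [map_sub, Finsupp.sub_apply]
  push_cast
  exact (abs_sub _ _).trans (add_le_add (hx s) (hy s))

lemma sum {κ : Type*} (t : Finset κ) {f : κ → R} {X : κ → ℕ} (h : ∀ i ∈ t, Sz b (f i) (X i)) :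
    Sz b (∑ i ∈ t, f i) (∑ i ∈ t, X i) := by
  classical
  induction t using Finset.induction_on with
  | empty => simpa using zero (b := b) 0
  | insert a t ha ih =>
    rw [Finset.sum_insert ha, Finset.sum_insert ha]
    exact (h a (Finset.mem_insert_self a t)).add
      (ih fun i hi => h i (Finset.mem_insert_of_mem hi))

end Sz

/-- A subspace of functions is determined by as many coordinates as its dimension. -/
theorem exists_coords {K : Type*} [Field K] {m : Type*} [Fintype m] (r : ℕ) :
    ∀ V : Submodule K (m → K), finrank K V ≤ r →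
      ∃ I : Finset m, I.card ≤ r ∧ ∀ v ∈ V, (∀ i ∈ I, v i = 0) → v = 0 := by
  classical
  induction r with
  | zero =>
    intro V hV
    refine ⟨∅, by simp, fun v hv _ => ?_⟩
    have h1 : V = ⊥ := Submodule.finrank_eq_zero.1 (by omega)
    rw [h1] at hv
    simpa using hv
  | succ r ih =>
    intro V hV
    by_cases h0 : V = ⊥
    · refine ⟨∅, by simp, fun v hv _ => ?_⟩
      rw [h0] at hv
      simpa using hv
    · obtain ⟨v, hv, hv0⟩ := (Submodule.ne_bot_iff V).1 h0
      obtain ⟨i, hi⟩ : ∃ i, v i ≠ 0 := by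
        by_contra hc
        push Not at hc
        exact hv0 (funext hc)
      let V' : Submodule K (m → K) := V ⊓ LinearMap.ker (LinearMap.proj (R := K) (φ := fun _ : m => K) i)
      have hlt : V' < V := by
        refine lt_of_le_of_ne inf_le_left fun he => hi ?_
        have : v ∈ V' := he ▸ hv
        exact this.2
      have h1 := Submodule.finrank_lt_finrank_of_lt hlt
      obtain ⟨I, hI, hI2⟩ := ih V' (by omega)
      refine ⟨insert i I, (Finset.card_insert_le _ _).trans (by omega), fun w hw h => ?_⟩
      exact hI2 w ⟨hw, h i (Finset.mem_insert_self _ _)⟩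
        fun j hj => h j (Finset.mem_insert_of_mem hj)

/-- Siegel's lemma avoiding a subspace. -/
theorem siegel_avoid {R ι K n m : Type*} [CommRing R] [Fintype ι] [Field K] [Algebra R K]
    [Fintype n] [Fintype m] [Nonempty ι] (hinj : Function.Injective (algebraMap R K))
    (b : Basis ι ℤ R) (c : ℕ)
    (hc : ∀ (x y : R) (X Y : ℕ), Sz b x X → Sz b y Y → Sz b (x * y) (c * X * Y))
    (M : Matrix m n R) (A B r s : ℕ) (hM : ∀ i j, Sz b (M i j) A)
    (hr : (M.map (algebraMap R K)).rank ≤ r) (W : Submodule K (n → K)) (hs : finrank K W ≤ s)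
    (hB : (2 * (Fintype.card n * (c * A * B)) + 1) ^ r * (2 * B + 1) ^ s < (B + 1) ^ Fintype.card n) :
    ∃ x : n → R, (∀ j, Sz b (x j) B) ∧ M.mulVec x = 0 ∧ (fun j => algebraMap R K (x j)) ∉ W := by
  classical
  set C := Fintype.card n * (c * A * B) with hC
  set D := Fintype.card ι with hD
  have hD0 : D ≠ 0 := Fintype.card_ne_zero
  obtain ⟨I, hI, hI2⟩ := exists_coords r (LinearMap.range (M.map (algebraMap R K)).mulVecLin) hr
  obtain ⟨J, hJ, hJ2⟩ := exists_coords s W hs
  -- the box
  let X : Type _ := n → ι → Fin (B + 1)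
  let pt : X → n → R := fun x j => ∑ t, ((x j t : ℕ) : ℤ) • b t
  have hpt : ∀ (x : X) j t, b.repr (pt x j) t = ((x j t : ℕ) : ℤ) := by
    intro x j t
    simp only [pt, map_sum, map_smul, Basis.repr_self, Finsupp.smul_single, smul_eq_mul, mul_one,
      Finsupp.coe_finsetSum, Finset.sum_apply]
    rw [Finset.sum_eq_single t]
    · simp
    · intro t' _ h
      simp [h]
    · intro h
      exact absurd (Finset.mem_univ t) h
  have hptS : ∀ (x : X) j, Sz b (pt x j) B := by
    intro x j t
    rw [hpt]
    have := (x j t).isLt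
    rw [abs_of_nonneg (by positivity)]
    exact_mod_cast Nat.lt_succ_iff.1 this
  have hMx : ∀ (x : X) i, Sz b (M.mulVec (pt x) i) C := by
    intro x i
    have h1 : Sz b (∑ j, M i j * pt x j) (∑ _j : n, c * A * B) :=
      Sz.sum _ fun j _ => hc _ _ _ _ (hM i j) (hptS x j)
    simpa [Matrix.mulVec, dotProduct, hC] using h1
  -- shifting integers of absolute value at most `T` into `Fin (2 T + 1)`
  let sh : (T : ℕ) → ℤ → Fin (2 * T + 1) := fun T z => ⟨(z + T).toNat % (2 * T + 1),
    Nat.mod_lt _ (by omega)⟩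
  have hsh : ∀ (T : ℕ) (z z' : ℤ), |z| ≤ T → |z'| ≤ T → sh T z = sh T z' → z = z' := by
    intro T z z' hz hz' h
    have h1 := abs_le.1 hz
    have h2 := abs_le.1 hz'
    have h3 : (z + T).toNat % (2 * T + 1) = (z' + T).toNat % (2 * T + 1) := congrArg Fin.val h
    rw [Nat.mod_eq_of_lt (by omega), Nat.mod_eq_of_lt (by omega)] at h3
    omega
  let F : X → (I → ι → Fin (2 * C + 1)) := fun x i t => sh C (b.repr (M.mulVec (pt x) i.1) t)
  have hcard : Fintype.card (I → ι → Fin (2 * C + 1)) * (2 * B + 1) ^ (s * D) <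
      Fintype.card X := by
    have h1 : Fintype.card X = ((B + 1) ^ Fintype.card n) ^ D := by
      simp only [X, Fintype.card_fun, Fintype.card_fin]
      rw [← pow_mul, ← pow_mul, mul_comm]
    have h2 : Fintype.card (I → ι → Fin (2 * C + 1)) ≤ ((2 * C + 1) ^ r) ^ D := by
      simp only [Fintype.card_fun, Fintype.card_fin, Fintype.card_coe]
      rw [← pow_mul, ← pow_mul, mul_comm]
      exact Nat.pow_le_pow_right (by omega) (by rw [mul_comm]; exact Nat.mul_le_mul_right _ hI)
    rw [h1, pow_mul (2 * B + 1) s D]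
    calc _ ≤ ((2 * C + 1) ^ r) ^ D * ((2 * B + 1) ^ s) ^ D := Nat.mul_le_mul_right _ h2
      _ = ((2 * C + 1) ^ r * (2 * B + 1) ^ s) ^ D := (mul_pow _ _ _).symm
      _ < _ := Nat.pow_lt_pow_left hB hD0
  obtain ⟨y, hy⟩ := Fintype.exists_lt_card_fiber_of_mul_lt_card F hcard
  have hne : (Finset.univ.filter fun x => F x = y).Nonempty :=
    Finset.card_pos.1 (by omega)
  obtain ⟨x₀, hx₀⟩ := hne
  have hx₀' : F x₀ = y := by simpa using hx₀
  have hker : ∀ x, F x = y → M.mulVec (fun j => pt x j - pt x₀ j) = 0 := by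
    intro x hx
    have h1 : ∀ i ∈ I, M.mulVec (pt x) i = M.mulVec (pt x₀) i := by
      intro i hi
      apply b.repr.injective
      ext t
      have h2 : F x ⟨i, hi⟩ t = F x₀ ⟨i, hi⟩ t := by rw [hx, hx₀']
      exact hsh C _ _ (hMx x i t) (hMx x₀ i t) h2
    have h2 : M.mulVec (fun j => pt x j - pt x₀ j) = M.mulVec (pt x) - M.mulVec (pt x₀) := by
      rw [← Matrix.mulVec_sub]
      rfl
    have h3 : (fun i => algebraMap R K (M.mulVec (fun j => pt x j - pt x₀ j) i)) = 0 := by
      refine hI2 _ ⟨fun j => algebraMap R K (pt x j - pt x₀ j), ?_⟩ fun i hi => ?_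
      · funext i
        simp only [Matrix.mulVecLin_apply, Matrix.mulVec, dotProduct, Matrix.map_apply, map_sum,
          map_mul]
      · rw [h2, Pi.sub_apply, h1 i hi, sub_self, map_zero]
    funext i
    apply hinj
    rw [Pi.zero_apply, map_zero]
    exact congrFun h3 i
  by_contra hcon
  push Not at hcon
  have hW : ∀ x, F x = y → (fun j => algebraMap R K (pt x j - pt x₀ j)) ∈ W := by
    intro x hx
    refine hcon (fun j => pt x j - pt x₀ j) (fun j t => ?_) (hker x hx)
    rw [map_sub, Finsupp.sub_apply, hpt, hpt]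
    have h1 := (x j t).isLt
    have h2 := (x₀ j t).isLt
    rw [abs_le]
    constructor <;> omega
  let G : X → (J → ι → Fin (2 * B + 1)) := fun x j t =>
    sh B (b.repr (pt x j.1 - pt x₀ j.1) t)
  have hG : ∀ x ∈ Finset.univ.filter (fun x => F x = y), ∀ x' ∈ Finset.univ.filter (fun x => F x = y),
      G x = G x' → x = x' := by
    intro x hx x' hx' h
    have hx1 : F x = y := by simpa using hx
    have hx2 : F x' = y := by simpa using hx'
    have hb : ∀ (z : X) j t, |b.repr (pt z j - pt x₀ j) t| ≤ (B : ℤ) := by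
      intro z j t
      rw [map_sub, Finsupp.sub_apply, hpt, hpt]
      have h1 := (z j t).isLt
      have h2 := (x₀ j t).isLt
      rw [abs_le]
      constructor <;> omega
    have h1 : ∀ j ∈ J, pt x j - pt x₀ j = pt x' j - pt x₀ j := by
      intro j hj
      apply b.repr.injective
      ext t
      have h2 : G x ⟨j, hj⟩ t = G x' ⟨j, hj⟩ t := by rw [h]
      exact hsh B _ _ (hb x j t) (hb x' j t) h2
    have h2 : (fun j => algebraMap R K (pt x j - pt x' j)) = 0 := by
      refine hJ2 _ ?_ fun j hj => ?_
      · have h3 := W.sub_mem (hW x hx1) (hW x' hx2)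
        have h4 : (fun j => algebraMap R K (pt x j - pt x' j)) =
            (fun j => algebraMap R K (pt x j - pt x₀ j)) -
              fun j => algebraMap R K (pt x' j - pt x₀ j) := by
          funext j
          simp only [Pi.sub_apply, ← map_sub]
          congr 1
          ring
        rw [h4]
        exact h3
      · have h3 := h1 j hj
        have h4 : pt x j - pt x' j = 0 := by
          have : pt x j = pt x' j := sub_left_inj.1 h3
          rw [this, sub_self]
        rw [h4, map_zero]
    funext j t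
    have h3 : pt x j = pt x' j := by
      have h4 := congrFun h2 j
      have h5 : algebraMap R K (pt x j - pt x' j) = algebraMap R K 0 := by
        rw [map_zero]
        exact h4
      exact sub_eq_zero.1 (hinj h5)
    have h4 := congrArg (fun z => b.repr z t) h3
    simp only [hpt] at h4
    apply Fin.ext
    exact_mod_cast h4
  have h1 := Finset.card_le_card_of_injOn (s := Finset.univ.filter (fun x => F x = y))
    (t := Finset.univ) G (fun x _ => Finset.mem_univ _) (fun x hx x' hx' h => hG x hx x' hx' h)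
  have h2 : (Finset.univ : Finset (J → ι → Fin (2 * B + 1))).card ≤ (2 * B + 1) ^ (s * D) := by
    rw [Finset.card_univ]
    simp only [Fintype.card_fun, Fintype.card_fin, Fintype.card_coe]
    rw [← pow_mul, mul_comm]
    exact Nat.pow_le_pow_right (by omega) (by rw [mul_comm]; exact Nat.mul_le_mul_right _ hJ)
  omega

end Pool.Agent.SkolemFm
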