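import Pool.Agent.Work.MP_8d13b5_lc.Fm.Defs

set_option autoImplicit false

/-! The statements of the block `Fm`. The docstrings are the complete proofs.
Throughout `K` is a number field, `D` is its degree (the number of embeddings `φ : K →+* ℂ`), and
`E_j = lam_j ^ n`. -/

namespace Pool.Agent.Work.MP_8d13b5_lc.Fm

open Polynomial NumberField Finset Module

/-- MIN. Proof. Let `ρ(L)` be the largest number of `F[X]`-independent vectors in `Syz_L`.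
(A) `dim Syz_L - dim Syz_(L-1) ≤ ρ(L)`: vectors of degree `≤ L` whose vectors of coefficients of
`X ^ L` are `F`-independent are `F[X]`-independent. (B) rank-nullity:
`dim Syz_L ≥ (m + 1) (L + 1) - (L + N + 1)`. Hence `∑_(L ≤ N) (m - ρ(L)) ≤ N`, and
`ℓ_i = ` least `L` with `ρ(L) ≥ i + 1` has the sum `≤ N`. -/
def StMIN : Prop :=
  ∀ (F : Type) [Field F] (m N : ℕ) (E : Fin (m + 1) → F[X]), E ≠ 0 →
    (∀ j, (E j).natDegree ≤ N) →
    ∃ ℓ : Fin m → ℕ, Monotone ℓ ∧ ∑ i, ℓ i ≤ N ∧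
      ∀ i : Fin m, ∃ P : Fin (i.val + 1) → Fin (m + 1) → F[X], LinearIndependent F[X] P ∧
        (∀ s j, (P s j).natDegree ≤ ℓ i) ∧ ∀ s, ∑ j, P s j * E j = 0

/-- GAP. Proof from MIN. A vector `P` of `MIN` for `i` is not zero. The `i + 1` independent vectors
`P_s` cannot all be in `DepM Q` (rank `≤ r ≤ i`), so some `P = P_s` is not. For a polynomial
`g ≠ 0` of degree `≤ h`, `g • P` lies in `Syz_(ℓ_i + h)` and not in `DepM Q` (multiply the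
relation by `g`). So the `F`-space `{g • P : deg g ≤ h}` of dimension `h + 1` in `Syz_(ℓ_i + h)`
meets `DepM Q` in `0` only. (`Syz_L` is finite dimensional.) -/
def StGAP : Prop :=
  ∀ (F : Type) [Field F] (m N : ℕ) (E : Fin (m + 1) → F[X]), E ≠ 0 →
    (∀ j, (E j).natDegree ≤ N) →
    ∃ ℓ : Fin m → ℕ, ∑ i, ℓ i ≤ N ∧ (∀ i, ∃ P ∈ Syz E (ℓ i), P ≠ 0) ∧
      ∀ (i : Fin m) (r : ℕ) (Q : Fin r → Fin (m + 1) → F[X]), r ≤ i.val → ∀ h : ℕ,
        finrank F ↥(DepM Q ⊓ Syz E (ℓ i + h)) + h + 1 ≤ finrank F ↥(Syz E (ℓ i + h))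

/-- REL (minimal relation). Proof. The nonzero `z_j` are dependent (their sum is `0`), so there is a
nonempty set `S` of indices of smallest cardinality with a relation
`∑_(j ∈ S) c_j z_j = 0`, `z_j ≠ 0` for `j ∈ S`, not all `c_j = 0`. By minimality all `c_j ≠ 0` and
any proper subfamily is independent. `#S ≥ 2` as `z_j ≠ 0`; `S` is the image of
`σ : Fin (r + 1) → Fin k`, and `r + 1 ≤ k`. -/
def StREL : Prop :=
  ∀ (F V : Type) [Field F] [AddCommGroup V] [Module F V] (k : ℕ) (z : Fin k → V), z ≠ 0 →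
    ∑ j, z j = 0 →
    ∃ (r : ℕ) (σ : Fin (r + 1) → Fin k) (c : Fin (r + 1) → F), 1 ≤ r ∧ r + 1 ≤ k ∧
      Function.Injective σ ∧ (∀ i, c i ≠ 0) ∧ (∀ i, z (σ i) ≠ 0) ∧ ∑ i, c i • z (σ i) = 0 ∧
      ∀ i₀ : Fin (r + 1), LinearIndependent F (fun i : Fin r => z (σ (i₀.succAbove i)))

/-- WRN (Wronskian of independent polynomials). Known in this pool over `ℚ` with `hasseDeriv`
(`prfR2 : ClaimR2` in `Pool/Agent/Work/Tools/Subspace/ItemR2.lean`) and for derivations on a field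
(`PWrx.main` in `Pool/Agent/Work/MP_6d7a54_an/NG/P_Wr.lean`). Direct proof: by column operations
over `F` (change of the basis of the span) assume that the degrees of the `z_j` are
distinct; the leading coefficient of the determinant is the product of the leading coefficients
times the Vandermonde determinant of the degrees (falling factorials), not `0` in
characteristic `0`. -/
def StWRN : Prop :=
  ∀ (F : Type) [Field F] [CharZero F] (r : ℕ) (z : Fin r → F[X]), LinearIndependent F z →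
    (Matrix.of fun i j : Fin r => derivative^[(i : ℕ)] (z j)).det ≠ 0

/-- WDV (divisibility and degree). Proof. `derivative^[i] (P * lam ^ n)` is divisible by
`lam ^ (n - i)`, and `N = n - (r - 1) ≤ n - i`; take `lam_j ^ N` out of the column `j`. Degree: each
product in the determinant has degree at most `∑_j deg z_j`. -/
def StWDV : Prop :=
  ∀ (F : Type) [Field F] (r n N : ℕ) (lam P : Fin r → F[X]), N + r = n + 1 →
    (∏ j, lam j) ^ N ∣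
      (Matrix.of fun i j : Fin r => derivative^[(i : ℕ)] (P j * lam j ^ n)).det ∧
    (Matrix.of fun i j : Fin r => derivative^[(i : ℕ)] (P j * lam j ^ n)).det.natDegree ≤
      ∑ j, (P j * lam j ^ n).natDegree

/-- WRO. Proof. REL with `z_j = P_j lam_j ^ n`; if `n < r` nothing to show (`r ≤ m`, and `e ≥ 1` as
there are two nonproportional polynomials). For `i ≤ r` let `W_i` be the Wronskian of the `z_(σ j)`,
`j ≠ i`, not `0` by WRN. By the relation all `W_i` are equal up to nonzero constants (replace one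
column). By WDV, with `N = n - r + 1`, `W_0` is divisible by `∏_(j ≠ i) lam_(σ j) ^ N` for every `i`,
so by `(π / G) ^ N`, `π = ∏_(j ≤ r) lam_(σ j)`, `G` the gcd of the `lam_(σ j)` (least common multiple
of the `π / lam_(σ i)`; compare the multiplicities of the irreducible polynomials; or:
`π ^ N ∣ W_0 lam_(σ i) ^ N` for all `i`, and the gcd of the `lam_(σ i) ^ N` is `G ^ N`,
so `π ^ N ∣ W_0 G ^ N`). Let `j₀` have the largest degree `M` of `lam_(σ j)`;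
`deg W_(j₀) ≤ r L + n (S - M)`, `S = ∑_(j ≤ r) deg lam_(σ j)`, `g = deg G < M` (if `g = M` then `G`
is proportional to all the `lam_(σ j)` as it divides them and `M` is the largest degree; but `r ≥ 1`).
So `N (S - g) ≤ r L + n (S - M)`,
`n ≤ n (M - g) ≤ r L + (r - 1) (S - g) ≤ r L + (r - 1) (r + 1) e ≤ m L + m ^ 2 e`. -/
def StWRO : Prop :=
  ∀ (F : Type) [Field F] [CharZero F] (m e n L : ℕ) (lam P : Fin (m + 1) → F[X]),
    (∀ j, lam j ≠ 0) → (∀ j, (lam j).natDegree ≤ e) →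
    (∀ i j, i ≠ j → ∀ a b : F, C a * lam i = C b * lam j → a = 0) →
    (∀ j, (P j).natDegree ≤ L) → P ≠ 0 → ∑ j, P j * lam j ^ n = 0 → n ≤ m * L + m ^ 2 * e

/-- PN (basic facts on the norm). Proofs: compute the coefficients; `hasseDeriv`: the coefficient `i`
of `hasseDeriv r P` is `(i + r).choose r` times the coefficient `i + r` of `P`, and
`(i + r).choose r ≤ 2 ^ (i + r) ≤ 2 ^ p`. -/
def StPN : Prop :=
  ∀ (R : Type) [CommRing R] (φ : R →+* ℂ),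
    (∀ P : R[X], 0 ≤ pn φ P) ∧ (∀ a : R, pn φ (C a) = ‖φ a‖) ∧
    (∀ P Q : R[X], pn φ (P + Q) ≤ pn φ P + pn φ Q) ∧
    (∀ P Q : R[X], pn φ (P * Q) ≤ pn φ P * pn φ Q) ∧
    (∀ (P : R[X]) (n : ℕ), pn φ (P ^ n) ≤ pn φ P ^ n) ∧
    (∀ (ι : Type) (s : Finset ι) (P : ι → R[X]), pn φ (∑ i ∈ s, P i) ≤ ∑ i ∈ s, pn φ (P i)) ∧
    (∀ (P : R[X]) (i : ℕ), ‖φ (P.coeff i)‖ ≤ pn φ P) ∧
    (∀ (P : R[X]) (L : ℕ), P.natDegree ≤ L → pn φ P = ∑ i ∈ range (L + 1), ‖φ (P.coeff i)‖) ∧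
    ∀ (P : R[X]) (p r : ℕ), P.natDegree ≤ p → pn φ (hasseDeriv r P) ≤ 2 ^ p * pn φ P

/-- HEV (basic facts on forms). Proofs: the product of two forms: by bilinearity for monomials
`X ^ i`, `X ^ j`, `i ≤ d`, `j ≤ d'` (or directly from the formula for the coefficients of the
product); the others are computations. -/
def StHEV : Prop :=
  (∀ (R : Type) [CommRing R] (x y : R),
    (∀ (d : ℕ) (ι : Type) (s : Finset ι) (P : ι → R[X]),
      hev d (∑ i ∈ s, P i) x y = ∑ i ∈ s, hev d (P i) x y) ∧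
    (∀ (d d' : ℕ) (P Q : R[X]), P.natDegree ≤ d → Q.natDegree ≤ d' →
      hev (d + d') (P * Q) x y = hev d P x y * hev d' Q x y) ∧
    (∀ (d n : ℕ) (P : R[X]), P.natDegree ≤ d → hev (d * n) (P ^ n) x y = hev d P x y ^ n) ∧
    (∀ (d : ℕ) (c : R), hev d (C c) x y = c * y ^ d) ∧
    (∀ (d : ℕ) (c : R), hev d (C c * X ^ d) x y = c * x ^ d)) ∧
  (∀ (F : Type) [Field F] (d : ℕ) (P : F[X]) (x y : F), y ≠ 0 → P.natDegree ≤ d →
    hev d P x y = y ^ d * P.eval (x / y)) ∧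
  (∀ (R S : Type) [CommRing R] [CommRing S] (ψ : R →+* S) (d : ℕ) (P : R[X]) (x y : R),
    ψ (hev d P x y) = hev d (P.map ψ) (ψ x) (ψ y)) ∧
  ∀ (R : Type) [CommRing R] (φ : R →+* ℂ) (d : ℕ) (P : R[X]) (x y : R), P.natDegree ≤ d →
    ‖φ (hev d P x y)‖ ≤ pn φ P * max ‖φ x‖ ‖φ y‖ ^ d

/-- BOX (counting integers of `K`). Proof. Integral basis `ω_1, ..., ω_D` (`RingOfIntegers.basis K`).
`S = {∑ c_l ω_l : 0 ≤ c_l ≤ H}`, sizes `≤ Ω H`, `Ω ≥ D max |φ(ω_l)|`. Conversely the coordinates of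
`z` are linear functions of the conjugates (the matrix `(φ(ω_l))` is invertible, or: `z ↦ (φ(z))_φ`
is an injective real linear map of the space `K ⊗ ℝ`, or use a trace dual basis), so they are
`≤ C M` in absolute value: at most `2 C M + 1 ≤ Ω M` values for each coordinate. -/
def StBOX : Prop :=
  ∀ (K : Type) [Field K] [NumberField K], ∃ Ω : ℝ, 1 ≤ Ω ∧
    (∀ H : ℕ, ∃ S : Finset (𝓞 K), S.card = (H + 1) ^ finrank ℚ K ∧
      ∀ z ∈ S, ∀ φ : K →+* ℂ, ‖res φ z‖ ≤ Ω * H) ∧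
    ∀ M : ℝ, 1 ≤ M → ∀ S : Finset (𝓞 K), (∀ z ∈ S, ∀ φ : K →+* ℂ, ‖res φ z‖ ≤ M) →
      (S.card : ℝ) ≤ (Ω * M) ^ finrank ℚ K

/-- SIE (pigeonhole outside a subspace). Proof from BOX. `N = #ι`, `s = dim ker A`, `w = dim W`,
`ρ = N - s` the rank of `A`; `s > w` as `N > 0`, so `q ≥ 1`. There is a set `κ'` of `ρ` rows such that
the other rows are combinations of these. `S` = the set of BOX with `H`; the vectors `v ∈ S ^ ι`,
`(H + 1) ^ (D N)` of them, have the images `(A v)_i`, `i ∈ κ'`, of size `≤ M = N B₀ Ω (H + 1)`, at most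
`(Ω M) ^ (D ρ)` values. So some fibre has at least
`(H + 1) ^ (D N) / (Ω M) ^ (D ρ)` elements `v`, and the differences `v - v₀` are in the kernel of `A`.
If they were all in `W`: there is a set `J` of `w` coordinates which is injective on `W`, so the
fibre has at most `(H + 1) ^ (D w)` elements. Contradiction if
`(H + 1) ^ (N - w - ρ) > (Ω ^ 2 N B₀) ^ ρ`. As `N - ρ = s`, `ρ ≤ N ≤ q (s - w)`, this holds for
`H = ⌊(Ω ^ 2 N B₀) ^ q⌋`. The sizes are `|φ(v_j - v₀_j)| ≤ 2 Ω H ≤ 2 Ω (Ω ^ 2 N B₀) ^ q`;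
`C₀ = 2 Ω ^ 2`. -/
def StSIE : Prop :=
  ∀ (K : Type) [Field K] [NumberField K], ∃ C₀ : ℝ, 1 ≤ C₀ ∧
    ∀ (ι κ : Type) [Fintype ι] [Fintype κ] (A : κ → ι → 𝓞 K) (B₀ : ℝ) (q : ℕ)
      (W : Submodule K (ι → K)), 1 ≤ B₀ → (∀ (φ : K →+* ℂ) i j, ‖res φ (A i j)‖ ≤ B₀) →
      W ≤ kerA A → 0 < Fintype.card ι →
      Fintype.card ι ≤ q * (finrank K (kerA A) - finrank K W) →
      ∃ v : ι → 𝓞 K, (∀ i, ∑ j, A i j * v j = 0) ∧ (fun j => (v j : K)) ∉ W ∧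
        ∀ (φ : K →+* ℂ) j, ‖res φ (v j)‖ ≤ (C₀ * (Fintype.card ι + 1) * B₀) ^ (q + 1)

/-- GR1 (one greedy step). Proof from SIE, PN. `h = n / N₁`, `L = ℓ + h`, `ι = Fin (m + 1) × Fin (L + 1)`
(the coefficients of the `P_j`), `κ = Fin (L + e n + 1)` (the coefficients of
`∑ P_j lam_j ^ n`); the entries of `A` are coefficients of the `lam_j ^ n`, so
`≤ B₀ = Λ ^ n`, `Λ = 1 + ∑_φ ∑_j pn φ lam_j`. `v ↦ (∑_i v_(j,i) X ^ i)_j` is an isomorphism of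
`kerA A` to `Syz E L`; `W` = the inverse image of `DepM Q`. `h + 1 > n / N₁`, so
`#ι = (m + 1) (L + 1) ≤ (m + 1) (e + 2) n ≤ q (h + 1)` with `q = (m + 1) (e + 2) N₁`
(`L + 1 ≤ e n + n + 1 ≤ (e + 2) n`). SIE gives `P` with coefficients
`≤ (C₀ (#ι + 1) B₀) ^ (q + 1)`, and `pn ≤ (L + 1)` times this; all is `≤ C₁ ^ n` since
`#ι + 1 ≤ 2 ^ (c n)`. -/
def StGR1 : Prop :=
  ∀ (K : Type) [Field K] [NumberField K] (m e : ℕ) (lam : Fin (m + 1) → (𝓞 K)[X]),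
    (∀ j, (lam j).natDegree ≤ e) → ∀ N₁ : ℕ, 1 ≤ N₁ → ∃ C₁ : ℝ, 1 ≤ C₁ ∧
    ∀ n : ℕ, 1 ≤ n → ∀ (ℓ r : ℕ) (Q : Fin r → Fin (m + 1) → K[X]), ℓ ≤ e * n →
      finrank K ↥(DepM Q ⊓ Syz (fun j => (lam j).map (algebraMap (𝓞 K) K) ^ n) (ℓ + n / N₁)) +
          n / N₁ + 1 ≤
        finrank K ↥(Syz (fun j => (lam j).map (algebraMap (𝓞 K) K) ^ n) (ℓ + n / N₁)) →
      ∃ P : Fin (m + 1) → (𝓞 K)[X], ∑ j, P j * lam j ^ n = 0 ∧
        (∀ j, (P j).natDegree ≤ ℓ + n / N₁) ∧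
        (∀ (φ : K →+* ℂ) j, pn (res φ) (P j) ≤ C₁ ^ n) ∧
        (fun j => (P j).map (algebraMap (𝓞 K) K)) ∉ DepM Q

/-- GRE (greedy). Proof from GAP (for `F = K`, `E_j = lam_j ^ n`, `N = e n`), WRO (a nonzero vector in
`Syz_(ℓ_i)` gives `n ≤ m ℓ_i + m ^ 2 e`; the nonproportionality passes from `𝓞 K` to `K` by
clearing denominators) and GR1 (`ℓ_i ≤ ∑ ℓ ≤ e n`): induction on `i`, `Q_i` = the vector `P` of GR1
for `Q = (Q_s)_(s < i)`; a vector not in `DepM Q` together with an independent family `Q` is an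
independent family (`Fin.snoc`), first over `K[X]`, then over `(𝓞 K)[X]`. -/
def StGRE : Prop :=
  ∀ (K : Type) [Field K] [NumberField K] (m e : ℕ) (lam : Fin (m + 1) → (𝓞 K)[X]),
    1 ≤ m → IsFam e lam → ∀ N₁ : ℕ, 1 ≤ N₁ → ∃ C₁ : ℝ, 1 ≤ C₁ ∧
    ∀ n : ℕ, 1 ≤ n → ∃ (ℓ : Fin m → ℕ) (Q : Fin m → Fin (m + 1) → (𝓞 K)[X]),
      ∑ i, ℓ i ≤ e * n ∧ (∀ i, n ≤ m * ℓ i + m ^ 2 * e) ∧ LinearIndependent (𝓞 K)[X] Q ∧
      (∀ i, ∑ j, Q i j * lam j ^ n = 0) ∧ (∀ i j, (Q i j).natDegree ≤ ℓ i + n / N₁) ∧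
      ∀ (φ : K →+* ℂ) i j, pn (res φ) (Q i j) ≤ C₁ ^ n

/-- CRA (Cramer). Proof. `∑_l w_l mnr U l` is the determinant of the `(m + 1) × (m + 1)` matrix with the
first row `w` and the rows `U_i` (Laplace expansion along the first row; `Matrix.det_succ_row_zero`).
Choose `w = E_i e_j - E_j e_i`, orthogonal to `E`: all rows are orthogonal to `E ≠ 0`, so the
determinant is `0`. Some `mnr U j ≠ 0`: over the fraction field the `m` rows are independent, so some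
standard vector `w = e_j` is not in their span, and the determinant is not `0`. -/
def StCRA : Prop :=
  ∀ (R : Type) [CommRing R] [IsDomain R] (m : ℕ) (E : Fin (m + 1) → R)
    (U : Fin m → Fin (m + 1) → R), E ≠ 0 → LinearIndependent R U →
    (∀ i, ∑ j, U i j * E j = 0) →
    (∃ j, mnr U j ≠ 0) ∧ ∀ i j, E i * mnr U j = E j * mnr U i

/-- HDM (divided derivatives of a determinant). Proof. `Polynomial.taylor_coeff`: the coefficient `s` of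
`taylor t₀ P` is `(hasseDeriv s P).eval t₀`. `taylor t₀` is a ring homomorphism, so the coefficient
`R` of `det (taylor t₀ (M i j))` is not zero. By the definition of the determinant and the formula for
the coefficients of a product it is the sum of `det ((hasseDeriv (r i) (M i j)).eval t₀)` over all
`r` with `∑ r i = R` (`Polynomial.coeff_prod` ; or induction over the rows with the multilinearity),
so one of these is not zero. -/
def StHDM : Prop :=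
  ∀ (F : Type) [CommRing F] (m R : ℕ) (M : Fin m → Fin m → F[X]) (t₀ : F),
    (hasseDeriv R (Matrix.of M).det).eval t₀ ≠ 0 →
    ∃ r : Fin m → ℕ, ∑ i, r i = R ∧
      (Matrix.of fun i j => (hasseDeriv (r i) (M i j)).eval t₀).det ≠ 0

/-- ORD. Proof from CRA and HDM. By CRA, `mnr Q i = c E_i` for all `i` with `c = ∑_j A_j mnr Q j`
(multiply by `∑ A_j E_j = 1`), `c ≠ 0`. For the `j` of the hypothesis,
`deg c + N ≤ deg c + deg E_j = deg (mnr Q j) ≤ ∑ d_i`. The determinant of the matrix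
`(Q_(i,l+1) E_(l+1))_(i,l)` is `mnr Q 0 * ∏_l E_(l+1) = c ∏_j E_j`, so its order of vanishing `R` at
`t₀` is that of `c`, `≤ deg c`; `(hasseDeriv R ·).eval t₀ ≠ 0` by Taylor. HDM gives `r` with
`∑ r_i = R`, and the vectors are independent as a minor is not zero. -/
def StORD : Prop :=
  ∀ (F : Type) [Field F] (m N : ℕ) (E A : Fin (m + 1) → F[X]) (Q : Fin m → Fin (m + 1) → F[X])
    (d : Fin m → ℕ) (t₀ : F), (∃ j, N ≤ (E j).natDegree) → ∑ j, A j * E j = 1 →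
    LinearIndependent F[X] Q → (∀ i, ∑ j, Q i j * E j = 0) →
    (∀ i j, (Q i j).natDegree ≤ d i) → (∀ j, (E j).eval t₀ ≠ 0) →
    ∃ r : Fin m → ℕ, ∑ i, r i + N ≤ ∑ i, d i ∧
      LinearIndependent F (fun i (j : Fin (m + 1)) => (hasseDeriv (r i) (Q i j * E j)).eval t₀)

/-- HDP (divided derivatives of `P * lam ^ n`). Proof from PN. `S_(0,r) = lam ^ r * hasseDeriv r P`,
`S_(n+1,r) = S_(n,r) + ∑_(s = 1)^(min(e,r)) lam ^ (s - 1) * hasseDeriv s lam * S_(n,r-s)`: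
Leibniz for `hasseDeriv` (`Polynomial.hasseDeriv_mul`), `P lam ^ (n + 1) = (P lam ^ n) lam`, and
`hasseDeriv s lam = 0` for `s > e`. Degree: `e (s - 1) + (e - s) + p + e (r - s) ≤ p + e r`. Norm:
`pn (hasseDeriv s lam) ≤ 2 ^ e Λ`, so by induction
`pn S_(n+1,r) ≤ 2 ^ p pn P (1 + e 2 ^ e) ^ n Λ ^ r (1 + e 2 ^ e)`. -/
def StHDP : Prop :=
  ∀ (R : Type) [CommRing R] (lam P : R[X]) (e p n r : ℕ), lam.natDegree ≤ e →
    P.natDegree ≤ p → ∃ S : R[X], hasseDeriv r (P * lam ^ n) * lam ^ r = lam ^ n * S ∧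
      S.natDegree ≤ p + e * r ∧
      ∀ (φ : R →+* ℂ) (Λ : ℝ), 1 ≤ Λ → pn φ lam ≤ Λ →
        pn φ S ≤ 2 ^ p * pn φ P * (1 + e * 2 ^ e) ^ n * Λ ^ r

/-- BEZ. Proof. The first identity is `cop` (times a constant). For the second: over the fraction field
`F` the polynomials `lam*_j = reflect e lam_j` have no common root in an algebraic closure (`0`: some
`coeff e ≠ 0`; `α ≠ 0`: `α⁻¹` would be a common root of the `lam_j`, against `cop`), so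
`∑ B*_j lam*_j = 1` over `F`, and after multiplication with a common denominator `= c'` over `R`.
Reflect with a large degree `N'`: `∑ reflect (N' - e) B*_j * lam_j = c' X ^ N'`. Multiply by powers
of `X` and constants to have the same `N` and `c`. (`cop` gives an identity for powers as well.) -/
def StBEZ : Prop :=
  ∀ (R : Type) [CommRing R] [IsDomain R] (m e : ℕ) (lam : Fin (m + 1) → R[X]), IsFam e lam →
    ∃ (N : ℕ) (c : R) (A B : Fin (m + 1) → R[X]), c ≠ 0 ∧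
      (∀ j, (A j).natDegree + e ≤ N ∧ (B j).natDegree + e ≤ N) ∧
      ∑ j, A j * lam j = C c ∧ ∑ j, B j * lam j = C c * X ^ N

/-- IDL. Proof from BEZ, HEV. `∑ hev (N - e) A_j * lam_j(x, y) = c y ^ N`,
`∑ hev (N - e) B_j * lam_j(x, y) = c x ^ N`, and `x ^ N`, `y ^ N` are coprime: `R₀ = c` is in the
ideal of the `lam_j(x, y)`, so `R₀ ^ ((m + 1) n)` is in the ideal of the `lam_j(x, y) ^ n`
(`Ideal.sum_pow_mem_span_pow`, or the multinomial formula; `n = 0` is trivial). -/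
def StIDL : Prop :=
  ∀ (R : Type) [CommRing R] [IsDomain R] (m e : ℕ) (lam : Fin (m + 1) → R[X]), IsFam e lam →
    ∃ R₀ : R, R₀ ≠ 0 ∧ ∀ x y : R, IsCoprime x y → ∀ n : ℕ, ∃ b : Fin (m + 1) → R,
      ∑ j, b j * hev e (lam j) x y ^ n = R₀ ^ ((m + 1) * n)

/-- LOW. Proof from BEZ, HEV. At `φ` let `t = tt φ x y`, say `t = |φ(x)|` (or `|φ(y)|`). By
`∑ hev (N - e) B_j * lam_j(x, y) = c x ^ N`: `|φ(c)| t ^ N ≤ (∑ pn B_j) t ^ (N - e) max_j |φ(lam_j(x, y))|`;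
divide by `t ^ (N - e)` if `t > 0`; `t = 0` is trivial for `e > 0` and for `e = 0` one has
`N - e = N`, `0 ^ 0 = 1`, where the `lam_j` are nonzero constants. Take the minimum over the finitely
many `φ`. -/
def StLOW : Prop :=
  ∀ (K : Type) [Field K] [NumberField K] (m e : ℕ) (lam : Fin (m + 1) → (𝓞 K)[X]),
    IsFam e lam → ∃ c₀ : ℝ, 0 < c₀ ∧ c₀ ≤ 1 ∧ ∀ (φ : K →+* ℂ) (x y : 𝓞 K),
      ∃ j, c₀ * tt φ x y ^ e ≤ ‖res φ (hev e (lam j) x y)‖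

/-- VEC (the auxiliary vectors). Proof from GRE, ORD, HDP, HEV, PN, BEZ. GRE gives `ℓ`, `Q`; put
`h = n / N₁`, `t₀ = x / y ∈ K`, `E_j = lam_j ^ n` over `K`: `E_j(t₀) = (y ^ (-e) lam_j(x, y)) ^ n ≠ 0`,
some `E_j` has the degree `e n` (`top`), the `E_j` are coprime (a power of `cop`; `IsCoprime.pow` or
the span of the `lam_j ^ n`). ORD with `d_i = ℓ_i + h`, `N = e n`: `∑ r_i + e n ≤ ∑ ℓ_i + m h ≤ e n + m h`,
so `∑ r_i ≤ m h`. HDP: `hasseDeriv r_i (Q_(i,j) lam_j ^ n) * lam_j ^ r_i = lam_j ^ n * S_(i,j)`,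
`deg S_(i,j) ≤ ℓ_i + h + e r_i`. Put
`V_(i,j) = hev (ℓ_i + h + e r_i) S_(i,j) * ∏_(l ≠ j) lam_l(x, y) ^ r_i`. With
`v_(i,j) = (hasseDeriv r_i (Q_(i,j) lam_j ^ n))(t₀)` and `u_j = lam_j(t₀)`, `lam_j(x, y) = y ^ e u_j`:
`V_(i,j) lam_j(x,y) ^ n = μ_i v_(i,j)` with `μ_i = y ^ (ℓ_i + h + e r_i + e m r_i + e n) (∏_l u_l) ^ r_i`
not zero and independent of `j`. So the `V_i` are independent over `K` (the `v_i` are), and
`∑_j V_(i,j) lam_j(x,y) ^ n = μ_i ∑_j v_(i,j) = μ_i (hasseDeriv r_i (∑_j Q_(i,j) lam_j ^ n))(t₀) = 0`.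
Size: `pn S ≤ 2 ^ (ℓ_i + h) C₁ ^ n (1 + e 2 ^ e) ^ n Λ ^ r_i`, `ℓ_i ≤ e n`, `h ≤ n`, `r_i ≤ m n`, and
`|φ(lam_l(x,y))| ≤ Λ tt ^ e`, so
`|φ(V_(i,j))| ≤ C ^ n tt ^ (ℓ_i + h + e r_i + e m r_i)`. -/
def StVEC : Prop :=
  ∀ (K : Type) [Field K] [NumberField K] (m e : ℕ) (lam : Fin (m + 1) → (𝓞 K)[X]),
    1 ≤ m → IsFam e lam → ∀ N₁ : ℕ, 1 ≤ N₁ → ∃ C₁ : ℝ, 1 ≤ C₁ ∧
    ∀ n : ℕ, 1 ≤ n → ∀ x y : 𝓞 K, y ≠ 0 → (∀ j, hev e (lam j) x y ≠ 0) →
      ∃ (ℓ r : Fin m → ℕ) (V : Fin m → Fin (m + 1) → 𝓞 K),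
        ∑ i, ℓ i ≤ e * n ∧ (∀ i, n ≤ m * ℓ i + m ^ 2 * e) ∧ ∑ i, r i ≤ m * (n / N₁) ∧
        LinearIndependent (𝓞 K) V ∧ (∀ i, ∑ j, V i j * hev e (lam j) x y ^ n = 0) ∧
        ∀ (φ : K →+* ℂ) i j,
          ‖res φ (V i j)‖ ≤ C₁ ^ n * tt φ x y ^ (ℓ i + n / N₁ + e * (m + 1) * r i)

/-- EXC (exchange). Proof. Over the fraction field, `a` lies in the span of the `V_i`: the space of the
vectors orthogonal to `E ≠ 0` has dimension `m` and contains the independent `V_i`. So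
`a = ∑ c_i V_i`, some `c_(i₀) ≠ 0`, and `V_(i₀)` can be exchanged with `a`. -/
def StEXC : Prop :=
  ∀ (R : Type) [CommRing R] [IsDomain R] (m : ℕ) (E a : Fin (m + 1) → R)
    (V : Fin m → Fin (m + 1) → R), E ≠ 0 → a ≠ 0 → LinearIndependent R V →
    (∀ i, ∑ j, V i j * E j = 0) → ∑ j, a j * E j = 0 →
    ∃ i₀, LinearIndependent R (Function.update V i₀ a)

/-- END. Proof from EXC and CRA. `U = Function.update V i₀ a`, `M_j = mnr U j`, not all zero,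
`E_i M_j = E_j M_i`. `N₀ = ∑ b_j M_j ∈ 𝓞 K`: `N₀ E_i = ∑ b_j E_j M_i = g M_i`, so `N₀ ≠ 0` and
`∏_φ |φ(N₀)| ≥ 1` (the norm). With the `j = j_φ` of the hypothesis,
`|φ(N₀)| f(φ) ≤ |φ(N₀ E_j)| = |φ(g)| |φ(M_j)| ≤ |φ(g)| m! (∑_l |φ(a_l)|) ∏_(i ≠ i₀) A_i(φ)` (`m!`
products in the determinant; the entry of `a` is at most `∑_l |φ(a_l)|`). Multiply over `φ`. -/
def StEND : Prop :=
  ∀ (K : Type) [Field K] [NumberField K] (m : ℕ) (E a b : Fin (m + 1) → 𝓞 K) (g : 𝓞 K)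
    (V : Fin m → Fin (m + 1) → 𝓞 K) (f : (K →+* ℂ) → ℝ) (A : Fin m → (K →+* ℂ) → ℝ),
    1 ≤ m → a ≠ 0 → g ≠ 0 → ∑ j, b j * E j = g → ∑ j, a j * E j = 0 →
    (∀ i, ∑ j, V i j * E j = 0) → LinearIndependent (𝓞 K) V →
    (∀ φ, 0 ≤ f φ ∧ ∃ j, f φ ≤ ‖res φ (E j)‖) → (∀ i φ j, ‖res φ (V i j)‖ ≤ A i φ) →
    ∃ i₀, ∏ φ, f φ ≤ (m.factorial : ℝ) ^ finrank ℚ K * (∏ φ : K →+* ℂ, ‖res φ g‖) * HH a *
      ∏ i ∈ univ.erase i₀, ∏ φ, A i φ

/-- **THM (Theorem M).** Proof from VEC, END, IDL, LOW. `n = 0`: `TT x y ≥ 1`, `HH a ≥ 1`. `y = 0`: `x` is a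
unit, `TT x y = 1`. Let `n ≥ 1`, `y ≠ 0`; `TT x y ≥ |N(y)| ≥ 1`.
`N₁ = (q + 1) m ^ 2 (1 + e (m + 1))`, `h = n / N₁`. VEC, END with `E_j = lam_j(x,y) ^ n`, `g = R₀ ^ ((m+1) n)`,
`f φ = (c₀ tt φ x y ^ e) ^ n`, `A i φ = C₁ ^ n tt φ x y ^ (ℓ_i + h + e (m + 1) r_i)`:
`TT ^ (e n) ≤ C ^ n HH(a) TT ^ s`,
`s = ∑_(i ≠ i₀) (ℓ_i + h + e (m + 1) r_i) ≤ e n - ℓ_(i₀) + m h (1 + e (m + 1))`. So
`TT ^ ℓ_(i₀) ≤ C ^ n HH(a) TT ^ (m h (1 + e (m + 1)))`; the power `(q + 1) m`: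
`(q + 1) m * m h (1 + e (m + 1)) ≤ n`, `(q + 1) m ℓ_(i₀) ≥ (q + 1) n - (q + 1) m ^ 2 e`, so
`TT ^ ((q + 1) n) ≤ (C ^ n HH(a)) ^ ((q + 1) m) TT ^ (n + (q + 1) m ^ 2 e)`; divide by `TT ^ n`. -/
def StTHM : Prop :=
  ∀ (K : Type) [Field K] [NumberField K] (m e : ℕ) (lam : Fin (m + 1) → (𝓞 K)[X]),
    1 ≤ m → IsFam e lam → ∀ q : ℕ, ∃ C₁ : ℝ, 1 ≤ C₁ ∧
    ∀ x y : 𝓞 K, IsCoprime x y → (∀ j, hev e (lam j) x y ≠ 0) →
    ∀ (n : ℕ) (a : Fin (m + 1) → 𝓞 K), a ≠ 0 → ∑ j, a j * hev e (lam j) x y ^ n = 0 →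
      TT x y ^ (n * q) ≤ (C₁ ^ (n + 1) * TT x y ^ (m * e) * HH a) ^ ((q + 1) * m)

/-- KER (uniqueness of the parts). Proof from THM with `q = 1`. Multiply the `s_j` by a positive integer:
the initial values `s_j(c)`, `c < deg f_j`, and so all values (`f_j` monic over `𝓞 K`), are
in `𝓞 K`. By `Pd.growth_ring` (`A₀` bounds the roots of all the `f_j` at all `φ`)
`|φ(s_j(n))| ≤ V (2 A₀) ^ n` with `V` depending on `s`. If not all `s_j` are zero then (`Pd.Sol.zero_of_eventually`)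
`(s_j(n))_j ≠ 0` for arbitrarily large `n`, and THM gives
`TT ^ n ≤ (C ^ (n+1) TT ^ (m e) ((m + 1) V (2 A₀) ^ n) ^ D) ^ (2 m)` for these `n`. For `n → ∞`:
`TT ≤ (C (2 A₀) ^ D) ^ (2 m)`. So `T₀ = 1 + (C (2 A₀) ^ D) ^ (2 m)`. -/
def StKER : Prop :=
  ∀ (K : Type) [Field K] [NumberField K] (m e : ℕ) (lam f : Fin (m + 1) → (𝓞 K)[X]),
    1 ≤ m → IsFam e lam → (∀ j, (f j).Monic ∧ (f j).coeff 0 ≠ 0) → ∃ T₀ : ℝ, 1 ≤ T₀ ∧
    ∀ x y : 𝓞 K, IsCoprime x y → (∀ j, hev e (lam j) x y ≠ 0) → T₀ ≤ TT x y →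
    ∀ s : Fin (m + 1) → ℕ → K, (∀ j, Pd.Sol ((f j).map (algebraMap (𝓞 K) K)) (s j)) →
      (∀ n, ∑ j, ((hev e (lam j) x y : 𝓞 K) : K) ^ n * s j n = 0) → ∀ j n, s j n = 0

/-- PAR (existence of the parts). Proof. `d = ∑ deg f_j = deg P`, `P = ∏ (f_j).scaleRoots (β_j)`. The map
`(s_j)_j ↦ (∑_j β_j ^ n s_j(n))_n` from `∏_j Sol(f_j)` (dimension `d`) to `Sol(P)` (dimension `d`; the
values are in `Sol(P)` by `Pd.Sol.scale` and `Pd.Sol.mul_left`) is injective by hypothesis, so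
surjective. In terms of matrices: `s_j(n) = ∑_(c < deg f_j) cf f_j n c * v_(j,c)` (`Pd.Sol.expand`,
`Pd.sol_of_init`, `Pd.init_of_init`), the matrix `(β_j ^ i cf f_j i c)`, rows `i < d`, columns `(j, c)`, is
injective (a vector `v` in the kernel gives a sequence in `Sol(P)` with zero initial values, so `0` by
`Pd.Sol.eq_zero`), so surjective: solve for the initial values of `y` and use `Pd.Sol.ext`. -/
def StPAR : Prop :=
  ∀ (K : Type) [Field K] (m : ℕ) (f : Fin (m + 1) → K[X]) (β : Fin (m + 1) → K),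
    (∀ j, (f j).Monic) →
    (∀ s : Fin (m + 1) → ℕ → K, (∀ j, Pd.Sol (f j) (s j)) →
      (∀ n, ∑ j, β j ^ n * s j n = 0) → ∀ j n, s j n = 0) →
    ∀ y : ℕ → K, Pd.Sol (∏ j, (f j).scaleRoots (β j)) y →
      ∃ s : Fin (m + 1) → ℕ → K, (∀ j, Pd.Sol (f j) (s j)) ∧ ∀ n, y n = ∑ j, β j ^ n * s j n

/-- ADJ (denominators and sizes of the parts). Proof. `d = ∑ deg f_j`. Matrix `Mat` over `𝓞 K` with rows
`i < d` and columns `(j, c)`, `c < deg f_j`, entries `β_j ^ i cf f_j i c`; it is injective over `K` (see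
PAR: a kernel vector `v` gives `s_j(n) = ∑_c cf f_j n c v_(j,c)` with
`∑_j β_j ^ n s_j(n)` in `Sol(∏ (f_j).scaleRoots (β_j))` with `d` zero initial values, so zero, so all
`s_j = 0` by hypothesis and `v = 0`). So `δ = det Mat ≠ 0` (index the rows by the columns with a
bijection). The vector `v` of the initial values of the `s_j` satisfies `Mat v = (y_i)_i`, so
`δ v = adj(Mat) (y_i)_i` is in `𝓞 K`, and `δ s_j(n) = ∑_c cf f_j n c (δ v_(j,c)) = a_j`. Sizes: let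
`A₁` bound `|φ(cf f_j i c)|` for `i < d`; entries of `Mat` are `≤ A₁ b ^ d`, those of
`adj(Mat)` are `≤ d! (A₁ b ^ d) ^ d`, so `|φ(δ v_(j,c))| ≤ d d! A₁ ^ d b ^ (d ^ 2) B`; and
`|φ(a_j)| ≤ A ^ (n+1) b ^ (d ^ 2) B` by `Pd.growth_ring`. -/
def StADJ : Prop :=
  ∀ (K : Type) [Field K] [NumberField K] (m : ℕ) (f : Fin (m + 1) → (𝓞 K)[X]),
    (∀ j, (f j).Monic) → ∃ A : ℝ, 1 ≤ A ∧
    ∀ β : Fin (m + 1) → 𝓞 K,
      (∀ s : Fin (m + 1) → ℕ → K, (∀ j, Pd.Sol ((f j).map (algebraMap (𝓞 K) K)) (s j)) →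
        (∀ n, ∑ j, (β j : K) ^ n * s j n = 0) → ∀ j n, s j n = 0) →
      ∀ (s : Fin (m + 1) → ℕ → K) (y : ℕ → 𝓞 K) (b : (K →+* ℂ) → ℝ) (B : ℝ), 0 ≤ B →
        (∀ j, Pd.Sol ((f j).map (algebraMap (𝓞 K) K)) (s j)) →
        (∀ n, (y n : K) = ∑ j, (β j : K) ^ n * s j n) →
        (∀ φ, 1 ≤ b φ ∧ ∀ j, ‖res φ (β j)‖ ≤ b φ) →
        (∀ φ : K →+* ℂ, ∀ i < ∑ j, (f j).natDegree, ‖res φ (y i)‖ ≤ B) →
        ∃ δ : 𝓞 K, δ ≠ 0 ∧ ∀ n, ∃ a : Fin (m + 1) → 𝓞 K,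
          (∀ j, (a j : K) = δ * s j n) ∧
          ∀ (φ : K →+* ℂ) j,
            ‖res φ (a j)‖ ≤ A ^ (n + 1) * b φ ^ ((∑ j, (f j).natDegree) ^ 2) * B

/-- SEQ (the zeros are zeros of all the parts). Proof from THM (`q = 1`), KER, ADJ, HEV, PN. `d = ∑ deg f_j`,
`β_j = lam_j(x, y)`, `|φ(β_j)| ≤ Λ tt ^ e ≤ b = Λ TT ^ (ν e)`, `Λ ≥ 1`. The `T₀` is at least that of KER.
If `y n = 0` and not all `s_j(n) = 0` then `a ≠ 0`, `∑ a_j β_j ^ n = δ y_n = 0`, and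
`HH a ≤ ((m + 1) A ^ (n+1) (Λ TT ^ (ν e)) ^ (d ^ 2) B) ^ D`, so by THM
`TT ^ n ≤ C₂ ^ (n + 1) (B TT) ^ c` with `C₂ ≥ 1` and `c` depending on the data only. With
`T₀ ≥ C₂ ^ 2`: `C₂ ^ (n + 1) ≤ TT ^ ((n + 1) / 2)`, so
`TT ^ (2 n) ≤ TT ^ (n + 1) (B TT) ^ (2 c)`, `TT ^ n ≤ (B TT) ^ (2 c + 1)`. -/
def StSEQ : Prop :=
  ∀ (K : Type) [Field K] [NumberField K] (m e ν : ℕ) (lam f : Fin (m + 1) → (𝓞 K)[X]),
    1 ≤ m → IsFam e lam → (∀ j, (f j).Monic ∧ (f j).coeff 0 ≠ 0) → ∃ (T₀ : ℝ) (c : ℕ), 1 ≤ T₀ ∧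
    ∀ x y : 𝓞 K, IsCoprime x y → (∀ j, hev e (lam j) x y ≠ 0) → T₀ ≤ TT x y →
    (∀ φ : K →+* ℂ, tt φ x y ≤ TT x y ^ ν) →
    ∀ (s : Fin (m + 1) → ℕ → K) (z : ℕ → 𝓞 K) (B : ℝ), 1 ≤ B →
      (∀ j, Pd.Sol ((f j).map (algebraMap (𝓞 K) K)) (s j)) →
      (∀ n, (z n : K) = ∑ j, ((hev e (lam j) x y : 𝓞 K) : K) ^ n * s j n) →
      (∀ φ : K →+* ℂ, ∀ i < ∑ j, (f j).natDegree, ‖res φ (z i)‖ ≤ B) →
      ∀ n, (B * TT x y) ^ c < TT x y ^ n → z n = 0 → ∀ j, s j n = 0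

/-- NVF (the values of the forms are not zero). Proof from HEV. Let `lam ≠ 0` with a zero `(x, y)`,
`x`, `y` coprime. Then `TT x y ≤ T₁`: over `K`, if `y = 0` then `TT = 1`. Otherwise `t = x / y` is a
root of `lam` in `K`; there are finitely many roots `t = u / v`, `u`, `v ∈ 𝓞 K`, `v ≠ 0` (fixed choice), and
`x v = u y`, `x x' + y y' = 1` give `v = y (u x' + v y')`, `u = x (u x' + v y')`, and the factor
`w = u x' + v y'` is a nonzero integer of `K`, so `TT u v = |N(w)| TT x y ≥ TT x y`. `T₁` = the maximum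
of `TT u v` and `1`. -/
def StNVF : Prop :=
  ∀ (K : Type) [Field K] [NumberField K] (e : ℕ) (lam : (𝓞 K)[X]), lam ≠ 0 →
    lam.natDegree ≤ e → ∃ T₁ : ℝ, ∀ x y : 𝓞 K, IsCoprime x y → T₁ < TT x y →
      hev e lam x y ≠ 0

/-- EXA (the family of order five). Proof. Coefficients of the first four: `(1, 3 I, -2)`, `(1, -3 I, -2)`,
`(1, -I, 2)`, `(1, I, 2)` (leading first); `r` has the real coefficients `(a, b, c)`: comparing
coefficients, no two are proportional (for `r`: `3 I a = b` with integers implies `a = b = 0`, and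
then all vanish). No common zero: `lam_0 + lam_1 = 2 X ^ 2 - 4`, `lam_2 + lam_3 = 2 X ^ 2 + 4`, the
difference is `8`. -/
def StEXA : Prop :=
  ∀ (R : Type) [CommRing R] [IsDomain R] [CharZero R] (I : R) (a b c : ℤ), I ^ 2 = -1 →
    ¬(a = 0 ∧ b = 0 ∧ c = 0) →
    IsFam 2 (![(X + C I) * (X + C (2 * I)), (X - C I) * (X - C (2 * I)),
      (X + C I) * (X - C (2 * I)), (X - C I) * (X + C (2 * I)),
      C (a : R) * X ^ 2 + C (b : R) * X + C (c : R)] : Fin 5 → R[X])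

end Pool.Agent.Work.MP_8d13b5_lc.Fm
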