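import Pool.Agent.Work.MP_8d13b5_lc.Fm.Defs2
import Pool.Agent.Work.MP_8d13b5_lc.Fm.Fin

set_option autoImplicit false

/-! The statements for the general (not split) families `F(t, X)`. The docstrings are the complete
proofs. Notation: `k = m + 1 = deg F`, `F_i = F.coeff i` (polynomials in `t`),
`E_j = Pd.cf F n j` = the coefficient of `X ^ j` in `X ^ n mod F` (polynomials in `t`). -/

namespace Pool.Agent.Work.MP_8d13b5_lc.Fm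

open Polynomial NumberField Finset Module

/-- CFD (degrees and sizes of the `E_j`). Proof. `X * (X ^ n mod F)` has the coefficient `E_m` at `X ^ k`,
so `X ^ (n + 1) mod F = X * (X ^ n mod F) - E_m F`: the recursion. By induction with
the weights `q deg E_j + p j ≤ p n` if `E_j ≠ 0` (`deg (E_m F_j)`: `q deg ≤ p (n - m) + p (k - j)
= p (n + 1 - j)`). Sizes: `max_j pn E_j` is multiplied by at most `1 + ∑ pn F_i`. Maps: `Polynomial.map_modByMonic`. -/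
def StCFD : Prop :=
  (∀ (R : Type) [CommRing R] [Nontrivial R] (m : ℕ) (F : R[X]), F.Monic → F.natDegree = m + 1 →
    ∀ n, Pd.cf F (n + 1) 0 = -(Pd.cf F n m * F.coeff 0) ∧
      ∀ j < m, Pd.cf F (n + 1) (j + 1) = Pd.cf F n j - Pd.cf F n m * F.coeff (j + 1)) ∧
  (∀ (R S : Type) [CommRing R] [CommRing S] (ψ : R →+* S) (F : R[X]) (n j : ℕ), F.Monic →
    Pd.cf (F.map ψ) n j = ψ (Pd.cf F n j)) ∧
  (∀ (R : Type) [CommRing R] [Nontrivial R] (m p q : ℕ) (F : R[X][X]), F.Monic →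
    F.natDegree = m + 1 → (∀ i ≤ m, q * (F.coeff i).natDegree ≤ p * (m + 1 - i)) →
    ∀ n, ∀ j ≤ m, q * (Pd.cf F n j).natDegree ≤ p * n) ∧
  ∀ (R : Type) [CommRing R] (m : ℕ) (F : R[X][X]) (φ : R →+* ℂ), F.Monic →
    F.natDegree = m + 1 → ∀ n, ∀ j ≤ m,
      pn φ (Pd.cf F n j) ≤ (1 + ∑ i ∈ range (m + 1), pn φ (F.coeff i)) ^ n

/-- SLP (slope at infinity). Proof: choose `i ≤ m` with `F_i ≠ 0` and `deg F_i / (m + 1 - i)` maximal;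
`p = deg F_i`, `q = m + 1 - i`. -/
def StSLP : Prop :=
  ∀ (R : Type) [CommRing R] (m : ℕ) (F : R[X][X]), (∃ i ≤ m, F.coeff i ≠ 0) →
    ∃ p q : ℕ, 1 ≤ q ∧ (∀ i ≤ m, q * (F.coeff i).natDegree ≤ p * (m + 1 - i)) ∧
      ∃ i ≤ m, F.coeff i ≠ 0 ∧ q * (F.coeff i).natDegree = p * (m + 1 - i)

/-- COE (content of the `E_j`). Proof by induction on `k`. `k = 1`: `F = X - a`, `cf F n 0 = a ^ n`. Step: `A = AdjoinRoot F`,
`x` the root; `x ^ n = ∑_j cf F n j x ^ j ∈ I A`. Over `A`, `F = (X - x) G` with `G` monic of degree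
`k - 1`; `X ^ n = ∑_j cf F n j X ^ j` modulo `F`, hence modulo `G`, so (reducing `X ^ (k-1)` modulo `G`)
`cf G n j ∈ I A` for all `j < k - 1`. By induction `(G.coeff i) ^ ((k - 1) n) ∈ I A` for
`i < k - 1`. `F.coeff i = G.coeff (i - 1) - x G.coeff i` (with `G.coeff (-1) = 0`, `G.coeff (k - 1) = 1`), and if
`a ^ s ∈ I A`, `b ^ n ∈ I A` then `(a + b) ^ (s + n) ∈ I A`. So `(F.coeff i) ^ (k n) ∈ I A`; this is an element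
of `S`, and `I A ∩ S = I` as `A` is free over `S` with a basis containing `1`
(`AdjoinRoot.powerBasis'`). For `n = 0`: `cf F 0 0 = 1`, `I = S` (or the exponent is `0` and `1 = cf F 0 0 ∈ I`). -/
def StCOE : Prop :=
  ∀ (k : ℕ) (S : Type) [CommRing S] (F : S[X]) (n : ℕ) (I : Ideal S), F.Monic →
    F.natDegree = k → (∀ j < k, Pd.cf F n j ∈ I) → ∀ i < k, F.coeff i ^ (k * n) ∈ I

/-- ID2. Proof from COE: `I` = the ideal of the `cf F n j`; `c` is a sum of `m + 1` terms whose powers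
with exponent `(m + 1) n` are in `I`, so `c ^ ((m + 1) * ((m + 1) n)) ∈ I` (pigeonhole in the
multinomial formula). -/
def StID2 : Prop :=
  ∀ (S : Type) [CommRing S] (m n : ℕ) (F : S[X]) (A : Fin (m + 1) → S) (c : S), F.Monic →
    F.natDegree = m + 1 → ∑ i, A i * F.coeff (i : ℕ) = c →
    ∃ b : Fin (m + 1) → S, ∑ j, b j * Pd.cf F n j = c ^ ((m + 1) ^ 2 * n)

/-- RTB (largest root). Proof: `f = ∏ (X - z_l)` over `ℂ`, `z` a root of largest absolute value; the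
coefficient `i` is, up to the sign, the elementary symmetric function of degree `k - i`: at most
`k.choose (k - i)` products. Cauchy bound: if `‖z‖ > 1` then `‖z‖ ^ k ≤ (∑ ‖f_i‖) ‖z‖ ^ (k-1)`. -/
def StRTB : Prop :=
  ∀ (k : ℕ) (f : ℂ[X]), f.Monic → f.natDegree = k → 1 ≤ k →
    ∃ z : ℂ, f.eval z = 0 ∧ ‖z‖ ≤ 1 + ∑ i ∈ range k, ‖f.coeff i‖ ∧
      ∀ i < k, ‖f.coeff i‖ ≤ 2 ^ k * ‖z‖ ^ (k - i)

/-- LO2 (lower bound for the largest `E_j`). Proof from RTB, CFD, PN. Fix `φ` (finitely many; take the worst constants),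
`τ = max (|φ(t₀)|, 1) = tt φ t₀ 1`, `k = m + 1`. (a) There is `c > 0` such that for every `t₀` some `i ≤ m`
satisfies `‖φ(F_i(t₀))‖ ^ q ≥ c τ ^ (p (k - i))`: for `|φ(t₀)| ≥ ρ₀` take the `i` of the hypothesis
(`|F_i(t₀)| ≥ |leading coefficient| |t₀| ^ deg / 2` for large `t₀`); for `|φ(t₀)| ≤ ρ₀` the
identity `∑ A_i(t₀) F_i(t₀) = c'` gives some `|F_i(t₀)| ≥ c''`, and `τ ≤ max (1, ρ₀)`. (b) Let `z` be the
root of RTB for the image of `spc F t₀`: `2 ^ (k q) ‖z‖ ^ (q (k - i)) ≥ c τ ^ (p (k - i))`, so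
`‖z‖ ^ q ≥ c₁ τ ^ p`, and `‖z‖ ≤ C τ ^ s`. (c) `z ^ n = ∑_j φ(E_j(t₀)) z ^ j` (evaluate
`X ^ n = F * quotient + ∑ E_j X ^ j`), so some `j` has
`‖φ(E_j(t₀))‖ ≥ ‖z‖ ^ n / (k (1 + ‖z‖) ^ m)`; take the power `q`. -/
def StLO2 : Prop :=
  ∀ (K : Type) [Field K] [NumberField K] (m p q : ℕ) (F : (𝓞 K)[X][X]), F.Monic →
    F.natDegree = m + 1 → 1 ≤ q → (∀ i ≤ m, q * (F.coeff i).natDegree ≤ p * (m + 1 - i)) →
    (∃ i ≤ m, F.coeff i ≠ 0 ∧ q * (F.coeff i).natDegree = p * (m + 1 - i)) →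
    (∃ c : 𝓞 K, c ≠ 0 ∧ ∃ A : Fin (m + 1) → (𝓞 K)[X], ∑ i, A i * F.coeff (i : ℕ) = C c) →
    ∃ (c₀ : ℝ) (s : ℕ), 0 < c₀ ∧ c₀ ≤ 1 ∧ ∀ (φ : K →+* ℂ) (t₀ : 𝓞 K) (n : ℕ),
      ∃ j : Fin (m + 1), c₀ ^ (n + 1) * tt φ t₀ 1 ^ (p * n) ≤
        ‖res φ ((Pd.cf F n j).eval t₀)‖ ^ q * tt φ t₀ 1 ^ s

/-- GG1 (one greedy step, any vector `E`). Proof: exactly the proof of GR1 (`Fm/I_GR1.lean`) with
`E_j` for `lam_j ^ n`, `B₀ = Λ ^ n`, `ι = Fin (m + 1) × Fin (L + 1)`, `κ = Fin (L + e n + 1)`. -/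
def StGG1 : Prop :=
  ∀ (K : Type) [Field K] [NumberField K] (m e : ℕ) (Λ : ℝ), 1 ≤ Λ → ∀ N₁ : ℕ, 1 ≤ N₁ →
    ∃ C₁ : ℝ, 1 ≤ C₁ ∧ ∀ n : ℕ, 1 ≤ n → ∀ E : Fin (m + 1) → (𝓞 K)[X],
      (∀ j, (E j).natDegree ≤ e * n) → (∀ (φ : K →+* ℂ) j, pn (res φ) (E j) ≤ Λ ^ n) →
      ∀ (ℓ r : ℕ) (Q : Fin r → Fin (m + 1) → K[X]), ℓ ≤ e * n →
      finrank K ↥(DepM Q ⊓ Syz (fun j => (E j).map (algebraMap (𝓞 K) K)) (ℓ + n / N₁)) +
          n / N₁ + 1 ≤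
        finrank K ↥(Syz (fun j => (E j).map (algebraMap (𝓞 K) K)) (ℓ + n / N₁)) →
      ∃ P : Fin (m + 1) → (𝓞 K)[X], ∑ j, P j * E j = 0 ∧
        (∀ j, (P j).natDegree ≤ ℓ + n / N₁) ∧
        (∀ (φ : K →+* ℂ) j, pn (res φ) (P j) ≤ C₁ ^ n) ∧
        (fun j => (P j).map (algebraMap (𝓞 K) K)) ∉ DepM Q

/-- WRG (part (2) for general families; proof in `Fm/StmtsW.lean`): syzygies of small degree do not
exist. -/
def StWRG : Prop :=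
  ∀ (m : ℕ) (G : ℂ[X][X]), G.Monic → G.natDegree = m + 1 → G.coeff 0 ≠ 0 → NonConst G →
    ∃ c : ℕ, ∀ (n L : ℕ) (P : Fin (m + 1) → ℂ[X]), P ≠ 0 → (∀ j, (P j).natDegree ≤ L) →
      ∑ j, P j * Pd.cf G n j = 0 → n ≤ c * (L + 1)

/-- GG2 (greedy). Proof from GAP, WRG, GG1, CFD, ID2, SLP, as GRE (`Fm/I_GRE.lean`). `E_j = cf F n j`, not all zero
by ID2 (over `(𝓞 K)[X]`, with the `c` of `cop`); GAP over `K` with `N = max_j deg E_j`; a nonzero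
vector of `Syz_(ℓ_i)` over `K` becomes a vector over `ℂ` by an embedding `φ` of `rat`, and WRG gives
`n ≤ γ (ℓ_i + 1)`. GG1 with `e = p` of SLP, or any `e` with `deg E_j ≤ e n` (CFD), `Λ` the sum over all `φ` of the
bounds of CFD. -/
def StGG2 : Prop :=
  ∀ (K : Type) [Field K] [NumberField K] (m : ℕ) (F : (𝓞 K)[X][X]), 1 ≤ m → IsCrv m F →
    ∃ γ : ℕ, ∀ N₁ : ℕ, 1 ≤ N₁ → ∃ C₁ : ℝ, 1 ≤ C₁ ∧
    ∀ n : ℕ, 1 ≤ n → ∃ (ℓ : Fin m → ℕ) (Q : Fin m → Fin (m + 1) → (𝓞 K)[X]),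
      (∃ j : Fin (m + 1), ∑ i, ℓ i ≤ (Pd.cf F n j).natDegree) ∧ (∀ i, n ≤ γ * (ℓ i + 1)) ∧
      LinearIndependent (𝓞 K)[X] Q ∧ (∀ i, ∑ j, Q i j * Pd.cf F n j = 0) ∧
      (∀ i j, (Q i j).natDegree ≤ ℓ i + n / N₁) ∧
      ∀ (φ : K →+* ℂ) i j, pn (res φ) (Q i j) ≤ C₁ ^ n

/-- HEN (fixed point equation for power series, with a majorant). Proof. The coefficient `r` of the right
side depends only on `z_1, ..., z_(r-1)` (terms `i ≥ 1`; or `i = 0`, `j ≥ 2`, as `z_0 = 0`): define `z` by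
recursion. Growth: `u_r = 1 / r ^ 2` (`r ≥ 1`), `∑_(a + b = r, a, b ≥ 1) u_a u_b ≤ 16 u_r` (one of `a`, `b` is
`≥ r / 2`, and `∑ 1 / a ^ 2 ≤ 2`). Claim `N z_r ≤ κ G ^ r u_r` for `r ≥ 1`, with `κ = 1 / (64 M)`,
`G = 256 (I + 1) ^ 3 M ^ 2`. By induction `N (coeff r (z ^ j)) ≤ κ ^ j 16 ^ (j - 1) G ^ r u_r`, `j ≥ 1`. The
terms `i = 0`, `j ≥ 2` give at most `M κ ∑_(j ≥ 2) (16 κ) ^ (j - 1) G ^ r u_r ≤ 32 M κ ^ 2 G ^ r u_r = (κ / 2) G ^ r u_r`.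
The terms `i ≥ 1`, `j ≥ 1`: `u_(r - i) ≤ (i + 1) ^ 2 u_r`, so at most
`M I 2 κ (I + 1) ^ 2 G ^ (r - 1) u_r ≤ (κ / 4) G ^ r u_r`. The term `j = 0` occurs only for `i = r ≤ I`:
`M ≤ (κ / 4) G ^ r u_r`. (No bound for `N 1` is needed.) -/
def StHEN : Prop :=
  ∀ I J : ℕ, ∃ C₀ : ℝ, 1 ≤ C₀ ∧ ∀ (A : Type) [CommRing A] (g : ℕ → ℕ → A), g 0 0 = 0 →
    g 0 1 = 0 → ∃ z : PowerSeries A, PowerSeries.constantCoeff z = 0 ∧
      z = ∑ i ∈ range (I + 1), ∑ j ∈ range (J + 1),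
        PowerSeries.C (g i j) * PowerSeries.X ^ i * z ^ j ∧
      ∀ (N : A → ℝ) (M : ℝ), IsSn N → 1 ≤ M → (∀ i ≤ I, ∀ j ≤ J, N (g i j) ≤ M) →
        ∀ r, 1 ≤ r → N (PowerSeries.coeff r z) ≤ (C₀ * M ^ 2) ^ r

/-- HNX (Hensel). Proof from HEN. `F(t₀ + s, x + w) = ∑_(i ≤ τ, j ≤ k) F_ij s ^ i w ^ j` with
`F_ij ∈ A` (divided derivatives: `F_ij = ∑_(l ≥ j) l.choose j (hasseDeriv i F_l)(t₀) x ^ (l - j)`), `F_00 = 0`,
`F_01 = δ`, the value of the derivative. Put `s = Δ ^ 2 c s'`, `w = Δ c z`,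
`g_0j = -(ds F_0j Δ ^ (j - 2) c ^ (j - 1))` for `j ≥ 2`, `g_00 = g_01 = 0`,
`g_ij = -(ds F_ij (Δ ^ 2 c) ^ (i - 1) (Δ c) ^ j)` for `i ≥ 1`. If `z = ∑ g_ij s' ^ i z ^ j` then
`δ Δ c z = -(Δ ^ 2 c) (∑_(j ≥ 2) F_0j Δ ^ (j-2) c ^ (j-1) z ^ j + ∑_(i ≥ 1) F_ij (Δ ^ 2 c) ^ (i-1) s' ^ i (Δ c z) ^ j)`
(`δ ds = Δ`), which is minus the sum of the other terms: `F(t₀ + Δ ^ 2 c s', x + Δ c z) = 0`. And
`x + Δ c z = x μ`, `μ = 1 + Δ xs z`. Sizes: all the `g_ij` are `≤ C M ^ c`. -/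
def StHNX : Prop :=
  ∀ k τ : ℕ, ∃ (C₀ : ℝ) (s : ℕ), 1 ≤ C₀ ∧ ∀ (R A : Type) [CommRing R] [CommRing A] [Algebra R A]
    (F : R[X][X]) (t₀ Δ c : R) (x xs ds : A), F.natDegree ≤ k →
    (∀ j, (F.coeff j).natDegree ≤ τ) → ev2 F (algebraMap R A t₀) x = 0 →
    ev2 (derivative F) (algebraMap R A t₀) x * ds = algebraMap R A Δ →
    x * xs = algebraMap R A c →
    ∃ μ : PowerSeries A, PowerSeries.constantCoeff μ = 1 ∧
      ev2 F (PowerSeries.C (algebraMap R A t₀) +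
          PowerSeries.C (algebraMap R A (Δ ^ 2 * c)) * PowerSeries.X)
        (PowerSeries.C x * μ) = 0 ∧
      ∀ (N : A → ℝ) (M : ℝ), IsSn N → 1 ≤ M → N 1 ≤ M → N (algebraMap R A t₀) ≤ M →
        N x ≤ M → N xs ≤ M → N ds ≤ M → N (algebraMap R A Δ) ≤ M → N (algebraMap R A c) ≤ M →
        (∀ i j, N (algebraMap R A ((F.coeff j).coeff i)) ≤ M) →
        ∀ r, 1 ≤ r → N (PowerSeries.coeff r μ) ≤ (C₀ * M ^ s) ^ r

/-- SNM (the seminorm on `AdjoinRoot f`). Proof. `sN` is the sum of the absolute values of the entries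
of the matrix of the multiplication by `a` in the basis `1, x, ..., x ^ (k - 1)`; the sum of the absolute
values of the entries is submultiplicative for matrices. `1`: the identity matrix. `x`: the rows
`x ^ (i + 1)`, `i < k - 1`, and the row of `x ^ k = -∑ f_j x ^ j`. -/
def StSNM : Prop :=
  ∀ (R : Type) [CommRing R] [Nontrivial R] (φ : R →+* ℂ) (f : R[X]) (hf : f.Monic),
    1 ≤ f.natDegree →
    IsSn (sN φ f hf) ∧ (∀ (a : AdjoinRoot f) (j : ℕ),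
      ‖φ ((AdjoinRoot.modByMonicHom hf a).coeff j)‖ ≤ sN φ f hf a) ∧
    (∀ b : R, sN φ f hf (algebraMap R (AdjoinRoot f) b) = f.natDegree * ‖φ b‖) ∧
    sN φ f hf (AdjoinRoot.root f) ≤ f.natDegree + ∑ j ∈ range f.natDegree, ‖φ (f.coeff j)‖

/-- MUN (powers). Proof. `μ ^ n = ∑_j n.choose j (μ - 1) ^ j`; for `j ≥ 1` the coefficient `r` of `(μ - 1) ^ j` has
`N ≤ (r - 1).choose (j - 1) G ^ r` (compositions of `r` into `j` positive parts), `0` for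
`r < j`. Sum: `≤ 2 ^ n 2 ^ r G ^ r` for `r ≥ 1`; `r = 0`: `N 1 ≤ M`. -/
def StMUN : Prop :=
  ∀ (A : Type) [CommRing A] (N : A → ℝ) (M G : ℝ) (μ : PowerSeries A), IsSn N → 1 ≤ M →
    N 1 ≤ M → 0 ≤ G → PowerSeries.constantCoeff μ = 1 →
    (∀ r, 1 ≤ r → N (PowerSeries.coeff r μ) ≤ G ^ r) →
    ∀ n r : ℕ, N (PowerSeries.coeff r (μ ^ n)) ≤ M * 2 ^ n * (2 * G) ^ r

/-- INV (sizes of the inverse matrix). Proof. Coefficient `r ≥ 1` of `S * T = 1` with `S_0 = 1`: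
`T_r = -∑_(a = 1)^r S_a T_(r - a)`, so for the largest entry `τ_r` of `φ(T_r)`:
`τ_0 = 1`, `τ_r ≤ ∑_(a ≥ 1) k B G ^ a τ_(r-a)`, and by induction `τ_r ≤ (G (1 + k B)) ^ r` as
`k B ∑_(a ≥ 1) (1 + k B) ^ (-a) = 1`. -/
def StINV : Prop :=
  ∀ (R : Type) [CommRing R] (φ : R →+* ℂ) (k : ℕ)
    (S T : Matrix (Fin k) (Fin k) (PowerSeries R)) (B G : ℝ), 0 ≤ B → 0 ≤ G → S * T = 1 →
    (∀ i j, PowerSeries.constantCoeff (S i j) = if i = j then 1 else 0) →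
    (∀ i j r, 1 ≤ r → ‖φ (PowerSeries.coeff r (S i j))‖ ≤ B * G ^ r) →
    ∀ i j r, ‖φ (PowerSeries.coeff r (T i j))‖ ≤ (G * (1 + k * B)) ^ r

/-- UUA (the matrix relation). Proof. `f = spc F t₀`, `x` the root, `y = x μ`, `Ê_j = tay E_j t₀ d`. The matrix
`S_(j,i) = crd i (y ^ j)` has the constant coefficient matrix `1` (`x ^ j`, `j < k`, has the coordinates
`e_j`), so it is invertible over the power series: `S * T = 1 = T * S` (the determinant has the constant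
coefficient `1`, a unit). `X ^ n = F * Q + ∑_j E_j X ^ j` in `R[X][X]`; apply `ev2 · (t₀ + d s) y` (a ring
homomorphism; it maps a polynomial `P(t)` to `P(t₀ + d s)`, which is the image of `tay P t₀ d`):
`y ^ n = ∑_j Ê_j y ^ j`. Coordinates: `crd l (y ^ n) = ∑_j Ê_j S_(j,l)`, so
`Ê_j = ∑_l crd l (y ^ n) T_(l,j)`. And `y ^ n = x ^ n μ ^ n = ∑_i E_i(t₀) x ^ i μ ^ n` (evaluate at `t₀`). The
constant coefficients of `∑_l crd l (x ^ i μ ^ n) T_(l,j)` are those of `crd j (x ^ i)`, as `T(0) = 1`, `μ(0) = 1`. -/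
def StUUA : Prop :=
  ∀ (R : Type) [CommRing R] [Nontrivial R] (F : R[X][X]) (t₀ d : R) (hf : (spc F t₀).Monic)
    (μ : PowerSeries (AdjoinRoot (spc F t₀))), F.Monic → 1 ≤ F.natDegree →
    PowerSeries.constantCoeff μ = 1 →
    ev2 F (PowerSeries.C (algebraMap R (AdjoinRoot (spc F t₀)) t₀) +
        PowerSeries.C (algebraMap R (AdjoinRoot (spc F t₀)) d) * PowerSeries.X)
      (PowerSeries.C (AdjoinRoot.root (spc F t₀)) * μ) = 0 →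
    ∃ T : Matrix (Fin F.natDegree) (Fin F.natDegree) (PowerSeries R),
      (Matrix.of fun j i : Fin F.natDegree => crd (spc F t₀) hf i
        ((PowerSeries.C (AdjoinRoot.root (spc F t₀)) * μ) ^ (j : ℕ))) * T = 1 ∧
      ∀ n : ℕ,
        (∀ i j : Fin F.natDegree, PowerSeries.constantCoeff (∑ l : Fin F.natDegree,
          crd (spc F t₀) hf l
          (PowerSeries.C (AdjoinRoot.root (spc F t₀) ^ (i : ℕ)) * μ ^ n) * T l j) =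
            if i = j then 1 else 0) ∧
        ∀ j : Fin F.natDegree, ∑ i : Fin F.natDegree,
          PowerSeries.C ((Pd.cf F n i).eval t₀) * (∑ l : Fin F.natDegree, crd (spc F t₀) hf l
            (PowerSeries.C (AdjoinRoot.root (spc F t₀) ^ (i : ℕ)) * μ ^ n) * T l j) =
          tay (Pd.cf F n j) t₀ d

/-- DIS (discriminant). Proof. `F` and its derivative are coprime over the fraction field of
`(𝓞 K)[t]` (separability over `ℂ(t)`, which descends: the resultant, or the gcd, does not change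
with the field), so `U F + V F' = Δ` with `U`, `V ∈ (𝓞 K)[t][X]` and `0 ≠ Δ ∈ (𝓞 K)[t]`. -/
def StDIS : Prop :=
  ∀ (K : Type) [Field K] [NumberField K] (m : ℕ) (F : (𝓞 K)[X][X]), IsCrv m F →
    ∃ (U V : (𝓞 K)[X][X]) (Δ : (𝓞 K)[X]), Δ ≠ 0 ∧ U * F + V * derivative F = C Δ

/-- UUU (the matrices `U`). Proof from DIS, HNX, SNM, MUN, INV, UUA. Let `Δ₀` be the `Δ` of DIS, `a₀ = F.coeff 0`,
`Δ = Δ₀ ^ 2 a₀`. For `t₀` with `Δ(t₀) ≠ 0`: `f = spc F t₀`, `A = AdjoinRoot f`, `x` the root,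
`ds = V(t₀, x)`, `c = a₀(t₀)`, `xs = -(x ^ (k - 1) + ∑_(1 ≤ i < k) F_i(t₀) x ^ (i - 1))` (`x xs = c`), `d = Δ(t₀)`.
`N = sN φ f`: the sizes of `1`, `t₀`, `x`, `xs`, `ds`, `Δ₀(t₀)`, `c`, and of the coefficients of `F` are at most
`M = C τ ^ s`, `τ = tt φ t₀ 1` (SNM; values at `t₀` of fixed polynomials). HNX gives `μ` with
`N μ_r ≤ G ^ r`, `G = C τ ^ s`. `U_(i,j) = ∑_l crd l (x ^ i μ ^ n) T_(l,j)` of UUA. Sizes: MUN for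
`μ ^ n`; coordinates are bounded by `N` (SNM); the matrix `S` of UUA has entries of size
`≤ B G' ^ r` (MUN for `μ ^ j`), INV for `T`; the product of two series with coefficients
`≤ B₁ G₁ ^ r`, `≤ B₂ G₂ ^ r` has coefficients `≤ (r + 1) B₁ B₂ max ^ r`. All in all
`≤ B₁ 2 ^ n (C τ ^ s) ^ r` with `B₁ = C τ ^ s`. (The factor `B₁` is in the statement.) -/
def StUUU : Prop :=
  ∀ (K : Type) [Field K] [NumberField K] (m : ℕ) (F : (𝓞 K)[X][X]), IsCrv m F →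
    ∃ (Δ : (𝓞 K)[X]) (C₀ : ℝ) (s : ℕ), Δ ≠ 0 ∧ 1 ≤ C₀ ∧
    ∀ t₀ : 𝓞 K, Δ.eval t₀ ≠ 0 → ∀ n : ℕ,
      ∃ U : Fin (m + 1) → Fin (m + 1) → PowerSeries (𝓞 K),
        (∀ i j, PowerSeries.constantCoeff (U i j) = if i = j then 1 else 0) ∧
        (∀ j : Fin (m + 1), ∑ i : Fin (m + 1),
          PowerSeries.C ((Pd.cf F n i).eval t₀) * U i j = tay (Pd.cf F n j) t₀ (Δ.eval t₀)) ∧
        ∀ (φ : K →+* ℂ) i j r, ‖res φ (PowerSeries.coeff r (U i j))‖ ≤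
          C₀ ^ (n + 1) * tt φ t₀ 1 ^ s * (C₀ * tt φ t₀ 1 ^ s) ^ r

/-- HDQ (coefficients of a determinant of power series). Proof. The coefficient `R` of the determinant
is the sum over all `r` with `∑ r i = R` of the determinants of the matrices
`(coeff (r i) (M i j))` (expand the determinant; `PowerSeries.coeff_prod`; or linearity in the rows),
so one of them is not zero. -/
def StHDQ : Prop :=
  ∀ (R : Type) [CommRing R] (k N : ℕ) (M : Fin k → Fin k → PowerSeries R),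
    PowerSeries.coeff N (Matrix.of M).det ≠ 0 →
    ∃ r : Fin k → ℕ, ∑ i, r i = N ∧
      (Matrix.of fun i j => PowerSeries.coeff (r i) (M i j)).det ≠ 0

/-- VE2 (the auxiliary vectors). Proof from GG2, UUU, CRA, ID2, HDQ, PN. Data of GG2 (`ℓ`, `Q`), `h = n / N₁`, `d = Δ(t₀)`,
`E_j = cf F n j`. By ID2 over `(𝓞 K)[X]` (with `cop`) `∑ b_j E_j = C r₀`, `r₀ ≠ 0`; by CRA
`C r₀ * mnr Q j = c' E_j` for all `j`, `c' = ∑ b_j mnr Q j ≠ 0`; for the `j` of GG2 with `∑ ℓ ≤ deg E_j`: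
`deg c' + deg E_j ≤ ∑ (ℓ_i + h)`, so `deg c' ≤ m h`. Let `j₀` be such that `E_(j₀)(t₀) ≠ 0` (it exists by ID2 at
`t₀`), `ρ` the order of vanishing of `c'` at `t₀`, `ρ ≤ m h`. `tay · t₀ d` is a ring
homomorphism. Put `W_i(s)_a = ∑_b U_(a,b)(s) tay(Q_(i,b))` (power series), `i < m`, and
`W_*(s)_a = U_(a,j₀)(s)`. `∑_a E_a(t₀) W_i(s)_a = ∑_b tay(E_b) tay(Q_(i,b)) = tay(∑_b E_b Q_(i,b)) = 0`, so every
coefficient vector `V_i^(r)` of `W_i` is orthogonal to `E(t₀)`. The determinant of the rows `W_*`, `W_i` is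
`det(U) * det(e_(j₀); tay Q_i)`, and `C r₀ det(e_(j₀); tay Q_i) = ± tay(c') tay(E_(j₀))` has the
coefficient of `s ^ ρ` equal to `± (hasseDeriv ρ c')(t₀) d ^ ρ E_(j₀)(t₀) ≠ 0` and lower coefficients zero;
`det U` has the constant coefficient `1`. So the coefficient `ρ` of the determinant of the rows is not
zero, HDQ gives `r_*`, `r_i` with sum `ρ` and independent vectors `V_i = V_i^(r_i)`, `∑ r_i ≤ ρ ≤ m h`. Sizes:
`tay(Q_(i,b))` has the coefficients `≤ 2 ^ L pn(Q_(i,b)) τ ^ L (|d|) ^ r`, `L = ℓ_i + h`, `|φ(d)| ≤ C τ ^ s`; `ℓ_i ≤ e n`,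
`h ≤ n`, `r_i ≤ m n`. The factor `τ ^ s` of UUU (independent of `r`) is the `s₁` here. -/
def StVE2 : Prop :=
  ∀ (K : Type) [Field K] [NumberField K] (m : ℕ) (F : (𝓞 K)[X][X]), 1 ≤ m → IsCrv m F →
    ∃ (Δ : (𝓞 K)[X]) (γ s₁ s₂ : ℕ), Δ ≠ 0 ∧ ∀ N₁ : ℕ, 1 ≤ N₁ → ∃ C₁ : ℝ, 1 ≤ C₁ ∧
    ∀ n : ℕ, 1 ≤ n → ∀ t₀ : 𝓞 K, Δ.eval t₀ ≠ 0 →
      ∃ (ℓ r : Fin m → ℕ) (V : Fin m → Fin (m + 1) → 𝓞 K),
        (∃ j : Fin (m + 1), ∑ i, ℓ i ≤ (Pd.cf F n j).natDegree) ∧ (∀ i, n ≤ γ * (ℓ i + 1)) ∧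
        ∑ i, r i ≤ m * (n / N₁) ∧ LinearIndependent (𝓞 K) V ∧
        (∀ i, ∑ j, V i j * (Pd.cf F n j).eval t₀ = 0) ∧
        ∀ (φ : K →+* ℂ) i j,
          ‖res φ (V i j)‖ ≤ C₁ ^ n * tt φ t₀ 1 ^ (ℓ i + n / N₁ + s₁ + s₂ * r i)

/-- **TH2 (Theorem M for general families).** Proof from VE2, END, ID2, LO2, CFD, SLP, NVF. `T₀` such that `TT t₀ 1 ≥ T₀` implies
`Δ(t₀) ≠ 0` (NVF with `y = 1`, `hev e Δ t₀ 1 = Δ(t₀)`). `T = TT t₀ 1 ≥ 1`. `n = 0`: trivial (`HH a ≥ 1`). For `n ≥ 1`: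
`N₁ = 2 (γ + 1) (1 + s₂) m`, `h = n / N₁`. END with `E_j = cf F n j (t₀)`, `b`, `g = c ^ ((m+1)^2 n)` of ID2 at `t₀`,
`f φ = ‖res φ (E_j)‖` for the `j` of LO2, `A i φ = C₁ ^ n τ ^ (ℓ_i + h + s₁ + s₂ r_i)`. Take the power `q` of the inequality of END and use LO2:
`c₀ ^ (D (n+1)) T ^ (p n) ≤ T ^ s (C ^ (n+1) HH(a)) ^ q T ^ (q S)`,
`S = ∑_(i ≠ i₀) (ℓ_i + h + s₁ + s₂ r_i) ≤ ∑ ℓ - ℓ_(i₀) + m h (1 + s₂) + m s₁`, `q ∑ ℓ ≤ p n` (CFD). So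
`T ^ (q ℓ_(i₀)) ≤ C ^ (n+1) HH(a) ^ q T ^ (q m h (1 + s₂) + c)`. Power `γ' = γ + 1`, `n ≤ γ' (ℓ_(i₀) + 1)`,
`γ' q (1 + s₂) m h ≤ q n / 2`: `T ^ (q n) ≤ (...) T ^ (q n / 2)`; square. -/
def StTH2 : Prop :=
  ∀ (K : Type) [Field K] [NumberField K] (m : ℕ) (F : (𝓞 K)[X][X]), 1 ≤ m → IsCrv m F →
    ∃ (T₀ C₁ : ℝ) (c κ : ℕ), 1 ≤ T₀ ∧ 1 ≤ C₁ ∧ ∀ t₀ : 𝓞 K, T₀ ≤ TT t₀ 1 →
      ∀ (n : ℕ) (a : Fin (m + 1) → 𝓞 K), a ≠ 0 → ∑ j, a j * (Pd.cf F n j).eval t₀ = 0 →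
        TT t₀ 1 ^ n ≤ (C₁ ^ (n + 1) * TT t₀ 1 ^ c * HH a) ^ κ

/-- SQ2 (recurrences). Proof from TH2, CFD. `Rec` for `spc F t₀` is `Pd.Sol`; `u_n = ∑_j cf (spc F t₀) n j u_j`
(`Pd.Sol.expand`) `= ∑_j (cf F n j)(t₀) u_j` (CFD for the map `evalRingHom t₀`). If `u_n = 0` and
`a = (u_0, ..., u_m) ≠ 0` then `T ^ n ≤ (C₁ ^ (n+1) T ^ c ((m + 1) B) ^ D) ^ κ ≤ C₂ ^ (n+1) (B T) ^ c'`, and with
`T ≥ T₀ ≥ C₂ ^ 2`: `T ^ (2 n) ≤ T ^ (n+1) (B T) ^ (2 c')`, `T ^ n ≤ (B T) ^ (2 c' + 1)`. If `a = 0` then `u = 0`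
(`Pd.Sol.eq_zero`). -/
def StSQ2 : Prop :=
  ∀ (K : Type) [Field K] [NumberField K] (m : ℕ) (F : (𝓞 K)[X][X]), 1 ≤ m → IsCrv m F →
    ∃ (T₀ : ℝ) (c : ℕ), 1 ≤ T₀ ∧ ∀ t₀ : 𝓞 K, T₀ ≤ TT t₀ 1 →
      ∀ (u : ℕ → 𝓞 K) (B : ℝ), Rec (RingHom.id (𝓞 K)) (spc F t₀) u → 1 ≤ B →
        (∀ (φ : K →+* ℂ), ∀ i ≤ m, ‖res φ (u i)‖ ≤ B) →
        ∀ n, (B * TT t₀ 1) ^ c < TT t₀ 1 ^ n → u n = 0 → ∀ i, u i = 0

/-- FI2 (integers). Proof from SQ2 for `K = ℚ`, `𝓞 ℚ = ℤ` (`Rat.ringOfIntegersEquiv`), `TT t 1 = |t|` for `t ≠ 0`, `B = 0`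
replaced by `1`. -/
def StFI2 : Prop :=
  ∀ (m : ℕ) (F : ℤ[X][X]), 1 ≤ m → F.Monic → F.natDegree = m + 1 → F.coeff 0 ≠ 0 →
    (∃ c : ℤ, c ≠ 0 ∧ ∃ A : Fin (m + 1) → ℤ[X], ∑ i, A i * F.coeff (i : ℕ) = C c) →
    NonConst (F.map (mapRingHom (Int.castRingHom ℂ))) →
    ∃ T₀ c : ℕ, ∀ t : ℤ, T₀ ≤ t.natAbs → ∀ u : ℕ → ℤ, Rec (RingHom.id ℤ) (spc F t) u →
      (∀ n, u n = 0) ∨ ∀ B n : ℕ, (∀ i ≤ m, (u i).natAbs ≤ B) →
        (B * t.natAbs) ^ c < t.natAbs ^ n → u n ≠ 0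

/-- DE2 (decision procedure for a family and its subsequences). Proof from FI2 and DEC, as PC (`Fm/I_PC.lean`): `T₀ ≥ 2`; for
`q < N`, `z_n = u_(q + N n)` is zero identically (then `u_q = 0`) or has no zero `n` with
`(B' T) ^ c < T ^ n`, `B' = 2 ^ (N (m + 2) lsize p)`: no zero `n > c (N (m + 2) lsize p + 1)`. -/
def StDE2 : Prop :=
  ∀ (m N : ℕ) (F : ℤ[X][X]), 1 ≤ m → 1 ≤ N → F.Monic → F.natDegree = m + 1 → F.coeff 0 ≠ 0 →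
    (∃ c : ℤ, c ≠ 0 ∧ ∃ A : Fin (m + 1) → ℤ[X], ∑ i, A i * F.coeff (i : ℕ) = C c) →
    NonConst (F.map (mapRingHom (Int.castRingHom ℂ))) →
    ∃ (T₀ : ℕ) (M : List ℤ × List ℤ → Bool), Primrec M ∧
      ∀ (p : List ℤ × List ℤ) (u : ℕ → ℤ), Pd.IsSeq p u →
        (∃ t : ℤ, T₀ ≤ t.natAbs ∧
          ∀ q < N, Rec (RingHom.id ℤ) (spc F t) (fun n => u (q + N * n))) →
        (M p = true ↔ ∃ n, u n = 0)

/-- EX2 (an explicit family). Proof from FI2 for `F = X ^ k - t X - 1`: `F.coeff 0 = -1` (so the coefficients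
are coprime), `NonConst`: over `ℂ(t)`, let `α` be a common root (in an extension) of `F` and of
`F.scaleRoots c`, `c ≠ 0`: `α ≠ 0`, `α ^ k - 1 = t α`, and `α = c β` with `β ^ k - 1 = t β`:
`β (c ^ k β ^ k - 1) = c β (β ^ k - 1)`, so `(c ^ k - c) β ^ k = 1 - c`; `β` is transcendental over `ℂ`
(as `t = (β ^ k - 1) / β` is), so `c = 1`. Separable: `k β ^ (k - 1) = t` and `β ^ k - 1 = t β` give
`(k - 1) β ^ k = -1`, impossible. -/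
def StEX2 : Prop :=
  ∀ k : ℕ, 2 ≤ k → ∃ T₀ c : ℕ, ∀ t : ℤ, T₀ ≤ t.natAbs → ∀ u : ℕ → ℤ,
    (∀ n, u (n + k) = t * u (n + 1) + u n) →
    (∀ n, u n = 0) ∨ ∀ B n : ℕ, (∀ i < k, (u i).natAbs ≤ B) →
      (B * t.natAbs) ^ c < t.natAbs ^ n → u n ≠ 0

end Pool.Agent.Work.MP_8d13b5_lc.Fm
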