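import Mathlib

set_option autoImplicit false

/-! Iterated exponentials, and the class of the monotone functions bounded by one of them. -/

namespace Pool.Agent.Work.MP_8d13b5_lc.Fm

/-- the iterated exponential: `tw 0 x = x`, `tw (k + 1) x = 2 ^ tw k x` -/
def tw : ℕ → ℕ → ℕ
  | 0, x => x
  | k + 1, x => 2 ^ tw k x

theorem tw_mono (k : ℕ) : Monotone (tw k) := by
  induction k with
  | zero => exact fun x y h => h
  | succ k ih => exact fun x y h => Nat.pow_le_pow_right (by norm_num) (ih h)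

theorem tw_succ (k x : ℕ) : tw (k + 1) x = 2 ^ tw k x := rfl

theorem tw_le_succ (k x : ℕ) : tw k x ≤ tw (k + 1) x := by
  rw [tw_succ]
  exact (Nat.lt_two_pow_self (n := tw k x)).le

theorem tw_le_of_le {k l : ℕ} (h : k ≤ l) (x : ℕ) : tw k x ≤ tw l x := by
  induction h with
  | refl => exact le_rfl
  | step _ ih => exact ih.trans (tw_le_succ _ x)

theorem le_tw (k x : ℕ) : x ≤ tw k x := tw_le_of_le (Nat.zero_le k) x

theorem tw_tw (k l x : ℕ) : tw k (tw l x) = tw (k + l) x := by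
  induction k with
  | zero => rw [Nat.zero_add]; rfl
  | succ k ih => rw [tw_succ, ih, Nat.add_right_comm, tw_succ]

theorem le_tw_const (n x : ℕ) : n ≤ tw n x := by
  induction n with
  | zero => exact Nat.zero_le _
  | succ n ih => exact (Nat.lt_of_le_of_lt ih (Nat.lt_two_pow_self (n := tw n x)))

/-- monotone functions which are at most an iterated exponential -/
structure Tow (g : ℕ → ℕ) : Prop where
  mono : Monotone g
  bd : ∃ k, ∀ x, g x ≤ tw k x

theorem Tow.tw (k : ℕ) : Tow (Fm.tw k) := ⟨tw_mono k, k, fun _ => le_rfl⟩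

theorem Tow.id : Tow (fun x => x) := ⟨fun _ _ h => h, 0, fun _ => le_rfl⟩

theorem Tow.const (n : ℕ) : Tow (fun _ => n) := ⟨fun _ _ _ => le_rfl, n, fun x => le_tw_const n x⟩

theorem Tow.comp {f g : ℕ → ℕ} (hf : Tow f) (hg : Tow g) : Tow (fun x => f (g x)) := by
  obtain ⟨k, hk⟩ := hf.bd
  obtain ⟨l, hl⟩ := hg.bd
  refine ⟨fun x y h => hf.mono (hg.mono h), k + l, fun x => ?_⟩
  rw [← tw_tw]
  exact (hk _).trans (tw_mono k (hl x))

theorem two_mul_le_two_pow (y : ℕ) : 2 * y ≤ 2 ^ y := by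
  induction y with
  | zero => norm_num
  | succ y ih =>
    rcases Nat.eq_zero_or_pos y with h | h
    · subst h; norm_num
    · have h2 : 2 ≤ 2 ^ y := by
        calc 2 = 2 ^ 1 := (pow_one 2).symm
          _ ≤ 2 ^ y := Nat.pow_le_pow_right (by norm_num) h
      rw [pow_succ]
      omega

theorem Tow.add {f g : ℕ → ℕ} (hf : Tow f) (hg : Tow g) : Tow (fun x => f x + g x) := by
  obtain ⟨k, hk⟩ := hf.bd
  obtain ⟨l, hl⟩ := hg.bd
  refine ⟨fun x y h => Nat.add_le_add (hf.mono h) (hg.mono h), max k l + 1, fun x => ?_⟩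
  have h1 := (hk x).trans (tw_le_of_le (le_max_left k l) x)
  have h2 := (hl x).trans (tw_le_of_le (le_max_right k l) x)
  rw [tw_succ]
  have h3 := two_mul_le_two_pow (Fm.tw (max k l) x)
  omega

theorem Tow.mul {f g : ℕ → ℕ} (hf : Tow f) (hg : Tow g) : Tow (fun x => f x * g x) := by
  obtain ⟨k, hk⟩ := hf.bd
  obtain ⟨l, hl⟩ := hg.bd
  refine ⟨fun x y h => Nat.mul_le_mul (hf.mono h) (hg.mono h), max k l + 2, fun x => ?_⟩
  have h1 := (hk x).trans (tw_le_of_le (le_max_left k l) x)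
  have h2 := (hl x).trans (tw_le_of_le (le_max_right k l) x)
  rw [tw_succ, tw_succ]
  set y := Fm.tw (max k l) x
  calc f x * g x ≤ y * y := Nat.mul_le_mul h1 h2
    _ ≤ 2 ^ y * 2 ^ y := Nat.mul_le_mul (Nat.lt_two_pow_self (n := y)).le (Nat.lt_two_pow_self (n := y)).le
    _ = 2 ^ (2 * y) := by rw [← pow_add, two_mul]
    _ ≤ 2 ^ 2 ^ y := Nat.pow_le_pow_right (by norm_num) (two_mul_le_two_pow y)

theorem Tow.max {f g : ℕ → ℕ} (hf : Tow f) (hg : Tow g) : Tow (fun x => Max.max (f x) (g x)) := by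
  obtain ⟨k, hk⟩ := (hf.add hg).bd
  refine ⟨fun x y h => max_le_max (hf.mono h) (hg.mono h), k, fun x => le_trans ?_ (hk x)⟩
  exact max_le (Nat.le_add_right _ _) (Nat.le_add_left _ _)

theorem Tow.two_pow {f : ℕ → ℕ} (hf : Tow f) : Tow (fun x => 2 ^ f x) := (Tow.tw 1).comp hf

/-- the base is at least one (for the monotonicity) -/
theorem Tow.pow {f g : ℕ → ℕ} (hf : Tow f) (hg : Tow g) (h1 : ∀ x, 1 ≤ f x) :
    Tow (fun x => f x ^ g x) := by
  obtain ⟨k, hk⟩ := (hf.mul hg).two_pow.bd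
  refine ⟨fun x y h => ?_, k, fun x => le_trans ?_ (hk x)⟩
  · exact (Nat.pow_le_pow_left (hf.mono h) _).trans (Nat.pow_le_pow_right (h1 y) (hg.mono h))
  · calc f x ^ g x ≤ (2 ^ f x) ^ g x := Nat.pow_le_pow_left (Nat.lt_two_pow_self (n := f x)).le _
      _ = 2 ^ (f x * g x) := by rw [pow_mul]

theorem Tow.fact {f : ℕ → ℕ} (hf : Tow f) : Tow (fun x => (f x).factorial) := by
  have h1 : Tow (fun x => f x + 1) := hf.add (Tow.const 1)
  obtain ⟨k, hk⟩ := (h1.pow hf (fun x => Nat.le_add_left 1 _)).bd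
  refine ⟨fun x y h => Nat.factorial_le (hf.mono h), k, fun x => le_trans ?_ (hk x)⟩
  exact (Nat.factorial_le_pow (f x)).trans (Nat.pow_le_pow_left (Nat.le_succ _) _)

end Pool.Agent.Work.MP_8d13b5_lc.Fm
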