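import Pool.Agent.Work.MP_8d13b5_lc.Fm.StmtsHom
import Pool.Agent.Work.MP_8d13b5_lc.Fm.Tow

set_option autoImplicit false

/-! EFFECTIVE CONSTANTS: all the constants of HNU and HDU are bounded by an iterated exponential of the
parameters. The statements `SeXXX` are the landed statements `StXXX` with one change: the constants of the
conclusion are at most `g (sum of the parameters)`, where `g` is in the class `Tow` (`Fm/Tow.lean`: monotone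
and at most an iterated exponential `tw k`; closed under sums, products, powers, `max`, factorials and
composition), and `g` is chosen before the parameters (after the field `K`).

HOW TO PROVE `SeXXX`: copy the landed proof `Fm/I_XXX.lean` to `Fm/E_XXX.lean`, theorem `peXXX`, with the
hypotheses `SeYYY` in the place of the `StYYY` which have constants. The constants in the landed proof are
explicit expressions in the parameters and in the constants of the hypotheses. In the place of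
`obtain ⟨C, s, hC, h⟩ := hYYY K m σ` first `obtain ⟨g₁, hg₁, h₁⟩ := hYYY K`, and after the choice of `g` and the
introduction of the parameters `obtain ⟨C, s, hC, hCg, hsg, h⟩ := h₁ m σ` with `C ≤ g₁ (m + σ)`, `s ≤ g₁ (m + σ)`.
Give `g` as an expression in `g₁` and `x` = the sum of the parameters (be generous), for example
`fun x => (g₁ (x * x) + x + 2) ^ (g₁ (x * x) * x + 2)`; show `Tow g` with `Tow.add`, `Tow.mul`, `Tow.pow`,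
`Tow.comp`, `Tow.fact`, `Tow.id`, `Tow.const`; show the bounds with `gcongr`, `omega`, `hg₁.mono`. Constants which
depend only on `K` are constant functions (`Tow.const ⌈C⌉₊`, `Nat.le_ceil`). -/

namespace Pool.Agent.Work.MP_8d13b5_lc.Fm

open Polynomial NumberField Finset Module

/-- eVFD. Copy of `I_VFD.lean`; the constant is `(m + 1) * (w + w * m + w) + (w + w * (m + 1))`. -/
def SeVFD : Prop :=
  ∃ g : ℕ → ℕ, Tow g ∧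
  ∀ m w : ℕ, ∃ c : ℕ, c ≤ g (m + w) ∧ ∀ (G : ℂ[X][X]) (E : Type) [Field E] [Algebra ℂ E]
    (D : Derivation ℤ E E) (τ : E) (lam : Fin (m + 1) → E), G.Monic → G.natDegree = m + 1 →
    (∀ i, (G.coeff i).natDegree ≤ w) → IsDat m G D τ lam →
    ∃ δ : E, δ ≠ 0 ∧ (∀ d x, x ∈ Fil τ lam w d → δ * D x ∈ Fil τ lam w (d + c)) ∧
      ∀ j, δ * (D (lam j) / lam j) ∈ Fil τ lam w c

/-- eVWR. Copy of `I_VWR.lean` (from SeVFD, FLD, DAT, ELI, CNT, VAN); the constant is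
`(m + 1) ^ (m + 1) * (2 ^ m * (1 + (m + 1) * (w * m) + c))`. -/
def SeVWR : Prop :=
  ∃ g : ℕ → ℕ, Tow g ∧
  ∀ m w : ℕ, ∃ c : ℕ, c ≤ g (m + w) ∧ ∀ G : ℂ[X][X], G.Monic → G.natDegree = m + 1 →
    G.coeff 0 ≠ 0 → NonConst G → (∀ i, (G.coeff i).natDegree ≤ w) →
    ∀ (n L : ℕ) (P : Fin (m + 1) → ℂ[X]), P ≠ 0 → (∀ j, (P j).natDegree ≤ L) →
      ∑ j, P j * Pd.cf G n j = 0 → n ≤ c * (L + 1)

/-- eVG1. Copy of `I_VG1.lean` (from PN, SIE); the constants are `C₀ * M`, `M = 2 (m + 2) (e + 2)`, and `q + 2`,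
`q = (m + 1) (e + 2) N₁`. -/
def SeVG1 : Prop :=
  ∀ (K : Type) [Field K] [NumberField K], ∃ g : ℕ → ℕ, Tow g ∧
  ∀ (m e : ℕ), ∀ N₁ : ℕ, 1 ≤ N₁ →
    ∃ (C₁ : ℝ) (s : ℕ), 1 ≤ C₁ ∧ C₁ ≤ g (m + e + N₁) ∧ s ≤ g (m + e + N₁) ∧
      ∀ Λ : ℝ, 1 ≤ Λ → ∀ n : ℕ, 1 ≤ n →
      ∀ E : Fin (m + 1) → (𝓞 K)[X],
      (∀ j, (E j).natDegree ≤ e * n) → (∀ (φ : K →+* ℂ) j, pn (res φ) (E j) ≤ Λ ^ n) →
      ∀ (ℓ r : ℕ) (Q : Fin r → Fin (m + 1) → K[X]), ℓ ≤ e * n →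
      finrank K ↥(DepM Q ⊓ Syz (fun j => (E j).map (algebraMap (𝓞 K) K)) (ℓ + n / N₁)) +
          n / N₁ + 1 ≤
        finrank K ↥(Syz (fun j => (E j).map (algebraMap (𝓞 K) K)) (ℓ + n / N₁)) →
      ∃ P : Fin (m + 1) → (𝓞 K)[X], ∑ j, P j * E j = 0 ∧
        (∀ j, (P j).natDegree ≤ ℓ + n / N₁) ∧
        (∀ (φ : K →+* ℂ) j, pn (res φ) (P j) ≤ ((C₁ * Λ) ^ s) ^ n) ∧
        (fun j => (P j).map (algebraMap (𝓞 K) K)) ∉ DepM Q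

/-- eCRS. Copy of `I_CRS.lean` (from SIE; `VCO.small` is a landed lemma whose constant depends only on `K`); the
constants are `C₀ * (b + 2)`, `b + 2`. -/
def SeCRS : Prop :=
  ∀ (K : Type) [Field K] [NumberField K], ∃ g : ℕ → ℕ, Tow g ∧
  ∀ (a b : ℕ), ∃ (C₀ : ℝ) (s : ℕ), 1 ≤ C₀ ∧ C₀ ≤ g (a + b) ∧ s ≤ g (a + b) ∧
    ∀ (Y : ℝ) (M : Fin a → Fin b → 𝓞 K) (v : Fin a → 𝓞 K), 1 ≤ Y →
      (∀ (φ : K →+* ℂ) i j, ‖res φ (M i j)‖ ≤ Y) → (∀ (φ : K →+* ℂ) i, ‖res φ (v i)‖ ≤ Y) →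
      (∃ x : Fin b → K, ∀ i, ∑ j, (M i j : K) * x j = (v i : K)) →
      ∃ (c : 𝓞 K) (x : Fin b → 𝓞 K), c ≠ 0 ∧ (∀ i, ∑ j, M i j * x j = c * v i) ∧
        (∀ φ : K →+* ℂ, ‖res φ c‖ ≤ (C₀ * Y) ^ s) ∧
        ∀ (φ : K →+* ℂ) j, ‖res φ (x j)‖ ≤ (C₀ * Y) ^ s

/-- eXPI. Copy of `I_XPI.lean` (from SeCRS, PN); the constants are explicit in those of CRS (`step2`, `step3` get the
same bounds). -/
def SeXPI : Prop :=
  ∀ (K : Type) [Field K] [NumberField K], ∃ g : ℕ → ℕ, Tow g ∧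
  ∀ (m σ : ℕ), ∃ (C₀ : ℝ) (s : ℕ), 1 ≤ C₀ ∧ C₀ ≤ g (m + σ) ∧ s ≤ g (m + σ) ∧
    ∀ (H : ℝ) (F : (𝓞 K)[X][X]), 1 ≤ H → (∃ i ≤ m, F.coeff i ≠ 0) →
      (∀ i ≤ m, (F.coeff i).natDegree ≤ σ) →
      (∀ (φ : K →+* ℂ), ∀ i ≤ m, pn (res φ) (F.coeff i) ≤ H) →
      ∃ (θ : ℕ) (P : (𝓞 K)[X]) (w A : ℕ → (𝓞 K)[X]) (r : 𝓞 K),
        IsPiH m s ((C₀ * H) ^ s) F θ P w A r

/-- eXG2. Copy of `I_XG2.lean` (from GAP, SeVWR, SeVG1, CFD); the constants are those of VWR and VG1, times `m + 2`. -/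
def SeXG2 : Prop :=
  ∀ (K : Type) [Field K] [NumberField K], ∃ g : ℕ → ℕ, Tow g ∧
  ∀ (m σ : ℕ), 1 ≤ m →
    ∃ γ : ℕ, γ ≤ g (m + σ) ∧ ∀ N₁ : ℕ, 1 ≤ N₁ →
    ∃ (C₁ : ℝ) (s : ℕ), 1 ≤ C₁ ∧ C₁ ≤ g (m + σ + N₁) ∧ s ≤ g (m + σ + N₁) ∧
    ∀ (H : ℝ) (F : (𝓞 K)[X][X]), IsCr0H m σ H F →
    ∀ n : ℕ, 1 ≤ n → ∀ (D : ℕ) (G : K[X]) (E : Fin (m + 1) → K[X]), G ≠ 0 → E ≠ 0 →
      (∀ j : Fin (m + 1), (Pd.cf F n j).map (algebraMap (𝓞 K) K) = G * E j) →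
      (∀ j, (E j).natDegree ≤ D) →
      ∃ (ℓ : Fin m → ℕ) (Q : Fin m → Fin (m + 1) → (𝓞 K)[X]),
        ∑ i, ℓ i ≤ D ∧ (∀ i, n ≤ γ * (ℓ i + 1)) ∧ (∀ i, ℓ i ≤ σ * n) ∧
        LinearIndependent (𝓞 K)[X] Q ∧ (∀ i, ∑ j, Q i j * Pd.cf F n j = 0) ∧
        (∀ i j, (Q i j).natDegree ≤ ℓ i + n / N₁) ∧
        ∀ (φ : K →+* ℂ) i j, pn (res φ) (Q i j) ≤ ((C₁ * H) ^ s) ^ n

/-- eDET (sizes of determinants). Proof: the sum over the permutations (`Matrix.det_apply`), at most `n!` products of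
`n` entries (PN; `natDegree_sum_le_of_forall_le`, `natDegree_prod_le`; `pn` of `± 1` times a polynomial). -/
def SeDET : Prop :=
  ∀ (R : Type) [CommRing R] (n σ : ℕ) (M : Matrix (Fin n) (Fin n) R[X]),
    (∀ i j, (M i j).natDegree ≤ σ) →
    M.det.natDegree ≤ n * σ ∧ (∀ i j, (M.adjugate i j).natDegree ≤ n * σ) ∧
      ∀ (φ : R →+* ℂ) (Y : ℝ), 1 ≤ Y → (∀ i j, pn φ (M i j) ≤ Y) →
        pn φ M.det ≤ n.factorial * Y ^ n ∧ ∀ i j, pn φ (M.adjugate i j) ≤ n.factorial * Y ^ n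

/-- eXDI. NEW PROOF (the landed one has no explicit bounds), from SeDET and PN. `M = sylvester F F' (m + 1) m`, a matrix
of order `n = 2 m + 1` over `(𝓞 K)[t]` with entries coefficients of `F` and of its derivative (or `0`): degrees
`≤ σ`, `pn ≤ (m + 1) H` (`m + 1` is the factor of the derivative). `Δ = M.det` = the resultant, not zero by the landed
`XDI.res_ne`. Mathlib, `RingTheory/Polynomial/Resultant/Basic.lean`: the proof of `exists_mul_add_mul_eq_C_resultant`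
gives `U`, `V` as the two components of `adjSylvester F F'` at `1`, whose coefficients are entries of `M.adjugate` (the
definition of `adjSylvester` is `toLin` of the adjugate for the monomial bases of the `degreeLT`). SeDET: degrees
`≤ n σ`, `pn ≤ n! ((m + 1) H) ^ n`. `V.natDegree ≤ m + 1`. -/
def SeXDI : Prop :=
  ∀ (K : Type) [Field K] [NumberField K], ∃ g : ℕ → ℕ, Tow g ∧
  ∀ (m σ : ℕ), ∃ (C₀ : ℝ) (s : ℕ), 1 ≤ C₀ ∧ C₀ ≤ g (m + σ) ∧ s ≤ g (m + σ) ∧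
    ∀ (H : ℝ) (F : (𝓞 K)[X][X]), IsCr0H m σ H F →
    ∃ (U V : (𝓞 K)[X][X]) (Δ : (𝓞 K)[X]), Δ ≠ 0 ∧ U * F + V * derivative F = C Δ ∧
      Δ.natDegree ≤ s ∧ V.natDegree ≤ s ∧ (∀ j, (V.coeff j).natDegree ≤ s) ∧
      ∀ φ : K →+* ℂ, pn (res φ) Δ ≤ (C₀ * H) ^ s ∧ ∀ j, pn (res φ) (V.coeff j) ≤ (C₀ * H) ^ s

/-- eHNX. Copy of `I_HNX.lean`. The constant of HEN is `16 (I + 1)` (use the landed lemmas `exists_fix`, `bound` of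
`I_HEN.lean`, or copy the end of `prHEN` with this constant); then `C₀ * HNX.Cc k τ ^ 2` and
`2 * (4 * τ + 3 * k + 6) + 2`. -/
def SeHNX : Prop :=
  ∃ g : ℕ → ℕ, Tow g ∧
  ∀ k τ : ℕ, ∃ (C₀ : ℝ) (s : ℕ), 1 ≤ C₀ ∧ C₀ ≤ g (k + τ) ∧ s ≤ g (k + τ) ∧
    ∀ (R A : Type) [CommRing R] [CommRing A] [Algebra R A]
    (F : R[X][X]) (t₀ Δ c : R) (x xs ds : A), F.natDegree ≤ k →
    (∀ j, (F.coeff j).natDegree ≤ τ) → ev2 F (algebraMap R A t₀) x = 0 →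
    ev2 (derivative F) (algebraMap R A t₀) x * ds = algebraMap R A Δ →
    x * xs = algebraMap R A c →
    ∃ μ : PowerSeries A, PowerSeries.constantCoeff μ = 1 ∧
      ev2 F (PowerSeries.C (algebraMap R A t₀) +
          PowerSeries.C (algebraMap R A (Δ ^ 2 * c)) * PowerSeries.X)
        (PowerSeries.C x * μ) = 0 ∧
      ∀ (N : A → ℝ) (M : ℝ), IsSn N → 1 ≤ M → N 1 ≤ M → N (algebraMap R A t₀) ≤ M →
        N x ≤ M → N xs ≤ M → N ds ≤ M → N (algebraMap R A Δ) ≤ M → N (algebraMap R A c) ≤ M →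
        (∀ i j, N (algebraMap R A ((F.coeff j).coeff i)) ≤ M) →
        ∀ r, 1 ≤ r → N (PowerSeries.coeff r μ) ≤ (C₀ * M ^ s) ^ r

/-- eUUG. Copy of `I_UUG.lean` (from SeHNX, SNM, MUN, INV, UUA); the constants are explicit. -/
def SeUUG : Prop :=
  ∀ (K : Type) [Field K] [NumberField K], ∃ g : ℕ → ℕ, Tow g ∧
  ∀ (m σ s₂ : ℕ), ∃ (C₀ : ℝ) (s : ℕ), 1 ≤ C₀ ∧ C₀ ≤ g (m + σ + s₂) ∧ s ≤ g (m + σ + s₂) ∧
    ∀ (F : (𝓞 K)[X][X]) (v : (𝓞 K)[X]) (δ t₀ : 𝓞 K), F.Monic → F.natDegree = m + 1 →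
    (∀ i, (F.coeff i).natDegree ≤ σ) → v.natDegree ≤ s₂ →
    spc F t₀ ∣ v * derivative (spc F t₀) - C δ → ∀ n : ℕ,
      ∃ U : Fin (m + 1) → Fin (m + 1) → PowerSeries (𝓞 K),
        (∀ i j, PowerSeries.constantCoeff (U i j) = if i = j then 1 else 0) ∧
        (∀ j : Fin (m + 1), ∑ i : Fin (m + 1),
          PowerSeries.C ((Pd.cf F n i).eval t₀) * U i j =
            tay (Pd.cf F n j) t₀ (δ ^ 2 * (F.coeff 0).eval t₀)) ∧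
        ∀ (φ : K →+* ℂ) (B : ℝ), 1 ≤ B → ‖res φ t₀‖ ≤ B → ‖res φ δ‖ ≤ B →
          (∀ i, ‖res φ (v.coeff i)‖ ≤ B) → (∀ i, ‖res φ ((F.coeff i).eval t₀)‖ ≤ B) →
          (∀ i j, ‖res φ ((F.coeff i).coeff j)‖ ≤ B) →
          ∀ i j r, ‖res φ (PowerSeries.coeff r (U i j))‖ ≤ C₀ ^ n * (C₀ * B) ^ (s * (r + 1))

/-- eHUU. Copy of `I_HUU.lean` (from SeXDI, SeUUG, PN, HEV, CFD, HB1, HB3); the constants are `C₁ * C₂`,
`(S + 1) * s₁ + 2 * s₂ + 1`, `L' * 2 + e * (m + 1)`. -/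
def SeHUU : Prop :=
  ∀ (K : Type) [Field K] [NumberField K], ∃ g : ℕ → ℕ, Tow g ∧
  ∀ (m e : ℕ), ∃ (C₀ : ℝ) (s s' : ℕ), 1 ≤ C₀ ∧ C₀ ≤ g (m + e) ∧ s ≤ g (m + e) ∧
    s' ≤ g (m + e) ∧
    ∀ (H : ℝ) (F : (𝓞 K)[X][X]), IsCrE m e H F →
    ∃ Δ : (𝓞 K)[X], Δ ≠ 0 ∧ Δ.natDegree ≤ s' ∧
      (∀ φ : K →+* ℂ, pn (res φ) Δ ≤ (C₀ * H) ^ s) ∧
    ∀ x y : 𝓞 K, y ≠ 0 → (∀ φ : K →+* ℂ, 1 ≤ tt φ x y) → ∀ n : ℕ,
      ∃ U : Fin (m + 1) → Fin (m + 1) → PowerSeries (𝓞 K),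
        (∀ i j, PowerSeries.constantCoeff (U i j) = if i = j then 1 else 0) ∧
        (∀ j : Fin (m + 1), ∑ i : Fin (m + 1),
          PowerSeries.C (Pd.cf (hsp e F x y) n i) * U i j =
            tay (Pd.cf (hfm e F y) n j) x (hev s' Δ x y)) ∧
        ∀ (φ : K →+* ℂ) i j r, ‖res φ (PowerSeries.coeff r (U i j))‖ ≤
          C₀ ^ n * (C₀ * H * tt φ x y) ^ (s * (r + 1))

/-- eHVE. Copy of `I_HVE.lean` (from SeXG2, SeHUU, CRA, HDQ, PN, HB1, HB2, HB3); the constants are explicit. -/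
def SeHVE : Prop :=
  ∀ (K : Type) [Field K] [NumberField K], ∃ g : ℕ → ℕ, Tow g ∧
  ∀ (m e : ℕ), 1 ≤ m →
    ∃ γ s₁ s₂ s' : ℕ, γ ≤ g (m + e) ∧ s₁ ≤ g (m + e) ∧ s₂ ≤ g (m + e) ∧ s' ≤ g (m + e) ∧
    ∀ N₁ : ℕ, 1 ≤ N₁ →
    ∃ (C₁ : ℝ) (s : ℕ), 1 ≤ C₁ ∧ C₁ ≤ g (m + e + N₁) ∧ s ≤ g (m + e + N₁) ∧
    ∀ (H : ℝ) (F : (𝓞 K)[X][X]), IsCrE m e H F →
    ∃ Δ : (𝓞 K)[X], Δ ≠ 0 ∧ Δ.natDegree ≤ s' ∧
      (∀ φ : K →+* ℂ, pn (res φ) Δ ≤ (C₁ * H) ^ s) ∧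
    ∀ n : ℕ, 1 ≤ n → ∀ (D : ℕ) (G : K[X]) (E A : Fin (m + 1) → K[X]), G ≠ 0 →
      (∀ j : Fin (m + 1), (Pd.cf F n j).map (algebraMap (𝓞 K) K) = G * E j) →
      ∑ j, A j * E j = 1 → (∀ j, (E j).natDegree ≤ D) → (∃ j, D ≤ (E j).natDegree) →
      ∀ x y : 𝓞 K, y ≠ 0 → (∀ φ : K →+* ℂ, 1 ≤ tt φ x y) → hev s' Δ x y ≠ 0 →
      ∃ (ℓ r : Fin m → ℕ) (V : Fin m → Fin (m + 1) → 𝓞 K),
        ∑ i, ℓ i ≤ D ∧ (∀ i, n ≤ γ * (ℓ i + 1)) ∧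
        ∑ i, r i ≤ m * (n / N₁) ∧ LinearIndependent (𝓞 K) V ∧
        (∀ i, ∑ j, V i j * Pd.cf (hsp e F x y) n j = 0) ∧
        ∀ (φ : K →+* ℂ) i j, ‖res φ (V i j)‖ ≤
          ((C₁ * H) ^ s) ^ n * tt φ x y ^ (ℓ i + n / N₁ + s₁ + s₂ * r i)

/-- eHBZ. Copy of `I_HBZ.lean` (from SeCRS, PN, HEV); the constants are those of CRS for `a`, `b` explicit in `m`, `s`. -/
def SeHBZ : Prop :=
  ∀ (K : Type) [Field K] [NumberField K], ∃ g : ℕ → ℕ, Tow g ∧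
  ∀ (m s : ℕ), ∃ (C₀ : ℝ) (s' : ℕ), 1 ≤ C₀ ∧ C₀ ≤ g (m + s) ∧ s' ≤ g (m + s) ∧
    ∀ (Y : ℝ) (θ : ℕ) (w A : ℕ → (𝓞 K)[X]) (r : 𝓞 K), 1 ≤ Y → θ ≤ s → r ≠ 0 →
    (∀ i ≤ m, (w i).natDegree ≤ θ) → (∃ i ≤ m, (w i).coeff θ ≠ 0) →
    ∑ i ∈ range (m + 1), A i * w i = C r →
    (∀ φ : K →+* ℂ, ∀ i ≤ m, pn (res φ) (w i) ≤ Y) →
    ∃ c : 𝓞 K, c ≠ 0 ∧ (∀ φ : K →+* ℂ, ‖res φ c‖ ≤ (C₀ * Y) ^ s') ∧
      ∀ x y : 𝓞 K, IsCoprime x y → c ∈ Ideal.span {z | ∃ i ≤ m, z = hev θ (w i) x y}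

/-- eHLO. Copy of `I_HLO.lean` (from RTB, CFD, HEV, HB1, HPI). The class `PB` hides the constants; here they are
explicit: `b4`, `b5` in the landed proof are products and powers of `Y` and of constants, so both are at most
`(C * Y) ^ s''` with `s''` a polynomial in `D`, `s`, `(m + 1)!` and `C = 2 ^ (m + 3) * (m + 3)` (a version
`PBe C s f` of the class with the constants as arguments: `PBe C₁ s₁ f`, `PBe C₂ s₂ h` give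
`PBe (max C₁ C₂) (s₁ + s₂) (f h)` and `PBe C₁ (s₁ * n) (f ^ n)`). -/
def SeHLO : Prop :=
  ∀ (K : Type) [Field K] [NumberField K], ∃ g : ℕ → ℕ, Tow g ∧
  ∀ (m s e : ℕ), ∃ (C₀ : ℝ) (s' : ℕ), 1 ≤ C₀ ∧ C₀ ≤ g (m + s + e) ∧ s' ≤ g (m + s + e) ∧
    ∀ (Y : ℝ) (F : (𝓞 K)[X][X]) (θ : ℕ) (P : (𝓞 K)[X]) (w A : ℕ → (𝓞 K)[X]) (r : 𝓞 K),
      F.Monic → F.natDegree = m + 1 → Wt e F →
      (∀ (φ : K →+* ℂ), ∀ i ≤ m, pn (res φ) (F.coeff i) ≤ Y) → IsPiH m s Y F θ P w A r →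
      ∀ (φ : K →+* ℂ) (x y : 𝓞 K) (n : ℕ), 1 ≤ tt φ x y → ∃ j : Fin (m + 1),
        ‖res φ (hev (e * (m + 1).factorial - θ) P x y)‖ ^ n * tt φ x y ^ (θ * n) ≤
          (C₀ * Y) ^ (s' * (n + 1)) * ‖res φ (Pd.cf (hsp e F x y) n j)‖ ^ (m + 1).factorial *
            tt φ x y ^ s'

/-- eHTH. Copy of `I_HTH.lean` (from SeXPI, XEE, SeHLO, SeHVE, CO3, EN3, HPI, SeHBZ, HNZ, HB1, CFD); the constants are
explicit. -/
def SeHTH : Prop :=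
  ∀ (K : Type) [Field K] [NumberField K], ∃ g : ℕ → ℕ, Tow g ∧
  ∀ (m e : ℕ), 1 ≤ m →
    ∃ (C₁ : ℝ) (s c κ : ℕ), 1 ≤ C₁ ∧ C₁ ≤ g (m + e) ∧ s ≤ g (m + e) ∧ c ≤ g (m + e) ∧
      κ ≤ g (m + e) ∧ ∀ (H : ℝ) (F : (𝓞 K)[X][X]), IsCrE m e H F →
      ∀ x y : 𝓞 K, IsCoprime x y → (∀ φ : K →+* ℂ, 1 ≤ tt φ x y) → (C₁ * H) ^ s ≤ TT x y →
      ∀ (n : ℕ) (a : Fin (m + 1) → 𝓞 K), a ≠ 0 →
        ∑ j, a j * Pd.cf (hsp e F x y) n j = 0 →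
        TT x y ^ n ≤ (((C₁ * H) ^ s) ^ (n + 1) * TT x y ^ c * HH a) ^ κ

/-- eHIZ. Copy of `I_HIZ.lean` (from SeHTH); the constant is `⌈C₁⌉₊ * (σ + 1) + s + c₀ + κ + 1`, `σ = e (m + 1)`. -/
def SeHIZ : Prop :=
  ∃ g : ℕ → ℕ, Tow g ∧
  ∀ m e : ℕ, 1 ≤ m → ∃ c : ℕ, 1 ≤ c ∧ c ≤ g (m + e) ∧
    ∀ (H : ℕ) (F : ℤ[X][X]), IsE (m + 1) e H F →
    NonConst (F.map (mapRingHom (Int.castRingHom ℂ))) →
    ∀ x y : ℤ, IsCoprime x y → (c * H) ^ c ≤ mx x y →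
      ∀ (n : ℕ) (a : Fin (m + 1) → ℤ), a ≠ 0 → ∑ j, a j * Pd.cf (hsp e F x y) n j = 0 →
        mx x y ^ n ≤ (((c * H) ^ c) ^ (n + 1) * mx x y ^ c * ∑ j, (a j).natAbs) ^ c

/-- eADY. Copy of `I_ADY.lean` (from NPY); the constant is
`N * N.factorial * (2 ^ (N * N) * N ^ (M * N)) + N * N + 1`, `N = (m + 1) * M`. -/
def SeADY : Prop :=
  ∃ g : ℕ → ℕ, Tow g ∧
  ∀ m M : ℕ, 1 ≤ M → ∃ c : ℕ, c ≤ g (m + M) ∧
    ∀ (q : ℤ[X]) (Y : ℕ), q.Monic → q.natDegree = m + 1 → 1 ≤ Y →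
    (∀ i, (q.coeff i).natAbs ≤ Y) →
    (∀ v : Fin (m + 1) → ℤ[X], (∀ i, (v i).natDegree < M) →
      (∀ n : ℕ, ∑ i : Fin (m + 1), Pd.cf q n i * (v i).eval (n : ℤ) = 0) → v = 0) →
    ∀ (z : ℕ → ℤ) (B : ℕ), Pd.Sol (q ^ M) z → (∀ i < (m + 1) * M, (z i).natAbs ≤ B) →
      ∃ (δ : ℤ) (v : Fin (m + 1) → ℤ[X]), δ ≠ 0 ∧ (∀ i, (v i).natDegree < M) ∧
        (∀ n : ℕ, δ * z n = ∑ i : Fin (m + 1), Pd.cf q n i * (v i).eval (n : ℤ)) ∧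
        ∀ i l, ((v i).coeff l).natAbs ≤ (c * Y) ^ c * B

/-- eHZY. Copy of `I_HZY.lean` (from SeHIZ, SeADY, HB1); the constant is explicit in those of HIZ, ADY. -/
def SeHZY : Prop :=
  ∃ g : ℕ → ℕ, Tow g ∧
  ∀ k e M : ℕ, 1 ≤ k → 1 ≤ M → ∃ c : ℕ, 1 ≤ c ∧ c ≤ g (k + e + M) ∧
    ∀ (H : ℕ) (F : ℤ[X][X]), IsE k e H F →
    NonConst (F.map (mapRingHom (Int.castRingHom ℂ))) →
    ∀ x y : ℤ, IsCoprime x y → (c * H) ^ c ≤ mx x y →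
    ∀ z : ℕ → ℤ, Rec (RingHom.id ℤ) (hsp e F x y ^ M) z → Zrh (k * M) M c (mx x y) z

/-- eTOR. Copy of `I_RSC.lean` (degree `(d + d) * d`), `I_TOT.lean` (`(2 * D + 1) ^ (2 * D + 1)`) and `I_TOR.lean`: import these
files and restate their ends with the explicit constants; `N₀ = (2 s + 1) ^ (2 s + 1)`, `s = (d + d) * d`. -/
def SeTOR : Prop :=
  ∃ g : ℕ → ℕ, Tow g ∧
  ∀ d : ℕ, ∃ N₀ : ℕ, N₀ ≤ g d ∧ ∀ F : ℤ[X][X], F.Monic → F.natDegree = d → F.coeff 0 ≠ 0 →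
    ∀ (n : ℕ) (c : ℂ), 1 ≤ n → IsPrimitiveRoot c n →
      ¬IsCoprime (hat F) ((hat F).scaleRoots (algebraMap ℂ (RatFunc ℂ) c)) → n ≤ N₀

/-- ePOW. Copy of `I_POW.lean` with a new bound for the sizes, from SeDET and PN. `M` = a matrix of order `d = m + 1` over
`ℤ[t]` with the characteristic polynomial `F`: take the companion matrix (entries `0`, `1`, `-F_i`; Mathlib
`Polynomial.companion`, `companion_charpoly`, if it exists; in the landed proof `exists_matrix`, whose matrix is the matrix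
of the multiplication by the root), degrees `≤ σ`, sum of the absolute values of the coefficients
`≤ (σ + 1) H`. `M ^ N`: degrees `≤ N σ`, sums `≤ (d (σ + 1) H) ^ N`. `Q = (M ^ N).charpoly = det (X - C (M ^ N))`; the
coefficient `i` of a characteristic polynomial is, up to the sign, a sum of principal minors; or: expand the
determinant of `X - C (M ^ N)` over `ℤ[t][X]`: `d!` products of `d` factors `X δ_ij - (M ^ N)_ij`, and for the norm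
sum of the absolute values of all the coefficients in `t`, `X` (submultiplicative) each factor is
`≤ 1 + (d (σ + 1) H) ^ N`: so `≤ d! (1 + (d (σ + 1) H) ^ N) ^ d`, degree in `t` at most `d N σ`. -/
def SePOW : Prop :=
  ∃ g : ℕ → ℕ, Tow g ∧
  ∀ d σ N : ℕ, 1 ≤ d → 1 ≤ N → ∃ c : ℕ, 1 ≤ c ∧ c ≤ g (d + σ + N) ∧
    ∀ (H : ℕ) (F : ℤ[X][X]), IsDH d σ H F →
    ∃ Q : ℤ[X][X], IsDH d c ((c * H) ^ c) Q ∧ F ∣ expand ℤ[X] N Q ∧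
      ∀ y : AlgebraicClosure (FractionRing ℤ[X]),
        (Q.map (algebraMap ℤ[X] (AlgebraicClosure (FractionRing ℤ[X])))).eval y = 0 →
        ∃ a : AlgebraicClosure (FractionRing ℤ[X]), y = a ^ N ∧
          (F.map (algebraMap ℤ[X] (AlgebraicClosure (FractionRing ℤ[X])))).eval a = 0

/-- eSQF. Copy of `I_SQF.lean` (or only of the end of the file, with its lemmas imported); the constant is
`2 ^ ((σ + 1) * (d + 1)) * ((σ + 1) * (d + 1))`. -/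
def SeSQF : Prop :=
  ∃ g : ℕ → ℕ, Tow g ∧
  ∀ d σ : ℕ, 1 ≤ d → ∃ c : ℕ, 1 ≤ c ∧ c ≤ g (d + σ) ∧ ∀ (H : ℕ) (Q : ℤ[X][X]), IsDH d σ H Q →
    ∃ (k : ℕ) (G : ℤ[X][X]), 1 ≤ k ∧ k ≤ d ∧ IsDH k σ (c * H) G ∧
      (G.map (algebraMap ℤ[X] (FractionRing ℤ[X]))).Separable ∧ G ∣ Q ∧ Q ∣ G ^ d

/-- eRDH. Copy of `I_RDH.lean` (from SeTOR, SePOW, SeSQF, WTG); the constants are `N₀.factorial`, `c₁ * c₂`. -/
def SeRDH : Prop :=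
  ∃ g : ℕ → ℕ, Tow g ∧
  ∀ d e : ℕ, 1 ≤ d → ∃ N c : ℕ, 1 ≤ N ∧ 1 ≤ c ∧ N ≤ g (d + e) ∧ c ≤ g (d + e) ∧
    ∀ (H : ℕ) (F : ℤ[X][X]), IsE d e H F → NonIso F →
    ∃ (k : ℕ) (G : ℤ[X][X]), 1 ≤ k ∧ k ≤ d ∧ IsE k (e * N) ((c * H) ^ c) G ∧
      NonConst (G.map (mapRingHom (Int.castRingHom ℂ))) ∧ F ∣ (expand ℤ[X] N G) ^ d ∧
      ((F.map (algebraMap ℤ[X] (FractionRing ℤ[X]))).Separable → F ∣ expand ℤ[X] N G)

/-- **eHNU (zeros, effective).** Copy of `I_HNU.lean` (from SeRDH, HDV, HB1, SBY, SeHZY) with the constants bounded by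
`g (d + e)`; then take `h` with `g ≤ tw h`, and enlarge the constant `c` of the landed proof to `tw h (d + e)`: the
hypothesis `(c * H) ^ c ≤ mx x y` and the two conclusions are monotone in `c` (`B * mx x y ≥ 1` if `B ≥ 1`; if `B = 0`
then `u = 0`, the first alternative). -/
def SeHNU : Prop :=
  ∃ h : ℕ, ∀ d e : ℕ, 1 ≤ d → ∃ N : ℕ, 1 ≤ N ∧ N ≤ tw h (d + e) ∧
    ∀ (H : ℕ) (F : ℤ[X][X]), IsE d e H F → NonIso F →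
    ∃ M : ℕ, 1 ≤ M ∧ M ≤ d ∧
      ((F.map (algebraMap ℤ[X] (FractionRing ℤ[X]))).Separable → M = 1) ∧
      ∀ x y : ℤ, IsCoprime x y → (tw h (d + e) * H) ^ tw h (d + e) ≤ mx x y →
      ∀ u : ℕ → ℤ, Rec (RingHom.id ℤ) (hsp e F x y) u → ∀ q < N,
        (∀ n, u (q + N * n) = 0) ∨ ∀ B : ℕ, (∀ i < d, (u i).natAbs ≤ B) →
          (∀ n, (B * mx x y) ^ tw h (d + e) < n → u (q + N * n) ≠ 0) ∧
          ∃ S : Finset ℕ, S.card < M ∧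
            ∀ n, (B * mx x y) ^ tw h (d + e) < mx x y ^ n → u (q + N * n) = 0 → n ∈ S

/-- **eHDU (one algorithm, no hidden constant).** From SeHNU and DEC, HB1 as HDU (`I_HDU.lean`; its algorithm with
`B = tw (h + 2) (d + e)`, which is `≥ N + tw h (d + e) + 2`, computed from `d = L.length` and `e`: for a fixed `h` the
function `tw h` is primitive recursive, a composition of `x ↦ 2 ^ x`). The `h` here is larger than that of SeHNU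
(`(tw h (d + e) * H) ^ tw h (d + e)` is monotone in `h`). -/
def SeHDU : Prop :=
  ∃ (h : ℕ) (A : (List (List ℤ) × List ℤ) × (ℕ × (ℤ × ℤ)) → Bool), Primrec A ∧
    ∀ d e : ℕ, 1 ≤ d → ∀ (H : ℕ) (L : List (List ℤ)),
      IsE d e H (pol L) → NonIso (pol L) → ∀ x y : ℤ, IsCoprime x y →
      (tw h (d + e) * H) ^ tw h (d + e) ≤ mx x y →
      ∀ (v : List ℤ) (u : ℕ → ℤ), v.length = d → (∀ i < d, u i = v.getD i 0) →
        Rec (RingHom.id ℤ) (hsp e (pol L) x y) u →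
        (A ((L, v), (e, (x, y))) = true ↔ ∃ n, u n = 0)

end Pool.Agent.Work.MP_8d13b5_lc.Fm
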