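import Pool.Agent.Work.MP_8d13b5_lc.Fm.StmtsY

set_option autoImplicit false

/-! The conditions on the family in terms of the roots in an algebraic closure of `ℚ(t)`. -/

namespace Pool.Agent.Work.MP_8d13b5_lc.Fm

open Polynomial NumberField Finset Module

/-- the algebraic closure of `ℚ(t)` (the fraction field of `ℤ[t]`) -/
abbrev Om : Type := AlgebraicClosure (FractionRing ℤ[X])

/-- the algebraic function `a` is a root of `F(t, X)` -/
def IsRt (F : ℤ[X][X]) (a : Om) : Prop := (F.map (algebraMap ℤ[X] Om)).eval a = 0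

/-- no two roots of `F` have a constant quotient which is not a root of unity -/
def NonIsoR (F : ℤ[X][X]) : Prop :=
  ∀ a b : Om, IsRt F a → IsRt F b → IsAlgebraic ℤ (a / b) → ∃ N : ℕ, 1 ≤ N ∧ a ^ N = b ^ N

/-- the roots of `F` are simple and no quotient of two different roots is a constant -/
def NonConstR (F : ℤ[X][X]) : Prop :=
  (F.map (algebraMap ℤ[X] (FractionRing ℤ[X]))).Separable ∧
    ∀ a b : Om, IsRt F a → IsRt F b → a ≠ b → ¬ IsAlgebraic ℤ (a / b)

/-- EQ1. Proof. `Ω` an algebraic closure of `ℂ(t)`, `j : Om → Ω` an embedding over `ℤ[t]`. Let `c ≠ 0` not be a root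
of unity and suppose that `hat F` and its `scaleRoots c` have a common root in `Ω` (if they are not
coprime): `a = c b` with roots `a`, `b` of `F` in `Ω`; `F` splits in `Om`, so `a = j a₀`, `b = j b₀`, and `b₀ ≠ 0`
(`F.coeff 0 ≠ 0`). `c = j (a₀ / b₀)` is algebraic over `ℚ(t)`: `P(t, c) = 0` with `0 ≠ P ∈ ℤ[T][Y]`; as `t` is
transcendental over `ℂ`, all the coefficients of `P(T, c) ∈ ℂ[T]` vanish, so `c` is algebraic over `ℤ`, and so
is `a₀ / b₀`. By hypothesis `a₀ ^ N = b₀ ^ N`, so `c ^ N = 1`, a contradiction. -/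
def StEQ1 : Prop :=
  ∀ F : ℤ[X][X], F.Monic → F.coeff 0 ≠ 0 → NonIsoR F → NonIso F

/-- EQ2. Proof: as EQ1 (`a₀ ≠ b₀` because `c ≠ 1`); separability passes to `ℂ(t)`. -/
def StEQ2 : Prop :=
  ∀ F : ℤ[X][X], F.Monic → F.coeff 0 ≠ 0 → NonConstR F →
    NonConst (F.map (mapRingHom (Int.castRingHom ℂ)))

end Pool.Agent.Work.MP_8d13b5_lc.Fm
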