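import Pool.Agent.Work.MP_8d13b5_lc.Fm.StmtsEff
import Pool.Agent.Work.MP_8d13b5_lc.Fm.StmtsZ

set_option autoImplicit false

/-! An explicit family of every even order `2 k` with `2 k` roots of equal modulus: the product of the
`X ^ 2 - 2 j X + N(t)`, `1 ≤ j ≤ k`, `N(t) = (2 k)! t ^ 2 + 1`. For `k ≥ 3` no place has fewer than three dominant
roots (a prime which divides `N(t)` does not divide `2 j`), so the known decidable cases do not apply. The
docstrings are the complete proofs. -/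

namespace Pool.Agent.Work.MP_8d13b5_lc.Fm

open Polynomial NumberField Finset Module

/-- the family; `j + 1` is the `j` of the text -/
noncomputable def exF (k : ℕ) : ℤ[X][X] :=
  ∏ j ∈ range k, (X ^ 2 - C (C (2 * ((j : ℤ) + 1))) * X +
    C (C ((2 * k).factorial : ℤ) * X ^ 2 + 1))

/-- its member for the integer `t` -/
noncomputable def exf (k : ℕ) (t : ℤ) : ℤ[X] :=
  ∏ j ∈ range k, (X ^ 2 - C (2 * ((j : ℤ) + 1)) * X + C (((2 * k).factorial : ℤ) * t ^ 2 + 1))

/-- XA1. Proof. Each factor is monic of degree `2`, with `Wt 1` (its coefficient at `X ^ 0` has degree `≤ 2` in `t`, the one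
at `X` has degree `0`), so the product has `Wt 1` (the last part of `StHB1`) and degree `2 k`; the coefficient at
`X ^ 0` is the product of the `N(t) ≠ 0`. Heights: for the norm `‖P‖` = the sum of the absolute values of all
the coefficients in `t`, `X` (submultiplicative; or by induction on the product) each factor is
`≤ 1 + 2 k + (2 k)! + 1`. The specialisation: `hsp` commutes with products (`StHB1`), and
`hsp 1 (factor) t 1 = spc (factor) t`; or `hsp 1 (exF k) t 1 = spc (exF k) t` and `spc` is a ring homomorphism. -/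
def StXA1 : Prop :=
  ∀ k : ℕ, 1 ≤ k → IsE (2 * k) 1 ((2 * k + 2 + (2 * k).factorial) ^ k) (exF k) ∧
    ∀ t : ℤ, hsp 1 (exF k) t 1 = exf k t

/-- XA2. Proof from EQ2: it is enough to show `NonConstR (exF k)`. (i) Separable over the fraction field `k₀` of `ℤ[t]`: the
factor `P_j = X ^ 2 - 2 j X + N` is separable since `4 P_j - (2 X - 2 j) ^ 2 = 4 N - 4 j ^ 2 ≠ 0`, and `P_i`, `P_j`,
`i ≠ j`, are coprime: `P_i - P_j = 2 (j - i) X`, so `X` and then `N ≠ 0` are in the ideal (`separable_prod'`, or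
`Polynomial.separable_prod`). (ii) Let `a`, `b` be roots of `P_i`, `P_j` in `Om`, `a ≠ b`, and suppose that `c = a / b`
is algebraic over `ℤ`. `b ≠ 0` as `N ≠ 0`. `a ^ 2 - 2 i a + N = 0` and `a = c b` give
`c ^ 2 b ^ 2 - 2 i c b + N = 0`; subtract `b ^ 2 - 2 j b + N = 0` and divide by `b`: `(c ^ 2 - 1) b = 2 i c - 2 j`. If
`c ^ 2 ≠ 1` then `b`, so `N = 2 j b - b ^ 2 = (2 k)! t ^ 2 + 1`, so `t` is algebraic over `ℤ`: a contradiction (`algebraMap ℤ[X] Om`
is injective). `c = 1`: `a = b`. `c = -1`: `-2 i - 2 j = 0`, impossible as `i, j ≥ 1`. -/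
def StXA2 : Prop :=
  ∀ k : ℕ, 1 ≤ k → NonConst ((exF k).map (mapRingHom (Int.castRingHom ℂ)))

/-- **XA3.** Proof from SeHZY (for the order `2 k`, `e = 1`, `M = 1`, `(x : y) = (t : 1)`), XA1, XA2. `mx t 1 = |t|` for `t ≠ 0`. The
threshold `(c H) ^ c`, `c ≤ g (2 k + 2)`, `H = (2 k + 2 + (2 k)!) ^ k`, is at most `tw h k` for a suitable `h` (class `Tow`).
`Zrh` with `M = 1`: the set `S` is empty. -/
def StXA3 : Prop :=
  ∃ h : ℕ, ∀ k : ℕ, 1 ≤ k → ∀ t : ℤ, tw h k ≤ t.natAbs →
    ∀ u : ℕ → ℤ, Rec (RingHom.id ℤ) (exf k t) u →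
      (∀ n, u n = 0) ∨ ∀ B : ℕ, (∀ i < 2 * k, (u i).natAbs ≤ B) →
        ∀ n, u n = 0 → t.natAbs ^ n ≤ (B * t.natAbs) ^ tw h k

end Pool.Agent.Work.MP_8d13b5_lc.Fm
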