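import Pool.Agent.Work.MP_8d13b5_lc.Fm.StmtsEff
import Pool.Agent.Work.MP_8d13b5_lc.Fm.StmtsZ

set_option autoImplicit false

/-! An explicit set of instances of the open type, of every odd order `2 k + 1 ≥ 5`, with `k + 2` parameters: the
characteristic polynomial `(X - r) ∏_(j < k) (X ^ 2 - a_j X + q)` with `a_j`, `r` nonzero and small against `q`
(`2 k` roots of equal modulus; at a prime dividing `q`, but not `r` and the `a_j`, there are `k + 1` dominant
roots). The docstrings are the complete proofs. -/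

namespace Pool.Agent.Work.MP_8d13b5_lc.Fm

open Polynomial NumberField Finset Module

/-- the family with the parameter `t` in the place of `q` -/
noncomputable def eyF (k : ℕ) (a : Fin k → ℤ) (r : ℤ) : ℤ[X][X] :=
  (X - C (C r)) * ∏ j, (X ^ 2 - C (C (a j)) * X + C X)

/-- its member for the integer `q` -/
noncomputable def eyf (k : ℕ) (a : Fin k → ℤ) (r q : ℤ) : ℤ[X] :=
  (X - C r) * ∏ j, (X ^ 2 - C (a j) * X + C q)

/-- XB1. Proof. Each factor is monic and has `Wt 1` (the coefficient at `X ^ 0` of the quadratic one is `t`, of degree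
`1 ≤ 2`; all the other coefficients are constants), so the product has `Wt 1` (`StHB1`) and the degree
`2 k + 1`; the coefficient at `X ^ 0` is `- r t ^ k ≠ 0`. Heights: the sum of the absolute values of all the
coefficients in `t`, `X` is submultiplicative (or: induction on the product), and it is `≤ A + 2` for each factor. The
specialisation: `hsp 1 F q 1 = spc F q` for `Wt 1 F` (`StHB1`), and `spc` is a ring homomorphism. -/
def StXB1 : Prop :=
  ∀ (k : ℕ) (a : Fin k → ℤ) (r : ℤ) (A : ℕ), 1 ≤ A → (∀ j, (a j).natAbs ≤ A) → r.natAbs ≤ A →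
    r ≠ 0 → IsE (2 * k + 1) 1 ((A + 2) ^ (k + 1)) (eyF k a r) ∧
      ∀ q : ℤ, hsp 1 (eyF k a r) q 1 = eyf k a r q

/-- XB2. Proof from EQ2: it is enough to show `NonConstR (eyF k a r)`. (i) Separable over the fraction field `k₀` of `ℤ[t]`:
`P_j = X ^ 2 - a_j X + t` is separable since `4 P_j - (2 X - a_j) ^ 2 = 4 t - a_j ^ 2 ≠ 0`; `P_i`, `P_j`, `i ≠ j`, are coprime:
`P_i - P_j = (a_j - a_i) X`, so `X` and then `t ≠ 0` are in the ideal; `X - r` and `P_j` are coprime since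
`P_j(r) = r ^ 2 - a_j r + t ≠ 0` (`separable_prod'`, `Separable.mul`). (ii) Let `x`, `y` be roots in `Om`, `x ≠ y`, and
suppose that `c = x / y` is algebraic over `ℤ`. A root of some `P_j` is not algebraic over `ℤ` (otherwise
`t = a_j y - y ^ 2` would be; `algebraMap ℤ[X] Om` is injective) and in particular not zero. So if one of `x`, `y` is `r`
(both cannot be `r`) the other one is algebraic, a contradiction. Let `P_i(x) = 0 = P_j(y)`: `x = c y`, and
`c ^ 2 y ^ 2 - a_i c y + t = 0`, `y ^ 2 - a_j y + t = 0` give `(c ^ 2 - 1) y = a_i c - a_j` (divide by `y`). If `c ^ 2 ≠ 1` then `y`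
is algebraic, a contradiction. `c = 1`: `x = y`. `c = -1`: `a_i + a_j = 0`, so `a_i ^ 2 = a_j ^ 2`, `i = j`, `a_i = 0`, a
contradiction. -/
def StXB2 : Prop :=
  ∀ (k : ℕ) (a : Fin k → ℤ) (r : ℤ), r ≠ 0 → (∀ j, a j ≠ 0) →
    (∀ i j, i ≠ j → a i ^ 2 ≠ a j ^ 2) →
    NonConst ((eyF k a r).map (mapRingHom (Int.castRingHom ℂ)))

/-- **XB3.** Proof from SeHZY (for the order `2 k + 1`, `e = 1`, `M = 1`, `(x : y) = (q : 1)`), XB1, XB2. `mx q 1 = |q|` for
`q ≠ 0`. The `c` of SeHZY is `≤ g (2 k + 3)`, `H = (A + 2) ^ (k + 1) ≤ (3 A) ^ (k + 1)`, so its threshold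
`(c H) ^ c ≤ (c 3 ^ (k + 1) A ^ (k + 1)) ^ c` is at most `(C A) ^ C` for `C = tw h k` with a suitable `h` (class `Tow`:
`C ≥ (k + 1) c + c 3 ^ (k + 1)`). `Zrh` with `M = 1`: the set `S` is empty. (If `B = 0` then `u = 0`.) -/
def StXB3 : Prop :=
  ∃ h : ℕ, ∀ (k : ℕ) (a : Fin k → ℤ) (r : ℤ) (A : ℕ), 1 ≤ k → 1 ≤ A → (∀ j, (a j).natAbs ≤ A) →
    r.natAbs ≤ A → r ≠ 0 → (∀ j, a j ≠ 0) → (∀ i j, i ≠ j → a i ^ 2 ≠ a j ^ 2) →
    ∀ q : ℤ, (tw h k * A) ^ tw h k ≤ q.natAbs →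
    ∀ u : ℕ → ℤ, Rec (RingHom.id ℤ) (eyf k a r q) u →
      (∀ n, u n = 0) ∨ ∀ B : ℕ, (∀ i < 2 * k + 1, (u i).natAbs ≤ B) →
        ∀ n, u n = 0 → q.natAbs ^ n ≤ (B * q.natAbs) ^ tw h k

end Pool.Agent.Work.MP_8d13b5_lc.Fm
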