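import Pool.Agent.Work.MP_8d13b5_lc.Fm.StmtsY

set_option autoImplicit false

/-! The final forms. Part U: the theorem for every family without constant quotients of infinite
order, UNIFORM in the family (`N`, `c` depend only on the order `d` and the degree `σ` in `t`), with ONE
algorithm. Part R: EVERY family (constant quotients allowed) reduces to one recurrence over `ℤ` with
constant coefficients. Part G: growth. The docstrings are the complete proofs. -/

namespace Pool.Agent.Work.MP_8d13b5_lc.Fm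

open Polynomial NumberField Finset Module

/-- the polynomial `F` over the field `ℂ(t)`, for coefficients in a ring with an embedding in `ℂ` -/
noncomputable def hatR {R : Type} [CommRing R] (φ : R →+* ℂ) (F : R[X][X]) : (RatFunc ℂ)[X] :=
  F.map ((algebraMap ℂ[X] (RatFunc ℂ)).comp (mapRingHom φ))

/-- polynomials of degree `d` in `X`, degree at most `σ` in `t` and coefficients at most `H` -/
structure IsDH (d σ H : ℕ) (F : ℤ[X][X]) : Prop where
  monic : F.Monic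
  deg : F.natDegree = d
  ne : F.coeff 0 ≠ 0
  one : 1 ≤ H
  dg : ∀ i, (F.coeff i).natDegree ≤ σ
  ht : ∀ i j, ((F.coeff i).coeff j).natAbs ≤ H

/-! ### Part U -/

/-- RSC (the constants `c` are the roots of a polynomial of bounded degree). Proof. It is enough to do this for
`d ≥ 1` (`d = 0`: `F = 1`, `ρ = 1`). `S = R[t][c]` (that is `R[X][X]`, the outer variable is `c`), `F' = F.map C` in `S[X]`,
`F'' = F'.scaleRoots X` (`X` the variable `c`), `r = resultant F' F'' d d` in `S`. (i) `r ≠ 0`: the homomorphism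
`c ↦ 0`, `S → R[t]`, maps `F''` to `F.scaleRoots 0 = X ^ d`, so `r` to `± F.coeff 0 ^ d ≠ 0`
(`resultant_map_map`, `resultant_X_pow_right`). (ii) For the `c` of the statement the homomorphism
`S → ℂ(t)` maps `r` to `resultant (hatR φ F) ((hatR φ F).scaleRoots c)`, which is `0` (`resultant_eq_zero_iff`). (iii) Let
`ρ_j = ∑_i C ((r.coeff i).coeff j) * X ^ i` be the coefficient of `t ^ j`; some `ρ_j ≠ 0` by (i), and (ii) says that
all of them vanish at `c` (`ℂ[t] → ℂ(t)` is injective). (iv) The degree of `r` in `c` is at most `2 d ^ 2`: a determinant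
of order `2 d` with entries of degree `≤ d` (or: `r` is the specialisation of a fixed polynomial, by the universal
polynomial of degree `d`, as in `Fm/I_VDI.lean`; any bound `s(d)` is enough). -/
def StRSC : Prop :=
  ∀ d : ℕ, ∃ s : ℕ, ∀ (R : Type) [CommRing R] [IsDomain R] (φ : R →+* ℂ) (F : R[X][X]),
    Function.Injective φ → F.Monic → F.natDegree = d → F.coeff 0 ≠ 0 →
    ∃ ρ : R[X], ρ ≠ 0 ∧ ρ.natDegree ≤ s ∧ ∀ c : ℂ,
      ¬IsCoprime (hatR φ F) ((hatR φ F).scaleRoots (algebraMap ℂ (RatFunc ℂ) c)) →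
      ρ.eval₂ φ c = 0

/-- TOT. Proof. If `p ^ k` divides `n` (`p` a prime, `k ≥ 1`) then `p ^ (k - 1) (p - 1)` divides the totient, so
`p ≤ D + 1` and `p ^ k ≤ 2 D` (`p ≤ 2 (p - 1)`). So `n ≤ (2 D) ^ (D + 2)` (`n ≥ 1` is the product over the primes
`≤ D + 1` of `p ^ (n.factorization p)`). -/
def StTOT : Prop := ∀ D : ℕ, ∃ N₀ : ℕ, ∀ n : ℕ, n.totient ≤ D → n ≤ N₀

/-- TOR (orders of the torsion quotients). Proof from RSC for `R = ℤ`, and TOT. `c` is a root of `ρ ≠ 0`, so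
`minpoly ℤ c = cyclotomic n ℤ` divides `ρ` (over `ℚ`), and its degree, the totient of `n`, is at most `s`. -/
def StTOR : Prop :=
  ∀ d : ℕ, ∃ N₀ : ℕ, ∀ F : ℤ[X][X], F.Monic → F.natDegree = d → F.coeff 0 ≠ 0 →
    ∀ (n : ℕ) (c : ℂ), 1 ≤ n → IsPrimitiveRoot c n →
      ¬IsCoprime (hat F) ((hat F).scaleRoots (algebraMap ℂ (RatFunc ℂ) c)) → n ≤ N₀

/-- POW (the polynomial whose roots are the powers `a ^ N`, with sizes). Proof. Over a domain `R` let
`Q = resultant (F.map C) (C X - X ^ N)` in `R[Y]` (the outer `X` is `Y`), for the degrees `d`, `N`. Over an algebraic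
closure of the fraction field `F = ∏ (X - a)`, and `resultant_eq_prod_eval`: the image of `Q` is `∏_a (Y - a ^ N)`; so `Q` is
monic of degree `d`, its constant coefficient is `± F.coeff 0 ^ N`, its roots are the `a ^ N`, and `F` divides
`expand N Q` (over the closure each `X - a` divides `X ^ N - a ^ N`; descend by `map_dvd_map`). Or: `Q` is the
characteristic polynomial of the `N`-th power of the companion matrix. Sizes: `Q` for the universal
polynomial (`VDI.uF`, `Fm/I_VDI.lean`) has coefficients which are fixed polynomials over `ℤ` in the `F_i`, so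
the degrees and the sums of the absolute values of the coefficients of their specialisations are
bounded as in `VDI.good`. -/
def StPOW : Prop :=
  ∀ d σ N : ℕ, 1 ≤ d → 1 ≤ N → ∃ c : ℕ, 1 ≤ c ∧ ∀ (H : ℕ) (F : ℤ[X][X]), IsDH d σ H F →
    ∃ Q : ℤ[X][X], IsDH d c ((c * H) ^ c) Q ∧ F ∣ expand ℤ[X] N Q ∧
      ∀ y : AlgebraicClosure (FractionRing ℤ[X]),
        (Q.map (algebraMap ℤ[X] (AlgebraicClosure (FractionRing ℤ[X])))).eval y = 0 →
        ∃ a : AlgebraicClosure (FractionRing ℤ[X]), y = a ^ N ∧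
          (F.map (algebraMap ℤ[X] (AlgebraicClosure (FractionRing ℤ[X])))).eval a = 0

/-- SQF (square-free part, with sizes). Proof. `ℤ[t][X]` is a unique factorisation domain; `Q` is monic, so its
irreducible factors have unit leading coefficients and may be taken monic. `G` = the product of the
different ones, so `G ∣ Q ∣ G ^ d`. They are irreducible over the fraction field
(`Monic.irreducible_iff_irreducible_map_fraction_map`), pairwise coprime there, and separable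
(characteristic zero): `G` is separable. The constant coefficient of `G` divides that of `Q`. The largest
degree in `t` of the coefficients is additive for products (it is the degree of `Bivariate.swap`), so
`≤ σ` for `G`. Height: `Q = G G'`; for `P` with coefficients of degree `≤ σ < L = σ + 1` let `κ(P) = P(t, t ^ L)` in `ℤ[t]`: the
coefficient of `κ(P)` at `t ^ (L i + j)` is `P_(i,j)`. Mahler measures: `M(κ G) ≤ M(κ G) M(κ G') = M(κ Q) ≤ (d + 1) L H`
(`one_le_mahlerMeasure_of_ne_zero`, `mahlerMeasure_mul`, `mahlerMeasure_le_sum_norm_coeff`), and the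
coefficients of `κ G` are at most `2 ^ (L (d + 1)) M(κ G)` (`norm_coeff_le_choose_mul_mahlerMeasure`). -/
def StSQF : Prop :=
  ∀ d σ : ℕ, 1 ≤ d → ∃ c : ℕ, 1 ≤ c ∧ ∀ (H : ℕ) (Q : ℤ[X][X]), IsDH d σ H Q →
    ∃ (k : ℕ) (G : ℤ[X][X]), 1 ≤ k ∧ k ≤ d ∧ IsDH k σ (c * H) G ∧
      (G.map (algebraMap ℤ[X] (FractionRing ℤ[X]))).Separable ∧ G ∣ Q ∧ Q ∣ G ^ d

/-- RDU (as RDC, uniform). Proof from TOR, POW, SQF. `N = N₀!` with the `N₀` of TOR (so `c ^ N = 1` for the roots of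
unity `c` of order `≤ N₀`), `Q` from POW, `G` from SQF for `Q`. Every root of `G` in the closure `Ω₀` of `ℚ(t)` is a root of
`Q`, so `a ^ N` with `F(a) = 0`. `F ∣ expand N Q ∣ (expand N G) ^ d`. If `F` is separable: every root `a` of `F` is a root of
`expand N Q`, so `a ^ N` is a root of `Q` and of `G`, and `F ∣ expand N G` (over `Ω₀`; descend). `NonConst`: let `Ω` be an
algebraic closure of `ℂ(t)`; an embedding `Ω₀ → Ω` over `ℤ[t]` shows that `hat G` is separable and that its roots in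
`Ω` are `a ^ N` with roots `a` of `hat F`. If `hat G` and `(hat G).scaleRoots c`, `c ≠ 0, 1`, are not coprime:
`a ^ N = c b ^ N`, `c = c₁ ^ N`, `(a / (c₁ b)) ^ N = 1`, so `a = c₂ b` with `c₂ ∈ ℂ`, `c₂ ^ N = c`; `hat F` and
`(hat F).scaleRoots c₂` are not coprime, so `c₂` is a root of unity by `NonIso`, of order `≤ N₀` by TOR, so
`c = c₂ ^ N = 1`, a contradiction. -/
def StRDU : Prop :=
  ∀ d σ : ℕ, 1 ≤ d → ∃ N c : ℕ, 1 ≤ N ∧ 1 ≤ c ∧ ∀ (H : ℕ) (F : ℤ[X][X]), IsDH d σ H F → NonIso F →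
    ∃ (k : ℕ) (G : ℤ[X][X]), 1 ≤ k ∧ k ≤ d ∧ IsDH k c ((c * H) ^ c) G ∧
      NonConst (G.map (mapRingHom (Int.castRingHom ℂ))) ∧ F ∣ (expand ℤ[X] N G) ^ d ∧
      ((F.map (algebraMap ℤ[X] (FractionRing ℤ[X]))).Separable → F ∣ expand ℤ[X] N G)

/-- **FNU (every family, uniform: zeros).** Proof from RDU, SBY, ZRY, ZR0: as FNA, with all constants uniform. For
`k ≤ d` the polynomial `G` is in `IsI0 (k - 1) c H'`, `H' = (c H) ^ c` (`k ≥ 2`: ZRY for `m = k - 1`, `k = 1`: ZR0), with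
`M = 1` if `F` is separable and `M = d` otherwise. `(c' H) ^ c' ≤ |t|` for large `c'` implies `(c'' H') ^ c'' ≤ |t|`. The
sequences `z_n = u_(q + N n)` satisfy the recurrence of `spc G t ^ M`, and `|z_i| ≤ (B |t|) ^ c'` for `i < k M`, since
`|u_i| ≤ (1 + d (σ + 1) H |t| ^ σ) ^ i B` and `H ≤ |t|`. (`B = 0`: `u = 0`.) `(B |t|) ^ c` is increasing in `c`. -/
def StFNU : Prop :=
  ∀ d σ : ℕ, 1 ≤ d → ∃ N c : ℕ, 1 ≤ N ∧ 1 ≤ c ∧ ∀ (H : ℕ) (F : ℤ[X][X]), IsDH d σ H F → NonIso F →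
    ∃ M : ℕ, 1 ≤ M ∧ M ≤ d ∧
      ((F.map (algebraMap ℤ[X] (FractionRing ℤ[X]))).Separable → M = 1) ∧
      ∀ t : ℤ, (c * H) ^ c ≤ t.natAbs → ∀ u : ℕ → ℤ, Rec (RingHom.id ℤ) (spc F t) u → ∀ q < N,
        (∀ n, u (q + N * n) = 0) ∨ ∀ B : ℕ, (∀ i < d, (u i).natAbs ≤ B) →
          (∀ n, (B * t.natAbs) ^ c < n → u (q + N * n) ≠ 0) ∧
          ∃ S : Finset ℕ, S.card < M ∧
            ∀ n, (B * t.natAbs) ^ c < t.natAbs ^ n → u (q + N * n) = 0 → n ∈ S

/-- the polynomial `X ^ d + ∑_(i < d) L_i(t) X ^ i`, `d = L.length`, where `L_i` is given by the list of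
its coefficients -/
noncomputable def pol (L : List (List ℤ)) : ℤ[X][X] :=
  X ^ L.length + ∑ i ∈ range L.length,
    C (∑ j ∈ range (L.getD i []).length, C ((L.getD i []).getD j 0) * X ^ j) * X ^ i

/-- **FDU (ONE algorithm for all families of all orders).** Proof from FNU. For `B ≥ B₀ = N + c + 2` (`N`, `c` of FNU): if
`u` has a zero then it has one below `bd = B ((y |t|) ^ B + 2)`, `y = 1 + ∑ |x_i|` (a zero `q + N n` of a subsequence
which is not identically zero has `n ≤ (y |t|) ^ c`, and `u_q = 0` if it is identically zero). The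
algorithm computes the coefficients `L_i(t)` (`d = L.length`), the first `bd` terms of the sequence with the
initial values `x` and looks for a zero. As in DEC: `p = p(L, x, t)` is the pair of the list of the
`-L_(d-1-j)(t)`, `j < d`, and of `x`, primitive recursive in `(L, x, t)` (addition and multiplication of integers,
folds of lists), `Pd.IsSeq p u` (`L_0(t) ≠ 0`: a nonzero polynomial with coefficients `≤ H` has no root with
`|t| > H`), and DEC is used for the number `Nat.pair B |t|` in the place of `B`. -/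
def StFDU : Prop :=
  ∃ A : (List (List ℤ) × List ℤ) × (ℤ × ℕ) → Bool, Primrec A ∧
    ∀ d σ : ℕ, 1 ≤ d → ∃ B₀ : ℕ, ∀ B : ℕ, B₀ ≤ B → ∀ (H : ℕ) (L : List (List ℤ)),
      IsDH d σ H (pol L) → NonIso (pol L) → ∀ t : ℤ, (B * H) ^ B ≤ t.natAbs →
      ∀ (x : List ℤ) (u : ℕ → ℤ), x.length = d → (∀ i < d, u i = x.getD i 0) →
        Rec (RingHom.id ℤ) (spc (pol L) t) u → (A ((L, x), (t, B)) = true ↔ ∃ n, u n = 0)

/-! ### Part R -/

/-- an algebraic closure of `ℚ` -/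
abbrev Ab : Type := AlgebraicClosure ℚ

/-- the algebraic integers -/
abbrev Zb : Type := integralClosure ℤ Ab

/-- RZB (structure of a general family over the algebraic integers). Proof. `E` = the fraction field of `Zb[t]`, `Ω` = an
algebraic closure of `E`; `Ab ⊂ E` (every element of `Ab` is a quotient of an element of `Zb` and an integer).
`Zb[t]` is integrally closed (an instance of Mathlib). `A` = the set of the roots of `F` in `Ω` (not zero, integral
over `Zb[t]`). For every pair `a, b ∈ A` such that `a / b` is a root of unity take an exponent `n ≥ 1` with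
`a ^ n = b ^ n`; `N` = the product: `a ^ N = b ^ N` for all such pairs. For `a, b ∈ A` let `a ≈ b` if `a = c τ(b)` with
`c ∈ Ab`, `c ≠ 0`, and an automorphism `τ` of `Ω` over `E` (an equivalence relation, as `τ` fixes `Ab`). `T` = a set of
representatives in `A`, `P_b = minpoly Zb[t] (b ^ N)` for `b ∈ T`, `G = ∏_(b ∈ T) P_b`: monic, `G(0) ≠ 0`, not of degree `0`.
Its image over `E` is the product of the minimal polynomials
(`minpoly.isIntegrallyClosed_eq_field_fractions`), and the roots of `P_b` are the `τ(b ^ N) = τ(b) ^ N`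
(`isConjRoot_iff_exists_algEquiv`). (i) Let `c ∈ Ab`, `c ≠ 0`, `τ(b) ^ N = c τ'(b') ^ N` with `b, b' ∈ T`. `c = c₁ ^ N` and
`τ(b) / (c₁ τ'(b'))` is an `N`-th root of unity, which is in `Ab`; so `τ(b) = c₂ τ'(b')`, `c₂ ^ N = c`, hence `b ≈ b'` and
`b = b'`; with `τ'' = τ'⁻¹ τ`: `τ''(b) = c₂ b`, and by induction `τ'' ^ j (b) = c₂ ^ j b`, all in the finite set `A`, so
`c₂ ^ j = 1` for some `j ≥ 1`, `τ''(b) / b = c₂` is a root of unity and `τ''(b) ∈ A`, so `c = c₂ ^ N = 1`. (ii) So the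
different `P_b` have no common root, and they are separable (minimal polynomials, characteristic
zero): `G` is separable over `E`, its resultant with the derivative is not zero; by (i) `G` and `G.scaleRoots c` have no
common root in `Ω` for `c ≠ 0, 1`, so their resultant is not zero (`resultant_eq_zero_iff` over `Ω` and
`resultant_map_map`). (iii) For every `a ∈ A` there are `b ∈ T`, `c_a ∈ Ab`, `τ` with `a = c_a τ(b)`. Let `D ≥ 1` be an
integer with `D c_a ^ N ∈ Zb` for all `a`; the `θ_j` are the `D ^ N c_a ^ N`, `a ∈ A`, each one `deg F` times. The roots of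
`F.scaleRoots D` are the `D a`, and `(D a) ^ N` is a root of `G.scaleRoots (D ^ N c_a ^ N)`. So over `Ω` the power
`(X - D a) ^ μ`, `μ ≤ deg F`, divides the factor of `a`, the product over `a` gives the divisibility over `Ω`, and it
descends to `Zb[t]` (`map_dvd_map`, the divisor is monic). -/
def StRZB : Prop :=
  ∀ F : ℤ[X][X], F.Monic → 1 ≤ F.natDegree → F.coeff 0 ≠ 0 →
    ∃ (N D r k : ℕ) (θ : Fin r → Zb) (G : Zb[X][X]), 1 ≤ N ∧ 1 ≤ D ∧ (∀ j, θ j ≠ 0) ∧ G.Monic ∧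
      G.natDegree = k + 1 ∧ G.coeff 0 ≠ 0 ∧
      resultant (G.map (mapRingHom (algebraMap Zb Ab)))
        (derivative (G.map (mapRingHom (algebraMap Zb Ab)))) ≠ 0 ∧
      (∀ c : Ab, c ≠ 0 → c ≠ 1 → resultant (G.map (mapRingHom (algebraMap Zb Ab)))
        ((G.map (mapRingHom (algebraMap Zb Ab))).scaleRoots (C c)) ≠ 0) ∧
      (F.map (mapRingHom (algebraMap ℤ Zb))).scaleRoots (C (D : Zb)) ∣
        expand Zb[X] N (∏ j, G.scaleRoots (C (θ j)))

/-- RZA (descent to a number field). Proof from RZB, RSC. `K` = the subfield of `Ab` generated by the coefficients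
of the coefficients of `G` and by the `θ_j`, a number field (finitely many algebraic generators). These
elements are integral over `ℤ`, so they come from `𝓞 K`: `G`, `θ_j` are the images of `G'` over `𝓞 K`, `θ'_j` under the
injective map `𝓞 K → Zb`; the divisibility descends (`Polynomial.map_dvd_map`; the divisor is monic).
`NonConst`: let `ψ : Ab → ℂ` be an embedding and `φ` its restriction to `K`. `hatR (res φ) G'` is the image of `G` under
`Ab[t] → ℂ(t)` (injective), so its resultant with the derivative is not zero (`resultant_map_map`,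
`resultant_eq_zero_iff`): separable. If it is not coprime with its `scaleRoots c`, `c ≠ 0, 1`: by RSC `c` is algebraic over
`K`, so `c = ψ(c')`, and the resultant of `G` and `G.scaleRoots c'` over `Ab[t]` is `0`, a contradiction. -/
def StRZA : Prop :=
  ∀ F : ℤ[X][X], F.Monic → 1 ≤ F.natDegree → F.coeff 0 ≠ 0 →
    ∃ (K : Type) (_ : Field K) (_ : NumberField K) (N D r k : ℕ) (θ : Fin r → 𝓞 K)
      (G : (𝓞 K)[X][X]), 1 ≤ N ∧ 1 ≤ D ∧ (∀ j, θ j ≠ 0) ∧ G.Monic ∧ G.natDegree = k + 1 ∧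
      G.coeff 0 ≠ 0 ∧ (∃ φ : K →+* ℂ, NonConst (G.map (mapRingHom (res φ)))) ∧
      (F.map (mapRingHom (algebraMap ℤ (𝓞 K)))).scaleRoots (C (D : 𝓞 K)) ∣
        expand (𝓞 K)[X] N (∏ j, G.scaleRoots (C (θ j)))

/-- PRZ (products). Proof. Induction on `r`. `r = 0`: `y = 0`. For `r + 1`: `θ = θ_0`, `y' = E y - θ y` is in `Sol` of the product
over the other `j` (`E` the shift), and `y_(n+i) = θ ^ i y_n + ∑_(l<i) θ ^ (i-1-l) y'_(n+l)`. So
`∑_i g_i θ ^ (k-i) x_(n+i) y_(n+i) = θ ^ k y_n (∑_i g_i x_(n+i)) + ∑_i ∑_(l<i) g_i θ ^ (k-1-l) x_(n+i) y'_(n+l)`: the first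
sum is `0`; the second is a combination of the sequences `(E ^ i x) (E ^ l y')`, which are in `Sol` of
`∏_(j ≥ 1) g.scaleRoots (θ_j)` by induction (`E ^ i x` is in `Sol g`, `E ^ l y'` in `Sol` of the product). So
`g.scaleRoots θ (E) (x y)` is in this `Sol` (`Pd.sol_iff`). -/
def StPRZ : Prop :=
  ∀ (R : Type) [CommRing R] [Nontrivial R] (g : R[X]) (r : ℕ) (θ : Fin r → R) (x y : ℕ → R),
    g.Monic → Pd.Sol g x → Pd.Sol (∏ j, (X - C (θ j))) y →
    Pd.Sol (∏ j, g.scaleRoots (θ j)) (fun n => x n * y n)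

/-- KRZ (uniqueness). Proof from XTH (for `m ≥ 1`) with its constants `C₁`, `s`, `c`, `κ`. Let `v ≠ 0`. As the `θ_j` are not zero, the
vector `a = v(n)` is not zero for infinitely many `n` (a solution of a recurrence with constant
coefficient `≠ 0` which vanishes for all large `n` is zero: `Pd.Sol.zero_of_eventually`). `HH a ≤ A Λ ^ n` with `Λ`
depending only on `K`, `m`, `θ` (`Λ` the product over `φ` of the bounds `1 + ∑ ‖coefficients‖`; `A` depends on `v`). XTH: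
`T ^ n ≤ (((C₁ H) ^ s) ^ (n+1) T ^ c A Λ ^ n) ^ κ` for infinitely many `n`, so `T ≤ (((C₁ H) ^ s) Λ) ^ κ`. Take `c'` such
that `(c' H) ^ c'` is larger. `m = 0`: `cf g n 0 = a ^ n` with `g = X - a`, `a = -F_0(t₀) ≠ 0` for `T` large (VNZ). -/
def StKRZ : Prop :=
  ∀ (K : Type) [Field K] [NumberField K] (m σ r : ℕ) (θ : Fin r → 𝓞 K), (∀ j, θ j ≠ 0) →
    ∃ c : ℕ, 1 ≤ c ∧ ∀ (H : ℝ) (G : (𝓞 K)[X][X]), IsCr0H m σ H G →
    ∀ t₀ : 𝓞 K, (c * H) ^ c ≤ TT t₀ 1 → ∀ v : Fin (m + 1) → ℕ → 𝓞 K,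
      (∀ i, Pd.Sol (∏ j, (X - C (θ j))) (v i)) →
      (∀ n : ℕ, ∑ i : Fin (m + 1), Pd.cf (spc G t₀) n i * v i n = 0) → v = 0

/-- ADZ (existence of the constant sequences, with sizes). Proof from PRZ. `f = ∏ (X - θ_j)`. The unknowns are the
initial values `v_i(l)`, `i ≤ m`, `l < r`, and `v_i(n) = ∑_l cf f n l * v_i(l)` (`Pd.Sol.expand`). The matrix with the rows
`n < (m + 1) r`, the columns `(i, l)` and the entries `cf g n i * cf f n l` is injective: a vector in the kernel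
gives `v_i ∈ Sol f` such that `∑ cf g n i * v_i(n)`, a solution for `∏ g.scaleRoots (θ_j)` (PRZ, `Pd.cf_sol`), monic of degree
`(m + 1) r`, has zero initial values, so it is zero and `v = 0` by hypothesis. `δ` = the determinant, `δ v = adj * z`.
Sizes: `|cf g n i| ≤ (1 + (m + 1) Y) ^ n` in all embeddings. -/
def StADZ : Prop :=
  ∀ (K : Type) [Field K] [NumberField K] (m r : ℕ) (θ : Fin r → 𝓞 K), ∃ (C₀ : ℝ) (s : ℕ), 1 ≤ C₀ ∧
    ∀ (g : (𝓞 K)[X]) (Y : ℝ), g.Monic → g.natDegree = m + 1 → 1 ≤ Y →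
    (∀ (φ : K →+* ℂ) i, ‖res φ (g.coeff i)‖ ≤ Y) →
    (∀ v : Fin (m + 1) → ℕ → 𝓞 K, (∀ i, Pd.Sol (∏ j, (X - C (θ j))) (v i)) →
      (∀ n : ℕ, ∑ i : Fin (m + 1), Pd.cf g n i * v i n = 0) → v = 0) →
    ∀ (z : ℕ → 𝓞 K), Pd.Sol (∏ j, g.scaleRoots (θ j)) z →
      ∃ (δ : 𝓞 K) (v : Fin (m + 1) → ℕ → 𝓞 K), δ ≠ 0 ∧
        (∀ i, Pd.Sol (∏ j, (X - C (θ j))) (v i)) ∧
        (∀ n : ℕ, δ * z n = ∑ i : Fin (m + 1), Pd.cf g n i * v i n) ∧
        ∀ B : ℝ, (∀ (φ : K →+* ℂ), ∀ n < (m + 1) * r, ‖res φ (z n)‖ ≤ B) →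
          ∀ (φ : K →+* ℂ) i, ∀ l < r, ‖res φ (v i l)‖ ≤ (C₀ * Y) ^ s * B

/-- ZRZ (zeros). Proof from XTH, KRZ, ADZ, VNZ, CFD. `g = spc G t₀` has coefficients of size `≤ C H τ ^ σ ≤ C H T ^ σ =: Y` in all
embeddings (`pn`, `tt φ t₀ 1 ≤ TT t₀ 1`). KRZ gives the hypothesis of ADZ, ADZ gives `δ`, `v`. Let `z_n = 0` and
`a = v(n) ≠ 0`. `‖φ(v_i(n))‖ ≤ Λ ^ n (C₀ Y) ^ s B` (`Λ` depends only on `θ`), so `HH a ≤ ((m + 1) Λ ^ n (C₀ Y) ^ s B) ^ D'`
(`D'` the degree of `K`), and XTH: `T ^ n ≤ (((C₁ H) ^ s) ^ (n+1) T ^ c ((m + 1) Λ ^ n (C₀ Y) ^ s B) ^ D') ^ κ`. For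
`T ≥ (c' H) ^ c'` the factors with the exponent `n` are `≤ T ^ (n / 2)` and `H`, the constants are `≤ T`, so
`T ^ n ≤ (B T) ^ c'`. `m = 0`: `cf g n 0 = a ^ n`, `a ≠ 0` (VNZ), so `z_n = 0` implies `v_0(n) = 0`. -/
def StZRZ : Prop :=
  ∀ (K : Type) [Field K] [NumberField K] (m σ r : ℕ) (θ : Fin r → 𝓞 K), (∀ j, θ j ≠ 0) →
    ∃ c : ℕ, 1 ≤ c ∧ ∀ (H : ℝ) (G : (𝓞 K)[X][X]), IsCr0H m σ H G →
    ∀ t₀ : 𝓞 K, (c * H) ^ c ≤ TT t₀ 1 →
    ∀ z : ℕ → 𝓞 K, Pd.Sol (∏ j, (spc G t₀).scaleRoots (θ j)) z →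
      ∃ (δ : 𝓞 K) (v : Fin (m + 1) → ℕ → 𝓞 K), δ ≠ 0 ∧
        (∀ i, Pd.Sol (∏ j, (X - C (θ j))) (v i)) ∧
        (∀ n : ℕ, δ * z n = ∑ i : Fin (m + 1), Pd.cf (spc G t₀) n i * v i n) ∧
        ∀ B : ℝ, 1 ≤ B → (∀ (φ : K →+* ℂ), ∀ n < (m + 1) * r, ‖res φ (z n)‖ ≤ B) →
          ∀ n, (B * TT t₀ 1) ^ c < TT t₀ 1 ^ n → z n = 0 → ∀ i, v i n = 0

/-- SQZ (one integer sequence). Proof. `f₁ = ∏_j minpoly ℤ (θ_j)`, monic, `f₁(0) ≠ 0`; `∏ (X - θ_j)` divides `f₁` over
`𝓞 K`, so `v_i ∈ Sol (f₁)`. With a basis `ω_l` of `𝓞 K` over `ℤ` (`RingOfIntegers.basis K`) `v_i(n) = ∑_l v_(i,l)(n) ω_l`, and the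
`v_(i,l)` are integer solutions for `f₁`. `w(n) = ∑_(i,l) v_(i,l)(n) ^ 2`. Squares: `A` = the companion matrix of `f₁`
(`(y_(n+a+1))_a = A (y_(n+a))_a`, `a < e = deg f₁`), the vector `V_n = (y_(n+a) y_(n+b))_(a,b)` satisfies
`V_(n+1) = (A ⊗ A) V_n` (Kronecker), so by Cayley and Hamilton every entry satisfies the recurrence of
`f = charpoly (A ⊗ A)`, monic, with `f(0) = ± det(A) ^ (2 e) ≠ 0` (`det A = ± f₁(0)`). -/
def StSQZ : Prop :=
  ∀ (K : Type) [Field K] [NumberField K] (r : ℕ) (θ : Fin r → 𝓞 K), (∀ j, θ j ≠ 0) →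
    ∃ f : ℤ[X], f.Monic ∧ f.coeff 0 ≠ 0 ∧ ∀ (k : ℕ) (v : Fin k → ℕ → 𝓞 K),
      (∀ i, Pd.Sol (∏ j, (X - C (θ j))) (v i)) →
      ∃ w : ℕ → ℤ, Pd.Sol f w ∧ ∀ n, w n = 0 ↔ ∀ i, v i n = 0

/-- **FNZ (EVERY family).** Proof from RZA, SBY, ZRZ, SQZ. `K`, `N`, `D`, `θ`, `G` of RZA; `m = k`, `σ`, `H` for `G`
(`IsCr0H`). For `|t| ≥ T₀`: `TT t 1 = |t| ^ D'`, `D'` the degree of `K` (INT). `u'_n = D ^ n u_n` is in `Sol` of
`(spc F t).scaleRoots D` over `𝓞 K` (`Pd.Sol.scale`), which divides `expand N (∏ (spc G t).scaleRoots (θ_j))`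
(apply the specialisation `t` to the divisibility). SBY: `z_n = u'_(q + N n)` is in `Sol (∏ (spc G t).scaleRoots (θ_j))`.
ZRZ and SQZ: `w(n) = 0` iff `v_i(n) = 0` for all `i`; this implies `δ z_n = 0`, so `u_(q + N n) = 0`. Conversely
`‖φ(z_n)‖ ≤ (B |t|) ^ c'` for `n < (m + 1) r` (`|u_i| ≤ (1 + d Y) ^ i B`, `Y = C |t| ^ s` a bound for the coefficients
of `spc F t`; `B ≥ 1`), and `(B |t|) ^ c < |t| ^ n` implies the hypothesis of ZRZ for a larger `c`. For `B = 0`: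
`u = 0`, `z = 0`, and `v = 0` by KRZ (or: choose `v = 0`, `w = 0` if `u = 0`). -/
def StFNZ : Prop :=
  ∀ F : ℤ[X][X], F.Monic → 1 ≤ F.natDegree → F.coeff 0 ≠ 0 →
    ∃ (N T₀ c : ℕ) (f : ℤ[X]), 1 ≤ N ∧ f.Monic ∧ f.coeff 0 ≠ 0 ∧
      ∀ t : ℤ, T₀ ≤ t.natAbs → ∀ u : ℕ → ℤ, Rec (RingHom.id ℤ) (spc F t) u → ∀ q < N,
        ∃ w : ℕ → ℤ, Rec (RingHom.id ℤ) f w ∧ (∀ n, w n = 0 → u (q + N * n) = 0) ∧
          ∀ B : ℕ, (∀ i < F.natDegree, (u i).natAbs ≤ B) →
            ∀ n, (B * t.natAbs) ^ c < t.natAbs ^ n → u (q + N * n) = 0 → w n = 0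

/-! ### Part G -/

/-- **GRW (growth).** `F` has no constant root: the family `F (X - 1)` has non constant quotients. Proof from XFI for
`F₁ = F (X - 1)`, in `IsI0 (m + 1) σ (2 H)` (its constant coefficient is `-F_0`), with its `c₁`. `spc F t` does not vanish at
`1` for `|t| ≥ (c H) ^ c`: `F(t, 1)` is a nonzero polynomial in `t` (`F₁` is separable) with coefficients `≤ (m + 2) H`, and
a nonzero root divides the last nonzero coefficient. Let `u` be not zero, `n` with `(B |t|) ^ c < |t| ^ n`, `w = u_n`. The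
sequence `u - w` is in `Sol (spc F₁ t)` and has the zero `n`; it is not zero: otherwise `u = w` is constant and
`F(t, 1) w = 0`, `w = 0`, `u = 0`. So by XFI `|t| ^ n ≤ (B' |t|) ^ c₁`, `B' = (m + 2) (σ + 1) H |t| ^ σ B + |w|` (a bound for
the `|u_i - w|`, `i ≤ m + 1`). If `|w| = 0` or `|w| ≤ (m + 2) (σ + 1) H |t| ^ σ B` this contradicts `(B |t|) ^ c < |t| ^ n` for
large `c` (`B ≥ 1` as `u ≠ 0`, `H ≤ |t|`). So `|w| ≥ 1`, `B' ≤ 2 |w|` and `|t| ^ n ≤ (2 |t| |w|) ^ c₁`; and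
`(2 |t|) ^ (2 c₁) ≤ |t| ^ (4 c₁) < |t| ^ n` for large `c`, so `|t| ^ n ≤ |w| ^ (2 c₁)`. -/
def StGRW : Prop :=
  ∀ m σ : ℕ, ∃ c : ℕ, 1 ≤ c ∧ ∀ (H : ℕ) (F : ℤ[X][X]), IsI0 m σ H F →
    NonConst ((F * (X - 1)).map (mapRingHom (Int.castRingHom ℂ))) →
    ∀ t : ℤ, (c * H) ^ c ≤ t.natAbs → ∀ u : ℕ → ℤ, Rec (RingHom.id ℤ) (spc F t) u →
      (∀ n, u n = 0) ∨ ∀ B n : ℕ, (∀ i ≤ m, (u i).natAbs ≤ B) →
        (B * t.natAbs) ^ c < t.natAbs ^ n → t.natAbs ^ n ≤ (u n).natAbs ^ c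

end Pool.Agent.Work.MP_8d13b5_lc.Fm
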