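import Pool.Agent.Work.MP_8d13b5_lc.Fm.StmtsFz

set_option autoImplicit false

/-! The homogeneous form of the general theorem: the parameter is a point `(x : y)` with coprime
coordinates (a rational number `t = x / y`), not only an integer `t` (`y = 1`). A polynomial `F(t, X)`, monic
of degree `k` in `X`, with `deg F_i ≤ e (k - i)`, gives the polynomials
`F_(x,y)(X) = ∑_i y ^ (e (k - i)) F_i(x / y) X ^ i = y ^ (e k) F(x / y, X / y ^ e)`. The docstrings are the complete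
proofs, or say what is new with respect to a landed file. -/

namespace Pool.Agent.Work.MP_8d13b5_lc.Fm

open Polynomial NumberField Finset Module

/-- the weights: `deg F_i ≤ e (deg F - i)` -/
def Wt {R : Type} [CommRing R] (e : ℕ) (F : R[X][X]) : Prop :=
  ∀ i, (F.coeff i).natDegree ≤ e * (F.natDegree - i)

/-- the specialisation at `(x : y)` -/
noncomputable def hsp {R : Type} [CommRing R] (e : ℕ) (F : R[X][X]) (x y : R) : R[X] :=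
  ∑ i ∈ range (F.natDegree + 1), C (hev (e * (F.natDegree - i)) (F.coeff i) x y) * X ^ i

/-- the form of degree `D` with the dehomogenisation `P`, as a polynomial in the first variable -/
noncomputable def hpl {R : Type} [CommRing R] (D : ℕ) (P : R[X]) (y : R) : R[X] :=
  ∑ i ∈ range (D + 1), C (P.coeff i * y ^ (D - i)) * X ^ i

/-- the family `F_(s,y)` with the parameter `s`, for fixed `y` -/
noncomputable def hfm {R : Type} [CommRing R] (e : ℕ) (F : R[X][X]) (y : R) : R[X][X] :=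
  hsp e (F.map (mapRingHom C)) X (C y)

/-- families with weights `e` and coefficients of size `H` -/
structure IsCrE {K : Type} [Field K] [NumberField K] (m e : ℕ) (H : ℝ) (F : (𝓞 K)[X][X]) :
    Prop where
  crv : IsCr0 m F
  one : 1 ≤ H
  wt : Wt e F
  ht : ∀ (φ : K →+* ℂ), ∀ i ≤ m, pn (res φ) (F.coeff i) ≤ H

/-- HB1 (basic facts on `hsp`). Proofs. (a): the coefficient at `d = natDegree F` is `hev 0 1 x y = 1`. (b): both
coefficients at `i ≤ d` are `y ^ (e (d - i)) F_i(x / y)` (`StHEV`). (c): `hev` commutes with `ψ` and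
`natDegree (F.map _) = d`. (d): `hev D P t 1 = P.eval t` for `natDegree P ≤ D`. (e): the coefficient `n` of the
product is the sum over `i + j = n` of `hev (e (d - i)) F_i * hev (e (d' - j)) G_j = hev (e (d + d' - n)) (F_i G_j)` (HEV;
for `i > d` or `j > d'` the terms are zero). (f): the coefficient of `X ^ (N i)` is
`hev (e (N d - N i)) F_i = hev ((e N) (d - i)) F_i`. (g): the coefficient `i` is `hev (e (d - i)) (F_i a ^ (d - i))`. (h): an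
induction from (e) (`Wt` for products: part (e)). -/
def StHB1 : Prop :=
  (∀ (R : Type) [CommRing R] [Nontrivial R] (e : ℕ) (F : R[X][X]) (x y : R), F.Monic →
    (hsp e F x y).Monic ∧ (hsp e F x y).natDegree = F.natDegree ∧
    ∀ i ≤ F.natDegree, (hsp e F x y).coeff i = hev (e * (F.natDegree - i)) (F.coeff i) x y) ∧
  (∀ (K : Type) [Field K] (e : ℕ) (F : K[X][X]) (x y : K), F.Monic → Wt e F → y ≠ 0 →
    hsp e F x y = (spc F (x / y)).scaleRoots (y ^ e)) ∧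
  (∀ (R S : Type) [CommRing R] [CommRing S] [Nontrivial S] (ψ : R →+* S) (e : ℕ) (F : R[X][X])
    (x y : R), F.Monic → (hsp e F x y).map ψ = hsp e (F.map (mapRingHom ψ)) (ψ x) (ψ y)) ∧
  (∀ (R : Type) [CommRing R] [Nontrivial R] (e : ℕ) (F : R[X][X]) (t : R), F.Monic → Wt e F →
    hsp e F t 1 = spc F t) ∧
  (∀ (R : Type) [CommRing R] [Nontrivial R] (e : ℕ) (F G : R[X][X]) (x y : R), F.Monic →
    G.Monic → Wt e F → Wt e G → Wt e (F * G) ∧ hsp e (F * G) x y = hsp e F x y * hsp e G x y) ∧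
  (∀ (R : Type) [CommRing R] [Nontrivial R] (e N : ℕ) (F : R[X][X]) (x y : R), 1 ≤ N → F.Monic →
    Wt (e * N) F → Wt e (expand R[X] N F) ∧
      hsp e (expand R[X] N F) x y = expand R N (hsp (e * N) F x y)) ∧
  (∀ (R : Type) [CommRing R] [Nontrivial R] (e : ℕ) (F : R[X][X]) (a x y : R), F.Monic →
    Wt e F → Wt e (F.scaleRoots (C a)) ∧
      hsp e (F.scaleRoots (C a)) x y = (hsp e F x y).scaleRoots a) ∧
  ∀ (R : Type) [CommRing R] [Nontrivial R] (e : ℕ) (ι : Type) (s : Finset ι) (F : ι → R[X][X])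
    (x y : R), (∀ i, (F i).Monic) → (∀ i, Wt e (F i)) →
      Wt e (∏ i ∈ s, F i) ∧ hsp e (∏ i ∈ s, F i) x y = ∏ i ∈ s, hsp e (F i) x y

/-- HB2 (coordinates). Proof: induction on `n` with the recursion of CFD for `F` and for `hsp e F x y`. `n = 0`: `1` at
`j = 0`, `0` otherwise. Step: `deg (cf_(n,m) F_j) ≤ e (n - m) + e (m + 1 - j)` if `cf_(n,m) ≠ 0`, and `cf_(n,m) = 0` for
`n < m`; `hev` is additive and multiplicative (HEV) for these degrees. -/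
def StHB2 : Prop :=
  ∀ (R : Type) [CommRing R] [Nontrivial R] (m e : ℕ) (F : R[X][X]) (x y : R), F.Monic →
    F.natDegree = m + 1 → Wt e F → ∀ n, ∀ j ≤ m,
      (Pd.cf F n j).natDegree ≤ e * (n - j) ∧ (n < j → Pd.cf F n j = 0) ∧
        Pd.cf (hsp e F x y) n j = hev (e * (n - j)) (Pd.cf F n j) x y

/-- HB3 (the family `hfm e F y`). Proofs from HB1, HB2 for the ring `R[X]`, `x = X`, `y = C y` (`F.map (mapRingHom C)` has
the same degrees), and `hev D (P.map C) X (C y) = hpl D P y`. The evaluation at `x` is the homomorphism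
`evalRingHom x : R[X] → R` which maps `X`, `C y` to `x`, `y` (HB1 (c)). The facts on `hpl`: direct computations as in HEV
(`hpl` is `hev` over `R[X]`). The last one: the coefficient `i` of `hasseDeriv r (hpl D P y)` is
`(i + r).choose r * P.coeff (i + r) * y ^ (D - i - r)`, `(i + r).choose r ≤ 2 ^ D`, and
`‖x‖ ^ i ‖y‖ ^ (D - i - r) ≤ t ^ D` for `t ≥ 1`. -/
def StHB3 : Prop :=
  (∀ (R : Type) [CommRing R] [Nontrivial R] (e : ℕ) (F : R[X][X]) (y : R), F.Monic → Wt e F →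
    (hfm e F y).Monic ∧ (hfm e F y).natDegree = F.natDegree ∧
    (∀ i ≤ F.natDegree, (hfm e F y).coeff i = hpl (e * (F.natDegree - i)) (F.coeff i) y) ∧
    (∀ i, ((hfm e F y).coeff i).natDegree ≤ e * (F.natDegree - i)) ∧
    (∀ x : R, spc (hfm e F y) x = hsp e F x y) ∧
    ∀ m, F.natDegree = m + 1 → ∀ n, ∀ j ≤ m,
      Pd.cf (hfm e F y) n j = hpl (e * (n - j)) (Pd.cf F n j) y) ∧
  (∀ (R : Type) [CommRing R] (y : R),
    (∀ (D : ℕ) (P : R[X]) (x : R), (hpl D P y).eval x = hev D P x y) ∧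
    (∀ (D : ℕ) (P : R[X]), (hpl D P y).natDegree ≤ D) ∧
    (∀ (D : ℕ) (ι : Type) (s : Finset ι) (P : ι → R[X]),
      hpl D (∑ i ∈ s, P i) y = ∑ i ∈ s, hpl D (P i) y) ∧
    (∀ (D D' : ℕ) (P Q : R[X]), P.natDegree ≤ D → Q.natDegree ≤ D' →
      hpl (D + D') (P * Q) y = hpl D P y * hpl D' Q y)) ∧
  (∀ (K : Type) [Field K] (D : ℕ) (P : K[X]) (y : K), y ≠ 0 → P.natDegree ≤ D →
    hpl D P y = C (y ^ D) * P.comp (C y⁻¹ * X)) ∧
  (∀ (R S : Type) [CommRing R] [CommRing S] (ψ : R →+* S) (D : ℕ) (P : R[X]) (y : R),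
    (hpl D P y).map ψ = hpl D (P.map ψ) (ψ y)) ∧
  ∀ (R : Type) [CommRing R] (φ : R →+* ℂ) (D r : ℕ) (P : R[X]) (x y : R), P.natDegree ≤ D →
    1 ≤ max ‖φ x‖ ‖φ y‖ →
    ‖φ ((hasseDeriv r (hpl D P y)).eval x)‖ ≤ 2 ^ D * pn φ P * max ‖φ x‖ ‖φ y‖ ^ D

/-- UUG (the matrices `U` from explicit data). This is the second part of the proof of XUU (`Fm/I_XUU.lean`, from
the data at `t₀` on) with the bound `B` for all the sizes. `A = AdjoinRoot (spc F t₀)`, `x` the root; `ds` = the value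
of `v` at `x`: the divisibility gives `ev2 (derivative F) t₀ x * ds = δ`; `xs` = minus the value of
`divX (spc F t₀)` at `x`, `x xs = F_0(t₀)`. HNX with `Δ = δ`, `c = F_0(t₀)`, UUA with `d = δ ^ 2 F_0(t₀)`, MUN, INV. All the
seminorms of HNX are `≤ (C B) ^ s` with constants depending on `m`, `σ`, `s₂`. -/
def StUUG : Prop :=
  ∀ (K : Type) [Field K] [NumberField K] (m σ s₂ : ℕ), ∃ (C₀ : ℝ) (s : ℕ), 1 ≤ C₀ ∧
    ∀ (F : (𝓞 K)[X][X]) (v : (𝓞 K)[X]) (δ t₀ : 𝓞 K), F.Monic → F.natDegree = m + 1 →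
    (∀ i, (F.coeff i).natDegree ≤ σ) → v.natDegree ≤ s₂ →
    spc F t₀ ∣ v * derivative (spc F t₀) - C δ → ∀ n : ℕ,
      ∃ U : Fin (m + 1) → Fin (m + 1) → PowerSeries (𝓞 K),
        (∀ i j, PowerSeries.constantCoeff (U i j) = if i = j then 1 else 0) ∧
        (∀ j : Fin (m + 1), ∑ i : Fin (m + 1),
          PowerSeries.C ((Pd.cf F n i).eval t₀) * U i j =
            tay (Pd.cf F n j) t₀ (δ ^ 2 * (F.coeff 0).eval t₀)) ∧
        ∀ (φ : K →+* ℂ) (B : ℝ), 1 ≤ B → ‖res φ t₀‖ ≤ B → ‖res φ δ‖ ≤ B →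
          (∀ i, ‖res φ (v.coeff i)‖ ≤ B) → (∀ i, ‖res φ ((F.coeff i).eval t₀)‖ ≤ B) →
          (∀ i j, ‖res φ ((F.coeff i).coeff j)‖ ≤ B) →
          ∀ i j r, ‖res φ (PowerSeries.coeff r (U i j))‖ ≤ C₀ ^ n * (C₀ * B) ^ (s * (r + 1))

/-- HUU. Proof from XDI (`σ = e (m + 1)`), UUG, HB1, HB2, HB3. XDI: `U₀ F + V₀ derivative F = C Δ₀`, degrees `≤ s₂`, sizes
`≤ (C₂ H) ^ s₂`. `L = (e + 1) s₂`, `L' = L + e m`, and `v` with the coefficients `v_j = hev (L - e j) (V₀.coeff j) x y`,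
`j ≤ s₂` (that is `v(X) = y ^ L V₀(x / y, X / y ^ e)`), `δ = hev L' Δ₀ x y`. Over `K` substitute `t = x / y`,
`X → X / y ^ e` in the identity and multiply by `y ^ L'`: with `f = hsp e F x y = y ^ (e (m + 1)) F(x / y, X / y ^ e)`,
`derivative f = y ^ (e m) (derivative F)(x / y, X / y ^ e)`: `f` divides `v derivative f - C δ` over `K`, and over `𝓞 K` as
`f` is monic (`Polynomial.map_dvd_map`). UUG for the family `hfm e F y` (its specialisation at `x` is `f`, HB3) and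
`t₀ = x`. `Δ = Δ₀ ^ 2 F_0`, `s' = 2 L' + e (m + 1)`: `hev s' Δ x y = δ ^ 2 hev (e (m + 1)) F_0 x y`. All the sizes are
`≤ (C H t) ^ s`, `t = tt φ x y ≥ 1` (HEV). -/
def StHUU : Prop :=
  ∀ (K : Type) [Field K] [NumberField K] (m e : ℕ), ∃ (C₀ : ℝ) (s s' : ℕ), 1 ≤ C₀ ∧
    ∀ (H : ℝ) (F : (𝓞 K)[X][X]), IsCrE m e H F →
    ∃ Δ : (𝓞 K)[X], Δ ≠ 0 ∧ Δ.natDegree ≤ s' ∧
      (∀ φ : K →+* ℂ, pn (res φ) Δ ≤ (C₀ * H) ^ s) ∧
    ∀ x y : 𝓞 K, y ≠ 0 → (∀ φ : K →+* ℂ, 1 ≤ tt φ x y) → ∀ n : ℕ,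
      ∃ U : Fin (m + 1) → Fin (m + 1) → PowerSeries (𝓞 K),
        (∀ i j, PowerSeries.constantCoeff (U i j) = if i = j then 1 else 0) ∧
        (∀ j : Fin (m + 1), ∑ i : Fin (m + 1),
          PowerSeries.C (Pd.cf (hsp e F x y) n i) * U i j =
            tay (Pd.cf (hfm e F y) n j) x (hev s' Δ x y)) ∧
        ∀ (φ : K →+* ℂ) i j r, ‖res φ (PowerSeries.coeff r (U i j))‖ ≤
          C₀ ^ n * (C₀ * H * tt φ x y) ^ (s * (r + 1))

/-- HVE (the auxiliary vectors). Proof: the proof of XVE (`Fm/I_XVE.lean`) from XG2 (`σ = e (m + 1)`), HUU, CRA, HDQ,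
PN, HB1, HB2, HB3, with the following changes. XG2 gives `ℓ`, `Q` (syzygies of the `cf_j = Pd.cf F n j`), `h = n / N₁`,
`L_i = ℓ_i + h`. Put `Q'_(i,j) = hpl (L_i + e j) Q_(i,j) y`, polynomials in `s` over `𝓞 K`, and
`cf'_j = Pd.cf (hfm e F y) n j = hpl (e (n - j)) cf_j y`: `∑_j Q'_(i,j) cf'_j = hpl (L_i + e n) (∑_j Q_(i,j) cf_j) y = 0` (the
terms with `n < j` vanish). Over `K`, with `ψ(P) = P(s / y)` (`P.comp (C y⁻¹ * X)`): `mnr Q' j₀` is a nonzero constant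
times `ψ(mnr Q j₀) = ψ(c') ψ(E_(j₀))` (`c'` as in XVE, `deg c' ≤ m h`), so for the `j₀` with `E_(j₀)(x / y) ≠ 0` its
order of vanishing at `s = x` is the order of `c'` at `x / y`, at most `m h`. Rows `W_*(s)_a = U_(a,j₀)`,
`W_i(s)_a = ∑_b U_(a,b) tay(Q'_(i,b))` at `x` with `d = hev s' Δ x y ≠ 0`: then HDQ as in XVE. Sizes: the Taylor
coefficients of `Q'_(i,b)` at `x` are `≤ 2 ^ D pn(Q_(i,b)) t ^ D`, `D = L_i + e m` (HB3), and
`|φ(d)| ≤ (C₀ H) ^ s t ^ s'`. -/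
def StHVE : Prop :=
  ∀ (K : Type) [Field K] [NumberField K] (m e : ℕ), 1 ≤ m →
    ∃ γ s₁ s₂ s' : ℕ, ∀ N₁ : ℕ, 1 ≤ N₁ → ∃ (C₁ : ℝ) (s : ℕ), 1 ≤ C₁ ∧
    ∀ (H : ℝ) (F : (𝓞 K)[X][X]), IsCrE m e H F →
    ∃ Δ : (𝓞 K)[X], Δ ≠ 0 ∧ Δ.natDegree ≤ s' ∧
      (∀ φ : K →+* ℂ, pn (res φ) Δ ≤ (C₁ * H) ^ s) ∧
    ∀ n : ℕ, 1 ≤ n → ∀ (D : ℕ) (G : K[X]) (E A : Fin (m + 1) → K[X]), G ≠ 0 →
      (∀ j : Fin (m + 1), (Pd.cf F n j).map (algebraMap (𝓞 K) K) = G * E j) →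
      ∑ j, A j * E j = 1 → (∀ j, (E j).natDegree ≤ D) → (∃ j, D ≤ (E j).natDegree) →
      ∀ x y : 𝓞 K, y ≠ 0 → (∀ φ : K →+* ℂ, 1 ≤ tt φ x y) → hev s' Δ x y ≠ 0 →
      ∃ (ℓ r : Fin m → ℕ) (V : Fin m → Fin (m + 1) → 𝓞 K),
        ∑ i, ℓ i ≤ D ∧ (∀ i, n ≤ γ * (ℓ i + 1)) ∧
        ∑ i, r i ≤ m * (n / N₁) ∧ LinearIndependent (𝓞 K) V ∧
        (∀ i, ∑ j, V i j * Pd.cf (hsp e F x y) n j = 0) ∧
        ∀ (φ : K →+* ℂ) i j, ‖res φ (V i j)‖ ≤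
          ((C₁ * H) ^ s) ^ n * tt φ x y ^ (ℓ i + n / N₁ + s₁ + s₂ * r i)

/-- HPI (the forms `w_i`). Proof. `b = (m + 1)!`. If `w_i ≠ 0` then `deg P + deg w_i = (b / (m + 1 - i)) deg F_i ≤ e b`
(`𝓞 K` is a domain), in particular for the `i` of `top`: `deg P + θ ≤ e b`. The identity is `fac` and HEV with the
degrees `e b = (e b - θ) + θ = (b / (m + 1 - i)) e (m + 1 - i)`; `HB1` for the coefficients of `hsp`. -/
def StHPI : Prop :=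
  ∀ (R : Type) [CommRing R] [IsDomain R] (m e b θ : ℕ) (F : R[X][X]) (P : R[X]) (w : ℕ → R[X])
    (r₁ r₂ : R), F.Monic → F.natDegree = m + 1 → Wt e F → IsPi m F b θ P w r₁ r₂ →
    P.natDegree + θ ≤ e * b ∧ ∀ x y : R, ∀ i ≤ m,
      r₁ * (hsp e F x y).coeff i ^ (b / (m + 1 - i)) = hev (e * b - θ) P x y * hev θ (w i) x y

/-- HBZ (Bezout with sizes for the forms `w_i`). Proof from CRS. Let `a ≤ m` be such that `(w_a).coeff θ ≠ 0`. If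
`θ = 0` take `c = w_a`, a constant. Let `θ ≥ 1`. Over `K`, for `j ≤ 2 θ - 1` there are `B_i` of degree `≤ θ - 1` with
`∑ B_i w_i = t ^ j`: from `∑ A_i w_i = r`, `t ^ j = ∑ (r⁻¹ t ^ j A_i) w_i`; reduce the multipliers for `i ≠ a` modulo `w_a`
(degree `θ`); then the multiplier of `w_a` has degree at most `max (j, 2 θ - 1) - θ`. CRS for this linear system,
`j = 0` and `j = 2 θ - 1`: `c₁`, `c₂` not zero with sizes, and `B_i`, `B'_i` over `𝓞 K` of degree `≤ θ - 1` with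
`∑ B_i w_i = c₁`, `∑ B'_i w_i = c₂ t ^ (2 θ - 1)`. Homogenise (HEV): `c₁ y ^ (2 θ - 1)` and `c₂ x ^ (2 θ - 1)` are in the
ideal of the `hev θ w_i x y`; `x ^ (2 θ - 1)`, `y ^ (2 θ - 1)` are coprime, so `c = c₁ c₂` is in the ideal. -/
def StHBZ : Prop :=
  ∀ (K : Type) [Field K] [NumberField K] (m s : ℕ), ∃ (C₀ : ℝ) (s' : ℕ), 1 ≤ C₀ ∧
    ∀ (Y : ℝ) (θ : ℕ) (w A : ℕ → (𝓞 K)[X]) (r : 𝓞 K), 1 ≤ Y → θ ≤ s → r ≠ 0 →
    (∀ i ≤ m, (w i).natDegree ≤ θ) → (∃ i ≤ m, (w i).coeff θ ≠ 0) →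
    ∑ i ∈ range (m + 1), A i * w i = C r →
    (∀ φ : K →+* ℂ, ∀ i ≤ m, pn (res φ) (w i) ≤ Y) →
    ∃ c : 𝓞 K, c ≠ 0 ∧ (∀ φ : K →+* ℂ, ‖res φ c‖ ≤ (C₀ * Y) ^ s') ∧
      ∀ x y : 𝓞 K, IsCoprime x y → c ∈ Ideal.span {z | ∃ i ≤ m, z = hev θ (w i) x y}

/-- HLO (lower bound). Proof: as XLO (`Fm/I_XLO.lean`), with HPI, HB1, HEV. `t = tt φ x y ≥ 1`, `b = (m + 1)!`, and a nonzero
`z ∈ 𝓞 K` with all `|ψ(z)| ≤ Y` has `|φ(z)| ≥ Y ^ (-(D' - 1))`. (a) Some `i ≤ m` satisfies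
`‖φ(hev θ w_i x y)‖ ≥ (C Y) ^ (-s') t ^ θ`: if `|φ(x)| ≥ ρ₀ |φ(y)|`, `ρ₀ = (C Y) ^ s'`, the `i` of `top` (leading
coefficient `≥ Y ^ (-(D' - 1))`, `t = |φ(x)|`); if `|φ(x)| ≤ ρ₀ |φ(y)|` (so `|φ(y)| ≥ t / ρ₀`) by `bz`:
`r y ^ (s + θ) = ∑ hev s A_i x y * hev θ w_i x y`, so `|φ(r)| |φ(y)| ^ (s + θ) ≤ ∑ Y t ^ s ‖φ(hev θ w_i x y)‖`. (b) With HPI:
`‖φ(f_i)‖ ^ (b / (m + 1 - i)) ≥ (C Y) ^ (-s') ‖φ(P')‖ t ^ θ`, `f = hsp e F x y`, `P' = hev (e b - θ) P x y`; `z` the root of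
RTB for `f` at `φ`: `‖z‖ ^ b ≥ (C Y) ^ (-s') ‖φ(P')‖ t ^ θ`, `‖z‖ ≤ (C Y) ^ s' t ^ s'`. (c) `z ^ n = ∑_j φ(cf_j) z ^ j`. -/
def StHLO : Prop :=
  ∀ (K : Type) [Field K] [NumberField K] (m s e : ℕ), ∃ (C₀ : ℝ) (s' : ℕ), 1 ≤ C₀ ∧
    ∀ (Y : ℝ) (F : (𝓞 K)[X][X]) (θ : ℕ) (P : (𝓞 K)[X]) (w A : ℕ → (𝓞 K)[X]) (r : 𝓞 K),
      F.Monic → F.natDegree = m + 1 → Wt e F →
      (∀ (φ : K →+* ℂ), ∀ i ≤ m, pn (res φ) (F.coeff i) ≤ Y) → IsPiH m s Y F θ P w A r →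
      ∀ (φ : K →+* ℂ) (x y : 𝓞 K) (n : ℕ), 1 ≤ tt φ x y → ∃ j : Fin (m + 1),
        ‖res φ (hev (e * (m + 1).factorial - θ) P x y)‖ ^ n * tt φ x y ^ (θ * n) ≤
          (C₀ * Y) ^ (s' * (n + 1)) * ‖res φ (Pd.cf (hsp e F x y) n j)‖ ^ (m + 1).factorial *
            tt φ x y ^ s'

/-- HNZ (zeros of forms). Proof. `D'` the degree of `K`, `s = D'`. Let `y = 0`: then `x` is a unit and
`TT x 0 = ∏ ‖φ(x)‖ = 1`. Let `y ≠ 0` and `hev p Δ x y = y ^ p Δ(x / y) = 0`, `δ = deg Δ`, `a` the leading coefficient: `δ ≥ 1`,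
`a x ^ δ + ∑_(j < δ) Δ_j x ^ j y ^ (δ - j) = 0`, so `y ∣ a x ^ δ`, `y ∣ a` (coprime), so
`∏ ‖φ(y)‖ ≤ ∏ ‖φ(a)‖` (norms). Cauchy: `‖φ(x / y)‖ ≤ 1 + pn φ Δ / ‖φ(a)‖`, so
`tt φ x y ≤ ‖φ(y)‖ (1 + pn φ Δ / ‖φ(a)‖)`. Multiply: `TT x y ≤ ∏ ‖φ(y)‖ ∏ (‖φ(a)‖ + pn φ Δ) / ∏ ‖φ(a)‖ ≤ (2 Y) ^ D'`. -/
def StHNZ : Prop :=
  ∀ (K : Type) [Field K] [NumberField K], ∃ s : ℕ, ∀ (p : ℕ) (Δ : (𝓞 K)[X]) (Y : ℝ), Δ ≠ 0 →
    Δ.natDegree ≤ p → 1 ≤ Y → (∀ φ : K →+* ℂ, pn (res φ) Δ ≤ Y) →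
    ∀ x y : 𝓞 K, IsCoprime x y → (2 * Y) ^ s < TT x y → hev p Δ x y ≠ 0

/-- **HTH.** Proof: the proof of XTH (`Fm/I_XTH.lean`) from XPI, XEE, HLO, HVE, CO3, EN3, HPI, HBZ, HNZ, HB1, with the
following changes. `t₀` is replaced by `(x, y)`, `f = hsp e F x y`, `P' = hev (e b - θ) P x y`. `T` large implies `y ≠ 0`
(HNZ for the polynomial `1` and `p = 1`: `hev 1 1 x y = y`), `hev s' Δ x y ≠ 0`, `P' ≠ 0` and `f_0 ≠ 0`. In EN3 take
`w' = (r c P') ^ n` with the `c` of HBZ: `c` is in the ideal of the `hev θ w_i x y`, so `r c P'` is in the ideal of the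
`r f_i ^ (b / (m + 1 - i)) = P' hev θ w_i x y` (HPI), hence of the `f_i ^ (b / (m + 1 - i))`: the hypothesis is CO3. The factor
`∏ ‖φ(c)‖ ^ n` is absorbed in the constants. -/
def StHTH : Prop :=
  ∀ (K : Type) [Field K] [NumberField K] (m e : ℕ), 1 ≤ m →
    ∃ (C₁ : ℝ) (s c κ : ℕ), 1 ≤ C₁ ∧ ∀ (H : ℝ) (F : (𝓞 K)[X][X]), IsCrE m e H F →
      ∀ x y : 𝓞 K, IsCoprime x y → (∀ φ : K →+* ℂ, 1 ≤ tt φ x y) → (C₁ * H) ^ s ≤ TT x y →
      ∀ (n : ℕ) (a : Fin (m + 1) → 𝓞 K), a ≠ 0 →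
        ∑ j, a j * Pd.cf (hsp e F x y) n j = 0 →
        TT x y ^ n ≤ (((C₁ * H) ^ s) ^ (n + 1) * TT x y ^ c * HH a) ^ κ

/-- integer families of order `k`, weights `e` and coefficients at most `H` -/
structure IsE (k e H : ℕ) (F : ℤ[X][X]) : Prop where
  monic : F.Monic
  deg : F.natDegree = k
  ne : F.coeff 0 ≠ 0
  one : 1 ≤ H
  wt : Wt e F
  ht : ∀ i j, ((F.coeff i).coeff j).natAbs ≤ H

/-- HIZ. As XIZ (`Fm/I_XIZ.lean`) from HTH and INT (`K = ℚ`, `TT x y = max (|x|, |y|)`). -/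
def StHIZ : Prop :=
  ∀ m e : ℕ, 1 ≤ m → ∃ c : ℕ, 1 ≤ c ∧ ∀ (H : ℕ) (F : ℤ[X][X]), IsE (m + 1) e H F →
    NonConst (F.map (mapRingHom (Int.castRingHom ℂ))) →
    ∀ x y : ℤ, IsCoprime x y → (c * H) ^ c ≤ mx x y →
      ∀ (n : ℕ) (a : Fin (m + 1) → ℤ), a ≠ 0 → ∑ j, a j * Pd.cf (hsp e F x y) n j = 0 →
        mx x y ^ n ≤ (((c * H) ^ c) ^ (n + 1) * mx x y ^ c * ∑ j, (a j).natAbs) ^ c

/-- the conclusion on the zeros of `z`, of order `d`, with the multiplicity `M`; `T` is the height -/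
def Zrh (d M c T : ℕ) (z : ℕ → ℤ) : Prop :=
  (∀ n, z n = 0) ∨ ∀ B : ℕ, (∀ i < d, (z i).natAbs ≤ B) →
    (∀ n, (B * T) ^ c < n → z n ≠ 0) ∧
    ∃ S : Finset ℕ, S.card < M ∧ ∀ n, (B * T) ^ c < T ^ n → z n = 0 → n ∈ S

/-- HZY (zeros with multiplicities; all orders `k ≥ 1`). As ZRY (with KRY) and ZR0 (`Fm/I_ZRY.lean`, `I_KRY.lean`,
`I_ZR0.lean`) from HIZ and ADY, for `g = hsp e F x y` (coefficients of size `≤ (e k + 1) H T ^ (e k)`, `T = mx x y`).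
`k ≥ 2`: HIZ replaces XIZ. `k = 1`: `g = X - a`, `a = -hev e F_0 x y ≠ 0` for `T > H ^ 2` or so (HNZ for `K = ℚ` and INT; or
directly: `x / y` is a root of `F_0` if `y ≠ 0`, so `|x|`, `|y| ≤ H`). -/
def StHZY : Prop :=
  ∀ k e M : ℕ, 1 ≤ k → 1 ≤ M → ∃ c : ℕ, 1 ≤ c ∧ ∀ (H : ℕ) (F : ℤ[X][X]), IsE k e H F →
    NonConst (F.map (mapRingHom (Int.castRingHom ℂ))) →
    ∀ x y : ℤ, IsCoprime x y → (c * H) ^ c ≤ mx x y →
    ∀ z : ℕ → ℤ, Rec (RingHom.id ℤ) (hsp e F x y ^ M) z → Zrh (k * M) M c (mx x y) z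

/-- WDV (weights of divisors). Proof. For a monic `P` the largest degree in `t` of the coefficients of
`P(t, t ^ e X)` (coefficient `i`: `F_i t ^ (e i)`) is `≥ e deg P`, and `Wt e P` says that it is `= e deg P`. This largest
degree is additive for products over a domain (it is the degree in `t` of the polynomial over `R[X]` obtained
by exchanging the variables). So for `F = G G'`: both are equal to their lower bounds. -/
def StWDV2 : Prop :=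
  ∀ (R : Type) [CommRing R] [IsDomain R] (e : ℕ) (F G : R[X][X]), F.Monic → G.Monic → Wt e F →
    G ∣ F → Wt e G

/-- HDV (divisibility of the specialisations). Proof from WDV2, HB1: `F G' = Q`, all monic, `Wt e` for `F` and `G'` by
WDV2, and HB1 (e). -/
def StHDV : Prop :=
  ∀ (R : Type) [CommRing R] [IsDomain R] (e : ℕ) (F Q : R[X][X]) (x y : R), F.Monic → Q.Monic →
    Wt e Q → F ∣ Q → hsp e F x y ∣ hsp e Q x y

/-- WTG (weights of the power family). Proof. `k₀` = the fraction field of `R`, `L = k₀(t)`, `ι` the automorphism of `L`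
with `t ↦ 1 / t`. For a monic `P` of degree `d` over `R[t]` let `P° = X ^ d + ∑_(i<d) t ^ (w (d - i)) P_i(1 / t) X ^ i`
over `L` (`w = e` for `F`, `w = e N` for `G`). `Wt w P` iff all its coefficients are in `k₀[t]`. Over an algebraic closure
of `L` (extend `ι` to it): the roots of `P°` are the `t ^ w ι(a)`, `a` a root of `P`. The roots of `F°` are integral over
`k₀[t]`; the roots of `G°` are `t ^ (e N) ι(a ^ N) = (t ^ e ι(a)) ^ N`, integral over `k₀[t]`; so the coefficients of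
`G°` are integral over `k₀[t]` and in `L`, hence in `k₀[t]` (integrally closed). -/
def StWTG : Prop :=
  ∀ (R : Type) [CommRing R] [IsDomain R] (e N : ℕ) (F G : R[X][X]), F.Monic → G.Monic → Wt e F →
    (∀ y : AlgebraicClosure (FractionRing R[X]),
      (G.map (algebraMap R[X] (AlgebraicClosure (FractionRing R[X])))).eval y = 0 →
      ∃ a : AlgebraicClosure (FractionRing R[X]), y = a ^ N ∧
        (F.map (algebraMap R[X] (AlgebraicClosure (FractionRing R[X])))).eval a = 0) →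
    Wt (e * N) G

/-- RDH (RDU with weights). Proof: the proof of RDU (from TOR, POW, SQF) with WTG. (`IsE k e H` implies `IsDH k (e k) H`.
The roots of `G` are roots of `Q`, so the `N`-th powers of roots of `F`.) -/
def StRDH : Prop :=
  ∀ d e : ℕ, 1 ≤ d → ∃ N c : ℕ, 1 ≤ N ∧ 1 ≤ c ∧ ∀ (H : ℕ) (F : ℤ[X][X]), IsE d e H F → NonIso F →
    ∃ (k : ℕ) (G : ℤ[X][X]), 1 ≤ k ∧ k ≤ d ∧ IsE k (e * N) ((c * H) ^ c) G ∧
      NonConst (G.map (mapRingHom (Int.castRingHom ℂ))) ∧ F ∣ (expand ℤ[X] N G) ^ d ∧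
      ((F.map (algebraMap ℤ[X] (FractionRing ℤ[X]))).Separable → F ∣ expand ℤ[X] N G)

/-- **HNU (zeros, all families without constant quotients of infinite order, all rational parameters).**
Proof from RDH, HDV, HB1, SBY, HZY: as FNU (`I_FNU.lean`). `hsp e F x y` divides
`hsp e ((expand N G) ^ M) x y = expand N (hsp (e N) G x y ^ M)` (HDV, HB1), `M = 1` if `F` is separable and `M = d`
otherwise; SBY; HZY for `G` (weights `e N`). The initial values of the subsequences are at most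
`(B T) ^ c'`, `T = mx x y`. -/
def StHNU : Prop :=
  ∀ d e : ℕ, 1 ≤ d → ∃ N c : ℕ, 1 ≤ N ∧ 1 ≤ c ∧ ∀ (H : ℕ) (F : ℤ[X][X]), IsE d e H F → NonIso F →
    ∃ M : ℕ, 1 ≤ M ∧ M ≤ d ∧
      ((F.map (algebraMap ℤ[X] (FractionRing ℤ[X]))).Separable → M = 1) ∧
      ∀ x y : ℤ, IsCoprime x y → (c * H) ^ c ≤ mx x y →
      ∀ u : ℕ → ℤ, Rec (RingHom.id ℤ) (hsp e F x y) u → ∀ q < N,
        (∀ n, u (q + N * n) = 0) ∨ ∀ B : ℕ, (∀ i < d, (u i).natAbs ≤ B) →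
          (∀ n, (B * mx x y) ^ c < n → u (q + N * n) ≠ 0) ∧
          ∃ S : Finset ℕ, S.card < M ∧
            ∀ n, (B * mx x y) ^ c < mx x y ^ n → u (q + N * n) = 0 → n ∈ S

/-- **HDU (ONE algorithm).** As FDU (`I_FDU.lean`) from HNU and DEC. The algorithm computes the coefficients
`hev (e (d - i)) L_i x y` from the lists, `x`, `y`, `e` (folds; powers of integers), then as FDU with
`bd = B ((y' T) ^ B + 2)`, `T = mx x y`, `y' = 1 + ∑ |x_i|` (`v` is the list of the initial values). -/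
def StHDU : Prop :=
  ∃ A : (List (List ℤ) × List ℤ) × ((ℕ × ℕ) × (ℤ × ℤ)) → Bool, Primrec A ∧
    ∀ d e : ℕ, 1 ≤ d → ∃ B₀ : ℕ, ∀ B : ℕ, B₀ ≤ B → ∀ (H : ℕ) (L : List (List ℤ)),
      IsE d e H (pol L) → NonIso (pol L) → ∀ x y : ℤ, IsCoprime x y → (B * H) ^ B ≤ mx x y →
      ∀ (v : List ℤ) (u : ℕ → ℤ), v.length = d → (∀ i < d, u i = v.getD i 0) →
        Rec (RingHom.id ℤ) (hsp e (pol L) x y) u →
        (A ((L, v), ((e, B), (x, y))) = true ↔ ∃ n, u n = 0)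

/-- RZB2 (RZB with weights). Proof: the proof of RZB (`Fm/I_RZB.lean`) shows that the roots of `G` in the algebraic
closure of the fraction field of `Zb[t]` are the `τ(b) ^ N` with roots `b`, so `τ(b)`, of `F`; WTG for `R = Zb` and the image of
`F` over `Zb[t]` gives the weights. -/
def StRZB2 : Prop :=
  ∀ (F : ℤ[X][X]) (e : ℕ), F.Monic → 1 ≤ F.natDegree → F.coeff 0 ≠ 0 → Wt e F →
    ∃ (N D r k : ℕ) (θ : Fin r → Zb) (G : Zb[X][X]), 1 ≤ N ∧ 1 ≤ D ∧ (∀ j, θ j ≠ 0) ∧ G.Monic ∧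
      G.natDegree = k + 1 ∧ G.coeff 0 ≠ 0 ∧ Wt (e * N) G ∧
      resultant (G.map (mapRingHom (algebraMap Zb Ab)))
        (derivative (G.map (mapRingHom (algebraMap Zb Ab)))) ≠ 0 ∧
      (∀ c : Ab, c ≠ 0 → c ≠ 1 → resultant (G.map (mapRingHom (algebraMap Zb Ab)))
        ((G.map (mapRingHom (algebraMap Zb Ab))).scaleRoots (C c)) ≠ 0) ∧
      (F.map (mapRingHom (algebraMap ℤ Zb))).scaleRoots (C (D : Zb)) ∣
        expand Zb[X] N (∏ j, G.scaleRoots (C (θ j)))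

/-- RZH (RZA with weights). Proof: the proof of RZA (`Fm/I_RZA.lean`) with RZB2 for RZB; an injective homomorphism of the
coefficients preserves the degrees, so `Wt (e * N)` descends. -/
def StRZH : Prop :=
  ∀ (F : ℤ[X][X]) (e : ℕ), F.Monic → 1 ≤ F.natDegree → F.coeff 0 ≠ 0 → Wt e F →
    ∃ (K : Type) (_ : Field K) (_ : NumberField K) (N D r k : ℕ) (θ : Fin r → 𝓞 K)
      (G : (𝓞 K)[X][X]), 1 ≤ N ∧ 1 ≤ D ∧ (∀ j, θ j ≠ 0) ∧ G.Monic ∧ G.natDegree = k + 1 ∧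
      G.coeff 0 ≠ 0 ∧ Wt (e * N) G ∧ (∃ φ : K →+* ℂ, NonConst (G.map (mapRingHom (res φ)))) ∧
      (F.map (mapRingHom (algebraMap ℤ (𝓞 K)))).scaleRoots (C (D : 𝓞 K)) ∣
        expand (𝓞 K)[X] N (∏ j, G.scaleRoots (C (θ j)))

/-- HZR (zeros over a number field; with the uniqueness). As KRZ and ZRZ (`I_KRZ.lean`, `I_ZRZ.lean`) from HTH, ADZ,
HNZ, HB1 for `g = hsp e G x y`; its coefficients are of size `≤ H t ^ (e (m + 1)) ≤ H T ^ (e (m + 1))` in all embeddings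
(`t = tt φ x y ≤ T = TT x y`, as all `tt ≥ 1`). `m = 0`: `g = X - a`, `a ≠ 0` by HNZ. -/
def StHZR : Prop :=
  ∀ (K : Type) [Field K] [NumberField K] (m e r : ℕ) (θ : Fin r → 𝓞 K), (∀ j, θ j ≠ 0) →
    ∃ c : ℕ, 1 ≤ c ∧ ∀ (H : ℝ) (G : (𝓞 K)[X][X]), IsCrE m e H G →
    ∀ x y : 𝓞 K, IsCoprime x y → (∀ φ : K →+* ℂ, 1 ≤ tt φ x y) → (c * H) ^ c ≤ TT x y →
    (∀ v : Fin (m + 1) → ℕ → 𝓞 K, (∀ i, Pd.Sol (∏ j, (X - C (θ j))) (v i)) →
      (∀ n : ℕ, ∑ i : Fin (m + 1), Pd.cf (hsp e G x y) n i * v i n = 0) → v = 0) ∧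
    ∀ z : ℕ → 𝓞 K, Pd.Sol (∏ j, (hsp e G x y).scaleRoots (θ j)) z →
      ∃ (δ : 𝓞 K) (v : Fin (m + 1) → ℕ → 𝓞 K), δ ≠ 0 ∧
        (∀ i, Pd.Sol (∏ j, (X - C (θ j))) (v i)) ∧
        (∀ n : ℕ, δ * z n = ∑ i : Fin (m + 1), Pd.cf (hsp e G x y) n i * v i n) ∧
        ∀ B : ℝ, 1 ≤ B → (∀ (φ : K →+* ℂ), ∀ n < (m + 1) * r, ‖res φ (z n)‖ ≤ B) →
          ∀ n, (B * TT x y) ^ c < TT x y ^ n → z n = 0 → ∀ i, v i n = 0

/-- **HNR (EVERY family, all rational parameters, reduces to one recurrence).** As FNZ (`I_FNZ.lean`) from RZH,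
HDV, HB1, SBY, HZR, SQZ, INT. -/
def StHNR : Prop :=
  ∀ (F : ℤ[X][X]) (e : ℕ), F.Monic → 1 ≤ F.natDegree → F.coeff 0 ≠ 0 → Wt e F →
    ∃ (N T₀ c : ℕ) (f : ℤ[X]), 1 ≤ N ∧ f.Monic ∧ f.coeff 0 ≠ 0 ∧
      ∀ x y : ℤ, IsCoprime x y → T₀ ≤ mx x y →
      ∀ u : ℕ → ℤ, Rec (RingHom.id ℤ) (hsp e F x y) u → ∀ q < N,
        ∃ w : ℕ → ℤ, Rec (RingHom.id ℤ) f w ∧ (∀ n, w n = 0 → u (q + N * n) = 0) ∧
          ∀ B : ℕ, (∀ i < F.natDegree, (u i).natAbs ≤ B) →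
            ∀ n, (B * mx x y) ^ c < mx x y ^ n → u (q + N * n) = 0 → w n = 0

end Pool.Agent.Work.MP_8d13b5_lc.Fm
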