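import Pool.Agent.Work.MP_8d13b5_lc.Fm.StmtsHom
import Pool.Agent.Work.MP_8d13b5_lc.Fm.Pl

set_option autoImplicit false

/-! Block RED: the reduction of every family to one recurrence (HNR) is POLYNOMIAL (the initial values of `w` are fixed
integer polynomials of `x`, `y` and the initial values of `u`), hence computable. `Pl h`: `h` is a polynomial function
of integers (`Fm/Pl.lean`, closed under all operations, also determinants, adjugates, ring homomorphisms, integer
coordinates). The docstrings are the complete proofs. -/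

namespace Pool.Agent.Work.MP_8d13b5_lc.Fm

open Polynomial NumberField Finset Module

/-- RPC. (a): induction on `n` with the recursion `CFD.init`, `CFD.rec0`, `CFD.recS` (`Fm/I_CFD.lean`) for all `j ≤ m`. (b): `HB1.1`:
the coefficient `i ≤ deg F` is `hev (e * (deg F - i)) (F.coeff i) x y`, a sum of products of constants and powers of
`x`, `y`; for `i > deg F` the coefficient is zero. (c): `u n = ∑_(c < d) cf (hsp e F x y) n c * u c`. -/
def StRPC : Prop :=
  (∀ (R σ : Type) [CommRing R] [Nontrivial R] (m : ℕ) (g : (σ → ℤ) → R[X]), (∀ a, (g a).Monic) →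
    (∀ a, (g a).natDegree = m + 1) → (∀ i, Pl (fun a => (g a).coeff i)) →
    ∀ n, ∀ j ≤ m, Pl (fun a => Pd.cf (g a) n j)) ∧
  (∀ (R σ : Type) [CommRing R] [Nontrivial R] (e : ℕ) (F : R[X][X]) (x y : (σ → ℤ) → R), F.Monic →
    Pl x → Pl y → ∀ i, Pl (fun a => (hsp e F (x a) (y a)).coeff i)) ∧
  ∀ (F : ℤ[X][X]) (e d : ℕ), F.Monic → F.natDegree = d → 1 ≤ d → ∀ n : ℕ,
    ∃ h : (Fin (d + 2) → ℤ) → ℤ, Pl h ∧ ∀ (x y : ℤ) (u : ℕ → ℤ),
      Rec (RingHom.id ℤ) (hsp e F x y) u →
      u n = h (Fin.cons x (Fin.cons y fun i : Fin d => u i))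

/-- RPA (ADZ with the explicit solution). Proof: the proof of `prADZ` (`Fm/I_ADZ.lean`, import it). For every `a` let `A a = ADZ.Am m r (g a) f`,
`f = ∏ (X - θ_j)`, `b a ρ = z a (ADZ.en m r ρ)`, `w a = (A a).adjugate.mulVec (b a)`, `v a = ADZ.vs f (w a)`, `δ a = (A a).det`.
Polynomial: the entries of `A a` are `cf (g a) n i` (RPC (a)) times constants; `Pl.adj`, `Pl.sum`, `Pl.mul`. The rest is in the
landed proof: `ADZ.det_ne`, `ADZ.vs_sol`, and the identity. -/
def StRPA : Prop :=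
  ∀ (K σ : Type) [Field K] [NumberField K] (m r : ℕ) (θ : Fin r → 𝓞 K) (g : (σ → ℤ) → (𝓞 K)[X])
    (z : (σ → ℤ) → ℕ → 𝓞 K), (∀ a, (g a).Monic) → (∀ a, (g a).natDegree = m + 1) →
    (∀ i, Pl (fun a => (g a).coeff i)) → (∀ n, Pl (fun a => z a n)) →
    ∃ (δ : (σ → ℤ) → 𝓞 K) (v : (σ → ℤ) → Fin (m + 1) → ℕ → 𝓞 K),
      (∀ i n, Pl (fun a => v a i n)) ∧ (∀ a i, Pd.Sol (∏ j, (X - C (θ j))) (v a i)) ∧
      ∀ a, (∀ v : Fin (m + 1) → ℕ → 𝓞 K, (∀ i, Pd.Sol (∏ j, (X - C (θ j))) (v i)) →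
          (∀ n : ℕ, ∑ i : Fin (m + 1), Pd.cf (g a) n i * v i n = 0) → v = 0) →
        Pd.Sol (∏ j, (g a).scaleRoots (θ j)) (z a) →
        δ a ≠ 0 ∧ ∀ n : ℕ, δ a * z a n = ∑ i : Fin (m + 1), Pd.cf (g a) n i * v a i n

/-- RPS (SQZ with the explicit sequence). Proof: the proof of `prSQZ` (`Fm/I_SQZ.lean`, import it): `w a n` is the sum of the
squares of the integer coordinates of the `v a i n`, `Pl.lin` for the coordinates (`b.coord l`, or the additive map
`z ↦ b.repr z l`). -/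
def StRPS : Prop :=
  ∀ (K : Type) [Field K] [NumberField K] (r : ℕ) (θ : Fin r → 𝓞 K), (∀ j, θ j ≠ 0) →
    ∃ f : ℤ[X], f.Monic ∧ f.coeff 0 ≠ 0 ∧ ∀ (σ : Type) (k : ℕ) (v : (σ → ℤ) → Fin k → ℕ → 𝓞 K),
      (∀ i n, Pl (fun a => v a i n)) →
      ∃ w : (σ → ℤ) → ℕ → ℤ, (∀ n, Pl (fun a => w a n)) ∧
        ∀ a, (∀ i, Pd.Sol (∏ j, (X - C (θ j))) (v a i)) →
          Pd.Sol f (w a) ∧ ∀ n, w a n = 0 ↔ ∀ i, v a i n = 0

/-- **The reduction.** The recurrence of `f` is a polynomial reduction for the family `F`: the solution `w` of the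
recurrence of `f` with `w_i = W_(q,i)(x, y, u_0, ..., u_(d-1))` (for all `i`, in particular for the initial values) has only
zeros `n` with `u_(q + N n) = 0`, and all of these `n` with `(B T) ^ c < T ^ n`. -/
structure IsRed (F : ℤ[X][X]) (e d N T₀ c : ℕ) (f : ℤ[X])
    (W : ℕ → ℕ → MvPolynomial (Fin (d + 2)) ℤ) : Prop where
  pos : 1 ≤ N
  monic : f.Monic
  ne : f.coeff 0 ≠ 0
  red : ∀ x y : ℤ, IsCoprime x y → T₀ ≤ mx x y →
    ∀ u : ℕ → ℤ, Rec (RingHom.id ℤ) (hsp e F x y) u → ∀ q < N,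
      ∃ w : ℕ → ℤ, Rec (RingHom.id ℤ) f w ∧
        (∀ i, w i = MvPolynomial.eval (Fin.cons x (Fin.cons y fun i : Fin d => u i)) (W q i)) ∧
        (∀ n, w n = 0 → u (q + N * n) = 0) ∧
        ∀ B : ℕ, (∀ i < d, (u i).natAbs ≤ B) →
          ∀ n, (B * mx x y) ^ c < mx x y ^ n → u (q + N * n) = 0 → w n = 0

/-- **RHN (every family, polynomial reduction).** Proof: the proof of `prHNR` (`Fm/I_HNR.lean`, import it; from RZH, HDV, HB1,
SBY, HZR, INT), with RPC, RPA, RPS in the place of SQZ. `σ = Fin (d + 2)`, `a = (x, y, u_0, ..., u_(d-1))`. In RPA take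
`g a = hsp (e * N) G (a 0) (a 1)` (cast to `𝓞 K`; RPC (b)) and `z a n = D ^ (q + N n) * h_(q + N n)(a)` with the `h` of RPC (c).
For `x`, `y`, `u` with `T` large, the uniqueness part of HZR is the hypothesis of RPA, so for `a = (x, y, u_0, ..)`: `δ a ≠ 0` and
`δ a z = ∑ cf * v a`. HZR gives `δ' ≠ 0`, `v'` with `δ' z = ∑ cf * v'` and the conclusion on the zeros of `v'`. Then
`δ' v a - δ a v'` satisfies the hypothesis of the uniqueness, so `δ' v a = δ a v'` and `v a i n = 0 ↔ v' i n = 0`. `w` of RPS for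
`v`. (For different `q` there are different `h`, `v`, `w`; choose `W q i` from `Pl.int_iff`.) The case `u = 0` of the
landed proof: `w = w a` as in the other case (no separate case is needed except for `B = 0`: then `u = 0`, `z = 0`, and by the
uniqueness `v a = 0`, `w = 0`). -/
def StRHN : Prop :=
  ∀ (F : ℤ[X][X]) (e d : ℕ), F.Monic → F.natDegree = d → 1 ≤ d → F.coeff 0 ≠ 0 → Wt e F →
    ∃ (N T₀ c : ℕ) (f : ℤ[X]) (W : ℕ → ℕ → MvPolynomial (Fin (d + 2)) ℤ), IsRed F e d N T₀ c f W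

/-- RPM. Proof: `MvPolynomial.induction_on`: constants, sums, products with variables (`primrec_int_add`,
`primrec_int_mul`, used in `Fm/I_HDU.lean`; `Primrec.list_getD`). -/
def StRPM : Prop :=
  ∀ (k : ℕ) (P : MvPolynomial (Fin k) ℤ),
    Primrec (fun l : List ℤ => MvPolynomial.eval (fun i : Fin k => l.getD i 0) P)

/-- `D` decides, from the list of the initial values, whether a solution of the recurrence of `f` has a zero -/
def Decides (f : ℤ[X]) (D : List ℤ → Bool) : Prop :=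
  ∀ (l : List ℤ) (w : ℕ → ℤ), l.length = f.natDegree → (∀ i < f.natDegree, w i = l.getD i 0) →
    (∀ n, ∑ i ∈ range (f.natDegree + 1), f.coeff i * w (n + i) = 0) → (D l = true ↔ ∃ n, w n = 0)

/-- **RHC (the Skolem Problem for the family reduces to the Skolem Problem for `f`).** Proof. `A (v, (x, y))` is the
disjunction of (i) `u` has a zero `n < bd`, `bd = N * (size * T) ^ c + N + 1` (as in `prHDU`, `Fm/I_HDU.lean`: StDEC for this bound, the
coefficients of the recurrence `HDU.cl` for a list `L` with `pol L = F` (such an `L` exists, `F` is fixed), `HDU.isSeq`;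
or directly: `u n`, a polynomial function by RPC (c), is a primitive recursive function of `n` and the data by the recursion),
and (ii) for some `q < N`: `D` says that the solution of `f` with the initial values `W_(q,i)(x, y, v)`, `i < deg f`, has a
zero (RPM; `Computable`: a finite disjunction over `q < N`, `N` fixed; induction on `N`). Correct: (i) and (ii) imply that `u` has a
zero (IsRed). Conversely let `u_n = 0`, `n = q + N n'`. If `(B T) ^ c < T ^ n'`, `B = size`, then `w_(n') = 0` and (ii) holds. Otherwise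
`n' < 2 ^ n' ≤ T ^ n' ≤ (B T) ^ c` and (i) holds. (`T₀` is enlarged such that `T ≥ 2` and `hsp e F x y` has a nonzero constant
coefficient, `HDU.hev_ne`.) -/
def StRHC : Prop :=
  ∀ (F : ℤ[X][X]) (e d : ℕ), F.Monic → F.natDegree = d → 1 ≤ d → F.coeff 0 ≠ 0 → Wt e F →
    ∀ (N T₀ c : ℕ) (f : ℤ[X]) (W : ℕ → ℕ → MvPolynomial (Fin (d + 2)) ℤ), IsRed F e d N T₀ c f W →
    ∃ T₁ : ℕ, ∀ D : List ℤ → Bool, Computable D → Decides f D →
      ∃ A : List ℤ × (ℤ × ℤ) → Bool, Computable A ∧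
        ∀ x y : ℤ, IsCoprime x y → T₀ ≤ mx x y → T₁ ≤ mx x y → ∀ (v : List ℤ) (u : ℕ → ℤ),
          v.length = d → (∀ i < d, u i = v.getD i 0) → Rec (RingHom.id ℤ) (hsp e F x y) u →
          (A (v, (x, y)) = true ↔ ∃ n, u n = 0)

end Pool.Agent.Work.MP_8d13b5_lc.Fm
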