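import Pool.Agent.Work.MP_8d13b5_lc.Fm.StmtsRed
import Pool.Agent.Work.MP_8d13b5_lc.Fm.StmtsZ
import Pool.Agent.Work.MP_8d13b5_lc.Rk.Defs

set_option autoImplicit false

/-! Block TAME: unconditional decidability for all families whose classes of proportional roots are tame.
For a root `a` of `F` the class of `a` is the set of the roots of `F` which are constant multiples of `a`. A class is
tame if for every subset the quotients of its elements generate a group of rank at most two, or for some absolute value the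
quotients of its dominant elements generate a group of rank at most one. The docstrings are the complete
proofs (or say what is new with respect to a landed file, which may be imported and copied). Earlier items are
hypotheses. -/

namespace Pool.Agent.Work.MP_8d13b5_lc.Fm

open Polynomial NumberField Finset Module

/-- The quotients of the elements of `S` generate a group of rank at most `n`: any `n + 1` quotients are
multiplicatively dependent. -/
def RkS {L : Type} [Field L] (n : ℕ) (S : Set L) : Prop :=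
  ∀ b c : Fin (n + 1) → L, (∀ i, b i ∈ S ∧ c i ∈ S) →
    ∃ e : Fin (n + 1) → ℤ, e ≠ 0 ∧ ∏ i, (b i / c i) ^ e i = 1

/-- `v` is nonarchimedean, or the absolute value of an embedding in `ℂ` -/
def IsAb {L : Type} [Field L] (v : AbsoluteValue L ℝ) : Prop :=
  IsNonarchimedean v ∨ ∃ φ : L →+* ℂ, ∀ x, v x = ‖φ x‖

/-- tame sets: for every subset `S'` the quotients generate a group of rank at most two, or for some absolute
value the quotients of the dominant elements of `S'` generate a group of rank at most one -/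
def TameS {L : Type} [Field L] (S : Set L) : Prop :=
  ∀ S' ⊆ S, RkS 2 S' ∨
    ∃ v : AbsoluteValue L ℝ, IsAb v ∧ RkS 1 {c | c ∈ S' ∧ ∀ b ∈ S', v b ≤ v c}

/-- all classes of proportional roots of `F` are tame -/
def TameR (F : ℤ[X][X]) : Prop :=
  ∀ a : Om, IsRt F a → TameS {b : Om | IsRt F b ∧ IsAlgebraic ℤ (b / a)}

/-- TSL (simple properties of tame sets). Proof. (a) Dependence relations and absolute values are restricted
along `ψ` (`ψ` is injective; `v ∘ ψ` is an absolute value, nonarchimedean or given by `φ ∘ ψ`; the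
dominant elements of `S' ⊆ S` for `v ∘ ψ` are mapped to the dominant elements of `ψ '' S'` for `v`). (b), (c): a subset of the image is the
image of its preimage `S''` in `S`; `(x a) / (y a) = x / y`, `v (x a) ≤ v (y a)` iff `v x ≤ v y`;
`(x ^ N / y ^ N) ^ e = ((x / y) ^ e) ^ N`, and `v (x ^ N) ≤ v (y ^ N)` iff `v x ≤ v y` (`N ≥ 1`). (d) Trivial. -/
def StTSL : Prop :=
  (∀ (L L' : Type) [Field L] [Field L'] (ψ : L →+* L') (S : Set L), TameS (ψ '' S) → TameS S) ∧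
  (∀ (L : Type) [Field L] (S : Set L) (a : L), a ≠ 0 → TameS S → TameS ((fun x => x * a) '' S)) ∧
  (∀ (L : Type) [Field L] (S : Set L) (N : ℕ), 1 ≤ N → TameS S → TameS ((fun x => x ^ N) '' S)) ∧
  ∀ (L : Type) [Field L] (S S' : Set L), S ⊆ S' → TameS S' → TameS S

/-- TPL (places). Proof. If `v x = ‖φ x‖` take for `w` the absolute value of the infinite place of `φ` (a member of
`archAbsVal`). Let `v` be nonarchimedean. `v x ≤ 1` for all `x ∈ 𝓞 K` (a monic equation with integer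
coefficients, and `v m ≤ 1` for integers `m`). `P = {x ∈ 𝓞 K | v x < 1}` is a prime ideal, not zero (`v` is not trivial
and every element of `K` is a quotient of elements of `𝓞 K`). `w` = the absolute value of the finite place `P`
(a member of `nonarchAbsVal`). If `w x ≤ 1` then `x = a / s` with `a, s ∈ 𝓞 K`, `s ∉ P` (the localisation at `P` is the
valuation ring), so `v x ≤ 1`, as `v s = 1`; if moreover `w x < 1` then `a ∈ P` and `v x < 1`. So (also for `1 / x`)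
`v x < 1 ↔ w x < 1`, and `v x < v y ↔ w x < w y` follows for `y ≠ 0` from `x / y`, and for `y = 0` it is trivial. -/
def StTPL : Prop :=
  ∀ (K : Type) [Field K] [NumberField K] (v : AbsoluteValue K ℝ), IsAb v →
    (∃ x, x ≠ 0 ∧ v x ≠ 1) →
    ∃ w : AbsoluteValue K ℝ, Rk.IsPlace w ∧ ∀ x y, v x < v y ↔ w x < w y

/-- TPT (a good place for a tame set). Proof from TPL. Let `μ / ν` be no root of unity. `Rk.exists_place_ne_one`
(`Bd/B04.lean`) gives a place `v₀` with `v₀ (μ / ν) ≠ 1`. (i) Suppose `RkS 2 T`. Take `v₀`. For dominant `x, y, z, w`: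
`v₀ (x / y) = v₀ (z / w) = 1`, and `(x / y) ^ e₀ (z / w) ^ e₁ (μ / ν) ^ e₂ = 1`, `e ≠ 0`; apply `v₀`: `e₂ = 0`
(`zpow_eq_one_iff_right₀`), so `(x / y) ^ e₀ = (z / w) ^ (-e₁)`. (ii) Suppose the second alternative (for the subset `T`),
with `v`. If `v` is constant on `T` then all elements are dominant, `RkS 1 T`; take `v₀` again, any two quotients are dependent. If
`v t ≠ v t'` for some `t, t' ∈ T`, then `v` is not trivial; take the `w` of TPL. By `v x < v y ↔ w x < w y` the `w`-dominant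
elements are `v`-dominant, of rank at most one. -/
def StTPT : Prop :=
  ∀ (K : Type) [Field K] [NumberField K] (T : Finset K), (∀ μ ∈ T, μ ≠ 0) →
    (∃ μ ∈ T, ∃ ν ∈ T, ∀ m : ℕ, 0 < m → (μ / ν) ^ m ≠ 1) → TameS (T : Set K) →
    ∃ v : AbsoluteValue K ℝ, Rk.IsPlace v ∧ (∃ μ ∈ T, ∃ ν ∈ T, v μ ≠ v ν) ∧
      ∀ x ∈ T, ∀ y ∈ T, ∀ z ∈ T, ∀ w ∈ T, (∀ t ∈ T, v t ≤ v x) → (∀ t ∈ T, v t ≤ v y) →
        (∀ t ∈ T, v t ≤ v z) → (∀ t ∈ T, v t ≤ v w) →
          ∃ a b : ℤ, (a ≠ 0 ∨ b ≠ 0) ∧ (x / y) ^ a = (z / w) ^ b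

/-- an algebraic closure of the fraction field of `Zb[t]` -/
abbrev Oz : Type := AlgebraicClosure (FractionRing Zb[X])

/-- `a` is a root of `F` in `Oz` -/
def IsRz (F : ℤ[X][X]) (a : Oz) : Prop :=
  (F.map ((algebraMap Zb[X] Oz).comp (mapRingHom (algebraMap ℤ Zb)))).eval a = 0

/-- TOM (from `Om` to `Ab`). Proof from TSL. `j : Om →+* Oz` a homomorphism which is the natural one on `ℤ[t]` (`Om` is
algebraic over the fraction field of `ℤ[t]`, which is embedded in that of `Zb[t]`). `F` splits in `Om`, so every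
root of `F` in `Oz` is `j` of a root of `F` in `Om` (the same argument is in `Fm/I_EQ1.lean`). `b = j b₀`, `b₀ ≠ 0`
(`F.coeff 0 ≠ 0`). For `c ∈ Ab` the element `κ c` is a root of the minimal polynomial of `c` over `ℚ`, which splits
in `Om`, so `κ c` is in the range of `j`; this gives `ι : Ab →+* Om` with `j (ι c) = κ c`. If `κ c * b` is a root then
`ι c * b₀` is a root of `F` in `Om`, with `(ι c * b₀) / b₀ = ι c` algebraic over `ℤ`. So `ι` maps the set on the right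
into `(fun x => x * b₀⁻¹) '' {b' | IsRt F b' ∧ IsAlgebraic ℤ (b' / b₀)}`, which is tame by TSL (b); TSL (d), (a). -/
def StTOM : Prop :=
  ∀ F : ℤ[X][X], F.Monic → F.coeff 0 ≠ 0 → TameR F → ∀ (κ : Ab →+* Oz) (b : Oz), IsRz F b →
    TameS {c : Ab | IsRz F (κ c * b)}

/-- TBZ (RZB2 with blocks). Proof: the proof of RZB2 (`Fm/I_RZB2.lean`; import it and copy `core`, `main`, `prRZB2`), with
WTG, TOM, TSL. There `G = ∏_(b ∈ T) P_b`, `P_b = minpoly (b ^ N)`, `b ∈ T` representatives. Number the elements of `T`: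
`b_β`, `β : Fin s` (`Finset.equivFin`), `P_β = P_(b_β)`, `kk β` its degree (`≥ 1`). The roots of `P_β` are the `τ(b_β) ^ N`, and
`Wt (e N) P_β` is WTG for `P_β`. The roots `a_j` of `F` (`j : Fin r`, `r = deg F`) are `a_j = κ(c_j) τ_j(b_β)`, `β = bl j`,
`c_j ≠ 0`; `θ_j = (D c_j) ^ N`, `(D a_j) ^ N = θ_j τ_j(b_β) ^ N` is a root of `P_(bl j).scaleRoots (θ_j)`: divisibility as in
RZB2. New: `τ_j⁻¹(a_j) = κ(c_j) b_β` is again a root of `F`, so `c_j` is in the tame set of TOM for `b_β` (and the `κ` of the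
file, `RZB.kap`), and the set of the `θ_j` with `bl j = β` is contained in the image of this tame set under
`x ↦ (x D) ^ N`: TSL (b), (c), (d). -/
def StTBZ : Prop :=
  ∀ (F : ℤ[X][X]) (e : ℕ), F.Monic → 1 ≤ F.natDegree → F.coeff 0 ≠ 0 → Wt e F → TameR F →
    ∃ (N D r s : ℕ) (kk : Fin s → ℕ) (bl : Fin r → Fin s) (θ : Fin r → Zb) (P : Fin s → Zb[X][X]),
      1 ≤ N ∧ 1 ≤ D ∧ 1 ≤ r ∧ (∀ j, θ j ≠ 0) ∧
      (∀ β, (P β).Monic ∧ (P β).natDegree = kk β ∧ 1 ≤ kk β ∧ (P β).coeff 0 ≠ 0 ∧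
        Wt (e * N) (P β)) ∧
      resultant ((∏ β, P β).map (mapRingHom (algebraMap Zb Ab)))
        (derivative ((∏ β, P β).map (mapRingHom (algebraMap Zb Ab)))) ≠ 0 ∧
      (∀ c : Ab, c ≠ 0 → c ≠ 1 → resultant ((∏ β, P β).map (mapRingHom (algebraMap Zb Ab)))
        (((∏ β, P β).map (mapRingHom (algebraMap Zb Ab))).scaleRoots (C c)) ≠ 0) ∧
      ((F.map (mapRingHom (algebraMap ℤ Zb))).scaleRoots (C (D : Zb)) ∣
        expand Zb[X] N (∏ j, (P (bl j)).scaleRoots (C (θ j)))) ∧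
      ∀ β, TameS {x : Ab | ∃ j, bl j = β ∧ x = algebraMap Zb Ab (θ j)}

/-- the block structure of `F` over the number field `K` -/
structure IsBlk (K : Type) [Field K] [NumberField K] (e N D r s : ℕ) (kk : Fin s → ℕ)
    (bl : Fin r → Fin s) (θ : Fin r → 𝓞 K) (P : Fin s → (𝓞 K)[X][X]) (F : ℤ[X][X]) : Prop where
  hN : 1 ≤ N
  hD : 1 ≤ D
  hr : 1 ≤ r
  hθ : ∀ j, θ j ≠ 0
  monic : ∀ β, (P β).Monic
  deg : ∀ β, (P β).natDegree = kk β
  pos : ∀ β, 1 ≤ kk β
  ne : ∀ β, (P β).coeff 0 ≠ 0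
  wt : ∀ β, Wt (e * N) (P β)
  rat : ∃ φ : K →+* ℂ, NonConst ((∏ β, P β).map (mapRingHom (res φ)))
  dvd : (F.map (mapRingHom (algebraMap ℤ (𝓞 K)))).scaleRoots (C (D : 𝓞 K)) ∣
    expand (𝓞 K)[X] N (∏ j, (P (bl j)).scaleRoots (C (θ j)))
  tame : ∀ β, TameS {x : K | ∃ j, bl j = β ∧ x = algebraMap (𝓞 K) K (θ j)}
  spl : ∃ χ : ℤ[X], χ.Monic ∧ χ.coeff 0 ≠ 0 ∧ (χ.map (algebraMap ℤ K)).Splits ∧
    ∀ j, aeval (algebraMap (𝓞 K) K (θ j)) χ = 0

/-- TBH (descent to a number field). Proof: the proof of RZH (`Fm/I_RZH.lean`, import it) with TBZ for RZB2. `χ` = the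
product of the minimal polynomials over `ℤ` of the `θ_j` (monic, `χ(0) ≠ 0` as `θ_j ≠ 0`). `K` = the subfield of `Ab`
generated by the coefficients of the coefficients of the `P_β`, the `θ_j` and all the roots of `χ` in `Ab` (a finite set), so
`χ` splits over `K` (`Ab` is algebraically closed). Descend every `P_β` and `θ_j`; `NonConst` for the product
`∏ P'_β`, whose image is `∏ P_β` (`RZH.nonConst`). `tame`: TSL (a) for the inclusion of `K` in `Ab`. -/
def StTBH : Prop :=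
  ∀ (F : ℤ[X][X]) (e : ℕ), F.Monic → 1 ≤ F.natDegree → F.coeff 0 ≠ 0 → Wt e F → TameR F →
    ∃ (K : Type) (_ : Field K) (_ : NumberField K) (N D r s : ℕ) (kk : Fin s → ℕ)
      (bl : Fin r → Fin s) (θ : Fin r → 𝓞 K) (P : Fin s → (𝓞 K)[X][X]),
      IsBlk K e N D r s kk bl θ P F

/-- TCR (Chinese remainders for coordinates). Proof. `y β n = ∑_(i < kk β) cf (g β) n i * a β i` is in `Sol (g β)`
(`Pd.cf_sol`), so `∑_β y β` is in `Sol (∏ g β)` (`Pd.sol_iff`), a monic polynomial of degree `∑ kk β`, with zero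
initial values: it is zero (`Pd.Sol.eq_zero`). Fix `β` and let `Q = ∏_(γ ≠ β) g γ`, coprime to `g β`. `y β` is in
`Sol (g β)` and, as `y β = -∑_(γ ≠ β) y γ`, in `Sol Q`; with `A (g β) + B Q = 1`: `y β = 0` (`Pd.sol_iff`). For `n < kk β`:
`0 = y β n = a β n` (`Pd.cf_init`). -/
def StTCR : Prop :=
  ∀ (K : Type) [Field K] (s : ℕ) (kk : Fin s → ℕ) (g : Fin s → K[X]), (∀ β, (g β).Monic) →
    (∀ β, (g β).natDegree = kk β) → (∀ β γ, β ≠ γ → IsCoprime (g β) (g γ)) →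
    ∀ a : Fin s → ℕ → K,
      (∀ l < ∑ β, kk β, ∑ β, ∑ i ∈ range (kk β), Pd.cf (g β) l i * a β i = 0) →
      ∀ β, ∀ i < kk β, a β i = 0

/-- the polynomial of the block `β` with constant coefficients -/
noncomputable def fb {R : Type} [CommRing R] {r s : ℕ} (bl : Fin r → Fin s) (θ : Fin r → R)
    (β : Fin s) : R[X] := ∏ j ∈ univ.filter (fun j => bl j = β), (X - C (θ j))

/-- TLF (from block coordinates to coordinates). Proof from TCR. (i) `fb bl θ β` divides `∏_j (X - θ_j)`. (ii)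
`n ↦ cf (g β) n l` is in `Sol (g β)`, so in `Sol (∏ g γ)` (degree `m + 1`), hence `Pd.Sol.expand`:
`cf (g β) n l = ∑_(i ≤ m) cf (∏ g γ) n i * cf (g β) i l`; exchange the sums. (iii) TCR over `K` (`cf` commutes with the
injection of `𝓞 K` in `K`: `Polynomial.map_modByMonic`, the `g β` are monic). -/
def StTLF : Prop :=
  ∀ (K : Type) [Field K] [NumberField K] (m r s : ℕ) (kk : Fin s → ℕ) (bl : Fin r → Fin s)
    (θ : Fin r → 𝓞 K) (g : Fin s → (𝓞 K)[X]), (∀ β, (g β).Monic) →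
    (∀ β, (g β).natDegree = kk β) → ∑ β, kk β = m + 1 →
    (∀ β γ, β ≠ γ → IsCoprime ((g β).map (algebraMap (𝓞 K) K)) ((g γ).map (algebraMap (𝓞 K) K))) →
    ∀ w : Fin s → ℕ → ℕ → 𝓞 K, (∀ β i, Pd.Sol (fb bl θ β) (w β i)) →
    ∃ v : Fin (m + 1) → ℕ → 𝓞 K, (∀ i, Pd.Sol (∏ j, (X - C (θ j))) (v i)) ∧
      (∀ n, ∑ i : Fin (m + 1), Pd.cf (∏ β, g β) n i * v i n =
        ∑ β, ∑ l ∈ range (kk β), Pd.cf (g β) n l * w β l n) ∧
      ∀ n, (∀ i, v i n = 0) → ∀ β, ∀ l < kk β, w β l n = 0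

/-- uniqueness of the block coordinates -/
def UqB {R : Type} [CommRing R] {r s : ℕ} (kk : Fin s → ℕ) (bl : Fin r → Fin s) (θ : Fin r → R)
    (g : Fin s → R[X]) : Prop :=
  ∀ w : Fin s → ℕ → ℕ → R, (∀ β i, Pd.Sol (fb bl θ β) (w β i)) →
    (∀ n, ∑ β, ∑ i ∈ range (kk β), Pd.cf (g β) n i * w β i n = 0) → ∀ β, ∀ i < kk β, w β i = 0

/-- TAD (ADZ with blocks: existence of the block coordinates, with sizes). Proof: as ADZ (`Fm/I_ADZ.lean`, import it),
from PRZ. `r_β` = the number of the `j` with `bl j = β`, the degree of `fb bl θ β`. The unknowns are the `w β i l`, `β : Fin s`,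
`i < kk β`, `l < r_β`: an index type `ι = Σ β, Fin (kk β) × Fin (r_β)` with `∑_β kk β * r_β = ∑_j kk (bl j) =: N`
elements; take an equivalence `en : ι ≃ Fin N` (`Fintype.equivFinOfCardEq`). The matrix `A` on `ι` has the entries
`cf (g β) (en ρ) i * cf (fb bl θ β) (en ρ) l`. A vector in its kernel gives `w β i n = ∑_l cf (fb bl θ β) n l * w_(β,i,l)`
in `Sol (fb bl θ β)` such that `∑_(β,i) cf (g β) n i * w β i n`, which is in
`Sol (∏_j (g (bl j)).scaleRoots (θ_j))` (PRZ for every block, `Pd.sol_iff` for the product of the blocks), monic of degree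
`N`, has zero initial values; so it is zero, and `w = 0` by `UqB`. So `δ = det A ≠ 0`, and `w = adj(A) z`. `w β i = 0` for
`i ≥ kk β`. Sizes as in ADZ, for `l < r_β`; for `r_β ≤ l < r` use `w β i l = ∑_(l' < r_β) cf (fb bl θ β) l l' * w β i l'` (a
constant factor depending on `θ`, `r`). If `N = 0` there is nothing to prove (`z = 0`, `w = 0`, `δ = 1`). -/
def StTAD : Prop :=
  ∀ (K : Type) [Field K] [NumberField K] (r s : ℕ) (kk : Fin s → ℕ) (bl : Fin r → Fin s)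
    (θ : Fin r → 𝓞 K), ∃ (C₀ : ℝ) (s' : ℕ), 1 ≤ C₀ ∧
    ∀ (g : Fin s → (𝓞 K)[X]) (Y : ℝ), (∀ β, (g β).Monic) → (∀ β, (g β).natDegree = kk β) →
    1 ≤ Y → (∀ (φ : K →+* ℂ) β i, ‖res φ ((g β).coeff i)‖ ≤ Y) → UqB kk bl θ g →
    ∀ z : ℕ → 𝓞 K, Pd.Sol (∏ j, (g (bl j)).scaleRoots (θ j)) z →
      ∃ (δ : 𝓞 K) (w : Fin s → ℕ → ℕ → 𝓞 K), δ ≠ 0 ∧ (∀ β i, Pd.Sol (fb bl θ β) (w β i)) ∧
        (∀ n, δ * z n = ∑ β, ∑ i ∈ range (kk β), Pd.cf (g β) n i * w β i n) ∧
        ∀ B : ℝ, 0 ≤ B → (∀ (φ : K →+* ℂ), ∀ n < ∑ j, kk (bl j), ‖res φ (z n)‖ ≤ B) →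
          ∀ (φ : K →+* ℂ) β i, ∀ l < r, ‖res φ (w β i l)‖ ≤ (C₀ * Y) ^ s' * B

/-- TCO (the specialised blocks are coprime). Proof from HB1, HNZ, INT. `G = ∏ P_γ` is separable over `ℂ(t)` (in the
embedding `φ` of `rat`), so the images of `P_β`, `P_γ` over `ℂ(t)` are coprime, their resultant is not zero
(`resultant_ne_zero`), so `ρ = resultant P_β P_γ ∈ (𝓞 K)[t]` is not zero (`resultant_map_map`). For `T` large
`y ≠ 0` and `hev p ρ x y ≠ 0`, `p = deg ρ` (HNZ, INT; `hev 1 1 x y = y`), so `ρ(x / y) ≠ 0` in `K`; this is the resultant of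
`spc P_β (x / y)` and `spc P_γ (x / y)` (monic, the degrees do not change), so these are coprime over `K`
(`resultant_eq_zero_iff`), and so are `hsp (e N) P_β x y = (spc P_β (x / y)).scaleRoots (y ^ (e N))` (HB1 (c), (b))
and the same for `γ` (`scaleRoots` by an invertible element preserves coprimality). -/
def StTCO : Prop :=
  ∀ (K : Type) [Field K] [NumberField K] (e N D r s : ℕ) (kk : Fin s → ℕ) (bl : Fin r → Fin s)
    (θ : Fin r → 𝓞 K) (P : Fin s → (𝓞 K)[X][X]) (F : ℤ[X][X]), IsBlk K e N D r s kk bl θ P F →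
    ∃ T₀ : ℕ, ∀ x y : ℤ, IsCoprime x y → T₀ ≤ mx x y → ∀ β γ, β ≠ γ →
      IsCoprime ((hsp (e * N) (P β) (x : 𝓞 K) (y : 𝓞 K)).map (algebraMap (𝓞 K) K))
        ((hsp (e * N) (P γ) (x : 𝓞 K) (y : 𝓞 K)).map (algebraMap (𝓞 K) K))

/-- **TZB (the block coordinates of a solution and its zeros).** Proof from HZR, TLF, TAD, TCO, HB1, INT. `m + 1 = ∑ kk β`
(`≥ 1` as `r ≥ 1`), `G = ∏ P_β`: `IsCrE m (e N) H G` for a constant `H` (as in `Fm/I_HNR.lean`), and
`hsp (e N) G x y = ∏ hsp (e N) P_β x y` (HB1 (h)). Take `T` so large that HZR and TCO apply (`TT x y = T ^ D'`, all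
`tt = T`; INT). `UqB`: let `w` be in its hypothesis. TLF gives `v` with `∑ cf G n i * v i n = 0` for all `n`, so `v = 0` (HZR,
first part), so `w β l n = 0` for all `n` (TLF, last part). TAD with `Y = C T ^ s` (a bound for the coefficients of the
`hsp (e N) P_β x y`) gives `δ`, `w`, and the sizes `(C₀ Y) ^ s' B ≤ (B T) ^ c` for `B ≥ 1` and `T` large. Zeros: `z` is in
`Sol (∏_j (hsp G x y).scaleRoots (θ_j))` (a multiple), so HZR gives `δ₁ ≠ 0`, `v₁` with `δ₁ z = ∑ cf G * v₁`, and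
`z n = 0`, `(B T) ^ c < T ^ n` imply `v₁ i n = 0`. TLF for the `w` of TAD gives `v` with `δ z = ∑ cf G * v`. Then `δ₁ v - δ v₁` is in the
hypothesis of the uniqueness of HZR, so `δ₁ v = δ v₁`, and `v₁ i n = 0` for all `i` implies `v i n = 0` for all `i`, and
`w β l n = 0` (TLF). -/
def StTZB : Prop :=
  ∀ (K : Type) [Field K] [NumberField K] (e N D r s : ℕ) (kk : Fin s → ℕ) (bl : Fin r → Fin s)
    (θ : Fin r → 𝓞 K) (P : Fin s → (𝓞 K)[X][X]) (F : ℤ[X][X]), IsBlk K e N D r s kk bl θ P F →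
    ∃ T₀ c : ℕ, ∀ x y : ℤ, IsCoprime x y → T₀ ≤ mx x y → ∀ z : ℕ → 𝓞 K,
      Pd.Sol (∏ j, (hsp (e * N) (P (bl j)) (x : 𝓞 K) (y : 𝓞 K)).scaleRoots (θ j)) z →
      ∃ (δ : 𝓞 K) (w : Fin s → ℕ → ℕ → 𝓞 K), δ ≠ 0 ∧ (∀ β i, Pd.Sol (fb bl θ β) (w β i)) ∧
        (∀ n, δ * z n = ∑ β, ∑ i ∈ range (kk β),
          Pd.cf (hsp (e * N) (P β) (x : 𝓞 K) (y : 𝓞 K)) n i * w β i n) ∧
        ∀ B : ℝ, 1 ≤ B → (∀ (φ : K →+* ℂ), ∀ n < (∑ β, kk β) * r, ‖res φ (z n)‖ ≤ B) →
          (∀ (φ : K →+* ℂ) β i, ∀ l < r, ‖res φ (w β i l)‖ ≤ (B * mx x y) ^ c) ∧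
          ∀ n, (B * mx x y) ^ c < (mx x y : ℝ) ^ n → z n = 0 → ∀ β, ∀ i < kk β, w β i n = 0

/-- TEX (exponential polynomials over `K`, with heights). Proof. `f = ∏_(j ∈ S) (X - θ_j)`, of degree `≤ r`. (i) Every
`y ∈ Sol f` over `K` is `∑_x Q_x(n) x ^ n` with `deg Q_x ≤ r`, the sum over the different `x` among the `θ_j`, `j ∈ S`:
induction on `S`. For `S ∪ {j}`, `θ = θ_j`: `y' = E y - θ y` is a solution for `S`, so `y'_n = ∑ Q'_x(n) x ^ n`; for
every `x` there is `R_x` with `x R_x(n + 1) - θ R_x(n) = Q'_x(n)` (for `x ≠ θ` of the same degree, for `x = θ` of degree one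
more: a triangular linear system, or a surjectivity by dimension), and `y_n - ∑ R_x(n) x ^ n` is
in `Sol (X - θ)`, so it is `q θ ^ n`. (ii) Fix these representations `Q^(l)_x` for the basic solutions
`n ↦ cf f n l`, `l < |S|`; then `Q_x = ∑_l y_l Q^(l)_x` for `y` (`Pd.Sol.expand`). (iii) `mulHeight₁ (y_l) ≤ Y ^ (deg K)` for
`y_l ∈ 𝓞 K` with all `‖res φ (y_l)‖ ≤ Y`, `Y ≥ 1` (the finite places contribute `1`), and `mulHeight₁_mul_le`,
`mulHeight₁_sum_le` (used in `Rk/ExpPoly.lean` and `Bd/B04.lean`, `mr_height`). -/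
def StTEX : Prop :=
  ∀ (K : Type) [Field K] [NumberField K] (r : ℕ) (θ : Fin r → 𝓞 K), (∀ j, θ j ≠ 0) →
    ∀ S : Finset (Fin r), ∃ b c : ℕ, ∀ y : ℕ → 𝓞 K, Pd.Sol (∏ j ∈ S, (X - C (θ j))) y →
      ∀ Y : ℕ, 1 ≤ Y → (∀ (φ : K →+* ℂ), ∀ l < r, ‖res φ (y l)‖ ≤ Y) →
      ∃ Q : K → K[X], (∀ x, (Q x).natDegree ≤ r) ∧
        (∀ x i, Height.mulHeight₁ ((Q x).coeff i) ≤ (((b * Y) ^ c : ℕ) : ℝ)) ∧
        ∀ (U : Finset K), (∀ x, x ∈ U ↔ ∃ j ∈ S, x = algebraMap (𝓞 K) K (θ j)) →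
          ∀ n, algebraMap (𝓞 K) K (y n) = ∑ x ∈ U, (Q x).eval (n : K) * x ^ n

/-- **TKZ (zeros of a tame sequence over `K`).** Proof from TEX, TPT, TSL, as `Rk.main_rank_K` (`Bd/B04.lean`; import it).
`M` = an exponent which kills all roots of unity of `K` (`Rk.torsion_bound`, or finiteness). `U` = the set of the `θ_j`,
`j ∈ S`, `Q` of TEX for `y` (`Y` replaced by `Y + 1`). For a residue `j < M`: `T = Rk.mrT U Q M j`, `R = Rk.mrR U Q M j`,
`y_(M n' + j) = ∑_(μ ∈ T) R_μ(M n' + j) μ ^ n'` (`Rk.mr_sum`). If `T` is empty then `y` vanishes on the class of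
`j`. Otherwise `Rk.class_ne_zero` applies for `n' ≥ Bc(s)`: every `μ ∈ T` is `θ_i ^ M` (`Rk.mr_mem`), `χ` of the hypothesis;
`Rk.mr_natDegree`, `Rk.mr_height` bound `R_μ` by an expression `s` in `Y` which is a fixed polynomial in `Y` (all other data
are constants), so `Bc(s)` is `Elem` in `Y` (`Elem.comp` etc.). The last hypothesis of `class_ne_zero`: if `|T| ≥ 2`, then
`μ ≠ ν` in `T` have a quotient which is no root of unity (`μ = a ^ M`, `ν = b ^ M`; if `(μ / ν) ^ m = 1` then `a / b` is a root of unity,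
so `(a / b) ^ M = 1`), and `T` is a subset of `(fun x => x ^ M) '' U`, so it is tame (TSL (c), (d)): TPT.
So for `n = M n' + j` with `n' ≥ Bc(s)`, `y_n = 0` only if `T` is empty, and then `y` vanishes on the class. Choose `h`
with `M (Bc(s) + 1) ≤ tow h Y`. -/
def StTKZ : Prop :=
  ∀ (K : Type) [Field K] [NumberField K] (r : ℕ) (θ : Fin r → 𝓞 K), (∀ j, θ j ≠ 0) →
    (∃ χ : ℤ[X], χ.Monic ∧ χ.coeff 0 ≠ 0 ∧ (χ.map (algebraMap ℤ K)).Splits ∧
      ∀ j, aeval (algebraMap (𝓞 K) K (θ j)) χ = 0) →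
    ∀ S : Finset (Fin r), TameS {x : K | ∃ j ∈ S, x = algebraMap (𝓞 K) K (θ j)} →
    ∃ M h : ℕ, 1 ≤ M ∧ ∀ y : ℕ → 𝓞 K, Pd.Sol (∏ j ∈ S, (X - C (θ j))) y →
      ∀ Y : ℕ, (∀ (φ : K →+* ℂ), ∀ l < r, ‖res φ (y l)‖ ≤ Y) →
      ∀ n, Rk.tow h Y < n → y n = 0 → ∀ i, y (n % M + M * i) = 0

/-- **TNZ (zeros, all tame families).** Proof from TBH, TZB, TKZ, HDV, HB1, SBY, INT. `K`, `N₁`, ... of TBH, `T₁`, `c` of TZB,
`M_β`, `h_β` of TKZ for `S = {j | bl j = β}` (`fb` is the product over this set), `M = ∏ M_β`, `N = N₁ M`. Let `q < N`,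
`q = q₁ + N₁ q₂`, `q₁ < N₁`. As in `Fm/I_HNR.lean` (`HNR.sub_sol`, and the analogue of `HNR.hsp_dvd` for
the product of the blocks, with HB1 (f), (g), (h), HDV): `z n = D ^ (q₁ + N₁ n) u_(q₁ + N₁ n)` is in
`Sol (∏_j (hsp (e N₁) (P (bl j)) x y).scaleRoots (θ_j))`. Let `B` be a bound for the `|u_i|`, `u` not zero, so `B ≥ 1`;
`‖res φ (z n)‖ ≤ (B T) ^ c'` for `n < (∑ kk β) r` (`HNR.grow_h`). Let `u_(q + N n) = 0` with `n > tow h (B + T)`, `h` large. Then
`z_(n') = 0` for `n' = q₂ + M n ≥ n`, and `T ^ n' ≥ 2 ^ n > ((B T) ^ c' T) ^ c` (`T ≥ 2`), so `w β i n' = 0` for all `β`,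
`i < kk β` (TZB), and `n' > tow h_β (Y)`, `Y = ((B T) ^ c' T) ^ c` a bound for the `w β i l`, `l < r`. TKZ: `w β i` vanishes on the class
of `n'` modulo `M_β`, so on the class modulo `M`: `w β i (q₂ + M n'') = 0` for all `n''`, `i < kk β`, so
`δ z_(q₂ + M n'') = 0`, and `u_(q + N n'') = 0` for all `n''` (`D ≠ 0`). (A fixed power of `B T` and a fixed tower of it are
at most `tow h (B + T)` for a large `h`: `Rk.Elem` and its closure properties in `Bd`, `Rk`.) -/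
def StTNZ : Prop :=
  ∀ (F : ℤ[X][X]) (e : ℕ), F.Monic → 1 ≤ F.natDegree → F.coeff 0 ≠ 0 → Wt e F → TameR F →
    ∃ N T₀ h : ℕ, 1 ≤ N ∧ ∀ x y : ℤ, IsCoprime x y → T₀ ≤ mx x y →
      ∀ u : ℕ → ℤ, Rec (RingHom.id ℤ) (hsp e F x y) u → ∀ q < N,
        (∀ n, u (q + N * n) = 0) ∨ ∀ B : ℕ, (∀ i < F.natDegree, (u i).natAbs ≤ B) →
          ∀ n, Rk.tow h (B + mx x y) < n → u (q + N * n) ≠ 0

/-- **TDU (decision).** Proof: as RHP (`Fm/R_RHP.lean`, import it; DEC, `RRHC.exists_lst`, `HDU.cl`, `HDU.isSeq`), with the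
bound `bd = N * tow h (size + T) + N + 1` for the first zero: if `u_(q + N n) = 0` and `u` does not vanish on the class of
`q` then `n ≤ tow h (B + T)` with `B` = the size of the data (`tow` is increasing), otherwise `u_q = 0`. (`tow h` is primitive
recursive: `Rk.primrec_tow` in `Rk/Code.lean`.) -/
def StTDU : Prop :=
  ∀ (F : ℤ[X][X]) (e d : ℕ), F.Monic → F.natDegree = d → 1 ≤ d → F.coeff 0 ≠ 0 → Wt e F →
    ∀ N T₀ h : ℕ, 1 ≤ N →
    (∀ x y : ℤ, IsCoprime x y → T₀ ≤ mx x y →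
      ∀ u : ℕ → ℤ, Rec (RingHom.id ℤ) (hsp e F x y) u → ∀ q < N,
        (∀ n, u (q + N * n) = 0) ∨ ∀ B : ℕ, (∀ i < d, (u i).natAbs ≤ B) →
          ∀ n, Rk.tow h (B + mx x y) < n → u (q + N * n) ≠ 0) →
    ∃ (T₁ : ℕ) (A : List ℤ × (ℤ × ℤ) → Bool), Primrec A ∧
      ∀ x y : ℤ, IsCoprime x y → T₀ ≤ mx x y → T₁ ≤ mx x y → ∀ (v : List ℤ) (u : ℕ → ℤ),
        v.length = d → (∀ i < d, u i = v.getD i 0) → Rec (RingHom.id ℤ) (hsp e F x y) u →
        (A (v, (x, y)) = true ↔ ∃ n, u n = 0)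

end Pool.Agent.Work.MP_8d13b5_lc.Fm
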