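import Pool.Agent.Work.MP_8d13b5_lc.Fm.Defs2

set_option autoImplicit false

/-! Part (2) of the general theorem: the statement `StWRG` of `Fm/Stmts2.lean` (syzygies of small
degree do not exist). The docstrings are the complete proofs; the items are independent. Notation:
`E` is an extension field of `ℂ` with a derivation `D`, `τ` is the image of the variable `t`
(`D τ = 1`), and `lam_0, ..., lam_m` are the roots of `G(τ, X)` in `E`. -/

namespace Pool.Agent.Work.MP_8d13b5_lc.Fm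

open Polynomial NumberField Finset Module

/-- the elements of degree at most `D`: the span over `ℂ` of the monomials `τ ^ i * ∏ lam_j ^ ν_j`
with `i + w * ∑ ν_j ≤ D` -/
noncomputable def Fil {E : Type} [Field E] [Algebra ℂ E] {k : ℕ} (τ : E) (lam : Fin k → E)
    (w D : ℕ) : Submodule ℂ E :=
  Submodule.span ℂ {x | ∃ (i : ℕ) (ν : Fin k → ℕ), i + w * ∑ j, ν j ≤ D ∧
    x = τ ^ i * ∏ j, lam j ^ ν j}

/-- an extension of `ℂ(t)` with a derivation with the constants `ℂ`, and the roots of `G` -/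
structure IsDat (m : ℕ) (G : ℂ[X][X]) {E : Type} [Field E] [Algebra ℂ E]
    (D : Derivation ℤ E E) (τ : E) (lam : Fin (m + 1) → E) : Prop where
  tau : D τ = 1
  dc : ∀ c : ℂ, D (algebraMap ℂ E c) = 0
  const : ∀ x, D x = 0 → ∃ c : ℂ, x = algebraMap ℂ E c
  inj : Function.Injective lam
  split : G.map ((aeval τ : ℂ[X] →ₐ[ℂ] E) : ℂ[X] →+* E) = ∏ j, (X - C (lam j))
  ne : ∀ j, lam j ≠ 0
  quo : ∀ i j, i ≠ j → ∀ c : ℂ, lam i ≠ algebraMap ℂ E c * lam j

/-- DRF (the derivation of `ℂ(t)`). Proof. `RatFunc ℂ` is the fraction field of `ℂ[X]`; quotient rule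
`(a / b)' = (a' b - a b') / b ^ 2` (well defined: if `a s = c b` then `a' s + a s' = c' b + c b'`). Perhaps
there is a derivation of a localisation in Mathlib or in this pool (search `Derivation` and
`FractionRing`, `RatFunc`). Constants: `f = a / b`, `a`, `b` coprime, `a' b = a b'`: `b ∣ b'` so
`b' = 0` (degree), `b` is a constant, so `a' = 0` and `a` is a constant. -/
def StDRF : Prop :=
  ∃ D : Derivation ℤ (RatFunc ℂ) (RatFunc ℂ), D RatFunc.X = 1 ∧
    (∀ c : ℂ, D (algebraMap ℂ (RatFunc ℂ) c) = 0) ∧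
    ∀ f, D f = 0 → ∃ c : ℂ, f = algebraMap ℂ (RatFunc ℂ) c

/-- DEX (extension to a finite extension). Proof: `Differential.differentialFiniteDimensional` and
`Differential.differentialAlgebraFiniteDimensional` in
`Mathlib/FieldTheory/Differential/Basic.lean`, with `Differential F := ⟨D⟩`. -/
def StDEX : Prop :=
  ∀ (F E : Type) [Field F] [Field E] [CharZero F] [Algebra F E] [FiniteDimensional F E]
    (D : Derivation ℤ F F), ∃ D' : Derivation ℤ E E,
      ∀ x, D' (algebraMap F E x) = algebraMap F E (D x)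

/-- DCO (constants of an algebraic extension). Proof. Let `x' = 0`, `M = Y ^ d + ∑ m_i Y ^ i` the minimal
polynomial of `x` over `F`. Differentiate `M(x) = 0`: `∑_(i < d) m_i' x ^ i = 0` (the terms with `x'` are
zero), so all `m_i' = 0` as `d` is minimal, and `m_i ∈ ℂ`. So `x` is algebraic over `ℂ`, which is
algebraically closed: `x ∈ ℂ` (`IsAlgClosed.algebraMap_surjective_of_isIntegral`, or: `M` splits
over `ℂ`). -/
def StDCO : Prop :=
  ∀ (F E : Type) [Field F] [Field E] [Algebra ℂ F] [Algebra ℂ E] [Algebra F E]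
    [IsScalarTower ℂ F E] [FiniteDimensional F E] (D : Derivation ℤ F F)
    (D' : Derivation ℤ E E), (∀ x, D' (algebraMap F E x) = algebraMap F E (D x)) →
    (∀ f, D f = 0 → ∃ c : ℂ, f = algebraMap ℂ F c) →
    ∀ x, D' x = 0 → ∃ c : ℂ, x = algebraMap ℂ E c

/-- DAT (the data exist). Proof from DRF, DEX, DCO. `Ĝ = G.map (algebraMap ℂ[X] (RatFunc ℂ))`, `E` = the splitting
field of `Ĝ` over `RatFunc ℂ` (finite dimensional; `Algebra ℂ E` through `RatFunc ℂ`), `τ` = the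
image of `RatFunc.X`; the map `aeval τ` is the composition `ℂ[X] → RatFunc ℂ → E` (both are `ℂ`-algebra
homomorphisms with the same value at `X`). `Ĝ` is monic, separable and splits in `E`: the roots are
`lam_0, ..., lam_m`, different (`Multiset.toList`, or `Finset.equivFin` of the finset of the roots, of
cardinality `m + 1`). `lam_j ≠ 0` since `G.coeff 0 ≠ 0`. If `lam_i = c lam_j` with `i ≠ j`, `c ∈ ℂ`: `c ≠ 0`, and
`c ≠ 1` by injectivity. `lam_i` is a root of `Ĝ` and of `(G.scaleRoots (C c)).map _` (whose roots in `E` are the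
`c lam`; `Polynomial.scaleRoots_eval₂_eq_zero`), against `NonConst` (coprime polynomials have no common
root in `E`). -/
def StDAT : Prop :=
  ∀ (m : ℕ) (G : ℂ[X][X]), G.Monic → G.natDegree = m + 1 → G.coeff 0 ≠ 0 → NonConst G →
    ∃ (E : Type) (_ : Field E) (_ : Algebra ℂ E) (D : Derivation ℤ E E) (τ : E)
      (lam : Fin (m + 1) → E), IsDat m G D τ lam

/-- FLA (the filtration). Proof. Products of monomials are monomials and the degrees add
(`Submodule.span_induction₂`, or `Submodule.span_mul_span`); `P = ∑ p_i X ^ i`. -/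
def StFLA : Prop :=
  ∀ (E : Type) [Field E] [Algebra ℂ E] (k : ℕ) (τ : E) (lam : Fin k → E) (w : ℕ),
    (∀ d d', d ≤ d' → Fil τ lam w d ≤ Fil τ lam w d') ∧ 1 ∈ Fil τ lam w 0 ∧
    (∀ d d' x y, x ∈ Fil τ lam w d → y ∈ Fil τ lam w d' → x * y ∈ Fil τ lam w (d + d')) ∧
    (∀ P : ℂ[X], aeval τ P ∈ Fil τ lam w P.natDegree) ∧ (∀ j, lam j ∈ Fil τ lam w w) ∧
    ∀ d x (n : ℕ), x ∈ Fil τ lam w d → x ^ n ∈ Fil τ lam w (n * d)

/-- FLD (dimension). Proof. `Fil_d` is the span of the monomials `τ ^ i * ∏ lam_j ^ ν_j` with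
`i + w * ∑ ν_j ≤ d` and all `ν_j ≤ m`: induction on `∑ ν_j`; if `ν_j ≥ m + 1` write
`lam_j ^ (m + 1) = -∑_(i ≤ m) G_i(τ) lam_j ^ i`, a combination of the `τ ^ a lam_j ^ i` with `a ≤ w`, `i ≤ m`; the
new monomials have the degree at most `i + w * ∑ ν_j - w (m + 1) + w m + w`, not larger, and the new
sum of the exponents is smaller. There are at most `(d + 1) (m + 1) ^ (m + 1)` such
monomials. -/
def StFLD : Prop :=
  ∀ (E : Type) [Field E] [Algebra ℂ E] (m : ℕ) (τ : E) (lam : Fin (m + 1) → E) (w : ℕ)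
    (G : ℂ[X][X]), G.Monic → G.natDegree = m + 1 → (∀ i, (G.coeff i).natDegree ≤ w) →
    (∀ j, (G.map ((aeval τ : ℂ[X] →ₐ[ℂ] E) : ℂ[X] →+* E)).eval (lam j) = 0) →
    ∀ d, FiniteDimensional ℂ ↥(Fil τ lam w d) ∧
      finrank ℂ ↥(Fil τ lam w d) ≤ (m + 1) ^ (m + 1) * (d + 1)

/-- FDR (derivation and degree). Proof from FLA. `G_X(τ, lam_j) = ∏_(l ≠ j) (lam_j - lam_l) ≠ 0`. Apply `D` to
`G(τ, lam_j) = 0`: `G_t(τ, lam_j) + G_X(τ, lam_j) D(lam_j) = 0` (`D(P(τ)) = P'(τ)` for `P ∈ ℂ[X]` by `tau` and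
`dc`). `δ = ∏_j (G_X(τ, lam_j) lam_j)`; all of `δ`, `δ D(lam_j)`, `δ D(lam_j) / lam_j` are polynomials in `τ`
and the `lam_l` with complex coefficients, so in `Fil_c` for some `c` (every such polynomial is in some `Fil`; take
the maximum). `D(τ ^ i ∏ lam ^ ν) = i τ ^ (i - 1) ∏ lam ^ ν + ∑_j ν_j τ ^ i ∏ lam ^ (ν - e_j) D(lam_j)`;
multiply by `δ`: in `Fil_(d + c)`. (`D` is additive and `D(a x) = a D(x)` for `a ∈ ℂ`.) -/
def StFDR : Prop :=
  ∀ (m : ℕ) (G : ℂ[X][X]) (E : Type) [Field E] [Algebra ℂ E] (D : Derivation ℤ E E) (τ : E)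
    (lam : Fin (m + 1) → E) (w : ℕ), IsDat m G D τ lam →
    ∃ (δ : E) (c : ℕ), δ ≠ 0 ∧ (∀ d x, x ∈ Fil τ lam w d → δ * D x ∈ Fil τ lam w (d + c)) ∧
      ∀ j, δ * (D (lam j) / lam j) ∈ Fil τ lam w c

/-- ELI (elimination). Proof from FLA by strong induction on the number `s + 1` of the nonzero `a_j`, with the
bound `2 ^ s (d + c)`. Write `θ_j = D(lam_j) / lam_j`; `s = 0` is impossible (`a_j lam_j ^ n = 0`). Let `s ≥ 1`,
`a_p ≠ 0`. If for some `j ≠ p` with `a_j ≠ 0` the quotient `a_j lam_j ^ n / (a_p lam_p ^ n)` has the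
derivative `0` then it is a constant `κ ≠ 0`: `a_j lam_j ^ n = (κ a_p) lam_p ^ n`. Otherwise differentiate
the relation: `∑ (D(a_j) + n θ_j a_j) lam_j ^ n = 0`, and eliminate `p`: with
`b_j = δ (a_p (D(a_j) + n θ_j a_j) - a_j (D(a_p) + n θ_p a_p))` one has `∑ b_j lam_j ^ n = 0`, `b_p = 0`,
`b_j = 0` if `a_j = 0`, and for the other `j` (`a_j ≠ 0`, `j ≠ p`) `b_j ≠ 0`, because
`b_j = δ a_p a_j` times the logarithmic derivative of `a_j lam_j ^ n / (a_p lam_p ^ n)`. So `s` nonzero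
coefficients, in `Fil_(2 d + c)`, and `2 ^ (s - 1) (2 d + c + c) = 2 ^ s (d + c)`. (For `s = 1`
the new relation has one term, which is impossible: so the first case holds.) -/
def StELI : Prop :=
  ∀ (m : ℕ) (G : ℂ[X][X]) (E : Type) [Field E] [Algebra ℂ E] (D : Derivation ℤ E E) (τ : E)
    (lam : Fin (m + 1) → E) (w c : ℕ) (δ : E), IsDat m G D τ lam → δ ≠ 0 →
    (∀ d x, x ∈ Fil τ lam w d → δ * D x ∈ Fil τ lam w (d + c)) →
    (∀ j, δ * (D (lam j) / lam j) ∈ Fil τ lam w c) →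
    ∀ (n d : ℕ) (a : Fin (m + 1) → E), a ≠ 0 → (∀ j, a j ∈ Fil τ lam w d) →
      ∑ j, a j * lam j ^ n = 0 →
      ∃ i j, i ≠ j ∧ ∃ x y : E, x ≠ 0 ∧ y ≠ 0 ∧ x ∈ Fil τ lam w (2 ^ m * (d + c)) ∧
        y ∈ Fil τ lam w (2 ^ m * (d + c)) ∧ x * lam i ^ n = y * lam j ^ n

/-- CNT (counting). Proof from FLA. `n = 0` is trivial; let `n ≥ 1`. `h = lam_i / lam_j` is not in `ℂ`, so
it is transcendental over `ℂ` (`ℂ` is algebraically closed). `x h ^ n = y`. Let `N` be a natural number.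
The `n (N + 1)` elements `z_u = lam_j ^ n x ^ N h ^ u`, `u < n (N + 1)`, are independent over `ℂ`. Write
`u = n v + r`, `r < n`, `v ≤ N`: `x ^ N h ^ (n v) = x ^ (N - v) y ^ v ∈ Fil_(N d)` and
`lam_j ^ n h ^ r = lam_j ^ (n - r) lam_i ^ r ∈ Fil_(w n)`. So `n (N + 1) ≤ q (N d + w n + 1)` for all
`N`. If `n ≥ q d + 1` then `(q d + 1) (N + 1) ≤ q (N d + w n + 1)`, `N + 1 + q d ≤ q (w n + 1)`, false for
`N = q (w n + 1)`. -/
def StCNT : Prop :=
  ∀ (E : Type) [Field E] [Algebra ℂ E] (k : ℕ) (τ : E) (lam : Fin k → E) (w q : ℕ),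
    (∀ d, FiniteDimensional ℂ ↥(Fil τ lam w d) ∧ finrank ℂ ↥(Fil τ lam w d) ≤ q * (d + 1)) →
    ∀ i j, lam j ≠ 0 → (∀ c : ℂ, lam i ≠ algebraMap ℂ E c * lam j) →
    ∀ (n d : ℕ) (x y : E), x ≠ 0 → x ∈ Fil τ lam w d → y ∈ Fil τ lam w d →
      x * lam i ^ n = y * lam j ^ n → n ≤ q * d

/-- VAN (Vandermonde). Proof from FLA. `e_j = (Pd.cf G n j)(τ)`, `V` the Vandermonde matrix `(lam_s ^ j)_(s,j)`,
`∑_j V_(s,j) e_j = lam_s ^ n` (`X ^ n = G * quotient + ∑ cf_j X ^ j`; apply `aeval τ` to the coefficients and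
evaluate at `lam_s`, a root). `a = P(τ) * adj(V)` (row vector): `∑_s a_s lam_s ^ n = P(τ) adj(V) V e =
det V * ∑ P_j(τ) e_j = 0`. `τ` is transcendental over `ℂ` (if `P(τ) = 0`, `P ≠ 0`, `P` splits over `ℂ`, so
`τ ∈ ℂ` and `D τ = 0`), so `P(τ) ≠ 0`, and `a ≠ 0` as `adj(V)` is invertible (`inj`). An entry of
`adj(V)` is the determinant of the matrix with one row or column replaced by a standard vector: a sum of
products of `m + 1` elements of `Fil_(w m)`. -/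
def StVAN : Prop :=
  ∀ (m : ℕ) (G : ℂ[X][X]) (E : Type) [Field E] [Algebra ℂ E] (D : Derivation ℤ E E) (τ : E)
    (lam : Fin (m + 1) → E) (w : ℕ), IsDat m G D τ lam → G.Monic → G.natDegree = m + 1 →
    ∀ (n L : ℕ) (P : Fin (m + 1) → ℂ[X]), P ≠ 0 → (∀ j, (P j).natDegree ≤ L) →
      ∑ j, P j * Pd.cf G n j = 0 →
      ∃ a : Fin (m + 1) → E, a ≠ 0 ∧ (∀ j, a j ∈ Fil τ lam w (L + (m + 1) * (w * m))) ∧
        ∑ j, a j * lam j ^ n = 0

/-- WR2 (assembly; the right side is `StWRG` of `Fm/Stmts2.lean`). Proof. Data `E`, `D`, `τ`, `lam` of DAT, `w`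
= the largest degree of the `G_i`, `δ`, `c` of FDR, `q = (m + 1) ^ (m + 1)` of FLD (the `lam_j` are
roots by `split`). VAN gives `a` in `Fil_(L + c₁)`, `c₁ = (m + 1) w m`; ELI gives `x lam_i ^ n = y lam_j ^ n` with
`x`, `y ∈ Fil_(2 ^ m (L + c₁ + c))`; CNT: `n ≤ q 2 ^ m (L + c₁ + c) ≤ q 2 ^ m (1 + c₁ + c) (L + 1)`. -/
def StWR2 : Prop :=
  StFLA → StFLD → StFDR → StDAT → StELI → StCNT → StVAN →
  ∀ (m : ℕ) (G : ℂ[X][X]), G.Monic → G.natDegree = m + 1 → G.coeff 0 ≠ 0 → NonConst G →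
    ∃ c : ℕ, ∀ (n L : ℕ) (P : Fin (m + 1) → ℂ[X]), P ≠ 0 → (∀ j, (P j).natDegree ≤ L) →
      ∑ j, P j * Pd.cf G n j = 0 → n ≤ c * (L + 1)

end Pool.Agent.Work.MP_8d13b5_lc.Fm
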