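import Pool.Agent.Work.MP_8d13b5_lc.Fm.Stmts2
import Pool.Agent.Work.MP_8d13b5_lc.Fm.StmtsW

set_option autoImplicit false

/-! The statements for the UNIFORM version of the general theorem: the constants depend only on the
field, the order `m + 1` and the degree `σ` in the parameter, and polynomially on the size `H` of the
coefficients. The proofs are those of the items of `Fm/Stmts2.lean`, `Fm/StmtsW.lean`, with all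
constants explicit; the docstrings say only what is new. Start from the landed file of the item named
in the docstring. -/

namespace Pool.Agent.Work.MP_8d13b5_lc.Fm

open Polynomial NumberField Finset Module

/-- families of order `m + 1`, of degree at most `σ` in the parameter, with coefficients of size `H` -/
structure IsCrvH {K : Type} [Field K] [NumberField K] (m σ : ℕ) (H : ℝ) (F : (𝓞 K)[X][X]) :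
    Prop where
  crv : IsCrv m F
  one : 1 ≤ H
  dg : ∀ i ≤ m, (F.coeff i).natDegree ≤ σ
  ht : ∀ (φ : K →+* ℂ), ∀ i ≤ m, pn (res φ) (F.coeff i) ≤ H

/-- VFD. As FDR, with the explicit constant: `G_X(τ, lam_j) ∈ Fil_(w + w m)`, `δ ∈ Fil_((m + 1) (m + 2) w)`,
`G_t(τ, lam_j) ∈ Fil_(w + w (m + 1))`; so `c` depends only on `m`, `w`. -/
def StVFD : Prop :=
  ∀ m w : ℕ, ∃ c : ℕ, ∀ (G : ℂ[X][X]) (E : Type) [Field E] [Algebra ℂ E] (D : Derivation ℤ E E)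
    (τ : E) (lam : Fin (m + 1) → E), G.Monic → G.natDegree = m + 1 →
    (∀ i, (G.coeff i).natDegree ≤ w) → IsDat m G D τ lam →
    ∃ δ : E, δ ≠ 0 ∧ (∀ d x, x ∈ Fil τ lam w d → δ * D x ∈ Fil τ lam w (d + c)) ∧
      ∀ j, δ * (D (lam j) / lam j) ∈ Fil τ lam w c

/-- VWR. As WR2, WRG from VFD, FLA, FLD, DAT, ELI, CNT, VAN: `c = q 2 ^ m (1 + c₁ + c)` depends only on
`m`, `w`. -/
def StVWR : Prop :=
  ∀ m w : ℕ, ∃ c : ℕ, ∀ G : ℂ[X][X], G.Monic → G.natDegree = m + 1 → G.coeff 0 ≠ 0 →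
    NonConst G → (∀ i, (G.coeff i).natDegree ≤ w) →
    ∀ (n L : ℕ) (P : Fin (m + 1) → ℂ[X]), P ≠ 0 → (∀ j, (P j).natDegree ≤ L) →
      ∑ j, P j * Pd.cf G n j = 0 → n ≤ c * (L + 1)

/-- VG1. As GG1 with `Λ` explicit: the bound of SIE is `(C₀ (#ι + 1) Λ ^ n) ^ (q + 1)`. -/
def StVG1 : Prop :=
  ∀ (K : Type) [Field K] [NumberField K] (m e : ℕ), ∀ N₁ : ℕ, 1 ≤ N₁ →
    ∃ (C₁ : ℝ) (s : ℕ), 1 ≤ C₁ ∧ ∀ Λ : ℝ, 1 ≤ Λ → ∀ n : ℕ, 1 ≤ n →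
      ∀ E : Fin (m + 1) → (𝓞 K)[X],
      (∀ j, (E j).natDegree ≤ e * n) → (∀ (φ : K →+* ℂ) j, pn (res φ) (E j) ≤ Λ ^ n) →
      ∀ (ℓ r : ℕ) (Q : Fin r → Fin (m + 1) → K[X]), ℓ ≤ e * n →
      finrank K ↥(DepM Q ⊓ Syz (fun j => (E j).map (algebraMap (𝓞 K) K)) (ℓ + n / N₁)) +
          n / N₁ + 1 ≤
        finrank K ↥(Syz (fun j => (E j).map (algebraMap (𝓞 K) K)) (ℓ + n / N₁)) →
      ∃ P : Fin (m + 1) → (𝓞 K)[X], ∑ j, P j * E j = 0 ∧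
        (∀ j, (P j).natDegree ≤ ℓ + n / N₁) ∧
        (∀ (φ : K →+* ℂ) j, pn (res φ) (P j) ≤ ((C₁ * Λ) ^ s) ^ n) ∧
        (fun j => (P j).map (algebraMap (𝓞 K) K)) ∉ DepM Q

/-- VDI. As DIS with sizes. `Δ` = the determinant of the Sylvester matrix of `F` and its derivative
(resultant), not zero by separability; `U`, `V` from its cofactors (or: solve the linear system for
`U F + V F' = Δ`, `deg U < k - 1`, `deg V < k`, by Cramer's rule over `(𝓞 K)[t]`): determinants of order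
`2 k - 1` with entries of degree `≤ σ` and `pn ≤ k H`. -/
def StVDI : Prop :=
  ∀ (K : Type) [Field K] [NumberField K] (m σ : ℕ), ∃ (C₀ : ℝ) (s : ℕ), 1 ≤ C₀ ∧
    ∀ (H : ℝ) (F : (𝓞 K)[X][X]), IsCrvH m σ H F →
    ∃ (U V : (𝓞 K)[X][X]) (Δ : (𝓞 K)[X]), Δ ≠ 0 ∧ U * F + V * derivative F = C Δ ∧
      Δ.natDegree ≤ s ∧ V.natDegree ≤ s ∧ (∀ j, (V.coeff j).natDegree ≤ s) ∧
      ∀ φ : K →+* ℂ, pn (res φ) Δ ≤ (C₀ * H) ^ s ∧ ∀ j, pn (res φ) (V.coeff j) ≤ (C₀ * H) ^ s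

/-- VCO (Bezout identity with sizes). Proof. Let `F_a`, `a ≤ m`, have the largest degree `σ' ≤ σ` of the `F_i`.
Over `K`, `1` is in the ideal of the `F_i`; reduce the multipliers of the `F_i`, `i ≠ a`, modulo `F_a`:
`∑ A_i F_i = 1` with `deg A_i < σ'` for `i ≠ a` and then `deg A_a < σ'` (if `σ' = 0` all is constant: take
`A_i = 1` for one nonzero `F_i`, `c = F_i`). A linear system over `K` in at most `(m + 1) σ` unknowns with at most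
`2 σ` equations, with coefficients in `𝓞 K` of sizes `≤ H`, which is solvable: it has a solution whose
coordinates have a common denominator `c ≠ 0`, where `c` and the numerators are minors of order
`≤ 2 σ` (Cramer): sizes `≤ (2 σ)! H ^ (2 σ)`. -/
def StVCO : Prop :=
  ∀ (K : Type) [Field K] [NumberField K] (m σ : ℕ), ∃ (C₀ : ℝ) (s : ℕ), 1 ≤ C₀ ∧
    ∀ (H : ℝ) (F : (𝓞 K)[X][X]), IsCrvH m σ H F →
    ∃ (c : 𝓞 K) (A : Fin (m + 1) → (𝓞 K)[X]), c ≠ 0 ∧ ∑ i, A i * F.coeff (i : ℕ) = C c ∧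
      (∀ i, (A i).natDegree ≤ σ) ∧
      ∀ φ : K →+* ℂ, ‖res φ c‖ ≤ (C₀ * H) ^ s ∧ ∀ i, pn (res φ) (A i) ≤ (C₀ * H) ^ s

/-- VSL. As SLP with `p ≤ σ`, `q ≤ m + 1`. -/
def StVSL : Prop :=
  ∀ (R : Type) [CommRing R] (m σ : ℕ) (F : R[X][X]), (∃ i ≤ m, F.coeff i ≠ 0) →
    (∀ i ≤ m, (F.coeff i).natDegree ≤ σ) →
    ∃ p q : ℕ, 1 ≤ q ∧ p ≤ σ ∧ q ≤ m + 1 ∧
      (∀ i ≤ m, q * (F.coeff i).natDegree ≤ p * (m + 1 - i)) ∧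
      ∃ i ≤ m, F.coeff i ≠ 0 ∧ q * (F.coeff i).natDegree = p * (m + 1 - i)

/-- VLO. As LO2 with explicit constants, from VCO. A nonzero `b ∈ 𝓞 K` with all `|φ(b)| ≤ X`, `X ≥ 1`, has
`|φ(b)| ≥ X ^ (-(D - 1))` (norm). (a) `ρ₀ = (C H) ^ s` such that `|F_i(t₀)| ≥ |lc| |t₀| ^ deg / 2` for `|φ(t₀)| ≥ ρ₀`,
`|lc| ≥ H ^ (-(D-1))`; for `|φ(t₀)| ≤ ρ₀` VCO gives some `|F_i(t₀)| ≥ (C H) ^ (-s)`, and
`τ ^ (p (k - i)) ≤ ρ₀ ^ (σ k)`. (b), (c) as in LO2. -/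
def StVLO : Prop :=
  ∀ (K : Type) [Field K] [NumberField K] (m σ : ℕ), ∃ (C₀ : ℝ) (s : ℕ), 1 ≤ C₀ ∧
    ∀ (H : ℝ) (F : (𝓞 K)[X][X]), IsCrvH m σ H F → ∀ p q : ℕ, 1 ≤ q → p ≤ σ → q ≤ m + 1 →
    (∀ i ≤ m, q * (F.coeff i).natDegree ≤ p * (m + 1 - i)) →
    (∃ i ≤ m, F.coeff i ≠ 0 ∧ q * (F.coeff i).natDegree = p * (m + 1 - i)) →
    ∀ (φ : K →+* ℂ) (t₀ : 𝓞 K) (n : ℕ),
      ∃ j : Fin (m + 1), tt φ t₀ 1 ^ (p * n) ≤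
        (C₀ * H) ^ (s * (n + 1)) * ‖res φ ((Pd.cf F n j).eval t₀)‖ ^ q * tt φ t₀ 1 ^ s

/-- VG2. As GG2 from VWR (`w = σ`), VG1, GAP, CFD, ID2: `γ` depends only on `K`, `m`, `σ`, and `Λ ≤ C H` in CFD. (The
hypothesis of VWR for the image of `F` in `ℂ[X][X]`; `natDegree` of the leading coefficient `1` is `0`.) -/
def StVG2 : Prop :=
  ∀ (K : Type) [Field K] [NumberField K] (m σ : ℕ), 1 ≤ m →
    ∃ γ : ℕ, ∀ N₁ : ℕ, 1 ≤ N₁ → ∃ (C₁ : ℝ) (s : ℕ), 1 ≤ C₁ ∧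
    ∀ (H : ℝ) (F : (𝓞 K)[X][X]), IsCrvH m σ H F →
    ∀ n : ℕ, 1 ≤ n → ∃ (ℓ : Fin m → ℕ) (Q : Fin m → Fin (m + 1) → (𝓞 K)[X]),
      (∃ j : Fin (m + 1), ∑ i, ℓ i ≤ (Pd.cf F n j).natDegree) ∧ (∀ i, n ≤ γ * (ℓ i + 1)) ∧
      LinearIndependent (𝓞 K)[X] Q ∧ (∀ i, ∑ j, Q i j * Pd.cf F n j = 0) ∧
      (∀ i j, (Q i j).natDegree ≤ ℓ i + n / N₁) ∧
      ∀ (φ : K →+* ℂ) i j, pn (res φ) (Q i j) ≤ ((C₁ * H) ^ s) ^ n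

/-- VUU. As UUU from VDI, HNX, SNM, MUN, INV, UUA, PN: all sizes `M = (C H τ) ^ s`, `τ = tt φ t₀ 1`, and the factor
from `μ ^ n` is `2 ^ n`. -/
def StVUU : Prop :=
  ∀ (K : Type) [Field K] [NumberField K] (m σ : ℕ), ∃ (C₀ : ℝ) (s : ℕ), 1 ≤ C₀ ∧
    ∀ (H : ℝ) (F : (𝓞 K)[X][X]), IsCrvH m σ H F →
    ∃ Δ : (𝓞 K)[X], Δ ≠ 0 ∧ Δ.natDegree ≤ s ∧ (∀ φ : K →+* ℂ, pn (res φ) Δ ≤ (C₀ * H) ^ s) ∧
    ∀ t₀ : 𝓞 K, Δ.eval t₀ ≠ 0 → ∀ n : ℕ,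
      ∃ U : Fin (m + 1) → Fin (m + 1) → PowerSeries (𝓞 K),
        (∀ i j, PowerSeries.constantCoeff (U i j) = if i = j then 1 else 0) ∧
        (∀ j : Fin (m + 1), ∑ i : Fin (m + 1),
          PowerSeries.C ((Pd.cf F n i).eval t₀) * U i j = tay (Pd.cf F n j) t₀ (Δ.eval t₀)) ∧
        ∀ (φ : K →+* ℂ) i j r, ‖res φ (PowerSeries.coeff r (U i j))‖ ≤
          C₀ ^ n * (C₀ * H * tt φ t₀ 1) ^ (s * (r + 1))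

/-- VVE. As VE2 from VG2, VUU, CRA, ID2, HDQ, CFD, PN. In the sizes `r_i ≤ m n`, so
`(C H) ^ (s (r + 1)) ≤ ((C H) ^ (s (m + 1))) ^ n` for `n ≥ 1`. -/
def StVVE : Prop :=
  ∀ (K : Type) [Field K] [NumberField K] (m σ : ℕ), 1 ≤ m →
    ∃ γ s₁ s₂ : ℕ, ∀ N₁ : ℕ, 1 ≤ N₁ → ∃ (C₁ : ℝ) (s : ℕ), 1 ≤ C₁ ∧
    ∀ (H : ℝ) (F : (𝓞 K)[X][X]), IsCrvH m σ H F →
    ∃ Δ : (𝓞 K)[X], Δ ≠ 0 ∧ Δ.natDegree ≤ s ∧ (∀ φ : K →+* ℂ, pn (res φ) Δ ≤ (C₁ * H) ^ s) ∧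
    ∀ n : ℕ, 1 ≤ n → ∀ t₀ : 𝓞 K, Δ.eval t₀ ≠ 0 →
      ∃ (ℓ r : Fin m → ℕ) (V : Fin m → Fin (m + 1) → 𝓞 K),
        (∃ j : Fin (m + 1), ∑ i, ℓ i ≤ (Pd.cf F n j).natDegree) ∧ (∀ i, n ≤ γ * (ℓ i + 1)) ∧
        ∑ i, r i ≤ m * (n / N₁) ∧ LinearIndependent (𝓞 K) V ∧
        (∀ i, ∑ j, V i j * (Pd.cf F n j).eval t₀ = 0) ∧
        ∀ (φ : K →+* ℂ) i j, ‖res φ (V i j)‖ ≤
          ((C₁ * H) ^ s) ^ n * tt φ t₀ 1 ^ (ℓ i + n / N₁ + s₁ + s₂ * r i)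

/-- VNZ (roots of `Δ`). Proof. A root `t₀ ∈ 𝓞 K` of `Δ ≠ 0` has `|φ(t₀)| ≤ 1 + pn φ Δ / |φ(lc)|` at every `φ`
(Cauchy), and the product of the `|φ(lc)|` is at least `1`, so
`TT t₀ 1 ≤ ∏ (1 + pn φ Δ / |φ(lc)|) ≤ ∏ ((1 + pn φ Δ) max (1, 1 / |φ(lc)|))`, and
`1 / |φ(lc)| ≤ ∏_(ψ ≠ φ) |ψ(lc)| ≤ X ^ (D - 1)`. -/
def StVNZ : Prop :=
  ∀ (K : Type) [Field K] [NumberField K], ∃ s : ℕ, ∀ (Δ : (𝓞 K)[X]) (Y : ℝ), Δ ≠ 0 → 1 ≤ Y →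
    (∀ φ : K →+* ℂ, pn (res φ) Δ ≤ Y) → ∀ t₀ : 𝓞 K, (2 * Y) ^ s < TT t₀ 1 → Δ.eval t₀ ≠ 0

/-- VTH. As TH2 from VVE, END, ID2 (with the `c`, `A` of VCO), VCO, VLO, VSL, CFD, VNZ. -/
def StVTH : Prop :=
  ∀ (K : Type) [Field K] [NumberField K] (m σ : ℕ), 1 ≤ m →
    ∃ (C₁ : ℝ) (s c κ : ℕ), 1 ≤ C₁ ∧ ∀ (H : ℝ) (F : (𝓞 K)[X][X]), IsCrvH m σ H F →
      ∀ t₀ : 𝓞 K, (C₁ * H) ^ s ≤ TT t₀ 1 →
      ∀ (n : ℕ) (a : Fin (m + 1) → 𝓞 K), a ≠ 0 → ∑ j, a j * (Pd.cf F n j).eval t₀ = 0 →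
        TT t₀ 1 ^ n ≤ (((C₁ * H) ^ s) ^ (n + 1) * TT t₀ 1 ^ c * HH a) ^ κ

/-- VSQ. As SQ2 from VTH, CFD. -/
def StVSQ : Prop :=
  ∀ (K : Type) [Field K] [NumberField K] (m σ : ℕ), 1 ≤ m → ∃ c : ℕ, 1 ≤ c ∧
    ∀ (H : ℝ) (F : (𝓞 K)[X][X]), IsCrvH m σ H F →
      ∀ t₀ : 𝓞 K, (c * H) ^ c ≤ TT t₀ 1 →
      ∀ (u : ℕ → 𝓞 K) (B : ℝ), Rec (RingHom.id (𝓞 K)) (spc F t₀) u → 1 ≤ B →
        (∀ (φ : K →+* ℂ), ∀ i ≤ m, ‖res φ (u i)‖ ≤ B) →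
        ∀ n, (B * TT t₀ 1) ^ c < TT t₀ 1 ^ n → u n = 0 → ∀ i, u i = 0

/-- integer families of order `m + 1`, degree at most `σ` and coefficients at most `H` -/
structure IsIF (m σ H : ℕ) (F : ℤ[X][X]) : Prop where
  monic : F.Monic
  deg : F.natDegree = m + 1
  ne : F.coeff 0 ≠ 0
  one : 1 ≤ H
  dg : ∀ i ≤ m, (F.coeff i).natDegree ≤ σ
  ht : ∀ i ≤ m, ∀ j, ((F.coeff i).coeff j).natAbs ≤ H
  cop : ∃ c : ℤ, c ≠ 0 ∧ ∃ A : Fin (m + 1) → ℤ[X], ∑ i, A i * F.coeff (i : ℕ) = C c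
  rat : NonConst (F.map (mapRingHom (Int.castRingHom ℂ)))

/-- VFI. As FI2 from VSQ (`K = ℚ`; `pn ≤ (σ + 1) H`). -/
def StVFI : Prop :=
  ∀ m σ : ℕ, 1 ≤ m → ∃ c : ℕ, 1 ≤ c ∧ ∀ (H : ℕ) (F : ℤ[X][X]), IsIF m σ H F →
    ∀ t : ℤ, (c * H) ^ c ≤ t.natAbs → ∀ u : ℕ → ℤ, Rec (RingHom.id ℤ) (spc F t) u →
      (∀ n, u n = 0) ∨ ∀ B n : ℕ, (∀ i ≤ m, (u i).natAbs ≤ B) →
        (B * t.natAbs) ^ c < t.natAbs ^ n → u n ≠ 0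

/-- the class for the decision procedure: for a family `F` of order `m + 1`, degree `≤ σ` and
coefficients `≤ H`, and an integer `t` with `|t| ≥ (B H) ^ B`, all the subsequences `u_(q + N n)`, `q < N`, satisfy
the recurrence with the characteristic polynomial `F(t, X)` -/
def InGen (m σ B N : ℕ) (u : ℕ → ℤ) : Prop :=
  ∃ (H : ℕ) (F : ℤ[X][X]) (t : ℤ), IsIF m σ H F ∧ (B * H) ^ B ≤ t.natAbs ∧
    ∀ q < N, Rec (RingHom.id ℤ) (spc F t) (fun n => u (q + N * n))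

/-- VDE (one decision procedure for all orders). As DE2, PC from VFI and DEC. `B₀ = c + m + 2` with the `c` of VFI;
for `B ≥ B₀`, `(c H) ^ c ≤ (B H) ^ B`, `|t| ≥ B ≥ 2`. A zero `n` of a subsequence which is not identically zero
has `|t| ^ n ≤ (B' |t|) ^ c`, `B' = 2 ^ (N (m + 2) lsize p)`, so `n ≤ B (B * B * (size p + 3) + 1)`; so `u` has a zero
if and only if it has one below `bd (p, B) = B (B (B * B * (size p + 3) + 1) + 2) + B`. -/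
def StVDE : Prop :=
  ∃ M : (List ℤ × List ℤ) × ℕ → Bool, Primrec M ∧
    ∀ m σ : ℕ, 1 ≤ m → ∃ B₀ : ℕ, ∀ B N : ℕ, B₀ ≤ B → 1 ≤ N → N ≤ B →
      ∀ (p : List ℤ × List ℤ) (u : ℕ → ℤ), Pd.IsSeq p u → InGen m σ B N u →
        (M (p, B) = true ↔ ∃ n, u n = 0)

end Pool.Agent.Work.MP_8d13b5_lc.Fm
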