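import Pool.Agent.Work.MP_8d13b5_lc.Fm.StmtsU
import Pool.Agent.Work.MP_8d13b5_lc.Fm.Defs3

set_option autoImplicit false

/-! The statements for the UNIFORM version WITHOUT the condition `cop` (the coefficients `F_i` may
have common factors). The docstrings are the complete proofs, or say what is new with respect to a
landed item. Notation: `k = m + 1 = deg F`, `b = (m + 1)!`, `F_i = F.coeff i`, `cf_j = Pd.cf F n j`,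
`τ = tt φ t₀ 1`, `T = TT t₀ 1`, `h = n / N₁`. -/

namespace Pool.Agent.Work.MP_8d13b5_lc.Fm

open Polynomial NumberField Finset Module

/-- families of order `m + 1`, of degree at most `σ` in the parameter, with coefficients of size `H` -/
structure IsCr0H {K : Type} [Field K] [NumberField K] (m σ : ℕ) (H : ℝ) (F : (𝓞 K)[X][X]) :
    Prop where
  crv : IsCr0 m F
  one : 1 ≤ H
  dg : ∀ i ≤ m, (F.coeff i).natDegree ≤ σ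
  ht : ∀ (φ : K →+* ℂ), ∀ i ≤ m, pn (res φ) (F.coeff i) ≤ H

/-- the data of `IsPi` with degrees at most `s` and sizes at most `Y` -/
structure IsPiH {K : Type} [Field K] [NumberField K] (m s : ℕ) (Y : ℝ) (F : (𝓞 K)[X][X]) (θ : ℕ)
    (P : (𝓞 K)[X]) (w A : ℕ → (𝓞 K)[X]) (r : 𝓞 K) : Prop where
  pi : IsPi m F (m + 1).factorial θ P w r r
  bz : ∑ i ∈ range (m + 1), A i * w i = C r
  dP : P.natDegree ≤ s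
  dθ : θ ≤ s
  dA : ∀ i, (A i).natDegree ≤ s
  one : 1 ≤ Y
  hr : ∀ φ : K →+* ℂ, ‖res φ r‖ ≤ Y
  hP : ∀ φ : K →+* ℂ, pn (res φ) P ≤ Y
  hw : ∀ φ : K →+* ℂ, ∀ i ≤ m, pn (res φ) (w i) ≤ Y
  hA : ∀ φ : K →+* ℂ, ∀ i ≤ m, pn (res φ) (A i) ≤ Y

/-- CRS (Cramer's rule for a solvable system). Proof. Let `ρ` be the rank of `M` over `K`, and choose `ρ` rows
and `ρ` columns with a minor `c ≠ 0` (`ρ = 0`: `v = 0`, `c = 1`, `x = 0`). Let `x` be the adjugate of this submatrix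
times the corresponding part of `v` on the chosen columns and `0` elsewhere: the equations of the
chosen rows hold. The rows of the augmented matrix `(M | v)` are combinations over `K` of the chosen ones
(its rank is `ρ` as the system is solvable), so all the equations hold. Sizes: at most
`(a + b)! Y ^ (a + b)`. -/
def StCRS : Prop :=
  ∀ (K : Type) [Field K] [NumberField K] (a b : ℕ), ∃ (C₀ : ℝ) (s : ℕ), 1 ≤ C₀ ∧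
    ∀ (Y : ℝ) (M : Fin a → Fin b → 𝓞 K) (v : Fin a → 𝓞 K), 1 ≤ Y →
      (∀ (φ : K →+* ℂ) i j, ‖res φ (M i j)‖ ≤ Y) → (∀ (φ : K →+* ℂ) i, ‖res φ (v i)‖ ≤ Y) →
      (∃ x : Fin b → K, ∀ i, ∑ j, (M i j : K) * x j = (v i : K)) →
      ∃ (c : 𝓞 K) (x : Fin b → 𝓞 K), c ≠ 0 ∧ (∀ i, ∑ j, M i j * x j = c * v i) ∧
        (∀ φ : K →+* ℂ, ‖res φ c‖ ≤ (C₀ * Y) ^ s) ∧
        ∀ (φ : K →+* ℂ) j, ‖res φ (x j)‖ ≤ (C₀ * Y) ^ s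

/-- XPI (the common factor with sizes). Proof from CRS, PN. `b = (m + 1)!`, `h_i = F_i ^ (b / (m + 1 - i))`, `i ≤ m`: degrees
`≤ d₀ = σ b`, `pn ≤ H ^ b`, not all zero. Over `K[t]` let `g` be their monic greatest common divisor, `γ = deg g`,
`g = ∑ A'_i h_i`; we may assume `deg A'_i ≤ d₀`: let `h_a` have the largest degree `d ≤ d₀`, reduce the `A'_i`,
`i ≠ a`, modulo `h_a` (degree `< d`, or zero), and then `A'_a h_a = g - ∑_(i ≠ a) A'_i h_i` has degree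
`≤ 2 d`. So the linear system which says that `∑ A'_i h_i` (unknown coefficients of `A'_i`,
`deg ≤ d₀`) has the coefficients `0` at `t ^ j`, `j > γ`, and `1` at `t ^ γ` is solvable, and CRS gives `A_i`
over `𝓞 K` and `c ≠ 0` such that `P = ∑ A_i h_i` has the degree `γ` and the leading coefficient `c`;
`P` is a multiple of `g` of the same degree, so `P = c g`. Next `h_i = P x_i` is solvable over `K`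
(a linear system with entries coefficients of `P`); CRS gives `c_i h_i = P x_i` over `𝓞 K`. `r₁ = ∏ c_l`,
`w_i = x_i ∏_(l ≠ i) c_l`: `r₁ h_i = P w_i`. `∑ A_i r₁ h_i = r₁ P`, so `∑ A_i w_i = r₁`. So `r = r₁`. The degrees:
`deg w_i ≤ d₀`. `θ` = the largest degree of the `w_i`; some `w_i` of this degree is not zero. -/
def StXPI : Prop :=
  ∀ (K : Type) [Field K] [NumberField K] (m σ : ℕ), ∃ (C₀ : ℝ) (s : ℕ), 1 ≤ C₀ ∧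
    ∀ (H : ℝ) (F : (𝓞 K)[X][X]), 1 ≤ H → (∃ i ≤ m, F.coeff i ≠ 0) →
      (∀ i ≤ m, (F.coeff i).natDegree ≤ σ) →
      (∀ (φ : K →+* ℂ), ∀ i ≤ m, pn (res φ) (F.coeff i) ≤ H) →
      ∃ (θ : ℕ) (P : (𝓞 K)[X]) (w A : ℕ → (𝓞 K)[X]) (r : 𝓞 K),
        IsPiH m s ((C₀ * H) ^ s) F θ P w A r

/-- WT3 (weights). Proof. For a natural number `v` let `D_v = {x : P ^ v ∣ x ^ b}`. (i) `D_v` is closed under
sums: in `(x + y) ^ b = ∑ _ x ^ a y ^ (b - a)` one has `(P ^ v) ^ b ∣ (x ^ a y ^ (b - a)) ^ b`, so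
`P ^ v ∣ x ^ a y ^ (b - a)` (`k[X]` is integrally closed: `IsIntegrallyClosed.pow_dvd_pow_iff`, or unique
factorisation). (ii) `D_v D_w ⊆ D_(v + w)`, `D_w ⊆ D_v` for `v ≤ w`. (iii) `F_i ∈ D_(m + 1 - i)`
(`F_i ^ b = (F_i ^ (b / (m + 1 - i))) ^ (m + 1 - i)`). By CFD `cf_(n+1,0) = -cf_(n,m) F_0` and
`cf_(n+1,j+1) = cf_(n,j) - cf_(n,m) F_(j+1)`, so `cf_(n,j) ∈ D_(n - j)` by induction
(`(n - m) + (m - j) ≥ n - j` and `(n - m) + (m + 1) ≥ n + 1`; natural subtraction; `n = 0`: `D_0` is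
everything). With `v = (n - j) / b`: `(P ^ v) ^ b ∣ P ^ (n - j) ∣ cf_j ^ b`, so `P ^ v ∣ cf_j`. -/
def StWT3 : Prop :=
  ∀ (k : Type) [Field k] (m b : ℕ) (F : k[X][X]) (P : k[X]), F.Monic → F.natDegree = m + 1 →
    1 ≤ b → (∀ i ≤ m, (m + 1 - i) ∣ b ∧ P ∣ F.coeff i ^ (b / (m + 1 - i))) →
    ∀ n, ∀ j ≤ m, P ^ ((n - j) / b) ∣ Pd.cf F n j

/-- XEE (the primitive part of the vector of the `cf_j`). Proof from WT3, CFD. `G` = the greatest common divisor of the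
`cf_j` over `K[t]`, `cf_j = G E_j`, `D` = the largest degree of the `E_j`. The `cf_j` are not all
zero: otherwise `F ∣ X ^ n` (`modByMonic`), so `F = X ^ (m + 1)`, against `F.coeff 0 ≠ 0`. By WT3 for `F`
and `P` over `K` (`C r₁ * F_i ^ _ = P w_i`, `r₁` a unit of `K`) `P ^ ((n - m) / b) ∣ G`. With
`p = θ + deg P`: `deg (F_i ^ (b / (m + 1 - i))) = deg P + deg w_i ≤ p` if `F_i ≠ 0`, so `b deg F_i ≤ p (m + 1 - i)`, and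
CFD (with `q = b`) gives `b deg cf_j ≤ p n`. For the `j` with `deg E_j = D`, `E_j ≠ 0`:
`b D = b deg cf_j - b deg G ≤ p n - b ((n - m) / b) deg P ≤ p n - (n - m - b) deg P ≤ θ n + (m + b) deg P`. -/
def StXEE : Prop :=
  ∀ (K : Type) [Field K] [NumberField K] (m : ℕ) (F : (𝓞 K)[X][X]) (b θ : ℕ) (P : (𝓞 K)[X])
    (w : ℕ → (𝓞 K)[X]) (r₁ r₂ : 𝓞 K), F.Monic → F.natDegree = m + 1 → F.coeff 0 ≠ 0 →
    IsPi m F b θ P w r₁ r₂ → ∀ n, ∃ (D : ℕ) (G : K[X]) (E A : Fin (m + 1) → K[X]),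
      G ≠ 0 ∧ (∀ j : Fin (m + 1), (Pd.cf F n j).map (algebraMap (𝓞 K) K) = G * E j) ∧
      ∑ j, A j * E j = 1 ∧ (∀ j, (E j).natDegree ≤ D) ∧ (∃ j, D ≤ (E j).natDegree) ∧
      b * D ≤ θ * n + (m + b) * P.natDegree

/-- XLO (lower bound). Proof: as LO2, VLO. A nonzero `x ∈ 𝓞 K` with all `|φ(x)| ≤ Y` has `|φ(x)| ≥ Y ^ (-(D' - 1))`, `D'` the
degree of `K`. (a) For all `φ`, `t₀` some `i ≤ m` satisfies `‖φ(w_i(t₀))‖ ≥ (C Y) ^ (-s') τ ^ θ`: for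
`|φ(t₀)| ≥ ρ₀ = (C Y) ^ s'` the `i` of `top` (leading coefficient `≥ Y ^ (-(D'-1))`), for `|φ(t₀)| ≤ ρ₀` by `bz`:
`‖φ(r)‖ ≤ ∑ ‖φ(A_i(t₀))‖ ‖φ(w_i(t₀))‖`. So `‖φ(r)‖ ‖φ(F_i(t₀))‖ ^ (b / (m + 1 - i)) ≥ (C Y) ^ (-s') ‖φ(P(t₀))‖ τ ^ θ`.
(b) `z` the root of RTB for `spc F t₀` at `φ`: `‖φ(F_i(t₀))‖ ≤ 2 ^ k ‖z‖ ^ (k - i)`, so
`‖z‖ ^ b ≥ (C Y) ^ (-s') ‖φ(P(t₀))‖ τ ^ θ`; `‖z‖ ≤ (C Y) ^ s' τ ^ s'`. (c) `z ^ n = ∑_j φ(cf_j(t₀)) z ^ j`, so some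
`j` has `‖φ(cf_j(t₀))‖ ≥ ‖z‖ ^ n / (k (1 + ‖z‖) ^ m)`; take the power `b`. -/
def StXLO : Prop :=
  ∀ (K : Type) [Field K] [NumberField K] (m s : ℕ), ∃ (C₀ : ℝ) (s' : ℕ), 1 ≤ C₀ ∧
    ∀ (Y : ℝ) (F : (𝓞 K)[X][X]) (θ : ℕ) (P : (𝓞 K)[X]) (w A : ℕ → (𝓞 K)[X]) (r : 𝓞 K),
      F.Monic → F.natDegree = m + 1 → (∀ i ≤ m, (F.coeff i).natDegree ≤ s) →
      (∀ (φ : K →+* ℂ), ∀ i ≤ m, pn (res φ) (F.coeff i) ≤ Y) → IsPiH m s Y F θ P w A r →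
      ∀ (φ : K →+* ℂ) (t₀ : 𝓞 K) (n : ℕ), ∃ j : Fin (m + 1),
        ‖res φ (P.eval t₀)‖ ^ n * tt φ t₀ 1 ^ (θ * n) ≤
          (C₀ * Y) ^ (s' * (n + 1)) * ‖res φ ((Pd.cf F n j).eval t₀)‖ ^ (m + 1).factorial *
            tt φ t₀ 1 ^ s'

/-- XG2 (greedy). Proof: as GG2, VG2, with GAP for the vector `E` and `N = D'` = the largest degree of the `E_j`, `D' ≤ D`;
`Syz E L = Syz (cf_j) L` since `cf_j = G E_j` with `G ≠ 0`. A nonzero vector of `Syz_(ℓ_i)` over `K` becomes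
a vector over `ℂ` by an embedding `φ` of `rat`, and VWR gives `n ≤ γ (ℓ_i + 1)`. VG1 for the vector `cf_j`
(`ℓ_i ≤ D' ≤ e n`: `E ≠ 0`, and `deg E_j ≤ deg cf_j ≤ e n` if `E_j ≠ 0`). -/
def StXG2 : Prop :=
  ∀ (K : Type) [Field K] [NumberField K] (m σ : ℕ), 1 ≤ m →
    ∃ γ : ℕ, ∀ N₁ : ℕ, 1 ≤ N₁ → ∃ (C₁ : ℝ) (s : ℕ), 1 ≤ C₁ ∧
    ∀ (H : ℝ) (F : (𝓞 K)[X][X]), IsCr0H m σ H F →
    ∀ n : ℕ, 1 ≤ n → ∀ (D : ℕ) (G : K[X]) (E : Fin (m + 1) → K[X]), G ≠ 0 → E ≠ 0 →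
      (∀ j : Fin (m + 1), (Pd.cf F n j).map (algebraMap (𝓞 K) K) = G * E j) →
      (∀ j, (E j).natDegree ≤ D) →
      ∃ (ℓ : Fin m → ℕ) (Q : Fin m → Fin (m + 1) → (𝓞 K)[X]),
        ∑ i, ℓ i ≤ D ∧ (∀ i, n ≤ γ * (ℓ i + 1)) ∧ (∀ i, ℓ i ≤ σ * n) ∧
        LinearIndependent (𝓞 K)[X] Q ∧ (∀ i, ∑ j, Q i j * Pd.cf F n j = 0) ∧
        (∀ i j, (Q i j).natDegree ≤ ℓ i + n / N₁) ∧
        ∀ (φ : K →+* ℂ) i j, pn (res φ) (Q i j) ≤ ((C₁ * H) ^ s) ^ n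

/-- XDI: the statement `StVDI` for `IsCr0H` (the proof does not use `cop`). -/
def StXDI : Prop :=
  ∀ (K : Type) [Field K] [NumberField K] (m σ : ℕ), ∃ (C₀ : ℝ) (s : ℕ), 1 ≤ C₀ ∧
    ∀ (H : ℝ) (F : (𝓞 K)[X][X]), IsCr0H m σ H F →
    ∃ (U V : (𝓞 K)[X][X]) (Δ : (𝓞 K)[X]), Δ ≠ 0 ∧ U * F + V * derivative F = C Δ ∧
      Δ.natDegree ≤ s ∧ V.natDegree ≤ s ∧ (∀ j, (V.coeff j).natDegree ≤ s) ∧
      ∀ φ : K →+* ℂ, pn (res φ) Δ ≤ (C₀ * H) ^ s ∧ ∀ j, pn (res φ) (V.coeff j) ≤ (C₀ * H) ^ s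

/-- XUU: the statement `StVUU` for `IsCr0H` (the proof does not use `cop`). -/
def StXUU : Prop :=
  ∀ (K : Type) [Field K] [NumberField K] (m σ : ℕ), ∃ (C₀ : ℝ) (s : ℕ), 1 ≤ C₀ ∧
    ∀ (H : ℝ) (F : (𝓞 K)[X][X]), IsCr0H m σ H F →
    ∃ Δ : (𝓞 K)[X], Δ ≠ 0 ∧ Δ.natDegree ≤ s ∧ (∀ φ : K →+* ℂ, pn (res φ) Δ ≤ (C₀ * H) ^ s) ∧
    ∀ t₀ : 𝓞 K, Δ.eval t₀ ≠ 0 → ∀ n : ℕ,
      ∃ U : Fin (m + 1) → Fin (m + 1) → PowerSeries (𝓞 K),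
        (∀ i j, PowerSeries.constantCoeff (U i j) = if i = j then 1 else 0) ∧
        (∀ j : Fin (m + 1), ∑ i : Fin (m + 1),
          PowerSeries.C ((Pd.cf F n i).eval t₀) * U i j = tay (Pd.cf F n j) t₀ (Δ.eval t₀)) ∧
        ∀ (φ : K →+* ℂ) i j r, ‖res φ (PowerSeries.coeff r (U i j))‖ ≤
          C₀ ^ n * (C₀ * H * tt φ t₀ 1) ^ (s * (r + 1))

/-- XVE (the auxiliary vectors). Proof: the proof of VE2, VVE, from XG2, XUU, CRA, HDQ, PN, CFD. Over `K[t]`: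
by CRA (for `E`, `Q` over `K[t]`) `mnr Q j = c' E_j` with `c' = ∑ A_j mnr Q j ≠ 0`; for the `j` with
`D ≤ deg E_j`: `deg c' + D ≤ ∑ (ℓ_i + h) ≤ D + m h`, so `deg c' ≤ m h`. Let `j₀` be such that
`E_(j₀)(t₀) ≠ 0` (it exists by `∑ A_j E_j = 1`), `ρ ≤ m h` the order of vanishing of `c'` at `t₀`. With `d = Δ(t₀)`,
`W_i(s)_a = ∑_b U_(a,b)(s) tay(Q_(i,b))`, `W_*(s)_a = U_(a,j₀)(s)`: `∑_a cf_a(t₀) W_i(s)_a =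
∑_b tay(cf_b) tay(Q_(i,b)) = 0`. The determinant of the rows `W_*`, `W_i` is `det(U) * det(e_(j₀); tay Q_i)`, and
(over `K`) `det(e_(j₀); tay Q_i) = ± tay(c') tay(E_(j₀))` has the coefficient of `s ^ ρ` equal to
`± (hasseDeriv ρ c')(t₀) d ^ ρ E_(j₀)(t₀) ≠ 0` and lower coefficients zero; `det U` has the constant
coefficient `1`. HDQ gives `r_*`, `r_i` with sum `ρ` and independent vectors `V_i`. Sizes as in VVE. -/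
def StXVE : Prop :=
  ∀ (K : Type) [Field K] [NumberField K] (m σ : ℕ), 1 ≤ m →
    ∃ γ s₁ s₂ : ℕ, ∀ N₁ : ℕ, 1 ≤ N₁ → ∃ (C₁ : ℝ) (s : ℕ), 1 ≤ C₁ ∧
    ∀ (H : ℝ) (F : (𝓞 K)[X][X]), IsCr0H m σ H F →
    ∃ Δ : (𝓞 K)[X], Δ ≠ 0 ∧ Δ.natDegree ≤ s ∧ (∀ φ : K →+* ℂ, pn (res φ) Δ ≤ (C₁ * H) ^ s) ∧
    ∀ n : ℕ, 1 ≤ n → ∀ (D : ℕ) (G : K[X]) (E A : Fin (m + 1) → K[X]), G ≠ 0 →
      (∀ j : Fin (m + 1), (Pd.cf F n j).map (algebraMap (𝓞 K) K) = G * E j) →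
      ∑ j, A j * E j = 1 → (∀ j, (E j).natDegree ≤ D) → (∃ j, D ≤ (E j).natDegree) →
      ∀ t₀ : 𝓞 K, Δ.eval t₀ ≠ 0 →
      ∃ (ℓ r : Fin m → ℕ) (V : Fin m → Fin (m + 1) → 𝓞 K),
        ∑ i, ℓ i ≤ D ∧ (∀ i, n ≤ γ * (ℓ i + 1)) ∧
        ∑ i, r i ≤ m * (n / N₁) ∧ LinearIndependent (𝓞 K) V ∧
        (∀ i, ∑ j, V i j * (Pd.cf F n j).eval t₀ = 0) ∧
        ∀ (φ : K →+* ℂ) i j, ‖res φ (V i j)‖ ≤
          ((C₁ * H) ^ s) ^ n * tt φ t₀ 1 ^ (ℓ i + n / N₁ + s₁ + s₂ * r i)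

/-- CO3 (denominators). Proof. `n = 0`: `cf f 0 0 = 1`, so `ρ ∈ 𝓞 K`. `n ≥ 1`: in an algebraic closure
of `K` let `ρ' ^ n = ρ`. For every root `λ` of `f`: `(ρ' λ) ^ n = ρ λ ^ n = ∑_j (ρ cf_j) λ ^ j` is integral over
`ℤ`, so `ρ' λ` is. `∏ (X - ρ' λ) = f.scaleRoots ρ'` has integral coefficients: `f_i ρ' ^ (m + 1 - i)`
is integral, so is `f_i ^ (b / (m + 1 - i)) ρ' ^ b`, hence `w ρ' ^ b`, and `w ^ n ρ ^ b`; this is an element of `K`,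
integral, so in `𝓞 K`. -/
def StCO3 : Prop :=
  ∀ (K : Type) [Field K] [NumberField K] (m b n : ℕ) (f : (𝓞 K)[X]) (ρ : K) (w : 𝓞 K), f.Monic →
    f.natDegree = m + 1 → (∀ i ≤ m, (m + 1 - i) ∣ b) →
    (∀ j ≤ m, ∃ z : 𝓞 K, (z : K) = ρ * (Pd.cf f n j : 𝓞 K)) →
    w ∈ Ideal.span {x | ∃ i ≤ m, x = f.coeff i ^ (b / (m + 1 - i))} →
    ∃ z : 𝓞 K, (z : K) = ρ ^ b * (w : K) ^ n

/-- EN3 (END with the denominators of CO3). Proof from EXC, CRA (compare `Fm/I_END.lean`). `U = Function.update V i₀ a`,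
`M_j = mnr U j`, not all zero, `E_i M_j = E_j M_i`. With `E_(j₁) ≠ 0` and `ρ = M_(j₁) / E_(j₁)`: `M_j = ρ E_j` for all `j`,
`ρ ≠ 0`. So there is `z ∈ 𝓞 K`, `z = ρ ^ b w' ≠ 0`, and `∏_φ ‖φ(ρ)‖ ^ b ‖φ(w')‖ ≥ 1` (the norm). With the
`j` of the hypothesis `‖φ(ρ)‖ f(φ) ≤ ‖φ(ρ E_j)‖ = ‖φ(M_j)‖ ≤ m! (∑_l ‖φ(a_l)‖) ∏_(i ≠ i₀) A_i(φ)`. Multiply over `φ` and
take the power `b`. -/
def StEN3 : Prop :=
  ∀ (K : Type) [Field K] [NumberField K] (m b : ℕ) (E a : Fin (m + 1) → 𝓞 K) (w' : 𝓞 K)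
    (V : Fin m → Fin (m + 1) → 𝓞 K) (f : (K →+* ℂ) → ℝ) (A : Fin m → (K →+* ℂ) → ℝ),
    1 ≤ m → a ≠ 0 → E ≠ 0 → w' ≠ 0 → ∑ j, a j * E j = 0 →
    (∀ i, ∑ j, V i j * E j = 0) → LinearIndependent (𝓞 K) V →
    (∀ ρ : K, (∀ j, ∃ z : 𝓞 K, (z : K) = ρ * (E j : K)) →
      ∃ z : 𝓞 K, (z : K) = ρ ^ b * (w' : K)) →
    (∀ φ, 0 ≤ f φ ∧ ∃ j, f φ ≤ ‖res φ (E j)‖) → (∀ i φ j, ‖res φ (V i j)‖ ≤ A i φ) →
    ∃ i₀, (∏ φ, f φ) ^ b ≤ (∏ φ : K →+* ℂ, ‖res φ w'‖) *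
      ((m.factorial : ℝ) ^ finrank ℚ K * HH a * ∏ i ∈ univ.erase i₀, ∏ φ, A i φ) ^ b

/-- **XTH.** Proof: the proof of TH2, VTH, from XPI, XEE, XLO, XVE, CO3, EN3, CFD, VNZ, PN. Data of XPI, `b = (m + 1)!`,
`Y = (C₀ H) ^ s₀`. `T ≥ (C₁ H) ^ s` implies `Δ(t₀) ≠ 0`, `P(t₀) ≠ 0` and `F_0(t₀) ≠ 0` (VNZ). `n = 0`: trivial (`HH a ≥ 1`).
`n ≥ 1`: `D`, `G`, `E`, `A` of XEE, `b D ≤ θ n + (m + b) s₀`; `N₁ = 2 (γ + 1) (1 + s₂) m`, `h = n / N₁`, XVE. EN3 for the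
vector `cf_j(t₀)` (not zero: it is `X ^ n mod spc F t₀`, whose constant coefficient is `F_0(t₀) ≠ 0`),
`w' = (r P(t₀)) ^ n`: the hypothesis is CO3 for `f = spc F t₀` (`cf f n j = cf_j(t₀)`, CFD), with
`r P(t₀) = ∑ A_i(t₀) w_i(t₀) P(t₀) = ∑ A_i(t₀) r F_i(t₀) ^ (b / (m + 1 - i))` in the ideal; `f φ = ‖φ(cf_j(t₀))‖` for
the `j` of XLO; `A i φ = ((C₁ H) ^ s) ^ n τ ^ (ℓ_i + h + s₁ + s₂ r_i)`. With XLO, multiplied over all `φ`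
(`D'` the degree of `K`):
`(∏ ‖φ(P(t₀))‖) ^ n T ^ (θ n) ≤ (C Y) ^ (s' (n+1) D') T ^ s' (∏ ‖φ(r P(t₀))‖) ^ n ((m!) ^ D' HH(a) ((C₁ H) ^ s) ^ (D' m n) T ^ S) ^ b`,
`S = ∑_(i ≠ i₀) (ℓ_i + h + s₁ + s₂ r_i) ≤ D - ℓ_(i₀) + m h (1 + s₂) + m s₁`. Divide by
`(∏ ‖φ(P(t₀))‖) ^ n > 0` and use `b D ≤ θ n + (m + b) s₀`:
`T ^ (b ℓ_(i₀)) ≤ ((C H) ^ s) ^ (n+1) HH(a) ^ b T ^ (b m h (1 + s₂) + c)`. The rest is as in TH2. -/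
def StXTH : Prop :=
  ∀ (K : Type) [Field K] [NumberField K] (m σ : ℕ), 1 ≤ m →
    ∃ (C₁ : ℝ) (s c κ : ℕ), 1 ≤ C₁ ∧ ∀ (H : ℝ) (F : (𝓞 K)[X][X]), IsCr0H m σ H F →
      ∀ t₀ : 𝓞 K, (C₁ * H) ^ s ≤ TT t₀ 1 →
      ∀ (n : ℕ) (a : Fin (m + 1) → 𝓞 K), a ≠ 0 → ∑ j, a j * (Pd.cf F n j).eval t₀ = 0 →
        TT t₀ 1 ^ n ≤ (((C₁ * H) ^ s) ^ (n + 1) * TT t₀ 1 ^ c * HH a) ^ κ

/-- XSQ. As VSQ (`Fm/I_VSQ.lean`, `Fm/I_SQ2.lean`), from XTH, CFD. -/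
def StXSQ : Prop :=
  ∀ (K : Type) [Field K] [NumberField K] (m σ : ℕ), 1 ≤ m → ∃ c : ℕ, 1 ≤ c ∧
    ∀ (H : ℝ) (F : (𝓞 K)[X][X]), IsCr0H m σ H F →
      ∀ t₀ : 𝓞 K, (c * H) ^ c ≤ TT t₀ 1 →
      ∀ (u : ℕ → 𝓞 K) (B : ℝ), Rec (RingHom.id (𝓞 K)) (spc F t₀) u → 1 ≤ B →
        (∀ (φ : K →+* ℂ), ∀ i ≤ m, ‖res φ (u i)‖ ≤ B) →
        ∀ n, (B * TT t₀ 1) ^ c < TT t₀ 1 ^ n → u n = 0 → ∀ i, u i = 0

/-- integer families of order `m + 1`, degree at most `σ` and coefficients at most `H` -/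
structure IsI0 (m σ H : ℕ) (F : ℤ[X][X]) : Prop where
  monic : F.Monic
  deg : F.natDegree = m + 1
  ne : F.coeff 0 ≠ 0
  one : 1 ≤ H
  dg : ∀ i ≤ m, (F.coeff i).natDegree ≤ σ
  ht : ∀ i ≤ m, ∀ j, ((F.coeff i).coeff j).natAbs ≤ H
  rat : NonConst (F.map (mapRingHom (Int.castRingHom ℂ)))

/-- XFI. As VFI (`Fm/I_VFI.lean`), from XSQ. -/
def StXFI : Prop :=
  ∀ m σ : ℕ, 1 ≤ m → ∃ c : ℕ, 1 ≤ c ∧ ∀ (H : ℕ) (F : ℤ[X][X]), IsI0 m σ H F →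
    ∀ t : ℤ, (c * H) ^ c ≤ t.natAbs → ∀ u : ℕ → ℤ, Rec (RingHom.id ℤ) (spc F t) u →
      (∀ n, u n = 0) ∨ ∀ B n : ℕ, (∀ i ≤ m, (u i).natAbs ≤ B) →
        (B * t.natAbs) ^ c < t.natAbs ^ n → u n ≠ 0

/-- XIZ (integers, the inequality of XTH). Proof from XTH for `K = ℚ`, `𝓞 ℚ = ℤ`
(`Rat.ringOfIntegersEquiv`, as in `Fm/I_FI2.lean`): there is one embedding, `TT t 1 = |t|` for `t ≠ 0`,
`HH a = ∑ |a_j|`, `pn ≤ (σ + 1) H`; take `c` large. -/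
def StXIZ : Prop :=
  ∀ m σ : ℕ, 1 ≤ m → ∃ c : ℕ, 1 ≤ c ∧ ∀ (H : ℕ) (F : ℤ[X][X]), IsI0 m σ H F →
    ∀ t : ℤ, (c * H) ^ c ≤ t.natAbs →
      ∀ (n : ℕ) (a : Fin (m + 1) → ℤ), a ≠ 0 → ∑ j, a j * Pd.cf (spc F t) n j = 0 →
        t.natAbs ^ n ≤ (((c * H) ^ c) ^ (n + 1) * t.natAbs ^ c * ∑ j, (a j).natAbs) ^ c

end Pool.Agent.Work.MP_8d13b5_lc.Fm
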