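import Pool.Agent.Work.MP_8d13b5_lc.Fm.StmtsX

set_option autoImplicit false

/-! Multiple roots, quotients of roots that are roots of unity, and the final theorem for EVERY
family `F(t, X)` without a pair of roots whose quotient is a constant and not a root of unity. The
docstrings are the complete proofs. Notation: `k = m + 1`, `cf_i = Pd.cf (spc F t) n i`. -/

namespace Pool.Agent.Work.MP_8d13b5_lc.Fm

open Polynomial NumberField Finset Module

/-- NPY (polynomial times solution). Proof. `Pd.sol_iff`: `Sol P u` iff `P(E) u = 0`, `E` the shift. Let `(T u)_n = n u_n`.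
`E T = T E + E`, so `E ^ j T = T E ^ j + j E ^ j` and `P(E) T = T P(E) + E P'(E)`. If `g ^ j (E) u = 0` then
`g ^ (j+1) (E) T u = g(E) (E (g ^ j)'(E) u) + g(E) T g ^ j (E) u = j E g'(E) g ^ j (E) u = 0`. So `n ^ l s_n` is in `Sol (g ^ (l + 1))`,
which is in `Sol (g ^ M)` for `l < M`; combine the monomials. -/
def StNPY : Prop :=
  ∀ (R : Type) [CommRing R] (g v : R[X]) (M : ℕ) (s : ℕ → R), v.natDegree < M → Pd.Sol g s →
    Pd.Sol (g ^ M) (fun n => v.eval (n : R) * s n)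

/-- KRY (uniqueness). Proof from XIZ (with its `c`; here `c ^ 2 + 1`). Suppose `v ≠ 0`. For all large `n` the vector
`a = (v_i(n))_i` is not zero, so `|t| ^ n ≤ (((c H) ^ c) ^ (n + 1) |t| ^ c A n ^ r) ^ c` with constants `A`, `r`. For
`n → ∞`: `|t| ≤ (c H) ^ (c ^ 2)`, against `|t| ≥ ((c ^ 2 + 1) H) ^ (c ^ 2 + 1)`. -/
def StKRY : Prop :=
  ∀ m σ : ℕ, 1 ≤ m → ∃ c : ℕ, 1 ≤ c ∧ ∀ (H : ℕ) (F : ℤ[X][X]), IsI0 m σ H F →
    ∀ t : ℤ, (c * H) ^ c ≤ t.natAbs → ∀ v : Fin (m + 1) → ℤ[X],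
      (∀ n : ℕ, ∑ i : Fin (m + 1), Pd.cf (spc F t) n i * (v i).eval (n : ℤ) = 0) → v = 0

/-- ADY (existence of the polynomials, with sizes). Proof from NPY. The integer matrix with the rows `n < k M` and the
columns `(i, l)`, `i < k`, `l < M`, entries `cf g n i * n ^ l` (`0 ^ 0 = 1`), is injective: a vector in the
kernel gives polynomials `v_i = ∑_l v_(i,l) X ^ l` such that `∑_i cf g n i * v_i(n)`, a solution of the recurrence
of `g ^ M` (NPY, `Pd.cf_sol`) of degree `k M`, has `k M` zero initial values, so it is zero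
(`Pd.Sol.eq_zero`) and `v = 0` by hypothesis. So `δ` = its determinant (index the rows by the
columns with a bijection) is not `0`, and `δ v = adj * (z_n)_(n < k M)` gives polynomials over `ℤ`
with `δ z_n = ∑_i cf g n i v_i(n)` for `n < k M`, hence for all `n`. Sizes: `|cf g n i| ≤ (1 + k Y) ^ n`. -/
def StADY : Prop :=
  ∀ m M : ℕ, 1 ≤ M → ∃ c : ℕ, ∀ (g : ℤ[X]) (Y : ℕ), g.Monic → g.natDegree = m + 1 → 1 ≤ Y →
    (∀ i, (g.coeff i).natAbs ≤ Y) →
    (∀ v : Fin (m + 1) → ℤ[X], (∀ i, (v i).natDegree < M) →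
      (∀ n : ℕ, ∑ i : Fin (m + 1), Pd.cf g n i * (v i).eval (n : ℤ) = 0) → v = 0) →
    ∀ (z : ℕ → ℤ) (B : ℕ), Pd.Sol (g ^ M) z → (∀ i < (m + 1) * M, (z i).natAbs ≤ B) →
      ∃ (δ : ℤ) (v : Fin (m + 1) → ℤ[X]), δ ≠ 0 ∧ (∀ i, (v i).natDegree < M) ∧
        (∀ n : ℕ, δ * z n = ∑ i : Fin (m + 1), Pd.cf g n i * (v i).eval (n : ℤ)) ∧
        ∀ i l, ((v i).coeff l).natAbs ≤ (c * Y) ^ c * B

/-- the conclusion on the zeros of the sequence `z`, of order `d`, with the multiplicity `M` -/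
def Zer (d M c : ℕ) (t : ℤ) (z : ℕ → ℤ) : Prop :=
  (∀ n, z n = 0) ∨ ∀ B : ℕ, (∀ i < d, (z i).natAbs ≤ B) →
    (∀ n, (B * t.natAbs) ^ c < n → z n ≠ 0) ∧
    ∃ S : Finset ℕ, S.card < M ∧
      ∀ n, (B * t.natAbs) ^ c < t.natAbs ^ n → z n = 0 → n ∈ S

/-- ZRY (zeros, order `≥ 2`). Proof from XIZ, KRY, ADY. `Rec` for a monic polynomial over `ℤ` is `Pd.Sol`. `g = spc F t`
has coefficients of size `≤ Y = (σ + 2) H |t| ^ σ` (the leading one is `1`). KRY gives the hypothesis of ADY. Let `z` be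
not zero; then not all `v_i` are zero (`δ ≠ 0`). (The case `B = 0` is impossible.) Let `z_n = 0`. If all `v_i(n) = 0`
then `n` is in the set `S` of the natural roots of one `v_i ≠ 0` (at most `M - 1` elements), and `n` is at
most the largest coefficient of `v_i` (a nonzero root divides the last nonzero coefficient), so
`n ≤ (c Y) ^ c B`. Otherwise XIZ: `|t| ^ n ≤ (((c H) ^ c) ^ (n + 1) |t| ^ c k M (c Y) ^ c B n ^ M) ^ c`
(`|v_i(n)| ≤ M (c Y) ^ c B n ^ M` for `n ≥ 1`), `n ^ M ≤ 2 ^ (M n)`; for `|t| ≥ (c' H) ^ c'` with `c'` large the factors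
with exponent `n` are `≤ |t| ^ (n / 2)` and `H`, `c ≤ |t|`, so `|t| ^ n ≤ (B |t|) ^ c''`, and `n ≤ |t| ^ n` as `|t| ≥ 2`. -/
def StZRY : Prop :=
  ∀ m σ M : ℕ, 1 ≤ m → 1 ≤ M → ∃ c : ℕ, 1 ≤ c ∧ ∀ (H : ℕ) (F : ℤ[X][X]), IsI0 m σ H F →
    ∀ t : ℤ, (c * H) ^ c ≤ t.natAbs → ∀ z : ℕ → ℤ, Rec (RingHom.id ℤ) (spc F t ^ M) z →
      Zer ((m + 1) * M) M c t z

/-- ZR0 (zeros, order one). Proof from ADY. `F = X - f`, `g = X - a`, `a = f(t)`; `F.coeff 0 = -f ≠ 0`, and `f` has at most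
`σ` roots of size `≤ H` (a nonzero root divides the last nonzero coefficient), so `a ≠ 0` for
`|t| ≥ (c H) ^ c`, `c ≥ 2`. `cf g n 0 = a ^ n`. The hypothesis of ADY: `a ^ n v(n) = 0` for all `n` implies `v = 0`. So
`δ z_n = a ^ n v(n)` with `v ≠ 0` if `z` is not zero: the zeros of `z` are the natural roots of `v`, fewer than `M`,
and at most the largest coefficient of `v`, `≤ (c Y) ^ c B`, `Y = (σ + 2) H |t| ^ σ`. -/
def StZR0 : Prop :=
  ∀ σ M : ℕ, 1 ≤ M → ∃ c : ℕ, 1 ≤ c ∧ ∀ (H : ℕ) (F : ℤ[X][X]), F.Monic → F.natDegree = 1 →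
    F.coeff 0 ≠ 0 → 1 ≤ H → (F.coeff 0).natDegree ≤ σ →
    (∀ j, ((F.coeff 0).coeff j).natAbs ≤ H) →
    ∀ t : ℤ, (c * H) ^ c ≤ t.natAbs → ∀ z : ℕ → ℤ, Rec (RingHom.id ℤ) (spc F t ^ M) z →
      Zer M M c t z

/-- XDE (one decision procedure, simple roots). As VDE (`Fm/I_VDE.lean`) from XFI and DEC. The class: `InGen` with `IsI0` for
`IsIF`. -/
def InG0 (m σ B N : ℕ) (u : ℕ → ℤ) : Prop :=
  ∃ (H : ℕ) (F : ℤ[X][X]) (t : ℤ), IsI0 m σ H F ∧ (B * H) ^ B ≤ t.natAbs ∧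
    ∀ q < N, Rec (RingHom.id ℤ) (spc F t) (fun n => u (q + N * n))

def StXDE : Prop :=
  ∃ A : (List ℤ × List ℤ) × ℕ → Bool, Primrec A ∧
    ∀ m σ : ℕ, 1 ≤ m → ∃ B₀ : ℕ, ∀ B N : ℕ, B₀ ≤ B → 1 ≤ N → N ≤ B →
      ∀ (p : List ℤ × List ℤ) (u : ℕ → ℤ), Pd.IsSeq p u → InG0 m σ B N u →
        (A (p, B) = true ↔ ∃ n, u n = 0)

/-- the class for multiple roots; `T` is a bound for `|t|` -/
def InGY (m σ M B N T : ℕ) (u : ℕ → ℤ) : Prop :=
  ∃ (H : ℕ) (F : ℤ[X][X]) (t : ℤ), IsI0 m σ H F ∧ (B * H) ^ B ≤ t.natAbs ∧ t.natAbs ≤ T ∧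
    ∀ q < N, Rec (RingHom.id ℤ) (spc F t ^ M) (fun n => u (q + N * n))

/-- YDE (one decision procedure, multiple roots). Proof from ZRY, ZR0, DEC (with `Nat.pair B T` for the number `B` of DEC).
`z_n = u_(q + N n)`, `|z_i| ≤ B' = size p ^ (N (k M + 1))` for `i < k M` (`Pd.val_bound`). If `z` is not identically zero
then it has no zero `n > (B' |t|) ^ c`; if it is then `u_q = 0`. So if `u` has a zero it has one below
`N * ((size p ^ (B * (B * B + 1)) * T) ^ B + 2)`, for `B ≥ B₀ = c + (m + 1) M + 2` (`N ≤ B`, `k M ≤ B`), primitive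
recursive in `p`, `B`, `T` (`Primrec.nat_pow` or a fold; `Pd.primrec_size`). -/
def StYDE : Prop :=
  ∃ A : (List ℤ × List ℤ) × (ℕ × ℕ) → Bool, Primrec A ∧
    ∀ m σ M : ℕ, 1 ≤ M → ∃ B₀ : ℕ, ∀ B N : ℕ, B₀ ≤ B → 1 ≤ N → N ≤ B →
      ∀ (p : List ℤ × List ℤ) (u : ℕ → ℤ) (T : ℕ), Pd.IsSeq p u → InGY m σ M B N T u →
        (A (p, (B, T)) = true ↔ ∃ n, u n = 0)

/-- the polynomial `F` over the field `ℂ(t)` -/
noncomputable def hat (F : ℤ[X][X]) : (RatFunc ℂ)[X] :=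
  F.map ((algebraMap ℂ[X] (RatFunc ℂ)).comp (mapRingHom (Int.castRingHom ℂ)))

/-- no two roots of `F` (algebraic functions of `t`) have a constant quotient which is not a root
of unity -/
def NonIso (F : ℤ[X][X]) : Prop :=
  ∀ c : ℂ, c ≠ 0 → (∀ N : ℕ, 1 ≤ N → c ^ N ≠ 1) →
    IsCoprime (hat F) ((hat F).scaleRoots (algebraMap ℂ (RatFunc ℂ) c))

/-- RDA (the polynomial whose roots are the powers `a ^ N`). Proof. `R = ℤ[t]` (integrally closed), `k₀` its fraction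
field, `Ω₀` an algebraic closure. For every root `a` of `F` in `Ω₀` let `P_a = minpoly R (a ^ N)`: monic,
its image over `k₀` is the minimal polynomial (`minpoly.isIntegrallyClosed_eq_field_fractions`).
`G` = the product of the different `P_a`. Different monic irreducible polynomials over `k₀` are
coprime, and they are separable, so `G` is separable over `k₀`. `P_a(0) ≠ 0` as `a ≠ 0`. The roots of
`P_a` are the conjugates of `a ^ N` over `k₀`, so the `σ(a) ^ N` with `σ` an automorphism of `Ω₀` over `k₀`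
(`isConjRoot_iff_exists_algEquiv`), and `σ(a)` is a root of `F`. Every root of `F` is a root of
`expand N G` (`G(X ^ N)`); over `Ω₀` `F` divides `(expand N G) ^ M` for `M = natDegree F`, and `M = 1` if `F` is
separable; this descends to `k₀` and to `R` (`Polynomial.map_dvd_map`, `F` is monic). -/
def StRDA : Prop :=
  ∀ (F : ℤ[X][X]) (N : ℕ), F.Monic → 1 ≤ F.natDegree → F.coeff 0 ≠ 0 → 1 ≤ N →
    ∃ G : ℤ[X][X], G.Monic ∧ 1 ≤ G.natDegree ∧ G.coeff 0 ≠ 0 ∧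
      (G.map (algebraMap ℤ[X] (FractionRing ℤ[X]))).Separable ∧
      (∀ y : AlgebraicClosure (FractionRing ℤ[X]),
        (G.map (algebraMap ℤ[X] (AlgebraicClosure (FractionRing ℤ[X])))).eval y = 0 →
        ∃ a : AlgebraicClosure (FractionRing ℤ[X]), y = a ^ N ∧
          (F.map (algebraMap ℤ[X] (AlgebraicClosure (FractionRing ℤ[X])))).eval a = 0) ∧
      F ∣ (expand ℤ[X] N G) ^ F.natDegree ∧
      ((F.map (algebraMap ℤ[X] (FractionRing ℤ[X]))).Separable → F ∣ expand ℤ[X] N G)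

/-- RDC (choice of `N`; `NonConst`). Proof from RDA. `Ω` an algebraic closure of `ℂ(t)`. `hat F` has finitely many roots in `Ω`,
all nonzero. For every pair of roots `(a, b)` of `hat F` such that `a / b` is a root of unity take the order; `N` = the
product of the orders. `G` from RDA. An embedding `Ω₀ → Ω` over `ℤ[t]` (`IsAlgClosed.lift`, `Ω₀` algebraic over
`k₀`, `k₀ → ℂ(t)`) shows that every root of `G` in `Ω` is `a ^ N` with a root `a` of `hat F` (`G` splits in `Ω₀`), and that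
`hat G` is separable. Let `c ≠ 0, 1` and suppose that `hat G` and its `scaleRoots c` have a common root in `Ω` (if
they are not coprime): `a ^ N = c b ^ N`. `c = c₁ ^ N`, `(a / (c₁ b)) ^ N = 1`, so `a = c₂ b` with `c₂ ∈ ℂ`, `c₂ ^ N = c`
(the `N`-th roots of unity of `Ω` are in `ℂ`). `a` is a common root of `hat F` and `(hat F).scaleRoots c₂`, so by
`NonIso` `c₂` is a root of unity, and its order divides `N`: `c = c₂ ^ N = 1`, a contradiction. (`NonConst` for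
`G.map (mapRingHom (Int.castRingHom ℂ))`: `Polynomial.map_map`, `Polynomial.map_scaleRoots`.) -/
def StRDC : Prop :=
  ∀ F : ℤ[X][X], F.Monic → 1 ≤ F.natDegree → F.coeff 0 ≠ 0 → NonIso F →
    ∃ (N M : ℕ) (G : ℤ[X][X]), 1 ≤ N ∧ 1 ≤ M ∧ G.Monic ∧ 1 ≤ G.natDegree ∧ G.coeff 0 ≠ 0 ∧
      NonConst (G.map (mapRingHom (Int.castRingHom ℂ))) ∧ F ∣ (expand ℤ[X] N G) ^ M ∧
      ((F.map (algebraMap ℤ[X] (FractionRing ℤ[X]))).Separable → M = 1)

/-- SBY (subsequences). Proof. `Pd.sol_iff`: `expand N h (E) = h(E ^ N)` is a multiple of `f(E)`, so `h(E ^ N) u = 0`, and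
`h(E)` applied to `z_n = u_(q + N n)` is `(h(E ^ N) u)_(q + N n) = 0`. -/
def StSBY : Prop :=
  ∀ (R : Type) [CommRing R] (f h : R[X]) (N q : ℕ) (u : ℕ → R), 1 ≤ N → f ∣ expand R N h →
    Pd.Sol f u → Pd.Sol h (fun n => u (q + N * n))

/-- **FNA (every family: zeros).** Proof from RDC, SBY, ZRY, ZR0. `N`, `M`, `G` of RDC, `m = deg G - 1`; `σ`, `H` for `G`.
`Rec` for monic polynomials over `ℤ` is `Pd.Sol`. `spc F t ∣ spc ((expand N G) ^ M) t = expand N (spc G t ^ M)`, so SBY: the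
subsequences `z_n = u_(q + N n)` satisfy the recurrence of `spc G t ^ M`. ZRY (or ZR0 if `deg G = 1`) gives `Zer` for `z`
with the bounds for `|z_i|`, `i < (m + 1) M`; and if `|u_i| ≤ B` for `i < d = deg F` then
`|u_i| ≤ (1 + d Y) ^ i B` with `Y = C |t| ^ s` a bound for the coefficients of `spc F t`, so
`|z_i| ≤ (B |t|) ^ c'` for `|t| ≥ T₀` (`B = 0`: `u = 0`). -/
def StFNA : Prop :=
  ∀ F : ℤ[X][X], F.Monic → 1 ≤ F.natDegree → F.coeff 0 ≠ 0 → NonIso F →
    ∃ N M T₀ c : ℕ, 1 ≤ N ∧ 1 ≤ M ∧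
      ((F.map (algebraMap ℤ[X] (FractionRing ℤ[X]))).Separable → M = 1) ∧
      ∀ t : ℤ, T₀ ≤ t.natAbs → ∀ u : ℕ → ℤ, Rec (RingHom.id ℤ) (spc F t) u → ∀ q < N,
        (∀ n, u (q + N * n) = 0) ∨ ∀ B : ℕ, (∀ i < F.natDegree, (u i).natAbs ≤ B) →
          (∀ n, (B * t.natAbs) ^ c < n → u (q + N * n) ≠ 0) ∧
          ∃ S : Finset ℕ, S.card < M ∧
            ∀ n, (B * t.natAbs) ^ c < t.natAbs ^ n → u (q + N * n) = 0 → n ∈ S

/-- **FND (every family: decision).** Proof from FNA and DEC (or `Pd/Decide.lean`). `d = deg F`. For an input `(t, x)` let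
`p(t, x)` be the pair of the list of the `-F_(d-1-j)(t)`, `j < d`, and of `x` (a primitive recursive function of
`(t, x)`: the `F_i` are fixed polynomials; addition and multiplication of integers are primitive recursive), so
`Pd.IsSeq (p(t, x)) u` (`F_0(t) ≠ 0` for `|t| ≥ T₀`). By FNA, if `u` has a zero then it has one below
`N * ((B |t|) ^ c + 2)`, `B = ∑ |x_i|`: DEC with a bound `bd` in terms of `p` and of the number `|t|`
(in the place of the `B` of DEC): the algorithm is `A(t, x) = A'(p(t, x), |t|)`. -/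
def StFND : Prop :=
  ∀ F : ℤ[X][X], F.Monic → 1 ≤ F.natDegree → F.coeff 0 ≠ 0 → NonIso F →
    ∃ (T₀ : ℕ) (A : ℤ × List ℤ → Bool), Primrec A ∧
      ∀ t : ℤ, T₀ ≤ t.natAbs → ∀ (u : ℕ → ℤ) (x : List ℤ), Rec (RingHom.id ℤ) (spc F t) u →
        x.length = F.natDegree → (∀ i < F.natDegree, u i = x.getD i 0) →
        (A (t, x) = true ↔ ∃ n, u n = 0)

end Pool.Agent.Work.MP_8d13b5_lc.Fm
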