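import Pool.Agent.Work.MP_8d13b5_lc.Fm.StmtsTame
import Pool.Agent.Work.MP_8d13b5_lc.Fm.I_ADZ

set_option autoImplicit false

/-! Item TAD: solutions of the recurrence of `∏ (g (bl j)).scaleRoots (θ_j)` in block coordinates, with
sizes. -/

namespace Pool.Agent.Work.MP_8d13b5_lc.Fm

open Polynomial NumberField Finset Module

namespace TTAD

/-- the number of the `j` with `bl j = β` -/
def rb {r s : ℕ} (bl : Fin r → Fin s) (β : Fin s) : ℕ := (univ.filter fun j => bl j = β).card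

/-- the unknowns -/
abbrev Ix {r s : ℕ} (kk : Fin s → ℕ) (bl : Fin r → Fin s) : Type :=
  Σ β : Fin s, Fin (kk β) × Fin (rb bl β)

theorem card_Ix {r s : ℕ} (kk : Fin s → ℕ) (bl : Fin r → Fin s) :
    Fintype.card (Ix kk bl) = ∑ j, kk (bl j) := by
  rw [Fintype.card_sigma]
  have h1 : ∑ β : Fin s, ∑ j ∈ univ.filter (fun j => bl j = β), kk (bl j) = ∑ j, kk (bl j) :=
    Finset.sum_fiberwise univ bl fun j => kk (bl j)
  rw [← h1]
  refine Finset.sum_congr rfl fun β _ => ?_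
  have h2 : ∀ j ∈ univ.filter (fun j => bl j = β), kk (bl j) = kk β := by
    intro j hj
    rw [(mem_filter.1 hj).2]
  rw [Finset.sum_congr rfl h2, Finset.sum_const, Fintype.card_prod, Fintype.card_fin,
    Fintype.card_fin, smul_eq_mul, mul_comm]
  rfl

theorem rb_le {r s : ℕ} (bl : Fin r → Fin s) (β : Fin s) : rb bl β ≤ r := by
  unfold rb
  calc (univ.filter fun j => bl j = β).card ≤ (univ : Finset (Fin r)).card := card_filter_le _ _
    _ = r := by rw [Finset.card_univ, Fintype.card_fin]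

section ring

variable {R : Type} [CommRing R] {r s : ℕ} (kk : Fin s → ℕ) (bl : Fin r → Fin s) (θ : Fin r → R)
  (g : Fin s → R[X])

theorem fb_monic (β : Fin s) : (fb bl θ β).Monic :=
  monic_prod_of_monic _ _ fun j _ => monic_X_sub_C (θ j)

theorem fb_deg [Nontrivial R] (β : Fin s) : (fb bl θ β).natDegree = rb bl β := by
  unfold fb rb
  rw [natDegree_prod_of_monic _ _ fun j _ => monic_X_sub_C (θ j)]
  simp

/-- products of solutions, for a finite set of factors -/
theorem prz (hPRZ : StPRZ) [Nontrivial R] (p : R[X]) (S : Finset (Fin r)) (x y : ℕ → R)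
    (hp : p.Monic) (hx : Pd.Sol p x) (hy : Pd.Sol (∏ j ∈ S, (X - C (θ j))) y) :
    Pd.Sol (∏ j ∈ S, p.scaleRoots (θ j)) (fun n => x n * y n) := by
  have h1 : ∏ i : Fin S.card, (X - C (θ (S.equivFin.symm i : Fin r))) =
      ∏ j ∈ S, (X - C (θ j)) := by
    rw [← Finset.prod_coe_sort S]
    exact Fintype.prod_equiv S.equivFin.symm _ _ fun i => rfl
  have h2 : ∏ i : Fin S.card, p.scaleRoots (θ (S.equivFin.symm i : Fin r)) =
      ∏ j ∈ S, p.scaleRoots (θ j) := by
    rw [← Finset.prod_coe_sort S]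
    exact Fintype.prod_equiv S.equivFin.symm _ _ fun i => rfl
  rw [← h1] at hy
  rw [← h2]
  exact hPRZ R p S.card (fun i => θ (S.equivFin.symm i : Fin r)) x y hp hx hy

/-- the sequences given by a vector -/
noncomputable def bs (w : Ix kk bl → R) (β : Fin s) (i : Fin (kk β)) (n : ℕ) : R :=
  ∑ l : Fin (rb bl β), w ⟨β, i, l⟩ * Pd.cf (fb bl θ β) n (l : ℕ)

/-- the same, for all indices -/
noncomputable def wv (w : Ix kk bl → R) (β : Fin s) (i n : ℕ) : R :=
  if h : i < kk β then bs kk bl θ w β ⟨i, h⟩ n else 0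

/-- the sequence given by a vector -/
noncomputable def sq (w : Ix kk bl → R) (n : ℕ) : R :=
  ∑ β : Fin s, ∑ i : Fin (kk β), Pd.cf (g β) n i * bs kk bl θ w β i n

theorem bs_sol (w : Ix kk bl → R) (β : Fin s) (i : Fin (kk β)) :
    Pd.Sol (fb bl θ β) (bs kk bl θ w β i) :=
  Pd.Sol.sum _ fun l _ => (Pd.cf_sol (fb_monic bl θ β) (l : ℕ)).smul (w ⟨β, i, l⟩)

theorem wv_sol (w : Ix kk bl → R) (β : Fin s) (i : ℕ) :
    Pd.Sol (fb bl θ β) (wv kk bl θ w β i) := by
  by_cases h : i < kk β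
  · have h1 : wv kk bl θ w β i = bs kk bl θ w β ⟨i, h⟩ := by
      funext n
      exact dif_pos h
    rw [h1]
    exact bs_sol kk bl θ w β ⟨i, h⟩
  · have h1 : wv kk bl θ w β i = fun _ => 0 := by
      funext n
      exact dif_neg h
    rw [h1]
    intro n
    simp

theorem bs_init [Nontrivial R] (w : Ix kk bl → R) (β : Fin s) (i : Fin (kk β))
    (l : Fin (rb bl β)) : bs kk bl θ w β i l = w ⟨β, i, l⟩ := by
  unfold bs
  have h : ∀ l' : Fin (rb bl β), w ⟨β, i, l'⟩ * Pd.cf (fb bl θ β) (l : ℕ) (l' : ℕ) =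
      if l' = l then w ⟨β, i, l'⟩ else 0 := by
    intro l'
    rw [Pd.cf_init (fb_monic bl θ β) (by rw [fb_deg]; exact l.2)]
    by_cases h1 : l' = l
    · rw [if_pos h1, if_pos (congrArg Fin.val h1), mul_one]
    · rw [if_neg h1, if_neg (fun h2 => h1 (Fin.ext h2)), mul_zero]
  rw [Finset.sum_congr rfl fun l' _ => h l', Finset.sum_ite_eq' Finset.univ l,
    if_pos (Finset.mem_univ l)]

theorem sq_eq (w : Ix kk bl → R) (n : ℕ) :
    ∑ β, ∑ i ∈ range (kk β), Pd.cf (g β) n i * wv kk bl θ w β i n = sq kk bl θ g w n := by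
  unfold sq
  refine Finset.sum_congr rfl fun β _ => ?_
  rw [Finset.sum_range]
  refine Finset.sum_congr rfl fun i _ => ?_
  unfold wv
  rw [dif_pos i.2]

/-- the big polynomial -/
theorem G_monic (hg : ∀ β, (g β).Monic) : (∏ j, (g (bl j)).scaleRoots (θ j) : R[X]).Monic :=
  monic_prod_of_monic _ _ fun j _ => (monic_scaleRoots_iff (θ j)).2 (hg (bl j))

theorem G_deg [Nontrivial R] (hg : ∀ β, (g β).Monic) (hd : ∀ β, (g β).natDegree = kk β) :
    (∏ j, (g (bl j)).scaleRoots (θ j) : R[X]).natDegree = ∑ j, kk (bl j) := by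
  rw [natDegree_prod_of_monic _ _ fun j _ => (monic_scaleRoots_iff (θ j)).2 (hg (bl j))]
  simp only [natDegree_scaleRoots, hd]

theorem sq_sol (hPRZ : StPRZ) [Nontrivial R] (hg : ∀ β, (g β).Monic) (w : Ix kk bl → R) :
    Pd.Sol (∏ j, (g (bl j)).scaleRoots (θ j)) (sq kk bl θ g w) := by
  refine Pd.Sol.sum _ fun β _ => Pd.Sol.sum _ fun i _ => ?_
  have h1 := prz θ hPRZ (g β) (univ.filter fun j => bl j = β) (fun n => Pd.cf (g β) n i)
    (bs kk bl θ w β i) (hg β) (Pd.cf_sol (hg β) i) (bs_sol kk bl θ w β i)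
  have h2 : ∏ j ∈ univ.filter (fun j => bl j = β), (g β).scaleRoots (θ j) =
      ∏ j ∈ univ.filter (fun j => bl j = β), (g (bl j)).scaleRoots (θ j) := by
    refine Finset.prod_congr rfl fun j hj => ?_
    rw [(mem_filter.1 hj).2]
  rw [h2] at h1
  have h3 := h1.mul_right (∏ j ∈ univ.filter (fun j => ¬ bl j = β), (g (bl j)).scaleRoots (θ j))
  rwa [Finset.prod_filter_mul_prod_filter_not] at h3

/-- the matrix -/
noncomputable def Am {N : ℕ} (en : Ix kk bl ≃ Fin N) : Matrix (Ix kk bl) (Ix kk bl) R :=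
  fun ρ c => Pd.cf (g c.1) (en ρ : ℕ) (c.2.1 : ℕ) * Pd.cf (fb bl θ c.1) (en ρ : ℕ) (c.2.2 : ℕ)

theorem mulVec_eq {N : ℕ} (en : Ix kk bl ≃ Fin N) (w : Ix kk bl → R) (ρ : Ix kk bl) :
    (Am kk bl θ g en).mulVec w ρ = sq kk bl θ g w (en ρ : ℕ) := by
  unfold sq bs
  simp only [Matrix.mulVec, dotProduct, Am, Fintype.sum_sigma, Fintype.sum_prod_type,
    Finset.mul_sum]
  refine Finset.sum_congr rfl fun β _ => Finset.sum_congr rfl fun i _ =>
    Finset.sum_congr rfl fun l _ => ?_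
  ring

theorem det_ne [IsDomain R] (hPRZ : StPRZ) (hg : ∀ β, (g β).Monic)
    (hd : ∀ β, (g β).natDegree = kk β) (hU : UqB kk bl θ g)
    (en : Ix kk bl ≃ Fin (∑ j, kk (bl j))) : (Am kk bl θ g en).det ≠ 0 := by
  intro hdet
  obtain ⟨w, hw, hw0⟩ := Matrix.exists_mulVec_eq_zero_iff.2 hdet
  apply hw
  have hsol := sq_sol kk bl θ g hPRZ hg w
  have hinit : ∀ n < (∏ j, (g (bl j)).scaleRoots (θ j) : R[X]).natDegree,
      sq kk bl θ g w n = 0 := by
    intro n hn
    rw [G_deg kk bl θ g hg hd] at hn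
    have h1 := mulVec_eq kk bl θ g en w (en.symm ⟨n, hn⟩)
    rw [hw0, Equiv.apply_symm_apply] at h1
    exact h1.symm
  have hz := hsol.eq_zero (G_monic bl θ g hg) hinit
  have h2 := hU (fun β i => wv kk bl θ w β i) (fun β i => wv_sol kk bl θ w β i) (fun n => by
    rw [sq_eq kk bl θ g w n]
    exact hz n)
  funext c
  obtain ⟨β, i, l⟩ := c
  have h3 := congrFun (h2 β i i.2) (l : ℕ)
  have h4 : wv kk bl θ w β i l = bs kk bl θ w β i l := dif_pos i.2
  rw [h4, bs_init] at h3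
  exact h3

end ring

/-- the numerical estimate -/
theorem num (N : ℕ) (W L Y B : ℝ) (hW : 0 ≤ W) (hL : 0 ≤ L) (hY : 1 ≤ Y) (hB : 0 ≤ B) :
    W * ((N : ℝ) * ((N.factorial : ℝ) * ((2 * Y) ^ N * (1 + L) ^ N) ^ N) * B) ≤
      ((W * (N : ℝ) * N.factorial + 1) * (2 * (1 + L)) * Y) ^ (N * N + 1) * B := by
  have e : W * ((N : ℝ) * ((N.factorial : ℝ) * ((2 * Y) ^ N * (1 + L) ^ N) ^ N) * B) =
      (W * (N : ℝ) * N.factorial) * ((2 * (1 + L)) * Y) ^ (N * N) * B := by
    have e1 : ((2 * (1 + L)) * Y) ^ (N * N) = ((2 * Y) ^ N * (1 + L) ^ N) ^ N := by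
      rw [← mul_pow, ← pow_mul]
      congr 1
      ring
    rw [e1]
    ring
  rw [e]
  refine mul_le_mul_of_nonneg_right ?_ hB
  have hA : 0 ≤ W * (N : ℝ) * N.factorial := by positivity
  have hZ : 1 ≤ (2 * (1 + L)) * Y := by nlinarith
  rw [mul_assoc (W * (N : ℝ) * N.factorial + 1), mul_pow (W * (N : ℝ) * N.factorial + 1)]
  refine mul_le_mul ?_ ?_ (by positivity) (by positivity)
  · calc W * (N : ℝ) * N.factorial ≤ (W * (N : ℝ) * N.factorial + 1) ^ 1 := by
          rw [pow_one]; linarith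
      _ ≤ (W * (N : ℝ) * N.factorial + 1) ^ (N * N + 1) :=
          pow_le_pow_right₀ (by linarith) (by omega)
  · exact pow_le_pow_right₀ hZ (by omega)

end TTAD

open TTAD in
theorem prTAD (hPRZ : StPRZ) : StTAD := by
  intro K _ _ r s kk bl θ
  set N : ℕ := ∑ j, kk (bl j) with hN
  set L : ℝ := ∑ φ : K →+* ℂ, ∑ β : Fin s, ∑ i ∈ range (r + 1), ‖res φ ((fb bl θ β).coeff i)‖
    with hL
  have hL0 : 0 ≤ L := Finset.sum_nonneg fun φ _ => Finset.sum_nonneg fun β _ =>
    Finset.sum_nonneg fun i _ => norm_nonneg _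
  have hfL : ∀ (φ : K →+* ℂ) β i, ‖res φ ((fb bl θ β).coeff i)‖ ≤ L := by
    intro φ β i
    by_cases hi : i < r + 1
    · have h1 : ‖res φ ((fb bl θ β).coeff i)‖ ≤ ∑ i ∈ range (r + 1), ‖res φ ((fb bl θ β).coeff i)‖ :=
        Finset.single_le_sum (f := fun i => ‖res φ ((fb bl θ β).coeff i)‖)
          (fun i _ => norm_nonneg _) (mem_range.2 hi)
      have h2 : ∑ i ∈ range (r + 1), ‖res φ ((fb bl θ β).coeff i)‖ ≤
          ∑ β : Fin s, ∑ i ∈ range (r + 1), ‖res φ ((fb bl θ β).coeff i)‖ :=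
        Finset.single_le_sum (f := fun β : Fin s => ∑ i ∈ range (r + 1),
          ‖res φ ((fb bl θ β).coeff i)‖) (fun β _ => Finset.sum_nonneg fun i _ => norm_nonneg _)
          (Finset.mem_univ β)
      have h3 : ∑ β : Fin s, ∑ i ∈ range (r + 1), ‖res φ ((fb bl θ β).coeff i)‖ ≤ L :=
        Finset.single_le_sum (f := fun φ : K →+* ℂ => ∑ β : Fin s, ∑ i ∈ range (r + 1),
          ‖res φ ((fb bl θ β).coeff i)‖) (fun φ _ => Finset.sum_nonneg fun β _ =>
          Finset.sum_nonneg fun i _ => norm_nonneg _) (Finset.mem_univ φ)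
      exact h1.trans (h2.trans h3)
    · rw [coeff_eq_zero_of_natDegree_lt (by
        rw [fb_deg]
        have := rb_le bl β
        omega), map_zero, norm_zero]
      exact hL0
  set W : ℝ := (r : ℝ) * (1 + L) ^ r with hW
  have hW0 : 0 ≤ W := by positivity
  refine ⟨(W * (N : ℝ) * N.factorial + 1) * (2 * (1 + L)), N * N + 1, ?_, ?_⟩
  · have : 0 ≤ W * (N : ℝ) * N.factorial := by positivity
    nlinarith
  intro g Y hg hd hY hc hU z hz
  have hcard : Fintype.card (Ix kk bl) = N := card_Ix kk bl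
  let en : Ix kk bl ≃ Fin N := Fintype.equivFinOfCardEq hcard
  set A := Am kk bl θ g en with hA
  set b : Ix kk bl → 𝓞 K := fun ρ => z (en ρ : ℕ) with hb
  set w : Ix kk bl → 𝓞 K := A.adjugate.mulVec b with hw
  refine ⟨A.det, wv kk bl θ w, det_ne kk bl θ g hPRZ hg hd hU en, wv_sol kk bl θ w, ?_, ?_⟩
  · -- the identity
    have hAw : A.mulVec w = A.det • b := by
      rw [hw, Matrix.mulVec_mulVec, Matrix.mul_adjugate, Matrix.smul_mulVec, Matrix.one_mulVec]
    have hs1 : Pd.Sol (∏ j, (g (bl j)).scaleRoots (θ j)) (fun n => A.det * z n) := hz.smul A.det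
    have hs2 := sq_sol kk bl θ g hPRZ hg w
    intro n
    rw [sq_eq kk bl θ g w n]
    refine Pd.Sol.ext (G_monic bl θ g hg) hs1 hs2 ?_ n
    intro n hn
    rw [G_deg kk bl θ g hg hd] at hn
    have h1 := mulVec_eq kk bl θ g en w (en.symm ⟨n, hn⟩)
    rw [← hA, hAw, Equiv.apply_symm_apply] at h1
    rw [← h1]
    show A.det * z n = A.det * z (en (en.symm ⟨n, hn⟩) : ℕ)
    rw [Equiv.apply_symm_apply]
  · -- sizes
    intro B hB0 hB φ β i l hl
    have hE1 : (1 : ℝ) ≤ (2 * Y) ^ N * (1 + L) ^ N := by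
      have ha : (1 : ℝ) ≤ (2 * Y) ^ N := one_le_pow₀ (by linarith)
      have hb : (1 : ℝ) ≤ (1 + L) ^ N := one_le_pow₀ (by linarith)
      nlinarith
    have hent : ∀ ρ c, ‖res φ (A ρ c)‖ ≤ (2 * Y) ^ N * (1 + L) ^ N := by
      intro ρ c
      have hr := (en ρ).2
      rw [hA]
      unfold Am
      rw [map_mul, norm_mul]
      refine mul_le_mul ?_ ?_ (norm_nonneg _) (by positivity)
      · refine (ADZ.cf_size' (res φ) (g c.1) (hg c.1) Y (by linarith) (hc φ c.1) _ _
          (by rw [hd]; exact c.2.1.2)).trans ?_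
        calc (1 + Y) ^ (en ρ : ℕ) ≤ (2 * Y) ^ (en ρ : ℕ) :=
              pow_le_pow_left₀ (by linarith) (by linarith) _
          _ ≤ (2 * Y) ^ N := pow_le_pow_right₀ (by linarith) (by omega)
      · refine (ADZ.cf_size' (res φ) (fb bl θ c.1) (fb_monic bl θ c.1) L hL0 (hfL φ c.1) _ _
          (by rw [fb_deg]; exact c.2.2.2)).trans ?_
        exact pow_le_pow_right₀ (by linarith) (by omega)
    have hadj : ∀ ρ c, ‖res φ (A.adjugate ρ c)‖ ≤
        (N.factorial : ℝ) * ((2 * Y) ^ N * (1 + L) ^ N) ^ N := by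
      intro ρ c
      rw [Matrix.adjugate_apply, RingHom.map_det]
      have h := Matrix.det_le (A := (res φ).mapMatrix (A.updateRow c (Pi.single ρ 1)))
        (abv := NormedField.toAbsoluteValue ℂ) (x := (2 * Y) ^ N * (1 + L) ^ N) (by
          intro i j
          show ‖(res φ).mapMatrix (A.updateRow c (Pi.single ρ 1)) i j‖ ≤ _
          rw [RingHom.mapMatrix_apply, Matrix.map_apply, Matrix.updateRow_apply]
          split_ifs with hi
          · rw [Pi.single_apply]
            split_ifs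
            · rw [map_one, norm_one]; exact hE1
            · rw [map_zero, norm_zero]; linarith
          · exact hent i j)
      rw [hcard, nsmul_eq_mul] at h
      exact h
    have hbB : ∀ ρ, ‖res φ (b ρ)‖ ≤ B := fun ρ => hB φ _ (en ρ).2
    have hwB : ∀ ρ, ‖res φ (w ρ)‖ ≤
        (N : ℝ) * ((N.factorial : ℝ) * ((2 * Y) ^ N * (1 + L) ^ N) ^ N) * B := by
      intro ρ
      rw [hw]
      simp only [Matrix.mulVec, dotProduct]
      rw [map_sum]
      refine (norm_sum_le _ _).trans ?_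
      have h2 : ∀ c ∈ (Finset.univ : Finset (Ix kk bl)),
          ‖res φ (A.adjugate ρ c * b c)‖ ≤
          ((N.factorial : ℝ) * ((2 * Y) ^ N * (1 + L) ^ N) ^ N) * B := by
        intro c _
        rw [map_mul, norm_mul]
        exact mul_le_mul (hadj ρ c) (hbB c) (norm_nonneg _) (by positivity)
      refine (Finset.sum_le_card_nsmul _ _ _ h2).trans (le_of_eq ?_)
      rw [Finset.card_univ, hcard, nsmul_eq_mul]
      ring
    set Q : ℝ := (N : ℝ) * ((N.factorial : ℝ) * ((2 * Y) ^ N * (1 + L) ^ N) ^ N) * B with hQ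
    have hQ0 : 0 ≤ Q := by positivity
    have hfin : ‖res φ (wv kk bl θ w β i l)‖ ≤ W * Q := by
      by_cases hi : i < kk β
      · have h1 : wv kk bl θ w β i l = bs kk bl θ w β ⟨i, hi⟩ l := dif_pos hi
        rw [h1]
        unfold bs
        rw [map_sum]
        refine (norm_sum_le _ _).trans ?_
        have h2 : ∀ l' ∈ (Finset.univ : Finset (Fin (rb bl β))),
            ‖res φ (w ⟨β, ⟨i, hi⟩, l'⟩ * Pd.cf (fb bl θ β) l (l' : ℕ))‖ ≤ Q * (1 + L) ^ r := by
          intro l' _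
          rw [map_mul, norm_mul]
          refine mul_le_mul (hwB _) ?_ (norm_nonneg _) hQ0
          refine (ADZ.cf_size' (res φ) (fb bl θ β) (fb_monic bl θ β) L hL0 (hfL φ β) _ _
            (by rw [fb_deg]; exact l'.2)).trans ?_
          exact pow_le_pow_right₀ (by linarith) (by omega)
        refine (Finset.sum_le_card_nsmul _ _ _ h2).trans ?_
        rw [Finset.card_univ, Fintype.card_fin, nsmul_eq_mul, hW]
        have h3 : (rb bl β : ℝ) ≤ r := by exact_mod_cast rb_le bl β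
        have h4 : 0 ≤ Q * (1 + L) ^ r := by positivity
        calc (rb bl β : ℝ) * (Q * (1 + L) ^ r) ≤ (r : ℝ) * (Q * (1 + L) ^ r) :=
              mul_le_mul_of_nonneg_right h3 h4
          _ = (r : ℝ) * (1 + L) ^ r * Q := by ring
      · have h1 : wv kk bl θ w β i l = 0 := dif_neg hi
        rw [h1, map_zero, norm_zero]
        positivity
    exact hfin.trans (num N W L Y B hW0 hL0 hY hB0)

end Pool.Agent.Work.MP_8d13b5_lc.Fm
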