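import Pool.Agent.Work.MP_8d13b5_lc.Fm.TameFamiliesDefs
import Pool.Agent.Work.MP_8d13b5_lc.Bd.B01

set_option autoImplicit false

/-! Criteria for tame families. -/

namespace Pool.Agent.Work.MP_8d13b5_lc.Fm.TameFamilies

open Pool.Agent.Work.MP_8d13b5_lc Polynomial Finset
open Pool.Agent.Work.MP_8d13b5_lc.Fm.FamilyReduction (Fam)

theorem root_ne {d : ℕ} {F : ℤ[X][X]} (hF : Fam d F) (a : Om) (ha : RootOf F a) : a ≠ 0 := by
  rintro rfl
  have h1 : (F.map (algebraMap ℤ[X] Om)).eval 0 = 0 := ha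
  rw [← coeff_zero_eq_eval_zero, coeff_map] at h1
  refine hF.ne ?_
  have hinj : Function.Injective (algebraMap ℤ[X] Om) := by
    rw [IsScalarTower.algebraMap_eq ℤ[X] (FractionRing ℤ[X]) Om]
    exact (algebraMap (FractionRing ℤ[X]) Om).injective.comp (IsFractionRing.injective _ _)
  exact hinj (by rw [h1, map_zero])

theorem roots_finite {d : ℕ} {F : ℤ[X][X]} (hF : Fam d F) : {a : Om | RootOf F a}.Finite := by
  have hm : (F.map (algebraMap ℤ[X] Om)).Monic := hF.monic.map _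
  refine (Multiset.finite_toSet (F.map (algebraMap ℤ[X] Om)).roots).subset ?_
  intro a ha
  exact (mem_roots hm.ne_zero).2 ha

/-- three elements have quotients of rank at most two -/
theorem rank_three (S : Set Om) (x y z : Om) (hx : x ≠ 0) (hy : y ≠ 0) (hz : z ≠ 0)
    (hS : ∀ b ∈ S, b = x ∨ b = y ∨ b = z) : Rank 2 S := by
  intro b c hbc
  have h0 : ∀ b ∈ S, b ≠ 0 := by
    intro b hb
    rcases hS b hb with rfl | rfl | rfl <;> assumption
  have key : ∀ b ∈ S, ∃ p q : ℤ, b / z = (x / z) ^ p * (y / z) ^ q := by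
    intro b hb
    rcases hS b hb with rfl | rfl | rfl
    · exact ⟨1, 0, by simp⟩
    · exact ⟨0, 1, by simp⟩
    · exact ⟨0, 0, by simp [div_self hz]⟩
  have hxz : x / z ≠ 0 := div_ne_zero hx hz
  have hyz : y / z ≠ 0 := div_ne_zero hy hz
  have hq : ∀ i, b i / c i ≠ 0 := fun i => div_ne_zero (h0 _ (hbc i).1) (h0 _ (hbc i).2)
  have key2 : ∀ i, ∃ m : ℕ, 0 < m ∧ ∃ p q : ℤ,
      (Units.mk0 (b i / c i) (hq i)) ^ m = (Units.mk0 (x / z) hxz) ^ p * (Units.mk0 (y / z) hyz) ^ q := by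
    intro i
    obtain ⟨p, q, h1⟩ := key _ (hbc i).1
    obtain ⟨p', q', h2⟩ := key _ (hbc i).2
    refine ⟨1, one_pos, p - p', q - q', ?_⟩
    ext
    simp only [Units.val_mk0, pow_one, Units.val_mul, Units.val_zpow_eq_zpow_val]
    rw [zpow_sub₀ hxz, zpow_sub₀ hyz]
    have h3 : b i / c i = (b i / z) / (c i / z) := by
      rw [div_div_div_cancel_right₀ hz]
    rw [h3, h1, h2]
    field_simp
  obtain ⟨p, q, r, hpqr, h⟩ := Rk.three_dep _ _ _ _ _ (key2 0) (key2 1) (key2 2)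
  refine ⟨![p, q, r], ?_, ?_⟩
  · intro he
    have h1 := congrFun he 0
    have h2 := congrFun he 1
    have h3 := congrFun he 2
    simp at h1 h2 h3
    rcases hpqr with h | h | h
    · exact h h1
    · exact h h2
    · exact h h3
  · have h1 := congrArg Units.val h
    simp only [Units.val_mul, Units.val_zpow_eq_zpow_val, Units.val_mk0, Units.val_one] at h1
    rw [Fin.prod_univ_three]
    simpa using h1

/-- at most three pairwise proportional roots -/
theorem tame_of_few {d : ℕ} {F : ℤ[X][X]} (hF : Fam d F)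
    (h : ∀ a, RootOf F a → (Cls F a).ncard ≤ 3) : Tame F := by
  classical
  intro a ha S hS
  left
  have hfin : (Cls F a).Finite := (roots_finite hF).subset fun b hb => hb.1
  have hSf : S.Finite := hfin.subset hS
  have hcard : S.ncard ≤ 3 := (Set.ncard_le_ncard hS hfin).trans (h a ha)
  have hS0 : ∀ b ∈ S, b ≠ 0 := fun b hb => root_ne hF b (hS hb).1
  obtain ⟨s, hs⟩ : ∃ s : Finset Om, (s : Set Om) = S := ⟨hSf.toFinset, hSf.coe_toFinset⟩
  have hsc : s.card ≤ 3 := by
    rw [← hs, Set.ncard_coe_finset] at hcard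
    exact hcard
  have hmem : ∀ b, b ∈ S ↔ b ∈ s := fun b => by rw [← hs]; rfl
  rcases Nat.lt_or_ge s.card 1 with h1 | h1
  · have h2 : s = ∅ := card_eq_zero.1 (by omega)
    exact rank_three S 1 1 1 one_ne_zero one_ne_zero one_ne_zero fun b hb => by
      rw [hmem, h2] at hb
      exact absurd hb (notMem_empty b)
  rcases Nat.lt_or_ge s.card 2 with h2 | h2
  · obtain ⟨x, hx⟩ := card_eq_one.1 (show s.card = 1 by omega)
    have hxS : x ∈ S := by rw [hmem, hx]; exact mem_singleton_self x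
    exact rank_three S x x x (hS0 x hxS) (hS0 x hxS) (hS0 x hxS) fun b hb => by
      rw [hmem, hx, mem_singleton] at hb
      exact Or.inl hb
  rcases Nat.lt_or_ge s.card 3 with h3 | h3
  · obtain ⟨x, y, _, hx⟩ := card_eq_two.1 (show s.card = 2 by omega)
    have hxS : x ∈ S := by rw [hmem, hx]; simp
    have hyS : y ∈ S := by rw [hmem, hx]; simp
    exact rank_three S x y y (hS0 x hxS) (hS0 y hyS) (hS0 y hyS) fun b hb => by
      rw [hmem, hx] at hb
      simp only [mem_insert, mem_singleton] at hb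
      rcases hb with hb | hb
      · exact Or.inl hb
      · exact Or.inr (Or.inl hb)
  · obtain ⟨x, y, z, _, _, _, hx⟩ := card_eq_three.1 (show s.card = 3 by omega)
    have hxS : x ∈ S := by rw [hmem, hx]; simp
    have hyS : y ∈ S := by rw [hmem, hx]; simp
    have hzS : z ∈ S := by rw [hmem, hx]; simp
    exact rank_three S x y z (hS0 x hxS) (hS0 y hyS) (hS0 z hzS) fun b hb => by
      rw [hmem, hx] at hb
      simpa only [mem_insert, mem_singleton] using hb

/-- real constant quotients -/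
theorem tame_of_real {d : ℕ} {F : ℤ[X][X]} (hF : Fam d F)
    (h : ∃ φ : Om →+* ℂ, ∀ a, RootOf F a → ∀ b ∈ Cls F a, (φ (b / a)).im = 0) : Tame F := by
  obtain ⟨φ, hφ⟩ := h
  intro a ha S hS
  right
  have hφi : Function.Injective φ := φ.injective
  refine ⟨(NormedField.toAbsoluteValue ℂ).comp hφi, Or.inr ⟨φ, fun x => rfl⟩, ?_⟩
  intro b c hbc
  refine ⟨![2, 0], ?_, ?_⟩
  · intro he
    have h1 := congrFun he 0
    simp at h1
  · rw [Fin.prod_univ_two]
    simp only [Matrix.cons_val_zero, Matrix.cons_val_one, zpow_zero, mul_one]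
    obtain ⟨⟨hbS, hbd⟩, hcS, hcd⟩ := hbc 0
    have hv : ‖φ (b 0)‖ = ‖φ (c 0)‖ := le_antisymm (hcd _ hbS) (hbd _ hcS)
    have ha0 : a ≠ 0 := root_ne hF a ha
    have hc0 : c 0 ≠ 0 := root_ne hF _ (hS hcS).1
    have hb1 := hφ a ha _ (hS hbS)
    have hc1 := hφ a ha _ (hS hcS)
    have hfa : φ a ≠ 0 := (map_ne_zero φ).2 ha0
    have hfc : φ (c 0) ≠ 0 := (map_ne_zero φ).2 hc0
    obtain ⟨p, hp⟩ : ∃ p : ℝ, φ (b 0 / a) = (p : ℂ) := ⟨_, Complex.ext rfl hb1⟩
    obtain ⟨q, hq⟩ : ∃ q : ℝ, φ (c 0 / a) = (q : ℂ) := ⟨_, Complex.ext rfl hc1⟩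
    have hpq : |p| = |q| := by
      have e1 : ‖φ (b 0 / a)‖ = ‖φ (c 0 / a)‖ := by rw [map_div₀, map_div₀, norm_div, norm_div, hv]
      rw [hp, hq, Complex.norm_real, Complex.norm_real, Real.norm_eq_abs, Real.norm_eq_abs] at e1
      exact e1
    have hq0 : q ≠ 0 := by
      rintro rfl
      have : φ (c 0 / a) ≠ 0 := (map_ne_zero φ).2 (div_ne_zero hc0 ha0)
      exact this (by rw [hq]; simp)
    have hsq : p ^ 2 = q ^ 2 := sq_eq_sq_iff_abs_eq_abs p q |>.2 hpq
    apply hφi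
    rw [map_zpow₀, map_one, map_div₀]
    have e2 : φ (b 0) / φ (c 0) = (p : ℂ) / q := by
      rw [← hp, ← hq, map_div₀, map_div₀]
      field_simp
    rw [e2]
    have e3 : ((p : ℂ) / q) ^ (2 : ℤ) = ((p ^ 2 / q ^ 2 : ℝ) : ℂ) := by
      push_cast
      rw [← div_pow]
      norm_cast
    rw [e3, hsq, div_self (pow_ne_zero 2 hq0)]
    norm_num

end Pool.Agent.Work.MP_8d13b5_lc.Fm.TameFamilies
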