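import Pool.Agent.Work.MP_8d13b5_lc.Fm.FamilyReductionDefs

set_option autoImplicit false

/-! Definitions for the theorem `TameFamilies` (the families, heights, recurrences and the Skolem Problem are
defined in `FamilyReductionDefs`). -/

namespace Pool.Agent.Work.MP_8d13b5_lc.Fm.TameFamilies

open Polynomial Finset

/-- the iterated exponential `2 ^ 2 ^ ... ^ 2 ^ x` with `h` twos -/
def E (h x : ℕ) : ℕ := (fun y => 2 ^ y)^[h] x

/-- an algebraic closure of the field `ℚ(t)` (the fraction field of `ℤ[t]`) -/
abbrev Om : Type := AlgebraicClosure (FractionRing ℤ[X])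

/-- the algebraic function `a` of `t` is a root of `F` -/
def RootOf (F : ℤ[X][X]) (a : Om) : Prop := (F.map (algebraMap ℤ[X] Om)).eval a = 0

/-- the class of `a`: the roots of `F` which are constant multiples of `a` (the quotient is algebraic over `ℚ`) -/
def Cls (F : ℤ[X][X]) (a : Om) : Set Om := {b | RootOf F b ∧ IsAlgebraic ℤ (b / a)}

/-- The quotients of the elements of `S` generate a group of rank at most `n`: any `n + 1` quotients are
multiplicatively dependent. -/
def Rank (n : ℕ) (S : Set Om) : Prop :=
  ∀ b c : Fin (n + 1) → Om, (∀ i, b i ∈ S ∧ c i ∈ S) →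
    ∃ e : Fin (n + 1) → ℤ, e ≠ 0 ∧ ∏ i, (b i / c i) ^ e i = 1

/-- `v` is nonarchimedean, or the absolute value of an embedding in `ℂ` -/
def IsAbs (v : AbsoluteValue Om ℝ) : Prop :=
  IsNonarchimedean v ∨ ∃ φ : Om →+* ℂ, ∀ x, v x = ‖φ x‖

/-- The tame families: for every root `a` and every set `S` of roots in the class of `a`, the quotients of the
elements of `S` generate a group of rank at most two, or for some absolute value `v` the quotients of the
`v`-dominant elements of `S` generate a group of rank at most one. -/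
def Tame (F : ℤ[X][X]) : Prop :=
  ∀ a, RootOf F a → ∀ S ⊆ Cls F a, Rank 2 S ∨
    ∃ v : AbsoluteValue Om ℝ, IsAbs v ∧ Rank 1 {c | c ∈ S ∧ ∀ b ∈ S, v b ≤ v c}

end Pool.Agent.Work.MP_8d13b5_lc.Fm.TameFamilies
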