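import Pool.Agent.Work.MP_8d13b5_lc.Fm.TameFamiliesDefs

set_option autoImplicit false

namespace Pool.Agent.Work.MP_8d13b5_lc.Fm.TameFamiliesDraft

open Pool.Agent.Work.MP_8d13b5_lc.Fm.FamilyReduction
  Pool.Agent.Work.MP_8d13b5_lc.Fm.TameFamilies Polynomial

/-- **The Skolem Problem in all tame one-parameter families of linear recurrences.** A family `F` is tame
if for every set `S` of pairwise proportional roots (constant quotients) the quotients of the elements of `S`
generate a group of rank at most two, or for some absolute value the quotients of the dominant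
elements of `S` generate a group of rank at most one.

(1) `F` is tame if at most three roots are pairwise proportional (for instance if the order is at most
three), or if all constant quotients of roots are real in some embedding.

(2) For every tame `F` there are `N ≥ 1`, `T₀`, `h` (depending on `F` only) such that:
zeros: for all rational `t` of height `T ≥ T₀`, all solutions `v` of the recurrence of `F(t, X)` with integer
initial values and all `q < N`: `v_(q + N n) = 0` for all `n`, or `v_(q + N n) = 0` implies `n ≤ E_h(B + T)`, where
`B` bounds the initial values;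
decision: one primitive recursive procedure decides from `t` (of height at least `T₀`) and the initial values
whether the solution has a zero;
the whole family: if the Skolem Problem is decidable for each of the finitely many members of the family
with `T < T₀`, then it is decidable for the whole family. -/
def Statement : Prop :=
    (∀ (d : ℕ) (F : ℤ[X][X]), Fam d F →
      (∀ a, RootOf F a → (Cls F a).ncard ≤ 3) ∨
        (∃ φ : Om →+* ℂ, ∀ a, RootOf F a → ∀ b ∈ Cls F a, (φ (b / a)).im = 0) → Tame F) ∧
    ∀ (d : ℕ) (F : ℤ[X][X]), Fam d F → Tame F → ∃ N T₀ h : ℕ, 1 ≤ N ∧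
      (∀ t : ℚ, T₀ ≤ height t → ∀ (z : ℕ → ℤ) (v : ℕ → ℚ), (∀ i < d, v i = z i) → Rec F t v →
        ∀ q < N, (∀ n, v (q + N * n) = 0) ∨
          ∀ B : ℕ, Bound d B z → ∀ n, v (q + N * n) = 0 → n ≤ E h (B + height t)) ∧
      (∃ A : List ℤ × (ℤ × ℤ) → Bool, Primrec A ∧
        ∀ t : ℚ, T₀ ≤ height t → ∀ x : List ℤ, x.length = d →
          (A (x, (t.num, (t.den : ℤ))) = true ↔ ZeroQ F t x)) ∧
      ((∀ t : ℚ, height t < T₀ → aeval t (F.coeff 0) ≠ 0 → SkolemAt F t) → SkolemAll F)

end Pool.Agent.Work.MP_8d13b5_lc.Fm.TameFamiliesDraft
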