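import Pool.Agent.Work.MP_8d13b5_lc.Fm.TameFamiliesProof
import Pool.Agent.Work.MP_8d13b5_lc.Fm.TameCrit
import Pool.Agent.Work.MP_8d13b5_lc.Fm.TameFamiliesDraft
import Pool.Agent.Work.MP_8d13b5_lc.Fm.All8

set_option autoImplicit false

namespace Pool.Agent.Work.MP_8d13b5_lc.Fm.TameFamilies

theorem main : TameFamiliesDraft.Statement := by
  refine ⟨fun d F hF h => ?_, fun d F hF hT => main_of aTNZ aTDU d F hF hT⟩
  rcases h with h | h
  · exact tame_of_few hF h
  · exact tame_of_real hF h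

end Pool.Agent.Work.MP_8d13b5_lc.Fm.TameFamilies
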