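import Pool.Agent.Work.MP_8d13b5_lc.Fm.StmtsTame
import Pool.Agent.Work.MP_8d13b5_lc.Fm.FamilyReductionProof
import Pool.Agent.Work.MP_8d13b5_lc.Fm.TameFamiliesDefs
import Pool.Agent.Work.MP_8d13b5_lc.Bd.B01

set_option autoImplicit false

/-! Proof of the theorem `TameFamilies`, in the root form. -/

namespace Pool.Agent.Work.MP_8d13b5_lc.Fm.TameFamilies

open Pool.Agent.Work.MP_8d13b5_lc Pool.Agent.Work.MP_8d13b5_lc.Fm Polynomial Finset
open Pool.Agent.Work.MP_8d13b5_lc.Fm.FamilyReduction (Fam height Bound ZeroQ SkolemAt SkolemAll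
  exists_wt lift zero_iff init_bound coprime mx_eq height_pos sc primrec_sc sc_getD exists_sol
  zeroQ_iff patch)

theorem tame_iff (F : ℤ[X][X]) : Tame F ↔ TameR F := Iff.rfl

theorem E_succ (h x : ℕ) : E (h + 1) x = 2 ^ E h x := by
  unfold E
  rw [Function.iterate_succ_apply']

theorem tow_le_E (h x : ℕ) : Rk.tow h x ≤ E (h + 2) x := by
  induction h with
  | zero =>
    rw [Rk.tow_zero, E_succ, E_succ]
    have h1 : x + 1 ≤ 2 ^ x := Nat.lt_two_pow_self
    have h2 : 2 ^ (x + 1) ≤ 2 ^ 2 ^ x := Nat.pow_le_pow_right (by norm_num) h1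
    have h3 : E 0 x = x := rfl
    rw [h3]
    refine le_trans ?_ h2
    rw [pow_succ]
    omega
  | succ h ih =>
    rw [Rk.tow_succ, E_succ]
    exact Nat.pow_le_pow_right (by norm_num) ih

/-- the tower of the scaled bound -/
theorem bound_E (h p : ℕ) : ∃ k : ℕ, ∀ B T : ℕ, Rk.tow h (B * T ^ p + T) ≤ E k (B + T) := by
  have h1 : Rk.Elem fun x => Rk.tow h (x * x ^ p + x) := by
    refine Rk.Elem.comp (f := Rk.tow h) (g := fun x => x * x ^ p + x) ⟨h, fun _ => le_rfl⟩ ?_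
    exact (Rk.Elem.id.mul (Rk.Elem.id.pow (Rk.Elem.const p))).add Rk.Elem.id
  obtain ⟨k, hk⟩ := h1
  refine ⟨k + 2, fun B T => le_trans ?_ ((hk (B + T)).trans (tow_le_E k _))⟩
  refine Rk.tow_mono_right h ?_
  refine Nat.add_le_add (Nat.mul_le_mul (Nat.le_add_right _ _) ?_) (Nat.le_add_left _ _)
  exact Nat.pow_le_pow_left (Nat.le_add_left _ _) _

theorem main_of (hTNZ : StTNZ) (hTDU : StTDU) (d : ℕ) (F : ℤ[X][X]) (hF : Fam d F) (hT : Tame F) :
    ∃ N T₀ h : ℕ, 1 ≤ N ∧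
      (∀ t : ℚ, T₀ ≤ height t → ∀ (z : ℕ → ℤ) (v : ℕ → ℚ), (∀ i < d, v i = z i) →
        FamilyReduction.Rec F t v → ∀ q < N, (∀ n, v (q + N * n) = 0) ∨
          ∀ B : ℕ, Bound d B z → ∀ n, v (q + N * n) = 0 → n ≤ E h (B + height t)) ∧
      (∃ A : List ℤ × (ℤ × ℤ) → Bool, Primrec A ∧
        ∀ t : ℚ, T₀ ≤ height t → ∀ x : List ℤ, x.length = d →
          (A (x, (t.num, (t.den : ℤ))) = true ↔ ZeroQ F t x)) ∧
      ((∀ t : ℚ, height t < T₀ → aeval t (F.coeff 0) ≠ 0 → SkolemAt F t) → SkolemAll F) := by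
  obtain ⟨s, hs⟩ := exists_wt hF
  have hd1 : 1 ≤ F.natDegree := by rw [hF.deg]; exact hF.pos
  obtain ⟨N, T₀, h, hN, H⟩ := hTNZ F s hF.monic hd1 hF.ne hs ((tame_iff F).1 hT)
  rw [hF.deg] at H
  obtain ⟨T₁, A, hA, hAT⟩ := hTDU F s d hF.monic hF.deg hF.pos hF.ne hs N T₀ h hN H
  obtain ⟨k, hk⟩ := bound_E h (s * d)
  have hdec : ∀ t : ℚ, T₀ + T₁ ≤ height t → ∀ x : List ℤ, x.length = d →
      (A (sc s (x, (t.num, (t.den : ℤ))), (t.num, (t.den : ℤ))) = true ↔ ZeroQ F t x) := by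
    intro t ht x hx
    obtain ⟨v, hv, hvi⟩ := exists_sol hF t x
    obtain ⟨u, hu, hui, huv⟩ := lift hF hs t (fun i => x.getD i 0) v hvi hv
    have h1 := hAT t.num t.den (coprime t) (by rw [mx_eq]; omega) (by rw [mx_eq]; omega)
      (sc s (x, (t.num, (t.den : ℤ)))) u (by simpa [sc] using hx)
      (fun i hi' => by rw [sc_getD x s _ _ i (by omega)]; exact hui i hi') hu
    rw [zeroQ_iff hF t x v hv hvi, ← exists_congr fun n => zero_iff t v u huv n]
    exact h1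
  refine ⟨N, T₀ + T₁, k, hN, ?_, ?_, ?_⟩
  · intro t ht z v hz hv q hq
    obtain ⟨u, hu, hui, huv⟩ := lift hF hs t z v hz hv
    rcases H t.num t.den (coprime t) (by rw [mx_eq]; omega) u hu q hq with h0 | h0
    · exact Or.inl fun n => (zero_iff t v u huv _).1 (h0 n)
    · right
      intro B hB n hn
      by_contra hcon
      rw [not_le] at hcon
      refine h0 (B * height t ^ (s * d)) (init_bound t z u B hB hui) n ?_
        ((zero_iff t v u huv _).2 hn)
      rw [mx_eq]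
      exact lt_of_le_of_lt (hk B (height t)) hcon
  · exact ⟨fun w => A (sc s w, w.2), hA.comp ((primrec_sc s).pair Primrec.snd), hdec⟩
  · intro hE
    exact patch hF (T₀ + T₁) (fun w => A (sc s w, w.2))
      (hA.comp ((primrec_sc s).pair Primrec.snd)).to_comp hdec hE

end Pool.Agent.Work.MP_8d13b5_lc.Fm.TameFamilies
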